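import Pool.Agent.Lib.MP_9059b8_an.Defs

/-! # Calculus of the partial derivatives `pd` -/

open MeasureTheory Set Filter Topology

namespace OPC

variable {n : ℕ}

theorem fderiv_apply_eq_sum (f : V n → ℝ) (x v : V n) :
    fderiv ℝ f x v = ∑ i, v i * pd i f x := by
  have hv : v = ∑ i, v i • e i := by
    ext j
    simp [e, Finset.sum_apply, Pi.single_apply]
  conv_lhs => rw [hv]
  simp [pd, map_sum, map_smul]

theorem norm_sq_eq_sum (x : V n) : ‖x‖ ^ 2 = ∑ i, (x i) ^ 2 := by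
  rw [EuclideanSpace.norm_sq_eq]
  simp

theorem norm_clm_sq (L : V n →L[ℝ] ℝ) : ‖L‖ ^ 2 = ∑ i, (L (e i)) ^ 2 := by
  obtain ⟨y, rfl⟩ := (InnerProductSpace.toDual ℝ (V n)).surjective L
  rw [LinearIsometryEquiv.norm_map, norm_sq_eq_sum]
  refine Finset.sum_congr rfl fun i _ => ?_
  simp [e, InnerProductSpace.toDual_apply_apply, EuclideanSpace.inner_single_right]

theorem norm_fderiv_sq (f : V n → ℝ) (x : V n) :
    ‖fderiv ℝ f x‖ ^ 2 = ∑ i, (pd i f x) ^ 2 := by
  rw [norm_clm_sq]; rfl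

theorem pd_congr {E : Set (V n)} (hE : IsOpen E) {f g : V n → ℝ} (h : ∀ x ∈ E, f x = g x)
    (i : Fin n) : ∀ x ∈ E, pd i f x = pd i g x := by
  intro x hx
  have : f =ᶠ[nhds x] g := by
    filter_upwards [hE.mem_nhds hx] with y hy using h y hy
  simp [pd, this.fderiv_eq]

theorem contDiffOn_pd {E : Set (V n)} (hE : IsOpen E) {f : V n → ℝ} {m k : WithTop ℕ∞}
    (hf : ContDiffOn ℝ k f E) (hmk : m + 1 ≤ k) (i : Fin n) : ContDiffOn ℝ m (pd i f) E :=
  (hf.fderiv_of_isOpen hE hmk).clm_apply contDiffOn_const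

theorem contDiffOn_pd_top {E : Set (V n)} (hE : IsOpen E) {f : V n → ℝ}
    (hf : ContDiffOn ℝ (⊤ : ℕ∞) f E) (i : Fin n) : ContDiffOn ℝ (⊤ : ℕ∞) (pd i f) E :=
  contDiffOn_pd hE hf (by simp) i

theorem contDiff_pd {f : V n → ℝ} {m k : WithTop ℕ∞}
    (hf : ContDiff ℝ k f) (hmk : m + 1 ≤ k) (i : Fin n) : ContDiff ℝ m (pd i f) :=
  (hf.fderiv_right hmk).clm_apply contDiff_const

theorem pd_pd_eq {E : Set (V n)} (hE : IsOpen E) {f : V n → ℝ} (hf : ContDiffOn ℝ 2 f E)
    (i j : Fin n) {x : V n} (hx : x ∈ E) :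
    pd i (pd j f) x = fderiv ℝ (fderiv ℝ f) x (e i) (e j) := by
  have h1 : DifferentiableAt ℝ (fderiv ℝ f) x := by
    have : ContDiffOn ℝ 1 (fderiv ℝ f) E := hf.fderiv_of_isOpen hE (by norm_num)
    exact (this.contDiffAt (hE.mem_nhds hx)).differentiableAt (by norm_num)
  unfold pd
  rw [fderiv_clm_apply h1 (differentiableAt_const _)]
  simp

theorem pd_comm {E : Set (V n)} (hE : IsOpen E) {f : V n → ℝ} (hf : ContDiffOn ℝ 2 f E)
    (i j : Fin n) {x : V n} (hx : x ∈ E) : pd i (pd j f) x = pd j (pd i f) x := by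
  rw [pd_pd_eq hE hf i j hx, pd_pd_eq hE hf j i hx]
  have h := (hf.contDiffAt (hE.mem_nhds hx))
  exact (h.isSymmSndFDerivAt (by simp)).eq _ _

theorem pd_add {f g : V n → ℝ} {x : V n} (hf : DifferentiableAt ℝ f x)
    (hg : DifferentiableAt ℝ g x) (i : Fin n) :
    pd i (fun y => f y + g y) x = pd i f x + pd i g x := by
  unfold pd; rw [fderiv_fun_add hf hg]; rfl

theorem pd_sub {f g : V n → ℝ} {x : V n} (hf : DifferentiableAt ℝ f x)
    (hg : DifferentiableAt ℝ g x) (i : Fin n) :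
    pd i (fun y => f y - g y) x = pd i f x - pd i g x := by
  unfold pd; rw [fderiv_fun_sub hf hg]; rfl

theorem pd_neg {f : V n → ℝ} {x : V n} (i : Fin n) :
    pd i (fun y => - f y) x = - pd i f x := by
  unfold pd; rw [fderiv_fun_neg]; rfl

theorem pd_const (c : ℝ) (i : Fin n) (x : V n) : pd i (fun _ => c) x = 0 := by
  simp [pd]

theorem pd_mul {f g : V n → ℝ} {x : V n} (hf : DifferentiableAt ℝ f x)
    (hg : DifferentiableAt ℝ g x) (i : Fin n) :
    pd i (fun y => f y * g y) x = pd i f x * g x + f x * pd i g x := by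
  unfold pd; rw [fderiv_fun_mul hf hg]; simp; ring

theorem pd_const_mul {f : V n → ℝ} {x : V n} (c : ℝ) (i : Fin n) :
    pd i (fun y => c * f y) x = c * pd i f x := by
  unfold pd
  by_cases hf : DifferentiableAt ℝ f x
  · rw [fderiv_const_mul hf]; simp
  · by_cases hc : c = 0
    · subst hc; simp
    · have h2 : ¬ DifferentiableAt ℝ (fun y => c * f y) x := by
        intro h
        apply hf
        have := h.const_mul c⁻¹
        refine this.congr_of_eventuallyEq (Eventually.of_forall fun y => ?_)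
        field_simp
      rw [fderiv_zero_of_not_differentiableAt hf, fderiv_zero_of_not_differentiableAt h2]; simp

theorem pd_sum {ι : Type*} (s : Finset ι) {f : ι → V n → ℝ} {x : V n}
    (hf : ∀ j ∈ s, DifferentiableAt ℝ (f j) x) (i : Fin n) :
    pd i (fun y => ∑ j ∈ s, f j y) x = ∑ j ∈ s, pd i (f j) x := by
  unfold pd; rw [fderiv_fun_sum hf]; simp

theorem pd_pow {f : V n → ℝ} {x : V n} (hf : DifferentiableAt ℝ f x) (k : ℕ) (i : Fin n) :
    pd i (fun y => f y ^ k) x = k * f x ^ (k - 1) * pd i f x := by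
  unfold pd; rw [fderiv_fun_pow _ hf]; simp

theorem pd_comp {f : V n → ℝ} {φ : ℝ → ℝ} {x : V n} (hφ : DifferentiableAt ℝ φ (f x))
    (hf : DifferentiableAt ℝ f x) (i : Fin n) :
    pd i (fun y => φ (f y)) x = deriv φ (f x) * pd i f x := by
  unfold pd
  have := (hφ.hasDerivAt.comp_hasFDerivAt x hf.hasFDerivAt).fderiv
  have h2 : fderiv ℝ (fun y => φ (f y)) x = deriv φ (f x) • fderiv ℝ f x := this
  rw [h2]; simp

theorem pd_div {f g : V n → ℝ} {x : V n} (hf : DifferentiableAt ℝ f x)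
    (hg : DifferentiableAt ℝ g x) (h0 : g x ≠ 0) (i : Fin n) :
    pd i (fun y => f y / g y) x = (pd i f x * g x - f x * pd i g x) / g x ^ 2 := by
  have h1 : (fun y => f y / g y) = fun y => f y * (g y)⁻¹ := by
    funext y; rw [div_eq_mul_inv]
  rw [h1, pd_mul (g := fun y => (g y)⁻¹) hf (hg.inv h0)]
  have h2 : pd i (fun y => (g y)⁻¹) x = - pd i g x / g x ^ 2 := by
    rw [pd_comp (φ := fun t => t⁻¹) (differentiableAt_inv h0) hg]
    simp [deriv_inv]; ring
  rw [h2]; field_simp; ring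

theorem pd_coord (i j : Fin n) (x : V n) :
    pd i (fun y => y j) x = if i = j then 1 else 0 := by
  unfold pd
  have : (fun y : V n => y j) = (EuclideanSpace.proj j : V n →L[ℝ] ℝ) := rfl
  rw [this, ContinuousLinearMap.fderiv]
  simp [e, Pi.single_apply, eq_comm]

theorem pd_zero_of_eventually {f : V n → ℝ} {x : V n} (h : f =ᶠ[nhds x] fun _ => 0) (i : Fin n) :
    pd i f x = 0 := by
  unfold pd; rw [h.fderiv_eq]; simp

end OPC
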