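import Pool.Agent.Lib.MP_9059b8_an.Defs

/-!
# Certificates given by lists of isotropic terms

Cartesian degree-0 quantities on the cone (`r = ‖x‖`): `Sm = r D²u` (matrix), `pv` = tangential part
of the gradient, `Tt = r² D³u`, `ss = r |D²u|`. A term is
`coef * r^{1-n} * ss^{ϖ+1-wt-ge} * (product of factors) * shape`, with `ϖ = 2p`.

`LS R m` is the link state in the adapted frame (`x = e_last`, `D²u` diagonal), over a general
commutative `ℚ`-algebra `R` (so that the same formulas can be evaluated in polynomial rings):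
`l` = eigenvalues, `p` = tangential gradient, `u`, `eps` = `1/|S|` (or `1` for the unscaled
quantities), `T` = tangential third derivatives.
-/

open MeasureTheory Set Filter Topology

namespace OPC

/-- scalar factors: `c3 = tr S³`, `c4 = tr S⁴`, `b0 = |∇u|²`, `b_a = q·S^a q`, `u2 = u²`, `u1 = u` -/
inductive Fac | c3 | c4 | b0 | b1 | b2 | b3 | u2 | u1
  deriving DecidableEq, Repr

/-- weight = degree in `S` -/
def Fac.wt : Fac → ℕ
  | .c3 => 3 | .c4 => 4 | .b0 => 0 | .b1 => 1 | .b2 => 2 | .b3 => 3 | .u2 => 0 | .u1 => 0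

/-- matrices: `pow a = S^a`, `sym a b = sym(S^a p ⊗ S^b p)` -/
inductive Mt | pow (a : ℕ) | sym (a b : ℕ)
  deriving DecidableEq, Repr

def Mt.wt : Mt → ℕ
  | .pow a => a | .sym a b => a + b

/-- `pow a` is only allowed for `a ≥ 1` (it must be tangential) -/
def Mt.ok : Mt → Prop
  | .pow a => 1 ≤ a | .sym _ _ => True

/-- shapes: `v0 a = S^a p`; `p1 A = T:A`; `h1 A B = B (T:A) - A (T:B)`;
`h2 a b c = (S^a p ∧ S^b p)(T:S^c)` -/
inductive Shape | v0 (a : ℕ) | p1 (A : Mt) | h1 (A B : Mt) | h2 (a b c : ℕ)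
  deriving DecidableEq, Repr

/-- weight (degree in `S`, where `T` counts 2) -/
def Shape.wt : Shape → ℕ
  | .v0 a => a | .p1 A => A.wt + 2 | .h1 A B => A.wt + B.wt + 2 | .h2 a b c => a + b + c + 2

structure Term where
  shape : Shape
  facs : List Fac
  ge : ℕ
  coef : ℚ
  deriving DecidableEq, Repr

def Term.wt (g : Term) : ℕ := g.shape.wt + (g.facs.map Fac.wt).sum

/-- the exponent of `|S|`: `ϖ + 1 - wt - ge` -/
def Term.ex (ϖ : ℚ) (g : Term) : ℚ := ϖ + 1 - g.wt - g.ge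

/-- admissible terms: tangential matrices; `ge = 0` for the terms with `T`, `ge ≤ 1` for `v0` -/
def Term.ok (g : Term) : Prop :=
  match g.shape with
  | .v0 _ => g.ge ≤ 1
  | .p1 A => A.ok ∧ g.ge = 0
  | .h1 A B => A.ok ∧ B.ok ∧ g.ge = 0
  | .h2 _ _ c => 1 ≤ c ∧ g.ge = 0

section Cartesian

variable {n : ℕ}

noncomputable def Sm (u : V n → ℝ) (x : V n) : Matrix (Fin n) (Fin n) ℝ :=
  Matrix.of fun i j => ‖x‖ * S u i j x

noncomputable def pv (u : V n → ℝ) (x : V n) : Fin n → ℝ :=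
  fun i => q u i x - u x * x i / ‖x‖ ^ 2

noncomputable def Tt (u : V n → ℝ) (x : V n) (k i j : Fin n) : ℝ := ‖x‖ ^ 2 * T u k i j x

noncomputable def ss (u : V n → ℝ) (x : V n) : ℝ := ‖x‖ * √(NN u x)

noncomputable def Fac.val (u : V n → ℝ) (x : V n) : Fac → ℝ
  | .c3 => Matrix.trace (Sm u x ^ 3)
  | .c4 => Matrix.trace (Sm u x ^ 4)
  | .b0 => gg u x
  | .b1 => pv u x ⬝ᵥ (Sm u x).mulVec (pv u x)
  | .b2 => pv u x ⬝ᵥ (Sm u x ^ 2).mulVec (pv u x)
  | .b3 => pv u x ⬝ᵥ (Sm u x ^ 3).mulVec (pv u x)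
  | .u2 => (u x / ‖x‖) ^ 2
  | .u1 => u x / ‖x‖

/-- product of the factors -/
noncomputable def facsVal (u : V n → ℝ) (x : V n) (L : List Fac) : ℝ :=
  (L.map (Fac.val u x)).prod

/-- `S^a p` -/
noncomputable def Sp (u : V n → ℝ) (x : V n) (a : ℕ) : Fin n → ℝ := (Sm u x ^ a).mulVec (pv u x)

noncomputable def Mt.val (u : V n → ℝ) (x : V n) : Mt → Matrix (Fin n) (Fin n) ℝ
  | .pow a => Sm u x ^ a
  | .sym a b => Matrix.of fun i j => (Sp u x a i * Sp u x b j + Sp u x b i * Sp u x a j) / 2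

noncomputable def wedge (u : V n → ℝ) (x : V n) (a b : ℕ) : Matrix (Fin n) (Fin n) ℝ :=
  Matrix.of fun i j => Sp u x a i * Sp u x b j - Sp u x b i * Sp u x a j

/-- `T:A` -/
noncomputable def TA (u : V n → ℝ) (x : V n) (A : Matrix (Fin n) (Fin n) ℝ) (k : Fin n) : ℝ :=
  ∑ i, ∑ j, Tt u x k i j * A i j

noncomputable def Shape.val (u : V n → ℝ) (x : V n) : Shape → Fin n → ℝ
  | .v0 a => Sp u x a
  | .p1 A => TA u x (A.val u x)
  | .h1 A B => fun k => ∑ l, (B.val u x k l * TA u x (A.val u x) l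
      - A.val u x k l * TA u x (B.val u x) l)
  | .h2 a b c => fun k => ∑ l, wedge u x a b k l * TA u x (Sm u x ^ c) l

/-- the Cartesian vector field of a term (homogeneous of degree `1 - n`) -/
noncomputable def Term.field (ϖ : ℚ) (g : Term) (u : V n → ℝ) (k : Fin n) (x : V n) : ℝ :=
  (g.coef : ℝ) * (‖x‖ ^ (1 - (n : ℤ)) *
    ((ss u x ^ ((g.ex ϖ : ℚ) : ℝ) * facsVal u x g.facs) * g.shape.val u x k))

/-- the field of a list of terms -/
noncomputable def Vfield (ϖ : ℚ) (L : List Term) (u : V n → ℝ) (k : Fin n) (x : V n) : ℝ :=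
  (L.map fun g => g.field ϖ u k x).sum

/-- `F = φ² = r^{2-n} (r|S|)^ϖ` -/
noncomputable def Ff (ϖ : ℚ) (u : V n → ℝ) (x : V n) : ℝ :=
  ‖x‖ ^ (2 - (n : ℤ)) * ss u x ^ (ϖ : ℝ)

/-- the certificate field `W = V - F w` -/
noncomputable def Wfield (ϖ : ℚ) (L : List Term) (u : V n → ℝ) (k : Fin n) (x : V n) : ℝ :=
  Vfield ϖ L u k x - Ff ϖ u x * w u k x

end Cartesian

section Link

variable {R : Type*} [CommRing R] [Algebra ℚ R] {m : ℕ}

/-- link state in the adapted frame -/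
structure LS (R : Type*) (m : ℕ) where
  l : Fin m → R
  p : Fin m → R
  u : R
  eps : R
  T : Fin m → Fin m → Fin m → R

/-- `h_a(x,y) = ∑_{c<a} x^c y^{a-1-c}` -/
def hh (a : ℕ) (x y : R) : R := ∑ c ∈ Finset.range a, x ^ c * y ^ (a - 1 - c)

/-- `w_k = ∑ l_i T_kii` -/
def LS.w (X : LS R m) (k : Fin m) : R := ∑ i, X.l i * X.T k i i

/-- `(S^a p)_i` -/
def LS.v (X : LS R m) (a : ℕ) (i : Fin m) : R := X.l i ^ a * X.p i

/-- `∂_k (S^a p)_i` -/
def LS.dv (X : LS R m) (a : ℕ) (k i : Fin m) : R :=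
  ∑ j, hh a (X.l i) (X.l j) * X.T k i j * X.p j
    + (if i = k then X.l i ^ a * (X.l i - X.eps * X.u) else 0)

/-- `q·S^a q` (`a ≥ 1`) -/
def LS.b (X : LS R m) (a : ℕ) : R := ∑ i, X.l i ^ a * X.p i ^ 2

/-- `∂_k (q·S^a q)` -/
def LS.db (X : LS R m) (a : ℕ) (k : Fin m) : R :=
  ∑ i, ∑ j, hh a (X.l i) (X.l j) * X.T k i j * X.p i * X.p j
    + 2 * X.l k ^ a * (X.l k - X.eps * X.u) * X.p k

def Fac.lv (X : LS R m) : Fac → R
  | .c3 => ∑ i, X.l i ^ 3
  | .c4 => ∑ i, X.l i ^ 4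
  | .b0 => ∑ i, X.p i ^ 2 + X.u ^ 2
  | .b1 => X.b 1
  | .b2 => X.b 2
  | .b3 => X.b 3
  | .u2 => X.u ^ 2
  | .u1 => X.u

def Fac.ld (X : LS R m) (k : Fin m) : Fac → R
  | .c3 => 3 * ∑ i, X.l i ^ 2 * X.T k i i
  | .c4 => 4 * ∑ i, X.l i ^ 3 * X.T k i i
  | .b0 => 2 * X.l k * X.p k
  | .b1 => X.db 1 k
  | .b2 => X.db 2 k
  | .b3 => X.db 3 k
  | .u2 => 2 * X.u * X.eps * X.p k
  | .u1 => X.eps * X.p k

def facsLv (X : LS R m) : List Fac → R
  | [] => 1
  | f :: L => f.lv X * facsLv X L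

def facsLd (X : LS R m) (k : Fin m) : List Fac → R
  | [] => 0
  | f :: L => f.ld X k * facsLv X L + f.lv X * facsLd X k L

/-- `(1/2 : R)` -/
def half : R := algebraMap ℚ R (1 / 2)

def Mt.lv (X : LS R m) (i j : Fin m) : Mt → R
  | .pow a => if i = j then X.l i ^ a else 0
  | .sym a b => half * (X.v a i * X.v b j + X.v b i * X.v a j)

/-- `∂_k A_ij` -/
def Mt.ld (X : LS R m) (k i j : Fin m) : Mt → R
  | .pow a => hh a (X.l i) (X.l j) * X.T k i j
  | .sym a b => half * (X.dv a k i * X.v b j + X.v a i * X.dv b k j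
      + X.dv b k i * X.v a j + X.v b i * X.dv a k j)

def LS.wl (X : LS R m) (a b : ℕ) (i j : Fin m) : R := X.v a i * X.v b j - X.v b i * X.v a j

def LS.wd (X : LS R m) (a b : ℕ) (k i j : Fin m) : R :=
  X.dv a k i * X.v b j + X.v a i * X.dv b k j - X.dv b k i * X.v a j - X.v b i * X.dv a k j

/-- `(T:A)_l` -/
def Mt.TA (X : LS R m) (A : Mt) (l : Fin m) : R := ∑ i, ∑ j, X.T l i j * A.lv X i j

/-- `T_l : ∂_k A` -/
def Mt.TdA (X : LS R m) (A : Mt) (l k : Fin m) : R := ∑ i, ∑ j, X.T l i j * A.ld X k i j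

/-- `S:A` -/
def Mt.SA (X : LS R m) (A : Mt) : R := ∑ i, X.l i * A.lv X i i

/-- `tr A` -/
def Mt.tr (X : LS R m) (A : Mt) : R := ∑ i, A.lv X i i

/-- the link divergence of `f * shape`, for a scalar `f` with derivatives `fk` -/
def Shape.ldiv (X : LS R m) (f : R) (fk : Fin m → R) : Shape → R
  | .v0 a => ∑ k, (fk k * X.v a k + f * X.dv a k k)
  | .p1 A => ∑ k, fk k * A.TA X k + f * (∑ k, A.TdA X k k + m * X.eps ^ 2 * A.SA X)
  | .h1 A B => ∑ k, fk k * ∑ l, (B.lv X k l * A.TA X l - A.lv X k l * B.TA X l)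
      + f * (∑ k, ∑ l, (B.ld X k k l * A.TA X l + B.lv X k l * A.TdA X l k
          - A.ld X k k l * B.TA X l - A.lv X k l * B.TdA X l k)
        + X.eps ^ 2 * (B.tr X * A.SA X - A.tr X * B.SA X))
  | .h2 a b c => ∑ k, fk k * ∑ l, X.wl a b k l * (Mt.pow c).TA X l
      + f * ∑ k, ∑ l, (X.wd a b k k l * (Mt.pow c).TA X l
          + X.wl a b k l * (Mt.pow c).TdA X l k)

/-- the scaled link divergence of a term (the power `|S|^ex` has derivative `ex w_k` at `|S| = 1`) -/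
def Term.ldiv (ϖ : ℚ) (X : LS R m) (g : Term) : R :=
  algebraMap ℚ R g.coef * X.eps ^ g.ge *
    g.shape.ldiv X (facsLv X g.facs)
      (fun k => facsLd X k g.facs + algebraMap ℚ R (g.ex ϖ) * facsLv X g.facs * X.w k)

/-- `∑ terms - p² ∑ w_k² - (μ + t) eps²`, with `p = ϖ/2`, `μ = ((m-1)/2)²` -/
def certPoly (ϖ t : ℚ) (L : List Term) (X : LS R m) : R :=
  (L.map fun g => g.ldiv ϖ X).sum - algebraMap ℚ R (ϖ ^ 2 / 4) * ∑ k, X.w k ^ 2
    - algebraMap ℚ R (((m : ℚ) - 1) ^ 2 / 4 + t) * X.eps ^ 2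

end Link

section Boundary

variable {m : ℕ}

/-- boundary value (formal) of `q·(field)` at `S = diag(l)`, `q = e_b`, `l b = σ`, `|S| = 1`:
`bl` is the eigenvalue in the normal direction `b`. -/
noncomputable def Mt.bv (l : Fin m → ℝ) (σ : ℝ) : Mt → ℝ
  | .pow a => ∑ i, l i ^ a * (σ * l i - l i ^ 2) + σ ^ a
  | .sym a b => σ ^ (a + b)

/-- value of `A` on the normal direction -/
noncomputable def Mt.bn (σ : ℝ) : Mt → ℝ
  | .pow a => σ ^ a
  | .sym a b => σ ^ (a + b)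

noncomputable def Fac.bv (l : Fin m → ℝ) (σ : ℝ) : Fac → ℝ
  | .c3 => ∑ i, l i ^ 3
  | .c4 => ∑ i, l i ^ 4
  | .b0 => 1
  | .b1 => σ
  | .b2 => σ ^ 2
  | .b3 => σ ^ 3
  | .u2 => 0
  | .u1 => 0

noncomputable def Shape.bv (l : Fin m → ℝ) (σ : ℝ) : Shape → ℝ
  | .v0 a => σ ^ a
  | .p1 A => A.bv l σ
  | .h1 A B => B.bn σ * A.bv l σ - A.bn σ * B.bv l σ
  | .h2 _ _ _ => 0

/-- scaled boundary flux of a term; for `ge = 1` the term carries the factor `eps` -/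
noncomputable def Term.bv (l : Fin m → ℝ) (σ eps : ℝ) (g : Term) : ℝ :=
  (g.coef : ℝ) * eps ^ g.ge * ((g.facs.map (Fac.bv l σ)).prod * g.shape.bv l σ)

end Boundary

end OPC
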