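import Pool.Agent.Lib.MP_9059b8_an.A01
import Pool.Agent.Lib.MP_9059b8_an.Defs2

section

section

/-! # A02: a radial mollifier and its potential -/

open MeasureTheory Set Filter Topology

namespace OPC

private noncomputable def a02h (s : ℝ) : ℝ := Real.smoothTransition (1 - 2 * s)

private noncomputable def a02H (s : ℝ) : ℝ := -(1 / 2) * ∫ r in s..1, a02h r

private theorem a02h_contDiff : ContDiff ℝ (⊤ : ℕ∞) a02h := by
  unfold a02h
  exact Real.smoothTransition.contDiff.comp (contDiff_const.sub (contDiff_const.mul contDiff_id))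

private theorem a02h_zero {s : ℝ} (hs : 1 / 2 ≤ s) : a02h s = 0 := by
  unfold a02h
  exact Real.smoothTransition.zero_of_nonpos (by linarith)

private theorem a02h_nonneg (s : ℝ) : 0 ≤ a02h s := Real.smoothTransition.nonneg _

private theorem a02h_at_zero : a02h 0 = 1 := by
  unfold a02h
  exact Real.smoothTransition.one_of_one_le (by norm_num)

private theorem a02H_hasDerivAt (s : ℝ) : HasDerivAt a02H (a02h s / 2) s := by
  have hc : Continuous a02h := a02h_contDiff.continuous
  have h1 : HasDerivAt (fun u => ∫ r in u..1, a02h r) (-a02h s) s :=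
    intervalIntegral.integral_hasDerivAt_left (hc.intervalIntegrable _ _)
      (hc.stronglyMeasurableAtFilter _ _) hc.continuousAt
  have h2 := h1.const_mul (-(1 / 2) : ℝ)
  have h3 : (-(1 / 2) : ℝ) * -a02h s = a02h s / 2 := by ring
  rw [h3] at h2
  exact h2

private theorem a02H_contDiff : ContDiff ℝ (⊤ : ℕ∞) a02H := by
  rw [contDiff_infty_iff_deriv]
  refine ⟨fun s => (a02H_hasDerivAt s).differentiableAt, ?_⟩
  have : deriv a02H = fun s => a02h s / 2 := by
    funext s
    exact (a02H_hasDerivAt s).deriv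
  rw [this]
  exact a02h_contDiff.div_const 2

private theorem a02H_zero {s : ℝ} (hs : 1 ≤ s) : a02H s = 0 := by
  unfold a02H
  have h1 : ∫ r in s..1, a02h r = ∫ r in s..1, (0 : ℝ) := by
    apply intervalIntegral.integral_congr
    intro r hr
    rw [Set.uIcc_of_ge hs] at hr
    exact a02h_zero (by linarith [hr.1])
  rw [h1]
  simp

private theorem a02_pd_norm_sq {n : ℕ} (i : Fin n) (x : V n) :
    pd i (fun y => ‖y‖ ^ 2) x = 2 * x i := by
  have h1 : (fun y : V n => ‖y‖ ^ 2) = fun y => ∑ j, (y j) ^ 2 := by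
    funext y
    exact norm_sq_eq_sum y
  have hd : ∀ j : Fin n, DifferentiableAt ℝ (fun y : V n => y j) x := by
    intro j
    have : (fun y : V n => y j) = (EuclideanSpace.proj j : V n →L[ℝ] ℝ) := rfl
    rw [this]
    exact (EuclideanSpace.proj j : V n →L[ℝ] ℝ).differentiableAt
  rw [h1, pd_sum Finset.univ (f := fun j y => (y j) ^ 2) (fun j _ => (hd j).pow 2)]
  have h2 : ∀ j : Fin n, pd i (fun y : V n => (y j) ^ 2) x = if i = j then 2 * x j else 0 := by
    intro j
    rw [pd_pow (hd j) 2 i, pd_coord]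
    split_ifs <;> simp
  rw [Finset.sum_congr rfl fun j _ => h2 j]
  simp

/-- A smooth radial mollifier `ρ` together with a compactly supported `K` with `∇K = x ρ`.
Sketch: let `h s := Real.smoothTransition (1 - 2 * s)` (smooth, `≥ 0`, `= 0` for `s ≥ 1/2`,
`h 0 = 1`), `H s := -(1/2) * ∫ r in s..1, h r` (so `H' = h/2`, `H = 0` on `[1, ∞)`),
`ρ₀ x := h (‖x‖^2)`, `c := ∫ ρ₀ > 0`, `ρ := ρ₀/c`, `K x := H (‖x‖^2) / c`;
`‖x‖^2 = ∑ (x i)^2` (`norm_sq_eq_sum`), `pd i (‖·‖^2) = 2 x i`. -/
theorem exists_kernel (n : ℕ) : ∃ ρ K : V n → ℝ, ContDiff ℝ (⊤ : ℕ∞) ρ ∧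
    ContDiff ℝ (⊤ : ℕ∞) K ∧ (∀ x, 1 ≤ ‖x‖ → ρ x = 0) ∧ (∀ x, 1 ≤ ‖x‖ → K x = 0) ∧
    (∀ x, 0 ≤ ρ x) ∧ (∫ x, ρ x = 1) ∧ ∀ i x, pd i K x = x i * ρ x := by
  have hn : ContDiff ℝ (⊤ : ℕ∞) (fun x : V n => ‖x‖ ^ 2) := contDiff_norm_sq ℝ
  have hρs : ContDiff ℝ (⊤ : ℕ∞) (fun x : V n => a02h (‖x‖ ^ 2)) := a02h_contDiff.comp hn
  have hKs : ContDiff ℝ (⊤ : ℕ∞) (fun x : V n => a02H (‖x‖ ^ 2)) := a02H_contDiff.comp hn
  have hsq : ∀ x : V n, 1 ≤ ‖x‖ → 1 ≤ ‖x‖ ^ 2 := fun x hx => by nlinarith
  have hz : ∀ x : V n, 1 ≤ ‖x‖ → a02h (‖x‖ ^ 2) = 0 := fun x hx =>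
    a02h_zero (by linarith [hsq x hx])
  have hcpt : HasCompactSupport (fun x : V n => a02h (‖x‖ ^ 2)) := by
    refine HasCompactSupport.of_support_subset_isCompact (isCompact_closedBall (0 : V n) 1) ?_
    intro x hx
    rw [Metric.mem_closedBall, dist_zero_right]
    by_contra hcon
    exact hx (hz x (le_of_lt (not_le.1 hcon)))
  have hpos : 0 < ∫ x : V n, a02h (‖x‖ ^ 2) := by
    refine hρs.continuous.integral_pos_of_hasCompactSupport_nonneg_nonzero (x := (0 : V n)) hcpt
      (fun x => a02h_nonneg _) ?_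
    simp [a02h_at_zero]
  set c : ℝ := ∫ x : V n, a02h (‖x‖ ^ 2) with hc
  refine ⟨fun x => a02h (‖x‖ ^ 2) / c, fun x => c⁻¹ * a02H (‖x‖ ^ 2), hρs.div_const c,
    contDiff_const.mul hKs, ?_, ?_, ?_, ?_, ?_⟩
  · intro x hx
    simp only [hz x hx, zero_div]
  · intro x hx
    simp only [a02H_zero (hsq x hx), mul_zero]
  · intro x
    exact div_nonneg (a02h_nonneg _) hpos.le
  · rw [integral_div, ← hc]
    exact div_self hpos.ne'
  · intro i x
    rw [pd_const_mul, pd_comp (f := fun y : V n => ‖y‖ ^ 2) (φ := a02H)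
      (a02H_hasDerivAt _).differentiableAt ((hn.differentiable (by simp)) x),
      (a02H_hasDerivAt _).deriv, a02_pd_norm_sq]
    field_simp

end OPC
end

section

/-! # A03: a harmonic function equals its radial mollifications -/

open MeasureTheory Set Filter Topology

namespace OPC

variable {n : ℕ}

/-- `∫ v(x - t y) ρ(y) dy` does not depend on `t ∈ [0, r]` if `Δ v = 0` in `ball x r`.
Sketch: `g t := ∫ v (x - t • y) * ρ y`. `g` is continuous on `ℝ`, `g 0 = v x`. For `0 < t ≤ r`,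
`g' t = - ∫ (∑ i, pd i v (x - t • y) * y i) ρ y = - ∑ i, ∫ pd i v (x - t • y) * pd i K y`
`= ∑ i, ∫ pd i (fun y => pd i v (x - t • y)) y * K y = - t ∫ (∑ i, pd i (pd i v) (x - t • y)) K y = 0`
(`K y = 0` for `‖y‖ ≥ 1`, and `x - t • y ∈ ball x r` for `‖y‖ < 1`); all functions are `C¹` with
compact support (differentiation under the integral sign:
`hasDerivAt_integral_of_dominated_loc_of_deriv_le`; integration by parts on `ℝ^n`:
`integral_mul_fderiv_eq_neg_fderiv_mul_of_integrable`). -/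
theorem mollify_const {v ρ K : V n → ℝ} (hv : ContDiff ℝ 2 v) (hc : HasCompactSupport v)
    (hρ : ContDiff ℝ (⊤ : ℕ∞) ρ) (hK : ContDiff ℝ (⊤ : ℕ∞) K)
    (hρ1 : ∀ x, 1 ≤ ‖x‖ → ρ x = 0) (hK1 : ∀ x, 1 ≤ ‖x‖ → K x = 0) (hi : ∫ x, ρ x = 1)
    (hKρ : ∀ i x, pd i K x = x i * ρ x) {x : V n} {r : ℝ} (hr : 0 < r)
    (hh : ∀ y ∈ Metric.ball x r, ∑ i, pd i (pd i v) y = 0) :
    ∫ y, v (x - r • y) * ρ y = v x := by
  have hdv : Differentiable ℝ v := hv.differentiable (by norm_num)
  have hfc : Continuous (fderiv ℝ v) := hv.continuous_fderiv (by norm_num)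
  obtain ⟨C, hC⟩ : ∃ C, ∀ z, ‖fderiv ℝ v z‖ ≤ C :=
    (hc.fderiv (𝕜 := ℝ)).exists_bound_of_continuous hfc
  have hC0 : 0 ≤ C := le_trans (norm_nonneg _) (hC 0)
  have hρcont : Continuous ρ := hρ.continuous
  have hKcont : Continuous K := hK.continuous
  have hKd : Differentiable ℝ K := hK.differentiable (by simp)
  have hρc : HasCompactSupport ρ := HasCompactSupport.intro (isCompact_closedBall (0 : V n) 1)
    (fun y hy => hρ1 y (by simp at hy; exact hy.le))
  have hKc : HasCompactSupport K := HasCompactSupport.intro (isCompact_closedBall (0 : V n) 1)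
    (fun y hy => hK1 y (by simp at hy; exact hy.le))
  have hpd1 : ∀ i, ContDiff ℝ 1 (pd i v) := fun i => contDiff_pd hv (by norm_num) i
  have hpdc : ∀ i, Continuous (pd i v) := fun i => (hpd1 i).continuous
  have hpdd : ∀ i, Differentiable ℝ (pd i v) := fun i => (hpd1 i).differentiable (by norm_num)
  have hpd2c : ∀ i, Continuous (pd i (pd i v)) := fun i =>
    (contDiff_pd (m := 0) (hpd1 i) (by norm_num) i).continuous
  -- the derivative of `g`
  have hg : ∀ t : ℝ, HasDerivAt (fun t : ℝ => ∫ y, v (x - t • y) * ρ y)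
      (∫ y, fderiv ℝ v (x - t • y) (-y) * ρ y) t := by
    intro t
    refine (hasDerivAt_integral_of_dominated_loc_of_deriv_le (μ := volume)
      (F := fun (t : ℝ) (y : V n) => v (x - t • y) * ρ y)
      (F' := fun (t : ℝ) (y : V n) => fderiv ℝ v (x - t • y) (-y) * ρ y)
      (bound := fun y => C * ‖y‖ * |ρ y|) (s := Set.univ) Filter.univ_mem ?_ ?_ ?_ ?_ ?_ ?_).2
    · refine Eventually.of_forall fun s => Continuous.aestronglyMeasurable ?_
      exact (hdv.continuous.comp (by fun_prop)).mul hρcont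
    · refine Continuous.integrable_of_hasCompactSupport ?_ (hρc.mul_left)
      exact (hdv.continuous.comp (by fun_prop)).mul hρcont
    · refine Continuous.aestronglyMeasurable ?_
      exact ((hfc.comp (by fun_prop)).clm_apply (by fun_prop)).mul hρcont
    · refine Eventually.of_forall fun y s _ => ?_
      rw [norm_mul, Real.norm_eq_abs (ρ y)]
      refine mul_le_mul_of_nonneg_right ?_ (abs_nonneg _)
      refine (ContinuousLinearMap.le_opNorm _ _).trans ?_
      rw [norm_neg]
      exact mul_le_mul_of_nonneg_right (hC _) (norm_nonneg _)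
    · refine Continuous.integrable_of_hasCompactSupport (by fun_prop) ?_
      exact (hρc.abs).mul_left
    · refine Eventually.of_forall fun y s _ => ?_
      have h1 : HasDerivAt (fun s : ℝ => x - s • y) (-y) s := by
        have := ((hasDerivAt_id s).smul_const y).const_sub x
        simpa using this
      have h2 := (hdv (x - s • y)).hasFDerivAt.comp_hasDerivAt s h1
      exact h2.mul_const (ρ y)
  -- it vanishes
  have hg0 : ∀ t : ℝ, 0 ≤ t → t ≤ r → ∫ y, fderiv ℝ v (x - t • y) (-y) * ρ y = 0 := by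
    intro t ht0 htr
    have e1 : ∀ y : V n, fderiv ℝ v (x - t • y) (-y) * ρ y
        = - ∑ i, pd i v (x - t • y) * pd i K y := by
      intro y
      rw [map_neg, fderiv_apply_eq_sum, neg_mul, Finset.sum_mul]
      congr 1
      refine Finset.sum_congr rfl fun i _ => ?_
      rw [hKρ i y]; ring
    have hpdK : ∀ i, Continuous (pd i K) := fun i =>
      (contDiff_pd (m := 0) hK (by simp) i).continuous
    have hpdKc : ∀ i, HasCompactSupport (pd i K) := fun i => by
      have h := hKc.fderiv (𝕜 := ℝ)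
      exact h.comp_left (g := fun L : V n →L[ℝ] ℝ => L (e i)) (by simp)
    have hcomp : ∀ i, Continuous (fun y : V n => pd i v (x - t • y)) := fun i =>
      (hpdc i).comp (by fun_prop)
    have e2 : ∀ i (y : V n), fderiv ℝ (fun y => pd i v (x - t • y)) y (e i)
        = - t * pd i (pd i v) (x - t • y) := by
      intro i y
      have h1 : HasFDerivAt (fun y : V n => x - t • y)
          (-(t • ContinuousLinearMap.id ℝ (V n))) y := by
        have := ((hasFDerivAt_id (𝕜 := ℝ) y).const_smul t).const_sub x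
        simpa using this
      have h2 := ((hpdd i (x - t • y)).hasFDerivAt.comp y h1).fderiv
      have h3 : fderiv ℝ (fun y => pd i v (x - t • y)) y
          = (fderiv ℝ (pd i v) (x - t • y)).comp (-(t • ContinuousLinearMap.id ℝ (V n))) := h2
      rw [h3]
      simp [pd]
    have hdiff : ∀ i, Differentiable ℝ (fun y => pd i v (x - t • y)) := fun i =>
      (hpdd i).comp (by fun_prop)
    have e3 : ∀ i, ∫ y, pd i v (x - t • y) * pd i K y
        = t * ∫ y, pd i (pd i v) (x - t • y) * K y := by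
      intro i
      have h := integral_mul_fderiv_eq_neg_fderiv_mul_of_integrable (μ := volume)
        (f := fun y => pd i v (x - t • y)) (g := K) (v := e i) ?_ ?_ ?_ ?_ ?_
      · have h' : ∫ y, pd i v (x - t • y) * pd i K y
            = ∫ y, pd i v (x - t • y) * fderiv ℝ K y (e i) := rfl
        rw [h', h]
        simp only [e2]
        rw [← integral_neg, ← integral_const_mul]
        refine integral_congr_ae (Eventually.of_forall fun y => ?_)
        simp only
        ring
      · simp only [e2]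
        refine Continuous.integrable_of_hasCompactSupport ?_ hKc.mul_left
        exact ((continuous_const.mul ((hpd2c i).comp (by fun_prop))).mul hKcont)
      · refine Continuous.integrable_of_hasCompactSupport ?_ (hpdKc i).mul_left
        exact (hcomp i).mul (hpdK i)
      · refine Continuous.integrable_of_hasCompactSupport ?_ hKc.mul_left
        exact (hcomp i).mul hKcont
      · exact fun y _ => hdiff i y
      · exact fun y _ => hKd y
    have hint : ∀ i, Integrable (fun y => pd i v (x - t • y) * pd i K y) := fun i =>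
      Continuous.integrable_of_hasCompactSupport ((hcomp i).mul (hpdK i)) (hpdKc i).mul_left
    have hint2 : ∀ i, Integrable (fun y => pd i (pd i v) (x - t • y) * K y) := fun i =>
      Continuous.integrable_of_hasCompactSupport
        (((hpd2c i).comp (by fun_prop)).mul hKcont) hKc.mul_left
    simp only [e1]
    rw [integral_neg, integral_finset_sum _ (fun i _ => hint i)]
    simp only [e3]
    rw [← Finset.mul_sum, ← integral_finset_sum _ (fun i _ => hint2 i)]
    have e4 : ∀ y : V n, ∑ i, pd i (pd i v) (x - t • y) * K y = 0 := by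
      intro y
      rw [← Finset.sum_mul]
      by_cases hy : 1 ≤ ‖y‖
      · rw [hK1 y hy, mul_zero]
      · rw [hh, zero_mul]
        simp only [Metric.mem_ball, dist_eq_norm, sub_sub_cancel_left, norm_neg, norm_smul,
          Real.norm_eq_abs, abs_of_nonneg ht0]
        push_neg at hy
        nlinarith [norm_nonneg y]
    simp [e4]
  have hconst := constant_of_has_deriv_right_zero
    (f := fun t : ℝ => ∫ y, v (x - t • y) * ρ y) (a := 0) (b := r)
    (fun t _ => (hg t).continuousAt.continuousWithinAt)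
    (fun t ht => by
      have := hg t
      rw [hg0 t ht.1 ht.2.le] at this
      exact this.hasDerivWithinAt) r ⟨hr.le, le_rfl⟩
  simp only [zero_smul, sub_zero] at hconst
  rw [hconst, integral_const_mul, hi, mul_one]

end OPC
end

section

/-! # A04: harmonic functions are smooth -/

open MeasureTheory Set Filter Topology

namespace OPC

variable {n : ℕ}

/-- the cut off function is `C²` on the whole space -/
private theorem cutoff_contDiff {E : Set (V n)} {u : V n → ℝ} (hE : IsOpen E)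
    (h2 : ContDiffOn ℝ 2 u E) {x₀ : V n} (φ : ContDiffBump x₀)
    (hφ : Metric.closedBall x₀ φ.rOut ⊆ E) : ContDiff ℝ 2 (fun x => φ x * u x) := by
  rw [contDiff_iff_contDiffAt]
  intro x
  by_cases hx : x ∈ E
  · exact (φ.contDiff.contDiffAt).mul (h2.contDiffAt (hE.mem_nhds hx))
  · have hx2 : x ∉ tsupport φ := by
      rw [φ.tsupport_eq]
      exact fun h => hx (hφ h)
    have h0 : (φ : V n → ℝ) =ᶠ[nhds x] 0 := notMem_tsupport_iff_eventuallyEq.1 hx2
    have h1 : (fun y => φ y * u y) =ᶠ[nhds x] fun _ => (0 : ℝ) := by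
      filter_upwards [h0] with y hy
      rw [hy]
      simp
    exact (contDiffAt_const (c := (0 : ℝ))).congr_of_eventuallyEq h1

/-- Harmonic `C²` functions are smooth.
Sketch: fix `x₀ ∈ E` and `r > 0` with `closedBall x₀ (3 r) ⊆ E`. Multiply `u` by a smooth bump equal
to `1` on `ball x₀ (2 r)` with support in `ball x₀ (3 r)` (`ContDiffBump`): `v` is `C²` on `ℝ^n`,
compactly supported, and harmonic on `ball x₀ (2 r)`. For `x ∈ ball x₀ r`, `ball x r ⊆ ball x₀ (2r)`,
so `v x = ∫ v (x - r • y) ρ y dy` (`mollify_const` with the kernel of `exists_kernel`). Changing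
variables, the right side is the convolution of `v` with the smooth compactly supported kernel
`z ↦ r^{-n} ρ (z / r)`, which is smooth (`HasCompactSupport.contDiff_convolution_right` or `_left`).
Hence `u = v` is smooth on `ball x₀ r`. -/
theorem smooth_of_harm {E : Set (V n)} {u : V n → ℝ} (hE : IsOpen E) (h2 : ContDiffOn ℝ 2 u E)
    (hh : ∀ x ∈ E, ∑ i, pd i (pd i u) x = 0) : ContDiffOn ℝ (⊤ : ℕ∞) u E := by
  intro x₀ hx₀
  apply ContDiffAt.contDiffWithinAt
  obtain ⟨R, hR, hRE⟩ := Metric.nhds_basis_closedBall.mem_iff.1 (hE.mem_nhds hx₀)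
  set r : ℝ := R / 3 with hr
  have hr0 : 0 < r := by positivity
  let φ : ContDiffBump x₀ := ⟨2 * r, 3 * r, by positivity, by linarith⟩
  have hφE : Metric.closedBall x₀ φ.rOut ⊆ E := by
    have : φ.rOut = R := by
      change 3 * r = R
      rw [hr]
      ring
    rw [this]
    exact hRE
  set v : V n → ℝ := fun x => φ x * u x with hv
  have hv2 : ContDiff ℝ 2 v := cutoff_contDiff hE h2 φ hφE
  have hvc : HasCompactSupport v := φ.hasCompactSupport.mul_right
  have huv : ∀ y ∈ Metric.ball x₀ (2 * r), v y = u y := by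
    intro y hy
    have : φ y = 1 := φ.one_of_mem_closedBall (Metric.ball_subset_closedBall hy)
    rw [hv]
    simp only [this, one_mul]
  have hball2 : Metric.ball x₀ (2 * r) ⊆ E := by
    refine subset_trans ?_ hφE
    refine subset_trans Metric.ball_subset_closedBall (Metric.closedBall_subset_closedBall ?_)
    change 2 * r ≤ 3 * r
    linarith
  have hvh : ∀ y ∈ Metric.ball x₀ (2 * r), ∑ i, pd i (pd i v) y = 0 := by
    intro y hy
    rw [← hh y (hball2 hy)]
    refine Finset.sum_congr rfl fun i _ => ?_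
    exact pd_congr Metric.isOpen_ball (pd_congr Metric.isOpen_ball huv i) i y hy
  obtain ⟨ρ, K, hρ, hK, hρ1, hK1, _, hi, hKρ⟩ := exists_kernel n
  -- the convolution kernel
  set k : V n → ℝ := fun t => ρ (r⁻¹ • t) with hk
  have hks : ContDiff ℝ (⊤ : ℕ∞) k := hρ.comp (contDiff_const_smul r⁻¹)
  have hkc : HasCompactSupport k := by
    apply HasCompactSupport.intro (isCompact_closedBall (0 : V n) r)
    intro x hx
    rw [Metric.mem_closedBall, dist_zero_right, not_le] at hx
    apply hρ1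
    rw [norm_smul, norm_inv, Real.norm_of_nonneg hr0.le, ← div_eq_inv_mul, le_div_iff₀ hr0]
    linarith
  have hconv : ContDiff ℝ (⊤ : ℕ∞) (convolution k v (ContinuousLinearMap.mul ℝ ℝ) volume) :=
    hkc.contDiff_convolution_left _ hks hv2.continuous.locallyIntegrable
  set c : ℝ := |(r ^ Module.finrank ℝ (V n))⁻¹| with hc
  have hkey : ∀ x ∈ Metric.ball x₀ r,
      u x = c * convolution k v (ContinuousLinearMap.mul ℝ ℝ) volume x := by
    intro x hx
    have hx2 : x ∈ Metric.ball x₀ (2 * r) := Metric.ball_subset_ball (by linarith) hx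
    have hsub : Metric.ball x r ⊆ Metric.ball x₀ (2 * r) := by
      apply Metric.ball_subset_ball'
      rw [Metric.mem_ball] at hx
      linarith
    rw [← huv x hx2]
    rw [← mollify_const hv2 hvc hρ hK hρ1 hK1 hi hKρ hr0 (fun y hy => hvh y (hsub hy))]
    have h3 : ∀ y : V n, v (x - r • y) * ρ y = (fun t : V n => v (x - t) * k t) (r • y) := by
      intro y
      simp only [hk, smul_smul, inv_mul_cancel₀ hr0.ne', one_smul]
    simp_rw [h3]
    rw [Measure.integral_comp_smul volume (fun t : V n => v (x - t) * k t) r, smul_eq_mul,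
      convolution_def]
    congr 1
    refine integral_congr_ae (Eventually.of_forall fun t => ?_)
    simp [mul_comm]
  have hfin : ContDiffAt ℝ (⊤ : ℕ∞)
      (fun x => c * convolution k v (ContinuousLinearMap.mul ℝ ℝ) volume x) x₀ :=
    (contDiff_const.mul hconv).contDiffAt
  refine hfin.congr_of_eventuallyEq ?_
  filter_upwards [Metric.ball_mem_nhds x₀ hr0] with x hx using hkey x hx

end OPC
end

section

/-! # A05: elementary facts on solutions: smoothness, symmetries, traces -/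

open MeasureTheory Set Filter Topology

namespace OPC

variable {n : ℕ} {E : Set (V n)} {u : V n → ℝ}

theorem Sol.eq_pos (h : Sol E u) : E = {x | 0 < u x} := by
  ext x
  constructor
  · exact h.pos x
  · intro hx
    by_contra hc
    have := h.zero x hc
    simp only [mem_ofPred_eq] at hx
    linarith

theorem Sol.nonneg (h : Sol E u) (x : V n) : 0 ≤ u x := by
  by_cases hx : x ∈ E
  · exact (h.pos x hx).le
  · exact (h.zero x hx).ge

theorem Sol.smul_mem (h : Sol E u) {t : ℝ} (ht : 0 < t) {x : V n} : t • x ∈ E ↔ x ∈ E := by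
  rw [h.eq_pos]
  simp only [mem_ofPred_eq, h.hom t ht x]
  constructor
  · intro hx; exact (pos_iff_pos_of_mul_pos hx).1 ht
  · intro hx; positivity

theorem Sol.u_zero (h : Sol E u) : u 0 = 0 := by
  have := h.hom 2 (by norm_num) 0
  simp at this
  linarith

theorem Sol.zero_notMem (h : Sol E u) : (0 : V n) ∉ E := by
  intro h0
  have := h.pos 0 h0
  rw [h.u_zero] at this
  exact lt_irrefl _ this

theorem Sol.ne_zero (h : Sol E u) {x : V n} (hx : x ∈ E) : x ≠ 0 := by
  rintro rfl; exact h.zero_notMem hx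

theorem Sol.frontier_u (h : Sol E u) {p : V n} (hp : p ∈ frontier E) : u p = 0 := by
  apply h.zero
  intro hc
  rw [h.isOpen.frontier_eq] at hp
  exact hp.2 hc

theorem Sol.harm' (h : Sol E u) : ∀ x ∈ E, ∑ i, pd i (pd i u) x = 0 := by
  intro x hx
  rw [← h.harm x hx]
  exact Finset.sum_congr rfl fun i _ => pd_pd_eq h.isOpen h.c2 i i hx

theorem Sol.smooth (h : Sol E u) : ContDiffOn ℝ (⊤ : ℕ∞) u E :=
  smooth_of_harm h.isOpen h.c2 h.harm'

theorem Sol.smooth_q (h : Sol E u) (i : Fin n) : ContDiffOn ℝ (⊤ : ℕ∞) (q u i) E :=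
  contDiffOn_pd_top h.isOpen h.smooth i

theorem Sol.smooth_S (h : Sol E u) (i j : Fin n) : ContDiffOn ℝ (⊤ : ℕ∞) (S u i j) E :=
  contDiffOn_pd_top h.isOpen (h.smooth_q j) i

theorem Sol.smooth_T (h : Sol E u) (i j k : Fin n) : ContDiffOn ℝ (⊤ : ℕ∞) (T u i j k) E :=
  contDiffOn_pd_top h.isOpen (h.smooth_S j k) i

/-- a smooth function on `E` is differentiable at the points of `E` -/
theorem diffAt {f : V n → ℝ} (hE : IsOpen E) (hf : ContDiffOn ℝ (⊤ : ℕ∞) f E) {x : V n}
    (hx : x ∈ E) : DifferentiableAt ℝ f x :=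
  (hf.contDiffAt (hE.mem_nhds hx)).differentiableAt (by simp)

theorem Sol.diff_q (h : Sol E u) (i : Fin n) {x : V n} (hx : x ∈ E) :
    DifferentiableAt ℝ (q u i) x := diffAt h.isOpen (h.smooth_q i) hx

theorem Sol.diff_S (h : Sol E u) (i j : Fin n) {x : V n} (hx : x ∈ E) :
    DifferentiableAt ℝ (S u i j) x := diffAt h.isOpen (h.smooth_S i j) hx

theorem Sol.diff_T (h : Sol E u) (i j k : Fin n) {x : V n} (hx : x ∈ E) :
    DifferentiableAt ℝ (T u i j k) x := diffAt h.isOpen (h.smooth_T i j k) hx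

theorem two_le_top : (2 : WithTop ℕ∞) ≤ ((⊤ : ℕ∞) : WithTop ℕ∞) :=
  WithTop.coe_le_coe.2 (le_top : (2 : ℕ∞) ≤ ⊤)

theorem one_le_top' : (1 : WithTop ℕ∞) ≤ ((⊤ : ℕ∞) : WithTop ℕ∞) :=
  WithTop.coe_le_coe.2 (le_top : (1 : ℕ∞) ≤ ⊤)

theorem pd_comm' {f : V n → ℝ} (hE : IsOpen E) (hf : ContDiffOn ℝ (⊤ : ℕ∞) f E) (i j : Fin n)
    {x : V n} (hx : x ∈ E) : pd i (pd j f) x = pd j (pd i f) x :=
  pd_comm hE (hf.of_le two_le_top) i j hx

theorem Sol.S_symm (h : Sol E u) (i j : Fin n) {x : V n} (hx : x ∈ E) :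
    S u i j x = S u j i x := pd_comm' h.isOpen h.smooth i j hx

/-- derivative of `q` -/
theorem pd_q (i j : Fin n) (x : V n) : pd i (q u j) x = S u i j x := rfl

/-- derivative of `S` -/
theorem pd_S (i j k : Fin n) (x : V n) : pd i (S u j k) x = T u i j k x := rfl

theorem Sol.T_symm12 (h : Sol E u) (i j k : Fin n) {x : V n} (hx : x ∈ E) :
    T u i j k x = T u j i k x := pd_comm' h.isOpen (h.smooth_q k) i j hx

theorem Sol.T_symm23 (h : Sol E u) (i j k : Fin n) {x : V n} (hx : x ∈ E) :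
    T u i j k x = T u i k j x :=
  pd_congr h.isOpen (fun y hy => h.S_symm j k hy) i x hx

theorem Sol.T_symm13 (h : Sol E u) (i j k : Fin n) {x : V n} (hx : x ∈ E) :
    T u i j k x = T u k j i x := by
  rw [h.T_symm12 i j k hx, h.T_symm23 j i k hx, h.T_symm12 j k i hx]

theorem Sol.tr_S (h : Sol E u) {x : V n} (hx : x ∈ E) : ∑ i, S u i i x = 0 := h.harm' x hx

theorem Sol.tr_T (h : Sol E u) (k : Fin n) {x : V n} (hx : x ∈ E) : ∑ i, T u k i i x = 0 := by
  have h1 : ∑ i, T u k i i x = pd k (fun y => ∑ i, S u i i y) x := by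
    rw [pd_sum _ (fun i _ => h.diff_S i i hx)]; rfl
  rw [h1, pd_congr h.isOpen (g := fun _ => 0) (fun y hy => h.tr_S hy) k x hx, pd_const]

/-- `∑ᵢ ∂ᵢ S_{ij} = 0` -/
theorem Sol.div_S (h : Sol E u) (j : Fin n) {x : V n} (hx : x ∈ E) :
    ∑ i, pd i (S u i j) x = 0 := by
  rw [← h.tr_T j hx]
  refine Finset.sum_congr rfl fun i _ => ?_
  rw [pd_S, h.T_symm23 i i j hx, h.T_symm12 i j i hx]

/-- `∑ᵢ ∂ᵢ T_{ijk} = 0`, i.e. `Δ S_{jk} = 0` -/
theorem Sol.div_T (h : Sol E u) (j k : Fin n) {x : V n} (hx : x ∈ E) :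
    ∑ i, pd i (T u i j k) x = 0 := by
  have h1 : ∀ i, pd i (T u i j k) x = pd j (fun y => T u i i k y) x := by
    intro i
    rw [pd_congr h.isOpen (fun y hy => h.T_symm12 i j k hy) i x hx]
    exact pd_comm' h.isOpen (h.smooth_S i k) i j hx
  calc ∑ i, pd i (T u i j k) x = ∑ i, pd j (fun y => T u i i k y) x :=
        Finset.sum_congr rfl fun i _ => h1 i
    _ = pd j (fun y => ∑ i, T u i i k y) x := by
        rw [pd_sum _ (fun i _ => h.diff_T i i k hx)]
    _ = 0 := by
        rw [pd_congr h.isOpen (g := fun _ => 0) (fun y hy => ?_) j x hx, pd_const]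
        have := h.div_S k hy
        simpa only [pd_S] using this

end OPC
end
end

section

/-! # B01: integration by parts for functions with compact support in an open set -/

open MeasureTheory Set Filter Topology

namespace OPC

variable {n : ℕ}

private lemma b01_contDiff_aux {E : Set (V n)} (hE : IsOpen E) {ζ f : V n → ℝ} {k : WithTop ℕ∞}
    (hζ : ContDiff ℝ k ζ) (hs : tsupport ζ ⊆ E) (hf : ContDiffOn ℝ k f E) :
    ContDiff ℝ k (fun x => ζ x * f x) := by
  rw [contDiff_iff_contDiffAt]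
  intro x
  by_cases hx : x ∈ E
  · exact hζ.contDiffAt.mul (hf.contDiffAt (hE.mem_nhds hx))
  · have hx2 : x ∉ tsupport ζ := fun h => hx (hs h)
    have h0 : ζ =ᶠ[𝓝 x] 0 := notMem_tsupport_iff_eventuallyEq.1 hx2
    have h1 : (fun x => ζ x * f x) =ᶠ[𝓝 x] fun _ => (0 : ℝ) := by
      filter_upwards [h0] with y hy
      simp [hy]
    exact contDiffAt_const.congr_of_eventuallyEq h1

private lemma b01_int_aux {E : Set (V n)} (hE : IsOpen E) {ζ f : V n → ℝ}
    (hζ : Continuous ζ) (hc : HasCompactSupport ζ) (hs : tsupport ζ ⊆ E) (hf : ContinuousOn f E) :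
    Integrable (fun x => ζ x * f x) := by
  have hcont : Continuous (fun x => ζ x * f x) := by
    rw [← contDiff_zero (𝕜 := ℝ)]
    exact b01_contDiff_aux hE (contDiff_zero.2 hζ) hs (contDiffOn_zero.2 hf)
  exact hcont.integrable_of_hasCompactSupport hc.mul_right

/-- `C¹` function on `ℝ^n` with compact support: the integral of a partial derivative vanishes. -/
theorem integral_pd_eq_zero {f : V n → ℝ} (hf : ContDiff ℝ 1 f) (hc : HasCompactSupport f)
    (i : Fin n) : ∫ x, pd i f x = 0 := by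
  have hi : Integrable (fun x => pd i f x) := by
    have h1 : Continuous (fun x => pd i f x) := by
      have := (contDiff_pd (m := 0) hf (by simp) i)
      exact this.continuous
    refine h1.integrable_of_hasCompactSupport ?_
    exact hc.fderiv_apply (𝕜 := ℝ) (e i)
  have hfi : Integrable f := hf.continuous.integrable_of_hasCompactSupport hc
  have h := integral_mul_fderiv_eq_neg_fderiv_mul_of_integrable (μ := (volume : Measure (V n)))
    (f := fun _ : V n => (1 : ℝ)) (g := f) (v := e i) (by simp) (by simpa [pd] using hi)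
    (by simpa using hfi) (fun x _ => differentiableAt_const _)
    (fun x _ => (hf.differentiable (by simp)) x)
  simpa [pd] using h

/-- product of a `C^k` function with support in the open set `E` and a function `C^k` on `E` -/
theorem contDiff_mul_of_tsupport {E : Set (V n)} (hE : IsOpen E) {ζ f : V n → ℝ} {k : WithTop ℕ∞}
    (hζ : ContDiff ℝ k ζ) (hs : tsupport ζ ⊆ E) (hf : ContDiffOn ℝ k f E) :
    ContDiff ℝ k (fun x => ζ x * f x) := by
  exact b01_contDiff_aux hE hζ hs hf

/-- a continuous function on `E` times a compactly supported continuous function with support in `E`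
is integrable -/
theorem integrable_mul_of_tsupport {E : Set (V n)} (hE : IsOpen E) {ζ f : V n → ℝ}
    (hζ : Continuous ζ) (hc : HasCompactSupport ζ) (hs : tsupport ζ ⊆ E) (hf : ContinuousOn f E) :
    Integrable (fun x => ζ x * f x) := by
  exact b01_int_aux hE hζ hc hs hf

/-- Integration by parts. Both integrands vanish outside `E`.
Sketch: apply `integral_pd_eq_zero` to `ζ f` (extended by `0`, `C¹` on `ℝ^n` by
`contDiff_mul_of_tsupport`) and the product rule on `E`. -/
theorem ibp {E : Set (V n)} (hE : IsOpen E) {ζ f : V n → ℝ} (hζ : ContDiff ℝ 1 ζ)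
    (hc : HasCompactSupport ζ) (hs : tsupport ζ ⊆ E) (hf : ContDiffOn ℝ 1 f E) (i : Fin n) :
    ∫ x in E, ζ x * pd i f x = - ∫ x in E, pd i ζ x * f x := by
  have hpf : ContinuousOn (pd i f) E :=
    (contDiffOn_pd (m := 0) hE hf (by simp) i).continuousOn
  have hpz : Continuous (pd i ζ) := (contDiff_pd (m := 0) hζ (by simp) i).continuous
  have hsup : tsupport (pd i ζ) ⊆ tsupport ζ := tsupport_fderiv_apply_subset ℝ (e i)
  have hcp : HasCompactSupport (pd i ζ) := hc.fderiv_apply (𝕜 := ℝ) (e i)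
  have e1 : ∫ x in E, ζ x * pd i f x = ∫ x, ζ x * pd i f x := by
    apply setIntegral_eq_integral_of_forall_compl_eq_zero
    intro x hx
    have : ζ x = 0 := image_eq_zero_of_notMem_tsupport (fun h => hx (hs h))
    simp [this]
  have e2 : ∫ x in E, pd i ζ x * f x = ∫ x, pd i ζ x * f x := by
    apply setIntegral_eq_integral_of_forall_compl_eq_zero
    intro x hx
    have : pd i ζ x = 0 := image_eq_zero_of_notMem_tsupport (fun h => hx (hs (hsup h)))
    simp [this]
  rw [e1, e2]
  have hA := b01_int_aux hE hζ.continuous hc hs hpf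
  have hB := b01_int_aux hE hpz hcp (hsup.trans hs) hf.continuousOn
  have hC := b01_int_aux hE hζ.continuous hc hs hf.continuousOn
  exact integral_mul_fderiv_eq_neg_fderiv_mul_of_integrable (μ := (volume : Measure (V n)))
    (f := ζ) (g := f) (v := e i) hB hA hC (fun x _ => (hζ.differentiable (by simp)) x)
    (fun x hx => (hf.contDiffAt (hE.mem_nhds (hs hx))).differentiableAt (by simp))

/-- vector version -/
theorem ibp_div {E : Set (V n)} (hE : IsOpen E) {ζ : V n → ℝ} {Y : Fin n → V n → ℝ}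
    (hζ : ContDiff ℝ 1 ζ) (hc : HasCompactSupport ζ) (hs : tsupport ζ ⊆ E)
    (hY : ∀ i, ContDiffOn ℝ 1 (Y i) E) :
    ∫ x in E, ζ x * ∑ i, pd i (Y i) x = - ∫ x in E, ∑ i, pd i ζ x * Y i x := by
  have hA : ∀ i, Integrable (fun x => ζ x * pd i (Y i) x) (volume.restrict E) := fun i =>
    (b01_int_aux hE hζ.continuous hc hs
      (contDiffOn_pd (m := 0) hE (hY i) (by simp) i).continuousOn).restrict
  have hB : ∀ i, Integrable (fun x => pd i ζ x * Y i x) (volume.restrict E) := fun i =>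
    (b01_int_aux hE (contDiff_pd (m := 0) hζ (by simp) i).continuous
      (hc.fderiv_apply (𝕜 := ℝ) (e i)) ((tsupport_fderiv_apply_subset ℝ (e i)).trans hs)
      (hY i).continuousOn).restrict
  simp only [Finset.mul_sum]
  rw [integral_finsetSum _ (fun i _ => hA i), integral_finsetSum _ (fun i _ => hB i),
    ← Finset.sum_neg_distrib]
  exact Finset.sum_congr rfl fun i _ => ibp hE hζ hc hs (hY i) i

end OPC
end

section

/-! # B02: the cutoff chi, test functions -/

open MeasureTheory Set Filter Topology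

namespace OPC

variable {n : ℕ}

theorem chi_smooth : ContDiff ℝ (⊤ : ℕ∞) chi := by
  unfold chi
  exact Real.smoothTransition.contDiff.comp (contDiff_id.sub contDiff_const)

theorem chi_eq_zero {s : ℝ} (hs : s ≤ 1) : chi s = 0 :=
  Real.smoothTransition.zero_of_nonpos (by linarith)

theorem chi_eq_one {s : ℝ} (hs : 2 ≤ s) : chi s = 1 :=
  Real.smoothTransition.one_of_one_le (by linarith)

theorem chi_nonneg (s : ℝ) : 0 ≤ chi s := Real.smoothTransition.nonneg _

theorem chi_le_one (s : ℝ) : chi s ≤ 1 := Real.smoothTransition.le_one _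

theorem chi_mono : Monotone chi := by
  intro a b hab
  exact Real.smoothTransition.monotone (by linarith)

theorem deriv_chi_nonneg (s : ℝ) : 0 ≤ deriv chi s := by
  have h := (chi_mono.monotoneOn Set.univ).derivWithin_nonneg (x := s)
  rwa [derivWithin_univ] at h

theorem deriv_chi_eq_zero {s : ℝ} (hs : s ∉ Icc (1 : ℝ) 2) : deriv chi s = 0 := by
  rw [Set.mem_Icc, not_and_or, not_le, not_le] at hs
  rcases hs with h | h
  · have he : chi =ᶠ[𝓝 s] fun _ => 0 := by
      filter_upwards [Iio_mem_nhds h] with y hy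
      exact chi_eq_zero (le_of_lt hy)
    rw [he.deriv_eq]
    simp
  · have he : chi =ᶠ[𝓝 s] fun _ => 1 := by
      filter_upwards [Ioi_mem_nhds h] with y hy
      exact chi_eq_one (le_of_lt hy)
    rw [he.deriv_eq]
    simp

theorem deriv_chi_smooth : ContDiff ℝ (⊤ : ℕ∞) (deriv chi) :=
  (contDiff_infty_iff_deriv.1 chi_smooth).2

theorem deriv_chi_bdd : ∃ C, 1 ≤ C ∧ ∀ s, |deriv chi s| ≤ C := by
  have hc : Continuous (deriv chi) := deriv_chi_smooth.continuous
  obtain ⟨C, hC⟩ := (isCompact_Icc (a := (1 : ℝ)) (b := 2)).exists_bound_of_continuousOn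
    hc.continuousOn
  refine ⟨max C 1, le_max_right _ _, fun s => ?_⟩
  by_cases hs : s ∈ Icc (1 : ℝ) 2
  · exact (hC s hs).trans (le_max_left _ _)
  · rw [deriv_chi_eq_zero hs, abs_zero]
    exact zero_le_one.trans (le_max_right _ _)

/-- existence of radial-like test functions: `η = 1` on `Ann a b`, `0 ≤ η ≤ 1`, supported in
`Ann (a/2) (b+1)` -/
theorem exists_tst {a b : ℝ} (ha : 0 < a) (hb : 0 ≤ b) : ∃ η : V n → ℝ, Tst η ∧
    (∀ x, 0 ≤ η x) ∧ (∀ x, η x ≤ 1) ∧ (∀ x ∈ (Ann a b : Set (V n)), η x = 1) ∧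
    tsupport η ⊆ Ann (a / 2) (b + 1) := by
  have hA : 0 < 3 * a ^ 2 / 4 := by positivity
  have hB : 0 < 2 * b + 1 := by linarith
  set η : V n → ℝ := fun x => chi (1 + (‖x‖ ^ 2 - a ^ 2 / 4) / (3 * a ^ 2 / 4)) *
    (1 - chi (1 + (‖x‖ ^ 2 - b ^ 2) / (2 * b + 1))) with hη
  have hsm : ContDiff ℝ (⊤ : ℕ∞) η := by
    rw [hη]
    refine ContDiff.mul (chi_smooth.comp ?_) (contDiff_const.sub (chi_smooth.comp ?_))
    · exact contDiff_const.add (((contDiff_norm_sq ℝ).sub contDiff_const).div_const _)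
    · exact contDiff_const.add (((contDiff_norm_sq ℝ).sub contDiff_const).div_const _)
  have hclosed : IsClosed (Ann (a / 2) (b + 1) : Set (V n)) := by
    have : (Ann (a / 2) (b + 1) : Set (V n)) = (fun x => ‖x‖) ⁻¹' (Icc (a / 2) (b + 1)) := rfl
    rw [this]
    exact isClosed_Icc.preimage continuous_norm
  have hsupp : tsupport η ⊆ (Ann (a / 2) (b + 1) : Set (V n)) := by
    apply closure_minimal _ hclosed
    intro x hx
    rw [Function.mem_support] at hx
    constructor
    · by_contra hcon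
      push Not at hcon
      apply hx
      rw [hη]
      have h1 : ‖x‖ ^ 2 ≤ a ^ 2 / 4 := by
        have := pow_le_pow_left₀ (norm_nonneg x) hcon.le 2
        calc ‖x‖ ^ 2 ≤ (a / 2) ^ 2 := this
          _ = a ^ 2 / 4 := by ring
      have h2 : (‖x‖ ^ 2 - a ^ 2 / 4) / (3 * a ^ 2 / 4) ≤ 0 :=
        div_nonpos_of_nonpos_of_nonneg (by linarith) hA.le
      show chi _ * _ = 0
      rw [chi_eq_zero (by linarith), zero_mul]
    · by_contra hcon
      push Not at hcon
      apply hx
      rw [hη]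
      have h1 : (b + 1) ^ 2 ≤ ‖x‖ ^ 2 := pow_le_pow_left₀ (by linarith) hcon.le 2
      have h2 : 1 ≤ (‖x‖ ^ 2 - b ^ 2) / (2 * b + 1) := by
        rw [le_div_iff₀ hB]
        nlinarith
      have h3 : chi (1 + (‖x‖ ^ 2 - b ^ 2) / (2 * b + 1)) = 1 := chi_eq_one (by linarith)
      show _ * (1 - chi (1 + (‖x‖ ^ 2 - b ^ 2) / (2 * b + 1))) = 0
      rw [h3, sub_self, mul_zero]
  refine ⟨η, ⟨hsm, ?_, ?_⟩, ?_, ?_, ?_, hsupp⟩
  · apply (isCompact_closedBall (0 : V n) (b + 1)).of_isClosed_subset (isClosed_tsupport _)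
    intro x hx
    rw [mem_closedBall_zero_iff]
    exact (hsupp hx).2
  · intro h0
    have := (hsupp h0).1
    rw [norm_zero] at this
    linarith
  · intro x
    exact mul_nonneg (chi_nonneg _) (by linarith [chi_le_one (1 + (‖x‖ ^ 2 - b ^ 2) / (2 * b + 1))])
  · intro x
    have h1 := chi_le_one (1 + (‖x‖ ^ 2 - a ^ 2 / 4) / (3 * a ^ 2 / 4))
    have h2 := chi_nonneg (1 + (‖x‖ ^ 2 - b ^ 2) / (2 * b + 1))
    have h3 := chi_le_one (1 + (‖x‖ ^ 2 - b ^ 2) / (2 * b + 1))
    have h4 := chi_nonneg (1 + (‖x‖ ^ 2 - a ^ 2 / 4) / (3 * a ^ 2 / 4))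
    show chi _ * (1 - chi _) ≤ 1
    nlinarith
  · intro x hx
    obtain ⟨h1, h2⟩ := hx
    have h3 : a ^ 2 ≤ ‖x‖ ^ 2 := pow_le_pow_left₀ ha.le h1 2
    have h4 : ‖x‖ ^ 2 ≤ b ^ 2 := pow_le_pow_left₀ (norm_nonneg x) h2 2
    have h5 : 1 ≤ (‖x‖ ^ 2 - a ^ 2 / 4) / (3 * a ^ 2 / 4) := by
      rw [le_div_iff₀ hA]
      linarith
    have h6 : (‖x‖ ^ 2 - b ^ 2) / (2 * b + 1) ≤ 0 :=
      div_nonpos_of_nonpos_of_nonneg (by linarith) hB.le
    show chi _ * (1 - chi _) = 1
    rw [chi_eq_one (by linarith), chi_eq_zero (by linarith)]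
    ring

/-- test functions are supported in an annulus -/
theorem Tst.ann {η : V n → ℝ} (hη : Tst η) : ∃ a b : ℝ, 0 < a ∧ a ≤ b ∧ tsupport η ⊆ Ann a b := by
  obtain ⟨r, hr, hball⟩ := Metric.isOpen_iff.1 (isClosed_tsupport η).isOpen_compl 0 hη.zero
  obtain ⟨R, hR⟩ := hη.cpt.isBounded.subset_closedBall (0 : V n)
  refine ⟨r, max r R, hr, le_max_left _ _, ?_⟩
  intro x hx
  constructor
  · by_contra hcon
    push Not at hcon
    exact hball (mem_ball_zero_iff.2 hcon) hx
  · have := hR hx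
    rw [mem_closedBall_zero_iff] at this
    exact this.trans (le_max_right _ _)

end OPC
end

section

/-!
# Certificates with a general weight `F = r^{2-n} |S|^ϖ G`

`G = ∑ coef * ss^{-wt} * facs` (degree 0, bounded above and below by positive constants).
The field `F w` is itself a list of terms `v0 1` (because `r w = S p`), so `W = V - F w` is
`Wfield ϖ (WL L LF)` for the list `WL L LF`.
-/

open MeasureTheory Set Filter Topology

namespace OPC

/-- a term of `F`: `coef * r^{2-n} * ss^{ϖ - wt} * facs` -/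
structure FT where
  facs : List Fac
  coef : ℚ
  deriving DecidableEq, Repr

def FT.wt (f : FT) : ℕ := (f.facs.map Fac.wt).sum

/-- the list of terms with `Wfield ϖ (WL L LF) = Vfield ϖ L - F w` -/
def WL (L : List Term) (LF : List FT) : List Term :=
  L ++ (⟨.v0 1, [], 0, 1⟩ :: LF.map fun f => ⟨.v0 1, f.facs, 0, -f.coef⟩)

section Cartesian

variable {n : ℕ}

noncomputable def Gval (LF : List FT) (u : V n → ℝ) (x : V n) : ℝ :=
  (LF.map fun f => (f.coef : ℝ) * (ss u x ^ (-(f.wt : ℝ)) * facsVal u x f.facs)).sum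

noncomputable def FF (ϖ : ℚ) (LF : List FT) (u : V n → ℝ) (x : V n) : ℝ :=
  Ff ϖ u x * Gval LF u x

/-- the defect of the certificate inequality -/
noncomputable def defectF (ϖ t : ℚ) (LF : List FT) (L : List Term) (u : V n → ℝ) (x : V n) : ℝ :=
  ∑ k, pd k (Vfield ϖ L u k) x - (∑ k, (pd k (FF ϖ LF u) x) ^ 2) / (4 * FF ϖ LF u x)
    - t * (FF ϖ LF u x / ‖x‖ ^ 2)

end Cartesian

section Link

variable {R : Type*} [CommRing R] [Algebra ℚ R] {m : ℕ}

/-- the value of `G` on a link state with `|S| = 1` -/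
def gl (LF : List FT) (X : LS R m) : R :=
  (LF.map fun f => algebraMap ℚ R f.coef * facsLv X f.facs).sum

/-- the derivative `∂_k G` on a link state with `|S| = 1` -/
def gd (LF : List FT) (X : LS R m) (k : Fin m) : R :=
  (LF.map fun f => algebraMap ℚ R f.coef *
    (facsLd X k f.facs - (f.wt : R) * facsLv X f.facs * X.w k)).sum

/-- the certificate function for a general weight: it must be `≥ 0` on all good states -/
noncomputable def certF (ϖ t : ℚ) (LF : List FT) (L : List Term) (X : LS ℝ m) : ℝ :=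
  (L.map fun g => g.ldiv ϖ X).sum
    - (∑ k, (ϖ * gl LF X * X.w k + gd LF X k) ^ 2) / (4 * gl LF X)
    - (((m : ℝ) - 1) ^ 2 / 4 + t) * gl LF X * X.eps ^ 2

/-- boundary value of `G` -/
noncomputable def gb (LF : List FT) (l : Fin m → ℝ) (σ : ℝ) : ℝ :=
  (LF.map fun f => (f.coef : ℝ) * (f.facs.map (Fac.bv l σ)).prod).sum

end Link

end OPC
end

section

/-!
# The field for `n = 5`

`L5` is a list of 19 terms; the weight is `F = r^{-3} (r|D²u|)^{11/10}`.
-/

namespace OPC

def L5 : List Term :=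
  [⟨.v0 0, [], 0, 21 / 32⟩,
   ⟨.v0 0, [.b0], 0, -22 / 32⟩,
   ⟨.v0 1, [], 0, 17 / 32⟩,
   ⟨.v0 1, [.b1], 0, 28 / 32⟩,
   ⟨.v0 2, [], 0, -14 / 32⟩,
   ⟨.p1 (.pow 1), [], 0, 23 / 32⟩,
   ⟨.p1 (.pow 1), [.b0], 0, 15 / 32⟩,
   ⟨.p1 (.pow 1), [.b1], 0, -21 / 32⟩,
   ⟨.p1 (.pow 2), [.b0], 0, -17 / 32⟩,
   ⟨.p1 (.pow 2), [.b1], 0, -23 / 32⟩,
   ⟨.p1 (.sym 0 0), [], 0, 14 / 32⟩,
   ⟨.p1 (.sym 0 1), [], 0, -42 / 32⟩,
   ⟨.p1 (.sym 0 3), [], 0, 56 / 32⟩,
   ⟨.p1 (.sym 1 1), [], 0, 23 / 32⟩,
   ⟨.h1 (.pow 1) (.sym 0 0), [], 0, -7 / 32⟩,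
   ⟨.h1 (.pow 1) (.sym 0 1), [], 0, 14 / 32⟩,
   ⟨.h1 (.pow 1) (.sym 0 2), [], 0, 30 / 32⟩,
   ⟨.h1 (.pow 1) (.sym 1 1), [], 0, -28 / 32⟩,
   ⟨.h1 (.pow 1) (.pow 2), [.b0], 0, -18 / 32⟩]

theorem L5_ok : ∀ g ∈ L5, g.ok := by
  intro g hg
  simp only [L5, List.mem_cons, List.not_mem_nil, or_false] at hg
  rcases hg with rfl | rfl | rfl | rfl | rfl | rfl | rfl | rfl | rfl | rfl | rfl | rfl | rfl |
    rfl | rfl | rfl | rfl | rfl | rfl <;> simp [Term.ok, Mt.ok]

end OPC
end

section

/-! # A06: homogeneity and Euler identities -/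

open MeasureTheory Set Filter Topology

namespace OPC

variable {n : ℕ} {E : Set (V n)} {u : V n → ℝ}

/-- Partial derivatives of homogeneous functions on a cone: if `f (t x) = t^k f x` (`k : ℤ`) on `E`
for `t > 0`, then `∂_i f` is homogeneous of degree `k - 1`.
Sketch: `f ∘ (t • ·) = t^k f` near `x`; chain rule. -/
theorem pd_hom (hE : IsOpen E) (hc : ∀ t : ℝ, 0 < t → ∀ x : V n, x ∈ E → t • x ∈ E)
    {f : V n → ℝ} (hf : ∀ x ∈ E, DifferentiableAt ℝ f x) (k : ℤ)
    (hk : ∀ t : ℝ, 0 < t → ∀ x ∈ E, f (t • x) = t ^ k * f x) (i : Fin n) :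
    ∀ t : ℝ, 0 < t → ∀ x ∈ E, pd i f (t • x) = t ^ (k - 1) * pd i f x := by
  intro t ht x hx
  have hev : (fun y : V n => f (t • y)) =ᶠ[nhds x] fun y => t ^ k * f y := by
    filter_upwards [hE.mem_nhds hx] with y hy
    exact hk t ht y hy
  have h1 : HasFDerivAt (fun y : V n => f (t • y))
      ((fderiv ℝ f (t • x)).comp (t • ContinuousLinearMap.id ℝ (V n))) x := by
    have h2 : HasFDerivAt (fun y : V n => t • y) (t • ContinuousLinearMap.id ℝ (V n)) x :=
      (hasFDerivAt_id x).const_smul t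
    exact (hf (t • x) (hc t ht x hx)).hasFDerivAt.comp x h2
  have h3 : HasFDerivAt (fun y : V n => t ^ k * f y) ((t ^ k) • fderiv ℝ f x) x :=
    (hf x hx).hasFDerivAt.const_mul (t ^ k)
  have h4 := h1.unique (h3.congr_of_eventuallyEq hev)
  have h5 := congrArg (fun L : V n →L[ℝ] ℝ => L (e i)) h4
  simp only [ContinuousLinearMap.comp_apply, smul_apply,
    ContinuousLinearMap.id_apply, map_smul, smul_eq_mul] at h5
  unfold pd
  rw [zpow_sub_one₀ ht.ne']
  field_simp
  linarith

/-- Euler's identity: `f (t x) = t^k f x` implies `∑ x_i ∂_i f = k f`. -/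
theorem euler (hE : IsOpen E) {f : V n → ℝ} (hf : ∀ x ∈ E, DifferentiableAt ℝ f x) (k : ℤ)
    (hk : ∀ t : ℝ, 0 < t → ∀ x ∈ E, f (t • x) = t ^ k * f x) :
    ∀ x ∈ E, ∑ i, x i * pd i f x = k * f x := by
  intro x hx
  have h1 : HasDerivAt (fun s : ℝ => s • x) x 1 := by
    simpa using (hasDerivAt_id (1 : ℝ)).smul_const x
  have h0 : HasFDerivAt f (fderiv ℝ f x) ((1 : ℝ) • x) := by
    rw [one_smul]
    exact (hf x hx).hasFDerivAt
  have h2 : HasDerivAt (fun s : ℝ => f (s • x)) (fderiv ℝ f x x) 1 :=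
    h0.comp_hasDerivAt 1 h1
  have h3 : HasDerivAt (fun s : ℝ => s ^ k * f x) ((k : ℝ) * f x) 1 := by
    have h4 := (hasDerivAt_zpow k (1 : ℝ) (Or.inl one_ne_zero)).mul_const (f x)
    simpa using h4
  have hev : (fun s : ℝ => f (s • x)) =ᶠ[nhds 1] fun s => s ^ k * f x := by
    filter_upwards [lt_mem_nhds (zero_lt_one : (0 : ℝ) < 1)] with s hs
    exact hk s hs x hx
  have h5 := h2.unique (h3.congr_of_eventuallyEq hev)
  rw [← h5, fderiv_apply_eq_sum]

theorem Sol.hom_q (h : Sol E u) (i : Fin n) : ∀ t : ℝ, 0 < t → ∀ x ∈ E,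
    q u i (t • x) = q u i x := by
  intro t ht x hx
  have := pd_hom h.isOpen (fun t ht x hx => (h.smul_mem ht).2 hx) (f := u)
    (fun y hy => diffAt h.isOpen h.smooth hy) 1 (fun t ht x _ => by rw [h.hom t ht x]; simp) i
    t ht x hx
  simpa [q] using this

theorem Sol.hom_S (h : Sol E u) (i j : Fin n) : ∀ t : ℝ, 0 < t → ∀ x ∈ E,
    S u i j (t • x) = t⁻¹ * S u i j x := by
  intro t ht x hx
  have := pd_hom h.isOpen (fun t ht x hx => (h.smul_mem ht).2 hx) (f := q u j)
    (fun y hy => h.diff_q j hy) 0 (fun t ht x hx => by rw [h.hom_q j t ht x hx]; simp) i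
    t ht x hx
  simpa [S, q, zpow_neg] using this

theorem Sol.hom_T (h : Sol E u) (i j k : Fin n) : ∀ t : ℝ, 0 < t → ∀ x ∈ E,
    T u i j k (t • x) = (t ^ 2)⁻¹ * T u i j k x := by
  intro t ht x hx
  have := pd_hom h.isOpen (fun t ht x hx => (h.smul_mem ht).2 hx) (f := S u j k)
    (fun y hy => h.diff_S j k hy) (-1) (fun t ht x hx => by rw [h.hom_S j k t ht x hx]; simp) i
    t ht x hx
  have h2 : t ^ ((-1 : ℤ) - 1) = (t ^ 2)⁻¹ := by
    rw [show ((-1 : ℤ) - 1) = -((2 : ℕ) : ℤ) by norm_num, zpow_neg, zpow_natCast]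
  rw [h2] at this
  exact this

theorem Sol.euler_u (h : Sol E u) {x : V n} (hx : x ∈ E) : ∑ i, x i * q u i x = u x := by
  have := euler h.isOpen (f := u) (fun y hy => diffAt h.isOpen h.smooth hy) 1
    (fun t ht x _ => by rw [h.hom t ht x]; simp) x hx
  simpa [q] using this

theorem Sol.euler_q (h : Sol E u) (j : Fin n) {x : V n} (hx : x ∈ E) :
    ∑ i, x i * S u i j x = 0 := by
  have := euler h.isOpen (f := q u j) (fun y hy => h.diff_q j hy) 0
    (fun t ht x hx => by rw [h.hom_q j t ht x hx]; simp) x hx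
  simpa [S, q] using this

theorem Sol.euler_q' (h : Sol E u) (j : Fin n) {x : V n} (hx : x ∈ E) :
    ∑ i, S u j i x * x i = 0 := by
  rw [← h.euler_q j hx]
  exact Finset.sum_congr rfl fun i _ => by rw [h.S_symm j i hx]; ring

theorem Sol.euler_S (h : Sol E u) (j k : Fin n) {x : V n} (hx : x ∈ E) :
    ∑ i, x i * T u i j k x = - S u j k x := by
  have := euler h.isOpen (f := S u j k) (fun y hy => h.diff_S j k hy) (-1)
    (fun t ht x hx => by rw [h.hom_S j k t ht x hx]; simp) x hx
  rw [show ((-1 : ℤ) : ℝ) = -1 by norm_num] at this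
  simpa [T, S] using this

/-- `x · w = 0` -/
theorem Sol.x_w (h : Sol E u) {x : V n} (hx : x ∈ E) : ∑ i, x i * w u i x = 0 := by
  unfold w
  simp_rw [Finset.mul_sum]
  rw [Finset.sum_comm]
  apply Finset.sum_eq_zero
  intro j _
  have h2 : ∑ i, x i * (S u i j x * q u j x) = (∑ i, x i * S u i j x) * q u j x := by
    rw [Finset.sum_mul]; exact Finset.sum_congr rfl fun i _ => by ring
  rw [h2, h.euler_q j hx, zero_mul]

/-- the gradient does not vanish in `E` -/
theorem Sol.gg_pos (h : Sol E u) {x : V n} (hx : x ∈ E) : 0 < gg u x := by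
  by_contra hc
  have h0 : gg u x = 0 := le_antisymm (not_lt.1 hc) (Finset.sum_nonneg fun i _ => sq_nonneg _)
  have h1 : ∀ i, q u i x = 0 := by
    intro i
    have := (Finset.sum_eq_zero_iff_of_nonneg (fun i _ => sq_nonneg (q u i x))).1 h0 i
      (Finset.mem_univ i)
    exact pow_eq_zero_iff (two_ne_zero) |>.1 this
  have h2 := h.euler_u hx
  simp [h1] at h2
  exact absurd h2 (h.pos x hx).ne

end OPC
end
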