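import Pool.Agent.Lib.MP_9059b8_an.A06
import Pool.Agent.Lib.MP_9059b8_an.Defs2

section

/-! # A07: boundary values of the jets -/

open MeasureTheory Set Filter Topology

namespace OPC

variable {n : ℕ} {E : Set (V n)} {u : V n → ℝ}

/-- The limits of the jets of `u` at `p` are the jets of any `C²` function that agrees with `u` on
`E` near `p`. -/
private theorem jet_lim (hE : IsOpen E) {p : V n} {U : Set (V n)} (hU : U ∈ 𝓝 p) {g : V n → ℝ}
    (hg : ContDiff ℝ 2 g) (hgu : ∀ x ∈ U ∩ E, g x = u x) :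
    (∀ i, Tendsto (q u i) (𝓝[E] p) (𝓝 (pd i g p))) ∧
      ∀ i j, Tendsto (S u i j) (𝓝[E] p) (𝓝 (pd i (pd j g) p)) := by
  set B : Set (V n) := interior U ∩ E with hB
  have hBo : IsOpen B := isOpen_interior.inter hE
  have hBu : ∀ x ∈ B, u x = g x := fun x hx => (hgu x ⟨interior_subset hx.1, hx.2⟩).symm
  have hq : ∀ i, ∀ x ∈ B, q u i x = pd i g x := fun i x hx => pd_congr hBo hBu i x hx
  have hS : ∀ i j, ∀ x ∈ B, S u i j x = pd i (pd j g) x := fun i j x hx =>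
    pd_congr hBo (hq j) i x hx
  have hev : ∀ᶠ x in 𝓝[E] p, x ∈ B := by
    filter_upwards [mem_nhdsWithin_of_mem_nhds (interior_mem_nhds.2 hU), self_mem_nhdsWithin]
      with x h1 h2 using ⟨h1, h2⟩
  have h1 : ∀ i, ContDiff ℝ 1 (pd i g) := fun i => contDiff_pd hg (by norm_num) i
  have h2 : ∀ i j, ContDiff ℝ 0 (pd i (pd j g)) := fun i j => contDiff_pd (h1 j) (by norm_num) i
  refine ⟨fun i => ?_, fun i j => ?_⟩
  · refine (((h1 i).continuous.tendsto p).mono_left nhdsWithin_le_nhds).congr' ?_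
    filter_upwards [hev] with x hx using (hq i x hx).symm
  · refine (((h2 i j).continuous.tendsto p).mono_left nhdsWithin_le_nhds).congr' ?_
    filter_upwards [hev] with x hx using (hS i j x hx).symm

/-- A function that is locally constant on a level set `{f = f p}` with `fderiv f p ≠ 0` has
derivative at `p` proportional to that of `f`. -/
private theorem lagrange {p : V n} {f φ : V n → ℝ} (hf : ContDiff ℝ 2 f) (hfp : fderiv ℝ f p ≠ 0)
    (hφ : ContDiff ℝ 1 φ) (hc : ∀ᶠ x in 𝓝 p, f x = f p → φ x = φ p) :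
    ∃ c : ℝ, fderiv ℝ φ p = c • fderiv ℝ f p := by
  have hext : IsLocalExtrOn φ {x | f x = f p} p := by
    left
    filter_upwards [mem_nhdsWithin_of_mem_nhds hc, self_mem_nhdsWithin] with x h1 h2
    exact (h1 h2).ge
  have hf' : HasStrictFDerivAt f (fderiv ℝ f p) p :=
    (hf.contDiffAt).hasStrictFDerivAt (by norm_num)
  have hφ' : HasStrictFDerivAt φ (fderiv ℝ φ p) p :=
    (hφ.contDiffAt).hasStrictFDerivAt (by norm_num)
  obtain ⟨a, b, hab, hsum⟩ := hext.exists_multipliers_of_hasStrictFDerivAt_1d hf' hφ'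
  have hb : b ≠ 0 := by
    rintro rfl
    rw [zero_smul, add_zero, smul_eq_zero] at hsum
    rcases hsum with h1 | h1
    · exact hab (by rw [h1]; rfl)
    · exact hfp h1
  refine ⟨-(a / b), ?_⟩
  have h1 : b • fderiv ℝ φ p = (-a) • fderiv ℝ f p := by
    rw [neg_smul]
    exact eq_neg_of_add_eq_zero_right hsum
  calc fderiv ℝ φ p = b⁻¹ • (b • fderiv ℝ φ p) := by rw [smul_smul, inv_mul_cancel₀ hb, one_smul]
    _ = (-(a / b)) • fderiv ℝ f p := by
        rw [h1, smul_smul]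
        congr 1
        field_simp

/-- Boundary jets at a free boundary point `p ≠ 0`.
Sketch: let `U, g` be as in `h.reg p`, `U', f` as in `h.bdry p` (shrink `U, U'` to a common open
ball `B ∋ p`). On `E ∩ B` (open) `u = g`, so `q u i = pd i g`, `S u i j = pd i (pd j g)` there; take
`qb i = pd i g p`, `Sb i j = pd i (pd j g) p` (continuous since `g` is `C²`).
`f p = 0`: `p ∈ frontier E` is not in `E`, so `f p ≤ 0`, and `p` is a limit of points of `E`, `f > 0`.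
* `∑ qb² = ‖fderiv g p‖² = 1`. `∑ p_i qb i = lim u = 0` (`h.euler_u`, `h.frontier_u`).
* symmetry, trace, `∑ Sb i j p_j = 0`: limits of `h.S_symm`, `h.tr_S`, `h.euler_q'`.
* eigenvector: for every `x` near `p` with `f x = 0`: `x ∉ E`, `x ∈ closure E` (as `fderiv f x ≠ 0`
  there are points with `f > 0` arbitrarily near `x`), so `x ∈ frontier E`, `x ≠ 0`; `g x = 0` and
  `∑ (pd i g x)^2 = 1` (take the `g'` of `h.reg x`: `pd i g = pd i g'` on `E` near `x`, hence also at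
  `x` by continuity, as `x ∈ closure E`). So the `C¹` functions `g` and `W := ∑ (pd i g)^2 / 2` are
  constant on `{f = 0}` near `p`. By Lagrange multipliers
  (`IsLocalExtrOn.exists_multipliers_of_hasStrictFDerivAt_1d`) `fderiv g p = c • fderiv f p`,
  `fderiv W p = c' • fderiv f p`, `c ≠ 0` (norm 1); and `pd i W p = ∑ j, Sb i j * qb j`. -/
theorem Sol.bdry_jet (h : Sol E u) {p : V n} (hp : p ∈ frontier E) (hp0 : p ≠ 0) :
    ∃ (qb : Fin n → ℝ) (Sb : Fin n → Fin n → ℝ) (σ : ℝ),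
      (∀ i, Tendsto (q u i) (𝓝[E] p) (𝓝 (qb i))) ∧
      (∀ i j, Tendsto (S u i j) (𝓝[E] p) (𝓝 (Sb i j))) ∧
      ∑ i, qb i ^ 2 = 1 ∧ ∑ i, p i * qb i = 0 ∧ (∀ i j, Sb i j = Sb j i) ∧
      ∑ i, Sb i i = 0 ∧ (∀ i, ∑ j, Sb i j * p j = 0) ∧ (∀ i, ∑ j, Sb i j * qb j = σ * qb i) := by
  classical
  obtain ⟨U', hU', f, hf, hfp, hfE⟩ := h.bdry p hp hp0
  obtain ⟨U, hU, g, hg, hgu, hg1⟩ := h.reg p hp hp0
  have hpcl : p ∈ closure E := frontier_subset_closure hp
  have hne : (𝓝[E] p).NeBot := mem_closure_iff_nhdsWithin_neBot.1 hpcl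
  obtain ⟨hq, hS⟩ := jet_lim h.isOpen hU hg hgu
  have hx : ∀ i, Tendsto (fun x : V n => x i) (𝓝[E] p) (𝓝 (p i)) := fun i =>
    ((EuclideanSpace.proj i : V n →L[ℝ] ℝ).continuous.tendsto p).mono_left nhdsWithin_le_nhds
  have hin : ∀ᶠ x in 𝓝[E] p, x ∈ E := self_mem_nhdsWithin
  have hsum1 : ∑ i, pd i g p ^ 2 = 1 := by
    rw [← norm_fderiv_sq, hg1, one_pow]
  -- the eigenvector
  have hfp0 : f p = 0 := by
    apply le_antisymm
    · have hpE : p ∉ E := by
        rw [h.isOpen.frontier_eq] at hp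
        exact hp.2
      exact not_lt.1 fun hlt => hpE ((hfE p (mem_of_mem_nhds hU')).2 hlt)
    · have h1 : Tendsto f (𝓝[E] p) (𝓝 (f p)) := (hf.continuous.tendsto p).mono_left nhdsWithin_le_nhds
      refine ge_of_tendsto h1 ?_
      filter_upwards [hin, mem_nhdsWithin_of_mem_nhds hU'] with x hxE hxU
      exact ((hfE x hxU).1 hxE).le
  have hnear : ∀ᶠ x in 𝓝 p, f x = f p → g x = g p ∧ (∑ j, pd j g x ^ 2) = ∑ j, pd j g p ^ 2 := by
    have hd : ∀ᶠ x in 𝓝 p, fderiv ℝ f x ≠ 0 :=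
      (hf.continuous_fderiv (by norm_num)).continuousAt.eventually_ne hfp
    have hz : ∀ᶠ x in 𝓝 p, x ≠ (0 : V n) := isOpen_ne.mem_nhds hp0
    have hgp : g p = 0 := by
      have h1 : Tendsto g (𝓝[E] p) (𝓝 (g p)) := (hg.continuous.tendsto p).mono_left nhdsWithin_le_nhds
      have h2 : Tendsto u (𝓝[E] p) (𝓝 (u p)) := (h.cont.tendsto p).mono_left nhdsWithin_le_nhds
      have h3 : Tendsto g (𝓝[E] p) (𝓝 (u p)) := by
        refine h2.congr' ?_
        filter_upwards [hin, mem_nhdsWithin_of_mem_nhds hU] with x hxE hxU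
        exact (hgu x ⟨hxU, hxE⟩).symm
      rw [tendsto_nhds_unique h1 h3, h.frontier_u hp]
    filter_upwards [hd, hz, eventually_mem_nhds_iff.2 hU, eventually_mem_nhds_iff.2 hU'] with
      x hxd hx0 hxU hxU' hfx
    rw [hfp0] at hfx
    have hxE : x ∉ E := fun hxE => by
      have := (hfE x (mem_of_mem_nhds hxU')).1 hxE
      rw [hfx] at this
      exact lt_irrefl _ this
    have hxcl : x ∈ closure E := by
      by_contra hxc
      apply hxd
      apply IsLocalMax.fderiv_eq_zero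
      have h1 : (closure E)ᶜ ∈ 𝓝 x := isClosed_closure.isOpen_compl.mem_nhds hxc
      filter_upwards [h1, hxU'] with y hy1 hy2
      rw [hfx]
      exact not_lt.1 fun hlt => hy1 (subset_closure ((hfE y hy2).2 hlt))
    have hxf : x ∈ frontier E := by
      rw [h.isOpen.frontier_eq]
      exact ⟨hxcl, hxE⟩
    have hnex : (𝓝[E] x).NeBot := mem_closure_iff_nhdsWithin_neBot.1 hxcl
    have hinx : ∀ᶠ y in 𝓝[E] x, y ∈ E := self_mem_nhdsWithin
    constructor
    · have h1 : Tendsto g (𝓝[E] x) (𝓝 (g x)) := (hg.continuous.tendsto x).mono_left nhdsWithin_le_nhds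
      have h2 : Tendsto u (𝓝[E] x) (𝓝 (u x)) := (h.cont.tendsto x).mono_left nhdsWithin_le_nhds
      have h3 : Tendsto g (𝓝[E] x) (𝓝 (u x)) := by
        refine h2.congr' ?_
        filter_upwards [hinx, mem_nhdsWithin_of_mem_nhds hxU] with y hyE hyU
        exact (hgu y ⟨hyU, hyE⟩).symm
      rw [tendsto_nhds_unique h1 h3, h.frontier_u hxf, hgp]
    · obtain ⟨U₂, hU₂, g₂, hg₂, hgu₂, hg₂1⟩ := h.reg x hxf hx0
      obtain ⟨hq₁, _⟩ := jet_lim h.isOpen hxU hg hgu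
      obtain ⟨hq₂, _⟩ := jet_lim h.isOpen hU₂ hg₂ hgu₂
      have h1 : ∀ j, pd j g x = pd j g₂ x := fun j => tendsto_nhds_unique (hq₁ j) (hq₂ j)
      rw [hsum1]
      simp_rw [h1]
      rw [← norm_fderiv_sq, hg₂1, one_pow]
  have hW : ContDiff ℝ 1 (fun x => ∑ j, pd j g x ^ 2) := by
    apply ContDiff.sum
    intro j _
    exact (contDiff_pd hg (by norm_num) j).pow 2
  obtain ⟨c, hc⟩ := lagrange hf hfp (hg.of_le (by norm_num)) (hnear.mono fun x hx1 hx2 => (hx1 hx2).1)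
  obtain ⟨c', hc'⟩ := lagrange hf hfp hW (hnear.mono fun x hx1 hx2 => (hx1 hx2).2)
  have hc0 : c ≠ 0 := by
    rintro rfl
    rw [zero_smul] at hc
    rw [hc, norm_zero] at hg1
    exact zero_ne_one hg1
  have hpdW : ∀ i, pd i (fun x => ∑ j, pd j g x ^ 2) p = 2 * ∑ j, pd i (pd j g) p * pd j g p := by
    intro i
    have hdj : ∀ j, DifferentiableAt ℝ (pd j g) p := fun j =>
      (contDiff_pd hg (m := 1) (by norm_num) j).differentiable (by norm_num) p
    have hsm := pd_sum (n := n) Finset.univ (f := fun j x => pd j g x ^ 2) (x := p)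
      (fun j _ => (hdj j).fun_pow 2) i
    rw [hsm, Finset.mul_sum]
    refine Finset.sum_congr rfl fun j _ => ?_
    rw [pd_pow (hdj j)]
    norm_num
    ring
  refine ⟨fun i => pd i g p, fun i j => pd i (pd j g) p, c' / c / 2, hq, hS, hsum1, ?_, ?_, ?_, ?_, ?_⟩
  · have h1 : Tendsto (fun x : V n => ∑ i, x i * q u i x) (𝓝[E] p) (𝓝 (∑ i, p i * pd i g p)) :=
      tendsto_finsetSum _ fun i _ => (hx i).mul (hq i)
    have h2 : Tendsto (fun x : V n => ∑ i, x i * q u i x) (𝓝[E] p) (𝓝 (u p)) := by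
      refine ((h.cont.tendsto p).mono_left nhdsWithin_le_nhds).congr' ?_
      filter_upwards [hin] with x hxE using (h.euler_u hxE).symm
    rw [tendsto_nhds_unique h1 h2, h.frontier_u hp]
  · intro i j
    refine tendsto_nhds_unique (hS i j) ((hS j i).congr' ?_)
    filter_upwards [hin] with x hxE using h.S_symm j i hxE
  · have h1 : Tendsto (fun x : V n => ∑ i, S u i i x) (𝓝[E] p) (𝓝 (∑ i, pd i (pd i g) p)) :=
      tendsto_finsetSum _ fun i _ => hS i i
    refine tendsto_nhds_unique h1 (tendsto_const_nhds.congr' ?_)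
    filter_upwards [hin] with x hxE using (h.tr_S hxE).symm
  · intro i
    have h1 : Tendsto (fun x : V n => ∑ j, S u i j x * x j) (𝓝[E] p)
        (𝓝 (∑ j, pd i (pd j g) p * p j)) :=
      tendsto_finsetSum _ fun j _ => (hS i j).mul (hx j)
    refine tendsto_nhds_unique h1 (tendsto_const_nhds.congr' ?_)
    filter_upwards [hin] with x hxE using (h.euler_q' i hxE).symm
  · intro i
    have h1 : fderiv ℝ (fun x => ∑ j, pd j g x ^ 2) p = (c' / c) • fderiv ℝ g p := by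
      rw [hc', hc, smul_smul, div_mul_cancel₀ _ hc0]
    have h2 : pd i (fun x => ∑ j, pd j g x ^ 2) p = (c' / c) * pd i g p := by
      unfold pd at h1 ⊢
      rw [h1]
      rfl
    rw [hpdW i] at h2
    linarith

end OPC
end

section

/-! # A09: smoothness of the derived quantities, first identities -/

open MeasureTheory Set Filter Topology

namespace OPC

variable {n : ℕ} {E : Set (V n)} {u : V n → ℝ}

theorem Sol.smooth_gg (h : Sol E u) : ContDiffOn ℝ (⊤ : ℕ∞) (gg u) E := by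
  change ContDiffOn ℝ (⊤ : ℕ∞) (fun x => ∑ i, (q u i x) ^ 2) E
  exact ContDiffOn.sum fun i _ => (h.smooth_q i).pow 2

theorem Sol.smooth_NN (h : Sol E u) : ContDiffOn ℝ (⊤ : ℕ∞) (NN u) E := by
  change ContDiffOn ℝ (⊤ : ℕ∞) (fun x => ∑ i, ∑ j, (S u i j x) ^ 2) E
  exact ContDiffOn.sum fun i _ => ContDiffOn.sum fun j _ => (h.smooth_S i j).pow 2

theorem Sol.smooth_TT (h : Sol E u) : ContDiffOn ℝ (⊤ : ℕ∞) (TT u) E := by
  change ContDiffOn ℝ (⊤ : ℕ∞) (fun x => ∑ i, ∑ j, ∑ k, (T u i j k x) ^ 2) E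
  exact ContDiffOn.sum fun i _ => ContDiffOn.sum fun j _ => ContDiffOn.sum fun k _ =>
    (h.smooth_T i j k).pow 2

theorem Sol.smooth_w (h : Sol E u) (i : Fin n) : ContDiffOn ℝ (⊤ : ℕ∞) (w u i) E := by
  change ContDiffOn ℝ (⊤ : ℕ∞) (fun x => ∑ j, S u i j x * q u j x) E
  exact ContDiffOn.sum fun j _ => (h.smooth_S i j).mul (h.smooth_q j)

theorem Sol.smooth_sg (h : Sol E u) : ContDiffOn ℝ (⊤ : ℕ∞) (sg u) E := by
  change ContDiffOn ℝ (⊤ : ℕ∞) (fun x => (∑ i, q u i x * w u i x) / gg u x) E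
  exact (ContDiffOn.sum fun i _ => (h.smooth_q i).mul (h.smooth_w i)).div h.smooth_gg
    fun x hx => (h.gg_pos hx).ne'

theorem Sol.smooth_aa (h : Sol E u) (i : Fin n) : ContDiffOn ℝ (⊤ : ℕ∞) (aa u i) E := by
  change ContDiffOn ℝ (⊤ : ℕ∞) (fun x => w u i x - sg u x * q u i x) E
  exact (h.smooth_w i).sub (h.smooth_sg.mul (h.smooth_q i))

theorem Sol.smooth_Aij (h : Sol E u) (i j : Fin n) : ContDiffOn ℝ (⊤ : ℕ∞) (Aij u i j) E := by
  change ContDiffOn ℝ (⊤ : ℕ∞) (fun x => q u i x * w u j x - q u j x * w u i x) E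
  exact ((h.smooth_q i).mul (h.smooth_w j)).sub ((h.smooth_q j).mul (h.smooth_w i))

theorem Sol.smooth_AA (h : Sol E u) : ContDiffOn ℝ (⊤ : ℕ∞) (AA u) E := by
  change ContDiffOn ℝ (⊤ : ℕ∞) (fun x => ∑ i, ∑ j, (Aij u i j x) ^ 2) E
  exact ContDiffOn.sum fun i _ => ContDiffOn.sum fun j _ => (h.smooth_Aij i j).pow 2

/-- `∇ |∇u|² = 2 w` -/
theorem Sol.pd_gg (h : Sol E u) (i : Fin n) {x : V n} (hx : x ∈ E) :
    pd i (gg u) x = 2 * w u i x := by
  change pd i (fun y => ∑ j, (q u j y) ^ 2) x = 2 * ∑ j, S u i j x * q u j x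
  have hd : ∀ j : Fin n, DifferentiableAt ℝ (fun y => (q u j y) ^ 2) x :=
    fun j => (h.diff_q j hx).pow 2
  rw [pd_sum _ (fun j _ => hd j), Finset.mul_sum]
  refine Finset.sum_congr rfl fun j _ => ?_
  rw [pd_pow (h.diff_q j hx), pd_q]
  push_cast
  ring

/-- `∂_k w_i = ∑_j T_{kij} q_j + ∑_j S_{ij} S_{kj}` -/
theorem Sol.pd_w (h : Sol E u) (k i : Fin n) {x : V n} (hx : x ∈ E) :
    pd k (w u i) x = ∑ j, T u k i j x * q u j x + ∑ j, S u i j x * S u k j x := by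
  change pd k (fun y => ∑ j, S u i j y * q u j y) x = _
  have hd : ∀ j : Fin n, DifferentiableAt ℝ (fun y => S u i j y * q u j y) x :=
    fun j => (h.diff_S i j hx).mul (h.diff_q j hx)
  rw [pd_sum _ (fun j _ => hd j), ← Finset.sum_add_distrib]
  refine Finset.sum_congr rfl fun j _ => ?_
  rw [pd_mul (h.diff_S i j hx) (h.diff_q j hx), pd_q, pd_S]

/-- `div w = |S|²` -/
theorem Sol.div_w (h : Sol E u) {x : V n} (hx : x ∈ E) : ∑ i, pd i (w u i) x = NN u x := by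
  have h1 : ∑ i, pd i (w u i) x
      = ∑ i, ∑ j, T u i i j x * q u j x + ∑ i, ∑ j, S u i j x * S u i j x := by
    rw [← Finset.sum_add_distrib]
    exact Finset.sum_congr rfl fun i _ => h.pd_w i i hx
  have h2 : ∑ i, ∑ j, T u i i j x * q u j x = 0 := by
    rw [Finset.sum_comm]
    apply Finset.sum_eq_zero
    intro j _
    rw [← Finset.sum_mul]
    have := h.div_S j hx
    simp only [pd_S] at this
    rw [this, zero_mul]
  rw [h1, h2, zero_add]
  exact Finset.sum_congr rfl fun i _ => Finset.sum_congr rfl fun j _ => by ring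

/-- `∇|S|²` -/
theorem Sol.pd_NN (h : Sol E u) (k : Fin n) {x : V n} (hx : x ∈ E) :
    pd k (NN u) x = 2 * ∑ i, ∑ j, S u i j x * T u k i j x := by
  change pd k (fun y => ∑ i, ∑ j, (S u i j y) ^ 2) x = _
  have hd : ∀ i j : Fin n, DifferentiableAt ℝ (fun y => (S u i j y) ^ 2) x :=
    fun i j => (h.diff_S i j hx).pow 2
  rw [pd_sum _ (fun i _ => DifferentiableAt.fun_sum fun j _ => hd i j), Finset.mul_sum]
  refine Finset.sum_congr rfl fun i _ => ?_
  rw [pd_sum _ (fun j _ => hd i j), Finset.mul_sum]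
  refine Finset.sum_congr rfl fun j _ => ?_
  rw [pd_pow (h.diff_S i j hx), pd_S]
  push_cast
  ring

/-- `Δ|S|² = 2 |T|²` -/
theorem Sol.lap_NN (h : Sol E u) {x : V n} (hx : x ∈ E) :
    ∑ k, pd k (pd k (NN u)) x = 2 * TT u x := by
  have hd : ∀ k i j : Fin n, DifferentiableAt ℝ (fun y => S u i j y * T u k i j y) x :=
    fun k i j => (h.diff_S i j hx).mul (h.diff_T k i j hx)
  have h1 : ∀ k, pd k (pd k (NN u)) x
      = 2 * ∑ i, ∑ j, ((T u k i j x) ^ 2 + S u i j x * pd k (T u k i j) x) := by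
    intro k
    rw [pd_congr h.isOpen (fun y hy => h.pd_NN k hy) k x hx, pd_const_mul,
      pd_sum _ (fun i _ => DifferentiableAt.fun_sum fun j _ => hd k i j)]
    congr 1
    refine Finset.sum_congr rfl fun i _ => ?_
    rw [pd_sum _ (fun j _ => hd k i j)]
    refine Finset.sum_congr rfl fun j _ => ?_
    rw [pd_mul (h.diff_S i j hx) (h.diff_T k i j hx), pd_S]
    ring
  have h2 : ∑ k, ∑ i, ∑ j, S u i j x * pd k (T u k i j) x = 0 := by
    rw [Finset.sum_comm]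
    apply Finset.sum_eq_zero
    intro i _
    rw [Finset.sum_comm]
    apply Finset.sum_eq_zero
    intro j _
    rw [← Finset.mul_sum, h.div_T i j hx, mul_zero]
  calc ∑ k, pd k (pd k (NN u)) x
      = ∑ k, 2 * ∑ i, ∑ j, ((T u k i j x) ^ 2 + S u i j x * pd k (T u k i j) x) :=
        Finset.sum_congr rfl fun k _ => h1 k
    _ = 2 * (TT u x + ∑ k, ∑ i, ∑ j, S u i j x * pd k (T u k i j) x) := by
        rw [← Finset.mul_sum]
        simp only [Finset.sum_add_distrib, TT]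
    _ = 2 * TT u x := by rw [h2, add_zero]

/-- `q · a = 0` -/
theorem Sol.q_aa (h : Sol E u) {x : V n} (hx : x ∈ E) : ∑ i, q u i x * aa u i x = 0 := by
  have hg : gg u x ≠ 0 := (h.gg_pos hx).ne'
  have h1 : ∑ i, q u i x * aa u i x = ∑ i, q u i x * w u i x - sg u x * gg u x := by
    unfold aa gg
    rw [Finset.mul_sum, ← Finset.sum_sub_distrib]
    exact Finset.sum_congr rfl fun i _ => by ring
  rw [h1, sg, div_mul_cancel₀ _ hg, sub_self]

/-- `|A|² = 2 |q|² |a|²` -/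
theorem Sol.AA_eq (h : Sol E u) {x : V n} (hx : x ∈ E) : AA u x = 2 * gg u x * a2 u x := by
  have h0 := h.q_aa hx
  have h1 : AA u x = ∑ i, ∑ j, ((q u i x) ^ 2 * (aa u j x) ^ 2 + (aa u i x) ^ 2 * (q u j x) ^ 2
      - 2 * ((q u i x * aa u i x) * (q u j x * aa u j x))) := by
    unfold AA Aij aa
    exact Finset.sum_congr rfl fun i _ => Finset.sum_congr rfl fun j _ => by ring
  rw [h1]
  simp only [Finset.sum_add_distrib, Finset.sum_sub_distrib, ← Finset.mul_sum, ← Finset.sum_mul]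
  rw [h0]
  unfold gg a2
  ring

/-- `|∇ |S|²| ≤ 2 |S| |T|`, squared -/
theorem Sol.pd_NN_sq_le (h : Sol E u) {x : V n} (hx : x ∈ E) :
    ∑ k, (pd k (NN u) x) ^ 2 ≤ 4 * NN u x * TT u x := by
  have h1 : ∀ k, (pd k (NN u) x) ^ 2 ≤ 4 * NN u x * ∑ i, ∑ j, (T u k i j x) ^ 2 := by
    intro k
    rw [h.pd_NN k hx]
    have hcs := Finset.sum_mul_sq_le_sq_mul_sq (Finset.univ : Finset (Fin n × Fin n))
      (fun p => S u p.1 p.2 x) (fun p => T u k p.1 p.2 x)
    rw [Fintype.sum_prod_type, Fintype.sum_prod_type, Fintype.sum_prod_type] at hcs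
    calc (2 * ∑ i, ∑ j, S u i j x * T u k i j x) ^ 2
        = 4 * (∑ i, ∑ j, S u i j x * T u k i j x) ^ 2 := by ring
      _ ≤ 4 * ((∑ i, ∑ j, (S u i j x) ^ 2) * ∑ i, ∑ j, (T u k i j x) ^ 2) :=
          mul_le_mul_of_nonneg_left hcs (by norm_num)
      _ = 4 * NN u x * ∑ i, ∑ j, (T u k i j x) ^ 2 := by unfold NN; ring
  calc ∑ k, (pd k (NN u) x) ^ 2 ≤ ∑ k, 4 * NN u x * ∑ i, ∑ j, (T u k i j x) ^ 2 :=
        Finset.sum_le_sum fun k _ => h1 k
    _ = 4 * NN u x * TT u x := by rw [← Finset.mul_sum]; rfl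

end OPC
end

section

section

/-! # P01: algebra of the degree-0 quantities on `E`: symmetry, tangentiality, homogeneity -/

open MeasureTheory Set Filter Topology

namespace OPC

variable {n : ℕ} {E : Set (V n)} {u : V n → ℝ}

theorem Sol.Sm_symm (h : Sol E u) {x : V n} (hx : x ∈ E) : (Sm u x).transpose = Sm u x := by
  ext i j
  simp only [Matrix.transpose_apply, Sm, Matrix.of_apply]
  rw [h.S_symm j i hx]

theorem Sol.Sm_mulVec_x (h : Sol E u) {x : V n} (hx : x ∈ E) :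
    (Sm u x).mulVec (fun i => x i) = 0 := by
  funext i
  simp only [Matrix.mulVec, dotProduct, Sm, Matrix.of_apply, Pi.zero_apply]
  have h1 : ∑ j, ‖x‖ * S u i j x * x j = ‖x‖ * ∑ j, S u i j x * x j := by
    rw [Finset.mul_sum]
    exact Finset.sum_congr rfl fun j _ => by ring
  rw [h1, h.euler_q' i hx, mul_zero]

/-- all the vectors `S^a p` are tangential -/
theorem Sol.x_Sp (h : Sol E u) (a : ℕ) {x : V n} (hx : x ∈ E) : ∑ i, x i * Sp u x a i = 0 := by
  have hx0 : x ≠ 0 := h.ne_zero hx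
  have hn : ‖x‖ ^ 2 ≠ 0 := pow_ne_zero _ (norm_ne_zero_iff.2 hx0)
  cases a with
  | zero =>
    have h1 : ∀ i, Sp u x 0 i = q u i x - u x * x i / ‖x‖ ^ 2 := by
      intro i
      simp [Sp, pv]
    have h2 : ∑ i, x i * Sp u x 0 i = ∑ i, x i * q u i x - u x / ‖x‖ ^ 2 * ∑ i, x i ^ 2 := by
      rw [Finset.mul_sum, ← Finset.sum_sub_distrib]
      exact Finset.sum_congr rfl fun i _ => by rw [h1 i]; ring
    rw [h2, h.euler_u hx, ← norm_sq_eq_sum, div_mul_cancel₀ _ hn, sub_self]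
  | succ a =>
    have h1 : Sp u x (a + 1) = (Sm u x).mulVec ((Sm u x ^ a).mulVec (pv u x)) := by
      unfold Sp
      rw [pow_succ', Matrix.mulVec_mulVec]
    have h2 : ∑ i, x i * Sp u x (a + 1) i
        = (fun i => x i) ⬝ᵥ (Sm u x).mulVec ((Sm u x ^ a).mulVec (pv u x)) := by
      rw [h1]
      rfl
    rw [h2, Matrix.dotProduct_mulVec, ← Matrix.mulVec_transpose, h.Sm_symm hx,
      h.Sm_mulVec_x hx, zero_dotProduct]

theorem Sol.Mt_symm (h : Sol E u) (A : Mt) {x : V n} (hx : x ∈ E) (i j : Fin n) :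
    A.val u x i j = A.val u x j i := by
  cases A with
  | pow a =>
    have h1 : (Sm u x ^ a).transpose = Sm u x ^ a := by
      rw [Matrix.transpose_pow, h.Sm_symm hx]
    show (Sm u x ^ a) i j = (Sm u x ^ a) j i
    conv_lhs => rw [← h1]
    rfl
  | sym a b =>
    show (Sp u x a i * Sp u x b j + Sp u x b i * Sp u x a j) / 2
      = (Sp u x a j * Sp u x b i + Sp u x b j * Sp u x a i) / 2
    ring

theorem Sol.Mt_x (h : Sol E u) {A : Mt} (hA : A.ok) {x : V n} (hx : x ∈ E) (i : Fin n) :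
    ∑ j, A.val u x i j * x j = 0 := by
  cases A with
  | pow a =>
    have ha : 1 ≤ a := hA
    obtain ⟨b, rfl⟩ : ∃ b, a = b + 1 := ⟨a - 1, by omega⟩
    have h1 : (Sm u x ^ (b + 1)).mulVec (fun j => x j) = 0 := by
      rw [pow_succ, ← Matrix.mulVec_mulVec, h.Sm_mulVec_x hx, Matrix.mulVec_zero]
    exact congrFun h1 i
  | sym a b =>
    have h1 : ∑ j, (Mt.sym a b).val u x i j * x j
        = (Sp u x a i * ∑ j, x j * Sp u x b j + Sp u x b i * ∑ j, x j * Sp u x a j) / 2 := by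
      rw [Finset.mul_sum, Finset.mul_sum, ← Finset.sum_add_distrib, Finset.sum_div]
      apply Finset.sum_congr rfl
      intro j _
      show (Sp u x a i * Sp u x b j + Sp u x b i * Sp u x a j) / 2 * x j = _
      ring
    rw [h1, h.x_Sp a hx, h.x_Sp b hx]
    ring

theorem wedge_antisymm (a b : ℕ) (x : V n) (i j : Fin n) :
    wedge u x a b i j = - wedge u x a b j i := by
  show Sp u x a i * Sp u x b j - Sp u x b i * Sp u x a j
    = -(Sp u x a j * Sp u x b i - Sp u x b j * Sp u x a i)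
  ring

theorem Sol.wedge_x (h : Sol E u) (a b : ℕ) {x : V n} (hx : x ∈ E) (i : Fin n) :
    ∑ j, wedge u x a b i j * x j = 0 := by
  have h1 : ∑ j, wedge u x a b i j * x j
      = Sp u x a i * ∑ j, x j * Sp u x b j - Sp u x b i * ∑ j, x j * Sp u x a j := by
    rw [Finset.mul_sum, Finset.mul_sum, ← Finset.sum_sub_distrib]
    apply Finset.sum_congr rfl
    intro j _
    show (Sp u x a i * Sp u x b j - Sp u x b i * Sp u x a j) * x j = _
    ring
  rw [h1, h.x_Sp a hx, h.x_Sp b hx]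
  ring

/-- `ss² = r² |S|²`, also the sum of the squares of the entries of `Sm` -/
theorem ss_sq (x : V n) : ss u x ^ 2 = ‖x‖ ^ 2 * NN u x := by
  have hN : 0 ≤ NN u x :=
    Finset.sum_nonneg fun i _ => Finset.sum_nonneg fun j _ => sq_nonneg _
  unfold ss
  rw [mul_pow, Real.sq_sqrt hN]

/-- everything is homogeneous of degree `0` (resp. `1 - n`, `2 - n`) -/
theorem Sol.hom0 (h : Sol E u) {s : ℝ} (hs : 0 < s) {x : V n} (hx : x ∈ E) :
    Sm u (s • x) = Sm u x ∧ pv u (s • x) = pv u x ∧ (∀ k i j, Tt u (s • x) k i j = Tt u x k i j) ∧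
      ss u (s • x) = ss u x ∧ NN u (s • x) = (s ^ 2)⁻¹ * NN u x ∧ gg u (s • x) = gg u x ∧
      (∀ f : Fac, f.val u (s • x) = f.val u x) ∧ (∀ L, facsVal u (s • x) L = facsVal u x L) ∧
      (∀ A : Mt, A.val u (s • x) = A.val u x) ∧ (∀ sh : Shape, sh.val u (s • x) = sh.val u x) := by
  have hx0 : x ≠ 0 := h.ne_zero hx
  have hn : ‖x‖ ≠ 0 := norm_ne_zero_iff.2 hx0
  have hs0 : s ≠ 0 := hs.ne'
  have hnorm : ‖s • x‖ = s * ‖x‖ := by rw [norm_smul, Real.norm_of_nonneg hs.le]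
  have e1 : Sm u (s • x) = Sm u x := by
    ext i j
    simp only [Sm, Matrix.of_apply]
    rw [hnorm, h.hom_S i j s hs x hx]
    field_simp
  have e2 : pv u (s • x) = pv u x := by
    funext i
    simp only [pv]
    rw [hnorm, h.hom_q i s hs x hx, h.hom s hs x]
    have : (s • x) i = s * x i := rfl
    rw [this]
    field_simp
  have e3 : ∀ k i j, Tt u (s • x) k i j = Tt u x k i j := by
    intro k i j
    simp only [Tt]
    rw [hnorm, h.hom_T k i j s hs x hx]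
    field_simp
  have e5 : NN u (s • x) = (s ^ 2)⁻¹ * NN u x := by
    unfold NN
    rw [Finset.mul_sum]
    apply Finset.sum_congr rfl
    intro i _
    rw [Finset.mul_sum]
    apply Finset.sum_congr rfl
    intro j _
    rw [h.hom_S i j s hs x hx]
    field_simp
  have e4 : ss u (s • x) = ss u x := by
    unfold ss
    rw [e5, hnorm, Real.sqrt_mul (by positivity), Real.sqrt_inv, Real.sqrt_sq hs.le]
    field_simp
  have e6 : gg u (s • x) = gg u x := by
    unfold gg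
    apply Finset.sum_congr rfl
    intro i _
    rw [h.hom_q i s hs x hx]
  have e0 : u (s • x) / ‖s • x‖ = u x / ‖x‖ := by
    rw [hnorm, h.hom s hs x]
    field_simp
  have e7 : ∀ f : Fac, f.val u (s • x) = f.val u x := by
    intro f
    cases f <;> simp only [Fac.val, e1, e2, e6, e0]
  have e8 : ∀ L, facsVal u (s • x) L = facsVal u x L := by
    intro L
    unfold facsVal
    have : Fac.val u (s • x) = Fac.val u x := funext e7
    rw [this]
  have e9 : ∀ a, Sp u (s • x) a = Sp u x a := by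
    intro a
    unfold Sp
    rw [e1, e2]
  have e10 : ∀ A : Mt, A.val u (s • x) = A.val u x := by
    intro A
    cases A with
    | pow a => simp only [Mt.val, e1]
    | sym a b => simp only [Mt.val, e9]
  have e11 : ∀ A, TA u (s • x) A = TA u x A := by
    intro A
    funext k
    simp only [TA, e3]
  have e12 : ∀ a b, wedge u (s • x) a b = wedge u x a b := by
    intro a b
    simp only [wedge, e9]
  refine ⟨e1, e2, e3, e4, e5, e6, e7, e8, e10, ?_⟩
  intro sh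
  cases sh with
  | v0 a => simp only [Shape.val, e9]
  | p1 A => simp only [Shape.val, e10, e11]
  | h1 A B => simp only [Shape.val, e10, e11]
  | h2 a b c => simp only [Shape.val, e11, e12, e1]

theorem Sol.hom_Vfield (h : Sol E u) (ϖ : ℚ) (L : List Term) (k : Fin n) {s : ℝ} (hs : 0 < s)
    {x : V n} (hx : x ∈ E) : Vfield ϖ L u k (s • x) = s ^ (1 - (n : ℤ)) * Vfield ϖ L u k x := by
  obtain ⟨-, -, -, e4, -, -, -, e8, -, e10⟩ := h.hom0 hs hx
  have hnorm : ‖s • x‖ = s * ‖x‖ := by rw [norm_smul, Real.norm_of_nonneg hs.le]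
  unfold Vfield
  rw [← List.sum_map_mul_left]
  congr 1
  apply List.map_congr_left
  intro g _
  unfold Term.field
  rw [e4, e8, e10, hnorm, mul_zpow]
  ring

theorem Sol.hom_Ff (h : Sol E u) (ϖ : ℚ) {s : ℝ} (hs : 0 < s) {x : V n} (hx : x ∈ E) :
    Ff ϖ u (s • x) = s ^ (2 - (n : ℤ)) * Ff ϖ u x := by
  obtain ⟨-, -, -, e4, -⟩ := h.hom0 hs hx
  have hnorm : ‖s • x‖ = s * ‖x‖ := by rw [norm_smul, Real.norm_of_nonneg hs.le]
  unfold Ff
  rw [e4, hnorm, mul_zpow]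
  ring

end OPC
end

section

/-! # P02: smoothness of the degree-0 quantities -/

open MeasureTheory Set Filter Topology

namespace OPC

variable {n : ℕ} {E : Set (V n)} {u : V n → ℝ}

theorem Sol.smooth_norm (h : Sol E u) : ContDiffOn ℝ (⊤ : ℕ∞) (fun x : V n => ‖x‖) E :=
  ContDiffOn.norm ℝ contDiffOn_id fun _ hx => h.ne_zero hx

theorem Sol.smooth_zpow (h : Sol E u) (k : ℤ) :
    ContDiffOn ℝ (⊤ : ℕ∞) (fun x : V n => ‖x‖ ^ k) E := by
  rcases k.eq_nat_or_neg with ⟨m, rfl | rfl⟩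
  · simp only [zpow_natCast]
    exact h.smooth_norm.pow m
  · simp only [zpow_neg, zpow_natCast]
    exact (h.smooth_norm.pow m).inv fun x hx => pow_ne_zero m (norm_ne_zero_iff.2 (h.ne_zero hx))

theorem Sol.smooth_Sm (h : Sol E u) (i j : Fin n) :
    ContDiffOn ℝ (⊤ : ℕ∞) (fun x => Sm u x i j) E := by
  change ContDiffOn ℝ (⊤ : ℕ∞) (fun x => ‖x‖ * S u i j x) E
  exact h.smooth_norm.mul (h.smooth_S i j)

theorem Sol.smooth_Sm_pow (h : Sol E u) (a : ℕ) (i j : Fin n) :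
    ContDiffOn ℝ (⊤ : ℕ∞) (fun x => (Sm u x ^ a) i j) E := by
  induction a generalizing i j with
  | zero =>
    simp only [pow_zero]
    exact contDiffOn_const
  | succ a ih =>
    simp only [pow_succ, Matrix.mul_apply]
    exact ContDiffOn.sum fun k _ => (ih i k).mul (h.smooth_Sm k j)

private theorem smooth_coord (i : Fin n) (s : Set (V n)) :
    ContDiffOn ℝ (⊤ : ℕ∞) (fun x : V n => x i) s := by
  have : (fun y : V n => y i) = (EuclideanSpace.proj i : V n →L[ℝ] ℝ) := rfl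
  rw [this]
  exact (EuclideanSpace.proj i : V n →L[ℝ] ℝ).contDiff.contDiffOn

theorem Sol.smooth_pv (h : Sol E u) (i : Fin n) : ContDiffOn ℝ (⊤ : ℕ∞) (fun x => pv u x i) E := by
  change ContDiffOn ℝ (⊤ : ℕ∞) (fun x => q u i x - u x * x i / ‖x‖ ^ 2) E
  refine (h.smooth_q i).sub (ContDiffOn.div (h.smooth.mul (smooth_coord i E))
    (h.smooth_norm.pow 2) ?_)
  intro x hx
  exact pow_ne_zero 2 (norm_ne_zero_iff.2 (h.ne_zero hx))

theorem Sol.smooth_Sp (h : Sol E u) (a : ℕ) (i : Fin n) :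
    ContDiffOn ℝ (⊤ : ℕ∞) (fun x => Sp u x a i) E := by
  change ContDiffOn ℝ (⊤ : ℕ∞) (fun x => ∑ j, (Sm u x ^ a) i j * pv u x j) E
  exact ContDiffOn.sum fun j _ => (h.smooth_Sm_pow a i j).mul (h.smooth_pv j)

theorem Sol.smooth_Mt (h : Sol E u) (A : Mt) (i j : Fin n) :
    ContDiffOn ℝ (⊤ : ℕ∞) (fun x => A.val u x i j) E := by
  cases A with
  | pow a => exact h.smooth_Sm_pow a i j
  | sym a b =>
    change ContDiffOn ℝ (⊤ : ℕ∞)
      (fun x => (Sp u x a i * Sp u x b j + Sp u x b i * Sp u x a j) / 2) E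
    exact (((h.smooth_Sp a i).mul (h.smooth_Sp b j)).add
      ((h.smooth_Sp b i).mul (h.smooth_Sp a j))).div_const 2

theorem Sol.smooth_wedge (h : Sol E u) (a b : ℕ) (i j : Fin n) :
    ContDiffOn ℝ (⊤ : ℕ∞) (fun x => wedge u x a b i j) E := by
  change ContDiffOn ℝ (⊤ : ℕ∞) (fun x => Sp u x a i * Sp u x b j - Sp u x b i * Sp u x a j) E
  exact ((h.smooth_Sp a i).mul (h.smooth_Sp b j)).sub ((h.smooth_Sp b i).mul (h.smooth_Sp a j))

theorem Sol.smooth_Tt (h : Sol E u) (k i j : Fin n) :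
    ContDiffOn ℝ (⊤ : ℕ∞) (fun x => Tt u x k i j) E :=
  (h.smooth_norm.pow 2).mul (h.smooth_T k i j)

private theorem Sol.smooth_TA (h : Sol E u) {A : V n → Matrix (Fin n) (Fin n) ℝ}
    (hA : ∀ i j, ContDiffOn ℝ (⊤ : ℕ∞) (fun x => A x i j) E) (k : Fin n) :
    ContDiffOn ℝ (⊤ : ℕ∞) (fun x => TA u x (A x) k) E := by
  change ContDiffOn ℝ (⊤ : ℕ∞) (fun x => ∑ i, ∑ j, Tt u x k i j * A x i j) E
  exact ContDiffOn.sum fun i _ => ContDiffOn.sum fun j _ => (h.smooth_Tt k i j).mul (hA i j)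

theorem Sol.smooth_Shape (h : Sol E u) (sh : Shape) (k : Fin n) :
    ContDiffOn ℝ (⊤ : ℕ∞) (fun x => sh.val u x k) E := by
  cases sh with
  | v0 a => exact h.smooth_Sp a k
  | p1 A => exact h.smooth_TA (fun i j => h.smooth_Mt A i j) k
  | h1 A B =>
    change ContDiffOn ℝ (⊤ : ℕ∞) (fun x => ∑ l, (B.val u x k l * TA u x (A.val u x) l
      - A.val u x k l * TA u x (B.val u x) l)) E
    exact ContDiffOn.sum fun l _ =>
      ((h.smooth_Mt B k l).mul (h.smooth_TA (fun i j => h.smooth_Mt A i j) l)).sub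
        ((h.smooth_Mt A k l).mul (h.smooth_TA (fun i j => h.smooth_Mt B i j) l))
  | h2 a b c =>
    change ContDiffOn ℝ (⊤ : ℕ∞)
      (fun x => ∑ l, wedge u x a b k l * TA u x (Sm u x ^ c) l) E
    exact ContDiffOn.sum fun l _ =>
      (h.smooth_wedge a b k l).mul (h.smooth_TA (fun i j => h.smooth_Sm_pow c i j) l)

private theorem Sol.smooth_trace (h : Sol E u) (a : ℕ) :
    ContDiffOn ℝ (⊤ : ℕ∞) (fun x => Matrix.trace (Sm u x ^ a)) E := by
  change ContDiffOn ℝ (⊤ : ℕ∞) (fun x => ∑ i, (Sm u x ^ a) i i) E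
  exact ContDiffOn.sum fun i _ => h.smooth_Sm_pow a i i

private theorem Sol.smooth_bb (h : Sol E u) (a : ℕ) :
    ContDiffOn ℝ (⊤ : ℕ∞) (fun x => pv u x ⬝ᵥ (Sm u x ^ a).mulVec (pv u x)) E := by
  change ContDiffOn ℝ (⊤ : ℕ∞) (fun x => ∑ i, pv u x i * Sp u x a i) E
  exact ContDiffOn.sum fun i _ => (h.smooth_pv i).mul (h.smooth_Sp a i)

private theorem Sol.smooth_uu (h : Sol E u) :
    ContDiffOn ℝ (⊤ : ℕ∞) (fun x => u x / ‖x‖) E :=
  h.smooth.div h.smooth_norm fun _ hx => norm_ne_zero_iff.2 (h.ne_zero hx)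

theorem Sol.smooth_Fac (h : Sol E u) (f : Fac) :
    ContDiffOn ℝ (⊤ : ℕ∞) (fun x => f.val u x) E := by
  cases f with
  | c3 => exact h.smooth_trace 3
  | c4 => exact h.smooth_trace 4
  | b0 => exact h.smooth_gg
  | b1 =>
    have := h.smooth_bb 1
    simp only [pow_one] at this
    exact this
  | b2 => exact h.smooth_bb 2
  | b3 => exact h.smooth_bb 3
  | u2 => exact h.smooth_uu.pow 2
  | u1 => exact h.smooth_uu

theorem Sol.smooth_facs (h : Sol E u) (L : List Fac) :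
    ContDiffOn ℝ (⊤ : ℕ∞) (fun x => facsVal u x L) E := by
  induction L with
  | nil =>
    have : (fun x => facsVal u x []) = fun _ => (1 : ℝ) := by
      funext x; simp [facsVal]
    rw [this]
    exact contDiffOn_const
  | cons f L ih =>
    have : (fun x => facsVal u x (f :: L)) = fun x => f.val u x * facsVal u x L := by
      funext x; simp [facsVal]
    rw [this]
    exact (h.smooth_Fac f).mul ih

theorem Sol.smooth_ss_rpow (h : Sol E u) (e : ℝ) :
    ContDiffOn ℝ (⊤ : ℕ∞) (fun x => ss u x ^ e) (E ∩ {x | NN u x ≠ 0}) := by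
  have h1 : ContDiffOn ℝ (⊤ : ℕ∞) (ss u) (E ∩ {x | NN u x ≠ 0}) := by
    change ContDiffOn ℝ (⊤ : ℕ∞) (fun x => ‖x‖ * √(NN u x)) (E ∩ {x | NN u x ≠ 0})
    exact (h.smooth_norm.mono inter_subset_left).mul
      ((h.smooth_NN.mono inter_subset_left).sqrt fun x hx => hx.2)
  refine h1.rpow_const_of_ne ?_
  rintro x ⟨hx, hx2⟩
  refine mul_ne_zero (norm_ne_zero_iff.2 (h.ne_zero hx)) ?_
  have h0 : 0 ≤ NN u x := Finset.sum_nonneg fun i _ => Finset.sum_nonneg fun j _ => sq_nonneg _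
  exact (Real.sqrt_pos.2 (lt_of_le_of_ne h0 (Ne.symm hx2))).ne'

theorem Sol.smooth_Vfield (h : Sol E u) (ϖ : ℚ) (L : List Term) (k : Fin n) :
    ContDiffOn ℝ (⊤ : ℕ∞) (Vfield ϖ L u k) (E ∩ {x | NN u x ≠ 0}) := by
  induction L with
  | nil =>
    have : Vfield ϖ [] u k = fun _ => (0 : ℝ) := by
      funext x; simp [Vfield]
    rw [this]
    exact contDiffOn_const
  | cons g L ih =>
    have : Vfield ϖ (g :: L) u k = fun x => g.field ϖ u k x + Vfield ϖ L u k x := by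
      funext x; simp [Vfield]
    rw [this]
    refine ContDiffOn.add ?_ ih
    change ContDiffOn ℝ (⊤ : ℕ∞) (fun x => (g.coef : ℝ) * (‖x‖ ^ (1 - (n : ℤ)) *
      ((ss u x ^ ((g.ex ϖ : ℚ) : ℝ) * facsVal u x g.facs) * g.shape.val u x k)))
      (E ∩ {x | NN u x ≠ 0})
    exact contDiffOn_const.mul (((h.smooth_zpow _).mono inter_subset_left).mul
      (((h.smooth_ss_rpow _).mul ((h.smooth_facs g.facs).mono inter_subset_left)).mul
        ((h.smooth_Shape g.shape k).mono inter_subset_left)))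

theorem Sol.smooth_Ff (h : Sol E u) (ϖ : ℚ) :
    ContDiffOn ℝ (⊤ : ℕ∞) (Ff ϖ u) (E ∩ {x | NN u x ≠ 0}) := by
  change ContDiffOn ℝ (⊤ : ℕ∞) (fun x => ‖x‖ ^ (2 - (n : ℤ)) * ss u x ^ (ϖ : ℝ))
    (E ∩ {x | NN u x ≠ 0})
  exact ((h.smooth_zpow _).mono inter_subset_left).mul (h.smooth_ss_rpow _)

theorem Sol.smooth_Wfield (h : Sol E u) (ϖ : ℚ) (L : List Term) (k : Fin n) :
    ContDiffOn ℝ (⊤ : ℕ∞) (Wfield ϖ L u k) (E ∩ {x | NN u x ≠ 0}) := by
  change ContDiffOn ℝ (⊤ : ℕ∞) (fun x => Vfield ϖ L u k x - Ff ϖ u x * w u k x)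
    (E ∩ {x | NN u x ≠ 0})
  exact (h.smooth_Vfield ϖ L k).sub ((h.smooth_Ff ϖ).mul ((h.smooth_w k).mono inter_subset_left))

end OPC
end
end

section

section

/-! # A08: compactness arguments: layers and bounds on annuli -/

open MeasureTheory Set Filter Topology

namespace OPC

variable {n : ℕ} {E : Set (V n)} {u : V n → ℝ}

private theorem ann_compact (a b : ℝ) : IsCompact (Ann a b : Set (V n)) := by
  have hcl : IsClosed (Ann a b : Set (V n)) :=
    (isClosed_le continuous_const continuous_norm).inter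
      (isClosed_le continuous_norm continuous_const)
  refine (isCompact_closedBall (0 : V n) b).of_isClosed_subset hcl fun x hx => ?_
  rw [Metric.mem_closedBall, dist_zero_right]
  exact hx.2

/-- compactness along a sequence of points of `E` in an annulus -/
private theorem seq_ann {a b : ℝ} {x : ℕ → V n} (hx : ∀ m, x m ∈ E ∧ x m ∈ (Ann a b : Set (V n))) :
    ∃ p ∈ (Ann a b : Set (V n)), p ∈ closure E ∧ ∃ φ : ℕ → ℕ, StrictMono φ ∧
      Tendsto (fun m => x (φ m)) atTop (𝓝[E] p) := by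
  obtain ⟨p, hp, φ, hφ, hlim⟩ := (ann_compact (n := n) a b).tendsto_subseq (fun m => (hx m).2)
  have hin : Tendsto (fun m => x (φ m)) atTop (𝓝[E] p) :=
    tendsto_nhdsWithin_iff.2 ⟨hlim, Eventually.of_forall fun m => (hx (φ m)).1⟩
  refine ⟨p, hp, ?_, φ, hφ, hin⟩
  exact mem_closure_of_tendsto hlim (Eventually.of_forall fun m => (hx (φ m)).1)

private theorem Sol.layQ (h : Sol E u) {Q : V n → Prop}
    (hQ : ∀ p ∈ frontier E, p ≠ 0 → ∀ᶠ x in 𝓝[E] p, Q x) {a b : ℝ} (ha : 0 < a) :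
    ∃ ε > 0, ∀ x ∈ E, x ∈ (Ann a b : Set (V n)) → u x < ε → Q x := by
  by_contra hcon
  push Not at hcon
  choose x hxE hxA hxu hxQ using fun m : ℕ => hcon (1 / ((m : ℝ) + 1)) (by positivity)
  obtain ⟨p, hp, hpc, φ, hφ, hlim⟩ := seq_ann (E := E) (fun m => ⟨hxE m, hxA m⟩)
  have hp0 : p ≠ 0 := by
    intro h0
    have := hp.1
    rw [h0, norm_zero] at this
    linarith
  have hu : Tendsto (fun m => u (x (φ m))) atTop (𝓝 (u p)) :=
    (h.cont.tendsto p).comp (tendsto_nhdsWithin_iff.1 hlim).1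
  have hu0 : Tendsto (fun m => u (x (φ m))) atTop (𝓝 0) := by
    have h1 : Tendsto (fun m : ℕ => 1 / (((φ m : ℕ) : ℝ) + 1)) atTop (𝓝 0) :=
      tendsto_one_div_add_atTop_nhds_zero_nat.comp hφ.tendsto_atTop
    exact squeeze_zero (fun m => (h.pos _ (hxE _)).le) (fun m => (hxu _).le) h1
  have hup : u p = 0 := tendsto_nhds_unique hu hu0
  have hpE : p ∉ E := fun hpE => by
    have := h.pos p hpE
    linarith
  have hpf : p ∈ frontier E := by
    rw [frontier, h.isOpen.interior_eq]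
    exact ⟨hpc, hpE⟩
  obtain ⟨m, hm⟩ := (hlim.eventually (hQ p hpf hp0)).exists
  exact hxQ _ hm

/-- pointwise limits at the free boundary are uniform on annuli.
Sketch: otherwise there are `x_m ∈ E ∩ Ann a b`, `u x_m < 1/m`, `δ ≤ |g x_m - c|`; a subsequence
converges to `p ∈ Ann a b` (compact), `u p = 0`, so `p ∉ E`, `p ∈ frontier E`, `p ≠ 0`. -/
theorem Sol.lay (h : Sol E u) {g : V n → ℝ} {c : ℝ}
    (hg : ∀ p ∈ frontier E, p ≠ 0 → Tendsto g (𝓝[E] p) (𝓝 c)) : Lay E u g c := by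
  intro a b ha δ hδ
  refine h.layQ (Q := fun x => |g x - c| < δ) (fun p hp hp0 => ?_) ha
  filter_upwards [Metric.tendsto_nhds.1 (hg p hp hp0) δ hδ] with x hx
  rwa [Real.dist_eq] at hx

/-- one-sided version -/
theorem Sol.layGe (h : Sol E u) {g : V n → ℝ} {c : ℝ}
    (hg : ∀ p ∈ frontier E, p ≠ 0 → ∀ δ > 0, ∀ᶠ x in 𝓝[E] p, c - δ < g x) : LayGe E u g c := by
  intro a b ha δ hδ
  exact h.layQ (Q := fun x => c - δ < g x) (fun p hp hp0 => hg p hp hp0 δ hδ) ha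

/-- a function which is continuous on `E` and has a (finite) limit at every free boundary point
`p ≠ 0` is bounded on every annulus.
Sketch: sequence argument, as in `Sol.lay` (the limit point is in `E` or in `frontier E`). -/
theorem Sol.bdd (h : Sol E u) {g : V n → ℝ} (hc : ContinuousOn g E)
    (hg : ∀ p ∈ frontier E, p ≠ 0 → ∃ c, Tendsto g (𝓝[E] p) (𝓝 c)) {a b : ℝ} (ha : 0 < a) :
    ∃ C, 0 < C ∧ ∀ x ∈ E, x ∈ Ann a b → |g x| ≤ C := by
  by_contra hcon
  push Not at hcon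
  choose x hxE hxA hxg using fun m : ℕ => hcon ((m : ℝ) + 1) (by positivity)
  obtain ⟨p, hp, hpc, φ, hφ, hlim⟩ := seq_ann (E := E) (fun m => ⟨hxE m, hxA m⟩)
  have hp0 : p ≠ 0 := by
    intro h0
    have := hp.1
    rw [h0, norm_zero] at this
    linarith
  have hlimg : ∃ c, Tendsto g (𝓝[E] p) (𝓝 c) := by
    by_cases hpE : p ∈ E
    · exact ⟨g p, hc p hpE⟩
    · refine hg p ?_ hp0
      rw [frontier, h.isOpen.interior_eq]
      exact ⟨hpc, hpE⟩
  obtain ⟨c, hcl⟩ := hlimg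
  have h1 : Tendsto (fun m => |g (x (φ m))|) atTop (𝓝 |c|) := (hcl.comp hlim).abs
  have h2 : Tendsto (fun m : ℕ => ((φ m : ℕ) : ℝ) + 1) atTop atTop :=
    tendsto_atTop_add_const_right _ _ (tendsto_natCast_atTop_atTop.comp hφ.tendsto_atTop)
  have h3 : Tendsto (fun m => |g (x (φ m))|) atTop atTop :=
    tendsto_atTop_mono (fun m => (hxg _).le) h2
  exact not_tendsto_nhds_of_tendsto_atTop h3 _ h1

/-- a positive function, continuous on `E`, with positive limits at the free boundary, is bounded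
below by a positive constant on annuli -/
theorem Sol.bdd_below (h : Sol E u) {g : V n → ℝ} (hc : ContinuousOn g E) (hpos : ∀ x ∈ E, 0 < g x)
    (hg : ∀ p ∈ frontier E, p ≠ 0 → ∃ c, 0 < c ∧ Tendsto g (𝓝[E] p) (𝓝 c)) {a b : ℝ}
    (ha : 0 < a) :
    ∃ c, 0 < c ∧ ∀ x ∈ E, x ∈ Ann a b → c ≤ g x := by
  obtain ⟨C, hC, hCb⟩ := h.bdd (g := fun x => (g x)⁻¹) (hc.inv₀ fun x hx => (hpos x hx).ne')
    (fun p hp hp0 => by
      obtain ⟨c, hc0, hcl⟩ := hg p hp hp0
      exact ⟨c⁻¹, hcl.inv₀ hc0.ne'⟩) (b := b) ha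
  refine ⟨C⁻¹, inv_pos.2 hC, fun x hx hxA => ?_⟩
  have h1 := hCb x hx hxA
  have h2 := hpos x hx
  rw [abs_of_pos (inv_pos.2 h2)] at h1
  exact (inv_le_comm₀ h2 hC).1 h1

end OPC
end

section

/-! # A10: bounds on annuli, layer statements -/

open MeasureTheory Set Filter Topology

namespace OPC

variable {n : ℕ} {E : Set (V n)} {u : V n → ℝ}

/-- all limits at a free boundary point -/
private theorem Sol.lims (h : Sol E u) {p : V n} (hp : p ∈ frontier E) (hp0 : p ≠ 0) :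
    ∃ (qb : Fin n → ℝ) (Sb : Fin n → Fin n → ℝ) (σ : ℝ),
      (∀ i, Tendsto (q u i) (𝓝[E] p) (𝓝 (qb i))) ∧
      (∀ i j, Tendsto (S u i j) (𝓝[E] p) (𝓝 (Sb i j))) ∧
      (∀ i, Tendsto (w u i) (𝓝[E] p) (𝓝 (σ * qb i))) ∧
      Tendsto (gg u) (𝓝[E] p) (𝓝 1) ∧ Tendsto (sg u) (𝓝[E] p) (𝓝 σ) ∧
      (∀ i, Tendsto (aa u i) (𝓝[E] p) (𝓝 0)) ∧
      (∀ i j, Tendsto (Aij u i j) (𝓝[E] p) (𝓝 0)) ∧
      Tendsto (NN u) (𝓝[E] p) (𝓝 (∑ i, ∑ j, Sb i j ^ 2)) ∧
      Tendsto (AA u) (𝓝[E] p) (𝓝 0) ∧ Tendsto (a2 u) (𝓝[E] p) (𝓝 0) := by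
  obtain ⟨qb, Sb, σ, hq, hS, hq1, -, -, -, -, hσ⟩ := h.bdry_jet hp hp0
  have hw : ∀ i, Tendsto (w u i) (𝓝[E] p) (𝓝 (σ * qb i)) := by
    intro i
    rw [← hσ i]
    change Tendsto (fun x => ∑ j, S u i j x * q u j x) _ _
    exact tendsto_finsetSum _ fun j _ => (hS i j).mul (hq j)
  have hgg : Tendsto (gg u) (𝓝[E] p) (𝓝 1) := by
    rw [← hq1]
    change Tendsto (fun x => ∑ i, (q u i x) ^ 2) _ _
    exact tendsto_finsetSum _ fun j _ => (hq j).pow 2
  have hsg : Tendsto (sg u) (𝓝[E] p) (𝓝 σ) := by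
    have h1 : Tendsto (fun x => ∑ i, q u i x * w u i x) (𝓝[E] p)
        (𝓝 (∑ i, qb i * (σ * qb i))) :=
      tendsto_finsetSum _ fun j _ => (hq j).mul (hw j)
    have h2 : ∑ i, qb i * (σ * qb i) = σ := by
      calc ∑ i, qb i * (σ * qb i) = σ * ∑ i, qb i ^ 2 := by
            rw [Finset.mul_sum]
            exact Finset.sum_congr rfl fun i _ => by ring
        _ = σ := by rw [hq1, mul_one]
    rw [h2] at h1
    have h3 := h1.div hgg one_ne_zero
    rw [div_one] at h3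
    exact h3
  have haa : ∀ i, Tendsto (aa u i) (𝓝[E] p) (𝓝 0) := by
    intro i
    have h1 := (hw i).sub (hsg.mul (hq i))
    rw [sub_self] at h1
    exact h1
  have hA : ∀ i j, Tendsto (Aij u i j) (𝓝[E] p) (𝓝 0) := by
    intro i j
    have h1 := ((hq i).mul (hw j)).sub ((hq j).mul (hw i))
    have h2 : qb i * (σ * qb j) - qb j * (σ * qb i) = 0 := by ring
    rw [h2] at h1
    exact h1
  have hNN : Tendsto (NN u) (𝓝[E] p) (𝓝 (∑ i, ∑ j, Sb i j ^ 2)) := by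
    change Tendsto (fun x => ∑ i, ∑ j, (S u i j x) ^ 2) _ _
    exact tendsto_finsetSum _ fun i _ => tendsto_finsetSum _ fun j _ => (hS i j).pow 2
  have hAA : Tendsto (AA u) (𝓝[E] p) (𝓝 0) := by
    have h1 : Tendsto (fun x => ∑ i, ∑ j, (Aij u i j x) ^ 2) (𝓝[E] p)
        (𝓝 (∑ _i : Fin n, ∑ _j : Fin n, (0 : ℝ) ^ 2)) :=
      tendsto_finsetSum _ fun i _ => tendsto_finsetSum _ fun j _ => (hA i j).pow 2
    have h2 : ∑ _i : Fin n, ∑ _j : Fin n, (0 : ℝ) ^ 2 = 0 := by simp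
    rw [h2] at h1
    exact h1
  have ha2 : Tendsto (a2 u) (𝓝[E] p) (𝓝 0) := by
    have h1 : Tendsto (fun x => ∑ i, (aa u i x) ^ 2) (𝓝[E] p)
        (𝓝 (∑ _i : Fin n, (0 : ℝ) ^ 2)) :=
      tendsto_finsetSum _ fun i _ => (haa i).pow 2
    have h2 : ∑ _i : Fin n, (0 : ℝ) ^ 2 = 0 := by simp
    rw [h2] at h1
    exact h1
  exact ⟨qb, Sb, σ, hq, hS, hw, hgg, hsg, haa, hA, hNN, hAA, ha2⟩

/-- everything of order `≤ 2` is bounded on annuli and `|q|²` is bounded below -/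
theorem Sol.bounds (h : Sol E u) {a b : ℝ} (ha : 0 < a) :
    ∃ C c : ℝ, 1 ≤ C ∧ 0 < c ∧ ∀ x ∈ E, x ∈ Ann a b →
      (∀ i, |q u i x| ≤ C) ∧ (∀ i j, |S u i j x| ≤ C) ∧ (∀ i, |w u i x| ≤ C) ∧
      |sg u x| ≤ C ∧ (∀ i, |aa u i x| ≤ C) ∧ (∀ i j, |Aij u i j x| ≤ C) ∧
      gg u x ≤ C ∧ NN u x ≤ C ∧ AA u x ≤ C ∧ a2 u x ≤ C ∧ u x ≤ C ∧ c ≤ gg u x := by
  have hq : ∀ i, ∃ C, 0 < C ∧ ∀ x ∈ E, x ∈ Ann a b → |q u i x| ≤ C := fun i =>
    h.bdd (h.smooth_q i).continuousOn (fun p hp hp0 => by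
      obtain ⟨qb, Sb, σ, h1, -⟩ := h.lims hp hp0
      exact ⟨_, h1 i⟩) ha
  have hS : ∀ i j, ∃ C, 0 < C ∧ ∀ x ∈ E, x ∈ Ann a b → |S u i j x| ≤ C := fun i j =>
    h.bdd (h.smooth_S i j).continuousOn (fun p hp hp0 => by
      obtain ⟨qb, Sb, σ, -, h1, -⟩ := h.lims hp hp0
      exact ⟨_, h1 i j⟩) ha
  have hw : ∀ i, ∃ C, 0 < C ∧ ∀ x ∈ E, x ∈ Ann a b → |w u i x| ≤ C := fun i =>
    h.bdd (h.smooth_w i).continuousOn (fun p hp hp0 => by
      obtain ⟨qb, Sb, σ, -, -, h1, -⟩ := h.lims hp hp0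
      exact ⟨_, h1 i⟩) ha
  have hsg : ∃ C, 0 < C ∧ ∀ x ∈ E, x ∈ Ann a b → |sg u x| ≤ C :=
    h.bdd h.smooth_sg.continuousOn (fun p hp hp0 => by
      obtain ⟨qb, Sb, σ, -, -, -, -, h1, -⟩ := h.lims hp hp0
      exact ⟨_, h1⟩) ha
  have haa : ∀ i, ∃ C, 0 < C ∧ ∀ x ∈ E, x ∈ Ann a b → |aa u i x| ≤ C := fun i =>
    h.bdd (h.smooth_aa i).continuousOn (fun p hp hp0 => by
      obtain ⟨qb, Sb, σ, -, -, -, -, -, h1, -⟩ := h.lims hp hp0
      exact ⟨_, h1 i⟩) ha
  have hA : ∀ i j, ∃ C, 0 < C ∧ ∀ x ∈ E, x ∈ Ann a b → |Aij u i j x| ≤ C := fun i j =>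
    h.bdd (h.smooth_Aij i j).continuousOn (fun p hp hp0 => by
      obtain ⟨qb, Sb, σ, -, -, -, -, -, -, h1, -⟩ := h.lims hp hp0
      exact ⟨_, h1 i j⟩) ha
  have hgg : ∃ C, 0 < C ∧ ∀ x ∈ E, x ∈ Ann a b → |gg u x| ≤ C :=
    h.bdd h.smooth_gg.continuousOn (fun p hp hp0 => by
      obtain ⟨qb, Sb, σ, -, -, -, h1, -⟩ := h.lims hp hp0
      exact ⟨_, h1⟩) ha
  have hNN : ∃ C, 0 < C ∧ ∀ x ∈ E, x ∈ Ann a b → |NN u x| ≤ C :=
    h.bdd h.smooth_NN.continuousOn (fun p hp hp0 => by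
      obtain ⟨qb, Sb, σ, -, -, -, -, -, -, -, h1, -⟩ := h.lims hp hp0
      exact ⟨_, h1⟩) ha
  have hAA : ∃ C, 0 < C ∧ ∀ x ∈ E, x ∈ Ann a b → |AA u x| ≤ C :=
    h.bdd h.smooth_AA.continuousOn (fun p hp hp0 => by
      obtain ⟨qb, Sb, σ, -, -, -, -, -, -, -, -, h1, -⟩ := h.lims hp hp0
      exact ⟨_, h1⟩) ha
  have ha2c : ContinuousOn (a2 u) E := by
    change ContinuousOn (fun x => ∑ i, (aa u i x) ^ 2) E
    exact continuousOn_finsetSum _ fun i _ => (h.smooth_aa i).continuousOn.pow 2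
  have ha2 : ∃ C, 0 < C ∧ ∀ x ∈ E, x ∈ Ann a b → |a2 u x| ≤ C :=
    h.bdd ha2c (fun p hp hp0 => by
      obtain ⟨qb, Sb, σ, -, -, -, -, -, -, -, -, -, h1⟩ := h.lims hp hp0
      exact ⟨_, h1⟩) ha
  have hu : ∃ C, 0 < C ∧ ∀ x ∈ E, x ∈ Ann a b → |u x| ≤ C :=
    h.bdd h.cont.continuousOn (fun p hp hp0 =>
      ⟨u p, (h.cont.tendsto p).mono_left nhdsWithin_le_nhds⟩) ha
  obtain ⟨c, hc, hcb⟩ := h.bdd_below h.smooth_gg.continuousOn (fun x hx => h.gg_pos hx)
    (fun p hp hp0 => by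
      obtain ⟨qb, Sb, σ, -, -, -, h1, -⟩ := h.lims hp hp0
      exact ⟨1, one_pos, h1⟩) (b := b) ha
  choose Cq hCq0 hCq using hq
  choose CS hCS0 hCS using hS
  choose Cw hCw0 hCw using hw
  obtain ⟨Csg, hCsg0, hCsg⟩ := hsg
  choose Ca hCa0 hCa using haa
  choose CA hCA0 hCA using hA
  obtain ⟨Cg, hCg0, hCg⟩ := hgg
  obtain ⟨CN, hCN0, hCN⟩ := hNN
  obtain ⟨CAA, hCAA0, hCAA⟩ := hAA
  obtain ⟨C2, hC20, hC2⟩ := ha2
  obtain ⟨Cu, hCu0, hCu⟩ := hu
  have s1 : ∀ i, Cq i ≤ ∑ i, Cq i := fun i =>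
    Finset.single_le_sum (f := Cq) (fun j _ => (hCq0 j).le) (Finset.mem_univ i)
  have s3 : ∀ i, Cw i ≤ ∑ i, Cw i := fun i =>
    Finset.single_le_sum (f := Cw) (fun j _ => (hCw0 j).le) (Finset.mem_univ i)
  have s5 : ∀ i, Ca i ≤ ∑ i, Ca i := fun i =>
    Finset.single_le_sum (f := Ca) (fun j _ => (hCa0 j).le) (Finset.mem_univ i)
  have s2 : ∀ i j, CS i j ≤ ∑ i, ∑ j, CS i j := fun i j =>
    (Finset.single_le_sum (f := CS i) (fun j _ => (hCS0 i j).le) (Finset.mem_univ j)).trans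
      (Finset.single_le_sum (f := fun i => ∑ j, CS i j)
        (fun i _ => Finset.sum_nonneg fun j _ => (hCS0 i j).le) (Finset.mem_univ i))
  have s6 : ∀ i j, CA i j ≤ ∑ i, ∑ j, CA i j := fun i j =>
    (Finset.single_le_sum (f := CA i) (fun j _ => (hCA0 i j).le) (Finset.mem_univ j)).trans
      (Finset.single_le_sum (f := fun i => ∑ j, CA i j)
        (fun i _ => Finset.sum_nonneg fun j _ => (hCA0 i j).le) (Finset.mem_univ i))
  have n1 : 0 ≤ ∑ i, Cq i := Finset.sum_nonneg fun i _ => (hCq0 i).le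
  have n2 : 0 ≤ ∑ i, ∑ j, CS i j :=
    Finset.sum_nonneg fun i _ => Finset.sum_nonneg fun j _ => (hCS0 i j).le
  have n3 : 0 ≤ ∑ i, Cw i := Finset.sum_nonneg fun i _ => (hCw0 i).le
  have n5 : 0 ≤ ∑ i, Ca i := Finset.sum_nonneg fun i _ => (hCa0 i).le
  have n6 : 0 ≤ ∑ i, ∑ j, CA i j :=
    Finset.sum_nonneg fun i _ => Finset.sum_nonneg fun j _ => (hCA0 i j).le
  refine ⟨1 + ∑ i, Cq i + ∑ i, ∑ j, CS i j + ∑ i, Cw i + Csg + ∑ i, Ca i + ∑ i, ∑ j, CA i j +
    Cg + CN + CAA + C2 + Cu, c, by linarith, hc, fun x hx hxA => ?_⟩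
  refine ⟨fun i => ?_, fun i j => ?_, fun i => ?_, ?_, fun i => ?_, fun i j => ?_, ?_, ?_, ?_, ?_,
    ?_, hcb x hx hxA⟩
  · have := hCq i x hx hxA
    have := s1 i
    linarith
  · have := hCS i j x hx hxA
    have := s2 i j
    linarith
  · have := hCw i x hx hxA
    have := s3 i
    linarith
  · have := hCsg x hx hxA
    linarith
  · have := hCa i x hx hxA
    have := s5 i
    linarith
  · have := hCA i j x hx hxA
    have := s6 i j
    linarith
  · have := hCg x hx hxA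
    have := le_abs_self (gg u x)
    linarith
  · have := hCN x hx hxA
    have := le_abs_self (NN u x)
    linarith
  · have := hCAA x hx hxA
    have := le_abs_self (AA u x)
    linarith
  · have := hC2 x hx hxA
    have := le_abs_self (a2 u x)
    linarith
  · have := hCu x hx hxA
    have := le_abs_self (u x)
    linarith

theorem Sol.lay_gg (h : Sol E u) : Lay E u (gg u) 1 :=
  h.lay fun p hp hp0 => by
    obtain ⟨qb, Sb, σ, -, -, -, h1, -⟩ := h.lims hp hp0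
    exact h1

theorem Sol.lay_AA (h : Sol E u) : Lay E u (AA u) 0 :=
  h.lay fun p hp hp0 => by
    obtain ⟨qb, Sb, σ, -, -, -, -, -, -, -, -, h1, -⟩ := h.lims hp hp0
    exact h1

theorem Sol.lay_a2 (h : Sol E u) : Lay E u (a2 u) 0 :=
  h.lay fun p hp hp0 => by
    obtain ⟨qb, Sb, σ, -, -, -, -, -, -, -, -, -, h1⟩ := h.lims hp hp0
    exact h1

end OPC
end
end
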