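import Pool.Agent.Lib.MP_9059b8_an.A10
import Pool.Agent.Lib.MP_9059b8_an.Defs2

section

section

/-! # P04: rotations: jets of `u ∘ R` -/

open MeasureTheory Set Filter Topology

namespace OPC

variable {n : ℕ} {E : Set (V n)} {u : V n → ℝ}

/-- the matrix of a linear isometry: `rm R a i = (R (e i)) a` -/
noncomputable def rm (R : V n ≃ₗᵢ[ℝ] V n) : Matrix (Fin n) (Fin n) ℝ :=
  Matrix.of fun a i => (R (e i)) a

theorem rm_orth (R : V n ≃ₗᵢ[ℝ] V n) : (rm R).transpose * rm R = 1 ∧ rm R * (rm R).transpose = 1 := by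
  have h1 : (rm R).transpose * rm R = 1 := by
    ext i j
    rw [Matrix.mul_apply, Matrix.one_apply]
    have h2 : ∑ a, (rm R).transpose i a * rm R a j = inner ℝ (R (e i)) (R (e j)) := by
      rw [PiLp.inner_apply]
      refine Finset.sum_congr rfl fun a _ => ?_
      simp [rm, Matrix.transpose_apply, mul_comm]
    rw [h2, LinearIsometryEquiv.inner_map_map]
    simp [e, EuclideanSpace.inner_single_left]
  exact ⟨h1, mul_eq_one_comm.1 h1⟩

theorem rm_apply (R : V n ≃ₗᵢ[ℝ] V n) (y : V n) (a : Fin n) : (R y) a = ∑ i, rm R a i * y i := by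
  have hv : y = ∑ i, y i • e i := by
    ext j
    simp [e, Finset.sum_apply, Pi.single_apply]
  conv_lhs => rw [hv]
  rw [map_sum]
  simp only [map_smul]
  simp [rm, mul_comm]

/-- columns of `rm R` are orthonormal -/
private theorem rm_col (R : V n ≃ₗᵢ[ℝ] V n) (i j : Fin n) :
    ∑ a, rm R a i * rm R a j = if i = j then 1 else 0 := by
  have h := congrFun (congrFun (rm_orth R).1 i) j
  rw [Matrix.mul_apply, Matrix.one_apply] at h
  exact h

/-- rows of `rm R` are orthonormal -/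
private theorem rm_row (R : V n ≃ₗᵢ[ℝ] V n) (a b : Fin n) :
    ∑ i, rm R a i * rm R b i = if a = b then 1 else 0 := by
  have h := congrFun (congrFun (rm_orth R).2 a) b
  rw [Matrix.mul_apply, Matrix.one_apply] at h
  exact h

/-- contraction of a bilinear sum with the rotation -/
private theorem rm_contract (R : V n ≃ₗᵢ[ℝ] V n) (F : Fin n → Fin n → ℝ) :
    ∑ i, ∑ a, ∑ b, rm R a i * rm R b i * F a b = ∑ a, F a a := by
  rw [Finset.sum_comm]
  refine Finset.sum_congr rfl fun a _ => ?_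
  rw [Finset.sum_comm]
  have h1 : ∀ b, ∑ i, rm R a i * rm R b i * F a b = (if a = b then 1 else 0) * F a b := by
    intro b
    rw [← Finset.sum_mul, rm_row]
  rw [Finset.sum_congr rfl fun b _ => h1 b]
  simp

/-- the norm of a rotated vector -/
private theorem rm_norm (R : V n ≃ₗᵢ[ℝ] V n) (v : Fin n → ℝ) :
    ∑ i, (∑ a, rm R a i * v a) ^ 2 = ∑ a, v a ^ 2 := by
  have h1 : ∀ i, (∑ a, rm R a i * v a) ^ 2 = ∑ a, ∑ b, rm R a i * rm R b i * (v a * v b) := by
    intro i
    rw [sq, Finset.sum_mul_sum]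
    exact Finset.sum_congr rfl fun a _ => Finset.sum_congr rfl fun b _ => by ring
  rw [Finset.sum_congr rfl fun i _ => h1 i, rm_contract]
  exact Finset.sum_congr rfl fun a _ => by ring

private theorem pd_comp_R_aux (f : V n → ℝ) (R : V n ≃ₗᵢ[ℝ] V n) (i : Fin n) (y : V n) :
    pd i (f ∘ R) y = ∑ a, rm R a i * pd a f (R y) := by
  have h1 : fderiv ℝ (f ∘ R) y = (fderiv ℝ f (R y)).comp (R.toContinuousLinearEquiv : V n →L[ℝ] V n) :=
    R.toContinuousLinearEquiv.comp_right_fderiv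
  unfold pd
  rw [h1]
  change fderiv ℝ f (R y) (R (e i)) = _
  rw [fderiv_apply_eq_sum]
  rfl

/-- second derivatives of `f ∘ R` -/
private theorem S_comp_aux {E : Set (V n)} (hE : IsOpen E) {f : V n → ℝ} (hf : ContDiffOn ℝ 2 f E)
    (R : V n ≃ₗᵢ[ℝ] V n) (i j : Fin n) {y : V n} (hy : R y ∈ E) :
    pd i (pd j (f ∘ R)) y = ∑ a, ∑ b, rm R a i * rm R b j * pd a (pd b f) (R y) := by
  have h1 : pd j (f ∘ R) = fun z => ∑ b, rm R b j * ((pd b f) ∘ R) z := by
    funext z
    exact pd_comp_R_aux f R j z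
  have hd : ∀ b, DifferentiableAt ℝ ((pd b f) ∘ R) y := by
    intro b
    have h2 : DifferentiableAt ℝ (pd b f) (R y) :=
      ((contDiffOn_pd hE hf (m := 1) (by norm_num) b).contDiffAt (hE.mem_nhds hy)).differentiableAt
        (by norm_num)
    exact h2.comp y R.differentiableAt
  rw [h1, pd_sum _ (fun b _ => (hd b).const_mul _), Finset.sum_comm]
  refine Finset.sum_congr rfl fun b _ => ?_
  rw [pd_const_mul, pd_comp_R_aux, Finset.mul_sum]
  exact Finset.sum_congr rfl fun a _ => by ring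

/-- `u ∘ R` is again a solution, on `R⁻¹ E` -/
theorem Sol.comp (h : Sol E u) (R : V n ≃ₗᵢ[ℝ] V n) : Sol (R ⁻¹' E) (u ∘ R) := by
  have hfr : ∀ p ∈ frontier (R ⁻¹' E), R p ∈ frontier E := by
    intro p hp
    have h1 := R.toHomeomorph.preimage_frontier E
    have h2 : p ∈ frontier (R.toHomeomorph ⁻¹' E) := hp
    rw [← h1] at h2
    exact h2
  have hR0 : ∀ p : V n, p ≠ 0 → R p ≠ 0 := fun p hp h0 => hp (by
    have := R.map_eq_iff (x := p) (y := 0)
    rw [map_zero] at this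
    exact this.1 h0)
  have hop : IsOpen (R ⁻¹' E) := h.isOpen.preimage R.continuous
  have hc2 : ContDiffOn ℝ 2 (u ∘ R) (R ⁻¹' E) := h.c2.comp R.contDiff.contDiffOn fun x hx => hx
  refine ⟨hop, ?_, ?_, h.cont.comp R.continuous, ?_, fun x hx => h.pos _ hx, fun x hx => h.zero _ hx,
    hc2, ?_, ?_⟩
  · obtain ⟨x, hx⟩ := h.ne
    refine ⟨R.symm x, ?_⟩
    change R (R.symm x) ∈ E
    rwa [R.apply_symm_apply]
  · intro p hp hp0
    obtain ⟨U, hU, f, hf, hf0, hfE⟩ := h.bdry (R p) (hfr p hp) (hR0 p hp0)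
    refine ⟨R ⁻¹' U, R.continuous.continuousAt.preimage_mem_nhds hU, f ∘ R, hf.comp R.contDiff, ?_,
      fun x hx => hfE (R x) hx⟩
    intro hz
    have h1 : fderiv ℝ (f ∘ R) p = (fderiv ℝ f (R p)).comp (R.toContinuousLinearEquiv : V n →L[ℝ] V n) :=
      R.toContinuousLinearEquiv.comp_right_fderiv
    rw [hz] at h1
    apply hf0
    ext v
    have h2 := congrArg (fun L : V n →L[ℝ] ℝ => L (R.symm v)) h1
    simp only [zero_apply] at h2
    rw [zero_apply, h2]
    change fderiv ℝ f (R p) v = fderiv ℝ f (R p) (R (R.symm v))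
    rw [R.apply_symm_apply]
  · intro t ht x
    change u (R (t • x)) = t * u (R x)
    rw [map_smul, h.hom t ht]
  · intro x hx
    have h1 : ∀ i : Fin n, fderiv ℝ (fderiv ℝ (u ∘ R)) x (EuclideanSpace.single i (1 : ℝ))
        (EuclideanSpace.single i (1 : ℝ)) = ∑ a, ∑ b, rm R a i * rm R b i * pd a (pd b u) (R x) := by
      intro i
      rw [← S_comp_aux h.isOpen h.c2 R i i hx]
      exact (pd_pd_eq hop hc2 i i hx).symm
    rw [Finset.sum_congr rfl fun i _ => h1 i, rm_contract R (fun a b => pd a (pd b u) (R x))]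
    exact h.harm' (R x) hx
  · intro p hp hp0
    obtain ⟨U, hU, g, hg, hgu, hg1⟩ := h.reg (R p) (hfr p hp) (hR0 p hp0)
    refine ⟨R ⁻¹' U, R.continuous.continuousAt.preimage_mem_nhds hU, g ∘ R, hg.comp R.contDiff,
      fun x hx => hgu (R x) hx, ?_⟩
    have h1 : ‖fderiv ℝ (g ∘ R) p‖ ^ 2 = 1 := by
      rw [norm_fderiv_sq]
      have h2 : ∀ i, pd i (g ∘ R) p = ∑ a, rm R a i * pd a g (R p) := fun i => pd_comp_R_aux g R i p
      rw [Finset.sum_congr rfl fun i _ => by rw [h2 i], rm_norm R (fun a => pd a g (R p)),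
        ← norm_fderiv_sq, hg1, one_pow]
    exact (pow_eq_one_iff_of_nonneg (norm_nonneg _) two_ne_zero).1 h1

/-- chain rule, for all functions -/
theorem pd_comp_R (f : V n → ℝ) (R : V n ≃ₗᵢ[ℝ] V n) (i : Fin n) (y : V n) :
    pd i (f ∘ R) y = ∑ a, rm R a i * pd a f (R y) := pd_comp_R_aux f R i y

theorem q_comp (R : V n ≃ₗᵢ[ℝ] V n) (i : Fin n) (y : V n) :
    q (u ∘ R) i y = ∑ a, rm R a i * q u a (R y) := pd_comp_R u R i y

theorem Sol.S_comp (h : Sol E u) (R : V n ≃ₗᵢ[ℝ] V n) (i j : Fin n) {y : V n} (hy : R y ∈ E) :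
    S (u ∘ R) i j y = ∑ a, ∑ b, rm R a i * rm R b j * S u a b (R y) :=
  S_comp_aux h.isOpen h.c2 R i j hy

theorem Sol.T_comp (h : Sol E u) (R : V n ≃ₗᵢ[ℝ] V n) (i j k : Fin n) {y : V n} (hy : R y ∈ E) :
    T (u ∘ R) i j k y
      = ∑ a, ∑ b, ∑ c, rm R a i * rm R b j * rm R c k * T u a b c (R y) := by
  have hop : IsOpen (R ⁻¹' E) := h.isOpen.preimage R.continuous
  have hd : ∀ b c, DifferentiableAt ℝ ((S u b c) ∘ R) y := fun b c =>
    (h.diff_S b c hy).comp y R.differentiableAt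
  have h1 : T (u ∘ R) i j k y = pd i (fun z => ∑ b, ∑ c, rm R b j * rm R c k * ((S u b c) ∘ R) z) y := by
    change pd i (S (u ∘ R) j k) y = _
    exact pd_congr hop (fun z hz => h.S_comp R j k hz) i y hy
  rw [h1, pd_sum _ (fun b _ => DifferentiableAt.fun_sum fun c _ => (hd b c).const_mul _),
    Finset.sum_comm]
  refine Finset.sum_congr rfl fun b _ => ?_
  rw [pd_sum _ (fun c _ => (hd b c).const_mul _), Finset.sum_comm]
  refine Finset.sum_congr rfl fun c _ => ?_
  rw [pd_const_mul, pd_comp_R, Finset.mul_sum]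
  refine Finset.sum_congr rfl fun a _ => ?_
  change _ = rm R a i * rm R b j * rm R c k * pd a (S u b c) (R y)
  ring

theorem Sol.NN_comp (h : Sol E u) (R : V n ≃ₗᵢ[ℝ] V n) {y : V n} (hy : R y ∈ E) :
    NN (u ∘ R) y = NN u (R y) := by
  unfold NN
  have h1 : ∀ i j, S (u ∘ R) i j y = ∑ a, rm R a i * ∑ b, rm R b j * S u a b (R y) := by
    intro i j
    rw [h.S_comp R i j hy]
    refine Finset.sum_congr rfl fun a _ => ?_
    rw [Finset.mul_sum]
    exact Finset.sum_congr rfl fun b _ => by ring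
  calc ∑ i, ∑ j, S (u ∘ R) i j y ^ 2
      = ∑ j, ∑ i, (∑ a, rm R a i * ∑ b, rm R b j * S u a b (R y)) ^ 2 := by
        rw [Finset.sum_comm]
        exact Finset.sum_congr rfl fun j _ => Finset.sum_congr rfl fun i _ => by rw [h1]
    _ = ∑ j, ∑ a, (∑ b, rm R b j * S u a b (R y)) ^ 2 :=
        Finset.sum_congr rfl fun j _ => rm_norm R _
    _ = ∑ a, ∑ j, (∑ b, rm R b j * S u a b (R y)) ^ 2 := Finset.sum_comm
    _ = ∑ a, ∑ b, S u a b (R y) ^ 2 := Finset.sum_congr rfl fun a _ => rm_norm R _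

theorem gg_comp (R : V n ≃ₗᵢ[ℝ] V n) (y : V n) : gg (u ∘ R) y = gg u (R y) := by
  unfold gg
  rw [Finset.sum_congr rfl fun i _ => by rw [q_comp R i y]]
  exact rm_norm R _

/-- the gradient norm is invariant -/
theorem grad_sq_comp (f : V n → ℝ) (R : V n ≃ₗᵢ[ℝ] V n) (y : V n) :
    ∑ k, (pd k (f ∘ R) y) ^ 2 = ∑ k, (pd k f (R y)) ^ 2 := by
  rw [Finset.sum_congr rfl fun i _ => by rw [pd_comp_R f R i y]]
  exact rm_norm R _

/-- the divergence of a rotated vector field: if `Y' k = ∑ₐ R_{ak} Y_a ∘ R` near `y`, then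
`div Y' (y) = div Y (R y)` -/
theorem div_comp {Y Y' : Fin n → V n → ℝ} (R : V n ≃ₗᵢ[ℝ] V n) {y : V n}
    (hY : ∀ a, DifferentiableAt ℝ (Y a) (R y))
    (h : ∀ k, ∀ᶠ z in nhds y, Y' k z = ∑ a, rm R a k * Y a (R z)) :
    ∑ k, pd k (Y' k) y = ∑ a, pd a (Y a) (R y) := by
  have hd : ∀ a, DifferentiableAt ℝ ((Y a) ∘ R) y := fun a => (hY a).comp y R.differentiableAt
  have h1 : ∀ k, pd k (Y' k) y = ∑ a, ∑ b, rm R a k * rm R b k * pd b (Y a) (R y) := by
    intro k
    have h2 : pd k (Y' k) y = pd k (fun z => ∑ a, rm R a k * ((Y a) ∘ R) z) y := by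
      unfold pd
      have h3 : Y' k =ᶠ[nhds y] fun z => ∑ a, rm R a k * ((Y a) ∘ R) z := h k
      rw [h3.fderiv_eq]
    rw [h2, pd_sum _ (fun a _ => (hd a).const_mul _)]
    refine Finset.sum_congr rfl fun a _ => ?_
    rw [pd_const_mul, pd_comp_R, Finset.mul_sum]
    exact Finset.sum_congr rfl fun b _ => by ring
  rw [Finset.sum_congr rfl fun k _ => h1 k, rm_contract R (fun a b => pd b (Y a) (R y))]

end OPC
end

section

/-! # P05: rotations: equivariance of the fields -/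

open MeasureTheory Set Filter Topology

namespace OPC

variable {n : ℕ} {E : Set (V n)} {u : V n → ℝ}

private theorem p05_conj (A B O : Matrix (Fin n) (Fin n) ℝ) (hO : O * O.transpose = 1) :
    (O.transpose * A * O) * (O.transpose * B * O) = O.transpose * (A * B) * O := by
  calc (O.transpose * A * O) * (O.transpose * B * O)
      = O.transpose * A * (O * O.transpose) * B * O := by simp only [Matrix.mul_assoc]
    _ = O.transpose * (A * B) * O := by rw [hO, Matrix.mul_one]; simp only [Matrix.mul_assoc]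

private theorem p05_conj_mulVec (A O : Matrix (Fin n) (Fin n) ℝ) (v : Fin n → ℝ)
    (hO : O * O.transpose = 1) :
    (O.transpose * A * O).mulVec (O.transpose.mulVec v) = O.transpose.mulVec (A.mulVec v) := by
  rw [Matrix.mulVec_mulVec, Matrix.mulVec_mulVec, Matrix.mul_assoc, hO, Matrix.mul_one]

private theorem p05_outer (O : Matrix (Fin n) (Fin n) ℝ) (v w : Fin n → ℝ) (i j : Fin n) :
    (O.transpose.mulVec v) i * (O.transpose.mulVec w) j =
      ∑ b, (∑ a, O a i * (v a * w b)) * O b j := by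
  simp only [Matrix.mulVec, dotProduct, Matrix.transpose_apply]
  rw [Finset.sum_mul_sum]
  rw [Finset.sum_comm]
  refine Finset.sum_congr rfl (fun b _ => ?_)
  rw [Finset.sum_mul]
  refine Finset.sum_congr rfl (fun a _ => ?_)
  ring

private theorem p05_conj_apply (O A : Matrix (Fin n) (Fin n) ℝ) (i j : Fin n) :
    (O.transpose * A * O) i j = ∑ b, (∑ a, O a i * A a b) * O b j := by
  simp only [Matrix.mul_apply, Matrix.transpose_apply]

private theorem p05_trace (A O : Matrix (Fin n) (Fin n) ℝ) (hO : O * O.transpose = 1) :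
    Matrix.trace (O.transpose * A * O) = Matrix.trace A := by
  rw [Matrix.mul_assoc, Matrix.trace_mul_comm, Matrix.mul_assoc, hO, Matrix.mul_one]

private theorem p05_dot (O : Matrix (Fin n) (Fin n) ℝ) (v w : Fin n → ℝ)
    (hO : O * O.transpose = 1) :
    O.transpose.mulVec v ⬝ᵥ O.transpose.mulVec w = v ⬝ᵥ w := by
  rw [Matrix.dotProduct_mulVec, Matrix.vecMul_transpose, Matrix.mulVec_mulVec, hO,
    Matrix.one_mulVec]

/-- full contraction of two conjugated matrices -/
private theorem p05_contr (A B O : Matrix (Fin n) (Fin n) ℝ) (hO : O * O.transpose = 1) :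
    ∑ i, ∑ j, (O.transpose * A * O) i j * (O.transpose * B * O) i j =
      ∑ i, ∑ j, A i j * B i j := by
  have key : ∀ X Y : Matrix (Fin n) (Fin n) ℝ, ∑ i, ∑ j, X i j * Y i j =
      Matrix.trace (X * Y.transpose) := by
    intro X Y
    simp only [Matrix.trace, Matrix.diag_apply, Matrix.mul_apply, Matrix.transpose_apply]
  rw [key, key]
  have h1 : (O.transpose * B * O).transpose = O.transpose * B.transpose * O := by
    rw [Matrix.transpose_mul, Matrix.transpose_mul, Matrix.transpose_transpose, Matrix.mul_assoc]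
  rw [h1, p05_conj A B.transpose O hO, p05_trace _ _ hO]

theorem Sol.Sm_comp (h : Sol E u) (R : V n ≃ₗᵢ[ℝ] V n) {y : V n} (hy : R y ∈ E) :
    Sm (u ∘ R) y = (rm R).transpose * Sm u (R y) * rm R := by
  ext i j
  rw [p05_conj_apply]
  simp only [Sm, Matrix.of_apply]
  rw [h.S_comp R i j hy, R.norm_map]
  calc ‖y‖ * ∑ a, ∑ b, rm R a i * rm R b j * S u a b (R y)
      = ∑ a, ∑ b, (rm R a i * (‖y‖ * S u a b (R y))) * rm R b j := by
        rw [Finset.mul_sum]
        refine Finset.sum_congr rfl (fun a _ => ?_)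
        rw [Finset.mul_sum]
        refine Finset.sum_congr rfl (fun b _ => ?_)
        ring
    _ = ∑ b, ∑ a, (rm R a i * (‖y‖ * S u a b (R y))) * rm R b j := Finset.sum_comm
    _ = ∑ b, (∑ a, rm R a i * (‖y‖ * S u a b (R y))) * rm R b j := by
        refine Finset.sum_congr rfl (fun b _ => ?_)
        rw [Finset.sum_mul]

theorem Sol.Sm_pow_comp (h : Sol E u) (R : V n ≃ₗᵢ[ℝ] V n) (a : ℕ) {y : V n} (hy : R y ∈ E) :
    Sm (u ∘ R) y ^ a = (rm R).transpose * Sm u (R y) ^ a * rm R := by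
  induction a with
  | zero => rw [pow_zero, pow_zero, Matrix.mul_one, (rm_orth R).1]
  | succ a ih =>
    rw [pow_succ, ih, h.Sm_comp R hy, p05_conj _ _ _ (rm_orth R).2, pow_succ]

private theorem p05_x (R : V n ≃ₗᵢ[ℝ] V n) (y : V n) (i : Fin n) :
    ∑ a, rm R a i * (R y) a = y i := by
  have h1 : ∀ a, (R y) a = ((rm R).mulVec (fun j => y j)) a := by
    intro a
    rw [rm_apply]
    rfl
  have h2 : ∑ a, rm R a i * (R y) a =
      ((rm R).transpose.mulVec ((rm R).mulVec (fun j => y j))) i := by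
    simp only [h1]
    rfl
  rw [h2, Matrix.mulVec_mulVec, (rm_orth R).1, Matrix.one_mulVec]

theorem pv_comp (R : V n ≃ₗᵢ[ℝ] V n) (y : V n) :
    pv (u ∘ R) y = (rm R).transpose.mulVec (pv u (R y)) := by
  ext i
  simp only [pv, Matrix.mulVec, dotProduct, Matrix.transpose_apply]
  rw [q_comp, R.norm_map]
  have h1 := p05_x R y i
  have h2 : (∑ a, rm R a i * (q u a (R y) - u (R y) * (R y) a / ‖y‖ ^ 2)) =
      ∑ a, rm R a i * q u a (R y) - u (R y) * (∑ a, rm R a i * (R y) a) / ‖y‖ ^ 2 := by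
    rw [Finset.mul_sum, Finset.sum_div, ← Finset.sum_sub_distrib]
    refine Finset.sum_congr rfl (fun a _ => ?_)
    ring
  rw [h2, h1]
  rfl

theorem Sol.Sp_comp (h : Sol E u) (R : V n ≃ₗᵢ[ℝ] V n) (a : ℕ) {y : V n} (hy : R y ∈ E) :
    Sp (u ∘ R) y a = (rm R).transpose.mulVec (Sp u (R y) a) := by
  unfold Sp
  rw [h.Sm_pow_comp R a hy, pv_comp, p05_conj_mulVec _ _ _ (rm_orth R).2]

theorem Sol.ss_comp (h : Sol E u) (R : V n ≃ₗᵢ[ℝ] V n) {y : V n} (hy : R y ∈ E) :
    ss (u ∘ R) y = ss u (R y) := by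
  unfold ss
  rw [h.NN_comp R hy, R.norm_map]

private theorem Sol.p05_fac (h : Sol E u) (R : V n ≃ₗᵢ[ℝ] V n) (f : Fac) {y : V n}
    (hy : R y ∈ E) : f.val (u ∘ R) y = f.val u (R y) := by
  have hO := (rm_orth R).2
  have hb : ∀ a : ℕ, pv (u ∘ R) y ⬝ᵥ (Sm (u ∘ R) y ^ a).mulVec (pv (u ∘ R) y) =
      pv u (R y) ⬝ᵥ (Sm u (R y) ^ a).mulVec (pv u (R y)) := by
    intro a
    rw [h.Sm_pow_comp R a hy, pv_comp, p05_conj_mulVec _ _ _ hO, p05_dot _ _ _ hO]
  cases f with
  | c3 =>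
    simp only [Fac.val]
    rw [h.Sm_pow_comp R 3 hy, p05_trace _ _ hO]
  | c4 =>
    simp only [Fac.val]
    rw [h.Sm_pow_comp R 4 hy, p05_trace _ _ hO]
  | b0 =>
    simp only [Fac.val]
    exact gg_comp R y
  | b1 =>
    simp only [Fac.val]
    have := hb 1
    rwa [pow_one, pow_one] at this
  | b2 =>
    simp only [Fac.val]
    exact hb 2
  | b3 =>
    simp only [Fac.val]
    exact hb 3
  | u2 =>
    simp only [Fac.val]
    rw [R.norm_map]
    rfl
  | u1 =>
    simp only [Fac.val]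
    rw [R.norm_map]
    rfl

theorem Sol.facs_comp (h : Sol E u) (R : V n ≃ₗᵢ[ℝ] V n) (L : List Fac) {y : V n}
    (hy : R y ∈ E) : facsVal (u ∘ R) y L = facsVal u (R y) L := by
  unfold facsVal
  have : Fac.val (u ∘ R) y = Fac.val u (R y) := funext (fun f => h.p05_fac R f hy)
  rw [this]

theorem Sol.Mt_comp (h : Sol E u) (R : V n ≃ₗᵢ[ℝ] V n) (A : Mt) {y : V n} (hy : R y ∈ E) :
    A.val (u ∘ R) y = (rm R).transpose * A.val u (R y) * rm R := by
  cases A with
  | pow a =>
    simp only [Mt.val]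
    exact h.Sm_pow_comp R a hy
  | sym a b =>
    ext i j
    rw [p05_conj_apply]
    simp only [Mt.val, Matrix.of_apply]
    rw [h.Sp_comp R a hy, h.Sp_comp R b hy, p05_outer, p05_outer, ← Finset.sum_add_distrib,
      Finset.sum_div]
    refine Finset.sum_congr rfl (fun b' _ => ?_)
    rw [← add_mul, ← Finset.sum_add_distrib, mul_div_right_comm, Finset.sum_div]
    congr 1
    refine Finset.sum_congr rfl (fun a' _ => ?_)
    ring

theorem Sol.wedge_comp (h : Sol E u) (R : V n ≃ₗᵢ[ℝ] V n) (a b : ℕ) {y : V n} (hy : R y ∈ E) :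
    wedge (u ∘ R) y a b = (rm R).transpose * wedge u (R y) a b * rm R := by
  ext i j
  rw [p05_conj_apply]
  simp only [wedge, Matrix.of_apply]
  rw [h.Sp_comp R a hy, h.Sp_comp R b hy, p05_outer, p05_outer, ← Finset.sum_sub_distrib]
  refine Finset.sum_congr rfl (fun b' _ => ?_)
  rw [← sub_mul, ← Finset.sum_sub_distrib]
  congr 1
  refine Finset.sum_congr rfl (fun a' _ => ?_)
  ring

theorem Sol.TA_comp (h : Sol E u) (R : V n ≃ₗᵢ[ℝ] V n) (A : Matrix (Fin n) (Fin n) ℝ) {y : V n}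
    (hy : R y ∈ E) (k : Fin n) :
    TA (u ∘ R) y ((rm R).transpose * A * rm R) k = ∑ a, rm R a k * TA u (R y) A a := by
  have hT : ∀ i j, Tt (u ∘ R) y k i j =
      ∑ c, rm R c k * ((rm R).transpose * (Matrix.of fun a b => Tt u (R y) c a b) * rm R) i j := by
    intro i j
    unfold Tt
    rw [h.T_comp R k i j hy, Finset.mul_sum]
    refine Finset.sum_congr rfl (fun c _ => ?_)
    rw [p05_conj_apply, R.norm_map]
    simp only [Matrix.of_apply]
    calc ‖y‖ ^ 2 * ∑ a, ∑ b, rm R c k * rm R a i * rm R b j * T u c a b (R y)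
        = ∑ a, ∑ b, rm R c k * ((rm R a i * (‖y‖ ^ 2 * T u c a b (R y))) * rm R b j) := by
          rw [Finset.mul_sum]
          refine Finset.sum_congr rfl (fun a _ => ?_)
          rw [Finset.mul_sum]
          refine Finset.sum_congr rfl (fun b _ => ?_)
          ring
      _ = ∑ b, ∑ a, rm R c k * ((rm R a i * (‖y‖ ^ 2 * T u c a b (R y))) * rm R b j) :=
          Finset.sum_comm
      _ = rm R c k * ∑ b, (∑ a, rm R a i * (‖y‖ ^ 2 * T u c a b (R y))) * rm R b j := by
          rw [Finset.mul_sum]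
          refine Finset.sum_congr rfl (fun b _ => ?_)
          rw [Finset.sum_mul, Finset.mul_sum]
  unfold TA
  have hexp : ∀ i j, Tt (u ∘ R) y k i j * ((rm R).transpose * A * rm R) i j = ∑ c, rm R c k *
          (((rm R).transpose * (Matrix.of fun a b => Tt u (R y) c a b) * rm R) i j *
            ((rm R).transpose * A * rm R) i j) := by
    intro i j
    rw [hT, Finset.sum_mul]
    refine Finset.sum_congr rfl (fun c _ => ?_)
    ring
  have hswap : ∑ i, ∑ j, ∑ c, rm R c k *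
          (((rm R).transpose * (Matrix.of fun a b => Tt u (R y) c a b) * rm R) i j *
            ((rm R).transpose * A * rm R) i j) = ∑ c, ∑ i, ∑ j, rm R c k *
          (((rm R).transpose * (Matrix.of fun a b => Tt u (R y) c a b) * rm R) i j *
            ((rm R).transpose * A * rm R) i j) := by
    rw [Finset.sum_congr rfl (fun i _ => Finset.sum_comm), Finset.sum_comm]
  rw [Finset.sum_congr rfl (fun i _ => Finset.sum_congr rfl (fun j _ => hexp i j)), hswap]
  refine Finset.sum_congr rfl (fun c _ => ?_)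
  have hc := p05_contr (Matrix.of fun a b => Tt u (R y) c a b) A (rm R) (rm_orth R).2
  have hl : ∑ i, ∑ j, rm R c k *
          (((rm R).transpose * (Matrix.of fun a b => Tt u (R y) c a b) * rm R) i j *
            ((rm R).transpose * A * rm R) i j) = rm R c k * ∑ i, ∑ j,
          (((rm R).transpose * (Matrix.of fun a b => Tt u (R y) c a b) * rm R) i j *
            ((rm R).transpose * A * rm R) i j) := by
    rw [Finset.mul_sum]
    refine Finset.sum_congr rfl (fun i _ => ?_)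
    rw [Finset.mul_sum]
  rw [hl, hc]
  simp only [Matrix.of_apply]

private theorem Sol.p05_MtTA (h : Sol E u) (R : V n ≃ₗᵢ[ℝ] V n) (A : Mt) {y : V n}
    (hy : R y ∈ E) :
    TA (u ∘ R) y (A.val (u ∘ R) y) = (rm R).transpose.mulVec (TA u (R y) (A.val u (R y))) := by
  ext k
  rw [h.Mt_comp R A hy, h.TA_comp R _ hy]
  rfl

private theorem p05_mv (A : Matrix (Fin n) (Fin n) ℝ) (v : Fin n → ℝ) (k : Fin n) :
    ∑ l, A k l * v l = A.mulVec v k := rfl

theorem Sol.Shape_comp (h : Sol E u) (R : V n ≃ₗᵢ[ℝ] V n) (sh : Shape) {y : V n}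
    (hy : R y ∈ E) (k : Fin n) :
    sh.val (u ∘ R) y k = ∑ a, rm R a k * sh.val u (R y) a := by
  have hO := (rm_orth R).2
  cases sh with
  | v0 a =>
    simp only [Shape.val]
    rw [h.Sp_comp R a hy]
    rfl
  | p1 A =>
    simp only [Shape.val]
    rw [h.p05_MtTA R A hy]
    rfl
  | h1 A B =>
    simp only [Shape.val]
    rw [Finset.sum_sub_distrib, p05_mv, p05_mv, h.p05_MtTA R A hy, h.p05_MtTA R B hy,
      h.Mt_comp R A hy, h.Mt_comp R B hy, p05_conj_mulVec _ _ _ hO, p05_conj_mulVec _ _ _ hO]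
    have : ∀ a, rm R a k * ∑ l, (B.val u (R y) a l * TA u (R y) (A.val u (R y)) l
        - A.val u (R y) a l * TA u (R y) (B.val u (R y)) l) =
        rm R a k * ((B.val u (R y)).mulVec (TA u (R y) (A.val u (R y))) a) -
        rm R a k * ((A.val u (R y)).mulVec (TA u (R y) (B.val u (R y))) a) := by
      intro a
      rw [Finset.sum_sub_distrib, p05_mv, p05_mv]
      ring
    rw [Finset.sum_congr rfl (fun a _ => this a), Finset.sum_sub_distrib]
    rfl
  | h2 a b c =>
    simp only [Shape.val]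
    have h1 := h.p05_MtTA R (Mt.pow c) hy
    simp only [Mt.val] at h1
    rw [p05_mv, h1, h.wedge_comp R a b hy, p05_conj_mulVec _ _ _ hO]
    rfl

theorem Sol.Vfield_comp (h : Sol E u) (R : V n ≃ₗᵢ[ℝ] V n) (ϖ : ℚ) (L : List Term) {y : V n}
    (hy : R y ∈ E) (k : Fin n) :
    Vfield ϖ L (u ∘ R) k y = ∑ a, rm R a k * Vfield ϖ L u a (R y) := by
  unfold Vfield
  induction L with
  | nil => simp
  | cons g L ih =>
    simp only [List.map_cons, List.sum_cons]
    rw [ih]
    have hg : g.field ϖ (u ∘ R) k y = ∑ a, rm R a k * g.field ϖ u a (R y) := by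
      unfold Term.field
      rw [h.Shape_comp R g.shape hy k, h.ss_comp R hy, h.facs_comp R _ hy, R.norm_map,
        Finset.mul_sum, Finset.mul_sum, Finset.mul_sum]
      refine Finset.sum_congr rfl (fun a _ => ?_)
      ring
    rw [hg, ← Finset.sum_add_distrib]
    refine Finset.sum_congr rfl (fun a _ => ?_)
    ring

theorem Sol.Ff_comp (h : Sol E u) (R : V n ≃ₗᵢ[ℝ] V n) (ϖ : ℚ) {y : V n} (hy : R y ∈ E) :
    Ff ϖ (u ∘ R) y = Ff ϖ u (R y) := by
  unfold Ff
  rw [h.ss_comp R hy, R.norm_map]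

/-- the defect of the certificate inequality -/
noncomputable def defect (ϖ t : ℚ) (L : List Term) (u : V n → ℝ) (x : V n) : ℝ :=
  ∑ k, pd k (Vfield ϖ L u k) x - (∑ k, (pd k (Ff ϖ u) x) ^ 2) / (4 * Ff ϖ u x)
    - t * (Ff ϖ u x / ‖x‖ ^ 2)

/-- the defect is rotation invariant -/
theorem Sol.defect_comp (h : Sol E u) (R : V n ≃ₗᵢ[ℝ] V n) (ϖ t : ℚ) (L : List Term) {y : V n}
    (hy : R y ∈ E) (hN : NN u (R y) ≠ 0) :
    defect ϖ t L (u ∘ R) y = defect ϖ t L u (R y) := by
  have hopen : IsOpen (E ∩ {x | NN u x ≠ 0}) :=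
    h.smooth_NN.continuousOn.isOpen_inter_preimage h.isOpen (isOpen_ne (x := (0 : ℝ)))
  have hev : ∀ᶠ z in nhds y, R z ∈ E :=
    R.continuous.continuousAt.eventually (h.isOpen.mem_nhds hy)
  have h1 : ∑ k, pd k (Vfield ϖ L (u ∘ R) k) y = ∑ a, pd a (Vfield ϖ L u a) (R y) := by
    apply div_comp R
    · intro a
      exact diffAt hopen (h.smooth_Vfield ϖ L a) ⟨hy, hN⟩
    · intro k
      filter_upwards [hev] with z hz
      exact h.Vfield_comp R ϖ L hz k
  have h2 : ∑ k, (pd k (Ff ϖ (u ∘ R)) y) ^ 2 = ∑ k, (pd k (Ff ϖ u) (R y)) ^ 2 := by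
    rw [← grad_sq_comp (Ff ϖ u) R y]
    refine Finset.sum_congr rfl (fun k _ => ?_)
    have h3 : Ff ϖ (u ∘ R) =ᶠ[nhds y] (Ff ϖ u) ∘ R := by
      filter_upwards [hev] with z hz
      exact h.Ff_comp R ϖ hz
    simp only [pd, h3.fderiv_eq]
  unfold defect
  rw [h1, h2, h.Ff_comp R ϖ hy, R.norm_map]

end OPC
end

section

/-! # P06: reduction of the pointwise inequality to the adapted frame -/

open MeasureTheory Set Filter Topology

namespace OPC

variable {n m : ℕ}

/-- the defect is homogeneous of degree `-n`. Sketch: `pd_hom`-type chain rule on the open cone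
`E ∩ {NN ≠ 0}`, `Sol.hom_Vfield`, `Sol.hom_Ff`. -/
theorem Sol.defect_hom {E : Set (V n)} {u : V n → ℝ} (h : Sol E u) (ϖ t : ℚ) (L : List Term)
    {s : ℝ} (hs : 0 < s) {x : V n} (hx : x ∈ E) (hN : NN u x ≠ 0) :
    defect ϖ t L u (s • x) = s ^ (-(n : ℤ)) * defect ϖ t L u x := by
  have hO : IsOpen (E ∩ {x | NN u x ≠ 0}) :=
    h.smooth_NN.continuousOn.isOpen_inter_preimage h.isOpen isOpen_ne
  have hC : ∀ t : ℝ, 0 < t → ∀ x : V n, x ∈ E ∩ {x | NN u x ≠ 0} →
      t • x ∈ E ∩ {x | NN u x ≠ 0} := by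
    intro t ht x hx
    refine ⟨(h.smul_mem ht).2 hx.1, ?_⟩
    obtain ⟨-, -, -, -, h5, -⟩ := h.hom0 ht hx.1
    simp only [mem_ofPred_eq]
    rw [h5]
    exact mul_ne_zero (inv_ne_zero (pow_ne_zero 2 ht.ne')) hx.2
  have hxO : x ∈ E ∩ {x | NN u x ≠ 0} := ⟨hx, hN⟩
  have hV : ∀ k, pd k (Vfield ϖ L u k) (s • x) = s ^ (-(n : ℤ)) * pd k (Vfield ϖ L u k) x := by
    intro k
    have := pd_hom hO hC (f := Vfield ϖ L u k)
      (fun y hy => diffAt hO (h.smooth_Vfield ϖ L k) hy) (1 - (n : ℤ))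
      (fun t ht y hy => h.hom_Vfield ϖ L k ht hy.1) k s hs x hxO
    rw [this]
    congr 2
    ring
  have hF : ∀ k, pd k (Ff ϖ u) (s • x) = s ^ (1 - (n : ℤ)) * pd k (Ff ϖ u) x := by
    intro k
    have := pd_hom hO hC (f := Ff ϖ u)
      (fun y hy => diffAt hO (h.smooth_Ff ϖ) hy) (2 - (n : ℤ))
      (fun t ht y hy => h.hom_Ff ϖ ht hy.1) k s hs x hxO
    rw [this]
    congr 2
    ring
  have hF0 : Ff ϖ u (s • x) = s ^ (2 - (n : ℤ)) * Ff ϖ u x := h.hom_Ff ϖ hs hx
  have hs0 : s ≠ 0 := hs.ne'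
  unfold defect
  simp only [hV, hF, hF0, norm_smul, Real.norm_eq_abs, abs_of_pos hs, mul_pow]
  rw [← Finset.mul_sum, ← Finset.mul_sum]
  have e1 : (s ^ (1 - (n : ℤ))) ^ 2 = s ^ (2 - (n : ℤ)) * s ^ (-(n : ℤ)) := by
    rw [← zpow_natCast, ← zpow_mul, ← zpow_add₀ hs0]
    congr 1
    push_cast
    ring
  have e2 : s ^ (2 - (n : ℤ)) = s ^ 2 * s ^ (-(n : ℤ)) := by
    rw [sub_eq_add_neg, zpow_add₀ hs0]
    norm_cast
  have hsn : s ^ (2 - (n : ℤ)) ≠ 0 := zpow_ne_zero _ hs0
  have e3 : s ^ (2 - (n : ℤ)) * s ^ (-(n : ℤ)) * (∑ k, (pd k (Ff ϖ u) x) ^ 2)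
      / (4 * (s ^ (2 - (n : ℤ)) * Ff ϖ u x))
      = s ^ (-(n : ℤ)) * ((∑ k, (pd k (Ff ϖ u) x) ^ 2) / (4 * Ff ϖ u x)) := by
    rw [show 4 * (s ^ (2 - (n : ℤ)) * Ff ϖ u x) = s ^ (2 - (n : ℤ)) * (4 * Ff ϖ u x) by ring,
      mul_assoc, mul_div_mul_left _ _ hsn, mul_div_assoc]
  have e4 : s ^ (2 - (n : ℤ)) * Ff ϖ u x / (s ^ 2 * ‖x‖ ^ 2)
      = s ^ (-(n : ℤ)) * (Ff ϖ u x / ‖x‖ ^ 2) := by
    rw [e2, mul_assoc, mul_div_mul_left _ _ (pow_ne_zero 2 hs0), mul_div_assoc]
  rw [e1, e3, e4]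
  ring

/-- adapted frame at a unit vector `x ∈ E`: a rotation `R` with `R e_last = x` for which
`D²(u∘R)(e_last)` is diagonal.
Sketch: `D²u(x)` is symmetric with `D²u(x) x = 0`; diagonalise it on `xᗮ` (spectral theorem) and
complete with `x` as the last vector to an orthonormal basis; `S_comp`. -/
theorem Sol.exists_frame {E : Set (V (m + 1))} {u : V (m + 1) → ℝ} (h : Sol E u)
    {x : V (m + 1)} (hx : x ∈ E) (h1 : ‖x‖ = 1) :
    ∃ R : V (m + 1) ≃ₗᵢ[ℝ] V (m + 1), R (e (Fin.last m)) = x ∧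
      ∀ i j, i ≠ j → S (u ∘ R) i j (e (Fin.last m)) = 0 := by
  classical
  -- the Hessian as a linear map
  let M : Matrix (Fin (m + 1)) (Fin (m + 1)) ℝ := Matrix.of fun i j => S u i j x
  have hMs : M.IsHermitian := by
    ext i j
    simp [M, Matrix.conjTranspose_apply, h.S_symm i j hx]
  let A : V (m + 1) →ₗ[ℝ] V (m + 1) := Matrix.toEuclideanLin M
  have hA : A.IsSymmetric := Matrix.isSymmetric_toEuclideanLin_iff.2 hMs
  have hAap : ∀ (v : V (m + 1)) (i), (A v) i = ∑ j, S u i j x * v j := by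
    intro v i
    simp [A, M, Matrix.toLpLin_apply, Matrix.mulVec, dotProduct]
  have hAx : A x = 0 := by
    ext i
    rw [hAap]
    simpa using h.euler_q' i hx
  have hx0 : x ≠ 0 := h.ne_zero hx
  let W : Submodule ℝ (V (m + 1)) := (ℝ ∙ x)ᗮ
  have hW : ∀ v ∈ W, A v ∈ W := by
    intro v hv
    rw [Submodule.mem_orthogonal_singleton_iff_inner_right]
    rw [← hA x v, hAx, inner_zero_left]
  have hAW : (A.restrict hW).IsSymmetric := hA.restrict_invariant hW
  have hfact : Fact (Module.finrank ℝ (V (m + 1)) = m + 1) := ⟨by simp⟩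
  have hfr : Module.finrank ℝ W = m := by
    have := Submodule.finrank_orthogonal_span_singleton (𝕜 := ℝ) (E := V (m + 1)) (n := m)
      (v := x) hx0
    exact this
  let b := hAW.eigenvectorBasis hfr
  let f : Fin (m + 1) → V (m + 1) := Fin.snoc (fun i : Fin m => (b i : V (m + 1))) x
  have hfl : f (Fin.last m) = x := by simp [f]
  have hfc : ∀ i : Fin m, f i.castSucc = (b i : V (m + 1)) := by intro i; simp [f]
  have hbx : ∀ i : Fin m, inner ℝ x (b i : V (m + 1)) = 0 := by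
    intro i
    exact (Submodule.mem_orthogonal_singleton_iff_inner_right).1 (b i).2
  have hbx' : ∀ i : Fin m, inner ℝ (b i : V (m + 1)) x = 0 := by
    intro i
    rw [real_inner_comm]; exact hbx i
  have hbb : ∀ i j : Fin m, inner ℝ (b i : V (m + 1)) (b j : V (m + 1))
      = if i = j then (1 : ℝ) else 0 := by
    intro i j
    have := (orthonormal_iff_ite.1 b.orthonormal) i j
    rw [← this]
    rfl
  have hf : Orthonormal ℝ f := by
    rw [orthonormal_iff_ite]
    intro i j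
    induction i using Fin.lastCases with
    | last =>
      induction j using Fin.lastCases with
      | last => rw [hfl]; simp [h1]
      | cast j =>
        rw [hfl, hfc, hbx]
        rw [if_neg (Fin.castSucc_lt_last j).ne']
    | cast i =>
      induction j using Fin.lastCases with
      | last =>
        rw [hfl, hfc, hbx']
        rw [if_neg (Fin.castSucc_lt_last i).ne]
      | cast j =>
        rw [hfc, hfc, hbb]
        simp [Fin.castSucc_inj]
  have hcard : Fintype.card (Fin (m + 1)) = Module.finrank ℝ (V (m + 1)) := by simp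
  have hne : Nonempty (Fin (m + 1)) := ⟨Fin.last m⟩
  have hli := hf.linearIndependent
  have hsp : (⊤ : Submodule ℝ (V (m + 1))) ≤ Submodule.span ℝ (Set.range f) := by
    have := hli.span_eq_top_of_card_eq_finrank hcard
    rw [this]
  let c : OrthonormalBasis (Fin (m + 1)) ℝ (V (m + 1)) := OrthonormalBasis.mk hf hsp
  have hc : ∀ i, c i = f i := by intro i; simp [c]
  let R : V (m + 1) ≃ₗᵢ[ℝ] V (m + 1) := c.repr.symm
  have hRe : ∀ i, R (e i) = f i := by
    intro i
    rw [← hc i]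
    exact c.repr_symm_single i
  refine ⟨R, by rw [hRe, hfl], ?_⟩
  have hRy : R (e (Fin.last m)) ∈ E := by rw [hRe, hfl]; exact hx
  intro i j hij
  rw [h.S_comp R i j hRy]
  have hform : ∑ a, ∑ b', rm R a i * rm R b' j * S u a b' (R (e (Fin.last m)))
      = inner ℝ (f i) (A (f j)) := by
    rw [hRe, hfl]
    rw [PiLp.inner_apply]
    refine Finset.sum_congr rfl fun a _ => ?_
    rw [hAap]
    simp only [rm, Matrix.of_apply, hRe]
    simp only [RCLike.inner_apply, conj_trivial, Finset.sum_mul]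
    refine Finset.sum_congr rfl fun b' _ => ?_
    ring
  rw [hform]
  induction j using Fin.lastCases with
  | last => rw [hfl, hAx, inner_zero_right]
  | cast j =>
    induction i using Fin.lastCases with
    | last => rw [hfl, ← hA, hAx, inner_zero_left]
    | cast i =>
      have hij' : i ≠ j := fun hh => hij (by rw [hh])
      have hev : A (f j.castSucc) = (hAW.eigenvalues hfr j : ℝ) • (b j : V (m + 1)) := by
        have := hAW.apply_eigenvectorBasis hfr j
        rw [hfc]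
        exact congrArg Subtype.val this
      rw [hev, hfc, inner_smul_right, hbb, if_neg hij', mul_zero]

/-- Reduction: it suffices to prove `0 ≤ defect` at `e_last` for solutions with diagonal Hessian
there. -/
theorem defect_nonneg_of_adapted (ϖ t : ℚ) (L : List Term)
    (H : ∀ (E : Set (V (m + 1))) (u : V (m + 1) → ℝ), Sol E u → e (Fin.last m) ∈ E →
      NN u (e (Fin.last m)) ≠ 0 → (∀ i j, i ≠ j → S u i j (e (Fin.last m)) = 0) →
      0 ≤ defect ϖ t L u (e (Fin.last m)))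
    {E : Set (V (m + 1))} {u : V (m + 1) → ℝ} (h : Sol E u) {x : V (m + 1)} (hx : x ∈ E)
    (hN : NN u x ≠ 0) : 0 ≤ defect ϖ t L u x := by
  have hx0 : x ≠ 0 := h.ne_zero hx
  have hr : 0 < ‖x‖ := norm_pos_iff.2 hx0
  have hs : 0 < ‖x‖⁻¹ := inv_pos.2 hr
  set y : V (m + 1) := ‖x‖⁻¹ • x with hy
  have hyE : y ∈ E := (h.smul_mem hs).2 hx
  have hy1 : ‖y‖ = 1 := by
    rw [hy, norm_smul, Real.norm_eq_abs, abs_of_pos hs, inv_mul_cancel₀ hr.ne']
  have hNy : NN u y ≠ 0 := by
    obtain ⟨-, -, -, -, h5, -⟩ := h.hom0 hs hx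
    rw [hy, h5]
    exact mul_ne_zero (inv_ne_zero (pow_ne_zero 2 hs.ne')) hN
  obtain ⟨R, hR, hd⟩ := h.exists_frame hyE hy1
  have hRE : R (e (Fin.last m)) ∈ E := by rw [hR]; exact hyE
  have hRN : NN u (R (e (Fin.last m))) ≠ 0 := by rw [hR]; exact hNy
  have h2 := H (R ⁻¹' E) (u ∘ R) (h.comp R) hRE (by rw [h.NN_comp R hRE]; exact hRN) hd
  rw [h.defect_comp R ϖ t L hRE hRN, hR, hy, h.defect_hom ϖ t L hs hx hN] at h2
  have hp : 0 < ‖x‖⁻¹ ^ (-((m + 1 : ℕ) : ℤ)) := zpow_pos hs _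
  exact nonneg_of_mul_nonneg_right (by simpa using h2) hp

end OPC
end
end

section

/-! # A11: bounds of the derivatives of w, sigma, a -/

open MeasureTheory Set Filter Topology

namespace OPC

variable {n : ℕ} {E : Set (V n)} {u : V n → ℝ}

private theorem abs_T_le (i j k : Fin n) (x : V n) : |T u i j k x| ≤ √(TT u x) := by
  apply Real.abs_le_sqrt
  unfold TT
  have h1 : (T u i j k x) ^ 2 ≤ ∑ k', (T u i j k' x) ^ 2 :=
    Finset.single_le_sum (f := fun k' => (T u i j k' x) ^ 2) (fun _ _ => sq_nonneg _)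
      (Finset.mem_univ k)
  have h2 : ∑ k', (T u i j k' x) ^ 2 ≤ ∑ j', ∑ k', (T u i j' k' x) ^ 2 :=
    Finset.single_le_sum (f := fun j' => ∑ k', (T u i j' k' x) ^ 2)
      (fun _ _ => Finset.sum_nonneg fun _ _ => sq_nonneg _) (Finset.mem_univ j)
  have h3 : ∑ j', ∑ k', (T u i j' k' x) ^ 2 ≤ ∑ i', ∑ j', ∑ k', (T u i' j' k' x) ^ 2 :=
    Finset.single_le_sum (f := fun i' => ∑ j', ∑ k', (T u i' j' k' x) ^ 2)
      (fun _ _ => Finset.sum_nonneg fun _ _ => Finset.sum_nonneg fun _ _ => sq_nonneg _)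
      (Finset.mem_univ i)
  linarith

private theorem abs_sum_le_card {f : Fin n → ℝ} {B : ℝ} (hf : ∀ i, |f i| ≤ B) :
    |∑ i, f i| ≤ n * B := by
  refine (Finset.abs_sum_le_sum_abs _ _).trans ?_
  refine (Finset.sum_le_sum fun i _ => hf i).trans ?_
  simp

/-- the third order derivatives control the derivatives of `w, σ, a, A`: on annuli
`|∂w|, |∂σ|, |∂a|, |∂A| ≤ C (1 + |T|)`.
Sketch: explicit formulas (`Sol.pd_w`, quotient rule, `gg ≥ c`), `|T_{ijk}| ≤ √TT`. -/
theorem Sol.pd_bounds (h : Sol E u) {a b : ℝ} (ha : 0 < a) :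
    ∃ C : ℝ, 1 ≤ C ∧ ∀ x ∈ E, x ∈ Ann a b →
      (∀ k i, |pd k (w u i) x| ≤ C * (1 + √(TT u x))) ∧
      (∀ k, |pd k (sg u) x| ≤ C * (1 + √(TT u x))) ∧
      (∀ k i, |pd k (aa u i) x| ≤ C * (1 + √(TT u x))) ∧
      (∀ k, |pd k (NN u) x| ≤ C * √(TT u x)) := by
  obtain ⟨C, c, hC, hc, hB⟩ := h.bounds (b := b) ha
  have hC0 : 0 ≤ C := by linarith
  have hn : (0 : ℝ) ≤ n := Nat.cast_nonneg n
  set D1 : ℝ := n * C ^ 2 + n * C with hD1
  set D0 : ℝ := n * (C ^ 2 + C * D1) with hD0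
  set D2 : ℝ := (D0 * C + C * C * (2 * C)) / c ^ 2 with hD2
  set D3 : ℝ := D1 + (D2 * C + C * C) with hD3
  set D4 : ℝ := 2 * (n * (n * C)) with hD4
  have hD1n : 0 ≤ D1 := by positivity
  have hD0n : 0 ≤ D0 := by positivity
  have hD2n : 0 ≤ D2 := by positivity
  have hD3n : 0 ≤ D3 := by positivity
  have hD4n : 0 ≤ D4 := by positivity
  refine ⟨1 + D1 + D2 + D3 + D4, by linarith, fun x hx hxA => ?_⟩
  obtain ⟨hq, hS, hw, hsg, haa, -, hgg, -, -, -, -, hgc⟩ := hB x hx hxA
  set t : ℝ := √(TT u x) with ht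
  have ht0 : 0 ≤ t := Real.sqrt_nonneg _
  have hT : ∀ i j k, |T u i j k x| ≤ t := fun i j k => abs_T_le i j k x
  have hgpos : 0 < gg u x := h.gg_pos hx
  have hw1 : ∀ k i, |pd k (w u i) x| ≤ D1 * (1 + t) := by
    intro k i
    rw [h.pd_w k i hx]
    have e1 : |∑ j, T u k i j x * q u j x| ≤ n * (t * C) :=
      abs_sum_le_card fun j => by
        rw [abs_mul]; exact mul_le_mul (hT k i j) (hq j) (abs_nonneg _) ht0
    have e2 : |∑ j, S u i j x * S u k j x| ≤ n * (C * C) :=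
      abs_sum_le_card fun j => by
        rw [abs_mul]; exact mul_le_mul (hS i j) (hS k j) (abs_nonneg _) hC0
    have e3 := abs_add_le (∑ j, T u k i j x * q u j x) (∑ j, S u i j x * S u k j x)
    have e4 : (n : ℝ) * (t * C) + n * (C * C) ≤ D1 * (1 + t) := by
      rw [hD1]
      have : 0 ≤ (n : ℝ) * C ^ 2 * t := by positivity
      have : 0 ≤ (n : ℝ) * C := by positivity
      nlinarith
    linarith
  have hNeq : ∑ i, q u i x * w u i x = sg u x * gg u x := by
    rw [sg, div_mul_cancel₀ _ hgpos.ne']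
  have hNb : |∑ i, q u i x * w u i x| ≤ C * C := by
    rw [hNeq, abs_mul, abs_of_pos hgpos]
    exact mul_le_mul hsg hgg hgpos.le hC0
  have hdN : ∀ k, |pd k (fun y => ∑ i, q u i y * w u i y) x| ≤ D0 * (1 + t) := by
    intro k
    have hd : ∀ j : Fin n, DifferentiableAt ℝ (fun y => q u j y * w u j y) x :=
      fun j => (h.diff_q j hx).mul (diffAt h.isOpen (h.smooth_w j) hx)
    rw [pd_sum _ (fun j _ => hd j)]
    have e1 : |∑ j, pd k (fun y => q u j y * w u j y) x| ≤ n * (C * C + C * (D1 * (1 + t))) := by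
      refine abs_sum_le_card fun j => ?_
      rw [pd_mul (h.diff_q j hx) (diffAt h.isOpen (h.smooth_w j) hx), pd_q]
      refine (abs_add_le _ _).trans (add_le_add ?_ ?_)
      · rw [abs_mul]; exact mul_le_mul (hS k j) (hw j) (abs_nonneg _) hC0
      · rw [abs_mul]; exact mul_le_mul (hq j) (hw1 k j) (abs_nonneg _) hC0
    refine e1.trans ?_
    rw [hD0, mul_assoc]
    refine mul_le_mul_of_nonneg_left ?_ hn
    have : 0 ≤ C ^ 2 * t := by positivity
    nlinarith
  have hsg1 : ∀ k, |pd k (sg u) x| ≤ D2 * (1 + t) := by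
    intro k
    have hd : ∀ j : Fin n, DifferentiableAt ℝ (fun y => q u j y * w u j y) x :=
      fun j => (h.diff_q j hx).mul (diffAt h.isOpen (h.smooth_w j) hx)
    have hdN' : DifferentiableAt ℝ (fun y => ∑ i, q u i y * w u i y) x :=
      DifferentiableAt.fun_sum fun j _ => hd j
    have hdg : DifferentiableAt ℝ (gg u) x := by
      change DifferentiableAt ℝ (fun y => ∑ i, (q u i y) ^ 2) x
      exact DifferentiableAt.fun_sum fun j _ => (h.diff_q j hx).pow 2
    have e0 : pd k (sg u) x = (pd k (fun y => ∑ i, q u i y * w u i y) x * gg u x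
        - (∑ i, q u i x * w u i x) * pd k (gg u) x) / gg u x ^ 2 := by
      change pd k (fun y => (∑ i, q u i y * w u i y) / gg u y) x = _
      rw [pd_div hdN' hdg hgpos.ne']
    rw [e0, abs_div, abs_of_pos (pow_pos hgpos 2), h.pd_gg k hx]
    have e1 : |pd k (fun y => ∑ i, q u i y * w u i y) x * gg u x
        - (∑ i, q u i x * w u i x) * (2 * w u k x)| ≤ (D0 * C + C * C * (2 * C)) * (1 + t) := by
      have f1 : |pd k (fun y => ∑ i, q u i y * w u i y) x * gg u x| ≤ D0 * (1 + t) * C := by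
        rw [abs_mul, abs_of_pos hgpos]
        exact mul_le_mul (hdN k) hgg hgpos.le (by positivity)
      have f2 : |(∑ i, q u i x * w u i x) * (2 * w u k x)| ≤ C * C * (2 * C) := by
        rw [abs_mul]
        refine mul_le_mul hNb ?_ (abs_nonneg _) (by positivity)
        rw [abs_mul, abs_of_pos (by norm_num : (0 : ℝ) < 2)]
        exact mul_le_mul_of_nonneg_left (hw k) (by norm_num)
      have f3 := abs_sub (pd k (fun y => ∑ i, q u i y * w u i y) x * gg u x)
        ((∑ i, q u i x * w u i x) * (2 * w u k x))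
      have f4 : 0 ≤ C * C * (2 * C) * t := by positivity
      nlinarith
    have hc2 : c ^ 2 ≤ gg u x ^ 2 := pow_le_pow_left₀ hc.le hgc 2
    calc |pd k (fun y => ∑ i, q u i y * w u i y) x * gg u x
        - (∑ i, q u i x * w u i x) * (2 * w u k x)| / gg u x ^ 2
        ≤ ((D0 * C + C * C * (2 * C)) * (1 + t)) / c ^ 2 :=
          div_le_div₀ (by positivity) e1 (by positivity) hc2
      _ = D2 * (1 + t) := by rw [hD2]; ring
  have haa1 : ∀ k i, |pd k (aa u i) x| ≤ D3 * (1 + t) := by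
    intro k i
    have hds : DifferentiableAt ℝ (sg u) x := diffAt h.isOpen h.smooth_sg hx
    have hdw : DifferentiableAt ℝ (w u i) x := diffAt h.isOpen (h.smooth_w i) hx
    have e0 : pd k (aa u i) x = pd k (w u i) x - (pd k (sg u) x * q u i x + sg u x * S u k i x) := by
      change pd k (fun y => w u i y - sg u y * q u i y) x = _
      rw [pd_sub (g := fun y => sg u y * q u i y) hdw (hds.mul (h.diff_q i hx)),
        pd_mul hds (h.diff_q i hx), pd_q]
    rw [e0]
    have f1 := abs_sub (pd k (w u i) x) (pd k (sg u) x * q u i x + sg u x * S u k i x)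
    have f2 : |pd k (sg u) x * q u i x + sg u x * S u k i x| ≤ D2 * (1 + t) * C + C * C := by
      refine (abs_add_le _ _).trans (add_le_add ?_ ?_)
      · rw [abs_mul]; exact mul_le_mul (hsg1 k) (hq i) (abs_nonneg _) (by positivity)
      · rw [abs_mul]; exact mul_le_mul hsg (hS k i) (abs_nonneg _) hC0
    have f3 := hw1 k i
    have f4 : 0 ≤ C * C * t := by positivity
    rw [hD3]
    nlinarith
  have hNN1 : ∀ k, |pd k (NN u) x| ≤ D4 * t := by
    intro k
    rw [h.pd_NN k hx, abs_mul, abs_of_pos (by norm_num : (0 : ℝ) < 2)]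
    have e1 : |∑ i, ∑ j, S u i j x * T u k i j x| ≤ n * (n * (C * t)) :=
      abs_sum_le_card fun i => abs_sum_le_card fun j => by
        rw [abs_mul]; exact mul_le_mul (hS i j) (hT k i j) (abs_nonneg _) hC0
    calc 2 * |∑ i, ∑ j, S u i j x * T u k i j x| ≤ 2 * (n * (n * (C * t))) := by linarith
      _ = D4 * t := by rw [hD4]; ring
  have h1t : 0 ≤ 1 + t := by linarith
  refine ⟨fun k i => ?_, fun k => ?_, fun k i => ?_, fun k => ?_⟩
  · exact (hw1 k i).trans (mul_le_mul_of_nonneg_right (by linarith) h1t)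
  · exact (hsg1 k).trans (mul_le_mul_of_nonneg_right (by linarith) h1t)
  · exact (haa1 k i).trans (mul_le_mul_of_nonneg_right (by linarith) h1t)
  · exact (hNN1 k).trans (mul_le_mul_of_nonneg_right (by linarith) ht0)

end OPC
end
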