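import Pool.Agent.Lib.MP_9059b8_an.A06
import Pool.Agent.Lib.MP_9059b8_an.A10

section

/-! # B03: cutoffs at the free boundary -/

open MeasureTheory Set Filter Topology

namespace OPC

variable {n : ℕ} {E : Set (V n)} {u : V n → ℝ}

/-- compositions `κ(u/ε) η` with `κ = 0` on `(-∞, 1]` are test functions supported in `E`. General
version of `cut` (take `κ = chi`, `κ = deriv chi`, `κ = chi²`, ...).
Sketch: `u` is continuous, so the support is contained in the closed set
`{ε ≤ u} ∩ tsupport η ⊆ E`; on `E` the function is smooth; near points with `u < ε` it is `0`. -/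
theorem Sol.kcut_tst (h : Sol E u) {κ : ℝ → ℝ} (hκ : ContDiff ℝ (⊤ : ℕ∞) κ)
    (h0 : ∀ s ≤ 1, κ s = 0) {η : V n → ℝ} (hη : Tst η) {ε : ℝ} (hε : 0 < ε) :
    Tst (fun x => κ (u x / ε) * η x) ∧ tsupport (fun x => κ (u x / ε) * η x) ⊆ E := by
  refine ⟨⟨?_, ?_, ?_⟩, ?_⟩
  · rw [contDiff_iff_contDiffAt]
    intro x
    by_cases hx : x ∈ E
    · have h1 : ContDiffAt ℝ (⊤ : ℕ∞) u x := h.smooth.contDiffAt (h.isOpen.mem_nhds hx)
      exact (hκ.contDiffAt.comp x (h1.div_const ε)).mul hη.smooth.contDiffAt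
    · have hu : u x < ε := by rw [h.zero x hx]; exact hε
      have h2 : ∀ᶠ y in 𝓝 x, u y < ε := h.cont.continuousAt.eventually_lt_const hu
      have h1 : (fun x => κ (u x / ε) * η x) =ᶠ[𝓝 x] fun _ => (0 : ℝ) := by
        filter_upwards [h2] with y hy
        rw [h0 (u y / ε) ((div_le_one hε).2 hy.le), zero_mul]
      exact contDiffAt_const.congr_of_eventuallyEq h1
  · exact hη.cpt.mul_left
  · exact fun hc => hη.zero (tsupport_mul_subset_right hc)
  · have hcl : IsClosed {x : V n | ε ≤ u x} := isClosed_le continuous_const h.cont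
    have hsub : Function.support (fun x => κ (u x / ε) * η x) ⊆ {x : V n | ε ≤ u x} := by
      intro x hx
      by_contra hc
      have hlt : u x < ε := not_le.1 hc
      apply hx
      show κ (u x / ε) * η x = 0
      rw [h0 (u x / ε) ((div_le_one hε).2 hlt.le), zero_mul]
    intro x hx
    have h1 : ε ≤ u x := closure_minimal hsub hcl hx
    rw [h.eq_pos]
    exact lt_of_lt_of_le hε h1

theorem Sol.pd_kcut (h : Sol E u) {κ : ℝ → ℝ} (hκ : ContDiff ℝ (⊤ : ℕ∞) κ)
    {η : V n → ℝ} (hη : Tst η) {ε : ℝ} (hε : 0 < ε) (i : Fin n) {x : V n} (hx : x ∈ E) :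
    pd i (fun x => κ (u x / ε) * η x) x
      = κ (u x / ε) * pd i η x + ε⁻¹ * deriv κ (u x / ε) * η x * q u i x := by
  have hu : DifferentiableAt ℝ u x := diffAt h.isOpen h.smooth hx
  have hue : DifferentiableAt ℝ (fun y => u y / ε) x := by
    simpa [div_eq_mul_inv] using hu.mul_const ε⁻¹
  have hκd : DifferentiableAt ℝ κ (u x / ε) := (hκ.differentiable (by simp)) _
  have hηd : DifferentiableAt ℝ η x := (hη.smooth.differentiable (by simp)) x
  have h1 : DifferentiableAt ℝ (fun y => κ (u y / ε)) x := hκd.comp x hue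
  have h2 : pd i (fun y => κ (u y / ε)) x = deriv κ (u x / ε) * pd i (fun y => u y / ε) x :=
    pd_comp (f := fun y => u y / ε) hκd hue i
  have h3 : pd i (fun y => u y / ε) x = ε⁻¹ * pd i u x := by
    have : (fun y => u y / ε) = fun y => ε⁻¹ * u y := by
      funext y; rw [div_eq_inv_mul]
    rw [this, pd_const_mul]
  rw [pd_mul h1 hηd, h2, h3]
  simp only [q]
  ring

private theorem b03_deriv_zero {κ : ℝ → ℝ} (hκ : ContDiff ℝ (⊤ : ℕ∞) κ)
    (h0 : ∀ s ≤ 1, κ s = 0) : ∀ s ≤ 1, deriv κ s = 0 := by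
  have hc : Continuous (deriv κ) := hκ.continuous_deriv (by simp)
  have h1 : ∀ s ∈ Iio (1 : ℝ), deriv κ s = 0 := by
    intro s hs
    have : κ =ᶠ[𝓝 s] fun _ => (0 : ℝ) := by
      filter_upwards [Iio_mem_nhds hs] with y hy
      exact h0 y (le_of_lt hy)
    rw [this.deriv_eq]
    simp
  have hcl : IsClosed {s : ℝ | deriv κ s = 0} := isClosed_eq hc continuous_const
  have h2 : closure (Iio (1 : ℝ)) ⊆ {s : ℝ | deriv κ s = 0} := closure_minimal h1 hcl
  intro s hs
  apply h2
  rw [closure_Iio]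
  exact hs

private theorem b03_tst_pd {η : V n → ℝ} (hη : Tst η) (i : Fin n) : Tst (pd i η) := by
  refine ⟨contDiff_pd (m := (⊤ : ℕ∞)) hη.smooth (by simp) i, ?_, ?_⟩
  · exact hη.cpt.fderiv_apply (𝕜 := ℝ) (e i)
  · exact fun hc => hη.zero (tsupport_fderiv_apply_subset ℝ (e i) hc)

/-- the basic integration by parts with a cutoff at the free boundary -/
theorem Sol.ibp_kcut (h : Sol E u) {κ : ℝ → ℝ} (hκ : ContDiff ℝ (⊤ : ℕ∞) κ)
    (h0 : ∀ s ≤ 1, κ s = 0) {η : V n → ℝ} (hη : Tst η) {ε : ℝ} (hε : 0 < ε)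
    {Y : Fin n → V n → ℝ} (hY : ∀ i, ContDiffOn ℝ 1 (Y i) E) :
    ∫ x in E, κ (u x / ε) * η x * ∑ i, pd i (Y i) x
      = - (∫ x in E, κ (u x / ε) * ∑ i, pd i η x * Y i x)
        - ε⁻¹ * ∫ x in E, deriv κ (u x / ε) * η x * ∑ i, q u i x * Y i x := by
  obtain ⟨hT, hsub⟩ := h.kcut_tst hκ h0 hη hε
  have hκ' : ContDiff ℝ (⊤ : ℕ∞) (deriv κ) := by
    have h1 : ContDiff ℝ ((⊤ : ℕ∞) + 1) κ := by simpa using hκ
    exact (contDiff_succ_iff_deriv.1 h1).2.2
  obtain ⟨hT', hsub'⟩ := h.kcut_tst hκ' (b03_deriv_zero hκ h0) hη hε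
  have e1 := ibp_div (E := E) h.isOpen (ζ := fun x => κ (u x / ε) * η x) (Y := Y)
    (hT.smooth.of_le (by simp)) hT.cpt hsub hY
  rw [e1]
  have hI1 : Integrable (fun x => κ (u x / ε) * ∑ i, pd i η x * Y i x) (volume.restrict E) := by
    have h1 : (fun x => κ (u x / ε) * ∑ i, pd i η x * Y i x) =
        fun x => ∑ i, (κ (u x / ε) * pd i η x) * Y i x := by
      funext x
      rw [Finset.mul_sum]
      exact Finset.sum_congr rfl fun i _ => by ring
    rw [h1]
    refine integrable_finsetSum _ fun i _ => ?_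
    obtain ⟨hTi, hsubi⟩ := h.kcut_tst hκ h0 (b03_tst_pd hη i) hε
    exact (integrable_mul_of_tsupport h.isOpen hTi.smooth.continuous hTi.cpt hsubi
      (hY i).continuousOn).restrict
  have hI2 : Integrable (fun x => deriv κ (u x / ε) * η x * ∑ i, q u i x * Y i x)
      (volume.restrict E) := by
    refine (integrable_mul_of_tsupport h.isOpen hT'.smooth.continuous hT'.cpt hsub' ?_).restrict
    exact continuousOn_finsetSum _ fun i _ =>
      (h.smooth_q i).continuousOn.mul (hY i).continuousOn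
  have e2 : ∫ x in E, ∑ i, pd i (fun x => κ (u x / ε) * η x) x * Y i x =
      ∫ x in E, (κ (u x / ε) * ∑ i, pd i η x * Y i x +
        ε⁻¹ * (deriv κ (u x / ε) * η x * ∑ i, q u i x * Y i x)) := by
    refine setIntegral_congr_fun h.isOpen.measurableSet fun x hx => ?_
    show ∑ i, pd i (fun x => κ (u x / ε) * η x) x * Y i x = _
    rw [Finset.mul_sum, Finset.mul_sum, Finset.mul_sum, ← Finset.sum_add_distrib]
    refine Finset.sum_congr rfl fun i _ => ?_
    rw [h.pd_kcut hκ hη hε i hx]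
    ring
  rw [e2, integral_add hI1 (hI2.const_mul _), integral_const_mul]
  ring

end OPC
end

section

/-! # U01: general weight: homogeneity, smoothness, the field `W` -/

open MeasureTheory Set Filter Topology

namespace OPC

variable {n : ℕ} {E : Set (V n)} {u : V n → ℝ}

/-- `G` is homogeneous of degree `0` (from `Sol.hom0`) -/
theorem Sol.hom_Gval (h : Sol E u) (LF : List FT) {s : ℝ} (hs : 0 < s) {x : V n} (hx : x ∈ E) :
    Gval LF u (s • x) = Gval LF u x := by
  obtain ⟨-, -, -, e4, -, -, -, e8, -, -⟩ := h.hom0 hs hx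
  unfold Gval
  congr 1
  apply List.map_congr_left
  intro f _
  rw [e4, e8]

theorem Sol.hom_FF (h : Sol E u) (ϖ : ℚ) (LF : List FT) {s : ℝ} (hs : 0 < s) {x : V n}
    (hx : x ∈ E) : FF ϖ LF u (s • x) = s ^ (2 - (n : ℤ)) * FF ϖ LF u x := by
  unfold FF
  rw [h.hom_Ff ϖ hs hx, h.hom_Gval LF hs hx, mul_assoc]

theorem Sol.smooth_Gval (h : Sol E u) (LF : List FT) :
    ContDiffOn ℝ (⊤ : ℕ∞) (Gval LF u) (E ∩ {x | NN u x ≠ 0}) := by
  induction LF with
  | nil =>
    have : Gval [] u = fun _ => (0 : ℝ) := by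
      funext x; simp [Gval]
    rw [this]
    exact contDiffOn_const
  | cons f L ih =>
    have : Gval (f :: L) u = fun x => (f.coef : ℝ) *
        (ss u x ^ (-(f.wt : ℝ)) * facsVal u x f.facs) + Gval L u x := by
      funext x; simp [Gval]
    rw [this]
    refine ContDiffOn.add ?_ ih
    exact contDiffOn_const.mul ((h.smooth_ss_rpow _).mul
      ((h.smooth_facs f.facs).mono inter_subset_left))

theorem Sol.smooth_FF (h : Sol E u) (ϖ : ℚ) (LF : List FT) :
    ContDiffOn ℝ (⊤ : ℕ∞) (FF ϖ LF u) (E ∩ {x | NN u x ≠ 0}) := by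
  change ContDiffOn ℝ (⊤ : ℕ∞) (fun x => Ff ϖ u x * Gval LF u x) (E ∩ {x | NN u x ≠ 0})
  exact (h.smooth_Ff ϖ).mul (h.smooth_Gval LF)

/-- `S p = r w`: `(Sm)_{ij} pv_j = r S_ij (q_j - u x_j / r²)` and `S x = 0` (`Sol.euler_q'`) -/
theorem Sol.Sp_one (h : Sol E u) {x : V n} (hx : x ∈ E) (k : Fin n) :
    Sp u x 1 k = ‖x‖ * w u k x := by
  have h1 : Sp u x 1 k = ∑ j, ‖x‖ * S u k j x * (q u j x - u x * x j / ‖x‖ ^ 2) := by
    simp [Sp, pv, Sm, Matrix.mulVec, dotProduct]
  have h2 : ∑ j, ‖x‖ * S u k j x * (q u j x - u x * x j / ‖x‖ ^ 2)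
      = ‖x‖ * ∑ j, S u k j x * q u j x - ‖x‖ * u x / ‖x‖ ^ 2 * ∑ j, S u k j x * x j := by
    rw [Finset.mul_sum, Finset.mul_sum, ← Finset.sum_sub_distrib]
    exact Finset.sum_congr rfl fun j _ => by ring
  rw [h1, h2, h.euler_q' k hx, mul_zero, sub_zero]
  rfl

/-- `W = V - F w`. Sketch: the term `⟨v0 1, facs, 0, c⟩` has `ex = ϖ + 1 - (1 + wt) = ϖ - wt`,
`Sol.Sp_one`, `r^{1-n} r = r^{2-n}`, and `ss^(ϖ - wt) = ss^ϖ ss^(-wt)` because `ss > 0`
(`NN ≠ 0`). -/
theorem Sol.Wfield_WL (h : Sol E u) (ϖ : ℚ) (LF : List FT) (L : List Term) (k : Fin n) {x : V n}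
    (hx : x ∈ E) (hN : NN u x ≠ 0) :
    Wfield ϖ (WL L LF) u k x = Vfield ϖ L u k x - FF ϖ LF u x * w u k x := by
  have hn : ‖x‖ ≠ 0 := norm_ne_zero_iff.2 (h.ne_zero hx)
  have h0 : 0 ≤ NN u x := Finset.sum_nonneg fun i _ => Finset.sum_nonneg fun j _ => sq_nonneg _
  have hs : 0 < ss u x := by
    unfold ss
    exact mul_pos (lt_of_le_of_ne (norm_nonneg x) (Ne.symm hn))
      (Real.sqrt_pos.2 (lt_of_le_of_ne h0 (Ne.symm hN)))
  have hz : ‖x‖ ^ (1 - (n : ℤ)) * ‖x‖ = ‖x‖ ^ (2 - (n : ℤ)) := by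
    rw [← zpow_add_one₀ hn]
    congr 1
    ring
  have h1 : (⟨.v0 1, [], 0, 1⟩ : Term).field ϖ u k x = Ff ϖ u x * w u k x := by
    have hex : (((⟨.v0 1, [], 0, 1⟩ : Term).ex ϖ : ℚ) : ℝ) = (ϖ : ℝ) := by
      simp [Term.ex, Term.wt, Shape.wt]
    unfold Term.field Ff
    rw [hex, ← hz]
    simp only [Shape.val, facsVal, List.map_nil, List.prod_nil, h.Sp_one hx k]
    push_cast
    ring
  have h2 : ∀ f : FT, (⟨.v0 1, f.facs, 0, -f.coef⟩ : Term).field ϖ u k x
      = -(Ff ϖ u x * w u k x) *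
        ((f.coef : ℝ) * (ss u x ^ (-(f.wt : ℝ)) * facsVal u x f.facs)) := by
    intro f
    have hex : (((⟨.v0 1, f.facs, 0, -f.coef⟩ : Term).ex ϖ : ℚ) : ℝ)
        = (ϖ : ℝ) + -(f.wt : ℝ) := by
      have hwt : (⟨.v0 1, f.facs, 0, -f.coef⟩ : Term).wt = 1 + f.wt := rfl
      have hge : (⟨.v0 1, f.facs, 0, -f.coef⟩ : Term).ge = 0 := rfl
      rw [Term.ex, hwt, hge]
      push_cast
      ring
    unfold Term.field Ff
    rw [hex, ← hz, Real.rpow_add hs]
    simp only [Shape.val, h.Sp_one hx k]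
    push_cast
    ring
  have h3 : Vfield ϖ (WL L LF) u k x = Vfield ϖ L u k x + (Ff ϖ u x * w u k x +
      (LF.map fun f => (⟨.v0 1, f.facs, 0, -f.coef⟩ : Term).field ϖ u k x).sum) := by
    simp only [Vfield, WL, List.map_append, List.sum_append, List.map_cons, List.sum_cons,
      List.map_map, h1]
    rfl
  have h4 : (LF.map fun f => (⟨.v0 1, f.facs, 0, -f.coef⟩ : Term).field ϖ u k x).sum
      = -(Ff ϖ u x * w u k x) * Gval LF u x := by
    unfold Gval
    rw [← List.sum_map_mul_left]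
    congr 1
    apply List.map_congr_left
    intro f _
    exact h2 f
  unfold Wfield FF
  rw [h3, h4]
  ring

theorem WL_ok {L : List Term} (hL : ∀ g ∈ L, g.ok) (LF : List FT) : ∀ g ∈ WL L LF, g.ok := by
  intro g hg
  unfold WL at hg
  rcases List.mem_append.1 hg with hg | hg
  · exact hL g hg
  · rcases List.mem_cons.1 hg with rfl | hg
    · exact Nat.zero_le 1
    · obtain ⟨f, -, rfl⟩ := List.mem_map.1 hg
      exact Nat.zero_le 1

end OPC
end

section

section

/-! # B04: the volume of the layers -/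

open MeasureTheory Set Filter Topology

namespace OPC

variable {n : ℕ} {E : Set (V n)} {u : V n → ℝ}

/-- integrand of the primitive -/
private noncomputable def vg (K r : ℝ) : ℝ := chi r * (1 - chi (r / K))

/-- primitive -/
private noncomputable def vk (K s : ℝ) : ℝ := ∫ r in (0 : ℝ)..s, vg K r

private theorem vg_smooth (K : ℝ) : ContDiff ℝ (⊤ : ℕ∞) (vg K) := by
  unfold vg
  exact chi_smooth.mul (contDiff_const.sub (chi_smooth.comp (contDiff_id.div_const K)))

private theorem vk_deriv (K : ℝ) : deriv (vk K) = vg K := by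
  funext s
  exact (vg_smooth K).continuous.deriv_integral (vg K) 0 s

private theorem vk_diff (K : ℝ) : Differentiable ℝ (vk K) := by
  intro s
  exact ((vg_smooth K).continuous.integral_hasStrictDerivAt 0 s).hasDerivAt.differentiableAt

private theorem vk_smooth (K : ℝ) : ContDiff ℝ (⊤ : ℕ∞) (vk K) := by
  rw [contDiff_infty_iff_deriv]
  exact ⟨vk_diff K, by rw [vk_deriv]; exact vg_smooth K⟩

private theorem vg_nonneg (K r : ℝ) : 0 ≤ vg K r :=
  mul_nonneg (chi_nonneg r) (by linarith [chi_le_one (r / K)])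

private theorem vg_le_one (K r : ℝ) : vg K r ≤ 1 :=
  mul_le_one₀ (chi_le_one r) (by linarith [chi_le_one (r / K)]) (by linarith [chi_nonneg (r / K)])

private theorem vg_zero {K r : ℝ} (hr : r ≤ 1) : vg K r = 0 := by
  unfold vg; rw [chi_eq_zero hr, zero_mul]

private theorem vg_zero' {K r : ℝ} (hK : 0 < K) (hr : 2 * K ≤ r) : vg K r = 0 := by
  unfold vg
  rw [chi_eq_one (s := r / K) (by rw [le_div_iff₀ hK]; exact hr)]
  ring

private theorem vg_one {K r : ℝ} (hK : 0 < K) (hr : 2 ≤ r) (hr' : r ≤ K) : vg K r = 1 := by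
  unfold vg
  rw [chi_eq_one hr, chi_eq_zero (s := r / K) (by rw [div_le_one hK]; exact hr')]
  ring

private theorem vk_zero {K s : ℝ} (hs : s ≤ 1) : vk K s = 0 := by
  unfold vk
  rw [intervalIntegral.integral_congr (g := fun _ => (0 : ℝ))]
  · simp
  · intro r hr
    apply vg_zero
    rw [mem_uIcc] at hr
    rcases hr with hr | hr <;> linarith [hr.1, hr.2]

private theorem vk_abs {K : ℝ} (hK : 1 ≤ K) (s : ℝ) : |vk K s| ≤ 2 * K := by
  have key : ∀ s, 0 ≤ s → s ≤ 2 * K → |vk K s| ≤ 2 * K := by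
    intro s h0 h1
    have := intervalIntegral.norm_integral_le_of_norm_le_const (a := (0 : ℝ)) (b := s)
      (f := vg K) (C := 1) (fun r _ => by
        rw [Real.norm_eq_abs, abs_of_nonneg (vg_nonneg K r)]; exact vg_le_one K r)
    rw [Real.norm_eq_abs] at this
    unfold vk
    refine this.trans ?_
    rw [sub_zero, abs_of_nonneg h0]; linarith
  rcases le_or_gt s 1 with hs | hs
  · rw [vk_zero hs, abs_zero]; linarith
  rcases le_or_gt s (2 * K) with hs2 | hs2
  · exact key s (by linarith) hs2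
  · have h1 : vk K s = vk K (2 * K) := by
      unfold vk
      have hi : ∀ a b : ℝ, IntervalIntegrable (vg K) volume a b :=
        fun a b => (vg_smooth K).continuous.intervalIntegrable a b
      rw [← intervalIntegral.integral_add_adjacent_intervals (hi 0 (2 * K)) (hi (2 * K) s)]
      rw [intervalIntegral.integral_congr (a := 2 * K) (b := s) (g := fun _ => (0 : ℝ))]
      · simp
      · intro r hr
        rw [uIcc_of_le hs2.le] at hr
        exact vg_zero' (by linarith) hr.1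
    rw [h1]
    exact key _ (by linarith) le_rfl

private theorem measurableSet_Ann' (a b : ℝ) : MeasurableSet (Ann a b : Set (V n)) := by
  unfold Ann
  exact (measurableSet_le measurable_const measurable_norm).inter
    (measurableSet_le measurable_norm measurable_const)

private theorem vol_Ann_lt_top (a b : ℝ) : volume (Ann a b : Set (V n)) < ⊤ := by
  refine lt_of_le_of_lt (measure_mono (t := Metric.closedBall (0 : V n) b) ?_)
    measure_closedBall_lt_top
  intro x hx
  rw [Metric.mem_closedBall, dist_zero_right]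
  exact hx.2

/-- `vol (E ∩ Ann a b ∩ {u < ε}) ≤ C ε`.
Sketch. Let `η` be the test function of `exists_tst` (`= 1` on `Ann a b`). By `Sol.lay_gg` there is
`ε₀ > 0` with `gg u ≥ 1/2` on `E ∩ Ann (a/2) (b+1) ∩ {u < ε₀}`. For `0 < δ < ε ≤ ε₀/2` choose a
smooth `κ = κ_{δ,ε} : ℝ → ℝ` with `κ = 0` on `(-∞, δ]`, `κ' = 1` on `[2δ, ε]`, `0 ≤ κ' ≤ 1`
everywhere, `κ' = 0` on `[2ε, ∞)`, so `0 ≤ κ ≤ 2 ε` (e.g. `κ s = ∫_0^s chi (r/δ) (1 - chi (r/ε)) dr`).
`ibp` for `ζ = κ(u) η` and `Y i = q u i` (divergence `0`, `h.tr_S`):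
`∫_E κ'(u) η gg = - ∫_E κ(u) ∑ pd i η q_i ≤ 2 ε C`. Hence `vol {x ∈ E ∩ Ann a b, 2δ ≤ u ≤ ε} ≤ 4 C ε`;
let `δ → 0` (monotone convergence, `u > 0` on `E`). For `ε > ε₀/2` use the finite volume of
`Ann a b`. -/
theorem Sol.vol_layer (h : Sol E u) {a b : ℝ} (ha : 0 < a) : ∃ C, 0 < C ∧ ∀ ε, 0 < ε →
    (volume (E ∩ Ann a b ∩ {x | u x < ε})).toReal ≤ C * ε := by
  rcases lt_or_ge b 0 with hb | hb
  · refine ⟨1, one_pos, fun ε hε => ?_⟩
    have : (E ∩ Ann a b ∩ {x | u x < ε}) = ∅ := by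
      ext x
      simp only [mem_inter_iff, mem_empty_iff_false, iff_false]
      rintro ⟨⟨_, hx⟩, _⟩
      linarith [hx.2, norm_nonneg x]
    rw [this]; simp; linarith
  obtain ⟨η, hη, hη0, hη1, hηa, hηs⟩ := exists_tst (n := n) ha hb
  -- bound for the derivatives of `η`
  have hηc : ∀ i, ContDiff ℝ (⊤ : ℕ∞) (pd i η) := by
    intro i
    exact contDiff_pd hη.smooth (by simp) i
  have hpd0 : ∀ i, ∀ x ∉ (Ann (a / 2) (b + 1) : Set (V n)), pd i η x = 0 := by
    intro i x hx
    apply pd_zero_of_eventually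
    have hx' : x ∉ tsupport η := fun hc => hx (hηs hc)
    exact notMem_tsupport_iff_eventuallyEq.1 hx'
  have hηK : ∀ i, HasCompactSupport (pd i η) := by
    intro i
    refine HasCompactSupport.intro (isCompact_closedBall (0 : V n) (b + 1)) ?_
    intro x hx
    apply hpd0 i x
    intro hc
    apply hx
    rw [Metric.mem_closedBall, dist_zero_right]
    exact hc.2
  have hM : ∃ M, 0 ≤ M ∧ ∀ i x, |pd i η x| ≤ M := by
    choose M hM using fun i => (hηc i).continuous.bounded_above_of_compact_support (hηK i)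
    refine ⟨∑ i, |M i|, Finset.sum_nonneg fun i _ => abs_nonneg _, fun i x => ?_⟩
    have h1 := hM i x
    rw [Real.norm_eq_abs] at h1
    exact h1.trans ((le_abs_self _).trans
      (Finset.single_le_sum (f := fun i => |M i|) (fun i _ => abs_nonneg _) (Finset.mem_univ i)))
  obtain ⟨M, hM0, hM⟩ := hM
  obtain ⟨Cq, cq, hCq1, -, hbd⟩ := h.bounds (a := a / 2) (b := b + 1) (by linarith)
  obtain ⟨ε₀, hε₀, hlay⟩ := h.lay_gg (a / 2) (b + 1) (by linarith) (1 / 2) (by norm_num)
  set V' : ℝ := volume.real (Ann (a / 2) (b + 1) : Set (V n)) with hV'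
  have hV'0 : 0 ≤ V' := measureReal_nonneg
  set C₂ : ℝ := n * (M * Cq) with hC₂
  have hC₂0 : 0 ≤ C₂ := by positivity
  have hG : ∀ x ∈ E, x ∈ (Ann (a / 2) (b + 1) : Set (V n)) → |∑ i, pd i η x * q u i x| ≤ C₂ := by
    intro x hx hxa
    refine (Finset.abs_sum_le_sum_abs _ _).trans ?_
    have : ∀ i ∈ Finset.univ, |pd i η x * q u i x| ≤ M * Cq := by
      intro i _
      rw [abs_mul]
      exact mul_le_mul (hM i x) ((hbd x hx hxa).1 i) (abs_nonneg _) hM0
    refine (Finset.sum_le_sum this).trans ?_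
    rw [Finset.sum_const, Finset.card_univ, Fintype.card_fin, nsmul_eq_mul]
  -- main estimate
  have main : ∀ δ K : ℝ, 0 < δ → 1 ≤ K → 2 * K * δ ≤ ε₀ →
      volume.real (E ∩ Ann a b ∩ {x | 2 * δ ≤ u x ∧ u x ≤ K * δ}) ≤ 4 * (K * δ) * (C₂ * V') := by
    intro δ K hδ hK hKδ
    have hKpos : 0 < K := by linarith
    have hib := h.ibp_kcut (vk_smooth K) (fun s hs => vk_zero hs) hη hδ (Y := fun i => q u i)
      (fun i => (h.smooth_q i).of_le one_le_top')
    have h0 : ∫ x in E, vk K (u x / δ) * η x * ∑ i, pd i (q u i) x = 0 := by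
      rw [← integral_zero (V n) ℝ (μ := volume.restrict E)]
      refine setIntegral_congr_fun h.isOpen.measurableSet fun x hx => ?_
      have := h.tr_S hx
      simp only [S] at this
      simp only [q, this, mul_zero]
    rw [h0, vk_deriv] at hib
    -- the first integral
    set I₁ : ℝ := ∫ x in E, vk K (u x / δ) * ∑ i, pd i η x * q u i x with hI₁
    set I₂ : ℝ := ∫ x in E, vg K (u x / δ) * η x * ∑ i, q u i x * q u i x with hI₂
    have hI2 : I₂ = - δ * I₁ := by
      have : δ⁻¹ * I₂ = - I₁ := by linarith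
      field_simp at this
      linarith
    have hI1 : |I₁| ≤ 2 * K * C₂ * V' := by
      have e1 : I₁ = ∫ x in E ∩ Ann (a / 2) (b + 1), vk K (u x / δ) * ∑ i, pd i η x * q u i x := by
        rw [hI₁]
        refine setIntegral_eq_of_subset_of_forall_sdiff_eq_zero h.isOpen.measurableSet
          inter_subset_left ?_
        rintro x ⟨hx, hx'⟩
        have hx2 : x ∉ (Ann (a / 2) (b + 1) : Set (V n)) := fun hc => hx' ⟨hx, hc⟩
        rw [Finset.sum_eq_zero (fun i _ => by rw [hpd0 i x hx2, zero_mul]), mul_zero]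
      rw [e1, ← Real.norm_eq_abs]
      have hfin : volume (E ∩ Ann (a / 2) (b + 1) : Set (V n)) < ⊤ :=
        lt_of_le_of_lt (measure_mono inter_subset_right) (vol_Ann_lt_top _ _)
      refine (norm_setIntegral_le_of_norm_le_const (C := 2 * K * C₂) hfin ?_).trans ?_
      · rintro x ⟨hx, hxa⟩
        rw [Real.norm_eq_abs, abs_mul]
        exact mul_le_mul (vk_abs hK _) (hG x hx hxa) (abs_nonneg _) (by linarith)
      · refine mul_le_mul_of_nonneg_left ?_ (by positivity)
        exact measureReal_mono inter_subset_right (vol_Ann_lt_top _ _).ne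
    have hup : I₂ ≤ 2 * (K * δ) * (C₂ * V') := by
      rw [hI2]
      have := neg_abs_le I₁
      nlinarith [abs_nonneg I₁, neg_abs_le I₁, hI1]
    -- the second integral
    set A : Set (V n) := E ∩ Ann a b ∩ {x | 2 * δ ≤ u x ∧ u x ≤ K * δ} with hA
    have hAm : MeasurableSet A := by
      refine (h.isOpen.measurableSet.inter (measurableSet_Ann' a b)).inter ?_
      exact (measurableSet_le measurable_const h.cont.measurable).inter
        (measurableSet_le h.cont.measurable measurable_const)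
    have hAE : A ⊆ E := fun x hx => hx.1.1
    have hcut := h.kcut_tst (vg_smooth K) (fun s hs => vg_zero hs) hη hδ
    have hint : Integrable (fun x => vg K (u x / δ) * η x * ∑ i, q u i x * q u i x) := by
      refine integrable_mul_of_tsupport h.isOpen hcut.1.smooth.continuous hcut.1.cpt hcut.2 ?_
      refine continuousOn_finsetSum _ fun i _ => ?_
      exact (h.smooth_q i).continuousOn.mul (h.smooth_q i).continuousOn
    have hnn : ∀ x, 0 ≤ vg K (u x / δ) * η x * ∑ i, q u i x * q u i x := by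
      intro x
      refine mul_nonneg (mul_nonneg (vg_nonneg _ _) (hη0 x)) ?_
      exact Finset.sum_nonneg fun i _ => mul_self_nonneg _
    have hlow1 : ∫ x in A, vg K (u x / δ) * η x * ∑ i, q u i x * q u i x ≤ I₂ :=
      setIntegral_mono_set hint.integrableOn (Eventually.of_forall hnn) hAE.eventuallyLE
    have hlow2 : (1 / 2) * volume.real A
        ≤ ∫ x in A, vg K (u x / δ) * η x * ∑ i, q u i x * q u i x := by
      refine setIntegral_ge_of_const_le_real hAm ?_ ?_ hint.integrableOn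
      · exact (lt_of_le_of_lt (measure_mono (fun x hx => hx.1.2)) (vol_Ann_lt_top a b)).ne
      · rintro x ⟨⟨hx, hxa⟩, hx1, hx2⟩
        have e1 : vg K (u x / δ) = 1 :=
          vg_one hKpos (by rw [le_div_iff₀ hδ]; exact hx1) (by rw [div_le_iff₀ hδ]; exact hx2)
        rw [e1, hηa x hxa]
        have hxa' : x ∈ (Ann (a / 2) (b + 1) : Set (V n)) :=
          ⟨by linarith [hxa.1], by linarith [hxa.2]⟩
        have hux : u x < ε₀ := by
          have : K * δ < 2 * K * δ := by nlinarith [mul_pos hKpos hδ]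
          linarith
        have h2 := hlay x hx hxa' hux
        rw [abs_lt] at h2
        have h3 : gg u x = ∑ i, q u i x * q u i x := by
          unfold gg; exact Finset.sum_congr rfl fun i _ => sq _
        rw [← h3]; linarith
    linarith
  -- conclusion
  set V₁ : ℝ := volume.real (Ann a b : Set (V n)) with hV₁
  have hV₁0 : 0 ≤ V₁ := measureReal_nonneg
  refine ⟨4 * (C₂ * V') + 2 * V₁ / ε₀ + 1, by positivity, fun ε hε => ?_⟩
  change volume.real (E ∩ Ann a b ∩ {x | u x < ε}) ≤ _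
  rcases le_or_gt ε (ε₀ / 2) with hε2 | hε2
  · have hB : ∀ m : ℕ, volume (E ∩ Ann a b ∩ {x | 2 * (ε / (m + 1)) ≤ u x ∧ u x ≤ ε})
        ≤ ENNReal.ofReal (4 * ε * (C₂ * V')) := by
      intro m
      have hm : (0 : ℝ) < m + 1 := by positivity
      have := main (ε / (m + 1)) (m + 1) (by positivity) (by linarith [Nat.cast_nonneg (α := ℝ) m])
        (by rw [mul_assoc, mul_div_cancel₀ _ hm.ne']; linarith)
      rw [mul_div_cancel₀ _ hm.ne'] at this
      rw [← ofReal_measureReal (lt_of_le_of_lt (measure_mono (fun x hx => hx.1.2))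
        (vol_Ann_lt_top a b)).ne]
      exact ENNReal.ofReal_le_ofReal this
    have hmono : Monotone fun m : ℕ => E ∩ Ann a b ∩ {x | 2 * (ε / (m + 1)) ≤ u x ∧ u x ≤ ε} := by
      intro m k hmk
      rintro x ⟨hx, hx1, hx2⟩
      refine ⟨hx, ?_, hx2⟩
      refine le_trans ?_ hx1
      have h1 : (m : ℝ) ≤ k := by exact_mod_cast hmk
      have h2 : (0 : ℝ) < m + 1 := by positivity
      have := div_le_div_of_nonneg_left hε.le h2 (by linarith : (m : ℝ) + 1 ≤ k + 1)
      linarith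
    have hlim := tendsto_measure_iUnion_atTop (μ := (volume : Measure (V n))) hmono
    have hle := le_of_tendsto' hlim hB
    have hsub : E ∩ Ann a b ∩ {x | u x < ε}
        ⊆ ⋃ m : ℕ, E ∩ Ann a b ∩ {x | 2 * (ε / (m + 1)) ≤ u x ∧ u x ≤ ε} := by
      rintro x ⟨hx, hx1⟩
      have hup : 0 < u x := h.pos x hx.1
      obtain ⟨m, hm⟩ := exists_nat_gt (2 * ε / u x)
      rw [mem_iUnion]
      refine ⟨m, hx, ?_, le_of_lt hx1⟩
      have h2 : (0 : ℝ) < m + 1 := by positivity
      rw [div_lt_iff₀ hup] at hm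
      rw [← mul_div_assoc, div_le_iff₀ h2]
      nlinarith
    have h3 := (measure_mono hsub).trans hle
    have h4 : volume.real (E ∩ Ann a b ∩ {x | u x < ε}) ≤ 4 * ε * (C₂ * V') := by
      unfold Measure.real
      refine ENNReal.toReal_le_of_le_ofReal (by positivity) h3
    have h5 : 0 ≤ 2 * V₁ / ε₀ := by positivity
    nlinarith
  · have h1 : volume.real (E ∩ Ann a b ∩ {x | u x < ε}) ≤ V₁ :=
      measureReal_mono (fun x hx => hx.1.2) (vol_Ann_lt_top a b).ne
    have h2 : V₁ ≤ 2 * V₁ / ε₀ * ε := by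
      rw [div_mul_eq_mul_div, le_div_iff₀ hε₀]
      nlinarith
    have h3 : 0 ≤ 4 * (C₂ * V') := by positivity
    nlinarith

end OPC
end

section

/-! # B05: integrals over layers -/

open MeasureTheory Set Filter Topology

namespace OPC

variable {n : ℕ} {E : Set (V n)} {u : V n → ℝ}

/-- Consequence: bounded kernels in the layer. `ε⁻¹ ∫_E |κ(u/ε)| |η| |f| ≤ C sup_{layer} |f|`. -/
theorem Sol.layer_int (h : Sol E u) {a b : ℝ} (ha : 0 < a) : ∃ C, 0 < C ∧
    ∀ (f : V n → ℝ) (ε M : ℝ), 0 < ε → 0 ≤ M →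
      (∀ x ∈ E, x ∈ Ann a b → u x ≤ 2 * ε → |f x| ≤ M) →
      (∀ x ∈ E, x ∉ Ann a b ∨ 2 * ε < u x → f x = 0) →
      |ε⁻¹ * ∫ x in E, f x| ≤ C * M := by
  obtain ⟨C, hC, hv⟩ := h.vol_layer (b := b) ha
  refine ⟨3 * C, by positivity, fun f ε M hε hM h1 h2 => ?_⟩
  have hA : ∫ x in E, f x = ∫ x in E ∩ Ann a b ∩ {x | u x < 3 * ε}, f x := by
    refine setIntegral_eq_of_subset_of_forall_sdiff_eq_zero h.isOpen.measurableSet
      (fun x hx => hx.1.1) ?_
    rintro x ⟨hx, hx'⟩
    refine h2 x hx ?_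
    by_contra hc
    push Not at hc
    exact hx' ⟨⟨hx, hc.1⟩, show u x < 3 * ε by linarith [hc.2]⟩
  have hfin : volume (E ∩ Ann a b ∩ {x | u x < 3 * ε}) < ⊤ := by
    refine lt_of_le_of_lt (measure_mono (t := Metric.closedBall (0 : V n) b) ?_)
      measure_closedBall_lt_top
    rintro x ⟨⟨_, hx⟩, _⟩
    rw [Metric.mem_closedBall, dist_zero_right]
    exact hx.2
  have hb : ‖∫ x in E ∩ Ann a b ∩ {x | u x < 3 * ε}, f x‖
      ≤ M * volume.real (E ∩ Ann a b ∩ {x | u x < 3 * ε}) := by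
    refine norm_setIntegral_le_of_norm_le_const hfin ?_
    rintro x ⟨⟨hx, hxa⟩, _⟩
    rw [Real.norm_eq_abs]
    rcases le_or_gt (u x) (2 * ε) with hu | hu
    · exact h1 x hx hxa hu
    · rw [h2 x hx (Or.inr hu), abs_zero]; exact hM
  have hv' : volume.real (E ∩ Ann a b ∩ {x | u x < 3 * ε}) ≤ C * (3 * ε) :=
    hv (3 * ε) (by positivity)
  rw [abs_mul, abs_of_pos (inv_pos.2 hε), hA, ← Real.norm_eq_abs, inv_mul_le_iff₀ hε]
  refine hb.trans ((mul_le_mul_of_nonneg_left hv' hM).trans (le_of_eq (by ring)))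

end OPC
end
end
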