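import Pool.Agent.Lib.MP_9059b8_an.A01
import Pool.Agent.Lib.MP_9059b8_an.A06

section

section

/-! # G01: the transport operator -/

open MeasureTheory Set Filter Topology

namespace OPC

variable {n : ℕ}

/-- For a smooth compactly supported `Ψ` there is `t₀ > 0` such that for `|t| < t₀`,
`1 + t DΨ x` is invertible for all `x`, so `X` is jointly smooth and solves `(1 + t DΨ) X = Ψ`.
Sketch: `‖fderiv Ψ x‖ ≤ L`, `t₀ = 1/(L+1)`; `Units.oneSub`/`isUnit_one_sub_of_norm_lt_one`-type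
lemma, `contDiffAt_ringInverse`. -/
theorem Xf_spec {Ψ : V n → V n} (hΨ : ContDiff ℝ (⊤ : ℕ∞) Ψ) (hc : HasCompactSupport Ψ) :
    ∃ t₀ > 0, ContDiffOn ℝ (⊤ : ℕ∞) (fun p : ℝ × V n => Xf Ψ p.1 p.2) (Ioo (-t₀) t₀ ×ˢ univ) ∧
      (∀ t ∈ Ioo (-t₀) t₀, ∀ x, Xf Ψ t x + t • fderiv ℝ Ψ x (Xf Ψ t x) = Ψ x) ∧
      (∀ t ∈ Ioo (-t₀) t₀, ∀ x, Ψ x = 0 → Xf Ψ t x = 0) := by
  have hfd : ContDiff ℝ (⊤ : ℕ∞) (fderiv ℝ Ψ) := hΨ.fderiv_right (by simp)
  obtain ⟨L, hL⟩ := (hc.fderiv (𝕜 := ℝ)).exists_bound_of_continuous hfd.continuous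
  have hL0 : 0 ≤ L := (norm_nonneg _).trans (hL 0)
  have hpos : 0 < 1 / (L + 1) := by positivity
  have hunit : ∀ t ∈ Ioo (-(1 / (L + 1))) (1 / (L + 1)), ∀ x,
      IsUnit (1 + t • fderiv ℝ Ψ x : V n →L[ℝ] V n) := by
    intro t ht x
    have habs : |t| < 1 / (L + 1) := abs_lt.mpr ht
    have h1 : ‖-(t • fderiv ℝ Ψ x)‖ < 1 := by
      rw [norm_neg, norm_smul, Real.norm_eq_abs]
      calc |t| * ‖fderiv ℝ Ψ x‖ ≤ |t| * L := by gcongr; exact hL x
        _ ≤ 1 / (L + 1) * L := by gcongr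
        _ < 1 := by
          rw [div_mul_eq_mul_div, one_mul, div_lt_one (by positivity)]; linarith
    have := isUnit_one_sub_of_norm_lt_one h1
    rwa [sub_neg_eq_add] at this
  refine ⟨1 / (L + 1), hpos, ?_, ?_, ?_⟩
  · intro p hp
    have hp1 : p.1 ∈ Ioo (-(1 / (L + 1))) (1 / (L + 1)) := hp.1
    obtain ⟨U, hU⟩ := hunit p.1 hp1 p.2
    have hA : ContDiff ℝ (⊤ : ℕ∞)
        (fun p : ℝ × V n => (1 + p.1 • fderiv ℝ Ψ p.2 : V n →L[ℝ] V n)) :=
      contDiff_const.add (contDiff_fst.smul (hfd.comp contDiff_snd))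
    have hinv : ContDiffAt ℝ (⊤ : ℕ∞)
        (fun p : ℝ × V n => Ring.inverse (1 + p.1 • fderiv ℝ Ψ p.2 : V n →L[ℝ] V n)) p := by
      have h := contDiffAt_ringInverse ℝ (n := ((⊤ : ℕ∞) : WithTop ℕ∞)) U
      rw [hU] at h
      exact ContDiffAt.comp p h hA.contDiffAt
    have hΨp : ContDiffAt ℝ (⊤ : ℕ∞) (fun p : ℝ × V n => Ψ p.2) p :=
      (hΨ.comp contDiff_snd).contDiffAt
    exact (hinv.clm_apply hΨp).contDiffWithinAt
  · intro t ht x
    have h := Ring.mul_inverse_cancel _ (hunit t ht x)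
    have h2 := congrArg (fun A : V n →L[ℝ] V n => A (Ψ x)) h
    simpa [Xf, ContinuousLinearMap.mul_apply, ContinuousLinearMap.add_apply] using h2
  · intro t _ x hx
    simp [Xf, hx]

/-- derivative in `t` of a jointly smooth function -/
private theorem deriv_fst_eq {F : ℝ × V n → ℝ} {p : ℝ × V n} (hF : DifferentiableAt ℝ F p) :
    deriv (fun s => F (s, p.2)) p.1 = fderiv ℝ F p (1, 0) := by
  have h1 : HasFDerivAt (fun s : ℝ => (s, p.2)) (ContinuousLinearMap.inl ℝ ℝ (V n)) p.1 :=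
    hasFDerivAt_prodMk_left p.1 p.2
  have h2 : HasFDerivAt F (fderiv ℝ F p) ((fun s : ℝ => (s, p.2)) p.1) := hF.hasFDerivAt
  have h3 := (h2.comp p.1 h1).hasDerivAt
  have h4 := h3.deriv
  simpa [Function.comp_def] using h4

private theorem pd_snd_eq {F : ℝ × V n → ℝ} {p : ℝ × V n} (hF : DifferentiableAt ℝ F p)
    (i : Fin n) : pd i (fun y => F (p.1, y)) p.2 = fderiv ℝ F p (0, e i) := by
  have h1 : HasFDerivAt (fun y : V n => (p.1, y)) (ContinuousLinearMap.inr ℝ ℝ (V n)) p.2 :=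
    hasFDerivAt_prodMk_right p.1 p.2
  have h2 : HasFDerivAt F (fderiv ℝ F p) ((fun y : V n => (p.1, y)) p.2) := hF.hasFDerivAt
  have h3 := (h2.comp p.2 h1).fderiv
  have h4 := congrArg (fun A : V n →L[ℝ] ℝ => A (e i)) h3
  simpa [pd, Function.comp_def] using h4

/-- `L` preserves joint smoothness on `(-t₀, t₀) × ℝ^n`. -/
theorem Lop_smooth {Ψ : V n → V n} {t₀ : ℝ}
    (hX : ContDiffOn ℝ (⊤ : ℕ∞) (fun p : ℝ × V n => Xf Ψ p.1 p.2) (Ioo (-t₀) t₀ ×ˢ univ))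
    {k : ℝ → V n → ℝ}
    (hk : ContDiffOn ℝ (⊤ : ℕ∞) (fun p : ℝ × V n => k p.1 p.2) (Ioo (-t₀) t₀ ×ˢ univ)) :
    ContDiffOn ℝ (⊤ : ℕ∞) (fun p : ℝ × V n => Lop Ψ k p.1 p.2) (Ioo (-t₀) t₀ ×ˢ univ) := by
  have hO : IsOpen (Ioo (-t₀) t₀ ×ˢ (univ : Set (V n))) := isOpen_Ioo.prod isOpen_univ
  have hkd : ContDiffOn ℝ (⊤ : ℕ∞)
      (fderiv ℝ (fun p : ℝ × V n => k p.1 p.2)) (Ioo (-t₀) t₀ ×ˢ univ) :=
    hk.fderiv_of_isOpen hO (by simp)
  have hXi : ∀ i : Fin n, ContDiffOn ℝ (⊤ : ℕ∞)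
      (fun p : ℝ × V n => k p.1 p.2 * Xf Ψ p.1 p.2 i) (Ioo (-t₀) t₀ ×ˢ univ) := by
    intro i
    refine hk.mul ?_
    exact (EuclideanSpace.proj (𝕜 := ℝ) i).contDiff.comp_contDiffOn hX
  have hXd : ∀ i : Fin n, ContDiffOn ℝ (⊤ : ℕ∞)
      (fderiv ℝ (fun p : ℝ × V n => k p.1 p.2 * Xf Ψ p.1 p.2 i)) (Ioo (-t₀) t₀ ×ˢ univ) :=
    fun i => (hXi i).fderiv_of_isOpen hO (by simp)
  have hmain : ContDiffOn ℝ (⊤ : ℕ∞) (fun p : ℝ × V n =>
      fderiv ℝ (fun p : ℝ × V n => k p.1 p.2) p (1, 0)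
        - ∑ i, fderiv ℝ (fun p : ℝ × V n => k p.1 p.2 * Xf Ψ p.1 p.2 i) p (0, e i))
      (Ioo (-t₀) t₀ ×ˢ univ) := by
    refine (hkd.clm_apply contDiffOn_const).sub ?_
    exact ContDiffOn.sum fun i _ => (hXd i).clm_apply contDiffOn_const
  refine hmain.congr fun p hp => ?_
  have hne : ((⊤ : ℕ∞) : WithTop ℕ∞) ≠ 0 := by simp
  have hd1 : DifferentiableAt ℝ (fun p : ℝ × V n => k p.1 p.2) p :=
    (hk.contDiffAt (hO.mem_nhds hp)).differentiableAt hne
  have hd2 : ∀ i : Fin n, DifferentiableAt ℝ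
      (fun p : ℝ × V n => k p.1 p.2 * Xf Ψ p.1 p.2 i) p :=
    fun i => ((hXi i).contDiffAt (hO.mem_nhds hp)).differentiableAt hne
  have e1 := deriv_fst_eq hd1
  have e2 := fun i => pd_snd_eq (hd2 i) i
  simp only [Lop]
  rw [← e1]
  congr 1
  exact Finset.sum_congr rfl fun i _ => e2 i

end OPC
end

section

/-! # G02: transport identity for C1 functions -/

open MeasureTheory Set Filter Topology

namespace OPC

variable {n : ℕ}

/-- Step 1: integrated form, for `C¹` functions `h`.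
Sketch: differentiate under the integral (everything is `C¹`, the domain is bounded); pointwise
`d/dt [h(x + tΨ) k] = ∑ pd i (h(· + tΨ) k X_i) + h(x + tΨ) (L k)` (chain rule and
`(1 + t DΨ) X = Ψ`), and `h(· + tΨ) k X` is `C¹` with compact support in the ball
(`X = 0` off `tsupport Ψ`), so the first term integrates to `0` (`integral_pd_eq_zero`). -/
theorem transport_C1 {Ψ : V n → V n} (hΨ : ContDiff ℝ (⊤ : ℕ∞) Ψ)
    (hb : tsupport Ψ ⊆ Metric.ball 0 1) {t₀ : ℝ}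
    (hX : ContDiffOn ℝ (⊤ : ℕ∞) (fun p : ℝ × V n => Xf Ψ p.1 p.2) (Ioo (-t₀) t₀ ×ˢ univ))
    (hX2 : ∀ t ∈ Ioo (-t₀) t₀, ∀ x, Xf Ψ t x + t • fderiv ℝ Ψ x (Xf Ψ t x) = Ψ x)
    (hX3 : ∀ t ∈ Ioo (-t₀) t₀, ∀ x, Ψ x = 0 → Xf Ψ t x = 0)
    {k : ℝ → V n → ℝ}
    (hk : ContDiffOn ℝ (⊤ : ℕ∞) (fun p : ℝ × V n => k p.1 p.2) (Ioo (-t₀) t₀ ×ˢ univ))
    {h : V n → ℝ} (hh : ContDiff ℝ 1 h) {t : ℝ} (ht : t ∈ Ioo (-t₀) t₀) :
    HasDerivAt (fun t => ∫ x in Metric.ball (0 : V n) 1, h (x + t • Ψ x) * k t x)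
      (∫ x in Metric.ball (0 : V n) 1, h (x + t • Ψ x) * Lop Ψ k t x) t := by
  have hO : IsOpen (Ioo (-t₀) t₀ ×ˢ (univ : Set (V n))) := isOpen_Ioo.prod isOpen_univ
  have hne : ((⊤ : ℕ∞) : WithTop ℕ∞) ≠ 0 := by simp
  obtain ⟨a, b, hat, htb, hab⟩ : ∃ a b : ℝ, a < t ∧ t < b ∧ Icc a b ⊆ Ioo (-t₀) t₀ := by
    refine ⟨(-t₀ + t) / 2, (t + t₀) / 2, by linarith [ht.1], by linarith [ht.2], ?_⟩
    intro x hx
    exact ⟨by linarith [hx.1, ht.1], by linarith [hx.2, ht.2]⟩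
  have hΨd : ∀ x, DifferentiableAt ℝ Ψ x := fun x => hΨ.differentiable hne x
  have hhd : ∀ x, DifferentiableAt ℝ h x := fun x => hh.differentiable (by simp) x
  have hkd : ContinuousOn (fderiv ℝ (fun p : ℝ × V n => k p.1 p.2)) (Ioo (-t₀) t₀ ×ˢ univ) :=
    (hk.fderiv_of_isOpen hO (m := 0) (by simp)).continuousOn
  have hφc : Continuous fun p : ℝ × V n => p.2 + p.1 • Ψ p.2 :=
    continuous_snd.add (continuous_fst.smul (hΨ.continuous.comp continuous_snd))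
  obtain ⟨Fd, hFd⟩ : ∃ Fd : ℝ → V n → ℝ, Fd = fun s x =>
      fderiv ℝ h (x + s • Ψ x) (Ψ x) * k s x
        + h (x + s • Ψ x) * fderiv ℝ (fun p : ℝ × V n => k p.1 p.2) (s, x) (1, 0) := ⟨_, rfl⟩
  have hFdc : ContinuousOn (fun p : ℝ × V n => Fd p.1 p.2) (Ioo (-t₀) t₀ ×ˢ univ) := by
    rw [hFd]
    refine ContinuousOn.add (ContinuousOn.mul ?_ hk.continuousOn) (ContinuousOn.mul ?_ ?_)
    · have h1 : Continuous fun p : ℝ × V n => fderiv ℝ h (p.2 + p.1 • Ψ p.2) :=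
        (hh.continuous_fderiv (by simp)).comp hφc
      exact (h1.clm_apply (hΨ.continuous.comp continuous_snd)).continuousOn
    · exact (hh.continuous.comp hφc).continuousOn
    · exact hkd.clm_apply continuousOn_const
  have hder : ∀ s ∈ Ioo (-t₀) t₀, ∀ x : V n,
      HasDerivAt (fun s => h (x + s • Ψ x) * k s x) (Fd s x) s := by
    intro s hs x
    have hp : ((s, x) : ℝ × V n) ∈ Ioo (-t₀) t₀ ×ˢ (univ : Set (V n)) := ⟨hs, mem_univ _⟩
    have h1 : HasDerivAt (fun s : ℝ => x + s • Ψ x) (Ψ x) s := by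
      simpa using ((hasDerivAt_id s).smul_const (Ψ x)).const_add x
    have h2 : HasDerivAt (fun s => h (x + s • Ψ x)) (fderiv ℝ h (x + s • Ψ x) (Ψ x)) s :=
      (hhd (x + s • Ψ x)).hasFDerivAt.comp_hasDerivAt s h1
    have hkp : DifferentiableAt ℝ (fun p : ℝ × V n => k p.1 p.2) (s, x) :=
      (hk.contDiffAt (hO.mem_nhds hp)).differentiableAt hne
    have h3 : HasDerivAt (fun s => k s x)
        (fderiv ℝ (fun p : ℝ × V n => k p.1 p.2) (s, x) (1, 0)) s := by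
      have e1 : HasDerivAt (fun s : ℝ => (s, x)) ((1 : ℝ), (0 : V n)) s :=
        (hasDerivAt_id s).prodMk (hasDerivAt_const s x)
      exact hkp.hasFDerivAt.comp_hasDerivAt s e1
    rw [hFd]
    exact h2.mul h3
  -- bound
  have hcomp : IsCompact (Icc a b ×ˢ Metric.closedBall (0 : V n) 1) :=
    isCompact_Icc.prod (isCompact_closedBall _ _)
  obtain ⟨B, hB⟩ := hcomp.exists_bound_of_continuousOn
    (hFdc.mono (prod_mono hab (subset_univ _)))
  have hfin : IsFiniteMeasure ((volume : Measure (V n)).restrict (Metric.ball 0 1)) :=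
    ⟨by rw [Measure.restrict_apply_univ]; exact measure_ball_lt_top⟩
  have hslice : ∀ {κ : ℝ → V n → ℝ},
      ContinuousOn (fun p : ℝ × V n => κ p.1 p.2) (Ioo (-t₀) t₀ ×ˢ univ) →
      ∀ s ∈ Ioo (-t₀) t₀, Continuous (κ s) := by
    intro κ hκ s hs
    have h2 : Continuous (fun x : V n => (s, x)) := by fun_prop
    have h3 : ContinuousOn ((fun p : ℝ × V n => κ p.1 p.2) ∘ fun x : V n => (s, x)) univ :=
      hκ.comp h2.continuousOn fun x _ => ⟨hs, mem_univ _⟩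
    exact continuousOn_univ.1 h3
  have hFc : ∀ s ∈ Ioo (-t₀) t₀, Continuous fun x => h (x + s • Ψ x) * k s x := by
    intro s hs
    have h1 : Continuous fun x : V n => x + s • Ψ x :=
      continuous_id.add (hΨ.continuous.const_smul s)
    exact (hh.continuous.comp h1).mul (hslice hk.continuousOn s hs)
  have hint : ∀ {f : V n → ℝ}, Continuous f →
      Integrable f ((volume : Measure (V n)).restrict (Metric.ball 0 1)) := by
    intro f hf
    have h1 : IntegrableOn f (Metric.closedBall (0 : V n) 1) volume :=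
      hf.continuousOn.integrableOn_compact (isCompact_closedBall _ _)
    exact h1.mono_set Metric.ball_subset_closedBall
  have hmain := hasDerivAt_integral_of_dominated_loc_of_deriv_le
    (μ := (volume : Measure (V n)).restrict (Metric.ball 0 1))
    (F := fun s x => h (x + s • Ψ x) * k s x) (F' := Fd) (x₀ := t) (s := Icc a b)
    (bound := fun _ => B) (Icc_mem_nhds hat htb)
    (by
      filter_upwards [isOpen_Ioo.mem_nhds ht] with s hs
      exact (hFc s hs).aestronglyMeasurable)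
    (hint (hFc t ht)) (hslice hFdc t ht).aestronglyMeasurable
    (by
      filter_upwards [ae_restrict_mem measurableSet_ball] with x hx s hs
      exact hB (s, x) ⟨hs, Metric.ball_subset_closedBall hx⟩)
    (integrable_const B)
    (Eventually.of_forall fun x s hs => hder s (hab hs) x)
  -- divergence terms
  obtain ⟨G, hG⟩ : ∃ G : Fin n → V n → ℝ, G = fun i y =>
      h (y + t • Ψ y) * (k t y * Xf Ψ t y i) := ⟨_, rfl⟩
  have hsl : ContDiff ℝ (⊤ : ℕ∞) (fun y : V n => ((t, y) : ℝ × V n)) :=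
    contDiff_const.prodMk contDiff_id
  have hkt : ContDiff ℝ (⊤ : ℕ∞) (k t) := by
    have := hk.comp hsl.contDiffOn (s := univ) fun x _ => ⟨ht, mem_univ _⟩
    exact contDiffOn_univ.1 this
  have hXt : ContDiff ℝ (⊤ : ℕ∞) (Xf Ψ t) := by
    have := hX.comp hsl.contDiffOn (s := univ) fun x _ => ⟨ht, mem_univ _⟩
    exact contDiffOn_univ.1 this
  have hXi : ∀ i : Fin n, ContDiff ℝ (⊤ : ℕ∞) fun y => Xf Ψ t y i := fun i =>
    (EuclideanSpace.proj (𝕜 := ℝ) i).contDiff.comp hXt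
  have hφ : ContDiff ℝ (⊤ : ℕ∞) fun y : V n => y + t • Ψ y :=
    contDiff_id.add (hΨ.const_smul t)
  have hhφ : ContDiff ℝ 1 fun y : V n => h (y + t • Ψ y) :=
    hh.comp (hφ.of_le (by simp))
  have hkX : ∀ i : Fin n, ContDiff ℝ (⊤ : ℕ∞) fun y => k t y * Xf Ψ t y i := fun i =>
    hkt.mul (hXi i)
  have hG1 : ∀ i, ContDiff ℝ 1 (G i) := by
    intro i
    rw [hG]
    exact hhφ.mul ((hkX i).of_le (by simp))
  have hsupp : ∀ i, tsupport (G i) ⊆ tsupport Ψ := by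
    intro i
    refine closure_mono ?_
    intro x hx
    rw [Function.mem_support] at hx ⊢
    intro h0
    apply hx
    rw [hG]
    simp [hX3 t ht x h0]
  have hcΨ : IsCompact (tsupport Ψ) :=
    (isCompact_closedBall (0 : V n) 1).of_isClosed_subset (isClosed_tsupport _)
      (hb.trans Metric.ball_subset_closedBall)
  have hGc : ∀ i, HasCompactSupport (G i) := fun i =>
    hcΨ.of_isClosed_subset (isClosed_tsupport _) (hsupp i)
  have hGi : ∀ i, ∫ x in Metric.ball (0 : V n) 1, pd i (G i) x = 0 := by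
    intro i
    rw [← integral_pd_eq_zero (hG1 i) (hGc i) i]
    refine setIntegral_eq_integral_of_forall_compl_eq_zero fun x hx => ?_
    have h1 : tsupport (pd i (G i)) ⊆ tsupport (G i) := tsupport_fderiv_apply_subset ℝ (e i)
    exact image_eq_zero_of_notMem_tsupport fun hh => hx (hb (hsupp i (h1 hh)))
  have hGd : ∀ i, Continuous (pd i (G i)) := fun i =>
    (contDiff_pd (m := 0) (hG1 i) (by simp) i).continuous
  have hpt : ∀ x, h (x + t • Ψ x) * Lop Ψ k t x = Fd t x - ∑ i, pd i (G i) x := by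
    intro x
    have hp : ((t, x) : ℝ × V n) ∈ Ioo (-t₀) t₀ ×ˢ (univ : Set (V n)) := ⟨ht, mem_univ _⟩
    have hkp : DifferentiableAt ℝ (fun p : ℝ × V n => k p.1 p.2) (t, x) :=
      (hk.contDiffAt (hO.mem_nhds hp)).differentiableAt hne
    have h3 : deriv (fun s => k s x) t =
        fderiv ℝ (fun p : ℝ × V n => k p.1 p.2) (t, x) (1, 0) := by
      have e1 : HasDerivAt (fun s : ℝ => (s, x)) ((1 : ℝ), (0 : V n)) t :=
        (hasDerivAt_id t).prodMk (hasDerivAt_const t x)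
      exact (hkp.hasFDerivAt.comp_hasDerivAt t e1).deriv
    have h4 : ∀ i, pd i (G i) x = pd i (fun y => h (y + t • Ψ y)) x * (k t x * Xf Ψ t x i)
        + h (x + t • Ψ x) * pd i (fun y => k t y * Xf Ψ t y i) x := by
      intro i
      rw [hG]
      exact pd_mul (hhφ.differentiable (by simp) x) ((hkX i).differentiable hne x) i
    have h5 : ∑ i, pd i (fun y => h (y + t • Ψ y)) x * (k t x * Xf Ψ t x i) =
        k t x * fderiv ℝ h (x + t • Ψ x) (Ψ x) := by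
      have e1 : ∑ i, pd i (fun y => h (y + t • Ψ y)) x * (k t x * Xf Ψ t x i) =
          k t x * ∑ i, Xf Ψ t x i * pd i (fun y => h (y + t • Ψ y)) x := by
        rw [Finset.mul_sum]
        exact Finset.sum_congr rfl fun i _ => by ring
      rw [e1, ← fderiv_apply_eq_sum]
      congr 1
      have e2 : HasFDerivAt (fun y : V n => y + t • Ψ y)
          (ContinuousLinearMap.id ℝ (V n) + t • fderiv ℝ Ψ x) x :=
        (hasFDerivAt_id x).add ((hΨd x).hasFDerivAt.const_smul t)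
      have e3 : fderiv ℝ (fun y => h (y + t • Ψ y)) x =
          (fderiv ℝ h (x + t • Ψ x)).comp
            (ContinuousLinearMap.id ℝ (V n) + t • fderiv ℝ Ψ x) :=
        ((hhd (x + t • Ψ x)).hasFDerivAt.comp x e2).fderiv
      have e4 : (ContinuousLinearMap.id ℝ (V n) + t • fderiv ℝ Ψ x) (Xf Ψ t x) = Ψ x := by
        rw [← hX2 t ht x]
        rfl
      rw [e3, ContinuousLinearMap.comp_apply, e4]
    have h6 : ∑ i, pd i (G i) x = k t x * fderiv ℝ h (x + t • Ψ x) (Ψ x)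
        + h (x + t • Ψ x) * ∑ i, pd i (fun y => k t y * Xf Ψ t y i) x := by
      simp_rw [h4]
      rw [Finset.sum_add_distrib, h5, ← Finset.mul_sum]
    rw [h6, hFd]
    simp only [Lop]
    rw [h3]
    ring
  have hfinal : ∫ x in Metric.ball (0 : V n) 1, h (x + t • Ψ x) * Lop Ψ k t x =
      ∫ x in Metric.ball (0 : V n) 1, Fd t x := by
    simp_rw [hpt]
    have hs : Integrable (fun x => ∑ i, pd i (G i) x)
        ((volume : Measure (V n)).restrict (Metric.ball 0 1)) :=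
      hint (continuous_finsetSum _ fun i _ => hGd i)
    rw [integral_sub hmain.1 hs, integral_finsetSum _ fun i _ => hint (hGd i)]
    simp [hGi]
  rw [hfinal]
  exact hmain.2

end OPC
end

section

/-! # G03: transport identity for bounded limits -/

open MeasureTheory Set Filter Topology

namespace OPC

variable {n : ℕ}

/-- If `F_m → F`, `F_m' → D` pointwise and `F_m''` is bounded, uniformly in `m`, near `t`,
then `F' t = D t`. -/
private theorem g03_limit {F D E' : ℕ → ℝ → ℝ} {F0 D0 : ℝ → ℝ} {a b t C : ℝ}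
    (hat : a < t) (htb : t < b)
    (h1 : ∀ m, ∀ s ∈ Ioo a b, HasDerivAt (F m) (D m s) s)
    (h2 : ∀ m, ∀ s ∈ Ioo a b, HasDerivAt (D m) (E' m s) s)
    (hC : ∀ m, ∀ s ∈ Ioo a b, |E' m s| ≤ C)
    (hF : ∀ s ∈ Ioo a b, Tendsto (fun m => F m s) atTop (𝓝 (F0 s)))
    (hD : ∀ s ∈ Ioo a b, Tendsto (fun m => D m s) atTop (𝓝 (D0 s))) :
    HasDerivAt F0 (D0 t) t := by
  have htt : t ∈ Ioo a b := ⟨hat, htb⟩
  have hC0 : 0 ≤ C := (abs_nonneg _).trans (hC 0 t htt)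
  have hlip : ∀ m, ∀ s ∈ Ioo a b, |D m s - D m t| ≤ C * |s - t| := by
    intro m s hs
    have := (convex_Ioo a b).norm_image_sub_le_of_norm_hasDerivWithin_le
      (f := D m) (f' := E' m) (C := C) (fun x hx => (h2 m x hx).hasDerivWithinAt)
      (fun x hx => by rw [Real.norm_eq_abs]; exact hC m x hx) htt hs
    simpa [Real.norm_eq_abs] using this
  have hquad : ∀ m, ∀ s ∈ Ioo a b, |F m s - F m t - D m t * (s - t)| ≤ C * |s - t| * |s - t| := by
    intro m s hs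
    -- work on the interval `uIcc t s`
    have hsub : uIcc t s ⊆ Ioo a b := by
      intro x hx
      rw [mem_uIcc] at hx
      rcases hx with hx | hx
      · exact ⟨hat.trans_le hx.1, hx.2.trans_lt hs.2⟩
      · exact ⟨hs.1.trans_le hx.1, hx.2.trans_lt htb⟩
    have hg : ∀ x ∈ uIcc t s, HasDerivWithinAt (fun y => F m y - D m t * y) (D m x - D m t)
        (uIcc t s) x := by
      intro x hx
      have e1 := (h1 m x (hsub hx)).sub ((hasDerivAt_id x).const_mul (D m t))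
      simp only [id_eq, mul_one] at e1
      exact e1.hasDerivWithinAt
    have hb : ∀ x ∈ uIcc t s, ‖D m x - D m t‖ ≤ C * |s - t| := by
      intro x hx
      rw [Real.norm_eq_abs]
      refine (hlip m x (hsub hx)).trans ?_
      have : |x - t| ≤ |s - t| := by
        rw [mem_uIcc] at hx
        rcases hx with hx | hx
        · rw [abs_of_nonneg (by linarith [hx.1]), abs_of_nonneg (by linarith [hx.1, hx.2])]
          linarith [hx.2]
        · rw [abs_of_nonpos (by linarith [hx.2]), abs_of_nonpos (by linarith [hx.1, hx.2])]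
          linarith [hx.1]
      exact mul_le_mul_of_nonneg_left this hC0
    have := (convex_uIcc t s).norm_image_sub_le_of_norm_hasDerivWithin_le hg hb
      left_mem_uIcc right_mem_uIcc
    simp only [Real.norm_eq_abs] at this
    have e2 : F m s - F m t - D m t * (s - t) = F m s - D m t * s - (F m t - D m t * t) := by ring
    rw [e2]
    exact this
  have hlim : ∀ s ∈ Ioo a b, |F0 s - F0 t - D0 t * (s - t)| ≤ C * |s - t| * |s - t| := by
    intro s hs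
    have e1 : Tendsto (fun m => |F m s - F m t - D m t * (s - t)|) atTop
        (𝓝 |F0 s - F0 t - D0 t * (s - t)|) :=
      (((hF s hs).sub (hF t htt)).sub ((hD t htt).mul_const _)).abs
    exact le_of_tendsto' e1 fun m => hquad m s hs
  rw [hasDerivAt_iff_isLittleO, Asymptotics.isLittleO_iff]
  intro c hc
  have hev : ∀ᶠ s in 𝓝 t, C * |s - t| ≤ c := by
    have hcont : Continuous fun s : ℝ => C * |s - t| := by fun_prop
    have := hcont.tendsto t
    simp only [sub_self, abs_zero, mul_zero] at this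
    exact (this.eventually (gt_mem_nhds hc)).mono fun s hs => hs.le
  filter_upwards [hev, isOpen_Ioo.mem_nhds htt] with s hs1 hs2
  have e1 := hlim s hs2
  rw [Real.norm_eq_abs, Real.norm_eq_abs, smul_eq_mul]
  have e2 : F0 s - F0 t - (s - t) * D0 t = F0 s - F0 t - D0 t * (s - t) := by ring
  rw [e2]
  exact e1.trans (mul_le_mul_of_nonneg_right hs1 (abs_nonneg _))

/-- Step 2: for bounded pointwise limits of `C¹` functions.
Sketch: with `K_k t = ∫_{ball} h(x + tΨ) k(t,x)`: by `transport_C1`, the fundamental theorem of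
calculus and dominated convergence `K_k t - K_k s = ∫_s^t K_{Lk}` for every smooth `k`; as `K_{L(Lk)}`
is locally bounded, `K_{Lk}` is locally Lipschitz, hence continuous, so `K_k' = K_{Lk}`. -/
theorem transport {Ψ : V n → V n} (hΨ : ContDiff ℝ (⊤ : ℕ∞) Ψ)
    (hb : tsupport Ψ ⊆ Metric.ball 0 1) {t₀ : ℝ}
    (hX : ContDiffOn ℝ (⊤ : ℕ∞) (fun p : ℝ × V n => Xf Ψ p.1 p.2) (Ioo (-t₀) t₀ ×ˢ univ))
    (hX2 : ∀ t ∈ Ioo (-t₀) t₀, ∀ x, Xf Ψ t x + t • fderiv ℝ Ψ x (Xf Ψ t x) = Ψ x)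
    (hX3 : ∀ t ∈ Ioo (-t₀) t₀, ∀ x, Ψ x = 0 → Xf Ψ t x = 0)
    {k : ℝ → V n → ℝ}
    (hk : ContDiffOn ℝ (⊤ : ℕ∞) (fun p : ℝ × V n => k p.1 p.2) (Ioo (-t₀) t₀ ×ˢ univ))
    {h : V n → ℝ} (hh : Appr h) {t : ℝ} (ht : t ∈ Ioo (-t₀) t₀) :
    HasDerivAt (fun t => ∫ x in Metric.ball (0 : V n) 1, h (x + t • Ψ x) * k t x)
      (∫ x in Metric.ball (0 : V n) 1, h (x + t • Ψ x) * Lop Ψ k t x) t := by
  obtain ⟨M, hm, hm1, hmM, hml⟩ := hh
  have hk1 := Lop_smooth hX hk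
  have hk2 := Lop_smooth hX hk1
  have hM0 : 0 ≤ M := (abs_nonneg _).trans (hmM 0 0)
  -- slices are continuous
  have hslice : ∀ {κ : ℝ → V n → ℝ},
      ContDiffOn ℝ (⊤ : ℕ∞) (fun p : ℝ × V n => κ p.1 p.2) (Ioo (-t₀) t₀ ×ˢ univ) →
      ∀ s ∈ Ioo (-t₀) t₀, Continuous (κ s) := by
    intro κ hκ s hs
    have h1 : ContinuousOn (fun p : ℝ × V n => κ p.1 p.2) (Ioo (-t₀) t₀ ×ˢ univ) := hκ.continuousOn
    have h2 : Continuous (fun x : V n => (s, x)) := by fun_prop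
    have h3 : ContinuousOn ((fun p : ℝ × V n => κ p.1 p.2) ∘ fun x : V n => (s, x)) univ :=
      h1.comp h2.continuousOn fun x _ => ⟨hs, mem_univ _⟩
    exact continuousOn_univ.1 h3
  have hfin : (volume : Measure (V n)) (Metric.ball 0 1) < ⊤ := measure_ball_lt_top
  -- pointwise convergence
  have hconv : ∀ {κ : ℝ → V n → ℝ},
      ContDiffOn ℝ (⊤ : ℕ∞) (fun p : ℝ × V n => κ p.1 p.2) (Ioo (-t₀) t₀ ×ˢ univ) →
      ∀ s ∈ Ioo (-t₀) t₀, Tendsto
        (fun m => ∫ x in Metric.ball (0 : V n) 1, hm m (x + s • Ψ x) * κ s x) atTop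
        (𝓝 (∫ x in Metric.ball (0 : V n) 1, h (x + s • Ψ x) * κ s x)) := by
    intro κ hκ s hs
    have hc := hslice hκ s hs
    obtain ⟨B, hB⟩ := (isCompact_closedBall (0 : V n) 1).exists_bound_of_continuousOn
      hc.continuousOn
    have hshift : Continuous fun x : V n => x + s • Ψ x :=
      continuous_id.add (hΨ.continuous.const_smul s)
    refine tendsto_integral_of_dominated_convergence (fun _ => M * B) ?_ ?_ ?_ ?_
    · intro m
      exact (((hm1 m).continuous.comp hshift).mul hc).aestronglyMeasurable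
    · have : IsFiniteMeasure ((volume : Measure (V n)).restrict (Metric.ball 0 1)) :=
        ⟨by rw [Measure.restrict_apply_univ]; exact hfin⟩
      exact integrable_const _
    · intro m
      filter_upwards [ae_restrict_mem measurableSet_ball] with x hx
      rw [norm_mul]
      have e1 : ‖hm m (x + s • Ψ x)‖ ≤ M := by rw [Real.norm_eq_abs]; exact hmM m _
      have e2 : ‖κ s x‖ ≤ B := hB x (Metric.ball_subset_closedBall hx)
      exact mul_le_mul e1 e2 (norm_nonneg _) hM0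
    · exact Eventually.of_forall fun x => (hml _).mul_const _
  -- a compact interval around `t`
  obtain ⟨a, b, hat, htb, hab⟩ : ∃ a b : ℝ, a < t ∧ t < b ∧ Icc a b ⊆ Ioo (-t₀) t₀ := by
    refine ⟨(-t₀ + t) / 2, (t + t₀) / 2, by linarith [ht.1], by linarith [ht.2], ?_⟩
    intro x hx
    exact ⟨by linarith [hx.1, ht.1], by linarith [hx.2, ht.2]⟩
  have hcomp : IsCompact (Icc a b ×ˢ Metric.closedBall (0 : V n) 1) :=
    isCompact_Icc.prod (isCompact_closedBall _ _)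
  obtain ⟨B, hB⟩ := hcomp.exists_bound_of_continuousOn
    (hk2.continuousOn.mono (prod_mono hab (subset_univ _)))
  refine g03_limit (F := fun m s => ∫ x in Metric.ball (0 : V n) 1, hm m (x + s • Ψ x) * k s x)
    (D := fun m s => ∫ x in Metric.ball (0 : V n) 1, hm m (x + s • Ψ x) * Lop Ψ k s x)
    (E' := fun m s => ∫ x in Metric.ball (0 : V n) 1,
      hm m (x + s • Ψ x) * Lop Ψ (Lop Ψ k) s x)
    (F0 := fun s => ∫ x in Metric.ball (0 : V n) 1, h (x + s • Ψ x) * k s x)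
    (D0 := fun s => ∫ x in Metric.ball (0 : V n) 1, h (x + s • Ψ x) * Lop Ψ k s x)
    (a := a) (b := b) (t := t)
    (C := M * B * (volume : Measure (V n)).real (Metric.ball 0 1)) hat htb ?_ ?_ ?_ ?_ ?_
  · intro m s hs
    exact transport_C1 hΨ hb hX hX2 hX3 hk (hm1 m) (hab (Ioo_subset_Icc_self hs))
  · intro m s hs
    exact transport_C1 hΨ hb hX hX2 hX3 hk1 (hm1 m) (hab (Ioo_subset_Icc_self hs))
  · intro m s hs
    rw [← Real.norm_eq_abs]
    refine norm_setIntegral_le_of_norm_le_const hfin fun x hx => ?_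
    rw [norm_mul]
    have e1 : ‖hm m (x + s • Ψ x)‖ ≤ M := by rw [Real.norm_eq_abs]; exact hmM m _
    have e2 : ‖Lop Ψ (Lop Ψ k) s x‖ ≤ B :=
      hB (s, x) ⟨Ioo_subset_Icc_self hs, Metric.ball_subset_closedBall hx⟩
    exact mul_le_mul e1 e2 (norm_nonneg _) hM0
  · intro s hs
    exact hconv hk s (hab (Ioo_subset_Icc_self hs))
  · intro s hs
    exact hconv hk1 s (hab (Ioo_subset_Icc_self hs))

end OPC
end

section

/-! # G04: L(L k) at t = 0 -/

open MeasureTheory Set Filter Topology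

namespace OPC

variable {n : ℕ}

private theorem g04_deriv_fst {F : ℝ × V n → ℝ} {p : ℝ × V n} (hF : DifferentiableAt ℝ F p) :
    deriv (fun s => F (s, p.2)) p.1 = fderiv ℝ F p (1, 0) := by
  have h1 : HasFDerivAt (fun s : ℝ => (s, p.2)) (ContinuousLinearMap.inl ℝ ℝ (V n)) p.1 :=
    hasFDerivAt_prodMk_left p.1 p.2
  have h2 : HasFDerivAt F (fderiv ℝ F p) ((fun s : ℝ => (s, p.2)) p.1) := hF.hasFDerivAt
  have h3 := (h2.comp p.1 h1).hasDerivAt
  have h4 := h3.deriv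
  simpa [Function.comp_def] using h4

private theorem g04_pd_snd {F : ℝ × V n → ℝ} {p : ℝ × V n} (hF : DifferentiableAt ℝ F p)
    (i : Fin n) : pd i (fun y => F (p.1, y)) p.2 = fderiv ℝ F p (0, e i) := by
  have h1 : HasFDerivAt (fun y : V n => (p.1, y)) (ContinuousLinearMap.inr ℝ ℝ (V n)) p.2 :=
    hasFDerivAt_prodMk_right p.1 p.2
  have h2 : HasFDerivAt F (fderiv ℝ F p) ((fun y : V n => (p.1, y)) p.2) := hF.hasFDerivAt
  have h3 := (h2.comp p.2 h1).fderiv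
  have h4 := congrArg (fun A : V n →L[ℝ] ℝ => A (e i)) h3
  simpa [pd, Function.comp_def] using h4

/-- commutation of `∂_t` and `pd i` at `t = 0` for jointly smooth functions -/
private theorem g04_comm {F : ℝ × V n → ℝ} {t₀ : ℝ} (ht₀ : 0 < t₀)
    (hF : ContDiffOn ℝ (⊤ : ℕ∞) F (Ioo (-t₀) t₀ ×ˢ univ)) (i : Fin n) (x : V n) :
    deriv (fun s => pd i (fun y => F (s, y)) x) 0 = pd i (fun y => deriv (fun s => F (s, y)) 0) x ∧
    DifferentiableAt ℝ (fun s => pd i (fun y => F (s, y)) x) 0 := by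
  have hO : IsOpen (Ioo (-t₀) t₀ ×ˢ (univ : Set (V n))) := isOpen_Ioo.prod isOpen_univ
  have h0 : (0 : ℝ) ∈ Ioo (-t₀) t₀ := ⟨by linarith, ht₀⟩
  have hne : ((⊤ : ℕ∞) : WithTop ℕ∞) ≠ 0 := by simp
  have hd : ∀ p ∈ (Ioo (-t₀) t₀ ×ˢ (univ : Set (V n))), DifferentiableAt ℝ F p := fun p hp =>
    (hF.contDiffAt (hO.mem_nhds hp)).differentiableAt hne
  have hfd : ContDiffOn ℝ (⊤ : ℕ∞) (fderiv ℝ F) (Ioo (-t₀) t₀ ×ˢ univ) :=
    hF.fderiv_of_isOpen hO (by simp)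
  have hdd : ∀ p ∈ (Ioo (-t₀) t₀ ×ˢ (univ : Set (V n))), DifferentiableAt ℝ (fderiv ℝ F) p :=
    fun p hp => (hfd.contDiffAt (hO.mem_nhds hp)).differentiableAt hne
  have hx0 : ((0 : ℝ), x) ∈ (Ioo (-t₀) t₀ ×ˢ (univ : Set (V n))) := ⟨h0, mem_univ _⟩
  have hev : (fun s => pd i (fun y => F (s, y)) x) =ᶠ[𝓝 0]
      fun s => fderiv ℝ F (s, x) (0, e i) := by
    filter_upwards [isOpen_Ioo.mem_nhds h0] with s hs
    exact g04_pd_snd (p := (s, x)) (hd (s, x) ⟨hs, mem_univ _⟩) i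
  have hG : DifferentiableAt ℝ (fun p : ℝ × V n => fderiv ℝ F p (0, e i)) (0, x) :=
    (hdd _ hx0).clm_apply (differentiableAt_const _)
  have hH : DifferentiableAt ℝ (fun p : ℝ × V n => fderiv ℝ F p (1, 0)) (0, x) :=
    (hdd _ hx0).clm_apply (differentiableAt_const _)
  have hL : deriv (fun s => fderiv ℝ F (s, x) (0, e i)) 0
      = fderiv ℝ (fderiv ℝ F) (0, x) (1, 0) (0, e i) := by
    have h1 := g04_deriv_fst (p := ((0 : ℝ), x)) hG
    simp only at h1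
    rw [h1, fderiv_clm_apply (hdd _ hx0) (differentiableAt_const _)]
    simp
  have hR : pd i (fun y => fderiv ℝ F (0, y) (1, 0)) x
      = fderiv ℝ (fderiv ℝ F) (0, x) (0, e i) (1, 0) := by
    have h1 := g04_pd_snd (p := ((0 : ℝ), x)) hH i
    simp only at h1
    rw [h1, fderiv_clm_apply (hdd _ hx0) (differentiableAt_const _)]
    simp
  have hR' : (fun y => deriv (fun s => F (s, y)) 0) = fun y => fderiv ℝ F (0, y) (1, 0) := by
    funext y
    exact g04_deriv_fst (p := ((0 : ℝ), y)) (hd _ ⟨h0, mem_univ _⟩)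
  have h2le : (2 : WithTop ℕ∞) ≤ ((⊤ : ℕ∞) : WithTop ℕ∞) :=
    WithTop.coe_le_coe.2 (le_top : (2 : ℕ∞) ≤ ⊤)
  have hF2 : ContDiffAt ℝ 2 F ((0 : ℝ), x) := (hF.contDiffAt (hO.mem_nhds hx0)).of_le h2le
  have hsymm := (hF2.isSymmSndFDerivAt (by simp)).eq (1, 0) (0, e i)
  constructor
  · rw [hev.deriv_eq, hL, hR', hR, hsymm]
  · refine DifferentiableAt.congr_of_eventuallyEq ?_ hev
    have h1 : DifferentiableAt ℝ (fun s : ℝ => (s, x)) 0 :=
      (hasFDerivAt_prodMk_left (0 : ℝ) x).differentiableAt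
    exact DifferentiableAt.comp (g := fun p : ℝ × V n => fderiv ℝ F p (0, e i)) (0 : ℝ) hG h1

/-- the `i`-th component of `DΨ v` -/
private theorem g04_comp {Ψ : V n → V n} (hΨ : ContDiff ℝ (⊤ : ℕ∞) Ψ) (y v : V n) (i : Fin n) :
    (fderiv ℝ Ψ y v) i = ∑ j, pd j (fun z => Ψ z i) y * v j := by
  have hne : ((⊤ : ℕ∞) : WithTop ℕ∞) ≠ 0 := by simp
  have h1 : HasFDerivAt (fun z => Ψ z i)
      ((EuclideanSpace.proj (𝕜 := ℝ) i).comp (fderiv ℝ Ψ y)) y :=
    (EuclideanSpace.proj (𝕜 := ℝ) i : V n →L[ℝ] ℝ).hasFDerivAt.comp y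
      ((hΨ.differentiable hne) y).hasFDerivAt
  have h2 : (fderiv ℝ Ψ y v) i = fderiv ℝ (fun z => Ψ z i) y v := by
    rw [h1.fderiv]; rfl
  rw [h2, fderiv_apply_eq_sum]
  exact Finset.sum_congr rfl fun j _ => mul_comm _ _

/-- Value of `L (L k)` at `t = 0` for `k = c + t k₁ + t² k₂`. Here `A i j = ∂_j Ψ_i`.
Sketch: `X_0 = Ψ`, `∂_t X_t |_{t=0} = - DΨ Ψ` (differentiate `X + t DΨ X = Ψ`), symmetry of mixed
derivatives (`∂_t` and `pd i` commute on jointly smooth functions):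
`L(Lk)(0) = ∂_t²k - div(∂_t k Ψ) - div(k ∂_t X) - div((∂_t k - div (k Ψ)) Ψ)`. -/
theorem Lop_Lop_zero {Ψ : V n → V n} (hΨ : ContDiff ℝ (⊤ : ℕ∞) Ψ)
    (hc : HasCompactSupport Ψ) {c : ℝ} {k₁ k₂ : V n → ℝ}
    (h₁ : ContDiff ℝ (⊤ : ℕ∞) k₁) (h₂ : ContDiff ℝ (⊤ : ℕ∞) k₂) (x : V n) :
    Lop Ψ (Lop Ψ (fun t y => c + t * k₁ y + t ^ 2 * k₂ y)) 0 x =
      2 * k₂ x - 2 * ∑ i, pd i (fun y => k₁ y * Ψ y i) x
        + c * (∑ i, pd i (fun y => ∑ j, pd j (fun z => Ψ z i) y * Ψ y j) x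
          + ∑ i, pd i (fun y => (∑ j, pd j (fun z => Ψ z j) y) * Ψ y i) x) := by
  obtain ⟨t₀, ht₀, hX, hXe, -⟩ := Xf_spec hΨ hc
  have hO : IsOpen (Ioo (-t₀) t₀ ×ˢ (univ : Set (V n))) := isOpen_Ioo.prod isOpen_univ
  have h0 : (0 : ℝ) ∈ Ioo (-t₀) t₀ := ⟨by linarith, ht₀⟩
  have hne : ((⊤ : ℕ∞) : WithTop ℕ∞) ≠ 0 := by simp
  have hX0 : ∀ y, Xf Ψ 0 y = Ψ y := by
    intro y
    have := hXe 0 h0 y
    simpa using this
  -- smoothness of components of `Ψ`
  have hΨi : ∀ i, ContDiff ℝ (⊤ : ℕ∞) (fun z => Ψ z i) := fun i =>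
    (EuclideanSpace.proj (𝕜 := ℝ) i).contDiff.comp hΨ
  have hΨd : ∀ i y, DifferentiableAt ℝ (fun z => Ψ z i) y := fun i y =>
    ((hΨi i).differentiable hne) y
  have hpΨ : ∀ j i, ContDiff ℝ (⊤ : ℕ∞) (pd j (fun z => Ψ z i)) := fun j i =>
    contDiff_pd (m := (⊤ : ℕ∞)) (hΨi i) (by simp) j
  have hpΨd : ∀ j i y, DifferentiableAt ℝ (pd j (fun z => Ψ z i)) y := fun j i y =>
    ((hpΨ j i).differentiable hne) y
  have hk1d : ∀ y, DifferentiableAt ℝ k₁ y := fun y => (h₁.differentiable hne) y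
  -- joint smoothness of `k` and `k X`
  set k : ℝ → V n → ℝ := fun t y => c + t * k₁ y + t ^ 2 * k₂ y with hk
  have hks : ContDiff ℝ (⊤ : ℕ∞) (fun p : ℝ × V n => k p.1 p.2) := by
    simp only [hk]
    refine (contDiff_const.add (contDiff_fst.mul (h₁.comp contDiff_snd))).add
      ((contDiff_fst.pow 2).mul (h₂.comp contDiff_snd))
  have hXi : ∀ i, ContDiffOn ℝ (⊤ : ℕ∞) (fun p : ℝ × V n => Xf Ψ p.1 p.2 i)
      (Ioo (-t₀) t₀ ×ˢ univ) := fun i =>
    (EuclideanSpace.proj (𝕜 := ℝ) i).contDiff.comp_contDiffOn hX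
  have hkX : ∀ i, ContDiffOn ℝ (⊤ : ℕ∞) (fun p : ℝ × V n => k p.1 p.2 * Xf Ψ p.1 p.2 i)
      (Ioo (-t₀) t₀ ×ˢ univ) := fun i => hks.contDiffOn.mul (hXi i)
  -- time derivatives of `k`
  have hkt : ∀ (s : ℝ) y, HasDerivAt (fun r => k r y) (k₁ y + 2 * s * k₂ y) s := by
    intro s y
    have h1 : HasDerivAt (fun r : ℝ => c + r * k₁ y) (k₁ y) s := by
      simpa using ((hasDerivAt_id s).mul_const (k₁ y)).const_add c
    have h2 : HasDerivAt (fun r : ℝ => r ^ 2 * k₂ y) (2 * s * k₂ y) s := by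
      simpa using (hasDerivAt_pow 2 s).mul_const (k₂ y)
    exact h1.add h2
  have hktt : HasDerivAt (fun s => deriv (fun r => k r x) s) (2 * k₂ x) 0 := by
    have h1 : (fun s => deriv (fun r => k r x) s) = fun s => k₁ x + 2 * s * k₂ x := by
      funext s; exact (hkt s x).deriv
    rw [h1]
    have h2 : HasDerivAt (fun s : ℝ => 2 * s * k₂ x) (2 * k₂ x) 0 := by
      simpa using ((hasDerivAt_id (0 : ℝ)).const_mul 2).mul_const (k₂ x)
    simpa using h2.const_add (k₁ x)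
  -- time derivative of `X` at `0`
  have hXt : ∀ y i, HasDerivAt (fun s => Xf Ψ s y i)
      (-(∑ j, pd j (fun z => Ψ z i) y * Ψ y j)) 0 := by
    intro y i
    have hXd : DifferentiableAt ℝ (fun s => Xf Ψ s y) 0 := by
      have h1 : DifferentiableAt ℝ (fun s : ℝ => (s, y)) 0 :=
        (hasFDerivAt_prodMk_left (0 : ℝ) y).differentiableAt
      have h2 : DifferentiableAt ℝ (fun p : ℝ × V n => Xf Ψ p.1 p.2) ((0 : ℝ), y) :=
        (hX.contDiffAt (hO.mem_nhds ⟨h0, mem_univ _⟩)).differentiableAt hne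
      have h3 := DifferentiableAt.comp (f := fun s : ℝ => (s, y)) (0 : ℝ) h2 h1
      simpa only [Function.comp_def] using h3
    have hg : DifferentiableAt ℝ (fun s => (fderiv ℝ Ψ y (Xf Ψ s y)) i) 0 := by
      have h1 : DifferentiableAt ℝ (fun s => fderiv ℝ Ψ y (Xf Ψ s y)) 0 :=
        ((fderiv ℝ Ψ y).differentiableAt).comp (0 : ℝ) hXd
      exact ((EuclideanSpace.proj (𝕜 := ℝ) i : V n →L[ℝ] ℝ).differentiableAt).comp (0 : ℝ) h1
    have h2 : HasDerivAt (fun s => Ψ y i - s * (fderiv ℝ Ψ y (Xf Ψ s y)) i)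
        (-(fderiv ℝ Ψ y (Ψ y)) i) 0 := by
      have h3 := ((hasDerivAt_id (0 : ℝ)).mul hg.hasDerivAt).const_sub (Ψ y i)
      simpa [hX0 y] using h3
    rw [← g04_comp hΨ y (Ψ y) i]
    refine h2.congr_of_eventuallyEq ?_
    filter_upwards [isOpen_Ioo.mem_nhds h0] with s hs
    have h4 := congrArg (fun v : V n => v i) (hXe s hs y)
    simp only [PiLp.add_apply, PiLp.smul_apply, smul_eq_mul] at h4
    linarith
  have hkXt : ∀ y i, deriv (fun s => k s y * Xf Ψ s y i) 0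
      = k₁ y * Ψ y i + -c * (∑ j, pd j (fun z => Ψ z i) y * Ψ y j) := by
    intro y i
    have h1 := ((hkt 0 y).mul (hXt y i)).deriv
    have h2 : (fun s => k s y * Xf Ψ s y i) = (fun r => k r y) * (fun s => Xf Ψ s y i) := rfl
    rw [h2, h1, hX0 y]
    simp only [hk]
    ring
  -- `L k` at time `0`
  have hL0 : ∀ y, Lop Ψ k 0 y = k₁ y - c * ∑ j, pd j (fun z => Ψ z j) y := by
    intro y
    simp only [Lop]
    rw [(hkt 0 y).deriv]
    have h1 : ∀ i, pd i (fun y => k 0 y * Xf Ψ 0 y i) y = c * pd i (fun z => Ψ z i) y := by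
      intro i
      rw [← pd_const_mul]
      congr 1
      funext z
      rw [hX0 z]
      simp only [hk]
      ring
    simp_rw [h1]
    rw [← Finset.mul_sum]
    ring
  -- time derivative of `L k` at `0`
  have hLt : deriv (fun s => Lop Ψ k s x) 0 = 2 * k₂ x
      - ∑ i, pd i (fun y => k₁ y * Ψ y i + -c * (∑ j, pd j (fun z => Ψ z i) y * Ψ y j)) x := by
    have h1 : ∀ i, HasDerivAt (fun s => pd i (fun y => k s y * Xf Ψ s y i) x)
        (pd i (fun y => k₁ y * Ψ y i + -c * (∑ j, pd j (fun z => Ψ z i) y * Ψ y j)) x) 0 := by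
      intro i
      obtain ⟨h2, h3⟩ := g04_comm ht₀ (hkX i) i x
      simp only at h2 h3
      have h4 := h3.hasDerivAt
      rw [h2] at h4
      have h5 : (fun y => deriv (fun s => k s y * Xf Ψ s y i) 0)
          = fun y => k₁ y * Ψ y i + -c * (∑ j, pd j (fun z => Ψ z i) y * Ψ y j) := by
        funext y; exact hkXt y i
      rw [h5] at h4
      exact h4
    have h6 : HasDerivAt (fun s => ∑ i, pd i (fun y => k s y * Xf Ψ s y i) x)
        (∑ i, pd i (fun y => k₁ y * Ψ y i + -c * (∑ j, pd j (fun z => Ψ z i) y * Ψ y j)) x) 0 :=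
      HasDerivAt.fun_sum fun i _ => h1 i
    have h7 : (fun s => Lop Ψ k s x) = fun s => deriv (fun r => k r x) s
        - ∑ i, pd i (fun y => k s y * Xf Ψ s y i) x := by
      funext s; simp only [Lop]
    rw [h7]
    exact (hktt.fun_sub h6).deriv
  have hA : ∀ i, pd i (fun y => k₁ y * Ψ y i + -c * (∑ j, pd j (fun z => Ψ z i) y * Ψ y j)) x
      = pd i (fun y => k₁ y * Ψ y i) x
        + -c * pd i (fun y => ∑ j, pd j (fun z => Ψ z i) y * Ψ y j) x := by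
    intro i
    have hd1 : DifferentiableAt ℝ (fun y => k₁ y * Ψ y i) x := (hk1d x).mul (hΨd i x)
    have hd2 : DifferentiableAt ℝ (fun y => ∑ j, pd j (fun z => Ψ z i) y * Ψ y j) x :=
      DifferentiableAt.fun_sum fun j _ => (hpΨd j i x).mul (hΨd j x)
    rw [pd_add hd1 (hd2.const_mul (-c)), pd_const_mul]
  have hB : ∀ i, pd i (fun y => Lop Ψ k 0 y * Xf Ψ 0 y i) x
      = pd i (fun y => k₁ y * Ψ y i) x
        - c * pd i (fun y => (∑ j, pd j (fun z => Ψ z j) y) * Ψ y i) x := by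
    intro i
    have hd1 : DifferentiableAt ℝ (fun y => k₁ y * Ψ y i) x := (hk1d x).mul (hΨd i x)
    have hd2 : DifferentiableAt ℝ (fun y => (∑ j, pd j (fun z => Ψ z j) y) * Ψ y i) x :=
      (DifferentiableAt.fun_sum fun j _ => hpΨd j j x).mul (hΨd i x)
    have h1 : (fun y => Lop Ψ k 0 y * Xf Ψ 0 y i)
        = fun y => k₁ y * Ψ y i - c * ((∑ j, pd j (fun z => Ψ z j) y) * Ψ y i) := by
      funext y
      rw [hL0 y, hX0 y]
      ring
    rw [h1, pd_sub hd1 (hd2.const_mul c), pd_const_mul]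
  have hmain : Lop Ψ (Lop Ψ k) 0 x = deriv (fun s => Lop Ψ k s x) 0
      - ∑ i, pd i (fun y => Lop Ψ k 0 y * Xf Ψ 0 y i) x := rfl
  rw [hmain, hLt]
  simp_rw [hA, hB]
  rw [Finset.sum_add_distrib, Finset.sum_sub_distrib, ← Finset.mul_sum, ← Finset.mul_sum]
  ring

end OPC
end
end

section

/-! # (B') for `L5` -/

namespace OPC

theorem bdry5_A1 (s : ℝ) (h1 : (-7/8) ≤ s) (h2 : s ≤ (-7/16)) :
    0 ≤ (43/2) + (91/2)*s^1 + (-28/3)*s^2 + (-596/9)*s^3 + (-124/27)*s^4 + (800/27)*s^5 := by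
  obtain ⟨x, hx⟩ : ∃ x : ℝ, x = s - (-7/8) := ⟨_, rfl⟩
  obtain ⟨y, hy⟩ : ∃ y : ℝ, y = (-7/16) - s := ⟨_, rfl⟩
  have hx0 : 0 ≤ x := by rw [hx]; linarith
  have hy0 : 0 ≤ y := by rw [hy]; linarith
  have key : (43/2) + (91/2)*s^1 + (-28/3)*s^2 + (-596/9)*s^3 + (-124/27)*s^4 + (800/27)*s^5 = (28764160/453789) * (x^0 * y^5) + (253781504/453789) * (x^1 * y^4) + (142979072/151263) * (x^2 * y^3) + (470696192/453789) * (x^3 * y^2) + (386666368/453789) * (x^4 * y^1) + (14815072/50421) * (x^5 * y^0) := by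
    rw [hx, hy]; ring
  rw [key]
  positivity

theorem bdry5_A2 (s : ℝ) (h1 : (-7/16) ≤ s) (h2 : s ≤ (0)) :
    0 ≤ (43/2) + (91/2)*s^1 + (-28/3)*s^2 + (-596/9)*s^3 + (-124/27)*s^4 + (800/27)*s^5 := by
  obtain ⟨x, hx⟩ : ∃ x : ℝ, x = s - (-7/16) := ⟨_, rfl⟩
  obtain ⟨y, hy⟩ : ∃ y : ℝ, y = (0) - s := ⟨_, rfl⟩
  have hx0 : 0 ≤ x := by rw [hx]; linarith
  have hy0 : 0 ≤ y := by rw [hy]; linarith
  have key : (43/2) + (91/2)*s^1 + (-28/3)*s^2 + (-596/9)*s^3 + (-124/27)*s^4 + (800/27)*s^5 = (14815072/50421) * (x^0 * y^5) + (946690112/453789) * (x^1 * y^4) + (903597056/151263) * (x^2 * y^3) + (420233216/50421) * (x^3 * y^2) + (91848704/16807) * (x^4 * y^1) + (22544384/16807) * (x^5 * y^0) := by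
    rw [hx, hy]; ring
  rw [key]
  positivity

theorem bdry5_Q1 (s : ℝ) (h1 : (-7/8) ≤ s) (h2 : s ≤ (-7/16)) :
    0 ≤ (3625/12) + (29141/18)*s^1 + (235063/108)*s^2 + (-62086/27)*s^3 + (-348929/54)*s^4 + (2788/27)*s^5 + (184946/27)*s^6 + (29888/27)*s^7 + (-32440/9)*s^8 + (-384)*s^9 + (2656/3)*s^10 := by
  obtain ⟨x, hx⟩ : ∃ x : ℝ, x = s - (-7/8) := ⟨_, rfl⟩
  obtain ⟨y, hy⟩ : ∃ y : ℝ, y = (-7/16) - s := ⟨_, rfl⟩
  have hx0 : 0 ≤ x := by rw [hx]; linarith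
  have hy0 : 0 ≤ y := by rw [hy]; linarith
  have key : (3625/12) + (29141/18)*s^1 + (235063/108)*s^2 + (-62086/27)*s^3 + (-348929/54)*s^4 + (2788/27)*s^5 + (184946/27)*s^6 + (29888/27)*s^7 + (-32440/9)*s^8 + (-384)*s^9 + (2656/3)*s^10 = (30643625230336/7626831723) * (x^0 * y^10) + (180240134340608/2542277241) * (x^1 * y^9) + (3299726010343424/7626831723) * (x^2 * y^8) + (9053246972395520/7626831723) * (x^3 * y^7) + (2379861142556672/1089547389) * (x^4 * y^6) + (3145113875394560/1089547389) * (x^5 * y^5) + (2698117402350592/1089547389) * (x^6 * y^4) + (9700250865281024/7626831723) * (x^7 * y^3) + (339720649743232/847425747) * (x^8 * y^2) + (253326889602688/2542277241) * (x^9 * y^1) + (5297889926176/282475249) * (x^10 * y^0) := by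
    rw [hx, hy]; ring
  rw [key]
  positivity

theorem bdry5_Q2 (s : ℝ) (h1 : (-7/16) ≤ s) (h2 : s ≤ (0)) :
    0 ≤ (3625/12) + (29141/18)*s^1 + (235063/108)*s^2 + (-62086/27)*s^3 + (-348929/54)*s^4 + (2788/27)*s^5 + (184946/27)*s^6 + (29888/27)*s^7 + (-32440/9)*s^8 + (-384)*s^9 + (2656/3)*s^10 := by
  obtain ⟨x, hx⟩ : ∃ x : ℝ, x = s - (-7/16) := ⟨_, rfl⟩
  obtain ⟨y, hy⟩ : ∃ y : ℝ, y = (0) - s := ⟨_, rfl⟩
  have hx0 : 0 ≤ x := by rw [hx]; linarith
  have hy0 : 0 ≤ y := by rw [hy]; linarith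
  have key : (3625/12) + (29141/18)*s^1 + (235063/108)*s^2 + (-62086/27)*s^3 + (-348929/54)*s^4 + (2788/27)*s^5 + (184946/27)*s^6 + (29888/27)*s^7 + (-32440/9)*s^8 + (-384)*s^9 + (2656/3)*s^10 = (5297889926176/282475249) * (x^0 * y^10) + (700293297108992/2542277241) * (x^1 * y^9) + (1680619872262144/847425747) * (x^2 * y^8) + (67103613275865088/7626831723) * (x^3 * y^7) + (1034070313795584/40353607) * (x^4 * y^6) + (54419514468597760/1089547389) * (x^5 * y^5) + (70897216088178688/1089547389) * (x^6 * y^4) + (141279190568665088/2542277241) * (x^7 * y^3) + (226681200213753856/7626831723) * (x^8 * y^2) + (22884032429686784/2542277241) * (x^9 * y^1) + (996432412672000/847425747) * (x^10 * y^0) := by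
    rw [hx, hy]; ring
  rw [key]
  positivity


theorem bdry5_A (s : ℝ) (h1 : -(7/8) ≤ s) (h2 : s ≤ 0) : 0 ≤ (43/2) + (91/2)*s^1 + (-28/3)*s^2 + (-596/9)*s^3 + (-124/27)*s^4 + (800/27)*s^5 := by
  rcases le_total s (-7/16) with h | h
  · exact bdry5_A1 s (by linarith) (by linarith)
  · exact bdry5_A2 s (by linarith) (by linarith)

theorem bdry5_Q (s : ℝ) (h1 : -(7/8) ≤ s) (h2 : s ≤ 0) : 0 ≤ (3625/12) + (29141/18)*s^1 + (235063/108)*s^2 + (-62086/27)*s^3 + (-348929/54)*s^4 + (2788/27)*s^5 + (184946/27)*s^6 + (29888/27)*s^7 + (-32440/9)*s^8 + (-384)*s^9 + (2656/3)*s^10 := by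
  rcases le_total s (-7/16) with h | h
  · exact bdry5_Q1 s (by linarith) (by linarith)
  · exact bdry5_Q2 s (by linarith) (by linarith)

/-- the boundary polynomial (times 32) -/
theorem bdry5_core (s a b c : ℝ) (h1 : s + a + b + c = 0) (h2 : s ^ 2 + a ^ 2 + b ^ 2 + c ^ 2 = 1)
    (hs : s ≤ 0) :
    0 ≤ 13 + 12 * s - 8 * s ^ 2 + 17 * s ^ 3
      + (s ^ 3 + a ^ 3 + b ^ 3 + c ^ 3) * (-31 - 10 * s + 11 * s ^ 2)
      + (s ^ 4 + a ^ 4 + b ^ 4 + c ^ 4) * (17 + 5 * s) := by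
  have hs1 : s ^ 2 ≤ 3 / 4 := by nlinarith [sq_nonneg (a - b), sq_nonneg (b - c), sq_nonneg (a - c)]
  have hs2 : -(7 / 8) ≤ s := by nlinarith
  have hA := bdry5_A s hs2 hs
  have hQ := bdry5_Q s hs2 hs
  obtain ⟨D, hD⟩ : ∃ D : ℝ, D = a * b * c - (-s ^ 3 / 27 + s * (1 - 4 / 3 * s ^ 2) / 6) := ⟨_, rfl⟩
  have hc : c = -s - a - b := by linarith
  have he : a * b + a * c + b * c = s ^ 2 - 1 / 2 := by
    rw [hc] at h2 ⊢
    linarith
  -- discriminant
  have hdisc : ((a - b) * (b - c) * (c - a)) ^ 2 = (3 - 4 * s ^ 2) ^ 3 / 54 - 27 * D ^ 2 := by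
    have e1 : a + b + c = -s := by linarith
    have gen : ∀ e1 e2 e3 : ℝ, e1 = a + b + c → e2 = a * b + a * c + b * c → e3 = a * b * c →
        ((a - b) * (b - c) * (c - a)) ^ 2 =
          e1 ^ 2 * e2 ^ 2 - 4 * e2 ^ 3 - 4 * e1 ^ 3 * e3 + 18 * e1 * e2 * e3 - 27 * e3 ^ 2 := by
      rintro e1 e2 e3 rfl rfl rfl
      ring
    rw [gen (-s) (s ^ 2 - 1 / 2) (a * b * c) e1.symm he.symm rfl, hD]
    ring
  have hD2 : D ^ 2 ≤ (3 - 4 * s ^ 2) ^ 3 / 1458 := by
    nlinarith [sq_nonneg ((a - b) * (b - c) * (c - a))]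
  have hc3 : s ^ 3 + a ^ 3 + b ^ 3 + c ^ 3 = 3 * s ^ 3 - 3 / 2 * s + 3 * (a * b * c) := by
    have gen : ∀ e1 e2 : ℝ, e1 = a + b + c → e2 = a * b + a * c + b * c →
        a ^ 3 + b ^ 3 + c ^ 3 = e1 ^ 3 - 3 * e1 * e2 + 3 * (a * b * c) := by
      rintro e1 e2 rfl rfl
      ring
    have := gen (-s) (s ^ 2 - 1 / 2) (by linarith) he.symm
    linear_combination this
  have hc4 : s ^ 4 + a ^ 4 + b ^ 4 + c ^ 4 = 1 / 2 - 4 * s * (a * b * c) := by
    have gen : ∀ e1 e2 e3 : ℝ, e1 = a + b + c → e2 = a * b + a * c + b * c → e3 = a * b * c →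
        a ^ 4 + b ^ 4 + c ^ 4 = e1 ^ 4 - 4 * e1 ^ 2 * e2 + 2 * e2 ^ 2 + 4 * e1 * e3 := by
      rintro e1 e2 e3 rfl rfl rfl
      ring
    have := gen (-s) (s ^ 2 - 1 / 2) _ (by linarith) he.symm rfl
    linear_combination this
  rw [hc3, hc4]
  have hT : a * b * c = D + (-s ^ 3 / 27 + s * (1 - 4 / 3 * s ^ 2) / 6) := by linarith
  rw [hT]
  obtain ⟨A', hA'⟩ : ∃ A' : ℝ, A' = (43/2) + (91/2)*s^1 + (-28/3)*s^2 + (-596/9)*s^3 + (-124/27)*s^4 + (800/27)*s^5 := ⟨_, rfl⟩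
  rw [← hA'] at hA
  have hQ' : (-93 - 98 * s + 13 * s ^ 2) ^ 2 * ((3 - 4 * s ^ 2) ^ 3 / 1458) ≤ A' ^ 2 := by
    rw [hA']
    linarith
  have hBD : ((-93 - 98 * s + 13 * s ^ 2) * D) ^ 2 ≤ A' ^ 2 := by
    rw [mul_pow]
    exact le_trans (mul_le_mul_of_nonneg_left hD2 (sq_nonneg _)) hQ'
  have h5 := (abs_le_of_sq_le_sq' hBD hA).1
  have h6 : 0 ≤ A' + (-93 - 98 * s + 13 * s ^ 2) * D := by linarith
  refine le_trans h6 (le_of_eq ?_)
  rw [hA']
  ring

theorem bdry5 : ∀ (l : Fin 4 → ℝ) (b : Fin 4) (eps : ℝ), ∑ i, l i = 0 → ∑ i, l i ^ 2 = 1 →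
    l b ≤ 0 → 0 < eps → 0 ≤ (L5.map fun g => g.bv l (l b) eps).sum - l b := by
  intro l b eps h1 h2 hb _
  rw [Fin.sum_univ_four] at h1 h2
  have key : (L5.map fun g => g.bv l (l b) eps).sum - l b =
      (13 + 12 * l b - 8 * l b ^ 2 + 17 * l b ^ 3
      + (l 0 ^ 3 + l 1 ^ 3 + l 2 ^ 3 + l 3 ^ 3) * (-31 - 10 * l b + 11 * l b ^ 2)
      + (l 0 ^ 4 + l 1 ^ 4 + l 2 ^ 4 + l 3 ^ 4) * (17 + 5 * l b)) / 32 := by
    simp only [L5, List.map_cons, List.map_nil, List.sum_cons, List.sum_nil, Term.bv, Shape.bv,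
      Mt.bv, Mt.bn, Fac.bv, List.prod_cons, List.prod_nil, Fin.sum_univ_four]
    push_cast
    linear_combination (l b * (31 - 7 * l b - 16 * l b ^ 2) / 32) * h2
  rw [key]
  fin_cases b
  · have := bdry5_core (l 0) (l 1) (l 2) (l 3) (by linarith) (by linarith) hb
    refine div_nonneg (le_trans this (le_of_eq ?_)) (by norm_num)
    simp
  · have := bdry5_core (l 1) (l 0) (l 2) (l 3) (by linarith) (by linarith) hb
    refine div_nonneg (le_trans this (le_of_eq ?_)) (by norm_num)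
    simp
    ring
  · have := bdry5_core (l 2) (l 0) (l 1) (l 3) (by linarith) (by linarith) hb
    refine div_nonneg (le_trans this (le_of_eq ?_)) (by norm_num)
    simp
    ring
  · have := bdry5_core (l 3) (l 0) (l 1) (l 2) (by linarith) (by linarith) hb
    refine div_nonneg (le_trans this (le_of_eq ?_)) (by norm_num)
    simp
    ring

end OPC
end
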