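import Pool.Agent.Lib.MP_9059b8_an.A10
import Pool.Agent.Lib.MP_9059b8_an.A06

section

section

/-! # D01: the equation for A -/

open MeasureTheory Set Filter Topology

namespace OPC

variable {n : ℕ} {E : Set (V n)} {u : V n → ℝ}

private theorem Sol.diff_w1 (h : Sol E u) (i : Fin n) {x : V n} (hx : x ∈ E) :
    DifferentiableAt ℝ (w u i) x := diffAt h.isOpen (h.smooth_w i) hx

private theorem Sol.diff_pdw1 (h : Sol E u) (k i : Fin n) {x : V n} (hx : x ∈ E) :
    DifferentiableAt ℝ (pd k (w u i)) x :=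
  diffAt h.isOpen (contDiffOn_pd_top h.isOpen (h.smooth_w i) k) hx

private theorem Sol.diff_NN1 (h : Sol E u) {x : V n} (hx : x ∈ E) :
    DifferentiableAt ℝ (NN u) x := diffAt h.isOpen h.smooth_NN hx

/-- `w` is a gradient -/
private theorem Sol.curl_w (h : Sol E u) (k j : Fin n) {x : V n} (hx : x ∈ E) :
    pd k (w u j) x = pd j (w u k) x := by
  have h1 : ∀ i, ∀ y ∈ E, w u i y = 1 / 2 * pd i (gg u) y := by
    intro i y hy
    rw [h.pd_gg i hy]; ring
  rw [pd_congr h.isOpen (h1 j) k x hx, pd_congr h.isOpen (h1 k) j x hx, pd_const_mul, pd_const_mul,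
    pd_comm' h.isOpen h.smooth_gg k j hx]

private theorem Sol.lap_w (h : Sol E u) (j : Fin n) {x : V n} (hx : x ∈ E) :
    ∑ k, pd k (pd k (w u j)) x = pd j (NN u) x := by
  have h1 : ∀ k, pd k (pd k (w u j)) x = pd j (pd k (w u k)) x := by
    intro k
    rw [pd_congr h.isOpen (fun y hy => h.curl_w k j hy) k x hx]
    exact pd_comm' h.isOpen (h.smooth_w k) k j hx
  calc ∑ k, pd k (pd k (w u j)) x = ∑ k, pd j (pd k (w u k)) x :=
        Finset.sum_congr rfl fun k _ => h1 k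
    _ = pd j (fun y => ∑ k, pd k (w u k) y) x := by
        rw [pd_sum _ (fun k _ => h.diff_pdw1 k k hx)]
    _ = pd j (NN u) x := pd_congr h.isOpen (fun y hy => h.div_w hy) j x hx

private theorem Sol.lap_qw (h : Sol E u) (i j : Fin n) {x : V n} (hx : x ∈ E) :
    ∑ k, pd k (pd k (fun y => q u i y * w u j y)) x
      = 2 * ∑ k, S u k i x * pd k (w u j) x + q u i x * pd j (NN u) x := by
  have h1 : ∀ k, ∀ y ∈ E, pd k (fun y => q u i y * w u j y) y
      = S u k i y * w u j y + q u i y * pd k (w u j) y := by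
    intro k y hy
    rw [pd_mul (h.diff_q i hy) (h.diff_w1 j hy), pd_q]
  have h2 : ∀ k, pd k (pd k (fun y => q u i y * w u j y)) x
      = pd k (S u k i) x * w u j x + 2 * (S u k i x * pd k (w u j) x)
        + q u i x * pd k (pd k (w u j)) x := by
    intro k
    have d1 : DifferentiableAt ℝ (fun y => S u k i y * w u j y) x :=
      (h.diff_S k i hx).mul (h.diff_w1 j hx)
    have d2 : DifferentiableAt ℝ (fun y => q u i y * pd k (w u j) y) x :=
      (h.diff_q i hx).mul (h.diff_pdw1 k j hx)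
    rw [pd_congr h.isOpen (h1 k) k x hx, pd_add d1 d2,
      pd_mul (h.diff_S k i hx) (h.diff_w1 j hx), pd_mul (h.diff_q i hx) (h.diff_pdw1 k j hx), pd_q]
    ring
  calc ∑ k, pd k (pd k (fun y => q u i y * w u j y)) x
      = ∑ k, (pd k (S u k i) x * w u j x + 2 * (S u k i x * pd k (w u j) x)
        + q u i x * pd k (pd k (w u j)) x) := Finset.sum_congr rfl fun k _ => h2 k
    _ = (∑ k, pd k (S u k i) x) * w u j x + 2 * ∑ k, S u k i x * pd k (w u j) x
        + q u i x * ∑ k, pd k (pd k (w u j)) x := by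
        rw [Finset.sum_add_distrib, Finset.sum_add_distrib, ← Finset.sum_mul, ← Finset.mul_sum,
          ← Finset.mul_sum]
    _ = _ := by rw [h.div_S i hx, h.lap_w j hx]; ring

private theorem Sol.div_Sw (h : Sol E u) (i j : Fin n) {x : V n} (hx : x ∈ E) :
    ∑ k, pd k (fun y => S u i k y * w u j y) x = ∑ k, S u k i x * pd k (w u j) x := by
  have h1 : ∀ k, pd k (fun y => S u i k y * w u j y) x
      = pd k (S u k i) x * w u j x + S u k i x * pd k (w u j) x := by
    intro k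
    rw [pd_mul (h.diff_S i k hx) (h.diff_w1 j hx),
      pd_congr h.isOpen (fun y hy => h.S_symm i k hy) k x hx, h.S_symm i k hx]
  calc ∑ k, pd k (fun y => S u i k y * w u j y) x
      = ∑ k, (pd k (S u k i) x * w u j x + S u k i x * pd k (w u j) x) :=
        Finset.sum_congr rfl fun k _ => h1 k
    _ = (∑ k, pd k (S u k i) x) * w u j x + ∑ k, S u k i x * pd k (w u j) x := by
        rw [Finset.sum_add_distrib, ← Finset.sum_mul]
    _ = _ := by rw [h.div_S i hx]; ring

private theorem Sol.div_NNq (h : Sol E u) (i j : Fin n) {x : V n} (hx : x ∈ E) :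
    ∑ k, pd k (fun y => NN u y * (q u i y * (if j = k then 1 else 0))) x
      = q u i x * pd j (NN u) x + NN u x * S u j i x := by
  have h1 : ∀ k, pd k (fun y => NN u y * (q u i y * (if j = k then 1 else 0))) x
      = if j = k then (q u i x * pd k (NN u) x + NN u x * S u k i x) else 0 := by
    intro k
    have h2 : (fun y => NN u y * (q u i y * (if j = k then (1 : ℝ) else 0)))
        = fun y => (if j = k then (1 : ℝ) else 0) * (NN u y * q u i y) := by
      funext y; ring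
    rw [h2, pd_const_mul, pd_mul (h.diff_NN1 hx) (h.diff_q i hx), pd_q]
    split_ifs
    · ring
    · ring
  rw [Finset.sum_congr rfl fun k _ => h1 k]
  simp

/-- `Δ A_{ij} = div G_{ij}`.
Sketch: `Δ q_i = 0`, `Δ w_j = ∂_j NN` (`w = ∇(gg/2)`, `Δ (gg/2) = NN`), so
`Δ A_{ij} = 2 ∑_k S_{ik} ∂_k w_j + q_i ∂_j NN - (i ↔ j)`, and `∑_k ∂_k (S_{ik} w_j) = ∑_k S_{ik} ∂_k w_j`
(`div S = 0`), `∑_k ∂_k (NN (q_i δ_{jk} - q_j δ_{ik})) = q_i ∂_j NN - q_j ∂_i NN` (`S` symmetric). -/
theorem Sol.lap_A (h : Sol E u) (i j : Fin n) {x : V n} (hx : x ∈ E) :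
    ∑ k, pd k (pd k (Aij u i j)) x = ∑ k, pd k (Gf u i j k) x := by
  have hq : ∀ i j, ContDiffOn ℝ (⊤ : ℕ∞) (fun y => q u i y * w u j y) E := fun i j =>
    (h.smooth_q i).mul (h.smooth_w j)
  have hS : ∀ i k j, DifferentiableAt ℝ (fun y => S u i k y * w u j y) x := fun i k j =>
    (h.diff_S i k hx).mul (h.diff_w1 j hx)
  have hN : ∀ i j k : Fin n, DifferentiableAt ℝ
      (fun y => NN u y * (q u i y * (if j = k then (1 : ℝ) else 0))) x := by
    intro i j k
    have hc : ∀ c : ℝ, DifferentiableAt ℝ (fun y => NN u y * (q u i y * c)) x := fun c =>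
      (h.diff_NN1 hx).mul ((h.diff_q i hx).mul (differentiableAt_const c))
    exact hc _
  have e1 : ∀ k, pd k (pd k (Aij u i j)) x
      = pd k (pd k (fun y => q u i y * w u j y)) x
        - pd k (pd k (fun y => q u j y * w u i y)) x := by
    intro k
    have h1 : ∀ y ∈ E, pd k (Aij u i j) y
        = pd k (fun y => q u i y * w u j y) y - pd k (fun y => q u j y * w u i y) y := by
      intro y hy
      exact pd_sub (diffAt h.isOpen (hq i j) hy) (diffAt h.isOpen (hq j i) hy) k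
    rw [pd_congr h.isOpen h1 k x hx]
    exact pd_sub (diffAt h.isOpen (contDiffOn_pd_top h.isOpen (hq i j) k) hx)
      (diffAt h.isOpen (contDiffOn_pd_top h.isOpen (hq j i) k) hx) k
  have e2 : ∀ k, pd k (Gf u i j k) x
      = 2 * (pd k (fun y => S u i k y * w u j y) x - pd k (fun y => S u j k y * w u i y) x)
        + (pd k (fun y => NN u y * (q u i y * (if j = k then 1 else 0))) x
          - pd k (fun y => NN u y * (q u j y * (if i = k then 1 else 0))) x) := by
    intro k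
    have h1 : Gf u i j k = fun y => 2 * (S u i k y * w u j y - S u j k y * w u i y)
        + (NN u y * (q u i y * (if j = k then 1 else 0))
          - NN u y * (q u j y * (if i = k then 1 else 0))) := by
      funext y; unfold Gf; ring
    have d1 : DifferentiableAt ℝ (fun y => S u i k y * w u j y - S u j k y * w u i y) x :=
      (hS i k j).sub (hS j k i)
    have d2 : DifferentiableAt ℝ (fun y => 2 * (S u i k y * w u j y - S u j k y * w u i y)) x :=
      d1.const_mul 2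
    have d3 : DifferentiableAt ℝ (fun y => NN u y * (q u i y * (if j = k then 1 else 0))
        - NN u y * (q u j y * (if i = k then 1 else 0))) x := (hN i j k).sub (hN j i k)
    rw [h1, pd_add d2 d3,
      pd_const_mul, pd_sub (hS i k j) (hS j k i), pd_sub (hN i j k) (hN j i k)]
  rw [Finset.sum_congr rfl fun k _ => e1 k, Finset.sum_congr rfl fun k _ => e2 k,
    Finset.sum_sub_distrib, h.lap_qw i j hx, h.lap_qw j i hx, Finset.sum_add_distrib,
    ← Finset.mul_sum, Finset.sum_sub_distrib, Finset.sum_sub_distrib, h.div_Sw i j hx,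
    h.div_Sw j i hx, h.div_NNq i j hx, h.div_NNq j i hx, h.S_symm i j hx]
  ring

theorem Sol.smooth_Gf (h : Sol E u) (i j k : Fin n) : ContDiffOn ℝ (⊤ : ℕ∞) (Gf u i j k) E := by
  change ContDiffOn ℝ (⊤ : ℕ∞) (fun x => 2 * (S u i k x * w u j x - S u j k x * w u i x)
    + NN u x * (q u i x * (if j = k then 1 else 0) - q u j x * (if i = k then 1 else 0))) E
  exact (contDiffOn_const.mul (((h.smooth_S i k).mul (h.smooth_w j)).sub
    ((h.smooth_S j k).mul (h.smooth_w i)))).add (h.smooth_NN.mul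
      (((h.smooth_q i).mul contDiffOn_const).sub ((h.smooth_q j).mul contDiffOn_const)))

theorem Sol.bdd_Gf (h : Sol E u) {a b : ℝ} (ha : 0 < a) : ∃ C, 0 < C ∧ ∀ x ∈ E, x ∈ Ann a b →
    ∀ i j k, |Gf u i j k x| ≤ C := by
  obtain ⟨C, c, hC, hc, hb⟩ := h.bounds (a := a) (b := b) ha
  refine ⟨2 * (C * C + C * C) + C * (C + C), by positivity, fun x hx hx2 i j k => ?_⟩
  obtain ⟨h1, h2, h3, _, _, _, _, h8, _⟩ := hb x hx hx2
  have hC0 : 0 ≤ C := by linarith
  have hN : |NN u x| ≤ C := by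
    rw [abs_of_nonneg]
    · exact h8
    · unfold NN; positivity
  have hm : ∀ {p r : ℝ}, |p| ≤ C → |r| ≤ C → |p * r| ≤ C * C := by
    intro p r hp hr
    rw [abs_mul]
    exact mul_le_mul hp hr (abs_nonneg _) hC0
  have hd : ∀ (p : ℝ) (P : Prop) [Decidable P], |p| ≤ C → |p * (if P then 1 else 0)| ≤ C := by
    intro p P _ hp
    split_ifs
    · simpa using hp
    · simpa using hC0
  have hA : |S u i k x * w u j x - S u j k x * w u i x| ≤ C * C + C * C :=
    (abs_sub _ _).trans (add_le_add (hm (h2 i k) (h3 j)) (hm (h2 j k) (h3 i)))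
  have hB : |q u i x * (if j = k then 1 else 0) - q u j x * (if i = k then 1 else 0)| ≤ C + C :=
    (abs_sub _ _).trans (add_le_add (hd _ _ (h1 i)) (hd _ _ (h1 j)))
  unfold Gf
  refine (abs_add_le _ _).trans (add_le_add ?_ ?_)
  · rw [abs_mul, abs_two]
    exact mul_le_mul_of_nonneg_left hA (by norm_num)
  · rw [abs_mul]
    exact mul_le_mul hN hB (abs_nonneg _) hC0

end OPC
end

section

/-! # D02: energy estimate for A -/

open MeasureTheory Set Filter Topology

namespace OPC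

variable {n : ℕ} {E : Set (V n)} {u : V n → ℝ}

/-- `∑_{ij} A_{ij} G^k_{ij}` -/
private noncomputable def Bf (u : V n → ℝ) (k : Fin n) (x : V n) : ℝ :=
  ∑ i, ∑ j, Aij u i j x * Gf u i j k x

private theorem cs2 (a b : Fin n → Fin n → ℝ) :
    (∑ i, ∑ j, a i j * b i j) ^ 2 ≤ (∑ i, ∑ j, a i j ^ 2) * (∑ i, ∑ j, b i j ^ 2) := by
  have h := Finset.sum_mul_sq_le_sq_mul_sq (Finset.univ : Finset (Fin n × Fin n))
    (fun p => a p.1 p.2) (fun p => b p.1 p.2)
  rw [Fintype.sum_prod_type, Fintype.sum_prod_type, Fintype.sum_prod_type] at h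
  exact h

private theorem pd_AA (h : Sol E u) (k : Fin n) {x : V n} (hx : x ∈ E) :
    pd k (AA u) x = ∑ i, ∑ j, 2 * (Aij u i j x * pd k (Aij u i j) x) := by
  have hd : ∀ i j, DifferentiableAt ℝ (Aij u i j) x := fun i j =>
    diffAt h.isOpen (h.smooth_Aij i j) hx
  have hd2 : ∀ i j, DifferentiableAt ℝ (fun y => Aij u i j y ^ 2) x := fun i j => (hd i j).pow 2
  have e1 : pd k (AA u) x = pd k (fun y => ∑ i, ∑ j, Aij u i j y ^ 2) x := rfl
  rw [e1, pd_sum _ (fun i _ => DifferentiableAt.fun_sum (fun j _ => hd2 i j))]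
  refine Finset.sum_congr rfl fun i _ => ?_
  rw [pd_sum _ (fun j _ => hd2 i j)]
  refine Finset.sum_congr rfl fun j _ => ?_
  rw [pd_pow (hd i j)]
  norm_num
  ring

private theorem pd_pd_AA (h : Sol E u) (k : Fin n) {x : V n} (hx : x ∈ E) :
    pd k (pd k (AA u)) x = ∑ i, ∑ j, (2 * (pd k (Aij u i j) x) ^ 2 +
      2 * (Aij u i j x * pd k (pd k (Aij u i j)) x)) := by
  have hd : ∀ i j, DifferentiableAt ℝ (Aij u i j) x := fun i j =>
    diffAt h.isOpen (h.smooth_Aij i j) hx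
  have hd1 : ∀ i j, DifferentiableAt ℝ (pd k (Aij u i j)) x := fun i j =>
    diffAt h.isOpen (contDiffOn_pd_top h.isOpen (h.smooth_Aij i j) k) hx
  have hd2 : ∀ i j, DifferentiableAt ℝ (fun y => 2 * (Aij u i j y * pd k (Aij u i j) y)) x :=
    fun i j => ((hd i j).mul (hd1 i j)).const_mul 2
  rw [pd_congr h.isOpen (fun y hy => pd_AA h k hy) k x hx,
    pd_sum _ (fun i _ => DifferentiableAt.fun_sum (fun j _ => hd2 i j))]
  refine Finset.sum_congr rfl fun i _ => ?_
  rw [pd_sum _ (fun j _ => hd2 i j)]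
  refine Finset.sum_congr rfl fun j _ => ?_
  rw [pd_const_mul, pd_mul (hd i j) (hd1 i j)]
  ring

private theorem pd_Bf (h : Sol E u) (k : Fin n) {x : V n} (hx : x ∈ E) :
    pd k (Bf u k) x = ∑ i, ∑ j, (pd k (Aij u i j) x * Gf u i j k x +
      Aij u i j x * pd k (Gf u i j k) x) := by
  have hd : ∀ i j, DifferentiableAt ℝ (Aij u i j) x := fun i j =>
    diffAt h.isOpen (h.smooth_Aij i j) hx
  have hd1 : ∀ i j, DifferentiableAt ℝ (Gf u i j k) x := fun i j =>
    diffAt h.isOpen (h.smooth_Gf i j k) hx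
  have hd2 : ∀ i j, DifferentiableAt ℝ (fun y => Aij u i j y * Gf u i j k y) x :=
    fun i j => (hd i j).mul (hd1 i j)
  have e1 : pd k (Bf u k) x = pd k (fun y => ∑ i, ∑ j, Aij u i j y * Gf u i j k y) x := rfl
  rw [e1, pd_sum _ (fun i _ => DifferentiableAt.fun_sum (fun j _ => hd2 i j))]
  refine Finset.sum_congr rfl fun i _ => ?_
  rw [pd_sum _ (fun j _ => hd2 i j)]
  refine Finset.sum_congr rfl fun j _ => ?_
  rw [pd_mul (hd i j) (hd1 i j)]

private theorem smooth_Bf (h : Sol E u) (k : Fin n) : ContDiffOn ℝ (⊤ : ℕ∞) (Bf u k) E := by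
  apply ContDiffOn.sum
  intro i _
  apply ContDiffOn.sum
  intro j _
  exact (h.smooth_Aij i j).mul (h.smooth_Gf i j k)

/-- the field `½ ∇|A|² - A·G` -/
private noncomputable def Zf (u : V n → ℝ) (k : Fin n) (x : V n) : ℝ :=
  (1 / 2) * pd k (AA u) x - Bf u k x

private theorem smooth_Zf (h : Sol E u) (k : Fin n) : ContDiffOn ℝ (⊤ : ℕ∞) (Zf u k) E :=
  (contDiffOn_const.mul (contDiffOn_pd_top h.isOpen h.smooth_AA k)).sub (smooth_Bf h k)

private theorem div_Zf (h : Sol E u) {x : V n} (hx : x ∈ E) :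
    ∑ k, pd k (Zf u k) x =
      ∑ k, (∑ i, ∑ j, (pd k (Aij u i j) x) ^ 2 -
        ∑ i, ∑ j, pd k (Aij u i j) x * Gf u i j k x) := by
  have e1 : ∀ k, pd k (Zf u k) x = ∑ i, ∑ j, ((pd k (Aij u i j) x) ^ 2 -
      pd k (Aij u i j) x * Gf u i j k x) +
      ∑ i, ∑ j, Aij u i j x * (pd k (pd k (Aij u i j)) x - pd k (Gf u i j k) x) := by
    intro k
    have d1 : DifferentiableAt ℝ (pd k (AA u)) x :=
      diffAt h.isOpen (contDiffOn_pd_top h.isOpen h.smooth_AA k) hx
    have d2 : DifferentiableAt ℝ (Bf u k) x := diffAt h.isOpen (smooth_Bf h k) hx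
    have e2 : pd k (Zf u k) x = pd k (fun y => (1 / 2) * pd k (AA u) y - Bf u k y) x := rfl
    rw [e2, pd_sub (d1.const_mul _) d2, pd_const_mul, pd_pd_AA h k hx, pd_Bf h k hx,
      Finset.mul_sum, ← Finset.sum_sub_distrib, ← Finset.sum_add_distrib]
    refine Finset.sum_congr rfl fun i _ => ?_
    rw [Finset.mul_sum, ← Finset.sum_sub_distrib, ← Finset.sum_add_distrib]
    refine Finset.sum_congr rfl fun j _ => ?_
    ring
  simp_rw [e1]
  rw [Finset.sum_add_distrib]
  have e3 : ∑ k, ∑ i, ∑ j, Aij u i j x * (pd k (pd k (Aij u i j)) x - pd k (Gf u i j k) x) = 0 := by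
    rw [Finset.sum_comm]
    apply Finset.sum_eq_zero
    intro i _
    rw [Finset.sum_comm]
    apply Finset.sum_eq_zero
    intro j _
    rw [← Finset.mul_sum, Finset.sum_sub_distrib, h.lap_A i j hx, sub_self, mul_zero]
  rw [e3, add_zero]
  refine Finset.sum_congr rfl fun k _ => ?_
  rw [← Finset.sum_sub_distrib]
  refine Finset.sum_congr rfl fun i _ => ?_
  rw [← Finset.sum_sub_distrib]

/-- the cutoff `chi (|A|²/δ) η²` -/
private theorem exists_zeta (h : Sol E u) {η : V n → ℝ} (hη : Tst η) {δ : ℝ} (hδ : 0 < δ) :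
    ∃ ζ : V n → ℝ, ContDiff ℝ (⊤ : ℕ∞) ζ ∧ HasCompactSupport ζ ∧ tsupport ζ ⊆ E ∧
      ∀ x ∈ E, ζ x = chi (AA u x / δ) * η x ^ 2 := by
  classical
  obtain ⟨a, b, ha, hab, hsub⟩ := hη.ann
  obtain ⟨ε, hε, hlay⟩ := h.lay_AA a b ha δ hδ
  set K : Set (V n) := tsupport η ∩ {x | ε ≤ u x} with hK
  have hKcl : IsClosed K := (isClosed_tsupport η).inter (isClosed_le continuous_const h.cont)
  have hKc : IsCompact K := hη.cpt.isCompact.inter_right (isClosed_le continuous_const h.cont)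
  have hKE : K ⊆ E := by
    intro x hx
    rw [h.eq_pos]
    exact lt_of_lt_of_le hε hx.2
  have hsupp : ∀ x, x ∉ K → E.indicator (fun x => chi (AA u x / δ) * η x ^ 2) x = 0 := by
    intro x hx
    by_cases hxE : x ∈ E
    · rw [indicator_of_mem hxE]
      by_cases hxη : x ∈ tsupport η
      · have hux : u x < ε := by
          by_contra hc
          exact hx ⟨hxη, not_lt.1 hc⟩
        have h1 := hlay x hxE (hsub hxη) hux
        rw [sub_zero] at h1
        have h2 : AA u x / δ ≤ 1 := by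
          rw [div_le_one hδ]
          exact (le_abs_self _).trans h1.le
        rw [chi_eq_zero h2, zero_mul]
      · rw [image_eq_zero_of_notMem_tsupport hxη]
        ring
    · exact indicator_of_notMem hxE _
  have hts : tsupport (E.indicator (fun x => chi (AA u x / δ) * η x ^ 2)) ⊆ K := by
    apply closure_minimal _ hKcl
    intro x hx
    by_contra hc
    exact hx (hsupp x hc)
  refine ⟨E.indicator (fun x => chi (AA u x / δ) * η x ^ 2), ?_, ?_, hts.trans hKE, ?_⟩
  · rw [contDiff_iff_contDiffAt]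
    intro x
    by_cases hx : x ∈ E
    · have h1 : ContDiffAt ℝ (⊤ : ℕ∞) (fun x => chi (AA u x / δ) * η x ^ 2) x := by
        have h2 : ContDiffAt ℝ (⊤ : ℕ∞) (AA u) x := h.smooth_AA.contDiffAt (h.isOpen.mem_nhds hx)
        have h3 : ContDiffAt ℝ (⊤ : ℕ∞) (chi ∘ fun x => AA u x / δ) x :=
          ContDiff.comp_contDiffAt x chi_smooth (h2.div_const δ)
        exact h3.mul (hη.smooth.contDiffAt.pow 2)
      refine h1.congr_of_eventuallyEq ?_
      filter_upwards [h.isOpen.mem_nhds hx] with y hy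
      exact indicator_of_mem hy _
    · have hxK : x ∉ K := fun hc => hx (hKE hc)
      refine (contDiffAt_const (c := (0 : ℝ))).congr_of_eventuallyEq ?_
      filter_upwards [hKcl.isOpen_compl.mem_nhds hxK] with y hy
      exact hsupp y hy
  · exact hKc.of_isClosed_subset (isClosed_tsupport _) hts
  · intro x hx
    exact indicator_of_mem hx _

/-- the pointwise inequality -/
private theorem ptw {η η1 θ c δ f g1 Gk G2 P B Cc : ℝ} (hθ0 : 0 ≤ θ) (hθ1 : θ ≤ 1) (hf : 0 ≤ f)
    (hδ : 0 < δ) (hc : 0 ≤ c) (hcf : c * f ≤ 2 * Cc * δ) (hg : g1 ^ 2 ≤ 4 * f * Gk)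
    (hB : B ^ 2 ≤ f * G2) (hP : P ≤ 1 / 4 * Gk + G2) (hGk : 0 ≤ Gk) (hG2 : 0 ≤ G2) :
    1 / 2 * (θ * η ^ 2 * Gk) -
        (η ^ 2 * G2 + 4 * η1 ^ 2 * f + η1 ^ 2 + η ^ 2 * (f * G2) + η ^ 2 * (Cc * G2)) ≤
      θ * η ^ 2 * (Gk - P) + (2 * η * η1 * θ + η ^ 2 * (c * (g1 / δ))) * (1 / 2 * g1 - B) := by
  have hη2 : 0 ≤ η ^ 2 := sq_nonneg η
  have hη12 : 0 ≤ η1 ^ 2 := sq_nonneg η1
  have hθη : 0 ≤ θ * η ^ 2 := mul_nonneg hθ0 hη2
  -- (1)
  have h1 : θ * η ^ 2 * P ≤ 1 / 4 * (θ * η ^ 2 * Gk) + η ^ 2 * G2 := by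
    have h11 := mul_le_mul_of_nonneg_left hP hθη
    have h12 : θ * η ^ 2 * G2 ≤ η ^ 2 * G2 := by
      have := mul_le_mul_of_nonneg_right hθ1 (mul_nonneg hη2 hG2)
      linarith
    linarith
  -- (2)
  have h2 : |η * η1 * g1| ≤ 1 / 4 * η ^ 2 * Gk + 4 * η1 ^ 2 * f := by
    apply abs_le_of_sq_le_sq _ (by positivity)
    have h21 : (η * η1 * g1) ^ 2 ≤ η ^ 2 * η1 ^ 2 * (4 * f * Gk) := by
      have := mul_le_mul_of_nonneg_left hg (mul_nonneg hη2 hη12)
      linarith [this]
    nlinarith [sq_nonneg (1 / 4 * η ^ 2 * Gk - 4 * η1 ^ 2 * f)]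
  have h2' : -(1 / 4 * (θ * η ^ 2 * Gk) + 4 * η1 ^ 2 * f) ≤ θ * (η * η1 * g1) := by
    have h22 : -(1 / 4 * η ^ 2 * Gk + 4 * η1 ^ 2 * f) ≤ η * η1 * g1 := (abs_le.1 h2).1
    have h23 := mul_le_mul_of_nonneg_left h22 hθ0
    have h24 : θ * (4 * η1 ^ 2 * f) ≤ 4 * η1 ^ 2 * f := by
      have := mul_le_mul_of_nonneg_right hθ1 (by positivity : 0 ≤ 4 * η1 ^ 2 * f)
      linarith
    linarith
  -- (3)
  have h3 : θ * (2 * η * η1 * B) ≤ η1 ^ 2 + η ^ 2 * (f * G2) := by
    have h31 : 2 * η * η1 * B ≤ η1 ^ 2 + η ^ 2 * (f * G2) := by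
      have h32 := mul_le_mul_of_nonneg_left hB hη2
      nlinarith [sq_nonneg (η1 - η * B)]
    have h33 : 0 ≤ η1 ^ 2 + η ^ 2 * (f * G2) := by positivity
    have h34 := mul_le_mul_of_nonneg_left h31 hθ0
    have h35 := mul_le_mul_of_nonneg_right hθ1 h33
    linarith
  -- (4)
  have h4 : -(η ^ 2 * (Cc * G2)) ≤ η ^ 2 * (c * (g1 / δ)) * (1 / 2 * g1 - B) := by
    have h41 : η ^ 2 * (c * (g1 / δ)) * (1 / 2 * g1 - B) =
        η ^ 2 * (c / δ) * (1 / 2 * g1 ^ 2 - g1 * B) := by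
      field_simp
    have h42 : -(1 / 2) * B ^ 2 ≤ 1 / 2 * g1 ^ 2 - g1 * B := by nlinarith [sq_nonneg (g1 - B)]
    have hcδ : 0 ≤ c / δ := div_nonneg hc hδ.le
    have h43 : c / δ * B ^ 2 ≤ 2 * Cc * G2 := by
      have h44 : c / δ * B ^ 2 ≤ c / δ * (f * G2) := mul_le_mul_of_nonneg_left hB hcδ
      have h45 : c / δ * (f * G2) = (c * f) / δ * G2 := by field_simp
      have h46 : (c * f) / δ ≤ 2 * Cc := by
        rw [div_le_iff₀ hδ]; linarith
      have h47 := mul_le_mul_of_nonneg_right h46 hG2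
      linarith
    rw [h41]
    have h48 := mul_le_mul_of_nonneg_left h42 (mul_nonneg hη2 hcδ)
    have h49 := mul_le_mul_of_nonneg_left h43 hη2
    nlinarith
  have h5 : θ * η ^ 2 * (Gk - P) + (2 * η * η1 * θ + η ^ 2 * (c * (g1 / δ))) * (1 / 2 * g1 - B) =
      θ * η ^ 2 * Gk - θ * η ^ 2 * P + θ * (η * η1 * g1) - θ * (2 * η * η1 * B) +
        η ^ 2 * (c * (g1 / δ)) * (1 / 2 * g1 - B) := by ring
  rw [h5]
  linarith

/-- Energy estimate: `∫_E η² chi(|A|²/δ) |∇A|² ≤ C` uniformly in `δ > 0`.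
Sketch: `f = AA u`, `θ = chi (f/δ)`, `ζ = η² θ`: smooth with compact support in `E` (`f < δ` in a
layer, `Sol.lay_AA`). `Δ f = 2 GA + 2 ∑ A_{ij} Δ A_{ij}`. `ibp` twice:
`∫ ζ Δ f = -∫ ∇ζ·∇f = -∫ 2 η θ ∇η·∇f - δ⁻¹ ∫ η² chi'(f/δ) |∇f|²` and
`∫ ζ ∑ A_{ij} div G_{ij} = - ∫ ∑ ∂_k(ζ A_{ij}) G^k_{ij}
 = - ∫ ζ ∇A·G - ∫ 2 η θ ∇η·(A G) - δ⁻¹ ∫ η² chi' ∇f·(A G)`. So
`2 ∫ ζ GA + δ⁻¹ ∫ η² chi' |∇f|² = 2 ∫ ζ ∇A·G + 4 ∫ ηθ ∇η·(AG) + 2 δ⁻¹ ∫ η² chi' ∇f·(AG) - 2 ∫ ηθ ∇η·∇f`,
`|∇f|² ≤ 4 f GA`, Young's inequality: `2 ζ |∇A||G| ≤ ζ GA/2 + 2 ζ |G|²`,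
`2 δ⁻¹ η² chi' |∇f||A||G| ≤ δ⁻¹ η² chi' |∇f|² + δ⁻¹ η² chi' f |G|²` and `chi'(f/δ) f/δ ≤ 2 C`,
`2 ηθ|∇η||∇f| ≤ ζ GA/2 + 8 θ |∇η|² f`. Hence `∫ ζ GA ≤ C`. -/
theorem Sol.energy_A (h : Sol E u) {η : V n → ℝ} (hη : Tst η) : ∃ C, 0 < C ∧ ∀ δ, 0 < δ →
    ∫ x in E, chi (AA u x / δ) * η x ^ 2 * GA u x ≤ C := by
  obtain ⟨a, b, ha, hab, hsub⟩ := hη.ann
  obtain ⟨CG, hCG, hG⟩ := h.bdd_Gf (b := b) ha
  obtain ⟨F, c0, hF1, hc0, hbd⟩ := h.bounds (b := b) ha
  obtain ⟨Cc, hCc1, hCc⟩ := deriv_chi_bdd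
  have hCc0 : 0 ≤ Cc := by linarith
  have hF0 : 0 ≤ F := by linarith
  obtain ⟨M, hM⟩ : ∃ M : ℝ, M = ∑ _i : Fin n, ∑ _j : Fin n, CG ^ 2 := ⟨_, rfl⟩
  have hM0 : 0 ≤ M := by rw [hM]; positivity
  -- the majorant
  obtain ⟨H, hH⟩ : ∃ H : V n → ℝ, H = fun x => ∑ k : Fin n,
      ((M + F * M + Cc * M) * η x ^ 2 + (4 * F + 1) * (pd k η x) ^ 2) := ⟨_, rfl⟩
  have hpdη : ∀ k, ContDiff ℝ (⊤ : ℕ∞) (pd k η) := fun k => contDiff_pd hη.smooth (by simp) k
  have hHcont : Continuous H := by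
    rw [hH]
    refine continuous_finset_sum _ fun k _ => ?_
    exact (continuous_const.mul (hη.smooth.continuous.pow 2)).add
      (continuous_const.mul ((hpdη k).continuous.pow 2))
  have hpd0 : ∀ k x, x ∉ tsupport η → pd k η x = 0 := by
    intro k x hx
    apply pd_zero_of_eventually
    filter_upwards [(isClosed_tsupport η).isOpen_compl.mem_nhds hx] with y hy
    exact image_eq_zero_of_notMem_tsupport hy
  have hHsupp : ∀ x, x ∉ tsupport η → H x = 0 := by
    intro x hx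
    rw [hH]
    apply Finset.sum_eq_zero
    intro k _
    rw [hpd0 k x hx, image_eq_zero_of_notMem_tsupport hx]
    ring
  have hHcs : HasCompactSupport H := by
    apply HasCompactSupport.intro hη.cpt.isCompact
    exact hHsupp
  have hHint : Integrable H := hHcont.integrable_of_hasCompactSupport hHcs
  have hH0 : ∀ x, 0 ≤ H x := by
    intro x; rw [hH]
    apply Finset.sum_nonneg
    intro k _
    positivity
  refine ⟨2 * (∫ x in E, H x) + 1, ?_, ?_⟩
  · have : 0 ≤ ∫ x in E, H x := integral_nonneg hH0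
    linarith
  intro δ hδ
  obtain ⟨ζ, hζs, hζc, hζE, hζ⟩ := exists_zeta h hη hδ
  have hζ1 : ContDiff ℝ 1 ζ := hζs.of_le one_le_top'
  have hZ1 : ∀ k, ContDiffOn ℝ 1 (Zf u k) E := fun k => (smooth_Zf h k).of_le one_le_top'
  have hibp := ibp_div h.isOpen hζ1 hζc hζE hZ1
  have hdivc : ContinuousOn (fun x => ∑ k, pd k (Zf u k) x) E := by
    refine continuousOn_finset_sum _ fun k _ => ?_
    exact (contDiffOn_pd_top h.isOpen (smooth_Zf h k) k).continuousOn
  have hI1 : Integrable (fun x => ζ x * ∑ k, pd k (Zf u k) x) :=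
    integrable_mul_of_tsupport h.isOpen hζs.continuous hζc hζE hdivc
  have hpdζc : ∀ k, Continuous (pd k ζ) := fun k =>
    (contDiff_pd (m := 0) hζ1 (by simp) k).continuous
  have hpdζ0 : ∀ k x, x ∉ tsupport ζ → pd k ζ x = 0 := by
    intro k x hx
    apply pd_zero_of_eventually
    filter_upwards [(isClosed_tsupport ζ).isOpen_compl.mem_nhds hx] with y hy
    exact image_eq_zero_of_notMem_tsupport hy
  have hpdζcs : ∀ k, HasCompactSupport (pd k ζ) := fun k =>
    HasCompactSupport.intro hζc.isCompact (hpdζ0 k)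
  have hpdζE : ∀ k, tsupport (pd k ζ) ⊆ E := by
    intro k
    refine (closure_minimal ?_ (isClosed_tsupport ζ)).trans hζE
    intro x hx
    by_contra hc
    exact hx (hpdζ0 k x hc)
  have hI2 : Integrable (fun x => ∑ k, pd k ζ x * Zf u k x) := by
    refine integrable_finset_sum _ fun k _ => ?_
    exact integrable_mul_of_tsupport h.isOpen (hpdζc k) (hpdζcs k) (hpdζE k)
      (smooth_Zf h k).continuousOn
  have hGAc : ContinuousOn (GA u) E := by
    have : GA u = fun x => ∑ k, ∑ i, ∑ j, (pd k (Aij u i j) x) ^ 2 := rfl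
    rw [this]
    refine continuousOn_finset_sum _ fun k _ => continuousOn_finset_sum _ fun i _ =>
      continuousOn_finset_sum _ fun j _ => ?_
    exact ((contDiffOn_pd_top h.isOpen (h.smooth_Aij i j) k).continuousOn).pow 2
  have hI3 : Integrable (fun x => ζ x * GA u x) :=
    integrable_mul_of_tsupport h.isOpen hζs.continuous hζc hζE hGAc
  have hzero : ∫ x in E, (ζ x * ∑ k, pd k (Zf u k) x + ∑ k, pd k ζ x * Zf u k x) = 0 := by
    rw [integral_add hI1.integrableOn hI2.integrableOn, hibp]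
    ring
  -- pointwise inequality
  have hpt : ∀ x ∈ E, 1 / 2 * (ζ x * GA u x) - H x ≤
      ζ x * ∑ k, pd k (Zf u k) x + ∑ k, pd k ζ x * Zf u k x := by
    intro x hx
    have hAAd : DifferentiableAt ℝ (AA u) x := diffAt h.isOpen h.smooth_AA hx
    have hηd : DifferentiableAt ℝ η x := hη.smooth.differentiable (by simp) x
    have hchid : DifferentiableAt ℝ chi (AA u x / δ) := chi_smooth.differentiable (by simp) _
    have hpdζ : ∀ k, pd k ζ x = 2 * η x * pd k η x * chi (AA u x / δ) +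
        η x ^ 2 * (deriv chi (AA u x / δ) * (pd k (AA u) x / δ)) := by
      intro k
      rw [pd_congr h.isOpen hζ k x hx]
      have e0 : (fun y => AA u y / δ) = fun y => δ⁻¹ * AA u y := by
        funext y; rw [div_eq_inv_mul]
      have dd : DifferentiableAt ℝ (fun y => AA u y / δ) x := by
        rw [e0]; exact hAAd.const_mul _
      have e1 : pd k (fun y => AA u y / δ) x = pd k (AA u) x / δ := by
        rw [e0, pd_const_mul, div_eq_inv_mul]
      have e2 : pd k (fun y => chi (AA u y / δ)) x =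
          deriv chi (AA u x / δ) * (pd k (AA u) x / δ) := by
        rw [pd_comp (φ := chi) (f := fun y => AA u y / δ) hchid dd, e1]
      have d3 : DifferentiableAt ℝ (chi ∘ fun y => AA u y / δ) x :=
        DifferentiableAt.comp x hchid dd
      rw [pd_mul (f := fun y => chi (AA u y / δ)) (g := fun y => η y ^ 2) d3 (hηd.pow 2), e2,
        pd_pow hηd]
      norm_num
      ring
    rw [div_Zf h hx, Finset.mul_sum, ← Finset.sum_add_distrib]
    have e4 : 1 / 2 * (ζ x * GA u x) - H x = ∑ k, (1 / 2 * (chi (AA u x / δ) * η x ^ 2 *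
        ∑ i, ∑ j, (pd k (Aij u i j) x) ^ 2) -
        ((M + F * M + Cc * M) * η x ^ 2 + (4 * F + 1) * (pd k η x) ^ 2)) := by
      rw [Finset.sum_sub_distrib, hH, hζ x hx]
      congr 1
      have : GA u x = ∑ k, ∑ i, ∑ j, (pd k (Aij u i j) x) ^ 2 := rfl
      rw [this, Finset.mul_sum, Finset.mul_sum]
    rw [e4]
    apply Finset.sum_le_sum
    intro k _
    rw [hpdζ k, hζ x hx]
    have hf0 : 0 ≤ AA u x := by
      have : AA u x = ∑ i, ∑ j, (Aij u i j x) ^ 2 := rfl
      rw [this]; positivity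
    have hGk : 0 ≤ ∑ i, ∑ j, (pd k (Aij u i j) x) ^ 2 := by positivity
    have hG2 : 0 ≤ ∑ i, ∑ j, (Gf u i j k x) ^ 2 := by positivity
    have hcf : deriv chi (AA u x / δ) * AA u x ≤ 2 * Cc * δ := by
      by_cases hs : AA u x / δ ∈ Icc (1 : ℝ) 2
      · have h1 : AA u x ≤ 2 * δ := by
          have := (div_le_iff₀ hδ).1 hs.2
          linarith
        have h2 : deriv chi (AA u x / δ) ≤ Cc := (le_abs_self _).trans (hCc _)
        calc deriv chi (AA u x / δ) * AA u x ≤ Cc * (2 * δ) :=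
              mul_le_mul h2 h1 hf0 hCc0
          _ = 2 * Cc * δ := by ring
      · rw [deriv_chi_eq_zero hs, zero_mul]
        positivity
    have hg : (pd k (AA u) x) ^ 2 ≤ 4 * AA u x * ∑ i, ∑ j, (pd k (Aij u i j) x) ^ 2 := by
      rw [pd_AA h k hx]
      have h1 := cs2 (fun i j => Aij u i j x) (fun i j => pd k (Aij u i j) x)
      have h2 : ∑ i, ∑ j, 2 * (Aij u i j x * pd k (Aij u i j) x) =
          2 * ∑ i, ∑ j, Aij u i j x * pd k (Aij u i j) x := by
        rw [Finset.mul_sum]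
        refine Finset.sum_congr rfl fun i _ => ?_
        rw [Finset.mul_sum]
      rw [h2]
      have h3 : AA u x = ∑ i, ∑ j, (Aij u i j x) ^ 2 := rfl
      rw [h3]
      nlinarith
    have hB : (Bf u k x) ^ 2 ≤ AA u x * ∑ i, ∑ j, (Gf u i j k x) ^ 2 :=
      cs2 (fun i j => Aij u i j x) (fun i j => Gf u i j k x)
    have hP : ∑ i, ∑ j, pd k (Aij u i j) x * Gf u i j k x ≤
        1 / 4 * ∑ i, ∑ j, (pd k (Aij u i j) x) ^ 2 + ∑ i, ∑ j, (Gf u i j k x) ^ 2 := by
      rw [Finset.mul_sum, ← Finset.sum_add_distrib]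
      apply Finset.sum_le_sum
      intro i _
      rw [Finset.mul_sum, ← Finset.sum_add_distrib]
      apply Finset.sum_le_sum
      intro j _
      nlinarith [sq_nonneg (1 / 2 * pd k (Aij u i j) x - Gf u i j k x)]
    have hmain := ptw (η := η x) (η1 := pd k η x) (chi_nonneg (AA u x / δ))
      (chi_le_one (AA u x / δ)) hf0 hδ (deriv_chi_nonneg (AA u x / δ)) hcf hg hB hP hGk hG2
    refine le_trans ?_ hmain
    apply sub_le_sub_left
    -- the error terms
    by_cases hxη : x ∈ tsupport η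
    · have hxA := hsub hxη
      have hb := hbd x hx hxA
      have hfF : AA u x ≤ F := hb.2.2.2.2.2.2.2.2.1
      have hG2M : ∑ i, ∑ j, (Gf u i j k x) ^ 2 ≤ M := by
        rw [hM]
        apply Finset.sum_le_sum
        intro i _
        apply Finset.sum_le_sum
        intro j _
        exact sq_le_sq' (by linarith [(abs_le.1 (hG x hx hxA i j k)).1])
          (abs_le.1 (hG x hx hxA i j k)).2
      have hη2 : 0 ≤ η x ^ 2 := sq_nonneg _
      have hη12 : 0 ≤ (pd k η x) ^ 2 := sq_nonneg _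
      have t1 : η x ^ 2 * ∑ i, ∑ j, (Gf u i j k x) ^ 2 ≤ η x ^ 2 * M :=
        mul_le_mul_of_nonneg_left hG2M hη2
      have t2 : 4 * (pd k η x) ^ 2 * AA u x ≤ 4 * (pd k η x) ^ 2 * F :=
        mul_le_mul_of_nonneg_left hfF (by positivity)
      have t3 : η x ^ 2 * (AA u x * ∑ i, ∑ j, (Gf u i j k x) ^ 2) ≤ η x ^ 2 * (F * M) :=
        mul_le_mul_of_nonneg_left (mul_le_mul hfF hG2M hG2 hF0) hη2
      have t4 : η x ^ 2 * (Cc * ∑ i, ∑ j, (Gf u i j k x) ^ 2) ≤ η x ^ 2 * (Cc * M) :=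
        mul_le_mul_of_nonneg_left (mul_le_mul_of_nonneg_left hG2M hCc0) hη2
      nlinarith
    · rw [hpd0 k x hxη, image_eq_zero_of_notMem_tsupport hxη]
      have : (0 : ℝ) ≤ M := hM0
      ring_nf
      exact le_rfl
  have hint : ∫ x in E, (1 / 2 * (ζ x * GA u x) - H x) ≤
      ∫ x in E, (ζ x * ∑ k, pd k (Zf u k) x + ∑ k, pd k ζ x * Zf u k x) := by
    apply setIntegral_mono_on
    · exact ((hI3.const_mul _).sub hHint).integrableOn
    · exact (hI1.add hI2).integrableOn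
    · exact h.isOpen.measurableSet
    · exact hpt
  rw [hzero, integral_sub (hI3.const_mul _).integrableOn hHint.integrableOn,
    integral_const_mul] at hint
  have hfin : ∫ x in E, chi (AA u x / δ) * η x ^ 2 * GA u x = ∫ x in E, ζ x * GA u x := by
    apply setIntegral_congr_fun h.isOpen.measurableSet
    intro x hx
    simp only [hζ x hx]
  rw [hfin]
  linarith

end OPC
end
end

section

section

/-! # D03: Hardy inequality -/

open MeasureTheory Set Filter Topology

namespace OPC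

variable {n : ℕ} {E : Set (V n)} {u : V n → ℝ}

private theorem d03_diff_u (h : Sol E u) {x : V n} (hx : x ∈ E) : DifferentiableAt ℝ u x :=
  diffAt h.isOpen h.smooth hx

private theorem d03_div (h : Sol E u) {x : V n} (hx : x ∈ E) :
    ∑ i, pd i (fun y => q u i y / u y) x = - (gg u x / u x ^ 2) := by
  have hu : u x ≠ 0 := (h.pos x hx).ne'
  have h1 : ∀ i, pd i (fun y => q u i y / u y) x
      = S u i i x / u x - (q u i x) ^ 2 / u x ^ 2 := by
    intro i
    rw [pd_div (h.diff_q i hx) (d03_diff_u h hx) hu, pd_q]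
    have : pd i u x = q u i x := rfl
    rw [this]
    field_simp
  rw [Finset.sum_congr rfl fun i _ => h1 i, Finset.sum_sub_distrib, ← Finset.sum_div,
    ← Finset.sum_div, h.tr_S hx]
  unfold gg
  simp

/-- Hardy inequality: for `f ∈ C¹` with compact support in `E`,
`∫_E f² |q|²/u² ≤ 4 ∫_E |∇f|²`.
Sketch: `ibp_div` with `ζ = f²` and `Y i = q i / u` (smooth on `E`, `div Y = - gg/u²` as `div q = 0`):
`∫ f² gg/u² = ∫ 2 f (∇f·q)/u ≤ 2 (∫ f² gg/u²)^{1/2} (∫ |∇f|²)^{1/2}` (or pointwise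
`2 f (∇f·q)/u ≤ f² gg/(2u²) + 2 |∇f|²`). -/
theorem Sol.hardy (h : Sol E u) {f : V n → ℝ} (hf : ContDiff ℝ 1 f) (hc : HasCompactSupport f)
    (hs : tsupport f ⊆ E) :
    ∫ x in E, f x ^ 2 * gg u x / u x ^ 2 ≤ 4 * ∫ x in E, ∑ i, (pd i f x) ^ 2 := by
  have hfd : ∀ x, DifferentiableAt ℝ f x := fun x => (hf.differentiable (by simp)) x
  have hζ : ContDiff ℝ 1 (fun x => f x ^ 2) := hf.pow 2
  have hsub : tsupport (fun x => f x ^ 2) ⊆ tsupport f := by
    apply closure_mono
    intro x hx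
    rw [Function.mem_support] at hx ⊢
    intro h0
    apply hx
    show f x ^ 2 = 0
    rw [h0]
    norm_num
  have hcζ : HasCompactSupport (fun x => f x ^ 2) := hc.of_isClosed_subset (isClosed_tsupport _) hsub
  have hY : ∀ i, ContDiffOn ℝ 1 (fun y => q u i y / u y) E := fun i =>
    (((h.smooth_q i).of_le one_le_top').div (h.smooth.of_le one_le_top')
      fun x hx => (h.pos x hx).ne')
  have key := ibp_div h.isOpen hζ hcζ (hsub.trans hs) hY
  have hme : MeasurableSet E := h.isOpen.measurableSet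
  have e1 : ∫ x in E, f x ^ 2 * ∑ i, pd i (fun y => q u i y / u y) x
      = - ∫ x in E, f x ^ 2 * gg u x / u x ^ 2 := by
    rw [← integral_neg]
    refine setIntegral_congr_fun hme fun x hx => ?_
    show f x ^ 2 * ∑ i, pd i (fun y => q u i y / u y) x = -(f x ^ 2 * gg u x / u x ^ 2)
    rw [d03_div h hx]
    ring
  have e2 : ∫ x in E, ∑ i, pd i (fun x => f x ^ 2) x * (q u i x / u x)
      = ∫ x in E, ∑ i, 2 * f x * pd i f x * (q u i x / u x) := by
    refine setIntegral_congr_fun hme fun x hx => ?_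
    refine Finset.sum_congr rfl fun i _ => ?_
    rw [pd_pow (hfd x)]
    push_cast
    ring
  rw [e1, e2] at key
  have key2 : ∫ x in E, f x ^ 2 * gg u x / u x ^ 2
      = ∫ x in E, ∑ i, 2 * f x * pd i f x * (q u i x / u x) := by linarith
  -- integrability
  have hgr : ContinuousOn (fun x => gg u x / u x ^ 2) E := by
    refine (h.smooth_gg.continuousOn).div (h.smooth.continuousOn.pow 2) fun x hx => ?_
    exact pow_ne_zero 2 (h.pos x hx).ne'
  have hI1 : Integrable (fun x => f x ^ 2 * gg u x / u x ^ 2) (volume.restrict E) := by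
    have := (integrable_mul_of_tsupport h.isOpen hζ.continuous hcζ (hsub.trans hs) hgr).restrict
      (s := E)
    refine this.congr (Filter.Eventually.of_forall fun x => ?_)
    show f x ^ 2 * (gg u x / u x ^ 2) = f x ^ 2 * gg u x / u x ^ 2
    ring
  have hpc : ∀ i, Continuous (pd i f) := fun i => (contDiff_pd (m := 0) hf (by simp) i).continuous
  have hcp : ∀ i, HasCompactSupport (pd i f) := fun i => hc.fderiv_apply (𝕜 := ℝ) (e i)
  have hI2 : Integrable (fun x => ∑ i, (pd i f x) ^ 2) (volume.restrict E) := by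
    refine integrable_finsetSum _ fun i _ => ?_
    have h1 : Integrable (fun x => pd i f x ^ 2) := by
      refine ((hpc i).pow 2).integrable_of_hasCompactSupport ?_
      refine (hcp i).of_isClosed_subset (isClosed_tsupport _) ?_
      apply closure_mono
      intro x hx
      rw [Function.mem_support] at hx ⊢
      intro h0
      apply hx
      show pd i f x ^ 2 = 0
      rw [h0]
      norm_num
    exact h1.restrict
  have hpt : ∀ x ∈ E, ∑ i, 2 * f x * pd i f x * (q u i x / u x)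
      ≤ (f x ^ 2 * gg u x / u x ^ 2) / 2 + 2 * ∑ i, (pd i f x) ^ 2 := by
    intro x hx
    have hu : u x ≠ 0 := (h.pos x hx).ne'
    have h3 : (f x ^ 2 * gg u x / u x ^ 2) / 2 + 2 * ∑ i, (pd i f x) ^ 2
        = ∑ i, ((f x * (q u i x / u x)) ^ 2 / 2 + 2 * (pd i f x) ^ 2) := by
      rw [Finset.sum_add_distrib, ← Finset.mul_sum, ← Finset.sum_div]
      congr 2
      unfold gg
      rw [Finset.mul_sum, Finset.sum_div]
      refine Finset.sum_congr rfl fun i _ => ?_
      field_simp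
    rw [h3]
    refine Finset.sum_le_sum fun i _ => ?_
    nlinarith [sq_nonneg (f x * (q u i x / u x) - 2 * pd i f x)]
  have hle : ∫ x in E, ∑ i, 2 * f x * pd i f x * (q u i x / u x)
      ≤ ∫ x in E, ((f x ^ 2 * gg u x / u x ^ 2) / 2 + 2 * ∑ i, (pd i f x) ^ 2) := by
    refine setIntegral_mono_on ?_ ((hI1.div_const 2).add (hI2.const_mul 2)) hme hpt
    refine integrable_finsetSum _ fun i _ => ?_
    have hqc : ContinuousOn (fun x => 2 * f x * (q u i x / u x)) E := by
      refine ((continuous_const.mul hf.continuous).continuousOn).mul ?_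
      exact (h.smooth_q i).continuousOn.div h.smooth.continuousOn fun x hx => (h.pos x hx).ne'
    have hsup : tsupport (pd i f) ⊆ tsupport f := tsupport_fderiv_apply_subset ℝ (e i)
    have := (integrable_mul_of_tsupport h.isOpen (hpc i) (hcp i) (hsup.trans hs) hqc).restrict
      (s := E)
    refine this.congr (Filter.Eventually.of_forall fun x => ?_)
    show pd i f x * (2 * f x * (q u i x / u x)) = 2 * f x * pd i f x * (q u i x / u x)
    ring
  rw [integral_add (hI1.div_const 2) (hI2.const_mul 2), integral_div, integral_const_mul] at hle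
  linarith

end OPC
end

section

/-! # D04: integrability of |a|^2/u^2 -/

open MeasureTheory Set Filter Topology

namespace OPC

variable {n : ℕ} {E : Set (V n)} {u : V n → ℝ}

private theorem d04_cs2 (a b : Fin n → Fin n → ℝ) :
    (∑ i, ∑ j, a i j * b i j) ^ 2 ≤ (∑ i, ∑ j, a i j ^ 2) * (∑ i, ∑ j, b i j ^ 2) := by
  have h := Finset.sum_mul_sq_le_sq_mul_sq (Finset.univ : Finset (Fin n × Fin n))
    (fun p => a p.1 p.2) (fun p => b p.1 p.2)
  rw [Fintype.sum_prod_type, Fintype.sum_prod_type, Fintype.sum_prod_type] at h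
  exact h

private theorem d04_pd_AA (h : Sol E u) (k : Fin n) {x : V n} (hx : x ∈ E) :
    pd k (AA u) x = ∑ i, ∑ j, 2 * (Aij u i j x * pd k (Aij u i j) x) := by
  have hd : ∀ i j, DifferentiableAt ℝ (Aij u i j) x := fun i j =>
    diffAt h.isOpen (h.smooth_Aij i j) hx
  have hd2 : ∀ i j, DifferentiableAt ℝ (fun y => Aij u i j y ^ 2) x := fun i j => (hd i j).pow 2
  have e1 : pd k (AA u) x = pd k (fun y => ∑ i, ∑ j, Aij u i j y ^ 2) x := rfl
  rw [e1, pd_sum _ (fun i _ => DifferentiableAt.fun_sum (fun j _ => hd2 i j))]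
  refine Finset.sum_congr rfl fun i _ => ?_
  rw [pd_sum _ (fun j _ => hd2 i j)]
  refine Finset.sum_congr rfl fun j _ => ?_
  rw [pd_pow (hd i j)]
  norm_num
  ring

/-- the cutoff `chi (|A|²/δ) η^m` -/
private theorem d04_exists_zeta (h : Sol E u) {η : V n → ℝ} (hη : Tst η) {δ : ℝ} (hδ : 0 < δ)
    {m : ℕ} (hm : m ≠ 0) :
    ∃ ζ : V n → ℝ, ContDiff ℝ (⊤ : ℕ∞) ζ ∧ HasCompactSupport ζ ∧ tsupport ζ ⊆ E ∧
      tsupport ζ ⊆ tsupport η ∧ ∀ x ∈ E, ζ x = chi (AA u x / δ) * η x ^ m := by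
  classical
  obtain ⟨a, b, ha, hab, hsub⟩ := hη.ann
  obtain ⟨ε, hε, hlay⟩ := h.lay_AA a b ha δ hδ
  set K : Set (V n) := tsupport η ∩ {x | ε ≤ u x} with hK
  have hKcl : IsClosed K := (isClosed_tsupport η).inter (isClosed_le continuous_const h.cont)
  have hKc : IsCompact K := hη.cpt.isCompact.inter_right (isClosed_le continuous_const h.cont)
  have hKE : K ⊆ E := by
    intro x hx
    rw [h.eq_pos]
    exact lt_of_lt_of_le hε hx.2
  have hsupp : ∀ x, x ∉ K → E.indicator (fun x => chi (AA u x / δ) * η x ^ m) x = 0 := by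
    intro x hx
    by_cases hxE : x ∈ E
    · rw [indicator_of_mem hxE]
      by_cases hxη : x ∈ tsupport η
      · have hux : u x < ε := by
          by_contra hc
          exact hx ⟨hxη, not_lt.1 hc⟩
        have h1 := hlay x hxE (hsub hxη) hux
        rw [sub_zero] at h1
        have h2 : AA u x / δ ≤ 1 := by
          rw [div_le_one hδ]
          exact (le_abs_self _).trans h1.le
        rw [chi_eq_zero h2, zero_mul]
      · rw [image_eq_zero_of_notMem_tsupport hxη, zero_pow hm, mul_zero]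
    · exact indicator_of_notMem hxE _
  have hts : tsupport (E.indicator (fun x => chi (AA u x / δ) * η x ^ m)) ⊆ K := by
    apply closure_minimal _ hKcl
    intro x hx
    by_contra hc
    exact hx (hsupp x hc)
  refine ⟨E.indicator (fun x => chi (AA u x / δ) * η x ^ m), ?_, ?_, hts.trans hKE,
    hts.trans inter_subset_left, ?_⟩
  · rw [contDiff_iff_contDiffAt]
    intro x
    by_cases hx : x ∈ E
    · have h1 : ContDiffAt ℝ (⊤ : ℕ∞) (fun x => chi (AA u x / δ) * η x ^ m) x := by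
        have h2 : ContDiffAt ℝ (⊤ : ℕ∞) (AA u) x := h.smooth_AA.contDiffAt (h.isOpen.mem_nhds hx)
        have h3 : ContDiffAt ℝ (⊤ : ℕ∞) (chi ∘ fun x => AA u x / δ) x :=
          ContDiff.comp_contDiffAt x chi_smooth (h2.div_const δ)
        exact h3.mul (hη.smooth.contDiffAt.pow m)
      refine h1.congr_of_eventuallyEq ?_
      filter_upwards [h.isOpen.mem_nhds hx] with y hy
      exact indicator_of_mem hy _
    · have hxK : x ∉ K := fun hc => hx (hKE hc)
      refine (contDiffAt_const (c := (0 : ℝ))).congr_of_eventuallyEq ?_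
      filter_upwards [hKcl.isOpen_compl.mem_nhds hxK] with y hy
      exact hsupp y hy
  · exact hKc.of_isClosed_subset (isClosed_tsupport _) hts
  · intro x hx
    exact indicator_of_mem hx _

/-- the pointwise inequality -/
private theorem d04_ptw {A B : Fin n → Fin n → ℝ} {η η1 θ θ' c δ f g1 Gk Cc : ℝ}
    (hf : f = ∑ i, ∑ j, A i j ^ 2) (hGk : Gk = ∑ i, ∑ j, B i j ^ 2)
    (hθ0 : 0 ≤ θ) (hθ1 : θ ≤ 1) (hθ' : θ ^ 2 ≤ θ')
    (hcf : (c / δ) ^ 2 * f ^ 2 ≤ 4 * Cc ^ 2 * θ') (hg : g1 ^ 2 ≤ 4 * f * Gk) :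
    ∑ i, ∑ j, ((η1 * θ + η * (c * (g1 / δ))) * A i j + θ * η * B i j) ^ 2 ≤
      3 * (η1 ^ 2 * f) + 3 * (16 * Cc ^ 2 + 1) * (θ' * η ^ 2 * Gk) := by
  have hf0 : 0 ≤ f := by rw [hf]; positivity
  have hG0 : 0 ≤ Gk := by rw [hGk]; positivity
  have hη2 : 0 ≤ η ^ 2 := sq_nonneg η
  have hη12 : 0 ≤ η1 ^ 2 := sq_nonneg η1
  have h1 : ∀ i j, ((η1 * θ + η * (c * (g1 / δ))) * A i j + θ * η * B i j) ^ 2 ≤
      3 * (η1 ^ 2 * θ ^ 2 + η ^ 2 * ((c / δ) ^ 2 * g1 ^ 2)) * A i j ^ 2
        + 3 * (θ ^ 2 * η ^ 2) * B i j ^ 2 := by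
    intro i j
    have e1 : c * (g1 / δ) = c / δ * g1 := by ring
    rw [e1]
    nlinarith [sq_nonneg (η1 * θ * A i j - η * (c / δ * g1) * A i j),
      sq_nonneg (η1 * θ * A i j - θ * η * B i j),
      sq_nonneg (η * (c / δ * g1) * A i j - θ * η * B i j)]
  have h2 : ∑ i, ∑ j, ((η1 * θ + η * (c * (g1 / δ))) * A i j + θ * η * B i j) ^ 2 ≤
      3 * (η1 ^ 2 * θ ^ 2 + η ^ 2 * ((c / δ) ^ 2 * g1 ^ 2)) * f + 3 * (θ ^ 2 * η ^ 2) * Gk := by
    rw [hf, hGk, Finset.mul_sum, Finset.mul_sum, ← Finset.sum_add_distrib]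
    refine Finset.sum_le_sum fun i _ => ?_
    rw [Finset.mul_sum, Finset.mul_sum, ← Finset.sum_add_distrib]
    exact Finset.sum_le_sum fun j _ => h1 i j
  have hθ2 : θ ^ 2 ≤ 1 := by nlinarith
  have h3 : η1 ^ 2 * θ ^ 2 * f ≤ η1 ^ 2 * f := by
    have := mul_le_mul_of_nonneg_left hθ2 (mul_nonneg hη12 hf0)
    nlinarith
  have h4 : (c / δ) ^ 2 * g1 ^ 2 * f ≤ 16 * Cc ^ 2 * θ' * Gk := by
    have hc2 : 0 ≤ (c / δ) ^ 2 := sq_nonneg _
    have h41 := mul_le_mul_of_nonneg_left hg (mul_nonneg hc2 hf0)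
    have h42 := mul_le_mul_of_nonneg_right hcf (mul_nonneg (by norm_num : (0 : ℝ) ≤ 4) hG0)
    nlinarith
  have h5 := mul_le_mul_of_nonneg_left h4 hη2
  have h6 : θ ^ 2 * η ^ 2 * Gk ≤ θ' * η ^ 2 * Gk := by
    have := mul_le_mul_of_nonneg_right hθ' (mul_nonneg hη2 hG0)
    nlinarith
  nlinarith

private theorem d04_sum3 (X : Fin n → Fin n → Fin n → ℝ) :
    ∑ i, ∑ j, ∑ k, X i j k = ∑ k, ∑ i, ∑ j, X i j k := by
  have h1 : ∀ i, ∑ j, ∑ k, X i j k = ∑ k, ∑ j, X i j k := fun i => Finset.sum_comm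
  rw [Finset.sum_congr rfl fun i _ => h1 i, Finset.sum_comm]

private theorem d04_tsupport_pow {ζ : V n → ℝ} : tsupport (fun x => ζ x ^ 2) ⊆ tsupport ζ := by
  apply closure_mono
  intro x hx
  rw [Function.mem_support] at hx ⊢
  intro h0
  apply hx
  show ζ x ^ 2 = 0
  rw [h0]
  norm_num

/-- the uniform bound -/
private theorem d04_bound (h : Sol E u) {η : V n → ℝ} (hη : Tst η) : ∃ C, ∀ δ, 0 < δ →
    IntegrableOn (fun x => (chi (AA u x / δ) * η x) ^ 2 * (AA u x / u x ^ 2)) E ∧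
    ∫ x in E, (chi (AA u x / δ) * η x) ^ 2 * (AA u x / u x ^ 2) ≤ C := by
  obtain ⟨a, b, ha, hab, hsub⟩ := hη.ann
  obtain ⟨F, c0, hF1, hc0, hbd⟩ := h.bounds (b := b) ha
  obtain ⟨Cc, hCc1, hCc⟩ := deriv_chi_bdd
  obtain ⟨CE, hCE0, hCE⟩ := h.energy_A hη
  have hF0 : 0 ≤ F := by linarith
  have hpdη : ∀ k, ContDiff ℝ (⊤ : ℕ∞) (pd k η) := fun k => contDiff_pd hη.smooth (by simp) k
  have hpd0 : ∀ k x, x ∉ tsupport η → pd k η x = 0 := by
    intro k x hx
    apply pd_zero_of_eventually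
    filter_upwards [(isClosed_tsupport η).isOpen_compl.mem_nhds hx] with y hy
    exact image_eq_zero_of_notMem_tsupport hy
  obtain ⟨H, hH⟩ : ∃ H : V n → ℝ, H = fun x => ∑ k : Fin n, (3 * F) * (pd k η x) ^ 2 := ⟨_, rfl⟩
  have hHcont : Continuous H := by
    rw [hH]
    refine continuous_finsetSum _ fun k _ => ?_
    exact continuous_const.mul ((hpdη k).continuous.pow 2)
  have hHcs : HasCompactSupport H := by
    apply HasCompactSupport.intro hη.cpt.isCompact
    intro x hx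
    rw [hH]
    apply Finset.sum_eq_zero
    intro k _
    rw [hpd0 k x hx]
    ring
  have hHint : Integrable H := hHcont.integrable_of_hasCompactSupport hHcs
  have hAAc : ContinuousOn (fun x => AA u x / u x ^ 2) E :=
    h.smooth_AA.continuousOn.div (h.smooth.continuousOn.pow 2)
      fun x hx => pow_ne_zero 2 (h.pos x hx).ne'
  have hggc : ContinuousOn (fun x => AA u x * gg u x / u x ^ 2) E :=
    (h.smooth_AA.continuousOn.mul h.smooth_gg.continuousOn).div (h.smooth.continuousOn.pow 2)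
      fun x hx => pow_ne_zero 2 (h.pos x hx).ne'
  have hAA0 : ∀ x, 0 ≤ AA u x := by
    intro x
    have : AA u x = ∑ i, ∑ j, (Aij u i j x) ^ 2 := rfl
    rw [this]; positivity
  refine ⟨c0⁻¹ * (4 * ((∫ x in E, H x) + 3 * (16 * Cc ^ 2 + 1) * CE)), fun δ hδ => ?_⟩
  obtain ⟨ζ, hζs, hζc, hζE, hζη, hζ⟩ := d04_exists_zeta h hη hδ (m := 1) one_ne_zero
  obtain ⟨ξ, hξs, hξc, hξE, hξη, hξ⟩ := d04_exists_zeta h hη (half_pos hδ) (m := 2) two_ne_zero
  simp only [pow_one] at hζ
  have hζ2c : HasCompactSupport (fun x => ζ x ^ 2) :=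
    hζc.of_isClosed_subset (isClosed_tsupport _) d04_tsupport_pow
  have hζ2E : tsupport (fun x => ζ x ^ 2) ⊆ E := d04_tsupport_pow.trans hζE
  have hI1 : Integrable (fun x => ζ x ^ 2 * (AA u x / u x ^ 2)) :=
    integrable_mul_of_tsupport h.isOpen (hζs.continuous.pow 2) hζ2c hζ2E hAAc
  have hI2 : Integrable (fun x => ζ x ^ 2 * (AA u x * gg u x / u x ^ 2)) :=
    integrable_mul_of_tsupport h.isOpen (hζs.continuous.pow 2) hζ2c hζ2E hggc
  have hme : MeasurableSet E := h.isOpen.measurableSet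
  -- the Hardy inequality for the components
  have hζ1 : ContDiff ℝ 1 ζ := hζs.of_le one_le_top'
  have hf1 : ∀ i j, ContDiff ℝ 1 (fun x => ζ x * Aij u i j x) := fun i j =>
    contDiff_mul_of_tsupport h.isOpen hζ1 hζE ((h.smooth_Aij i j).of_le one_le_top')
  have hfs : ∀ i j, tsupport (fun x => ζ x * Aij u i j x) ⊆ tsupport ζ := by
    intro i j
    apply closure_mono
    intro x hx
    rw [Function.mem_support] at hx ⊢
    intro h0
    apply hx
    show ζ x * Aij u i j x = 0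
    rw [h0, zero_mul]
  have hfc : ∀ i j, HasCompactSupport (fun x => ζ x * Aij u i j x) := fun i j =>
    hζc.of_isClosed_subset (isClosed_tsupport _) (hfs i j)
  have hH1 : ∀ i j, ∫ x in E, (ζ x * Aij u i j x) ^ 2 * gg u x / u x ^ 2 ≤
      4 * ∫ x in E, ∑ k, (pd k (fun x => ζ x * Aij u i j x) x) ^ 2 := fun i j =>
    h.hardy (hf1 i j) (hfc i j) ((hfs i j).trans hζE)
  have hI3 : ∀ i j, Integrable (fun x => (ζ x * Aij u i j x) ^ 2 * gg u x / u x ^ 2) := by
    intro i j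
    have hc : ContinuousOn (fun x => (Aij u i j x) ^ 2 * gg u x / u x ^ 2) E :=
      (((h.smooth_Aij i j).continuousOn.pow 2).mul h.smooth_gg.continuousOn).div
        (h.smooth.continuousOn.pow 2) fun x hx => pow_ne_zero 2 (h.pos x hx).ne'
    refine (integrable_mul_of_tsupport h.isOpen (hζs.continuous.pow 2) hζ2c hζ2E hc).congr
      (Filter.Eventually.of_forall fun x => ?_)
    show ζ x ^ 2 * ((Aij u i j x) ^ 2 * gg u x / u x ^ 2) = _
    ring
  have hI4 : ∀ i j, Integrable (fun x => ∑ k, (pd k (fun x => ζ x * Aij u i j x) x) ^ 2) := by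
    intro i j
    refine integrable_finsetSum _ fun k _ => ?_
    have hpc : Continuous (pd k (fun x => ζ x * Aij u i j x)) :=
      (contDiff_pd (m := 0) (hf1 i j) (by simp) k).continuous
    have hcp : HasCompactSupport (pd k (fun x => ζ x * Aij u i j x)) :=
      (hfc i j).fderiv_apply (𝕜 := ℝ) (e k)
    exact (hpc.pow 2).integrable_of_hasCompactSupport
      (hcp.of_isClosed_subset (isClosed_tsupport _) d04_tsupport_pow)
  have hsum : ∫ x in E, ζ x ^ 2 * (AA u x * gg u x / u x ^ 2) =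
      ∑ i, ∑ j, ∫ x in E, (ζ x * Aij u i j x) ^ 2 * gg u x / u x ^ 2 := by
    have e1 : ∀ i, ∑ j, ∫ x in E, (ζ x * Aij u i j x) ^ 2 * gg u x / u x ^ 2 =
        ∫ x in E, ∑ j, (ζ x * Aij u i j x) ^ 2 * gg u x / u x ^ 2 := fun i =>
      (integral_finsetSum _ fun j _ => (hI3 i j).restrict).symm
    rw [Finset.sum_congr rfl fun i _ => e1 i,
      ← integral_finsetSum _ fun i _ => (integrable_finsetSum _ fun j _ => (hI3 i j).restrict)]
    refine integral_congr_ae (Filter.Eventually.of_forall fun x => ?_)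
    show ζ x ^ 2 * (AA u x * gg u x / u x ^ 2) =
      ∑ i, ∑ j, (ζ x * Aij u i j x) ^ 2 * gg u x / u x ^ 2
    have : AA u x = ∑ i, ∑ j, (Aij u i j x) ^ 2 := rfl
    rw [this, Finset.sum_mul, Finset.sum_div, Finset.mul_sum]
    refine Finset.sum_congr rfl fun i _ => ?_
    rw [Finset.sum_mul, Finset.sum_div, Finset.mul_sum]
    refine Finset.sum_congr rfl fun j _ => ?_
    ring
  have hsum2 : ∑ i, ∑ j, (4 * ∫ x in E, ∑ k, (pd k (fun x => ζ x * Aij u i j x) x) ^ 2) =
      4 * ∫ x in E, ∑ i, ∑ j, ∑ k, (pd k (fun x => ζ x * Aij u i j x) x) ^ 2 := by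
    rw [integral_finsetSum _ fun i _ => (integrable_finsetSum _ fun j _ => (hI4 i j).restrict),
      Finset.mul_sum]
    refine Finset.sum_congr rfl fun i _ => ?_
    rw [integral_finsetSum _ fun j _ => (hI4 i j).restrict, Finset.mul_sum]
  have hGAc : ContinuousOn (GA u) E := by
    have : GA u = fun x => ∑ k, ∑ i, ∑ j, (pd k (Aij u i j) x) ^ 2 := rfl
    rw [this]
    refine continuousOn_finsetSum _ fun k _ => continuousOn_finsetSum _ fun i _ =>
      continuousOn_finsetSum _ fun j _ => ?_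
    exact ((contDiffOn_pd_top h.isOpen (h.smooth_Aij i j) k).continuousOn).pow 2
  have hI5 : Integrable (fun x => ξ x * GA u x) :=
    integrable_mul_of_tsupport h.isOpen hξs.continuous hξc hξE hGAc
  -- pointwise bound
  have hpt : ∀ x ∈ E, ∑ i, ∑ j, ∑ k, (pd k (fun x => ζ x * Aij u i j x) x) ^ 2 ≤
      H x + 3 * (16 * Cc ^ 2 + 1) * (ξ x * GA u x) := by
    intro x hx
    have hAAd : DifferentiableAt ℝ (AA u) x := diffAt h.isOpen h.smooth_AA hx
    have hηd : DifferentiableAt ℝ η x := hη.smooth.differentiable (by simp) x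
    have hζd : DifferentiableAt ℝ ζ x := hζs.differentiable (by simp) x
    have hchid : DifferentiableAt ℝ chi (AA u x / δ) := chi_smooth.differentiable (by simp) _
    have hpdζ : ∀ k, pd k ζ x = pd k η x * chi (AA u x / δ) +
        η x * (deriv chi (AA u x / δ) * (pd k (AA u) x / δ)) := by
      intro k
      rw [pd_congr h.isOpen hζ k x hx]
      have e0 : (fun y => AA u y / δ) = fun y => δ⁻¹ * AA u y := by
        funext y; rw [div_eq_inv_mul]
      have dd : DifferentiableAt ℝ (fun y => AA u y / δ) x := by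
        rw [e0]; exact hAAd.const_mul _
      have e1 : pd k (fun y => AA u y / δ) x = pd k (AA u) x / δ := by
        rw [e0, pd_const_mul, div_eq_inv_mul]
      have e2 : pd k (fun y => chi (AA u y / δ)) x =
          deriv chi (AA u x / δ) * (pd k (AA u) x / δ) := by
        rw [pd_comp (φ := chi) (f := fun y => AA u y / δ) hchid dd, e1]
      have d3 : DifferentiableAt ℝ (chi ∘ fun y => AA u y / δ) x :=
        DifferentiableAt.comp x hchid dd
      rw [pd_mul (f := fun y => chi (AA u y / δ)) (g := η) d3 hηd, e2]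
      ring
    rw [d04_sum3]
    have e4 : H x + 3 * (16 * Cc ^ 2 + 1) * (ξ x * GA u x) =
        ∑ k, ((3 * F) * (pd k η x) ^ 2 + 3 * (16 * Cc ^ 2 + 1) *
          (chi (AA u x / (δ / 2)) * η x ^ 2 * ∑ i, ∑ j, (pd k (Aij u i j) x) ^ 2)) := by
      rw [Finset.sum_add_distrib, hH, hξ x hx]
      congr 1
      have : GA u x = ∑ k, ∑ i, ∑ j, (pd k (Aij u i j) x) ^ 2 := rfl
      rw [this, Finset.mul_sum, Finset.mul_sum]
    rw [e4]
    apply Finset.sum_le_sum
    intro k _
    have hA : ∀ i j, pd k (fun x => ζ x * Aij u i j x) x =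
        (pd k η x * chi (AA u x / δ) +
          η x * (deriv chi (AA u x / δ) * (pd k (AA u) x / δ))) * Aij u i j x +
        chi (AA u x / δ) * η x * pd k (Aij u i j) x := by
      intro i j
      have hd : DifferentiableAt ℝ (Aij u i j) x := diffAt h.isOpen (h.smooth_Aij i j) hx
      rw [pd_mul hζd hd, hpdζ k, hζ x hx]
    rw [Finset.sum_congr rfl fun i _ => Finset.sum_congr rfl fun j _ => by rw [hA i j]]
    have hg : (pd k (AA u) x) ^ 2 ≤ 4 * AA u x * ∑ i, ∑ j, (pd k (Aij u i j) x) ^ 2 := by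
      rw [d04_pd_AA h k hx]
      have h1 := d04_cs2 (fun i j => Aij u i j x) (fun i j => pd k (Aij u i j) x)
      have h2 : ∑ i, ∑ j, 2 * (Aij u i j x * pd k (Aij u i j) x) =
          2 * ∑ i, ∑ j, Aij u i j x * pd k (Aij u i j) x := by
        rw [Finset.mul_sum]
        refine Finset.sum_congr rfl fun i _ => ?_
        rw [Finset.mul_sum]
      rw [h2]
      have h3 : AA u x = ∑ i, ∑ j, (Aij u i j x) ^ 2 := rfl
      rw [h3]
      nlinarith
    have hθ' : chi (AA u x / δ) ^ 2 ≤ chi (AA u x / (δ / 2)) := by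
      have h1 : chi (AA u x / δ) ≤ chi (AA u x / (δ / 2)) := by
        apply chi_mono
        have h2 : AA u x / (δ / 2) = 2 * (AA u x / δ) := by field_simp
        have h3 : 0 ≤ AA u x / δ := div_nonneg (hAA0 x) hδ.le
        rw [h2]; linarith
      have h4 := chi_nonneg (AA u x / δ)
      have h5 := chi_le_one (AA u x / δ)
      nlinarith
    have hcf : (deriv chi (AA u x / δ) / δ) ^ 2 * AA u x ^ 2 ≤
        4 * Cc ^ 2 * chi (AA u x / (δ / 2)) := by
      by_cases hs : AA u x / δ ∈ Icc (1 : ℝ) 2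
      · have h1 : chi (AA u x / (δ / 2)) = 1 := by
          apply chi_eq_one
          have h2 : AA u x / (δ / 2) = 2 * (AA u x / δ) := by field_simp
          rw [h2]; linarith [hs.1]
        rw [h1]
        have h2 : (deriv chi (AA u x / δ) / δ) ^ 2 * AA u x ^ 2 =
            deriv chi (AA u x / δ) ^ 2 * (AA u x / δ) ^ 2 := by
          field_simp
        rw [h2]
        have h3 : deriv chi (AA u x / δ) ^ 2 ≤ Cc ^ 2 :=
          sq_le_sq' (by linarith [(abs_le.1 (hCc (AA u x / δ))).1])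
            (abs_le.1 (hCc (AA u x / δ))).2
        have h4 : (AA u x / δ) ^ 2 ≤ 2 ^ 2 :=
          pow_le_pow_left₀ (by linarith [hs.1]) hs.2 2
        have h5 : deriv chi (AA u x / δ) ^ 2 * (AA u x / δ) ^ 2 ≤ Cc ^ 2 * 2 ^ 2 :=
          mul_le_mul h3 h4 (sq_nonneg _) (sq_nonneg _)
        linarith
      · rw [deriv_chi_eq_zero hs]
        have := chi_nonneg (AA u x / (δ / 2))
        have h2 : 0 ≤ 4 * Cc ^ 2 * chi (AA u x / (δ / 2)) := by positivity
        simpa using h2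
    have hmain := d04_ptw (A := fun i j => Aij u i j x) (B := fun i j => pd k (Aij u i j) x)
      (η := η x) (η1 := pd k η x) (θ := chi (AA u x / δ)) (θ' := chi (AA u x / (δ / 2)))
      (c := deriv chi (AA u x / δ)) (δ := δ) (f := AA u x) (g1 := pd k (AA u) x)
      (Gk := ∑ i, ∑ j, (pd k (Aij u i j) x) ^ 2) (Cc := Cc) rfl rfl (chi_nonneg _)
      (chi_le_one _) hθ' hcf hg
    refine hmain.trans ?_
    have h9 : pd k η x ^ 2 * AA u x ≤ F * pd k η x ^ 2 := by
      by_cases hxη : x ∈ tsupport η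
      · have hfF : AA u x ≤ F := (hbd x hx (hsub hxη)).2.2.2.2.2.2.2.2.1
        have := mul_le_mul_of_nonneg_left hfF (sq_nonneg (pd k η x))
        linarith
      · rw [hpd0 k x hxη]
        norm_num
    linarith
  have hIH : IntegrableOn (fun x => H x + 3 * (16 * Cc ^ 2 + 1) * (ξ x * GA u x)) E :=
    (hHint.add (hI5.const_mul _)).integrableOn
  have hfin1 : ∫ x in E, ∑ i, ∑ j, ∑ k, (pd k (fun x => ζ x * Aij u i j x) x) ^ 2 ≤
      (∫ x in E, H x) + 3 * (16 * Cc ^ 2 + 1) * CE := by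
    have h1 : ∫ x in E, ∑ i, ∑ j, ∑ k, (pd k (fun x => ζ x * Aij u i j x) x) ^ 2 ≤
        ∫ x in E, (H x + 3 * (16 * Cc ^ 2 + 1) * (ξ x * GA u x)) := by
      refine setIntegral_mono_on ?_ hIH hme hpt
      exact (integrable_finsetSum _ fun i _ => integrable_finsetSum _ fun j _ =>
        hI4 i j).integrableOn
    rw [integral_add hHint.integrableOn (hI5.const_mul _).integrableOn,
      integral_const_mul] at h1
    have h2 : ∫ x in E, ξ x * GA u x ≤ CE := by
      refine le_trans (le_of_eq ?_) (hCE (δ / 2) (half_pos hδ))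
      apply setIntegral_congr_fun hme
      intro x hx
      simp only [hξ x hx]
    have h3 := mul_le_mul_of_nonneg_left h2 (by positivity : 0 ≤ 3 * (16 * Cc ^ 2 + 1))
    linarith
  have hfin2 : ∫ x in E, ζ x ^ 2 * (AA u x * gg u x / u x ^ 2) ≤
      4 * ((∫ x in E, H x) + 3 * (16 * Cc ^ 2 + 1) * CE) := by
    rw [hsum]
    refine (Finset.sum_le_sum fun i _ => Finset.sum_le_sum fun j _ => hH1 i j).trans ?_
    rw [hsum2]
    linarith
  have hcongr : ∀ x ∈ E, (chi (AA u x / δ) * η x) ^ 2 * (AA u x / u x ^ 2) =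
      ζ x ^ 2 * (AA u x / u x ^ 2) := by
    intro x hx
    rw [hζ x hx]
  refine ⟨?_, ?_⟩
  · exact (integrableOn_congr_fun hcongr hme).2 hI1.integrableOn
  · rw [setIntegral_congr_fun hme hcongr]
    have h1 : ∫ x in E, ζ x ^ 2 * (AA u x / u x ^ 2) ≤
        ∫ x in E, c0⁻¹ * (ζ x ^ 2 * (AA u x * gg u x / u x ^ 2)) := by
      refine setIntegral_mono_on hI1.integrableOn (hI2.const_mul _).integrableOn hme ?_
      intro x hx
      by_cases hxη : x ∈ tsupport η
      · have hcg : c0 ≤ gg u x := (hbd x hx (hsub hxη)).2.2.2.2.2.2.2.2.2.2.2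
        have h2 : ζ x ^ 2 * (AA u x / u x ^ 2) = c0⁻¹ * (ζ x ^ 2 * (AA u x / u x ^ 2) * c0) := by
          field_simp
        rw [h2]
        have h3 : ζ x ^ 2 * (AA u x / u x ^ 2) * c0 ≤ ζ x ^ 2 * (AA u x / u x ^ 2) * gg u x :=
          mul_le_mul_of_nonneg_left hcg
            (mul_nonneg (sq_nonneg _) (div_nonneg (hAA0 x) (sq_nonneg _)))
        have h4 : ζ x ^ 2 * (AA u x / u x ^ 2) * gg u x =
            ζ x ^ 2 * (AA u x * gg u x / u x ^ 2) := by ring
        rw [h4] at h3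
        exact mul_le_mul_of_nonneg_left h3 (inv_nonneg.2 hc0.le)
      · have h0 : ζ x = 0 := image_eq_zero_of_notMem_tsupport fun hc => hxη (hζη hc)
        rw [h0]
        simp
    rw [integral_const_mul] at h1
    exact h1.trans (mul_le_mul_of_nonneg_left hfin2 (inv_nonneg.2 hc0.le))

private theorem d04_measAnn (a b : ℝ) : MeasurableSet (Ann a b : Set (V n)) := by
  have : (Ann a b : Set (V n)) = (fun x => ‖x‖) ⁻¹' (Icc a b) := rfl
  rw [this]
  exact (isClosed_Icc.preimage continuous_norm).measurableSet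

/-- `|A|²/u²` is integrable on annuli.
Sketch: `η` as in `exists_tst`. For `δ > 0` apply `Sol.hardy` to `f_{ij} = chi (AA/δ) η A_{ij}`
(smooth, compactly supported in `E` by `Sol.lay_AA`); `∇ f_{ij}` is bounded by
`|A||∇η| + η chi |∇A| + η |A| chi'(AA/δ) |∇AA|/δ` and `|∇AA| ≤ 2 |A| |∇A|`,
`chi'(AA/δ) |A|²/δ ≤ 2 C 1_{δ ≤ AA}`; where `AA ≥ δ`, `chi (AA/(δ/2)) = 1`, so the right side is
bounded uniformly in `δ` by `Sol.energy_A` (with `δ/2`). `gg ≥ c` on the annulus. Let `δ → 0`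
(Fatou / monotone convergence). -/
theorem Sol.int_AA_div (h : Sol E u) {a b : ℝ} (ha : 0 < a) :
    IntegrableOn (fun x => AA u x / u x ^ 2) (E ∩ Ann a b) := by
  obtain ⟨η, hη, hη0, hη1, hηA, -⟩ := exists_tst (n := n) (a := a) (b := max b 0) ha
    (le_max_right _ _)
  obtain ⟨C, hC⟩ := d04_bound h hη
  have hme : MeasurableSet E := h.isOpen.measurableSet
  have hmA : MeasurableSet (E ∩ Ann a b) := hme.inter (d04_measAnn a b)
  have hAA0 : ∀ x, 0 ≤ AA u x := by
    intro x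
    have : AA u x = ∑ i, ∑ j, (Aij u i j x) ^ 2 := rfl
    rw [this]; positivity
  have hAAc : ContinuousOn (fun x => AA u x / u x ^ 2) E :=
    h.smooth_AA.continuousOn.div (h.smooth.continuousOn.pow 2)
      fun x hx => pow_ne_zero 2 (h.pos x hx).ne'
  have hδ : ∀ m : ℕ, (0 : ℝ) < 1 / ((m : ℝ) + 1) := fun m => by positivity
  obtain ⟨f, hf⟩ : ∃ f : ℕ → V n → ℝ, f = fun (m : ℕ) x =>
    (chi (AA u x / (1 / ((m : ℝ) + 1))) * η x) ^ 2 * (AA u x / u x ^ 2) := ⟨_, rfl⟩
  have hfI : ∀ m, IntegrableOn (f m) E := fun m => by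
    rw [hf]; exact (hC _ (hδ m)).1
  have hfC : ∀ m, ∫ x in E, f m x ≤ C := fun m => by
    rw [hf]; exact (hC _ (hδ m)).2
  have hf0 : ∀ m x, 0 ≤ f m x := by
    intro m x
    rw [hf]
    exact mul_nonneg (sq_nonneg _) (div_nonneg (hAA0 x) (sq_nonneg _))
  have hlim : ∀ x ∈ E ∩ Ann a b, Tendsto (fun m => f m x) atTop (𝓝 (AA u x / u x ^ 2)) := by
    intro x hx
    have hηx : η x = 1 := hηA x ⟨hx.2.1, hx.2.2.trans (le_max_left _ _)⟩
    rcases (hAA0 x).eq_or_lt with h0 | h0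
    · rw [hf]
      simp only [← h0]
      simp
    · have hlarge : ∀ᶠ m : ℕ in atTop, 2 ≤ AA u x / (1 / ((m : ℝ) + 1)) := by
        obtain ⟨M, hM⟩ := exists_nat_gt (2 / AA u x)
        filter_upwards [eventually_ge_atTop M] with m hm
        have h1 : (M : ℝ) ≤ m := by exact_mod_cast hm
        have h2 : 2 < (M : ℝ) * AA u x := by
          rwa [div_lt_iff₀ h0] at hM
        have h3 : AA u x / (1 / ((m : ℝ) + 1)) = AA u x * ((m : ℝ) + 1) := by
          field_simp
        rw [h3]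
        nlinarith
      refine tendsto_const_nhds.congr' ?_
      filter_upwards [hlarge] with m hm
      rw [hf]
      show AA u x / u x ^ 2 = (chi (AA u x / (1 / ((m : ℝ) + 1))) * η x) ^ 2 * (AA u x / u x ^ 2)
      rw [chi_eq_one hm, hηx]
      ring
  refine ⟨(hAAc.mono inter_subset_left).aestronglyMeasurable hmA, ?_⟩
  rw [hasFiniteIntegral_iff_ofReal]
  swap
  · exact Filter.Eventually.of_forall fun x => div_nonneg (hAA0 x) (sq_nonneg _)
  have h1 : ∫⁻ x in E ∩ Ann a b, ENNReal.ofReal (AA u x / u x ^ 2) =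
      ∫⁻ x in E ∩ Ann a b, liminf (fun m => ENNReal.ofReal (f m x)) atTop := by
    refine setLIntegral_congr_fun hmA fun x hx => ?_
    exact ((ENNReal.tendsto_ofReal (hlim x hx)).liminf_eq).symm
  have h2 : ∫⁻ x in E ∩ Ann a b, liminf (fun m => ENNReal.ofReal (f m x)) atTop ≤
      liminf (fun m => ∫⁻ x in E ∩ Ann a b, ENNReal.ofReal (f m x)) atTop := by
    apply lintegral_liminf_le'
    intro m
    exact ((hfI m).mono_set inter_subset_left).aestronglyMeasurable.aemeasurable.ennreal_ofReal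
  have h3 : ∀ m, ∫⁻ x in E ∩ Ann a b, ENNReal.ofReal (f m x) ≤ ENNReal.ofReal C := by
    intro m
    calc ∫⁻ x in E ∩ Ann a b, ENNReal.ofReal (f m x)
        ≤ ∫⁻ x in E, ENNReal.ofReal (f m x) := lintegral_mono_set inter_subset_left
      _ = ENNReal.ofReal (∫ x in E, f m x) :=
          (ofReal_integral_eq_lintegral_ofReal (hfI m)
            (Filter.Eventually.of_forall fun x => hf0 m x)).symm
      _ ≤ ENNReal.ofReal C := ENNReal.ofReal_le_ofReal (hfC m)
  rw [h1]
  refine lt_of_le_of_lt (h2.trans ?_) (ENNReal.ofReal_lt_top (r := C))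
  exact liminf_le_of_le (by isBoundedDefault) (fun b hb => by
    obtain ⟨m, hm⟩ := hb.exists
    exact hm.trans (h3 m))

/-- hence also `|a|²/u²` (`Sol.AA_eq`, `gg ≥ c`) -/
theorem Sol.int_a2_div (h : Sol E u) {a b : ℝ} (ha : 0 < a) :
    IntegrableOn (fun x => a2 u x / u x ^ 2) (E ∩ Ann a b) := by
  obtain ⟨F, c0, hF1, hc0, hbd⟩ := h.bounds (b := b) ha
  have hme : MeasurableSet E := h.isOpen.measurableSet
  have hmA : MeasurableSet (E ∩ Ann a b) := hme.inter (d04_measAnn a b)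
  have ha2c : ContinuousOn (a2 u) E := by
    have : a2 u = fun x => ∑ i, (aa u i x) ^ 2 := rfl
    rw [this]
    exact continuousOn_finsetSum _ fun i _ => ((h.smooth_aa i).continuousOn).pow 2
  have hc : ContinuousOn (fun x => a2 u x / u x ^ 2) E :=
    ha2c.div (h.smooth.continuousOn.pow 2) fun x hx => pow_ne_zero 2 (h.pos x hx).ne'
  refine Integrable.mono' ((h.int_AA_div (b := b) ha).const_mul (2 * c0)⁻¹)
    ((hc.mono inter_subset_left).aestronglyMeasurable hmA) ?_
  rw [ae_restrict_iff' hmA]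
  refine Filter.Eventually.of_forall fun x hx => ?_
  have hcg : c0 ≤ gg u x := (hbd x hx.1 hx.2).2.2.2.2.2.2.2.2.2.2.2
  have ha20 : 0 ≤ a2 u x := by
    have : a2 u x = ∑ i, (aa u i x) ^ 2 := rfl
    rw [this]; positivity
  have hu2 : 0 < u x ^ 2 := pow_pos (h.pos x hx.1) 2
  rw [Real.norm_of_nonneg (div_nonneg ha20 hu2.le), h.AA_eq hx.1]
  have h1 : a2 u x ≤ (2 * c0)⁻¹ * (2 * gg u x * a2 u x) := by
    rw [inv_mul_eq_div, le_div_iff₀ (by positivity)]
    have := mul_le_mul_of_nonneg_right hcg ha20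
    nlinarith
  rw [← mul_div_assoc]
  exact div_le_div_of_nonneg_right h1 hu2.le

end OPC
end
end
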