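import Mathlib

/-!
# Stable one-phase cones (MP_9059b8_an): definitions for the PDE side

`Sol E u` collects the hypotheses of the frozen statement `S05381` (except stability) in dimension
`n`; `Stab u` is the stability hypothesis, literally as in the frozen statement.

Coordinates: `e i` is the standard basis, `pd i f` the partial derivative; the jets of `u` are
`q u i = ∂_i u`, `S u i j = ∂_i ∂_j u`, `T u i j k = ∂_i ∂_j ∂_k u` (all meaningful on `E` only).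
-/

open MeasureTheory Set Filter Topology

namespace OPC

/-- `ℝ^n`. -/
abbrev V (n : ℕ) := EuclideanSpace ℝ (Fin n)

variable {n : ℕ}

/-- standard basis vector -/
noncomputable def e (i : Fin n) : V n := EuclideanSpace.single i (1 : ℝ)

/-- partial derivative in the direction `e i` -/
noncomputable def pd (i : Fin n) (f : V n → ℝ) (x : V n) : ℝ := fderiv ℝ f x (e i)

/-- The hypotheses of `S05381` (dimension `n`), without stability. -/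
structure Sol (E : Set (V n)) (u : V n → ℝ) : Prop where
  isOpen : IsOpen E
  ne : E.Nonempty
  bdry : ∀ p ∈ frontier E, p ≠ 0 → ∃ U ∈ nhds p, ∃ f : V n → ℝ,
    ContDiff ℝ 2 f ∧ fderiv ℝ f p ≠ 0 ∧ ∀ x ∈ U, (x ∈ E ↔ 0 < f x)
  cont : Continuous u
  hom : ∀ t : ℝ, 0 < t → ∀ x, u (t • x) = t * u x
  pos : ∀ x ∈ E, 0 < u x
  zero : ∀ x ∉ E, u x = 0
  c2 : ContDiffOn ℝ 2 u E
  harm : ∀ x ∈ E, ∑ i : Fin n, fderiv ℝ (fderiv ℝ u) x
    (EuclideanSpace.single i (1 : ℝ)) (EuclideanSpace.single i (1 : ℝ)) = 0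
  reg : ∀ p ∈ frontier E, p ≠ 0 → ∃ U ∈ nhds p, ∃ g : V n → ℝ,
    ContDiff ℝ 2 g ∧ (∀ x ∈ U ∩ E, g x = u x) ∧ ‖fderiv ℝ g p‖ = 1

/-- The stability hypothesis of `S05381`. -/
def Stab (u : V n → ℝ) : Prop :=
  ∀ Ψ : V n → V n, ContDiff ℝ (⊤ : ℕ∞) Ψ → tsupport Ψ ⊆ Metric.ball 0 1 →
    (0 : V n) ∉ tsupport Ψ →
    0 ≤ deriv (deriv (fun t : ℝ =>
      ∫ x in Metric.ball (0 : V n) 1,
        (‖fderiv ℝ (fun y => u (y + t • Ψ y)) x‖ ^ 2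
          + Set.indicator {y | 0 < u (y + t • Ψ y)} (fun _ => (1 : ℝ)) x))) 0

/-- closed annulus -/
def Ann (a b : ℝ) : Set (V n) := {x | a ≤ ‖x‖ ∧ ‖x‖ ≤ b}

/-- test functions: smooth, compactly supported away from the origin -/
structure Tst (η : V n → ℝ) : Prop where
  smooth : ContDiff ℝ (⊤ : ℕ∞) η
  cpt : HasCompactSupport η
  zero : (0 : V n) ∉ tsupport η

/-- gradient -/
noncomputable def q (u : V n → ℝ) (i : Fin n) : V n → ℝ := pd i u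
/-- Hessian -/
noncomputable def S (u : V n → ℝ) (i j : Fin n) : V n → ℝ := pd i (pd j u)
/-- third derivatives -/
noncomputable def T (u : V n → ℝ) (i j k : Fin n) : V n → ℝ := pd i (pd j (pd k u))

/-- `|D²u|²` -/
noncomputable def NN (u : V n → ℝ) (x : V n) : ℝ := ∑ i, ∑ j, (S u i j x) ^ 2
/-- `|D³u|²` -/
noncomputable def TT (u : V n → ℝ) (x : V n) : ℝ := ∑ i, ∑ j, ∑ k, (T u i j k x) ^ 2
/-- `|∇u|²` -/
noncomputable def gg (u : V n → ℝ) (x : V n) : ℝ := ∑ i, (q u i x) ^ 2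
/-- `w = D²u ∇u = ∇ (|∇u|²/2)` -/
noncomputable def w (u : V n → ℝ) (i : Fin n) (x : V n) : ℝ := ∑ j, S u i j x * q u j x
/-- `σ = (∇u · D²u ∇u)/|∇u|²` -/
noncomputable def sg (u : V n → ℝ) (x : V n) : ℝ := (∑ i, q u i x * w u i x) / gg u x
/-- `a = w - σ ∇u` -/
noncomputable def aa (u : V n → ℝ) (i : Fin n) (x : V n) : ℝ := w u i x - sg u x * q u i x
/-- `A = ∇u ∧ w` -/
noncomputable def Aij (u : V n → ℝ) (i j : Fin n) (x : V n) : ℝ :=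
  q u i x * w u j x - q u j x * w u i x
/-- `|A|²`; note `|A|² = 2 |∇u|² |a|²` -/
noncomputable def AA (u : V n → ℝ) (x : V n) : ℝ := ∑ i, ∑ j, (Aij u i j x) ^ 2
/-- `|∇A|²` -/
noncomputable def GA (u : V n → ℝ) (x : V n) : ℝ := ∑ k, ∑ i, ∑ j, (pd k (Aij u i j) x) ^ 2
/-- `|a|²` -/
noncomputable def a2 (u : V n → ℝ) (x : V n) : ℝ := ∑ i, (aa u i x) ^ 2

/-- `g → c` uniformly at the free boundary on annuli: for every annulus and `δ > 0` there is a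
layer `{0 < u < ε}` on which `|g - c| < δ`. -/
def Lay (E : Set (V n)) (u g : V n → ℝ) (c : ℝ) : Prop :=
  ∀ a b : ℝ, 0 < a → ∀ δ > 0, ∃ ε > 0, ∀ x ∈ E, x ∈ Ann a b → u x < ε → |g x - c| < δ

/-- one-sided version: `liminf g ≥ c` at the free boundary, uniformly on annuli -/
def LayGe (E : Set (V n)) (u g : V n → ℝ) (c : ℝ) : Prop :=
  ∀ a b : ℝ, 0 < a → ∀ δ > 0, ∃ ε > 0, ∀ x ∈ E, x ∈ Ann a b → u x < ε → c - δ < g x

/-- smooth cutoff on `ℝ`: `0` for `s ≤ 1`, `1` for `s ≥ 2` -/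
noncomputable def chi (s : ℝ) : ℝ := Real.smoothTransition (s - 1)

/-- the cutoff `χ(u/ε) η` -/
noncomputable def cut (u η : V n → ℝ) (ε : ℝ) (x : V n) : ℝ := chi (u x / ε) * η x

/-- the (bounded) field `G` with `Δ A_{ij} = ∑_k ∂_k G^k_{ij}` -/
noncomputable def Gf (u : V n → ℝ) (i j k : Fin n) (x : V n) : ℝ :=
  2 * (S u i k x * w u j x - S u j k x * w u i x)
    + NN u x * (q u i x * (if j = k then 1 else 0) - q u j x * (if i = k then 1 else 0))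

/-- the (discontinuous) gradient of `u`, extended by `0` -/
noncomputable def qt (E : Set (V n)) (u : V n → ℝ) (i : Fin n) : V n → ℝ := E.indicator (q u i)

/-- the quadratic form of the second variation -/
noncomputable def I2 (A : Fin n → Fin n → ℝ) (p : Fin n → ℝ) : ℝ :=
  ∑ j, (∑ i, A i j * p i) ^ 2 + 2 * ∑ j, (∑ i, A i j * p i) * (∑ k, A j k * p k)
    - 2 * (∑ i, ∑ j, p i * A i j * p j) * (∑ i, A i i)
    + (1 / 2) * (∑ i, p i ^ 2 + 1) * ((∑ i, A i i) ^ 2 - ∑ i, ∑ j, A i j * A j i)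

/-- The field `X_t = (1 + t DΨ)⁻¹ Ψ`. -/
noncomputable def Xf (Ψ : V n → V n) (t : ℝ) (x : V n) : V n :=
  (Ring.inverse (1 + t • fderiv ℝ Ψ x : V n →L[ℝ] V n)) (Ψ x)

/-- the transport operator `L k = ∂_t k - div (k X)` -/
noncomputable def Lop (Ψ : V n → V n) (k : ℝ → V n → ℝ) (t : ℝ) (x : V n) : ℝ :=
  deriv (fun s => k s x) t - ∑ i, pd i (fun y => k t y * Xf Ψ t y i) x

/-- `h` is a bounded pointwise limit of `C¹` functions -/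
def Appr (h : V n → ℝ) : Prop :=
  ∃ (M : ℝ) (hm : ℕ → V n → ℝ), (∀ m, ContDiff ℝ 1 (hm m)) ∧ (∀ m x, |hm m x| ≤ M) ∧
    ∀ x, Tendsto (fun m => hm m x) atTop (𝓝 (h x))

/-- the regularised power `chi (s/δ) s^{ϖ/2-1}` -/
noncomputable def kδ (ϖ δ s : ℝ) : ℝ := chi (s / δ) * s ^ (ϖ / 2 - 1)

/-- the error integral near `{S = 0}` -/
noncomputable def errS (E : Set (V n)) (u : V n → ℝ) (ϖ a b δ : ℝ) : ℝ :=
  ∫ x in E ∩ Ann a b ∩ {x | NN u x ≠ 0} ∩ {x | ‖x‖ ^ 2 * NN u x < 2 * δ},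
    (NN u x ^ (ϖ / 2 - 1) * TT u x + NN u x ^ (ϖ / 2))

/-- cutoff near `{S = 0}`, homogeneous of degree `0` -/
noncomputable def th (u : V n → ℝ) (δ : ℝ) (x : V n) : ℝ := chi (‖x‖ ^ 2 * NN u x / δ)

/-- A certificate for the cone `(E, u)`: `F = φ²` and the vector field `W` on `E ∩ {S ≠ 0}`. -/
structure PCert (E : Set (V n)) (u : V n → ℝ) (F : V n → ℝ) (W : Fin n → V n → ℝ) (ϖ t : ℝ) :
    Prop where
  F_smooth : ContDiffOn ℝ (⊤ : ℕ∞) F (E ∩ {x | NN u x ≠ 0})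
  F_hom : ∀ s : ℝ, 0 < s → ∀ x ∈ E, NN u x ≠ 0 → F (s • x) = s ^ (2 - (n : ℤ)) * F x
  W_smooth : ∀ k, ContDiffOn ℝ 1 (W k) (E ∩ {x | NN u x ≠ 0})
  W_hom : ∀ k, ∀ s : ℝ, 0 < s → ∀ x ∈ E, NN u x ≠ 0 → W k (s • x) = s ^ (1 - (n : ℤ)) * W k x
  growth : ∀ a b : ℝ, 0 < a → ∃ C, 1 ≤ C ∧ ∀ x ∈ E, x ∈ Ann a b → NN u x ≠ 0 →
    C⁻¹ * NN u x ^ (ϖ / 2) ≤ F x ∧ F x ≤ C * NN u x ^ (ϖ / 2) ∧
    (∀ k, |pd k F x| ≤ C * NN u x ^ ((ϖ - 1) / 2) * (√(TT u x) + √(NN u x))) ∧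
    (∀ k, |W k x| ≤ C * NN u x ^ ((ϖ - 1) / 2) * (√(TT u x) + √(NN u x)))
  ineq : ∀ x ∈ E, NN u x ≠ 0 →
    (∑ k, (pd k F x) ^ 2) / (4 * F x) - ∑ k, pd k F x * w u k x - NN u x * F x
      + t * (F x / ‖x‖ ^ 2) ≤ ∑ k, pd k (W k) x
  flux : ∀ η : V n → ℝ, Tst η → (∀ x, 0 ≤ η x) → ∀ δ > 0, ∀ c > 0, ∀ᶠ ε in 𝓝[>] (0 : ℝ),
    -c ≤ ε⁻¹ * ∫ x in E, deriv chi (u x / ε) * η x * ((th u δ x) ^ 2 * ∑ k, q u k x * W k x)

/-- The 2-jets at the free boundary. `Jet n` = (x, gradient, Hessian). -/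
abbrev Jet (n : ℕ) := V n × (Fin n → ℝ) × (Fin n → Fin n → ℝ)

/-- the 2-jet of `u` -/
noncomputable def jet (u : V n → ℝ) (x : V n) : Jet n :=
  (x, fun i => q u i x, fun i j => S u i j x)

/-- the set of possible boundary states `(x, q, S)`: `|q| = 1`, `x·q = 0`, `S` symmetric,
traceless, `S x = 0`, `S q = σ q`, `σ ≤ 0`, `S ≠ 0`. -/
def BState (n : ℕ) : Set (Jet n) :=
  {J | J.1 ≠ 0 ∧ ∑ i, J.2.1 i ^ 2 = 1 ∧ ∑ i, J.1 i * J.2.1 i = 0 ∧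
    (∀ i j, J.2.2 i j = J.2.2 j i) ∧ ∑ i, J.2.2 i i = 0 ∧ (∀ i, ∑ j, J.2.2 i j * J.1 j = 0) ∧
    (∃ σ : ℝ, σ ≤ 0 ∧ ∀ i, ∑ j, J.2.2 i j * J.2.1 j = σ * J.2.1 i) ∧ J.2.2 ≠ 0}

end OPC
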