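import Pool.Agent.Lib.MP_9059b8_an.A10
import Pool.Agent.Lib.MP_9059b8_an.D04
import Pool.Agent.Lib.MP_9059b8_an.B05
import Pool.Agent.Lib.MP_9059b8_an.A11

section

section

/-! # D05: the flux identity -/

open MeasureTheory Set Filter Topology

namespace OPC

variable {n : ℕ} {E : Set (V n)} {u : V n → ℝ}

private theorem Sol.pd_w_decomp (h : Sol E u) {x : V n} (hx : x ∈ E) (j i : Fin n) :
    pd j (w u i) x = pd j (sg u) x * q u i x + sg u x * S u j i x + pd j (aa u i) x := by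
  have hs : DifferentiableAt ℝ (sg u) x := diffAt h.isOpen h.smooth_sg hx
  have hw : DifferentiableAt ℝ (w u i) x := diffAt h.isOpen (h.smooth_w i) hx
  have h1 : pd j (aa u i) x = pd j (fun y => w u i y - sg u y * q u i y) x := rfl
  rw [h1, pd_sub hw (hs.fun_mul (h.diff_q i hx)), pd_mul hs (h.diff_q i hx), pd_q]
  ring

/-- `T(q,·,·) = ∇w - S²` contracted with a matrix field. For arbitrary functions `P i j`, `z`
(values at `x` only): with `r_j = ∑_i P_{ij} q_i - z q_j`,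
`∑ T_{kij} q_k P_{ij} = [σ S:P - S²:P + z |S|²] + r·∇σ + ∑ (P_{ij} - z δ_{ij}) ∂_j a_i`.
Sketch: `∑_k T_{kij} q_k = ∂_j w_i - (S²)_{ij}` (`Sol.pd_w`), `w_i = σ q_i + a_i` so
`∂_j w_i = ∂_jσ q_i + σ S_{ij} + ∂_j a_i`; `∑ P_{ij} ∂_jσ q_i = z q·∇σ + r·∇σ`; and
`q·∇σ = |S|² - div a` from `div w = |S|²`, `div q = 0`. -/
theorem Sol.flux_identity (h : Sol E u) {x : V n} (hx : x ∈ E) (P : Fin n → Fin n → ℝ) (z : ℝ) :
    ∑ k, ∑ i, ∑ j, T u k i j x * q u k x * P i j =
      (sg u x * ∑ i, ∑ j, S u i j x * P i j - ∑ i, ∑ j, (∑ k, S u i k x * S u k j x) * P i j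
        + z * NN u x)
      + ∑ j, (∑ i, P i j * q u i x - z * q u j x) * pd j (sg u) x
      + ∑ i, ∑ j, (P i j - z * (if i = j then 1 else 0)) * pd j (aa u i) x := by
  -- `∑_k T_{kij} q_k = ∂_j w_i - (S²)_{ij}`
  have hT : ∀ i j : Fin n, ∑ k, T u k i j x * q u k x =
      pd j (sg u) x * q u i x + sg u x * S u i j x + pd j (aa u i) x
        - ∑ k, S u i k x * S u k j x := by
    intro i j
    have e1 := h.pd_w j i hx
    rw [h.pd_w_decomp hx j i, h.S_symm j i hx] at e1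
    have e2 : ∑ k, T u j i k x * q u k x = ∑ k, T u k i j x * q u k x :=
      Finset.sum_congr rfl fun k _ => by rw [h.T_symm13 j i k hx]
    have e3 : ∑ k, S u i k x * S u j k x = ∑ k, S u i k x * S u k j x :=
      Finset.sum_congr rfl fun k _ => by rw [h.S_symm j k hx]
    rw [e2, e3] at e1
    linarith
  -- divergence of `w`
  have hdiv : NN u x = ∑ j, q u j x * pd j (sg u) x + ∑ i, pd i (aa u i) x := by
    rw [← h.div_w hx]
    have : ∀ i : Fin n, pd i (w u i) x
        = q u i x * pd i (sg u) x + sg u x * S u i i x + pd i (aa u i) x := by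
      intro i; rw [h.pd_w_decomp hx i i]; ring
    simp only [this, Finset.sum_add_distrib, ← Finset.mul_sum, h.tr_S hx]
    ring
  have hL : ∑ k, ∑ i, ∑ j, T u k i j x * q u k x * P i j
      = ∑ i, ∑ j, (∑ k, T u k i j x * q u k x) * P i j := by
    rw [Finset.sum_comm]
    refine Finset.sum_congr rfl fun i _ => ?_
    rw [Finset.sum_comm]
    refine Finset.sum_congr rfl fun j _ => ?_
    rw [Finset.sum_mul]
  have hA : ∑ i, ∑ j, (∑ k, T u k i j x * q u k x) * P i j
      = ∑ i, ∑ j, P i j * q u i x * pd j (sg u) x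
        + sg u x * ∑ i, ∑ j, S u i j x * P i j
        + ∑ i, ∑ j, P i j * pd j (aa u i) x
        - ∑ i, ∑ j, (∑ k, S u i k x * S u k j x) * P i j := by
    simp only [Finset.mul_sum, ← Finset.sum_add_distrib, ← Finset.sum_sub_distrib]
    refine Finset.sum_congr rfl fun i _ => Finset.sum_congr rfl fun j _ => ?_
    rw [hT i j]
    ring
  have hB : ∑ j, (∑ i, P i j * q u i x - z * q u j x) * pd j (sg u) x
      = ∑ i, ∑ j, P i j * q u i x * pd j (sg u) x - z * ∑ j, q u j x * pd j (sg u) x := by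
    rw [Finset.sum_comm (f := fun i j => P i j * q u i x * pd j (sg u) x), Finset.mul_sum,
      ← Finset.sum_sub_distrib]
    refine Finset.sum_congr rfl fun j _ => ?_
    rw [← Finset.sum_mul]
    ring
  have hC : ∑ i, ∑ j, (P i j - z * (if i = j then 1 else 0)) * pd j (aa u i) x
      = ∑ i, ∑ j, P i j * pd j (aa u i) x - z * ∑ i, pd i (aa u i) x := by
    rw [Finset.mul_sum, ← Finset.sum_sub_distrib]
    refine Finset.sum_congr rfl fun i _ => ?_
    have : ∀ j : Fin n, (P i j - z * (if i = j then 1 else 0)) * pd j (aa u i) x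
        = P i j * pd j (aa u i) x - (if i = j then z * pd j (aa u i) x else 0) := by
      intro j
      split_ifs <;> ring
    simp only [this, Finset.sum_sub_distrib, Finset.sum_ite_eq, Finset.mem_univ, if_true]
  rw [hL, hA, hB, hC, hdiv]
  ring

end OPC
end

section

/-! # D06: third derivatives are square integrable up to the free boundary -/

open MeasureTheory Set Filter Topology

namespace OPC

variable {n : ℕ} {E : Set (V n)} {u : V n → ℝ}

private noncomputable def D06Y (u : V n → ℝ) (j : Fin n) (x : V n) : ℝ :=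
  (∑ i, S u i j x * aa u i x) - sg u x * aa u j x

private noncomputable def D06B (u : V n → ℝ) (x : V n) : ℝ :=
  sg u x * ∑ i, ∑ j, S u i j x * S u i j x - ∑ i, ∑ j, (∑ k, S u i k x * S u k j x) * S u i j x
    + sg u x * NN u x

private lemma D06_smooth_Y (h : Sol E u) (j : Fin n) : ContDiffOn ℝ (⊤ : ℕ∞) (D06Y u j) E := by
  show ContDiffOn ℝ (⊤ : ℕ∞) (fun x => (∑ i, S u i j x * aa u i x) - sg u x * aa u j x) E
  exact (ContDiffOn.sum fun i _ => (h.smooth_S i j).mul (h.smooth_aa i)).sub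
    (h.smooth_sg.mul (h.smooth_aa j))

private lemma D06_cont_B (h : Sol E u) : ContinuousOn (D06B u) E := by
  show ContinuousOn (fun x => sg u x * ∑ i, ∑ j, S u i j x * S u i j x
    - ∑ i, ∑ j, (∑ k, S u i k x * S u k j x) * S u i j x + sg u x * NN u x) E
  have hS := fun i j => (h.smooth_S i j).continuousOn
  have hs := h.smooth_sg.continuousOn
  have hN := h.smooth_NN.continuousOn
  refine ((hs.mul ?_).sub ?_).add (hs.mul hN)
  · exact continuousOn_finsetSum _ fun i _ => continuousOn_finsetSum _ fun j _ =>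
      (hS i j).mul (hS i j)
  · exact continuousOn_finsetSum _ fun i _ => continuousOn_finsetSum _ fun j _ =>
      (continuousOn_finsetSum _ fun k _ => (hS i k).mul (hS k j)).mul (hS i j)

private lemma D06_pd_Y (h : Sol E u) (j : Fin n) {x : V n} (hx : x ∈ E) :
    pd j (D06Y u j) x = (∑ i, pd j (S u i j) x * aa u i x + ∑ i, S u i j x * pd j (aa u i) x)
      - (pd j (sg u) x * aa u j x + sg u x * pd j (aa u j) x) := by
  have dS := fun i k => h.diff_S i k hx
  have da := fun i => diffAt h.isOpen (h.smooth_aa i) hx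
  have ds := diffAt h.isOpen h.smooth_sg hx
  have e1 : pd j (D06Y u j) x
      = pd j (fun y => (∑ i, S u i j y * aa u i y) - sg u y * aa u j y) x := rfl
  have d1 : DifferentiableAt ℝ (fun y => ∑ i, S u i j y * aa u i y) x :=
    DifferentiableAt.fun_sum fun i _ => (dS i j).mul (da i)
  have d2 : DifferentiableAt ℝ (fun y => sg u y * aa u j y) x := ds.mul (da j)
  have e2 : pd j (fun y => ∑ i, S u i j y * aa u i y) x
      = ∑ i, pd j (fun y => S u i j y * aa u i y) x :=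
    pd_sum (f := fun i y => S u i j y * aa u i y) Finset.univ
      (fun i _ => (dS i j).mul (da i)) j
  rw [e1, pd_sub d1 d2, e2, pd_mul ds (da j), ← Finset.sum_add_distrib]
  congr 1
  apply Finset.sum_congr rfl
  intro i _
  rw [pd_mul (dS i j) (da i)]

private lemma D06_div_Y (h : Sol E u) {x : V n} (hx : x ∈ E) :
    ∑ j, pd j (D06Y u j) x
      = ∑ i, ∑ j, (S u i j x - sg u x * (if i = j then 1 else 0)) * pd j (aa u i) x
        - ∑ j, aa u j x * pd j (sg u) x := by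
  have hA : ∑ j, ∑ i, pd j (S u i j) x * aa u i x = 0 := by
    rw [Finset.sum_comm]
    apply Finset.sum_eq_zero
    intro i _
    rw [← Finset.sum_mul]
    have : ∑ j, pd j (S u i j) x = 0 := by
      rw [← h.div_S i hx]
      apply Finset.sum_congr rfl
      intro j _
      exact h.T_symm23 j i j hx
    rw [this, zero_mul]
  have hB : ∑ i, ∑ j, (S u i j x - sg u x * (if i = j then 1 else 0)) * pd j (aa u i) x
      = ∑ j, ∑ i, S u i j x * pd j (aa u i) x - ∑ j, sg u x * pd j (aa u j) x := by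
    rw [Finset.sum_comm (f := fun j i => S u i j x * pd j (aa u i) x), ← Finset.sum_sub_distrib]
    apply Finset.sum_congr rfl
    intro i _
    have : ∀ j, (S u i j x - sg u x * (if i = j then 1 else 0)) * pd j (aa u i) x
        = S u i j x * pd j (aa u i) x - (if i = j then sg u x * pd j (aa u i) x else 0) := by
      intro j
      by_cases hij : i = j
      · rw [if_pos hij, if_pos hij]
        ring
      · rw [if_neg hij, if_neg hij]
        ring
    rw [Finset.sum_congr rfl fun j _ => this j, Finset.sum_sub_distrib]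
    simp
  rw [Finset.sum_congr rfl fun j _ => D06_pd_Y h j hx, Finset.sum_sub_distrib,
    Finset.sum_add_distrib, Finset.sum_add_distrib, hA, hB]
  have hC : ∑ j, pd j (sg u) x * aa u j x = ∑ j, aa u j x * pd j (sg u) x :=
    Finset.sum_congr rfl fun j _ => mul_comm _ _
  rw [hC]
  ring

private lemma D06_flux (h : Sol E u) {x : V n} (hx : x ∈ E) :
    ∑ k, q u k x * pd k (NN u) x = 2 * D06B u x + 4 * (∑ j, aa u j x * pd j (sg u) x)
      + 2 * ∑ j, pd j (D06Y u j) x := by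
  have h1 := h.flux_identity hx (fun i j => S u i j x) (sg u x)
  have h2 : ∑ k, q u k x * pd k (NN u) x
      = 2 * ∑ k, ∑ i, ∑ j, T u k i j x * q u k x * S u i j x := by
    rw [Finset.mul_sum]
    apply Finset.sum_congr rfl
    intro k _
    rw [h.pd_NN k hx]
    have : ∑ i, ∑ j, T u k i j x * q u k x * S u i j x
        = q u k x * ∑ i, ∑ j, S u i j x * T u k i j x := by
      rw [Finset.mul_sum]
      apply Finset.sum_congr rfl
      intro i _
      rw [Finset.mul_sum]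
      apply Finset.sum_congr rfl
      intro j _
      ring
    rw [this]
    ring
  have h3 : ∀ j, (∑ i, S u i j x * q u i x - sg u x * q u j x) = aa u j x := by
    intro j
    have : ∑ i, S u i j x * q u i x = w u j x := by
      apply Finset.sum_congr rfl
      intro i _
      rw [h.S_symm i j hx]
    rw [this]
    rfl
  have h4 : ∑ j, (∑ i, S u i j x * q u i x - sg u x * q u j x) * pd j (sg u) x
      = ∑ j, aa u j x * pd j (sg u) x := Finset.sum_congr rfl fun j _ => by rw [h3 j]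
  rw [h2, h1, h4, D06_div_Y h hx]
  unfold D06B
  ring

private lemma D06_q_Y (x : V n) : ∑ j, q u j x * D06Y u j x = a2 u x := by
  have h1 : ∑ j, q u j x * D06Y u j x
      = ∑ i, aa u i x * w u i x - sg u x * ∑ j, q u j x * aa u j x := by
    have : ∀ j, q u j x * D06Y u j x
        = ∑ i, q u j x * (S u i j x * aa u i x) - sg u x * (q u j x * aa u j x) := by
      intro j
      unfold D06Y
      rw [mul_sub, Finset.mul_sum]
      ring
    rw [Finset.sum_congr rfl fun j _ => this j, Finset.sum_sub_distrib, Finset.sum_comm,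
      ← Finset.mul_sum]
    congr 1
    apply Finset.sum_congr rfl
    intro i _
    unfold w
    rw [Finset.mul_sum]
    apply Finset.sum_congr rfl
    intro j _
    ring
  have h2 : ∑ i, aa u i x * w u i x = a2 u x + sg u x * ∑ i, q u i x * aa u i x := by
    unfold a2
    rw [Finset.mul_sum, ← Finset.sum_add_distrib]
    apply Finset.sum_congr rfl
    intro i _
    have : w u i x = aa u i x + sg u x * q u i x := by
      unfold aa
      ring
    rw [this]
    ring
  rw [h1, h2]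
  ring

private noncomputable def D06k (s : ℝ) : ℝ := chi s ^ 2

private noncomputable def D06k2 (s : ℝ) : ℝ := 2 * chi s * deriv chi s

private lemma D06k_smooth : ContDiff ℝ (⊤ : ℕ∞) D06k := chi_smooth.pow 2

private lemma D06k2_smooth : ContDiff ℝ (⊤ : ℕ∞) D06k2 :=
  (contDiff_const.mul chi_smooth).mul deriv_chi_smooth

private lemma D06k_zero : ∀ s ≤ 1, D06k s = 0 := by
  intro s hs
  unfold D06k
  rw [chi_eq_zero hs]
  norm_num

private lemma D06k2_zero : ∀ s ≤ 1, D06k2 s = 0 := by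
  intro s hs
  unfold D06k2
  rw [chi_eq_zero hs]
  ring

private lemma D06k2_off {s : ℝ} (hs : s ∉ Icc (1 : ℝ) 2) : D06k2 s = 0 := by
  unfold D06k2
  rw [deriv_chi_eq_zero hs]
  ring

private lemma D06k_deriv : deriv D06k = D06k2 := by
  funext s
  have h1 : HasDerivAt chi (deriv chi s) s :=
    ((chi_smooth.differentiable (by simp)) s).hasDerivAt
  have h2 : HasDerivAt D06k (2 * chi s * deriv chi s) s := by
    show HasDerivAt (fun x => chi x ^ 2) _ s
    have := h1.fun_pow 2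
    simpa using this
  rw [h2.deriv]
  rfl

private lemma D06dk2_off {s : ℝ} (hs : s ∉ Icc (1 : ℝ) 2) : deriv D06k2 s = 0 := by
  have h1 : D06k2 =ᶠ[𝓝 s] fun _ => 0 := by
    filter_upwards [isClosed_Icc.isOpen_compl.mem_nhds hs] with y hy using D06k2_off hy
  rw [h1.deriv_eq]
  simp

private lemma D06dk2_smooth : ContDiff ℝ (⊤ : ℕ∞) (deriv D06k2) :=
  (contDiff_infty_iff_deriv.1 D06k2_smooth).2

private lemma D06dk2_zero : ∀ s ≤ 1, deriv D06k2 s = 0 := by
  have hc : IsClosed {s : ℝ | deriv D06k2 s = 0} :=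
    isClosed_eq D06dk2_smooth.continuous continuous_const
  have h1 : Iio (1 : ℝ) ⊆ {s : ℝ | deriv D06k2 s = 0} := by
    intro s hs
    exact D06dk2_off (fun hh => absurd hh.1 (not_le.2 hs))
  have h2 : closure (Iio (1 : ℝ)) ⊆ {s : ℝ | deriv D06k2 s = 0} := hc.closure_subset_iff.2 h1
  rw [closure_Iio] at h2
  intro s hs
  exact h2 hs

private lemma D06dk2_bdd : ∃ C, 0 ≤ C ∧ ∀ s, |deriv D06k2 s| ≤ C := by
  obtain ⟨C, hC⟩ := (isCompact_Icc (a := (1 : ℝ)) (b := 2)).exists_bound_of_continuousOn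
    D06dk2_smooth.continuous.continuousOn
  refine ⟨max C 0, le_max_right _ _, fun s => ?_⟩
  by_cases hs : s ∈ Icc (1 : ℝ) 2
  · exact (hC s hs).trans (le_max_left _ _)
  · rw [D06dk2_off hs, abs_zero]
    exact le_max_right _ _

private lemma D06_real1 {c y t P : ℝ} (hc0 : 0 ≤ c) (hc1 : c ≤ 1) :
    c ^ 2 * (2 * y * P * t) ≤ (1 / 2) * (c ^ 2 * y ^ 2 * t ^ 2) + 2 * P ^ 2 := by
  have h1 : 0 ≤ c ^ 2 * (y * t - 2 * P) ^ 2 := mul_nonneg (sq_nonneg _) (sq_nonneg _)
  have h2 : 0 ≤ P ^ 2 * (1 - c ^ 2) := by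
    apply mul_nonneg (sq_nonneg _)
    nlinarith
  nlinarith

private lemma D06_real2 {c y t s K : ℝ} (hc0 : 0 ≤ c) (hc1 : c ≤ 1) (hy0 : 0 ≤ y) (hy1 : y ≤ 1)
    (hKs : 0 ≤ K * s) :
    K * c * y ^ 2 * s * (1 + t) ≤ (1 / 4) * (c ^ 2 * y ^ 2 * t ^ 2) + 1 / 4 + 2 * (K * s) ^ 2 := by
  have hy2 : y ^ 2 ≤ 1 := by nlinarith
  have h1 : 0 ≤ y ^ 2 * (c * t / 2 - K * s) ^ 2 := mul_nonneg (sq_nonneg _) (sq_nonneg _)
  have h2 : 0 ≤ (1 - y ^ 2) * (K * s) ^ 2 := mul_nonneg (by linarith) (sq_nonneg _)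
  have h3 : c * y ^ 2 ≤ 1 := by nlinarith [sq_nonneg y]
  have h4 : 0 ≤ K * s * (1 - c * y ^ 2) := mul_nonneg hKs (by linarith)
  have h5 : 0 ≤ (K * s - 1 / 2) ^ 2 := sq_nonneg _
  nlinarith

private lemma D06_bdd_B {C : ℝ} {x : V n} (hC : 0 ≤ C) (hS : ∀ i j, |S u i j x| ≤ C)
    (hs : |sg u x| ≤ C) (hN : |NN u x| ≤ C) :
    |D06B u x| ≤ C * (n * (n * (C * C))) + n * (n * ((n * (C * C)) * C)) + C * C := by
  have e1 : |∑ i, ∑ j, S u i j x * S u i j x| ≤ n * (n * (C * C)) := by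
    calc |∑ i, ∑ j, S u i j x * S u i j x| ≤ ∑ i, |∑ j, S u i j x * S u i j x| :=
          Finset.abs_sum_le_sum_abs _ _
      _ ≤ ∑ _i : Fin n, (n * (C * C) : ℝ) := by
          apply Finset.sum_le_sum
          intro i _
          calc |∑ j, S u i j x * S u i j x| ≤ ∑ j, |S u i j x * S u i j x| :=
                Finset.abs_sum_le_sum_abs _ _
            _ ≤ ∑ _j : Fin n, (C * C : ℝ) := by
                apply Finset.sum_le_sum
                intro j _
                rw [abs_mul]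
                exact mul_le_mul (hS i j) (hS i j) (abs_nonneg _) hC
            _ = n * (C * C) := by simp
      _ = n * (n * (C * C)) := by simp
  have e2 : |∑ i, ∑ j, (∑ k, S u i k x * S u k j x) * S u i j x|
      ≤ n * (n * ((n * (C * C)) * C)) := by
    calc |∑ i, ∑ j, (∑ k, S u i k x * S u k j x) * S u i j x|
        ≤ ∑ i, |∑ j, (∑ k, S u i k x * S u k j x) * S u i j x| :=
          Finset.abs_sum_le_sum_abs _ _
      _ ≤ ∑ _i : Fin n, (n * ((n * (C * C)) * C) : ℝ) := by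
          apply Finset.sum_le_sum
          intro i _
          calc |∑ j, (∑ k, S u i k x * S u k j x) * S u i j x|
              ≤ ∑ j, |(∑ k, S u i k x * S u k j x) * S u i j x| :=
                Finset.abs_sum_le_sum_abs _ _
            _ ≤ ∑ _j : Fin n, ((n * (C * C)) * C : ℝ) := by
                apply Finset.sum_le_sum
                intro j _
                rw [abs_mul]
                apply mul_le_mul _ (hS i j) (abs_nonneg _) (by positivity)
                calc |∑ k, S u i k x * S u k j x| ≤ ∑ k, |S u i k x * S u k j x| :=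
                      Finset.abs_sum_le_sum_abs _ _
                  _ ≤ ∑ _k : Fin n, (C * C : ℝ) := by
                      apply Finset.sum_le_sum
                      intro k _
                      rw [abs_mul]
                      exact mul_le_mul (hS i k) (hS k j) (abs_nonneg _) hC
                  _ = n * (C * C) := by simp
            _ = n * ((n * (C * C)) * C) := by simp
      _ = n * (n * ((n * (C * C)) * C)) := by simp
  unfold D06B
  refine (abs_add_le _ _).trans (add_le_add ((abs_sub _ _).trans (add_le_add ?_ e2)) ?_)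
  · rw [abs_mul]
    exact mul_le_mul hs e1 (abs_nonneg _) hC
  · rw [abs_mul]
    exact mul_le_mul hs hN (abs_nonneg _) hC

private lemma D06_bdd_Y {C : ℝ} {x : V n} (hC : 0 ≤ C) (hS : ∀ i j, |S u i j x| ≤ C)
    (hs : |sg u x| ≤ C) (ha : ∀ i, |aa u i x| ≤ C) (j : Fin n) :
    |D06Y u j x| ≤ n * (C * C) + C * C := by
  unfold D06Y
  refine (abs_sub _ _).trans (add_le_add ?_ ?_)
  · calc |∑ i, S u i j x * aa u i x| ≤ ∑ i, |S u i j x * aa u i x| :=
          Finset.abs_sum_le_sum_abs _ _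
      _ ≤ ∑ _i : Fin n, (C * C : ℝ) := by
          apply Finset.sum_le_sum
          intro i _
          rw [abs_mul]
          exact mul_le_mul (hS i j) (ha i) (abs_nonneg _) hC
      _ = n * (C * C) := by simp
  · rw [abs_mul]
    exact mul_le_mul hs (ha j) (abs_nonneg _) hC

private lemma D06_int (h : Sol E u) {κ : ℝ → ℝ} (hκ : ContDiff ℝ (⊤ : ℕ∞) κ)
    (h0 : ∀ s ≤ 1, κ s = 0) {η : V n → ℝ} (hη : Tst η) {ε : ℝ} (hε : 0 < ε) {f : V n → ℝ}
    (hf : ContinuousOn f E) : IntegrableOn (fun x => κ (u x / ε) * η x * f x) E := by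
  obtain ⟨h1, h2⟩ := h.kcut_tst hκ h0 hη hε
  exact (integrable_mul_of_tsupport h.isOpen h1.smooth.continuous h1.cpt h2 hf).integrableOn

private lemma D06_sq {η : V n → ℝ} (hη : Tst η) : Tst (fun x => η x ^ 2) where
  smooth := hη.smooth.pow 2
  cpt := by
    have : (fun x => η x ^ 2) = fun x => η x * η x := by
      funext x
      ring
    rw [this]
    exact hη.cpt.mul_left
  zero := by
    intro h0
    apply hη.zero
    have : (fun x => η x ^ 2) = fun x => η x * η x := by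
      funext x
      ring
    rw [this] at h0
    exact tsupport_mul_subset_left h0

private lemma D06_pd_sq {η : V n → ℝ} (hη : Tst η) (i : Fin n) (x : V n) :
    pd i (fun y => η y ^ 2) x = 2 * η x * pd i η x := by
  rw [pd_pow ((hη.smooth.differentiable (by simp)) x) 2 i]
  norm_num

private lemma D06_pd_eta {η : V n → ℝ} (hη : Tst η) :
    ∃ C, 0 ≤ C ∧ ∀ i x, |pd i η x| ≤ C := by
  have hc : Continuous (fderiv ℝ η) := hη.smooth.continuous_fderiv (by simp)
  have hs : HasCompactSupport (fderiv ℝ η) := hη.cpt.fderiv (𝕜 := ℝ)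
  obtain ⟨C, hC⟩ := hs.exists_bound_of_continuous hc
  refine ⟨max C 0, le_max_right _ _, fun i x => ?_⟩
  have h1 : ‖fderiv ℝ η x (e i)‖ ≤ ‖fderiv ℝ η x‖ * ‖(e i : V n)‖ := (fderiv ℝ η x).le_opNorm _
  have h2 : ‖(e i : V n)‖ = 1 := by simp [e]
  rw [h2, mul_one] at h1
  exact h1.trans ((hC x).trans (le_max_left _ _))

/-- the integral identity -/
private lemma D06_identity (h : Sol E u) {η : V n → ℝ} (hη : Tst η) {ε : ℝ} (hε : 0 < ε) :
    2 * ∫ x in E, D06k (u x / ε) * η x ^ 2 * TT u x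
      = -(∫ x in E, D06k (u x / ε) * ∑ i, pd i (fun y => η y ^ 2) x * pd i (NN u) x)
        - 2 * (ε⁻¹ * ∫ x in E, D06k2 (u x / ε) * η x ^ 2 * D06B u x)
        - 4 * (ε⁻¹ * ∫ x in E, D06k2 (u x / ε) * η x ^ 2 * ∑ j, aa u j x * pd j (sg u) x)
        + 2 * (ε⁻¹ * ∫ x in E, D06k2 (u x / ε) * ∑ j, pd j (fun y => η y ^ 2) x * D06Y u j x)
        + 2 * (ε⁻¹ * (ε⁻¹ * ∫ x in E, deriv D06k2 (u x / ε) * η x ^ 2 * a2 u x)) := by
  have hm : MeasurableSet E := h.isOpen.measurableSet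
  have hη2 : Tst (fun x => η x ^ 2) := D06_sq hη
  have hN : ContDiffOn ℝ (⊤ : ℕ∞) (NN u) E := h.smooth_NN
  have e1 := h.ibp_kcut D06k_smooth D06k_zero hη2 hε (Y := fun i => pd i (NN u))
    (fun i => (contDiffOn_pd_top h.isOpen hN i).of_le one_le_top')
  rw [D06k_deriv] at e1
  have e2 := h.ibp_kcut D06k2_smooth D06k2_zero hη2 hε (Y := fun i => D06Y u i)
    (fun i => (D06_smooth_Y h i).of_le one_le_top')
  have l1 : ∫ x in E, D06k (u x / ε) * η x ^ 2 * ∑ i, pd i (pd i (NN u)) x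
      = 2 * ∫ x in E, D06k (u x / ε) * η x ^ 2 * TT u x := by
    rw [← integral_const_mul]
    apply setIntegral_congr_fun hm
    intro x hx
    show D06k (u x / ε) * η x ^ 2 * ∑ i, pd i (pd i (NN u)) x
      = 2 * (D06k (u x / ε) * η x ^ 2 * TT u x)
    rw [h.lap_NN hx]
    ring
  have l2 : ∫ x in E, deriv D06k2 (u x / ε) * η x ^ 2 * ∑ i, q u i x * D06Y u i x
      = ∫ x in E, deriv D06k2 (u x / ε) * η x ^ 2 * a2 u x := by
    apply setIntegral_congr_fun hm
    intro x hx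
    show deriv D06k2 (u x / ε) * η x ^ 2 * ∑ i, q u i x * D06Y u i x
      = deriv D06k2 (u x / ε) * η x ^ 2 * a2 u x
    rw [D06_q_Y]
  have i2 : IntegrableOn (fun x => D06k2 (u x / ε) * η x ^ 2 * D06B u x) E :=
    D06_int h D06k2_smooth D06k2_zero hη2 hε (D06_cont_B h)
  have i3 : IntegrableOn (fun x => D06k2 (u x / ε) * η x ^ 2 * ∑ j, aa u j x * pd j (sg u) x) E :=
    D06_int h D06k2_smooth D06k2_zero hη2 hε
      (continuousOn_finsetSum _ fun j _ => (h.smooth_aa j).continuousOn.mul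
        (contDiffOn_pd_top h.isOpen h.smooth_sg j).continuousOn)
  have i4 : IntegrableOn (fun x => D06k2 (u x / ε) * η x ^ 2 * ∑ j, pd j (D06Y u j) x) E :=
    D06_int h D06k2_smooth D06k2_zero hη2 hε
      (continuousOn_finsetSum _ fun j _ =>
        (contDiffOn_pd_top h.isOpen (D06_smooth_Y h j) j).continuousOn)
  have l3 : ∫ x in E, D06k2 (u x / ε) * η x ^ 2 * ∑ i, q u i x * pd i (NN u) x
      = 2 * (∫ x in E, D06k2 (u x / ε) * η x ^ 2 * D06B u x)
        + 4 * (∫ x in E, D06k2 (u x / ε) * η x ^ 2 * ∑ j, aa u j x * pd j (sg u) x)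
        + 2 * (∫ x in E, D06k2 (u x / ε) * η x ^ 2 * ∑ j, pd j (D06Y u j) x) := by
    have i23 : IntegrableOn (fun x => 2 * (D06k2 (u x / ε) * η x ^ 2 * D06B u x)
        + 4 * (D06k2 (u x / ε) * η x ^ 2 * ∑ j, aa u j x * pd j (sg u) x)) E :=
      (i2.const_mul 2).add (i3.const_mul 4)
    rw [← integral_const_mul, ← integral_const_mul, ← integral_const_mul,
      ← integral_add (i2.const_mul 2) (i3.const_mul 4), ← integral_add i23 (i4.const_mul 2)]
    apply setIntegral_congr_fun hm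
    intro x hx
    show D06k2 (u x / ε) * η x ^ 2 * ∑ i, q u i x * pd i (NN u) x
      = 2 * (D06k2 (u x / ε) * η x ^ 2 * D06B u x)
        + 4 * (D06k2 (u x / ε) * η x ^ 2 * ∑ j, aa u j x * pd j (sg u) x)
        + 2 * (D06k2 (u x / ε) * η x ^ 2 * ∑ j, pd j (D06Y u j) x)
    rw [D06_flux h hx]
    ring
  simp only [l1] at e1
  rw [l3] at e1
  rw [l2] at e2
  rw [e1, e2]
  ring

/-- pointwise estimate -/
private lemma D06_point (h : Sol E u) {η : V n → ℝ} (hη : Tst η) (hη0 : ∀ x, 0 ≤ η x)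
    (hη1 : ∀ x, η x ≤ 1) {Cη C1 Cχ C3 : ℝ} (hCη0 : 0 ≤ Cη) (hC1 : 0 ≤ C1) (hCχ0 : 0 ≤ Cχ)
    (hC3 : 0 ≤ C3) {x : V n} (hx : x ∈ E) (hCη : ∀ i, |pd i η x| ≤ Cη)
    (hsg : ∀ k, |pd k (sg u) x| ≤ C1 * (1 + √(TT u x)))
    (hNN : ∀ k, |pd k (NN u) x| ≤ C1 * √(TT u x))
    (hCχ : ∀ s, |deriv chi s| ≤ Cχ) (hd : ∀ s, |deriv D06k2 s| ≤ C3) {ε : ℝ} (hε : 0 < ε) :
    -(D06k (u x / ε) * ∑ i, pd i (fun y => η y ^ 2) x * pd i (NN u) x)
      - 4 * (ε⁻¹ * (D06k2 (u x / ε) * η x ^ 2 * ∑ j, aa u j x * pd j (sg u) x))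
      + 2 * (ε⁻¹ * (ε⁻¹ * (deriv D06k2 (u x / ε) * η x ^ 2 * a2 u x)))
      ≤ D06k (u x / ε) * η x ^ 2 * TT u x
        + ((2 * (n * Cη * C1) ^ 2 + 1 / 4)
          + (2 * (16 * Cχ * C1) ^ 2 * n + 8 * C3) * (a2 u x / u x ^ 2)) := by
  have hu : 0 < u x := h.pos x hx
  have hTT : 0 ≤ TT u x := Finset.sum_nonneg fun i _ => Finset.sum_nonneg fun j _ =>
    Finset.sum_nonneg fun k _ => sq_nonneg _
  have ht0 : 0 ≤ √(TT u x) := Real.sqrt_nonneg _
  have ht2 : √(TT u x) ^ 2 = TT u x := Real.sq_sqrt hTT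
  set t : ℝ := √(TT u x) with ht
  have hc0 : 0 ≤ chi (u x / ε) := chi_nonneg _
  have hc1 : chi (u x / ε) ≤ 1 := chi_le_one _
  set c : ℝ := chi (u x / ε) with hc
  have hy0 := hη0 x
  have hy1 := hη1 x
  set y : ℝ := η x with hy
  have ha2 : 0 ≤ a2 u x := Finset.sum_nonneg fun i _ => sq_nonneg _
  -- term 1
  have b1 : |∑ i, pd i (fun y => η y ^ 2) x * pd i (NN u) x| ≤ 2 * y * (n * Cη * C1) * t := by
    calc |∑ i, pd i (fun y => η y ^ 2) x * pd i (NN u) x|
        ≤ ∑ i, |pd i (fun y => η y ^ 2) x * pd i (NN u) x| := Finset.abs_sum_le_sum_abs _ _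
      _ ≤ ∑ _i : Fin n, ((2 * y * Cη) * (C1 * t) : ℝ) := by
          apply Finset.sum_le_sum
          intro i _
          rw [abs_mul, D06_pd_sq hη i x, abs_mul, abs_of_nonneg (by positivity : 0 ≤ 2 * η x)]
          exact mul_le_mul (mul_le_mul_of_nonneg_left (hCη i) (by positivity)) (hNN i)
            (abs_nonneg _) (by positivity)
      _ = 2 * y * (n * Cη * C1) * t := by
          simp
          ring
  have t1 : -(D06k (u x / ε) * ∑ i, pd i (fun y => η y ^ 2) x * pd i (NN u) x)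
      ≤ (1 / 2) * (c ^ 2 * y ^ 2 * t ^ 2) + 2 * (n * Cη * C1) ^ 2 := by
    refine le_trans ?_ (D06_real1 (y := y) (t := t) (P := n * Cη * C1) hc0 hc1)
    have : -(D06k (u x / ε) * ∑ i, pd i (fun y => η y ^ 2) x * pd i (NN u) x)
        = c ^ 2 * -(∑ i, pd i (fun y => η y ^ 2) x * pd i (NN u) x) := by
      show -(c ^ 2 * _) = _
      ring
    rw [this]
    exact mul_le_mul_of_nonneg_left ((neg_le_abs _).trans b1) (sq_nonneg _)
  -- terms 3 and 5
  have t35 : - 4 * (ε⁻¹ * (D06k2 (u x / ε) * η x ^ 2 * ∑ j, aa u j x * pd j (sg u) x))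
      + 2 * (ε⁻¹ * (ε⁻¹ * (deriv D06k2 (u x / ε) * η x ^ 2 * a2 u x)))
      ≤ (1 / 4) * (c ^ 2 * y ^ 2 * t ^ 2) + 1 / 4
        + (2 * (16 * Cχ * C1) ^ 2 * n + 8 * C3) * (a2 u x / u x ^ 2) := by
    by_cases hI : u x / ε ∈ Icc (1 : ℝ) 2
    · have hε2 : ε⁻¹ ≤ 2 * (u x)⁻¹ := by
        have h1 : u x ≤ 2 * ε := (div_le_iff₀ hε).1 hI.2
        rw [← div_eq_mul_inv, le_div_iff₀ hu, ← div_eq_inv_mul, div_le_iff₀ hε]
        exact h1
      have hε0 : 0 ≤ ε⁻¹ := (inv_pos.2 hε).le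
      have hui : 0 ≤ (u x)⁻¹ := (inv_pos.2 hu).le
      have b3 : |∑ j, aa u j x * pd j (sg u) x| ≤ (∑ j, |aa u j x|) * (C1 * (1 + t)) := by
        rw [Finset.sum_mul]
        refine (Finset.abs_sum_le_sum_abs _ _).trans (Finset.sum_le_sum fun j _ => ?_)
        rw [abs_mul]
        exact mul_le_mul_of_nonneg_left (hsg j) (abs_nonneg _)
      have hA0 : 0 ≤ ∑ j, |aa u j x| := Finset.sum_nonneg fun j _ => abs_nonneg _
      have hA2 : (∑ j, |aa u j x|) ^ 2 ≤ n * a2 u x := by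
        have := sq_sum_le_card_mul_sum_sq (s := (Finset.univ : Finset (Fin n)))
          (f := fun j => |aa u j x|)
        simpa [a2] using this
      set A : ℝ := ∑ j, |aa u j x| with hA
      have b4 : |D06k2 (u x / ε)| ≤ 2 * c * Cχ := by
        show |2 * c * deriv chi (u x / ε)| ≤ 2 * c * Cχ
        rw [abs_mul, abs_of_nonneg (by positivity : 0 ≤ 2 * c)]
        exact mul_le_mul_of_nonneg_left (hCχ _) (by positivity)
      have t3 : - 4 * (ε⁻¹ * (D06k2 (u x / ε) * η x ^ 2 * ∑ j, aa u j x * pd j (sg u) x))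
          ≤ (16 * Cχ * C1) * c * y ^ 2 * (A * (u x)⁻¹) * (1 + t) := by
        have s1 : |D06k2 (u x / ε) * η x ^ 2 * ∑ j, aa u j x * pd j (sg u) x|
            ≤ (2 * c * Cχ) * y ^ 2 * (A * (C1 * (1 + t))) := by
          rw [abs_mul, abs_mul, abs_of_nonneg (sq_nonneg (η x))]
          exact mul_le_mul (mul_le_mul_of_nonneg_right b4 (sq_nonneg _)) b3 (abs_nonneg _)
            (by positivity)
        have s2 : ε⁻¹ * |D06k2 (u x / ε) * η x ^ 2 * ∑ j, aa u j x * pd j (sg u) x|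
            ≤ (2 * (u x)⁻¹) * ((2 * c * Cχ) * y ^ 2 * (A * (C1 * (1 + t)))) :=
          mul_le_mul hε2 s1 (abs_nonneg _) (by positivity)
        have s3 := neg_le_abs (D06k2 (u x / ε) * η x ^ 2 * ∑ j, aa u j x * pd j (sg u) x)
        have s4 := mul_le_mul_of_nonneg_left s3 hε0
        calc - 4 * (ε⁻¹ * (D06k2 (u x / ε) * η x ^ 2 * ∑ j, aa u j x * pd j (sg u) x))
            = 4 * (ε⁻¹ * -(D06k2 (u x / ε) * η x ^ 2 * ∑ j, aa u j x * pd j (sg u) x)) := by
              ring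
          _ ≤ 4 * ((2 * (u x)⁻¹) * ((2 * c * Cχ) * y ^ 2 * (A * (C1 * (1 + t))))) := by
              linarith
          _ = (16 * Cχ * C1) * c * y ^ 2 * (A * (u x)⁻¹) * (1 + t) := by ring
      have t3' := D06_real2 (c := c) (y := y) (t := t) (s := A * (u x)⁻¹) (K := 16 * Cχ * C1)
        hc0 hc1 hy0 hy1 (by positivity)
      have t3'' : ((16 * Cχ * C1) * (A * (u x)⁻¹)) ^ 2
          ≤ (16 * Cχ * C1) ^ 2 * n * (a2 u x / u x ^ 2) := by
        have e1 : ((16 * Cχ * C1) * (A * (u x)⁻¹)) ^ 2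
            = ((16 * Cχ * C1) ^ 2 * ((u x)⁻¹) ^ 2) * A ^ 2 := by ring
        have e2 : (16 * Cχ * C1) ^ 2 * n * (a2 u x / u x ^ 2)
            = ((16 * Cχ * C1) ^ 2 * ((u x)⁻¹) ^ 2) * (n * a2 u x) := by
          field_simp
        rw [e1, e2]
        exact mul_le_mul_of_nonneg_left hA2 (by positivity)
      have t5 : 2 * (ε⁻¹ * (ε⁻¹ * (deriv D06k2 (u x / ε) * η x ^ 2 * a2 u x)))
          ≤ 8 * C3 * (a2 u x / u x ^ 2) := by
        have s1 : deriv D06k2 (u x / ε) * η x ^ 2 * a2 u x ≤ C3 * 1 * a2 u x := by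
          apply mul_le_mul_of_nonneg_right _ ha2
          apply mul_le_mul ((le_abs_self _).trans (hd _)) _ (sq_nonneg _) hC3
          show y ^ 2 ≤ 1
          nlinarith
        have s2 : ε⁻¹ * ε⁻¹ ≤ (2 * (u x)⁻¹) * (2 * (u x)⁻¹) :=
          mul_le_mul hε2 hε2 hε0 (by positivity)
        calc 2 * (ε⁻¹ * (ε⁻¹ * (deriv D06k2 (u x / ε) * η x ^ 2 * a2 u x)))
            = 2 * ((ε⁻¹ * ε⁻¹) * (deriv D06k2 (u x / ε) * η x ^ 2 * a2 u x)) := by ring
          _ ≤ 2 * ((ε⁻¹ * ε⁻¹) * (C3 * 1 * a2 u x)) := by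
              have := mul_le_mul_of_nonneg_left s1 (mul_nonneg hε0 hε0)
              linarith
          _ ≤ 2 * (((2 * (u x)⁻¹) * (2 * (u x)⁻¹)) * (C3 * 1 * a2 u x)) := by
              have := mul_le_mul_of_nonneg_right s2 (by positivity : 0 ≤ C3 * 1 * a2 u x)
              linarith
          _ = 8 * C3 * (a2 u x / u x ^ 2) := by
              field_simp
              ring
      have e3 : (2 * (16 * Cχ * C1) ^ 2 * n + 8 * C3) * (a2 u x / u x ^ 2)
          = 2 * ((16 * Cχ * C1) ^ 2 * n * (a2 u x / u x ^ 2)) + 8 * C3 * (a2 u x / u x ^ 2) := by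
        ring
      rw [e3]
      linarith
    · rw [D06k2_off hI, D06dk2_off hI]
      have : 0 ≤ (1 / 4) * (c ^ 2 * y ^ 2 * t ^ 2) + 1 / 4
        + (2 * (16 * Cχ * C1) ^ 2 * n + 8 * C3) * (a2 u x / u x ^ 2) := by positivity
      simpa using this
  have t0 : D06k (u x / ε) * η x ^ 2 * TT u x = c ^ 2 * y ^ 2 * t ^ 2 := by
    rw [ht2]
    rfl
  have t0' : 0 ≤ c ^ 2 * y ^ 2 * t ^ 2 := by positivity
  rw [t0]
  linarith

private lemma D06_bound (h : Sol E u) {a b : ℝ} (ha : 0 < a) {η : V n → ℝ} (hη : Tst η)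
    (hη0 : ∀ x, 0 ≤ η x) (hη1 : ∀ x, η x ≤ 1) (hηs : tsupport η ⊆ Ann a b) :
    ∃ C, ∀ ε, 0 < ε → ∫ x in E, D06k (u x / ε) * η x ^ 2 * TT u x ≤ C := by
  have hm : MeasurableSet E := h.isOpen.measurableSet
  obtain ⟨C0, c0, hC0, -, hb⟩ := h.bounds (a := a) (b := b) ha
  obtain ⟨C1, hC1, hpd⟩ := h.pd_bounds (a := a) (b := b) ha
  obtain ⟨Cη, hCη0, hCη⟩ := D06_pd_eta hη
  obtain ⟨Cχ, hCχ1, hCχ⟩ := deriv_chi_bdd
  obtain ⟨C3, hC3, hd⟩ := D06dk2_bdd
  obtain ⟨CL, hCL, hL⟩ := h.layer_int (a := a) (b := b) ha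
  have hC0' : (0 : ℝ) ≤ C0 := by linarith
  have hC1' : (0 : ℝ) ≤ C1 := by linarith
  have hCχ' : (0 : ℝ) ≤ Cχ := by linarith
  set MB : ℝ := C0 * (n * (n * (C0 * C0))) + n * (n * ((n * (C0 * C0)) * C0)) + C0 * C0 with hMB
  have hMB0 : 0 ≤ MB := by positivity
  set MY : ℝ := n * (C0 * C0) + C0 * C0 with hMY
  have hMY0 : 0 ≤ MY := by positivity
  set G : V n → ℝ := fun x => (Ann a b : Set (V n)).indicator (fun x =>
    (2 * (n * Cη * C1) ^ 2 + 1 / 4)
      + (2 * (16 * Cχ * C1) ^ 2 * n + 8 * C3) * (a2 u x / u x ^ 2)) x with hG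
  have hAc : IsClosed (Ann a b : Set (V n)) :=
    (isClosed_le continuous_const continuous_norm).inter
      (isClosed_le continuous_norm continuous_const)
  have hAm : MeasurableSet (Ann a b : Set (V n)) := hAc.measurableSet
  have hAK : IsCompact (Ann a b : Set (V n)) := by
    apply Metric.isCompact_of_isClosed_isBounded hAc
    refine (Metric.isBounded_closedBall (x := (0 : V n)) (r := b)).subset ?_
    intro x hx
    simpa using hx.2
  have hGi : IntegrableOn G E := by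
    have h1 : IntegrableOn (fun x => (2 * (n * Cη * C1) ^ 2 + 1 / 4)
        + (2 * (16 * Cχ * C1) ^ 2 * n + 8 * C3) * (a2 u x / u x ^ 2)) (E ∩ Ann a b) := by
      apply Integrable.add
      · exact integrableOn_const
          ((measure_mono inter_subset_right).trans_lt hAK.measure_lt_top).ne
      · exact (h.int_a2_div ha).const_mul _
    rw [hG]
    show Integrable ((Ann a b : Set (V n)).indicator _) (volume.restrict E)
    rw [integrable_indicator_iff hAm]
    unfold IntegrableOn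
    rw [Measure.restrict_restrict hAm, inter_comm]
    exact h1
  refine ⟨(∫ x in E, G x) + 2 * (CL * ((2 * Cχ) * MB))
    + 2 * (CL * ((2 * Cχ) * (n * (2 * Cη * MY)))), fun ε hε => ?_⟩
  have hη2 : Tst (fun x => η x ^ 2) := D06_sq hη
  have hid := D06_identity h hη hε
  have hk2 : ∀ s, |D06k2 s| ≤ 2 * Cχ := by
    intro s
    have h1 := chi_nonneg s
    have h2 := chi_le_one s
    unfold D06k2
    rw [abs_mul, abs_of_nonneg (by positivity : 0 ≤ 2 * chi s)]
    calc 2 * chi s * |deriv chi s| ≤ 2 * 1 * Cχ :=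
          mul_le_mul (by linarith) (hCχ s) (abs_nonneg _) (by norm_num)
      _ = 2 * Cχ := by ring
  have hη_off : ∀ x, x ∉ Ann a b → η x = 0 := fun x hx =>
    image_eq_zero_of_notMem_tsupport fun hh => hx (hηs hh)
  have hk2_off : ∀ x, 2 * ε < u x → D06k2 (u x / ε) = 0 := by
    intro x hx
    apply D06k2_off
    intro hh
    have := (div_le_iff₀ hε).1 hh.2
    linarith
  have hpd2 : ∀ i x, |pd i (fun y => η y ^ 2) x| ≤ 2 * Cη := by
    intro i x
    rw [D06_pd_sq hη i x, abs_mul, abs_of_nonneg (by have := hη0 x; positivity : 0 ≤ 2 * η x)]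
    calc 2 * η x * |pd i η x| ≤ 2 * 1 * Cη :=
          mul_le_mul (by have := hη1 x; linarith) (hCη i x) (abs_nonneg _) (by norm_num)
      _ = 2 * Cη := by ring
  -- T2
  have hT2 := hL (fun x => D06k2 (u x / ε) * η x ^ 2 * D06B u x) ε ((2 * Cχ) * MB) hε
    (by positivity) (by
      intro x hx hxA _
      obtain ⟨b1, b2, b3, b4, b5, b6, b7, b8, b9, b10, b11, b12⟩ := hb x hx hxA
      have hN : |NN u x| ≤ C0 := by
        rw [abs_of_nonneg (Finset.sum_nonneg fun i _ => Finset.sum_nonneg fun j _ => sq_nonneg _)]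
        exact b8
      have hB := D06_bdd_B hC0' b2 b4 hN
      show |D06k2 (u x / ε) * η x ^ 2 * D06B u x| ≤ 2 * Cχ * MB
      rw [abs_mul, abs_mul, abs_of_nonneg (sq_nonneg (η x))]
      apply mul_le_mul _ hB (abs_nonneg _) (by positivity)
      have hy : η x ^ 2 ≤ 1 := by
        have := hη0 x
        have := hη1 x
        nlinarith
      calc |D06k2 (u x / ε)| * η x ^ 2 ≤ (2 * Cχ) * 1 :=
            mul_le_mul (hk2 _) hy (sq_nonneg _) (by positivity)
        _ = 2 * Cχ := by ring) (by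
      intro x hx hh
      rcases hh with hh | hh
      · show D06k2 (u x / ε) * η x ^ 2 * D06B u x = 0
        rw [hη_off x hh]
        ring
      · show D06k2 (u x / ε) * η x ^ 2 * D06B u x = 0
        rw [hk2_off x hh]
        ring)
  -- T4
  have hT4 := hL (fun x => D06k2 (u x / ε) * ∑ j, pd j (fun y => η y ^ 2) x * D06Y u j x) ε
    ((2 * Cχ) * (n * (2 * Cη * MY))) hε (by positivity) (by
      intro x hx hxA _
      obtain ⟨b1, b2, b3, b4, b5, b6, b7, b8, b9, b10, b11, b12⟩ := hb x hx hxA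
      show |D06k2 (u x / ε) * ∑ j, pd j (fun y => η y ^ 2) x * D06Y u j x|
        ≤ 2 * Cχ * (n * (2 * Cη * MY))
      rw [abs_mul]
      apply mul_le_mul (hk2 _) _ (abs_nonneg _) (by positivity)
      calc |∑ j, pd j (fun y => η y ^ 2) x * D06Y u j x|
          ≤ ∑ j, |pd j (fun y => η y ^ 2) x * D06Y u j x| := Finset.abs_sum_le_sum_abs _ _
        _ ≤ ∑ _j : Fin n, (2 * Cη * MY : ℝ) := by
            apply Finset.sum_le_sum
            intro j _
            rw [abs_mul]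
            exact mul_le_mul (hpd2 j x) (D06_bdd_Y hC0' b2 b4 b5 j) (abs_nonneg _) (by positivity)
        _ = n * (2 * Cη * MY) := by simp) (by
      intro x hx hh
      rcases hh with hh | hh
      · show D06k2 (u x / ε) * ∑ j, pd j (fun y => η y ^ 2) x * D06Y u j x = 0
        have : ∑ j, pd j (fun y => η y ^ 2) x * D06Y u j x = 0 := by
          apply Finset.sum_eq_zero
          intro j _
          rw [D06_pd_sq hη j x, hη_off x hh]
          ring
        rw [this, mul_zero]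
      · show D06k2 (u x / ε) * ∑ j, pd j (fun y => η y ^ 2) x * D06Y u j x = 0
        rw [hk2_off x hh, zero_mul])
  -- integrability
  have i0 : IntegrableOn (fun x => D06k (u x / ε) * η x ^ 2 * TT u x) E :=
    D06_int h D06k_smooth D06k_zero hη2 hε h.smooth_TT.continuousOn
  have i1 : IntegrableOn
      (fun x => D06k (u x / ε) * ∑ i, pd i (fun y => η y ^ 2) x * pd i (NN u) x) E := by
    have h1 : IntegrableOn
        (fun x => D06k (u x / ε) * η x * ∑ i, (2 * pd i η x) * pd i (NN u) x) E :=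
      D06_int h D06k_smooth D06k_zero hη hε
        (continuousOn_finsetSum _ fun i _ => (continuousOn_const.mul
          (contDiff_pd (m := 1) hη.smooth (by
            show (1 : WithTop ℕ∞) + 1 ≤ _
            exact (by norm_num : (1 : WithTop ℕ∞) + 1 = 2) ▸ two_le_top) i).continuous.continuousOn).mul
          (contDiffOn_pd_top h.isOpen h.smooth_NN i).continuousOn)
    refine h1.congr_fun ?_ hm
    intro x hx
    show D06k (u x / ε) * η x * ∑ i, (2 * pd i η x) * pd i (NN u) x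
      = D06k (u x / ε) * ∑ i, pd i (fun y => η y ^ 2) x * pd i (NN u) x
    rw [mul_assoc, Finset.mul_sum]
    congr 1
    apply Finset.sum_congr rfl
    intro i _
    rw [D06_pd_sq hη i x]
    ring
  have i3 : IntegrableOn (fun x => D06k2 (u x / ε) * η x ^ 2 * ∑ j, aa u j x * pd j (sg u) x) E :=
    D06_int h D06k2_smooth D06k2_zero hη2 hε
      (continuousOn_finsetSum _ fun j _ => (h.smooth_aa j).continuousOn.mul
        (contDiffOn_pd_top h.isOpen h.smooth_sg j).continuousOn)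
  have i5 : IntegrableOn (fun x => deriv D06k2 (u x / ε) * η x ^ 2 * a2 u x) E :=
    D06_int h D06dk2_smooth D06dk2_zero hη2 hε
      (continuousOn_finsetSum _ fun j _ => (h.smooth_aa j).continuousOn.pow 2)
  have i1n : IntegrableOn (fun x =>
      -(D06k (u x / ε) * ∑ i, pd i (fun y => η y ^ 2) x * pd i (NN u) x)) E := i1.neg
  have i6 : IntegrableOn (fun x =>
      -(D06k (u x / ε) * ∑ i, pd i (fun y => η y ^ 2) x * pd i (NN u) x)
      - 4 * (ε⁻¹ * (D06k2 (u x / ε) * η x ^ 2 * ∑ j, aa u j x * pd j (sg u) x))) E :=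
    i1n.sub ((i3.const_mul ε⁻¹).const_mul 4)
  have i7 : IntegrableOn (fun x =>
      2 * (ε⁻¹ * (ε⁻¹ * (deriv D06k2 (u x / ε) * η x ^ 2 * a2 u x)))) E :=
    ((i5.const_mul ε⁻¹).const_mul ε⁻¹).const_mul 2
  have hle : ∫ x in E, (-(D06k (u x / ε) * ∑ i, pd i (fun y => η y ^ 2) x * pd i (NN u) x)
      - 4 * (ε⁻¹ * (D06k2 (u x / ε) * η x ^ 2 * ∑ j, aa u j x * pd j (sg u) x))
      + 2 * (ε⁻¹ * (ε⁻¹ * (deriv D06k2 (u x / ε) * η x ^ 2 * a2 u x))))
      ≤ ∫ x in E, (D06k (u x / ε) * η x ^ 2 * TT u x + G x) := by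
    apply setIntegral_mono_on (i6.add i7) (i0.add hGi) hm
    intro x hx
    by_cases hxA : x ∈ Ann a b
    · obtain ⟨-, p2, -, p4⟩ := hpd x hx hxA
      have := D06_point h hη hη0 hη1 hCη0 hC1' hCχ' hC3 hx (fun i => hCη i x) p2 p4 hCχ hd hε
      have hGx : G x = (2 * (n * Cη * C1) ^ 2 + 1 / 4)
          + (2 * (16 * Cχ * C1) ^ 2 * n + 8 * C3) * (a2 u x / u x ^ 2) := indicator_of_mem hxA _
      show _ ≤ D06k (u x / ε) * η x ^ 2 * TT u x + G x
      rw [hGx]
      exact this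
    · have e1 : ∑ i, pd i (fun y => η y ^ 2) x * pd i (NN u) x = 0 := by
        apply Finset.sum_eq_zero
        intro j _
        rw [D06_pd_sq hη j x, hη_off x hxA]
        ring
      have hGx : G x = 0 := indicator_of_notMem hxA _
      show -(D06k (u x / ε) * ∑ i, pd i (fun y => η y ^ 2) x * pd i (NN u) x)
        - 4 * (ε⁻¹ * (D06k2 (u x / ε) * η x ^ 2 * ∑ j, aa u j x * pd j (sg u) x))
        + 2 * (ε⁻¹ * (ε⁻¹ * (deriv D06k2 (u x / ε) * η x ^ 2 * a2 u x)))
        ≤ D06k (u x / ε) * η x ^ 2 * TT u x + G x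
      rw [e1, hGx, hη_off x hxA]
      norm_num
  rw [integral_add i0 hGi, integral_add i6 i7,
    integral_sub i1n ((i3.const_mul ε⁻¹).const_mul 4), integral_neg,
    integral_const_mul, integral_const_mul, integral_const_mul, integral_const_mul,
    integral_const_mul] at hle
  have a2' := (abs_le.1 hT2).1
  have a4' := (abs_le.1 hT4).2
  linarith

/-- `|D³u|²` is integrable on annuli up to the free boundary.
Sketch. `ρ = chi`, `κ = chi²`, `ρ_ε = chi (u/ε)`, `η` from `exists_tst`, `I_ε = ∫_E ρ_ε² η² TT`.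
`2 I_ε = ∫ ρ_ε² η² Δ NN` (`Sol.lap_NN`) `= -∫ ρ_ε² ∇(η²)·∇NN - ε⁻¹ ∫ κ'(u/ε) η² q·∇NN`.
First term: `≤ I_ε/4 + C` (`Sol.pd_NN_sq_le`). Second: `q·∇NN = 2 ∑ S_{ij} T_{kij} q_k`
`= 2 (2 σ NN - tr S³ + a·∇σ + ∑ (S_{ij} - σ δ_{ij}) ∂_j a_i)` by `Sol.flux_identity` with `P = S`,
`z = σ` (then `r = a`). Integrate the last term by parts (`ibp`; `∑_j (S_{ij} - σδ_{ij}) q_j = a_i`,
`∑_j ∂_j (S_{ij} - σδ_{ij}) = -∂_i σ`):
`ε⁻¹ ∫ κ'(u/ε) η² ∑ (S-σ)_{ij} ∂_j a_i = - ε⁻² ∫ κ''(u/ε) η² |a|² - ε⁻¹ ∫ κ' ∑ a_i (S-σ)_{ij} ∂_j(η²)`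
`+ ε⁻¹ ∫ κ' η² a·∇σ`. Now `|κ'(u/ε)| = 2 ρ |ρ'|`, supported in `ε ≤ u ≤ 2ε`, where `ε⁻¹ ≤ 2/u`:
`ε⁻¹ |κ'| η² |a| |∇σ| ≤ ν ρ_ε² η² (1 + TT) + C_ν η² |a|²/u²` (`Sol.pd_bounds`, absorb),
`ε⁻² |κ''| η² |a|² ≤ C η² |a|²/u²` (integrable: `Sol.int_a2_div`), and the bounded terms are
`O(1)` by the volume of the layer (`Sol.vol_layer`). So `I_ε ≤ C`; let `ε → 0`. -/
theorem Sol.int_TT (h : Sol E u) {a b : ℝ} (ha : 0 < a) :
    IntegrableOn (TT u) (E ∩ Ann a b) := by
  have hm : MeasurableSet E := h.isOpen.measurableSet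
  have hAc : IsClosed (Ann a b : Set (V n)) :=
    (isClosed_le continuous_const continuous_norm).inter
      (isClosed_le continuous_norm continuous_const)
  have hAm : MeasurableSet (Ann a b : Set (V n)) := hAc.measurableSet
  by_cases hab : a ≤ b
  swap
  · have : (Ann a b : Set (V n)) = ∅ := by
      ext x
      simp only [Ann, mem_ofPred_eq, mem_empty_iff_false, iff_false]
      rintro ⟨h1, h2⟩
      exact hab (h1.trans h2)
    rw [this, inter_empty]
    exact integrableOn_empty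
  obtain ⟨η, hη, hη0, hη1, hηA, hηs⟩ := exists_tst (n := n) ha (ha.le.trans hab)
  obtain ⟨C, hC⟩ := D06_bound h (half_pos ha) hη hη0 hη1 hηs
  have hTT : ∀ x, 0 ≤ TT u x := fun x => Finset.sum_nonneg fun i _ => Finset.sum_nonneg fun j _ =>
    Finset.sum_nonneg fun k _ => sq_nonneg _
  have hεp : ∀ m : ℕ, (0 : ℝ) < 1 / ((m : ℝ) + 1) := fun m => Nat.one_div_pos_of_nat
  have hsm : ∀ m : ℕ, MeasurableSet {x : V n | 2 * (1 / ((m : ℝ) + 1)) ≤ u x} := fun m =>
    (isClosed_le continuous_const h.cont).measurableSet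
  have hcov : AECover (volume.restrict (E ∩ Ann a b)) atTop
      (fun m : ℕ => {x : V n | 2 * (1 / ((m : ℝ) + 1)) ≤ u x}) := by
    refine ⟨?_, hsm⟩
    rw [ae_restrict_iff' (hm.inter hAm)]
    refine Eventually.of_forall fun x hx => ?_
    have hu : 0 < u x := h.pos x hx.1
    have ht : Tendsto (fun m : ℕ => 2 * (1 / ((m : ℝ) + 1))) atTop (𝓝 (2 * 0)) :=
      tendsto_one_div_add_atTop_nhds_zero_nat.const_mul 2
    rw [mul_zero] at ht
    filter_upwards [ht.eventually_le_const hu] with m hm'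
    exact hm'
  have hi0 : ∀ m : ℕ, IntegrableOn
      (fun x => D06k (u x / (1 / ((m : ℝ) + 1))) * η x ^ 2 * TT u x) E := fun m =>
    D06_int h D06k_smooth D06k_zero (D06_sq hη) (hεp m) h.smooth_TT.continuousOn
  have hsub : ∀ m : ℕ, {x : V n | 2 * (1 / ((m : ℝ) + 1)) ≤ u x} ∩ (E ∩ Ann a b) ⊆ E :=
    fun m x hx => hx.2.1
  have heq : ∀ m : ℕ, ∀ x ∈ {x : V n | 2 * (1 / ((m : ℝ) + 1)) ≤ u x} ∩ (E ∩ Ann a b),
      D06k (u x / (1 / ((m : ℝ) + 1))) * η x ^ 2 * TT u x = TT u x := by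
    intro m x hx
    have h1 : 2 ≤ u x / (1 / ((m : ℝ) + 1)) := (le_div_iff₀ (hεp m)).2 hx.1
    have h2 : D06k (u x / (1 / ((m : ℝ) + 1))) = 1 := by
      unfold D06k
      rw [chi_eq_one h1]
      norm_num
    rw [h2, hηA x hx.2.2]
    norm_num
  have hms : ∀ m : ℕ, MeasurableSet
      ({x : V n | 2 * (1 / ((m : ℝ) + 1)) ≤ u x} ∩ (E ∩ Ann a b)) := fun m =>
    (hsm m).inter (hm.inter hAm)
  refine hcov.integrable_of_integral_bounded_of_nonneg_ae C ?_ (Eventually.of_forall hTT)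
    (Eventually.of_forall fun m => ?_)
  · intro m
    unfold IntegrableOn
    rw [Measure.restrict_restrict (hsm m)]
    exact ((hi0 m).mono_set (hsub m)).congr_fun (heq m) (hms m)
  · rw [Measure.restrict_restrict (hsm m), ← setIntegral_congr_fun (hms m) (heq m)]
    refine le_trans ?_ (hC _ (hεp m))
    apply setIntegral_mono_set (hi0 m)
    · rw [EventuallyLE, ae_restrict_iff' hm]
      refine Eventually.of_forall fun x _ => ?_
      have h1 : 0 ≤ D06k (u x / (1 / ((m : ℝ) + 1))) := sq_nonneg _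
      exact mul_nonneg (mul_nonneg h1 (sq_nonneg _)) (hTT x)
    · exact (hsub m).eventuallyLE

end OPC
end
end

section

section

/-! # F01: error terms in the layers -/

open MeasureTheory Set Filter Topology

namespace OPC

variable {n : ℕ} {E : Set (V n)} {u : V n → ℝ}

private theorem F01_measAnn (a b : ℝ) : MeasurableSet (Ann a b : Set (V n)) := by
  have h1 : IsClosed (Ann a b : Set (V n)) :=
    (isClosed_le continuous_const continuous_norm).inter
      (isClosed_le continuous_norm continuous_const)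
  exact h1.measurableSet

private theorem F01_volAnn (a b : ℝ) (E : Set (V n)) : volume (E ∩ Ann a b) < ⊤ := by
  have h1 : E ∩ Ann a b ⊆ Metric.closedBall (0 : V n) b := by
    intro x hx
    rw [mem_closedBall_zero_iff]
    exact hx.2.2
  exact lt_of_le_of_lt (measure_mono h1) measure_closedBall_lt_top

private theorem F01_a2nn (x : V n) : 0 ≤ a2 u x := by
  unfold a2
  exact Finset.sum_nonneg fun _ _ => sq_nonneg _

private theorem F01_TTnn (x : V n) : 0 ≤ TT u x := by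
  unfold TT
  exact Finset.sum_nonneg fun _ _ => Finset.sum_nonneg fun _ _ =>
    Finset.sum_nonneg fun _ _ => sq_nonneg _

private theorem F01_a2cont (h : Sol E u) : ContinuousOn (a2 u) E := by
  unfold a2
  exact continuousOn_finsetSum _ fun i _ => ((h.smooth_aa i).continuousOn).pow 2

/-- general dominated convergence in the layers -/
private theorem F01_dom (h : Sol E u) {a b : ℝ} (f : ℝ → V n → ℝ) (G : V n → ℝ)
    (hG : IntegrableOn G (E ∩ Ann a b)) (hf : ∀ ε, 0 < ε → ContinuousOn (f ε) E)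
    (hb : ∀ ε, 0 < ε → ∀ x ∈ E, u x ≤ 2 * ε → |f ε x| ≤ G x) (hG0 : ∀ x, 0 ≤ G x) :
    Tendsto (fun ε : ℝ => ∫ x in E ∩ Ann a b ∩ {x | u x ≤ 2 * ε}, f ε x) (𝓝[>] 0) (𝓝 0) := by
  have hms : MeasurableSet (E ∩ Ann a b) := h.isOpen.measurableSet.inter (F01_measAnn a b)
  have hmu : ∀ ε : ℝ, MeasurableSet {x : V n | u x ≤ 2 * ε} := fun ε =>
    (isClosed_le h.cont continuous_const).measurableSet
  have e1 : ∀ ε : ℝ, ∫ x in E ∩ Ann a b ∩ {x | u x ≤ 2 * ε}, f ε x
      = ∫ x in E ∩ Ann a b, ({x | u x ≤ 2 * ε}.indicator (f ε)) x := by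
    intro ε
    rw [setIntegral_indicator (hmu ε)]
  simp_rw [e1]
  have key : Tendsto (fun ε : ℝ => ∫ x in E ∩ Ann a b, ({x | u x ≤ 2 * ε}.indicator (f ε)) x)
      (𝓝[>] 0) (𝓝 (∫ _x in E ∩ Ann a b, (0 : ℝ))) := by
    apply tendsto_integral_filter_of_dominated_convergence G
    · filter_upwards [self_mem_nhdsWithin] with ε hε
      have hε' : 0 < ε := hε
      have hc : ContinuousOn (f ε) (E ∩ Ann a b) := (hf ε hε').mono inter_subset_left
      exact (hc.aestronglyMeasurable hms).indicator (hmu ε)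
    · filter_upwards [self_mem_nhdsWithin] with ε hε
      have hε' : 0 < ε := hε
      rw [ae_restrict_iff' hms]
      refine Eventually.of_forall fun x hx => ?_
      by_cases hux : u x ≤ 2 * ε
      · rw [indicator_of_mem (show x ∈ {x | u x ≤ 2 * ε} from hux), Real.norm_eq_abs]
        exact hb ε hε' x hx.1 hux
      · rw [indicator_of_notMem (show x ∉ {x | u x ≤ 2 * ε} from hux), norm_zero]
        exact hG0 x
    · exact hG
    · rw [ae_restrict_iff' hms]
      refine Eventually.of_forall fun x hx => ?_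
      have hpos : 0 < u x := h.pos x hx.1
      apply tendsto_const_nhds.congr'
      have : ∀ᶠ ε : ℝ in 𝓝[>] 0, ε < u x / 2 :=
        nhdsWithin_le_nhds (Iio_mem_nhds (by positivity))
      filter_upwards [this] with ε hε
      rw [indicator_of_notMem]
      simp only [Set.mem_ofPred_eq, not_le]
      linarith
  simpa using key

/-- `ε⁻¹ ∫_{E ∩ Ann, u < 2ε} (|a| + u) (1 + |T|) → 0`.
Sketch: `ε⁻¹ ∫_{layer} |a| |T| ≤ 2 ∫_{layer} (|a|/u) |T| ≤ ∫_{layer} (|a|²/u² + |T|²) → 0`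
(`Sol.int_a2_div`, `Sol.int_TT`, the layers decrease to `∅`), `ε⁻¹ ∫_{layer} |a| ≤ C sup |a| → 0`
(`Sol.lay_a2`, `Sol.vol_layer`), `ε⁻¹ ∫_{layer} u (1 + |T|) ≤ 2 ∫_{layer} (1 + |T|) → 0`. -/
theorem Sol.layer_err (h : Sol E u) {a b : ℝ} (ha : 0 < a) :
    Tendsto (fun ε : ℝ => ε⁻¹ * ∫ x in E ∩ Ann a b ∩ {x | u x ≤ 2 * ε},
      (√(a2 u x) + u x) * (1 + √(TT u x))) (𝓝[>] 0) (𝓝 0) := by
  simp_rw [← integral_const_mul]
  apply F01_dom h (fun ε x => ε⁻¹ * ((√(a2 u x) + u x) * (1 + √(TT u x))))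
    (fun x => 2 * (a2 u x / u x ^ 2) + 2 * TT u x + 4)
  · have h1 := (h.int_a2_div (a := a) (b := b) ha).const_mul 2
    have h2 := (h.int_TT (a := a) (b := b) ha).const_mul 2
    have h3 : IntegrableOn (fun _ : V n => (4 : ℝ)) (E ∩ Ann a b) :=
      integrableOn_const (F01_volAnn a b E).ne
    exact (h1.add h2).add h3
  · intro ε _
    have hT : ContinuousOn (TT u) E := h.smooth_TT.continuousOn
    exact continuousOn_const.mul (((F01_a2cont h).sqrt.add h.cont.continuousOn).mul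
      (continuousOn_const.add hT.sqrt))
  · intro ε hε x hx hux
    have hpos : 0 < u x := h.pos x hx
    have hA := F01_a2nn (u := u) x
    have hT := F01_TTnn (u := u) x
    set A := √(a2 u x) with hAd
    set B := √(TT u x) with hBd
    have hA2 : A ^ 2 = a2 u x := Real.sq_sqrt hA
    have hB2 : B ^ 2 = TT u x := Real.sq_sqrt hT
    have hA0 : 0 ≤ A := Real.sqrt_nonneg _
    have hB0 : 0 ≤ B := Real.sqrt_nonneg _
    rw [abs_of_nonneg (by positivity), ← hA2, ← hB2]
    have hε2 : ε⁻¹ ≤ 2 / u x := by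
      rw [inv_eq_one_div, div_le_div_iff₀ hε hpos]
      linarith
    calc ε⁻¹ * ((A + u x) * (1 + B)) ≤ 2 / u x * ((A + u x) * (1 + B)) :=
          mul_le_mul_of_nonneg_right hε2 (by positivity)
      _ = 2 * (A / u x) * B + 2 * (A / u x) + 2 * (1 + B) := by
          field_simp
          ring
      _ ≤ 2 * (A ^ 2 / u x ^ 2) + 2 * B ^ 2 + 4 := by
          have h5 : A ^ 2 / u x ^ 2 = (A / u x) ^ 2 := by rw [div_pow]
          rw [h5]
          nlinarith [sq_nonneg (A / u x - B), sq_nonneg (A / u x - 1), sq_nonneg (B - 1)]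
  · intro x
    have hA := F01_a2nn (u := u) x
    have hT := F01_TTnn (u := u) x
    positivity

/-- `ε⁻² ∫_{E ∩ Ann, ε ≤ u ≤ 2ε} |a| (|a| + u) → 0`. -/
theorem Sol.layer_err2 (h : Sol E u) {a b : ℝ} (ha : 0 < a) :
    Tendsto (fun ε : ℝ => (ε ^ 2)⁻¹ * ∫ x in E ∩ Ann a b ∩ {x | u x ≤ 2 * ε},
      √(a2 u x) * (√(a2 u x) + u x)) (𝓝[>] 0) (𝓝 0) := by
  simp_rw [← integral_const_mul]
  apply F01_dom h (fun ε x => (ε ^ 2)⁻¹ * (√(a2 u x) * (√(a2 u x) + u x)))
    (fun x => 6 * (a2 u x / u x ^ 2) + 2)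
  · have h1 := (h.int_a2_div (a := a) (b := b) ha).const_mul 6
    have h3 : IntegrableOn (fun _ : V n => (2 : ℝ)) (E ∩ Ann a b) :=
      integrableOn_const (F01_volAnn a b E).ne
    exact h1.add h3
  · intro ε _
    exact continuousOn_const.mul ((F01_a2cont h).sqrt.mul
      ((F01_a2cont h).sqrt.add h.cont.continuousOn))
  · intro ε hε x hx hux
    have hpos : 0 < u x := h.pos x hx
    have hA := F01_a2nn (u := u) x
    set A := √(a2 u x) with hAd
    have hA2 : A ^ 2 = a2 u x := Real.sq_sqrt hA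
    have hA0 : 0 ≤ A := Real.sqrt_nonneg _
    rw [abs_of_nonneg (by positivity), ← hA2]
    have hε2 : (ε ^ 2)⁻¹ ≤ 4 / u x ^ 2 := by
      rw [inv_eq_one_div, div_le_div_iff₀ (by positivity) (by positivity)]
      nlinarith
    calc (ε ^ 2)⁻¹ * (A * (A + u x)) ≤ 4 / u x ^ 2 * (A * (A + u x)) :=
          mul_le_mul_of_nonneg_right hε2 (by positivity)
      _ = 4 * (A / u x) ^ 2 + 4 * (A / u x) := by
          field_simp
      _ ≤ 6 * (A ^ 2 / u x ^ 2) + 2 := by
          have h5 : A ^ 2 / u x ^ 2 = (A / u x) ^ 2 := by rw [div_pow]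
          rw [h5]
          nlinarith [sq_nonneg (A / u x - 1)]
  · intro x
    have hA := F01_a2nn (u := u) x
    positivity

end OPC
end

section

/-! # F02: the flux lemma -/

open MeasureTheory Set Filter Topology

namespace OPC

variable {n : ℕ} {E : Set (V n)} {u : V n → ℝ}

private theorem F02_volAnn (a b : ℝ) (E : Set (V n)) : volume (E ∩ Ann a b) < ⊤ := by
  have h1 : E ∩ Ann a b ⊆ Metric.closedBall (0 : V n) b := by
    intro x hx
    rw [mem_closedBall_zero_iff]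
    exact hx.2.2
  exact lt_of_le_of_lt (measure_mono h1) measure_closedBall_lt_top

private theorem F02_a2nn (x : V n) : 0 ≤ a2 u x := by
  unfold a2
  exact Finset.sum_nonneg fun _ _ => sq_nonneg _

private theorem F02_TTnn (x : V n) : 0 ≤ TT u x := by
  unfold TT
  exact Finset.sum_nonneg fun _ _ => Finset.sum_nonneg fun _ _ =>
    Finset.sum_nonneg fun _ _ => sq_nonneg _

private theorem F02_a2cont (h : Sol E u) : ContinuousOn (a2 u) E := by
  unfold a2
  exact continuousOn_finsetSum _ fun i _ => ((h.smooth_aa i).continuousOn).pow 2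

private theorem F02_measAnn (a b : ℝ) : MeasurableSet (Ann a b : Set (V n)) := by
  have h1 : IsClosed (Ann a b : Set (V n)) :=
    (isClosed_le continuous_const continuous_norm).inter
      (isClosed_le continuous_norm continuous_const)
  exact h1.measurableSet

private theorem F02_aa_le (i : Fin n) (x : V n) : |aa u i x| ≤ √(a2 u x) := by
  apply Real.abs_le_sqrt
  unfold a2
  exact Finset.single_le_sum (f := fun i => (aa u i x) ^ 2) (fun _ _ => sq_nonneg _)
    (Finset.mem_univ i)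

private theorem F02_sum_le {f : Fin n → ℝ} {B : ℝ} (hf : ∀ i, |f i| ≤ B) :
    |∑ i, f i| ≤ n * B := by
  refine (Finset.abs_sum_le_sum_abs _ _).trans ?_
  refine (Finset.sum_le_sum fun i _ => hf i).trans ?_
  simp

/-- integrability of the dominating functions -/
private theorem F02_int1 (h : Sol E u) {a b : ℝ} (ha : 0 < a) :
    IntegrableOn (fun x => (√(a2 u x) + u x) * (1 + √(TT u x))) (E ∩ Ann a b) := by
  obtain ⟨C, c, hC, hc, hB⟩ := h.bounds (b := b) ha
  have hms : MeasurableSet (E ∩ Ann a b) := h.isOpen.measurableSet.inter (F02_measAnn a b)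
  have hG : IntegrableOn (fun x => (2 * C + 2 * C ^ 2 + 2) + 2 * TT u x) (E ∩ Ann a b) :=
    (integrableOn_const (F02_volAnn a b E).ne).add
      ((h.int_TT (a := a) (b := b) ha).const_mul 2)
  have hc1 : ContinuousOn (fun x => (√(a2 u x) + u x) * (1 + √(TT u x))) (E ∩ Ann a b) :=
    ((((F02_a2cont h).sqrt.add h.cont.continuousOn).mul
      (continuousOn_const.add h.smooth_TT.continuousOn.sqrt))).mono inter_subset_left
  refine Integrable.mono' hG (hc1.aestronglyMeasurable hms) ?_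
  rw [ae_restrict_iff' hms]
  refine Eventually.of_forall fun x hx => ?_
  obtain ⟨-, -, -, -, -, -, -, -, -, h1, h2, -⟩ := hB x hx.1 hx.2
  have hu0 : 0 < u x := h.pos x hx.1
  have e1 := Real.sq_sqrt (F02_a2nn (u := u) x)
  have e2 := Real.sq_sqrt (F02_TTnn (u := u) x)
  have e3 := Real.sqrt_nonneg (a2 u x)
  have e4 := Real.sqrt_nonneg (TT u x)
  rw [Real.norm_eq_abs, abs_of_nonneg (by positivity)]
  nlinarith [sq_nonneg (√(a2 u x) + u x - (1 + √(TT u x))), sq_nonneg (√(a2 u x) - u x),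
    sq_nonneg (√(TT u x) - 1), mul_le_mul h2 h2 hu0.le (by linarith)]

private theorem F02_int2 (h : Sol E u) {a b : ℝ} (ha : 0 < a) :
    IntegrableOn (fun x => √(a2 u x) * (√(a2 u x) + u x)) (E ∩ Ann a b) := by
  obtain ⟨C, c, hC, hc, hB⟩ := h.bounds (b := b) ha
  have hms : MeasurableSet (E ∩ Ann a b) := h.isOpen.measurableSet.inter (F02_measAnn a b)
  have hG : IntegrableOn (fun _ : V n => (2 * C + C ^ 2)) (E ∩ Ann a b) :=
    integrableOn_const (F02_volAnn a b E).ne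
  have hc1 : ContinuousOn (fun x => √(a2 u x) * (√(a2 u x) + u x)) (E ∩ Ann a b) :=
    (((F02_a2cont h).sqrt.mul ((F02_a2cont h).sqrt.add h.cont.continuousOn))).mono
      inter_subset_left
  refine Integrable.mono' hG (hc1.aestronglyMeasurable hms) ?_
  rw [ae_restrict_iff' hms]
  refine Eventually.of_forall fun x hx => ?_
  obtain ⟨-, -, -, -, -, -, -, -, -, h1, h2, -⟩ := hB x hx.1 hx.2
  have hu0 : 0 < u x := h.pos x hx.1
  have e1 := Real.sq_sqrt (F02_a2nn (u := u) x)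
  have e3 := Real.sqrt_nonneg (a2 u x)
  rw [Real.norm_eq_abs, abs_of_nonneg (by positivity)]
  nlinarith [sq_nonneg (√(a2 u x) - u x), mul_le_mul h2 h2 hu0.le (by linarith)]

/-- bound of an integral supported in the layer -/
private theorem F02_le (h : Sol E u) {g D : V n → ℝ} {a b ε : ℝ}
    (hD : IntegrableOn D (E ∩ Ann a b))
    (hle : ∀ x ∈ E, x ∈ Ann a b → u x ≤ 2 * ε → |g x| ≤ D x)
    (h0 : ∀ x ∈ E, (x ∉ Ann a b ∨ 2 * ε < u x) → g x = 0) :
    |∫ x in E, g x| ≤ ∫ x in E ∩ Ann a b ∩ {x | u x ≤ 2 * ε}, D x := by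
  have hmu : MeasurableSet {x : V n | u x ≤ 2 * ε} :=
    (isClosed_le h.cont continuous_const).measurableSet
  have hms : MeasurableSet (E ∩ Ann a b ∩ {x | u x ≤ 2 * ε}) :=
    (h.isOpen.measurableSet.inter (F02_measAnn a b)).inter hmu
  have e1 : ∫ x in E, g x = ∫ x in E ∩ Ann a b ∩ {x | u x ≤ 2 * ε}, g x := by
    refine setIntegral_eq_of_subset_of_forall_sdiff_eq_zero h.isOpen.measurableSet
      (fun x hx => hx.1.1) ?_
    rintro x ⟨hx, hx'⟩
    refine h0 x hx ?_
    by_contra hc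
    push Not at hc
    exact hx' ⟨⟨hx, hc.1⟩, hc.2⟩
  rw [e1, ← Real.norm_eq_abs]
  refine norm_integral_le_of_norm_le (hD.mono_set inter_subset_left) ?_
  rw [ae_restrict_iff' hms]
  exact Eventually.of_forall fun x hx => hle x hx.1.1 hx.1.2 hx.2

/-- THE FLUX LEMMA. For a `C¹` matrix field `P` on `E` with `P q = z q + O(|a| + u)` and
`|∇P|, |∇z| ≤ C (1 + |T|)` on annuli, and `κ` smooth with support in `[1,2]`,
`ε⁻¹ ∫_E κ(u/ε) η (∑ T_{kij} q_k P_{ij} - b) → 0`, `b = σ S:P - S²:P + z |S|²`.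
Sketch: by `Sol.flux_identity` the integrand is `r·∇σ + ∑ (P - z)_{ij} ∂_j a_i`, `|r| ≤ C(|a| + u)`;
the first part is `≤ C (|a| + u)(1 + |T|)` (`Sol.pd_bounds`, `Sol.layer_err`). Second part by `ibp`:
`- ε⁻² ∫ κ'(u/ε) η ∑ a_i (P-z)_{ij} q_j - ε⁻¹ ∫ κ ∑ a_i (P-z)_{ij} ∂_jη - ε⁻¹ ∫ κ η ∑ a_i ∂_j (P-z)_{ij}`;
the first is `≤ C ε⁻² ∫_{layer} |a| (|a| + u)` (`P` symmetric: `∑_j (P-z)_{ij} q_j = r_i`), the others
`≤ C ε⁻¹ ∫_{layer} |a| (1 + |T|)`. -/
theorem Sol.flux_lemma (h : Sol E u) {η : V n → ℝ} (hη : Tst η) {κ : ℝ → ℝ}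
    (hκ : ContDiff ℝ (⊤ : ℕ∞) κ) (hκs : ∀ s, s ∉ Icc (1 : ℝ) 2 → κ s = 0)
    {P : Fin n → Fin n → V n → ℝ} {z : V n → ℝ}
    (hP : ∀ i j, ContDiffOn ℝ 1 (P i j) E) (hz : ContDiffOn ℝ 1 z E)
    (hsym : ∀ i j, ∀ x ∈ E, P i j x = P j i x)
    (hb : ∀ a b : ℝ, 0 < a → ∃ C, 0 < C ∧ ∀ x ∈ E, x ∈ Ann a b →
      (∀ i j, |P i j x| ≤ C) ∧ |z x| ≤ C ∧ (∀ k i j, |pd k (P i j) x| ≤ C * (1 + √(TT u x))) ∧
      (∀ k, |pd k z x| ≤ C * (1 + √(TT u x))) ∧
      (∀ i, |∑ j, P i j x * q u j x - z x * q u i x| ≤ C * (√(a2 u x) + u x))) :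
    Tendsto (fun ε : ℝ => ε⁻¹ * ∫ x in E, κ (u x / ε) * η x *
      ((∑ k, ∑ i, ∑ j, T u k i j x * q u k x * P i j x) -
        (sg u x * ∑ i, ∑ j, S u i j x * P i j x
          - ∑ i, ∑ j, (∑ k, S u i k x * S u k j x) * P i j x + z x * NN u x)))
      (𝓝[>] 0) (𝓝 0) := by
  have hm : MeasurableSet E := h.isOpen.measurableSet
  obtain ⟨a, b, ha, hab, hηs⟩ := hη.ann
  obtain ⟨C, hC, hB⟩ := hb a b ha
  obtain ⟨C1, hC1, hpd⟩ := h.pd_bounds (b := b) ha
  have hη_off : ∀ x, x ∉ Ann a b → η x = 0 := fun x hx =>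
    image_eq_zero_of_notMem_tsupport fun hh => hx (hηs hh)
  have hηd_off : ∀ i x, x ∉ Ann a b → pd i η x = 0 := fun i x hx =>
    image_eq_zero_of_notMem_tsupport fun hh =>
      hx (hηs ((tsupport_fderiv_apply_subset ℝ (e i) : tsupport (pd i η) ⊆ tsupport η) hh))
  -- bounds for κ, κ', η, ∇η
  have hne : ((⊤ : ℕ∞) : WithTop ℕ∞) ≠ 0 := by simp
  have hκ' : ContDiff ℝ (⊤ : ℕ∞) (deriv κ) := (contDiff_infty_iff_deriv.1 hκ).2
  have hκs' : ∀ s, s ∉ Icc (1 : ℝ) 2 → deriv κ s = 0 := by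
    intro s hs
    have h1 : κ =ᶠ[𝓝 s] fun _ => 0 := by
      filter_upwards [isClosed_Icc.isOpen_compl.mem_nhds hs] with y hy
      exact hκs y hy
    rw [h1.deriv_eq]
    simp
  have hbd : ∀ f : ℝ → ℝ, Continuous f → (∀ s, s ∉ Icc (1 : ℝ) 2 → f s = 0) →
      ∃ K, 0 ≤ K ∧ ∀ s, |f s| ≤ K := by
    intro f hf h0
    obtain ⟨K, hK⟩ := (isCompact_Icc (a := (1 : ℝ)) (b := 2)).exists_bound_of_continuousOn
      hf.continuousOn
    refine ⟨max K 0, le_max_right _ _, fun s => ?_⟩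
    by_cases hs : s ∈ Icc (1 : ℝ) 2
    · exact (hK s hs).trans (le_max_left _ _)
    · rw [h0 s hs, abs_zero]
      exact le_max_right _ _
  obtain ⟨K, hK0, hK⟩ := hbd κ hκ.continuous hκs
  obtain ⟨K', hK0', hK'⟩ := hbd (deriv κ) hκ'.continuous hκs'
  obtain ⟨H0, hH0⟩ := hη.cpt.exists_bound_of_continuous hη.smooth.continuous
  have hH00 : 0 ≤ H0 := (norm_nonneg _).trans (hH0 0)
  have hpη : ∀ i : Fin n, Continuous (pd i η) := fun i =>
    (contDiff_pd (m := 0) (k := (⊤ : ℕ∞)) hη.smooth (by simp) i).continuous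
  have hH1 : ∃ H1, 0 ≤ H1 ∧ ∀ (i : Fin n) (x : V n), |pd i η x| ≤ H1 := by
    have h1 : ∀ i : Fin n, ∃ B, ∀ x, ‖pd i η x‖ ≤ B := fun i =>
      HasCompactSupport.exists_bound_of_continuous (hη.cpt.fderiv_apply (𝕜 := ℝ) (e i)) (hpη i)
    choose B hB using h1
    refine ⟨∑ i, |B i|, Finset.sum_nonneg fun _ _ => abs_nonneg _, fun i x => ?_⟩
    have h2 := hB i x
    rw [Real.norm_eq_abs] at h2
    exact h2.trans ((le_abs_self _).trans
      (Finset.single_le_sum (f := fun i => |B i|) (fun _ _ => abs_nonneg _) (Finset.mem_univ i)))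
  obtain ⟨H1, hH10, hH1⟩ := hH1
  -- the fields
  obtain ⟨M, hM⟩ : ∃ M : Fin n → Fin n → V n → ℝ,
      M = fun i j x => P i j x - z x * (if i = j then 1 else 0) := ⟨_, rfl⟩
  obtain ⟨Y, hY⟩ : ∃ Y : Fin n → V n → ℝ, Y = fun j x => ∑ i, M i j x * aa u i x := ⟨_, rfl⟩
  obtain ⟨F1, hF1⟩ : ∃ F1 : V n → ℝ, F1 = fun x =>
      ∑ j, (∑ i, P i j x * q u i x - z x * q u j x) * pd j (sg u) x
        - ∑ j, ∑ i, pd j (M i j) x * aa u i x := ⟨_, rfl⟩
  have hMc : ∀ i j, ContDiffOn ℝ 1 (M i j) E := by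
    intro i j
    rw [hM]
    exact (hP i j).sub (hz.mul contDiffOn_const)
  have haa1 : ∀ i, ContDiffOn ℝ 1 (aa u i) E := fun i => (h.smooth_aa i).of_le (by simp)
  have hYc : ∀ j, ContDiffOn ℝ 1 (Y j) E := by
    intro j
    rw [hY]
    exact ContDiffOn.sum fun i _ => (hMc i j).mul (haa1 i)
  have hdM : ∀ i j, ∀ x ∈ E, DifferentiableAt ℝ (M i j) x := fun i j x hx =>
    ((hMc i j).contDiffAt (h.isOpen.mem_nhds hx)).differentiableAt (by simp)
  have hdz : ∀ x ∈ E, DifferentiableAt ℝ z x := fun x hx =>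
    (hz.contDiffAt (h.isOpen.mem_nhds hx)).differentiableAt (by simp)
  have hdP : ∀ i j, ∀ x ∈ E, DifferentiableAt ℝ (P i j) x := fun i j x hx =>
    ((hP i j).contDiffAt (h.isOpen.mem_nhds hx)).differentiableAt (by simp)
  have hda : ∀ i, ∀ x ∈ E, DifferentiableAt ℝ (aa u i) x := fun i x hx =>
    diffAt h.isOpen (h.smooth_aa i) hx
  have hF1c : ContinuousOn F1 E := by
    rw [hF1]
    refine ContinuousOn.sub (continuousOn_finsetSum _ fun j _ => ContinuousOn.mul ?_ ?_)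
      (continuousOn_finsetSum _ fun j _ => continuousOn_finsetSum _ fun i _ =>
        ContinuousOn.mul ?_ (haa1 i).continuousOn)
    · exact (continuousOn_finsetSum _ fun i _ => (hP i j).continuousOn.mul
        (h.smooth_q i).continuousOn).sub (hz.continuousOn.mul (h.smooth_q j).continuousOn)
    · exact (contDiffOn_pd_top h.isOpen h.smooth_sg j).continuousOn
    · exact (contDiffOn_pd (m := 0) h.isOpen (hMc i j) (by simp) j).continuousOn
  -- the pointwise identity
  have hpt : ∀ x ∈ E, (∑ k, ∑ i, ∑ j, T u k i j x * q u k x * P i j x) -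
        (sg u x * ∑ i, ∑ j, S u i j x * P i j x
          - ∑ i, ∑ j, (∑ k, S u i k x * S u k j x) * P i j x + z x * NN u x)
      = F1 x + ∑ j, pd j (Y j) x := by
    intro x hx
    have e1 := h.flux_identity hx (fun i j => P i j x) (z x)
    have e2 : ∀ j, pd j (Y j) x = ∑ i, (pd j (M i j) x * aa u i x + M i j x * pd j (aa u i) x) := by
      intro j
      rw [hY]
      have e4 : pd j (fun y => ∑ i, M i j y * aa u i y) x
          = ∑ i, pd j (fun y => M i j y * aa u i y) x :=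
        pd_sum Finset.univ (fun i _ => (hdM i j x hx).mul (hda i x hx)) j
      refine e4.trans ?_
      exact Finset.sum_congr rfl fun i _ => pd_mul (hdM i j x hx) (hda i x hx) j
    have e3 : ∑ j, pd j (Y j) x = ∑ j, ∑ i, pd j (M i j) x * aa u i x
        + ∑ i, ∑ j, M i j x * pd j (aa u i) x := by
      simp_rw [e2, Finset.sum_add_distrib]
      congr 1
      exact Finset.sum_comm
    rw [e1, e3, hF1, hM]
    ring
  -- bounds
  have hn : (0 : ℝ) ≤ n := Nat.cast_nonneg n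
  have hMb : ∀ x ∈ E, x ∈ Ann a b → ∀ i j, |M i j x| ≤ 2 * C := by
    intro x hx hxA i j
    obtain ⟨b1, b2, -, -, -⟩ := hB x hx hxA
    rw [hM]
    show |P i j x - z x * (if i = j then 1 else 0)| ≤ 2 * C
    refine (abs_sub _ _).trans ?_
    rw [abs_mul]
    have h1 : |(if i = j then (1 : ℝ) else 0)| ≤ 1 := by split_ifs <;> simp
    nlinarith [b1 i j, mul_le_mul b2 h1 (abs_nonneg _) hC.le]
  have hMd : ∀ x ∈ E, x ∈ Ann a b → ∀ k i j, |pd k (M i j) x| ≤ 2 * C * (1 + √(TT u x)) := by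
    intro x hx hxA k i j
    obtain ⟨-, -, b1, b2, -⟩ := hB x hx hxA
    have e1 : pd k (M i j) x = pd k (P i j) x - pd k z x * (if i = j then 1 else 0) := by
      rw [hM]
      have e2 : DifferentiableAt ℝ (fun y => z y * (if i = j then (1 : ℝ) else 0)) x :=
        (hdz x hx).mul_const _
      rw [pd_sub (f := P i j) (g := fun y => z y * (if i = j then (1 : ℝ) else 0))
        (hdP i j x hx) e2 k, pd_mul (g := fun _ => (if i = j then (1 : ℝ) else 0))
        (hdz x hx) (differentiableAt_const _) k, pd_const]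
      ring
    rw [e1]
    refine (abs_sub _ _).trans ?_
    rw [abs_mul]
    have h1 : |(if i = j then (1 : ℝ) else 0)| ≤ 1 := by split_ifs <;> simp
    have h2 : 0 ≤ C * (1 + √(TT u x)) := by positivity
    nlinarith [b1 k i j, mul_le_mul (b2 k) h1 (abs_nonneg _) h2]
  have hYb : ∀ x ∈ E, x ∈ Ann a b → ∀ j, |Y j x| ≤ n * (2 * C * √(a2 u x)) := by
    intro x hx hxA j
    rw [hY]
    refine F02_sum_le fun i => ?_
    rw [abs_mul]
    exact mul_le_mul (hMb x hx hxA i j) (F02_aa_le i x) (abs_nonneg _) (by positivity)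
  have hrb : ∀ x ∈ E, x ∈ Ann a b → ∀ j,
      |∑ i, P i j x * q u i x - z x * q u j x| ≤ C * (√(a2 u x) + u x) := by
    intro x hx hxA j
    obtain ⟨-, -, -, -, b1⟩ := hB x hx hxA
    have e1 : ∑ i, P i j x * q u i x = ∑ i, P j i x * q u i x :=
      Finset.sum_congr rfl fun i _ => by rw [hsym i j x hx]
    rw [e1]
    exact b1 j
  have hqY : ∀ x ∈ E, x ∈ Ann a b → |∑ j, q u j x * Y j x| ≤
      n * (√(a2 u x) * (C * (√(a2 u x) + u x))) := by
    intro x hx hxA
    obtain ⟨-, -, -, -, b1⟩ := hB x hx hxA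
    have e1 : ∑ j, q u j x * Y j x = ∑ i, aa u i x * (∑ j, P i j x * q u j x - z x * q u i x) := by
      have e2 : ∀ i, ∑ j, M i j x * q u j x = ∑ j, P i j x * q u j x - z x * q u i x := by
        intro i
        rw [hM]
        simp only [sub_mul, Finset.sum_sub_distrib]
        congr 1
        rw [Finset.sum_eq_single i]
        · simp
        · intro j _ hj
          rw [if_neg (Ne.symm hj)]
          ring
        · intro hi
          exact absurd (Finset.mem_univ i) hi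
      simp_rw [← e2]
      rw [hY]
      simp_rw [Finset.mul_sum]
      rw [Finset.sum_comm]
      exact Finset.sum_congr rfl fun i _ => Finset.sum_congr rfl fun j _ => by ring
    rw [e1]
    refine F02_sum_le fun i => ?_
    rw [abs_mul]
    exact mul_le_mul (F02_aa_le i x) (b1 i) (abs_nonneg _) (Real.sqrt_nonneg _)
  have hF1b : ∀ x ∈ E, x ∈ Ann a b → |F1 x| ≤
      (n * (C * C1) + n * (n * (2 * C))) * ((√(a2 u x) + u x) * (1 + √(TT u x))) := by
    intro x hx hxA
    obtain ⟨-, p2, -, -⟩ := hpd x hx hxA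
    have hu0 : 0 < u x := h.pos x hx
    have e3 := Real.sqrt_nonneg (a2 u x)
    have e4 := Real.sqrt_nonneg (TT u x)
    rw [hF1]
    refine (abs_sub _ _).trans ?_
    have g1 : |∑ j, (∑ i, P i j x * q u i x - z x * q u j x) * pd j (sg u) x| ≤
        n * ((C * (√(a2 u x) + u x)) * (C1 * (1 + √(TT u x)))) := by
      refine F02_sum_le fun j => ?_
      rw [abs_mul]
      exact mul_le_mul (hrb x hx hxA j) (p2 j) (abs_nonneg _) (by positivity)
    have g2 : |∑ j, ∑ i, pd j (M i j) x * aa u i x| ≤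
        n * (n * ((2 * C * (1 + √(TT u x))) * (√(a2 u x) + u x))) := by
      refine F02_sum_le fun j => F02_sum_le fun i => ?_
      rw [abs_mul]
      exact mul_le_mul (hMd x hx hxA j i j) ((F02_aa_le i x).trans (by linarith)) (abs_nonneg _)
        (by positivity)
    refine (add_le_add g1 g2).trans (le_of_eq ?_)
    ring
  -- cutoffs vanish
  have hκ0 : ∀ s ≤ 1, κ s = 0 := by
    intro s hs
    rcases eq_or_lt_of_le hs with h1 | h1
    · subst h1
      have h2 : Tendsto κ (𝓝[<] 1) (𝓝 (κ 1)) := hκ.continuous.continuousAt.tendsto.mono_left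
        nhdsWithin_le_nhds
      have h3 : Tendsto κ (𝓝[<] 1) (𝓝 0) := by
        refine tendsto_const_nhds.congr' ?_
        filter_upwards [self_mem_nhdsWithin] with y hy
        exact (hκs y fun hh => absurd hh.1 (not_le.2 hy)).symm
      exact tendsto_nhds_unique h2 h3
    · exact hκs s fun hh => absurd hh.1 (not_le.2 h1)
  have hoff : ∀ ε, 0 < ε → ∀ x, 2 * ε < u x → u x / ε ∉ Icc (1 : ℝ) 2 := by
    intro ε hε x hx hh
    have := (div_le_iff₀ hε).1 hh.2
    linarith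
  -- final estimate
  have hE1 := F02_int1 h (a := a) (b := b) ha
  have hE2 := F02_int2 h (a := a) (b := b) ha
  have hL1 := h.layer_err (a := a) (b := b) ha
  have hL2 := h.layer_err2 (a := a) (b := b) ha
  set D1 : ℝ := K * H0 * (n * (C * C1) + n * (n * (2 * C))) with hD1
  set D2 : ℝ := K * (n * (H1 * (n * (2 * C)))) with hD2
  set D3 : ℝ := K' * H0 * (n * C) with hD3
  have hD10 : 0 ≤ D1 := by positivity
  have hD20 : 0 ≤ D2 := by positivity
  have hD30 : 0 ≤ D3 := by positivity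
  have hlim : Tendsto (fun ε : ℝ => (D1 + D2) * (ε⁻¹ * ∫ x in E ∩ Ann a b ∩ {x | u x ≤ 2 * ε},
      (√(a2 u x) + u x) * (1 + √(TT u x))) + D3 * ((ε ^ 2)⁻¹ *
      ∫ x in E ∩ Ann a b ∩ {x | u x ≤ 2 * ε}, √(a2 u x) * (√(a2 u x) + u x))) (𝓝[>] 0) (𝓝 0) := by
    simpa using (hL1.const_mul (D1 + D2)).add (hL2.const_mul D3)
  refine squeeze_zero_norm' ?_ hlim
  filter_upwards [self_mem_nhdsWithin] with ε hε
  have hε' : (0 : ℝ) < ε := hε
  have hcut := h.kcut_tst hκ hκ0 hη hε'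
  have i1 : IntegrableOn (fun x => κ (u x / ε) * η x * F1 x) E :=
    (integrable_mul_of_tsupport h.isOpen hcut.1.smooth.continuous hcut.1.cpt hcut.2
      hF1c).integrableOn
  have i2 : IntegrableOn (fun x => κ (u x / ε) * η x * ∑ j, pd j (Y j) x) E :=
    (integrable_mul_of_tsupport h.isOpen hcut.1.smooth.continuous hcut.1.cpt hcut.2
      (continuousOn_finsetSum _ fun j _ =>
        (contDiffOn_pd (m := 0) h.isOpen (hYc j) (by simp) j).continuousOn)).integrableOn
  have e1 : ∫ x in E, κ (u x / ε) * η x *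
      ((∑ k, ∑ i, ∑ j, T u k i j x * q u k x * P i j x) -
        (sg u x * ∑ i, ∑ j, S u i j x * P i j x
          - ∑ i, ∑ j, (∑ k, S u i k x * S u k j x) * P i j x + z x * NN u x))
      = (∫ x in E, κ (u x / ε) * η x * F1 x)
        - (∫ x in E, κ (u x / ε) * ∑ i, pd i η x * Y i x)
        - ε⁻¹ * ∫ x in E, deriv κ (u x / ε) * η x * ∑ i, q u i x * Y i x := by
    have e2 := h.ibp_kcut hκ hκ0 hη hε' hYc
    have e3 : ∫ x in E, κ (u x / ε) * η x *
      ((∑ k, ∑ i, ∑ j, T u k i j x * q u k x * P i j x) -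
        (sg u x * ∑ i, ∑ j, S u i j x * P i j x
          - ∑ i, ∑ j, (∑ k, S u i k x * S u k j x) * P i j x + z x * NN u x))
        = ∫ x in E, (κ (u x / ε) * η x * F1 x + κ (u x / ε) * η x * ∑ j, pd j (Y j) x) := by
      refine setIntegral_congr_fun hm fun x hx => ?_
      show κ (u x / ε) * η x *
        ((∑ k, ∑ i, ∑ j, T u k i j x * q u k x * P i j x) -
        (sg u x * ∑ i, ∑ j, S u i j x * P i j x
          - ∑ i, ∑ j, (∑ k, S u i k x * S u k j x) * P i j x + z x * NN u x)) = _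
      rw [hpt x hx]
      ring
    rw [e3, integral_add i1 i2, e2]
    ring
  have b1 : |∫ x in E, κ (u x / ε) * η x * F1 x| ≤
      D1 * ∫ x in E ∩ Ann a b ∩ {x | u x ≤ 2 * ε}, (√(a2 u x) + u x) * (1 + √(TT u x)) := by
    rw [← integral_const_mul]
    refine F02_le h (hE1.const_mul D1) (fun x hx hxA _ => ?_) (fun x hx hh => ?_)
    · rw [abs_mul, abs_mul]
      calc |κ (u x / ε)| * |η x| * |F1 x| ≤ K * H0 *
          ((n * (C * C1) + n * (n * (2 * C))) * ((√(a2 u x) + u x) * (1 + √(TT u x)))) :=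
            mul_le_mul (mul_le_mul (hK _) (hH0 x) (abs_nonneg _) hK0) (hF1b x hx hxA)
              (abs_nonneg _) (by positivity)
        _ = _ := by rw [hD1]; ring
    · rcases hh with hh | hh
      · rw [hη_off x hh]; ring
      · rw [hκs _ (hoff ε hε' x hh)]; ring
  have b2 : |∫ x in E, κ (u x / ε) * ∑ i, pd i η x * Y i x| ≤
      D2 * ∫ x in E ∩ Ann a b ∩ {x | u x ≤ 2 * ε}, (√(a2 u x) + u x) * (1 + √(TT u x)) := by
    rw [← integral_const_mul]
    refine F02_le h (hE1.const_mul D2) (fun x hx hxA _ => ?_) (fun x hx hh => ?_)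
    · have hu0 : 0 < u x := h.pos x hx
      have e3 := Real.sqrt_nonneg (a2 u x)
      have e4 := Real.sqrt_nonneg (TT u x)
      have g1 : |∑ i, pd i η x * Y i x| ≤ n * (H1 * (n * (2 * C * √(a2 u x)))) := by
        refine F02_sum_le fun i => ?_
        rw [abs_mul]
        exact mul_le_mul (hH1 i x) (hYb x hx hxA i) (abs_nonneg _) hH10
      rw [abs_mul]
      calc |κ (u x / ε)| * |∑ i, pd i η x * Y i x| ≤ K * (n * (H1 * (n * (2 * C * √(a2 u x))))) :=
            mul_le_mul (hK _) g1 (abs_nonneg _) hK0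
        _ = D2 * √(a2 u x) := by rw [hD2]; ring
        _ ≤ D2 * ((√(a2 u x) + u x) * (1 + √(TT u x))) := by
            refine mul_le_mul_of_nonneg_left ?_ hD20
            nlinarith
    · rcases hh with hh | hh
      · have : ∑ i, pd i η x * Y i x = 0 :=
          Finset.sum_eq_zero fun i _ => by rw [hηd_off i x hh]; ring
        rw [this]; ring
      · rw [hκs _ (hoff ε hε' x hh)]; ring
  have b3 : |∫ x in E, deriv κ (u x / ε) * η x * ∑ i, q u i x * Y i x| ≤
      D3 * ∫ x in E ∩ Ann a b ∩ {x | u x ≤ 2 * ε}, √(a2 u x) * (√(a2 u x) + u x) := by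
    rw [← integral_const_mul]
    refine F02_le h (hE2.const_mul D3) (fun x hx hxA _ => ?_) (fun x hx hh => ?_)
    · rw [abs_mul, abs_mul]
      have hu0 : 0 < u x := h.pos x hx
      have e3 := Real.sqrt_nonneg (a2 u x)
      calc |deriv κ (u x / ε)| * |η x| * |∑ i, q u i x * Y i x| ≤ K' * H0 *
          (n * (√(a2 u x) * (C * (√(a2 u x) + u x)))) :=
            mul_le_mul (mul_le_mul (hK' _) (hH0 x) (abs_nonneg _) hK0') (hqY x hx hxA)
              (abs_nonneg _) (by positivity)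
        _ = _ := by rw [hD3]; ring
    · rcases hh with hh | hh
      · rw [hη_off x hh]; ring
      · rw [hκs' _ (hoff ε hε' x hh)]; ring
  rw [e1, Real.norm_eq_abs, abs_mul, abs_of_pos (inv_pos.2 hε')]
  have hεi : 0 < ε⁻¹ := inv_pos.2 hε'
  have t1 : |(∫ x in E, κ (u x / ε) * η x * F1 x)
        - (∫ x in E, κ (u x / ε) * ∑ i, pd i η x * Y i x)
        - ε⁻¹ * ∫ x in E, deriv κ (u x / ε) * η x * ∑ i, q u i x * Y i x| ≤
      |∫ x in E, κ (u x / ε) * η x * F1 x| + |∫ x in E, κ (u x / ε) * ∑ i, pd i η x * Y i x|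
        + ε⁻¹ * |∫ x in E, deriv κ (u x / ε) * η x * ∑ i, q u i x * Y i x| := by
    refine (abs_sub _ _).trans (add_le_add (abs_sub _ _) ?_)
    rw [abs_mul, abs_of_pos hεi]
  calc ε⁻¹ * _ ≤ ε⁻¹ * _ := mul_le_mul_of_nonneg_left t1 hεi.le
    _ ≤ ε⁻¹ * (D1 * (∫ x in E ∩ Ann a b ∩ {x | u x ≤ 2 * ε}, (√(a2 u x) + u x) * (1 + √(TT u x)))
        + D2 * (∫ x in E ∩ Ann a b ∩ {x | u x ≤ 2 * ε}, (√(a2 u x) + u x) * (1 + √(TT u x)))
        + ε⁻¹ * (D3 * ∫ x in E ∩ Ann a b ∩ {x | u x ≤ 2 * ε}, √(a2 u x) * (√(a2 u x) + u x))) :=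
      mul_le_mul_of_nonneg_left (add_le_add (add_le_add b1 b2)
        (mul_le_mul_of_nonneg_left b3 hεi.le)) hεi.le
    _ = _ := by
      rw [show (ε ^ 2)⁻¹ = ε⁻¹ * ε⁻¹ by rw [pow_two, mul_inv]]
      ring

end OPC
end
end
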