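import Pool.Agent.Lib.MP_9059b8_an.A10
import Pool.Agent.Lib.MP_9059b8_an.A06

section

/-! # J01: the cutoff near S = 0 -/

open MeasureTheory Set Filter Topology

namespace OPC

variable {n : ℕ} {E : Set (V n)} {u : V n → ℝ}

private lemma j01_hom_NN (h : Sol E u) {s : ℝ} (hs : 0 < s) {x : V n} (hx : x ∈ E) :
    ‖s • x‖ ^ 2 * NN u (s • x) = ‖x‖ ^ 2 * NN u x := by
  have h1 : NN u (s • x) = (s⁻¹) ^ 2 * NN u x := by
    unfold NN
    rw [Finset.mul_sum]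
    refine Finset.sum_congr rfl fun i _ => ?_
    rw [Finset.mul_sum]
    refine Finset.sum_congr rfl fun j _ => ?_
    rw [h.hom_S i j s hs x hx]
    ring
  rw [h1, norm_smul, Real.norm_eq_abs, abs_of_pos hs]
  field_simp

private lemma j01_smooth_P (h : Sol E u) (δ : ℝ) :
    ContDiffOn ℝ (⊤ : ℕ∞) (fun x => ‖x‖ ^ 2 * NN u x / δ) E :=
  ((contDiff_norm_sq ℝ).contDiffOn.mul h.smooth_NN).div_const δ

private lemma j01_zero_near (h : Sol E u) {δ : ℝ} {x : V n} (hx : x ∈ E)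
    (h0 : NN u x = 0) : ∀ᶠ y in 𝓝 x, th u δ y = 0 := by
  have hc : ContinuousAt (fun x => ‖x‖ ^ 2 * NN u x / δ) x :=
    (j01_smooth_P h δ).continuousOn.continuousAt (h.isOpen.mem_nhds hx)
  have h1 : ∀ᶠ y in 𝓝 x, ‖y‖ ^ 2 * NN u y / δ < 1 := by
    refine hc.eventually_lt continuousAt_const ?_
    simp [h0]
  filter_upwards [h1] with y hy
  exact chi_eq_zero hy.le

private lemma j01_deriv_zero {s : ℝ} (hs : 2 ≤ s) : deriv chi s = 0 := by
  have h1 : IsLocalMax chi s := by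
    refine Eventually.of_forall fun y => ?_
    rw [chi_eq_one hs]
    exact chi_le_one y
  exact h1.deriv_eq_zero

private lemma j01_pd_th (h : Sol E u) (δ : ℝ) {x : V n} (hx : x ∈ E) (i : Fin n) :
    pd i (th u δ) x = deriv chi (‖x‖ ^ 2 * NN u x / δ)
      * ((2 * x i * NN u x + ‖x‖ ^ 2 * pd i (NN u) x) / δ) := by
  have hN : DifferentiableAt ℝ (NN u) x := diffAt h.isOpen h.smooth_NN hx
  have hn : DifferentiableAt ℝ (fun y : V n => ‖y‖ ^ 2) x :=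
    (contDiff_norm_sq ℝ (n := 1)).differentiable (by simp) x
  have hP : DifferentiableAt ℝ (fun x => ‖x‖ ^ 2 * NN u x / δ) x :=
    diffAt h.isOpen (j01_smooth_P h δ) hx
  have hchi : DifferentiableAt ℝ chi (‖x‖ ^ 2 * NN u x / δ) :=
    (chi_smooth.differentiable (by simp)) _
  have h1 : pd i (th u δ) x = deriv chi (‖x‖ ^ 2 * NN u x / δ)
      * pd i (fun x => ‖x‖ ^ 2 * NN u x / δ) x :=
    pd_comp (φ := chi) (f := fun x => ‖x‖ ^ 2 * NN u x / δ) hchi hP i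
  have h2 : pd i (fun x => ‖x‖ ^ 2 * NN u x / δ) x
      = δ⁻¹ * pd i (fun x => ‖x‖ ^ 2 * NN u x) x := by
    rw [← pd_const_mul]
    congr 1
    funext y
    rw [div_eq_mul_inv, mul_comm]
  have h3 : pd i (fun y : V n => ‖y‖ ^ 2) x = 2 * x i := by
    have h4 : (fun y : V n => ‖y‖ ^ 2) = fun y => ∑ j, (y j) ^ 2 := by
      funext y; exact norm_sq_eq_sum y
    have hd : ∀ j : Fin n, DifferentiableAt ℝ (fun y : V n => y j) x := fun j =>
      (EuclideanSpace.proj j : V n →L[ℝ] ℝ).differentiableAt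
    have hd2 : ∀ j ∈ (Finset.univ : Finset (Fin n)),
        DifferentiableAt ℝ (fun y : V n => (y j) ^ 2) x := fun j _ => (hd j).pow 2
    rw [h4, pd_sum (Finset.univ : Finset (Fin n)) hd2]
    have h5 : ∀ j : Fin n, pd i (fun y : V n => (y j) ^ 2) x = if i = j then 2 * x j else 0 := by
      intro j
      rw [pd_pow (hd j), pd_coord]
      split_ifs <;> simp
    simp only [h5]
    simp
  rw [h1, h2, pd_mul hn hN, h3]
  ring

theorem Sol.smooth_th (h : Sol E u) {δ : ℝ} (hδ : 0 < δ) : ContDiffOn ℝ (⊤ : ℕ∞) (th u δ) E := by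
  exact chi_smooth.comp_contDiffOn (j01_smooth_P h δ)

/-- `th² G` is as smooth on `E` as `G` is on `E ∩ {S ≠ 0}` (also for `th G`). -/
theorem Sol.th_mul_smooth (h : Sol E u) {δ : ℝ} (hδ : 0 < δ) {k : WithTop ℕ∞} {G : V n → ℝ}
    (hk : k ≤ (⊤ : ℕ∞)) (hG : ContDiffOn ℝ k G (E ∩ {x | NN u x ≠ 0})) :
    ContDiffOn ℝ k (fun x => th u δ x * G x) E ∧
      ContDiffOn ℝ k (fun x => th u δ x ^ 2 * G x) E := by
  have hopen : IsOpen (E ∩ {x | NN u x ≠ 0}) :=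
    h.smooth_NN.continuousOn.isOpen_inter_preimage h.isOpen isOpen_ne
  have key : ∀ x ∈ E, (ContDiffAt ℝ k (fun x => th u δ x * G x) x ∧
      ContDiffAt ℝ k (fun x => th u δ x ^ 2 * G x) x) := by
    intro x hx
    by_cases h0 : NN u x = 0
    · have hz := j01_zero_near (δ := δ) h hx h0
      constructor
      · refine (contDiffAt_const (c := (0 : ℝ))).congr_of_eventuallyEq ?_
        filter_upwards [hz] with y hy
        simp [hy]
      · refine (contDiffAt_const (c := (0 : ℝ))).congr_of_eventuallyEq ?_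
        filter_upwards [hz] with y hy
        simp [hy]
    · have hx2 : x ∈ E ∩ {x | NN u x ≠ 0} := ⟨hx, h0⟩
      have hGx : ContDiffAt ℝ k G x := hG.contDiffAt (hopen.mem_nhds hx2)
      have hth : ContDiffAt ℝ k (th u δ) x :=
        ((h.smooth_th hδ).contDiffAt (h.isOpen.mem_nhds hx)).of_le hk
      exact ⟨hth.mul hGx, (hth.pow 2).mul hGx⟩
  exact ⟨fun x hx => (key x hx).1.contDiffWithinAt, fun x hx => (key x hx).2.contDiffWithinAt⟩

theorem Sol.th_hom (h : Sol E u) (δ : ℝ) : ∀ s : ℝ, 0 < s → ∀ x ∈ E, th u δ (s • x) = th u δ x := by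
  intro s hs x hx
  unfold th
  rw [j01_hom_NN h hs hx]

/-- `x · ∇ th = 0` -/
theorem Sol.x_pd_th (h : Sol E u) {δ : ℝ} (hδ : 0 < δ) {x : V n} (hx : x ∈ E) :
    ∑ i, x i * pd i (th u δ) x = 0 := by
  have h1 := euler h.isOpen (f := th u δ)
    (fun y hy => diffAt h.isOpen (h.smooth_th hδ) hy) 0
    (fun t ht y hy => by rw [h.th_hom δ t ht y hy]; simp) x hx
  simpa using h1

/-- `|∇ th| ≤ C (1 + |T|/|S|)` on annuli, with `C` independent of `δ`, and `∇ th = 0` unless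
`δ ≤ |x|²|S|² ≤ 2δ`. Sketch: chain rule, `|∇ (|x|² NN)| ≤ C (NN + √NN √TT)`, and `NN/δ ≤ 2/|x|²` on the
support. -/
theorem Sol.pd_th_le (h : Sol E u) {a b : ℝ} (ha : 0 < a) : ∃ C, 0 < C ∧ ∀ δ, 0 < δ → ∀ x ∈ E,
    x ∈ Ann a b → ∀ i, |pd i (th u δ) x| * √(NN u x) ≤ C * (√(TT u x) + √(NN u x)) ∧
      ((2 * δ ≤ ‖x‖ ^ 2 * NN u x ∨ NN u x = 0) → pd i (th u δ) x = 0) := by
  obtain ⟨C1, hC1, hchi⟩ := deriv_chi_bdd
  refine ⟨4 * C1 * (1 + a⁻¹), by positivity, ?_⟩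
  intro δ hδ x hx hxa i
  have hN0 : 0 ≤ NN u x := Finset.sum_nonneg fun i _ => Finset.sum_nonneg fun j _ => sq_nonneg _
  have hT0 : 0 ≤ TT u x := Finset.sum_nonneg fun i _ => Finset.sum_nonneg fun j _ =>
    Finset.sum_nonneg fun k _ => sq_nonneg _
  have hax : a ≤ ‖x‖ := hxa.1
  have hx0 : 0 < ‖x‖ := lt_of_lt_of_le ha hax
  constructor
  · by_cases hs : ‖x‖ ^ 2 * NN u x / δ ∈ Icc (1 : ℝ) 2
    · have hP : δ ≤ ‖x‖ ^ 2 * NN u x := by
        have := hs.1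
        rw [le_div_iff₀ hδ] at this
        linarith
      have hP2 : ‖x‖ ^ 2 * NN u x ≤ 2 * δ := by
        have := hs.2
        rw [div_le_iff₀ hδ] at this
        linarith
      have hNpos : 0 < NN u x := by
        rcases hN0.lt_or_eq with h1 | h1
        · exact h1
        · rw [← h1] at hP
          simp at hP
          linarith
      have hpdN : |pd i (NN u) x| ≤ 2 * (√(NN u x) * √(TT u x)) := by
        have h1 := h.pd_NN_sq_le hx
        have h2 : (pd i (NN u) x) ^ 2 ≤ ∑ k, (pd k (NN u) x) ^ 2 :=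
          Finset.single_le_sum (f := fun k => (pd k (NN u) x) ^ 2) (fun k _ => sq_nonneg _)
            (Finset.mem_univ i)
        apply abs_le_of_sq_le_sq _ (by positivity)
        calc (pd i (NN u) x) ^ 2 ≤ 4 * NN u x * TT u x := h2.trans h1
          _ = (2 * (√(NN u x) * √(TT u x))) ^ 2 := by
              rw [mul_pow, mul_pow, Real.sq_sqrt hN0, Real.sq_sqrt hT0]; ring
      have hxi : |x i| ≤ ‖x‖ := by
        have := PiLp.norm_apply_le x i
        simpa using this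
      have hnum : |2 * x i * NN u x + ‖x‖ ^ 2 * pd i (NN u) x|
          ≤ 2 * ‖x‖ * NN u x + ‖x‖ ^ 2 * (2 * (√(NN u x) * √(TT u x))) := by
        refine (abs_add_le _ _).trans ?_
        rw [abs_mul, abs_mul, abs_mul, abs_of_nonneg hN0, abs_of_nonneg (sq_nonneg ‖x‖)]
        have h2 : |(2 : ℝ)| = 2 := abs_of_pos (by norm_num)
        rw [h2]
        gcongr
      rw [j01_pd_th h δ hx i, abs_mul, abs_div, abs_of_pos hδ]
      have hdi : 1 / δ ≤ 2 / (‖x‖ ^ 2 * NN u x) := by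
        rw [div_le_div_iff₀ hδ (by positivity)]
        linarith
      set N := NN u x with hNdef
      set r := √N with hr
      set t := √(TT u x) with ht
      have hrr : r * r = N := Real.mul_self_sqrt hN0
      have hrpos : 0 < r := Real.sqrt_pos.2 hNpos
      have ht0 : 0 ≤ t := Real.sqrt_nonneg _
      calc |deriv chi (‖x‖ ^ 2 * N / δ)| * (|2 * x i * N + ‖x‖ ^ 2 * pd i (NN u) x| / δ) * r
          ≤ C1 * ((2 * ‖x‖ * N + ‖x‖ ^ 2 * (2 * (r * t))) * (2 / (‖x‖ ^ 2 * N))) * r := by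
            have h3 : |2 * x i * N + ‖x‖ ^ 2 * pd i (NN u) x| / δ
                ≤ (2 * ‖x‖ * N + ‖x‖ ^ 2 * (2 * (r * t))) * (2 / (‖x‖ ^ 2 * N)) := by
              calc |2 * x i * N + ‖x‖ ^ 2 * pd i (NN u) x| / δ
                  = |2 * x i * N + ‖x‖ ^ 2 * pd i (NN u) x| * (1 / δ) := by ring
                _ ≤ _ := by
                    refine mul_le_mul hnum hdi (by positivity) (by positivity)
            refine mul_le_mul_of_nonneg_right ?_ hrpos.le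
            exact mul_le_mul (hchi _) h3 (by positivity) (by linarith)
        _ = C1 * (4 * r / ‖x‖ + 4 * t) := by
            rw [← hrr]
            field_simp
            ring
        _ ≤ C1 * (4 * r * a⁻¹ + 4 * t) := by
            have h4 : 4 * r / ‖x‖ ≤ 4 * r * a⁻¹ := by
              rw [div_eq_mul_inv]
              refine mul_le_mul_of_nonneg_left ?_ (by positivity)
              exact inv_anti₀ ha hax
            refine mul_le_mul_of_nonneg_left ?_ (by linarith)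
            linarith
        _ ≤ 4 * C1 * (1 + a⁻¹) * (t + r) := by
            have ha' : 0 < a⁻¹ := inv_pos.2 ha
            have h5 : 0 ≤ C1 * r := mul_nonneg (by linarith) hrpos.le
            have h6 : 0 ≤ C1 * a⁻¹ * t := mul_nonneg (mul_nonneg (by linarith) ha'.le) ht0
            nlinarith
    · rw [j01_pd_th h δ hx i, deriv_chi_eq_zero hs, zero_mul, abs_zero, zero_mul]
      positivity
  · intro hor
    rw [j01_pd_th h δ hx i]
    rcases hor with h1 | h1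
    · rw [j01_deriv_zero ((le_div_iff₀ hδ).2 h1), zero_mul]
    · rw [deriv_chi_eq_zero (by rw [h1]; simp), zero_mul]

end OPC
end

section

section

/-! # C01: the Hessian vanishes where the gradient exceeds 1 -/

open MeasureTheory Set Filter Topology

namespace OPC

variable {n : ℕ} {E : Set (V n)} {u : V n → ℝ}

/-- radial test functions -/
theorem exists_radial_tst {a b : ℝ} (ha : 0 < a) (hb : 0 ≤ b) : ∃ η : V n → ℝ, Tst η ∧
    (∀ x, 0 ≤ η x) ∧ (∀ x ∈ (Ann a b : Set (V n)), η x = 1) ∧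
    ∃ ρ : V n → ℝ, ∀ i x, pd i η x = ρ x * x i := by
  have hA : 0 < 3 * a ^ 2 / 4 := by positivity
  have hB : 0 < 2 * b + 1 := by linarith
  set F : ℝ → ℝ := fun s => chi (1 + (s - a ^ 2 / 4) / (3 * a ^ 2 / 4)) *
    (1 - chi (1 + (s - b ^ 2) / (2 * b + 1))) with hF
  have hFs : ContDiff ℝ (⊤ : ℕ∞) F := by
    rw [hF]
    refine ContDiff.mul (chi_smooth.comp ?_) (contDiff_const.sub (chi_smooth.comp ?_))
    · exact contDiff_const.add ((contDiff_id.sub contDiff_const).div_const _)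
    · exact contDiff_const.add ((contDiff_id.sub contDiff_const).div_const _)
  set η : V n → ℝ := fun x => F (‖x‖ ^ 2) with hη
  have hsm : ContDiff ℝ (⊤ : ℕ∞) η := hFs.comp (contDiff_norm_sq ℝ)
  have hclosed : IsClosed (Ann (a / 2) (b + 1) : Set (V n)) := by
    have : (Ann (a / 2) (b + 1) : Set (V n)) = (fun x => ‖x‖) ⁻¹' (Icc (a / 2) (b + 1)) := rfl
    rw [this]
    exact isClosed_Icc.preimage continuous_norm
  have hsupp : tsupport η ⊆ (Ann (a / 2) (b + 1) : Set (V n)) := by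
    apply closure_minimal _ hclosed
    intro x hx
    rw [Function.mem_support] at hx
    constructor
    · by_contra hcon
      push Not at hcon
      apply hx
      have h1 : ‖x‖ ^ 2 ≤ a ^ 2 / 4 := by
        have := pow_le_pow_left₀ (norm_nonneg x) hcon.le 2
        calc ‖x‖ ^ 2 ≤ (a / 2) ^ 2 := this
          _ = a ^ 2 / 4 := by ring
      have h2 : (‖x‖ ^ 2 - a ^ 2 / 4) / (3 * a ^ 2 / 4) ≤ 0 :=
        div_nonpos_of_nonpos_of_nonneg (by linarith) hA.le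
      show chi _ * _ = 0
      rw [chi_eq_zero (by linarith), zero_mul]
    · by_contra hcon
      push Not at hcon
      apply hx
      have h1 : (b + 1) ^ 2 ≤ ‖x‖ ^ 2 := pow_le_pow_left₀ (by linarith) hcon.le 2
      have h2 : 1 ≤ (‖x‖ ^ 2 - b ^ 2) / (2 * b + 1) := by
        rw [le_div_iff₀ hB]
        nlinarith
      have h3 : chi (1 + (‖x‖ ^ 2 - b ^ 2) / (2 * b + 1)) = 1 := chi_eq_one (by linarith)
      show _ * (1 - chi (1 + (‖x‖ ^ 2 - b ^ 2) / (2 * b + 1))) = 0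
      rw [h3, sub_self, mul_zero]
  refine ⟨η, ⟨hsm, ?_, ?_⟩, ?_, ?_, ?_⟩
  · apply (isCompact_closedBall (0 : V n) (b + 1)).of_isClosed_subset (isClosed_tsupport _)
    intro x hx
    rw [mem_closedBall_zero_iff]
    exact (hsupp hx).2
  · intro h0
    have := (hsupp h0).1
    rw [norm_zero] at this
    linarith
  · intro x
    exact mul_nonneg (chi_nonneg _) (by linarith [chi_le_one (1 + (‖x‖ ^ 2 - b ^ 2) / (2 * b + 1))])
  · intro x hx
    obtain ⟨h1, h2⟩ := hx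
    have h3 : a ^ 2 ≤ ‖x‖ ^ 2 := pow_le_pow_left₀ ha.le h1 2
    have h4 : ‖x‖ ^ 2 ≤ b ^ 2 := pow_le_pow_left₀ (norm_nonneg x) h2 2
    have h5 : 1 ≤ (‖x‖ ^ 2 - a ^ 2 / 4) / (3 * a ^ 2 / 4) := by
      rw [le_div_iff₀ hA]
      linarith
    have h6 : (‖x‖ ^ 2 - b ^ 2) / (2 * b + 1) ≤ 0 :=
      div_nonpos_of_nonpos_of_nonneg (by linarith) hB.le
    show chi _ * (1 - chi _) = 1
    rw [chi_eq_one (by linarith), chi_eq_zero (by linarith)]
    ring
  · refine ⟨fun x => deriv F (‖x‖ ^ 2) * 2, fun i x => ?_⟩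
    have hc : ∀ j : Fin n, DifferentiableAt ℝ (fun y : V n => y j) x := fun j =>
      (EuclideanSpace.proj (𝕜 := ℝ) j).differentiableAt
    have hcs : ∀ j : Fin n, DifferentiableAt ℝ (fun y : V n => (y j) ^ 2) x :=
      fun j => (hc j).pow 2
    have h1 : pd i (fun y : V n => ‖y‖ ^ 2) x = 2 * x i := by
      have h2 : (fun y : V n => ‖y‖ ^ 2) = fun y => ∑ j, (y j) ^ 2 := by
        funext y; exact norm_sq_eq_sum y
      rw [h2, pd_sum _ (fun j _ => hcs j)]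
      have h3 : ∀ j, pd i (fun y : V n => (y j) ^ 2) x = if i = j then 2 * x j else 0 := by
        intro j
        rw [pd_pow (hc j), pd_coord]
        split_ifs <;> simp
      simp_rw [h3]
      simp
    have hd2 : DifferentiableAt ℝ (fun y : V n => ‖y‖ ^ 2) x :=
      ((contDiff_norm_sq ℝ (n := 1)).differentiable (by simp)) x
    have h4 := pd_comp (φ := F) (f := fun y : V n => ‖y‖ ^ 2) (x := x)
      ((hFs.differentiable (by simp)) _) hd2 i
    rw [hη, h4, h1]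
    ring

/-- Step 1: the Hessian vanishes where `|∇u| > 1`.
Sketch: let `δ > 0`, `f t = (max (t - 1 - δ) 0)^3` (`C²`, `f' ≥ 0`), `η` radial as in
`exists_radial_tst`. `ζ x = f (gg u x) η x` (on `E`, `0` elsewhere) is `C¹` with compact support
contained in `E`: by `Sol.lay_gg`, `gg u < 1 + δ` in a layer. `ibp_div` with `Y = w`:
`∫_E ζ NN = - ∫_E ∑ pd i ζ w_i = - ∫_E f'(gg) 2 (∑ w_i²) η - ∫_E f(gg) ρ (∑ x_i w_i) ≤ 0`
(`Sol.div_w`, `Sol.pd_gg`, `Sol.x_w`). So `ζ NN = 0` on `E` (continuous, nonnegative). -/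
theorem Sol.NN_zero_of_gg (h : Sol E u) {x : V n} (hx : x ∈ E) (hg : 1 < gg u x) :
    NN u x = 0 := by
  have hxn : 0 < ‖x‖ := norm_pos_iff.2 (h.ne_zero hx)
  obtain ⟨η, hη, hη0, hη1, ρ, hρ⟩ := exists_radial_tst (n := n) hxn hxn.le
  set δ : ℝ := (gg u x - 1) / 2 with hδ
  have hδ0 : 0 < δ := by rw [hδ]; linarith
  obtain ⟨a, b, ha, -, hab⟩ := hη.ann
  obtain ⟨ε, hε, hlay⟩ := h.lay_gg a b ha δ hδ0
  set ζ : V n → ℝ := E.indicator (fun y => chi ((gg u y - 1) / δ) * η y) with hζ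
  have hζE : ∀ y ∈ E, ζ y = chi ((gg u y - 1) / δ) * η y := fun y hy => indicator_of_mem hy _
  have hζnE : ∀ y ∉ E, ζ y = 0 := fun y hy => indicator_of_notMem hy _
  set K : Set (V n) := Ann a b ∩ {y | ε ≤ u y} with hK
  have hKcl : IsClosed K := by
    have h1 : IsClosed (Ann a b : Set (V n)) := by
      have : (Ann a b : Set (V n)) = (fun x => ‖x‖) ⁻¹' (Icc a b) := rfl
      rw [this]
      exact isClosed_Icc.preimage continuous_norm
    exact h1.inter (isClosed_le continuous_const h.cont)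
  have hKE : K ⊆ E := by
    intro y hy
    rw [h.eq_pos]
    have h1 : ε ≤ u y := hy.2
    exact lt_of_lt_of_le hε h1
  have hζK : ∀ y ∉ K, ζ y = 0 := by
    intro y hy
    by_cases hyE : y ∈ E
    · rw [hζE y hyE]
      by_cases hyA : y ∈ (Ann a b : Set (V n))
      · have h1 : u y < ε := by
          by_contra hc
          exact hy ⟨hyA, not_lt.1 hc⟩
        have h2 := hlay y hyE hyA h1
        have h3 : (gg u y - 1) / δ ≤ 1 := by
          rw [div_le_one hδ0]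
          exact (le_abs_self _).trans h2.le
        rw [chi_eq_zero h3, zero_mul]
      · have h1 : η y = 0 := image_eq_zero_of_notMem_tsupport (fun hc => hyA (hab hc))
        rw [h1, mul_zero]
    · exact hζnE y hyE
  have hsup : tsupport ζ ⊆ K := by
    apply closure_minimal _ hKcl
    intro y hy
    by_contra hc
    exact hy (hζK y hc)
  have hcpt : HasCompactSupport ζ := by
    apply (isCompact_closedBall (0 : V n) b).of_isClosed_subset (isClosed_tsupport _)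
    intro y hy
    rw [mem_closedBall_zero_iff]
    exact (hsup hy).1.2
  have hargs : ContDiffOn ℝ (⊤ : ℕ∞) (fun y => chi ((gg u y - 1) / δ)) E :=
    chi_smooth.comp_contDiffOn ((h.smooth_gg.sub contDiffOn_const).div_const δ)
  have hζs : ContDiff ℝ (⊤ : ℕ∞) ζ := by
    rw [contDiff_iff_contDiffAt]
    intro y
    by_cases hyE : y ∈ E
    · have h1 : ContDiffAt ℝ (⊤ : ℕ∞) (fun y => chi ((gg u y - 1) / δ) * η y) y :=
        (hargs.contDiffAt (h.isOpen.mem_nhds hyE)).mul hη.smooth.contDiffAt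
      refine h1.congr_of_eventuallyEq ?_
      filter_upwards [h.isOpen.mem_nhds hyE] with z hz using hζE z hz
    · have h1 : Kᶜ ∈ 𝓝 y := hKcl.isOpen_compl.mem_nhds (fun hc => hyE (hKE hc))
      have h2 : ζ =ᶠ[𝓝 y] fun _ => (0 : ℝ) := by
        filter_upwards [h1] with z hz using hζK z hz
      exact contDiffAt_const.congr_of_eventuallyEq h2
  have hζ1 : ContDiff ℝ 1 ζ := hζs.of_le one_le_top'
  have hζ0 : ∀ y, 0 ≤ ζ y := by
    intro y
    by_cases hyE : y ∈ E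
    · rw [hζE y hyE]
      exact mul_nonneg (chi_nonneg _) (hη0 y)
    · rw [hζnE y hyE]
  have hNN0 : ∀ y, 0 ≤ NN u y := fun y =>
    Finset.sum_nonneg fun i _ => Finset.sum_nonneg fun j _ => sq_nonneg _
  -- the derivative of `ζ` on `E`
  have hpd : ∀ i, ∀ y ∈ E, pd i ζ y
      = deriv chi ((gg u y - 1) / δ) * (2 * w u i y / δ) * η y
        + chi ((gg u y - 1) / δ) * (ρ y * y i) := by
    intro i y hy
    rw [pd_congr h.isOpen hζE i y hy]
    have hgd : DifferentiableAt ℝ (gg u) y := diffAt h.isOpen h.smooth_gg hy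
    have hgd1 : DifferentiableAt ℝ (fun z => (gg u z - 1) / δ) y := by
      simpa [div_eq_mul_inv] using (hgd.sub (differentiableAt_const (1 : ℝ))).mul_const δ⁻¹
    have hcd : DifferentiableAt ℝ chi ((gg u y - 1) / δ) := (chi_smooth.differentiable (by simp)) _
    have h1 : DifferentiableAt ℝ (fun z => chi ((gg u z - 1) / δ)) y :=
      diffAt h.isOpen hargs hy
    have h2 : DifferentiableAt ℝ η y := (hη.smooth.differentiable (by simp)) y
    rw [pd_mul h1 h2, pd_comp (f := fun z => (gg u z - 1) / δ) hcd hgd1, hρ i y]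
    have h3 : pd i (fun z => (gg u z - 1) / δ) y = 2 * w u i y / δ := by
      have h4 : (fun z => (gg u z - 1) / δ) = fun z => δ⁻¹ * (gg u z - 1) := by
        funext z; rw [div_eq_inv_mul]
      rw [h4, pd_const_mul, pd_sub hgd (differentiableAt_const _), pd_const, h.pd_gg i hy]
      ring
    rw [h3]
  have hsum : ∀ y ∈ E, 0 ≤ ∑ i, pd i ζ y * w u i y := by
    intro y hy
    have h1 : ∑ i, pd i ζ y * w u i y
        = deriv chi ((gg u y - 1) / δ) * (2 / δ) * η y * ∑ i, (w u i y) ^ 2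
          + chi ((gg u y - 1) / δ) * ρ y * ∑ i, y i * w u i y := by
      rw [Finset.mul_sum, Finset.mul_sum, ← Finset.sum_add_distrib]
      refine Finset.sum_congr rfl fun i _ => ?_
      rw [hpd i y hy]
      ring
    rw [h1, h.x_w hy, mul_zero, add_zero]
    have h2 : 0 ≤ ∑ i, (w u i y) ^ 2 := Finset.sum_nonneg fun i _ => sq_nonneg _
    exact mul_nonneg (mul_nonneg (mul_nonneg (deriv_chi_nonneg _) (by positivity)) (hη0 y)) h2
  have hibp := ibp_div h.isOpen hζ1 hcpt (hsup.trans hKE)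
    (Y := fun i => w u i) (fun i => (h.smooth_w i).of_le one_le_top')
  have hle : ∫ y in E, ζ y * NN u y ≤ 0 := by
    have h1 : ∫ y in E, ζ y * NN u y = ∫ y in E, ζ y * ∑ i, pd i (w u i) y := by
      refine setIntegral_congr_fun h.isOpen.measurableSet fun y hy => ?_
      simp only [h.div_w hy]
    rw [h1, hibp]
    have h2 : 0 ≤ ∫ y in E, ∑ i, pd i ζ y * w u i y :=
      setIntegral_nonneg h.isOpen.measurableSet fun y hy => hsum y hy
    linarith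
  have hfull : ∫ y in E, ζ y * NN u y = ∫ y, ζ y * NN u y := by
    apply setIntegral_eq_integral_of_forall_compl_eq_zero
    intro y hy
    rw [hζnE y hy, zero_mul]
  have hcont : Continuous (fun y => ζ y * NN u y) :=
    (contDiff_mul_of_tsupport h.isOpen hζs (hsup.trans hKE) h.smooth_NN).continuous
  have hint : Integrable (fun y => ζ y * NN u y) :=
    integrable_mul_of_tsupport h.isOpen hζs.continuous hcpt (hsup.trans hKE)
      h.smooth_NN.continuousOn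
  have hnn : 0 ≤ fun y => ζ y * NN u y := fun y => mul_nonneg (hζ0 y) (hNN0 y)
  have hzero : ∫ y, ζ y * NN u y = 0 :=
    le_antisymm (hfull ▸ hle) (integral_nonneg hnn)
  have hae := (integral_eq_zero_iff_of_nonneg hnn hint).1 hzero
  have heq := (Continuous.ae_eq_iff_eq volume hcont continuous_zero).1 hae
  have hxx := congrFun heq x
  have hx1 : ζ x = 1 := by
    rw [hζE x hx, hη1 x ⟨le_rfl, le_rfl⟩]
    have h1 : (gg u x - 1) / δ = 2 := by
      rw [div_eq_iff hδ0.ne', hδ]; ring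
    rw [h1, chi_eq_one le_rfl, mul_one]
  simp only [hx1, one_mul] at hxx
  simpa using hxx

end OPC
end

section

/-! # C02: the gradient is bounded by 1 -/

open MeasureTheory Set Filter Topology

namespace OPC

variable {n : ℕ} {E : Set (V n)} {u : V n → ℝ}

private theorem C02_fderiv_q_zero (h : Sol E u) {y : V n} (hy : y ∈ E) (hg : 1 < gg u y)
    (j : Fin n) : fderiv ℝ (q u j) y = 0 := by
  have hNN : NN u y = 0 := h.NN_zero_of_gg hy hg
  have hS : ∀ i k, S u i k y = 0 := by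
    intro i k
    have h1 : ∑ i, ∑ j, (S u i j y) ^ 2 = 0 := hNN
    rw [Finset.sum_eq_zero_iff_of_nonneg
      (fun i _ => Finset.sum_nonneg (fun j _ => sq_nonneg _))] at h1
    have h2 := h1 i (Finset.mem_univ i)
    rw [Finset.sum_eq_zero_iff_of_nonneg (fun j _ => sq_nonneg _)] at h2
    exact pow_eq_zero_iff (two_ne_zero) |>.1 (h2 k (Finset.mem_univ k))
  ext v
  rw [fderiv_apply_eq_sum]
  simp only [_root_.zero_apply]
  apply Finset.sum_eq_zero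
  intro i _
  rw [pd_q, hS i j, mul_zero]

/-- `|∇u| ≤ 1` in `E` (`n ≥ 2`; false for `n = 1`).
Sketch: let `x₀ ∈ E`, `gg u x₀ > 1`; `U₀ = {x ∈ E | 1 < gg u x}` is open,
`q u i` is locally constant on `U₀` (its derivative `S = 0`), so `q` is constant on the connected
component `C` of `x₀` in `U₀`; `C` is open, and closed in `{0}ᶜ`: a limit point `y ≠ 0` of `C` is in
`E` (then `gg u y = gg u x₀ > 1`, `y ∈ U₀`, `y ∈ C`) or in `frontier E` (then `gg u → 1` at `y`,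
contradiction). `{0}ᶜ` is connected (`isPreconnected_compl_singleton_of_one_lt_rank`), so
`C = {0}ᶜ ⊆ E` and `u y = ∑ y_i q_i` with constant `q`; but `u y, u (-y) > 0`, contradiction. -/
theorem Sol.gg_le_one (h : Sol E u) (hn : 2 ≤ n) {x : V n} (hx : x ∈ E) : gg u x ≤ 1 := by
  by_contra hcon
  push Not at hcon
  set C : Set (V n) := {y | y ∈ E ∧ ∀ j, q u j y = q u j x} with hC
  have hgC : ∀ y ∈ C, gg u y = gg u x := by
    intro y hy
    unfold gg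
    exact Finset.sum_congr rfl fun i _ => by rw [hy.2 i]
  have hcg : ContinuousOn (gg u) E := h.smooth_gg.continuousOn
  have hcq : ∀ j, ContinuousOn (q u j) E := fun j => (h.smooth_q j).continuousOn
  -- `C` is open
  have hCo : IsOpen C := by
    rw [Metric.isOpen_iff]
    intro y hy
    have hU : IsOpen (E ∩ gg u ⁻¹' Ioi 1) := hcg.isOpen_inter_preimage h.isOpen isOpen_Ioi
    have hyU : y ∈ E ∩ gg u ⁻¹' Ioi 1 := by
      refine ⟨hy.1, ?_⟩
      change 1 < gg u y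
      rw [hgC y hy]
      exact hcon
    obtain ⟨r, hr, hball⟩ := Metric.isOpen_iff.1 hU y hyU
    refine ⟨r, hr, ?_⟩
    intro z hz
    refine ⟨(hball hz).1, fun j => ?_⟩
    rw [← hy.2 j]
    have hd : DifferentiableOn ℝ (q u j) (Metric.ball y r) := fun w hw =>
      (h.diff_q j (hball hw).1).differentiableWithinAt
    have hd0 : ∀ w ∈ Metric.ball y r, fderiv ℝ (q u j) w = 0 := fun w hw =>
      C02_fderiv_q_zero h (hball hw).1 (hball hw).2 j
    exact (Metric.isOpen_ball).is_const_of_fderiv_eq_zero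
      (convex_ball y r).isPreconnected hd hd0 hz (Metric.mem_ball_self hr)
  -- `C` is closed in `{0}ᶜ`
  have hCc : closure C ∩ {(0 : V n)}ᶜ ⊆ C := by
    rintro y ⟨hyc, hy0⟩
    have hy0' : y ≠ 0 := hy0
    by_cases hyE : y ∈ E
    · refine ⟨hyE, fun j => ?_⟩
      have hcj : ContinuousAt (q u j) y := (hcq j).continuousAt (h.isOpen.mem_nhds hyE)
      by_contra hne
      have hev : ∀ᶠ z in 𝓝 y, q u j z ≠ q u j x := hcj.eventually_ne hne
      obtain ⟨z, hz1, hz2⟩ := mem_closure_iff_nhds.1 hyc _ hev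
      exact hz1 (hz2.2 j)
    · exfalso
      have huy : u y = 0 := h.zero y hyE
      have hny : 0 < ‖y‖ := norm_pos_iff.2 hy0'
      obtain ⟨ε, hε, hlay⟩ := h.lay_gg (‖y‖ / 2) (2 * ‖y‖) (by positivity) (gg u x - 1)
        (by linarith)
      have hev1 : ∀ᶠ z in 𝓝 y, u z < ε :=
        (h.cont.tendsto y).eventually (gt_mem_nhds (by rw [huy]; exact hε))
      have hev2 : ∀ᶠ z in 𝓝 y, ‖y‖ / 2 < ‖z‖ :=
        (continuous_norm.tendsto y).eventually (lt_mem_nhds (by linarith))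
      have hev3 : ∀ᶠ z in 𝓝 y, ‖z‖ < 2 * ‖y‖ :=
        (continuous_norm.tendsto y).eventually (gt_mem_nhds (by linarith))
      obtain ⟨z, ⟨⟨hz1, hz2⟩, hz3⟩, hz4⟩ := mem_closure_iff_nhds.1 hyc _
        ((hev1.and hev2).and hev3)
      have h5 := hlay z hz4.1 ⟨hz2.le, hz3.le⟩ hz1
      rw [hgC z hz4, abs_of_pos (by linarith)] at h5
      exact lt_irrefl _ h5
  have hrank : 1 < Module.rank ℝ (V n) := by
    rw [← Module.finrank_eq_rank, finrank_euclideanSpace_fin]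
    exact_mod_cast hn
  have hpre : IsPreconnected ({(0 : V n)}ᶜ : Set (V n)) :=
    (isConnected_compl_singleton_of_one_lt_rank hrank 0).isPreconnected
  have hx0 : x ≠ 0 := h.ne_zero hx
  have hsub : ({(0 : V n)}ᶜ : Set (V n)) ⊆ C :=
    hpre.subset_of_closure_inter_subset hCo ⟨x, hx0, hx, fun _ => rfl⟩ hCc
  have hnx : -x ∈ C := hsub (by
    change -x ≠ 0
    exact neg_ne_zero.2 hx0)
  have e1 := h.euler_u hx
  have e2 := h.euler_u hnx.1
  have p1 := h.pos x hx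
  have p2 := h.pos (-x) hnx.1
  have e3 : ∑ i, (-x) i * q u i (-x) = -∑ i, x i * q u i x := by
    rw [← Finset.sum_neg_distrib]
    refine Finset.sum_congr rfl fun i _ => ?_
    rw [hnx.2 i]
    simp
  rw [e3, e1] at e2
  linarith

end OPC
end
end

section

/-! # P03: growth of `F` and of the fields near `{S = 0}` -/

open MeasureTheory Set Filter Topology

namespace OPC

variable {n : ℕ} {E : Set (V n)} {u : V n → ℝ}

private theorem p3_sum {f : Fin n → ℝ} {B : ℝ} (hf : ∀ i, |f i| ≤ B) : |∑ i, f i| ≤ n * B := by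
  refine (Finset.abs_sum_le_sum_abs _ _).trans ?_
  refine (Finset.sum_le_sum fun i _ => hf i).trans (le_of_eq ?_)
  simp

private theorem p3_S (i j : Fin n) (x : V n) : |S u i j x| ≤ √(NN u x) := by
  apply Real.abs_le_sqrt
  have h1 : (S u i j x) ^ 2 ≤ ∑ j, (S u i j x) ^ 2 :=
    Finset.single_le_sum (f := fun j => (S u i j x) ^ 2) (fun _ _ => sq_nonneg _)
      (Finset.mem_univ j)
  have h2 : ∑ j, (S u i j x) ^ 2 ≤ ∑ i, ∑ j, (S u i j x) ^ 2 :=
    Finset.single_le_sum (f := fun i => ∑ j, (S u i j x) ^ 2)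
      (fun _ _ => Finset.sum_nonneg fun _ _ => sq_nonneg _) (Finset.mem_univ i)
  exact h1.trans h2

private theorem p3_T (k i j : Fin n) (x : V n) : |T u k i j x| ≤ √(TT u x) := by
  apply Real.abs_le_sqrt
  have h1 : (T u k i j x) ^ 2 ≤ ∑ j, (T u k i j x) ^ 2 :=
    Finset.single_le_sum (f := fun j => (T u k i j x) ^ 2) (fun _ _ => sq_nonneg _)
      (Finset.mem_univ j)
  have h2 : ∑ j, (T u k i j x) ^ 2 ≤ ∑ i, ∑ j, (T u k i j x) ^ 2 :=
    Finset.single_le_sum (f := fun i => ∑ j, (T u k i j x) ^ 2)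
      (fun _ _ => Finset.sum_nonneg fun _ _ => sq_nonneg _) (Finset.mem_univ i)
  have h3 : ∑ i, ∑ j, (T u k i j x) ^ 2 ≤ ∑ k, ∑ i, ∑ j, (T u k i j x) ^ 2 :=
    Finset.single_le_sum (f := fun k => ∑ i, ∑ j, (T u k i j x) ^ 2)
      (fun _ _ => Finset.sum_nonneg fun _ _ => Finset.sum_nonneg fun _ _ => sq_nonneg _)
      (Finset.mem_univ k)
  exact (h1.trans h2).trans h3

private theorem p3_r {a b : ℝ} {x : V n} (hx : x ∈ Ann a b) : ‖x‖ ≤ |b| + 1 :=
  (hx.2.trans (le_abs_self b)).trans (by linarith)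

/-- powers of `Sm` -/
private theorem p3_pow (u : V n → ℝ) (a b : ℝ) : ∃ c, 1 ≤ c ∧ ∀ x : V n, x ∈ Ann a b → ∀ k i j,
    |(Sm u x ^ k) i j| ≤ (c * √(NN u x)) ^ k := by
  refine ⟨n * (|b| + 1) + 1, ?_, ?_⟩
  · have : 0 ≤ (n : ℝ) * (|b| + 1) := by positivity
    linarith
  intro x hx k
  have hr := p3_r hx
  induction k with
  | zero =>
    intro i j
    rw [pow_zero, pow_zero, Matrix.one_apply]
    split_ifs <;> simp
  | succ k ih =>
    intro i j
    rw [pow_succ, Matrix.mul_apply]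
    have h1 : ∀ l, |(Sm u x ^ k) i l * Sm u x l j| ≤
        ((n * (|b| + 1) + 1) * √(NN u x)) ^ k * ((|b| + 1) * √(NN u x)) := by
      intro l
      rw [abs_mul]
      apply mul_le_mul (ih i l) _ (abs_nonneg _) (by positivity)
      have : Sm u x l j = ‖x‖ * S u l j x := rfl
      rw [this, abs_mul, abs_of_nonneg (norm_nonneg x)]
      exact mul_le_mul hr (p3_S l j x) (abs_nonneg _) (by positivity)
    refine (p3_sum h1).trans ?_
    rw [pow_succ]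
    have h2 : (n : ℝ) * (((n * (|b| + 1) + 1) * √(NN u x)) ^ k * ((|b| + 1) * √(NN u x))) =
        ((n * (|b| + 1) + 1) * √(NN u x)) ^ k * ((n * (|b| + 1)) * √(NN u x)) := by ring
    rw [h2]
    apply mul_le_mul_of_nonneg_left _ (by positivity)
    apply mul_le_mul_of_nonneg_right _ (Real.sqrt_nonneg _)
    linarith

/-- powers of `Sm`, second form -/
private theorem p3_pow' (u : V n → ℝ) (a b : ℝ) (k : ℕ) : ∃ C, 1 ≤ C ∧ ∀ x : V n, x ∈ Ann a b →
    ∀ i j, |(Sm u x ^ k) i j| ≤ C * √(NN u x) ^ k := by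
  obtain ⟨c, hc, h⟩ := p3_pow u a b
  refine ⟨c ^ k, one_le_pow₀ hc, fun x hx i j => ?_⟩
  rw [← mul_pow]
  exact h x hx k i j

private theorem p3_pv (h : Sol E u) {a b : ℝ} (ha : 0 < a) : ∃ C, 1 ≤ C ∧ ∀ x ∈ E,
    x ∈ Ann a b → ∀ i, |pv u x i| ≤ C := by
  obtain ⟨C, c, hC, -, hb⟩ := h.bounds (a := a) (b := b) ha
  refine ⟨C + C / a, ?_, ?_⟩
  · have : 0 ≤ C / a := by positivity
    linarith
  intro x hxE hxA i
  obtain ⟨h1, -, -, -, -, -, -, -, -, -, h2, -⟩ := hb x hxE hxA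
  have hr0 : 0 < ‖x‖ := lt_of_lt_of_le ha hxA.1
  have hu0 : 0 ≤ u x := (h.pos x hxE).le
  unfold pv
  have e1 : |u x * x i / ‖x‖ ^ 2| ≤ C / a := by
    rw [abs_div, abs_mul, abs_of_nonneg hu0, abs_of_nonneg (sq_nonneg ‖x‖)]
    have e2 : |x i| ≤ ‖x‖ := by
      have := EuclideanSpace.norm_eq x
      rw [this]
      apply Real.abs_le_sqrt
      have h3 := Finset.single_le_sum (f := fun i => ‖x i‖ ^ 2) (fun _ _ => sq_nonneg _)
        (Finset.mem_univ i)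
      simp only [Real.norm_eq_abs, sq_abs] at h3 ⊢
      exact h3
    rw [div_le_div_iff₀ (by positivity) ha]
    have e3 : u x * |x i| ≤ C * ‖x‖ := mul_le_mul h2 e2 (abs_nonneg _) (by linarith)
    calc u x * |x i| * a ≤ (C * ‖x‖) * ‖x‖ := mul_le_mul e3 hxA.1 ha.le (by positivity)
      _ = C * ‖x‖ ^ 2 := by ring
  calc |q u i x - u x * x i / ‖x‖ ^ 2| ≤ |q u i x| + |u x * x i / ‖x‖ ^ 2| := abs_sub _ _
    _ ≤ C + C / a := add_le_add (h1 i) e1

private theorem p3_Sp (h : Sol E u) {a b : ℝ} (ha : 0 < a) (k : ℕ) : ∃ C, 1 ≤ C ∧ ∀ x ∈ E,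
    x ∈ Ann a b → ∀ i, |Sp u x k i| ≤ C * √(NN u x) ^ k := by
  obtain ⟨C1, hC1, h1⟩ := p3_pow' u a b k
  obtain ⟨C2, hC2, h2⟩ := p3_pv h (a := a) (b := b) ha
  refine ⟨n * (C1 * C2) + 1, ?_, ?_⟩
  · have : 0 ≤ (n : ℝ) * (C1 * C2) := by positivity
    linarith
  intro x hxE hxA i
  have e1 : ∀ j, |(Sm u x ^ k) i j * pv u x j| ≤ (C1 * √(NN u x) ^ k) * C2 := by
    intro j
    rw [abs_mul]
    exact mul_le_mul (h1 x hxA i j) (h2 x hxE hxA j) (abs_nonneg _) (by positivity)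
  have e2 : Sp u x k i = ∑ j, (Sm u x ^ k) i j * pv u x j := rfl
  rw [e2]
  refine (p3_sum e1).trans ?_
  have e3 : 0 ≤ √(NN u x) ^ k := by positivity
  have e4 : (n : ℝ) * ((C1 * √(NN u x) ^ k) * C2) = (n * (C1 * C2)) * √(NN u x) ^ k := by ring
  rw [e4]
  exact mul_le_mul_of_nonneg_right (by linarith) e3

private theorem p3_Mt (h : Sol E u) {a b : ℝ} (ha : 0 < a) (A : Mt) : ∃ C, 1 ≤ C ∧ ∀ x ∈ E,
    x ∈ Ann a b → ∀ i j, |A.val u x i j| ≤ C * √(NN u x) ^ A.wt := by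
  cases A with
  | pow k =>
    obtain ⟨C1, hC1, h1⟩ := p3_pow' u a b k
    exact ⟨C1, hC1, fun x _ hxA i j => h1 x hxA i j⟩
  | sym k l =>
    obtain ⟨C1, hC1, h1⟩ := p3_Sp h (a := a) (b := b) ha k
    obtain ⟨C2, hC2, h2⟩ := p3_Sp h (a := a) (b := b) ha l
    refine ⟨C1 * C2, by nlinarith, ?_⟩
    intro x hxE hxA i j
    have e : (Mt.sym k l).val u x i j = (Sp u x k i * Sp u x l j + Sp u x l i * Sp u x k j) / 2 :=
      rfl
    have ew : (Mt.sym k l).wt = k + l := rfl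
    rw [e, ew, abs_div, abs_two, div_le_iff₀ two_pos, pow_add]
    have f1 : |Sp u x k i * Sp u x l j| ≤ (C1 * √(NN u x) ^ k) * (C2 * √(NN u x) ^ l) := by
      rw [abs_mul]
      exact mul_le_mul (h1 x hxE hxA i) (h2 x hxE hxA j) (abs_nonneg _) (by positivity)
    have f2 : |Sp u x l i * Sp u x k j| ≤ (C2 * √(NN u x) ^ l) * (C1 * √(NN u x) ^ k) := by
      rw [abs_mul]
      exact mul_le_mul (h2 x hxE hxA i) (h1 x hxE hxA j) (abs_nonneg _) (by positivity)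
    refine (abs_add_le _ _).trans ((add_le_add f1 f2).trans (le_of_eq ?_))
    ring

private theorem p3_wedge (h : Sol E u) {a b : ℝ} (ha : 0 < a) (k l : ℕ) : ∃ C, 1 ≤ C ∧ ∀ x ∈ E,
    x ∈ Ann a b → ∀ i j, |wedge u x k l i j| ≤ C * √(NN u x) ^ (k + l) := by
  obtain ⟨C1, hC1, h1⟩ := p3_Sp h (a := a) (b := b) ha k
  obtain ⟨C2, hC2, h2⟩ := p3_Sp h (a := a) (b := b) ha l
  refine ⟨2 * (C1 * C2), by nlinarith, ?_⟩
  intro x hxE hxA i j
  have e : wedge u x k l i j = Sp u x k i * Sp u x l j - Sp u x l i * Sp u x k j := rfl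
  rw [e, pow_add]
  have f1 : |Sp u x k i * Sp u x l j| ≤ (C1 * √(NN u x) ^ k) * (C2 * √(NN u x) ^ l) := by
    rw [abs_mul]
    exact mul_le_mul (h1 x hxE hxA i) (h2 x hxE hxA j) (abs_nonneg _) (by positivity)
  have f2 : |Sp u x l i * Sp u x k j| ≤ (C2 * √(NN u x) ^ l) * (C1 * √(NN u x) ^ k) := by
    rw [abs_mul]
    exact mul_le_mul (h2 x hxE hxA i) (h1 x hxE hxA j) (abs_nonneg _) (by positivity)
  refine (abs_sub _ _).trans ((add_le_add f1 f2).trans (le_of_eq ?_))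
  ring

private theorem p3_trace (u : V n → ℝ) (a b : ℝ) (k : ℕ) : ∃ C, 1 ≤ C ∧ ∀ x : V n, x ∈ Ann a b →
    |Matrix.trace (Sm u x ^ k)| ≤ C * √(NN u x) ^ k := by
  obtain ⟨C1, hC1, h1⟩ := p3_pow' u a b k
  refine ⟨n * C1 + 1, ?_, ?_⟩
  · have : 0 ≤ (n : ℝ) * C1 := by positivity
    linarith
  intro x hxA
  have e1 : ∀ i, |(Sm u x ^ k) i i| ≤ C1 * √(NN u x) ^ k := fun i => h1 x hxA i i
  have e2 : Matrix.trace (Sm u x ^ k) = ∑ i, (Sm u x ^ k) i i := rfl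
  rw [e2]
  refine (p3_sum e1).trans ?_
  have e3 : 0 ≤ √(NN u x) ^ k := by positivity
  rw [← mul_assoc]
  exact mul_le_mul_of_nonneg_right (by linarith) e3

private theorem p3_form (h : Sol E u) {a b : ℝ} (ha : 0 < a) (k : ℕ) : ∃ C, 1 ≤ C ∧ ∀ x ∈ E,
    x ∈ Ann a b → |pv u x ⬝ᵥ (Sm u x ^ k).mulVec (pv u x)| ≤ C * √(NN u x) ^ k := by
  obtain ⟨C1, hC1, h1⟩ := p3_Sp h (a := a) (b := b) ha k
  obtain ⟨C2, hC2, h2⟩ := p3_pv h (a := a) (b := b) ha
  refine ⟨n * (C2 * C1) + 1, ?_, ?_⟩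
  · have : 0 ≤ (n : ℝ) * (C2 * C1) := by positivity
    linarith
  intro x hxE hxA
  have e1 : ∀ i, |pv u x i * Sp u x k i| ≤ C2 * (C1 * √(NN u x) ^ k) := by
    intro i
    rw [abs_mul]
    exact mul_le_mul (h2 x hxE hxA i) (h1 x hxE hxA i) (abs_nonneg _) (by linarith)
  have e2 : pv u x ⬝ᵥ (Sm u x ^ k).mulVec (pv u x) = ∑ i, pv u x i * Sp u x k i := rfl
  rw [e2]
  refine (p3_sum e1).trans ?_
  have e3 : 0 ≤ √(NN u x) ^ k := by positivity
  have e4 : (n : ℝ) * (C2 * (C1 * √(NN u x) ^ k)) = (n * (C2 * C1)) * √(NN u x) ^ k := by ring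
  rw [e4]
  exact mul_le_mul_of_nonneg_right (by linarith) e3

private theorem p3_Fac (h : Sol E u) {a b : ℝ} (ha : 0 < a) (f : Fac) : ∃ C, 1 ≤ C ∧ ∀ x ∈ E,
    x ∈ Ann a b → |f.val u x| ≤ C * √(NN u x) ^ f.wt := by
  obtain ⟨C, c, hC, -, hb⟩ := h.bounds (a := a) (b := b) ha
  have hu : ∀ x ∈ E, x ∈ Ann a b → |u x / ‖x‖| ≤ C / a := by
    intro x hxE hxA
    have h2 := (hb x hxE hxA).2.2.2.2.2.2.2.2.2.2.1
    have hu0 : 0 ≤ u x := (h.pos x hxE).le
    rw [abs_div, abs_of_nonneg hu0, abs_of_nonneg (norm_nonneg x)]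
    exact div_le_div₀ (by linarith) h2 ha hxA.1
  cases f with
  | c3 =>
    obtain ⟨C1, hC1, h1⟩ := p3_trace u a b 3
    exact ⟨C1, hC1, fun x _ hxA => h1 x hxA⟩
  | c4 =>
    obtain ⟨C1, hC1, h1⟩ := p3_trace u a b 4
    exact ⟨C1, hC1, fun x _ hxA => h1 x hxA⟩
  | b0 =>
    refine ⟨C, hC, fun x hxE hxA => ?_⟩
    have h2 := (hb x hxE hxA).2.2.2.2.2.2.1
    have e : Fac.val u x .b0 = gg u x := rfl
    have ew : Fac.wt .b0 = 0 := rfl
    rw [e, ew, pow_zero, mul_one, abs_of_nonneg (h.gg_pos hxE).le]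
    exact h2
  | b1 =>
    obtain ⟨C1, hC1, h1⟩ := p3_form h (a := a) (b := b) ha 1
    refine ⟨C1, hC1, fun x hxE hxA => ?_⟩
    have := h1 x hxE hxA
    rw [pow_one (Sm u x)] at this
    exact this
  | b2 =>
    obtain ⟨C1, hC1, h1⟩ := p3_form h (a := a) (b := b) ha 2
    exact ⟨C1, hC1, fun x hxE hxA => h1 x hxE hxA⟩
  | b3 =>
    obtain ⟨C1, hC1, h1⟩ := p3_form h (a := a) (b := b) ha 3
    exact ⟨C1, hC1, fun x hxE hxA => h1 x hxE hxA⟩
  | u2 =>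
    refine ⟨(C / a) ^ 2 + 1, by nlinarith [sq_nonneg (C / a)], fun x hxE hxA => ?_⟩
    have e : Fac.val u x .u2 = (u x / ‖x‖) ^ 2 := rfl
    have ew : Fac.wt .u2 = 0 := rfl
    rw [e, ew, pow_zero, mul_one, abs_pow]
    have := pow_le_pow_left₀ (abs_nonneg _) (hu x hxE hxA) 2
    linarith
  | u1 =>
    have : 0 ≤ C / a := by positivity
    refine ⟨C / a + 1, by linarith, fun x hxE hxA => ?_⟩
    have e : Fac.val u x .u1 = u x / ‖x‖ := rfl
    have ew : Fac.wt .u1 = 0 := rfl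
    rw [e, ew, pow_zero, mul_one]
    have := hu x hxE hxA
    linarith

private theorem p3_facs (h : Sol E u) {a b : ℝ} (ha : 0 < a) (L : List Fac) : ∃ C, 1 ≤ C ∧
    ∀ x ∈ E, x ∈ Ann a b → |facsVal u x L| ≤ C * √(NN u x) ^ (L.map Fac.wt).sum := by
  induction L with
  | nil => exact ⟨1, le_rfl, fun x _ _ => by simp [facsVal]⟩
  | cons f L ih =>
    obtain ⟨C1, hC1, h1⟩ := ih
    obtain ⟨C2, hC2, h2⟩ := p3_Fac h (a := a) (b := b) ha f
    refine ⟨C2 * C1, by nlinarith, fun x hxE hxA => ?_⟩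
    have e : facsVal u x (f :: L) = f.val u x * facsVal u x L := by simp [facsVal]
    rw [e, abs_mul, List.map_cons, List.sum_cons, pow_add]
    refine (mul_le_mul (h2 x hxE hxA) (h1 x hxE hxA) (abs_nonneg _) (by positivity)).trans
      (le_of_eq ?_)
    ring

private theorem p3_TA {a b : ℝ} (M : V n → Matrix (Fin n) (Fin n) ℝ) (w : ℕ)
    (hM : ∃ C, 1 ≤ C ∧ ∀ x ∈ E, x ∈ Ann a b → ∀ i j, |M x i j| ≤ C * √(NN u x) ^ w) :
    ∃ C, 1 ≤ C ∧ ∀ x ∈ E, x ∈ Ann a b → ∀ k, |TA u x (M x) k| ≤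
      C * √(NN u x) ^ w * √(TT u x) := by
  obtain ⟨C1, hC1, h1⟩ := hM
  refine ⟨n * (n * ((|b| + 1) ^ 2 * C1)) + 1, ?_, ?_⟩
  · have : 0 ≤ (n : ℝ) * (n * ((|b| + 1) ^ 2 * C1)) := by positivity
    linarith
  intro x hxE hxA k
  have e1 : ∀ i j, |Tt u x k i j * M x i j| ≤
      ((|b| + 1) ^ 2 * √(TT u x)) * (C1 * √(NN u x) ^ w) := by
    intro i j
    rw [abs_mul]
    apply mul_le_mul _ (h1 x hxE hxA i j) (abs_nonneg _) (by positivity)
    have : Tt u x k i j = ‖x‖ ^ 2 * T u k i j x := rfl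
    rw [this, abs_mul, abs_of_nonneg (sq_nonneg _)]
    exact mul_le_mul (pow_le_pow_left₀ (norm_nonneg x) (p3_r hxA) 2) (p3_T k i j x)
      (abs_nonneg _) (by positivity)
  unfold TA
  refine (p3_sum fun i => p3_sum (e1 i)).trans ?_
  have e4 : (n : ℝ) * (n * (((|b| + 1) ^ 2 * √(TT u x)) * (C1 * √(NN u x) ^ w))) =
      (n * (n * ((|b| + 1) ^ 2 * C1))) * (√(NN u x) ^ w * √(TT u x)) := by ring
  rw [e4, mul_assoc (_ + 1 : ℝ)]
  exact mul_le_mul_of_nonneg_right (by linarith) (by positivity)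

/-- the vector `∑ l, M k l * v l` -/
private theorem p3_MV {a b : ℝ} (M : V n → Matrix (Fin n) (Fin n) ℝ) (w : ℕ)
    (hM : ∃ C, 1 ≤ C ∧ ∀ x ∈ E, x ∈ Ann a b → ∀ i j, |M x i j| ≤ C * √(NN u x) ^ w)
    (v : V n → Fin n → ℝ) (w' : ℕ)
    (hv : ∃ C, 1 ≤ C ∧ ∀ x ∈ E, x ∈ Ann a b → ∀ k, |v x k| ≤ C * √(NN u x) ^ w' * √(TT u x)) :
    ∃ C, 1 ≤ C ∧ ∀ x ∈ E, x ∈ Ann a b → ∀ k l, |M x k l * v x l| ≤
      C * √(NN u x) ^ (w + w') * √(TT u x) := by
  obtain ⟨C1, hC1, h1⟩ := hM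
  obtain ⟨C2, hC2, h2⟩ := hv
  refine ⟨C1 * C2, by nlinarith, ?_⟩
  intro x hxE hxA k l
  rw [abs_mul, pow_add]
  refine (mul_le_mul (h1 x hxE hxA k l) (h2 x hxE hxA l) (abs_nonneg _)
    (by positivity)).trans (le_of_eq ?_)
  ring

private theorem p3_shape (h : Sol E u) {a b : ℝ} (ha : 0 < a) (sh : Shape) : ∃ C, 1 ≤ C ∧
    ∀ x ∈ E, x ∈ Ann a b →
      (∀ k, |sh.val u x k| ≤ match sh with
        | .v0 _ => C * √(NN u x) ^ sh.wt
        | _ => C * √(NN u x) ^ (sh.wt - 2) * √(TT u x)) := by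
  cases sh with
  | v0 k =>
    obtain ⟨C1, hC1, h1⟩ := p3_Sp h (a := a) (b := b) ha k
    exact ⟨C1, hC1, fun x hxE hxA i => h1 x hxE hxA i⟩
  | p1 A =>
    obtain ⟨C1, hC1, h1⟩ := p3_TA (E := E) (u := u) (a := a) (b := b) (fun x => A.val u x) A.wt
      (p3_Mt h ha A)
    refine ⟨C1, hC1, fun x hxE hxA k => ?_⟩
    have ew : (Shape.p1 A).wt - 2 = A.wt := by simp [Shape.wt]
    simp only [ew]
    exact h1 x hxE hxA k
  | h1 A B =>
    have tA := p3_TA (E := E) (u := u) (a := a) (b := b) (fun x => A.val u x) A.wt (p3_Mt h ha A)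
    have tB := p3_TA (E := E) (u := u) (a := a) (b := b) (fun x => B.val u x) B.wt (p3_Mt h ha B)
    obtain ⟨C1, hC1, h1⟩ := p3_MV (fun x => B.val u x) B.wt (p3_Mt h ha B) _ _ tA
    obtain ⟨C2, hC2, h2⟩ := p3_MV (fun x => A.val u x) A.wt (p3_Mt h ha A) _ _ tB
    refine ⟨n * (C1 + C2) + 1, ?_, ?_⟩
    · have : 0 ≤ (n : ℝ) * (C1 + C2) := by positivity
      linarith
    intro x hxE hxA k
    have ew : (Shape.h1 A B).wt - 2 = A.wt + B.wt := by simp [Shape.wt]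
    simp only [ew]
    have e1 : ∀ l, |B.val u x k l * TA u x (A.val u x) l - A.val u x k l * TA u x (B.val u x) l| ≤
        (C1 + C2) * √(NN u x) ^ (A.wt + B.wt) * √(TT u x) := by
      intro l
      have f1 := h1 x hxE hxA k l
      have f2 := h2 x hxE hxA k l
      rw [add_comm B.wt A.wt] at f1
      refine (abs_sub _ _).trans ((add_le_add f1 f2).trans (le_of_eq ?_))
      ring
    have e2 : (Shape.h1 A B).val u x k = ∑ l, (B.val u x k l * TA u x (A.val u x) l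
      - A.val u x k l * TA u x (B.val u x) l) := rfl
    rw [e2]
    refine (p3_sum e1).trans ?_
    rw [mul_assoc, mul_assoc, ← mul_assoc (n : ℝ)]
    exact mul_le_mul_of_nonneg_right (by linarith) (by positivity)
  | h2 a' b' c =>
    have tc := p3_TA (E := E) (u := u) (a := a) (b := b) (fun x => Sm u x ^ c) c
      (by
        obtain ⟨C1, hC1, h1⟩ := p3_pow' u a b c
        exact ⟨C1, hC1, fun x _ hxA i j => h1 x hxA i j⟩)
    obtain ⟨C1, hC1, h1⟩ := p3_MV (fun x => wedge u x a' b') (a' + b')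
      (p3_wedge h ha a' b') _ _ tc
    refine ⟨n * C1 + 1, ?_, ?_⟩
    · have : 0 ≤ (n : ℝ) * C1 := by positivity
      linarith
    intro x hxE hxA k
    have ew : (Shape.h2 a' b' c).wt - 2 = a' + b' + c := by simp [Shape.wt]
    simp only [ew]
    have e2 : (Shape.h2 a' b' c).val u x k = ∑ l, wedge u x a' b' k l * TA u x (Sm u x ^ c) l :=
      rfl
    rw [e2]
    refine (p3_sum (fun l => h1 x hxE hxA k l)).trans ?_
    rw [mul_assoc, mul_assoc, ← mul_assoc (n : ℝ)]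
    exact mul_le_mul_of_nonneg_right (by linarith) (by positivity)

private theorem p3_rb {a b : ℝ} (ha : 0 < a) (m : ℤ) (e : ℝ) : ∃ C, 1 ≤ C ∧
    ∀ x : V n, x ∈ Ann a b → 0 < ‖x‖ ∧ ‖x‖ ^ m * ‖x‖ ^ e ≤ C ∧ C⁻¹ ≤ ‖x‖ ^ m * ‖x‖ ^ e := by
  have key : ∀ (m : ℤ) (e : ℝ), ∃ C : ℝ, ∀ r ∈ Icc a b, ‖r ^ m * r ^ e‖ ≤ C := by
    intro m e
    apply isCompact_Icc.exists_bound_of_continuousOn
    apply ContinuousOn.mul
    · exact continuousOn_id.zpow₀ m (fun r hr => Or.inl (by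
        have : 0 < r := lt_of_lt_of_le ha hr.1
        exact this.ne'))
    · exact continuousOn_id.rpow_const (fun r hr => Or.inl (by
        have : 0 < r := lt_of_lt_of_le ha hr.1
        exact this.ne'))
  obtain ⟨C1, h1⟩ := key m e
  obtain ⟨C2, h2⟩ := key (-m) (-e)
  refine ⟨max 1 (max C1 C2), le_max_left _ _, fun x hx => ?_⟩
  have hr : ‖x‖ ∈ Icc a b := ⟨hx.1, hx.2⟩
  have hr0 : 0 < ‖x‖ := lt_of_lt_of_le ha hx.1
  have hp : 0 < ‖x‖ ^ m * ‖x‖ ^ e := mul_pos (zpow_pos hr0 m) (Real.rpow_pos_of_pos hr0 e)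
  refine ⟨hr0, ?_, ?_⟩
  · exact ((le_abs_self _).trans (h1 _ hr)).trans ((le_max_left _ _).trans (le_max_right _ _))
  · have h3 := h2 _ hr
    rw [zpow_neg, Real.rpow_neg hr0.le, ← mul_inv, Real.norm_eq_abs, abs_of_pos (inv_pos.2 hp)] at h3
    have h4 := h3.trans ((le_max_right C1 C2).trans (le_max_right 1 _))
    exact inv_le_of_inv_le₀ hp h4

private theorem p3_half {N e : ℝ} (hN0 : 0 ≤ N) : N ^ (e / 2) = √N ^ e := by
  rw [Real.sqrt_eq_rpow, ← Real.rpow_mul hN0]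
  congr 1
  ring

private theorem p3_exp {s : ℝ} (hs : 0 < s) (ϖ : ℚ) (g : Term) (k : ℕ) :
    s ^ ((g.ex ϖ : ℚ) : ℝ) * s ^ ((g.facs.map Fac.wt).sum) * s ^ k =
      s ^ ((ϖ : ℝ) + 1 - g.shape.wt - g.ge + k) := by
  rw [← Real.rpow_natCast, ← Real.rpow_natCast, ← Real.rpow_add hs, ← Real.rpow_add hs]
  congr 1
  simp only [Term.ex, Term.wt]
  generalize (g.facs.map Fac.wt).sum = W
  push_cast
  ring

private theorem p3_abs {c R S f v : ℝ} (hR : 0 ≤ R) (hS : 0 ≤ S) :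
    |c * (R * (S * (f * v)))| = |c| * (R * (S * (|f| * |v|))) := by
  rw [abs_mul, abs_mul, abs_mul, abs_mul, abs_of_nonneg hR, abs_of_nonneg hS]

/-- the exponents match -/
private theorem p3_match {s τ C0 : ℝ} (hs : 0 < s) (hτ : 0 ≤ τ) (hC0 : 1 ≤ C0) (hsC : s ≤ C0)
    (ϖ : ℚ) {g : Term} (hg : g.ok) :
    s ^ ((g.ex ϖ : ℚ) : ℝ) * s ^ ((g.facs.map Fac.wt).sum) * (match g.shape with
        | .v0 _ => s ^ g.shape.wt
        | _ => s ^ (g.shape.wt - 2) * τ) ≤ C0 * s ^ ((ϖ : ℝ) - 1) * (τ + s) := by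
  have hp : 0 < s ^ ((ϖ : ℝ) - 1) := Real.rpow_pos_of_pos hs _
  have hT : ∀ k : ℕ, g.shape.wt = k + 2 → g.ge = 0 →
      s ^ ((g.ex ϖ : ℚ) : ℝ) * s ^ ((g.facs.map Fac.wt).sum) * (s ^ (g.shape.wt - 2) * τ) ≤
        C0 * s ^ ((ϖ : ℝ) - 1) * (τ + s) := by
    intro k hk hge
    have e1 : g.shape.wt - 2 = k := by omega
    rw [e1, ← mul_assoc, p3_exp hs, hk, hge]
    have e2 : (ϖ : ℝ) + 1 - ((k + 2 : ℕ) : ℝ) - ((0 : ℕ) : ℝ) + k = (ϖ : ℝ) - 1 := by
      push_cast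
      ring
    rw [e2]
    have e3 : s ^ ((ϖ : ℝ) - 1) * τ ≤ s ^ ((ϖ : ℝ) - 1) * (τ + s) :=
      mul_le_mul_of_nonneg_left (by linarith) hp.le
    have e4 : 0 ≤ s ^ ((ϖ : ℝ) - 1) * (τ + s) := by positivity
    nlinarith
  obtain ⟨sh, L, ge, coef⟩ := g
  cases sh with
  | v0 k =>
    have hge : ge ≤ 1 := hg
    have e0 := p3_exp hs ϖ (⟨.v0 k, L, ge, coef⟩ : Term) k
    have ew : (⟨.v0 k, L, ge, coef⟩ : Term).shape.wt = k := rfl
    simp only [ew] at e0 ⊢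
    rw [e0]
    have e4 : 0 ≤ s ^ ((ϖ : ℝ) - 1) * (τ + s) := by positivity
    interval_cases ge
    · have e2 : (ϖ : ℝ) + 1 - (k : ℝ) - ((0 : ℕ) : ℝ) + k = ((ϖ : ℝ) - 1) + ((2 : ℕ) : ℝ) := by
        push_cast
        ring
      rw [e2, Real.rpow_add hs, Real.rpow_natCast]
      have e5 : s ^ 2 ≤ C0 * (τ + s) := by nlinarith
      calc s ^ ((ϖ : ℝ) - 1) * s ^ 2 ≤ s ^ ((ϖ : ℝ) - 1) * (C0 * (τ + s)) :=
            mul_le_mul_of_nonneg_left e5 hp.le
        _ = C0 * s ^ ((ϖ : ℝ) - 1) * (τ + s) := by ring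
    · have e2 : (ϖ : ℝ) + 1 - (k : ℝ) - ((1 : ℕ) : ℝ) + k = ((ϖ : ℝ) - 1) + ((1 : ℕ) : ℝ) := by
        push_cast
        ring
      rw [e2, Real.rpow_add hs, Real.rpow_natCast]
      have e5 : s ^ 1 ≤ C0 * (τ + s) := by nlinarith
      calc s ^ ((ϖ : ℝ) - 1) * s ^ 1 ≤ s ^ ((ϖ : ℝ) - 1) * (C0 * (τ + s)) :=
            mul_le_mul_of_nonneg_left e5 hp.le
        _ = C0 * s ^ ((ϖ : ℝ) - 1) * (τ + s) := by ring
  | p1 A => exact hT A.wt rfl hg.2
  | h1 A B => exact hT (A.wt + B.wt) rfl hg.2.2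
  | h2 a' b' c => exact hT (a' + b' + c) rfl hg.2

private theorem p3_NN0 (u : V n → ℝ) (x : V n) : 0 ≤ NN u x :=
  Finset.sum_nonneg fun _ _ => Finset.sum_nonneg fun _ _ => sq_nonneg _

private theorem p3_TT0 (u : V n → ℝ) (x : V n) : 0 ≤ TT u x :=
  Finset.sum_nonneg fun _ _ => Finset.sum_nonneg fun _ _ => Finset.sum_nonneg fun _ _ => sq_nonneg _

private theorem p3_pd_normsq (k : Fin n) (x : V n) : pd k (fun y : V n => ‖y‖ ^ 2) x = 2 * x k := by
  have e1 : (fun y : V n => ‖y‖ ^ 2) = fun y => ∑ i, (y i) ^ 2 := by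
    funext y
    exact norm_sq_eq_sum y
  have hd : ∀ i : Fin n, DifferentiableAt ℝ (fun y : V n => y i) x := fun i =>
    (EuclideanSpace.proj i : V n →L[ℝ] ℝ).differentiableAt
  have hd2 : ∀ i ∈ (Finset.univ : Finset (Fin n)),
      DifferentiableAt ℝ (fun y : V n => (y i) ^ 2) x := fun i _ => (hd i).pow 2
  rw [e1, pd_sum _ hd2]
  have e2 : ∀ i, pd k (fun y : V n => (y i) ^ 2) x = if k = i then 2 * x i else 0 := by
    intro i
    rw [pd_pow (hd i), pd_coord]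
    split_ifs <;> simp
  rw [Finset.sum_congr rfl fun i _ => e2 i]
  simp

/-- `F` as a function of `‖x‖²` and `NN` -/
private theorem p3_Ff (h : Sol E u) (ϖ : ℚ) {x : V n} (hx : x ∈ E) :
    Ff ϖ u x = (‖x‖ ^ 2) ^ ((2 - (n : ℝ) + ϖ) / 2) * NN u x ^ ((ϖ : ℝ) / 2) := by
  have hr : 0 < ‖x‖ := norm_pos_iff.2 (h.ne_zero hx)
  unfold Ff ss
  rw [Real.mul_rpow (norm_nonneg x) (Real.sqrt_nonneg _), p3_half (p3_NN0 u x), ← mul_assoc]
  congr 1
  rw [← Real.rpow_intCast, ← Real.rpow_add hr, ← Real.rpow_natCast, ← Real.rpow_mul hr.le]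
  congr 1
  push_cast
  ring

private theorem p3_pd_Ff (h : Sol E u) (ϖ : ℚ) {x : V n} (hx : x ∈ E) (hN : NN u x ≠ 0)
    (k : Fin n) : pd k (Ff ϖ u) x =
      ((2 - (n : ℝ) + ϖ) / 2 * (‖x‖ ^ 2) ^ ((2 - (n : ℝ) + ϖ) / 2 - 1) * (2 * x k)) *
        NN u x ^ ((ϖ : ℝ) / 2) +
      (‖x‖ ^ 2) ^ ((2 - (n : ℝ) + ϖ) / 2) *
        ((ϖ : ℝ) / 2 * NN u x ^ ((ϖ : ℝ) / 2 - 1) * pd k (NN u) x) := by
  have hr : 0 < ‖x‖ := norm_pos_iff.2 (h.ne_zero hx)
  have hr2 : ‖x‖ ^ 2 ≠ 0 := by positivity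
  rw [pd_congr h.isOpen (fun y hy => p3_Ff h ϖ hy) k x hx]
  have d1 : DifferentiableAt ℝ (fun y : V n => ‖y‖ ^ 2) x := (differentiableAt_id).norm_sq ℝ
  have d2 : DifferentiableAt ℝ (NN u) x := diffAt h.isOpen h.smooth_NN hx
  have d3 : DifferentiableAt ℝ (fun t : ℝ => t ^ ((2 - (n : ℝ) + ϖ) / 2)) (‖x‖ ^ 2) :=
    Real.differentiableAt_rpow_const_of_ne _ hr2
  have d4 : DifferentiableAt ℝ (fun t : ℝ => t ^ ((ϖ : ℝ) / 2)) (NN u x) :=
    Real.differentiableAt_rpow_const_of_ne _ hN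
  rw [pd_mul (f := fun y : V n => (‖y‖ ^ 2) ^ ((2 - (n : ℝ) + ϖ) / 2))
    (g := fun y => NN u y ^ ((ϖ : ℝ) / 2)) (d3.comp x d1) (d4.comp x d2),
    pd_comp (φ := fun t : ℝ => t ^ ((2 - (n : ℝ) + ϖ) / 2)) d3 d1,
    pd_comp (φ := fun t : ℝ => t ^ ((ϖ : ℝ) / 2)) d4 d2, p3_pd_normsq,
    Real.deriv_rpow_const, Real.deriv_rpow_const]

private theorem p3_Vf {ϖ : ℚ} {a b : ℝ}
    (key : ∀ g : Term, g.ok → ∃ C, 1 ≤ C ∧ ∀ x ∈ E, x ∈ Ann a b → NN u x ≠ 0 → ∀ k,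
      |g.field ϖ u k x| ≤ C * NN u x ^ (((ϖ : ℝ) - 1) / 2) * (√(TT u x) + √(NN u x)))
    {L : List Term} (hL : ∀ g ∈ L, g.ok) :
    ∃ C, 1 ≤ C ∧ ∀ x ∈ E, x ∈ Ann a b → NN u x ≠ 0 → ∀ k,
      |Vfield ϖ L u k x| ≤ C * NN u x ^ (((ϖ : ℝ) - 1) / 2) * (√(TT u x) + √(NN u x)) := by
  induction L with
  | nil =>
    refine ⟨1, le_rfl, fun x _ _ _ k => ?_⟩
    have e : Vfield ϖ [] u k x = 0 := rfl
    rw [e, abs_zero]
    have := Real.rpow_nonneg (p3_NN0 u x) (((ϖ : ℝ) - 1) / 2)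
    positivity
  | cons g L ih =>
    obtain ⟨C1, hC1, f1⟩ := ih (fun g' hg' => hL g' (List.mem_cons_of_mem _ hg'))
    obtain ⟨C2, hC2, f2⟩ := key g (hL g List.mem_cons_self)
    refine ⟨C2 + C1, by linarith, fun x hxE hxA hN k => ?_⟩
    have e : Vfield ϖ (g :: L) u k x = g.field ϖ u k x + Vfield ϖ L u k x := by
      unfold Vfield
      rw [List.map_cons, List.sum_cons]
    rw [e]
    refine (abs_add_le _ _).trans ((add_le_add (f2 x hxE hxA hN k) (f1 x hxE hxA hN k)).trans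
      (le_of_eq ?_))
    ring

/-- sizes on annuli: matrices of weight `w` are `O(|S|^w)`, shapes other than `v0` are
`O(|S|^{wt-2} |T|)` -/
theorem Sol.sizes (h : Sol E u) {a b : ℝ} (ha : 0 < a) (sh : Shape) (L : List Fac) :
    ∃ C, 1 ≤ C ∧ ∀ x ∈ E, x ∈ Ann a b →
      |facsVal u x L| ≤ C * √(NN u x) ^ (L.map Fac.wt).sum ∧
      (∀ k, |sh.val u x k| ≤ match sh with
        | .v0 _ => C * √(NN u x) ^ sh.wt
        | _ => C * √(NN u x) ^ (sh.wt - 2) * √(TT u x)) := by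
  obtain ⟨C1, hC1, h1⟩ := p3_facs h (a := a) (b := b) ha L
  obtain ⟨C2, hC2, h2⟩ := p3_shape h (a := a) (b := b) ha sh
  refine ⟨max C1 C2, le_max_of_le_left hC1, fun x hxE hxA => ⟨?_, fun k => ?_⟩⟩
  · exact (h1 x hxE hxA).trans (mul_le_mul_of_nonneg_right (le_max_left _ _) (by positivity))
  · refine (h2 x hxE hxA k).trans ?_
    cases sh with
    | v0 _ => exact mul_le_mul_of_nonneg_right (le_max_right _ _) (by positivity)
    | p1 _ =>
      exact mul_le_mul_of_nonneg_right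
        (mul_le_mul_of_nonneg_right (le_max_right _ _) (by positivity)) (by positivity)
    | h1 _ _ =>
      exact mul_le_mul_of_nonneg_right
        (mul_le_mul_of_nonneg_right (le_max_right _ _) (by positivity)) (by positivity)
    | h2 _ _ _ =>
      exact mul_le_mul_of_nonneg_right
        (mul_le_mul_of_nonneg_right (le_max_right _ _) (by positivity)) (by positivity)

/-- growth of an admissible term -/
theorem Sol.term_growth (h : Sol E u) {ϖ : ℚ} (h1 : 1 < ϖ) (h2 : ϖ ≤ 2) {g : Term} (hg : g.ok)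
    {a b : ℝ} (ha : 0 < a) :
    ∃ C, 1 ≤ C ∧ ∀ x ∈ E, x ∈ Ann a b → NN u x ≠ 0 → ∀ k,
      |g.field ϖ u k x| ≤ C * NN u x ^ (((ϖ : ℝ) - 1) / 2) * (√(TT u x) + √(NN u x)) := by
  obtain ⟨C1, hC1, hf⟩ := p3_facs h (a := a) (b := b) ha g.facs
  obtain ⟨C2, hC2, hsh⟩ := p3_shape h (a := a) (b := b) ha g.shape
  obtain ⟨C3, hC3, hr⟩ := p3_rb (n := n) (a := a) (b := b) ha (1 - (n : ℤ)) ((g.ex ϖ : ℚ) : ℝ)
  obtain ⟨C0, c0, hC0, _, hb⟩ := h.bounds (a := a) (b := b) ha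
  refine ⟨|(g.coef : ℝ)| * (C3 * (C1 * (C2 * C0))) + 1, ?_, ?_⟩
  · have : 0 ≤ |(g.coef : ℝ)| * (C3 * (C1 * (C2 * C0))) := by positivity
    linarith
  intro x hxE hxA hN k
  have hNN0 : 0 ≤ NN u x := Finset.sum_nonneg fun i _ => Finset.sum_nonneg fun j _ => sq_nonneg _
  have hNpos : 0 < NN u x := lt_of_le_of_ne hNN0 (Ne.symm hN)
  have hNC := (hb x hxE hxA).2.2.2.2.2.2.2.1
  have e0 : NN u x ^ (((ϖ : ℝ) - 1) / 2) = √(NN u x) ^ ((ϖ : ℝ) - 1) :=
    p3_half hNN0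
  rw [e0]
  set s := √(NN u x) with hsdef
  set τ := √(TT u x) with hτdef
  have hs0 : 0 < s := Real.sqrt_pos.2 hNpos
  have hτ0 : 0 ≤ τ := Real.sqrt_nonneg _
  have hsC : s ≤ C0 := by
    rw [hsdef]
    apply Real.sqrt_le_iff.2
    exact ⟨by linarith, by nlinarith⟩
  obtain ⟨hr0, hr1, -⟩ := hr x hxA
  have hmat := p3_match hs0 hτ0 hC0 hsC ϖ hg
  have hfx := hf x hxE hxA
  have hsx := hsh x hxE hxA k
  -- the shape
  set X : ℝ := (match g.shape with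
        | .v0 _ => s ^ g.shape.wt
        | _ => s ^ (g.shape.wt - 2) * τ) with hX
  have hX0 : 0 ≤ X := by
    rw [hX]
    cases g.shape <;> positivity
  have hsx' : |g.shape.val u x k| ≤ C2 * X := by
    refine hsx.trans (le_of_eq ?_)
    rw [hX]
    cases g.shape <;> first | rfl | exact mul_assoc _ _ _
  have hss : ss u x ^ ((g.ex ϖ : ℚ) : ℝ) = ‖x‖ ^ ((g.ex ϖ : ℚ) : ℝ) * s ^ ((g.ex ϖ : ℚ) : ℝ) := by
    unfold ss
    rw [Real.mul_rpow (norm_nonneg x) hs0.le]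
  have hse : 0 < s ^ ((g.ex ϖ : ℚ) : ℝ) := Real.rpow_pos_of_pos hs0 _
  have hrr : 0 < ‖x‖ ^ (1 - (n : ℤ)) * ‖x‖ ^ ((g.ex ϖ : ℚ) : ℝ) :=
    mul_pos (zpow_pos hr0 _) (Real.rpow_pos_of_pos hr0 _)
  have e1 : g.field ϖ u k x = (g.coef : ℝ) * ((‖x‖ ^ (1 - (n : ℤ)) * ‖x‖ ^ ((g.ex ϖ : ℚ) : ℝ)) *
      (s ^ ((g.ex ϖ : ℚ) : ℝ) * (facsVal u x g.facs * g.shape.val u x k))) := by
    unfold Term.field
    rw [hss]
    ring
  rw [e1, p3_abs hrr.le hse.le]
  have e2 : |facsVal u x g.facs| * |g.shape.val u x k| ≤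
      (C1 * s ^ (g.facs.map Fac.wt).sum) * (C2 * X) :=
    mul_le_mul hfx hsx' (abs_nonneg _) (by positivity)
  have e3 : s ^ ((g.ex ϖ : ℚ) : ℝ) * (|facsVal u x g.facs| * |g.shape.val u x k|) ≤
      C1 * (C2 * (C0 * s ^ ((ϖ : ℝ) - 1) * (τ + s))) := by
    refine (mul_le_mul_of_nonneg_left e2 hse.le).trans ?_
    have e4 : s ^ ((g.ex ϖ : ℚ) : ℝ) * ((C1 * s ^ (g.facs.map Fac.wt).sum) * (C2 * X)) =
        C1 * (C2 * (s ^ ((g.ex ϖ : ℚ) : ℝ) * s ^ (g.facs.map Fac.wt).sum * X)) := by ring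
    rw [e4]
    exact mul_le_mul_of_nonneg_left (mul_le_mul_of_nonneg_left hmat (by linarith)) (by linarith)
  have hp : 0 < s ^ ((ϖ : ℝ) - 1) := Real.rpow_pos_of_pos hs0 _
  have e5 : (‖x‖ ^ (1 - (n : ℤ)) * ‖x‖ ^ ((g.ex ϖ : ℚ) : ℝ)) *
      (s ^ ((g.ex ϖ : ℚ) : ℝ) * (|facsVal u x g.facs| * |g.shape.val u x k|)) ≤
      C3 * (C1 * (C2 * (C0 * s ^ ((ϖ : ℝ) - 1) * (τ + s)))) :=
    mul_le_mul hr1 e3 (by positivity) (by linarith)
  refine (mul_le_mul_of_nonneg_left e5 (abs_nonneg _)).trans ?_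
  have e6 : |(g.coef : ℝ)| * (C3 * (C1 * (C2 * (C0 * s ^ ((ϖ : ℝ) - 1) * (τ + s))))) =
      (|(g.coef : ℝ)| * (C3 * (C1 * (C2 * C0)))) * (s ^ ((ϖ : ℝ) - 1) * (τ + s)) := by ring
  rw [e6, mul_assoc (_ + 1 : ℝ)]
  exact mul_le_mul_of_nonneg_right (by linarith) (by positivity)

/-- growth of `F` and `W` -/
theorem Sol.growth (h : Sol E u) {ϖ : ℚ} (h1 : 1 < ϖ) (h2 : ϖ ≤ 2) {L : List Term}
    (hL : ∀ g ∈ L, g.ok) {a b : ℝ} (ha : 0 < a) :
    ∃ C, 1 ≤ C ∧ ∀ x ∈ E, x ∈ Ann a b → NN u x ≠ 0 →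
      C⁻¹ * NN u x ^ ((ϖ : ℝ) / 2) ≤ Ff ϖ u x ∧ Ff ϖ u x ≤ C * NN u x ^ ((ϖ : ℝ) / 2) ∧
      (∀ k, |pd k (Ff ϖ u) x| ≤ C * NN u x ^ (((ϖ : ℝ) - 1) / 2) * (√(TT u x) + √(NN u x))) ∧
      (∀ k, |Wfield ϖ L u k x| ≤
        C * NN u x ^ (((ϖ : ℝ) - 1) / 2) * (√(TT u x) + √(NN u x))) := by
  obtain ⟨CV, hCV, hV⟩ := p3_Vf (fun g hg => h.term_growth h1 h2 (a := a) (b := b) hg ha)
    hL
  obtain ⟨C0, c0, hC0, _, hb⟩ := h.bounds (a := a) (b := b) ha
  set ε : ℝ := (2 - (n : ℝ) + ϖ) / 2 with hε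
  obtain ⟨C3, hC3, hr3⟩ := p3_rb (n := n) (a := a) (b := b) ha 0 (2 * ε)
  obtain ⟨C4, hC4, hr4⟩ := p3_rb (n := n) (a := a) (b := b) ha 0 (2 * (ε - 1))
  set Cd : ℝ := |ε| * C4 * (2 * (|b| + 1)) + C3 * 2 with hCd
  have hCd0 : 0 ≤ Cd := by positivity
  have hpow : ∀ x : V n, x ∈ Ann a b → ∀ e' : ℝ, (‖x‖ ^ 2) ^ e' = ‖x‖ ^ (0 : ℤ) * ‖x‖ ^ (2 * e') := by
    intro x hx e'
    rw [zpow_zero, one_mul, Real.rpow_mul (norm_nonneg x)]
    norm_num
  refine ⟨C3 + Cd + (CV + C3 * C0), ?_, ?_⟩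
  · have : 0 ≤ C3 * C0 := by positivity
    linarith
  intro x hxE hxA hN
  have hNN0 := p3_NN0 u x
  have hNpos : 0 < NN u x := lt_of_le_of_ne hNN0 (Ne.symm hN)
  have hw := (hb x hxE hxA).2.2.1
  have e0 : NN u x ^ (((ϖ : ℝ) - 1) / 2) = √(NN u x) ^ ((ϖ : ℝ) - 1) := p3_half hNN0
  have e1 : NN u x ^ ((ϖ : ℝ) / 2) = √(NN u x) ^ ((ϖ : ℝ) - 1) * √(NN u x) := by
    rw [p3_half hNN0, ← Real.rpow_add_one (Real.sqrt_pos.2 hNpos).ne']
    congr 1
    ring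
  have e2 : NN u x ^ ((ϖ : ℝ) / 2 - 1) * √(NN u x) = √(NN u x) ^ ((ϖ : ℝ) - 1) := by
    have : (ϖ : ℝ) / 2 - 1 = ((ϖ : ℝ) - 2) / 2 := by ring
    rw [this, p3_half hNN0, ← Real.rpow_add_one (Real.sqrt_pos.2 hNpos).ne']
    congr 1
    ring
  have hVx := hV x hxE hxA hN
  have hFx := p3_Ff h ϖ hxE
  have hpdx := fun k => p3_pd_Ff h ϖ hxE hN k
  have hpNN : ∀ k, |pd k (NN u) x| ≤ 2 * √(NN u x) * √(TT u x) := by
    intro k
    apply abs_le_of_sq_le_sq _ (by positivity)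
    have f1 := h.pd_NN_sq_le hxE
    have f2 : (pd k (NN u) x) ^ 2 ≤ ∑ k, (pd k (NN u) x) ^ 2 :=
      Finset.single_le_sum (f := fun k => (pd k (NN u) x) ^ 2) (fun _ _ => sq_nonneg _)
        (Finset.mem_univ k)
    have f3 : (2 * √(NN u x) * √(TT u x)) ^ 2 = 4 * NN u x * TT u x := by
      rw [mul_pow, mul_pow, Real.sq_sqrt hNN0, Real.sq_sqrt (p3_TT0 u x)]
      norm_num
    rw [f3]
    exact f2.trans f1
  rw [← hε] at hFx
  simp only [← hε] at hpdx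
  rw [e0] at hVx ⊢
  obtain ⟨hr0, g1, g2⟩ := hr3 x hxA
  obtain ⟨-, g3, -⟩ := hr4 x hxA
  rw [← hpow x hxA] at g1 g2 g3
  set s := √(NN u x) with hsdef
  set τ := √(TT u x) with hτdef
  have hs0 : 0 < s := Real.sqrt_pos.2 hNpos
  have hτ0 : 0 ≤ τ := Real.sqrt_nonneg _
  have hp : 0 < s ^ ((ϖ : ℝ) - 1) := Real.rpow_pos_of_pos hs0 _
  have hNp : 0 < NN u x ^ ((ϖ : ℝ) / 2) := Real.rpow_pos_of_pos hNpos _
  set Ct : ℝ := C3 + Cd + (CV + C3 * C0) with hCt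
  have t1 : 0 ≤ C3 * C0 := by positivity
  have hC3t : C3 ≤ Ct := by linarith
  have hFle : Ff ϖ u x ≤ C3 * NN u x ^ ((ϖ : ℝ) / 2) := by
    rw [hFx]
    exact mul_le_mul_of_nonneg_right g1 hNp.le
  have hF0 : 0 ≤ Ff ϖ u x := by
    rw [hFx]
    positivity
  refine ⟨?_, ?_, ?_, ?_⟩
  · rw [hFx]
    apply mul_le_mul_of_nonneg_right _ hNp.le
    exact (inv_anti₀ (by linarith) hC3t).trans g2
  · exact hFle.trans (mul_le_mul_of_nonneg_right hC3t hNp.le)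
  · intro k
    rw [hpdx k]
    have hxk : |x k| ≤ |b| + 1 := by
      refine le_trans ?_ (p3_r hxA)
      rw [EuclideanSpace.norm_eq x]
      apply Real.abs_le_sqrt
      have h3 := Finset.single_le_sum (f := fun i => ‖x i‖ ^ 2) (fun _ _ => sq_nonneg _)
        (Finset.mem_univ k)
      simp only [Real.norm_eq_abs, sq_abs] at h3 ⊢
      exact h3
    have hq0 : 0 ≤ (‖x‖ ^ 2) ^ (ε - 1) := Real.rpow_nonneg (sq_nonneg _) _
    have hq1 : 0 ≤ (‖x‖ ^ 2) ^ ε := Real.rpow_nonneg (sq_nonneg _) _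
    have b1 : |(ε * (‖x‖ ^ 2) ^ (ε - 1) * (2 * x k)) * NN u x ^ ((ϖ : ℝ) / 2)| ≤
        (|ε| * C4 * (2 * (|b| + 1))) * (s ^ ((ϖ : ℝ) - 1) * (τ + s)) := by
      rw [e1, abs_mul, abs_mul, abs_mul, abs_mul, abs_two, abs_of_nonneg hq0,
        abs_of_nonneg (mul_nonneg hp.le hs0.le)]
      apply mul_le_mul _ _ (by positivity) (by positivity)
      · exact mul_le_mul (mul_le_mul_of_nonneg_left g3 (abs_nonneg _))
          (mul_le_mul_of_nonneg_left hxk (by norm_num)) (by positivity) (by positivity)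
      · exact mul_le_mul_of_nonneg_left (by linarith) hp.le
    have hϖ1 : |(ϖ : ℝ) / 2| ≤ 1 := by
      have k1 : (1 : ℝ) < ϖ := by exact_mod_cast h1
      have k2 : (ϖ : ℝ) ≤ 2 := by exact_mod_cast h2
      rw [abs_of_nonneg (by linarith)]
      linarith
    have b2 : |(‖x‖ ^ 2) ^ ε * ((ϖ : ℝ) / 2 * NN u x ^ ((ϖ : ℝ) / 2 - 1) * pd k (NN u) x)| ≤
        (C3 * 2) * (s ^ ((ϖ : ℝ) - 1) * (τ + s)) := by
      have hNp' : 0 < NN u x ^ ((ϖ : ℝ) / 2 - 1) := Real.rpow_pos_of_pos hNpos _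
      rw [abs_mul, abs_mul, abs_mul, abs_of_nonneg hq1, abs_of_pos hNp']
      have k3 : NN u x ^ ((ϖ : ℝ) / 2 - 1) * |pd k (NN u) x| ≤
          2 * (s ^ ((ϖ : ℝ) - 1) * (τ + s)) := by
        calc NN u x ^ ((ϖ : ℝ) / 2 - 1) * |pd k (NN u) x| ≤
              NN u x ^ ((ϖ : ℝ) / 2 - 1) * (2 * s * τ) := mul_le_mul_of_nonneg_left (hpNN k) hNp'.le
          _ = 2 * ((NN u x ^ ((ϖ : ℝ) / 2 - 1) * s) * τ) := by ring
          _ = 2 * (s ^ ((ϖ : ℝ) - 1) * τ) := by rw [e2]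
          _ ≤ 2 * (s ^ ((ϖ : ℝ) - 1) * (τ + s)) := by
              have := mul_le_mul_of_nonneg_left (show τ ≤ τ + s by linarith) hp.le
              linarith
      have k4 : |(ϖ : ℝ) / 2| * NN u x ^ ((ϖ : ℝ) / 2 - 1) * |pd k (NN u) x| ≤
          1 * (2 * (s ^ ((ϖ : ℝ) - 1) * (τ + s))) := by
        rw [mul_assoc]
        exact mul_le_mul hϖ1 k3 (by positivity) (by norm_num)
      calc (‖x‖ ^ 2) ^ ε * (|(ϖ : ℝ) / 2| * NN u x ^ ((ϖ : ℝ) / 2 - 1) * |pd k (NN u) x|) ≤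
            C3 * (1 * (2 * (s ^ ((ϖ : ℝ) - 1) * (τ + s)))) :=
            mul_le_mul g1 k4 (by positivity) (by linarith)
        _ = (C3 * 2) * (s ^ ((ϖ : ℝ) - 1) * (τ + s)) := by ring
    refine (abs_add_le _ _).trans ((add_le_add b1 b2).trans ?_)
    rw [← add_mul, ← hCd, mul_assoc Ct]
    exact mul_le_mul_of_nonneg_right (by linarith) (by positivity)
  · intro k
    have b1 : |Ff ϖ u x * w u k x| ≤ (C3 * C0) * (s ^ ((ϖ : ℝ) - 1) * (τ + s)) := by
      rw [abs_mul, abs_of_nonneg hF0]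
      calc Ff ϖ u x * |w u k x| ≤ (C3 * NN u x ^ ((ϖ : ℝ) / 2)) * C0 :=
            mul_le_mul hFle (hw k) (abs_nonneg _) (by positivity)
        _ = (C3 * C0) * (s ^ ((ϖ : ℝ) - 1) * s) := by rw [e1]; ring
        _ ≤ (C3 * C0) * (s ^ ((ϖ : ℝ) - 1) * (τ + s)) :=
            mul_le_mul_of_nonneg_left (mul_le_mul_of_nonneg_left (by linarith) hp.le)
              (by positivity)
    have e : Wfield ϖ L u k x = Vfield ϖ L u k x - Ff ϖ u x * w u k x := rfl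
    rw [e]
    refine (abs_sub _ _).trans ((add_le_add (hVx k) b1).trans ?_)
    rw [mul_assoc, mul_assoc Ct, ← add_mul]
    exact mul_le_mul_of_nonneg_right (by linarith) (by positivity)

end OPC
end
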