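import Pool.Agent.Lib.MP_9059b8_an.B05
import Pool.Agent.Lib.MP_9059b8_an.P03
import Pool.Agent.Lib.MP_9059b8_an.B5
import Pool.Agent.Lib.MP_9059b8_an.A01

section

section

/-! # B06: divergence theorem up to the free boundary -/

open MeasureTheory Set Filter Topology

namespace OPC

variable {n : ℕ} {E : Set (V n)} {u : V n → ℝ}

private theorem isClosed_Ann' (a b : ℝ) : IsClosed (Ann a b : Set (V n)) := by
  have : (Ann a b : Set (V n)) = {x | a ≤ ‖x‖} ∩ {x | ‖x‖ ≤ b} := rfl
  rw [this]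
  exact (isClosed_le continuous_const continuous_norm).inter
    (isClosed_le continuous_norm continuous_const)

private theorem pd_eq_zero_off {Z : V n → ℝ} (hE : IsOpen E) {a b : ℝ}
    (hs : ∀ x ∈ E, x ∉ Ann a b → Z x = 0) (i : Fin n) {x : V n} (hx : x ∈ E)
    (hxa : x ∉ Ann a b) : pd i Z x = 0 := by
  apply pd_zero_of_eventually
  have h1 : (Ann a b : Set (V n))ᶜ ∈ nhds x := (isClosed_Ann' a b).isOpen_compl.mem_nhds hxa
  filter_upwards [h1, hE.mem_nhds hx] with y hy1 hy2
  exact hs y hy2 hy1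

private theorem deriv_chi_one : deriv chi 1 = 0 := by
  have hc : Continuous (deriv chi) := deriv_chi_smooth.continuous
  have h1 : Tendsto (fun k : ℕ => deriv chi (1 - 1 / ((k : ℝ) + 1))) atTop (𝓝 (deriv chi 1)) := by
    have h2 : Tendsto (fun k : ℕ => (1 : ℝ) - 1 / ((k : ℝ) + 1)) atTop (𝓝 1) := by
      simpa using (tendsto_const_nhds (x := (1 : ℝ))).sub
        (tendsto_one_div_add_atTop_nhds_zero_nat (𝕜 := ℝ))
    exact (hc.tendsto 1).comp h2
  have h3 : (fun k : ℕ => deriv chi (1 - 1 / ((k : ℝ) + 1))) = fun _ => 0 := by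
    funext k
    apply deriv_chi_eq_zero
    rintro ⟨h4, _⟩
    have : 0 < 1 / ((k : ℝ) + 1) := by positivity
    linarith
  rw [h3] at h1
  exact tendsto_nhds_unique h1 tendsto_const_nhds

private theorem deriv_chi_zero_of_le {s : ℝ} (hs : s ≤ 1) : deriv chi s = 0 := by
  rcases hs.lt_or_eq with h | h
  · exact deriv_chi_eq_zero fun h' => by linarith [h'.1]
  · rw [h, deriv_chi_one]

/-- One-sided divergence theorem. If the flux `q · Y ≥ -ω - o(1)` at the free boundary, then
`∫_E div Y ≤ C ω`.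
Sketch: let `η` be the test function of `exists_tst` (`η = 1` on `Ann a b`, so `η Y = Y` and
`pd i η * Y i = 0` on `E`: on `Ann a b` the gradient of `η` is zero, except possibly on its
boundary, where `η = 1` is a maximum so the derivative vanishes too). `Sol.ibp_kcut` with `κ = chi`:
`∫_E chi(u/ε) div Y = - ε⁻¹ ∫_E chi'(u/ε) q·Y ≤ ε⁻¹ ∫_E chi'(u/ε) 1_{Ann} (ω + δ) ≤ C (ω + δ)`
(volume of the layer, `Sol.vol_layer`; `q·Y = 0` off `Ann a b`). Let `ε → 0` (dominated
convergence, `chi (u/ε) → 1` on `E`), then `δ → 0`. -/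
theorem Sol.div_le (h : Sol E u) {a b : ℝ} (ha : 0 < a) : ∃ C, 0 < C ∧
    ∀ (Y : Fin n → V n → ℝ) (ω : ℝ), 0 ≤ ω → (∀ i, ContDiffOn ℝ 1 (Y i) E) →
      (∀ i, ∀ x ∈ E, x ∉ Ann a b → Y i x = 0) →
      IntegrableOn (fun x => ∑ i, pd i (Y i) x) E →
      (∀ δ > 0, ∃ ε > 0, ∀ x ∈ E, u x < ε → -(ω + δ) ≤ ∑ i, q u i x * Y i x) →
      ∫ x in E, ∑ i, pd i (Y i) x ≤ C * ω := by
  set b' : ℝ := max b 0 with hb'
  have hb0 : 0 ≤ b' := le_max_right _ _
  obtain ⟨η, hη, hη0, hη1, hηA, hηs⟩ := exists_tst (n := n) ha hb0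
  obtain ⟨Cd, hCd1, hCd⟩ := deriv_chi_bdd
  obtain ⟨Cl, hCl0, hCl⟩ := h.layer_int (a := a / 2) (b := b' + 1) (by positivity)
  have hCd0 : 0 < Cd := by linarith
  refine ⟨Cl * Cd, mul_pos hCl0 hCd0, ?_⟩
  intro Y ω hω hY hYs hdiv hflux
  have hYs' : ∀ i, ∀ x ∈ E, x ∉ Ann a b' → Y i x = 0 := by
    intro i x hx hxa
    apply hYs i x hx
    intro hc
    exact hxa ⟨hc.1, hc.2.trans (le_max_left _ _)⟩
  -- facts on `E`
  have hE1 : ∀ x ∈ E, η x * ∑ i, pd i (Y i) x = ∑ i, pd i (Y i) x := by
    intro x hx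
    by_cases hxa : x ∈ Ann a b'
    · rw [hηA x hxa, one_mul]
    · have : ∑ i, pd i (Y i) x = 0 :=
        Finset.sum_eq_zero fun i _ => pd_eq_zero_off h.isOpen (hYs' i) i hx hxa
      rw [this, mul_zero]
  have hE2 : ∀ x ∈ E, ∑ i, pd i η x * Y i x = 0 := by
    intro x hx
    refine Finset.sum_eq_zero fun i _ => ?_
    by_cases hxa : x ∈ Ann a b'
    · have hmax : IsLocalMax η x := by
        refine Filter.Eventually.of_forall fun y => ?_
        rw [hηA x hxa]
        exact hη1 y
      have : pd i η x = 0 := by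
        unfold pd
        rw [hmax.fderiv_eq_zero]
        rfl
      rw [this, zero_mul]
    · rw [hYs' i x hx hxa, mul_zero]
  have hflux0 : ∀ x ∈ E, x ∉ Ann a b' → ∑ i, q u i x * Y i x = 0 := fun x hx hxa =>
    Finset.sum_eq_zero fun i _ => by rw [hYs' i x hx hxa, mul_zero]
  have hcontflux : ContinuousOn (fun x => ∑ i, q u i x * Y i x) E :=
    continuousOn_finset_sum _ fun i _ =>
      (h.smooth_q i).continuousOn.mul (hY i).continuousOn
  -- the main inequality for fixed `δ`
  have hmain : ∀ δ > 0, ∫ x in E, ∑ i, pd i (Y i) x ≤ Cl * Cd * (ω + δ) := by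
    intro δ hδ
    obtain ⟨ε₀, hε₀, hfl⟩ := hflux δ hδ
    have hstep : ∀ ε, 0 < ε → 2 * ε < ε₀ →
        ∫ x in E, chi (u x / ε) * ∑ i, pd i (Y i) x ≤ Cl * Cd * (ω + δ) := by
      intro ε hε hεε
      have hibp := h.ibp_kcut chi_smooth (fun s hs => chi_eq_zero hs) hη hε hY
      have e1 : ∫ x in E, chi (u x / ε) * η x * ∑ i, pd i (Y i) x =
          ∫ x in E, chi (u x / ε) * ∑ i, pd i (Y i) x := by
        refine setIntegral_congr_fun h.isOpen.measurableSet fun x hx => ?_
        change chi (u x / ε) * η x * ∑ i, pd i (Y i) x = chi (u x / ε) * ∑ i, pd i (Y i) x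
        rw [mul_assoc, hE1 x hx]
      have e2 : ∫ x in E, chi (u x / ε) * ∑ i, pd i η x * Y i x = 0 := by
        rw [setIntegral_congr_fun (g := fun _ => (0 : ℝ)) h.isOpen.measurableSet]
        · simp
        · intro x hx
          change chi (u x / ε) * ∑ i, pd i η x * Y i x = 0
          rw [hE2 x hx, mul_zero]
      rw [e1, e2, neg_zero, zero_sub] at hibp
      rw [hibp]
      -- comparison function
      obtain ⟨hζT, hζs⟩ := h.kcut_tst (κ := deriv chi) deriv_chi_smooth
        (fun s hs => deriv_chi_zero_of_le hs) hη hε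
      have hI1 : IntegrableOn (fun x => deriv chi (u x / ε) * η x *
          ∑ i, q u i x * Y i x) E :=
        (integrable_mul_of_tsupport h.isOpen hζT.smooth.continuous hζT.cpt hζs
          hcontflux).integrableOn
      have hI2 : IntegrableOn (fun x => deriv chi (u x / ε) * η x * (ω + δ)) E :=
        (integrable_mul_of_tsupport h.isOpen hζT.smooth.continuous hζT.cpt hζs
          (continuousOn_const (c := ω + δ))).integrableOn
      have hωδ : 0 ≤ ω + δ := by linarith
      have hle : -∫ x in E, deriv chi (u x / ε) * η x * ∑ i, q u i x * Y i x ≤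
          ∫ x in E, deriv chi (u x / ε) * η x * (ω + δ) := by
        rw [← integral_neg]
        refine setIntegral_mono_on hI1.neg hI2 h.isOpen.measurableSet fun x hx => ?_
        have hc0 : 0 ≤ deriv chi (u x / ε) * η x := mul_nonneg (deriv_chi_nonneg _) (hη0 x)
        by_cases hxa : x ∈ Ann a b'
        · by_cases hux : u x < ε₀
          · have := hfl x hx hux
            nlinarith
          · have hz : deriv chi (u x / ε) = 0 := by
              apply deriv_chi_eq_zero
              rintro ⟨_, h2⟩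
              rw [div_le_iff₀ hε] at h2
              exact hux (by linarith)
            simp only [hz, zero_mul, neg_zero, le_refl]
        · rw [hflux0 x hx hxa, mul_zero, neg_zero]
          exact mul_nonneg hc0 hωδ
      have hl := hCl (fun x => deriv chi (u x / ε) * η x * (ω + δ)) ε (Cd * (ω + δ)) hε
        (mul_nonneg hCd0.le hωδ) (by
          intro x _ _ _
          rw [abs_mul, abs_mul, abs_of_nonneg hωδ, abs_of_nonneg (hη0 x)]
          have h1 := hCd (u x / ε)
          have h2 := hη1 x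
          have h3 := hη0 x
          have h4 : |deriv chi (u x / ε)| * η x ≤ Cd * 1 :=
            mul_le_mul h1 h2 h3 hCd0.le
          calc |deriv chi (u x / ε)| * η x * (ω + δ) ≤ Cd * 1 * (ω + δ) :=
                mul_le_mul_of_nonneg_right h4 hωδ
            _ = Cd * (ω + δ) := by ring)
        (by
          intro x _ hx2
          rcases hx2 with hx2 | hx2
          · have : η x = 0 := by
              by_contra hne
              exact hx2 (hηs (subset_tsupport η hne))
            simp only [this, mul_zero, zero_mul]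
          · have : deriv chi (u x / ε) = 0 := by
              apply deriv_chi_eq_zero
              rintro ⟨_, h2⟩
              rw [div_le_iff₀ hε] at h2
              linarith
            simp only [this, zero_mul])
      calc -(ε⁻¹ * ∫ x in E, deriv chi (u x / ε) * η x * ∑ i, q u i x * Y i x)
          = ε⁻¹ * (-∫ x in E, deriv chi (u x / ε) * η x * ∑ i, q u i x * Y i x) := by ring
        _ ≤ ε⁻¹ * ∫ x in E, deriv chi (u x / ε) * η x * (ω + δ) :=
            mul_le_mul_of_nonneg_left hle (by positivity)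
        _ ≤ |ε⁻¹ * ∫ x in E, deriv chi (u x / ε) * η x * (ω + δ)| := le_abs_self _
        _ ≤ Cl * (Cd * (ω + δ)) := hl
        _ = Cl * Cd * (ω + δ) := by ring
    -- the limit `ε → 0`
    have hlim : Tendsto (fun k : ℕ => ∫ x in E, chi (u x / (1 / ((k : ℝ) + 1))) *
        ∑ i, pd i (Y i) x) atTop (𝓝 (∫ x in E, ∑ i, pd i (Y i) x)) := by
      refine tendsto_integral_of_dominated_convergence (fun x => |∑ i, pd i (Y i) x|) ?_ ?_ ?_ ?_
      · intro k
        refine AEStronglyMeasurable.mul ?_ hdiv.1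
        exact (chi_smooth.continuous.comp (h.cont.div_const _)).aestronglyMeasurable
      · exact hdiv.abs
      · intro k
        refine Filter.Eventually.of_forall fun x => ?_
        rw [Real.norm_eq_abs, abs_mul, abs_of_nonneg (chi_nonneg _)]
        exact mul_le_of_le_one_left (abs_nonneg _) (chi_le_one _)
      · filter_upwards [ae_restrict_mem h.isOpen.measurableSet] with x hx
        have hux := h.pos x hx
        have hev : ∀ᶠ k : ℕ in atTop, chi (u x / (1 / ((k : ℝ) + 1))) * ∑ i, pd i (Y i) x =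
            ∑ i, pd i (Y i) x := by
          obtain ⟨N, hN⟩ := exists_nat_gt (2 / u x)
          filter_upwards [eventually_ge_atTop N] with k hk
          have hk' : (N : ℝ) ≤ k := by exact_mod_cast hk
          have h2 : 2 ≤ u x / (1 / ((k : ℝ) + 1)) := by
            rw [div_div_eq_mul_div, div_one]
            have h3 : 2 / u x ≤ (k : ℝ) + 1 := by linarith
            rw [div_le_iff₀ hux] at h3
            linarith
          rw [chi_eq_one h2, one_mul]
        exact (tendsto_const_nhds (x := ∑ i, pd i (Y i) x)).congr'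
          (hev.mono fun k hk => hk.symm)
    refine le_of_tendsto hlim ?_
    obtain ⟨N, hN⟩ := exists_nat_gt (2 / ε₀)
    filter_upwards [eventually_ge_atTop N] with k hk
    have hk' : (N : ℝ) ≤ k := by exact_mod_cast hk
    apply hstep
    · positivity
    · have h3 : 2 / ε₀ < (k : ℝ) + 1 := by linarith
      rw [div_lt_iff₀ hε₀] at h3
      rw [mul_one_div, div_lt_iff₀ (by positivity)]
      linarith
  -- `δ → 0`
  refine le_of_forall_pos_le_add fun t ht => ?_
  have hCC : 0 < Cl * Cd := mul_pos hCl0 hCd0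
  have := hmain (t / (Cl * Cd)) (div_pos ht hCC)
  rw [mul_add, mul_div_cancel₀ _ hCC.ne'] at this
  exact this

/-- Two-sided version (apply `Sol.div_le` to `Y` and `-Y`). -/
theorem Sol.div_abs_le (h : Sol E u) {a b : ℝ} (ha : 0 < a) : ∃ C, 0 < C ∧
    ∀ (Y : Fin n → V n → ℝ) (ω : ℝ), 0 ≤ ω → (∀ i, ContDiffOn ℝ 1 (Y i) E) →
      (∀ i, ∀ x ∈ E, x ∉ Ann a b → Y i x = 0) →
      IntegrableOn (fun x => ∑ i, pd i (Y i) x) E →
      (∀ δ > 0, ∃ ε > 0, ∀ x ∈ E, u x < ε → |∑ i, q u i x * Y i x| ≤ ω + δ) →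
      |∫ x in E, ∑ i, pd i (Y i) x| ≤ C * ω := by
  obtain ⟨C, hC, H⟩ := h.div_le (a := a) (b := b) ha
  refine ⟨C, hC, fun Y ω hω hY hs hi hf => ?_⟩
  have e1 : ∀ x, ∑ i, pd i (fun y => -Y i y) x = -∑ i, pd i (Y i) x := by
    intro x
    rw [← Finset.sum_neg_distrib]
    exact Finset.sum_congr rfl fun i _ => pd_neg i
  rw [abs_le]
  constructor
  · have h2 := H (fun i y => -Y i y) ω hω (fun i => (hY i).neg)
      (fun i x hx hxa => by simp only [hs i x hx hxa, neg_zero])
      (by simp only [e1]; exact hi.neg)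
      (fun δ hδ => by
        obtain ⟨ε, hε, h3⟩ := hf δ hδ
        refine ⟨ε, hε, fun x hx hux => ?_⟩
        have h4 := (abs_le.1 (h3 x hx hux)).2
        have h5 : ∑ i, q u i x * -Y i x = -∑ i, q u i x * Y i x := by
          rw [← Finset.sum_neg_distrib]
          exact Finset.sum_congr rfl fun i _ => by ring
        rw [h5]
        linarith)
    simp only [e1] at h2
    rw [integral_neg] at h2
    linarith
  · exact H Y ω hω hY hs hi fun δ hδ => by
      obtain ⟨ε, hε, h3⟩ := hf δ hδ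
      exact ⟨ε, hε, fun x hx hux => (abs_le.1 (h3 x hx hux)).1⟩

/-- Zero flux version. -/
theorem Sol.div_zero (h : Sol E u) {a b : ℝ} (ha : 0 < a) {Y : Fin n → V n → ℝ}
    (hY : ∀ i, ContDiffOn ℝ 1 (Y i) E)
    (hs : ∀ i, ∀ x ∈ E, x ∉ Ann a b → Y i x = 0)
    (hi : IntegrableOn (fun x => ∑ i, pd i (Y i) x) E)
    (hf : ∀ δ > 0, ∃ ε > 0, ∀ x ∈ E, u x < ε → |∑ i, q u i x * Y i x| ≤ δ) :
    ∫ x in E, ∑ i, pd i (Y i) x = 0 := by
  obtain ⟨C, hC, H⟩ := h.div_abs_le (a := a) (b := b) ha
  have := H Y 0 le_rfl hY hs hi (by simpa using hf)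
  rw [mul_zero] at this
  exact abs_eq_zero.1 (le_antisymm this (abs_nonneg _))

end OPC
end

section

/-! # G05: the energy density -/

open MeasureTheory Set Filter Topology

namespace OPC

variable {n : ℕ} {E : Set (V n)} {u : V n → ℝ}

/-- partial derivatives of `u(x + tΨ x)` -/
private theorem pd_comp_shift (h : Sol E u) {Ψ : V n → V n} (hΨ : ContDiff ℝ (⊤ : ℕ∞) Ψ) (t : ℝ)
    (x : V n) (j : Fin n) :
    pd j (fun y => u (y + t • Ψ y)) x =
      ∑ i, qt E u i (x + t • Ψ x) * ((if i = j then 1 else 0) + t * pd j (fun y => Ψ y i) x) := by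
  have hΨd : DifferentiableAt ℝ Ψ x := (hΨ.differentiable (by simp)) x
  by_cases hx : x + t • Ψ x ∈ E
  · have hu : DifferentiableAt ℝ u (x + t • Ψ x) := diffAt h.isOpen h.smooth hx
    have hφ : HasFDerivAt (fun y : V n => y + t • Ψ y)
        (ContinuousLinearMap.id ℝ (V n) + t • fderiv ℝ Ψ x) x :=
      (hasFDerivAt_id x).add (hΨd.hasFDerivAt.const_smul t)
    have hcomp : HasFDerivAt (fun y => u (y + t • Ψ y))
        ((fderiv ℝ u (x + t • Ψ x)).comp (ContinuousLinearMap.id ℝ (V n) + t • fderiv ℝ Ψ x)) x :=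
      hu.hasFDerivAt.comp x hφ
    unfold pd
    rw [hcomp.fderiv]
    have e1 : ((fderiv ℝ u (x + t • Ψ x)).comp
        (ContinuousLinearMap.id ℝ (V n) + t • fderiv ℝ Ψ x)) (e j) =
        fderiv ℝ u (x + t • Ψ x) (e j + t • fderiv ℝ Ψ x (e j)) := rfl
    rw [e1, fderiv_apply_eq_sum]
    refine Finset.sum_congr rfl fun i _ => ?_
    have e2 : qt E u i (x + t • Ψ x) = pd i u (x + t • Ψ x) := Set.indicator_of_mem hx _
    have e3 : (e j + t • fderiv ℝ Ψ x (e j) : V n) i =
        (if i = j then 1 else 0) + t * (fderiv ℝ Ψ x (e j)) i := by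
      simp [e, Pi.single_apply]
    have e4 : fderiv ℝ (fun y => Ψ y i) x (e j) = (fderiv ℝ Ψ x (e j)) i := by
      have h5 : HasFDerivAt (fun y => Ψ y i)
          ((EuclideanSpace.proj i : V n →L[ℝ] ℝ).comp (fderiv ℝ Ψ x)) x :=
        (EuclideanSpace.proj i : V n →L[ℝ] ℝ).hasFDerivAt.comp x hΨd.hasFDerivAt
      rw [h5.fderiv]
      rfl
    rw [e2, e3, e4, mul_comm]
  · have hmin : IsLocalMin (fun y => u (y + t • Ψ y)) x := by
      refine Filter.Eventually.of_forall fun y => ?_
      show u (x + t • Ψ x) ≤ u (y + t • Ψ y)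
      rw [h.zero _ hx]
      exact h.nonneg _
    unfold pd
    rw [hmin.fderiv_eq_zero]
    have e2 : ∀ i, qt E u i (x + t • Ψ x) = 0 := fun i => Set.indicator_of_notMem hx _
    simp [e2]

/-- Chain rule for `u(x + tΨ x)`, valid for ALL `x`.
Sketch: if `x + tΨ x ∈ E`: chain rule, `u` is differentiable there. Otherwise `u (x + tΨ x) = 0`,
and `u ≥ 0`, so `x` is a local minimum of `y ↦ u (y + tΨ y)` and `fderiv = 0`
(`IsLocalMin.fderiv_eq_zero`). Then expand `‖·‖² = ∑_j (∑_i qt_i (δ_ij + t ∂_jΨ_i))²`. -/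
theorem Sol.energy_density (h : Sol E u) {Ψ : V n → V n} (hΨ : ContDiff ℝ (⊤ : ℕ∞) Ψ) (t : ℝ)
    (x : V n) :
    ‖fderiv ℝ (fun y => u (y + t • Ψ y)) x‖ ^ 2 =
      ∑ i, ∑ j, (qt E u i (x + t • Ψ x) * qt E u j (x + t • Ψ x)) *
        ((if i = j then 1 else 0) + t * (pd j (fun y => Ψ y i) x + pd i (fun y => Ψ y j) x)
          + t ^ 2 * ∑ l, pd l (fun y => Ψ y i) x * pd l (fun y => Ψ y j) x) := by
  rw [norm_fderiv_sq]
  have h1 : ∀ l, (pd l (fun y => u (y + t • Ψ y)) x) ^ 2 =
      ∑ i, ∑ j, (qt E u i (x + t • Ψ x) * qt E u j (x + t • Ψ x)) *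
        (((if i = l then 1 else 0) + t * pd l (fun y => Ψ y i) x) *
          ((if j = l then 1 else 0) + t * pd l (fun y => Ψ y j) x)) := by
    intro l
    rw [pd_comp_shift h hΨ t x l, sq, Finset.sum_mul_sum]
    refine Finset.sum_congr rfl fun i _ => Finset.sum_congr rfl fun j _ => ?_
    ring
  rw [Finset.sum_congr rfl fun l _ => h1 l, Finset.sum_comm]
  refine Finset.sum_congr rfl fun i _ => ?_
  rw [Finset.sum_comm]
  refine Finset.sum_congr rfl fun j _ => ?_
  rw [← Finset.mul_sum]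
  congr 1
  have h2 : ∀ l, ((if i = l then (1 : ℝ) else 0) + t * pd l (fun y => Ψ y i) x) *
      ((if j = l then 1 else 0) + t * pd l (fun y => Ψ y j) x) =
      (if i = l then (if j = l then 1 else 0) else 0) +
      (if j = l then t * pd l (fun y => Ψ y i) x else 0) +
      (if i = l then t * pd l (fun y => Ψ y j) x else 0) +
      t ^ 2 * (pd l (fun y => Ψ y i) x * pd l (fun y => Ψ y j) x) := by
    intro l
    split_ifs <;> ring
  rw [Finset.sum_congr rfl fun l _ => h2 l, Finset.sum_add_distrib, Finset.sum_add_distrib,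
    Finset.sum_add_distrib, Finset.sum_ite_eq, Finset.sum_ite_eq, Finset.sum_ite_eq, ← Finset.mul_sum]
  simp only [Finset.mem_univ, if_true]
  have h3 : (if j = i then (1 : ℝ) else 0) = if i = j then 1 else 0 := by
    by_cases hij : i = j
    · subst hij
      rfl
    · rw [if_neg hij, if_neg (Ne.symm hij)]
  rw [h3]
  ring

/-- the cutoff functions are `C¹` -/
private theorem contDiff_chi_mul (h : Sol E u) {g : V n → ℝ} (hg : ContDiffOn ℝ (⊤ : ℕ∞) g E) (m : ℕ) :
    ContDiff ℝ 1 (fun x => chi (((m : ℝ) + 1) * u x) * E.indicator g x) := by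
  have hm : (0 : ℝ) < (m : ℝ) + 1 := by positivity
  rw [contDiff_iff_contDiffAt]
  intro x
  by_cases hx : x ∈ E
  · have hu : ContDiffAt ℝ (⊤ : ℕ∞) u x := h.smooth.contDiffAt (h.isOpen.mem_nhds hx)
    have hg' : ContDiffAt ℝ (⊤ : ℕ∞) g x := hg.contDiffAt (h.isOpen.mem_nhds hx)
    have h1 : ContDiffAt ℝ (⊤ : ℕ∞) (fun y => chi (((m : ℝ) + 1) * u y)) x :=
      chi_smooth.contDiffAt.comp x (contDiffAt_const.mul hu)
    have h2 : ContDiffAt ℝ 1 (fun y => chi (((m : ℝ) + 1) * u y) * g y) x :=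
      (h1.mul hg').of_le one_le_top'
    refine h2.congr_of_eventuallyEq ?_
    filter_upwards [h.isOpen.mem_nhds hx] with y hy
    rw [Set.indicator_of_mem hy]
  · have h0 : u x = 0 := h.zero x hx
    have h1 : ∀ᶠ y in 𝓝 x, u y < 1 / ((m : ℝ) + 1) := by
      have h2 : u x < 1 / ((m : ℝ) + 1) := by
        rw [h0]
        positivity
      exact h.cont.continuousAt.eventually (Iio_mem_nhds h2)
    have h3 : (fun y => chi (((m : ℝ) + 1) * u y) * E.indicator g y) =ᶠ[𝓝 x] fun _ => (0 : ℝ) := by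
      filter_upwards [h1] with y hy
      have h4 : ((m : ℝ) + 1) * u y ≤ 1 := by
        have h5 := (lt_div_iff₀ hm).1 hy
        rw [mul_comm] at h5
        exact h5.le
      rw [chi_eq_zero h4, zero_mul]
    exact contDiffAt_const.congr_of_eventuallyEq h3

private theorem tendsto_chi_mul (h : Sol E u) (g : V n → ℝ) (x : V n) :
    Tendsto (fun m : ℕ => chi (((m : ℝ) + 1) * u x) * E.indicator g x) atTop (𝓝 (E.indicator g x)) := by
  by_cases hx : x ∈ E
  · have hpos : 0 < u x := h.pos x hx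
    obtain ⟨N, hN⟩ := exists_nat_ge (2 / u x)
    refine tendsto_const_nhds.congr' ?_
    filter_upwards [eventually_ge_atTop N] with m hm
    have h1 : (2 : ℝ) ≤ ((m : ℝ) + 1) * u x := by
      have h2 : (N : ℝ) ≤ m := by exact_mod_cast hm
      have h3 : 2 / u x ≤ (m : ℝ) + 1 := by linarith
      exact (div_le_iff₀ hpos).1 h3
    rw [chi_eq_one h1, one_mul]
  · rw [Set.indicator_of_notMem hx]
    simp only [mul_zero]
    exact tendsto_const_nhds

private theorem appr_of (h : Sol E u) {g : V n → ℝ} (hg : ContDiffOn ℝ (⊤ : ℕ∞) g E)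
    (hb : ∀ x ∈ E, |g x| ≤ 1) : Appr (E.indicator g) := by
  refine ⟨1, fun m x => chi (((m : ℝ) + 1) * u x) * E.indicator g x,
    fun m => contDiff_chi_mul h hg m, ?_, tendsto_chi_mul h g⟩
  intro m x
  rw [abs_mul, abs_of_nonneg (chi_nonneg _)]
  have h1 : |E.indicator g x| ≤ 1 := by
    by_cases hx : x ∈ E
    · rw [Set.indicator_of_mem hx]
      exact hb x hx
    · rw [Set.indicator_of_notMem hx, abs_zero]
      exact zero_le_one
  calc chi (((m : ℝ) + 1) * u x) * |E.indicator g x| ≤ 1 * 1 :=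
        mul_le_mul (chi_le_one _) h1 (abs_nonneg _) zero_le_one
    _ = 1 := one_mul 1

/-- `q̃_i q̃_j` is a bounded pointwise limit of `C¹` functions: `chi (m u) q_i q_j`
(`C¹` on `ℝ^n`: supported in the closed set `{1/m ≤ u} ⊆ E`; bounded by `Sol.gg_le_one`). -/
theorem Sol.appr_q (h : Sol E u) (hn : 2 ≤ n) (i j : Fin n) :
    Appr (fun x => qt E u i x * qt E u j x) := by
  have e1 : (fun x => qt E u i x * qt E u j x) = E.indicator (fun x => q u i x * q u j x) := by
    funext x
    by_cases hx : x ∈ E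
    · rw [Set.indicator_of_mem hx]
      unfold qt
      rw [Set.indicator_of_mem hx, Set.indicator_of_mem hx]
    · rw [Set.indicator_of_notMem hx]
      unfold qt
      rw [Set.indicator_of_notMem hx, zero_mul]
  rw [e1]
  refine appr_of h ((h.smooth_q i).mul (h.smooth_q j)) ?_
  intro x hx
  have hq : ∀ k, |q u k x| ≤ 1 := by
    intro k
    have h1 : (q u k x) ^ 2 ≤ gg u x :=
      Finset.single_le_sum (f := fun k => (q u k x) ^ 2) (fun k _ => sq_nonneg _) (Finset.mem_univ k)
    have h2 := h1.trans (h.gg_le_one hn hx)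
    exact (sq_le_one_iff_abs_le_one _).1 h2
  rw [abs_mul]
  calc |q u i x| * |q u j x| ≤ 1 * 1 := mul_le_mul (hq i) (hq j) (abs_nonneg _) zero_le_one
    _ = 1 := one_mul 1

theorem Sol.appr_ind (h : Sol E u) : Appr (Set.indicator {y | 0 < u y} (fun _ => (1 : ℝ))) := by
  rw [← h.eq_pos]
  exact appr_of h contDiffOn_const fun x _ => by rw [abs_one]

end OPC
end

section

/-! # G07: first variation -/

open MeasureTheory Set Filter Topology

namespace OPC

variable {n : ℕ} {E : Set (V n)} {u : V n → ℝ}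

/-- a common annulus -/
private theorem g07_ann {X : Fin n → V n → ℝ} (hX : ∀ i, Tst (X i)) :
    ∃ a b : ℝ, 0 < a ∧ ∀ i, tsupport (X i) ⊆ Ann a b := by
  choose a b ha hab hs using fun i => (hX i).ann
  have h1 : ∀ᶠ t in 𝓝[>] (0 : ℝ), ∀ i, t ≤ a i := by
    refine eventually_all.2 fun i => ?_
    filter_upwards [nhdsWithin_le_nhds (Iio_mem_nhds (ha i))] with t ht using le_of_lt ht
  obtain ⟨a0, h2, h3⟩ := (h1.and self_mem_nhdsWithin).exists
  have h4 : ∀ᶠ t in (atTop : Filter ℝ), ∀ i, b i ≤ t :=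
    eventually_all.2 fun i => eventually_ge_atTop (b i)
  obtain ⟨b0, h5⟩ := h4.exists
  exact ⟨a0, b0, h3, fun i x hx => ⟨(h2 i).trans (hs i hx).1, (hs i hx).2.trans (h5 i)⟩⟩

private theorem g07_ann_closed (a b : ℝ) : IsClosed (Ann a b : Set (V n)) :=
  (isClosed_le continuous_const continuous_norm).inter
    (isClosed_le continuous_norm continuous_const)

private theorem g07_ann_sub (a b : ℝ) : (Ann a b : Set (V n)) ⊆ Metric.closedBall 0 b := by
  intro x hx
  rw [mem_closedBall_zero_iff]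
  exact hx.2

private theorem g07_ann_cpt (a b : ℝ) : IsCompact (Ann a b : Set (V n)) :=
  (isCompact_closedBall (0 : V n) b).of_isClosed_subset (g07_ann_closed a b) (g07_ann_sub a b)

/-- bounded functions supported in an annulus are integrable -/
private theorem g07_int (hE : IsOpen E) {f : V n → ℝ} {a b M : ℝ} (hf : ContinuousOn f E)
    (hs : ∀ x ∈ E, x ∉ Ann a b → f x = 0) (hb : ∀ x ∈ E, x ∈ Ann a b → |f x| ≤ M) :
    IntegrableOn f E := by
  have hEm : MeasurableSet E := hE.measurableSet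
  have hAm : MeasurableSet (Ann a b : Set (V n)) := (g07_ann_closed a b).measurableSet
  have h1 : AEStronglyMeasurable f (volume.restrict E) := hf.aestronglyMeasurable hEm
  have h2 : IntegrableOn f (E ∩ Ann a b) := by
    haveI : IsFiniteMeasure (volume.restrict (E ∩ (Ann a b : Set (V n)))) := ⟨by
      rw [Measure.restrict_apply_univ]
      exact (measure_mono (inter_subset_right.trans (g07_ann_sub a b))).trans_lt
        measure_closedBall_lt_top⟩
    refine Integrable.of_bound (h1.mono_set inter_subset_left) M ?_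
    exact ae_restrict_of_forall_mem (hEm.inter hAm) fun x hx => by
      rw [Real.norm_eq_abs]; exact hb x hx.1 hx.2
  have h3 : IntegrableOn f (E \ Ann a b) := by
    refine (integrableOn_zero (ε' := ℝ)).congr_fun (fun x hx => (hs x hx.1 hx.2).symm)
      (hEm.diff hAm)
  rw [← inter_union_sdiff E (Ann a b)]
  exact h2.union h3

/-- First variation: for smooth `X` with compact support away from `0`,
`∫_E 2 ∑ ∂_j X_i q_i q_j - (gg + 1) div X = 0`.
Sketch: `Sol.div_zero` for `Y_j = 2 (X·q) q_j - (gg + 1) X_j`: `div Y` is the integrand (`Sol.pd_gg`,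
`h.tr_S`) and `q·Y = (X·q)(gg - 1) → 0` (`Sol.lay_gg`). -/
theorem Sol.first_var (h : Sol E u) {X : Fin n → V n → ℝ} (hX : ∀ i, Tst (X i)) :
    ∫ x in E, (2 * ∑ i, ∑ j, pd j (X i) x * q u i x * q u j x
      - (gg u x + 1) * ∑ i, pd i (X i) x) = 0 := by
  obtain ⟨a, b, ha, hs⟩ := g07_ann hX
  have hE := h.isOpen
  have hX0 : ∀ i x, x ∉ (Ann a b : Set (V n)) → X i x = 0 := fun i x hx =>
    image_eq_zero_of_notMem_tsupport (fun hc => hx (hs i hc))
  have hdX : ∀ i (x : V n), DifferentiableAt ℝ (X i) x := fun i x =>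
    (hX i).smooth.contDiffAt.differentiableAt (by simp)
  have hX1 : ∀ i, ContDiffOn ℝ 1 (X i) E := fun i =>
    ((hX i).smooth.of_le one_le_top').contDiffOn
  have hq1 : ∀ i, ContDiffOn ℝ 1 (q u i) E := fun i => (h.smooth_q i).of_le one_le_top'
  have hg1 : ContDiffOn ℝ 1 (gg u) E := h.smooth_gg.of_le one_le_top'
  -- the field
  set Y : Fin n → V n → ℝ := fun j y =>
    2 * (∑ i, X i y * q u i y) * q u j y - (gg u y + 1) * X j y with hYdef
  have hG1 : ContDiffOn ℝ 1 (fun y => ∑ i, X i y * q u i y) E :=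
    ContDiffOn.sum fun i _ => (hX1 i).mul (hq1 i)
  have hY : ∀ j, ContDiffOn ℝ 1 (Y j) E := fun j =>
    ((contDiffOn_const.mul hG1).mul (hq1 j)).sub ((hg1.add contDiffOn_const).mul (hX1 j))
  have hYs : ∀ j, ∀ x ∈ E, x ∉ Ann a b → Y j x = 0 := by
    intro j x _ hx
    simp only [hYdef]
    rw [hX0 j x hx, Finset.sum_eq_zero (fun i _ => by rw [hX0 i x hx, zero_mul])]
    ring
  -- divergence
  have hdiv : ∀ x ∈ E, ∑ j, pd j (Y j) x = 2 * ∑ i, ∑ j, pd j (X i) x * q u i x * q u j x
      - (gg u x + 1) * ∑ i, pd i (X i) x := by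
    intro x hx
    have dq : ∀ i, DifferentiableAt ℝ (q u i) x := fun i => h.diff_q i hx
    have dg : DifferentiableAt ℝ (gg u) x := diffAt hE h.smooth_gg hx
    have dG : DifferentiableAt ℝ (fun y => ∑ i, X i y * q u i y) x :=
      DifferentiableAt.fun_sum fun i _ => (hdX i x).mul (dq i)
    have e1 : ∀ j, pd j (fun y => ∑ i, X i y * q u i y) x =
        ∑ i, (pd j (X i) x * q u i x + X i x * S u j i x) := by
      intro j
      rw [pd_sum Finset.univ (f := fun i y => X i y * q u i y)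
        (fun i _ => (hdX i x).mul (dq i)) j]
      refine Finset.sum_congr rfl fun i _ => ?_
      rw [pd_mul (hdX i x) (dq i), pd_q]
    have e2 : ∀ j, pd j (Y j) x =
        2 * (∑ i, (pd j (X i) x * q u i x + X i x * S u j i x)) * q u j x +
          2 * (∑ i, X i x * q u i x) * S u j j x
        - (2 * w u j x * X j x + (gg u x + 1) * pd j (X j) x) := by
      intro j
      simp only [hYdef]
      rw [pd_sub (f := fun y => 2 * (∑ i, X i y * q u i y) * q u j y)
        (g := fun y => (gg u y + 1) * X j y) ((dG.const_mul 2).mul (dq j))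
        ((dg.add_const 1).mul (hdX j x)) j]
      rw [pd_mul (f := fun y => 2 * (∑ i, X i y * q u i y)) (g := q u j) (dG.const_mul 2) (dq j),
        pd_const_mul (f := fun y => ∑ i, X i y * q u i y), e1 j, pd_q,
        pd_mul (f := fun y => gg u y + 1) (g := X j) (dg.add_const 1) (hdX j x),
        pd_add (f := gg u) (g := fun _ => (1 : ℝ)) dg (differentiableAt_const _), pd_const,
        h.pd_gg j hx, add_zero]
    rw [Finset.sum_congr rfl (fun j _ => e2 j)]
    have e3 : ∑ j, (2 * (∑ i, X i x * q u i x) * S u j j x) = 0 := by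
      rw [← Finset.mul_sum, h.tr_S hx, mul_zero]
    have e4 : ∑ j, 2 * (∑ i, (pd j (X i) x * q u i x + X i x * S u j i x)) * q u j x =
        2 * ∑ i, ∑ j, pd j (X i) x * q u i x * q u j x + ∑ i, 2 * w u i x * X i x := by
      have e5 : ∀ j, 2 * (∑ i, (pd j (X i) x * q u i x + X i x * S u j i x)) * q u j x =
          ∑ i, (2 * (pd j (X i) x * q u i x * q u j x) + 2 * (X i x * S u j i x * q u j x)) := by
        intro j
        rw [Finset.mul_sum, Finset.sum_mul]
        exact Finset.sum_congr rfl fun i _ => by ring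
      rw [Finset.sum_congr rfl (fun j _ => e5 j), Finset.sum_comm, Finset.mul_sum,
        ← Finset.sum_add_distrib]
      refine Finset.sum_congr rfl fun i _ => ?_
      rw [Finset.sum_add_distrib, Finset.mul_sum]
      congr 1
      unfold w
      rw [Finset.mul_sum, Finset.sum_mul]
      refine Finset.sum_congr rfl fun j _ => ?_
      rw [h.S_symm j i hx]
      ring
    rw [Finset.sum_sub_distrib, Finset.sum_add_distrib, e3, e4, Finset.sum_add_distrib,
      ← Finset.mul_sum]
    ring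
  -- bounds
  obtain ⟨C, c, hC, -, hbd⟩ := h.bounds (a := a) (b := b) ha
  have hC0 : (0 : ℝ) ≤ C := by linarith
  obtain ⟨K, hK⟩ : ∃ K : ℝ, ∀ i j, ∀ x ∈ (Ann a b : Set (V n)), |pd j (X i) x| ≤ K := by
    have h1 : ∀ i j, ∃ K : ℝ, ∀ x ∈ (Ann a b : Set (V n)), |pd j (X i) x| ≤ K := by
      intro i j
      have hc : Continuous (pd j (X i)) :=
        (contDiff_pd (m := 0) (hX i).smooth (by simp) j).continuous
      obtain ⟨K, hK⟩ := (g07_ann_cpt a b).exists_bound_of_continuousOn hc.continuousOn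
      exact ⟨K, fun x hx => by simpa using hK x hx⟩
    choose K hK using h1
    have h4 : ∀ᶠ t in (atTop : Filter ℝ), ∀ i j, K i j ≤ t :=
      eventually_all.2 fun i => eventually_all.2 fun j => eventually_ge_atTop _
    obtain ⟨K0, h5⟩ := h4.exists
    exact ⟨K0, fun i j x hx => (hK i j x hx).trans (h5 i j)⟩
  obtain ⟨K', hK'⟩ : ∃ K : ℝ, ∀ i, ∀ x ∈ (Ann a b : Set (V n)), |X i x| ≤ K := by
    have h1 : ∀ i, ∃ K : ℝ, ∀ x ∈ (Ann a b : Set (V n)), |X i x| ≤ K := by
      intro i
      obtain ⟨K, hK⟩ := (g07_ann_cpt a b).exists_bound_of_continuousOn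
        (hX i).smooth.continuous.continuousOn
      exact ⟨K, fun x hx => by simpa using hK x hx⟩
    choose K hK using h1
    have h4 : ∀ᶠ t in (atTop : Filter ℝ), ∀ i, K i ≤ t :=
      eventually_all.2 fun i => eventually_ge_atTop _
    obtain ⟨K0, h5⟩ := h4.exists
    exact ⟨K0, fun i x hx => (hK i x hx).trans (h5 i)⟩
  have hint : IntegrableOn (fun x => ∑ j, pd j (Y j) x) E := by
    have hcont : ContinuousOn (fun x => ∑ j, pd j (Y j) x) E :=
      continuousOn_finsetSum _ fun j _ =>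
        (contDiffOn_pd (m := 0) hE (hY j) (by simp) j).continuousOn
    refine g07_int (a := a) (b := b)
      (M := 2 * ∑ _i : Fin n, ∑ _j : Fin n, K * C * C + (C + 1) * ∑ _i : Fin n, K)
      hE hcont ?_ ?_
    · intro x hx hxA
      refine Finset.sum_eq_zero fun j _ => ?_
      have hopen : IsOpen (E ∩ (Ann a b : Set (V n))ᶜ) := hE.inter (g07_ann_closed a b).isOpen_compl
      refine pd_zero_of_eventually ?_ j
      filter_upwards [hopen.mem_nhds ⟨hx, hxA⟩] with y hy using hYs j y hy.1 hy.2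
    · intro x hx hxA
      rw [hdiv x hx]
      obtain ⟨hq, -, -, -, -, -, hgg, -⟩ := hbd x hx hxA
      have hgp := h.gg_pos hx
      refine (abs_sub _ _).trans (add_le_add ?_ ?_)
      · rw [abs_mul, abs_two]
        refine mul_le_mul_of_nonneg_left ?_ (by norm_num)
        refine (Finset.abs_sum_le_sum_abs _ _).trans (Finset.sum_le_sum fun i _ => ?_)
        refine (Finset.abs_sum_le_sum_abs _ _).trans (Finset.sum_le_sum fun j _ => ?_)
        have hK0 : 0 ≤ K := (abs_nonneg _).trans (hK i j x hxA)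
        rw [abs_mul, abs_mul]
        exact mul_le_mul (mul_le_mul (hK i j x hxA) (hq i) (abs_nonneg _) hK0) (hq j)
          (abs_nonneg _) (mul_nonneg hK0 hC0)
      · rw [abs_mul, abs_of_pos (show (0 : ℝ) < gg u x + 1 by linarith)]
        refine mul_le_mul (by linarith) ?_ (abs_nonneg _) (by linarith)
        exact (Finset.abs_sum_le_sum_abs _ _).trans
          (Finset.sum_le_sum fun i _ => hK i i x hxA)
  -- flux
  have hflux : ∀ δ > 0, ∃ ε > 0, ∀ x ∈ E, u x < ε → |∑ i, q u i x * Y i x| ≤ δ := by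
    intro δ hδ
    set M : ℝ := |∑ _i : Fin n, K' * C| + 1 with hM
    have hM0 : 0 < M := by positivity
    obtain ⟨ε, hε, hl⟩ := h.lay_gg a b ha (δ / M) (by positivity)
    refine ⟨ε, hε, fun x hx hux => ?_⟩
    by_cases hxA : x ∈ Ann a b
    · have h1 := hl x hx hxA hux
      obtain ⟨hq, -⟩ := hbd x hx hxA
      have h2 : ∑ i, q u i x * Y i x = (∑ i, X i x * q u i x) * (gg u x - 1) := by
        have h3 : ∀ i, q u i x * Y i x = 2 * (∑ i, X i x * q u i x) * (q u i x) ^ 2
            - (gg u x + 1) * (X i x * q u i x) := by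
          intro i
          simp only [hYdef]
          ring
        rw [Finset.sum_congr rfl (fun i _ => h3 i), Finset.sum_sub_distrib, ← Finset.mul_sum,
          ← Finset.mul_sum]
        have h4 : ∑ i, q u i x ^ 2 = gg u x := rfl
        rw [h4]
        ring
      have h5 : |∑ i, X i x * q u i x| ≤ M := by
        refine (Finset.abs_sum_le_sum_abs _ _).trans ?_
        have h6 : ∑ i, |X i x * q u i x| ≤ ∑ _i : Fin n, K' * C := by
          refine Finset.sum_le_sum fun i _ => ?_
          have hK0 : 0 ≤ K' := (abs_nonneg _).trans (hK' i x hxA)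
          rw [abs_mul]
          exact mul_le_mul (hK' i x hxA) (hq i) (abs_nonneg _) hK0
        refine h6.trans ((le_abs_self _).trans ?_)
        rw [hM]
        linarith
      rw [h2, abs_mul]
      calc |∑ i, X i x * q u i x| * |gg u x - 1| ≤ M * (δ / M) :=
            mul_le_mul h5 h1.le (abs_nonneg _) hM0.le
        _ = δ := by field_simp
    · rw [Finset.sum_eq_zero (fun i _ => by rw [hYs i x hx hxA, mul_zero])]
      rw [abs_zero]
      exact hδ.le
  have hfin := h.div_zero ha hY hYs hint hflux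
  rw [← hfin]
  exact setIntegral_congr_fun hE.measurableSet fun x hx => (hdiv x hx).symm

end OPC
end

section

/-! # G06: the second derivative of the energy -/

open MeasureTheory Set Filter Topology

namespace OPC

variable {n : ℕ} {E : Set (V n)} {u : V n → ℝ}

private theorem g6_top : ((⊤ : ℕ∞) : WithTop ℕ∞) + 1 ≤ ((⊤ : ℕ∞) : WithTop ℕ∞) := by
  simp

/-- integrability -/
private theorem g6_int {h k : V n → ℝ} {φ : V n → V n} (hh : Appr h) (hφ : Continuous φ)
    (hk : Continuous k) :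
    IntegrableOn (fun x => h (φ x) * k x) (Metric.ball (0 : V n) 1) volume := by
  obtain ⟨M, hm, h1, h2, h3⟩ := hh
  have hmeas : Measurable h :=
    measurable_of_tendsto_metrizable (fun i => (h1 i).continuous.measurable) (tendsto_pi_nhds.2 h3)
  have hb : ∀ x, ‖h x‖ ≤ M := by
    intro x
    exact le_of_tendsto ((h3 x).norm) (Eventually.of_forall fun m => h2 m x)
  have hk' : IntegrableOn k (Metric.ball (0 : V n) 1) volume :=
    (hk.continuousOn.integrableOn_compact (isCompact_closedBall 0 1)).mono_set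
      Metric.ball_subset_closedBall
  exact Integrable.bdd_mul (c := M) hk' (hmeas.comp hφ.measurable).aestronglyMeasurable
    (Eventually.of_forall fun x => hb _)

/-- first and second derivative of a transported integral -/
private theorem g6_second {Ψ : V n → V n} (hΨ : ContDiff ℝ (⊤ : ℕ∞) Ψ)
    (hb : tsupport Ψ ⊆ Metric.ball 0 1) (hc : HasCompactSupport Ψ) {t₀ : ℝ} (ht₀ : 0 < t₀)
    (hX : ContDiffOn ℝ (⊤ : ℕ∞) (fun p : ℝ × V n => Xf Ψ p.1 p.2) (Ioo (-t₀) t₀ ×ˢ univ))
    (hX2 : ∀ t ∈ Ioo (-t₀) t₀, ∀ x, Xf Ψ t x + t • fderiv ℝ Ψ x (Xf Ψ t x) = Ψ x)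
    (hX3 : ∀ t ∈ Ioo (-t₀) t₀, ∀ x, Ψ x = 0 → Xf Ψ t x = 0)
    {c : ℝ} {k₁ k₂ : V n → ℝ} (h₁ : ContDiff ℝ (⊤ : ℕ∞) k₁) (h₂ : ContDiff ℝ (⊤ : ℕ∞) k₂)
    {h : V n → ℝ} (hh : Appr h) :
    ∃ G : ℝ → ℝ, (∀ t ∈ Ioo (-t₀) t₀, HasDerivAt (fun t => ∫ x in Metric.ball (0 : V n) 1,
        h (x + t • Ψ x) * (c + t * k₁ x + t ^ 2 * k₂ x)) (G t) t) ∧
      HasDerivAt G (∫ x in Metric.ball (0 : V n) 1, h x *
        (2 * k₂ x - 2 * ∑ i, pd i (fun y => k₁ y * Ψ y i) x
        + c * (∑ i, pd i (fun y => ∑ j, pd j (fun z => Ψ z i) y * Ψ y j) x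
          + ∑ i, pd i (fun y => (∑ j, pd j (fun z => Ψ z j) y) * Ψ y i) x))) 0 := by
  set k : ℝ → V n → ℝ := fun t y => c + t * k₁ y + t ^ 2 * k₂ y with hkdef
  have hk : ContDiffOn ℝ (⊤ : ℕ∞) (fun p : ℝ × V n => k p.1 p.2) (Ioo (-t₀) t₀ ×ˢ univ) := by
    apply ContDiff.contDiffOn
    have e1 : ContDiff ℝ (⊤ : ℕ∞) (fun p : ℝ × V n => k₁ p.2) := h₁.comp contDiff_snd
    have e2 : ContDiff ℝ (⊤ : ℕ∞) (fun p : ℝ × V n => k₂ p.2) := h₂.comp contDiff_snd
    have e3 : ContDiff ℝ (⊤ : ℕ∞) (fun p : ℝ × V n => p.1) := contDiff_fst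
    exact (contDiff_const.add (e3.mul e1)).add ((e3.pow 2).mul e2)
  refine ⟨fun t => ∫ x in Metric.ball (0 : V n) 1, h (x + t • Ψ x) * Lop Ψ k t x, ?_, ?_⟩
  · intro t ht
    exact transport hΨ hb hX hX2 hX3 hk hh ht
  · have h0 : (0 : ℝ) ∈ Ioo (-t₀) t₀ := ⟨by linarith, ht₀⟩
    have := transport hΨ hb hX hX2 hX3 (Lop_smooth hX hk) hh h0
    have e : (∫ x in Metric.ball (0 : V n) 1, h (x + (0 : ℝ) • Ψ x) * Lop Ψ (Lop Ψ k) 0 x) =
        ∫ x in Metric.ball (0 : V n) 1, h x *
        (2 * k₂ x - 2 * ∑ i, pd i (fun y => k₁ y * Ψ y i) x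
        + c * (∑ i, pd i (fun y => ∑ j, pd j (fun z => Ψ z i) y * Ψ y j) x
          + ∑ i, pd i (fun y => (∑ j, pd j (fun z => Ψ z j) y) * Ψ y i) x)) := by
      congr 1
      funext x
      rw [zero_smul, add_zero, hkdef, Lop_Lop_zero hΨ hc h₁ h₂]
    rw [e] at this
    exact this

/-- The second derivative of the energy.
Sketch: `J t = ∑_{ij} K_{ij} t + K₀ t` with `K` as in `transport` (`h = q̃_i q̃_j`,
`k = δ_ij + t (A_ij + A_ji) + t² ∑ A_il A_jl`, resp. `h = 1_E`, `k = 1`); apply `transport` twice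
(`deriv J = ∑ ∫ h L k` near `0`, then `deriv (deriv J) 0 = ∑ ∫ h L(Lk)`), `Lop_Lop_zero`. The terms
with `A_ij` and `A_ji` give the same contribution. -/
theorem Sol.deriv2 (h : Sol E u) (hn : 2 ≤ n) {Ψ : V n → V n} (hΨ : ContDiff ℝ (⊤ : ℕ∞) Ψ)
    (hb : tsupport Ψ ⊆ Metric.ball 0 1) :
    deriv (deriv (fun t : ℝ =>
      ∫ x in Metric.ball (0 : V n) 1,
        (‖fderiv ℝ (fun y => u (y + t • Ψ y)) x‖ ^ 2
          + Set.indicator {y | 0 < u (y + t • Ψ y)} (fun _ => (1 : ℝ)) x))) 0 =
    2 * ∫ x in E, (∑ j, (∑ i, pd j (fun y => Ψ y i) x * q u i x) ^ 2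
      - 2 * ∑ i, ∑ j, q u i x * q u j x * ∑ l, pd l (fun y => pd j (fun z => Ψ z i) y * Ψ y l) x
      + (1 / 2) * (gg u x + 1) *
        (∑ i, pd i (fun y => ∑ j, pd j (fun z => Ψ z i) y * Ψ y j) x
          + ∑ i, pd i (fun y => (∑ j, pd j (fun z => Ψ z j) y) * Ψ y i) x)) := by
  have hc : HasCompactSupport Ψ :=
    (isCompact_closedBall (0 : V n) 1).of_isClosed_subset (isClosed_tsupport _)
      (hb.trans Metric.ball_subset_closedBall)
  obtain ⟨t₀, ht₀, hX, hX2, hX3⟩ := Xf_spec hΨ hc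
  have hΨi : ∀ i, ContDiff ℝ (⊤ : ℕ∞) (fun y => Ψ y i) := fun i => contDiff_euclidean.1 hΨ i
  have hA : ∀ i j, ContDiff ℝ (⊤ : ℕ∞) (pd j (fun y => Ψ y i)) := fun i j =>
    contDiff_pd (hΨi i) g6_top j
  set k1 : Fin n → Fin n → V n → ℝ := fun i j x =>
    pd j (fun y => Ψ y i) x + pd i (fun y => Ψ y j) x with hk1
  set k2 : Fin n → Fin n → V n → ℝ := fun i j x =>
    ∑ l, pd l (fun y => Ψ y i) x * pd l (fun y => Ψ y j) x with hk2
  have hk1c : ∀ i j, ContDiff ℝ (⊤ : ℕ∞) (k1 i j) := fun i j => (hA i j).add (hA j i)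
  have hk2c : ∀ i j, ContDiff ℝ (⊤ : ℕ∞) (k2 i j) := fun i j =>
    ContDiff.sum fun l _ => (hA i l).mul (hA j l)
  set D : V n → ℝ := fun x =>
    ∑ i, pd i (fun y => ∑ j, pd j (fun z => Ψ z i) y * Ψ y j) x
          + ∑ i, pd i (fun y => (∑ j, pd j (fun z => Ψ z j) y) * Ψ y i) x with hD
  set dl : Fin n → Fin n → ℝ := fun i j => if i = j then 1 else 0 with hdl
  -- the pieces
  have hK := fun i j => g6_second hΨ hb hc ht₀ hX hX2 hX3 (c := dl i j) (hk1c i j) (hk2c i j)
    (h.appr_q hn i j)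
  choose G hG1 hG2 using hK
  obtain ⟨G0, hG01, hG02⟩ := g6_second hΨ hb hc ht₀ hX hX2 hX3 (c := 1)
    (k₁ := fun _ => 0) (k₂ := fun _ => 0) contDiff_const contDiff_const h.appr_ind
  -- splitting
  have hφ : ∀ t : ℝ, Continuous (fun x : V n => x + t • Ψ x) := fun t =>
    continuous_id.add (hΨ.continuous.const_smul t)
  have hint : ∀ (t : ℝ) i j, IntegrableOn (fun x => (qt E u i (x + t • Ψ x) *
      qt E u j (x + t • Ψ x)) * (dl i j + t * k1 i j x + t ^ 2 * k2 i j x))
      (Metric.ball (0 : V n) 1) volume := by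
    intro t i j
    refine g6_int (h.appr_q hn i j) (hφ t) ?_
    exact (continuous_const.add (continuous_const.mul (hk1c i j).continuous)).add
      (continuous_const.mul (hk2c i j).continuous)
  have hint0 : ∀ t : ℝ, IntegrableOn (fun x =>
      (Set.indicator {y | 0 < u y} (fun _ => (1 : ℝ))) (x + t • Ψ x) *
        (1 + t * (0 : ℝ) + t ^ 2 * 0)) (Metric.ball (0 : V n) 1) volume := by
    intro t
    exact g6_int h.appr_ind (hφ t) continuous_const
  have hJ : ∀ t : ℝ, (∫ x in Metric.ball (0 : V n) 1,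
        (‖fderiv ℝ (fun y => u (y + t • Ψ y)) x‖ ^ 2
          + Set.indicator {y | 0 < u (y + t • Ψ y)} (fun _ => (1 : ℝ)) x)) =
      ∑ i, ∑ j, (∫ x in Metric.ball (0 : V n) 1, (qt E u i (x + t • Ψ x) *
      qt E u j (x + t • Ψ x)) * (dl i j + t * k1 i j x + t ^ 2 * k2 i j x)) +
      ∫ x in Metric.ball (0 : V n) 1, (Set.indicator {y | 0 < u y} (fun _ => (1 : ℝ)))
        (x + t • Ψ x) * (1 + t * (0 : ℝ) + t ^ 2 * 0) := by
    intro t
    have e1 : ∀ x, (‖fderiv ℝ (fun y => u (y + t • Ψ y)) x‖ ^ 2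
          + Set.indicator {y | 0 < u (y + t • Ψ y)} (fun _ => (1 : ℝ)) x) =
        (∑ i, ∑ j, (qt E u i (x + t • Ψ x) *
      qt E u j (x + t • Ψ x)) * (dl i j + t * k1 i j x + t ^ 2 * k2 i j x)) +
      (Set.indicator {y | 0 < u y} (fun _ => (1 : ℝ)))
        (x + t • Ψ x) * (1 + t * (0 : ℝ) + t ^ 2 * 0) := by
      intro x
      rw [h.energy_density hΨ t x]
      congr 1
      rw [mul_zero, mul_zero, add_zero, add_zero, mul_one]
      rfl
    rw [integral_congr_ae (Eventually.of_forall e1), integral_add]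
    · congr 1
      rw [integral_finsetSum]
      · refine Finset.sum_congr rfl fun i _ => ?_
        rw [integral_finsetSum]
        exact fun j _ => hint t i j
      · exact fun i _ => integrable_finsetSum _ fun j _ => hint t i j
    · exact integrable_finsetSum _ fun i _ => integrable_finsetSum _ fun j _ => hint t i j
    · exact hint0 t
  have hJ1 : ∀ t ∈ Ioo (-t₀) t₀, HasDerivAt (fun t : ℝ => ∫ x in Metric.ball (0 : V n) 1,
        (‖fderiv ℝ (fun y => u (y + t • Ψ y)) x‖ ^ 2
          + Set.indicator {y | 0 < u (y + t • Ψ y)} (fun _ => (1 : ℝ)) x))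
        (∑ i, ∑ j, G i j t + G0 t) t := by
    intro t ht
    rw [show (fun t : ℝ => ∫ x in Metric.ball (0 : V n) 1,
        (‖fderiv ℝ (fun y => u (y + t • Ψ y)) x‖ ^ 2
          + Set.indicator {y | 0 < u (y + t • Ψ y)} (fun _ => (1 : ℝ)) x)) = _ from funext hJ]
    apply HasDerivAt.add
    · apply HasDerivAt.fun_sum
      intro i _
      apply HasDerivAt.fun_sum
      intro j _
      exact hG1 i j t ht
    · exact hG01 t ht
  have hmem : Ioo (-t₀) t₀ ∈ 𝓝 (0 : ℝ) := Ioo_mem_nhds (by linarith) ht₀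
  have hJ2 : deriv (fun t : ℝ => ∫ x in Metric.ball (0 : V n) 1,
        (‖fderiv ℝ (fun y => u (y + t • Ψ y)) x‖ ^ 2
          + Set.indicator {y | 0 < u (y + t • Ψ y)} (fun _ => (1 : ℝ)) x)) =ᶠ[𝓝 0]
        fun t => ∑ i, ∑ j, G i j t + G0 t := by
    filter_upwards [hmem] with t ht
    exact (hJ1 t ht).deriv
  rw [hJ2.deriv_eq]
  have hfin : HasDerivAt (fun t => ∑ i, ∑ j, G i j t + G0 t) _ 0 :=
    HasDerivAt.add (HasDerivAt.fun_sum fun i _ => HasDerivAt.fun_sum fun j _ => hG2 i j) hG02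
  rw [hfin.deriv]
  -- combining the integrals
  set F : V n → ℝ := fun x => ∑ j, (∑ i, pd j (fun y => Ψ y i) x * q u i x) ^ 2
      - 2 * ∑ i, ∑ j, q u i x * q u j x * ∑ l, pd l (fun y => pd j (fun z => Ψ z i) y * Ψ y l) x
      + (1 / 2) * (gg u x + 1) * D x with hF
  have hDc : Continuous D := by
    have hs1 : ∀ i, ContDiff ℝ (⊤ : ℕ∞) (fun y => ∑ j, pd j (fun z => Ψ z i) y * Ψ y j) :=
      fun i => ContDiff.sum fun j _ => (hA i j).mul (hΨi j)
    have hs2 : ∀ i, ContDiff ℝ (⊤ : ℕ∞) (fun y => (∑ j, pd j (fun z => Ψ z j) y) * Ψ y i) :=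
      fun i => (ContDiff.sum fun j _ => hA j j).mul (hΨi i)
    exact (continuous_finsetSum _ fun i _ => (contDiff_pd (hs1 i) g6_top i).continuous).add
      (continuous_finsetSum _ fun i _ => (contDiff_pd (hs2 i) g6_top i).continuous)
  have hBc : ∀ i j, Continuous (fun x => ∑ l, pd l (fun y => k1 i j y * Ψ y l) x) := fun i j =>
    continuous_finsetSum _ fun l _ =>
      (contDiff_pd ((hk1c i j).mul (hΨi l)) g6_top l).continuous
  have hi2 : ∀ i j, IntegrableOn (fun x => (qt E u i x * qt E u j x) *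
      (2 * k2 i j x - 2 * ∑ l, pd l (fun y => k1 i j y * Ψ y l) x + dl i j * D x))
      (Metric.ball (0 : V n) 1) volume := by
    intro i j
    refine g6_int (h.appr_q hn i j) (φ := fun x => x) continuous_id ?_
    exact ((continuous_const.mul (hk2c i j).continuous).sub (continuous_const.mul (hBc i j))).add
      (continuous_const.mul hDc)
  have hi3 : IntegrableOn (fun x => (Set.indicator {y | 0 < u y} (fun _ => (1 : ℝ))) x *
      (2 * (0 : ℝ) - 2 * ∑ l, pd l (fun y => (0 : ℝ) * Ψ y l) x + 1 * D x))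
      (Metric.ball (0 : V n) 1) volume := by
    refine g6_int h.appr_ind (φ := fun x => x) continuous_id ?_
    have e : ∀ x : V n, ∑ l, pd l (fun y => (0 : ℝ) * Ψ y l) x = 0 := by
      intro x
      refine Finset.sum_eq_zero fun l _ => ?_
      simp only [zero_mul]
      exact pd_const 0 l x
    simp only [e]
    exact (continuous_const.sub continuous_const).add (continuous_const.mul hDc)
  have hcomb : (∑ i, ∑ j, ∫ x in Metric.ball (0 : V n) 1, (qt E u i x * qt E u j x) *
      (2 * k2 i j x - 2 * ∑ l, pd l (fun y => k1 i j y * Ψ y l) x + dl i j * D x)) +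
      ∫ x in Metric.ball (0 : V n) 1, (Set.indicator {y | 0 < u y} (fun _ => (1 : ℝ))) x *
      (2 * (0 : ℝ) - 2 * ∑ l, pd l (fun y => (0 : ℝ) * Ψ y l) x + 1 * D x) =
      ∫ x in Metric.ball (0 : V n) 1, E.indicator (fun x => 2 * F x) x := by
    have e1 : ∀ x, E.indicator (fun x => 2 * F x) x = (∑ i, ∑ j, (qt E u i x * qt E u j x) *
      (2 * k2 i j x - 2 * ∑ l, pd l (fun y => k1 i j y * Ψ y l) x + dl i j * D x)) +
      (Set.indicator {y | 0 < u y} (fun _ => (1 : ℝ))) x *
      (2 * (0 : ℝ) - 2 * ∑ l, pd l (fun y => (0 : ℝ) * Ψ y l) x + 1 * D x) := by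
      intro x
      by_cases hx : x ∈ E
      · have hq : ∀ i, qt E u i x = q u i x := fun i => Set.indicator_of_mem hx _
        have hx' : x ∈ {y | 0 < u y} := h.pos x hx
        rw [Set.indicator_of_mem hx, Set.indicator_of_mem hx']
        simp only [hq]
        have e0 : ∑ l, pd l (fun y => (0 : ℝ) * Ψ y l) x = 0 := by
          refine Finset.sum_eq_zero fun l _ => ?_
          simp only [zero_mul]
          exact pd_const 0 l x
        rw [e0]
        have eB : ∀ i j, ∑ l, pd l (fun y => k1 i j y * Ψ y l) x =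
            ∑ l, pd l (fun y => pd j (fun z => Ψ z i) y * Ψ y l) x +
            ∑ l, pd l (fun y => pd i (fun z => Ψ z j) y * Ψ y l) x := by
          intro i j
          rw [← Finset.sum_add_distrib]
          refine Finset.sum_congr rfl fun l _ => ?_
          rw [← pd_add]
          · congr 1
            funext y
            simp only [hk1]
            ring
          · exact ((hA i j).mul (hΨi l)).differentiable (by simp) x
          · exact ((hA j i).mul (hΨi l)).differentiable (by simp) x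
        have s1 : ∑ i, ∑ j, (q u i x * q u j x) * (2 * k2 i j x) =
            2 * ∑ j, (∑ i, pd j (fun y => Ψ y i) x * q u i x) ^ 2 := by
          have : ∀ i j, (q u i x * q u j x) * (2 * k2 i j x) =
              ∑ l, 2 * ((pd l (fun y => Ψ y i) x * q u i x) *
                (pd l (fun y => Ψ y j) x * q u j x)) := by
            intro i j
            simp only [hk2]
            rw [Finset.mul_sum, Finset.mul_sum]
            refine Finset.sum_congr rfl fun l _ => ?_
            ring
          simp only [this]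
          rw [Finset.mul_sum]
          have e2 : ∀ l, 2 * (∑ i, pd l (fun y => Ψ y i) x * q u i x) ^ 2 =
              ∑ i, ∑ j, 2 * ((pd l (fun y => Ψ y i) x * q u i x) *
                (pd l (fun y => Ψ y j) x * q u j x)) := by
            intro l
            rw [sq, Finset.sum_mul_sum, Finset.mul_sum]
            refine Finset.sum_congr rfl fun i _ => ?_
            rw [Finset.mul_sum]
          simp only [e2]
          rw [Finset.sum_comm]
          have e3 : ∀ j, ∑ i, ∑ l, 2 * ((pd l (fun y => Ψ y i) x * q u i x) *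
                (pd l (fun y => Ψ y j) x * q u j x)) = ∑ l, ∑ i, 2 * ((pd l (fun y => Ψ y i) x * q u i x) *
                (pd l (fun y => Ψ y j) x * q u j x)) := fun j => Finset.sum_comm
          simp only [e3]
          rw [Finset.sum_comm]
          refine Finset.sum_congr rfl fun l _ => ?_
          rw [Finset.sum_comm]
        have s2 : ∑ i, ∑ j, (q u i x * q u j x) *
            (∑ l, pd l (fun y => pd i (fun z => Ψ z j) y * Ψ y l) x) =
            ∑ i, ∑ j, (q u i x * q u j x) *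
            (∑ l, pd l (fun y => pd j (fun z => Ψ z i) y * Ψ y l) x) := by
          rw [Finset.sum_comm]
          refine Finset.sum_congr rfl fun i _ => Finset.sum_congr rfl fun j _ => ?_
          ring
        have s3 : ∑ i, ∑ j, (q u i x * q u j x) * (dl i j * D x) = gg u x * D x := by
          unfold gg
          rw [Finset.sum_mul]
          refine Finset.sum_congr rfl fun i _ => ?_
          rw [Finset.sum_eq_single i]
          · simp only [hdl, if_true]
            ring
          · intro j _ hj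
            simp only [hdl, if_neg (Ne.symm hj)]
            ring
          · intro hi
            exact absurd (Finset.mem_univ i) hi
        have s4 : ∑ i, ∑ j, (q u i x * q u j x) *
            (2 * k2 i j x - 2 * ∑ l, pd l (fun y => k1 i j y * Ψ y l) x + dl i j * D x) =
            ∑ i, ∑ j, (q u i x * q u j x) * (2 * k2 i j x) -
            2 * (∑ i, ∑ j, (q u i x * q u j x) *
            (∑ l, pd l (fun y => pd j (fun z => Ψ z i) y * Ψ y l) x)) -
            2 * (∑ i, ∑ j, (q u i x * q u j x) *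
            (∑ l, pd l (fun y => pd i (fun z => Ψ z j) y * Ψ y l) x)) +
            ∑ i, ∑ j, (q u i x * q u j x) * (dl i j * D x) := by
          simp only [Finset.mul_sum (a := (2 : ℝ)), ← Finset.sum_sub_distrib,
            ← Finset.sum_add_distrib]
          refine Finset.sum_congr rfl fun i _ => Finset.sum_congr rfl fun j _ => ?_
          rw [← Finset.mul_sum, eB i j]
          ring
        rw [s4, s1, s2, s3]
        simp only [hF]
        ring
      · have hq : ∀ i, qt E u i x = 0 := fun i => Set.indicator_of_notMem hx _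
        have hx' : x ∉ {y | 0 < u y} := by
          intro h'
          have h2 : 0 < u x := h'
          rw [h.zero x hx] at h2
          exact lt_irrefl _ h2
        rw [Set.indicator_of_notMem hx, Set.indicator_of_notMem hx']
        simp only [hq, zero_mul, Finset.sum_const_zero, add_zero]
    rw [integral_congr_ae (Eventually.of_forall e1), integral_add]
    · congr 1
      rw [integral_finsetSum]
      · refine Finset.sum_congr rfl fun i _ => ?_
        rw [integral_finsetSum]
        exact fun j _ => hi2 i j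
      · exact fun i _ => integrable_finsetSum _ fun j _ => hi2 i j
    · exact integrable_finsetSum _ fun i _ => integrable_finsetSum _ fun j _ => hi2 i j
    · exact hi3
  rw [hcomb, setIntegral_indicator h.isOpen.measurableSet]
  have hzero : ∀ x ∈ E \ (Metric.ball (0 : V n) 1 ∩ E), 2 * F x = 0 := by
    intro x hx
    have hxb : x ∉ tsupport Ψ := fun h' => hx.2 ⟨hb h', hx.1⟩
    have hev : ∀ᶠ y in 𝓝 x, Ψ =ᶠ[𝓝 y] 0 :=
      eventually_eventually_nhds.2 (notMem_tsupport_iff_eventuallyEq.1 hxb)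
    have hp : ∀ᶠ y in 𝓝 x, ∀ i j, pd j (fun z => Ψ z i) y = 0 := by
      filter_upwards [hev] with y hy i j
      apply pd_zero_of_eventually
      filter_upwards [hy] with z hz
      rw [hz]
      rfl
    have hp0 := hp.self_of_nhds
    have z1 : ∀ i j l, pd l (fun y => pd j (fun z => Ψ z i) y * Ψ y l) x = 0 := by
      intro i j l
      apply pd_zero_of_eventually
      filter_upwards [hp] with y hy
      rw [hy, zero_mul]
    have z2 : ∀ i, pd i (fun y => ∑ j, pd j (fun z => Ψ z i) y * Ψ y j) x = 0 := by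
      intro i
      apply pd_zero_of_eventually
      filter_upwards [hp] with y hy
      exact Finset.sum_eq_zero fun j _ => by rw [hy, zero_mul]
    have z3 : ∀ i, pd i (fun y => (∑ j, pd j (fun z => Ψ z j) y) * Ψ y i) x = 0 := by
      intro i
      apply pd_zero_of_eventually
      filter_upwards [hp] with y hy
      rw [Finset.sum_eq_zero (fun j _ => hy j j), zero_mul]
    simp only [hF, hD, hp0, z1, z2, z3, zero_mul, Finset.sum_const_zero, mul_zero, add_zero,
      sub_zero]
    simp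
  rw [← setIntegral_eq_of_subset_of_forall_sdiff_eq_zero h.isOpen.measurableSet inter_subset_right
    hzero, integral_const_mul]

end OPC
end

section

/-! # G08: second variation -/

open MeasureTheory Set Filter Topology

namespace OPC

variable {n : ℕ} {E : Set (V n)} {u : V n → ℝ}

/-- continuous functions of a compactly supported field and of the gradient are integrable -/
private theorem intOn_jet (h : Sol E u) (hn : 2 ≤ n)
    {Φ : (Fin n → Fin n → ℝ) × (Fin n → ℝ) → ℝ} (hΦ : Continuous Φ) (h0 : ∀ p, Φ (0, p) = 0)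
    {B : Fin n → Fin n → V n → ℝ} (hB : ∀ i j, Continuous (B i j))
    (hc : ∀ i j, HasCompactSupport (B i j)) :
    IntegrableOn (fun x => Φ (fun i j => B i j x, fun i => q u i x)) E := by
  set b : V n → (Fin n → Fin n → ℝ) := fun x i j => B i j x with hb
  have hbc : Continuous b := continuous_pi fun i => continuous_pi fun j => hB i j
  set K : Set (V n) := ⋃ i, ⋃ j, tsupport (B i j) with hK
  have hKc : IsCompact K := isCompact_iUnion fun i => isCompact_iUnion fun j => hc i j
  have hK0 : ∀ x, x ∉ K → b x = 0 := by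
    intro x hx
    funext i j
    have : x ∉ tsupport (B i j) := fun hh => hx (mem_iUnion.2 ⟨i, mem_iUnion.2 ⟨j, hh⟩⟩)
    exact (image_eq_zero_of_notMem_tsupport this : B i j x = 0)
  have hcomp : IsCompact ((insert 0 (b '' K)) ×ˢ (Metric.closedBall (0 : Fin n → ℝ) 1)) :=
    ((hKc.image hbc).insert 0).prod (isCompact_closedBall _ _)
  obtain ⟨M, hM⟩ := hcomp.exists_bound_of_continuousOn hΦ.continuousOn
  have hq : ∀ x ∈ E, (fun i => q u i x) ∈ Metric.closedBall (0 : Fin n → ℝ) 1 := by
    intro x hx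
    rw [mem_closedBall_zero_iff, pi_norm_le_iff_of_nonneg zero_le_one]
    intro i
    rw [Real.norm_eq_abs, ← sq_le_one_iff_abs_le_one]
    refine le_trans ?_ (h.gg_le_one hn hx)
    exact Finset.single_le_sum (f := fun i => (q u i x) ^ 2) (fun j _ => sq_nonneg _)
      (Finset.mem_univ i)
  have hcont : ContinuousOn (fun x => Φ (b x, fun i => q u i x)) E := by
    refine hΦ.comp_continuousOn ?_
    refine hbc.continuousOn.prodMk ?_
    exact continuousOn_pi.2 fun i => (h.smooth_q i).continuousOn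
  have hE := h.isOpen.measurableSet
  have h1 : IntegrableOn (fun x => Φ (b x, fun i => q u i x)) (E ∩ K) := by
    refine IntegrableOn.of_bound ((measure_mono inter_subset_right).trans_lt hKc.measure_lt_top)
      ?_ M ?_
    · exact (hcont.mono inter_subset_left).aestronglyMeasurable (hE.inter hKc.measurableSet)
    · refine (ae_restrict_iff' (hE.inter hKc.measurableSet)).2 (Eventually.of_forall ?_)
      intro x hx
      exact hM _ ⟨mem_insert_of_mem _ (mem_image_of_mem b hx.2), hq x hx.1⟩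
  refine h1.of_forall_sdiff_eq_zero hE ?_
  intro x hx
  have : x ∉ K := fun hh => hx.2 ⟨hx.1, hh⟩
  rw [hK0 x this, h0]

/-- SECOND VARIATION, volume form without second derivatives of `Ψ`.
Sketch: `Sol.deriv2`; pointwise, with `A i j = ∂_jΨ_i` and `X = AΨ`, the integrand there is
`I2 A q - (2 ∑ ∂_j X_i q_i q_j - (gg+1) div X)`: `∂_j (AΨ)_i = ∑_l Ψ_l ∂_l A_ij + (A²)_ij` (symmetry of
second derivatives), `div(trA Ψ) - div(AΨ) = (tr A)² - tr A²`. Then `Sol.first_var`. -/
theorem Sol.second_var (h : Sol E u) (hst : Stab u) (hn : 2 ≤ n) {Ψ : V n → V n}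
    (hΨ : ContDiff ℝ (⊤ : ℕ∞) Ψ) (hb : tsupport Ψ ⊆ Metric.ball 0 1) (h0 : (0 : V n) ∉ tsupport Ψ) :
    0 ≤ ∫ x in E, I2 (fun i j => pd j (fun y => Ψ y i) x) (fun i => q u i x) := by
  -- components
  have hΨi : ∀ i, ContDiff ℝ (⊤ : ℕ∞) (fun y => Ψ y i) := fun i => (contDiff_euclidean.1 hΨ) i
  have hcs : HasCompactSupport Ψ :=
    (isCompact_closedBall (0 : V n) 1).of_isClosed_subset (isClosed_tsupport _)
      (hb.trans Metric.ball_subset_closedBall)
  set A : Fin n → Fin n → V n → ℝ := fun i j => pd j (fun y => Ψ y i) with hA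
  have hAs : ∀ i j, ContDiff ℝ (⊤ : ℕ∞) (A i j) := fun i j => contDiff_pd (hΨi i) (by simp) j
  have hsupA : ∀ i j, tsupport (A i j) ⊆ tsupport Ψ := by
    intro i j
    refine closure_minimal ?_ (isClosed_tsupport _)
    intro x hx
    by_contra hxn
    apply hx
    refine pd_zero_of_eventually ?_ j
    have : Ψ =ᶠ[nhds x] 0 := notMem_tsupport_iff_eventuallyEq.1 hxn
    filter_upwards [this] with y hy
    simp [hy]
  set X : Fin n → V n → ℝ := fun i y => ∑ l, A i l y * Ψ y l with hX
  have hXs : ∀ i, ContDiff ℝ (⊤ : ℕ∞) (X i) := fun i =>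
    ContDiff.sum fun l _ => (hAs i l).mul (hΨi l)
  have hsupX : ∀ i, tsupport (X i) ⊆ tsupport Ψ := by
    intro i
    refine closure_minimal ?_ (isClosed_tsupport _)
    intro x hx
    by_contra hxn
    apply hx
    have : Ψ x = 0 := image_eq_zero_of_notMem_tsupport hxn
    simp [hX, this]
  have hXt : ∀ i, Tst (X i) := fun i =>
    ⟨hXs i, HasCompactSupport.of_support_subset_isCompact hcs (subset_closure.trans (hsupX i)),
      fun hh => h0 (hsupX i hh)⟩
  have hXd : ∀ i j, ContDiff ℝ (⊤ : ℕ∞) (pd j (X i)) := fun i j => contDiff_pd (hXs i) (by simp) j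
  have hsupXd : ∀ i j, tsupport (pd j (X i)) ⊆ tsupport Ψ := by
    intro i j
    refine closure_minimal ?_ (isClosed_tsupport _)
    intro x hx
    by_contra hxn
    apply hx
    refine pd_zero_of_eventually ?_ j
    have : Ψ =ᶠ[nhds x] 0 := notMem_tsupport_iff_eventuallyEq.1 hxn
    filter_upwards [this] with y hy
    simp [hX, hy]
  have hcA : ∀ i j, HasCompactSupport (A i j) := fun i j =>
    HasCompactSupport.of_support_subset_isCompact hcs (subset_closure.trans (hsupA i j))
  have hcX : ∀ i j, HasCompactSupport (pd j (X i)) := fun i j =>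
    HasCompactSupport.of_support_subset_isCompact hcs (subset_closure.trans (hsupXd i j))
  -- integrability
  have hint1 : IntegrableOn (fun x => I2 (fun i j => A i j x) (fun i => q u i x)) E := by
    refine intOn_jet h hn (Φ := fun P => I2 P.1 P.2) ?_ ?_ (fun i j => (hAs i j).continuous) hcA
    · unfold I2; fun_prop
    · intro p; simp [I2]
  have hint2 : IntegrableOn (fun x => (2 * ∑ i, ∑ j, pd j (X i) x * q u i x * q u j x
      - (gg u x + 1) * ∑ i, pd i (X i) x)) E := by
    refine intOn_jet h hn (B := fun i j => pd j (X i)) (Φ := fun P =>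
      2 * ∑ i, ∑ j, P.1 i j * P.2 i * P.2 j - ((∑ i, P.2 i ^ 2) + 1) * ∑ i, P.1 i i) ?_ ?_
      (fun i j => (hXd i j).continuous) hcX
    · fun_prop
    · intro p; simp
  -- pointwise identities
  have hdA : ∀ i j x, DifferentiableAt ℝ (A i j) x := fun i j x =>
    ((hAs i j).differentiable (by simp)).differentiableAt
  have hdΨ : ∀ i x, DifferentiableAt ℝ (fun y => Ψ y i) x := fun i x =>
    ((hΨi i).differentiable (by simp)).differentiableAt
  have hsym : ∀ i j l x, pd j (A i l) x = pd l (A i j) x := by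
    intro i j l x
    exact pd_comm isOpen_univ ((hΨi i).of_le two_le_top).contDiffOn j l (mem_univ x)
  have hdX : ∀ i j x, pd j (X i) x = ∑ l, (pd l (A i j) x * Ψ x l + A i l x * A l j x) := by
    intro i j x
    have h1 : pd j (X i) x = pd j (fun y => ∑ l, A i l y * Ψ y l) x := rfl
    rw [h1, pd_sum (f := fun l y => A i l y * Ψ y l) Finset.univ
      (fun l _ => (hdA i l x).fun_mul (hdΨ l x))]
    refine Finset.sum_congr rfl fun l _ => ?_
    rw [pd_mul (hdA i l x) (hdΨ l x), hsym]
  have e1 : ∀ i j x, ∑ l, pd l (fun y => A i j y * Ψ y l) x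
      = pd j (X i) x - ∑ l, A i l x * A l j x + A i j x * ∑ l, A l l x := by
    intro i j x
    rw [hdX, Finset.sum_add_distrib, Finset.mul_sum, add_sub_cancel_right,
      ← Finset.sum_add_distrib]
    refine Finset.sum_congr rfl fun l _ => ?_
    rw [pd_mul (hdA i j x) (hdΨ l x)]
  have e2 : ∀ x, ∑ i, pd i (fun y => (∑ j, A j j y) * Ψ y i) x
      = ∑ i, pd i (X i) x - ∑ i, ∑ l, A i l x * A l i x + (∑ i, A i i x) ^ 2 := by
    intro x
    have h1 : ∀ i, pd i (fun y => (∑ j, A j j y) * Ψ y i) x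
        = (∑ j, pd i (A j j) x) * Ψ x i + (∑ j, A j j x) * A i i x := by
      intro i
      rw [pd_mul (DifferentiableAt.fun_sum fun j _ => hdA j j x) (hdΨ i x),
        pd_sum Finset.univ (fun j _ => hdA j j x)]
    have h2 : ∑ i, pd i (X i) x = ∑ i, (∑ j, pd i (A j j) x) * Ψ x i
        + ∑ i, ∑ l, A i l x * A l i x := by
      simp_rw [hdX, Finset.sum_add_distrib, Finset.sum_mul]
      congr 1
      exact Finset.sum_comm
    rw [h2, Finset.sum_congr rfl fun i _ => h1 i, Finset.sum_add_distrib, ← Finset.mul_sum]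
    ring
  have e3 : ∀ x, ∑ i, ∑ j, q u i x * q u j x * ∑ l, A i l x * A l j x
      = ∑ l, (∑ i, A i l x * q u i x) * (∑ j, A l j x * q u j x) := by
    intro x
    simp_rw [Finset.sum_mul_sum, Finset.mul_sum]
    rw [Finset.sum_congr rfl fun i _ => Finset.sum_comm, Finset.sum_comm]
    refine Finset.sum_congr rfl fun l _ => Finset.sum_congr rfl fun i _ =>
      Finset.sum_congr rfl fun j _ => ?_
    ring
  have key : ∀ x, (∑ j, (∑ i, A i j x * q u i x) ^ 2
      - 2 * ∑ i, ∑ j, q u i x * q u j x * ∑ l, pd l (fun y => A i j y * Ψ y l) x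
      + (1 / 2) * (gg u x + 1) *
        (∑ i, pd i (fun y => ∑ j, A i j y * Ψ y j) x
          + ∑ i, pd i (fun y => (∑ j, A j j y) * Ψ y i) x))
      = I2 (fun i j => A i j x) (fun i => q u i x)
        - (2 * ∑ i, ∑ j, pd j (X i) x * q u i x * q u j x
            - (gg u x + 1) * ∑ i, pd i (X i) x) := by
    intro x
    have e4 : ∑ i, ∑ j, q u i x * q u j x * ∑ l, pd l (fun y => A i j y * Ψ y l) x
        = ∑ i, ∑ j, pd j (X i) x * q u i x * q u j x
          - ∑ l, (∑ i, A i l x * q u i x) * (∑ j, A l j x * q u j x)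
          + (∑ i, ∑ j, q u i x * A i j x * q u j x) * ∑ l, A l l x := by
      rw [← e3, Finset.sum_mul, ← Finset.sum_sub_distrib, ← Finset.sum_add_distrib]
      refine Finset.sum_congr rfl fun i _ => ?_
      rw [Finset.sum_mul, ← Finset.sum_sub_distrib, ← Finset.sum_add_distrib]
      refine Finset.sum_congr rfl fun j _ => ?_
      rw [e1]; ring
    rw [e4, e2]
    have e5 : ∑ i, pd i (fun y => ∑ j, A i j y * Ψ y j) x = ∑ i, pd i (X i) x := rfl
    rw [e5]
    unfold I2 gg
    ring
  have h1 := h.deriv2 hn hΨ hb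
  have h2 := hst Ψ hΨ hb h0
  rw [h1] at h2
  have h3 : ∫ x in E, (∑ j, (∑ i, A i j x * q u i x) ^ 2
      - 2 * ∑ i, ∑ j, q u i x * q u j x * ∑ l, pd l (fun y => A i j y * Ψ y l) x
      + (1 / 2) * (gg u x + 1) *
        (∑ i, pd i (fun y => ∑ j, A i j y * Ψ y j) x
          + ∑ i, pd i (fun y => (∑ j, A j j y) * Ψ y i) x))
      = ∫ x in E, I2 (fun i j => A i j x) (fun i => q u i x) := by
    simp_rw [key]
    rw [integral_sub hint1 hint2, h.first_var hXt, sub_zero]
  have h4 : 0 ≤ 2 * ∫ x in E, I2 (fun i j => A i j x) (fun i => q u i x) := by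
    rw [← h3]; exact h2
  linarith

end OPC
end
end

section

section

/-! # H03: change of variables bound -/

open MeasureTheory Set Filter Topology

namespace OPC

variable {n : ℕ}

/-- Change of variables bound: `∫ f (x + τ X x) dx ≤ 2 ∫ f` for `f ≥ 0` and small `τ`.
Sketch: for small `τ`, `F x = x + τ X x` is injective (`X` is Lipschitz) and `|det DF| ≥ 1/2`
(`det` is continuous, `DX` bounded); `lintegral_image_eq_lintegral_abs_det_fderiv_mul` on `univ`:
`∫⁻_{F(univ)} f = ∫⁻ |det DF| f ∘ F ≥ (1/2) ∫⁻ f ∘ F`. -/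
theorem lintegral_comp_le {X : V n → V n} (hX : ContDiff ℝ (⊤ : ℕ∞) X)
    (hXc : HasCompactSupport X) :
    ∃ τ₀ > 0, ∀ τ ∈ Ioo (0 : ℝ) τ₀, ∀ f : V n → ENNReal, Measurable f →
      ∫⁻ x, f (x + τ • X x) ≤ 2 * ∫⁻ x, f x := by
  obtain ⟨K, hK⟩ := ContDiff.lipschitzWith_of_hasCompactSupport hXc hX (by simp)
  -- the determinant is close to one near the identity
  have hdet : ∃ δ > 0, ∀ B : V n →L[ℝ] V n, ‖B - 1‖ < δ → 1 / 2 ≤ |B.det| := by
    have hc : ContinuousAt (fun B : V n →L[ℝ] V n => |B.det|) 1 :=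
      (ContinuousLinearMap.continuous_det.abs).continuousAt
    have h1 : |(1 : V n →L[ℝ] V n).det| = 1 := by
      have : (1 : V n →L[ℝ] V n).det = 1 := by
        change LinearMap.det (LinearMap.id : V n →ₗ[ℝ] V n) = 1
        exact LinearMap.det_id
      rw [this, abs_one]
    obtain ⟨δ, hδ, h2⟩ := Metric.continuousAt_iff.1 hc (1 / 2) (by norm_num)
    refine ⟨δ, hδ, fun B hB => ?_⟩
    have h3 := h2 (x := B) (by rwa [dist_eq_norm])
    rw [h1, Real.dist_eq] at h3
    have := (abs_lt.1 h3).1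
    linarith
  obtain ⟨δ, hδ, hdet⟩ := hdet
  have hK1 : (0 : ℝ) < (K : ℝ) + 1 := by positivity
  refine ⟨min (1 / ((K : ℝ) + 1)) (δ / ((K : ℝ) + 1)), by positivity, ?_⟩
  rintro τ ⟨hτ0, hτ1⟩ f _
  have hτa : τ * ((K : ℝ) + 1) < 1 := by
    have := lt_of_lt_of_le hτ1 (min_le_left _ _)
    rwa [lt_div_iff₀ hK1] at this
  have hτb : τ * ((K : ℝ) + 1) < δ := by
    have := lt_of_lt_of_le hτ1 (min_le_right _ _)
    rwa [lt_div_iff₀ hK1] at this
  have hinj : InjOn (fun x => x + τ • X x) univ := by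
    intro x _ y _ hxy
    simp only at hxy
    by_contra hne
    have hpos : 0 < ‖x - y‖ := norm_pos_iff.2 (sub_ne_zero.2 hne)
    have h1 : x - y = τ • (X y - X x) := by
      rw [smul_sub]
      have : x - y = τ • X y - τ • X x := by
        rw [sub_eq_sub_iff_add_eq_add, hxy]
        abel
      exact this
    have h2 : ‖x - y‖ ≤ τ * (K * ‖x - y‖) := by
      calc ‖x - y‖ = ‖τ • (X y - X x)‖ := by rw [← h1]
        _ = τ * ‖X y - X x‖ := by rw [norm_smul, Real.norm_eq_abs, abs_of_pos hτ0]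
        _ ≤ τ * (K * ‖x - y‖) := by
            apply mul_le_mul_of_nonneg_left _ hτ0.le
            have := hK.dist_le_mul x y
            rw [dist_eq_norm, dist_eq_norm] at this
            rwa [norm_sub_rev] at this
    have hK0 : (0 : ℝ) ≤ K := K.coe_nonneg
    nlinarith
  have hder : ∀ x ∈ (univ : Set (V n)),
      HasFDerivWithinAt (fun x => x + τ • X x) ((1 : V n →L[ℝ] V n) + τ • fderiv ℝ X x) univ x := by
    intro x _
    have h1 : HasFDerivAt X (fderiv ℝ X x) x :=
      (hX.differentiable (by simp) x).hasFDerivAt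
    exact ((hasFDerivAt_id x).add (h1.const_smul τ)).hasFDerivWithinAt
  have hbound : ∀ x, 1 / 2 ≤ |((1 : V n →L[ℝ] V n) + τ • fderiv ℝ X x).det| := by
    intro x
    apply hdet
    rw [add_sub_cancel_left, norm_smul, Real.norm_eq_abs, abs_of_pos hτ0]
    have h1 : ‖fderiv ℝ X x‖ ≤ K := norm_fderiv_le_of_lipschitz ℝ hK
    nlinarith [K.coe_nonneg]
  have himg := lintegral_image_eq_lintegral_abs_det_fderiv_mul (volume : Measure (V n))
    MeasurableSet.univ hder hinj f
  have h1 : ∫⁻ x in univ, ENNReal.ofReal (1 / 2) * f (x + τ • X x) ≤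
      ∫⁻ x in univ, ENNReal.ofReal |((1 : V n →L[ℝ] V n) + τ • fderiv ℝ X x).det| *
        f (x + τ • X x) := by
    refine lintegral_mono fun x => ?_
    exact mul_le_mul_left (ENNReal.ofReal_le_ofReal (hbound x)) _
  rw [← himg, setLIntegral_univ] at h1
  rw [lintegral_const_mul' _ _ ENNReal.ofReal_ne_top] at h1
  have h2 : ENNReal.ofReal (1 / 2) * ∫⁻ x, f (x + τ • X x) ≤ ∫⁻ x, f x :=
    h1.trans (setLIntegral_le_lintegral _ _)
  calc ∫⁻ x, f (x + τ • X x) = 2 * (ENNReal.ofReal (1 / 2) * ∫⁻ x, f (x + τ • X x)) := by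
        rw [← mul_assoc]
        have : (2 : ENNReal) * ENNReal.ofReal (1 / 2) = 1 := by
          rw [show (2 : ENNReal) = ENNReal.ofReal 2 by simp,
            ← ENNReal.ofReal_mul (by norm_num)]
          norm_num
        rw [this, one_mul]
    _ ≤ 2 * ∫⁻ x, f x := by gcongr

end OPC
end

section

/-! # H04: L2 continuity of composition -/

open MeasureTheory Set Filter Topology

namespace OPC

variable {n : ℕ}

private theorem h04_cont {X : V n → V n} (hX : ContDiff ℝ (⊤ : ℕ∞) X) (hXc : HasCompactSupport X)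
    {g : V n → ℝ} (hg : Continuous g) (hgc : HasCompactSupport g) :
    ∃ R : ℝ, (∀ τ ∈ Ioo (0 : ℝ) 1, ∀ x : V n, R < ‖x‖ → (g (x + τ • X x) - g x) ^ 2 = 0) ∧
      Tendsto (fun τ : ℝ => ∫ x, (g (x + τ • X x) - g x) ^ 2) (𝓝[>] 0) (𝓝 0) := by
  obtain ⟨M, hM⟩ := hX.continuous.bounded_above_of_compact_support hXc
  obtain ⟨C, hC⟩ := hg.bounded_above_of_compact_support hgc
  obtain ⟨R₀, hR₀⟩ := hgc.isCompact.isBounded.subset_closedBall (0 : V n)
  have hM0 : 0 ≤ M := (norm_nonneg _).trans (hM 0)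
  have hC0 : 0 ≤ C := (norm_nonneg _).trans (hC 0)
  have hz : ∀ x : V n, R₀ < ‖x‖ → g x = 0 := by
    intro x hx
    by_contra h
    have h1 : x ∈ tsupport g := subset_tsupport g h
    have h2 := hR₀ h1
    rw [mem_closedBall_zero_iff] at h2
    linarith
  have hR : ∀ τ ∈ Ioo (0 : ℝ) 1, ∀ x : V n, R₀ + M < ‖x‖ → (g (x + τ • X x) - g x) ^ 2 = 0 := by
    intro τ hτ x hx
    have h1 : g x = 0 := hz x (by linarith)
    have h2 : ‖τ • X x‖ ≤ M := by
      rw [norm_smul, Real.norm_eq_abs, abs_of_pos hτ.1]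
      calc τ * ‖X x‖ ≤ 1 * ‖X x‖ := mul_le_mul_of_nonneg_right hτ.2.le (norm_nonneg _)
        _ = ‖X x‖ := one_mul _
        _ ≤ M := hM x
    have h3 : ‖x‖ ≤ ‖x + τ • X x‖ + ‖τ • X x‖ := by
      calc ‖x‖ = ‖(x + τ • X x) - τ • X x‖ := by rw [add_sub_cancel_right]
        _ ≤ _ := norm_sub_le _ _
    have h4 : g (x + τ • X x) = 0 := hz _ (by linarith)
    rw [h1, h4]
    norm_num
  refine ⟨R₀ + M, hR, ?_⟩
  have hlim : Tendsto (fun τ : ℝ => ∫ x, (g (x + τ • X x) - g x) ^ 2) (𝓝[>] 0)
      (𝓝 (∫ _x : V n, (0 : ℝ))) := by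
    refine tendsto_integral_filter_of_dominated_convergence
      ((Metric.closedBall (0 : V n) (R₀ + M)).indicator (fun _ => (2 * C) ^ 2)) ?_ ?_ ?_ ?_
    · refine Eventually.of_forall fun τ => ?_
      refine Continuous.aestronglyMeasurable ?_
      have := hX.continuous
      fun_prop
    · have h1 : ∀ᶠ τ : ℝ in 𝓝[>] 0, τ ∈ Ioo (0 : ℝ) 1 := Ioo_mem_nhdsGT one_pos
      filter_upwards [h1] with τ hτ
      refine Eventually.of_forall fun x => ?_
      by_cases hx : x ∈ Metric.closedBall (0 : V n) (R₀ + M)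
      · rw [indicator_of_mem hx, norm_pow]
        refine pow_le_pow_left₀ (norm_nonneg _) ?_ 2
        calc ‖g (x + τ • X x) - g x‖ ≤ ‖g (x + τ • X x)‖ + ‖g x‖ := norm_sub_le _ _
          _ ≤ 2 * C := by linarith [hC (x + τ • X x), hC x]
      · rw [indicator_of_notMem hx]
        rw [mem_closedBall_zero_iff, not_le] at hx
        rw [hR τ hτ x hx, norm_zero]
    · refine (integrable_indicator_iff Metric.isClosed_closedBall.measurableSet).mpr ?_
      exact integrableOn_const (measure_closedBall_lt_top).ne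
    · refine Eventually.of_forall fun x => ?_
      have h1 : Continuous fun τ : ℝ => (g (x + τ • X x) - g x) ^ 2 := by fun_prop
      have h2 := (h1.tendsto 0).mono_left (nhdsWithin_le_nhds (s := Ioi (0 : ℝ)))
      simpa using h2
  simpa using hlim

/-- `L²`-continuity at `τ = 0`.
Sketch: approximate `f` in `L²` by a continuous compactly supported `g`
(`MemLp.exists_hasCompactSupport_eLpNorm_sub_le`); `‖f∘F - g∘F‖₂ ≤ √2 ‖f - g‖₂`; `g∘F → g` uniformly
with supports in a fixed compact set. -/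
theorem L2_comp {X : V n → V n} (hX : ContDiff ℝ (⊤ : ℕ∞) X) (hXc : HasCompactSupport X)
    {f : V n → ℝ} (hf : MemLp f 2) :
    Tendsto (fun τ : ℝ => ∫ x, (f (x + τ • X x) - f x) ^ 2) (𝓝[>] 0) (𝓝 0) := by
  obtain ⟨τ₀, hτ₀, hlin⟩ := lintegral_comp_le hX hXc
  obtain ⟨f', hf'm, hff'⟩ := hf.1
  have hXm : ∀ τ : ℝ, Measurable fun x : V n => x + τ • X x := by
    intro τ
    have := hX.continuous
    exact Continuous.measurable (by fun_prop)
  have hcomp : ∀ τ ∈ Ioo (0 : ℝ) τ₀,
      (fun x => f (x + τ • X x)) =ᵐ[volume] fun x => f' (x + τ • X x) := by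
    intro τ hτ
    set N := toMeasurable (volume : Measure (V n)) {x | f x ≠ f' x} with hN
    have hN0 : volume N = 0 := by
      rw [hN, measure_toMeasurable]
      exact hff'
    have h1 := hlin τ hτ (N.indicator 1) (measurable_one.indicator (measurableSet_toMeasurable _ _))
    have h2 : ∫⁻ x, N.indicator (1 : V n → ENNReal) x = 0 := by
      rw [lintegral_indicator_one (measurableSet_toMeasurable _ _), ← hN, hN0]
    rw [h2, mul_zero, nonpos_iff_eq_zero] at h1
    have h3 : Measurable fun x : V n => N.indicator (1 : V n → ENNReal) (x + τ • X x) :=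
      (measurable_one.indicator (measurableSet_toMeasurable _ _)).comp (hXm τ)
    rw [lintegral_eq_zero_iff h3] at h1
    filter_upwards [h1] with x hx
    by_contra hne
    have h4 : x + τ • X x ∈ N := subset_toMeasurable _ _ hne
    have h5 : N.indicator (1 : V n → ENNReal) (x + τ • X x) = 0 := hx
    rw [indicator_of_mem h4] at h5
    exact one_ne_zero h5
  rw [Metric.tendsto_nhds]
  intro ε hε
  have hf2 : MemLp f (ENNReal.ofReal 2) := by
    have : ENNReal.ofReal 2 = 2 := by norm_num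
    rw [this]
    exact hf
  obtain ⟨g, hgc, hg1, hg, hg2⟩ :=
    hf2.exists_hasCompactSupport_integral_rpow_sub_le (by norm_num) (ε := ε / 100) (by positivity)
  obtain ⟨R, hR, hlim⟩ := h04_cont hX hXc hg hgc
  have hdi : Integrable fun x => (f x - g x) ^ 2 := by
    have h1 : MemLp (fun x => f x - g x) 2 := by
      have h2 := hf2.sub hg2
      have : ENNReal.ofReal 2 = 2 := by norm_num
      rw [this] at h2
      exact h2
    exact h1.integrable_sq
  have hd : ∫⁻ x, ENNReal.ofReal ((f' x - g x) ^ 2) ≤ ENNReal.ofReal (ε / 100) := by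
    have h1 : ∫⁻ x, ENNReal.ofReal ((f' x - g x) ^ 2) = ∫⁻ x, ENNReal.ofReal ((f x - g x) ^ 2) := by
      refine lintegral_congr_ae ?_
      filter_upwards [hff'] with x hx
      rw [hx]
    rw [h1, ← ofReal_integral_eq_lintegral_ofReal hdi (Eventually.of_forall fun x => sq_nonneg _)]
    refine ENNReal.ofReal_le_ofReal ?_
    refine le_trans (le_of_eq ?_) hg1
    refine integral_congr_ae (Eventually.of_forall fun x => ?_)
    simp only [Real.rpow_two, Real.norm_eq_abs, sq_abs]
  have e1 : ∀ᶠ τ : ℝ in 𝓝[>] 0, τ ∈ Ioo (0 : ℝ) (min τ₀ 1) := Ioo_mem_nhdsGT (lt_min hτ₀ one_pos)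
  have e2 : ∀ᶠ τ : ℝ in 𝓝[>] 0, ∫ x, (g (x + τ • X x) - g x) ^ 2 < ε / 100 :=
    hlim.eventually_lt_const (by positivity)
  filter_upwards [e1, e2] with τ hτ hτ2
  have hτa : τ ∈ Ioo (0 : ℝ) τ₀ := ⟨hτ.1, hτ.2.trans_le (min_le_left _ _)⟩
  have hτb : τ ∈ Ioo (0 : ℝ) 1 := ⟨hτ.1, hτ.2.trans_le (min_le_right _ _)⟩
  -- the middle term
  have hgi : Integrable fun x => (g (x + τ • X x) - g x) ^ 2 := by
    refine Continuous.integrable_of_hasCompactSupport (by have := hX.continuous; fun_prop) ?_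
    refine HasCompactSupport.of_support_subset_isCompact (isCompact_closedBall (0 : V n) R) ?_
    intro x hx
    rw [mem_closedBall_zero_iff]
    by_contra h
    exact hx (hR τ hτb x (not_le.mp h))
  have hm : ∫⁻ x, ENNReal.ofReal ((g (x + τ • X x) - g x) ^ 2) ≤ ENNReal.ofReal (ε / 100) := by
    rw [← ofReal_integral_eq_lintegral_ofReal hgi (Eventually.of_forall fun x => sq_nonneg _)]
    exact ENNReal.ofReal_le_ofReal hτ2.le
  have hmeas : Measurable fun x => ENNReal.ofReal ((f' x - g x) ^ 2) :=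
    ((hf'm.measurable.sub hg.measurable).pow_const 2).ennreal_ofReal
  have hc : ∫⁻ x, ENNReal.ofReal ((f' (x + τ • X x) - g (x + τ • X x)) ^ 2) ≤
      2 * ENNReal.ofReal (ε / 100) :=
    (hlin τ hτa _ hmeas).trans (mul_le_mul_right hd 2)
  have hpt : ∀ x, ENNReal.ofReal ((f' (x + τ • X x) - f' x) ^ 2) ≤
      3 * (ENNReal.ofReal ((f' (x + τ • X x) - g (x + τ • X x)) ^ 2) +
        (ENNReal.ofReal ((g (x + τ • X x) - g x) ^ 2) + ENNReal.ofReal ((f' x - g x) ^ 2))) := by
    intro x
    rw [← ENNReal.ofReal_add (sq_nonneg _) (sq_nonneg _),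
      ← ENNReal.ofReal_add (sq_nonneg _) (by positivity),
      show (3 : ENNReal) = ENNReal.ofReal 3 by norm_num, ← ENNReal.ofReal_mul (by norm_num)]
    refine ENNReal.ofReal_le_ofReal ?_
    set a := f' (x + τ • X x)
    set b := g (x + τ • X x)
    set c := g x
    set d := f' x
    nlinarith [sq_nonneg ((a - b) - (b - c)), sq_nonneg ((b - c) + (d - c)),
      sq_nonneg ((a - b) + (d - c))]
  have hm1 : Measurable fun x => ENNReal.ofReal ((f' (x + τ • X x) - g (x + τ • X x)) ^ 2) :=
    hmeas.comp (hXm τ)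
  have hm2 : Measurable fun x => ENNReal.ofReal ((g (x + τ • X x) - g x) ^ 2) := by
    have : Continuous fun x => (g (x + τ • X x) - g x) ^ 2 := by
      have := hX.continuous
      fun_prop
    exact this.measurable.ennreal_ofReal
  have htot : ∫⁻ x, ENNReal.ofReal ((f' (x + τ • X x) - f' x) ^ 2) ≤
      ENNReal.ofReal (12 * (ε / 100)) := by
    calc ∫⁻ x, ENNReal.ofReal ((f' (x + τ • X x) - f' x) ^ 2)
        ≤ ∫⁻ x, 3 * (ENNReal.ofReal ((f' (x + τ • X x) - g (x + τ • X x)) ^ 2) +
          (ENNReal.ofReal ((g (x + τ • X x) - g x) ^ 2) + ENNReal.ofReal ((f' x - g x) ^ 2))) :=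
          lintegral_mono hpt
      _ = 3 * ((∫⁻ x, ENNReal.ofReal ((f' (x + τ • X x) - g (x + τ • X x)) ^ 2)) +
          ((∫⁻ x, ENNReal.ofReal ((g (x + τ • X x) - g x) ^ 2)) +
            (∫⁻ x, ENNReal.ofReal ((f' x - g x) ^ 2)))) := by
          rw [lintegral_const_mul' _ _ (by norm_num), lintegral_add_left hm1,
            lintegral_add_left hm2]
      _ ≤ 3 * (2 * ENNReal.ofReal (ε / 100) + (ENNReal.ofReal (ε / 100) + ENNReal.ofReal (ε / 100))) := by
          gcongr
      _ = ENNReal.ofReal (12 * (ε / 100)) := by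
          rw [show (3 : ENNReal) = ENNReal.ofReal 3 by norm_num,
            show (2 : ENNReal) = ENNReal.ofReal 2 by norm_num, ← ENNReal.ofReal_mul (by norm_num),
            ← ENNReal.ofReal_add (by positivity) (by positivity),
            ← ENNReal.ofReal_add (by positivity) (by positivity),
            ← ENNReal.ofReal_mul (by norm_num)]
          congr 1
          ring
  have heq : ∫ x, (f (x + τ • X x) - f x) ^ 2 = ∫ x, (f' (x + τ • X x) - f' x) ^ 2 := by
    refine integral_congr_ae ?_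
    filter_upwards [hcomp τ hτa, hff'] with x h1 h2
    have h1' : f (x + τ • X x) = f' (x + τ • X x) := h1
    show (f (x + τ • X x) - f x) ^ 2 = (f' (x + τ • X x) - f' x) ^ 2
    rw [h1', h2]
  have hsm : AEStronglyMeasurable (fun x => (f' (x + τ • X x) - f' x) ^ 2) volume :=
    (((hf'm.measurable.comp (hXm τ)).sub hf'm.measurable).pow_const 2).aestronglyMeasurable
  rw [Real.dist_eq, sub_zero, heq,
    integral_eq_lintegral_of_nonneg_ae (Eventually.of_forall fun x => sq_nonneg _) hsm,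
    abs_of_nonneg ENNReal.toReal_nonneg]
  calc (∫⁻ x, ENNReal.ofReal ((f' (x + τ • X x) - f' x) ^ 2)).toReal
      ≤ (ENNReal.ofReal (12 * (ε / 100))).toReal := ENNReal.toReal_mono ENNReal.ofReal_ne_top htot
    _ = 12 * (ε / 100) := ENNReal.toReal_ofReal (by positivity)
    _ < ε := by linarith

end OPC
end
end
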