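import Pool.Agent.Lib.MP_9059b8_an.A10
import Pool.Agent.Lib.MP_9059b8_an.P03
import Pool.Agent.Lib.MP_9059b8_an.A06
import Pool.Agent.Lib.MP_9059b8_an.H04

section

section

/-! # H07: pointwise identity for the second variation -/

open MeasureTheory Set Filter Topology

namespace OPC

variable {n : ℕ} {E : Set (V n)} {u : V n → ℝ}

/-- The algebra behind `I2_identity`, left side: for `A_{ij} = p_j q_i/g + f (S_{ij}/g - 2 q_i w_j/g²)`
with `S` symmetric and traceless, `w = S q`, `g = |q|² ≠ 0`. -/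
private theorem I2_alg (g f : ℝ) (hg : g ≠ 0) (q p w : Fin n → ℝ) (S : Fin n → Fin n → ℝ)
    (hgq : ∑ i, q i ^ 2 = g) (hS : ∀ i j, S i j = S j i) (htr : ∑ i, S i i = 0)
    (hw : ∀ i, w i = ∑ j, S i j * q j) :
    I2 (fun i j => p j * (q i / g) + f * ((S i j * g - q i * (2 * w j)) / g ^ 2)) q =
      ∑ i, p i ^ 2 - (1 + g) / g ^ 2 * f * ∑ i, p i * w i
        + f ^ 2 * (-((1 + g) / (2 * g ^ 2)) * (∑ i, ∑ j, S i j ^ 2)
          + (2 / g ^ 3 + 1 / g ^ 2) * ∑ i, w i ^ 2) := by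
  -- scalars
  set pq := ∑ i, p i * q i with hpq
  set pw := ∑ i, p i * w i with hpw
  set qw := ∑ i, q i * w i with hqw
  set ww := ∑ i, w i ^ 2 with hww
  set pp := ∑ i, p i ^ 2 with hpp
  set NS := ∑ i, ∑ j, S i j ^ 2 with hNS
  have hw' : ∀ j, ∑ i, S i j * q i = w j := by
    intro j; rw [hw j]; exact Finset.sum_congr rfl fun i _ => by rw [hS i j]
  -- (1)
  have h1 : ∀ j, ∑ i, (p j * (q i / g) + f * ((S i j * g - q i * (2 * w j)) / g ^ 2)) * q i
      = p j - f * w j / g := by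
    intro j
    have e1 : ∀ i, (p j * (q i / g) + f * ((S i j * g - q i * (2 * w j)) / g ^ 2)) * q i
        = (p j / g - 2 * f * w j / g ^ 2) * q i ^ 2 + (f / g) * (S i j * q i) := by
      intro i; field_simp; ring
    rw [Finset.sum_congr rfl fun i _ => e1 i, Finset.sum_add_distrib, ← Finset.mul_sum,
      ← Finset.mul_sum, hw' j, hgq]
    field_simp; ring
  -- (2)
  have h2 : ∀ j, ∑ k, (p k * (q j / g) + f * ((S j k * g - q j * (2 * w k)) / g ^ 2)) * q k
      = (pq / g - 2 * f * qw / g ^ 2) * q j + f / g * w j := by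
    intro j
    have e1 : ∀ k, (p k * (q j / g) + f * ((S j k * g - q j * (2 * w k)) / g ^ 2)) * q k
        = (q j / g) * (p k * q k) + (- 2 * f * q j / g ^ 2) * (q k * w k)
          + (f / g) * (S j k * q k) := by
      intro k; field_simp; ring
    rw [Finset.sum_congr rfl fun i _ => e1 i, Finset.sum_add_distrib, Finset.sum_add_distrib,
      ← Finset.mul_sum, ← Finset.mul_sum, ← Finset.mul_sum, ← hw j, ← hpq, ← hqw]
    ring
  -- (3)
  have h3 : ∑ i, ∑ j, q i * (p j * (q i / g) + f * ((S i j * g - q i * (2 * w j)) / g ^ 2)) * q j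
      = pq - f * qw / g := by
    rw [Finset.sum_comm]
    have e1 : ∀ j, ∑ i, q i * (p j * (q i / g) + f * ((S i j * g - q i * (2 * w j)) / g ^ 2)) * q j
        = p j * q j - (f / g) * (q j * w j) := by
      intro j
      have e2 : ∀ i, q i * (p j * (q i / g) + f * ((S i j * g - q i * (2 * w j)) / g ^ 2)) * q j
        = q j * ((p j * (q i / g) + f * ((S i j * g - q i * (2 * w j)) / g ^ 2)) * q i) := by
        intro i; ring
      rw [Finset.sum_congr rfl fun i _ => e2 i, ← Finset.mul_sum, h1 j]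
      ring
    rw [Finset.sum_congr rfl fun j _ => e1 j, Finset.sum_sub_distrib, ← Finset.mul_sum]
    ring
  -- (4)
  have h4 : ∑ i, (p i * (q i / g) + f * ((S i i * g - q i * (2 * w i)) / g ^ 2))
      = pq / g - 2 * f * qw / g ^ 2 := by
    have e1 : ∀ i, (p i * (q i / g) + f * ((S i i * g - q i * (2 * w i)) / g ^ 2))
        = (1 / g) * (p i * q i) + (f / g) * S i i + (- 2 * f / g ^ 2) * (q i * w i) := by
      intro i; field_simp; ring
    rw [Finset.sum_congr rfl fun i _ => e1 i, Finset.sum_add_distrib, Finset.sum_add_distrib,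
      ← Finset.mul_sum, ← Finset.mul_sum, ← Finset.mul_sum, htr, ← hpq, ← hqw]
    ring
  -- (5)
  have h5 : ∑ i, ∑ j, (p j * (q i / g) + f * ((S i j * g - q i * (2 * w j)) / g ^ 2))
        * (p i * (q j / g) + f * ((S j i * g - q j * (2 * w i)) / g ^ 2))
      = pq ^ 2 / g ^ 2 + 2 * f / g * (pw / g - 2 * pq * qw / g ^ 2)
        + f ^ 2 * (NS / g ^ 2 - 4 * ww / g ^ 3 + 4 * qw ^ 2 / g ^ 4) := by
    have e1 : ∀ i j, (p j * (q i / g) + f * ((S i j * g - q i * (2 * w j)) / g ^ 2))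
        * (p i * (q j / g) + f * ((S j i * g - q j * (2 * w i)) / g ^ 2))
        = (1 / g ^ 2) * ((p i * q i) * (p j * q j))
          + (f / g ^ 2) * ((p j) * (S j i * q i)) + (f / g ^ 2) * ((p i) * (S i j * q j))
          + (-2 * f / g ^ 3) * ((p j * q j) * (q i * w i))
          + (-2 * f / g ^ 3) * ((p i * q i) * (q j * w j))
          + (f ^ 2 / g ^ 2) * (S i j ^ 2)
          + (- 2 * f ^ 2 / g ^ 3) * (w i * (S i j * q j))
          + (- 2 * f ^ 2 / g ^ 3) * (w j * (S j i * q i))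
          + (4 * f ^ 2 / g ^ 4) * ((q i * w i) * (q j * w j)) := by
      intro i j
      rw [hS j i]
      field_simp; ring
    have s1 : ∑ i, ∑ j, ((p i * q i) * (p j * q j)) = pq * pq := by
      rw [hpq, Finset.sum_mul_sum]
    have s2 : ∑ i, ∑ j, ((p j) * (S j i * q i)) = pw := by
      rw [Finset.sum_comm, hpw]
      refine Finset.sum_congr rfl fun j _ => ?_
      rw [← Finset.mul_sum, ← hw j]
    have s3 : ∑ i, ∑ j, ((p i) * (S i j * q j)) = pw := by
      rw [hpw]
      refine Finset.sum_congr rfl fun j _ => ?_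
      rw [← Finset.mul_sum, ← hw j]
    have s4 : ∑ i, ∑ j, ((p j * q j) * (q i * w i)) = pq * qw := by
      rw [Finset.sum_comm, hpq, hqw, Finset.sum_mul_sum]
    have s5 : ∑ i, ∑ j, ((p i * q i) * (q j * w j)) = pq * qw := by
      rw [hpq, hqw, Finset.sum_mul_sum]
    have s7 : ∑ i, ∑ j, (w i * (S i j * q j)) = ww := by
      rw [hww]
      refine Finset.sum_congr rfl fun j _ => ?_
      rw [← Finset.mul_sum, ← hw j]; ring
    have s8 : ∑ i, ∑ j, (w j * (S j i * q i)) = ww := by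
      rw [Finset.sum_comm]; exact s7
    have s9 : ∑ i, ∑ j, ((q i * w i) * (q j * w j)) = qw * qw := by
      rw [hqw, Finset.sum_mul_sum]
    simp only [e1, Finset.sum_add_distrib, ← Finset.mul_sum] at s1 s2 s3 s4 s5 s7 s8 s9 ⊢
    rw [s1, s2, s3, s4, s5, s7, s8, s9, ← hNS]
    field_simp; ring
  -- (6)
  have h6 : ∑ j, (p j - f * w j / g) ^ 2 = pp - 2 * f / g * pw + f ^ 2 / g ^ 2 * ww := by
    have e1 : ∀ j, (p j - f * w j / g) ^ 2
        = p j ^ 2 + (- 2 * f / g) * (p j * w j) + (f ^ 2 / g ^ 2) * w j ^ 2 := by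
      intro j; field_simp; ring
    rw [Finset.sum_congr rfl fun i _ => e1 i, Finset.sum_add_distrib, Finset.sum_add_distrib,
      ← Finset.mul_sum, ← Finset.mul_sum]
    ring
  -- (7)
  have h7 : ∑ j, (p j - f * w j / g) * ((pq / g - 2 * f * qw / g ^ 2) * q j + f / g * w j)
      = (pq / g - 2 * f * qw / g ^ 2) * (pq - f * qw / g) + f / g * pw - f ^ 2 / g ^ 2 * ww := by
    have e1 : ∀ j, (p j - f * w j / g) * ((pq / g - 2 * f * qw / g ^ 2) * q j + f / g * w j)
        = (pq / g - 2 * f * qw / g ^ 2) * (p j * q j) + (f / g) * (p j * w j)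
          + (- f / g * (pq / g - 2 * f * qw / g ^ 2)) * (q j * w j)
          + (- f ^ 2 / g ^ 2) * w j ^ 2 := by
      intro j; field_simp; ring
    rw [Finset.sum_congr rfl fun i _ => e1 i, Finset.sum_add_distrib, Finset.sum_add_distrib,
      Finset.sum_add_distrib, ← Finset.mul_sum, ← Finset.mul_sum, ← Finset.mul_sum,
      ← Finset.mul_sum, ← hpq, ← hpw, ← hqw, ← hww]
    ring
  unfold I2
  simp only [h1, h2, h3, h4, h5, h6, h7, hgq]
  field_simp
  ring

/-- quotient of differentiable functions -/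
private theorem diff_div {f g : V n → ℝ} {x : V n} (hf : DifferentiableAt ℝ f x)
    (hg : DifferentiableAt ℝ g x) (h0 : g x ≠ 0) :
    DifferentiableAt ℝ (fun y => f y / g y) x := by
  have h1 : (fun y => f y / g y) = fun y => f y * (g y)⁻¹ := by
    funext y; rw [div_eq_mul_inv]
  rw [h1]
  exact hf.mul (hg.inv h0)

/-- Pointwise identity: for `Ψ = φ q/|q|²`,
`I2 (DΨ) q = |∇φ|² - 2 φ ∇φ·w - |S|² φ² + div (½ φ² G(g) w)`, `g = |q|²`, `G(g) = 2 - (1+g)/g²`.
Sketch: `A_{ij} = ∂_jΨ_i = n_i ∂_jφ + φ N_{ij}`, `n = q/g`, `N_{ij} = S_{ij}/g - 2 q_i w_j/g²`. Then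
`Aᵀq = ∇φ - φ w/g`, `Aq = n (q·∇φ) + φ (w/g - 2σ q/g)`, `q·Aq = q·∇φ - φσ`,
`tr A = n·∇φ - 2σφ/g`, `(tr A)² - tr A² = 2φ ∇φ·(tr N n - N n) + φ² ((tr N)² - tr N²)`,
`tr N = -2σ/g`, `N n = w/g² - 2σ q/g²`, `(tr N)² - tr N² = -|S|²/g² + 4|w|²/g³` (with `q·w = σ g`).
Sum: `I2 = |∇φ|² - ((1+g)/g²) φ ∇φ·w + φ² (-((1+g)/(2g²)) |S|² + (2/g³ + 1/g²) |w|²)`, and
`div (½ φ² G w) = φ G ∇φ·w + ½ φ² (G |S|² + G'(g) 2 |w|²)`, `G' = 2/g³ + 1/g²`. -/
theorem Sol.I2_identity (h : Sol E u) {φ : V n → ℝ} (hφ : ContDiffOn ℝ (⊤ : ℕ∞) φ E) {x : V n}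
    (hx : x ∈ E) :
    I2 (fun i j => pd j (fun y => φ y * (q u i y / gg u y)) x) (fun i => q u i x) =
      ∑ i, (pd i φ x) ^ 2 - 2 * φ x * ∑ i, pd i φ x * w u i x - NN u x * φ x ^ 2
      + ∑ i, pd i (fun y => (1 / 2) * φ y ^ 2 * (2 - (1 + gg u y) / gg u y ^ 2) * w u i y) x := by
  have hg : gg u x ≠ 0 := by
    intro h0
    have hq : ∀ i, q u i x = 0 := by
      have := (Finset.sum_eq_zero_iff_of_nonneg (s := (Finset.univ : Finset (Fin n)))
        (fun i _ => sq_nonneg (q u i x))).1 h0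
      intro i; simpa using this i (Finset.mem_univ i)
    have := h.euler_u hx
    simp [hq] at this
    exact (h.pos x hx).ne this
  have dφ : DifferentiableAt ℝ φ x := diffAt h.isOpen hφ hx
  have dg : DifferentiableAt ℝ (gg u) x := diffAt h.isOpen h.smooth_gg hx
  have dq : ∀ i, DifferentiableAt ℝ (q u i) x := fun i => h.diff_q i hx
  have dw : ∀ i, DifferentiableAt ℝ (w u i) x := fun i => diffAt h.isOpen (h.smooth_w i) hx
  -- derivative of the vector field
  have hA : ∀ i j, pd j (fun y => φ y * (q u i y / gg u y)) x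
      = pd j φ x * (q u i x / gg u x)
        + φ x * ((S u i j x * gg u x - q u i x * (2 * w u j x)) / gg u x ^ 2) := by
    intro i j
    rw [pd_mul (g := fun y => q u i y / gg u y) dφ (diff_div (dq i) dg hg), pd_div (dq i) dg hg,
      pd_q, h.pd_gg j hx, h.S_symm j i hx]
  have hI := I2_alg (gg u x) (φ x) hg (fun i => q u i x) (fun i => pd i φ x) (fun i => w u i x)
    (fun i j => S u i j x) rfl (fun i j => h.S_symm i j hx) (h.tr_S hx) (fun i => rfl)
  have hA' : (fun i j => pd j (fun y => φ y * (q u i y / gg u y)) x) =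
      (fun i j => pd j φ x * (q u i x / gg u x)
        + φ x * ((S u i j x * gg u x - q u i x * (2 * w u j x)) / gg u x ^ 2)) := by
    funext i j; exact hA i j
  rw [hA', hI]
  -- the divergence term
  have hD : ∀ i, pd i (fun y => (1 / 2) * φ y ^ 2 * (2 - (1 + gg u y) / gg u y ^ 2) * w u i y) x
      = (φ x * (2 - (1 + gg u x) / gg u x ^ 2)) * (pd i φ x * w u i x)
        + (φ x ^ 2 * (2 / gg u x ^ 3 + 1 / gg u x ^ 2)) * w u i x ^ 2
        + ((1 / 2) * φ x ^ 2 * (2 - (1 + gg u x) / gg u x ^ 2)) * pd i (w u i) x := by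
    intro i
    have d1 : DifferentiableAt ℝ (fun y => (1 / 2) * φ y ^ 2) x := (dφ.pow 2).const_mul _
    have d2 : DifferentiableAt ℝ (fun y => 1 + gg u y) x := dg.const_add 1
    have d3 : DifferentiableAt ℝ (fun y => gg u y ^ 2) x := dg.pow 2
    have d4 : DifferentiableAt ℝ (fun y => (1 + gg u y) / gg u y ^ 2) x :=
      diff_div d2 d3 (pow_ne_zero 2 hg)
    have d5 : DifferentiableAt ℝ (fun y => 2 - (1 + gg u y) / gg u y ^ 2) x := d4.const_sub 2
    rw [pd_mul (f := fun y => (1 / 2) * φ y ^ 2 * (2 - (1 + gg u y) / gg u y ^ 2))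
        (d1.mul d5) (dw i),
      pd_mul (f := fun y => (1 / 2) * φ y ^ 2) (g := fun y => 2 - (1 + gg u y) / gg u y ^ 2) d1 d5,
      pd_const_mul (f := fun y => φ y ^ 2), pd_pow dφ,
      pd_sub (f := fun _ => 2) (g := fun y => (1 + gg u y) / gg u y ^ 2)
        (differentiableAt_const _) d4,
      pd_div (f := fun y => 1 + gg u y) (g := fun y => gg u y ^ 2) d2 d3 (pow_ne_zero 2 hg),
      pd_add (f := fun _ => 1) (differentiableAt_const _) dg, pd_pow dg, pd_const, pd_const,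
      h.pd_gg i hx]
    field_simp
    ring
  simp only [hD, Finset.sum_add_distrib, ← Finset.mul_sum]
  rw [h.div_w hx]
  simp only [NN]
  field_simp
  ring

end OPC
end

section

/-! # H02: pushing the closed cone into the open cone -/

open MeasureTheory Set Filter Topology

namespace OPC

variable {n : ℕ} {E : Set (V n)} {u : V n → ℝ}

/-- A curve in the direction `X x` that starts in `E` near the free boundary climbs at speed at
least `c / 2`. -/
private theorem push_aux (h : Sol E u) {a b a' b' : ℝ} {X : V n → V n}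
    (hX1 : ∀ x, ‖X x‖ ≤ 1) {c ε : ℝ} (hc : 0 < c)
    (hq : ∀ x ∈ E, x ∈ Ann a b → u x < ε → c ≤ ∑ i, q u i x * X x i)
    {C K τ₁ : ℝ} (hC0 : 0 ≤ C) (hC : ∀ x ∈ E, x ∈ Ann a b → ∀ i, |q u i x| ≤ C)
    (hK0 : 0 ≤ K) (hK : ∀ x y, ‖X x - X y‖ ≤ K * ‖x - y‖)
    (hτa : a + τ₁ ≤ a') (hτb : b' + τ₁ ≤ b) (hτ : n * C * K * τ₁ < c / 2)
    (hu : ∀ x y : V n, ‖x‖ ≤ b → ‖y‖ ≤ b → ‖x - y‖ ≤ τ₁ → u y < u x + ε / 2)
    {x : V n} (hxE : x ∈ E) (hxA : x ∈ Ann a' b') (hux : u x < ε / 2) :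
    ∀ s ∈ Icc (0 : ℝ) τ₁, u x + c / 2 * s ≤ u (x + s • X x) := by
  set S : Set ℝ := {s | u x + c / 2 * s ≤ u (x + s • X x)} with hS
  have hcont : Continuous (fun s : ℝ => u (x + s • X x)) :=
    h.cont.comp (continuous_const.add (continuous_id.smul continuous_const))
  have hScl : IsClosed S :=
    isClosed_le (continuous_const.add (continuous_const.mul continuous_id)) hcont
  have h0 : (0 : ℝ) ∈ S := by
    change u x + c / 2 * 0 ≤ u (x + (0 : ℝ) • X x)
    simp
  have hsub : Icc (0 : ℝ) τ₁ ⊆ S := by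
    refine (hScl.inter isClosed_Icc).Icc_subset_of_forall_exists_gt h0 ?_
    rintro s ⟨hsS, hs0, hsτ⟩ y hy
    have hupos : 0 < u x := h.pos x hxE
    have hsS' : u x + c / 2 * s ≤ u (x + s • X x) := hsS
    have hγE : x + s • X x ∈ E := by
      rw [h.eq_pos]
      change 0 < u (x + s • X x)
      have : 0 ≤ c / 2 * s := by positivity
      linarith
    have hsn : ‖s • X x‖ ≤ s := by
      rw [norm_smul, Real.norm_of_nonneg hs0]
      calc s * ‖X x‖ ≤ s * 1 := mul_le_mul_of_nonneg_left (hX1 x) hs0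
        _ = s := mul_one s
    have hnb : ‖x + s • X x‖ ≤ b := by
      have := norm_add_le x (s • X x)
      linarith [hxA.2]
    have hna : a ≤ ‖x + s • X x‖ := by
      have h1 := norm_sub_norm_le x (-(s • X x))
      rw [norm_neg, sub_neg_eq_add] at h1
      linarith [hxA.1]
    have hAnn : x + s • X x ∈ (Ann a b : Set (V n)) := ⟨hna, hnb⟩
    have huγ : u (x + s • X x) < ε := by
      have h1 := hu x (x + s • X x) (by linarith [hxA.2, hs0.trans hsτ.le]) hnb (by
        rw [sub_add_cancel_left, norm_neg]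
        linarith)
      linarith
    have hd : HasDerivAt (fun s : ℝ => u (x + s • X x)) (fderiv ℝ u (x + s • X x) (X x)) s := by
      have h1 : HasDerivAt (fun s : ℝ => x + s • X x) (X x) s := by
        have h2 := ((hasDerivAt_id s).smul_const (X x)).const_add x
        rw [one_smul] at h2
        exact h2
      exact (diffAt h.isOpen h.smooth hγE).hasFDerivAt.comp_hasDerivAt s h1
    have hdge : c / 2 < fderiv ℝ u (x + s • X x) (X x) := by
      rw [fderiv_apply_eq_sum]
      have h1 := hq _ hγE hAnn huγ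
      have h2 : ∑ i, (q u i (x + s • X x) * X (x + s • X x) i - X x i * pd i u (x + s • X x)) ≤
          ∑ _i : Fin n, C * (K * s) := by
        apply Finset.sum_le_sum
        intro i _
        have h3 : |q u i (x + s • X x)| ≤ C := hC _ hγE hAnn i
        have h4 : |X (x + s • X x) i - X x i| ≤ K * s := by
          have h5 : ‖(X (x + s • X x) - X x) i‖ ≤ ‖X (x + s • X x) - X x‖ :=
            PiLp.norm_apply_le _ i
          have h6 := hK (x + s • X x) x
          rw [add_sub_cancel_left] at h6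
          rw [Real.norm_eq_abs] at h5
          have h7 : (X (x + s • X x) - X x) i = X (x + s • X x) i - X x i := rfl
          rw [h7] at h5
          exact (h5.trans h6).trans (mul_le_mul_of_nonneg_left hsn hK0)
        have h8 : q u i (x + s • X x) * X (x + s • X x) i - X x i * pd i u (x + s • X x) =
            q u i (x + s • X x) * (X (x + s • X x) i - X x i) := by
          change q u i (x + s • X x) * X (x + s • X x) i - X x i * q u i (x + s • X x) = _
          ring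
        rw [h8]
        calc q u i (x + s • X x) * (X (x + s • X x) i - X x i)
            ≤ |q u i (x + s • X x) * (X (x + s • X x) i - X x i)| := le_abs_self _
          _ = |q u i (x + s • X x)| * |X (x + s • X x) i - X x i| := abs_mul _ _
          _ ≤ C * (K * s) := mul_le_mul h3 h4 (abs_nonneg _) hC0
      rw [Finset.sum_sub_distrib, Finset.sum_const, Finset.card_univ, Fintype.card_fin,
        nsmul_eq_mul] at h2
      have h9 : (n : ℝ) * (C * (K * s)) ≤ n * C * K * τ₁ := by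
        have : (n : ℝ) * (C * (K * s)) = n * C * K * s := by ring
        rw [this]
        exact mul_le_mul_of_nonneg_left hsτ.le (by positivity)
      linarith
    have hslope := (hasDerivAt_iff_tendsto_slope.1 hd)
    have hev : ∀ᶠ z in 𝓝[>] s, c / 2 < slope (fun s : ℝ => u (x + s • X x)) s z :=
      (hslope.eventually_const_lt hdge).filter_mono (nhdsWithin_mono s fun z hz => (ne_of_gt hz))
    have hev2 : ∀ᶠ z in 𝓝[>] s, z ∈ Ioc s y := Ioc_mem_nhdsGT hy
    obtain ⟨z, hz1, hz2⟩ := (hev.and hev2).exists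
    refine ⟨z, ?_, hz2⟩
    change u x + c / 2 * z ≤ u (x + z • X x)
    rw [slope_def_field, lt_div_iff₀ (sub_pos.2 hz2.1)] at hz1
    nlinarith
  intro s hs
  exact hsub hs

/-- Pushing: for small `τ > 0`, `x + τ X x ∈ E` for every `x ∈ closure E` in a smaller annulus.
Sketch: `u` is uniformly continuous on bounded sets. If `u x ≥ ε/2`: `|u (x+τX) - u x| < ε/2` for
small `τ`. If `x ∈ E`, `u x < ε/2`: let `γ s = x + s X x`, `s ∈ [0, τ]`; `γ s` stays in `Ann a b` and
`u (γ s) < ε`. As long as `γ ∈ E` on `[0, s]`: `d/ds u (γ s) = ∑ q_i(γ s) X_i x ≥ c - C s ≥ c/2`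
(`X` Lipschitz, `|q| ≤ 1` (`Sol.gg_le_one`) or bounded (`Sol.bounds`)), so `u (γ s) ≥ u x + c s/2 > 0` and
by connectedness `γ` never leaves `E`; so `u (x + τ X x) ≥ c τ/2`. For `x ∈ closure E` approximate. -/
theorem Sol.push (h : Sol E u) {a b a' b' : ℝ} (ha : 0 < a) (ha' : a < a') (hb' : b' < b)
    {X : V n → V n} (hX : ContDiff ℝ (⊤ : ℕ∞) X) (hXc : HasCompactSupport X)
    (hX1 : ∀ x, ‖X x‖ ≤ 1) {c ε : ℝ} (hc : 0 < c) (hε : 0 < ε)
    (hq : ∀ x ∈ E, x ∈ Ann a b → u x < ε → c ≤ ∑ i, q u i x * X x i) :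
    ∃ τ₀ > 0, ∀ τ ∈ Ioo (0 : ℝ) τ₀, ∀ x ∈ closure E, x ∈ Ann a' b' → x + τ • X x ∈ E := by
  obtain ⟨C, _, hC1, _, hCb⟩ := h.bounds (b := b) ha
  obtain ⟨K, hK⟩ := hX.lipschitzWith_of_hasCompactSupport hXc (by simp)
  have hC0 : (0 : ℝ) ≤ C := zero_le_one.trans hC1
  have hK0 : (0 : ℝ) ≤ K := K.2
  -- uniform continuity on a large ball
  have huc : UniformContinuousOn u (Metric.closedBall (0 : V n) b) :=
    (isCompact_closedBall (0 : V n) b).uniformContinuousOn_of_continuous h.cont.continuousOn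
  rw [Metric.uniformContinuousOn_iff] at huc
  obtain ⟨δ, hδ, huc⟩ := huc (ε / 2) (by positivity)
  set M : ℝ := n * C * K with hM
  have hM0 : 0 ≤ M := by positivity
  -- the intermediate annulus
  set a₁ : ℝ := (a + a') / 2 with ha₁
  set b₁ : ℝ := (b + b') / 2 with hb₁
  obtain ⟨τ₀, hτ₀, h1, h2, h3, h4⟩ : ∃ τ₀ : ℝ, 0 < τ₀ ∧ a + τ₀ ≤ a₁ ∧ b₁ + τ₀ ≤ b ∧
      M * τ₀ < c / 2 ∧ τ₀ < δ := by
    refine ⟨min (min ((a' - a) / 2) ((b - b') / 2)) (min (c / (4 * (M + 1))) (δ / 2)), ?_, ?_, ?_, ?_, ?_⟩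
    · have : 0 < c / (4 * (M + 1)) := by positivity
      exact lt_min (lt_min (by linarith) (by linarith)) (lt_min this (by linarith))
    · have := (min_le_left (min ((a' - a) / 2) ((b - b') / 2))
        (min (c / (4 * (M + 1))) (δ / 2))).trans (min_le_left _ _)
      linarith
    · have := (min_le_left (min ((a' - a) / 2) ((b - b') / 2))
        (min (c / (4 * (M + 1))) (δ / 2))).trans (min_le_right _ _)
      linarith
    · have h5 := (min_le_right (min ((a' - a) / 2) ((b - b') / 2))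
        (min (c / (4 * (M + 1))) (δ / 2))).trans (min_le_left _ _)
      have h6 := mul_le_mul_of_nonneg_left h5 hM0
      refine h6.trans_lt ?_
      rw [mul_div_assoc', div_lt_div_iff₀ (by positivity) (by norm_num)]
      nlinarith
    · have := (min_le_right (min ((a' - a) / 2) ((b - b') / 2))
        (min (c / (4 * (M + 1))) (δ / 2))).trans (min_le_right _ _)
      linarith
  have hu : ∀ x y : V n, ‖x‖ ≤ b → ‖y‖ ≤ b → ‖x - y‖ ≤ τ₀ → |u x - u y| < ε / 2 := by
    intro x y hx hy hxy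
    have := huc x (by simpa using hx) y (by simpa using hy) (by
      rw [dist_eq_norm]
      exact hxy.trans_lt h4)
    rwa [Real.dist_eq] at this
  refine ⟨τ₀, hτ₀, fun τ hτ x hx hxA => ?_⟩
  have hτn : ∀ y : V n, ‖τ • X y‖ ≤ τ := fun y => by
    rw [norm_smul, Real.norm_of_nonneg hτ.1.le]
    calc τ * ‖X y‖ ≤ τ * 1 := mul_le_mul_of_nonneg_left (hX1 y) hτ.1.le
      _ = τ := mul_one τ
  rw [h.eq_pos]
  change 0 < u (x + τ • X x)
  by_cases hux : u x < ε / 2
  · -- approximate by points of `E`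
    have hne : (𝓝[E] x).NeBot := mem_closure_iff_nhdsWithin_neBot.1 hx
    have hcont : Continuous (fun y : V n => u (y + τ • X y)) :=
      h.cont.comp (continuous_id.add (hX.continuous.const_smul τ))
    have hlim : Tendsto (fun y : V n => u (y + τ • X y)) (𝓝[E] x) (𝓝 (u (x + τ • X x))) :=
      (hcont.tendsto x).mono_left nhdsWithin_le_nhds
    have hge : c / 2 * τ ≤ u (x + τ • X x) := by
      refine ge_of_tendsto hlim ?_
      have e1 : ∀ᶠ y in 𝓝[E] x, y ∈ E := self_mem_nhdsWithin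
      have e2 : ∀ᶠ y in 𝓝[E] x, a₁ < ‖y‖ :=
        mem_nhdsWithin_of_mem_nhds (continuous_norm.continuousAt.eventually_const_lt
          (show a₁ < ‖x‖ by linarith [hxA.1]))
      have e3 : ∀ᶠ y in 𝓝[E] x, ‖y‖ < b₁ :=
        mem_nhdsWithin_of_mem_nhds (continuous_norm.continuousAt.eventually_lt_const
          (show ‖x‖ < b₁ by linarith [hxA.2]))
      have e4 : ∀ᶠ y in 𝓝[E] x, u y < ε / 2 :=
        mem_nhdsWithin_of_mem_nhds (h.cont.continuousAt.eventually_lt_const hux)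
      filter_upwards [e1, e2, e3, e4] with y y1 y2 y3 y4
      have h5 := push_aux h (a := a) (b := b) (a' := a₁) (b' := b₁) hX1 hc hq (K := K) hC0
        (fun x hx hxA => (hCb x hx hxA).1) hK0 (fun x y => by
          have := hK.dist_le_mul x y
          rwa [dist_eq_norm, dist_eq_norm] at this) h1 h2 h3 (fun x y hx hy hxy => by
          have := abs_lt.1 (hu x y hx hy hxy)
          linarith [this.1]) y1 ⟨y2.le, y3.le⟩ y4 τ ⟨hτ.1.le, hτ.2.le⟩
      linarith [h.pos y y1]
    have : 0 < c / 2 * τ := mul_pos (by linarith) hτ.1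
    linarith
  · have hxb : ‖x‖ ≤ b := by linarith [hxA.2]
    have h5 := hu x (x + τ • X x) hxb (by
      have := norm_add_le x (τ • X x)
      linarith [hxA.2, hτn x, hτ.2]) (by
      rw [sub_add_cancel_left, norm_neg]
      exact (hτn x).trans hτ.2.le)
    have := abs_lt.1 h5
    linarith [this.2, not_lt.1 hux]

end OPC
end

section

/-! # H01: a transversal field -/

open MeasureTheory Set Filter Topology

namespace OPC

variable {n : ℕ} {E : Set (V n)} {u : V n → ℝ}

private theorem isClosed_Ann_aux (a b : ℝ) : IsClosed (Ann a b : Set (V n)) :=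
  (isClosed_le continuous_const continuous_norm).inter
    (isClosed_le continuous_norm continuous_const)

private theorem field0 (h : Sol E u) {a b : ℝ} (ha : 0 < a) :
    ∃ X : V n → V n, ContDiff ℝ (⊤ : ℕ∞) X ∧
      ∀ p ∈ frontier E, p ∈ Ann a b → ∀ qb : Fin n → ℝ,
        (∀ i, Tendsto (q u i) (𝓝[E] p) (𝓝 (qb i))) → 1 / 2 < ∑ i, qb i * X p i := by
  classical
  have hFc : IsClosed (frontier E ∩ Ann a b) := isClosed_frontier.inter (isClosed_Ann_aux a b)
  let t : V n → Set (V n) := fun x => {v | x ∈ frontier E ∩ Ann a b → ∀ qb : Fin n → ℝ,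
    (∀ i, Tendsto (q u i) (𝓝[E] x) (𝓝 (qb i))) → 1 / 2 < ∑ i, qb i * v i}
  have ht : ∀ x, Convex ℝ (t x) := by
    intro x v hv w hw α β hα hβ hαβ hx qb hqb
    have h1 := hv hx qb hqb
    have h2 := hw hx qb hqb
    have h3 : ∑ i, qb i * (α • v + β • w) i
        = α • (∑ i, qb i * v i) + β • (∑ i, qb i * w i) := by
      rw [smul_eq_mul, smul_eq_mul, Finset.mul_sum, Finset.mul_sum, ← Finset.sum_add_distrib]
      exact Finset.sum_congr rfl fun i _ => by simp; ring
    rw [h3]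
    exact convex_Ioi (1 / 2 : ℝ) h1 h2 hα hβ hαβ
  have hloc : ∀ x : V n, ∃ c : V n, ∀ᶠ y in 𝓝 x, c ∈ t y := by
    intro p
    by_cases hp : p ∈ frontier E ∩ Ann a b
    · have hp0 : p ≠ 0 := by
        rintro rfl
        have := hp.2.1
        simp at this
        linarith
      obtain ⟨qb, Sb, σ, hq, hS, hq1, -⟩ := h.bdry_jet hp.1 hp0
      have hlim : Tendsto (fun x => ∑ i, q u i x * qb i) (𝓝[E] p) (𝓝 1) := by
        rw [← hq1]
        have : Tendsto (fun x => ∑ i, q u i x * qb i) (𝓝[E] p) (𝓝 (∑ i, qb i * qb i)) :=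
          tendsto_finsetSum _ fun i _ => (hq i).mul tendsto_const_nhds
        simpa only [pow_two] using this
      have hev : ∀ᶠ x in 𝓝[E] p, 3 / 4 < ∑ i, q u i x * qb i :=
        hlim.eventually (lt_mem_nhds (by norm_num))
      rw [eventually_nhdsWithin_iff] at hev
      obtain ⟨O, hO, hOo, hpO⟩ := eventually_nhds_iff.1 hev
      refine ⟨WithLp.toLp 2 qb, ?_⟩
      filter_upwards [hOo.mem_nhds hpO] with y hy
      intro hyF qb' hqb'
      have hne : (𝓝[E] y).NeBot :=
        mem_closure_iff_nhdsWithin_neBot.1 (frontier_subset_closure hyF.1)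
      have hlim' : Tendsto (fun x => ∑ i, q u i x * qb i) (𝓝[E] y) (𝓝 (∑ i, qb' i * qb i)) :=
        tendsto_finsetSum _ fun i _ => (hqb' i).mul tendsto_const_nhds
      have hge : 3 / 4 ≤ ∑ i, qb' i * qb i := by
        refine ge_of_tendsto hlim' ?_
        filter_upwards [self_mem_nhdsWithin, mem_nhdsWithin_of_mem_nhds (hOo.mem_nhds hy)] with
          x hxE hxO
        exact (hO x hxO hxE).le
      change 1 / 2 < ∑ i, qb' i * qb i
      linarith
    · refine ⟨0, ?_⟩
      filter_upwards [hFc.isOpen_compl.mem_nhds hp] with y hy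
      intro hyF
      exact absurd hyF hy
  obtain ⟨X, hX⟩ := exists_contMDiffMap_forall_mem_convex_of_local_const
    (n := (⊤ : ℕ∞)) (modelWithCornersSelf ℝ (V n)) ht hloc
  refine ⟨X, X.contMDiff.contDiff, ?_⟩
  intro p hp hpA qb hqb
  exact hX p ⟨hp, hpA⟩ qb hqb

/-- A smooth vector field pointing into `E` along the free boundary (in an annulus).
Sketch: `F := frontier E ∩ Ann a b` is compact. Use `exists_contMDiffMap_forall_mem_convex_of_local_const`
(or `exists_contDiffOn_forall_mem_convex_of_local_const`) with the convex sets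
`t x = {v | x ∈ F → ∀ qb, (∀ i, Tendsto (q u i) (𝓝[E] x) (𝓝 (qb i))) → 1/2 < ∑ i, qb i * v i}`:
near `p ∈ F` the constant `v = qb(p)` works (`Sol.bdry_jet`, continuity of the boundary values of the
gradient); near `p ∉ F` anything. Multiply by a cutoff of `exists_tst` and normalise by a constant
(bounded, compact support). Finally compactness (`Sol.lay`-type sequence argument, or `Sol.layGe` applied
after noting that `∑ q_i X_i` has a limit `≥ c` at every boundary point of the annulus): a layer where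
`c ≤ ∑ q_i X_i`. (Alternatively `X = ` mollification of the gradient.) -/
theorem Sol.exists_field (h : Sol E u) {a b : ℝ} (ha : 0 < a) (hab : a ≤ b) :
    ∃ X : V n → V n, ContDiff ℝ (⊤ : ℕ∞) X ∧ HasCompactSupport X ∧ (0 : V n) ∉ tsupport X ∧
      (∀ x, ‖X x‖ ≤ 1) ∧ ∃ c > 0, ∃ ε > 0, ∀ x ∈ E, x ∈ Ann a b → u x < ε →
        c ≤ ∑ i, q u i x * X x i := by
  classical
  obtain ⟨X₀, hX₀, hX₀t⟩ := field0 h (a := a) (b := b) ha
  obtain ⟨η, hη, hη0, hη1, hηA, -⟩ := exists_tst (n := n) ha (ha.le.trans hab)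
  have hcs : HasCompactSupport (fun x => η x • X₀ x) := hη.cpt.smul_right
  have hcont : Continuous (fun x => η x • X₀ x) := hη.smooth.continuous.smul hX₀.continuous
  obtain ⟨M₀, hM₀⟩ := hcs.exists_bound_of_continuous hcont
  set M : ℝ := max M₀ 1 with hM
  have hM1 : 1 ≤ M := le_max_right _ _
  have hMpos : 0 < M := by linarith
  have hMb : ∀ x, ‖η x • X₀ x‖ ≤ M := fun x => (hM₀ x).trans (le_max_left _ _)
  have hsub : tsupport (fun x => M⁻¹ • (η x • X₀ x)) ⊆ tsupport η := by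
    apply closure_mono
    intro x hx
    simp only [Function.mem_support] at hx ⊢
    intro h0
    exact hx (by rw [h0, zero_smul, smul_zero])
  refine ⟨fun x => M⁻¹ • (η x • X₀ x), ?_, ?_, ?_, ?_, M⁻¹ / 4, by positivity, ?_⟩
  · exact ContDiff.const_smul (M⁻¹ : ℝ) (hη.smooth.smul hX₀)
  · exact HasCompactSupport.of_support_subset_isCompact hη.cpt
      (subset_closure.trans hsub)
  · exact fun h0 => hη.zero (hsub h0)
  · intro x
    rw [norm_smul, Real.norm_of_nonneg (by positivity)]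
    calc M⁻¹ * ‖η x • X₀ x‖ ≤ M⁻¹ * M := mul_le_mul_of_nonneg_left (hMb x) (by positivity)
      _ = 1 := inv_mul_cancel₀ hMpos.ne'
  · set g : V n → ℝ := fun x => if x ∈ (Ann a b : Set (V n)) then
      ∑ i, q u i x * (M⁻¹ • (η x • X₀ x)) i else 1 with hg
    have hMinv : M⁻¹ ≤ 1 := inv_le_one_of_one_le₀ hM1
    have hL : LayGe E u g (M⁻¹ / 2) := by
      apply h.layGe
      intro p hp hp0 δ hδ
      by_cases hpA : p ∈ (Ann a b : Set (V n))
      · obtain ⟨qb, Sb, σ, hq, -⟩ := h.bdry_jet hp hp0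
        have hlim : Tendsto (fun x => ∑ i, q u i x * (M⁻¹ • (η x • X₀ x)) i) (𝓝[E] p)
            (𝓝 (∑ i, qb i * (M⁻¹ • (η p • X₀ p)) i)) := by
          refine tendsto_finsetSum _ fun i _ => (hq i).mul ?_
          have hc : Continuous (fun x => (M⁻¹ • (η x • X₀ x)) i) :=
            (EuclideanSpace.proj i : V n →L[ℝ] ℝ).continuous.comp (hcont.const_smul M⁻¹)
          exact (hc.tendsto p).mono_left nhdsWithin_le_nhds
        have hval : M⁻¹ / 2 < ∑ i, qb i * (M⁻¹ • (η p • X₀ p)) i := by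
          have h1 := hX₀t p hp hpA qb hq
          have h2 : ∑ i, qb i * (M⁻¹ • (η p • X₀ p)) i = M⁻¹ * ∑ i, qb i * X₀ p i := by
            rw [Finset.mul_sum]
            refine Finset.sum_congr rfl fun i _ => ?_
            rw [hηA p hpA, one_smul, PiLp.smul_apply, smul_eq_mul]
            ring
          rw [h2]
          have : 0 < M⁻¹ := by positivity
          nlinarith
        have hev : ∀ᶠ x in 𝓝[E] p, M⁻¹ / 2 - δ < ∑ i, q u i x * (M⁻¹ • (η x • X₀ x)) i :=
          hlim.eventually (lt_mem_nhds (by linarith))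
        filter_upwards [hev] with x hx
        simp only [hg]
        split_ifs
        · exact hx
        · linarith
      · filter_upwards [mem_nhdsWithin_of_mem_nhds
          ((isClosed_Ann_aux a b).isOpen_compl.mem_nhds hpA)] with x hx
        simp only [hg]
        rw [if_neg hx]
        linarith
    obtain ⟨ε, hε, hεx⟩ := hL a b ha (M⁻¹ / 4) (by positivity)
    refine ⟨ε, hε, fun x hxE hxA hux => ?_⟩
    have := hεx x hxE hxA hux
    simp only [hg] at this
    rw [if_pos hxA] at this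
    have h4 : M⁻¹ / 2 - M⁻¹ / 4 = M⁻¹ / 4 := by ring
    rw [h4] at this
    exact this.le

end OPC
end
end

section

section

/-! # H05: extension of test fields -/

open MeasureTheory Set Filter Topology

namespace OPC

variable {n : ℕ} {E : Set (V n)} {u : V n → ℝ}

private theorem h05_closed_Ann (a b : ℝ) : IsClosed (Ann a b : Set (V n)) :=
  (isClosed_le continuous_const continuous_norm).inter
    (isClosed_le continuous_norm continuous_const)

open scoped Manifold ContDiff in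
/-- Extension: if `x + τ X x ∈ E` for all `x ∈ closure E ∩ Ann a' b'` then `Ψ(x + τ X x)` extends
from `E` to a test field.
Setting: `Ψ i` smooth on `E`, zero on `E \ Ann a b`; `a' < a`, `b < b'`, `‖X‖ ≤ 1`, `τ` small
(`τ < a - a'`, `τ < b' - b`, so `x + τ X x ∈ Ann a b → x ∈ Ann a' b'`).
Sketch: `B = {x | x + τ X x ∈ Ann a b \ E}` is compact and disjoint from `closure E`; take a smooth
`ϑ : V n → ℝ` equal to `1` on a neighbourhood of `closure E` and to `0` on a neighbourhood of `B`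
(e.g. `exists_contMDiff...`/`exists_smooth_zero_one_of_isClosed` for closed thickenings; `B` compact so
`dist (B, closure E) > 0`). Put `Ψ' i x = ϑ x * (if x + τ X x ∈ E then Ψ i (x + τ X x) else 0)`.
It is smooth: near a point with `x + τ X x ∈ E` clear; near a point with `x + τ X x ∉ Ann a b` it is `0`;
near `B` it is `0`. -/
theorem Sol.extend (h : Sol E u) {a b a' b' τ : ℝ} (ha' : 0 < a') (haa : a' < a) (hbb : b < b')
    {Ψ : Fin n → V n → ℝ} (hΨ : ∀ i, ContDiffOn ℝ (⊤ : ℕ∞) (Ψ i) E)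
    (hs : ∀ i, ∀ x ∈ E, x ∉ Ann a b → Ψ i x = 0)
    {X : V n → V n} (hX : ContDiff ℝ (⊤ : ℕ∞) X) (hX1 : ∀ x, ‖X x‖ ≤ 1)
    (hτ : 0 < τ) (hτ1 : τ < a - a') (hτ2 : τ < b' - b)
    (hp : ∀ x ∈ closure E, x ∈ Ann a' b' → x + τ • X x ∈ E) :
    ∃ Ψ' : V n → V n, ContDiff ℝ (⊤ : ℕ∞) Ψ' ∧ tsupport Ψ' ⊆ Ann a' b' ∧
      ∀ x ∈ E, ∀ i, Ψ' x i = E.indicator (Ψ i) (x + τ • X x) := by
  classical
  have hF : ContDiff ℝ (⊤ : ℕ∞) fun x : V n => x + τ • X x := contDiff_id.add (hX.const_smul τ)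
  have hn : ∀ x : V n, ‖τ • X x‖ ≤ τ := by
    intro x
    rw [norm_smul, Real.norm_eq_abs, abs_of_pos hτ]
    calc τ * ‖X x‖ ≤ τ * 1 := mul_le_mul_of_nonneg_left (hX1 x) hτ.le
      _ = τ := mul_one _
  have hA : ∀ x : V n, x + τ • X x ∈ (Ann a b : Set (V n)) → x ∈ (Ann a' b' : Set (V n)) := by
    intro x hx
    have h1 := hn x
    have h2 : ‖x + τ • X x‖ ≤ ‖x‖ + ‖τ • X x‖ := norm_add_le _ _
    have h3 : ‖x‖ ≤ ‖x + τ • X x‖ + ‖τ • X x‖ := by
      calc ‖x‖ = ‖(x + τ • X x) - τ • X x‖ := by rw [add_sub_cancel_right]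
        _ ≤ _ := norm_sub_le _ _
    have h4 : a ≤ ‖x + τ • X x‖ := hx.1
    have h5 : ‖x + τ • X x‖ ≤ b := hx.2
    exact ⟨by linarith, by linarith⟩
  set B : Set (V n) := (fun x : V n => x + τ • X x) ⁻¹' (Ann a b \ E) with hB
  have hBcl : IsClosed B :=
    ((h05_closed_Ann a b).sdiff h.isOpen).preimage hF.continuous
  have hBsub : B ⊆ Metric.closedBall (0 : V n) b' := by
    intro x hx
    rw [mem_closedBall_zero_iff]
    exact (hA x hx.1).2
  have hBc : IsCompact B := (isCompact_closedBall (0 : V n) b').of_isClosed_subset hBcl hBsub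
  have hdisj : Disjoint B (closure E) := by
    rw [Set.disjoint_left]
    intro x hx hxE
    exact hx.2 (hp x hxE (hA x hx.1))
  obtain ⟨δ, hδ, hd⟩ := hdisj.exists_cthickenings hBc isClosed_closure
  have hd2 : Disjoint (Metric.cthickening δ B) (closure E) :=
    hd.mono_right (Metric.self_subset_cthickening _)
  obtain ⟨θ, hθ0, hθ1, -⟩ := exists_contMDiffMap_zero_one_of_isClosed (n := (⊤ : ℕ∞)) 𝓘(ℝ, V n)
    Metric.isClosed_cthickening isClosed_closure hd2
  have hθ : ContDiff ℝ (⊤ : ℕ∞) θ := θ.contMDiff.contDiff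
  refine ⟨fun x => WithLp.toLp 2 fun i => θ x * E.indicator (Ψ i) (x + τ • X x), ?_, ?_, ?_⟩
  · rw [contDiff_euclidean]
    intro i
    show ContDiff ℝ (⊤ : ℕ∞) fun x => θ x * E.indicator (Ψ i) (x + τ • X x)
    rw [contDiff_iff_contDiffAt]
    intro x
    by_cases hxE : x + τ • X x ∈ E
    · have h1 : ContDiffAt ℝ (⊤ : ℕ∞) (fun y => θ y * Ψ i (y + τ • X y)) x := by
        refine hθ.contDiffAt.mul ?_
        exact ContDiffAt.comp x ((hΨ i).contDiffAt (h.isOpen.mem_nhds hxE)) hF.contDiffAt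
      refine h1.congr_of_eventuallyEq ?_
      have h2 : ∀ᶠ y in 𝓝 x, y + τ • X y ∈ E :=
        hF.continuous.continuousAt.eventually_mem (h.isOpen.mem_nhds hxE)
      filter_upwards [h2] with y hy
      rw [indicator_of_mem hy]
    · by_cases hxA : x + τ • X x ∈ (Ann a b : Set (V n))
      · have hxB : x ∈ B := ⟨hxA, hxE⟩
        have h2 : ∀ᶠ y in 𝓝 x, y ∈ Metric.cthickening δ B :=
          Metric.thickening_subset_cthickening_of_le le_rfl B |> fun hsub =>
            Filter.mem_of_superset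
              (Metric.isOpen_thickening.mem_nhds (Metric.self_subset_thickening hδ B hxB)) hsub
        refine (contDiffAt_const (c := (0 : ℝ))).congr_of_eventuallyEq ?_
        filter_upwards [h2] with y hy
        have h3 : θ y = 0 := hθ0 hy
        rw [h3, zero_mul]
      · have h2 : ∀ᶠ y in 𝓝 x, y + τ • X y ∈ (Ann a b : Set (V n))ᶜ :=
          hF.continuous.continuousAt.eventually_mem
            ((h05_closed_Ann a b).isOpen_compl.mem_nhds hxA)
        refine (contDiffAt_const (c := (0 : ℝ))).congr_of_eventuallyEq ?_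
        filter_upwards [h2] with y hy
        by_cases hyE : y + τ • X y ∈ E
        · rw [indicator_of_mem hyE, hs i _ hyE hy, mul_zero]
        · rw [indicator_of_notMem hyE, mul_zero]
  · refine closure_minimal ?_ (h05_closed_Ann a' b')
    intro x hx
    by_contra hxA
    apply hx
    have h1 : x + τ • X x ∉ (Ann a b : Set (V n)) := fun h2 => hxA (hA x h2)
    ext i
    show θ x * E.indicator (Ψ i) (x + τ • X x) = 0
    by_cases hyE : x + τ • X x ∈ E
    · rw [indicator_of_mem hyE, hs i _ hyE h1, mul_zero]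
    · rw [indicator_of_notMem hyE, mul_zero]
  · intro x hx i
    show θ x * E.indicator (Ψ i) (x + τ • X x) = _
    have h3 : θ x = 1 := hθ1 (subset_closure hx)
    rw [h3, one_mul]

end OPC
end

section

/-! # H06: the second variation for fields smooth inside E -/

open MeasureTheory Set Filter Topology

namespace OPC

variable {n : ℕ} {E : Set (V n)} {u : V n → ℝ}

/-- `|A|²` -/
private noncomputable def N2 (A : Fin n → Fin n → ℝ) : ℝ := ∑ i, ∑ j, A i j ^ 2

private lemma N2_nonneg (A : Fin n → Fin n → ℝ) : 0 ≤ N2 A :=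
  Finset.sum_nonneg fun _ _ => Finset.sum_nonneg fun _ _ => sq_nonneg _

private lemma le_N2 (A : Fin n → Fin n → ℝ) (i j : Fin n) : A i j ^ 2 ≤ N2 A := by
  unfold N2
  calc A i j ^ 2 ≤ ∑ j, A i j ^ 2 :=
        Finset.single_le_sum (f := fun j => A i j ^ 2) (fun _ _ => sq_nonneg _)
          (Finset.mem_univ j)
    _ ≤ _ := Finset.single_le_sum (f := fun i => ∑ j, A i j ^ 2)
          (fun _ _ => Finset.sum_nonneg fun _ _ => sq_nonneg _) (Finset.mem_univ i)

/-- bounded linear functionals of `A` -/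
private def LinB (l : (Fin n → Fin n → ℝ) → (Fin n → ℝ) → ℝ) : Prop :=
  (∀ A B p, l (A - B) p = l A p - l B p) ∧
    ∃ C, 0 ≤ C ∧ ∀ A p, (∀ i, |p i| ≤ 1) → l A p ^ 2 ≤ C * N2 A

private lemma linB_entry (i j : Fin n) :
    LinB (fun (A : Fin n → Fin n → ℝ) (_ : Fin n → ℝ) => A i j) := by
  refine ⟨fun A B p => rfl, 1, zero_le_one, fun A p _ => ?_⟩
  rw [one_mul]; exact le_N2 A i j

private lemma LinB.sum {ι : Type*} {s : Finset ι}
    {l : ι → (Fin n → Fin n → ℝ) → (Fin n → ℝ) → ℝ} (h : ∀ i, LinB (l i)) :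
    LinB (fun A p => ∑ i ∈ s, l i A p) := by
  choose h1 C hC h2 using h
  refine ⟨fun A B p => ?_, (s.card : ℝ) * ∑ i ∈ s, C i, ?_, fun A p hp => ?_⟩
  · simp only [h1, Finset.sum_sub_distrib]
  · exact mul_nonneg (Nat.cast_nonneg _) (Finset.sum_nonneg fun i _ => hC i)
  · calc (∑ i ∈ s, l i A p) ^ 2 ≤ (s.card : ℝ) * ∑ i ∈ s, (l i A p) ^ 2 :=
          sq_sum_le_card_mul_sum_sq
      _ ≤ (s.card : ℝ) * ∑ i ∈ s, (C i * N2 A) := by
          refine mul_le_mul_of_nonneg_left ?_ (Nat.cast_nonneg _)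
          exact Finset.sum_le_sum fun i _ => h2 i A p hp
      _ = _ := by rw [← Finset.sum_mul, mul_assoc]

private lemma LinB.smul {l : (Fin n → Fin n → ℝ) → (Fin n → ℝ) → ℝ} (h : LinB l)
    (g : (Fin n → ℝ) → ℝ) (hg : ∀ p : Fin n → ℝ, (∀ i, |p i| ≤ 1) → |g p| ≤ 1) :
    LinB (fun A p => g p * l A p) := by
  obtain ⟨h1, C, hC, h2⟩ := h
  refine ⟨fun A B p => ?_, C, hC, fun A p hp => ?_⟩
  · simp only [h1]; ring
  · have h3 : g p ^ 2 ≤ 1 := by
      have := hg p hp
      rw [← sq_abs]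
      exact pow_le_one₀ (abs_nonneg _) this
    calc (g p * l A p) ^ 2 = g p ^ 2 * l A p ^ 2 := by ring
      _ ≤ 1 * l A p ^ 2 := mul_le_mul_of_nonneg_right h3 (sq_nonneg _)
      _ = l A p ^ 2 := one_mul _
      _ ≤ _ := h2 A p hp

/-- quadratic functions of `A` -/
private def QB (F : (Fin n → Fin n → ℝ) → (Fin n → ℝ) → ℝ) : Prop :=
  ∃ C, 0 ≤ C ∧ ∀ p : Fin n → ℝ, (∀ i, |p i| ≤ 1) → ∀ A B, ∀ δ > 0,
    |F A p - F B p| ≤ C * (δ * N2 B + (δ⁻¹ + 1) * N2 (A - B))

private lemma rhs_nonneg {δ : ℝ} (hδ : 0 < δ) (A B : Fin n → Fin n → ℝ) :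
    0 ≤ δ * N2 B + (δ⁻¹ + 1) * N2 (A - B) := by
  have h1 := N2_nonneg B
  have h2 := N2_nonneg (A - B)
  have h3 : 0 < δ⁻¹ := inv_pos.2 hδ
  positivity

private lemma LinB.mul {l m : (Fin n → Fin n → ℝ) → (Fin n → ℝ) → ℝ} (hl : LinB l)
    (hm : LinB m) : QB (fun A p => l A p * m A p) := by
  obtain ⟨l1, C, hC, l2⟩ := hl
  obtain ⟨m1, D, hD, m2⟩ := hm
  refine ⟨C + D, add_nonneg hC hD, fun p hp A B δ hδ => ?_⟩
  have e1 : l A p * m A p - l B p * m B p
      = l (A - B) p * m B p + l B p * m (A - B) p + l (A - B) p * m (A - B) p := by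
    rw [l1, m1]; ring
  have a1 := l2 (A - B) p hp
  have a2 := m2 B p hp
  have a3 := l2 B p hp
  have a4 := m2 (A - B) p hp
  have hδ' : 0 < δ⁻¹ := inv_pos.2 hδ
  have key : ∀ x y : ℝ, |x * y| ≤ (1 / 2) * (δ⁻¹ * x ^ 2 + δ * y ^ 2) := by
    intro x y
    have : δ⁻¹ * x ^ 2 + δ * y ^ 2 - 2 * |x * y| = δ * (δ⁻¹ * |x| - |y|) ^ 2 := by
      rw [abs_mul]
      have : (δ⁻¹ * |x| - |y|) ^ 2 = δ⁻¹ ^ 2 * x ^ 2 - 2 * δ⁻¹ * (|x| * |y|) + y ^ 2 := by
        rw [← sq_abs x, ← sq_abs y]; ring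
      rw [this]
      field_simp
      ring
    have h0 : 0 ≤ δ * (δ⁻¹ * |x| - |y|) ^ 2 := by positivity
    linarith
  have key2 : ∀ x y : ℝ, |x * y| ≤ (1 / 2) * (x ^ 2 + y ^ 2) := by
    intro x y
    have h0 : 0 ≤ (|x| - |y|) ^ 2 := sq_nonneg _
    rw [abs_mul]
    have : (|x| - |y|) ^ 2 = x ^ 2 - 2 * (|x| * |y|) + y ^ 2 := by
      rw [← sq_abs x, ← sq_abs y]; ring
    nlinarith
  have b1 := key (l (A - B) p) (m B p)
  have b2 := key (m (A - B) p) (l B p)
  have b3 := key2 (l (A - B) p) (m (A - B) p)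
  rw [e1]
  have nB := N2_nonneg B
  have nD := N2_nonneg (A - B)
  calc |l (A - B) p * m B p + l B p * m (A - B) p + l (A - B) p * m (A - B) p|
      ≤ |l (A - B) p * m B p| + |l B p * m (A - B) p| + |l (A - B) p * m (A - B) p| :=
        abs_add_three _ _ _
    _ ≤ (1 / 2) * (δ⁻¹ * (C * N2 (A - B)) + δ * (D * N2 B))
        + (1 / 2) * (δ⁻¹ * (D * N2 (A - B)) + δ * (C * N2 B))
        + (1 / 2) * (C * N2 (A - B) + D * N2 (A - B)) := by
        rw [mul_comm (l B p)]
        have c1 := mul_le_mul_of_nonneg_left a1 hδ'.le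
        have c2 := mul_le_mul_of_nonneg_left a2 hδ.le
        have c3 := mul_le_mul_of_nonneg_left a3 hδ.le
        have c4 := mul_le_mul_of_nonneg_left a4 hδ'.le
        linarith
    _ = (1 / 2) * ((C + D) * (δ * N2 B + (δ⁻¹ + 1) * N2 (A - B))) := by ring
    _ ≤ (C + D) * (δ * N2 B + (δ⁻¹ + 1) * N2 (A - B)) := by
        have := mul_nonneg (add_nonneg hC hD) (rhs_nonneg hδ A B)
        linarith

private lemma QB.add {F G : (Fin n → Fin n → ℝ) → (Fin n → ℝ) → ℝ} (hF : QB F) (hG : QB G) :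
    QB (fun A p => F A p + G A p) := by
  obtain ⟨C, hC, h1⟩ := hF
  obtain ⟨D, hD, h2⟩ := hG
  refine ⟨C + D, add_nonneg hC hD, fun p hp A B δ hδ => ?_⟩
  have e1 : F A p + G A p - (F B p + G B p) = (F A p - F B p) + (G A p - G B p) := by ring
  rw [e1]
  refine (abs_add_le _ _).trans ?_
  rw [add_mul]
  exact add_le_add (h1 p hp A B δ hδ) (h2 p hp A B δ hδ)

private lemma QB.mulg {F : (Fin n → Fin n → ℝ) → (Fin n → ℝ) → ℝ} (hF : QB F)
    (g : (Fin n → ℝ) → ℝ) (M : ℝ) (hM : 0 ≤ M)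
    (hg : ∀ p : Fin n → ℝ, (∀ i, |p i| ≤ 1) → |g p| ≤ M) :
    QB (fun A p => g p * F A p) := by
  obtain ⟨C, hC, h1⟩ := hF
  refine ⟨M * C, mul_nonneg hM hC, fun p hp A B δ hδ => ?_⟩
  rw [← mul_sub, abs_mul, mul_assoc]
  exact mul_le_mul (hg p hp) (h1 p hp A B δ hδ) (abs_nonneg _) hM

private lemma QB.sum {ι : Type*} {s : Finset ι}
    {F : ι → (Fin n → Fin n → ℝ) → (Fin n → ℝ) → ℝ} (h : ∀ i, QB (F i)) :
    QB (fun A p => ∑ i ∈ s, F i A p) := by
  choose C hC h2 using h
  refine ⟨∑ i ∈ s, C i, Finset.sum_nonneg fun i _ => hC i, fun p hp A B δ hδ => ?_⟩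
  rw [← Finset.sum_sub_distrib, Finset.sum_mul]
  exact (Finset.abs_sum_le_sum_abs _ _).trans (Finset.sum_le_sum fun i _ => h2 i p hp A B δ hδ)

private lemma linB1 (j : Fin n) :
    LinB (fun (A : Fin n → Fin n → ℝ) (p : Fin n → ℝ) => ∑ i, A i j * p i) := by
  have h := LinB.sum (s := (Finset.univ : Finset (Fin n)))
    (l := fun i A p => p i * A i j)
    (fun i => (linB_entry i j).smul (fun p => p i) (fun p hp => hp i))
  simpa only [mul_comm] using h

private lemma linB2 (j : Fin n) :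
    LinB (fun (A : Fin n → Fin n → ℝ) (p : Fin n → ℝ) => ∑ k, A j k * p k) := by
  have h := LinB.sum (s := (Finset.univ : Finset (Fin n)))
    (l := fun k A p => p k * A j k)
    (fun k => (linB_entry j k).smul (fun p => p k) (fun p hp => hp k))
  simpa only [mul_comm] using h

private lemma linB3 :
    LinB (fun (A : Fin n → Fin n → ℝ) (p : Fin n → ℝ) => ∑ i, ∑ j, p i * A i j * p j) := by
  have h := LinB.sum (s := (Finset.univ : Finset (Fin n)))
    (l := fun i A p => ∑ j, (p i * p j) * A i j)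
    (fun i => LinB.sum (s := (Finset.univ : Finset (Fin n)))
      (l := fun j A p => (p i * p j) * A i j)
      (fun j => (linB_entry i j).smul (fun p => p i * p j) (fun p hp => by
        rw [abs_mul]
        exact mul_le_one₀ (hp i) (abs_nonneg _) (hp j))))
  have e1 : (fun (A : Fin n → Fin n → ℝ) (p : Fin n → ℝ) => ∑ i, ∑ j, p i * A i j * p j)
      = (fun A p => ∑ i, ∑ j, (p i * p j) * A i j) := by
    funext A p
    refine Finset.sum_congr rfl fun i _ => Finset.sum_congr rfl fun j _ => by ring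
  rw [e1]; exact h

private lemma linB4 :
    LinB (fun (A : Fin n → Fin n → ℝ) (_ : Fin n → ℝ) => ∑ i, A i i) :=
  LinB.sum (s := (Finset.univ : Finset (Fin n))) (l := fun i A _ => A i i)
    (fun i => linB_entry i i)

private lemma qB_I2 : QB (I2 (n := n)) := by
  have h1 : QB (fun (A : Fin n → Fin n → ℝ) (p : Fin n → ℝ) =>
      ∑ j, (∑ i, A i j * p i) * (∑ i, A i j * p i)) :=
    QB.sum fun j => (linB1 j).mul (linB1 j)
  have h2 : QB (fun (A : Fin n → Fin n → ℝ) (p : Fin n → ℝ) =>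
      ∑ j, (∑ i, A i j * p i) * (∑ k, A j k * p k)) :=
    QB.sum fun j => (linB1 j).mul (linB2 j)
  have h3 : QB (fun (A : Fin n → Fin n → ℝ) (p : Fin n → ℝ) =>
      (∑ i, ∑ j, p i * A i j * p j) * (∑ i, A i i)) := linB3.mul linB4
  have h4 : QB (fun (A : Fin n → Fin n → ℝ) (p : Fin n → ℝ) =>
      (∑ i, A i i) * (∑ i, A i i)) := linB4.mul linB4
  have h5 : QB (fun (A : Fin n → Fin n → ℝ) (p : Fin n → ℝ) =>
      ∑ i, ∑ j, A i j * A j i) :=
    QB.sum fun i => QB.sum fun j => (linB_entry i j).mul (linB_entry j i)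
  have h6 := h4.add (h5.mulg (fun _ => -1) 1 zero_le_one (fun p _ => by norm_num))
  have h7 := h6.mulg (fun p => (1 / 2) * (∑ i, p i ^ 2 + 1)) ((1 / 2) * (n + 1)) (by positivity)
    (fun p hp => by
      have e1 : ∑ i, p i ^ 2 ≤ n := by
        calc ∑ i, p i ^ 2 ≤ ∑ _i : Fin n, (1 : ℝ) := by
              refine Finset.sum_le_sum fun i _ => ?_
              rw [← sq_abs]
              exact pow_le_one₀ (abs_nonneg _) (hp i)
          _ = n := by simp
      have e2 : 0 ≤ ∑ i, p i ^ 2 := Finset.sum_nonneg fun i _ => sq_nonneg _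
      rw [abs_of_nonneg (by positivity)]
      linarith)
  have h8 := ((h1.add (h2.mulg (fun _ => 2) 2 (by norm_num) (fun p _ => by norm_num))).add
    (h3.mulg (fun _ => -2) 2 (by norm_num) (fun p _ => by norm_num))).add h7
  have e : I2 (n := n) = fun A p =>
      ∑ j, (∑ i, A i j * p i) * (∑ i, A i j * p i)
        + 2 * ∑ j, (∑ i, A i j * p i) * (∑ k, A j k * p k)
        + (-2) * ((∑ i, ∑ j, p i * A i j * p j) * (∑ i, A i i))
        + (1 / 2) * (∑ i, p i ^ 2 + 1) * ((∑ i, A i i) * (∑ i, A i i)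
          + (-1) * ∑ i, ∑ j, A i j * A j i) := by
    funext A p
    unfold I2
    have : ∑ j, (∑ i, A i j * p i) ^ 2 = ∑ j, (∑ i, A i j * p i) * (∑ i, A i j * p i) :=
      Finset.sum_congr rfl fun j _ => sq _
    rw [this]
    ring
  rw [e]
  exact h8

private lemma I2_zero (p : Fin n → ℝ) : I2 (0 : Fin n → Fin n → ℝ) p = 0 := by
  simp [I2]

private lemma measurable_pd (j : Fin n) (f : V n → ℝ) : Measurable (pd j f) :=
  measurable_fderiv_apply_const ℝ f (e j)

private lemma measurable_I2 {A : Fin n → Fin n → V n → ℝ} {p : Fin n → V n → ℝ}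
    (hA : ∀ i j, Measurable (A i j)) (hp : ∀ i, Measurable (p i)) :
    Measurable (fun x => I2 (fun i j => A i j x) (fun i => p i x)) := by
  unfold I2
  have m1 : ∀ j, Measurable (fun x => ∑ i, A i j x * p i x) := fun j =>
    Finset.measurable_fun_sum _ fun i _ => (hA i j).mul (hp i)
  have m2 : ∀ j, Measurable (fun x => ∑ k, A j k x * p k x) := fun j =>
    Finset.measurable_fun_sum _ fun k _ => (hA j k).mul (hp k)
  have m3 : Measurable (fun x => ∑ i, ∑ j, p i x * A i j x * p j x) :=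
    Finset.measurable_fun_sum _ fun i _ => Finset.measurable_fun_sum _ fun j _ =>
      ((hp i).mul (hA i j)).mul (hp j)
  have m4 : Measurable (fun x => ∑ i, A i i x) :=
    Finset.measurable_fun_sum _ fun i _ => hA i i
  have m5 : Measurable (fun x => ∑ i, ∑ j, A i j x * A j i x) :=
    Finset.measurable_fun_sum _ fun i _ => Finset.measurable_fun_sum _ fun j _ =>
      (hA i j).mul (hA j i)
  have m6 : Measurable (fun x => ∑ i, p i x ^ 2) :=
    Finset.measurable_fun_sum _ fun i _ => (hp i).pow_const 2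
  have m7 : Measurable (fun x => ∑ j, (∑ i, A i j x * p i x) ^ 2) :=
    Finset.measurable_fun_sum _ fun j _ => (m1 j).pow_const 2
  have m8 : Measurable (fun x => ∑ j, (∑ i, A i j x * p i x) * (∑ k, A j k x * p k x)) :=
    Finset.measurable_fun_sum _ fun j _ => (m1 j).mul (m2 j)
  exact ((m7.add (m8.const_mul 2)).sub ((m3.const_mul 2).mul m4)).add
    (((m6.add_const 1).const_mul (1 / 2)).mul ((m4.pow_const 2).sub m5))

/-- the jacobian of the pulled back field -/
private lemma pd_formula (h : Sol E u) {a' b' τ : ℝ} {Ψ : Fin n → V n → ℝ}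
    (hΨ : ∀ i, ContDiffOn ℝ (⊤ : ℕ∞) (Ψ i) E) {X : V n → V n} (hX : ContDiff ℝ (⊤ : ℕ∞) X)
    (hp : ∀ x ∈ closure E, x ∈ Ann a' b' → x + τ • X x ∈ E)
    {Ψ' : V n → V n} (hs : tsupport Ψ' ⊆ Ann a' b')
    (he : ∀ x ∈ E, ∀ i, Ψ' x i = E.indicator (Ψ i) (x + τ • X x))
    (i j : Fin n) {x : V n} (hx : x ∈ E) :
    pd j (fun y => Ψ' y i) x = ∑ k, E.indicator (pd k (Ψ i)) (x + τ • X x) *
      ((if k = j then 1 else 0) + τ * pd j (fun y => X y k) x) := by
  by_cases hF : x + τ • X x ∈ E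
  · have hXd : Differentiable ℝ X := hX.differentiable (by simp)
    have hFd : ∀ y, HasFDerivAt (fun y => y + τ • X y)
        (ContinuousLinearMap.id ℝ (V n) + τ • fderiv ℝ X y) y := fun y =>
      (hasFDerivAt_id y).add ((hXd y).hasFDerivAt.const_smul τ)
    have hFc : Continuous (fun y => y + τ • X y) :=
      continuous_id.add (hX.continuous.const_smul τ)
    have ev : (fun y => Ψ' y i) =ᶠ[𝓝 x] fun y => Ψ i (y + τ • X y) := by
      filter_upwards [h.isOpen.mem_nhds hx,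
        (h.isOpen.preimage hFc).mem_nhds hF] with y hy1 hy2
      rw [he y hy1 i, indicator_of_mem (show y + τ • X y ∈ E from hy2)]
    have hd : DifferentiableAt ℝ (Ψ i) (x + τ • X x) := diffAt h.isOpen (hΨ i) hF
    have h1 : HasFDerivAt (fun y => Ψ i (y + τ • X y))
        ((fderiv ℝ (Ψ i) (x + τ • X x)).comp
          (ContinuousLinearMap.id ℝ (V n) + τ • fderiv ℝ X x)) x :=
      hd.hasFDerivAt.comp x (hFd x)
    have h2 : pd j (fun y => Ψ' y i) x =
        fderiv ℝ (Ψ i) (x + τ • X x) (e j + τ • fderiv ℝ X x (e j)) := by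
      unfold pd
      rw [ev.fderiv_eq, h1.fderiv]
      rfl
    rw [h2, fderiv_apply_eq_sum]
    refine Finset.sum_congr rfl fun k _ => ?_
    rw [indicator_of_mem hF]
    have h3 : (fderiv ℝ X x (e j)) k = pd j (fun y => X y k) x := by
      unfold pd
      have h4 : HasFDerivAt (fun y => X y k)
          ((EuclideanSpace.proj k : V n →L[ℝ] ℝ).comp (fderiv ℝ X x)) x :=
        (EuclideanSpace.proj k : V n →L[ℝ] ℝ).hasFDerivAt.comp x (hXd x).hasFDerivAt
      rw [h4.fderiv]; rfl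
    have h5 : (e j + τ • fderiv ℝ X x (e j)) k
        = (if k = j then 1 else 0) + τ * pd j (fun y => X y k) x := by
      rw [← h3]
      simp [e]
    rw [h5]; ring
  · have hx' : x ∉ Ann a' b' := fun hc => hF (hp x (subset_closure hx) hc)
    have hx2 : x ∉ tsupport Ψ' := fun hc => hx' (hs hc)
    have ev : Ψ' =ᶠ[𝓝 x] 0 := notMem_tsupport_iff_eventuallyEq.1 hx2
    have ev2 : (fun y => Ψ' y i) =ᶠ[𝓝 x] fun _ => 0 := by
      filter_upwards [ev] with y hy
      rw [hy]; rfl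
    rw [pd_zero_of_eventually ev2]
    symm
    refine Finset.sum_eq_zero fun k _ => ?_
    rw [indicator_of_notMem hF, zero_mul]

private lemma sq_sum_bound {m : ℕ} {M : ℝ} (f d g : Fin m → ℝ) (_hM : 0 ≤ M)
    (hg : ∀ k, |g k| ≤ M) :
    (∑ k, (f k + d k) * g k) ^ 2 ≤ 2 * m * M ^ 2 * (∑ k, d k ^ 2 + ∑ k, f k ^ 2) := by
  calc (∑ k, (f k + d k) * g k) ^ 2 ≤ (m : ℝ) * ∑ k, ((f k + d k) * g k) ^ 2 := by
        have := sq_sum_le_card_mul_sum_sq (s := (Finset.univ : Finset (Fin m)))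
          (f := fun k => (f k + d k) * g k)
        simpa using this
    _ ≤ (m : ℝ) * ∑ k, (2 * M ^ 2 * (d k ^ 2 + f k ^ 2)) := by
        refine mul_le_mul_of_nonneg_left (Finset.sum_le_sum fun k _ => ?_) (Nat.cast_nonneg _)
        have h1 : g k ^ 2 ≤ M ^ 2 := by
          rw [← sq_abs (g k)]
          exact pow_le_pow_left₀ (abs_nonneg _) (hg k) 2
        have h2 : (f k + d k) ^ 2 ≤ 2 * (d k ^ 2 + f k ^ 2) := by
          nlinarith [sq_nonneg (f k - d k)]
        calc ((f k + d k) * g k) ^ 2 = (f k + d k) ^ 2 * g k ^ 2 := by ring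
          _ ≤ (2 * (d k ^ 2 + f k ^ 2)) * M ^ 2 :=
              mul_le_mul h2 h1 (sq_nonneg _) (by positivity)
          _ = _ := by ring
    _ = _ := by
        rw [← Finset.mul_sum, Finset.sum_add_distrib]; ring

private lemma alg_aux (d t s K : ℝ) (h : t ^ 2 * s ^ 2 ≤ K) :
    (d + t * s) ^ 2 ≤ 2 * d ^ 2 + 2 * K := by
  nlinarith [sq_nonneg (d - t * s)]

/-- SECOND VARIATION for `Ψ` smooth in `E`, supported in an annulus `Ann a b` with `b < 1`, with
`DΨ ∈ L²(E)` (and `Ψ ∈ L²(E)`).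
Sketch: `X, c, ε` from `Sol.exists_field` for a larger annulus, `Sol.push`, `Sol.extend` for small `τ`:
test fields `Ψ'_τ`, supported in `Ann a' b' ⊆ ball 0 1 \ {0}`, `0 ≤ ∫_E I2 (DΨ'_τ) q` by
`Sol.second_var`. On `E`, `∂_j Ψ'_τ,i (x) = ∑_k f_ik (x + τX) (δ_kj + τ ∂_j X_k)` with
`f_ik = E.indicator (pd k (Ψ i)) ∈ L²`, which tends to `f_ij` in `L²(E)` (`L2_comp`), and `I2` is a
quadratic form in `A` with bounded coefficients (`q` bounded): `∫_E I2 (DΨ'_τ) q → ∫_E I2 (DΨ) q`
(all supported in a fixed annulus). -/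
theorem Sol.second_var_ext (h : Sol E u) (hst : Stab u) (hn : 2 ≤ n) {a b : ℝ} (ha : 0 < a)
    (hb : b < 1) {Ψ : Fin n → V n → ℝ} (hΨ : ∀ i, ContDiffOn ℝ (⊤ : ℕ∞) (Ψ i) E)
    (hs : ∀ i, ∀ x ∈ E, x ∉ Ann a b → Ψ i x = 0)
    (hL : ∀ i j, IntegrableOn (fun x => (pd j (Ψ i) x) ^ 2) E) :
    0 ≤ ∫ x in E, I2 (fun i j => pd j (Ψ i) x) (fun i => q u i x) := by
  have hEm : MeasurableSet E := h.isOpen.measurableSet
  -- a nonempty annulus
  obtain ⟨a0, b0, ha0, ha1, hb1, hb0, hs0⟩ : ∃ a0 b0 : ℝ, 0 < a0 ∧ a0 ≤ 1 / 2 ∧ 1 / 2 ≤ b0 ∧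
      b0 < 1 ∧ ∀ i, ∀ x ∈ E, x ∉ Ann a0 b0 → Ψ i x = 0 := by
    refine ⟨min a (1 / 2), max b (1 / 2), by positivity, min_le_right _ _, le_max_right _ _,
      max_lt hb (by norm_num), fun i x hx hxn => hs i x hx fun hc => hxn ?_⟩
    exact ⟨(min_le_left _ _).trans hc.1, hc.2.trans (le_max_left _ _)⟩
  obtain ⟨X, hX, hXc, hX0, hX1, c, hc, ε, hε, hq⟩ :=
    h.exists_field (a := a0 / 4) (b := 1) (by positivity) (by linarith)
  obtain ⟨τ₁, hτ₁, hpush⟩ := h.push (a := a0 / 4) (b := 1) (a' := a0 / 2) (b' := (b0 + 1) / 2)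
    (by positivity) (by linarith) (by linarith) hX hXc hX1 hc hε hq
  obtain ⟨τ₂, hτ₂, hcomp⟩ := lintegral_comp_le hX hXc
  -- the functions
  set f : Fin n → Fin n → V n → ℝ := fun i k => E.indicator (pd k (Ψ i)) with hf
  have hfm : ∀ i k, Measurable (f i k) := fun i k => (measurable_pd k (Ψ i)).indicator hEm
  have hfi : ∀ i k, Integrable (fun x => f i k x ^ 2) := by
    intro i k
    have e1 : (fun x => f i k x ^ 2) = E.indicator (fun x => (pd k (Ψ i) x) ^ 2) := by
      funext x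
      by_cases hx : x ∈ E
      · simp [hf, hx]
      · simp [hf, hx]
    rw [e1, integrable_indicator_iff hEm]
    exact hL i k
  have hf2 : ∀ i k, MemLp (f i k) 2 := fun i k =>
    (memLp_two_iff_integrable_sq (hfm i k).aestronglyMeasurable).2 (hfi i k)
  have hFm : ∀ τ : ℝ, Measurable (fun x => x + τ • X x) := fun τ =>
    (continuous_id.add (hX.continuous.const_smul τ)).measurable
  have hfFi : ∀ i k, ∀ τ ∈ Ioo (0 : ℝ) τ₂, MemLp (fun x => f i k (x + τ • X x)) 2 := by
    intro i k τ hτ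
    have hm : Measurable (fun x => f i k (x + τ • X x)) := (hfm i k).comp (hFm τ)
    rw [memLp_two_iff_integrable_sq hm.aestronglyMeasurable]
    refine ⟨(hm.pow_const 2).aestronglyMeasurable, ?_⟩
    have h1 := hcomp τ hτ (fun x => ‖f i k x ^ 2‖ₑ) ((hfm i k).pow_const 2).enorm
    exact lt_of_le_of_lt h1 (ENNReal.mul_lt_top (by simp) (hfi i k).2)
  have hdi : ∀ i k, ∀ τ ∈ Ioo (0 : ℝ) τ₂,
      Integrable (fun x => (f i k (x + τ • X x) - f i k x) ^ 2) := fun i k τ hτ =>
    (((hfFi i k τ hτ).sub (hf2 i k)).integrable_sq)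
  -- bound for the derivatives of X
  obtain ⟨M, hM0, hM⟩ : ∃ M : ℝ, 0 ≤ M ∧ ∀ j k x, |pd j (fun y => X y k) x| ≤ M := by
    have h1 : ∀ j k, ∃ M : ℝ, ∀ x, |pd j (fun y => X y k) x| ≤ M := by
      intro j k
      have hXk : ContDiff ℝ (⊤ : ℕ∞) (fun y => X y k) :=
        (EuclideanSpace.proj k : V n →L[ℝ] ℝ).contDiff.comp hX
      have hcont : Continuous (pd j (fun y => X y k)) :=
        (contDiff_pd (m := 0) hXk (by simp) j).continuous
      have hcs : HasCompactSupport (fun y => X y k) :=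
        hXc.comp_left (g := fun v : V n => v k) rfl
      have hcs2 : HasCompactSupport (pd j (fun y => X y k)) := by
        have := hcs.fderiv (𝕜 := ℝ)
        exact this.comp_left (g := fun L : V n →L[ℝ] ℝ => L (e j)) rfl
      obtain ⟨C, hC⟩ := hcont.bounded_above_of_compact_support hcs2
      exact ⟨C, fun x => hC x⟩
    choose M hM using h1
    refine ⟨∑ j, ∑ k, |M j k|, Finset.sum_nonneg fun _ _ => Finset.sum_nonneg fun _ _ =>
      abs_nonneg _, fun j k x => (hM j k x).trans ((le_abs_self _).trans ?_)⟩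
    calc |M j k| ≤ ∑ k, |M j k| :=
          Finset.single_le_sum (f := fun k => |M j k|) (fun _ _ => abs_nonneg _)
            (Finset.mem_univ k)
      _ ≤ _ := Finset.single_le_sum (f := fun j => ∑ k, |M j k|)
          (fun _ _ => Finset.sum_nonneg fun _ _ => abs_nonneg _) (Finset.mem_univ j)
  obtain ⟨C, hC, hQ⟩ := qB_I2 (n := n)
  have hp1 : ∀ x ∈ E, ∀ i, |(fun i => q u i x) i| ≤ 1 := by
    intro x hx i
    have h1 := h.gg_le_one hn hx
    have h2 : (q u i x) ^ 2 ≤ gg u x :=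
      Finset.single_le_sum (f := fun i => (q u i x) ^ 2) (fun _ _ => sq_nonneg _)
        (Finset.mem_univ i)
    exact (sq_le_one_iff_abs_le_one _).1 (h2.trans h1)
  -- the limit integrand
  set A0 : V n → Fin n → Fin n → ℝ := fun x i j => pd j (Ψ i) x with hA0
  have hNi : IntegrableOn (fun x => N2 (A0 x)) E :=
    integrable_finsetSum _ fun i _ => integrable_finsetSum _ fun j _ => hL i j
  have hI0m : Measurable (fun x => I2 (A0 x) (fun i => q u i x)) :=
    measurable_I2 (A := fun i j => pd j (Ψ i)) (p := fun i => q u i)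
      (fun i j => measurable_pd j (Ψ i)) (fun i => measurable_pd i u)
  have hI0 : IntegrableOn (fun x => I2 (A0 x) (fun i => q u i x)) E := by
    refine Integrable.mono' ((hNi.const_mul 2).const_mul C) hI0m.aestronglyMeasurable ?_
    rw [ae_restrict_iff' hEm]
    refine Eventually.of_forall fun x hx => ?_
    have h1 := hQ (fun i => q u i x) (hp1 x hx) (A0 x) 0 1 zero_lt_one
    rw [I2_zero, sub_zero, sub_zero] at h1
    have h2 : N2 (0 : Fin n → Fin n → ℝ) = 0 := by simp [N2]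
    rw [h2] at h1
    rw [Real.norm_eq_abs]
    refine h1.trans (le_of_eq ?_)
    ring
  -- D τ
  set D : ℝ → ℝ := fun τ => ∑ i, ∑ k, ∫ x, (f i k (x + τ • X x) - f i k x) ^ 2 with hD
  have hDt : Tendsto D (𝓝[>] 0) (𝓝 0) := by
    have : Tendsto D (𝓝[>] 0) (𝓝 (∑ _i : Fin n, ∑ _k : Fin n, (0 : ℝ))) :=
      tendsto_finsetSum _ fun i _ => tendsto_finsetSum _ fun k _ => L2_comp hX hXc (hf2 i k)
    simpa using this
  set Nf : ℝ := ∑ i, ∑ k, ∫ x, f i k x ^ 2 with hNf
  set G : ℝ → ℝ := fun τ => 2 * D τ + 4 * n ^ 2 * M ^ 2 * τ ^ 2 * (D τ + Nf) with hG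
  have hGt : Tendsto G (𝓝[>] 0) (𝓝 0) := by
    have ht : Tendsto (fun τ : ℝ => τ) (𝓝[>] 0) (𝓝 0) := tendsto_id.mono_left nhdsWithin_le_nhds
    have := (hDt.const_mul 2).add (((ht.pow 2).const_mul (4 * n ^ 2 * M ^ 2)).mul
      (hDt.add_const Nf))
    simpa using this
  -- main inequality
  have main : ∀ δ > 0, ∀ τ, 0 < τ → τ < τ₁ → τ < τ₂ → τ < a0 / 2 → τ < (1 - b0) / 2 →
      0 ≤ (∫ x in E, I2 (A0 x) (fun i => q u i x))
        + C * (δ * (∫ x in E, N2 (A0 x)) + (δ⁻¹ + 1) * G τ) := by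
    intro δ hδ τ hτ0 h1 h2 h3 h4
    obtain ⟨Ψ', hΨ's, hΨ't, hΨ'e⟩ := h.extend (a := a0) (b := b0) (a' := a0 / 2)
      (b' := (b0 + 1) / 2) (by positivity) (by linarith) (by linarith) hΨ hs0 hX hX1 hτ0
      (by linarith) (by linarith) (fun x hx hx2 => hpush τ ⟨hτ0, h1⟩ x hx hx2)
    have hsub : Ann (n := n) (a0 / 2) ((b0 + 1) / 2) ⊆ Metric.ball 0 1 := by
      intro x hx
      rw [mem_ball_zero_iff]
      have := hx.2
      linarith
    have h0 : (0 : V n) ∉ tsupport Ψ' := by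
      intro hc
      have := (hΨ't hc).1
      rw [norm_zero] at this
      linarith
    have hv := h.second_var hst hn hΨ's (hΨ't.trans hsub) h0
    set A1 : V n → Fin n → Fin n → ℝ := fun x i j => pd j (fun y => Ψ' y i) x with hA1
    have hcs : HasCompactSupport Ψ' := by
      refine HasCompactSupport.of_support_subset_isCompact
        (K := Metric.closedBall 0 1) (isCompact_closedBall _ _) ?_
      exact (subset_tsupport _).trans (hΨ't.trans (hsub.trans Metric.ball_subset_closedBall))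
    have hA1i : ∀ i j, Integrable (fun x => (A1 x i j) ^ 2) := by
      intro i j
      have hXk : ContDiff ℝ (⊤ : ℕ∞) (fun y => Ψ' y i) :=
        (EuclideanSpace.proj i : V n →L[ℝ] ℝ).contDiff.comp hΨ's
      have hcont : Continuous (pd j (fun y => Ψ' y i)) :=
        (contDiff_pd (m := 0) hXk (by simp) j).continuous
      have hcs1 : HasCompactSupport (fun y => Ψ' y i) :=
        hcs.comp_left (g := fun v : V n => v i) rfl
      have hcs2 : HasCompactSupport (pd j (fun y => Ψ' y i)) := by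
        have := hcs1.fderiv (𝕜 := ℝ)
        exact this.comp_left (g := fun L : V n →L[ℝ] ℝ => L (e j)) rfl
      have hml : MemLp (pd j (fun y => Ψ' y i)) 2 := hcont.memLp_of_hasCompactSupport hcs2
      exact hml.integrable_sq
    have hN1i : IntegrableOn (fun x => N2 (A1 x)) E :=
      (integrable_finsetSum _ fun i _ => integrable_finsetSum _ fun j _ => hA1i i j).integrableOn
    have hI1m : Measurable (fun x => I2 (A1 x) (fun i => q u i x)) :=
      measurable_I2 (A := fun i j => pd j (fun y => Ψ' y i)) (p := fun i => q u i)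
        (fun i j => measurable_pd j _) (fun i => measurable_pd i u)
    have hI1 : IntegrableOn (fun x => I2 (A1 x) (fun i => q u i x)) E := by
      refine Integrable.mono' ((hN1i.const_mul 2).const_mul C) hI1m.aestronglyMeasurable ?_
      rw [ae_restrict_iff' hEm]
      refine Eventually.of_forall fun x hx => ?_
      have h1 := hQ (fun i => q u i x) (hp1 x hx) (A1 x) 0 1 zero_lt_one
      rw [I2_zero, sub_zero, sub_zero] at h1
      have h2 : N2 (0 : Fin n → Fin n → ℝ) = 0 := by simp [N2]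
      rw [h2] at h1
      rw [Real.norm_eq_abs]
      refine h1.trans (le_of_eq ?_)
      ring
    -- pointwise bound of N2 (A1 - A0)
    set R : V n → ℝ := fun x => 2 * (∑ i, ∑ k, (f i k (x + τ • X x) - f i k x) ^ 2)
      + 4 * n ^ 2 * M ^ 2 * τ ^ 2 * ((∑ i, ∑ k, (f i k (x + τ • X x) - f i k x) ^ 2)
        + ∑ i, ∑ k, f i k x ^ 2) with hR
    have hpt : ∀ x ∈ E, N2 (A1 x - A0 x) ≤ R x := by
      intro x hx
      have e1 : ∀ i j, A1 x i j - A0 x i j = (f i j (x + τ • X x) - f i j x)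
          + τ * ∑ k, (f i k x + (f i k (x + τ • X x) - f i k x)) *
            pd j (fun y => X y k) x := by
        intro i j
        have e2 := pd_formula h hΨ hX (fun x hx hx2 => hpush τ ⟨hτ0, h1⟩ x hx hx2) hΨ't hΨ'e
          i j hx
        have e3 : A0 x i j = f i j x := by
          simp only [hA0, hf]
          rw [indicator_of_mem hx]
        simp only [hA1]
        rw [e2, e3]
        have e4 : ∀ k, E.indicator (pd k (Ψ i)) (x + τ • X x) *
            ((if k = j then 1 else 0) + τ * pd j (fun y => X y k) x)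
            = (if k = j then f i k (x + τ • X x) else 0)
              + τ * ((f i k x + (f i k (x + τ • X x) - f i k x)) * pd j (fun y => X y k) x) := by
          intro k
          simp only [hf]
          split_ifs <;> ring
        rw [Finset.sum_congr rfl fun k _ => e4 k, Finset.sum_add_distrib, ← Finset.mul_sum]
        simp only [Finset.sum_ite_eq', Finset.mem_univ, if_true]
        ring
      have e5 : ∀ i j, (A1 x i j - A0 x i j) ^ 2 ≤ 2 * (f i j (x + τ • X x) - f i j x) ^ 2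
          + 4 * n * M ^ 2 * τ ^ 2 * ((∑ k, (f i k (x + τ • X x) - f i k x) ^ 2)
            + ∑ k, f i k x ^ 2) := by
        intro i j
        have e6 := sq_sum_bound (fun k => f i k x) (fun k => f i k (x + τ • X x) - f i k x)
          (fun k => pd j (fun y => X y k) x) hM0 (fun k => hM j k x)
        have e7 := mul_le_mul_of_nonneg_left e6 (sq_nonneg τ)
        rw [e1 i j]
        refine (alg_aux _ _ _ _ e7).trans (le_of_eq ?_)
        ring
      have e8 : N2 (A1 x - A0 x) ≤ ∑ i, ∑ j, (2 * (f i j (x + τ • X x) - f i j x) ^ 2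
          + 4 * n * M ^ 2 * τ ^ 2 * ((∑ k, (f i k (x + τ • X x) - f i k x) ^ 2)
            + ∑ k, f i k x ^ 2)) :=
        Finset.sum_le_sum fun i _ => Finset.sum_le_sum fun j _ => e5 i j
      refine e8.trans (le_of_eq ?_)
      simp only [hR, Finset.sum_add_distrib, ← Finset.mul_sum, Finset.sum_const,
        Finset.card_univ, Fintype.card_fin, nsmul_eq_mul]
      ring
    have hRi : Integrable R := by
      have i1 : Integrable (fun x => ∑ i, ∑ k, (f i k (x + τ • X x) - f i k x) ^ 2) :=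
        integrable_finsetSum _ fun i _ => integrable_finsetSum _ fun k _ =>
          hdi i k τ ⟨hτ0, h2⟩
      have i2 : Integrable (fun x => ∑ i, ∑ k, f i k x ^ 2) :=
        integrable_finsetSum _ fun i _ => integrable_finsetSum _ fun k _ => hfi i k
      exact (i1.const_mul 2).add ((i1.add i2).const_mul _)
    have hRG : ∫ x, R x = G τ := by
      have i1 : Integrable (fun x => ∑ i, ∑ k, (f i k (x + τ • X x) - f i k x) ^ 2) :=
        integrable_finsetSum _ fun i _ => integrable_finsetSum _ fun k _ =>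
          hdi i k τ ⟨hτ0, h2⟩
      have i2 : Integrable (fun x => ∑ i, ∑ k, f i k x ^ 2) :=
        integrable_finsetSum _ fun i _ => integrable_finsetSum _ fun k _ => hfi i k
      have j1 : ∫ x, ∑ i, ∑ k, (f i k (x + τ • X x) - f i k x) ^ 2 = D τ := by
        rw [integral_finsetSum _ fun i _ => integrable_finsetSum _ fun k _ =>
          hdi i k τ ⟨hτ0, h2⟩]
        refine Finset.sum_congr rfl fun i _ => ?_
        rw [integral_finsetSum _ fun k _ => hdi i k τ ⟨hτ0, h2⟩]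
      have j2 : ∫ x, ∑ i, ∑ k, f i k x ^ 2 = Nf := by
        rw [integral_finsetSum _ fun i _ => integrable_finsetSum _ fun k _ => hfi i k]
        refine Finset.sum_congr rfl fun i _ => ?_
        rw [integral_finsetSum _ fun k _ => hfi i k]
      have i12 : Integrable (fun x => (∑ i, ∑ k, (f i k (x + τ • X x) - f i k x) ^ 2)
          + ∑ i, ∑ k, f i k x ^ 2) := i1.add i2
      have i3 : Integrable (fun x => 4 * n ^ 2 * M ^ 2 * τ ^ 2 *
          ((∑ i, ∑ k, (f i k (x + τ • X x) - f i k x) ^ 2) + ∑ i, ∑ k, f i k x ^ 2)) :=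
        i12.const_mul _
      have i4 : Integrable (fun x => 2 * ∑ i, ∑ k, (f i k (x + τ • X x) - f i k x) ^ 2) :=
        i1.const_mul 2
      simp only [hR, hG]
      rw [integral_add i4 i3, integral_const_mul, integral_const_mul, integral_add i1 i2, j1, j2]
    have hR0 : ∀ x, 0 ≤ R x := by
      intro x
      simp only [hR]
      have p1 : 0 ≤ ∑ i, ∑ k, (f i k (x + τ • X x) - f i k x) ^ 2 :=
        Finset.sum_nonneg fun _ _ => Finset.sum_nonneg fun _ _ => sq_nonneg _
      have p2 : 0 ≤ ∑ i, ∑ k, f i k x ^ 2 :=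
        Finset.sum_nonneg fun _ _ => Finset.sum_nonneg fun _ _ => sq_nonneg _
      positivity
    have hRE : ∫ x in E, R x ≤ G τ := by
      rw [← hRG]
      exact setIntegral_le_integral hRi (Eventually.of_forall hR0)
    -- conclusion
    have hfin : ∫ x in E, I2 (A1 x) (fun i => q u i x) ≤
        ∫ x in E, (I2 (A0 x) (fun i => q u i x)
          + C * (δ * N2 (A0 x) + (δ⁻¹ + 1) * R x)) := by
      refine setIntegral_mono_on hI1 (hI0.add (((hNi.const_mul δ).add
        (hRi.integrableOn.const_mul (δ⁻¹ + 1))).const_mul C)) hEm fun x hx => ?_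
      have k1 := hQ (fun i => q u i x) (hp1 x hx) (A1 x) (A0 x) δ hδ
      have k2 := (abs_le.1 k1).2
      have k3 := hpt x hx
      have k4 : (δ⁻¹ + 1) * N2 (A1 x - A0 x) ≤ (δ⁻¹ + 1) * R x :=
        mul_le_mul_of_nonneg_left k3 (by positivity)
      have k5 : C * (δ * N2 (A0 x) + (δ⁻¹ + 1) * N2 (A1 x - A0 x)) ≤
          C * (δ * N2 (A0 x) + (δ⁻¹ + 1) * R x) :=
        mul_le_mul_of_nonneg_left (by linarith) hC
      linarith
    have hsum : ∫ x in E, (I2 (A0 x) (fun i => q u i x)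
          + C * (δ * N2 (A0 x) + (δ⁻¹ + 1) * R x)) =
        (∫ x in E, I2 (A0 x) (fun i => q u i x))
          + C * (δ * (∫ x in E, N2 (A0 x)) + (δ⁻¹ + 1) * ∫ x in E, R x) := by
      have i1 : IntegrableOn (fun x => δ * N2 (A0 x)) E := hNi.const_mul δ
      have i2 : IntegrableOn (fun x => (δ⁻¹ + 1) * R x) E := hRi.integrableOn.const_mul (δ⁻¹ + 1)
      have i3 : IntegrableOn (fun x => C * (δ * N2 (A0 x) + (δ⁻¹ + 1) * R x)) E :=
        (i1.add i2).const_mul C
      rw [integral_add hI0 i3, integral_const_mul, integral_add i1 i2,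
        integral_const_mul, integral_const_mul]
    have k6 : (δ⁻¹ + 1) * ∫ x in E, R x ≤ (δ⁻¹ + 1) * G τ :=
      mul_le_mul_of_nonneg_left hRE (by positivity)
    have k7 : C * (δ * (∫ x in E, N2 (A0 x)) + (δ⁻¹ + 1) * ∫ x in E, R x) ≤
        C * (δ * (∫ x in E, N2 (A0 x)) + (δ⁻¹ + 1) * G τ) :=
      mul_le_mul_of_nonneg_left (by linarith) hC
    rw [hsum] at hfin
    linarith
  -- first limit
  have lim1 : ∀ δ > 0, 0 ≤ (∫ x in E, I2 (A0 x) (fun i => q u i x))
        + C * (δ * (∫ x in E, N2 (A0 x))) := by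
    intro δ hδ
    have ht : Tendsto (fun τ => (∫ x in E, I2 (A0 x) (fun i => q u i x))
        + C * (δ * (∫ x in E, N2 (A0 x)) + (δ⁻¹ + 1) * G τ)) (𝓝[>] 0)
        (𝓝 ((∫ x in E, I2 (A0 x) (fun i => q u i x))
        + C * (δ * (∫ x in E, N2 (A0 x)) + (δ⁻¹ + 1) * 0))) :=
      (((hGt.const_mul (δ⁻¹ + 1)).const_add _).const_mul C).const_add _
    rw [mul_zero, add_zero] at ht
    refine ge_of_tendsto ht ?_
    have hpos : 0 < min (min τ₁ τ₂) (min (a0 / 2) ((1 - b0) / 2)) := by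
      refine lt_min (lt_min hτ₁ hτ₂) (lt_min (by positivity) ?_)
      linarith
    filter_upwards [Ioo_mem_nhdsGT hpos] with τ hτ
    have hτ2 := hτ.2
    rw [lt_min_iff, lt_min_iff, lt_min_iff] at hτ2
    exact main δ hδ τ hτ.1 hτ2.1.1 hτ2.1.2 hτ2.2.1 hτ2.2.2
  -- second limit
  have ht2 : Tendsto (fun δ => (∫ x in E, I2 (A0 x) (fun i => q u i x))
      + C * (δ * (∫ x in E, N2 (A0 x)))) (𝓝[>] 0)
      (𝓝 ((∫ x in E, I2 (A0 x) (fun i => q u i x))
      + C * (0 * (∫ x in E, N2 (A0 x))))) := by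
    have ht : Tendsto (fun τ : ℝ => τ) (𝓝[>] 0) (𝓝 0) := tendsto_id.mono_left nhdsWithin_le_nhds
    exact ((ht.mul_const _).const_mul C).const_add _
  rw [zero_mul, mul_zero, add_zero] at ht2
  refine ge_of_tendsto ht2 ?_
  filter_upwards [self_mem_nhdsWithin] with δ hδ
  exact lim1 δ hδ

end OPC
end

section

/-! # H08: the stability inequality in volume form -/

open MeasureTheory Set Filter Topology

namespace OPC

variable {n : ℕ} {E : Set (V n)} {u : V n → ℝ}

private theorem h8_isClosed_Ann (a b : ℝ) : IsClosed (Ann a b : Set (V n)) := by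
  have : (Ann a b : Set (V n)) = {x | a ≤ ‖x‖} ∩ {x | ‖x‖ ≤ b} := rfl
  rw [this]
  exact (isClosed_le continuous_const continuous_norm).inter
    (isClosed_le continuous_norm continuous_const)

private theorem h8_vol_Ann (a b : ℝ) : volume (Ann a b : Set (V n)) < ⊤ := by
  refine lt_of_le_of_lt (measure_mono (t := Metric.closedBall (0 : V n) b) ?_)
    measure_closedBall_lt_top
  intro x hx
  simpa using hx.2

private theorem h8_pd_zero (hE : IsOpen E) {a b : ℝ} {f : V n → ℝ}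
    (hs : ∀ x ∈ E, x ∉ Ann a b → f x = 0) (i : Fin n) {x : V n} (hx : x ∈ E)
    (hxa : x ∉ Ann a b) : pd i f x = 0 := by
  apply pd_zero_of_eventually
  filter_upwards [hE.mem_nhds hx, (h8_isClosed_Ann a b).isOpen_compl.mem_nhds hxa] with y hy hya
  exact hs y hy hya

/-- the dominating function -/
private noncomputable def h8P (a b : ℝ) (φ : V n → ℝ) (x : V n) : ℝ :=
  ∑ i, (pd i φ x) ^ 2 + (Ann a b).indicator (fun _ => (1 : ℝ)) x

private theorem h8P_nonneg (a b : ℝ) (φ : V n → ℝ) (x : V n) : 0 ≤ h8P a b φ x := by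
  unfold h8P
  have h1 : 0 ≤ ∑ i, (pd i φ x) ^ 2 := Finset.sum_nonneg fun i _ => sq_nonneg _
  have h2 : 0 ≤ (Ann a b).indicator (fun _ => (1 : ℝ)) x :=
    Set.indicator_nonneg (fun _ _ => zero_le_one) x
  linarith

private theorem h8P_mem {a b : ℝ} (φ : V n → ℝ) {x : V n} (hx : x ∈ Ann a b) :
    h8P a b φ x = ∑ i, (pd i φ x) ^ 2 + 1 := by
  unfold h8P
  rw [Set.indicator_of_mem hx]

private theorem h8_int (hE : IsOpen E) {a b : ℝ} {φ : V n → ℝ}
    (hL : IntegrableOn (fun x => ∑ i, (pd i φ x) ^ 2) E) {f : V n → ℝ}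
    (hf : ContinuousOn f E) {K : ℝ} (hK : ∀ x ∈ E, |f x| ≤ K * h8P a b φ x) :
    IntegrableOn f E := by
  have h1 : IntegrableOn (fun x => K * h8P a b φ x) E := by
    refine Integrable.const_mul ?_ K
    refine Integrable.add hL ?_
    have h2 : Integrable ((Ann a b : Set (V n)).indicator (fun _ => (1 : ℝ))) volume := by
      rw [integrable_indicator_iff (h8_isClosed_Ann a b).measurableSet]
      exact integrableOn_const (h8_vol_Ann a b).ne
    exact h2.integrableOn
  refine Integrable.mono' h1 (hf.aestronglyMeasurable hE.measurableSet) ?_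
  refine (ae_restrict_iff' hE.measurableSet).2 (Eventually.of_forall fun x hx => ?_)
  rw [Real.norm_eq_abs]
  exact hK x hx

private theorem h8_deriv {t : ℝ} (ht : t ≠ 0) :
    HasDerivAt (fun t : ℝ => 2 - (1 + t) / t ^ 2) (1 / t ^ 2 + 2 / t ^ 3) t := by
  have h1 := ((hasDerivAt_id t).const_add 1).div ((hasDerivAt_id t).pow 2)
    (by simpa using ht)
  have h2 := h1.const_sub 2
  refine h2.congr_deriv ?_
  simp only [id_eq, Nat.cast_ofNat, Nat.add_one_sub_one, pow_one, mul_one, one_mul, Pi.pow_apply]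
  field_simp
  ring

/-- STABILITY INEQUALITY (volume form). For `φ` smooth in `E`, bounded, supported in an annulus
`Ann a b`, `0 < a`, `b < 1`, with `∇φ ∈ L²(E)`:
`0 ≤ ∫_E |∇φ|² - 2 φ ∇φ·w - |S|² φ²`.
Sketch: `Sol.second_var_ext` for `Ψ_i = φ q_i/gg` (`|DΨ| ≤ C (|∇φ| + |φ|)` on the annulus:
`S, q` bounded, `gg ≥ c`), `Sol.I2_identity`, and `∫_E div (½ φ² G(gg) w) = 0` by `Sol.div_zero`: the
divergence is integrable and the flux `½ φ² G(gg) q·w → 0` uniformly in the layer, as `φ, q, w` are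
bounded and `gg → 1`, `G(1) = 0` (`Sol.lay_gg`). -/
theorem Sol.stability (h : Sol E u) (hst : Stab u) (hn : 2 ≤ n) {a b : ℝ} (ha : 0 < a)
    (hb : b < 1) {φ : V n → ℝ} (hφ : ContDiffOn ℝ (⊤ : ℕ∞) φ E) {M : ℝ}
    (hM : ∀ x ∈ E, |φ x| ≤ M) (hs : ∀ x ∈ E, x ∉ Ann a b → φ x = 0)
    (hL : IntegrableOn (fun x => ∑ i, (pd i φ x) ^ 2) E) :
    0 ≤ ∫ x in E, (∑ i, (pd i φ x) ^ 2 - 2 * φ x * ∑ i, pd i φ x * w u i x
      - NN u x * φ x ^ 2) := by
  have hE := h.isOpen
  obtain ⟨x₀, hx₀⟩ := h.ne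
  have hM0 : 0 ≤ M := (abs_nonneg _).trans (hM x₀ hx₀)
  obtain ⟨C, c, hC, hc, H⟩ := h.bounds (a := a) (b := b) ha
  have hC0 : 0 ≤ C := by linarith
  have hgne : ∀ {x}, x ∈ E → gg u x ≠ 0 := fun hx => (h.gg_pos hx).ne'
  have hdφ : ∀ {x}, x ∈ E → DifferentiableAt ℝ φ x := fun hx => diffAt hE hφ hx
  have hdg : ∀ {x}, x ∈ E → DifferentiableAt ℝ (gg u) x := fun hx => diffAt hE h.smooth_gg hx
  -- facts on the annulus
  have hpd1 : ∀ x (j : Fin n), (pd j φ x) ^ 2 ≤ ∑ i, (pd i φ x) ^ 2 := fun x j =>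
    Finset.single_le_sum (f := fun i => (pd i φ x) ^ 2) (fun i _ => sq_nonneg _)
      (Finset.mem_univ j)
  have hφsq : ∀ x ∈ E, φ x ^ 2 ≤ M ^ 2 := fun x hx => by
    have h1 := hM x hx
    rw [← sq_abs]
    exact pow_le_pow_left₀ (abs_nonneg _) h1 2
  have hNN0 : ∀ x, 0 ≤ NN u x := fun x =>
    Finset.sum_nonneg fun i _ => Finset.sum_nonneg fun j _ => sq_nonneg _
  have hB : ∀ x ∈ E, x ∈ Ann a b →
      |∑ i, pd i φ x * w u i x| ≤ C * ((n : ℝ) + 1) * h8P a b φ x := by
    intro x hx hxa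
    obtain ⟨-, -, hw, -⟩ := H x hx hxa
    rw [h8P_mem φ hxa]
    have h1 : |∑ i, pd i φ x * w u i x| ≤ ∑ i, C * ((pd i φ x) ^ 2 + 1) := by
      refine (Finset.abs_sum_le_sum_abs _ _).trans (Finset.sum_le_sum fun i _ => ?_)
      rw [abs_mul]
      have h2 := hw i
      have h3 : |pd i φ x| ≤ (pd i φ x) ^ 2 + 1 := by
        rw [← sq_abs]
        nlinarith [sq_nonneg (|pd i φ x| - 1), abs_nonneg (pd i φ x)]
      calc |pd i φ x| * |w u i x| ≤ ((pd i φ x) ^ 2 + 1) * C :=
            mul_le_mul h3 h2 (abs_nonneg _) (by positivity)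
        _ = C * ((pd i φ x) ^ 2 + 1) := by ring
    refine h1.trans ?_
    rw [← Finset.mul_sum, Finset.sum_add_distrib, Finset.sum_const, Finset.card_univ,
      Fintype.card_fin, nsmul_eq_mul, mul_one, mul_assoc]
    refine mul_le_mul_of_nonneg_left ?_ hC0
    have h4 : 0 ≤ ∑ i, (pd i φ x) ^ 2 := Finset.sum_nonneg fun i _ => sq_nonneg _
    have h5 : (0 : ℝ) ≤ n := Nat.cast_nonneg n
    nlinarith
  have hP1 : ∀ x, x ∈ Ann a b → 1 ≤ h8P a b φ x := by
    intro x hxa
    rw [h8P_mem φ hxa]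
    have h4 : 0 ≤ ∑ i, (pd i φ x) ^ 2 := Finset.sum_nonneg fun i _ => sq_nonneg _
    linarith
  -- the field
  let Ψ : Fin n → V n → ℝ := fun i y => φ y * (q u i y / gg u y)
  have hΨs : ∀ i, ContDiffOn ℝ (⊤ : ℕ∞) (Ψ i) E := fun i =>
    hφ.mul ((h.smooth_q i).div h.smooth_gg fun x hx => hgne hx)
  have hΨ0 : ∀ i, ∀ x ∈ E, x ∉ Ann a b → Ψ i x = 0 := by
    intro i x hx hxa
    show φ x * (q u i x / gg u x) = 0
    rw [hs x hx hxa, zero_mul]
  have hΨL : ∀ i j, IntegrableOn (fun x => (pd j (Ψ i) x) ^ 2) E := by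
    intro i j
    refine h8_int (a := a) (b := b) hE hL
      (K := 2 * (C / c) ^ 2 + 2 * (M * (3 * C ^ 2 / c ^ 2)) ^ 2)
      ((contDiffOn_pd_top hE (hΨs i) j).continuousOn.pow 2) ?_
    intro x hx
    by_cases hxa : x ∈ Ann a b
    · obtain ⟨hq, hS, hw, -, -, -, hgC, -, -, -, -, hgc⟩ := H x hx hxa
      have e1 : pd j (Ψ i) x = pd j φ x * (q u i x / gg u x) +
          φ x * ((S u j i x * gg u x - q u i x * (2 * w u j x)) / gg u x ^ 2) := by
        have h1 : DifferentiableAt ℝ (fun y => q u i y / gg u y) x :=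
          diffAt hE ((h.smooth_q i).div h.smooth_gg fun x hx => hgne hx) hx
        show pd j (fun y => φ y * (q u i y / gg u y)) x = _
        rw [pd_mul (g := fun y => q u i y / gg u y) (hdφ hx) h1,
          pd_div (h.diff_q i hx) (hdg hx) (hgne hx), h.pd_gg j hx, pd_q]
      have hg0 := h.gg_pos hx
      have b1 : |q u i x / gg u x| ≤ C / c := by
        rw [abs_div, abs_of_pos hg0]
        exact div_le_div₀ hC0 (hq i) hc hgc
      have b2 : |(S u j i x * gg u x - q u i x * (2 * w u j x)) / gg u x ^ 2| ≤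
          3 * C ^ 2 / c ^ 2 := by
        rw [abs_div, abs_of_pos (pow_pos hg0 2)]
        refine div_le_div₀ (by positivity) ?_ (by positivity) (pow_le_pow_left₀ hc.le hgc 2)
        have h1 : |S u j i x * gg u x| ≤ C * C := by
          rw [abs_mul, abs_of_pos hg0]
          exact mul_le_mul (hS j i) hgC hg0.le hC0
        have h2 : |q u i x * (2 * w u j x)| ≤ C * (2 * C) := by
          rw [abs_mul, abs_mul, abs_two]
          refine mul_le_mul (hq i) ?_ (by positivity) hC0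
          have := hw j
          linarith
        calc |S u j i x * gg u x - q u i x * (2 * w u j x)|
            ≤ |S u j i x * gg u x| + |q u i x * (2 * w u j x)| := abs_sub _ _
          _ ≤ 3 * C ^ 2 := by nlinarith
      have b3 : |φ x * ((S u j i x * gg u x - q u i x * (2 * w u j x)) / gg u x ^ 2)| ≤
          M * (3 * C ^ 2 / c ^ 2) := by
        rw [abs_mul]
        exact mul_le_mul (hM x hx) b2 (abs_nonneg _) hM0
      have b4 : (pd j φ x * (q u i x / gg u x)) ^ 2 ≤ (C / c) ^ 2 * (pd j φ x) ^ 2 := by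
        rw [mul_pow, mul_comm]
        refine mul_le_mul_of_nonneg_right ?_ (sq_nonneg _)
        rw [← sq_abs]
        exact pow_le_pow_left₀ (abs_nonneg _) b1 2
      have b5 : (φ x * ((S u j i x * gg u x - q u i x * (2 * w u j x)) / gg u x ^ 2)) ^ 2 ≤
          (M * (3 * C ^ 2 / c ^ 2)) ^ 2 := by
        rw [← sq_abs]
        exact pow_le_pow_left₀ (abs_nonneg _) b3 2
      rw [abs_of_nonneg (sq_nonneg _), e1]
      have b6 := hpd1 x j
      have b7 := h8P_mem (a := a) (b := b) φ hxa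
      have b8 : 0 ≤ ∑ i, (pd i φ x) ^ 2 := Finset.sum_nonneg fun i _ => sq_nonneg _
      set X := pd j φ x * (q u i x / gg u x)
      set Y := φ x * ((S u j i x * gg u x - q u i x * (2 * w u j x)) / gg u x ^ 2)
      set K1 := (C / c) ^ 2
      set K2 := (M * (3 * C ^ 2 / c ^ 2)) ^ 2
      have k1 : 0 ≤ K1 := sq_nonneg _
      have k2 : 0 ≤ K2 := sq_nonneg _
      rw [b7]
      have b9 : (X + Y) ^ 2 ≤ 2 * X ^ 2 + 2 * Y ^ 2 := by nlinarith [sq_nonneg (X - Y)]
      have b10 : K1 * (pd j φ x) ^ 2 ≤ K1 * ∑ i, (pd i φ x) ^ 2 :=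
        mul_le_mul_of_nonneg_left b6 k1
      nlinarith [mul_nonneg k2 b8]
    · rw [h8_pd_zero hE (hΨ0 i) j hx hxa]
      have := h8P_nonneg a b φ x
      have h2 : (0 : ℝ) ≤ 2 * (C / c) ^ 2 + 2 * (M * (3 * C ^ 2 / c ^ 2)) ^ 2 := by positivity
      simpa using mul_nonneg h2 this
  have hmain := h.second_var_ext hst hn ha hb hΨs hΨ0 hΨL
  -- the divergence term
  let Y : Fin n → V n → ℝ := fun i y =>
    (1 / 2) * φ y ^ 2 * (2 - (1 + gg u y) / gg u y ^ 2) * w u i y
  have hG : ContDiffOn ℝ (⊤ : ℕ∞) (fun y => 2 - (1 + gg u y) / gg u y ^ 2) E :=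
    contDiffOn_const.sub ((contDiffOn_const.add h.smooth_gg).div (h.smooth_gg.pow 2)
      fun x hx => pow_ne_zero _ (hgne hx))
  have hF : ContDiffOn ℝ (⊤ : ℕ∞) (fun y => (1 / 2 : ℝ) * φ y ^ 2) E :=
    contDiffOn_const.mul (hφ.pow 2)
  have hYs : ∀ i, ContDiffOn ℝ (⊤ : ℕ∞) (Y i) E := fun i => (hF.mul hG).mul (h.smooth_w i)
  have hY0 : ∀ i, ∀ x ∈ E, x ∉ Ann a b → Y i x = 0 := by
    intro i x hx hxa
    show (1 / 2) * φ x ^ 2 * (2 - (1 + gg u x) / gg u x ^ 2) * w u i x = 0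
    rw [hs x hx hxa]
    ring
  have hD : ∀ x ∈ E, ∑ i, pd i (Y i) x =
      φ x * (2 - (1 + gg u x) / gg u x ^ 2) * (∑ i, pd i φ x * w u i x) +
      φ x ^ 2 * (1 / gg u x ^ 2 + 2 / gg u x ^ 3) * (∑ i, w u i x ^ 2) +
      (1 / 2) * φ x ^ 2 * (2 - (1 + gg u x) / gg u x ^ 2) * NN u x := by
    intro x hx
    have e : ∀ i, pd i (Y i) x =
        φ x * (2 - (1 + gg u x) / gg u x ^ 2) * (pd i φ x * w u i x) +
        φ x ^ 2 * (1 / gg u x ^ 2 + 2 / gg u x ^ 3) * (w u i x ^ 2) +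
        (1 / 2) * φ x ^ 2 * (2 - (1 + gg u x) / gg u x ^ 2) * pd i (w u i) x := by
      intro i
      have d1 : DifferentiableAt ℝ (fun y => (1 / 2 : ℝ) * φ y ^ 2) x := diffAt hE hF hx
      have d2 : DifferentiableAt ℝ (fun y => 2 - (1 + gg u y) / gg u y ^ 2) x := diffAt hE hG hx
      have d3 : DifferentiableAt ℝ (w u i) x := diffAt hE (h.smooth_w i) hx
      have d12 : DifferentiableAt ℝ
          (fun y => (1 / 2 : ℝ) * φ y ^ 2 * (2 - (1 + gg u y) / gg u y ^ 2)) x := d1.mul d2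
      show pd i (fun y => (1 / 2 : ℝ) * φ y ^ 2 * (2 - (1 + gg u y) / gg u y ^ 2) * w u i y) x = _
      rw [pd_mul d12 d3, pd_mul d1 d2, pd_const_mul, pd_pow (hdφ hx)]
      have hder := h8_deriv (hgne hx)
      have e3 : pd i (fun y => 2 - (1 + gg u y) / gg u y ^ 2) x =
          (1 / gg u x ^ 2 + 2 / gg u x ^ 3) * (2 * w u i x) := by
        have := pd_comp (φ := fun t : ℝ => 2 - (1 + t) / t ^ 2) hder.differentiableAt (hdg hx) i
        rw [hder.deriv, h.pd_gg i hx] at this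
        exact this
      rw [e3]
      simp only [Nat.cast_ofNat, Nat.add_one_sub_one, pow_one]
      ring
    rw [Finset.sum_congr rfl fun i _ => e i, Finset.sum_add_distrib, Finset.sum_add_distrib,
      ← Finset.mul_sum, ← Finset.mul_sum, ← Finset.mul_sum, h.div_w hx]
  -- bounds for `G` on the annulus
  have hGb : ∀ x ∈ E, x ∈ Ann a b →
      |2 - (1 + gg u x) / gg u x ^ 2| ≤ 2 + (1 + C) / c ^ 2 := by
    intro x hx hxa
    obtain ⟨-, -, -, -, -, -, hgC, -, -, -, -, hgc⟩ := H x hx hxa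
    have hg0 := h.gg_pos hx
    have h1 : |(1 + gg u x) / gg u x ^ 2| ≤ (1 + C) / c ^ 2 := by
      rw [abs_of_nonneg (by positivity)]
      exact div_le_div₀ (by positivity) (by linarith) (by positivity)
        (pow_le_pow_left₀ hc.le hgc 2)
    calc |2 - (1 + gg u x) / gg u x ^ 2| ≤ |(2 : ℝ)| + |(1 + gg u x) / gg u x ^ 2| := abs_sub _ _
      _ ≤ 2 + (1 + C) / c ^ 2 := by rw [abs_two]; linarith
  have hGb' : ∀ x ∈ E, x ∈ Ann a b →
      |1 / gg u x ^ 2 + 2 / gg u x ^ 3| ≤ 1 / c ^ 2 + 2 / c ^ 3 := by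
    intro x hx hxa
    obtain ⟨-, -, -, -, -, -, hgC, -, -, -, -, hgc⟩ := H x hx hxa
    have hg0 := h.gg_pos hx
    rw [abs_of_nonneg (by positivity)]
    have h1 : 1 / gg u x ^ 2 ≤ 1 / c ^ 2 :=
      div_le_div₀ (by norm_num) le_rfl (by positivity) (pow_le_pow_left₀ hc.le hgc 2)
    have h2 : 2 / gg u x ^ 3 ≤ 2 / c ^ 3 :=
      div_le_div₀ (by norm_num) le_rfl (by positivity) (pow_le_pow_left₀ hc.le hgc 3)
    linarith
  have hW : ∀ x ∈ E, x ∈ Ann a b → ∑ i, w u i x ^ 2 ≤ (n : ℝ) * C ^ 2 := by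
    intro x hx hxa
    obtain ⟨-, -, hw, -⟩ := H x hx hxa
    calc ∑ i, w u i x ^ 2 ≤ ∑ _i : Fin n, C ^ 2 := by
          refine Finset.sum_le_sum fun i _ => ?_
          rw [← sq_abs]
          exact pow_le_pow_left₀ (abs_nonneg _) (hw i) 2
      _ = (n : ℝ) * C ^ 2 := by
          rw [Finset.sum_const, Finset.card_univ, Fintype.card_fin, nsmul_eq_mul]
  have hDi : IntegrableOn (fun x => ∑ i, pd i (Y i) x) E := by
    refine h8_int (a := a) (b := b) hE hL
      (K := M * (2 + (1 + C) / c ^ 2) * (C * ((n : ℝ) + 1)) +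
        M ^ 2 * (1 / c ^ 2 + 2 / c ^ 3) * ((n : ℝ) * C ^ 2) +
        (1 / 2) * M ^ 2 * (2 + (1 + C) / c ^ 2) * C)
      (continuousOn_finsetSum _ fun i _ => (contDiffOn_pd_top hE (hYs i) i).continuousOn) ?_
    intro x hx
    by_cases hxa : x ∈ Ann a b
    · obtain ⟨-, -, -, -, -, -, -, hNC, -⟩ := H x hx hxa
      rw [hD x hx]
      have a1 := hGb x hx hxa
      have a2 := hGb' x hx hxa
      have a3 := hW x hx hxa
      have a4 := hB x hx hxa
      have a5 := hP1 x hxa
      have a6 := hφsq x hx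
      have a7 := hNN0 x
      have a8 : 0 ≤ ∑ i, w u i x ^ 2 := Finset.sum_nonneg fun i _ => sq_nonneg _
      have a9 := hM x hx
      have g0 : (0 : ℝ) ≤ 2 + (1 + C) / c ^ 2 := by positivity
      have g1 : (0 : ℝ) ≤ 1 / c ^ 2 + 2 / c ^ 3 := by positivity
      set P := h8P a b φ x
      set B := ∑ i, pd i φ x * w u i x
      set W := ∑ i, w u i x ^ 2
      set G := 2 - (1 + gg u x) / gg u x ^ 2
      set G' := 1 / gg u x ^ 2 + 2 / gg u x ^ 3
      set Γ := 2 + (1 + C) / c ^ 2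
      set Γ' := 1 / c ^ 2 + 2 / c ^ 3
      have hP0 : 0 ≤ P := by linarith
      have t1 : |φ x * G * B| ≤ M * Γ * (C * ((n : ℝ) + 1)) * P := by
        rw [abs_mul, abs_mul]
        calc |φ x| * |G| * |B| ≤ M * Γ * (C * ((n : ℝ) + 1) * P) :=
              mul_le_mul (mul_le_mul a9 a1 (abs_nonneg _) hM0) a4 (abs_nonneg _) (by positivity)
          _ = M * Γ * (C * ((n : ℝ) + 1)) * P := by ring
      have t2 : |φ x ^ 2 * G' * W| ≤ M ^ 2 * Γ' * ((n : ℝ) * C ^ 2) * P := by
        rw [abs_mul, abs_mul, abs_of_nonneg (sq_nonneg (φ x)), abs_of_nonneg a8]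
        calc φ x ^ 2 * |G'| * W ≤ M ^ 2 * Γ' * ((n : ℝ) * C ^ 2) :=
              mul_le_mul (mul_le_mul a6 a2 (abs_nonneg _) (sq_nonneg _)) a3 a8 (by positivity)
          _ ≤ M ^ 2 * Γ' * ((n : ℝ) * C ^ 2) * P := le_mul_of_one_le_right (by positivity) a5
      have t3 : |(1 / 2) * φ x ^ 2 * G * NN u x| ≤ (1 / 2) * M ^ 2 * Γ * C * P := by
        rw [abs_mul, abs_mul, abs_of_nonneg (show 0 ≤ (1 / 2) * φ x ^ 2 by positivity),
          abs_of_nonneg a7]
        calc (1 / 2) * φ x ^ 2 * |G| * NN u x ≤ (1 / 2) * M ^ 2 * Γ * C :=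
              mul_le_mul (mul_le_mul (by linarith) a1 (abs_nonneg _) (by positivity)) hNC a7
                (by positivity)
          _ ≤ (1 / 2) * M ^ 2 * Γ * C * P := le_mul_of_one_le_right (by positivity) a5
      calc |φ x * G * B + φ x ^ 2 * G' * W + (1 / 2) * φ x ^ 2 * G * NN u x|
          ≤ |φ x * G * B| + |φ x ^ 2 * G' * W| + |(1 / 2) * φ x ^ 2 * G * NN u x| :=
            (abs_add_le _ _).trans (add_le_add (abs_add_le _ _) le_rfl)
        _ ≤ _ := by
            rw [add_mul, add_mul]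
            exact add_le_add (add_le_add t1 t2) t3
    · have h0 : ∑ i, pd i (Y i) x = 0 :=
        Finset.sum_eq_zero fun i _ => h8_pd_zero hE (hY0 i) i hx hxa
      rw [h0, abs_zero]
      exact mul_nonneg (by positivity) (h8P_nonneg a b φ x)
  -- the main term is integrable
  have hAi : IntegrableOn (fun x => ∑ i, (pd i φ x) ^ 2 - 2 * φ x * ∑ i, pd i φ x * w u i x
      - NN u x * φ x ^ 2) E := by
    have c1 : ContinuousOn (fun x => ∑ i, (pd i φ x) ^ 2) E :=
      continuousOn_finsetSum _ fun i _ => (contDiffOn_pd_top hE hφ i).continuousOn.pow 2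
    have c2 : ContinuousOn (fun x => ∑ i, pd i φ x * w u i x) E :=
      continuousOn_finsetSum _ fun i _ =>
        (contDiffOn_pd_top hE hφ i).continuousOn.mul (h.smooth_w i).continuousOn
    have c3 : ContinuousOn (fun x => ∑ i, (pd i φ x) ^ 2 - 2 * φ x * ∑ i, pd i φ x * w u i x
        - NN u x * φ x ^ 2) E :=
      (c1.sub ((continuousOn_const.mul hφ.continuousOn).mul c2)).sub
        (h.smooth_NN.continuousOn.mul (hφ.continuousOn.pow 2))
    refine h8_int (a := a) (b := b) hE hL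
      (K := 1 + 2 * M * (C * ((n : ℝ) + 1)) + C * M ^ 2) c3 ?_
    intro x hx
    by_cases hxa : x ∈ Ann a b
    · obtain ⟨-, -, -, -, -, -, -, hNC, -⟩ := H x hx hxa
      have a4 := hB x hx hxa
      have a5 := hP1 x hxa
      have a6 := hφsq x hx
      have a7 := hNN0 x
      have a9 := hM x hx
      have b7 := h8P_mem (a := a) (b := b) φ hxa
      have b8 : 0 ≤ ∑ i, (pd i φ x) ^ 2 := Finset.sum_nonneg fun i _ => sq_nonneg _
      set P := h8P a b φ x
      set B := ∑ i, pd i φ x * w u i x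
      set Q := ∑ i, (pd i φ x) ^ 2
      have t0 : |Q| ≤ 1 * P := by rw [abs_of_nonneg b8]; linarith
      have t1 : |2 * φ x * B| ≤ 2 * M * (C * ((n : ℝ) + 1)) * P := by
        rw [abs_mul, abs_mul, abs_two]
        calc 2 * |φ x| * |B| ≤ 2 * M * (C * ((n : ℝ) + 1) * P) :=
              mul_le_mul (by linarith) a4 (abs_nonneg _) (by positivity)
          _ = 2 * M * (C * ((n : ℝ) + 1)) * P := by ring
      have t2 : |NN u x * φ x ^ 2| ≤ C * M ^ 2 * P := by
        rw [abs_of_nonneg (mul_nonneg a7 (sq_nonneg _))]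
        calc NN u x * φ x ^ 2 ≤ C * M ^ 2 := mul_le_mul hNC a6 (sq_nonneg _) hC0
          _ ≤ C * M ^ 2 * P := le_mul_of_one_le_right (by positivity) a5
      calc |Q - 2 * φ x * B - NN u x * φ x ^ 2|
          ≤ |Q| + |2 * φ x * B| + |NN u x * φ x ^ 2| :=
            (abs_sub _ _).trans (add_le_add (abs_sub _ _) le_rfl)
        _ ≤ _ := by
            rw [add_mul, add_mul]
            exact add_le_add (add_le_add t0 t1) t2
    · have h0 : ∀ i, pd i φ x = 0 := fun i => h8_pd_zero hE hs i hx hxa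
      have h1 : ∑ i, (pd i φ x) ^ 2 - 2 * φ x * ∑ i, pd i φ x * w u i x
          - NN u x * φ x ^ 2 = 0 := by
        rw [hs x hx hxa]
        simp [h0]
      rw [h1, abs_zero]
      exact mul_nonneg (by positivity) (h8P_nonneg a b φ x)
  -- zero flux
  have hflux : ∀ δ > 0, ∃ ε > 0, ∀ x ∈ E, u x < ε → |∑ i, q u i x * Y i x| ≤ δ := by
    intro δ hδ
    have hcont : ContinuousAt (fun t : ℝ => 2 - (1 + t) / t ^ 2) 1 :=
      (h8_deriv (one_ne_zero)).continuousAt
    have hR : (0 : ℝ) < (1 / 2) * M ^ 2 * ((n : ℝ) * (C * C)) + 1 := by positivity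
    obtain ⟨δ', hδ', hcl⟩ := Metric.continuousAt_iff.1 hcont
      (δ / ((1 / 2) * M ^ 2 * ((n : ℝ) * (C * C)) + 1)) (div_pos hδ hR)
    obtain ⟨ε, hε, hlay⟩ := h.lay_gg a b ha δ' hδ'
    refine ⟨ε, hε, fun x hx hux => ?_⟩
    by_cases hxa : x ∈ Ann a b
    · have h1 := hlay x hx hxa hux
      have h2 := hcl (x := gg u x) (by rw [Real.dist_eq]; exact h1)
      rw [Real.dist_eq] at h2
      have h3 : (2 : ℝ) - (1 + 1) / 1 ^ 2 = 0 := by norm_num
      rw [h3, sub_zero] at h2
      obtain ⟨hq, -, hw, -⟩ := H x hx hxa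
      have e1 : ∑ i, q u i x * Y i x = (1 / 2) * φ x ^ 2 * (2 - (1 + gg u x) / gg u x ^ 2) *
          ∑ i, q u i x * w u i x := by
        rw [Finset.mul_sum]
        refine Finset.sum_congr rfl fun i _ => ?_
        show q u i x * ((1 / 2) * φ x ^ 2 * (2 - (1 + gg u x) / gg u x ^ 2) * w u i x) = _
        ring
      have e2 : |∑ i, q u i x * w u i x| ≤ (n : ℝ) * (C * C) := by
        calc |∑ i, q u i x * w u i x| ≤ ∑ i, |q u i x * w u i x| :=
              Finset.abs_sum_le_sum_abs _ _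
          _ ≤ ∑ _i : Fin n, C * C := by
              refine Finset.sum_le_sum fun i _ => ?_
              rw [abs_mul]
              exact mul_le_mul (hq i) (hw i) (abs_nonneg _) hC0
          _ = (n : ℝ) * (C * C) := by
              rw [Finset.sum_const, Finset.card_univ, Fintype.card_fin, nsmul_eq_mul]
      have a6 := hφsq x hx
      rw [e1, abs_mul, abs_mul, abs_of_nonneg (show 0 ≤ (1 / 2) * φ x ^ 2 by positivity)]
      set G := 2 - (1 + gg u x) / gg u x ^ 2
      set R := (1 / 2) * M ^ 2 * ((n : ℝ) * (C * C)) + 1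
      have e3 : (1 / 2) * φ x ^ 2 * |G| * |∑ i, q u i x * w u i x| ≤
          (1 / 2) * M ^ 2 * (δ / R) * ((n : ℝ) * (C * C)) :=
        mul_le_mul (mul_le_mul (by linarith) h2.le (abs_nonneg _) (by positivity)) e2
          (abs_nonneg _) (by positivity)
      refine e3.trans ?_
      have e4 : (1 / 2) * M ^ 2 * (δ / R) * ((n : ℝ) * (C * C)) = δ * ((R - 1) / R) := by
        show _ = δ * (((1 / 2) * M ^ 2 * ((n : ℝ) * (C * C)) + 1 - 1) / R)
        ring
      rw [e4]
      have e5 : (R - 1) / R ≤ 1 := by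
        rw [div_le_one hR]
        linarith
      calc δ * ((R - 1) / R) ≤ δ * 1 := mul_le_mul_of_nonneg_left e5 hδ.le
        _ = δ := mul_one δ
    · have h0 : ∑ i, q u i x * Y i x = 0 :=
        Finset.sum_eq_zero fun i _ => by rw [hY0 i x hx hxa, mul_zero]
      rw [h0, abs_zero]
      exact hδ.le
  have hdiv := h.div_zero (a := a) (b := b) ha (fun i => (hYs i).of_le one_le_top') hY0 hDi hflux
  have heq : ∫ x in E, I2 (fun i j => pd j (Ψ i) x) (fun i => q u i x) =
      ∫ x in E, ((∑ i, (pd i φ x) ^ 2 - 2 * φ x * ∑ i, pd i φ x * w u i x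
        - NN u x * φ x ^ 2) + ∑ i, pd i (Y i) x) :=
    setIntegral_congr_fun hE.measurableSet fun x hx => h.I2_identity hφ hx
  rw [heq, integral_add hAi hDi, hdiv, add_zero] at hmain
  exact hmain

end OPC
end
end
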