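import Pool.Agent.Lib.MP_9059b8_an.B05
import Pool.Agent.Lib.MP_9059b8_an.A06
import Pool.Agent.Lib.MP_9059b8_an.F02
import Pool.Agent.Lib.MP_9059b8_an.P03

section

/-! # J02: the radial lemma -/

open MeasureTheory Set Filter Topology

namespace OPC

variable {n : ℕ} {E : Set (V n)} {u : V n → ℝ}

private theorem contDiff_coord_aux (i : Fin n) {k : WithTop ℕ∞} : ContDiff ℝ k (fun y : V n => y i) :=
  (EuclideanSpace.proj i : V n →L[ℝ] ℝ).contDiff

/-- Radial lemma: for `H` of class `C¹` on `E`, homogeneous of degree `-n`, integrable on annuli,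
`∫_E H ∑ x_i ∂_i η = 0`.
Sketch: `Y_i = H x_i` has divergence `n H + x·∇H = 0` (Euler); `Sol.ibp_kcut` with `κ = chi`; the
boundary term is `ε⁻¹ ∫ chi'(u/ε) η H (x·q)`, `x·q = u ≤ 2ε` on the support, so it is
`≤ C ∫_{layer} |H| → 0`; dominated convergence for the other term. -/
theorem Sol.radial (h : Sol E u) {H : V n → ℝ} (hH : ContDiffOn ℝ 1 H E)
    (hh : ∀ s : ℝ, 0 < s → ∀ x ∈ E, H (s • x) = s ^ (-(n : ℤ)) * H x)
    (hi : ∀ a b : ℝ, 0 < a → IntegrableOn H (E ∩ Ann a b)) {η : V n → ℝ} (hη : Tst η) :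
    ∫ x in E, H x * ∑ i, x i * pd i η x = 0 := by
  classical
  obtain ⟨a, b, ha, -, hsup⟩ := hη.ann
  have hEm : MeasurableSet E := h.isOpen.measurableSet
  have hAm : MeasurableSet (Ann a b : Set (V n)) :=
    ((isClosed_le continuous_const continuous_norm).inter
      (isClosed_le continuous_norm continuous_const)).measurableSet
  have hη0 : ∀ x, x ∉ (Ann a b : Set (V n)) → η x = 0 := fun x hx =>
    image_eq_zero_of_notMem_tsupport fun hx' => hx (hsup hx')
  have hpd0 : ∀ i x, x ∉ (Ann a b : Set (V n)) → pd i η x = 0 := fun i x hx =>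
    pd_zero_of_eventually (notMem_tsupport_iff_eventuallyEq.1 fun hx' => hx (hsup hx')) i
  have hpdc : ∀ i, Continuous (pd i η) := fun i =>
    (contDiff_pd (m := 0) (k := (⊤ : ℕ∞)) hη.smooth (by simp) i).continuous
  have hGc : Continuous (fun x : V n => ∑ i, x i * pd i η x) :=
    continuous_finsetSum _ fun i _ => (contDiff_coord_aux i (k := 0)).continuous.mul (hpdc i)
  have hGs : HasCompactSupport (fun x : V n => ∑ i, x i * pd i η x) := by
    apply HasCompactSupport.of_support_subset_isCompact hη.cpt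
    intro x hx
    by_contra hx'
    apply hx
    exact Finset.sum_eq_zero fun i _ => by
      rw [pd_zero_of_eventually (notMem_tsupport_iff_eventuallyEq.1 hx') i, mul_zero]
  obtain ⟨C1, hC1⟩ := hGs.exists_bound_of_continuous hGc
  obtain ⟨C2, hC2⟩ := hη.cpt.exists_bound_of_continuous hη.smooth.continuous
  obtain ⟨C3, hC31, hC3⟩ := deriv_chi_bdd
  have hC1' : 0 ≤ C1 := (norm_nonneg _).trans (hC1 0)
  have hC2' : 0 ≤ C2 := (norm_nonneg _).trans (hC2 0)
  have hHc : ContinuousOn H E := hH.continuousOn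
  have huc := h.cont
  -- the divergence vanishes
  have hdiv : ∀ x ∈ E, ∑ i, pd i (fun y => H y * y i) x = 0 := by
    intro x hx
    have hd : ∀ y ∈ E, DifferentiableAt ℝ H y := fun y hy =>
      (hH.contDiffAt (h.isOpen.mem_nhds hy)).differentiableAt (by norm_num)
    have he := euler h.isOpen hd (-(n : ℤ)) hh x hx
    have h1 : ∀ i, pd i (fun y => H y * y i) x = x i * pd i H x + H x := by
      intro i
      rw [pd_mul (hd x hx) ((contDiff_coord_aux i (k := 1)).differentiable (by norm_num) x), pd_coord]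
      simp
      ring
    simp_rw [h1]
    rw [Finset.sum_add_distrib, he]
    simp
  -- integration by parts
  have hibp : ∀ ε : ℝ, 0 < ε →
      ∫ x in E, chi (u x / ε) * (H x * ∑ i, x i * pd i η x)
        = - ∫ x in E, ε⁻¹ * (deriv chi (u x / ε) * η x * (H x * u x)) := by
    intro ε hε
    have h1 := h.ibp_kcut chi_smooth (fun s hs => chi_eq_zero hs) hη hε
      (Y := fun i x => H x * x i)
      (fun i => hH.mul (contDiff_coord_aux i).contDiffOn)
    have h2 : ∫ x in E, chi (u x / ε) * η x * ∑ i, pd i (fun y => H y * y i) x = 0 := by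
      apply setIntegral_eq_zero_of_forall_eq_zero
      intro x hx
      rw [hdiv x hx, mul_zero]
    have h3 : ∫ x in E, chi (u x / ε) * ∑ i, pd i η x * (H x * x i)
        = ∫ x in E, chi (u x / ε) * (H x * ∑ i, x i * pd i η x) := by
      congr 1
      funext x
      congr 1
      rw [Finset.mul_sum]
      exact Finset.sum_congr rfl fun i _ => by ring
    have h4 : ∫ x in E, deriv chi (u x / ε) * η x * ∑ i, q u i x * (H x * x i)
        = ∫ x in E, deriv chi (u x / ε) * η x * (H x * u x) := by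
      apply setIntegral_congr_fun hEm
      intro x hx
      simp only
      congr 1
      rw [← h.euler_u hx, Finset.mul_sum]
      exact Finset.sum_congr rfl fun i _ => by ring
    rw [h2, h3, h4] at h1
    rw [integral_const_mul]
    linarith
  -- sequence
  set ε : ℕ → ℝ := fun m => 1 / ((m : ℝ) + 1) with hεdef
  have hεpos : ∀ m, 0 < ε m := fun m => by positivity
  have hε0 : Tendsto ε atTop (𝓝 0) := tendsto_one_div_add_atTop_nhds_zero_nat
  have hsmall : ∀ x ∈ E, ∀ᶠ m in atTop, 2 < u x / ε m := by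
    intro x hx
    have hux := h.pos x hx
    have : ∀ᶠ m in atTop, ε m < u x / 2 := hε0.eventually (gt_mem_nhds (by positivity))
    filter_upwards [this] with m hm
    rw [lt_div_iff₀ (hεpos m)]
    linarith
  have hIntH : ∀ C : ℝ, Integrable ((Ann a b : Set (V n)).indicator fun x => C * |H x|)
      (volume.restrict E) := by
    intro C
    rw [integrable_indicator_iff hAm, IntegrableOn, Measure.restrict_restrict hAm, inter_comm]
    exact ((hi a b ha).abs).const_mul C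
  have hlim1 : Tendsto (fun m => ∫ x in E, chi (u x / ε m) * (H x * ∑ i, x i * pd i η x)) atTop
      (𝓝 (∫ x in E, H x * ∑ i, x i * pd i η x)) := by
    apply tendsto_integral_of_dominated_convergence _ _ (hIntH C1)
    · intro m
      apply ae_restrict_of_forall_mem hEm
      intro x hx
      by_cases hxA : x ∈ (Ann a b : Set (V n))
      · rw [indicator_of_mem hxA, norm_mul, norm_mul, Real.norm_eq_abs, Real.norm_eq_abs,
          abs_of_nonneg (chi_nonneg _)]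
        calc chi (u x / ε m) * (|H x| * ‖∑ i, x i * pd i η x‖)
            ≤ 1 * (|H x| * C1) := by
              apply mul_le_mul (chi_le_one _) _ (by positivity) zero_le_one
              exact mul_le_mul_of_nonneg_left (hC1 x) (abs_nonneg _)
          _ = C1 * |H x| := by ring
      · rw [indicator_of_notMem hxA]
        have : ∑ i, x i * pd i η x = 0 :=
          Finset.sum_eq_zero fun i _ => by rw [hpd0 i x hxA, mul_zero]
        rw [this]
        simp
    · apply ae_restrict_of_forall_mem hEm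
      intro x hx
      apply tendsto_const_nhds.congr'
      filter_upwards [hsmall x hx] with m hm
      rw [chi_eq_one hm.le, one_mul]
    · intro m
      refine ContinuousOn.aestronglyMeasurable ?_ hEm
      exact ((chi_smooth.continuous.comp (huc.div_const _)).continuousOn).mul
        (hHc.mul hGc.continuousOn)
  have hlim2 : Tendsto (fun m => ∫ x in E, (ε m)⁻¹ * (deriv chi (u x / ε m) * η x * (H x * u x)))
      atTop (𝓝 (∫ x in E, (0 : ℝ))) := by
    apply tendsto_integral_of_dominated_convergence _ _ (hIntH (2 * C2 * C3))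
    · intro m
      apply ae_restrict_of_forall_mem hEm
      intro x hx
      by_cases hxA : x ∈ (Ann a b : Set (V n))
      · rw [indicator_of_mem hxA]
        by_cases hu : u x / ε m ≤ 2
        · have hu2 : u x ≤ 2 * ε m := by rwa [div_le_iff₀ (hεpos m)] at hu
          have hux := h.pos x hx
          rw [norm_mul, norm_mul, norm_mul, norm_mul, Real.norm_eq_abs, Real.norm_eq_abs,
            Real.norm_eq_abs (H x), Real.norm_eq_abs (u x), abs_of_pos hux,
            abs_of_pos (inv_pos.2 (hεpos m))]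
          calc (ε m)⁻¹ * (|deriv chi (u x / ε m)| * ‖η x‖ * (|H x| * u x))
              ≤ (ε m)⁻¹ * (C3 * C2 * (|H x| * (2 * ε m))) := by
                apply mul_le_mul_of_nonneg_left _ (inv_pos.2 (hεpos m)).le
                apply mul_le_mul
                · exact mul_le_mul (hC3 _) (hC2 x) (norm_nonneg _) (by linarith)
                · exact mul_le_mul_of_nonneg_left hu2 (abs_nonneg _)
                · positivity
                · exact mul_nonneg (by linarith) hC2'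
            _ = 2 * C2 * C3 * |H x| := by
                have := (hεpos m).ne'
                field_simp
        · rw [deriv_chi_eq_zero (fun hc => hu hc.2)]
          simp only [zero_mul, mul_zero, norm_zero]
          exact mul_nonneg (mul_nonneg (by linarith) (by linarith)) (abs_nonneg _)
      · rw [indicator_of_notMem hxA, hη0 x hxA]
        simp
    · apply ae_restrict_of_forall_mem hEm
      intro x hx
      apply tendsto_const_nhds.congr'
      filter_upwards [hsmall x hx] with m hm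
      rw [deriv_chi_eq_zero (fun hc => absurd hc.2 (not_le.2 hm))]
      simp
    · intro m
      refine ContinuousOn.aestronglyMeasurable ?_ hEm
      exact continuousOn_const.mul
        ((((deriv_chi_smooth.continuous.comp (huc.div_const _)).mul
          hη.smooth.continuous).continuousOn).mul (hHc.mul huc.continuousOn))
  have hlim3 : Tendsto (fun m => ∫ x in E, chi (u x / ε m) * (H x * ∑ i, x i * pd i η x)) atTop
      (𝓝 (-(∫ x in E, (0 : ℝ)))) := by
    refine (hlim2.neg).congr fun m => ?_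
    rw [hibp (ε m) (hεpos m)]
  have := tendsto_nhds_unique hlim1 hlim3
  rw [this]
  simp

end OPC
end

section

section

/-! # I01: regularised powers -/

open MeasureTheory Set Filter Topology

namespace OPC

variable {n : ℕ}

/-- `kδ` is smooth, vanishes for `s ≤ δ`, and for `ϖ ≤ 2` its derivative is at least
`(ϖ/2 - 1) chi(s/δ) s^{ϖ/2-2}`. -/
theorem kδ_spec {ϖ δ : ℝ} (hδ : 0 < δ) :
    ContDiff ℝ (⊤ : ℕ∞) (kδ ϖ δ) ∧ (∀ s ≤ δ, kδ ϖ δ s = 0) ∧ (∀ s, 0 ≤ s → 0 ≤ kδ ϖ δ s) ∧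
      ∀ s, 0 < s → (ϖ / 2 - 1) * chi (s / δ) * s ^ (ϖ / 2 - 2) ≤ deriv (kδ ϖ δ) s := by
  have hz : ∀ s ≤ δ, kδ ϖ δ s = 0 := by
    intro s hs
    have : s / δ ≤ 1 := by rwa [div_le_one hδ]
    simp [kδ, chi_eq_zero this]
  refine ⟨?_, hz, ?_, ?_⟩
  · rw [contDiff_iff_contDiffAt]
    intro s
    rcases lt_or_ge s δ with h | h
    · have : kδ ϖ δ =ᶠ[𝓝 s] fun _ => (0 : ℝ) := by
        filter_upwards [Iio_mem_nhds h] with y hy
        exact hz y (le_of_lt hy)
      exact contDiffAt_const.congr_of_eventuallyEq this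
    · have hs : s ≠ 0 := (hδ.trans_le h).ne'
      have h1 : ContDiffAt ℝ (⊤ : ℕ∞) (fun s : ℝ => chi (s / δ)) s :=
        (chi_smooth.comp (contDiff_id.div_const δ)).contDiffAt
      have h2 : ContDiffAt ℝ (⊤ : ℕ∞) (fun s : ℝ => s ^ (ϖ / 2 - 1)) s :=
        Real.contDiffAt_rpow_const_of_ne hs
      exact h1.mul h2
  · intro s hs
    exact mul_nonneg (chi_nonneg _) (Real.rpow_nonneg hs _)
  · intro s hs
    have hc : HasDerivAt (fun s : ℝ => chi (s / δ)) (deriv chi (s / δ) * (1 / δ)) s := by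
      have hd : HasDerivAt chi (deriv chi (s / δ)) (s / δ) :=
        ((chi_smooth.differentiable (by simp)) (s / δ)).hasDerivAt
      have hi : HasDerivAt (fun s : ℝ => s / δ) (1 / δ) s := (hasDerivAt_id s).div_const δ
      exact HasDerivAt.comp (h₂ := chi) s hd hi
    have hp : HasDerivAt (fun s : ℝ => s ^ (ϖ / 2 - 1))
        ((ϖ / 2 - 1) * s ^ (ϖ / 2 - 1 - 1)) s :=
      Real.hasDerivAt_rpow_const (Or.inl hs.ne')
    have hm := (hc.mul hp).deriv
    have hk : deriv (kδ ϖ δ) s = deriv chi (s / δ) * (1 / δ) * s ^ (ϖ / 2 - 1)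
        + chi (s / δ) * ((ϖ / 2 - 1) * s ^ (ϖ / 2 - 1 - 1)) := hm
    rw [hk]
    have h0 : 0 ≤ deriv chi (s / δ) * (1 / δ) * s ^ (ϖ / 2 - 1) :=
      mul_nonneg (mul_nonneg (deriv_chi_nonneg _) (by positivity)) (Real.rpow_nonneg hs.le _)
    have he : ϖ / 2 - 1 - 1 = ϖ / 2 - 2 := by ring
    rw [he]
    nlinarith [h0]

end OPC
end

section

/-! # I02: integrability of |S|^(p-2)|T|^2 -/

open MeasureTheory Set Filter Topology

namespace OPC

variable {n : ℕ} {E : Set (V n)} {u : V n → ℝ}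

private theorem i2_NN_nonneg (u : V n → ℝ) (x : V n) : 0 ≤ NN u x :=
  Finset.sum_nonneg fun _ _ => Finset.sum_nonneg fun _ _ => sq_nonneg _

private theorem i2_TT_nonneg (u : V n → ℝ) (x : V n) : 0 ≤ TT u x :=
  Finset.sum_nonneg fun _ _ => Finset.sum_nonneg fun _ _ => Finset.sum_nonneg fun _ _ => sq_nonneg _

private theorem i2_a2_nonneg (u : V n → ℝ) (x : V n) : 0 ≤ a2 u x :=
  Finset.sum_nonneg fun _ _ => sq_nonneg _

private theorem i2_abs_T_le (u : V n → ℝ) (i j k : Fin n) (x : V n) :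
    |T u i j k x| ≤ √(TT u x) := by
  rw [← Real.sqrt_sq_eq_abs]
  apply Real.sqrt_le_sqrt
  unfold TT
  calc (T u i j k x) ^ 2 ≤ ∑ k', (T u i j k' x) ^ 2 :=
        Finset.single_le_sum (f := fun k' => (T u i j k' x) ^ 2) (fun _ _ => sq_nonneg _)
          (Finset.mem_univ k)
    _ ≤ ∑ j', ∑ k', (T u i j' k' x) ^ 2 :=
        Finset.single_le_sum (f := fun j' => ∑ k', (T u i j' k' x) ^ 2)
          (fun _ _ => Finset.sum_nonneg fun _ _ => sq_nonneg _) (Finset.mem_univ j)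
    _ ≤ _ :=
        Finset.single_le_sum (f := fun i' => ∑ j', ∑ k', (T u i' j' k' x) ^ 2)
          (fun _ _ => Finset.sum_nonneg fun _ _ => Finset.sum_nonneg fun _ _ => sq_nonneg _)
          (Finset.mem_univ i)

private theorem i2_abs_a_le (u : V n → ℝ) (i : Fin n) (x : V n) :
    |aa u i x| ≤ √(a2 u x) := by
  rw [← Real.sqrt_sq_eq_abs]
  apply Real.sqrt_le_sqrt
  unfold a2
  exact Finset.single_le_sum (f := fun i' => (aa u i' x) ^ 2) (fun _ _ => sq_nonneg _)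
    (Finset.mem_univ i)

private theorem i2_sqrt_le (t : ℝ) (ht : 0 ≤ t) : √t ≤ 1 + t := by
  rw [Real.sqrt_le_left (by linarith)]
  nlinarith

private theorem i2_Ann_closed (a b : ℝ) : IsClosed (Ann a b : Set (V n)) :=
  (isClosed_le continuous_const continuous_norm).inter
    (isClosed_le continuous_norm continuous_const)

private theorem i2_kδ_le {ϖ δ s : ℝ} (hs : 0 ≤ s) : kδ ϖ δ s ≤ s ^ (ϖ / 2 - 1) := by
  unfold kδ
  have h1 := chi_le_one (s / δ)
  have h2 : 0 ≤ s ^ (ϖ / 2 - 1) := Real.rpow_nonneg hs _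
  nlinarith

/-- pointwise lower bound for the divergence -/
private theorem Sol.i2_div (h : Sol E u) {ϖ δ : ℝ} (hδ : 0 < δ) (h2 : ϖ ≤ 2) {x : V n}
    (hx : x ∈ E) :
    (2 * ϖ - 2) * (kδ ϖ δ (NN u x) * TT u x) ≤
      ∑ i, pd i (fun y => kδ ϖ δ (NN u y) * pd i (NN u) y) x := by
  obtain ⟨hk, hk0, hkn, hkd⟩ := kδ_spec (ϖ := ϖ) hδ
  have hNd : DifferentiableAt ℝ (NN u) x := diffAt h.isOpen h.smooth_NN hx
  have e1 : ∀ i, pd i (fun y => kδ ϖ δ (NN u y) * pd i (NN u) y) x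
      = deriv (kδ ϖ δ) (NN u x) * (pd i (NN u) x) ^ 2
        + kδ ϖ δ (NN u x) * pd i (pd i (NN u)) x := by
    intro i
    have hd1 : DifferentiableAt ℝ (kδ ϖ δ) (NN u x) :=
      (hk.differentiable (by simp)).differentiableAt
    rw [pd_mul (f := fun y => kδ ϖ δ (NN u y)) (hd1.comp x hNd)
      (diffAt h.isOpen (contDiffOn_pd_top h.isOpen h.smooth_NN i) hx), pd_comp hd1 hNd]
    ring
  rw [Finset.sum_congr rfl fun i _ => e1 i, Finset.sum_add_distrib, ← Finset.mul_sum,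
    ← Finset.mul_sum, h.lap_NN hx]
  have hG := h.pd_NN_sq_le hx
  set G := ∑ k, (pd k (NN u) x) ^ 2 with hGdef
  have hG0 : 0 ≤ G := Finset.sum_nonneg fun _ _ => sq_nonneg _
  have hT0 := i2_TT_nonneg u x
  rcases (i2_NN_nonneg u x).eq_or_lt with hN | hN
  · rw [← hN] at hG ⊢
    have hG1 : G = 0 := le_antisymm (by simpa using hG) hG0
    rw [hk0 0 hδ.le, hG1]; simp
  · have hd := hkd _ hN
    have hr : NN u x ^ (ϖ / 2 - 2) * NN u x = NN u x ^ (ϖ / 2 - 1) := by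
      rw [← Real.rpow_add_one hN.ne']; congr 1; ring
    have hc0 := chi_nonneg (NN u x / δ)
    have hr0 : 0 ≤ NN u x ^ (ϖ / 2 - 2) := Real.rpow_nonneg hN.le _
    have hneg : (ϖ / 2 - 1) * chi (NN u x / δ) * NN u x ^ (ϖ / 2 - 2) ≤ 0 := by
      have : (ϖ / 2 - 1) ≤ 0 := by linarith
      have h3 : 0 ≤ chi (NN u x / δ) * NN u x ^ (ϖ / 2 - 2) := mul_nonneg hc0 hr0
      nlinarith
    have s1 : (ϖ / 2 - 1) * chi (NN u x / δ) * NN u x ^ (ϖ / 2 - 2) * G
        ≤ deriv (kδ ϖ δ) (NN u x) * G := mul_le_mul_of_nonneg_right hd hG0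
    have s2 : (ϖ / 2 - 1) * chi (NN u x / δ) * NN u x ^ (ϖ / 2 - 2) * (4 * NN u x * TT u x)
        ≤ (ϖ / 2 - 1) * chi (NN u x / δ) * NN u x ^ (ϖ / 2 - 2) * G :=
      mul_le_mul_of_nonpos_left hG hneg
    have s3 : (ϖ / 2 - 1) * chi (NN u x / δ) * NN u x ^ (ϖ / 2 - 2) * (4 * NN u x * TT u x)
        = (2 * ϖ - 4) * (kδ ϖ δ (NN u x) * TT u x) := by
      unfold kδ
      rw [← hr]; ring
    have s4 : (2 * ϖ - 2) * (kδ ϖ δ (NN u x) * TT u x)
        = (2 * ϖ - 4) * (kδ ϖ δ (NN u x) * TT u x) + kδ ϖ δ (NN u x) * (2 * TT u x) := by ring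
    rw [s4, ← s3]
    linarith

/-- `|Y|` bound -/
private theorem Sol.i2_Y (h : Sol E u) {ϖ δ C : ℝ} (hδ : 0 < δ) (h1 : 1 < ϖ) (hC : 1 ≤ C)
    {x : V n} (hx : x ∈ E) (hN : NN u x ≤ C) (i : Fin n) :
    |kδ ϖ δ (NN u x) * pd i (NN u) x| ≤ 2 * C ^ ((ϖ - 1) / 2) * (1 + TT u x) := by
  obtain ⟨hk, hk0, hkn, hkd⟩ := kδ_spec (ϖ := ϖ) hδ
  have hT0 := i2_TT_nonneg u x
  have hC0 : 0 ≤ C ^ ((ϖ - 1) / 2) := Real.rpow_nonneg (by linarith) _
  rcases (i2_NN_nonneg u x).eq_or_lt with hN0 | hN0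
  · rw [← hN0, hk0 0 hδ.le]; simp; positivity
  · have hp : |pd i (NN u) x| ≤ 2 * √(NN u x) * √(TT u x) := by
      rw [← Real.sqrt_sq_eq_abs]
      have e1 : 2 * √(NN u x) * √(TT u x) = √(4 * NN u x * TT u x) := by
        rw [Real.sqrt_mul (by positivity), Real.sqrt_mul (by norm_num)]
        have : √(4 : ℝ) = 2 := by
          rw [show (4 : ℝ) = 2 ^ 2 by norm_num]; exact Real.sqrt_sq (by norm_num)
        rw [this]
      rw [e1]
      apply Real.sqrt_le_sqrt
      refine le_trans ?_ (h.pd_NN_sq_le hx)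
      exact Finset.single_le_sum (f := fun k => (pd k (NN u) x) ^ 2) (fun _ _ => sq_nonneg _)
        (Finset.mem_univ i)
    rw [abs_mul, abs_of_nonneg (hkn _ hN0.le)]
    have e2 : NN u x ^ (ϖ / 2 - 1) * √(NN u x) = NN u x ^ ((ϖ - 1) / 2) := by
      rw [Real.sqrt_eq_rpow, ← Real.rpow_add hN0]; congr 1; ring
    calc kδ ϖ δ (NN u x) * |pd i (NN u) x|
        ≤ NN u x ^ (ϖ / 2 - 1) * (2 * √(NN u x) * √(TT u x)) :=
          mul_le_mul (i2_kδ_le hN0.le) hp (abs_nonneg _) (Real.rpow_nonneg hN0.le _)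
      _ = 2 * NN u x ^ ((ϖ - 1) / 2) * √(TT u x) := by rw [← e2]; ring
      _ ≤ 2 * C ^ ((ϖ - 1) / 2) * (1 + TT u x) := by
          have h3 : NN u x ^ ((ϖ - 1) / 2) ≤ C ^ ((ϖ - 1) / 2) :=
            Real.rpow_le_rpow hN0.le hN (by linarith)
          have h4 := i2_sqrt_le (TT u x) hT0
          have h5 : 0 ≤ NN u x ^ ((ϖ - 1) / 2) := Real.rpow_nonneg hN0.le _
          have h6 : 0 ≤ √(TT u x) := Real.sqrt_nonneg _
          calc 2 * NN u x ^ ((ϖ - 1) / 2) * √(TT u x)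
              ≤ 2 * C ^ ((ϖ - 1) / 2) * √(TT u x) := by nlinarith
            _ ≤ _ := by
              apply mul_le_mul_of_nonneg_left h4; positivity

/-- the bound for `b` -/
private theorem i2_b (u : V n → ℝ) {ϖ δ C : ℝ} (hδ : 0 < δ) (h1 : 1 < ϖ) (hC : 1 ≤ C)
    {x : V n} (hN : NN u x ≤ C) (hS : ∀ i j, |S u i j x| ≤ C) (hsg : |sg u x| ≤ C) :
    |sg u x * ∑ i, ∑ j, S u i j x * (2 * kδ ϖ δ (NN u x) * S u i j x)
      - ∑ i, ∑ j, (∑ k, S u i k x * S u k j x) * (2 * kδ ϖ δ (NN u x) * S u i j x)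
      + (2 * kδ ϖ δ (NN u x) * sg u x) * NN u x| ≤ (4 * C + 2 * C * n) * C ^ (ϖ / 2) := by
  obtain ⟨hk, hk0, hkn, hkd⟩ := kδ_spec (ϖ := ϖ) hδ
  have hN0 := i2_NN_nonneg u x
  set k := kδ ϖ δ (NN u x) with hkdef
  have hk1 : 0 ≤ k := hkn _ hN0
  have e1 : ∑ i, ∑ j, S u i j x * (2 * k * S u i j x) = 2 * k * NN u x := by
    unfold NN
    simp_rw [Finset.mul_sum]
    refine Finset.sum_congr rfl fun i _ => Finset.sum_congr rfl fun j _ => by ring
  have hkN : k * NN u x ≤ C ^ (ϖ / 2) := by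
    rcases hN0.eq_or_lt with h0 | h0
    · rw [← h0]; simp; exact Real.rpow_nonneg (by linarith) _
    · have e2 : NN u x ^ (ϖ / 2 - 1) * NN u x = NN u x ^ (ϖ / 2) := by
        rw [← Real.rpow_add_one h0.ne']; congr 1; ring
      calc k * NN u x ≤ NN u x ^ (ϖ / 2 - 1) * NN u x :=
            mul_le_mul_of_nonneg_right (i2_kδ_le h0.le) h0.le
        _ = NN u x ^ (ϖ / 2) := e2
        _ ≤ C ^ (ϖ / 2) := Real.rpow_le_rpow h0.le hN (by linarith)
  have e3 : |∑ i, ∑ j, (∑ k', S u i k' x * S u k' j x) * (2 * k * S u i j x)|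
      ≤ 2 * k * C * (n * NN u x) := by
    calc |∑ i, ∑ j, (∑ k', S u i k' x * S u k' j x) * (2 * k * S u i j x)|
        ≤ ∑ i, ∑ j, |(∑ k', S u i k' x * S u k' j x) * (2 * k * S u i j x)| := by
          refine (Finset.abs_sum_le_sum_abs _ _).trans ?_
          exact Finset.sum_le_sum fun i _ => Finset.abs_sum_le_sum_abs _ _
      _ ≤ ∑ i, ∑ j, ∑ k', (2 * k * C) * (((S u i k' x) ^ 2 + (S u k' j x) ^ 2) / 2) := by
          refine Finset.sum_le_sum fun i _ => Finset.sum_le_sum fun j _ => ?_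
          rw [abs_mul, ← Finset.mul_sum, mul_comm]
          have h5 : |2 * k * S u i j x| ≤ 2 * k * C := by
            rw [abs_mul, abs_of_nonneg (by positivity)]
            exact mul_le_mul_of_nonneg_left (hS i j) (by positivity)
          have h6 : |∑ k', S u i k' x * S u k' j x|
              ≤ ∑ k', (((S u i k' x) ^ 2 + (S u k' j x) ^ 2) / 2) := by
            refine (Finset.abs_sum_le_sum_abs _ _).trans ?_
            refine Finset.sum_le_sum fun k' _ => ?_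
            rw [abs_le]
            constructor <;>
              nlinarith [sq_nonneg (S u i k' x + S u k' j x), sq_nonneg (S u i k' x - S u k' j x)]
          exact mul_le_mul h5 h6 (abs_nonneg _) (by positivity)
      _ = 2 * k * C * (n * NN u x) := by
          simp_rw [← Finset.mul_sum]
          congr 1
          have h7 : ∀ i : Fin n, ∀ j : Fin n, ∑ k', (((S u i k' x) ^ 2 + (S u k' j x) ^ 2) / 2)
              = (∑ k', (S u i k' x) ^ 2) / 2 + (∑ k', (S u k' j x) ^ 2) / 2 := by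
            intro i j
            rw [← Finset.sum_div, Finset.sum_add_distrib, add_div]
          simp_rw [h7, Finset.sum_add_distrib]
          have h8 : ∑ i : Fin n, ∑ _j : Fin n, (∑ k', (S u i k' x) ^ 2) / 2
              = n * NN u x / 2 := by
            simp only [Finset.sum_const, Finset.card_univ, Fintype.card_fin, nsmul_eq_mul]
            unfold NN
            rw [← Finset.mul_sum, ← Finset.sum_div]; ring
          have h9 : ∑ _i : Fin n, ∑ j : Fin n, (∑ k', (S u k' j x) ^ 2) / 2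
              = n * NN u x / 2 := by
            simp only [Finset.sum_const, Finset.card_univ, Fintype.card_fin, nsmul_eq_mul]
            unfold NN
            rw [← Finset.sum_div, Finset.sum_comm]; ring
          rw [h8, h9]; ring
  rw [e1]
  have a1 : |sg u x * (2 * k * NN u x)| ≤ 2 * C * (k * NN u x) := by
    rw [abs_mul, abs_of_nonneg (show 0 ≤ 2 * k * NN u x by positivity)]
    have : 0 ≤ k * NN u x := by positivity
    nlinarith
  have a2' : |2 * k * sg u x * NN u x| ≤ 2 * C * (k * NN u x) := by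
    have e5 : 2 * k * sg u x * NN u x = sg u x * (2 * k * NN u x) := by ring
    rw [e5]; exact a1
  have hfin : |sg u x * (2 * k * NN u x)
      - ∑ i, ∑ j, (∑ k', S u i k' x * S u k' j x) * (2 * k * S u i j x)
      + 2 * k * sg u x * NN u x| ≤ (4 * C + 2 * C * n) * (k * NN u x) := by
    refine (abs_add_le _ _).trans ?_
    have := abs_sub (sg u x * (2 * k * NN u x))
      (∑ i, ∑ j, (∑ k', S u i k' x * S u k' j x) * (2 * k * S u i j x))
    nlinarith
  refine hfin.trans ?_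
  exact mul_le_mul_of_nonneg_left hkN (by positivity)


/-- hypotheses of the flux lemma for `P = 2 kδ(NN) S`, `z = 2 kδ(NN) σ` -/
private theorem Sol.i2_hb (h : Sol E u) {ϖ δ : ℝ} (hδ : 0 < δ) (a b : ℝ) (ha : 0 < a) :
    ∃ C, 0 < C ∧ ∀ x ∈ E, x ∈ Ann a b →
      (∀ i j, |2 * kδ ϖ δ (NN u x) * S u i j x| ≤ C) ∧ |2 * kδ ϖ δ (NN u x) * sg u x| ≤ C ∧
      (∀ k i j, |pd k (fun y => 2 * kδ ϖ δ (NN u y) * S u i j y) x| ≤ C * (1 + √(TT u x))) ∧
      (∀ k, |pd k (fun y => 2 * kδ ϖ δ (NN u y) * sg u y) x| ≤ C * (1 + √(TT u x))) ∧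
      (∀ i, |∑ j, 2 * kδ ϖ δ (NN u x) * S u i j x * q u j x
        - 2 * kδ ϖ δ (NN u x) * sg u x * q u i x| ≤ C * (√(a2 u x) + u x)) := by
  obtain ⟨hk, hk0, hkn, hkd⟩ := kδ_spec (ϖ := ϖ) hδ
  obtain ⟨C, c, hC1, hc, hB⟩ := h.bounds (a := a) (b := b) ha
  obtain ⟨D, hD1, hD⟩ := h.pd_bounds (a := a) (b := b) ha
  obtain ⟨K0, hK0⟩ : ∃ K0, ∀ s ∈ Icc (0 : ℝ) C, |kδ ϖ δ s| ≤ K0 := by
    obtain ⟨M, hM⟩ := (isCompact_Icc (a := (0 : ℝ)) (b := C)).exists_bound_of_continuousOn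
      hk.continuous.continuousOn
    exact ⟨M, fun s hs => hM s hs⟩
  obtain ⟨K1, hK1⟩ : ∃ K1, ∀ s ∈ Icc (0 : ℝ) C, |deriv (kδ ϖ δ) s| ≤ K1 := by
    obtain ⟨M, hM⟩ := (isCompact_Icc (a := (0 : ℝ)) (b := C)).exists_bound_of_continuousOn
      (hk.continuous_deriv (by simp)).continuousOn
    exact ⟨M, fun s hs => hM s hs⟩
  have hK0n : 0 ≤ K0 := (abs_nonneg _).trans (hK0 0 ⟨le_rfl, by linarith⟩)
  have hK1n : 0 ≤ K1 := (abs_nonneg _).trans (hK1 0 ⟨le_rfl, by linarith⟩)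
  have hmain : ∀ x ∈ E, x ∈ Ann a b → ∀ (f : V n → ℝ) (M : ℝ), 0 ≤ M →
      DifferentiableAt ℝ f x → |f x| ≤ C → ∀ k : Fin n, |pd k f x| ≤ M * (1 + √(TT u x)) →
      |pd k (fun y => 2 * kδ ϖ δ (NN u y) * f y) x|
        ≤ (2 * K1 * D * C + 2 * K0 * M) * (1 + √(TT u x)) := by
    intro x hx hxA f M hM hf hfC k hfk
    have hN : NN u x ∈ Icc (0 : ℝ) C := ⟨i2_NN_nonneg u x, (hB x hx hxA).2.2.2.2.2.2.2.1⟩
    have hNd : DifferentiableAt ℝ (NN u) x := diffAt h.isOpen h.smooth_NN hx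
    have hd1 : DifferentiableAt ℝ (kδ ϖ δ) (NN u x) :=
      (hk.differentiable (by simp)).differentiableAt
    have hd2 : DifferentiableAt ℝ (fun y => kδ ϖ δ (NN u y)) x := hd1.comp x hNd
    have e1 : pd k (fun y => 2 * kδ ϖ δ (NN u y) * f y) x
        = 2 * (deriv (kδ ϖ δ) (NN u x) * pd k (NN u) x * f x) + 2 * (kδ ϖ δ (NN u x) * pd k f x) := by
      have e2 : (fun y => 2 * kδ ϖ δ (NN u y) * f y) = fun y => 2 * (kδ ϖ δ (NN u y) * f y) := by
        funext y; ring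
      rw [e2, pd_const_mul, pd_mul hd2 hf, pd_comp hd1 hNd]
      ring
    have hs0 := Real.sqrt_nonneg (TT u x)
    have b1 : |deriv (kδ ϖ δ) (NN u x) * pd k (NN u) x * f x|
        ≤ K1 * (D * (1 + √(TT u x))) * C := by
      rw [abs_mul, abs_mul]
      have h3 := (hD x hx hxA).2.2.2 k
      have h4 : |pd k (NN u) x| ≤ D * (1 + √(TT u x)) := by
        refine h3.trans ?_
        apply mul_le_mul_of_nonneg_left _ (by linarith); linarith
      exact mul_le_mul (mul_le_mul (hK1 _ hN) h4 (abs_nonneg _) hK1n) hfC (abs_nonneg _)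
        (by positivity)
    have b2 : |kδ ϖ δ (NN u x) * pd k f x| ≤ K0 * (M * (1 + √(TT u x))) := by
      rw [abs_mul]
      exact mul_le_mul (hK0 _ hN) hfk (abs_nonneg _) hK0n
    rw [e1]
    refine (abs_add_le _ _).trans ?_
    rw [abs_mul (2 : ℝ) (deriv (kδ ϖ δ) (NN u x) * pd k (NN u) x * f x),
      abs_mul (2 : ℝ) (kδ ϖ δ (NN u x) * pd k f x), abs_of_pos (show (0 : ℝ) < 2 by norm_num)]
    nlinarith
  refine ⟨2 * K0 * C + (2 * K1 * D * C + 2 * K0 * D) + (2 * K1 * D * C + 2 * K0 * 1) + 2 * K0 + 1,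
    by positivity, fun x hx hxA => ?_⟩
  have hBx := hB x hx hxA
  have hN : NN u x ∈ Icc (0 : ℝ) C := ⟨i2_NN_nonneg u x, hBx.2.2.2.2.2.2.2.1⟩
  have hs0 := Real.sqrt_nonneg (TT u x)
  have p1 : 0 ≤ 2 * K0 * C := by positivity
  have p2 : 0 ≤ 2 * K1 * D * C := by positivity
  have p3 : 0 ≤ 2 * K0 * D := by positivity
  refine ⟨fun i j => ?_, ?_, fun k i j => ?_, fun k => ?_, fun i => ?_⟩
  · rw [abs_mul, abs_mul, abs_of_pos (show (0 : ℝ) < 2 by norm_num)]
    have : |kδ ϖ δ (NN u x)| * |S u i j x| ≤ K0 * C :=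
      mul_le_mul (hK0 _ hN) (hBx.2.1 i j) (abs_nonneg _) hK0n
    nlinarith
  · rw [abs_mul, abs_mul, abs_of_pos (show (0 : ℝ) < 2 by norm_num)]
    have : |kδ ϖ δ (NN u x)| * |sg u x| ≤ K0 * C :=
      mul_le_mul (hK0 _ hN) hBx.2.2.2.1 (abs_nonneg _) hK0n
    nlinarith
  · have := hmain x hx hxA (S u i j) 1 zero_le_one (h.diff_S i j hx) (hBx.2.1 i j) k (by
      rw [pd_S, one_mul]
      exact (i2_abs_T_le u k i j x).trans (by linarith))
    refine this.trans ?_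
    apply mul_le_mul_of_nonneg_right _ (by linarith)
    linarith
  · have := hmain x hx hxA (sg u) D (by linarith) (diffAt h.isOpen h.smooth_sg hx) hBx.2.2.2.1 k
      ((hD x hx hxA).2.1 k)
    refine this.trans ?_
    apply mul_le_mul_of_nonneg_right _ (by linarith)
    linarith
  · have e1 : ∑ j, 2 * kδ ϖ δ (NN u x) * S u i j x * q u j x
        - 2 * kδ ϖ δ (NN u x) * sg u x * q u i x = 2 * (kδ ϖ δ (NN u x) * aa u i x) := by
      unfold aa w
      have : ∑ j, 2 * kδ ϖ δ (NN u x) * S u i j x * q u j x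
          = 2 * kδ ϖ δ (NN u x) * ∑ j, S u i j x * q u j x := by
        rw [Finset.mul_sum]; exact Finset.sum_congr rfl fun j _ => by ring
      rw [this]; ring
    rw [e1, abs_mul, abs_mul, abs_of_pos (show (0 : ℝ) < 2 by norm_num)]
    have h5 : |kδ ϖ δ (NN u x)| * |aa u i x| ≤ K0 * √(a2 u x) :=
      mul_le_mul (hK0 _ hN) (i2_abs_a_le u i x) (abs_nonneg _) hK0n
    have h6 := Real.sqrt_nonneg (a2 u x)
    have h7 := h.nonneg x
    have h8 : 2 * (K0 * √(a2 u x)) ≤ 2 * K0 * (√(a2 u x) + u x) := by nlinarith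
    refine (mul_le_mul_of_nonneg_left h5 (by norm_num)).trans (h8.trans ?_)
    apply mul_le_mul_of_nonneg_right _ (by linarith)
    linarith

/-- the flux term is bounded by a constant independent of `δ` -/
private theorem Sol.i2_flux (h : Sol E u) {ϖ : ℝ} (h1 : 1 < ϖ) {η : V n → ℝ} (hη : Tst η)
    (hη0 : ∀ x, 0 ≤ η x) (hη1 : ∀ x, η x ≤ 1) {a b : ℝ} (ha : 0 < a) (hs : tsupport η ⊆ Ann a b) :
    ∃ C2, 0 < C2 ∧ ∀ δ, 0 < δ → ∀ᶠ ε in 𝓝[>] (0 : ℝ),
      |ε⁻¹ * ∫ x in E, deriv chi (u x / ε) * η x *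
        ∑ i, q u i x * (kδ ϖ δ (NN u x) * pd i (NN u) x)| ≤ C2 := by
  obtain ⟨C, c, hC1, hc, hB⟩ := h.bounds (a := a) (b := b) ha
  obtain ⟨CL, hCL0, hCL⟩ := h.layer_int (a := a) (b := b) ha
  obtain ⟨Cχ, hCχ1, hCχ⟩ := deriv_chi_bdd
  set B : ℝ := (4 * C + 2 * C * n) * C ^ (ϖ / 2) with hBdef
  have hB0 : 0 ≤ B := by
    have : 0 ≤ C ^ (ϖ / 2) := Real.rpow_nonneg (by linarith) _
    positivity
  refine ⟨CL * (Cχ * B) + 1, by positivity, fun δ hδ => ?_⟩
  obtain ⟨hk, hk0, hkn, hkd⟩ := kδ_spec (ϖ := ϖ) hδ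
  have hkN : ContDiffOn ℝ (⊤ : ℕ∞) (fun y => kδ ϖ δ (NN u y)) E :=
    hk.comp_contDiffOn h.smooth_NN
  have hP : ∀ i j, ContDiffOn ℝ (⊤ : ℕ∞) (fun y => 2 * kδ ϖ δ (NN u y) * S u i j y) E := fun i j =>
    (contDiffOn_const.mul hkN).mul (h.smooth_S i j)
  have hz : ContDiffOn ℝ (⊤ : ℕ∞) (fun y => 2 * kδ ϖ δ (NN u y) * sg u y) E :=
    (contDiffOn_const.mul hkN).mul h.smooth_sg
  have hfl := h.flux_lemma hη deriv_chi_smooth (fun s hs => deriv_chi_eq_zero hs)
    (P := fun i j y => 2 * kδ ϖ δ (NN u y) * S u i j y)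
    (z := fun y => 2 * kδ ϖ δ (NN u y) * sg u y)
    (fun i j => (hP i j).of_le one_le_top') (hz.of_le one_le_top')
    (fun i j x hx => by rw [h.S_symm i j hx]) (fun a b ha => h.i2_hb hδ a b ha)
  have hev := (Metric.tendsto_nhds.1 hfl) 1 one_pos
  filter_upwards [hev, self_mem_nhdsWithin] with ε hε hε0
  have hεp : 0 < ε := hε0
  rw [Real.dist_eq, sub_zero] at hε
  -- names
  set X : V n → ℝ := fun x => ∑ k, ∑ i, ∑ j, T u k i j x * q u k x *
    (2 * kδ ϖ δ (NN u x) * S u i j x) with hX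
  set bb : V n → ℝ := fun x => sg u x * ∑ i, ∑ j, S u i j x * (2 * kδ ϖ δ (NN u x) * S u i j x)
      - ∑ i, ∑ j, (∑ k, S u i k x * S u k j x) * (2 * kδ ϖ δ (NN u x) * S u i j x)
      + (2 * kδ ϖ δ (NN u x) * sg u x) * NN u x with hbb
  have hXY : ∀ x ∈ E, ∑ i, q u i x * (kδ ϖ δ (NN u x) * pd i (NN u) x) = X x := by
    intro x hx
    simp only [hX]
    refine Finset.sum_congr rfl fun k _ => ?_
    rw [h.pd_NN k hx, Finset.mul_sum, Finset.mul_sum, Finset.mul_sum]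
    refine Finset.sum_congr rfl fun i _ => ?_
    rw [Finset.mul_sum, Finset.mul_sum, Finset.mul_sum]
    exact Finset.sum_congr rfl fun j _ => by ring
  obtain ⟨hct, hcs⟩ := h.kcut_tst deriv_chi_smooth (fun s hs => by
    rcases hs.eq_or_lt with h5 | h5
    · subst h5
      have hc1 : Continuous (deriv chi) := deriv_chi_smooth.continuous
      have : IsClosed {s : ℝ | deriv chi s = 0} := isClosed_eq hc1 continuous_const
      have hcl : (1 : ℝ) ∈ closure (Iio (1 : ℝ)) := by rw [closure_Iio]; exact self_mem_Iic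
      exact this.closure_subset_iff.2 (fun s hs => deriv_chi_eq_zero
        (fun h6 => absurd h6.1 (not_le.2 hs))) hcl
    · exact deriv_chi_eq_zero (fun h6 => absurd h6.1 (not_le.2 h5))) hη hεp
  have hXc : ContinuousOn X E := by
    simp only [hX]
    refine continuousOn_finsetSum _ fun k _ => continuousOn_finsetSum _ fun i _ =>
      continuousOn_finsetSum _ fun j _ => ?_
    exact ((h.smooth_T k i j).continuousOn.mul (h.smooth_q k).continuousOn).mul
      (hP i j).continuousOn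
  have hbc : ContinuousOn bb E := by
    simp only [hbb]
    refine ((h.smooth_sg.continuousOn.mul ?_).sub ?_).add (hz.continuousOn.mul
      h.smooth_NN.continuousOn)
    · exact continuousOn_finsetSum _ fun i _ => continuousOn_finsetSum _ fun j _ =>
        (h.smooth_S i j).continuousOn.mul (hP i j).continuousOn
    · refine continuousOn_finsetSum _ fun i _ => continuousOn_finsetSum _ fun j _ =>
        ContinuousOn.mul ?_ (hP i j).continuousOn
      exact continuousOn_finsetSum _ fun k _ =>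
        (h.smooth_S i k).continuousOn.mul (h.smooth_S k j).continuousOn
  have iX : IntegrableOn (fun x => deriv chi (u x / ε) * η x * X x) E :=
    (integrable_mul_of_tsupport h.isOpen hct.smooth.continuous hct.cpt hcs hXc).integrableOn
  have ib : IntegrableOn (fun x => deriv chi (u x / ε) * η x * bb x) E :=
    (integrable_mul_of_tsupport h.isOpen hct.smooth.continuous hct.cpt hcs hbc).integrableOn
  have e1 : ∫ x in E, deriv chi (u x / ε) * η x *
        ∑ i, q u i x * (kδ ϖ δ (NN u x) * pd i (NN u) x)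
      = ∫ x in E, deriv chi (u x / ε) * η x * X x :=
    setIntegral_congr_fun h.isOpen.measurableSet fun x hx => by
      rw [hXY x hx]
  have e2 : ∫ x in E, deriv chi (u x / ε) * η x * (X x - bb x)
      = (∫ x in E, deriv chi (u x / ε) * η x * X x)
        - ∫ x in E, deriv chi (u x / ε) * η x * bb x := by
    rw [← integral_sub iX ib]
    refine integral_congr_ae (Eventually.of_forall fun x => ?_)
    simp only [mul_sub]
  have e3 : |ε⁻¹ * ∫ x in E, deriv chi (u x / ε) * η x * bb x| ≤ CL * (Cχ * B) := by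
    refine hCL _ ε (Cχ * B) hεp (by positivity) (fun x hx hxA _ => ?_) (fun x hx hcase => ?_)
    · rw [abs_mul, abs_mul]
      have hBx := hB x hx hxA
      have h5 : |bb x| ≤ B := i2_b u hδ h1 hC1 hBx.2.2.2.2.2.2.2.1 hBx.2.1 hBx.2.2.2.1
      have h6 : |η x| ≤ 1 := by rw [abs_of_nonneg (hη0 x)]; exact hη1 x
      calc |deriv chi (u x / ε)| * |η x| * |bb x| ≤ Cχ * 1 * B :=
            mul_le_mul (mul_le_mul (hCχ _) h6 (abs_nonneg _) (by linarith)) h5 (abs_nonneg _)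
              (by linarith)
        _ = Cχ * B := by ring
    · rcases hcase with h5 | h5
      · have : η x = 0 := image_eq_zero_of_notMem_tsupport fun h6 => h5 (hs h6)
        rw [this]; ring
      · have : deriv chi (u x / ε) = 0 := deriv_chi_eq_zero fun h6 => by
          have := h6.2
          rw [div_le_iff₀ hεp] at this
          linarith
        rw [this]; ring
  have e4 : |ε⁻¹ * ∫ x in E, deriv chi (u x / ε) * η x * (X x - bb x)| < 1 := hε
  rw [e1]
  rw [e2, mul_sub] at e4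
  have h7 := abs_sub_abs_le_abs_sub (ε⁻¹ * ∫ x in E, deriv chi (u x / ε) * η x * X x)
    (ε⁻¹ * ∫ x in E, deriv chi (u x / ε) * η x * bb x)
  linarith

/-- uniform bound on `∫ η kδ(NN) TT` -/
private theorem Sol.i2_bound (h : Sol E u) {ϖ : ℝ} (h1 : 1 < ϖ) (h2 : ϖ ≤ 2) {η : V n → ℝ}
    (hη : Tst η) (hη0 : ∀ x, 0 ≤ η x) (hη1 : ∀ x, η x ≤ 1) {a b : ℝ} (ha : 0 < a)
    (hs : tsupport η ⊆ Ann a b) :
    ∃ C, 0 < C ∧ ∀ δ, 0 < δ → IntegrableOn (fun x => η x * (kδ ϖ δ (NN u x) * TT u x)) E ∧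
      ∫ x in E, η x * (kδ ϖ δ (NN u x) * TT u x) ≤ C := by
  obtain ⟨C, c, hC1, hc, hB⟩ := h.bounds (a := a) (b := b) ha
  obtain ⟨C2, hC20, hC2⟩ := h.i2_flux h1 hη hη0 hη1 ha hs
  have hTT := h.int_TT (a := a) (b := b) ha
  have hA : MeasurableSet (Ann a b : Set (V n)) := (i2_Ann_closed a b).measurableSet
  have hE := h.isOpen.measurableSet
  have hEA : MeasurableSet (E ∩ Ann a b) := hE.inter hA
  have hvol : volume (E ∩ Ann a b) ≠ ⊤ := by
    refine ((measure_mono inter_subset_right).trans_lt ?_).ne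
    refine (measure_mono (t := Metric.closedBall (0 : V n) b) fun x hx => ?_).trans_lt
      measure_closedBall_lt_top
    simpa using hx.2
  have h1TT : IntegrableOn (fun x => 1 + TT u x) (E ∩ Ann a b) :=
    (integrableOn_const hvol).add hTT
  obtain ⟨Mη, hMη⟩ : ∃ M, ∀ x, ‖fderiv ℝ η x‖ ≤ M :=
    (hη.smooth.continuous_fderiv (by simp)).bounded_above_of_compact_support (hη.cpt.fderiv (𝕜 := ℝ))
  have hMη0 : 0 ≤ Mη := (norm_nonneg _).trans (hMη 0)
  have hpd : ∀ i x, |pd i η x| ≤ Mη := by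
    intro i x
    have : ‖fderiv ℝ η x (e i)‖ ≤ ‖fderiv ℝ η x‖ * ‖(e i : V n)‖ := (fderiv ℝ η x).le_opNorm _
    have he : ‖(e i : V n)‖ = 1 := by simp [e]
    rw [he, mul_one] at this
    exact this.trans (hMη x)
  have hpd0 : ∀ i x, x ∉ Ann a b → pd i η x = 0 := by
    intro i x hx
    have : x ∉ tsupport η := fun h5 => hx (hs h5)
    unfold pd
    rw [fderiv_of_notMem_tsupport (𝕜 := ℝ) this]; rfl
  have hη00 : ∀ x, x ∉ Ann a b → η x = 0 := fun x hx =>
    image_eq_zero_of_notMem_tsupport fun h6 => hx (hs h6)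
  set CY : ℝ := 2 * C ^ ((ϖ - 1) / 2) with hCY
  have hCY0 : 0 ≤ CY := by
    have : 0 ≤ C ^ ((ϖ - 1) / 2) := Real.rpow_nonneg (by linarith) _
    positivity
  set C1 : ℝ := ∫ x in E ∩ Ann a b, n * (Mη * CY) * (1 + TT u x) with hC1def
  have hC10 : 0 ≤ C1 := by
    refine integral_nonneg fun x => ?_
    have := i2_TT_nonneg u x
    positivity
  have hϖ : 0 < 2 * ϖ - 2 := by linarith
  refine ⟨(C1 + C2) / (2 * ϖ - 2), by positivity, fun δ hδ => ?_⟩
  obtain ⟨hk, hk0, hkn, hkd⟩ := kδ_spec (ϖ := ϖ) hδ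
  have hkN : ContDiffOn ℝ (⊤ : ℕ∞) (fun y => kδ ϖ δ (NN u y)) E :=
    hk.comp_contDiffOn h.smooth_NN
  have hY : ∀ i, ContDiffOn ℝ (⊤ : ℕ∞) (fun y => kδ ϖ δ (NN u y) * pd i (NN u) y) E := fun i =>
    hkN.mul (contDiffOn_pd_top h.isOpen h.smooth_NN i)
  have hkTc : ContinuousOn (fun x => kδ ϖ δ (NN u x) * TT u x) E :=
    hkN.continuousOn.mul h.smooth_TT.continuousOn
  have hkT0 : ∀ x, 0 ≤ kδ ϖ δ (NN u x) * TT u x := fun x =>
    mul_nonneg (hkn _ (i2_NN_nonneg u x)) (i2_TT_nonneg u x)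
  obtain ⟨K0, hK0⟩ : ∃ K0, ∀ s ∈ Icc (0 : ℝ) C, |kδ ϖ δ s| ≤ K0 := by
    obtain ⟨M, hM⟩ := (isCompact_Icc (a := (0 : ℝ)) (b := C)).exists_bound_of_continuousOn
      hk.continuous.continuousOn
    exact ⟨M, fun s hs => hM s hs⟩
  have hint : IntegrableOn (fun x => η x * (kδ ϖ δ (NN u x) * TT u x)) E := by
    have h5 : IntegrableOn (fun x => η x * (kδ ϖ δ (NN u x) * TT u x)) (E ∩ Ann a b) := by
      refine Integrable.mono' (hTT.const_mul K0)
        (((hη.smooth.continuous.continuousOn.mul hkTc).mono inter_subset_left).aestronglyMeasurable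
          hEA) ?_
      refine ae_restrict_of_forall_mem hEA fun x hx => ?_
      have hN : NN u x ∈ Icc (0 : ℝ) C :=
        ⟨i2_NN_nonneg u x, (hB x hx.1 hx.2).2.2.2.2.2.2.2.1⟩
      have h6 := hK0 _ hN
      have h7 := i2_TT_nonneg u x
      rw [Real.norm_eq_abs, abs_mul, abs_mul, abs_of_nonneg (hη0 x), abs_of_nonneg h7]
      have h8 : 0 ≤ |kδ ϖ δ (NN u x)| * TT u x := by positivity
      calc η x * (|kδ ϖ δ (NN u x)| * TT u x) ≤ 1 * (|kδ ϖ δ (NN u x)| * TT u x) :=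
            mul_le_mul_of_nonneg_right (hη1 x) h8
        _ ≤ K0 * TT u x := by rw [one_mul]; exact mul_le_mul_of_nonneg_right h6 h7
    refine h5.of_forall_sdiff_eq_zero hE fun x hx => ?_
    have : x ∉ Ann a b := fun h6 => hx.2 ⟨hx.1, h6⟩
    rw [hη00 x this, zero_mul]
  refine ⟨hint, ?_⟩
  -- the estimate for fixed ε
  have hest : ∀ᶠ ε in 𝓝[>] (0 : ℝ),
      ∫ x in E, chi (u x / ε) * η x * (kδ ϖ δ (NN u x) * TT u x) ≤ (C1 + C2) / (2 * ϖ - 2) := by
    filter_upwards [hC2 δ hδ, self_mem_nhdsWithin] with ε hε hε0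
    have hεp : 0 < ε := hε0
    obtain ⟨hct, hcs⟩ := h.kcut_tst chi_smooth (fun s hs => chi_eq_zero hs) hη hεp
    have hib := h.ibp_kcut chi_smooth (fun s hs => chi_eq_zero hs) hη hεp
      (Y := fun i y => kδ ϖ δ (NN u y) * pd i (NN u) y) (fun i => (hY i).of_le one_le_top')
    have i1 : IntegrableOn (fun x => chi (u x / ε) * η x * (kδ ϖ δ (NN u x) * TT u x)) E :=
      (integrable_mul_of_tsupport h.isOpen hct.smooth.continuous hct.cpt hcs hkTc).integrableOn
    have hdc : ContinuousOn (fun x => ∑ i, pd i (fun y => kδ ϖ δ (NN u y) * pd i (NN u) y) x) E :=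
      continuousOn_finsetSum _ fun i _ =>
        (contDiffOn_pd_top h.isOpen (hY i) i).continuousOn
    have i2 : IntegrableOn (fun x => chi (u x / ε) * η x *
        ∑ i, pd i (fun y => kδ ϖ δ (NN u y) * pd i (NN u) y) x) E :=
      (integrable_mul_of_tsupport h.isOpen hct.smooth.continuous hct.cpt hcs hdc).integrableOn
    have s1 : (2 * ϖ - 2) * ∫ x in E, chi (u x / ε) * η x * (kδ ϖ δ (NN u x) * TT u x)
        ≤ ∫ x in E, chi (u x / ε) * η x *
          ∑ i, pd i (fun y => kδ ϖ δ (NN u y) * pd i (NN u) y) x := by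
      rw [← integral_const_mul]
      refine setIntegral_mono_on (i1.const_mul _) i2 hE fun x hx => ?_
      have h5 := h.i2_div hδ h2 hx
      have h6 : 0 ≤ chi (u x / ε) * η x := mul_nonneg (chi_nonneg _) (hη0 x)
      calc (2 * ϖ - 2) * (chi (u x / ε) * η x * (kδ ϖ δ (NN u x) * TT u x))
          = chi (u x / ε) * η x * ((2 * ϖ - 2) * (kδ ϖ δ (NN u x) * TT u x)) := by ring
        _ ≤ _ := mul_le_mul_of_nonneg_left h5 h6
    have s2 : |∫ x in E, chi (u x / ε) * ∑ i, pd i η x * (kδ ϖ δ (NN u x) * pd i (NN u) x)| ≤ C1 := by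
      have e1 : ∫ x in E, chi (u x / ε) * ∑ i, pd i η x * (kδ ϖ δ (NN u x) * pd i (NN u) x)
          = ∫ x in E ∩ Ann a b,
            chi (u x / ε) * ∑ i, pd i η x * (kδ ϖ δ (NN u x) * pd i (NN u) x) :=
        setIntegral_eq_of_subset_of_forall_sdiff_eq_zero hE inter_subset_left fun x hx => by
          have : x ∉ Ann a b := fun h6 => hx.2 ⟨hx.1, h6⟩
          simp [hpd0 _ x this]
      rw [e1, ← Real.norm_eq_abs]
      refine norm_integral_le_of_norm_le (h1TT.const_mul _) ?_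
      refine ae_restrict_of_forall_mem hEA fun x hx => ?_
      rw [Real.norm_eq_abs, abs_mul, abs_of_nonneg (chi_nonneg _)]
      have hT := i2_TT_nonneg u x
      have h6 : |∑ i, pd i η x * (kδ ϖ δ (NN u x) * pd i (NN u) x)|
          ≤ n * (Mη * CY) * (1 + TT u x) := by
        refine (Finset.abs_sum_le_sum_abs _ _).trans ?_
        calc ∑ i, |pd i η x * (kδ ϖ δ (NN u x) * pd i (NN u) x)|
            ≤ ∑ _i : Fin n, Mη * (CY * (1 + TT u x)) := by
              refine Finset.sum_le_sum fun i _ => ?_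
              rw [abs_mul]
              exact mul_le_mul (hpd i x)
                (h.i2_Y hδ h1 hC1 hx.1 (hB x hx.1 hx.2).2.2.2.2.2.2.2.1 i) (abs_nonneg _) hMη0
          _ = n * (Mη * CY) * (1 + TT u x) := by
              simp only [Finset.sum_const, Finset.card_univ, Fintype.card_fin, nsmul_eq_mul]
              ring
      calc chi (u x / ε) * |∑ i, pd i η x * (kδ ϖ δ (NN u x) * pd i (NN u) x)|
          ≤ 1 * |∑ i, pd i η x * (kδ ϖ δ (NN u x) * pd i (NN u) x)| :=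
            mul_le_mul_of_nonneg_right (chi_le_one _) (abs_nonneg _)
        _ ≤ _ := by rw [one_mul]; exact h6
    rw [le_div_iff₀ hϖ, mul_comm]
    refine s1.trans ?_
    rw [hib]
    have h7 := neg_abs_le (∫ x in E, chi (u x / ε) *
      ∑ i, pd i η x * (kδ ϖ δ (NN u x) * pd i (NN u) x))
    have h8 := neg_abs_le (ε⁻¹ * ∫ x in E, deriv chi (u x / ε) * η x *
        ∑ i, q u i x * (kδ ϖ δ (NN u x) * pd i (NN u) x))
    linarith
  have hlim : Tendsto (fun ε : ℝ => ∫ x in E, chi (u x / ε) * η x * (kδ ϖ δ (NN u x) * TT u x))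
      (𝓝[>] 0) (𝓝 (∫ x in E, η x * (kδ ϖ δ (NN u x) * TT u x))) := by
    refine tendsto_integral_filter_of_dominated_convergence
      (fun x => η x * (kδ ϖ δ (NN u x) * TT u x)) ?_ ?_ hint ?_
    · filter_upwards [self_mem_nhdsWithin] with ε hε0
      have hεp : 0 < ε := hε0
      obtain ⟨hct, hcs⟩ := h.kcut_tst chi_smooth (fun s hs => chi_eq_zero hs) hη hεp
      exact (hct.smooth.continuous.continuousOn.mul hkTc).aestronglyMeasurable hE
    · refine Eventually.of_forall fun ε => Eventually.of_forall fun x => ?_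
      have h5 : 0 ≤ η x * (kδ ϖ δ (NN u x) * TT u x) := mul_nonneg (hη0 x) (hkT0 x)
      rw [Real.norm_eq_abs, mul_assoc, abs_mul, abs_of_nonneg (chi_nonneg _), abs_of_nonneg h5]
      calc chi (u x / ε) * (η x * (kδ ϖ δ (NN u x) * TT u x))
          ≤ 1 * (η x * (kδ ϖ δ (NN u x) * TT u x)) :=
            mul_le_mul_of_nonneg_right (chi_le_one _) h5
        _ = _ := one_mul _
    · refine ae_restrict_of_forall_mem hE fun x hx => ?_
      have hux := h.pos x hx
      refine tendsto_const_nhds.congr' ?_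
      have hmem : Ioo (0 : ℝ) (u x / 2) ∈ 𝓝[>] (0 : ℝ) := Ioo_mem_nhdsGT (by positivity)
      filter_upwards [hmem] with ε hε
      have : chi (u x / ε) = 1 := chi_eq_one (by
        rw [le_div_iff₀ hε.1]; linarith [hε.2])
      rw [this]; ring
  exact le_of_tendsto hlim hest

/-- `|S|^{ϖ-2} |T|²` is integrable on annuli, for `1 < ϖ ≤ 2`.
Sketch: `Y_k = kδ(NN) ∂_k NN`, `div Y = kδ'(NN) |∇NN|² + 2 kδ(NN) TT ≥ (2ϖ - 2) chi(NN/δ) NN^{ϖ/2-1} TT`
(`Sol.lap_NN`, `Sol.pd_NN_sq_le`, `ϖ/2 - 1 ≤ 0`). `Sol.ibp_kcut` with `κ = chi` and `η` of `exists_tst`: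
`∫ chi(u/ε) η div Y = - ∫ chi(u/ε) ∇η·Y - ε⁻¹ ∫ chi'(u/ε) η q·Y`; `|Y| ≤ 2 NN^{(ϖ-1)/2} √TT ≤ C (1 + TT)`
(`ϖ > 1`), integrable uniformly in `δ`. Flux: `q·Y = ∑ T_{kij} q_k P_{ij}`, `P = 2 kδ(NN) S`,
`z = 2 kδ(NN) σ` (`P q - z q = 2 kδ a`): `Sol.flux_lemma` with `κ = deriv chi`; here
`b = 2 kδ(NN) (2 σ NN - tr S³)`, `|b| ≤ C NN^{(ϖ+1)/2} ≤ C'` uniformly in `δ` (`|σ| ≤ √NN`), so
`limsup |ε⁻¹ ∫ chi' η q·Y| ≤ C''` by `Sol.layer_int`. So `∫ η chi(NN/δ) NN^{ϖ/2-1} TT ≤ C` for all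
`δ > 0`; let `δ → 0` (monotone convergence). -/
theorem Sol.int_pow (h : Sol E u) {a b : ℝ} (ha : 0 < a) {ϖ : ℝ} (h1 : 1 < ϖ) (h2 : ϖ ≤ 2) :
    IntegrableOn (fun x => NN u x ^ (ϖ / 2 - 1) * TT u x) (E ∩ Ann a b ∩ {x | NN u x ≠ 0}) := by
  have hb' : (0 : ℝ) ≤ max b 0 := le_max_right _ _
  obtain ⟨η, hη, hη0, hη1, hηA, hηs⟩ := exists_tst (n := n) ha hb'
  obtain ⟨C, hC0, hC⟩ := h.i2_bound h1 h2 hη hη0 hη1 (a := a / 2) (b := max b 0 + 1)
    (by positivity) hηs
  have hE := h.isOpen.measurableSet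
  have hA : MeasurableSet (Ann a b : Set (V n)) := (i2_Ann_closed a b).measurableSet
  have hopen : IsOpen (E ∩ {x | NN u x ≠ 0}) :=
    h.smooth_NN.continuousOn.isOpen_inter_preimage h.isOpen (isOpen_ne (x := (0 : ℝ)))
  have hGeq : E ∩ Ann a b ∩ {x | NN u x ≠ 0} = (E ∩ {x | NN u x ≠ 0}) ∩ Ann a b := by
    ext x; constructor
    · rintro ⟨⟨h5, h6⟩, h7⟩; exact ⟨⟨h5, h7⟩, h6⟩
    · rintro ⟨⟨h5, h6⟩, h7⟩; exact ⟨⟨h5, h7⟩, h6⟩
  have hGm : MeasurableSet (E ∩ Ann a b ∩ {x | NN u x ≠ 0}) := by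
    rw [hGeq]; exact hopen.measurableSet.inter hA
  have hGE : E ∩ Ann a b ∩ {x | NN u x ≠ 0} ⊆ E := fun x hx => hx.1.1
  have hf : ContinuousOn (fun x => NN u x ^ (ϖ / 2 - 1) * TT u x)
      (E ∩ Ann a b ∩ {x | NN u x ≠ 0}) := by
    refine ContinuousOn.mul ?_ (h.smooth_TT.continuousOn.mono hGE)
    exact (h.smooth_NN.continuousOn.mono hGE).rpow_const fun x hx => Or.inl hx.2
  refine ⟨hf.aestronglyMeasurable hGm, ?_⟩
  set F : ℕ → V n → ℝ := fun m x => kδ ϖ (1 / ((m : ℝ) + 1)) (NN u x) * TT u x with hF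
  have hδp : ∀ m : ℕ, (0 : ℝ) < 1 / ((m : ℝ) + 1) := fun m => by positivity
  have hFc : ∀ m, ContinuousOn (F m) (E ∩ Ann a b ∩ {x | NN u x ≠ 0}) := by
    intro m
    obtain ⟨hk, -, -, -⟩ := kδ_spec (ϖ := ϖ) (hδp m)
    exact ((hk.comp_contDiffOn h.smooth_NN).continuousOn.mul h.smooth_TT.continuousOn).mono hGE
  have key : ∀ m, ∫⁻ x in E ∩ Ann a b ∩ {x | NN u x ≠ 0}, ‖F m x‖ₑ ≤ ENNReal.ofReal C := by
    intro m
    obtain ⟨hk, hk0, hkn, hkd⟩ := kδ_spec (ϖ := ϖ) (hδp m)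
    obtain ⟨hi, hle⟩ := hC _ (hδp m)
    have e1 : ∫⁻ x in E ∩ Ann a b ∩ {x | NN u x ≠ 0}, ‖F m x‖ₑ
        = ∫⁻ x in E ∩ Ann a b ∩ {x | NN u x ≠ 0}, ‖η x * F m x‖ₑ := by
      refine setLIntegral_congr_fun hGm fun x hx => ?_
      have : η x = 1 := hηA x ⟨hx.1.2.1, hx.1.2.2.trans (le_max_left _ _)⟩
      rw [this, one_mul]
    rw [e1]
    refine (lintegral_mono_set hGE).trans ?_
    rw [← ofReal_integral_norm_eq_lintegral_enorm hi]
    apply ENNReal.ofReal_le_ofReal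
    refine le_trans (le_of_eq ?_) hle
    refine integral_congr_ae (Eventually.of_forall fun x => ?_)
    have h5 : 0 ≤ η x * F m x := mul_nonneg (hη0 x)
      (mul_nonneg (hkn _ (i2_NN_nonneg u x)) (i2_TT_nonneg u x))
    exact (Real.norm_of_nonneg h5)
  have hlim : ∀ x ∈ E ∩ Ann a b ∩ {x | NN u x ≠ 0},
      Tendsto (fun m => F m x) atTop (𝓝 (NN u x ^ (ϖ / 2 - 1) * TT u x)) := by
    intro x hx
    have hN : 0 < NN u x := lt_of_le_of_ne (i2_NN_nonneg u x) (Ne.symm hx.2)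
    refine tendsto_const_nhds.congr' ?_
    have h0 : Tendsto (fun m : ℕ => 1 / ((m : ℝ) + 1)) atTop (𝓝 0) :=
      tendsto_one_div_add_atTop_nhds_zero_nat
    filter_upwards [h0.eventually (gt_mem_nhds (show 0 < NN u x / 2 by positivity))] with m hm
    simp only [hF, kδ]
    have : chi (NN u x / (1 / ((m : ℝ) + 1))) = 1 := chi_eq_one (by
      rw [le_div_iff₀ (hδp m)]; linarith)
    rw [this, one_mul]
  unfold HasFiniteIntegral
  calc ∫⁻ x in E ∩ Ann a b ∩ {x | NN u x ≠ 0}, ‖NN u x ^ (ϖ / 2 - 1) * TT u x‖ₑ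
      ≤ ∫⁻ x in E ∩ Ann a b ∩ {x | NN u x ≠ 0}, liminf (fun m => ‖F m x‖ₑ) atTop := by
        refine lintegral_mono_ae (ae_restrict_of_forall_mem hGm fun x hx => ?_)
        exact ((hlim x hx).enorm.liminf_eq).ge
    _ ≤ liminf (fun m => ∫⁻ x in E ∩ Ann a b ∩ {x | NN u x ≠ 0}, ‖F m x‖ₑ) atTop :=
        lintegral_liminf_le' fun m => ((hFc m).aestronglyMeasurable hGm).enorm
    _ ≤ ENNReal.ofReal C :=
        liminf_le_of_frequently_le' (Frequently.of_forall key)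
    _ < ⊤ := ENNReal.ofReal_lt_top

end OPC
end

section

/-! # J03: certificate side -/

open MeasureTheory Set Filter Topology

namespace OPC

variable {n : ℕ} {E : Set (V n)} {u : V n → ℝ}

private theorem j03_ann_meas (a b : ℝ) : MeasurableSet (Ann a b : Set (V n)) :=
  ((isClosed_le continuous_const continuous_norm).inter
    (isClosed_le continuous_norm continuous_const)).measurableSet

private theorem j03_ann_vol (a b : ℝ) : volume (Ann a b : Set (V n)) < ⊤ := by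
  refine (measure_mono (t := Metric.closedBall (0 : V n) b) fun x hx => ?_).trans_lt
    measure_closedBall_lt_top
  rw [Metric.mem_closedBall, dist_zero_right]
  exact hx.2

private theorem j03_TT_nonneg (u : V n → ℝ) (x : V n) : 0 ≤ TT u x :=
  Finset.sum_nonneg fun _ _ => Finset.sum_nonneg fun _ _ => Finset.sum_nonneg fun _ _ => sq_nonneg _

private theorem j03_NN_nonneg (u : V n → ℝ) (x : V n) : 0 ≤ NN u x :=
  Finset.sum_nonneg fun _ _ => Finset.sum_nonneg fun _ _ => sq_nonneg _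

private theorem Sol.j03_int_ann (h : Sol E u) {a b C : ℝ} (ha : 0 < a) {g : V n → ℝ}
    (hg : ContinuousOn g E) (hb : ∀ x ∈ E, x ∈ Ann a b → |g x| ≤ C * (1 + TT u x)) :
    IntegrableOn g (E ∩ Ann a b) := by
  have hfin : volume (E ∩ Ann a b) < ⊤ := (measure_mono inter_subset_right).trans_lt (j03_ann_vol a b)
  have h1 : IntegrableOn (fun x => C * (1 + TT u x)) (E ∩ Ann a b) := by
    refine Integrable.const_mul (Integrable.add ?_ (h.int_TT ha)) _
    exact integrableOn_const hfin.ne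
  have hm : MeasurableSet (E ∩ Ann a b) := h.isOpen.measurableSet.inter (j03_ann_meas a b)
  refine Integrable.mono' h1 ((hg.mono inter_subset_left).aestronglyMeasurable hm) ?_
  refine (ae_restrict_iff' hm).2 (Eventually.of_forall fun x hx => ?_)
  rw [Real.norm_eq_abs]
  exact hb x hx.1 hx.2

private theorem Sol.j03_int_E (h : Sol E u) {a b C : ℝ} (ha : 0 < a) {g : V n → ℝ}
    (hg : ContinuousOn g E) (hb : ∀ x ∈ E, x ∈ Ann a b → |g x| ≤ C * (1 + TT u x))
    (hz : ∀ x, x ∉ Ann a b → g x = 0) : IntegrableOn g E :=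
  (h.j03_int_ann ha hg hb).of_forall_sdiff_eq_zero h.isOpen.measurableSet
    fun x hx => hz x fun hA => hx.2 ⟨hx.1, hA⟩

private theorem Sol.j03_chi_int (h : Sol E u) {g : V n → ℝ} (hg : IntegrableOn g E) (ε : ℝ) :
    IntegrableOn (fun x => chi (u x / ε) * g x) E := by
  refine Integrable.mono hg ?_ (Eventually.of_forall fun x => ?_)
  · exact (chi_smooth.continuous.comp (h.cont.div_const ε)).aestronglyMeasurable.mul
      hg.aestronglyMeasurable
  · rw [norm_mul, Real.norm_eq_abs, abs_of_nonneg (chi_nonneg _)]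
    exact mul_le_of_le_one_left (norm_nonneg _) (chi_le_one _)

private theorem Sol.j03_dct (h : Sol E u) {g : V n → ℝ} (hg : IntegrableOn g E) :
    Tendsto (fun ε => ∫ x in E, chi (u x / ε) * g x) (𝓝[>] (0 : ℝ)) (𝓝 (∫ x in E, g x)) := by
  refine tendsto_integral_filter_of_dominated_convergence (fun x => ‖g x‖) ?_ ?_ hg.norm ?_
  · exact Eventually.of_forall fun ε => (h.j03_chi_int hg ε).aestronglyMeasurable
  · refine Eventually.of_forall fun ε => Eventually.of_forall fun x => ?_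
    rw [norm_mul, Real.norm_eq_abs, abs_of_nonneg (chi_nonneg _)]
    exact mul_le_of_le_one_left (norm_nonneg _) (chi_le_one _)
  · refine (ae_restrict_iff' h.isOpen.measurableSet).2 (Eventually.of_forall fun x hx => ?_)
    refine tendsto_const_nhds.congr' ?_
    have hux := h.pos x hx
    filter_upwards [Ioo_mem_nhdsGT (show (0 : ℝ) < u x / 2 by linarith)] with ε hε
    rw [chi_eq_one, one_mul]
    rw [le_div_iff₀ hε.1]
    have := hε.2
    linarith

private theorem j03_rpow_bdd {m M : ℝ} (hm : 0 < m) (r : ℝ) :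
    ∃ A : ℝ, 1 ≤ A ∧ ∀ s, m ≤ s → s ≤ M → s ^ r ≤ A := by
  have hc : ContinuousOn (fun s : ℝ => s ^ r) (Icc m M) := by
    intro s hs
    exact (Real.continuousAt_rpow_const s r (Or.inl (hm.trans_le hs.1).ne')).continuousWithinAt
  obtain ⟨A, hA⟩ := isCompact_Icc.exists_bound_of_continuousOn hc
  refine ⟨max A 1, le_max_right _ _, fun s h1 h2 => ?_⟩
  exact ((le_abs_self _).trans (hA s ⟨h1, h2⟩)).trans (le_max_left _ _)

private theorem j03_th_eq_zero {δ : ℝ} (hδ : 0 < δ) {x : V n} (hx : ‖x‖ ^ 2 * NN u x ≤ δ) :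
    th u δ x = 0 := by
  refine chi_eq_zero ?_
  rwa [div_le_one hδ]

private theorem PCert.j03_F_pos {F : V n → ℝ} {W : Fin n → V n → ℝ} {ϖ t : ℝ} (h : Sol E u)
    (hc : PCert E u F W ϖ t) {x : V n} (hx : x ∈ E) (hN : NN u x ≠ 0) : 0 < F x := by
  have hx0 : 0 < ‖x‖ := norm_pos_iff.2 (h.ne_zero hx)
  obtain ⟨C, hC1, hC⟩ := hc.growth ‖x‖ ‖x‖ hx0
  have h1 := (hC x hx ⟨le_rfl, le_rfl⟩ hN).1
  have hNpos : 0 < NN u x := lt_of_le_of_ne (j03_NN_nonneg u x) (Ne.symm hN)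
  have h2 : 0 < C⁻¹ * NN u x ^ (ϖ / 2) :=
    mul_pos (inv_pos.2 (by linarith)) (Real.rpow_pos_of_pos hNpos _)
  linarith

/-- uniform bounds where `th ≠ 0` -/
private theorem PCert.j03_unif {F : V n → ℝ} {W : Fin n → V n → ℝ} {ϖ t : ℝ} (h : Sol E u)
    (hc : PCert E u F W ϖ t) {a b δ : ℝ} (ha : 0 < a) (hδ : 0 < δ) :
    ∃ K : ℝ, 1 ≤ K ∧ ∀ x ∈ E, x ∈ Ann a b → δ < ‖x‖ ^ 2 * NN u x →
      K⁻¹ ≤ F x ∧ F x ≤ K ∧ (∀ k, |pd k F x| ≤ K * (1 + √(TT u x))) ∧
      (∀ k, |W k x| ≤ K * (1 + √(TT u x))) ∧ (∀ k, |w u k x| ≤ K) ∧ NN u x ≤ K ∧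
      (∀ k, |pd k (th u δ) x| ≤ K * (1 + √(TT u x))) := by
  obtain ⟨C1, hC1, hg⟩ := hc.growth a b ha
  obtain ⟨M, _, hM1, _, hbd⟩ := h.bounds (b := b) ha
  obtain ⟨C3, hC3, hth⟩ := h.pd_th_le (b := b) ha
  have hb1 : 0 < b ^ 2 + 1 := by positivity
  obtain ⟨m, hm_def⟩ : ∃ m, m = δ / (b ^ 2 + 1) := ⟨_, rfl⟩
  have hm : 0 < m := by rw [hm_def]; positivity
  obtain ⟨A1, hA1, hA1'⟩ := j03_rpow_bdd (M := M) hm (ϖ / 2)
  obtain ⟨A2, hA2, hA2'⟩ := j03_rpow_bdd (M := M) hm (-(ϖ / 2))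
  obtain ⟨A3, hA3, hA3'⟩ := j03_rpow_bdd (M := M) hm ((ϖ - 1) / 2)
  have hsm : 0 < √m := Real.sqrt_pos.2 hm
  obtain ⟨K, hK_def⟩ : ∃ K, K = C1 * A2 + C1 * A1 + C1 * A3 * M + M + C3 * M / √m := ⟨_, rfl⟩
  have p1 : 0 ≤ C1 * A2 := by positivity
  have p2 : 0 ≤ C1 * A1 := by positivity
  have p3 : 0 ≤ C1 * A3 * M := by positivity
  have p5 : 0 ≤ C3 * M / √m := by positivity
  refine ⟨K, by rw [hK_def]; linarith, fun x hx hxA hxδ => ?_⟩
  have hN0 : 0 ≤ NN u x := j03_NN_nonneg u x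
  obtain ⟨-, -, hw, -, -, -, -, hNM, -, -, -, -⟩ := hbd x hx hxA
  have hxb : ‖x‖ ^ 2 ≤ b ^ 2 + 1 := by
    have h0 := norm_nonneg x
    have h1 := hxA.2
    nlinarith
  have hmN : m ≤ NN u x := by
    rw [hm_def, div_le_iff₀ hb1]
    nlinarith
  have hNpos : 0 < NN u x := hm.trans_le hmN
  obtain ⟨g1, g2, g3, g4⟩ := hg x hx hxA hNpos.ne'
  have hT0 : 0 ≤ √(TT u x) := Real.sqrt_nonneg _
  have hsN : √(NN u x) ≤ M := by
    have : √(NN u x) ≤ √(M ^ 2) := Real.sqrt_le_sqrt (by nlinarith)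
    rwa [Real.sqrt_sq (by linarith)] at this
  have hsum : √(TT u x) + √(NN u x) ≤ M * (1 + √(TT u x)) := by nlinarith
  have hpow : ∀ B : ℝ, |B| ≤ C1 * NN u x ^ ((ϖ - 1) / 2) * (√(TT u x) + √(NN u x)) →
      |B| ≤ K * (1 + √(TT u x)) := by
    intro B hB
    have h1 : NN u x ^ ((ϖ - 1) / 2) ≤ A3 := hA3' _ hmN hNM
    have h2 : C1 * NN u x ^ ((ϖ - 1) / 2) * (√(TT u x) + √(NN u x))
        ≤ C1 * A3 * (M * (1 + √(TT u x))) := by
      refine mul_le_mul (mul_le_mul_of_nonneg_left h1 (by linarith)) hsum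
        (add_nonneg hT0 (Real.sqrt_nonneg _)) (by positivity)
    have h3 : C1 * A3 * M * (1 + √(TT u x)) ≤ K * (1 + √(TT u x)) := by
      refine mul_le_mul_of_nonneg_right ?_ (by linarith)
      rw [hK_def]; linarith
    calc |B| ≤ _ := hB
      _ ≤ _ := h2
      _ = C1 * A3 * M * (1 + √(TT u x)) := by ring
      _ ≤ _ := h3
  refine ⟨?_, ?_, fun k => hpow _ (g3 k), fun k => hpow _ (g4 k), fun k => ?_, ?_, fun k => ?_⟩
  · have h1 : NN u x ^ (-(ϖ / 2)) ≤ A2 := hA2' _ hmN hNM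
    have hp : 0 < NN u x ^ (ϖ / 2) := Real.rpow_pos_of_pos hNpos _
    rw [Real.rpow_neg hN0] at h1
    have h2 : A2⁻¹ ≤ NN u x ^ (ϖ / 2) := by
      rw [inv_le_comm₀ (by linarith) hp]
      exact h1
    have h3 : K⁻¹ ≤ (C1 * A2)⁻¹ := by
      refine inv_anti₀ (by positivity) ?_
      rw [hK_def]; linarith
    calc K⁻¹ ≤ (C1 * A2)⁻¹ := h3
      _ = C1⁻¹ * A2⁻¹ := by rw [mul_inv]
      _ ≤ C1⁻¹ * NN u x ^ (ϖ / 2) := mul_le_mul_of_nonneg_left h2 (inv_nonneg.2 (by linarith))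
      _ ≤ F x := g1
  · have h1 : NN u x ^ (ϖ / 2) ≤ A1 := hA1' _ hmN hNM
    calc F x ≤ C1 * NN u x ^ (ϖ / 2) := g2
      _ ≤ C1 * A1 := mul_le_mul_of_nonneg_left h1 (by linarith)
      _ ≤ K := by rw [hK_def]; linarith
  · refine (hw k).trans ?_
    rw [hK_def]; linarith
  · refine hNM.trans ?_
    rw [hK_def]; linarith
  · have h1 := (hth δ hδ x hx hxA k).1
    have h2 : √m ≤ √(NN u x) := Real.sqrt_le_sqrt hmN
    have h3 : |pd k (th u δ) x| * √m ≤ C3 * (M * (1 + √(TT u x))) := by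
      calc |pd k (th u δ) x| * √m ≤ |pd k (th u δ) x| * √(NN u x) :=
            mul_le_mul_of_nonneg_left h2 (abs_nonneg _)
        _ ≤ C3 * (√(TT u x) + √(NN u x)) := h1
        _ ≤ _ := mul_le_mul_of_nonneg_left hsum hC3.le
    have h4 : |pd k (th u δ) x| ≤ C3 * M / √m * (1 + √(TT u x)) := by
      rw [div_mul_eq_mul_div, le_div_iff₀ hsm]
      calc _ ≤ _ := h3
        _ = _ := by ring
    refine h4.trans (mul_le_mul_of_nonneg_right ?_ (by linarith))
    rw [hK_def]; linarith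

private theorem Sol.j03_open (h : Sol E u) : IsOpen (E ∩ {x | NN u x ≠ 0}) := by
  have := h.smooth_NN.continuousOn.isOpen_inter_preimage h.isOpen
    (isOpen_ne (x := (0 : ℝ)))
  exact this

/-- pointwise inequality for the divergence of `th² W` -/
private theorem PCert.j03_div {F : V n → ℝ} {W : Fin n → V n → ℝ} {ϖ t : ℝ} (h : Sol E u)
    (hc : PCert E u F W ϖ t) {δ : ℝ} (hδ : 0 < δ) {x : V n} (hx : x ∈ E) :
    th u δ x ^ 2 * (((∑ k, (pd k F x) ^ 2) / (4 * F x) - ∑ k, pd k F x * w u k x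
        - NN u x * F x) + t * (F x / ‖x‖ ^ 2)) + ∑ k, 2 * th u δ x * pd k (th u δ) x * W k x
      ≤ ∑ k, pd k (fun y => th u δ y ^ 2 * W k y) x := by
  by_cases hN : NN u x = 0
  · have hth : th u δ x = 0 := j03_th_eq_zero hδ (by rw [hN]; simpa using hδ.le)
    have hev : ∀ᶠ y in 𝓝 x, th u δ y = 0 := by
      have hcont : ContinuousAt (fun y => ‖y‖ ^ 2 * NN u y) x :=
        (continuous_norm.pow 2).continuousAt.mul
          (h.smooth_NN.continuousOn.continuousAt (h.isOpen.mem_nhds hx))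
      have h0 : ‖x‖ ^ 2 * NN u x < δ := by rw [hN]; simpa using hδ
      filter_upwards [hcont.eventually (gt_mem_nhds h0)] with y hy
      exact j03_th_eq_zero hδ hy.le
    have h1 : ∀ k, pd k (fun y => th u δ y ^ 2 * W k y) x = 0 := by
      intro k
      refine pd_zero_of_eventually ?_ k
      filter_upwards [hev] with y hy
      rw [hy]; simp
    rw [Finset.sum_congr rfl fun k _ => h1 k, hth]
    simp
  · have hE0 : x ∈ E ∩ {x | NN u x ≠ 0} := ⟨hx, hN⟩
    have hdth : DifferentiableAt ℝ (th u δ) x := diffAt h.isOpen (h.smooth_th hδ) hx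
    have hdW : ∀ k, DifferentiableAt ℝ (W k) x := fun k =>
      ((hc.W_smooth k).contDiffAt (h.j03_open.mem_nhds hE0)).differentiableAt (by simp)
    have h1 : ∀ k, pd k (fun y => th u δ y ^ 2 * W k y) x
        = 2 * th u δ x * pd k (th u δ) x * W k x + th u δ x ^ 2 * pd k (W k) x := by
      intro k
      rw [pd_mul (f := fun y => th u δ y ^ 2) (hdth.pow 2) (hdW k), pd_pow hdth]
      norm_num
    rw [Finset.sum_congr rfl fun k _ => h1 k, Finset.sum_add_distrib, ← Finset.mul_sum]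
    have h2 := mul_le_mul_of_nonneg_left (hc.ineq x hx hN) (sq_nonneg (th u δ x))
    linarith

private theorem PCert.j03_smooth_D {F : V n → ℝ} {W : Fin n → V n → ℝ} {ϖ t : ℝ} (h : Sol E u)
    (hc : PCert E u F W ϖ t) : ContDiffOn ℝ (⊤ : ℕ∞) (fun x => (∑ k, (pd k F x) ^ 2) / (4 * F x)
      - ∑ k, pd k F x * w u k x - NN u x * F x) (E ∩ {x | NN u x ≠ 0}) := by
  have hF := hc.F_smooth
  have hpF : ∀ k, ContDiffOn ℝ (⊤ : ℕ∞) (pd k F) (E ∩ {x | NN u x ≠ 0}) := fun k =>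
    contDiffOn_pd_top h.j03_open hF k
  have hw : ∀ k, ContDiffOn ℝ (⊤ : ℕ∞) (w u k) (E ∩ {x | NN u x ≠ 0}) := fun k =>
    (h.smooth_w k).mono inter_subset_left
  have hN : ContDiffOn ℝ (⊤ : ℕ∞) (NN u) (E ∩ {x | NN u x ≠ 0}) :=
    h.smooth_NN.mono inter_subset_left
  refine (ContDiffOn.sub (ContDiffOn.div ?_ ?_ ?_) ?_).sub (hN.mul hF)
  · exact ContDiffOn.sum fun k _ => (hpF k).pow 2
  · exact contDiffOn_const.mul hF
  · intro x hx
    have := hc.j03_F_pos h hx.1 hx.2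
    positivity
  · exact ContDiffOn.sum fun k _ => (hpF k).mul (hw k)

private theorem PCert.j03_smooth_P {F : V n → ℝ} {W : Fin n → V n → ℝ} {ϖ t : ℝ} (h : Sol E u)
    (hc : PCert E u F W ϖ t) : ContDiffOn ℝ (⊤ : ℕ∞) (fun x => F x / ‖x‖ ^ 2)
      (E ∩ {x | NN u x ≠ 0}) := by
  refine ContDiffOn.div hc.F_smooth (contDiff_norm_sq ℝ).contDiffOn ?_
  intro x hx
  have := norm_pos_iff.2 (h.ne_zero hx.1)
  positivity

private theorem PCert.j03_cont_R {F : V n → ℝ} {W : Fin n → V n → ℝ} {ϖ t : ℝ} (h : Sol E u)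
    (hc : PCert E u F W ϖ t) {δ : ℝ} (hδ : 0 < δ) :
    ContinuousOn (fun x => ∑ k, 2 * th u δ x * pd k (th u δ) x * W k x) E := by
  refine continuousOn_finsetSum _ fun k _ => ?_
  have h1 : ContinuousOn (fun x => th u δ x * W k x) E :=
    (h.th_mul_smooth hδ one_le_top' (hc.W_smooth k)).1.continuousOn
  have h2 : ContinuousOn (pd k (th u δ)) E :=
    (contDiffOn_pd_top h.isOpen (h.smooth_th hδ) k).continuousOn
  refine ((continuousOn_const (c := (2 : ℝ))).mul (h2.mul h1)).congr fun x _ => ?_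
  simp only [Pi.mul_apply]
  ring

/-- integrands are bounded by `C (1 + TT)` -/
private theorem PCert.j03_bounds {F : V n → ℝ} {W : Fin n → V n → ℝ} {ϖ t : ℝ} (h : Sol E u)
    (hc : PCert E u F W ϖ t) {a b δ : ℝ} (ha : 0 < a) (hδ : 0 < δ) :
    ∃ K : ℝ, 0 ≤ K ∧ ∀ x ∈ E, x ∈ Ann a b →
      |th u δ x ^ 2 * (F x / ‖x‖ ^ 2)| ≤ K * (1 + TT u x) ∧
      |∑ k, 2 * th u δ x * pd k (th u δ) x * W k x| ≤ K * (1 + TT u x) ∧
      |th u δ x ^ 2 * ((∑ k, (pd k F x) ^ 2) / (4 * F x) - ∑ k, pd k F x * w u k x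
        - NN u x * F x)| ≤ K * (1 + TT u x) ∧
      (∀ k, |th u δ x ^ 2 * W k x| ≤ K * (1 + TT u x)) := by
  obtain ⟨K, hK1, hK⟩ := hc.j03_unif h (b := b) ha hδ
  have hK0 : 0 ≤ K := by linarith
  have q1 : 0 ≤ K / a ^ 2 := by positivity
  have q2 : (0 : ℝ) ≤ n * K ^ 2 := by positivity
  have q3 : (0 : ℝ) ≤ n * K ^ 3 := by positivity
  have q4 : (0 : ℝ) ≤ K ^ 2 := by positivity
  refine ⟨2 * (K / a ^ 2 + K + 2 * (n * K ^ 2) + n * K ^ 3 + n * K ^ 2 + K ^ 2), by linarith,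
    fun x hx hxA => ?_⟩
  have hT := j03_TT_nonneg u x
  obtain ⟨Q, hQ⟩ : ∃ Q, Q = K / a ^ 2 + K + 2 * (n * K ^ 2) + n * K ^ 3 + n * K ^ 2 + K ^ 2 :=
    ⟨_, rfl⟩
  rw [← hQ]
  have hQ0 : 0 ≤ Q := by rw [hQ]; linarith
  have hQT : 0 ≤ 2 * Q * (1 + TT u x) := by positivity
  by_cases hth : th u δ x = 0
  · rw [hth]
    refine ⟨by simpa using hQT, by simpa using hQT, by simpa using hQT, fun k => by simpa using hQT⟩
  have hδ' : δ < ‖x‖ ^ 2 * NN u x := not_le.1 fun hle => hth (j03_th_eq_zero hδ hle)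
  obtain ⟨b1, b2, b3, b4, b5, b6, b7⟩ := hK x hx hxA hδ'
  have hN0 := j03_NN_nonneg u x
  obtain ⟨L, hL⟩ : ∃ L, L = 1 + √(TT u x) := ⟨_, rfl⟩
  rw [← hL] at b3 b4 b7
  have hL1 : 1 ≤ L := by rw [hL]; linarith [Real.sqrt_nonneg (TT u x)]
  have hL2 : L ^ 2 ≤ 2 * (1 + TT u x) := by
    rw [hL]
    nlinarith [Real.sq_sqrt hT, sq_nonneg (√(TT u x) - 1)]
  have hLL : L ≤ L ^ 2 := by nlinarith
  have h1L : 1 ≤ L ^ 2 := by nlinarith
  have hfin : ∀ B : ℝ, |B| ≤ Q * L ^ 2 → |B| ≤ 2 * Q * (1 + TT u x) := by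
    intro B hB
    have := mul_le_mul_of_nonneg_left hL2 hQ0
    linarith
  have ht0 : 0 ≤ th u δ x := chi_nonneg _
  have ht1 : th u δ x ≤ 1 := chi_le_one _
  have ht2 : th u δ x ^ 2 ≤ 1 := by nlinarith
  have hsc : ∀ B : ℝ, |B| ≤ Q * L ^ 2 → |th u δ x ^ 2 * B| ≤ 2 * Q * (1 + TT u x) := by
    intro B hB
    refine hfin _ ?_
    rw [abs_mul, abs_of_nonneg (sq_nonneg _)]
    exact (mul_le_of_le_one_left (abs_nonneg _) ht2).trans hB
  have hKinv : 0 < K⁻¹ := inv_pos.2 (by linarith)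
  have hF : 0 < F x := hKinv.trans_le b1
  have hKF : 1 ≤ K * F x := by
    have := mul_le_mul_of_nonneg_left b1 hK0
    rwa [mul_inv_cancel₀ (by linarith)] at this
  refine ⟨hsc _ ?_, hfin _ ?_, hsc _ ?_, fun k => hsc _ ?_⟩
  · rw [abs_of_nonneg (by positivity)]
    have hxa : a ^ 2 ≤ ‖x‖ ^ 2 := by
      have := hxA.1
      nlinarith
    have h1 : F x / ‖x‖ ^ 2 ≤ K / a ^ 2 := by
      refine div_le_div₀ hK0 b2 (by positivity) hxa
    have h2 : K / a ^ 2 ≤ Q := by rw [hQ]; linarith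
    nlinarith
  · have h1 : ∀ k ∈ (Finset.univ : Finset (Fin n)),
        |2 * th u δ x * pd k (th u δ) x * W k x| ≤ 2 * (K * L) * (K * L) := by
      intro k _
      have e1 : |2 * th u δ x * pd k (th u δ) x * W k x|
          = 2 * th u δ x * |pd k (th u δ) x| * |W k x| := by
        rw [abs_mul, abs_mul, abs_mul, abs_of_nonneg ht0, abs_two]
      rw [e1]
      refine mul_le_mul ?_ (b4 k) (abs_nonneg _) (by positivity)
      exact mul_le_mul (by linarith) (b7 k) (abs_nonneg _) (by norm_num)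
    refine (Finset.abs_sum_le_sum_abs _ _).trans ((Finset.sum_le_sum h1).trans ?_)
    rw [Finset.sum_const, Finset.card_univ, Fintype.card_fin, nsmul_eq_mul]
    have h2 : 2 * (n * K ^ 2) ≤ Q := by rw [hQ]; linarith
    calc (n : ℝ) * (2 * (K * L) * (K * L)) = 2 * (n * K ^ 2) * L ^ 2 := by ring
      _ ≤ Q * L ^ 2 := mul_le_mul_of_nonneg_right h2 (sq_nonneg _)
  · have d0 : 0 ≤ ∑ k, (pd k F x) ^ 2 := Finset.sum_nonneg fun _ _ => sq_nonneg _
    have d1 : ∑ k, (pd k F x) ^ 2 ≤ n * (K * L) ^ 2 := by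
      have : ∀ k ∈ (Finset.univ : Finset (Fin n)), (pd k F x) ^ 2 ≤ (K * L) ^ 2 := by
        intro k _
        rw [← sq_abs]
        have := b3 k
        have h0 := abs_nonneg (pd k F x)
        nlinarith
      refine (Finset.sum_le_sum this).trans (le_of_eq ?_)
      rw [Finset.sum_const, Finset.card_univ, Fintype.card_fin, nsmul_eq_mul]
    have d2 : |(∑ k, (pd k F x) ^ 2) / (4 * F x)| ≤ n * K ^ 3 * L ^ 2 := by
      rw [abs_of_nonneg (div_nonneg d0 (by positivity)), div_le_iff₀ (by positivity)]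
      have h0 : 0 ≤ n * (K * L) ^ 2 := by positivity
      have h1 : n * (K * L) ^ 2 * 1 ≤ n * (K * L) ^ 2 * (4 * (K * F x)) :=
        mul_le_mul_of_nonneg_left (by linarith) h0
      calc _ ≤ _ := d1
        _ = n * (K * L) ^ 2 * 1 := by ring
        _ ≤ _ := h1
        _ = _ := by ring
    have d3 : |∑ k, pd k F x * w u k x| ≤ n * K ^ 2 * L ^ 2 := by
      have h1 : ∀ k ∈ (Finset.univ : Finset (Fin n)), |pd k F x * w u k x| ≤ K * L * K := by
        intro k _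
        rw [abs_mul]
        exact mul_le_mul (b3 k) (b5 k) (abs_nonneg _) (by positivity)
      refine (Finset.abs_sum_le_sum_abs _ _).trans ((Finset.sum_le_sum h1).trans ?_)
      rw [Finset.sum_const, Finset.card_univ, Fintype.card_fin, nsmul_eq_mul]
      calc (n : ℝ) * (K * L * K) = n * K ^ 2 * L := by ring
        _ ≤ n * K ^ 2 * L ^ 2 := mul_le_mul_of_nonneg_left hLL q2
    have d4 : |NN u x * F x| ≤ K ^ 2 * L ^ 2 := by
      rw [abs_of_nonneg (by positivity)]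
      calc NN u x * F x ≤ K * K := mul_le_mul b6 b2 hF.le hK0
        _ = K ^ 2 * 1 := by ring
        _ ≤ K ^ 2 * L ^ 2 := mul_le_mul_of_nonneg_left h1L q4
    have d5 : (n * K ^ 3 + n * K ^ 2 + K ^ 2) * L ^ 2 ≤ Q * L ^ 2 := by
      refine mul_le_mul_of_nonneg_right ?_ (sq_nonneg _)
      rw [hQ]; linarith
    have d6 := abs_sub ((∑ k, (pd k F x) ^ 2) / (4 * F x) - ∑ k, pd k F x * w u k x) (NN u x * F x)
    have d7 := abs_sub ((∑ k, (pd k F x) ^ 2) / (4 * F x)) (∑ k, pd k F x * w u k x)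
    have d8 : (n * K ^ 3 + n * K ^ 2 + K ^ 2) * L ^ 2
        = n * K ^ 3 * L ^ 2 + n * K ^ 2 * L ^ 2 + K ^ 2 * L ^ 2 := by ring
    linarith
  · refine (b4 k).trans ?_
    have h2 : K ≤ Q := by rw [hQ]; linarith
    have h0 : 0 ≤ L ^ 2 := sq_nonneg _
    nlinarith

private theorem j03_tst_sq {η : V n → ℝ} (hη : Tst η) : Tst (fun x => η x ^ 2) := by
  have hsub : Function.support (fun x => η x ^ 2) ⊆ Function.support η := by
    intro x hx
    rw [Function.mem_support] at hx ⊢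
    intro h0
    exact hx (by rw [h0]; simp)
  exact ⟨hη.smooth.pow 2, hη.cpt.mono hsub, fun h0 => hη.zero (closure_mono hsub h0)⟩

private theorem Sol.j03_prod_int (h : Sol E u) {a b M K : ℝ} (ha : 0 < a) {ζ g : V n → ℝ}
    (hζ : Continuous ζ) (hM : ∀ x, |ζ x| ≤ M) (hz : ∀ x, x ∉ Ann a b → ζ x = 0)
    (hg : ContinuousOn g E) (hK : ∀ x ∈ E, x ∈ Ann a b → |g x| ≤ K * (1 + TT u x)) :
    IntegrableOn (fun x => ζ x * g x) E := by
  have hM0 : 0 ≤ M := (abs_nonneg _).trans (hM 0)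
  refine h.j03_int_E (C := M * K) ha (hζ.continuousOn.mul hg) (fun x hx hxA => ?_)
    (fun x hx => by rw [hz x hx, zero_mul])
  rw [abs_mul, mul_assoc]
  exact mul_le_mul (hM x) (hK x hx hxA) (abs_nonneg _) hM0

private theorem j03_pd_bdd {η : V n → ℝ} (hη : Tst η) (i : Fin n) : ∃ M, ∀ x, |pd i η x| ≤ M := by
  have h1 : HasCompactSupport (pd i η) :=
    (hη.cpt.fderiv (𝕜 := ℝ)).comp_left (g := fun L : V n →L[ℝ] ℝ => L (e i)) (by simp)
  have h2 : Continuous (pd i η) :=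
    (contDiff_pd (m := 0) hη.smooth (by simp) i).continuous
  exact h1.exists_bound_of_continuous h2

private theorem j03_pd_zero {η : V n → ℝ} {a b : ℝ} (hs : tsupport η ⊆ Ann a b) (i : Fin n) {x : V n}
    (hx : x ∉ Ann a b) : pd i η x = 0 := by
  refine pd_zero_of_eventually ?_ i
  exact notMem_tsupport_iff_eventuallyEq.1 fun h => hx (hs h)

private theorem PCert.j03_radial {F : V n → ℝ} {W : Fin n → V n → ℝ} {ϖ t : ℝ} (h : Sol E u)
    (hc : PCert E u F W ϖ t) {η ρ : V n → ℝ} (hη : Tst η)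
    (hρ : ∀ i x, pd i η x = ρ x * x i) {δ : ℝ} (hδ : 0 < δ) :
    ∫ x in E, ∑ k, pd k (fun y => η y ^ 2) x * (th u δ x ^ 2 * W k x) = 0 := by
  have hY : ∀ k, ContDiffOn ℝ 1 (fun x => th u δ x ^ 2 * W k x) E := fun k =>
    (h.th_mul_smooth hδ one_le_top' (hc.W_smooth k)).2
  have hpd : ∀ k x, pd k (fun y => η y ^ 2) x = 2 * η x * (ρ x * x k) := by
    intro k x
    rw [pd_pow (hη.smooth.contDiffAt.differentiableAt (by simp)), hρ k x]
    norm_num
  have hH : ContDiffOn ℝ 1 (fun x => (∑ k, x k * (th u δ x ^ 2 * W k x)) / ‖x‖ ^ 2) E := by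
    refine ContDiffOn.div (ContDiffOn.sum fun k _ => ?_) (contDiff_norm_sq ℝ).contDiffOn ?_
    · exact (contDiff_euclidean.1 contDiff_id k).contDiffOn.mul (hY k)
    · intro x hx
      have := norm_pos_iff.2 (h.ne_zero hx)
      positivity
  have hh : ∀ s : ℝ, 0 < s → ∀ x ∈ E,
      (∑ k, (s • x) k * (th u δ (s • x) ^ 2 * W k (s • x))) / ‖s • x‖ ^ 2
        = s ^ (-(n : ℤ)) * ((∑ k, x k * (th u δ x ^ 2 * W k x)) / ‖x‖ ^ 2) := by
    intro s hs x hx
    rw [h.th_hom δ s hs x hx]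
    by_cases hN : NN u x = 0
    · have hth : th u δ x = 0 := j03_th_eq_zero hδ (by rw [hN]; simpa using hδ.le)
      rw [hth]
      simp
    · have h1 : ∀ k, (s • x) k * (th u δ x ^ 2 * W k (s • x))
          = s * (s * s ^ (-(n : ℤ))) * (x k * (th u δ x ^ 2 * W k x)) := by
        intro k
        rw [hc.W_hom k s hs x hx hN, sub_eq_add_neg, zpow_add₀ hs.ne', zpow_one]
        simp only [PiLp.smul_apply, smul_eq_mul]
        ring
      rw [Finset.sum_congr rfl fun k _ => h1 k, ← Finset.mul_sum, norm_smul, Real.norm_eq_abs,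
        abs_of_pos hs, mul_pow]
      have hx0 := norm_pos_iff.2 (h.ne_zero hx)
      generalize (∑ k, x k * (th u δ x ^ 2 * W k x)) = Z
      field_simp
  have hi : ∀ a b : ℝ, 0 < a →
      IntegrableOn (fun x => (∑ k, x k * (th u δ x ^ 2 * W k x)) / ‖x‖ ^ 2) (E ∩ Ann a b) := by
    intro a b ha
    obtain ⟨K, hK0, hK⟩ := hc.j03_bounds h (b := b) ha hδ
    refine h.j03_int_ann (C := n * K / a) ha hH.continuousOn fun x hx hxA => ?_
    obtain ⟨-, -, -, hW⟩ := hK x hx hxA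
    have hx0 := norm_pos_iff.2 (h.ne_zero hx)
    have hT := j03_TT_nonneg u x
    have h1 : ∀ k ∈ (Finset.univ : Finset (Fin n)), |x k * (th u δ x ^ 2 * W k x)|
        ≤ ‖x‖ * (K * (1 + TT u x)) := by
      intro k _
      rw [abs_mul]
      refine mul_le_mul ?_ (hW k) (abs_nonneg _) (norm_nonneg _)
      exact PiLp.norm_apply_le x k
    have h2 : |∑ k, x k * (th u δ x ^ 2 * W k x)| ≤ n * (‖x‖ * (K * (1 + TT u x))) := by
      refine (Finset.abs_sum_le_sum_abs _ _).trans ((Finset.sum_le_sum h1).trans (le_of_eq ?_))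
      rw [Finset.sum_const, Finset.card_univ, Fintype.card_fin, nsmul_eq_mul]
    rw [abs_div, abs_of_nonneg (sq_nonneg ‖x‖), div_le_iff₀ (by positivity)]
    refine h2.trans ?_
    have h3 : ‖x‖ * a ≤ ‖x‖ ^ 2 := by
      have := hxA.1
      nlinarith
    have h4 : 0 ≤ n * K / a * (1 + TT u x) := by positivity
    calc (n : ℝ) * (‖x‖ * (K * (1 + TT u x))) = n * K / a * (1 + TT u x) * (‖x‖ * a) := by
          field_simp
      _ ≤ n * K / a * (1 + TT u x) * ‖x‖ ^ 2 := mul_le_mul_of_nonneg_left h3 h4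
  have key := h.radial hH hh hi (j03_tst_sq hη)
  rw [← key]
  refine setIntegral_congr_fun h.isOpen.measurableSet fun x hx => ?_
  have hx0 := norm_pos_iff.2 (h.ne_zero hx)
  have e1 : ∑ i, x i * pd i (fun y => η y ^ 2) x = 2 * η x * ρ x * ‖x‖ ^ 2 := by
    rw [norm_sq_eq_sum, Finset.mul_sum]
    refine Finset.sum_congr rfl fun i _ => ?_
    rw [hpd]
    ring
  have e2 : ∑ k, pd k (fun y => η y ^ 2) x * (th u δ x ^ 2 * W k x)
      = 2 * η x * ρ x * ∑ k, x k * (th u δ x ^ 2 * W k x) := by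
    rw [Finset.mul_sum]
    refine Finset.sum_congr rfl fun k _ => ?_
    rw [hpd]
    ring
  show ∑ k, pd k (fun y => η y ^ 2) x * (th u δ x ^ 2 * W k x)
    = (∑ k, x k * (th u δ x ^ 2 * W k x)) / ‖x‖ ^ 2 * ∑ i, x i * pd i (fun y => η y ^ 2) x
  rw [e1, e2]
  generalize (∑ k, x k * (th u δ x ^ 2 * W k x)) = Z
  field_simp

/-- Step 1 (certificate side): for `η ≥ 0` radial,
`t ∫ η² th² F/|x|² ≤ - ∫ η² ∇(th²)·W - ∫ η² th² D`, `D = |∇F|²/(4F) - ∇F·w - |S|² F`.
Sketch: `ζ = chi(u/ε) η²`; `∫ ζ th² (D + tF/|x|²) ≤ ∫ ζ th² div W = - ∫ ∇ζ · th² W - ∫ ζ ∇(th²)·W`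
(`Sol.ibp_kcut` with `Y = th² W`), `∇ζ = chi ∇η² + ε⁻¹ chi' η² q`; the `ε⁻¹` term is `≤ c` eventually
(`flux` for `η²`); let `ε → 0` (dominated convergence: all integrands are `≤ C_δ (1 + TT)`), `c → 0`.
Finally `∫ th² ∇η²·W = ∫ H ∑ x_i ∂_i(η²) = 0` with `H = th² (x·W)/|x|²` (`Sol.radial`,
`∇η = ρ x`). -/
theorem PCert.step1 {F : V n → ℝ} {W : Fin n → V n → ℝ} {ϖ t : ℝ} (h : Sol E u)
    (hc : PCert E u F W ϖ t) (h1 : 1 < ϖ) (h2 : ϖ ≤ 2) (ht : 0 < t) {η ρ : V n → ℝ} (hη : Tst η)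
    (hη0 : ∀ x, 0 ≤ η x) (hρ : ∀ i x, pd i η x = ρ x * x i) {δ : ℝ} (hδ : 0 < δ) :
    t * ∫ x in E, η x ^ 2 * th u δ x ^ 2 * (F x / ‖x‖ ^ 2) ≤
      - (∫ x in E, η x ^ 2 * ∑ k, 2 * th u δ x * pd k (th u δ) x * W k x)
      - ∫ x in E, η x ^ 2 * th u δ x ^ 2 *
          ((∑ k, (pd k F x) ^ 2) / (4 * F x) - ∑ k, pd k F x * w u k x - NN u x * F x) := by
  obtain ⟨a, b, ha, hab, hsupp⟩ := hη.ann
  obtain ⟨K, hK0, hK⟩ := hc.j03_bounds h (b := b) ha hδ
  have hζ : Tst (fun x => η x ^ 2) := j03_tst_sq hη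
  have hζc : Continuous (fun x => η x ^ 2) := hζ.smooth.continuous
  obtain ⟨M, hM⟩ := hζ.cpt.exists_bound_of_continuous hζc
  have hM' : ∀ x, |η x ^ 2| ≤ M := fun x => by
    have := hM x
    rwa [Real.norm_eq_abs] at this
  have hz0 : ∀ x, x ∉ (Ann a b : Set (V n)) → η x ^ 2 = 0 := by
    intro x hx
    have : η x = 0 := image_eq_zero_of_notMem_tsupport fun h => hx (hsupp h)
    rw [this]; simp
  have hsupp2 : tsupport (fun x => η x ^ 2) ⊆ (Ann a b : Set (V n)) := by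
    refine Subset.trans (closure_mono ?_) hsupp
    intro x hx
    rw [Function.mem_support] at hx ⊢
    intro h0
    exact hx (by rw [h0]; simp)
  have hY : ∀ k, ContDiffOn ℝ 1 (fun x => th u δ x ^ 2 * W k x) E := fun k =>
    (h.th_mul_smooth hδ one_le_top' (hc.W_smooth k)).2
  -- the three integrands
  have cP : ContinuousOn (fun x => th u δ x ^ 2 * (F x / ‖x‖ ^ 2)) E :=
    (h.th_mul_smooth hδ le_rfl (hc.j03_smooth_P h)).2.continuousOn
  have cR := hc.j03_cont_R h hδ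
  have cD : ContinuousOn (fun x => th u δ x ^ 2 * ((∑ k, (pd k F x) ^ 2) / (4 * F x)
      - ∑ k, pd k F x * w u k x - NN u x * F x)) E :=
    (h.th_mul_smooth hδ le_rfl (hc.j03_smooth_D h)).2.continuousOn
  have iP := h.j03_prod_int ha hζc hM' hz0 cP fun x hx hxA => (hK x hx hxA).1
  have iR := h.j03_prod_int ha hζc hM' hz0 cR fun x hx hxA => (hK x hx hxA).2.1
  have iD := h.j03_prod_int ha hζc hM' hz0 cD fun x hx hxA => (hK x hx hxA).2.2.1
  have iY : IntegrableOn (fun x => ∑ k, pd k (fun y => η y ^ 2) x * (th u δ x ^ 2 * W k x)) E := by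
    refine integrable_finsetSum _ fun k _ => ?_
    obtain ⟨Mk, hMk⟩ := j03_pd_bdd hζ k
    exact h.j03_prod_int ha (contDiff_pd (m := 0) hζ.smooth (by simp) k).continuous hMk
      (fun x hx => j03_pd_zero hsupp2 k hx) (hY k).continuousOn
      fun x hx hxA => (hK x hx hxA).2.2.2 k
  have hrad := hc.j03_radial h hη hρ hδ
  have ig : IntegrableOn (fun x => η x ^ 2 * (th u δ x ^ 2 * ((∑ k, (pd k F x) ^ 2) / (4 * F x)
      - ∑ k, pd k F x * w u k x - NN u x * F x)) + t * (η x ^ 2 * (th u δ x ^ 2 * (F x / ‖x‖ ^ 2)))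
      + η x ^ 2 * ∑ k, 2 * th u δ x * pd k (th u δ) x * W k x) E :=
    (iD.add (iP.const_mul t)).add iR
  have hle : ∀ ε : ℝ, 0 < ε →
      ∫ x in E, chi (u x / ε) * (η x ^ 2 * (th u δ x ^ 2 * ((∑ k, (pd k F x) ^ 2) / (4 * F x)
        - ∑ k, pd k F x * w u k x - NN u x * F x))
        + t * (η x ^ 2 * (th u δ x ^ 2 * (F x / ‖x‖ ^ 2)))
        + η x ^ 2 * ∑ k, 2 * th u δ x * pd k (th u δ) x * W k x)
      ≤ - (∫ x in E, chi (u x / ε) * ∑ k, pd k (fun y => η y ^ 2) x * (th u δ x ^ 2 * W k x))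
        - ε⁻¹ * ∫ x in E, deriv chi (u x / ε) * η x ^ 2 * (th u δ x ^ 2 * ∑ k, q u k x * W k x) := by
    intro ε hε
    have hibp := h.ibp_kcut chi_smooth (fun s hs => chi_eq_zero hs) hζ hε hY
    have e3 : (∫ x in E, deriv chi (u x / ε) * η x ^ 2 * (th u δ x ^ 2 * ∑ k, q u k x * W k x))
        = ∫ x in E, deriv chi (u x / ε) * η x ^ 2 * ∑ i, q u i x * (th u δ x ^ 2 * W i x) := by
      congr 1
      funext x
      congr 1
      rw [Finset.mul_sum]
      refine Finset.sum_congr rfl fun k _ => ?_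
      ring
    rw [e3, ← hibp]
    refine setIntegral_mono_on (h.j03_chi_int ig ε) ?_ h.isOpen.measurableSet fun x hx => ?_
    · obtain ⟨hk1, hk2⟩ := h.kcut_tst chi_smooth (fun s hs => chi_eq_zero hs) hζ hε
      refine (integrable_mul_of_tsupport h.isOpen hk1.smooth.continuous hk1.cpt hk2
        ?_).integrableOn
      refine continuousOn_finsetSum _ fun k _ => ?_
      exact (contDiffOn_pd (m := 0) h.isOpen (hY k) (by simp) k).continuousOn
    · have h1 := hc.j03_div h hδ hx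
      have h2 : 0 ≤ chi (u x / ε) * η x ^ 2 := mul_nonneg (chi_nonneg _) (sq_nonneg _)
      have h3 := mul_le_mul_of_nonneg_left h1 h2
      refine le_trans (le_of_eq ?_) h3
      ring
  have hmain : ∫ x in E, (η x ^ 2 * (th u δ x ^ 2 * ((∑ k, (pd k F x) ^ 2) / (4 * F x)
        - ∑ k, pd k F x * w u k x - NN u x * F x))
        + t * (η x ^ 2 * (th u δ x ^ 2 * (F x / ‖x‖ ^ 2)))
        + η x ^ 2 * ∑ k, 2 * th u δ x * pd k (th u δ) x * W k x) ≤ 0 := by
    refine le_of_forall_pos_le_add fun c hc0 => ?_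
    have l1 := h.j03_dct ig
    have l2 := h.j03_dct iY
    rw [hrad] at l2
    have hfl := hc.flux (fun x => η x ^ 2) hζ (fun x => sq_nonneg _) δ hδ c hc0
    have l3 : Tendsto (fun ε : ℝ =>
        - (∫ x in E, chi (u x / ε) * ∑ k, pd k (fun y => η y ^ 2) x * (th u δ x ^ 2 * W k x)) + c)
        (𝓝[>] (0 : ℝ)) (𝓝 (-0 + c)) := l2.neg.add_const c
    rw [neg_zero] at l3
    refine le_of_tendsto_of_tendsto l1 l3 ?_
    filter_upwards [hfl, self_mem_nhdsWithin] with ε h1 h2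
    have := hle ε h2
    linarith
  have hsplit : ∫ x in E, (η x ^ 2 * (th u δ x ^ 2 * ((∑ k, (pd k F x) ^ 2) / (4 * F x)
        - ∑ k, pd k F x * w u k x - NN u x * F x))
        + t * (η x ^ 2 * (th u δ x ^ 2 * (F x / ‖x‖ ^ 2)))
        + η x ^ 2 * ∑ k, 2 * th u δ x * pd k (th u δ) x * W k x)
      = (∫ x in E, η x ^ 2 * (th u δ x ^ 2 * ((∑ k, (pd k F x) ^ 2) / (4 * F x)
        - ∑ k, pd k F x * w u k x - NN u x * F x)))
        + t * (∫ x in E, η x ^ 2 * (th u δ x ^ 2 * (F x / ‖x‖ ^ 2)))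
        + ∫ x in E, η x ^ 2 * ∑ k, 2 * th u δ x * pd k (th u δ) x * W k x := by
    have s1 := integral_add (iD.add (iP.const_mul t)) iR
    have s2 := integral_add iD (iP.const_mul t)
    have s3 := integral_const_mul (μ := volume.restrict E) t
      (fun x => η x ^ 2 * (th u δ x ^ 2 * (F x / ‖x‖ ^ 2)))
    simp only [Pi.add_apply] at s1 s2
    rw [s1, s2, s3]
  rw [hsplit] at hmain
  have r1 : ∀ G : V n → ℝ, ∫ x in E, η x ^ 2 * th u δ x ^ 2 * G x
      = ∫ x in E, η x ^ 2 * (th u δ x ^ 2 * G x) := by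
    intro G
    congr 1
    funext x
    ring
  rw [r1 (fun x => F x / ‖x‖ ^ 2), r1 (fun x => (∑ k, (pd k F x) ^ 2) / (4 * F x)
    - ∑ k, pd k F x * w u k x - NN u x * F x)]
  linarith

end OPC
end
end
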