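import Pool.Agent.Lib.MP_9059b8_an.J03
import Pool.Agent.Lib.MP_9059b8_an.P03
import Pool.Agent.Lib.MP_9059b8_an.F02
import Pool.Agent.Lib.MP_9059b8_an.H08

section

/-! # I03: the error integral near S = 0 -/

open MeasureTheory Set Filter Topology

namespace OPC

variable {n : ℕ} {E : Set (V n)} {u : V n → ℝ}

private lemma meas_pd (f : V n → ℝ) (i : Fin n) : Measurable (pd i f) :=
  measurable_fderiv_apply_const ℝ f (e i)

private lemma meas_NN (u : V n → ℝ) : Measurable (NN u) := by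
  unfold NN
  refine Finset.measurable_fun_sum _ fun i _ => Finset.measurable_fun_sum _ fun j _ => ?_
  exact (meas_pd _ _).pow_const 2

private lemma meas_TT (u : V n → ℝ) : Measurable (TT u) := by
  unfold TT
  refine Finset.measurable_fun_sum _ fun i _ => Finset.measurable_fun_sum _ fun j _ =>
    Finset.measurable_fun_sum _ fun k _ => ?_
  exact (meas_pd _ _).pow_const 2

private lemma NN_nonneg (u : V n → ℝ) (x : V n) : 0 ≤ NN u x :=
  Finset.sum_nonneg fun _ _ => Finset.sum_nonneg fun _ _ => sq_nonneg _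

private lemma TT_nonneg (u : V n → ℝ) (x : V n) : 0 ≤ TT u x :=
  Finset.sum_nonneg fun _ _ => Finset.sum_nonneg fun _ _ => Finset.sum_nonneg fun _ _ =>
    sq_nonneg _

private lemma meas_Ann (a b : ℝ) : MeasurableSet (Ann a b : Set (V n)) :=
  (measurableSet_le measurable_const measurable_norm).inter
    (measurableSet_le measurable_norm measurable_const)

private lemma vol_Ann (a b : ℝ) : volume (Ann a b : Set (V n)) < ⊤ := by
  refine lt_of_le_of_lt (measure_mono (t := Metric.closedBall (0 : V n) b) ?_)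
    measure_closedBall_lt_top
  intro x hx
  rw [mem_closedBall_zero_iff]
  exact hx.2

/-- The error tends to `0` as `δ → 0` (dominated convergence: the sets decrease to `∅`). -/
theorem Sol.errS_tendsto (h : Sol E u) {a b : ℝ} (ha : 0 < a) {ϖ : ℝ} (h1 : 1 < ϖ) (h2 : ϖ ≤ 2) :
    Tendsto (fun δ : ℝ => errS E u ϖ a b δ) (𝓝[>] 0) (𝓝 0) := by
  classical
  set A : Set (V n) := E ∩ Ann a b ∩ {x | NN u x ≠ 0} with hA
  set f : V n → ℝ := fun x => NN u x ^ (ϖ / 2 - 1) * TT u x + NN u x ^ (ϖ / 2) with hf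
  have hAm : MeasurableSet A :=
    (h.isOpen.measurableSet.inter (meas_Ann a b)).inter
      ((meas_NN u) (measurableSet_singleton (0 : ℝ)).compl)
  have hfm : Measurable f :=
    ((((meas_NN u).pow_const _).mul (meas_TT u))).add ((meas_NN u).pow_const _)
  obtain ⟨C, c, hC, hc, hCb⟩ := h.bounds (b := b) ha
  have hp : 0 ≤ ϖ / 2 := by linarith
  have hint : IntegrableOn f A := by
    refine (h.int_pow ha h1 h2).add ?_
    refine Measure.integrableOn_of_bounded (M := C ^ (ϖ / 2)) ?_ ?_ ?_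
    · exact ((measure_mono (fun x hx => hx.1.2)).trans_lt (vol_Ann a b)).ne
    · exact ((meas_NN u).pow_const _).aestronglyMeasurable
    · refine (ae_restrict_iff' hAm).mpr (Eventually.of_forall fun x hx => ?_)
      have hN : NN u x ≤ C := (hCb x hx.1.1 hx.1.2).2.2.2.2.2.2.2.1
      rw [Real.norm_eq_abs, abs_of_nonneg (Real.rpow_nonneg (NN_nonneg u x) _)]
      exact Real.rpow_le_rpow (NN_nonneg u x) hN hp
  have hf0 : ∀ x, 0 ≤ f x := fun x =>
    add_nonneg (mul_nonneg (Real.rpow_nonneg (NN_nonneg u x) _) (TT_nonneg u x))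
      (Real.rpow_nonneg (NN_nonneg u x) _)
  have hBm : ∀ δ : ℝ, MeasurableSet {x : V n | ‖x‖ ^ 2 * NN u x < 2 * δ} := fun δ =>
    measurableSet_lt ((measurable_norm.pow_const 2).mul (meas_NN u)) measurable_const
  have herr : ∀ δ : ℝ, errS E u ϖ a b δ
      = ∫ x in A, {x : V n | ‖x‖ ^ 2 * NN u x < 2 * δ}.indicator f x := by
    intro δ
    rw [setIntegral_indicator (hBm δ)]
    rfl
  have hlim : Tendsto (fun δ : ℝ => ∫ x in A, {x : V n | ‖x‖ ^ 2 * NN u x < 2 * δ}.indicator f x)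
      (𝓝[>] 0) (𝓝 (∫ x in A, (fun _ : V n => (0 : ℝ)) x)) := by
    refine tendsto_integral_filter_of_dominated_convergence f ?_ ?_ hint ?_
    · exact Eventually.of_forall fun δ => (hfm.indicator (hBm δ)).aestronglyMeasurable
    · refine Eventually.of_forall fun δ => Eventually.of_forall fun x => ?_
      rw [Real.norm_eq_abs, abs_of_nonneg (indicator_nonneg (fun y _ => hf0 y) x)]
      exact indicator_le_self' (fun y _ => hf0 y) x
    · refine (ae_restrict_iff' hAm).mpr (Eventually.of_forall fun x hx => ?_)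
      have hx0 : 0 < ‖x‖ := lt_of_lt_of_le ha hx.1.2.1
      have hN : 0 < NN u x := lt_of_le_of_ne (NN_nonneg u x) (Ne.symm hx.2)
      have hpos : 0 < ‖x‖ ^ 2 * NN u x / 2 := by positivity
      refine tendsto_const_nhds.congr' ?_
      have hev : ∀ᶠ δ : ℝ in 𝓝[>] 0, δ < ‖x‖ ^ 2 * NN u x / 2 :=
        nhdsWithin_le_nhds (gt_mem_nhds hpos)
      filter_upwards [hev] with δ hδ
      rw [indicator_of_notMem]
      intro hmem
      have hmem' : ‖x‖ ^ 2 * NN u x < 2 * δ := hmem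
      linarith
  have h0 : (∫ x in A, (fun _ : V n => (0 : ℝ)) x) = 0 := by simp
  rw [h0] at hlim
  exact hlim.congr fun δ => (herr δ).symm

end OPC
end

section

/-! # J04: stability side -/

open MeasureTheory Set Filter Topology

namespace OPC

variable {n : ℕ} {E : Set (V n)} {u : V n → ℝ}

/-- the set where the cutoffs do not vanish -/
private def J04_s (E : Set (V n)) (u : V n → ℝ) (a b δ : ℝ) : Set (V n) :=
  {x | x ∈ E ∧ x ∈ (Ann a b : Set (V n)) ∧ δ ≤ ‖x‖ ^ 2 * NN u x}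

private theorem J04_measAnn (a b : ℝ) : MeasurableSet (Ann a b : Set (V n)) := by
  have h1 : IsClosed (Ann a b : Set (V n)) :=
    (isClosed_le continuous_const continuous_norm).inter
      (isClosed_le continuous_norm continuous_const)
  exact h1.measurableSet

private theorem J04_volAnn (a b : ℝ) (E : Set (V n)) : volume (E ∩ Ann a b) < ⊤ := by
  have h1 : E ∩ Ann a b ⊆ Metric.closedBall (0 : V n) b := by
    intro x hx
    rw [mem_closedBall_zero_iff]
    exact hx.2.2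
  exact lt_of_le_of_lt (measure_mono h1) measure_closedBall_lt_top

private theorem J04_open (h : Sol E u) : IsOpen (E ∩ {x | NN u x ≠ 0}) :=
  h.smooth_NN.continuousOn.isOpen_inter_preimage h.isOpen isOpen_ne

/-- integrability on annuli -/
private theorem J04_int (h : Sol E u) {a b δ : ℝ} (ha : 0 < a) {f : V n → ℝ}
    (hf : ContinuousOn f (E ∩ {x | NN u x ≠ 0}))
    (h0 : ∀ x ∈ E, x ∈ (Ann a b : Set (V n)) → x ∉ J04_s E u a b δ → f x = 0)
    (h00 : ∀ x ∈ E, NN u x = 0 → f x = 0)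
    {K : ℝ} (hK : ∀ x ∈ J04_s E u a b δ, |f x| ≤ K * (1 + √(TT u x)) ^ 2) :
    IntegrableOn f (E ∩ Ann a b) := by
  have hms : MeasurableSet (E ∩ Ann a b) := h.isOpen.measurableSet.inter (J04_measAnn a b)
  have hms' : MeasurableSet ((E ∩ {x | NN u x ≠ 0}) ∩ Ann a b) :=
    (J04_open h).measurableSet.inter (J04_measAnn a b)
  have hG : IntegrableOn (fun x => |K| * (2 * TT u x + 2)) (E ∩ Ann a b) := by
    have h2 := (h.int_TT (a := a) (b := b) ha).const_mul 2
    have h3 : IntegrableOn (fun _ : V n => (2 : ℝ)) (E ∩ Ann a b) :=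
      integrableOn_const (J04_volAnn a b E).ne
    exact (h2.add h3).const_mul |K|
  have hs1 : IntegrableOn f ((E ∩ {x | NN u x ≠ 0}) ∩ Ann a b) := by
    have hG' : IntegrableOn (fun x => |K| * (2 * TT u x + 2)) ((E ∩ {x | NN u x ≠ 0}) ∩ Ann a b) :=
      hG.mono_set fun x hx => ⟨hx.1.1, hx.2⟩
    refine Integrable.mono' hG' ((hf.mono inter_subset_left).aestronglyMeasurable hms') ?_
    rw [ae_restrict_iff' hms']
    refine Eventually.of_forall fun x hx => ?_
    have hT : 0 ≤ TT u x := Finset.sum_nonneg fun _ _ => Finset.sum_nonneg fun _ _ =>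
      Finset.sum_nonneg fun _ _ => sq_nonneg _
    rw [Real.norm_eq_abs]
    by_cases hxs : x ∈ J04_s E u a b δ
    · have h1 := hK x hxs
      have h2 : √(TT u x) ^ 2 = TT u x := Real.sq_sqrt hT
      have h3 : (1 + √(TT u x)) ^ 2 ≤ 2 * TT u x + 2 := by
        nlinarith [sq_nonneg (1 - √(TT u x))]
      calc |f x| ≤ K * (1 + √(TT u x)) ^ 2 := h1
        _ ≤ |K| * (1 + √(TT u x)) ^ 2 := mul_le_mul_of_nonneg_right (le_abs_self K) (sq_nonneg _)
        _ ≤ |K| * (2 * TT u x + 2) := mul_le_mul_of_nonneg_left h3 (abs_nonneg _)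
    · rw [h0 x hx.1.1 hx.2 hxs, abs_zero]
      have := abs_nonneg K
      positivity
  refine IntegrableOn.of_forall_sdiff_eq_zero hs1 hms fun x hx => ?_
  apply h00 x hx.1.1
  by_contra hne
  exact hx.2 ⟨⟨hx.1.1, hne⟩, hx.1.2⟩

/-- polynomial bounds in `1 + |T|` on the set `s` -/
private def J04_B (s : Set (V n)) (u : V n → ℝ) (p : ℕ) (f : V n → ℝ) : Prop :=
  ∃ K, 0 ≤ K ∧ ∀ x ∈ s, |f x| ≤ K * (1 + √(TT u x)) ^ p

private theorem J04_B.mono {s : Set (V n)} {p q : ℕ} {f : V n → ℝ} (h : J04_B s u p f)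
    (hpq : p ≤ q) : J04_B s u q f := by
  obtain ⟨K, hK, hb⟩ := h
  refine ⟨K, hK, fun x hx => (hb x hx).trans (mul_le_mul_of_nonneg_left ?_ hK)⟩
  exact pow_le_pow_right₀ (by linarith [Real.sqrt_nonneg (TT u x)]) hpq

private theorem J04_B.mul {s : Set (V n)} {p q : ℕ} {f g : V n → ℝ} (h : J04_B s u p f)
    (h' : J04_B s u q g) : J04_B s u (p + q) (fun x => f x * g x) := by
  obtain ⟨K, hK, hb⟩ := h
  obtain ⟨K', hK', hb'⟩ := h'
  refine ⟨K * K', mul_nonneg hK hK', fun x hx => ?_⟩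
  have hP : 0 ≤ 1 + √(TT u x) := by linarith [Real.sqrt_nonneg (TT u x)]
  rw [abs_mul, pow_add]
  calc |f x| * |g x| ≤ (K * (1 + √(TT u x)) ^ p) * (K' * (1 + √(TT u x)) ^ q) :=
        mul_le_mul (hb x hx) (hb' x hx) (abs_nonneg _) (mul_nonneg hK (pow_nonneg hP _))
    _ = K * K' * ((1 + √(TT u x)) ^ p * (1 + √(TT u x)) ^ q) := by ring

private theorem J04_B.sq {s : Set (V n)} {p : ℕ} {f : V n → ℝ} (h : J04_B s u p f) :
    J04_B s u (p + p) (fun x => f x ^ 2) := by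
  simp_rw [pow_two]
  exact h.mul h

private theorem J04_B.add {s : Set (V n)} {p : ℕ} {f g : V n → ℝ} (h : J04_B s u p f)
    (h' : J04_B s u p g) : J04_B s u p (fun x => f x + g x) := by
  obtain ⟨K, hK, hb⟩ := h
  obtain ⟨K', hK', hb'⟩ := h'
  refine ⟨K + K', add_nonneg hK hK', fun x hx => ?_⟩
  rw [add_mul]
  exact (abs_add_le _ _).trans (add_le_add (hb x hx) (hb' x hx))

private theorem J04_B.sub {s : Set (V n)} {p : ℕ} {f g : V n → ℝ} (h : J04_B s u p f)
    (h' : J04_B s u p g) : J04_B s u p (fun x => f x - g x) := by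
  obtain ⟨K, hK, hb⟩ := h
  obtain ⟨K', hK', hb'⟩ := h'
  refine ⟨K + K', add_nonneg hK hK', fun x hx => ?_⟩
  rw [add_mul]
  exact (abs_sub _ _).trans (add_le_add (hb x hx) (hb' x hx))

private theorem J04_B.const (s : Set (V n)) (c : ℝ) : J04_B s u 0 (fun _ => c) :=
  ⟨|c|, abs_nonneg c, fun x _ => by simp⟩

private theorem J04_B.sum {s : Set (V n)} {p : ℕ} {f : Fin n → V n → ℝ}
    (h : ∀ k, J04_B s u p (f k)) : J04_B s u p (fun x => ∑ k, f k x) := by
  choose K hK hb using h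
  refine ⟨∑ k, K k, Finset.sum_nonneg fun k _ => hK k, fun x hx => ?_⟩
  rw [Finset.sum_mul]
  exact (Finset.abs_sum_le_sum_abs _ _).trans (Finset.sum_le_sum fun k _ => hb k x hx)

private theorem J04_bounds {F : V n → ℝ} {W : Fin n → V n → ℝ} {ϖ t : ℝ} (h : Sol E u)
    (hc : PCert E u F W ϖ t) (h1 : 1 < ϖ) (h2 : ϖ ≤ 2) {a b δ : ℝ} (ha : 0 < a) (hδ : 0 < δ) :
    J04_B (J04_s E u a b δ) u 0 F ∧ J04_B (J04_s E u a b δ) u 0 (fun x => (F x)⁻¹) ∧
      (∀ k, J04_B (J04_s E u a b δ) u 1 (pd k F)) ∧ J04_B (J04_s E u a b δ) u 0 (th u δ) ∧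
      (∀ k, J04_B (J04_s E u a b δ) u 1 (pd k (th u δ))) ∧
      (∀ k, J04_B (J04_s E u a b δ) u 0 (w u k)) ∧ J04_B (J04_s E u a b δ) u 0 (NN u) := by
  obtain ⟨C, hC, hg⟩ := hc.growth a b ha
  obtain ⟨C1, c1, hC1, hc1, hb⟩ := h.bounds (a := a) (b := b) ha
  obtain ⟨C2, hC2, hth⟩ := h.pd_th_le (a := a) (b := b) ha
  have hC0 : 0 < C := by linarith
  have hC10 : 0 < C1 := by linarith
  have key : ∀ x ∈ J04_s E u a b δ, 0 < b ∧ 0 < δ / b ^ 2 ∧ δ / b ^ 2 ≤ NN u x ∧ NN u x ≤ C1 := by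
    intro x hx
    obtain ⟨hxE, hxA, hxδ⟩ := hx
    have hx0 : 0 < ‖x‖ := lt_of_lt_of_le ha hxA.1
    have hb0 : 0 < b := lt_of_lt_of_le hx0 hxA.2
    refine ⟨hb0, by positivity, ?_, (hb x hxE hxA).2.2.2.2.2.2.2.1⟩
    rw [div_le_iff₀ (by positivity)]
    have hN : 0 ≤ NN u x := Finset.sum_nonneg fun _ _ => Finset.sum_nonneg fun _ _ => sq_nonneg _
    have h3 : ‖x‖ ^ 2 ≤ b ^ 2 := pow_le_pow_left₀ hx0.le hxA.2 2
    nlinarith [mul_le_mul_of_nonneg_left h3 hN]
  have kpow : ∀ x ∈ J04_s E u a b δ, ∀ r : ℝ, 0 ≤ r → r ≤ 1 → NN u x ^ r ≤ C1 := by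
    intro x hx r hr0 hr1
    obtain ⟨hb0, hm, hmN, hNC⟩ := key x hx
    have hN : 0 ≤ NN u x := hm.le.trans hmN
    calc NN u x ^ r ≤ C1 ^ r := Real.rpow_le_rpow hN hNC hr0
      _ ≤ C1 ^ (1 : ℝ) := Real.rpow_le_rpow_of_exponent_le hC1 hr1
      _ = C1 := Real.rpow_one _
  have ksum : ∀ x ∈ J04_s E u a b δ, √(TT u x) + √(NN u x) ≤ C1 * (1 + √(TT u x)) := by
    intro x hx
    obtain ⟨hb0, hm, hmN, hNC⟩ := key x hx
    have h3 : √(NN u x) ≤ C1 := by
      rw [Real.sqrt_le_left hC10.le]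
      nlinarith
    nlinarith [Real.sqrt_nonneg (TT u x)]
  refine ⟨?_, ?_, ?_, ?_, ?_, ?_, ?_⟩
  · refine ⟨C * C1, by positivity, fun x hx => ?_⟩
    obtain ⟨hb0, hm, hmN, hNC⟩ := key x hx
    have hN : 0 < NN u x := hm.trans_le hmN
    obtain ⟨g1, g2, g3, g4⟩ := hg x hx.1 hx.2.1 hN.ne'
    have hF : 0 ≤ F x := le_trans (by positivity) g1
    rw [abs_of_nonneg hF, pow_zero, mul_one]
    exact g2.trans (mul_le_mul_of_nonneg_left (kpow x hx _ (by linarith) (by linarith)) hC0.le)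
  · refine ⟨(C⁻¹ * (δ / b ^ 2) ^ (ϖ / 2))⁻¹, ?_, fun x hx => ?_⟩
    · have : 0 ≤ (δ / b ^ 2) ^ (ϖ / 2) := Real.rpow_nonneg (by positivity) _
      positivity
    obtain ⟨hb0, hm, hmN, hNC⟩ := key x hx
    have hN : 0 < NN u x := hm.trans_le hmN
    obtain ⟨g1, g2, g3, g4⟩ := hg x hx.1 hx.2.1 hN.ne'
    have h3 : C⁻¹ * (δ / b ^ 2) ^ (ϖ / 2) ≤ F x :=
      (mul_le_mul_of_nonneg_left (Real.rpow_le_rpow hm.le hmN (by linarith)) (by positivity)).trans g1
    have h4 : 0 < C⁻¹ * (δ / b ^ 2) ^ (ϖ / 2) := by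
      have := Real.rpow_pos_of_pos hm (ϖ / 2)
      positivity
    rw [abs_of_pos (inv_pos.2 (h4.trans_le h3)), pow_zero, mul_one]
    exact inv_anti₀ h4 h3
  · intro k
    refine ⟨C * C1 * C1, by positivity, fun x hx => ?_⟩
    obtain ⟨hb0, hm, hmN, hNC⟩ := key x hx
    have hN : 0 < NN u x := hm.trans_le hmN
    obtain ⟨g1, g2, g3, g4⟩ := hg x hx.1 hx.2.1 hN.ne'
    have h3 := g3 k
    have h4 := kpow x hx ((ϖ - 1) / 2) (by linarith) (by linarith)
    have h5 := ksum x hx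
    have h6 : 0 ≤ NN u x ^ ((ϖ - 1) / 2) := Real.rpow_nonneg hN.le _
    have h7 : 0 ≤ √(TT u x) + √(NN u x) := by positivity
    calc |pd k F x| ≤ C * NN u x ^ ((ϖ - 1) / 2) * (√(TT u x) + √(NN u x)) := h3
      _ ≤ C * C1 * (C1 * (1 + √(TT u x))) := by
          apply mul_le_mul (mul_le_mul_of_nonneg_left h4 hC0.le) h5 h7 (by positivity)
      _ = C * C1 * C1 * (1 + √(TT u x)) ^ 1 := by ring
  · refine ⟨1, zero_le_one, fun x hx => ?_⟩
    rw [pow_zero, mul_one, th, abs_of_nonneg (chi_nonneg _)]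
    exact chi_le_one _
  · intro k
    refine ⟨C2 * C1 / √(δ / b ^ 2), by positivity, fun x hx => ?_⟩
    obtain ⟨hb0, hm, hmN, hNC⟩ := key x hx
    have h3 := (hth δ hδ x hx.1 hx.2.1 k).1
    have h4 := ksum x hx
    have h5 : 0 < √(δ / b ^ 2) := Real.sqrt_pos.2 hm
    have h6 : √(δ / b ^ 2) ≤ √(NN u x) := Real.sqrt_le_sqrt hmN
    rw [div_mul_eq_mul_div, le_div_iff₀ h5, pow_one]
    calc |pd k (th u δ) x| * √(δ / b ^ 2) ≤ |pd k (th u δ) x| * √(NN u x) :=
          mul_le_mul_of_nonneg_left h6 (abs_nonneg _)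
      _ ≤ C2 * (√(TT u x) + √(NN u x)) := h3
      _ ≤ C2 * (C1 * (1 + √(TT u x))) := mul_le_mul_of_nonneg_left h4 hC2.le
      _ = C2 * C1 * (1 + √(TT u x)) := by ring
  · intro k
    refine ⟨C1, hC10.le, fun x hx => ?_⟩
    rw [pow_zero, mul_one]
    exact (hb x hx.1 hx.2.1).2.2.1 k
  · refine ⟨C1, hC10.le, fun x hx => ?_⟩
    obtain ⟨hb0, hm, hmN, hNC⟩ := key x hx
    rw [pow_zero, mul_one, abs_of_nonneg (hm.le.trans hmN)]
    exact hNC

/-- near the points of `E` outside `s` one of the cutoffs vanishes -/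
private theorem J04_off (h : Sol E u) {η : V n → ℝ} {a b : ℝ} (hs : tsupport η ⊆ Ann a b) {δ : ℝ}
    (hδ : 0 < δ) {x : V n} (hx : x ∈ E) (hxs : x ∉ J04_s E u a b δ) :
    (η =ᶠ[𝓝 x] fun _ => 0) ∨ (th u δ =ᶠ[𝓝 x] fun _ => 0) := by
  by_cases hxA : x ∈ (Ann a b : Set (V n))
  · right
    have hlt : ‖x‖ ^ 2 * NN u x < δ := by
      by_contra hcon
      exact hxs ⟨hx, hxA, not_lt.1 hcon⟩
    have hcont : ContinuousAt (fun y : V n => ‖y‖ ^ 2 * NN u y) x :=
      ((continuous_norm.pow 2).continuousAt).mul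
        (h.smooth_NN.continuousOn.continuousAt (h.isOpen.mem_nhds hx))
    filter_upwards [hcont.eventually_lt_const hlt] with y hy
    unfold th
    apply chi_eq_zero
    rw [div_le_one hδ]
    exact hy.le
  · left
    have h1 : x ∉ tsupport η := fun hh => hxA (hs hh)
    rw [notMem_tsupport_iff_eventuallyEq] at h1
    exact h1

private theorem J04_th0 {δ : ℝ} (hδ : 0 < δ) {x : V n} (hx : ‖x‖ ^ 2 * NN u x ≤ δ) :
    th u δ x = 0 := by
  unfold th
  apply chi_eq_zero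
  rw [div_le_one hδ]
  exact hx

private theorem J04_off' {a b δ : ℝ} (hδ : 0 < δ) {x : V n} (hx : x ∈ E)
    (hxA : x ∈ (Ann a b : Set (V n))) (hxs : x ∉ J04_s E u a b δ) : th u δ x = 0 := by
  apply J04_th0 hδ
  by_contra hcon
  exact hxs ⟨hx, hxA, (not_le.1 hcon).le⟩

private theorem J04_pos {F : V n → ℝ} {W : Fin n → V n → ℝ} {ϖ t : ℝ} (h : Sol E u)
    (hc : PCert E u F W ϖ t) {x : V n} (hx : x ∈ E) (hN : NN u x ≠ 0) : 0 < F x := by
  have hx0 : 0 < ‖x‖ := norm_pos_iff.2 (h.ne_zero hx)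
  obtain ⟨C, hC, hg⟩ := hc.growth ‖x‖ ‖x‖ hx0
  have h1 := (hg x hx ⟨le_refl _, le_refl _⟩ hN).1
  have hN0 : 0 ≤ NN u x := Finset.sum_nonneg fun _ _ => Finset.sum_nonneg fun _ _ => sq_nonneg _
  have hN1 : 0 < NN u x := lt_of_le_of_ne hN0 (Ne.symm hN)
  have h2 : 0 < NN u x ^ (ϖ / 2) := Real.rpow_pos_of_pos hN1 _
  have hC0 : 0 < C := by linarith
  exact lt_of_lt_of_le (by positivity) h1

/-- the radial term -/
private theorem J04_H {F : V n → ℝ} {W : Fin n → V n → ℝ} {ϖ t : ℝ} (h : Sol E u)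
    (hc : PCert E u F W ϖ t) (h1 : 1 < ϖ) (h2 : ϖ ≤ 2) {δ : ℝ} (hδ : 0 < δ) :
    ContDiffOn ℝ (⊤ : ℕ∞) (fun x => th u δ x ^ 2 * F x * (‖x‖ ^ 2)⁻¹) E ∧
    (∀ s : ℝ, 0 < s → ∀ x ∈ E, th u δ (s • x) ^ 2 * F (s • x) * (‖s • x‖ ^ 2)⁻¹
      = s ^ (-(n : ℤ)) * (th u δ x ^ 2 * F x * (‖x‖ ^ 2)⁻¹)) ∧
    (∀ a b : ℝ, 0 < a → IntegrableOn (fun x => th u δ x ^ 2 * F x * (‖x‖ ^ 2)⁻¹) (E ∩ Ann a b) ∧
      J04_B (J04_s E u a b δ) u 0 (fun x => th u δ x ^ 2 * F x * (‖x‖ ^ 2)⁻¹)) := by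
  have hsm : ContDiffOn ℝ (⊤ : ℕ∞) (fun x => th u δ x ^ 2 * F x * (‖x‖ ^ 2)⁻¹) E := by
    refine ((h.th_mul_smooth hδ le_rfl hc.F_smooth).2).mul ?_
    refine ContDiffOn.inv (contDiff_norm_sq ℝ).contDiffOn fun x hx => ?_
    have := norm_pos_iff.2 (h.ne_zero hx)
    positivity
  refine ⟨hsm, ?_, ?_⟩
  · intro s hs x hx
    rw [h.th_hom δ s hs x hx]
    by_cases hN : NN u x = 0
    · have h0 : th u δ x = 0 := J04_th0 hδ (by rw [hN, mul_zero]; exact hδ.le)
      rw [h0]; ring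
    · rw [hc.F_hom s hs x hx hN, norm_smul, Real.norm_eq_abs, abs_of_pos hs]
      have hx0 : ‖x‖ ≠ 0 := (norm_pos_iff.2 (h.ne_zero hx)).ne'
      have e1 : s ^ (2 - (n : ℤ)) = s ^ 2 * s ^ (-(n : ℤ)) := by
        rw [sub_eq_add_neg, zpow_add₀ hs.ne']
        norm_cast
      rw [e1]
      field_simp
  · intro a b ha
    obtain ⟨bF, bFi, bdF, bt, bdt, bw, bN⟩ := J04_bounds (b := b) h hc h1 h2 ha hδ
    have hinv : J04_B (J04_s E u a b δ) u 0 (fun x => (‖x‖ ^ 2)⁻¹) := by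
      refine ⟨(a ^ 2)⁻¹, by positivity, fun x hx => ?_⟩
      have h3 := hx.2.1.1
      rw [pow_zero, mul_one, abs_of_nonneg (by positivity)]
      exact inv_anti₀ (by positivity) (pow_le_pow_left₀ ha.le h3 2)
    have hB : J04_B (J04_s E u a b δ) u 0 (fun x => th u δ x ^ 2 * F x * (‖x‖ ^ 2)⁻¹) :=
      (bt.sq.mul bF).mul hinv
    refine ⟨?_, hB⟩
    obtain ⟨K, hK, hb⟩ := hB.mono (Nat.zero_le 2)
    refine J04_int h ha (hsm.continuousOn.mono inter_subset_left) ?_ ?_ hb (δ := δ)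
    · intro x hx hxA hxs
      rw [J04_off' hδ hx hxA hxs]; ring
    · intro x hx hN
      rw [J04_th0 hδ (by rw [hN, mul_zero]; exact hδ.le)]; ring

/-- derivative of `φ` on `{S ≠ 0}` -/
private theorem J04_pd {F : V n → ℝ} {W : Fin n → V n → ℝ} {ϖ t : ℝ} (h : Sol E u)
    (hc : PCert E u F W ϖ t) {η : V n → ℝ} (hη : Tst η) {δ : ℝ} (hδ : 0 < δ) {x : V n}
    (hx : x ∈ E) (hN : NN u x ≠ 0) (i : Fin n) :
    pd i (fun y => η y * (th u δ y * √(F y))) x =
      pd i η x * (th u δ x * √(F x))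
        + η x * (pd i (th u δ) x * √(F x) + th u δ x * (pd i F x / (2 * √(F x)))) := by
  have hF := J04_pos h hc hx hN
  have hFd : DifferentiableAt ℝ F x :=
    (hc.F_smooth.contDiffAt ((J04_open h).mem_nhds ⟨hx, hN⟩)).differentiableAt (by simp)
  have hsq : DifferentiableAt ℝ (fun s : ℝ => √s) (F x) := (Real.hasDerivAt_sqrt hF.ne').differentiableAt
  have hψ : DifferentiableAt ℝ (fun y => √(F y)) x := hFd.sqrt hF.ne'
  have hθ : DifferentiableAt ℝ (th u δ) x := diffAt h.isOpen (h.smooth_th hδ) hx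
  have hηd : DifferentiableAt ℝ η x := (hη.smooth.differentiable (by simp)) x
  have e1 : pd i (fun y => √(F y)) x = pd i F x / (2 * √(F x)) := by
    have := pd_comp (φ := fun s : ℝ => √s) hsq hFd i
    rw [this, (Real.hasDerivAt_sqrt hF.ne').deriv]
    ring
  rw [pd_mul (g := fun y => th u δ y * √(F y)) hηd (hθ.mul hψ) i,
    pd_mul (g := fun y => √(F y)) hθ hψ i, e1]

/-- termwise algebra -/
private theorem J04_alg {η θ ψ Fx ρ c N M : ℝ} (hψ : 0 < ψ) (hF : Fx = ψ ^ 2)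
    {p t f w y : Fin n → ℝ} (hp : ∀ i, p i = ρ * y i) (hyt : ∑ i, y i * t i = 0)
    (hyf : ∑ i, y i * f i = c * Fx) (hyw : ∑ i, y i * w i = 0) (hM : ∑ i, y i ^ 2 = M)
    (hM0 : M ≠ 0) :
    (∑ i, (p i * (θ * ψ) + η * (t i * ψ + θ * (f i / (2 * ψ)))) ^ 2)
      - 2 * (η * (θ * ψ)) * (∑ i, (p i * (θ * ψ) + η * (t i * ψ + θ * (f i / (2 * ψ)))) * w i)
      - N * (η * (θ * ψ)) ^ 2 =
    η ^ 2 * θ ^ 2 * ((∑ k, (f k) ^ 2) / (4 * Fx) - ∑ k, f k * w k - N * Fx)
      + η ^ 2 * (∑ k, (θ * t k * f k + Fx * (t k) ^ 2 - 2 * Fx * θ * t k * w k))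
      + Fx * θ ^ 2 * ∑ k, (p k) ^ 2
      + (c / 2) * (θ ^ 2 * Fx * M⁻¹ * ∑ i, y i * (2 * η * p i)) := by
  have e1 : (∑ i, (p i * (θ * ψ) + η * (t i * ψ + θ * (f i / (2 * ψ)))) ^ 2)
      = θ ^ 2 * ψ ^ 2 * (∑ i, p i ^ 2) + 2 * η * θ * ψ ^ 2 * ρ * (∑ i, y i * t i)
        + η * θ ^ 2 * ρ * (∑ i, y i * f i) + η ^ 2 * ψ ^ 2 * (∑ i, t i ^ 2)
        + η ^ 2 * θ * (∑ i, t i * f i) + η ^ 2 * θ ^ 2 / (4 * ψ ^ 2) * (∑ i, f i ^ 2) := by
    simp only [Finset.mul_sum, ← Finset.sum_add_distrib]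
    refine Finset.sum_congr rfl fun i _ => ?_
    rw [hp i]
    field_simp
    ring
  have e2 : (∑ i, (p i * (θ * ψ) + η * (t i * ψ + θ * (f i / (2 * ψ)))) * w i)
      = θ * ψ * ρ * (∑ i, y i * w i) + η * ψ * (∑ i, t i * w i)
        + η * θ / (2 * ψ) * (∑ i, f i * w i) := by
    simp only [Finset.mul_sum, ← Finset.sum_add_distrib]
    refine Finset.sum_congr rfl fun i _ => ?_
    rw [hp i]
    field_simp
    ring
  have e3 : (∑ k, (θ * t k * f k + Fx * (t k) ^ 2 - 2 * Fx * θ * t k * w k))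
      = θ * (∑ i, t i * f i) + Fx * (∑ i, t i ^ 2) - 2 * Fx * θ * (∑ i, t i * w i) := by
    simp only [Finset.mul_sum, ← Finset.sum_add_distrib, ← Finset.sum_sub_distrib]
    refine Finset.sum_congr rfl fun i _ => ?_
    ring
  have e4 : ∑ i, y i * (2 * η * p i) = 2 * η * ρ * M := by
    rw [← hM, Finset.mul_sum]
    refine Finset.sum_congr rfl fun i _ => ?_
    rw [hp i]
    ring
  rw [e1, e2, e3, e4, hyt, hyf, hyw, hF]
  field_simp
  ring

private theorem J04_point {F : V n → ℝ} {W : Fin n → V n → ℝ} {ϖ t : ℝ} (h : Sol E u)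
    (hc : PCert E u F W ϖ t) {η ρ : V n → ℝ} (hη : Tst η)
    (hρ : ∀ i x, pd i η x = ρ x * x i) {a b : ℝ} (hs : tsupport η ⊆ Ann a b) {δ : ℝ} (hδ : 0 < δ)
    {x : V n} (hx : x ∈ E) :
    (∑ i, (pd i (fun y => η y * (th u δ y * √(F y))) x) ^ 2)
      - 2 * (η x * (th u δ x * √(F x))) *
        (∑ i, pd i (fun y => η y * (th u δ y * √(F y))) x * w u i x)
      - NN u x * (η x * (th u δ x * √(F x))) ^ 2 =
    η x ^ 2 * th u δ x ^ 2 *
        ((∑ k, (pd k F x) ^ 2) / (4 * F x) - ∑ k, pd k F x * w u k x - NN u x * F x)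
      + η x ^ 2 * (∑ k, (th u δ x * pd k (th u δ) x * pd k F x
          + F x * (pd k (th u δ) x) ^ 2 - 2 * F x * th u δ x * pd k (th u δ) x * w u k x))
      + F x * th u δ x ^ 2 * ∑ k, (pd k η x) ^ 2
      + ((2 - (n : ℝ)) / 2) * (th u δ x ^ 2 * F x * (‖x‖ ^ 2)⁻¹ *
          ∑ i, x i * pd i (fun y => η y ^ 2) x) := by
  have hηd : DifferentiableAt ℝ η x := (hη.smooth.differentiable (by simp)) x
  have hη2 : ∀ i, pd i (fun y => η y ^ 2) x = 2 * η x * pd i η x := by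
    intro i
    rw [pd_pow hηd]
    push_cast
    ring
  simp_rw [hη2]
  by_cases hxs : x ∈ J04_s E u a b δ
  · have hx0 : 0 < ‖x‖ := norm_pos_iff.2 (h.ne_zero hx)
    have hN : NN u x ≠ 0 := by
      intro h0
      have h3 := hxs.2.2
      rw [h0, mul_zero] at h3
      linarith
    have hF := J04_pos h hc hx hN
    simp_rw [J04_pd h hc hη hδ hx hN]
    have heul : ∑ i, x i * pd i F x = (2 - (n : ℝ)) * F x := by
      have := euler (J04_open h) (f := F)
        (fun y hy => (hc.F_smooth.contDiffAt ((J04_open h).mem_nhds hy)).differentiableAt (by simp))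
        (2 - (n : ℤ)) (fun s hs y hy => hc.F_hom s hs y hy.1 hy.2) x ⟨hx, hN⟩
      rw [this]
      push_cast
      ring
    exact J04_alg (ψ := √(F x)) (Real.sqrt_pos.2 hF) (Real.sq_sqrt hF.le).symm
      (fun i => hρ i x) (h.x_pd_th hδ hx) heul (h.x_w hx) (norm_sq_eq_sum x).symm (by positivity)
  · rcases J04_off h hs hδ hx hxs with h0 | h0
    · have h1 : (fun y => η y * (th u δ y * √(F y))) =ᶠ[𝓝 x] fun _ => 0 := by
        filter_upwards [h0] with y hy
        rw [hy, zero_mul]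
      have h2 : η x = 0 := h0.self_of_nhds
      simp [pd_zero_of_eventually h1, pd_zero_of_eventually h0, h2]
    · have h1 : (fun y => η y * (th u δ y * √(F y))) =ᶠ[𝓝 x] fun _ => 0 := by
        filter_upwards [h0] with y hy
        rw [hy, zero_mul, mul_zero]
      have h2 : th u δ x = 0 := h0.self_of_nhds
      simp [pd_zero_of_eventually h1, pd_zero_of_eventually h0, h2]

private theorem J04_ext (h : Sol E u) {a b : ℝ} {f : V n → ℝ} (hf : IntegrableOn f (E ∩ Ann a b))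
    (h0 : ∀ x ∈ E, x ∉ (Ann a b : Set (V n)) → f x = 0) : IntegrableOn f E := by
  refine IntegrableOn.of_forall_sdiff_eq_zero hf h.isOpen.measurableSet fun x hx => ?_
  exact h0 x hx.1 fun hA => hx.2 ⟨hx.1, hA⟩

/-- Step 2 (stability side): with `φ = η th √F`,
`0 ≤ ∫ η² th² D + ∫ η² (th ∇th·∇F + F|∇th|² - 2 F th ∇th·w) + ∫ F th² |∇η|²`.
Sketch: `Sol.stability` for `φ` (smooth on `E`, bounded, support in `Ann a b`, `∇φ ∈ L²` by
`Sol.int_TT`). With `ψ = √F`: `|∇φ|² = η²th²|∇F|²/(4F) + ½ ∇F·∇(η²th²) + F |∇(η th)|²`,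
`2φ∇φ·w = η²th² ∇F·w + F ∇(η²th²)·w`. Now `x·w = 0` (`Sol.x_w`), `∇η = ρ x`, `x·∇th = 0`
(`Sol.x_pd_th`), and `∫ ½ th² ∇F·∇η² = 0`: `x·∇F = (2-n) F` (Euler), so this is a multiple of
`∫ H ∑ x_i ∂_i (η²)`, `H = th² F/|x|²` (`Sol.radial`). -/
theorem PCert.step2 {F : V n → ℝ} {W : Fin n → V n → ℝ} {ϖ t : ℝ} (h : Sol E u) (hst : Stab u)
    (hn : 2 ≤ n) (hc : PCert E u F W ϖ t) (h1 : 1 < ϖ) (h2 : ϖ ≤ 2) {η ρ : V n → ℝ} (hη : Tst η)
    (hρ : ∀ i x, pd i η x = ρ x * x i) {a b : ℝ} (ha : 0 < a) (hb : b < 1)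
    (hs : tsupport η ⊆ Ann a b) {δ : ℝ} (hδ : 0 < δ) :
    0 ≤ (∫ x in E, η x ^ 2 * th u δ x ^ 2 *
          ((∑ k, (pd k F x) ^ 2) / (4 * F x) - ∑ k, pd k F x * w u k x - NN u x * F x))
      + (∫ x in E, η x ^ 2 * (∑ k, (th u δ x * pd k (th u δ) x * pd k F x
          + F x * (pd k (th u δ) x) ^ 2 - 2 * F x * th u δ x * pd k (th u δ) x * w u k x)))
      + ∫ x in E, F x * th u δ x ^ 2 * ∑ k, (pd k η x) ^ 2 := by
  have hEm : MeasurableSet E := h.isOpen.measurableSet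
  have hE' := J04_open h
  have hη1 : ContDiff ℝ 1 η := hη.smooth.of_le (by simp)
  have hηpd : ∀ k, Continuous (pd k η) := fun k => (contDiff_pd hη1 (m := 0) (by norm_num) k).continuous
  -- outside the annulus
  have hηA : ∀ x, x ∉ (Ann a b : Set (V n)) → η x = 0 ∧ ∀ k, pd k η x = 0 := by
    intro x hxA
    have h3 : x ∉ tsupport η := fun hh => hxA (hs hh)
    rw [notMem_tsupport_iff_eventuallyEq] at h3
    exact ⟨h3.self_of_nhds, fun k => pd_zero_of_eventually h3 k⟩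
  -- bounds
  obtain ⟨bF, bFi, bdF, bt, bdt, bw, bN⟩ := J04_bounds (b := b) h hc h1 h2 ha hδ
  have bη : J04_B (J04_s E u a b δ) u 0 η := by
    obtain ⟨K, hK⟩ := (hη.cpt.exists_bound_of_continuous hη1.continuous)
    refine ⟨|K|, abs_nonneg _, fun x _ => ?_⟩
    rw [pow_zero, mul_one]
    exact (hK x).trans (le_abs_self K)
  have bdη : ∀ k, J04_B (J04_s E u a b δ) u 0 (pd k η) := by
    intro k
    have hcp : HasCompactSupport (pd k η) := hη.cpt.fderiv_apply (𝕜 := ℝ) (e k)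
    obtain ⟨K, hK⟩ := hcp.exists_bound_of_continuous (hηpd k)
    refine ⟨|K|, abs_nonneg _, fun x _ => ?_⟩
    rw [pow_zero, mul_one]
    exact (hK x).trans (le_abs_self K)
  -- continuity
  have cF : ContinuousOn F (E ∩ {x | NN u x ≠ 0}) := hc.F_smooth.continuousOn
  have cdF : ∀ k, ContinuousOn (pd k F) (E ∩ {x | NN u x ≠ 0}) := fun k =>
    (contDiffOn_pd_top hE' hc.F_smooth k).continuousOn
  have ct : ContinuousOn (th u δ) (E ∩ {x | NN u x ≠ 0}) :=
    (h.smooth_th hδ).continuousOn.mono inter_subset_left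
  have cdt : ∀ k, ContinuousOn (pd k (th u δ)) (E ∩ {x | NN u x ≠ 0}) := fun k =>
    (contDiffOn_pd_top h.isOpen (h.smooth_th hδ) k).continuousOn.mono inter_subset_left
  have cw : ∀ k, ContinuousOn (w u k) (E ∩ {x | NN u x ≠ 0}) := fun k =>
    (h.smooth_w k).continuousOn.mono inter_subset_left
  have cN : ContinuousOn (NN u) (E ∩ {x | NN u x ≠ 0}) :=
    h.smooth_NN.continuousOn.mono inter_subset_left
  have cη : ContinuousOn η (E ∩ {x | NN u x ≠ 0}) := hη1.continuous.continuousOn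
  have cdη : ∀ k, ContinuousOn (pd k η) (E ∩ {x | NN u x ≠ 0}) := fun k => (hηpd k).continuousOn
  have hF0 : ∀ x ∈ E ∩ {x | NN u x ≠ 0}, 4 * F x ≠ 0 := fun x hx => by
    have := J04_pos h hc hx.1 hx.2
    positivity
  have t0 : ∀ x ∈ E, NN u x = 0 → th u δ x = 0 := fun x _ hN =>
    J04_th0 hδ (by rw [hN, mul_zero]; exact hδ.le)
  have hoff : ∀ x ∈ E, x ∉ J04_s E u a b δ → (η x = 0 ∧ ∀ k, pd k η x = 0) ∨
      (th u δ x = 0 ∧ ∀ k, pd k (th u δ) x = 0) := by
    intro x hx hxs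
    rcases J04_off h hs hδ hx hxs with h0 | h0
    · exact Or.inl ⟨h0.self_of_nhds, fun k => pd_zero_of_eventually h0 k⟩
    · exact Or.inr ⟨h0.self_of_nhds, fun k => pd_zero_of_eventually h0 k⟩
  have hNs : ∀ x, NN u x = 0 → x ∉ J04_s E u a b δ := by
    intro x hN hxs
    have h3 := hxs.2.2
    rw [hN, mul_zero] at h3
    linarith
  -- integrability of the three terms
  have i1 : IntegrableOn (fun x => η x ^ 2 * th u δ x ^ 2 *
      ((∑ k, (pd k F x) ^ 2) / (4 * F x) - ∑ k, pd k F x * w u k x - NN u x * F x)) E := by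
    have hz : ∀ x ∈ E, x ∉ J04_s E u a b δ → η x ^ 2 * th u δ x ^ 2 *
        ((∑ k, (pd k F x) ^ 2) / (4 * F x) - ∑ k, pd k F x * w u k x - NN u x * F x) = 0 := by
      intro x hx hxs
      rcases hoff x hx hxs with h0 | h0
      · rw [h0.1]; ring
      · rw [h0.1]; ring
    have hB : J04_B (J04_s E u a b δ) u 2 (fun x => η x ^ 2 * th u δ x ^ 2 *
        ((∑ k, (pd k F x) ^ 2) / (4 * F x) - ∑ k, pd k F x * w u k x - NN u x * F x)) := by
      have e1 : (fun x => η x ^ 2 * th u δ x ^ 2 *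
          ((∑ k, (pd k F x) ^ 2) / (4 * F x) - ∑ k, pd k F x * w u k x - NN u x * F x)) =
          fun x => η x ^ 2 * th u δ x ^ 2 *
          ((4⁻¹ * (∑ k, (pd k F x) ^ 2)) * (F x)⁻¹ - ∑ k, pd k F x * w u k x - NN u x * F x) := by
        funext x
        rw [div_eq_mul_inv, mul_inv]
        ring
      rw [e1]
      have b1 : J04_B (J04_s E u a b δ) u 2 (fun x => (4⁻¹ * (∑ k, (pd k F x) ^ 2)) * (F x)⁻¹) :=
        (((J04_B.const _ 4⁻¹).mul (J04_B.sum fun k => (bdF k).sq)).mul bFi)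
      have b2 : J04_B (J04_s E u a b δ) u 1 (fun x => ∑ k, pd k F x * w u k x) :=
        J04_B.sum fun k => (bdF k).mul (bw k)
      have b3 : J04_B (J04_s E u a b δ) u 0 (fun x => NN u x * F x) := bN.mul bF
      exact (bη.sq.mul bt.sq).mul ((b1.sub (b2.mono (by norm_num))).sub (b3.mono (by norm_num)))
    obtain ⟨K, hK, hb'⟩ := hB
    refine J04_ext h (J04_int h ha ?_ (fun x hx _ hxs => hz x hx hxs)
      (fun x hx hN => hz x hx (hNs x hN)) hb') fun x hx hxA => ?_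
    · exact ((cη.pow 2).mul (ct.pow 2)).mul
        ((((continuousOn_finsetSum _ fun k _ => (cdF k).pow 2).div (continuousOn_const.mul cF) hF0).sub
          (continuousOn_finsetSum _ fun k _ => (cdF k).mul (cw k))).sub (cN.mul cF))
    · rw [(hηA x hxA).1]; ring
  have i2 : IntegrableOn (fun x => η x ^ 2 * (∑ k, (th u δ x * pd k (th u δ) x * pd k F x
      + F x * (pd k (th u δ) x) ^ 2 - 2 * F x * th u δ x * pd k (th u δ) x * w u k x))) E := by
    have hz : ∀ x ∈ E, x ∉ J04_s E u a b δ → η x ^ 2 * (∑ k, (th u δ x * pd k (th u δ) x * pd k F x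
        + F x * (pd k (th u δ) x) ^ 2 - 2 * F x * th u δ x * pd k (th u δ) x * w u k x)) = 0 := by
      intro x hx hxs
      rcases hoff x hx hxs with h0 | h0
      · rw [h0.1]; ring
      · simp [h0.1, h0.2]
    have hB : J04_B (J04_s E u a b δ) u 2 (fun x => η x ^ 2 * (∑ k, (th u δ x * pd k (th u δ) x *
        pd k F x + F x * (pd k (th u δ) x) ^ 2
        - 2 * F x * th u δ x * pd k (th u δ) x * w u k x))) := by
      have b1 : ∀ k, J04_B (J04_s E u a b δ) u 2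
          (fun x => th u δ x * pd k (th u δ) x * pd k F x) := fun k => (bt.mul (bdt k)).mul (bdF k)
      have b2 : ∀ k, J04_B (J04_s E u a b δ) u 2
          (fun x => F x * (pd k (th u δ) x) ^ 2) := fun k => bF.mul (bdt k).sq
      have b3 : ∀ k, J04_B (J04_s E u a b δ) u 1
          (fun x => 2 * F x * th u δ x * pd k (th u δ) x * w u k x) := fun k =>
        ((((J04_B.const _ 2).mul bF).mul bt).mul (bdt k)).mul (bw k)
      exact bη.sq.mul (J04_B.sum fun k => ((b1 k).add (b2 k)).sub ((b3 k).mono (by norm_num)))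
    obtain ⟨K, hK, hb'⟩ := hB
    refine J04_ext h (J04_int h ha ?_ (fun x hx _ hxs => hz x hx hxs)
      (fun x hx hN => hz x hx (hNs x hN)) hb') fun x hx hxA => ?_
    · exact (cη.pow 2).mul (continuousOn_finsetSum _ fun k _ =>
        (((ct.mul (cdt k)).mul (cdF k)).add (cF.mul ((cdt k).pow 2))).sub
          ((((continuousOn_const.mul cF).mul ct).mul (cdt k)).mul (cw k)))
    · rw [(hηA x hxA).1]; ring
  have i3 : IntegrableOn (fun x => F x * th u δ x ^ 2 * ∑ k, (pd k η x) ^ 2) E := by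
    have hz : ∀ x ∈ E, x ∉ J04_s E u a b δ → F x * th u δ x ^ 2 * ∑ k, (pd k η x) ^ 2 = 0 := by
      intro x hx hxs
      rcases hoff x hx hxs with h0 | h0
      · simp [h0.2]
      · rw [h0.1]; ring
    have hB : J04_B (J04_s E u a b δ) u 0 (fun x => F x * th u δ x ^ 2 * ∑ k, (pd k η x) ^ 2) :=
      (bF.mul bt.sq).mul (J04_B.sum fun k => (bdη k).sq)
    obtain ⟨K, hK, hb'⟩ := hB.mono (Nat.zero_le 2)
    refine J04_ext h (J04_int h ha ?_ (fun x hx _ hxs => hz x hx hxs)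
      (fun x hx hN => hz x hx (hNs x hN)) hb') fun x hx hxA => ?_
    · exact (cF.mul (ct.pow 2)).mul (continuousOn_finsetSum _ fun k _ => (cdη k).pow 2)
    · simp [(hηA x hxA).2]
  -- the radial term
  obtain ⟨hHs, hHh, hHi⟩ := J04_H h hc h1 h2 hδ
  have hη2 : Tst (fun y => η y ^ 2) := by
    refine ⟨hη.smooth.pow 2, ?_, ?_⟩
    · exact hη.cpt.comp_left (g := fun s : ℝ => s ^ 2) (by norm_num)
    · intro h0
      apply hη.zero
      refine closure_mono ?_ h0
      intro y hy hy0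
      exact hy (by simp [hy0])
  have hrad := h.radial (hHs.of_le (by simp)) hHh (fun a' b' ha' => (hHi a' b' ha').1) hη2
  have i4 : IntegrableOn (fun x => th u δ x ^ 2 * F x * (‖x‖ ^ 2)⁻¹ *
      ∑ i, x i * pd i (fun y => η y ^ 2) x) E := by
    have hpd2 : ∀ i x, pd i (fun y => η y ^ 2) x = 2 * η x * pd i η x := by
      intro i x
      rw [pd_pow ((hη1.differentiable (by norm_num)) x)]
      push_cast
      ring
    simp_rw [hpd2]
    have hz : ∀ x ∈ E, x ∉ J04_s E u a b δ → th u δ x ^ 2 * F x * (‖x‖ ^ 2)⁻¹ *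
        ∑ i, x i * (2 * η x * pd i η x) = 0 := by
      intro x hx hxs
      rcases hoff x hx hxs with h0 | h0
      · simp [h0.1]
      · rw [h0.1]; ring
    have bx : ∀ i : Fin n, J04_B (J04_s E u a b δ) u 0 (fun x => x i) := by
      intro i
      refine ⟨|b|, abs_nonneg _, fun x hx => ?_⟩
      rw [pow_zero, mul_one]
      have h3 := PiLp.norm_apply_le x i
      rw [Real.norm_eq_abs] at h3
      exact (h3.trans hx.2.1.2).trans (le_abs_self b)
    have hB : J04_B (J04_s E u a b δ) u 0 (fun x => th u δ x ^ 2 * F x * (‖x‖ ^ 2)⁻¹ *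
        ∑ i, x i * (2 * η x * pd i η x)) :=
      (hHi a b ha).2.mul (J04_B.sum fun i => (bx i).mul (((J04_B.const _ 2).mul bη).mul (bdη i)))
    obtain ⟨K, hK, hb'⟩ := hB.mono (Nat.zero_le 2)
    refine J04_ext h (J04_int h ha ?_ (fun x hx _ hxs => hz x hx hxs)
      (fun x hx hN => hz x hx (hNs x hN)) hb') fun x hx hxA => ?_
    · exact (hHs.continuousOn.mono inter_subset_left).mul (continuousOn_finsetSum _ fun i _ =>
        (EuclideanSpace.proj i : V n →L[ℝ] ℝ).continuous.continuousOn.mul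
          ((continuousOn_const.mul cη).mul (cdη i)))
    · simp [(hηA x hxA).1]
  -- the test function
  have hφs : ContDiffOn ℝ (⊤ : ℕ∞) (fun y => η y * (th u δ y * √(F y))) E := by
    refine hη.smooth.contDiffOn.mul (h.th_mul_smooth hδ le_rfl ?_).1
    exact hc.F_smooth.sqrt fun x hx => (J04_pos h hc hx.1 hx.2).ne'
  have bφ : J04_B (J04_s E u a b δ) u 0 (fun y => η y * (th u δ y * √(F y))) := by
    refine bη.mul (bt.mul (q := 0) ?_)
    obtain ⟨K, hK, hb'⟩ := bF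
    refine ⟨√K, Real.sqrt_nonneg _, fun x hx => ?_⟩
    rw [pow_zero, mul_one, abs_of_nonneg (Real.sqrt_nonneg _)]
    refine Real.sqrt_le_sqrt ?_
    have := hb' x hx
    rw [pow_zero, mul_one] at this
    exact (le_abs_self _).trans this
  have hφz : ∀ x ∈ E, x ∉ J04_s E u a b δ → η x * (th u δ x * √(F x)) = 0 := by
    intro x hx hxs
    rcases hoff x hx hxs with h0 | h0
    · rw [h0.1]; ring
    · rw [h0.1]; ring
  obtain ⟨M, hM0, hM⟩ := bφ
  have hφM : ∀ x ∈ E, |η x * (th u δ x * √(F x))| ≤ M := by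
    intro x hx
    by_cases hxs : x ∈ J04_s E u a b δ
    · have := hM x hxs
      rwa [pow_zero, mul_one] at this
    · rw [hφz x hx hxs, abs_zero]
      exact hM0
  have hφA : ∀ x ∈ E, x ∉ (Ann a b : Set (V n)) → η x * (th u δ x * √(F x)) = 0 := by
    intro x hx hxA
    rw [(hηA x hxA).1]; ring
  have bsq : J04_B (J04_s E u a b δ) u 0 (fun y => √(F y)) := by
    obtain ⟨K, hK, hb'⟩ := bF
    refine ⟨√K, Real.sqrt_nonneg _, fun x hx => ?_⟩
    rw [pow_zero, mul_one, abs_of_nonneg (Real.sqrt_nonneg _)]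
    refine Real.sqrt_le_sqrt ?_
    have := hb' x hx
    rw [pow_zero, mul_one] at this
    exact (le_abs_self _).trans this
  have bsqi : J04_B (J04_s E u a b δ) u 0 (fun y => (√(F y))⁻¹) := by
    obtain ⟨K, hK, hb'⟩ := bFi
    refine ⟨√K, Real.sqrt_nonneg _, fun x hx => ?_⟩
    rw [pow_zero, mul_one, abs_of_nonneg (inv_nonneg.2 (Real.sqrt_nonneg _)), ← Real.sqrt_inv]
    refine Real.sqrt_le_sqrt ?_
    have := hb' x hx
    rw [pow_zero, mul_one] at this
    exact (le_abs_self _).trans this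
  have hL : IntegrableOn (fun x => ∑ i, (pd i (fun y => η y * (th u δ y * √(F y))) x) ^ 2) E := by
    have hz : ∀ x ∈ E, x ∉ J04_s E u a b δ →
        ∑ i, (pd i (fun y => η y * (th u δ y * √(F y))) x) ^ 2 = 0 := by
      intro x hx hxs
      refine Finset.sum_eq_zero fun i _ => ?_
      rcases J04_off h hs hδ hx hxs with h0 | h0
      · have h3 : (fun y => η y * (th u δ y * √(F y))) =ᶠ[𝓝 x] fun _ => 0 := by
          filter_upwards [h0] with y hy
          rw [hy, zero_mul]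
        rw [pd_zero_of_eventually h3]; ring
      · have h3 : (fun y => η y * (th u δ y * √(F y))) =ᶠ[𝓝 x] fun _ => 0 := by
          filter_upwards [h0] with y hy
          rw [hy, zero_mul, mul_zero]
        rw [pd_zero_of_eventually h3]; ring
    have hB : J04_B (J04_s E u a b δ) u 2
        (fun x => ∑ i, (pd i (fun y => η y * (th u δ y * √(F y))) x) ^ 2) := by
      refine J04_B.sum fun i => ?_
      refine J04_B.sq (p := 1) ?_
      have b1 : J04_B (J04_s E u a b δ) u 1 (fun x => pd i η x * (th u δ x * √(F x))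
          + η x * (pd i (th u δ) x * √(F x)
            + th u δ x * (pd i F x * (2⁻¹ * (√(F x))⁻¹)))) :=
        (((bdη i).mul (bt.mul bsq)).mono (by norm_num)).add (bη.mul (((bdt i).mul bsq).add
          (bt.mul ((bdF i).mul ((J04_B.const _ 2⁻¹).mul bsqi)))))
      obtain ⟨K, hK, hb'⟩ := b1
      refine ⟨K, hK, fun x hx => ?_⟩
      have hN : NN u x ≠ 0 := fun hN => hNs x hN hx
      have e1 := hb' x hx
      rw [J04_pd h hc hη hδ hx.1 hN i]
      have e2 : pd i F x / (2 * √(F x)) = pd i F x * (2⁻¹ * (√(F x))⁻¹) := by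
        rw [div_eq_mul_inv, mul_inv]
      rw [e2]
      exact e1
    obtain ⟨K, hK, hb'⟩ := hB
    refine J04_ext h (J04_int h ha ?_ (fun x hx _ hxs => hz x hx hxs)
      (fun x hx hN => hz x hx (hNs x hN)) hb') fun x hx hxA => ?_
    · exact continuousOn_finsetSum _ fun i _ =>
        (((contDiffOn_pd_top h.isOpen hφs i).continuousOn).mono inter_subset_left).pow 2
    · exact hz x hx fun hxs => hxA hxs.2.1
  have hstab := h.stability hst hn ha hb hφs hφM hφA hL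
  have hfin : ∫ x in E, (∑ i, (pd i (fun y => η y * (th u δ y * √(F y))) x) ^ 2
      - 2 * (η x * (th u δ x * √(F x))) *
        ∑ i, pd i (fun y => η y * (th u δ y * √(F y))) x * w u i x
      - NN u x * (η x * (th u δ x * √(F x))) ^ 2) =
      (∫ x in E, η x ^ 2 * th u δ x ^ 2 *
          ((∑ k, (pd k F x) ^ 2) / (4 * F x) - ∑ k, pd k F x * w u k x - NN u x * F x))
      + (∫ x in E, η x ^ 2 * (∑ k, (th u δ x * pd k (th u δ) x * pd k F x
          + F x * (pd k (th u δ) x) ^ 2 - 2 * F x * th u δ x * pd k (th u δ) x * w u k x)))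
      + ∫ x in E, F x * th u δ x ^ 2 * ∑ k, (pd k η x) ^ 2 := by
    rw [setIntegral_congr_fun hEm fun x hx => J04_point h hc hη hρ hs hδ hx]
    have e1 : ∫ x in E, ((2 - (n : ℝ)) / 2) * (th u δ x ^ 2 * F x * (‖x‖ ^ 2)⁻¹ *
        ∑ i, x i * pd i (fun y => η y ^ 2) x) = 0 := by
      rw [integral_const_mul, hrad, mul_zero]
    refine (integral_add ((i1.add i2).add i3) (i4.const_mul ((2 - (n : ℝ)) / 2))).trans ?_
    rw [e1, add_zero]
    refine (integral_add (i1.add i2) i3).trans ?_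
    congr 1
    exact integral_add i1 i2
  rw [← hfin]
  exact hstab

end OPC
end

section

/-! # J05: sum and error estimate -/

open MeasureTheory Set Filter Topology

namespace OPC

variable {n : ℕ} {E : Set (V n)} {u : V n → ℝ}

private theorem j5_ann_closed (a b : ℝ) : IsClosed (Ann a b : Set (V n)) :=
  (isClosed_le continuous_const continuous_norm).inter (isClosed_le continuous_norm continuous_const)

private theorem j5_ann_fin (a b : ℝ) (E : Set (V n)) : volume (E ∩ Ann a b) ≠ ⊤ := by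
  have h1 : E ∩ Ann a b ⊆ Metric.closedBall 0 b := by
    intro x hx
    rw [mem_closedBall_zero_iff]
    exact hx.2.2
  exact ((measure_mono h1).trans_lt measure_closedBall_lt_top).ne

private theorem j5_meas_NN (u : V n → ℝ) : Measurable (NN u) := by
  unfold NN
  refine Finset.measurable_fun_sum _ fun i _ => Finset.measurable_fun_sum _ fun j _ => ?_
  have : Measurable (S u i j) := measurable_fderiv_apply_const ℝ (pd j u) (e i)
  exact this.pow_const 2

/-- `|w| ≤ |S|` -/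
private theorem j5_w (h : Sol E u) (hn : 2 ≤ n) {x : V n} (hx : x ∈ E) (k : Fin n) :
    |w u k x| ≤ √(NN u x) := by
  have hg := h.gg_le_one hn hx
  apply Real.abs_le_sqrt
  have h1 : (w u k x) ^ 2 ≤ (∑ j, (S u k j x) ^ 2) * ∑ j, (q u j x) ^ 2 := by
    unfold w
    exact Finset.sum_mul_sq_le_sq_mul_sq _ _ _
  have h2 : ∑ j, (S u k j x) ^ 2 ≤ NN u x := by
    unfold NN
    exact Finset.single_le_sum (f := fun i => ∑ j, (S u i j x) ^ 2)
      (fun i _ => Finset.sum_nonneg fun j _ => sq_nonneg _) (Finset.mem_univ k)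
  have h3 : 0 ≤ ∑ j, (S u k j x) ^ 2 := Finset.sum_nonneg fun j _ => sq_nonneg _
  have h4 : ∑ j, (q u j x) ^ 2 ≤ 1 := hg
  calc (w u k x) ^ 2 ≤ (∑ j, (S u k j x) ^ 2) * ∑ j, (q u j x) ^ 2 := h1
    _ ≤ (∑ j, (S u k j x) ^ 2) * 1 := mul_le_mul_of_nonneg_left h4 h3
    _ ≤ NN u x := by rw [mul_one]; exact h2

/-- algebraic estimate of the error terms -/
private theorem j5_alg {θ d s τ p C0 C C1 Fx dF Wk wk : ℝ} (hθ0 : 0 ≤ θ) (hθ1 : θ ≤ 1)
    (hs : 0 ≤ s) (hτ : 0 ≤ τ) (hp : 0 ≤ p) (hC0 : 0 < C0) (hC : 1 ≤ C) (hC1 : 1 ≤ C1)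
    (hsC : s ≤ C1) (hd : |d| * s ≤ C0 * (τ + s)) (hF0 : 0 ≤ Fx) (hF : Fx ≤ C * (p * s ^ 2))
    (hdF : |dF| ≤ C * (p * s) * (τ + s)) (hW : |Wk| ≤ C * (p * s) * (τ + s)) (hw : |wk| ≤ s) :
    |2 * θ * d * Wk| ≤ (2 * C * C0 + 2 * C * C0 ^ 2 + 4 * C * C0 * C1 + 4 * C * C0) *
        (p * (τ ^ 2 + s ^ 2)) ∧
      |θ * d * dF + Fx * d ^ 2 - 2 * Fx * θ * d * wk| ≤
        (2 * C * C0 + 2 * C * C0 ^ 2 + 4 * C * C0 * C1 + 4 * C * C0) *
        (p * (τ ^ 2 + s ^ 2)) := by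
  have hd0 := abs_nonneg d
  have hts : 0 ≤ τ + s := by linarith
  have hsq : (τ + s) ^ 2 ≤ 2 * (τ ^ 2 + s ^ 2) := by nlinarith [sq_nonneg (τ - s)]
  have hCp : 0 ≤ C * p := by positivity
  -- `|d| * (C (p s) (τ + s))`
  have key1 : |d| * (C * (p * s) * (τ + s)) ≤ 2 * C * C0 * (p * (τ ^ 2 + s ^ 2)) := by
    have e1 : |d| * (C * (p * s) * (τ + s)) = (C * p) * ((|d| * s) * (τ + s)) := by ring
    rw [e1]
    have e2 : (|d| * s) * (τ + s) ≤ C0 * (τ + s) * (τ + s) := mul_le_mul_of_nonneg_right hd hts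
    have e3 : C0 * (τ + s) * (τ + s) ≤ C0 * (2 * (τ ^ 2 + s ^ 2)) := by
      have : C0 * (τ + s) * (τ + s) = C0 * (τ + s) ^ 2 := by ring
      rw [this]
      exact mul_le_mul_of_nonneg_left hsq hC0.le
    have e4 := mul_le_mul_of_nonneg_left (e2.trans e3) hCp
    refine e4.trans (le_of_eq ?_)
    ring
  have key2 : (C * (p * s ^ 2)) * d ^ 2 ≤ 2 * C * C0 ^ 2 * (p * (τ ^ 2 + s ^ 2)) := by
    have e1 : (C * (p * s ^ 2)) * d ^ 2 = (C * p) * ((|d| * s) ^ 2) := by
      rw [mul_pow, sq_abs]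
      ring
    rw [e1]
    have e2 : (|d| * s) ^ 2 ≤ (C0 * (τ + s)) ^ 2 := by
      apply pow_le_pow_left₀ (by positivity) hd
    have e3 : (C0 * (τ + s)) ^ 2 ≤ C0 ^ 2 * (2 * (τ ^ 2 + s ^ 2)) := by
      rw [mul_pow]
      exact mul_le_mul_of_nonneg_left hsq (by positivity)
    have e4 := mul_le_mul_of_nonneg_left (e2.trans e3) hCp
    refine e4.trans (le_of_eq ?_)
    ring
  have key3 : (C * (p * s ^ 2)) * |d| * s ≤ 2 * C * C0 * C1 * (p * (τ ^ 2 + s ^ 2)) := by
    have e1 : (C * (p * s ^ 2)) * |d| * s = (C * p) * (s ^ 2 * (|d| * s)) := by ring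
    rw [e1]
    have e2 : s ^ 2 * (|d| * s) ≤ s ^ 2 * (C0 * (τ + s)) :=
      mul_le_mul_of_nonneg_left hd (by positivity)
    have e3 : s ^ 2 * (C0 * (τ + s)) ≤ C0 * (C1 * (2 * (τ ^ 2 + s ^ 2))) := by
      have f1 : s * (τ + s) ≤ 2 * (τ ^ 2 + s ^ 2) := by nlinarith [sq_nonneg (τ - s), sq_nonneg τ]
      have f2 : s * (s * (τ + s)) ≤ C1 * (2 * (τ ^ 2 + s ^ 2)) :=
        mul_le_mul hsC f1 (by positivity) (by linarith)
      have f3 := mul_le_mul_of_nonneg_left f2 hC0.le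
      refine le_trans (le_of_eq ?_) f3
      ring
    have e4 := mul_le_mul_of_nonneg_left (e2.trans e3) hCp
    refine e4.trans (le_of_eq ?_)
    ring
  have hg : 0 ≤ p * (τ ^ 2 + s ^ 2) := by positivity
  have t1 : 0 ≤ C * C0 * (p * (τ ^ 2 + s ^ 2)) := by positivity
  have t2 : 0 ≤ C * C0 ^ 2 * (p * (τ ^ 2 + s ^ 2)) := by positivity
  have t3 : 0 ≤ C * C0 * C1 * (p * (τ ^ 2 + s ^ 2)) := by positivity
  constructor
  · have e1 : |2 * θ * d * Wk| = 2 * (θ * (|d| * |Wk|)) := by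
      rw [abs_mul, abs_mul, abs_mul, abs_of_pos (by norm_num : (0 : ℝ) < 2), abs_of_nonneg hθ0]
      ring
    rw [e1]
    have e2 : |d| * |Wk| ≤ |d| * (C * (p * s) * (τ + s)) := mul_le_mul_of_nonneg_left hW hd0
    have e3 : θ * (|d| * |Wk|) ≤ 1 * (|d| * |Wk|) :=
      mul_le_mul_of_nonneg_right hθ1 (by positivity)
    linarith
  · have a1 : |θ * d * dF| ≤ 2 * C * C0 * (p * (τ ^ 2 + s ^ 2)) := by
      rw [abs_mul, abs_mul, abs_of_nonneg hθ0]
      have e2 : |d| * |dF| ≤ |d| * (C * (p * s) * (τ + s)) := mul_le_mul_of_nonneg_left hdF hd0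
      have e3 : θ * (|d| * |dF|) ≤ 1 * (|d| * |dF|) :=
        mul_le_mul_of_nonneg_right hθ1 (by positivity)
      linarith
    have a2 : |Fx * d ^ 2| ≤ 2 * C * C0 ^ 2 * (p * (τ ^ 2 + s ^ 2)) := by
      rw [abs_of_nonneg (by positivity)]
      exact (mul_le_mul_of_nonneg_right hF (sq_nonneg d)).trans key2
    have a3 : |2 * Fx * θ * d * wk| ≤ 4 * C * C0 * C1 * (p * (τ ^ 2 + s ^ 2)) := by
      have e1 : |2 * Fx * θ * d * wk| = 2 * (θ * (Fx * |d| * |wk|)) := by
        rw [abs_mul, abs_mul, abs_mul, abs_mul, abs_of_pos (by norm_num : (0 : ℝ) < 2),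
          abs_of_nonneg hθ0, abs_of_nonneg hF0]
        ring
      rw [e1]
      have e2 : Fx * |d| * |wk| ≤ (C * (p * s ^ 2)) * |d| * s := by
        apply mul_le_mul (mul_le_mul_of_nonneg_right hF hd0) hw (abs_nonneg _) (by positivity)
      have e3 : θ * (Fx * |d| * |wk|) ≤ 1 * (Fx * |d| * |wk|) :=
        mul_le_mul_of_nonneg_right hθ1 (by positivity)
      linarith
    have a4 : |θ * d * dF + Fx * d ^ 2 - 2 * Fx * θ * d * wk| ≤
        |θ * d * dF| + |Fx * d ^ 2| + |2 * Fx * θ * d * wk| := by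
      refine (abs_sub _ _).trans ?_
      exact add_le_add_left (abs_add_le _ _) _
    linarith


/-- Step 3: sum of the two steps and the error estimate.
Sketch: add `PCert.step1` and `PCert.step2`; all the terms with `∇th` are bounded by
`C η² (NN^{ϖ/2-1} TT + NN^{ϖ/2})` on `{NN ≠ 0, |x|² NN < 2 δ}` and vanish elsewhere
(`Sol.pd_th_le`, `growth`). `C` depends on `η`, not on `δ`. -/
theorem PCert.step3 {F : V n → ℝ} {W : Fin n → V n → ℝ} {ϖ t : ℝ} (h : Sol E u) (hst : Stab u)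
    (hn : 2 ≤ n) (hc : PCert E u F W ϖ t) (h1 : 1 < ϖ) (h2 : ϖ ≤ 2) (ht : 0 < t)
    {η ρ : V n → ℝ} (hη : Tst η) (hη0 : ∀ x, 0 ≤ η x)
    (hρ : ∀ i x, pd i η x = ρ x * x i) {a b : ℝ} (ha : 0 < a) (hb : b < 1)
    (hs : tsupport η ⊆ Ann a b) :
    ∃ C, 0 < C ∧ ∀ δ, 0 < δ →
      t * ∫ x in E, η x ^ 2 * th u δ x ^ 2 * (F x / ‖x‖ ^ 2) ≤
        (∫ x in E, F x * th u δ x ^ 2 * ∑ k, (pd k η x) ^ 2) + C * errS E u ϖ a b δ := by
  obtain ⟨C0, hC0, hth⟩ := h.pd_th_le (a := a) (b := b) ha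
  obtain ⟨C, hC, hgr⟩ := hc.growth a b ha
  obtain ⟨C1, c1, hC1, _, hbd⟩ := h.bounds (a := a) (b := b) ha
  obtain ⟨M, hM⟩ := hη.smooth.continuous.bounded_above_of_compact_support hη.cpt
  set Kc : ℝ := 2 * C * C0 + 2 * C * C0 ^ 2 + 4 * C * C0 * C1 + 4 * C * C0 with hKc
  have hKc0 : 0 < Kc := by positivity
  set Cf : ℝ := M ^ 2 * (n * Kc) with hCf
  have hCf0 : 0 ≤ Cf := by positivity
  refine ⟨2 * Cf + 1, by positivity, ?_⟩
  intro δ hδ
  -- the set and the bound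
  set B : Set (V n) := E ∩ Ann a b ∩ {x | NN u x ≠ 0} ∩ {x | ‖x‖ ^ 2 * NN u x < 2 * δ} with hB
  set g : V n → ℝ := fun x => NN u x ^ (ϖ / 2 - 1) * TT u x + NN u x ^ (ϖ / 2) with hg
  have hNNm := j5_meas_NN u
  have hNN0 : ∀ x, 0 ≤ NN u x := fun x =>
    Finset.sum_nonneg fun i _ => Finset.sum_nonneg fun j _ => sq_nonneg _
  have hTT0 : ∀ x, 0 ≤ TT u x := fun x =>
    Finset.sum_nonneg fun i _ => Finset.sum_nonneg fun j _ => Finset.sum_nonneg fun k _ => sq_nonneg _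
  have hBm : MeasurableSet B := by
    refine ((h.isOpen.measurableSet.inter (j5_ann_closed a b).measurableSet).inter ?_).inter ?_
    · exact hNNm (measurableSet_singleton 0).compl
    · exact measurableSet_lt ((measurable_norm.pow_const 2).mul hNNm) measurable_const
  have hBE : B ⊆ E := fun x hx => hx.1.1.1
  have hgi : IntegrableOn g B volume := by
    apply IntegrableOn.mono_set (t := E ∩ Ann a b ∩ {x | NN u x ≠ 0}) _ inter_subset_left
    refine Integrable.add (h.int_pow ha h1 h2) ?_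
    refine Measure.integrableOn_of_bounded (M := C1 ^ (ϖ / 2)) ?_ ?_ ?_
    · exact measure_ne_top_of_subset inter_subset_left (j5_ann_fin a b E)
    · exact (hNNm.pow_const _).aestronglyMeasurable
    · apply ae_restrict_of_forall_mem
      · exact (h.isOpen.measurableSet.inter (j5_ann_closed a b).measurableSet).inter
          (hNNm (measurableSet_singleton 0).compl)
      · intro x hx
        have := (hbd x hx.1.1 hx.1.2).2.2.2.2.2.2.2.1
        rw [Real.norm_eq_abs, abs_of_nonneg (Real.rpow_nonneg (hNN0 x) _)]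
        exact Real.rpow_le_rpow (hNN0 x) this (by linarith)
  have herr : errS E u ϖ a b δ = ∫ x in B, g x := rfl
  have hg0 : ∀ x, 0 ≤ g x := fun x =>
    add_nonneg (mul_nonneg (Real.rpow_nonneg (hNN0 x) _) (hTT0 x)) (Real.rpow_nonneg (hNN0 x) _)
  have hgint0 : 0 ≤ ∫ x in B, g x := integral_nonneg hg0
  -- estimate of an error integral
  have est : ∀ f : V n → ℝ, (∀ x ∈ E \ B, f x = 0) → (∀ x ∈ B, |f x| ≤ Cf * g x) →
      |∫ x in E, f x| ≤ Cf * ∫ x in B, g x := by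
    intro f hf0 hfb
    rw [setIntegral_eq_of_subset_of_forall_sdiff_eq_zero h.isOpen.measurableSet hBE hf0,
      ← integral_const_mul, ← Real.norm_eq_abs]
    refine norm_integral_le_of_norm_le (hgi.const_mul Cf) (ae_restrict_of_forall_mem hBm ?_)
    intro x hx
    rw [Real.norm_eq_abs]
    exact hfb x hx
  -- vanishing outside `B`
  have hvan : ∀ x ∈ E \ B, η x = 0 ∨ ∀ k, pd k (th u δ) x = 0 := by
    intro x hx
    by_cases hxA : x ∈ Ann a b
    · right
      intro k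
      apply ((hth δ hδ x hx.1 hxA k).2)
      by_cases hN : NN u x = 0
      · exact Or.inr hN
      · left
        by_contra hcon
        exact hx.2 ⟨⟨⟨hx.1, hxA⟩, hN⟩, not_le.1 hcon⟩
    · left
      exact image_eq_zero_of_notMem_tsupport (fun h' => hxA (hs h'))
  -- pointwise bounds
  have hpt : ∀ x ∈ B, ∀ k, |2 * th u δ x * pd k (th u δ) x * W k x| ≤ Kc * g x ∧
      |th u δ x * pd k (th u δ) x * pd k F x
          + F x * (pd k (th u δ) x) ^ 2 - 2 * F x * th u δ x * pd k (th u δ) x * w u k x| ≤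
        Kc * g x := by
    intro x hx k
    have hxE : x ∈ E := hx.1.1.1
    have hxA : x ∈ Ann a b := hx.1.1.2
    have hN : NN u x ≠ 0 := hx.1.2
    have hNpos : 0 < NN u x := lt_of_le_of_ne (hNN0 x) (Ne.symm hN)
    obtain ⟨g1, g2, g3, g4⟩ := hgr x hxE hxA hN
    have hNC := (hbd x hxE hxA).2.2.2.2.2.2.2.1
    set s := √(NN u x) with hsdef
    set τ := √(TT u x) with hτdef
    have hs0 : 0 < s := Real.sqrt_pos.2 hNpos
    have hs2 : s ^ 2 = NN u x := Real.sq_sqrt (hNN0 x)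
    have hτ2 : τ ^ 2 = TT u x := Real.sq_sqrt (hTT0 x)
    have hp2 : NN u x ^ (ϖ / 2) = NN u x ^ (ϖ / 2 - 1) * s ^ 2 := by
      rw [hs2, ← Real.rpow_add_one hN]
      congr 1
      ring
    have hp1 : NN u x ^ ((ϖ - 1) / 2) = NN u x ^ (ϖ / 2 - 1) * s := by
      rw [hsdef, Real.sqrt_eq_rpow, ← Real.rpow_add hNpos]
      congr 1
      ring
    have hsC : s ≤ C1 := by
      rw [hsdef]
      apply Real.sqrt_le_iff.2
      refine ⟨by linarith, ?_⟩
      nlinarith
    have hF0 : 0 ≤ F x := by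
      refine le_trans ?_ g1
      have := Real.rpow_nonneg (hNN0 x) (ϖ / 2)
      positivity
    have hge : g x = NN u x ^ (ϖ / 2 - 1) * (τ ^ 2 + s ^ 2) := by
      simp only [hg]
      rw [hp2, hτ2]
      ring
    rw [hge]
    have h3 := g3 k
    have h4 := g4 k
    rw [hp1] at h3 h4
    rw [hp2] at g2
    exact j5_alg (chi_nonneg _) (chi_le_one _) hs0.le (Real.sqrt_nonneg _)
      (Real.rpow_nonneg (hNN0 x) _) hC0 hC hC1 hsC (hth δ hδ x hxE hxA k).1 hF0 g2 h3 h4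
      (j5_w h hn hxE k)
  have hη2 : ∀ x, η x ^ 2 ≤ M ^ 2 := by
    intro x
    rw [← sq_abs (η x)]
    exact pow_le_pow_left₀ (abs_nonneg _) (hM x) 2
  have hsumb : ∀ (x : V n) (f : Fin n → ℝ), (∀ k, |f k| ≤ Kc * g x) →
      |η x ^ 2 * ∑ k, f k| ≤ Cf * g x := by
    intro x f hf
    rw [abs_mul, abs_of_nonneg (sq_nonneg _)]
    have e1 : |∑ k, f k| ≤ n * (Kc * g x) := by
      refine (Finset.abs_sum_le_sum_abs _ _).trans ?_
      refine (Finset.sum_le_sum fun k _ => hf k).trans (le_of_eq ?_)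
      simp
    calc η x ^ 2 * |∑ k, f k| ≤ M ^ 2 * (n * (Kc * g x)) :=
          mul_le_mul (hη2 x) e1 (abs_nonneg _) (sq_nonneg _)
      _ = Cf * g x := by
          rw [hCf]
          ring
  have b1 : |∫ x in E, η x ^ 2 * ∑ k, 2 * th u δ x * pd k (th u δ) x * W k x| ≤
      Cf * ∫ x in B, g x := by
    apply est
    · intro x hx
      rcases hvan x hx with h0 | h0
      · rw [h0]; ring
      · simp [h0]
    · intro x hx
      exact hsumb x _ (fun k => (hpt x hx k).1)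
  have b2 : |∫ x in E, η x ^ 2 * (∑ k, (th u δ x * pd k (th u δ) x * pd k F x
          + F x * (pd k (th u δ) x) ^ 2 - 2 * F x * th u δ x * pd k (th u δ) x * w u k x))| ≤
      Cf * ∫ x in B, g x := by
    apply est
    · intro x hx
      rcases hvan x hx with h0 | h0
      · rw [h0]; ring
      · simp [h0]
    · intro x hx
      exact hsumb x _ (fun k => (hpt x hx k).2)
  have s1 := PCert.step1 h hc h1 h2 ht hη hη0 hρ hδ
  have s2 := PCert.step2 h hst hn hc h1 h2 hη hρ ha hb hs hδ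
  rw [herr]
  have b1' := neg_abs_le (∫ x in E, η x ^ 2 * ∑ k, 2 * th u δ x * pd k (th u δ) x * W k x)
  have b2' := le_abs_self (∫ x in E, η x ^ 2 * (∑ k, (th u δ x * pd k (th u δ) x * pd k F x
          + F x * (pd k (th u δ) x) ^ 2 - 2 * F x * th u δ x * pd k (th u δ) x * w u k x)))
  have e : (2 * Cf + 1) * ∫ x in B, g x = Cf * (∫ x in B, g x) + Cf * (∫ x in B, g x) +
      ∫ x in B, g x := by ring
  rw [e]
  linarith

end OPC
end

section

/-! # J06: delta to 0 -/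

open MeasureTheory Set Filter Topology

namespace OPC

variable {n : ℕ} {E : Set (V n)} {u : V n → ℝ}

private theorem j06_ann_closed (a b : ℝ) : IsClosed (Ann a b : Set (V n)) :=
  (isClosed_le continuous_const continuous_norm).inter
    (isClosed_le continuous_norm continuous_const)

private theorem j06_ann_sub (a b : ℝ) : (Ann a b : Set (V n)) ⊆ Metric.closedBall 0 b := by
  intro x hx
  rw [mem_closedBall_zero_iff]
  exact hx.2

private theorem j06_ann_cpt (a b : ℝ) : IsCompact (Ann a b : Set (V n)) :=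
  (isCompact_closedBall (0 : V n) b).of_isClosed_subset (j06_ann_closed a b) (j06_ann_sub a b)

/-- bounded functions supported in an annulus are integrable -/
private theorem j06_int (hE : IsOpen E) {f : V n → ℝ} {a b M : ℝ} (hf : ContinuousOn f E)
    (hs : ∀ x ∈ E, x ∉ Ann a b → f x = 0) (hb : ∀ x ∈ E, x ∈ Ann a b → |f x| ≤ M) :
    IntegrableOn f E := by
  have hEm : MeasurableSet E := hE.measurableSet
  have hAm : MeasurableSet (Ann a b : Set (V n)) := (j06_ann_closed a b).measurableSet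
  have h1 : AEStronglyMeasurable f (volume.restrict E) := hf.aestronglyMeasurable hEm
  have h2 : IntegrableOn f (E ∩ Ann a b) := by
    haveI : IsFiniteMeasure (volume.restrict (E ∩ (Ann a b : Set (V n)))) := ⟨by
      rw [Measure.restrict_apply_univ]
      exact (measure_mono (inter_subset_right.trans (j06_ann_sub a b))).trans_lt
        measure_closedBall_lt_top⟩
    refine Integrable.of_bound (h1.mono_set inter_subset_left) M ?_
    exact ae_restrict_of_forall_mem (hEm.inter hAm) fun x hx => by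
      rw [Real.norm_eq_abs]; exact hb x hx.1 hx.2
  have h3 : IntegrableOn f (E \ Ann a b) := by
    refine (integrableOn_zero (ε' := ℝ)).congr_fun (fun x hx => (hs x hx.1 hx.2).symm)
      (hEm.diff hAm)
  rw [← inter_union_sdiff E (Ann a b)]
  exact h2.union h3

private theorem j06_NN_nonneg (u : V n → ℝ) (x : V n) : 0 ≤ NN u x :=
  Finset.sum_nonneg fun _ _ => Finset.sum_nonneg fun _ _ => sq_nonneg _

private theorem j06_open (h : Sol E u) : IsOpen (E ∩ {x | NN u x ≠ 0}) :=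
  h.smooth_NN.continuousOn.isOpen_inter_preimage h.isOpen isOpen_ne

private theorem j06_lim (h : Sol E u) {g : V n → ℝ}
    (hg : IntegrableOn g (E ∩ {x | NN u x ≠ 0})) :
    Tendsto (fun δ : ℝ => ∫ x in E, th u δ x ^ 2 * g x) (𝓝[>] 0)
      (𝓝 (∫ x in E ∩ {x | NN u x ≠ 0}, g x)) := by
  have hm : MeasurableSet (E ∩ {x | NN u x ≠ 0}) := (j06_open h).measurableSet
  have e1 : ∀ δ : ℝ, ∫ x in E, th u δ x ^ 2 * g x =
      ∫ x in E ∩ {x | NN u x ≠ 0}, th u δ x ^ 2 * g x := by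
    intro δ
    refine setIntegral_eq_of_subset_of_forall_sdiff_eq_zero h.isOpen.measurableSet
      inter_subset_left ?_
    intro x hx
    have h0 : NN u x = 0 := by
      by_contra hc
      exact hx.2 ⟨hx.1, hc⟩
    have h1 : th u δ x = 0 := by
      unfold th
      rw [h0, mul_zero, zero_div]
      exact chi_eq_zero (by norm_num)
    rw [h1]
    ring
  simp_rw [e1]
  refine tendsto_integral_filter_of_dominated_convergence (fun x => ‖g x‖) ?_ ?_ hg.norm ?_
  · filter_upwards [self_mem_nhdsWithin] with δ hδ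
    have h1 : AEStronglyMeasurable (th u δ) (volume.restrict (E ∩ {x | NN u x ≠ 0})) :=
      ((h.smooth_th hδ).continuousOn.aestronglyMeasurable h.isOpen.measurableSet).mono_set
        inter_subset_left
    exact (h1.pow 2).mul hg.aestronglyMeasurable
  · filter_upwards with δ
    filter_upwards with x
    rw [norm_mul]
    have h0 : 0 ≤ th u δ x := chi_nonneg _
    have h1 : th u δ x ≤ 1 := chi_le_one _
    have h2 : ‖th u δ x ^ 2‖ ≤ 1 := by
      rw [Real.norm_eq_abs, abs_of_nonneg (sq_nonneg _)]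
      nlinarith
    calc ‖th u δ x ^ 2‖ * ‖g x‖ ≤ 1 * ‖g x‖ := mul_le_mul_of_nonneg_right h2 (norm_nonneg _)
      _ = ‖g x‖ := one_mul _
  · refine ae_restrict_of_forall_mem hm fun x hx => ?_
    have hx0 : x ≠ 0 := h.ne_zero hx.1
    have hN : 0 < NN u x := lt_of_le_of_ne (j06_NN_nonneg u x) (Ne.symm hx.2)
    have hp : 0 < ‖x‖ ^ 2 * NN u x := by
      have := norm_pos_iff.2 hx0
      positivity
    have h1 : ∀ᶠ δ in 𝓝[>] (0 : ℝ), th u δ x ^ 2 * g x = g x := by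
      filter_upwards [Ioo_mem_nhdsGT (show (0 : ℝ) < ‖x‖ ^ 2 * NN u x / 2 by positivity)]
        with δ hδ
      have h2 : th u δ x = 1 := by
        unfold th
        refine chi_eq_one ?_
        rw [le_div_iff₀ hδ.1]
        linarith [hδ.2]
      rw [h2]
      ring
    exact tendsto_const_nhds.congr' (h1.mono fun δ hδ => hδ.symm)

/-- Step 4: `δ → 0`. -/
theorem PCert.step4 {F : V n → ℝ} {W : Fin n → V n → ℝ} {ϖ t : ℝ} (h : Sol E u) (hst : Stab u)
    (hn : 2 ≤ n) (hc : PCert E u F W ϖ t) (h1 : 1 < ϖ) (h2 : ϖ ≤ 2) (ht : 0 < t)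
    {η ρ : V n → ℝ} (hη : Tst η) (hη0 : ∀ x, 0 ≤ η x)
    (hρ : ∀ i x, pd i η x = ρ x * x i) {a b : ℝ} (ha : 0 < a) (hb : b < 1)
    (hs : tsupport η ⊆ Ann a b) :
    t * ∫ x in E ∩ {x | NN u x ≠ 0}, η x ^ 2 * (F x / ‖x‖ ^ 2) ≤
        ∫ x in E ∩ {x | NN u x ≠ 0}, F x * ∑ k, (pd k η x) ^ 2 := by
  have hO := j06_open h
  obtain ⟨C1, hC1, hg⟩ := hc.growth a b ha
  obtain ⟨C2, c2, hC2, hc2, hbd⟩ := h.bounds (a := a) (b := b) ha
  have hF : ∀ x ∈ E, x ∈ Ann a b → NN u x ≠ 0 → |F x| ≤ C1 * C2 ^ (ϖ / 2) := by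
    intro x hx hxA hxN
    obtain ⟨g1, g2, -, -⟩ := hg x hx hxA hxN
    obtain ⟨-, -, -, -, -, -, -, hNN, -⟩ := hbd x hx hxA
    have h3 : 0 ≤ F x := by
      refine le_trans ?_ g1
      have := Real.rpow_nonneg (j06_NN_nonneg u x) (ϖ / 2)
      positivity
    rw [abs_of_nonneg h3]
    refine g2.trans ?_
    refine mul_le_mul_of_nonneg_left ?_ (by linarith)
    exact Real.rpow_le_rpow (j06_NN_nonneg u x) hNN (by linarith)
  obtain ⟨K, hK⟩ := (j06_ann_cpt a b).exists_bound_of_continuousOn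
    (f := η) hη.smooth.continuous.continuousOn
  have hpdc : ∀ k, Continuous (pd k η) := fun k =>
    (contDiff_pd (m := 0) hη.smooth (by simp) k).continuous
  have hsum : Continuous (fun x => ∑ k, (pd k η x) ^ 2) :=
    continuous_finsetSum _ fun k _ => (hpdc k).pow 2
  obtain ⟨K', hK'⟩ := (j06_ann_cpt a b).exists_bound_of_continuousOn
    (f := fun x => ∑ k, (pd k η x) ^ 2) hsum.continuousOn
  have hη1 : ∀ x, x ∉ (Ann a b : Set (V n)) → η x = 0 := fun x hx =>
    image_eq_zero_of_notMem_tsupport (fun hc => hx (hs hc))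
  have hη2 : ∀ x, x ∉ (Ann a b : Set (V n)) → ∀ k, pd k η x = 0 := by
    intro x hx k
    refine pd_zero_of_eventually ?_ k
    filter_upwards [(j06_ann_closed a b).isOpen_compl.mem_nhds hx] with y hy using hη1 y hy
  have hFc : ContinuousOn F (E ∩ {x | NN u x ≠ 0}) := hc.F_smooth.continuousOn
  have hi1 : IntegrableOn (fun x => η x ^ 2 * (F x / ‖x‖ ^ 2)) (E ∩ {x | NN u x ≠ 0}) := by
    refine j06_int (a := a) (b := b) (M := K ^ 2 * (C1 * C2 ^ (ϖ / 2) / a ^ 2)) hO ?_ ?_ ?_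
    · refine (hη.smooth.continuous.continuousOn.pow 2).mul
        (hFc.div (continuous_norm.continuousOn.pow 2) ?_)
      intro x hx
      have := norm_pos_iff.2 (h.ne_zero hx.1)
      positivity
    · intro x _ hxA
      rw [hη1 x hxA]
      ring
    · intro x hx hxA
      have k1 := hK x hxA
      have k2 := hF x hx.1 hxA hx.2
      have k3 : a ≤ ‖x‖ := hxA.1
      have k4 : a ^ 2 ≤ ‖x‖ ^ 2 := by nlinarith
      have k5 : 0 ≤ C1 * C2 ^ (ϖ / 2) := (abs_nonneg _).trans k2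
      have k6 : 0 < a ^ 2 := by positivity
      rw [abs_mul, abs_pow, abs_div, abs_pow, abs_norm]
      rw [Real.norm_eq_abs] at k1
      have k7 : |η x| ^ 2 ≤ K ^ 2 := by
        have := abs_nonneg (η x)
        nlinarith
      exact mul_le_mul k7 (div_le_div₀ k5 k2 k6 k4) (by positivity) (sq_nonneg _)
  have hi2 : IntegrableOn (fun x => F x * ∑ k, (pd k η x) ^ 2) (E ∩ {x | NN u x ≠ 0}) := by
    refine j06_int (a := a) (b := b) (M := C1 * C2 ^ (ϖ / 2) * K') hO ?_ ?_ ?_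
    · exact hFc.mul hsum.continuousOn
    · intro x _ hxA
      rw [Finset.sum_eq_zero (fun k _ => by rw [hη2 x hxA k]; ring), mul_zero]
    · intro x hx hxA
      have k1 := hK' x hxA
      have k2 := hF x hx.1 hxA hx.2
      rw [abs_mul]
      rw [Real.norm_eq_abs] at k1
      exact mul_le_mul k2 k1 (abs_nonneg _) ((abs_nonneg _).trans k2)
  obtain ⟨C, hC, hst3⟩ := hc.step3 h hst hn h1 h2 ht hη hη0 hρ ha hb hs
  have L1 := (j06_lim h hi1).const_mul t
  have L2 := j06_lim h hi2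
  have L3 := (h.errS_tendsto (a := a) (b := b) ha h1 h2).const_mul C
  have key : ∀ᶠ δ in 𝓝[>] (0 : ℝ),
      t * ∫ x in E, th u δ x ^ 2 * (η x ^ 2 * (F x / ‖x‖ ^ 2)) ≤
        (∫ x in E, th u δ x ^ 2 * (F x * ∑ k, (pd k η x) ^ 2)) + C * errS E u ϖ a b δ := by
    filter_upwards [self_mem_nhdsWithin] with δ hδ
    have h3 := hst3 δ hδ
    have e1 : ∀ x, th u δ x ^ 2 * (η x ^ 2 * (F x / ‖x‖ ^ 2)) =
        η x ^ 2 * th u δ x ^ 2 * (F x / ‖x‖ ^ 2) := fun x => by ring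
    have e2 : ∀ x, th u δ x ^ 2 * (F x * ∑ k, (pd k η x) ^ 2) =
        F x * th u δ x ^ 2 * ∑ k, (pd k η x) ^ 2 := fun x => by ring
    simp_rw [e1, e2]
    exact h3
  have := le_of_tendsto_of_tendsto L1 (L2.add L3) key
  rwa [mul_zero, add_zero] at this

end OPC
end
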