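import Pool.Agent.Lib.MP_9059b8_an.A11
import Pool.Agent.Lib.MP_9059b8_an.A10
import Pool.Agent.Lib.MP_9059b8_an.P03
import Pool.Agent.Lib.MP_9059b8_an.A06
import Pool.Agent.Lib.MP_9059b8_an.B05

section

/-! # P12: approximate equality near the free boundary -/

open MeasureTheory Set Filter Topology

namespace OPC

variable {n : ℕ} {E : Set (V n)} {u : V n → ℝ}

/-- bounded on annuli where `NN ≥ δ` -/
def Bd (E : Set (V n)) (u f : V n → ℝ) : Prop :=
  ∀ a b δ : ℝ, 0 < a → 0 < δ → ∃ C, 0 < C ∧ ∀ x ∈ E, x ∈ Ann a b → δ ≤ NN u x → |f x| ≤ C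

/-- `f = g + O(er)` on annuli where `NN ≥ δ` -/
def Clo (E : Set (V n)) (u er f g : V n → ℝ) : Prop :=
  ∀ a b δ : ℝ, 0 < a → 0 < δ → ∃ C, 0 < C ∧ ∀ x ∈ E, x ∈ Ann a b → δ ≤ NN u x →
    |f x - g x| ≤ C * er x

/-- the error `|a| + u` -/
noncomputable def er0 (u : V n → ℝ) (x : V n) : ℝ := √(a2 u x) + u x

/-- the error `|a| + u + |gg - 1|` -/
noncomputable def er1 (u : V n → ℝ) (x : V n) : ℝ := √(a2 u x) + u x + |gg u x - 1|

theorem Clo.add {er f g f' g' : V n → ℝ} (h1 : Clo E u er f g) (h2 : Clo E u er f' g') :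
    Clo E u er (fun x => f x + f' x) (fun x => g x + g' x) := by
  intro a b δ ha hδ
  obtain ⟨C, hC, H⟩ := h1 a b δ ha hδ
  obtain ⟨C', hC', H'⟩ := h2 a b δ ha hδ
  refine ⟨C + C', by linarith, fun x hx hxa hN => ?_⟩
  have e1 : (f x + f' x) - (g x + g' x) = (f x - g x) + (f' x - g' x) := by ring
  show |(f x + f' x) - (g x + g' x)| ≤ _
  rw [e1, add_mul]
  exact (abs_add_le _ _).trans (add_le_add (H x hx hxa hN) (H' x hx hxa hN))

theorem Clo.mul {er f g f' g' : V n → ℝ} (h1 : Clo E u er f g) (h2 : Clo E u er f' g')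
    (hf : Bd E u f) (hg : Bd E u g') :
    Clo E u er (fun x => f x * f' x) (fun x => g x * g' x) := by
  intro a b δ ha hδ
  obtain ⟨C, hC, H⟩ := h1 a b δ ha hδ
  obtain ⟨C', hC', H'⟩ := h2 a b δ ha hδ
  obtain ⟨D, hD, K⟩ := hf a b δ ha hδ
  obtain ⟨D', hD', K'⟩ := hg a b δ ha hδ
  refine ⟨D * C' + C * D', by positivity, fun x hx hxa hN => ?_⟩
  have i1 := H x hx hxa hN
  have i2 := H' x hx hxa hN
  have i3 := K x hx hxa hN
  have i4 := K' x hx hxa hN
  have e1 : f x * f' x - g x * g' x = f x * (f' x - g' x) + (f x - g x) * g' x := by ring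
  show |f x * f' x - g x * g' x| ≤ _
  rw [e1]
  refine (abs_add_le _ _).trans ?_
  rw [abs_mul, abs_mul, add_mul]
  have j1 : |f x| * |f' x - g' x| ≤ D * (C' * er x) :=
    mul_le_mul i3 i2 (abs_nonneg _) hD.le
  have j2 : |f x - g x| * |g' x| ≤ (C * er x) * D' :=
    mul_le_mul i1 i4 (abs_nonneg _) (le_trans (abs_nonneg _) i1)
  calc |f x| * |f' x - g' x| + |f x - g x| * |g' x|
      ≤ D * (C' * er x) + (C * er x) * D' := add_le_add j1 j2
    _ = D * C' * er x + C * D' * er x := by ring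

theorem Clo.refl {er : V n → ℝ} (he : ∀ x ∈ E, 0 ≤ er x) (f : V n → ℝ) : Clo E u er f f := by
  intro a b δ _ _
  refine ⟨1, one_pos, fun x hx _ _ => ?_⟩
  rw [sub_self, abs_zero, one_mul]
  exact he x hx

/-! ### private calculus of `Bd` and `Clo` -/

private theorem Clo.trans' {er f g k : V n → ℝ} (h1 : Clo E u er f g) (h2 : Clo E u er g k) :
    Clo E u er f k := by
  intro a b δ ha hδ
  obtain ⟨C, hC, H⟩ := h1 a b δ ha hδ
  obtain ⟨C', hC', H'⟩ := h2 a b δ ha hδ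
  refine ⟨C + C', by linarith, fun x hx hxa hN => ?_⟩
  have e1 : f x - k x = (f x - g x) + (g x - k x) := by ring
  rw [e1, add_mul]
  exact (abs_add_le _ _).trans (add_le_add (H x hx hxa hN) (H' x hx hxa hN))

private theorem Clo.congr' {er f g f' g' : V n → ℝ} (h : Clo E u er f g)
    (hf : ∀ x ∈ E, f x = f' x) (hg : ∀ x ∈ E, g x = g' x) : Clo E u er f' g' := by
  intro a b δ ha hδ
  obtain ⟨C, hC, H⟩ := h a b δ ha hδ
  refine ⟨C, hC, fun x hx hxa hN => ?_⟩
  rw [← hf x hx, ← hg x hx]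
  exact H x hx hxa hN

private theorem Clo.sum' {ι : Type*} {er : V n → ℝ} (he : ∀ x ∈ E, 0 ≤ er x) (s : Finset ι)
    {f g : ι → V n → ℝ} (h : ∀ i ∈ s, Clo E u er (f i) (g i)) :
    Clo E u er (fun x => ∑ i ∈ s, f i x) (fun x => ∑ i ∈ s, g i x) := by
  classical
  induction s using Finset.induction_on with
  | empty =>
    refine Clo.congr' (Clo.refl he (fun _ => (0 : ℝ))) ?_ ?_ <;> intro x _ <;> simp
  | insert i s his ih =>
    have h1 := (h i (Finset.mem_insert_self _ _)).add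
      (ih fun j hj => h j (Finset.mem_insert_of_mem hj))
    refine Clo.congr' h1 ?_ ?_ <;> intro x _ <;> rw [Finset.sum_insert his]

private theorem Bd.congr' {f g : V n → ℝ} (hf : Bd E u f) (hfg : ∀ x ∈ E, f x = g x) :
    Bd E u g := by
  intro a b δ ha hδ
  obtain ⟨C, hC, H⟩ := hf a b δ ha hδ
  exact ⟨C, hC, fun x hx hxa hN => by rw [← hfg x hx]; exact H x hx hxa hN⟩

private theorem Bd.const' (c : ℝ) : Bd E u (fun _ => c) := by
  intro a b δ _ _
  exact ⟨|c| + 1, by positivity, fun x _ _ _ => by linarith⟩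

private theorem Bd.add' {f g : V n → ℝ} (hf : Bd E u f) (hg : Bd E u g) :
    Bd E u (fun x => f x + g x) := by
  intro a b δ ha hδ
  obtain ⟨C, hC, H⟩ := hf a b δ ha hδ
  obtain ⟨C', hC', H'⟩ := hg a b δ ha hδ
  exact ⟨C + C', by linarith, fun x hx hxa hN =>
    (abs_add_le _ _).trans (add_le_add (H x hx hxa hN) (H' x hx hxa hN))⟩

private theorem Bd.mul' {f g : V n → ℝ} (hf : Bd E u f) (hg : Bd E u g) :
    Bd E u (fun x => f x * g x) := by
  intro a b δ ha hδ
  obtain ⟨C, hC, H⟩ := hf a b δ ha hδ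
  obtain ⟨C', hC', H'⟩ := hg a b δ ha hδ
  refine ⟨C * C', by positivity, fun x hx hxa hN => ?_⟩
  show |f x * g x| ≤ _
  rw [abs_mul]
  exact mul_le_mul (H x hx hxa hN) (H' x hx hxa hN) (abs_nonneg _) hC.le

private theorem Bd.neg' {f : V n → ℝ} (hf : Bd E u f) : Bd E u (fun x => - f x) := by
  intro a b δ ha hδ
  obtain ⟨C, hC, H⟩ := hf a b δ ha hδ
  exact ⟨C, hC, fun x hx hxa hN => by rw [abs_neg]; exact H x hx hxa hN⟩

private theorem Bd.sub' {f g : V n → ℝ} (hf : Bd E u f) (hg : Bd E u g) :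
    Bd E u (fun x => f x - g x) :=
  (hf.add' hg.neg').congr' fun x _ => by ring

private theorem Bd.pow' {f : V n → ℝ} (hf : Bd E u f) (m : ℕ) : Bd E u (fun x => f x ^ m) := by
  induction m with
  | zero => exact (Bd.const' 1).congr' fun x _ => by simp
  | succ m ih => exact (ih.mul' hf).congr' fun x _ => by rw [pow_succ]

private theorem Bd.sum' {ι : Type*} (s : Finset ι) {f : ι → V n → ℝ}
    (h : ∀ i ∈ s, Bd E u (f i)) : Bd E u (fun x => ∑ i ∈ s, f i x) := by
  classical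
  induction s using Finset.induction_on with
  | empty => exact (Bd.const' 0).congr' fun x _ => by simp
  | insert i s his ih =>
    exact ((h i (Finset.mem_insert_self _ _)).add'
      (ih fun j hj => h j (Finset.mem_insert_of_mem hj))).congr' fun x _ => by
        rw [Finset.sum_insert his]

private theorem bd_norm : Bd E u (fun x => ‖x‖) := by
  intro a b δ ha _
  refine ⟨|b| + 1, by positivity, fun x _ hxa _ => ?_⟩
  rw [abs_of_nonneg (norm_nonneg x)]
  have := hxa.2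
  have := le_abs_self b
  linarith

private theorem bd_norm_inv : Bd E u (fun x => ‖x‖⁻¹) := by
  intro a b δ ha _
  refine ⟨a⁻¹, by positivity, fun x _ hxa _ => ?_⟩
  rw [abs_of_nonneg (by positivity)]
  exact inv_anti₀ ha hxa.1

private theorem bd_coord (i : Fin n) : Bd E u (fun x => x i) := by
  intro a b δ ha _
  refine ⟨|b| + 1, by positivity, fun x _ hxa _ => ?_⟩
  have h1 : |x i| ≤ ‖x‖ := by
    have := PiLp.norm_apply_le x i
    simpa using this
  have := hxa.2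
  have := le_abs_self b
  linarith

private theorem Sol.bd_q (h : Sol E u) (i : Fin n) : Bd E u (q u i) := by
  intro a b δ ha _
  obtain ⟨C, c, hC, hc, H⟩ := h.bounds (a := a) (b := b) ha
  exact ⟨C, by linarith, fun x hx hxa _ => (H x hx hxa).1 i⟩

private theorem Sol.bd_S (h : Sol E u) (i j : Fin n) : Bd E u (S u i j) := by
  intro a b δ ha _
  obtain ⟨C, c, hC, hc, H⟩ := h.bounds (a := a) (b := b) ha
  exact ⟨C, by linarith, fun x hx hxa _ => (H x hx hxa).2.1 i j⟩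

private theorem Sol.bd_sg (h : Sol E u) : Bd E u (sg u) := by
  intro a b δ ha _
  obtain ⟨C, c, hC, hc, H⟩ := h.bounds (a := a) (b := b) ha
  exact ⟨C, by linarith, fun x hx hxa _ => (H x hx hxa).2.2.2.1⟩

private theorem Sol.bd_u (h : Sol E u) : Bd E u u := by
  intro a b δ ha _
  obtain ⟨C, c, hC, hc, H⟩ := h.bounds (a := a) (b := b) ha
  refine ⟨C, by linarith, fun x hx hxa _ => ?_⟩
  rw [abs_of_nonneg (h.nonneg x)]
  exact (H x hx hxa).2.2.2.2.2.2.2.2.2.2.1

private theorem Sol.bd_gg (h : Sol E u) : Bd E u (gg u) := by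
  change Bd E u (fun x => ∑ i, (q u i x) ^ 2)
  exact Bd.sum' _ fun i _ => (h.bd_q i).pow' 2

private theorem Sol.bd_pv (h : Sol E u) (i : Fin n) : Bd E u (fun x => pv u x i) := by
  refine ((h.bd_q i).sub' (h.bd_u.mul' ((bd_coord i).mul' (bd_norm_inv.pow' 2)))).congr' ?_
  intro x _
  simp only [pv]
  rw [inv_pow, div_eq_mul_inv]
  ring

private theorem Sol.bd_Sm (h : Sol E u) (i j : Fin n) : Bd E u (fun x => Sm u x i j) := by
  refine (bd_norm.mul' (h.bd_S i j)).congr' ?_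
  intro x _
  simp only [Sm, Matrix.of_apply]

private theorem Sol.bd_Sm_pow (h : Sol E u) (a : ℕ) :
    ∀ i j : Fin n, Bd E u (fun x => (Sm u x ^ a) i j) := by
  induction a with
  | zero =>
    intro i j
    refine (Bd.const' ((1 : Matrix (Fin n) (Fin n) ℝ) i j)).congr' ?_
    intro x _
    rw [pow_zero]
  | succ a ih =>
    intro i j
    refine (Bd.sum' Finset.univ (f := fun k x => (Sm u x ^ a) i k * Sm u x k j)
      fun k _ => (ih i k).mul' (h.bd_Sm k j)).congr' ?_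
    intro x _
    rw [pow_succ, Matrix.mul_apply]

private theorem Sol.bd_Sp (h : Sol E u) (a : ℕ) (i : Fin n) : Bd E u (fun x => Sp u x a i) := by
  refine (Bd.sum' Finset.univ (f := fun k x => (Sm u x ^ a) i k * pv u x k)
      fun k _ => (h.bd_Sm_pow a i k).mul' (h.bd_pv k)).congr' ?_
  intro x _
  rfl

private theorem Sol.bd_Mt (h : Sol E u) (A : Mt) (i j : Fin n) :
    Bd E u (fun x => A.val u x i j) := by
  cases A with
  | pow a => exact h.bd_Sm_pow a i j
  | sym a b =>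
    refine ((Bd.const' (1 / 2)).mul' (((h.bd_Sp a i).mul' (h.bd_Sp b j)).add'
      ((h.bd_Sp b i).mul' (h.bd_Sp a j)))).congr' ?_
    intro x _
    simp only [Mt.val, Matrix.of_apply]
    ring

private theorem Sol.bd_wedge (h : Sol E u) (a b : ℕ) (i j : Fin n) :
    Bd E u (fun x => wedge u x a b i j) := by
  refine (((h.bd_Sp a i).mul' (h.bd_Sp b j)).sub' ((h.bd_Sp b i).mul' (h.bd_Sp a j))).congr' ?_
  intro x _
  simp only [wedge, Matrix.of_apply]

private theorem Sol.bd_qform (h : Sol E u) (a : ℕ) :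
    Bd E u (fun x => pv u x ⬝ᵥ (Sm u x ^ a).mulVec (pv u x)) := by
  refine (Bd.sum' Finset.univ (f := fun k x => pv u x k * Sp u x a k)
      fun k _ => (h.bd_pv k).mul' (h.bd_Sp a k)).congr' ?_
  intro x _
  rfl

private theorem Sol.bd_u1 (h : Sol E u) : Bd E u (fun x => u x / ‖x‖) := by
  refine (h.bd_u.mul' bd_norm_inv).congr' ?_
  intro x _
  rw [div_eq_mul_inv]

private theorem Sol.bd_Fac (h : Sol E u) (f : Fac) : Bd E u (fun x => f.val u x) := by
  cases f with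
  | c3 =>
    exact (Bd.sum' Finset.univ (f := fun k x => (Sm u x ^ 3) k k)
      (fun k _ => h.bd_Sm_pow 3 k k)).congr' fun x _ => rfl
  | c4 =>
    exact (Bd.sum' Finset.univ (f := fun k x => (Sm u x ^ 4) k k)
      (fun k _ => h.bd_Sm_pow 4 k k)).congr' fun x _ => rfl
  | b0 => exact h.bd_gg
  | b1 =>
    refine (h.bd_qform 1).congr' ?_
    intro x _
    simp only [Fac.val, pow_one]
  | b2 => exact h.bd_qform 2
  | b3 => exact h.bd_qform 3
  | u2 => exact h.bd_u1.pow' 2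
  | u1 => exact h.bd_u1

private theorem Sol.bd_facs (h : Sol E u) (L : List Fac) : Bd E u (fun x => facsVal u x L) := by
  induction L with
  | nil => exact (Bd.const' 1).congr' fun x _ => by simp [facsVal]
  | cons f L ih =>
    refine ((h.bd_Fac f).mul' ih).congr' ?_
    intro x _
    simp [facsVal]

private theorem Sol.bd_ss (h : Sol E u) (e : ℝ) : Bd E u (fun x => ss u x ^ e) := by
  intro a b δ ha hδ
  obtain ⟨C, c, hC, hc, H⟩ := h.bounds (a := a) (b := b) ha
  refine ⟨(a * √δ) ^ e + ((|b| + 1) * √C) ^ e, ?_, fun x hx hxa hN => ?_⟩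
  · have h1 : 0 < a * √δ := by positivity
    have h2 : 0 < (|b| + 1) * √C := by
      have : 0 < C := by linarith
      positivity
    positivity
  · have hC0 : 0 < C := by linarith
    have h1 : 0 < a * √δ := by positivity
    have h2 : 0 < (|b| + 1) * √C := by positivity
    have hNC : NN u x ≤ C := (H x hx hxa).2.2.2.2.2.2.2.1
    have hx1 : a * √δ ≤ ss u x := by
      unfold ss
      exact mul_le_mul hxa.1 (Real.sqrt_le_sqrt hN) (Real.sqrt_nonneg _) (norm_nonneg _)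
    have hx2 : ss u x ≤ (|b| + 1) * √C := by
      unfold ss
      refine mul_le_mul ?_ (Real.sqrt_le_sqrt hNC) (Real.sqrt_nonneg _) (by positivity)
      have := hxa.2
      have := le_abs_self b
      linarith
    have hs : 0 < ss u x := lt_of_lt_of_le h1 hx1
    rw [abs_of_nonneg (by positivity)]
    have p1 : 0 < (a * √δ) ^ e := by positivity
    have p2 : 0 < ((|b| + 1) * √C) ^ e := by positivity
    rcases le_or_gt 0 e with he | he
    · have := Real.rpow_le_rpow hs.le hx2 he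
      linarith
    · have := Real.rpow_le_rpow_of_nonpos h1 hx1 he.le
      linarith

/-- every second order quantity is bounded -/
theorem Sol.bd_all (h : Sol E u) :
    Bd E u (gg u) ∧ (∀ i, Bd E u (q u i)) ∧ (∀ i, Bd E u (fun x => pv u x i)) ∧
    (∀ i j, Bd E u (fun x => Sm u x i j)) ∧ (∀ a i j, Bd E u (fun x => (Sm u x ^ a) i j)) ∧
    (∀ a i, Bd E u (fun x => Sp u x a i)) ∧ (∀ (A : Mt) i j, Bd E u (fun x => A.val u x i j)) ∧
    (∀ a b i j, Bd E u (fun x => wedge u x a b i j)) ∧ (∀ L, Bd E u (fun x => facsVal u x L)) ∧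
    (∀ e : ℝ, Bd E u (fun x => ss u x ^ e)) ∧ Bd E u (sg u) :=
  ⟨h.bd_gg, h.bd_q, h.bd_pv, h.bd_Sm, h.bd_Sm_pow, h.bd_Sp, h.bd_Mt, h.bd_wedge, h.bd_facs,
    h.bd_ss, h.bd_sg⟩

/-- the scaled eigenvalue `σ̃ = r σ` -/
noncomputable def sgt (u : V n → ℝ) (x : V n) : ℝ := ‖x‖ * sg u x

private theorem Sol.bd_sgt (h : Sol E u) : Bd E u (sgt u) := bd_norm.mul' h.bd_sg

private theorem Sol.er0_nonneg (h : Sol E u) : ∀ x ∈ E, 0 ≤ er0 u x := fun x _ =>
  add_nonneg (Real.sqrt_nonneg _) (h.nonneg x)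

private theorem Sol.Sm_q_clo (h : Sol E u) (i : Fin n) :
    Clo E u (er0 u) (fun x => ∑ j, Sm u x i j * q u j x) (fun x => sgt u x * q u i x) := by
  intro a b δ ha _
  refine ⟨|b| + 1, by positivity, fun x hx hxa _ => ?_⟩
  have e1 : ∑ j, Sm u x i j * q u j x - sgt u x * q u i x = ‖x‖ * aa u i x := by
    have e2 : ∑ j, Sm u x i j * q u j x = ‖x‖ * w u i x := by
      simp only [Sm, Matrix.of_apply, w]
      rw [Finset.mul_sum]
      exact Finset.sum_congr rfl fun j _ => by ring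
    rw [e2]
    simp only [sgt, aa]
    ring
  show |∑ j, Sm u x i j * q u j x - sgt u x * q u i x| ≤ _
  rw [e1, abs_mul, abs_of_nonneg (norm_nonneg x)]
  have h1 : |aa u i x| ≤ √(a2 u x) := by
    rw [← Real.sqrt_sq_eq_abs]
    apply Real.sqrt_le_sqrt
    exact Finset.single_le_sum (f := fun i => (aa u i x) ^ 2) (fun i _ => sq_nonneg _)
      (Finset.mem_univ i)
  have h2 : √(a2 u x) ≤ er0 u x := by
    unfold er0
    have := h.nonneg x
    linarith
  refine mul_le_mul ?_ (h1.trans h2) (abs_nonneg _) (by positivity)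
  have := hxa.2
  have := le_abs_self b
  linarith

/-- `S^a q = σ̃^a q + O(|a| + u)` -/
private theorem Sol.pow_q_clo' (h : Sol E u) (a : ℕ) : ∀ i : Fin n,
    Clo E u (er0 u) (fun x => ∑ j, (Sm u x ^ a) i j * q u j x)
      (fun x => sgt u x ^ a * q u i x) := by
  induction a with
  | zero =>
    intro i
    refine (Clo.refl h.er0_nonneg (q u i)).congr' ?_ ?_
    · intro x _
      rw [pow_zero]
      simp [Matrix.one_apply]
    · intro x _
      rw [pow_zero, one_mul]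
  | succ a ih =>
    intro i
    -- `Sm^(a+1) q = Sm (Sm^a q)`
    have h1 : Clo E u (er0 u) (fun x => ∑ k, Sm u x i k * ∑ j, (Sm u x ^ a) k j * q u j x)
        (fun x => ∑ k, Sm u x i k * (sgt u x ^ a * q u k x)) :=
      Clo.sum' h.er0_nonneg Finset.univ fun k _ =>
        (Clo.refl h.er0_nonneg (fun x => Sm u x i k)).mul (ih k) (h.bd_Sm i k)
          ((h.bd_sgt.pow' a).mul' (h.bd_q k))
    have h2 : Clo E u (er0 u) (fun x => sgt u x ^ a * ∑ k, Sm u x i k * q u k x)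
        (fun x => sgt u x ^ a * (sgt u x * q u i x)) :=
      (Clo.refl h.er0_nonneg (fun x => sgt u x ^ a)).mul (h.Sm_q_clo i) (h.bd_sgt.pow' a)
        (h.bd_sgt.mul' (h.bd_q i))
    have h1' : Clo E u (er0 u) (fun x => ∑ j, (Sm u x ^ (a + 1)) i j * q u j x)
        (fun x => sgt u x ^ a * ∑ k, Sm u x i k * q u k x) := by
      refine h1.congr' ?_ ?_
      · intro x _
        have e1 : ∀ j, (Sm u x ^ (a + 1)) i j = ∑ k, Sm u x i k * (Sm u x ^ a) k j := by
          intro j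
          rw [pow_succ', Matrix.mul_apply]
        simp only [e1, Finset.sum_mul, Finset.mul_sum]
        rw [Finset.sum_comm]
        refine Finset.sum_congr rfl fun j _ => Finset.sum_congr rfl fun k _ => ?_
        ring
      · intro x _
        rw [Finset.mul_sum]
        exact Finset.sum_congr rfl fun k _ => by ring
    refine (h1'.trans' h2).congr' (fun _ _ => rfl) ?_
    intro x _
    rw [pow_succ]
    ring

private theorem Sol.pv_clo (h : Sol E u) (i : Fin n) :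
    Clo E u (er0 u) (fun x => pv u x i) (q u i) := by
  intro a b δ ha _
  refine ⟨a⁻¹, by positivity, fun x hx hxa _ => ?_⟩
  have hx0 : 0 < ‖x‖ := lt_of_lt_of_le ha hxa.1
  have e1 : pv u x i - q u i x = - (u x * (x i / ‖x‖ ^ 2)) := by
    simp only [pv]
    ring
  show |pv u x i - q u i x| ≤ _
  rw [e1, abs_neg, abs_mul, abs_of_nonneg (h.nonneg x)]
  have h1 : |x i| ≤ ‖x‖ := by
    have := PiLp.norm_apply_le x i
    simpa using this
  have h2 : |x i / ‖x‖ ^ 2| ≤ a⁻¹ := by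
    rw [abs_div, abs_of_nonneg (by positivity : (0 : ℝ) ≤ ‖x‖ ^ 2)]
    calc |x i| / ‖x‖ ^ 2 ≤ ‖x‖ / ‖x‖ ^ 2 := by gcongr
      _ = ‖x‖⁻¹ := by field_simp
      _ ≤ a⁻¹ := inv_anti₀ ha hxa.1
  have h3 : u x ≤ er0 u x := by
    unfold er0
    have := Real.sqrt_nonneg (a2 u x)
    linarith
  calc u x * |x i / ‖x‖ ^ 2| ≤ er0 u x * a⁻¹ :=
        mul_le_mul h3 h2 (abs_nonneg _) (h.er0_nonneg x hx)
    _ = a⁻¹ * er0 u x := mul_comm _ _

/-- `S^a p = σ̃^a q + O(|a| + u)` -/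
theorem Sol.Sp_clo (h : Sol E u) (a : ℕ) (i : Fin n) :
    Clo E u (er0 u) (fun x => Sp u x a i) (fun x => sgt u x ^ a * q u i x) := by
  have h1 : Clo E u (er0 u) (fun x => ∑ k, (Sm u x ^ a) i k * pv u x k)
      (fun x => ∑ k, (Sm u x ^ a) i k * q u k x) :=
    Clo.sum' h.er0_nonneg Finset.univ fun k _ =>
      (Clo.refl h.er0_nonneg (fun x => (Sm u x ^ a) i k)).mul (h.pv_clo k) (h.bd_Sm_pow a i k)
        (h.bd_q k)
  exact (h1.trans' (h.pow_q_clo' a i)).congr' (fun _ _ => rfl) (fun _ _ => rfl)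

/-- `S^a q = σ̃^a q + O(|a| + u)` -/
theorem Sol.pow_q_clo (h : Sol E u) (a : ℕ) (i : Fin n) :
    Clo E u (er0 u) (fun x => ∑ j, (Sm u x ^ a) i j * q u j x)
      (fun x => sgt u x ^ a * q u i x) := h.pow_q_clo' a i

/-- approximate eigenvalue of `A` on `q` -/
noncomputable def Mt.ev (u : V n → ℝ) (x : V n) : Mt → ℝ
  | .pow a => sgt u x ^ a
  | .sym a b => sgt u x ^ (a + b) * gg u x

private theorem Sol.Sp_q_clo (h : Sol E u) (a : ℕ) :
    Clo E u (er0 u) (fun x => ∑ j, Sp u x a j * q u j x) (fun x => sgt u x ^ a * gg u x) := by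
  have h1 : Clo E u (er0 u) (fun x => ∑ j, Sp u x a j * q u j x)
      (fun x => ∑ j, (sgt u x ^ a * q u j x) * q u j x) :=
    Clo.sum' h.er0_nonneg Finset.univ fun j _ =>
      (h.Sp_clo a j).mul (Clo.refl h.er0_nonneg (q u j)) (h.bd_Sp a j) (h.bd_q j)
  refine h1.congr' (fun _ _ => rfl) ?_
  intro x _
  simp only [gg]
  rw [Finset.mul_sum]
  exact Finset.sum_congr rfl fun j _ => by ring

private theorem Sol.bd_Sp_q (h : Sol E u) (a : ℕ) :
    Bd E u (fun x => ∑ j, Sp u x a j * q u j x) :=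
  Bd.sum' Finset.univ (f := fun j x => Sp u x a j * q u j x)
    fun j _ => (h.bd_Sp a j).mul' (h.bd_q j)

theorem Sol.Mt_q_clo (h : Sol E u) (A : Mt) (i : Fin n) :
    Clo E u (er0 u) (fun x => ∑ j, A.val u x i j * q u j x) (fun x => A.ev u x * q u i x) := by
  cases A with
  | pow a => exact h.pow_q_clo a i
  | sym a b =>
    have h1 : Clo E u (er0 u) (fun x => Sp u x a i * ∑ j, Sp u x b j * q u j x)
        (fun x => (sgt u x ^ a * q u i x) * (sgt u x ^ b * gg u x)) :=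
      (h.Sp_clo a i).mul (h.Sp_q_clo b) (h.bd_Sp a i) ((h.bd_sgt.pow' b).mul' h.bd_gg)
    have h2 : Clo E u (er0 u) (fun x => Sp u x b i * ∑ j, Sp u x a j * q u j x)
        (fun x => (sgt u x ^ b * q u i x) * (sgt u x ^ a * gg u x)) :=
      (h.Sp_clo b i).mul (h.Sp_q_clo a) (h.bd_Sp b i) ((h.bd_sgt.pow' a).mul' h.bd_gg)
    have hbd1 : Bd E u (fun x => (sgt u x ^ a * q u i x) * (sgt u x ^ b * gg u x)) :=
      ((h.bd_sgt.pow' a).mul' (h.bd_q i)).mul' ((h.bd_sgt.pow' b).mul' h.bd_gg)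
    have hbd2 : Bd E u (fun x => (sgt u x ^ b * q u i x) * (sgt u x ^ a * gg u x)) :=
      ((h.bd_sgt.pow' b).mul' (h.bd_q i)).mul' ((h.bd_sgt.pow' a).mul' h.bd_gg)
    have h3 := (Clo.refl h.er0_nonneg (fun _ : V n => (1 / 2 : ℝ))).mul (h1.add h2)
      (Bd.const' (1 / 2)) (hbd1.add' hbd2)
    refine h3.congr' ?_ ?_
    · intro x _
      simp only [Mt.val, Matrix.of_apply]
      rw [Finset.mul_sum, Finset.mul_sum, ← Finset.sum_add_distrib, Finset.mul_sum]
      exact Finset.sum_congr rfl fun j _ => by ring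
    · intro x _
      simp only [Mt.ev]
      rw [pow_add]
      ring

theorem Sol.wedge_q_clo (h : Sol E u) (a b : ℕ) (l : Fin n) :
    Clo E u (er0 u) (fun x => ∑ k, q u k x * wedge u x a b k l) (fun _ => 0) := by
  have h1 : Clo E u (er0 u) (fun x => (∑ j, Sp u x a j * q u j x) * Sp u x b l)
      (fun x => (sgt u x ^ a * gg u x) * (sgt u x ^ b * q u l x)) :=
    (h.Sp_q_clo a).mul (h.Sp_clo b l) (h.bd_Sp_q a) ((h.bd_sgt.pow' b).mul' (h.bd_q l))
  have h2 : Clo E u (er0 u) (fun x => (∑ j, Sp u x b j * q u j x) * Sp u x a l)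
      (fun x => (sgt u x ^ b * gg u x) * (sgt u x ^ a * q u l x)) :=
    (h.Sp_q_clo b).mul (h.Sp_clo a l) (h.bd_Sp_q b) ((h.bd_sgt.pow' a).mul' (h.bd_q l))
  have hbd2 : Bd E u (fun x => (sgt u x ^ b * gg u x) * (sgt u x ^ a * q u l x)) :=
    ((h.bd_sgt.pow' b).mul' h.bd_gg).mul' ((h.bd_sgt.pow' a).mul' (h.bd_q l))
  have h3 := h1.add ((Clo.refl h.er0_nonneg (fun _ : V n => (-1 : ℝ))).mul h2
    (Bd.const' (-1)) hbd2)
  refine h3.congr' ?_ ?_
  · intro x _
    simp only [wedge, Matrix.of_apply]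
    rw [Finset.sum_mul, Finset.sum_mul, Finset.mul_sum, ← Finset.sum_add_distrib]
    exact Finset.sum_congr rfl fun j _ => by ring
  · intro x _
    ring

end OPC
end

section

section

/-! # U02: general weight: growth of the derivatives of the factors near `S = 0` -/

open MeasureTheory Set Filter Topology

namespace OPC

variable {n : ℕ} {E : Set (V n)} {u : V n → ℝ}

/-- growth of weight `m` near `S = 0`, with the matching growth of the first derivatives -/
private structure GW (E : Set (V n)) (u : V n → ℝ) (m : ℕ) (f : V n → ℝ) : Prop where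
  sm : ContDiffOn ℝ 1 f E
  bd : ∀ a b : ℝ, 0 < a → ∃ C, 1 ≤ C ∧ ∀ x ∈ E, x ∈ Ann a b →
    |f x| ≤ C * √(NN u x) ^ m ∧
      ∀ k, |pd k f x| * √(NN u x) ≤ C * √(NN u x) ^ m * (√(TT u x) + √(NN u x))

private theorem GW.diffAt (h : Sol E u) {m : ℕ} {f : V n → ℝ} (hf : GW E u m f) {x : V n}
    (hx : x ∈ E) : DifferentiableAt ℝ f x :=
  (hf.sm.contDiffAt (h.isOpen.mem_nhds hx)).differentiableAt (by norm_num)

private theorem GW.zero (m : ℕ) : GW E u m (fun _ => 0) := by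
  refine ⟨contDiffOn_const, fun a b _ => ⟨1, le_rfl, fun x _ _ => ⟨?_, fun k => ?_⟩⟩⟩
  · rw [abs_zero]
    positivity
  · rw [pd_const, abs_zero, zero_mul]
    positivity

private theorem GW.const (c : ℝ) : GW E u 0 (fun _ => c) := by
  refine ⟨contDiffOn_const, fun a b _ => ⟨max 1 |c|, le_max_left _ _, fun x _ _ => ⟨?_, fun k => ?_⟩⟩⟩
  · rw [pow_zero, mul_one]
    exact le_max_right _ _
  · rw [pd_const, abs_zero, zero_mul]
    positivity

private theorem GW.add (h : Sol E u) {m : ℕ} {f g : V n → ℝ} (hf : GW E u m f)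
    (hg : GW E u m g) : GW E u m (fun x => f x + g x) := by
  refine ⟨hf.sm.add hg.sm, fun a b ha => ?_⟩
  obtain ⟨C, hC, h1⟩ := hf.bd a b ha
  obtain ⟨D, hD, h2⟩ := hg.bd a b ha
  refine ⟨C + D, by linarith, fun x hx hxa => ?_⟩
  obtain ⟨h3, h4⟩ := h1 x hx hxa
  obtain ⟨h5, h6⟩ := h2 x hx hxa
  refine ⟨(abs_add_le _ _).trans ((add_le_add h3 h5).trans (le_of_eq (by ring))), fun k => ?_⟩
  rw [pd_add (hf.diffAt h hx) (hg.diffAt h hx)]
  have h7 : |pd k f x + pd k g x| * √(NN u x) ≤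
      |pd k f x| * √(NN u x) + |pd k g x| * √(NN u x) := by
    rw [← add_mul]
    exact mul_le_mul_of_nonneg_right (abs_add_le _ _) (Real.sqrt_nonneg _)
  refine h7.trans ((add_le_add (h4 k) (h6 k)).trans (le_of_eq (by ring)))

private theorem GW.mul (h : Sol E u) {m l : ℕ} {f g : V n → ℝ} (hf : GW E u m f)
    (hg : GW E u l g) : GW E u (m + l) (fun x => f x * g x) := by
  refine ⟨hf.sm.mul hg.sm, fun a b ha => ?_⟩
  obtain ⟨C, hC, h1⟩ := hf.bd a b ha
  obtain ⟨D, hD, h2⟩ := hg.bd a b ha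
  refine ⟨2 * C * D, by nlinarith, fun x hx hxa => ?_⟩
  obtain ⟨h3, h4⟩ := h1 x hx hxa
  obtain ⟨h5, h6⟩ := h2 x hx hxa
  have hs : 0 ≤ √(NN u x) := Real.sqrt_nonneg _
  have hCD : 0 ≤ C * D * √(NN u x) ^ (m + l) := by positivity
  refine ⟨?_, fun k => ?_⟩
  · rw [abs_mul]
    refine (mul_le_mul h3 h5 (abs_nonneg _) (by positivity)).trans ?_
    rw [pow_add] at hCD ⊢
    nlinarith
  · rw [pd_mul (hf.diffAt h hx) (hg.diffAt h hx)]
    have h7 : |pd k f x * g x + f x * pd k g x| * √(NN u x) ≤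
        (|pd k f x| * √(NN u x)) * |g x| + |f x| * (|pd k g x| * √(NN u x)) := by
      have := mul_le_mul_of_nonneg_right (abs_add_le (pd k f x * g x) (f x * pd k g x)) hs
      rw [abs_mul, abs_mul] at this
      refine this.trans (le_of_eq (by ring))
    refine h7.trans ?_
    have h8 := mul_le_mul (h4 k) h5 (abs_nonneg _) (by positivity)
    have h9 := mul_le_mul h3 (h6 k) (by positivity) (by positivity)
    refine (add_le_add h8 h9).trans (le_of_eq ?_)
    rw [pow_add]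
    ring

private theorem GW.sum (h : Sol E u) {ι : Type*} (s : Finset ι) {m : ℕ} {f : ι → V n → ℝ}
    (hf : ∀ i ∈ s, GW E u m (f i)) : GW E u m (fun x => ∑ i ∈ s, f i x) := by
  classical
  induction s using Finset.induction_on with
  | empty => simpa using GW.zero (E := E) (u := u) m
  | insert i s hi ih =>
    simp only [Finset.sum_insert hi]
    exact GW.add h (hf i (Finset.mem_insert_self _ _))
      (ih fun j hj => hf j (Finset.mem_insert_of_mem hj))

private theorem GW.congr (h : Sol E u) {m : ℕ} {f g : V n → ℝ} (hf : GW E u m f)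
    (hfg : ∀ x ∈ E, g x = f x) : GW E u m g := by
  refine ⟨hf.sm.congr fun x hx => hfg x hx, fun a b ha => ?_⟩
  obtain ⟨C, hC, h1⟩ := hf.bd a b ha
  refine ⟨C, hC, fun x hx hxa => ?_⟩
  rw [hfg x hx]
  refine ⟨(h1 x hx hxa).1, fun k => ?_⟩
  rw [pd_congr h.isOpen (f := g) (g := f) (fun y hy => hfg y hy) k x hx]
  exact (h1 x hx hxa).2 k

/-- bounded functions with bounded derivatives have weight `0` -/
private theorem GW.of_bd {f : V n → ℝ} (hf : ContDiffOn ℝ 1 f E)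
    (hb : ∀ a b : ℝ, 0 < a → ∃ C, 1 ≤ C ∧ ∀ x ∈ E, x ∈ Ann a b → |f x| ≤ C ∧
      ∀ k, |pd k f x| ≤ C) : GW E u 0 f := by
  refine ⟨hf, fun a b ha => ?_⟩
  obtain ⟨C, hC, h1⟩ := hb a b ha
  refine ⟨C, hC, fun x hx hxa => ⟨?_, fun k => ?_⟩⟩
  · rw [pow_zero, mul_one]
    exact (h1 x hx hxa).1
  · rw [pow_zero, mul_one]
    have h2 : 0 ≤ √(TT u x) := Real.sqrt_nonneg _
    have h3 : 0 ≤ √(NN u x) := Real.sqrt_nonneg _
    exact mul_le_mul ((h1 x hx hxa).2 k) (by linarith) h3 (by linarith)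

private theorem GW.rpow (h : Sol E u) {f : V n → ℝ} (hf : GW E u 0 f)
    (hpos : ∀ x ∈ E, 0 < f x)
    (hlow : ∀ a b : ℝ, 0 < a → ∃ c, 0 < c ∧ ∀ x ∈ E, x ∈ Ann a b → c ≤ f x)
    (r : ℝ) : GW E u 0 (fun x => f x ^ r) := by
  refine ⟨fun x hx => ?_, fun a b ha => ?_⟩
  · exact (hf.sm x hx).rpow_const_of_ne (hpos x hx).ne'
  · obtain ⟨C, hC, h1⟩ := hf.bd a b ha
    obtain ⟨c, hc, h2⟩ := hlow a b ha
    have key : ∀ s : ℝ, ∃ D, 1 ≤ D ∧ ∀ y, c ≤ y → y ≤ C → y ^ s ≤ D := by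
      intro s
      refine ⟨max 1 (max (c ^ s) (C ^ s)), le_max_left _ _, fun y hy1 hy2 => ?_⟩
      have hy0 : 0 < y := lt_of_lt_of_le hc hy1
      rcases le_total 0 s with hs | hs
      · exact (Real.rpow_le_rpow hy0.le hy2 hs).trans ((le_max_right _ _).trans (le_max_right _ _))
      · exact (Real.rpow_le_rpow_of_nonpos hc hy1 hs).trans
          ((le_max_left _ _).trans (le_max_right _ _))
    obtain ⟨D, hD, h3⟩ := key r
    obtain ⟨D', hD', h4⟩ := key (r - 1)
    refine ⟨D + |r| * D' * C, ?_, fun x hx hxa => ?_⟩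
    · have : 0 ≤ |r| * D' * C := by positivity
      linarith
    · obtain ⟨h5, h6⟩ := h1 x hx hxa
      have h7 := h2 x hx hxa
      have hf0 : 0 < f x := lt_of_lt_of_le hc h7
      rw [abs_of_pos hf0, pow_zero, mul_one] at h5
      have h8 := h3 _ h7 h5
      have h9 := h4 _ h7 h5
      have hp : 0 ≤ |r| * D' * C := by positivity
      refine ⟨?_, fun k => ?_⟩
      · rw [abs_of_pos (Real.rpow_pos_of_pos hf0 _), pow_zero, mul_one]
        linarith
      · have h6k := h6 k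
        rw [pow_zero, mul_one] at h6k ⊢
        rw [pd_comp (φ := fun t => t ^ r) (Real.differentiableAt_rpow_const_of_ne _ hf0.ne')
          (hf.diffAt h hx)]
        rw [Real.deriv_rpow_const, abs_mul, abs_mul, abs_of_pos (Real.rpow_pos_of_pos hf0 _)]
        have h10 : |r| * f x ^ (r - 1) ≤ |r| * D' := mul_le_mul_of_nonneg_left h9 (abs_nonneg _)
        have h11 : |r| * f x ^ (r - 1) * (|pd k f x| * √(NN u x)) ≤
            |r| * D' * (C * (√(TT u x) + √(NN u x))) :=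
          mul_le_mul h10 h6k (by positivity) (by positivity)
        have h12 : 0 ≤ D * (√(TT u x) + √(NN u x)) := by positivity
        nlinarith

private theorem GW.pow (h : Sol E u) {f : V n → ℝ} (hf : GW E u 0 f) (k : ℕ) :
    GW E u 0 (fun x => f x ^ k) := by
  induction k with
  | zero => simpa using GW.const (E := E) (u := u) 1
  | succ k ih =>
    simp only [pow_succ]
    exact GW.mul h ih hf

private theorem u2_T (k i j : Fin n) (x : V n) : |T u k i j x| ≤ √(TT u x) := by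
  apply Real.abs_le_sqrt
  have h1 : (T u k i j x) ^ 2 ≤ ∑ j, (T u k i j x) ^ 2 :=
    Finset.single_le_sum (f := fun j => (T u k i j x) ^ 2) (fun _ _ => sq_nonneg _)
      (Finset.mem_univ j)
  have h2 : ∑ j, (T u k i j x) ^ 2 ≤ ∑ i, ∑ j, (T u k i j x) ^ 2 :=
    Finset.single_le_sum (f := fun i => ∑ j, (T u k i j x) ^ 2)
      (fun _ _ => Finset.sum_nonneg fun _ _ => sq_nonneg _) (Finset.mem_univ i)
  have h3 : ∑ i, ∑ j, (T u k i j x) ^ 2 ≤ ∑ k, ∑ i, ∑ j, (T u k i j x) ^ 2 :=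
    Finset.single_le_sum (f := fun k => ∑ i, ∑ j, (T u k i j x) ^ 2)
      (fun _ _ => Finset.sum_nonneg fun _ _ => Finset.sum_nonneg fun _ _ => sq_nonneg _)
      (Finset.mem_univ k)
  exact (h1.trans h2).trans h3

private theorem u2_S (i j : Fin n) (x : V n) : |S u i j x| ≤ √(NN u x) := by
  apply Real.abs_le_sqrt
  have h1 : (S u i j x) ^ 2 ≤ ∑ j, (S u i j x) ^ 2 :=
    Finset.single_le_sum (f := fun j => (S u i j x) ^ 2) (fun _ _ => sq_nonneg _)
      (Finset.mem_univ j)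
  have h2 : ∑ j, (S u i j x) ^ 2 ≤ ∑ i, ∑ j, (S u i j x) ^ 2 :=
    Finset.single_le_sum (f := fun i => ∑ j, (S u i j x) ^ 2)
      (fun _ _ => Finset.sum_nonneg fun _ _ => sq_nonneg _) (Finset.mem_univ i)
  exact h1.trans h2

private theorem GW.coord (i : Fin n) : GW E u 0 (fun x => x i) := by
  refine GW.of_bd (EuclideanSpace.proj i : V n →L[ℝ] ℝ).contDiff.contDiffOn
    fun a b ha => ⟨max 1 b, le_max_left _ _, fun x hx hxa => ⟨?_, fun k => ?_⟩⟩
  · have h1 : |x i| ≤ ‖x‖ := by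
      rw [← Real.norm_eq_abs]
      exact PiLp.norm_apply_le x i
    exact h1.trans (hxa.2.trans (le_max_right _ _))
  · rw [pd_coord]
    have h1 : |(if k = i then (1 : ℝ) else 0)| ≤ 1 := by
      split_ifs <;> simp
    exact h1.trans (le_max_left _ _)

private theorem GW.slf (h : Sol E u) : GW E u 0 u := by
  refine GW.of_bd (h.smooth.of_le one_le_top') fun a b ha => ?_
  obtain ⟨C, c, hC, hc, h1⟩ := h.bounds (b := b) ha
  refine ⟨C, hC, fun x hx hxa => ⟨?_, fun k => ?_⟩⟩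
  · rw [abs_of_nonneg (h.nonneg x)]
    exact (h1 x hx hxa).2.2.2.2.2.2.2.2.2.2.1
  · exact (h1 x hx hxa).1 k

private theorem GW.q (h : Sol E u) (i : Fin n) : GW E u 0 (q u i) := by
  refine GW.of_bd ((h.smooth_q i).of_le one_le_top') fun a b ha => ?_
  obtain ⟨C, c, hC, hc, h1⟩ := h.bounds (b := b) ha
  refine ⟨C, hC, fun x hx hxa => ⟨(h1 x hx hxa).1 i, fun k => ?_⟩⟩
  rw [pd_q]
  exact (h1 x hx hxa).2.1 k i

private theorem GW.S (h : Sol E u) (i j : Fin n) : GW E u 1 (S u i j) := by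
  refine ⟨(h.smooth_S i j).of_le one_le_top', fun a b ha => ?_⟩
  refine ⟨1, le_rfl, fun x hx hxa => ⟨?_, fun k => ?_⟩⟩
  · rw [pow_one, one_mul]
    exact u2_S i j x
  · rw [pd_S, pow_one, one_mul, mul_comm]
    have h2 := u2_T (u := u) k i j x
    have h3 : 0 ≤ √(NN u x) := Real.sqrt_nonneg _
    exact mul_le_mul_of_nonneg_left (by linarith) h3

private theorem GW.gg (h : Sol E u) : GW E u 0 (gg u) :=
  GW.sum h _ fun i _ => GW.pow h (GW.q h i) 2

private theorem GW.normsq (h : Sol E u) : GW E u 0 (fun x => ‖x‖ ^ 2) := by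
  refine GW.congr h (GW.sum h Finset.univ fun i _ => GW.pow h (GW.coord i) 2) fun x hx => ?_
  rw [norm_sq_eq_sum]

private theorem GW.norm_rpow (h : Sol E u) (r : ℝ) : GW E u 0 (fun x => ‖x‖ ^ r) := by
  refine GW.congr h (GW.rpow h (GW.normsq h) (fun x hx => ?_) (fun a b ha => ?_) (r / 2))
    fun x hx => ?_
  · have := norm_pos_iff.2 (h.ne_zero hx)
    positivity
  · refine ⟨a ^ 2, by positivity, fun x hx hxa => ?_⟩
    exact pow_le_pow_left₀ ha.le hxa.1 2
  · rw [← Real.rpow_natCast, ← Real.rpow_mul (norm_nonneg _)]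
    congr 1
    push_cast
    ring

private theorem GW.norm (h : Sol E u) : GW E u 0 (fun x => ‖x‖) := by
  refine GW.congr h (GW.norm_rpow h 1) fun x hx => ?_
  rw [Real.rpow_one]

private theorem GW.norm_zpow (h : Sol E u) (k : ℤ) : GW E u 0 (fun x => ‖x‖ ^ k) := by
  refine GW.congr h (GW.norm_rpow h k) fun x hx => ?_
  rw [Real.rpow_intCast]

private theorem GW.cast {m l : ℕ} {f : V n → ℝ} (hf : GW E u m f) (hml : m = l) : GW E u l f :=
  hml ▸ hf

private theorem GW.Sm (h : Sol E u) (i j : Fin n) : GW E u 1 (fun x => Sm u x i j) := by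
  refine GW.congr h ((GW.mul h (GW.norm h) (GW.S h i j)).cast (by omega)) fun x hx => ?_
  simp [OPC.Sm]

private theorem GW.Sm_pow (h : Sol E u) (a : ℕ) (i j : Fin n) :
    GW E u a (fun x => (OPC.Sm u x ^ a) i j) := by
  induction a generalizing i j with
  | zero =>
    simp only [pow_zero, Matrix.one_apply]
    exact GW.const _
  | succ a ih =>
    simp only [pow_succ, Matrix.mul_apply]
    exact GW.sum h _ fun k _ => GW.mul h (ih i k) (GW.Sm h k j)

private theorem GW.pv (h : Sol E u) (i : Fin n) : GW E u 0 (fun x => pv u x i) := by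
  refine GW.congr h (GW.add h (GW.q h i) (GW.mul h (GW.const (-1))
    (GW.mul h (GW.mul h (GW.slf h) (GW.coord i)) (GW.norm_zpow h (-2))))) fun x hx => ?_
  have h0 : ‖x‖ ≠ 0 := (norm_pos_iff.2 (h.ne_zero hx)).ne'
  have h1 : ‖x‖ ^ (-2 : ℤ) = (‖x‖ ^ 2)⁻¹ := by
    rw [zpow_neg]; rfl
  simp only [OPC.pv, h1]
  field_simp
  ring

private theorem GW.Fac (h : Sol E u) (f : Fac) : GW E u f.wt (fun x => f.val u x) := by
  have hb : ∀ a, GW E u a (fun x => OPC.pv u x ⬝ᵥ (OPC.Sm u x ^ a).mulVec (OPC.pv u x)) := by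
    intro a
    simp only [Matrix.mulVec, dotProduct]
    exact GW.sum h _ fun i _ => (GW.mul h (GW.pv h i)
      (GW.sum h _ fun k _ => GW.mul h (GW.Sm_pow h a i k) (GW.pv h k))).cast (by omega)
  have ht : ∀ a, GW E u a (fun x => Matrix.trace (OPC.Sm u x ^ a)) := by
    intro a
    simp only [Matrix.trace, Matrix.diag]
    exact GW.sum h _ fun i _ => GW.Sm_pow h a i i
  have hu : GW E u 0 (fun x => u x / ‖x‖) := by
    refine GW.congr h (GW.mul h (GW.slf h) (GW.norm_zpow h (-1))) fun x hx => ?_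
    rw [zpow_neg_one, div_eq_mul_inv]
  cases f with
  | c3 => exact ht 3
  | c4 => exact ht 4
  | b0 => exact GW.gg h
  | b1 =>
    have := hb 1
    simp only [pow_one] at this
    exact this
  | b2 => exact hb 2
  | b3 => exact hb 3
  | u2 => exact GW.pow h hu 2
  | u1 => exact hu

private theorem GW.facs (h : Sol E u) (L : List OPC.Fac) :
    GW E u (L.map OPC.Fac.wt).sum (fun x => facsVal u x L) := by
  induction L with
  | nil => exact (GW.const (E := E) (u := u) 1).congr h fun x _ => by simp [facsVal]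
  | cons f L ih =>
    refine ((GW.mul h (GW.Fac h f) ih).congr h fun x _ => ?_).cast ?_
    · simp [facsVal]
    · simp

/-- `|∂_k (facs)| |S| ≤ C |S|^wt (|T| + |S|)` on annuli.
Sketch: first for one factor. Entries of `Sm` are `O(|S|)` with derivatives `O(|T| + |S|)`
(`∂_k (‖x‖ S_ij) = (x_k/‖x‖) S_ij + ‖x‖ T_kij`), entries of `pv` are `O(1)` with derivatives `O(1)`,
hence entries of `(Sm)^a` are `O(|S|^a)` and their derivatives times `|S|` are
`O(|S|^a (|T| + |S|))` (induction on `a`, product rule); `c3, c4` = traces, `b_a` =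
`∑ pv_i (Sm^a)_ij pv_j` (`a = 1, 2, 3`), `∂_k gg = 2 w_k = O(|S|)`, `u/‖x‖` has bounded derivative;
`|S| ≤ C`. Then products: product rule with `|facsVal| ≤ C |S|^wt` (`Sol.sizes`). Constants from
`Sol.bounds`; `NN = |S|²`, `TT = |T|²`. -/
theorem Sol.facs_pd_growth (h : Sol E u) (L : List Fac) {a b : ℝ} (ha : 0 < a) :
    ∃ C, 1 ≤ C ∧ ∀ x ∈ E, x ∈ Ann a b → ∀ k,
      |pd k (fun y => facsVal u y L) x| * √(NN u x) ≤
        C * √(NN u x) ^ (L.map Fac.wt).sum * (√(TT u x) + √(NN u x)) := by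
  obtain ⟨C, hC, h1⟩ := (GW.facs h L).bd a b ha
  exact ⟨C, hC, fun x hx hxa k => (h1 x hx hxa).2 k⟩

end OPC
end

section

/-! # U03: general weight: growth near `S = 0` -/

open MeasureTheory Set Filter Topology

namespace OPC

variable {n : ℕ} {E : Set (V n)} {u : V n → ℝ}

private theorem u3_NN0 (u : V n → ℝ) (x : V n) : 0 ≤ NN u x :=
  Finset.sum_nonneg fun _ _ => Finset.sum_nonneg fun _ _ => sq_nonneg _

private theorem u3_TT0 (u : V n → ℝ) (x : V n) : 0 ≤ TT u x :=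
  Finset.sum_nonneg fun _ _ => Finset.sum_nonneg fun _ _ => Finset.sum_nonneg fun _ _ => sq_nonneg _

private theorem u3_pd_normsq (k : Fin n) (x : V n) : pd k (fun y : V n => ‖y‖ ^ 2) x = 2 * x k := by
  have e1 : (fun y : V n => ‖y‖ ^ 2) = fun y => ∑ i, (y i) ^ 2 := by
    funext y
    exact norm_sq_eq_sum y
  have hd : ∀ i : Fin n, DifferentiableAt ℝ (fun y : V n => y i) x := fun i =>
    (EuclideanSpace.proj i : V n →L[ℝ] ℝ).differentiableAt
  have hd2 : ∀ i ∈ (Finset.univ : Finset (Fin n)),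
      DifferentiableAt ℝ (fun y : V n => (y i) ^ 2) x := fun i _ => (hd i).pow 2
  rw [e1, pd_sum _ hd2]
  have e2 : ∀ i, pd k (fun y : V n => (y i) ^ 2) x = if k = i then 2 * x i else 0 := by
    intro i
    rw [pd_pow (hd i), pd_coord]
    split_ifs <;> simp
  rw [Finset.sum_congr rfl fun i _ => e2 i]
  simp

private theorem u3_half {N e : ℝ} (hN0 : 0 ≤ N) : N ^ (e / 2) = √N ^ e := by
  rw [Real.sqrt_eq_rpow, ← Real.rpow_mul hN0]
  congr 1
  ring

private theorem u3_r {a b : ℝ} {x : V n} (hx : x ∈ Ann a b) : ‖x‖ ≤ |b| + 1 :=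
  (hx.2.trans (le_abs_self b)).trans (by linarith)

/-- powers of `‖x‖²` are bounded on annuli -/
private theorem u3_rb {a b : ℝ} (ha : 0 < a) (e : ℝ) : ∃ C, 1 ≤ C ∧
    ∀ x : V n, x ∈ Ann a b → 0 < ‖x‖ ∧ (‖x‖ ^ 2) ^ e ≤ C := by
  refine ⟨max 1 (max ((a ^ 2) ^ e) (((|b| + 1) ^ 2) ^ e)), le_max_left _ _, fun x hx => ?_⟩
  have h1 : a ≤ ‖x‖ := hx.1
  have h2 : ‖x‖ ≤ |b| + 1 := u3_r hx
  have h0 : 0 < ‖x‖ := lt_of_lt_of_le ha h1
  refine ⟨h0, ?_⟩
  have h3 : a ^ 2 ≤ ‖x‖ ^ 2 := pow_le_pow_left₀ ha.le h1 2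
  have h4 : ‖x‖ ^ 2 ≤ (|b| + 1) ^ 2 := pow_le_pow_left₀ h0.le h2 2
  rcases le_total 0 e with he | he
  · exact (Real.rpow_le_rpow (sq_nonneg _) h4 he).trans ((le_max_right _ _).trans (le_max_right _ _))
  · exact (Real.rpow_le_rpow_of_nonpos (by positivity) h3 he).trans
      ((le_max_left _ _).trans (le_max_right _ _))

private theorem u3_ss (u : V n → ℝ) (e : ℝ) {x : V n} :
    ss u x ^ e = (‖x‖ ^ 2) ^ (e / 2) * NN u x ^ (e / 2) := by
  unfold ss
  rw [Real.mul_rpow (norm_nonneg x) (Real.sqrt_nonneg _), u3_half (u3_NN0 u x)]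
  congr 1
  rw [u3_half (sq_nonneg _), Real.sqrt_sq (norm_nonneg _)]

private theorem u3_pd_ss (h : Sol E u) (e : ℝ) {x : V n} (hx : x ∈ E) (hN : NN u x ≠ 0) :
    DifferentiableAt ℝ (fun y => ss u y ^ e) x ∧ ∀ k : Fin n,
    pd k (fun y => ss u y ^ e) x =
      (e / 2 * (‖x‖ ^ 2) ^ (e / 2 - 1) * (2 * x k)) * NN u x ^ (e / 2) +
      (‖x‖ ^ 2) ^ (e / 2) * (e / 2 * NN u x ^ (e / 2 - 1) * pd k (NN u) x) := by
  have hr : 0 < ‖x‖ := norm_pos_iff.2 (h.ne_zero hx)
  have hr2 : ‖x‖ ^ 2 ≠ 0 := by positivity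
  have d1 : DifferentiableAt ℝ (fun y : V n => ‖y‖ ^ 2) x := (differentiableAt_id).norm_sq ℝ
  have d2 : DifferentiableAt ℝ (NN u) x := diffAt h.isOpen h.smooth_NN hx
  have d3 : DifferentiableAt ℝ (fun t : ℝ => t ^ (e / 2)) (‖x‖ ^ 2) :=
    Real.differentiableAt_rpow_const_of_ne _ hr2
  have d4 : DifferentiableAt ℝ (fun t : ℝ => t ^ (e / 2)) (NN u x) :=
    Real.differentiableAt_rpow_const_of_ne _ hN
  have hfun : (fun y => ss u y ^ e) = fun y => (‖y‖ ^ 2) ^ (e / 2) * NN u y ^ (e / 2) := by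
    funext y
    exact u3_ss u e
  have d5 : DifferentiableAt ℝ (fun y : V n => (‖y‖ ^ 2) ^ (e / 2)) x :=
    DifferentiableAt.comp (g := fun t : ℝ => t ^ (e / 2)) x d3 d1
  have d6 : DifferentiableAt ℝ (fun y : V n => NN u y ^ (e / 2)) x :=
    DifferentiableAt.comp (g := fun t : ℝ => t ^ (e / 2)) x d4 d2
  rw [hfun]
  refine ⟨d5.mul d6, fun k => ?_⟩
  rw [pd_mul (f := fun y : V n => (‖y‖ ^ 2) ^ (e / 2))
    (g := fun y => NN u y ^ (e / 2)) d5 d6,
    pd_comp (φ := fun t : ℝ => t ^ (e / 2)) d3 d1,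
    pd_comp (φ := fun t : ℝ => t ^ (e / 2)) d4 d2, u3_pd_normsq,
    Real.deriv_rpow_const, Real.deriv_rpow_const]

/-- growth of powers of `ss` -/
private theorem u3_ssp (h : Sol E u) (e : ℝ) {a b : ℝ} (ha : 0 < a) :
    ∃ C, 1 ≤ C ∧ ∀ x ∈ E, x ∈ Ann a b → NN u x ≠ 0 →
      |ss u x ^ e| ≤ C * √(NN u x) ^ e ∧
      ∀ k, |pd k (fun y => ss u y ^ e) x| * √(NN u x) ≤
        C * √(NN u x) ^ e * (√(TT u x) + √(NN u x)) := by
  obtain ⟨C0, c0, hC0, _, hb⟩ := h.bounds (a := a) (b := b) ha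
  obtain ⟨C3, hC3, hr3⟩ := u3_rb (n := n) (a := a) (b := b) ha (e / 2)
  obtain ⟨C4, hC4, hr4⟩ := u3_rb (n := n) (a := a) (b := b) ha (e / 2 - 1)
  set Cd : ℝ := |e / 2| * C4 * (2 * (|b| + 1)) * C0 + C3 * (|e / 2| * 2) with hCd
  have hCd0 : 0 ≤ Cd := by positivity
  refine ⟨C3 + Cd, by linarith, ?_⟩
  intro x hxE hxA hN
  have hNN0 := u3_NN0 u x
  have hNpos : 0 < NN u x := lt_of_le_of_ne hNN0 (Ne.symm hN)
  obtain ⟨hr0, g1⟩ := hr3 x hxA
  obtain ⟨-, g3⟩ := hr4 x hxA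
  obtain ⟨-, hpd⟩ := u3_pd_ss h e hxE hN
  have hNC := (hb x hxE hxA).2.2.2.2.2.2.2.1
  have hpNN : ∀ k, |pd k (NN u) x| ≤ 2 * √(NN u x) * √(TT u x) := by
    intro k
    apply abs_le_of_sq_le_sq _ (by positivity)
    have f1 := h.pd_NN_sq_le hxE
    have f2 : (pd k (NN u) x) ^ 2 ≤ ∑ k, (pd k (NN u) x) ^ 2 :=
      Finset.single_le_sum (f := fun k => (pd k (NN u) x) ^ 2) (fun _ _ => sq_nonneg _)
        (Finset.mem_univ k)
    have f3 : (2 * √(NN u x) * √(TT u x)) ^ 2 = 4 * NN u x * TT u x := by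
      rw [mul_pow, mul_pow, Real.sq_sqrt hNN0, Real.sq_sqrt (u3_TT0 u x)]
      norm_num
    rw [f3]
    exact f2.trans f1
  have e1 : NN u x ^ (e / 2) = √(NN u x) ^ e := u3_half hNN0
  have e2 : NN u x ^ (e / 2 - 1) * √(NN u x) * √(NN u x) = √(NN u x) ^ e := by
    rw [mul_assoc, Real.mul_self_sqrt hNN0, ← e1]
    nth_rewrite 2 [← Real.rpow_one (NN u x)]
    rw [← Real.rpow_add hNpos]
    congr 1
    ring
  set s := √(NN u x) with hsdef
  set τ := √(TT u x) with hτdef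
  have hs0 : 0 < s := Real.sqrt_pos.2 hNpos
  have hτ0 : 0 ≤ τ := Real.sqrt_nonneg _
  have hsC : s ≤ C0 := by
    rw [hsdef]
    apply Real.sqrt_le_iff.2
    exact ⟨by linarith, by nlinarith⟩
  have hp : 0 < s ^ e := Real.rpow_pos_of_pos hs0 _
  have hq1 : 0 ≤ (‖x‖ ^ 2) ^ (e / 2) := Real.rpow_nonneg (sq_nonneg _) _
  have hq0 : 0 ≤ (‖x‖ ^ 2) ^ (e / 2 - 1) := Real.rpow_nonneg (sq_nonneg _) _
  have hNp' : 0 < NN u x ^ (e / 2 - 1) := Real.rpow_pos_of_pos hNpos _
  refine ⟨?_, fun k => ?_⟩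
  · rw [u3_ss u e, e1, abs_of_nonneg (mul_nonneg hq1 hp.le)]
    exact mul_le_mul_of_nonneg_right (by linarith) hp.le
  · rw [hpd k, e1]
    have hxk : |x k| ≤ |b| + 1 := by
      refine le_trans ?_ (u3_r hxA)
      rw [← Real.norm_eq_abs]
      exact PiLp.norm_apply_le x k
    have b1 : |(e / 2 * (‖x‖ ^ 2) ^ (e / 2 - 1) * (2 * x k)) * s ^ e| * s ≤
        (|e / 2| * C4 * (2 * (|b| + 1)) * C0) * (s ^ e * (τ + s)) := by
      rw [abs_mul, abs_mul, abs_mul, abs_mul, abs_two, abs_of_nonneg hq0, abs_of_pos hp]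
      have k1 : |e / 2| * (‖x‖ ^ 2) ^ (e / 2 - 1) * (2 * |x k|) ≤
          |e / 2| * C4 * (2 * (|b| + 1)) :=
        mul_le_mul (mul_le_mul_of_nonneg_left g3 (abs_nonneg _))
          (mul_le_mul_of_nonneg_left hxk (by norm_num)) (by positivity) (by positivity)
      have k2 : s ^ e * s ≤ C0 * (s ^ e * (τ + s)) := by
        have k3 : s ^ e * s ≤ s ^ e * (τ + s) := mul_le_mul_of_nonneg_left (by linarith) hp.le
        have k4 : 0 ≤ s ^ e * (τ + s) := by positivity
        nlinarith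
      calc |e / 2| * (‖x‖ ^ 2) ^ (e / 2 - 1) * (2 * |x k|) * s ^ e * s
          = (|e / 2| * (‖x‖ ^ 2) ^ (e / 2 - 1) * (2 * |x k|)) * (s ^ e * s) := by ring
        _ ≤ (|e / 2| * C4 * (2 * (|b| + 1))) * (C0 * (s ^ e * (τ + s))) :=
            mul_le_mul k1 k2 (by positivity) (by positivity)
        _ = _ := by ring
    have b2 : |(‖x‖ ^ 2) ^ (e / 2) * (e / 2 * NN u x ^ (e / 2 - 1) * pd k (NN u) x)| * s ≤
        (C3 * (|e / 2| * 2)) * (s ^ e * (τ + s)) := by
      rw [abs_mul, abs_mul, abs_mul, abs_of_nonneg hq1, abs_of_pos hNp']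
      have k3 : NN u x ^ (e / 2 - 1) * |pd k (NN u) x| * s ≤ 2 * (s ^ e * (τ + s)) := by
        calc NN u x ^ (e / 2 - 1) * |pd k (NN u) x| * s ≤
              NN u x ^ (e / 2 - 1) * (2 * s * τ) * s :=
                mul_le_mul_of_nonneg_right (mul_le_mul_of_nonneg_left (hpNN k) hNp'.le) hs0.le
          _ = 2 * ((NN u x ^ (e / 2 - 1) * s * s) * τ) := by ring
          _ = 2 * (s ^ e * τ) := by rw [e2]
          _ ≤ 2 * (s ^ e * (τ + s)) := by
              have := mul_le_mul_of_nonneg_left (show τ ≤ τ + s by linarith) hp.le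
              linarith
      calc (‖x‖ ^ 2) ^ (e / 2) * (|e / 2| * NN u x ^ (e / 2 - 1) * |pd k (NN u) x|) * s
          = (‖x‖ ^ 2) ^ (e / 2) * (|e / 2| * (NN u x ^ (e / 2 - 1) * |pd k (NN u) x| * s)) := by
            ring
        _ ≤ C3 * (|e / 2| * (2 * (s ^ e * (τ + s)))) :=
            mul_le_mul g1 (mul_le_mul_of_nonneg_left k3 (abs_nonneg _)) (by positivity)
              (by linarith)
        _ = _ := by ring
    have b3 := mul_le_mul_of_nonneg_right (abs_add_le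
      ((e / 2 * (‖x‖ ^ 2) ^ (e / 2 - 1) * (2 * x k)) * s ^ e)
      ((‖x‖ ^ 2) ^ (e / 2) * (e / 2 * NN u x ^ (e / 2 - 1) * pd k (NN u) x))) hs0.le
    rw [add_mul] at b3
    refine b3.trans ((add_le_add b1 b2).trans ?_)
    rw [← add_mul, ← hCd, mul_assoc (C3 + Cd)]
    exact mul_le_mul_of_nonneg_right (by linarith) (by positivity)

private theorem u3_diff_Gval (h : Sol E u) (LF : List FT) {x : V n} (hx : x ∈ E)
    (hN : NN u x ≠ 0) : DifferentiableAt ℝ (Gval LF u) x := by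
  induction LF with
  | nil =>
    have : Gval [] u = fun _ => (0 : ℝ) := by
      funext x; simp [Gval]
    rw [this]
    exact differentiableAt_const _
  | cons f L ih =>
    have : Gval (f :: L) u = fun x => (f.coef : ℝ) *
        (ss u x ^ (-(f.wt : ℝ)) * facsVal u x f.facs) + Gval L u x := by
      funext x; simp [Gval]
    rw [this]
    exact (((u3_pd_ss h _ hx hN).1.mul (diffAt h.isOpen (h.smooth_facs f.facs) hx)).const_mul
      _).add ih

/-- bounds of `G` and of its derivative. Sketch: for each term `ss^(-wt) facs` with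
`ss = ‖x‖ √NN`: `|facs| ≤ C √NN^wt` (`Sol.sizes`); derivative by the product rule,
`∂_k ss^(-wt) = -wt ss^(-wt-1) ∂_k ss`, `|∂_k ss| ≤ C (√TT + √NN)` (`Sol.pd_NN_sq_le`),
and `Sol.facs_pd_growth`. -/
theorem Sol.Gval_growth (h : Sol E u) (LF : List FT) {a b : ℝ} (ha : 0 < a) :
    ∃ C, 1 ≤ C ∧ ∀ x ∈ E, x ∈ Ann a b → NN u x ≠ 0 →
      |Gval LF u x| ≤ C ∧
      (∀ k, |pd k (Gval LF u) x| * √(NN u x) ≤ C * (√(TT u x) + √(NN u x))) := by
  induction LF with
  | nil =>
    have e0 : Gval [] u = fun _ => (0 : ℝ) := by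
      funext x; simp [Gval]
    refine ⟨1, le_rfl, fun x _ _ _ => ⟨?_, fun k => ?_⟩⟩
    · rw [e0]; simp
    · rw [e0, pd_const, abs_zero, zero_mul]
      positivity
  | cons f L ih =>
    obtain ⟨C1, hC1, f1⟩ := ih
    obtain ⟨C2, hC2, f2⟩ := u3_ssp h (-(f.wt : ℝ)) (a := a) (b := b) ha
    obtain ⟨C3, hC3, f3⟩ := h.sizes (a := a) (b := b) ha (.v0 0) f.facs
    obtain ⟨C4, hC4, f4⟩ := h.facs_pd_growth f.facs (a := a) (b := b) ha
    have ec : Gval (f :: L) u = fun x => (f.coef : ℝ) *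
        (ss u x ^ (-(f.wt : ℝ)) * facsVal u x f.facs) + Gval L u x := by
      funext x; simp [Gval]
    refine ⟨|(f.coef : ℝ)| * (C2 * C3 + C2 * C4) + C1, ?_, ?_⟩
    · have : 0 ≤ |(f.coef : ℝ)| * (C2 * C3 + C2 * C4) := by positivity
      linarith
    intro x hxE hxA hN
    have hNN0 := u3_NN0 u x
    have hNpos : 0 < NN u x := lt_of_le_of_ne hNN0 (Ne.symm hN)
    obtain ⟨g1, g2⟩ := f1 x hxE hxA hN
    obtain ⟨g3, g4⟩ := f2 x hxE hxA hN
    have g5 := (f3 x hxE hxA).1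
    have g6 := f4 x hxE hxA
    have d1 := (u3_pd_ss h (-(f.wt : ℝ)) hxE hN).1
    have d2 : DifferentiableAt ℝ (fun y => facsVal u y f.facs) x :=
      diffAt h.isOpen (h.smooth_facs f.facs) hxE
    have d3 := u3_diff_Gval h L hxE hN
    have hwt : (f.facs.map Fac.wt).sum = f.wt := rfl
    rw [hwt] at g5 g6
    have hs0 : 0 < √(NN u x) := Real.sqrt_pos.2 hNpos
    have hτ0 : 0 ≤ √(TT u x) := Real.sqrt_nonneg _
    have ep : √(NN u x) ^ (-(f.wt : ℝ)) * √(NN u x) ^ f.wt = 1 := by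
      rw [← Real.rpow_natCast, ← Real.rpow_add hs0]
      simp
    have hp1 : 0 < √(NN u x) ^ (-(f.wt : ℝ)) := Real.rpow_pos_of_pos hs0 _
    have hp2 : 0 < √(NN u x) ^ f.wt := pow_pos hs0 _
    set s := √(NN u x) with hsdef
    set τ := √(TT u x) with hτdef
    set P := s ^ (-(f.wt : ℝ)) with hP
    set Q := s ^ f.wt with hQ
    refine ⟨?_, fun k => ?_⟩
    · rw [ec]
      refine (abs_add_le _ _).trans ?_
      rw [abs_mul, abs_mul]
      have k1 : |ss u x ^ (-(f.wt : ℝ))| * |facsVal u x f.facs| ≤ (C2 * P) * (C3 * Q) :=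
        mul_le_mul g3 g5 (abs_nonneg _) (by positivity)
      have k2 : (C2 * P) * (C3 * Q) = C2 * C3 := by
        calc (C2 * P) * (C3 * Q) = C2 * C3 * (P * Q) := by ring
          _ = C2 * C3 := by rw [ep, mul_one]
      rw [k2] at k1
      have k3 : 0 ≤ C2 * C4 := by positivity
      have k4 := mul_le_mul_of_nonneg_left (k1.trans (le_add_of_nonneg_right k3))
        (abs_nonneg (f.coef : ℝ))
      exact add_le_add k4 g1
    · have d4 : DifferentiableAt ℝ (fun y => (f.coef : ℝ) *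
          (ss u y ^ (-(f.wt : ℝ)) * facsVal u y f.facs)) x := (d1.mul d2).const_mul _
      rw [ec, pd_add (g := Gval L u) d4 d3, pd_const_mul,
        pd_mul (f := fun y => ss u y ^ (-(f.wt : ℝ))) (g := fun y => facsVal u y f.facs) d1 d2]
      have k1 : |(f.coef : ℝ) * (pd k (fun y => ss u y ^ (-(f.wt : ℝ))) x * facsVal u x f.facs +
          ss u x ^ (-(f.wt : ℝ)) * pd k (fun y => facsVal u y f.facs) x) + pd k (Gval L u) x| * s ≤
          |(f.coef : ℝ)| * ((|pd k (fun y => ss u y ^ (-(f.wt : ℝ))) x| * s) *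
            |facsVal u x f.facs| + |ss u x ^ (-(f.wt : ℝ))| *
              (|pd k (fun y => facsVal u y f.facs) x| * s)) + |pd k (Gval L u) x| * s := by
        have j1 := abs_add_le ((f.coef : ℝ) * (pd k (fun y => ss u y ^ (-(f.wt : ℝ))) x *
          facsVal u x f.facs + ss u x ^ (-(f.wt : ℝ)) * pd k (fun y => facsVal u y f.facs) x))
          (pd k (Gval L u) x)
        have j2 := abs_add_le (pd k (fun y => ss u y ^ (-(f.wt : ℝ))) x *
          facsVal u x f.facs) (ss u x ^ (-(f.wt : ℝ)) * pd k (fun y => facsVal u y f.facs) x)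
        rw [abs_mul, abs_mul] at j2
        rw [abs_mul] at j1
        have j3 := mul_le_mul_of_nonneg_left j2 (abs_nonneg (f.coef : ℝ))
        have j4 := mul_le_mul_of_nonneg_right (j1.trans (add_le_add_left j3 _)) hs0.le
        refine j4.trans (le_of_eq ?_)
        ring
      refine k1.trans ?_
      have k2 : (|pd k (fun y => ss u y ^ (-(f.wt : ℝ))) x| * s) * |facsVal u x f.facs| ≤
          (C2 * P * (τ + s)) * (C3 * Q) :=
        mul_le_mul (g4 k) g5 (abs_nonneg _) (by positivity)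
      have k3 : |ss u x ^ (-(f.wt : ℝ))| * (|pd k (fun y => facsVal u y f.facs) x| * s) ≤
          (C2 * P) * (C4 * Q * (τ + s)) :=
        mul_le_mul g3 (g6 k) (by positivity) (by positivity)
      have k4 : (C2 * P * (τ + s)) * (C3 * Q) + (C2 * P) * (C4 * Q * (τ + s)) =
          (C2 * C3 + C2 * C4) * (τ + s) := by
        calc (C2 * P * (τ + s)) * (C3 * Q) + (C2 * P) * (C4 * Q * (τ + s)) =
              (C2 * C3 + C2 * C4) * (τ + s) * (P * Q) := by ring
          _ = _ := by rw [ep, mul_one]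
      have k5 := mul_le_mul_of_nonneg_left ((add_le_add k2 k3).trans (le_of_eq k4))
        (abs_nonneg (f.coef : ℝ))
      refine (add_le_add k5 (g2 k)).trans (le_of_eq ?_)
      ring

/-- growth of `F` in the form needed by `PCert`. Sketch: `F = Ff * G`, `Sol.growth` with `L = []`
for `Ff`, `Sol.Gval_growth`, product rule. -/
theorem Sol.growthF (h : Sol E u) {ϖ : ℚ} (h1 : 1 < ϖ) (h2 : ϖ ≤ 2) (LF : List FT) {c0 : ℝ}
    (hc : 0 < c0) (hG : ∀ x ∈ E, NN u x ≠ 0 → c0 ≤ Gval LF u x) {a b : ℝ} (ha : 0 < a) :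
    ∃ C, 1 ≤ C ∧ ∀ x ∈ E, x ∈ Ann a b → NN u x ≠ 0 →
      C⁻¹ * NN u x ^ ((ϖ : ℝ) / 2) ≤ FF ϖ LF u x ∧ FF ϖ LF u x ≤ C * NN u x ^ ((ϖ : ℝ) / 2) ∧
      (∀ k, |pd k (FF ϖ LF u) x| ≤
        C * NN u x ^ (((ϖ : ℝ) - 1) / 2) * (√(TT u x) + √(NN u x))) := by
  obtain ⟨C1, hC1, f1⟩ := h.growth h1 h2 (L := []) (fun g hg => by simp at hg) (a := a) (b := b) ha
  obtain ⟨C2, hC2, f2⟩ := h.Gval_growth LF (a := a) (b := b) ha
  have hC10 : 0 < C1 := by linarith
  refine ⟨2 * C1 * C2 + C1 / c0, ?_, ?_⟩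
  · have : 0 ≤ C1 / c0 := by positivity
    nlinarith
  intro x hxE hxA hN
  have hNN0 := u3_NN0 u x
  have hNpos : 0 < NN u x := lt_of_le_of_ne hNN0 (Ne.symm hN)
  obtain ⟨g1, g2, g3, -⟩ := f1 x hxE hxA hN
  obtain ⟨g5, g6⟩ := f2 x hxE hxA hN
  have hG' := hG x hxE hN
  have hG0 : 0 < Gval LF u x := lt_of_lt_of_le hc hG'
  have hNp : 0 < NN u x ^ ((ϖ : ℝ) / 2) := Real.rpow_pos_of_pos hNpos _
  have hF0 : 0 < Ff ϖ u x := lt_of_lt_of_le (by positivity) g1
  rw [abs_of_pos hG0] at g5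
  have hq : 0 ≤ C1 / c0 := by positivity
  have e0 : NN u x ^ (((ϖ : ℝ) - 1) / 2) = √(NN u x) ^ ((ϖ : ℝ) - 1) := u3_half hNN0
  have e1 : NN u x ^ ((ϖ : ℝ) / 2) = √(NN u x) ^ ((ϖ : ℝ) - 1) * √(NN u x) := by
    rw [u3_half hNN0, ← Real.rpow_add_one (Real.sqrt_pos.2 hNpos).ne']
    congr 1
    ring
  refine ⟨?_, ?_, fun k => ?_⟩
  · change _ ≤ Ff ϖ u x * Gval LF u x
    have k1 : C1⁻¹ * NN u x ^ ((ϖ : ℝ) / 2) * c0 ≤ Ff ϖ u x * Gval LF u x :=
      mul_le_mul g1 hG' hc.le hF0.le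
    refine le_trans ?_ k1
    have k2 : (2 * C1 * C2 + C1 / c0)⁻¹ ≤ C1⁻¹ * c0 := by
      have k3 : C1⁻¹ * c0 = (C1 / c0)⁻¹ := by
        rw [inv_div, div_eq_mul_inv, mul_comm]
      rw [k3]
      have k4 : 0 ≤ 2 * C1 * C2 := by positivity
      exact inv_anti₀ (by positivity) (by linarith)
    calc (2 * C1 * C2 + C1 / c0)⁻¹ * NN u x ^ ((ϖ : ℝ) / 2) ≤
          (C1⁻¹ * c0) * NN u x ^ ((ϖ : ℝ) / 2) := mul_le_mul_of_nonneg_right k2 hNp.le
      _ = _ := by ring
  · change Ff ϖ u x * Gval LF u x ≤ _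
    calc Ff ϖ u x * Gval LF u x ≤ (C1 * NN u x ^ ((ϖ : ℝ) / 2)) * C2 :=
          mul_le_mul g2 g5 hG0.le (by positivity)
      _ = (C1 * C2) * NN u x ^ ((ϖ : ℝ) / 2) := by ring
      _ ≤ _ := mul_le_mul_of_nonneg_right (by nlinarith) hNp.le
  · have d1 : DifferentiableAt ℝ (Ff ϖ u) x := by
      have e2 : Ff ϖ u = fun y => ‖y‖ ^ (2 - (n : ℤ)) * ss u y ^ (ϖ : ℝ) := rfl
      rw [e2]
      exact (diffAt h.isOpen (h.smooth_zpow _) hxE).mul (u3_pd_ss h _ hxE hN).1
    have d2 := u3_diff_Gval h LF hxE hN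
    change |pd k (fun y => Ff ϖ u y * Gval LF u y) x| ≤ _
    rw [pd_mul d1 d2]
    have g3k := g3 k
    have g6k := g6 k
    rw [e0] at g3k ⊢
    rw [e1] at g2
    set s := √(NN u x) with hsdef
    set τ := √(TT u x) with hτdef
    have hs0 : 0 < s := Real.sqrt_pos.2 hNpos
    have hτ0 : 0 ≤ τ := Real.sqrt_nonneg _
    have hp : 0 < s ^ ((ϖ : ℝ) - 1) := Real.rpow_pos_of_pos hs0 _
    refine (abs_add_le _ _).trans ?_
    rw [abs_mul, abs_mul, abs_of_pos hG0, abs_of_pos hF0]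
    have k1 : |pd k (Ff ϖ u) x| * Gval LF u x ≤ (C1 * s ^ ((ϖ : ℝ) - 1) * (τ + s)) * C2 :=
      mul_le_mul g3k g5 hG0.le (by positivity)
    have k2 : Ff ϖ u x * |pd k (Gval LF u) x| ≤ C1 * s ^ ((ϖ : ℝ) - 1) * (C2 * (τ + s)) := by
      calc Ff ϖ u x * |pd k (Gval LF u) x| ≤
            (C1 * (s ^ ((ϖ : ℝ) - 1) * s)) * |pd k (Gval LF u) x| :=
            mul_le_mul_of_nonneg_right g2 (abs_nonneg _)
        _ = C1 * s ^ ((ϖ : ℝ) - 1) * (|pd k (Gval LF u) x| * s) := by ring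
        _ ≤ _ := mul_le_mul_of_nonneg_left g6k (by positivity)
    refine (add_le_add k1 k2).trans ?_
    have k3 : 0 ≤ s ^ ((ϖ : ℝ) - 1) * (τ + s) := by positivity
    calc C1 * s ^ ((ϖ : ℝ) - 1) * (τ + s) * C2 + C1 * s ^ ((ϖ : ℝ) - 1) * (C2 * (τ + s)) =
          (2 * C1 * C2) * (s ^ ((ϖ : ℝ) - 1) * (τ + s)) := by ring
      _ ≤ (2 * C1 * C2 + C1 / c0) * (s ^ ((ϖ : ℝ) - 1) * (τ + s)) :=
          mul_le_mul_of_nonneg_right (by linarith) k3
      _ = _ := by ring

end OPC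
end
end

section

/-! # J07: logarithmic cutoffs -/

open MeasureTheory Set Filter Topology

namespace OPC

variable {n : ℕ}

/-- the profile -/
private noncomputable def bt (s : ℝ) : ℝ :=
  Real.smoothTransition (2 * (s + 3)) * Real.smoothTransition (-2 * (s + 1))

private theorem bt_smooth : ContDiff ℝ (⊤ : ℕ∞) bt := by
  unfold bt
  exact (Real.smoothTransition.contDiff.comp (by fun_prop)).mul
    (Real.smoothTransition.contDiff.comp (by fun_prop))

private theorem bt_nonneg (s : ℝ) : 0 ≤ bt s :=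
  mul_nonneg (Real.smoothTransition.nonneg _) (Real.smoothTransition.nonneg _)

private theorem bt_one {s : ℝ} (h1 : -(5 / 2) ≤ s) (h2 : s ≤ -(3 / 2)) : bt s = 1 := by
  unfold bt
  rw [Real.smoothTransition.one_of_one_le (by linarith), Real.smoothTransition.one_of_one_le (by linarith), one_mul]

private theorem bt_zero_left {s : ℝ} (h : s ≤ -3) : bt s = 0 := by
  unfold bt
  rw [Real.smoothTransition.zero_of_nonpos (x := 2 * (s + 3)) (by linarith), zero_mul]

private theorem bt_zero_right {s : ℝ} (h : -1 ≤ s) : bt s = 0 := by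
  unfold bt
  rw [Real.smoothTransition.zero_of_nonpos (x := -2 * (s + 1)) (by linarith), mul_zero]

private theorem bt_deriv_bdd : ∃ M, 0 < M ∧ ∀ s, |deriv bt s| ≤ M := by
  have hc : Continuous (deriv bt) := bt_smooth.continuous_deriv (by simp)
  have hs : HasCompactSupport bt := by
    refine HasCompactSupport.intro (K := Set.Icc (-3) (-1)) isCompact_Icc ?_
    intro s hs
    rw [Set.mem_Icc, not_and_or, not_le, not_le] at hs
    rcases hs with h | h
    · exact bt_zero_left h.le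
    · exact bt_zero_right h.le
  obtain ⟨M, hM⟩ := hc.bounded_above_of_compact_support hs.deriv
  refine ⟨|M| + 1, by positivity, fun s => ?_⟩
  have := hM s
  rw [Real.norm_eq_abs] at this
  linarith [le_abs_self M]

/-- the logarithmic cutoffs `η_L(x) = β(log|x| / L)`, `β` smooth, `β = 1` on `[-5/2, -3/2]`,
supported in `[-3, -1]`, `0 ≤ β ≤ 1`. -/
theorem exists_log_cutoff : ∃ C, 0 < C ∧ ∀ L : ℕ, 1 ≤ L → ∃ η ρ : V n → ℝ, Tst η ∧
    (∀ x, 0 ≤ η x) ∧ (∀ i x, pd i η x = ρ x * x i) ∧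
    (tsupport η ⊆ Ann (Real.exp (-3 * L)) (Real.exp (-L))) ∧
    (∀ x : V n, x ≠ 0 → -(5 / 2) * L ≤ Real.log ‖x‖ → Real.log ‖x‖ ≤ -(3 / 2) * L → η x = 1) ∧
    (∀ x : V n, x ≠ 0 → ∑ k, (pd k η x) ^ 2 ≤ C / (L ^ 2 * ‖x‖ ^ 2)) := by
  obtain ⟨M, hM0, hM⟩ := bt_deriv_bdd
  refine ⟨M ^ 2, by positivity, fun L hL => ?_⟩
  have hL0 : (0 : ℝ) < L := by exact_mod_cast hL
  set η : V n → ℝ := fun x => bt (Real.log ‖x‖ / L) with hη
  set ρ : V n → ℝ := fun x => deriv bt (Real.log ‖x‖ / L) / (L * ‖x‖ ^ 2) with hρ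
  have hη0 : ∀ x : V n, ‖x‖ ≤ Real.exp (-3 * L) → η x = 0 := by
    intro x hx
    rw [hη]
    simp only
    rcases eq_or_ne x 0 with h | h
    · rw [h, norm_zero, Real.log_zero, zero_div]
      exact bt_zero_right (by norm_num)
    · apply bt_zero_left
      rw [div_le_iff₀ hL0]
      calc Real.log ‖x‖ ≤ Real.log (Real.exp (-3 * L)) := Real.log_le_log (norm_pos_iff.2 h) hx
        _ = -3 * L := Real.log_exp _
  have hη1 : ∀ x : V n, Real.exp (-L) ≤ ‖x‖ → η x = 0 := by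
    intro x hx
    rw [hη]
    simp only
    apply bt_zero_right
    rw [le_div_iff₀ hL0]
    calc -1 * (L : ℝ) = Real.log (Real.exp (-L)) := by rw [Real.log_exp]; ring
      _ ≤ Real.log ‖x‖ := Real.log_le_log (Real.exp_pos _) hx
  have hev : ∀ x : V n, ‖x‖ < Real.exp (-3 * L) → η =ᶠ[nhds x] fun _ => 0 := by
    intro x hx
    filter_upwards [(isOpen_lt continuous_norm continuous_const).mem_nhds hx] with y hy
    exact hη0 y (le_of_lt hy)
  have hts : tsupport η ⊆ Ann (Real.exp (-3 * L)) (Real.exp (-L)) := by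
    refine closure_minimal ?_ ?_
    · intro x hx
      rw [Function.mem_support] at hx
      refine ⟨?_, ?_⟩
      · by_contra h
        exact hx (hη0 x (not_le.1 h).le)
      · by_contra h
        exact hx (hη1 x (not_le.1 h).le)
    · exact (isClosed_le continuous_const continuous_norm).inter (isClosed_le continuous_norm continuous_const)
  have hd : ∀ x : V n, x ≠ 0 → ∀ i, pd i η x = ρ x * x i := by
    intro x hx i
    have hn : ‖x‖ ^ 2 ≠ 0 := pow_ne_zero _ (norm_ne_zero_iff.2 hx)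
    have e1 : η = fun x => bt (Real.log (‖x‖ ^ 2) / (2 * L)) := by
      funext y
      rw [hη]
      simp only
      rw [Real.log_pow]
      congr 1
      field_simp
      norm_num
    have h1 : HasFDerivAt (fun y : V n => ‖y‖ ^ 2) (2 • (innerSL ℝ x)) x :=
      (hasStrictFDerivAt_norm_sq x).hasFDerivAt
    have h2 := (h1.log hn).const_mul ((2 * (L : ℝ))⁻¹)
    have h3 : HasDerivAt bt (deriv bt (Real.log ‖x‖ / L)) ((2 * (L : ℝ))⁻¹ * Real.log (‖x‖ ^ 2)) := by
      have : (2 * (L : ℝ))⁻¹ * Real.log (‖x‖ ^ 2) = Real.log ‖x‖ / L := by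
        rw [Real.log_pow]
        field_simp
        norm_num
      rw [this]
      exact ((bt_smooth.differentiable (by simp)) _).hasDerivAt
    have h4 := h3.comp_hasFDerivAt x h2
    have h5 : (bt ∘ fun y : V n => (2 * (L : ℝ))⁻¹ * Real.log (‖y‖ ^ 2)) = η := by
      rw [e1]
      funext y
      simp only [Function.comp]
      congr 1
      ring
    rw [h5] at h4
    unfold pd
    rw [h4.fderiv, hρ]
    simp only [ContinuousLinearMap.smul_apply, innerSL_apply_apply, smul_eq_mul, e,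
      EuclideanSpace.inner_single_right, nsmul_eq_mul]
    simp
    field_simp
  refine ⟨η, ρ, ⟨?_, ?_, ?_⟩, ?_, ?_, hts, ?_, ?_⟩
  · rw [contDiff_iff_contDiffAt]
    intro x
    rcases eq_or_ne x 0 with h | h
    · have h1 : ContDiffAt ℝ (⊤ : ℕ∞) (fun _ : V n => (0 : ℝ)) x := contDiffAt_const
      refine h1.congr_of_eventuallyEq (hev x ?_)
      rw [h, norm_zero]
      exact Real.exp_pos _
    · have h1 : ContDiffAt ℝ (⊤ : ℕ∞) (fun y : V n => Real.log ‖y‖) x :=
        (contDiffAt_norm ℝ h).log (norm_ne_zero_iff.2 h)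
      exact (bt_smooth.contDiffAt).comp x (h1.div_const _)
  · refine HasCompactSupport.intro (K := Metric.closedBall 0 (Real.exp (-L))) (isCompact_closedBall _ _) ?_
    intro x hx
    rw [mem_closedBall_zero_iff, not_le] at hx
    exact hη1 x hx.le
  · intro h
    have := (hts h).1
    rw [norm_zero] at this
    exact absurd this (not_le.2 (Real.exp_pos _))
  · exact fun x => bt_nonneg _
  · intro i x
    rcases eq_or_ne x 0 with h | h
    · rw [pd_zero_of_eventually (hev x (by rw [h, norm_zero]; exact Real.exp_pos _)), h]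
      simp
    · exact hd x h i
  · intro x hx h1 h2
    refine bt_one ?_ ?_
    · rw [le_div_iff₀ hL0]
      linarith
    · rw [div_le_iff₀ hL0]
      linarith
  · intro x hx
    have hn : 0 < ‖x‖ := norm_pos_iff.2 hx
    have e1 : ∑ k, (pd k η x) ^ 2 = (deriv bt (Real.log ‖x‖ / L)) ^ 2 / (L ^ 2 * ‖x‖ ^ 2) := by
      calc ∑ k, (pd k η x) ^ 2 = ∑ k, (ρ x) ^ 2 * (x k) ^ 2 := by
            refine Finset.sum_congr rfl fun k _ => ?_
            rw [hd x hx k, mul_pow]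
        _ = (ρ x) ^ 2 * ‖x‖ ^ 2 := by
            rw [← Finset.mul_sum, norm_sq_eq_sum]
        _ = _ := by
            rw [hρ]
            simp only
            field_simp
    rw [e1]
    refine div_le_div_of_nonneg_right ?_ (by positivity)
    exact sq_le_sq' (abs_le.1 (hM _)).1 (abs_le.1 (hM _)).2

end OPC
end
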