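import Pool.Agent.Lib.MP_9059b8_an.J07
import Pool.Agent.Lib.MP_9059b8_an.P03
import Pool.Agent.Lib.MP_9059b8_an.F02

section

/-! # P13: flux decomposition of the fields -/

open MeasureTheory Set Filter Topology

namespace OPC

variable {n : ℕ} {E : Set (V n)} {u : V n → ℝ}

/-- `f` is `C¹` on `E ∩ {NN ≠ 0}`, bounded on annuli where `NN ≥ δ`, with first derivatives
`O(1 + |T|)` there -/
private structure DB (E : Set (V n)) (u f : V n → ℝ) : Prop where
  sm : ContDiffOn ℝ 1 f (E ∩ {x | NN u x ≠ 0})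
  bd : ∀ a b δ : ℝ, 0 < a → 0 < δ → ∃ C, 1 ≤ C ∧ ∀ x ∈ E, x ∈ Ann a b → δ ≤ NN u x →
    |f x| ≤ C ∧ ∀ k, |pd k f x| ≤ C * (1 + √(TT u x))

private theorem Sol.openNN (h : Sol E u) : IsOpen (E ∩ {x | NN u x ≠ 0}) := by
  have := h.smooth_NN.continuousOn.isOpen_inter_preimage h.isOpen (isOpen_compl_singleton (x := 0))
  exact this

private theorem DB.diffAt (h : Sol E u) {f : V n → ℝ} (hf : DB E u f) {x : V n} (hx : x ∈ E)
    (hN : NN u x ≠ 0) : DifferentiableAt ℝ f x :=
  (hf.sm.contDiffAt (h.openNN.mem_nhds ⟨hx, hN⟩)).differentiableAt (by norm_num)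

private theorem DB.const (c : ℝ) : DB E u (fun _ => c) := by
  refine ⟨contDiffOn_const, fun a b δ _ _ => ⟨max 1 |c|, le_max_left _ _, fun x _ _ _ => ⟨le_max_right _ _, fun k => ?_⟩⟩⟩
  rw [pd_const, abs_zero]
  positivity

private theorem DB.add (h : Sol E u) {f g : V n → ℝ} (hf : DB E u f) (hg : DB E u g) :
    DB E u (fun x => f x + g x) := by
  refine ⟨hf.sm.add hg.sm, fun a b δ ha hδ => ?_⟩
  obtain ⟨C, hC, h1⟩ := hf.bd a b δ ha hδ
  obtain ⟨D, hD, h2⟩ := hg.bd a b δ ha hδ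
  refine ⟨C + D, by linarith, fun x hx hxa hN => ?_⟩
  obtain ⟨h3, h4⟩ := h1 x hx hxa hN
  obtain ⟨h5, h6⟩ := h2 x hx hxa hN
  have hN' : NN u x ≠ 0 := (lt_of_lt_of_le hδ hN).ne'
  refine ⟨(abs_add_le _ _).trans (add_le_add h3 h5), fun k => ?_⟩
  rw [pd_add (hf.diffAt h hx hN') (hg.diffAt h hx hN')]
  refine (abs_add_le _ _).trans ?_
  have := h4 k
  have := h6 k
  nlinarith

private theorem DB.mul (h : Sol E u) {f g : V n → ℝ} (hf : DB E u f) (hg : DB E u g) :
    DB E u (fun x => f x * g x) := by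
  refine ⟨hf.sm.mul hg.sm, fun a b δ ha hδ => ?_⟩
  obtain ⟨C, hC, h1⟩ := hf.bd a b δ ha hδ
  obtain ⟨D, hD, h2⟩ := hg.bd a b δ ha hδ
  refine ⟨2 * C * D, by nlinarith, fun x hx hxa hN => ?_⟩
  obtain ⟨h3, h4⟩ := h1 x hx hxa hN
  obtain ⟨h5, h6⟩ := h2 x hx hxa hN
  have hN' : NN u x ≠ 0 := (lt_of_lt_of_le hδ hN).ne'
  have hCD : |f x * g x| ≤ C * D := by
    rw [abs_mul]
    exact mul_le_mul h3 h5 (abs_nonneg _) (by linarith)
  refine ⟨by nlinarith [mul_nonneg (by linarith : (0:ℝ) ≤ C) (by linarith : (0:ℝ) ≤ D)], fun k => ?_⟩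
  rw [pd_mul (hf.diffAt h hx hN') (hg.diffAt h hx hN')]
  refine (abs_add_le _ _).trans ?_
  rw [abs_mul, abs_mul]
  have h7 : |pd k f x| * |g x| ≤ (C * (1 + √(TT u x))) * D :=
    mul_le_mul (h4 k) h5 (abs_nonneg _) (by positivity)
  have h8 : |f x| * |pd k g x| ≤ C * (D * (1 + √(TT u x))) :=
    mul_le_mul h3 (h6 k) (abs_nonneg _) (by linarith)
  nlinarith

private theorem DB.sum (h : Sol E u) {ι : Type*} (s : Finset ι) {f : ι → V n → ℝ}
    (hf : ∀ i ∈ s, DB E u (f i)) : DB E u (fun x => ∑ i ∈ s, f i x) := by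
  classical
  induction s using Finset.induction_on with
  | empty => simpa using DB.const (E := E) (u := u) 0
  | insert i s hi ih =>
    simp only [Finset.sum_insert hi]
    exact DB.add h (hf i (Finset.mem_insert_self _ _))
      (ih fun j hj => hf j (Finset.mem_insert_of_mem hj))

private theorem DB.listSum (h : Sol E u) {ι : Type*} (L : List ι) {f : ι → V n → ℝ}
    (hf : ∀ i ∈ L, DB E u (f i)) : DB E u (fun x => (L.map fun i => f i x).sum) := by
  induction L with
  | nil => simpa using DB.const (E := E) (u := u) 0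
  | cons i L ih =>
    simp only [List.map_cons, List.sum_cons]
    exact DB.add h (hf i (by simp)) (ih fun j hj => hf j (by simp [hj]))

private theorem DB.listProd (h : Sol E u) {ι : Type*} (L : List ι) {f : ι → V n → ℝ}
    (hf : ∀ i ∈ L, DB E u (f i)) : DB E u (fun x => (L.map fun i => f i x).prod) := by
  induction L with
  | nil => simpa using DB.const (E := E) (u := u) 1
  | cons i L ih =>
    simp only [List.map_cons, List.prod_cons]
    exact DB.mul h (hf i (by simp)) (ih fun j hj => hf j (by simp [hj]))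

private theorem DB.pow (h : Sol E u) {f : V n → ℝ} (hf : DB E u f) (k : ℕ) :
    DB E u (fun x => f x ^ k) := by
  induction k with
  | zero => simpa using DB.const (E := E) (u := u) 1
  | succ k ih =>
    simp only [pow_succ]
    exact DB.mul h ih hf

private theorem DB.rpow (h : Sol E u) {f : V n → ℝ} (hf : DB E u f)
    (hpos : ∀ x ∈ E, NN u x ≠ 0 → 0 < f x)
    (hlow : ∀ a b δ : ℝ, 0 < a → 0 < δ → ∃ c, 0 < c ∧ ∀ x ∈ E, x ∈ Ann a b → δ ≤ NN u x → c ≤ f x)
    (r : ℝ) : DB E u (fun x => f x ^ r) := by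
  refine ⟨fun x hx => ?_, fun a b δ ha hδ => ?_⟩
  · exact (hf.sm x hx).rpow_const_of_ne (hpos x hx.1 hx.2).ne'
  · obtain ⟨C, hC, h1⟩ := hf.bd a b δ ha hδ
    obtain ⟨c, hc, h2⟩ := hlow a b δ ha hδ
    -- bound of `f ^ s` for `f ∈ [c, C]`
    have key : ∀ s : ℝ, ∃ D, 1 ≤ D ∧ ∀ y, c ≤ y → y ≤ C → y ^ s ≤ D := by
      intro s
      refine ⟨max 1 (max (c ^ s) (C ^ s)), le_max_left _ _, fun y hy1 hy2 => ?_⟩
      have hy0 : 0 < y := lt_of_lt_of_le hc hy1
      rcases le_total 0 s with hs | hs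
      · exact (Real.rpow_le_rpow hy0.le hy2 hs).trans ((le_max_right _ _).trans (le_max_right _ _))
      · exact (Real.rpow_le_rpow_of_nonpos hc hy1 hs).trans
          ((le_max_left _ _).trans (le_max_right _ _))
    obtain ⟨D, hD, h3⟩ := key r
    obtain ⟨D', hD', h4⟩ := key (r - 1)
    refine ⟨D + |r| * D' * C, ?_, fun x hx hxa hN => ?_⟩
    · have : 0 ≤ |r| * D' * C := by positivity
      linarith
    · obtain ⟨h5, h6⟩ := h1 x hx hxa hN
      have h7 := h2 x hx hxa hN
      have hN' : NN u x ≠ 0 := (lt_of_lt_of_le hδ hN).ne'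
      have hf0 : 0 < f x := lt_of_lt_of_le hc h7
      rw [abs_of_pos hf0] at h5
      have h8 := h3 _ h7 h5
      have h9 := h4 _ h7 h5
      have hp : 0 ≤ |r| * D' * C := by positivity
      refine ⟨?_, fun k => ?_⟩
      · rw [abs_of_pos (Real.rpow_pos_of_pos hf0 _)]
        linarith
      · rw [pd_comp (φ := fun t => t ^ r) (Real.differentiableAt_rpow_const_of_ne _ hf0.ne')
          (hf.diffAt h hx hN')]
        rw [Real.deriv_rpow_const, abs_mul, abs_mul, abs_of_pos (Real.rpow_pos_of_pos hf0 _)]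
        have h10 : |r| * f x ^ (r - 1) ≤ |r| * D' := mul_le_mul_of_nonneg_left h9 (abs_nonneg _)
        have h11 : |r| * f x ^ (r - 1) * |pd k f x| ≤ |r| * D' * (C * (1 + √(TT u x))) :=
          mul_le_mul h10 (h6 k) (abs_nonneg _) (by positivity)
        have h12 : 0 ≤ D * (1 + √(TT u x)) := by positivity
        nlinarith

private theorem DB.congr (h : Sol E u) {f g : V n → ℝ} (hf : DB E u f)
    (hfg : ∀ x ∈ E, NN u x ≠ 0 → g x = f x) : DB E u g := by
  refine ⟨hf.sm.congr fun x hx => hfg x hx.1 hx.2, fun a b δ ha hδ => ?_⟩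
  obtain ⟨C, hC, h1⟩ := hf.bd a b δ ha hδ
  refine ⟨C, hC, fun x hx hxa hN => ?_⟩
  have hN' : NN u x ≠ 0 := (lt_of_lt_of_le hδ hN).ne'
  rw [hfg x hx hN']
  refine ⟨(h1 x hx hxa hN).1, fun k => ?_⟩
  rw [pd_congr h.openNN (f := g) (g := f) (fun y hy => hfg y hy.1 hy.2) k x ⟨hx, hN'⟩]
  exact (h1 x hx hxa hN).2 k

private theorem TT_abs (i j k : Fin n) (x : V n) : |T u i j k x| ≤ √(TT u x) := by
  rw [← Real.sqrt_sq_eq_abs]
  apply Real.sqrt_le_sqrt
  unfold TT
  calc (T u i j k x) ^ 2 ≤ ∑ k', (T u i j k' x) ^ 2 :=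
        Finset.single_le_sum (f := fun k' => (T u i j k' x) ^ 2) (fun _ _ => sq_nonneg _)
          (Finset.mem_univ k)
    _ ≤ ∑ j', ∑ k', (T u i j' k' x) ^ 2 :=
        Finset.single_le_sum (f := fun j' => ∑ k', (T u i j' k' x) ^ 2)
          (fun _ _ => Finset.sum_nonneg fun _ _ => sq_nonneg _) (Finset.mem_univ j)
    _ ≤ ∑ i', ∑ j', ∑ k', (T u i' j' k' x) ^ 2 :=
        Finset.single_le_sum (f := fun i' => ∑ j', ∑ k', (T u i' j' k' x) ^ 2)
          (fun _ _ => Finset.sum_nonneg fun _ _ => Finset.sum_nonneg fun _ _ => sq_nonneg _)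
          (Finset.mem_univ i)

private theorem DB.coord (i : Fin n) : DB E u (fun x => x i) := by
  refine ⟨?_, fun a b δ ha hδ => ⟨max 1 b, le_max_left _ _, fun x hx hxa hN => ⟨?_, fun k => ?_⟩⟩⟩
  · exact (EuclideanSpace.proj i : V n →L[ℝ] ℝ).contDiff.contDiffOn
  · have h1 : |x i| ≤ ‖x‖ := by
      rw [← Real.norm_eq_abs]
      exact PiLp.norm_apply_le x i
    exact h1.trans (hxa.2.trans (le_max_right _ _))
  · rw [pd_coord]
    have h1 : |(if k = i then (1 : ℝ) else 0)| ≤ 1 := by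
      split_ifs <;> simp
    have h2 : 0 ≤ √(TT u x) := Real.sqrt_nonneg _
    have h3 := le_max_left 1 b
    nlinarith

private theorem DB.slf (h : Sol E u) : DB E u u := by
  refine ⟨(h.smooth.of_le one_le_top').mono inter_subset_left, fun a b δ ha hδ => ?_⟩
  obtain ⟨C, c, hC, hc, h1⟩ := h.bounds (b := b) ha
  refine ⟨C, hC, fun x hx hxa hN => ⟨?_, fun k => ?_⟩⟩
  · rw [abs_of_nonneg (h.nonneg x)]
    exact (h1 x hx hxa).2.2.2.2.2.2.2.2.2.2.1
  · have h2 : |pd k u x| ≤ C := (h1 x hx hxa).1 k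
    have h3 : 0 ≤ √(TT u x) := Real.sqrt_nonneg _
    nlinarith

private theorem DB.q (h : Sol E u) (i : Fin n) : DB E u (q u i) := by
  refine ⟨((h.smooth_q i).of_le one_le_top').mono inter_subset_left, fun a b δ ha hδ => ?_⟩
  obtain ⟨C, c, hC, hc, h1⟩ := h.bounds (b := b) ha
  refine ⟨C, hC, fun x hx hxa hN => ⟨(h1 x hx hxa).1 i, fun k => ?_⟩⟩
  rw [pd_q]
  have h2 := (h1 x hx hxa).2.1 k i
  have h3 : 0 ≤ √(TT u x) := Real.sqrt_nonneg _
  nlinarith

private theorem DB.S (h : Sol E u) (i j : Fin n) : DB E u (S u i j) := by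
  refine ⟨((h.smooth_S i j).of_le one_le_top').mono inter_subset_left, fun a b δ ha hδ => ?_⟩
  obtain ⟨C, c, hC, hc, h1⟩ := h.bounds (b := b) ha
  refine ⟨C, hC, fun x hx hxa hN => ⟨(h1 x hx hxa).2.1 i j, fun k => ?_⟩⟩
  rw [pd_S]
  have h2 := TT_abs (u := u) k i j x
  have h3 : 0 ≤ √(TT u x) := Real.sqrt_nonneg _
  nlinarith

private theorem DB.NN (h : Sol E u) : DB E u (NN u) :=
  DB.sum h _ fun i _ => DB.sum h _ fun j _ => DB.pow h (DB.S h i j) 2

private theorem DB.gg (h : Sol E u) : DB E u (gg u) :=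
  DB.sum h _ fun i _ => DB.pow h (DB.q h i) 2

private theorem DB.w (h : Sol E u) (i : Fin n) : DB E u (w u i) :=
  DB.sum h _ fun j _ => DB.mul h (DB.S h i j) (DB.q h j)

private theorem DB.gg_rpow (h : Sol E u) (r : ℝ) : DB E u (fun x => OPC.gg u x ^ r) :=
  DB.rpow h (DB.gg h) (fun x hx _ => h.gg_pos hx) (fun a b δ ha hδ => by
    obtain ⟨C, c, hC, hc, h1⟩ := h.bounds (b := b) ha
    exact ⟨c, hc, fun x hx hxa _ => (h1 x hx hxa).2.2.2.2.2.2.2.2.2.2.2⟩) r

private theorem DB.div_gg (h : Sol E u) {f : V n → ℝ} (hf : DB E u f) :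
    DB E u (fun x => f x / OPC.gg u x) := by
  refine DB.congr h (DB.mul h hf (DB.gg_rpow h (-1))) fun x hx hN => ?_
  rw [Real.rpow_neg_one, div_eq_mul_inv]

private theorem DB.sg (h : Sol E u) : DB E u (sg u) :=
  DB.div_gg h (DB.sum h _ fun i _ => DB.mul h (DB.q h i) (DB.w h i))

private theorem DB.normsq (h : Sol E u) : DB E u (fun x => ‖x‖ ^ 2) := by
  refine DB.congr h (DB.sum h Finset.univ fun i _ => DB.pow h (DB.coord i) 2) fun x hx hN => ?_
  rw [norm_sq_eq_sum]

private theorem DB.norm_rpow (h : Sol E u) (r : ℝ) : DB E u (fun x => ‖x‖ ^ r) := by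
  refine DB.congr h (DB.rpow h (DB.normsq h) (fun x hx _ => ?_) (fun a b δ ha hδ => ?_) (r / 2))
    fun x hx hN => ?_
  · have := norm_pos_iff.2 (h.ne_zero hx)
    positivity
  · refine ⟨a ^ 2, by positivity, fun x hx hxa _ => ?_⟩
    exact pow_le_pow_left₀ ha.le hxa.1 2
  · rw [← Real.rpow_natCast, ← Real.rpow_mul (norm_nonneg _)]
    congr 1
    push_cast
    ring

private theorem DB.norm (h : Sol E u) : DB E u (fun x => ‖x‖) := by
  refine DB.congr h (DB.norm_rpow h 1) fun x hx hN => ?_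
  rw [Real.rpow_one]

private theorem DB.norm_zpow (h : Sol E u) (k : ℤ) : DB E u (fun x => ‖x‖ ^ k) := by
  refine DB.congr h (DB.norm_rpow h k) fun x hx hN => ?_
  rw [Real.rpow_intCast]

private theorem DB.ss_rpow (h : Sol E u) (r : ℝ) : DB E u (fun x => ss u x ^ r) := by
  refine DB.congr h (DB.rpow h (DB.mul h (DB.normsq h) (DB.NN h)) (fun x hx hN => ?_)
    (fun a b δ ha hδ => ?_) (r / 2)) fun x hx hN => ?_
  · have := norm_pos_iff.2 (h.ne_zero hx)
    have h0 : 0 ≤ OPC.NN u x := Finset.sum_nonneg fun _ _ => Finset.sum_nonneg fun _ _ => sq_nonneg _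
    have := lt_of_le_of_ne h0 (Ne.symm hN)
    positivity
  · refine ⟨a ^ 2 * δ, by positivity, fun x hx hxa hN => ?_⟩
    exact mul_le_mul (pow_le_pow_left₀ ha.le hxa.1 2) hN hδ.le (by positivity)
  · have h0 : 0 ≤ OPC.NN u x := Finset.sum_nonneg fun _ _ => Finset.sum_nonneg fun _ _ => sq_nonneg _
    have h1 : ‖x‖ ^ 2 * OPC.NN u x = ss u x ^ 2 := by
      unfold ss
      rw [mul_pow, Real.sq_sqrt h0]
    have h2 : 0 ≤ ss u x := by unfold ss; positivity
    rw [h1, ← Real.rpow_natCast, ← Real.rpow_mul h2]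
    congr 1
    push_cast
    ring

private theorem DB.Sm (h : Sol E u) (i j : Fin n) : DB E u (fun x => Sm u x i j) := by
  refine DB.congr h (DB.mul h (DB.norm h) (DB.S h i j)) fun x hx hN => ?_
  simp [OPC.Sm]

private theorem DB.Sm_pow (h : Sol E u) (a : ℕ) (i j : Fin n) :
    DB E u (fun x => (OPC.Sm u x ^ a) i j) := by
  induction a generalizing i j with
  | zero =>
    simp only [pow_zero, Matrix.one_apply]
    exact DB.const _
  | succ a ih =>
    simp only [pow_succ, Matrix.mul_apply]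
    exact DB.sum h _ fun k _ => DB.mul h (ih i k) (DB.Sm h k j)

private theorem DB.pv (h : Sol E u) (i : Fin n) : DB E u (fun x => pv u x i) := by
  refine DB.congr h (DB.add h (DB.q h i) (DB.mul h (DB.const (-1))
    (DB.mul h (DB.mul h (DB.slf h) (DB.coord i)) (DB.norm_zpow h (-2))))) fun x hx hN => ?_
  have h0 : ‖x‖ ≠ 0 := (norm_pos_iff.2 (h.ne_zero hx)).ne'
  have h1 : ‖x‖ ^ (-2 : ℤ) = (‖x‖ ^ 2)⁻¹ := by
    rw [zpow_neg]; rfl
  simp only [OPC.pv, h1]
  field_simp
  ring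

private theorem DB.Sp (h : Sol E u) (a : ℕ) (i : Fin n) : DB E u (fun x => Sp u x a i) := by
  simp only [OPC.Sp, Matrix.mulVec, dotProduct]
  exact DB.sum h _ fun k _ => DB.mul h (DB.Sm_pow h a i k) (DB.pv h k)

private theorem DB.Mt (h : Sol E u) (A : Mt) (i j : Fin n) : DB E u (fun x => A.val u x i j) := by
  cases A with
  | pow a => exact DB.Sm_pow h a i j
  | sym a b =>
    refine DB.congr h (DB.mul h (DB.add h (DB.mul h (DB.Sp h a i) (DB.Sp h b j))
      (DB.mul h (DB.Sp h b i) (DB.Sp h a j))) (DB.const (1 / 2))) fun x hx hN => ?_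
    simp only [Mt.val, Matrix.of_apply]
    ring

private theorem DB.Fac (h : Sol E u) (f : Fac) : DB E u (fun x => f.val u x) := by
  have hb : ∀ a, DB E u (fun x => OPC.pv u x ⬝ᵥ (OPC.Sm u x ^ a).mulVec (OPC.pv u x)) := by
    intro a
    simp only [Matrix.mulVec, dotProduct]
    exact DB.sum h _ fun i _ => DB.mul h (DB.pv h i)
      (DB.sum h _ fun k _ => DB.mul h (DB.Sm_pow h a i k) (DB.pv h k))
  have ht : ∀ a, DB E u (fun x => Matrix.trace (OPC.Sm u x ^ a)) := by
    intro a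
    simp only [Matrix.trace, Matrix.diag]
    exact DB.sum h _ fun i _ => DB.Sm_pow h a i i
  have hu : DB E u (fun x => u x / ‖x‖) := by
    refine DB.congr h (DB.mul h (DB.slf h) (DB.norm_zpow h (-1))) fun x hx hN => ?_
    rw [zpow_neg_one, div_eq_mul_inv]
  cases f with
  | c3 => exact ht 3
  | c4 => exact ht 4
  | b0 => exact DB.gg h
  | b1 =>
    have := hb 1
    simp only [pow_one] at this
    exact this
  | b2 => exact hb 2
  | b3 => exact hb 3
  | u2 => exact DB.pow h hu 2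
  | u1 => exact hu

private theorem DB.facs (h : Sol E u) (L : List OPC.Fac) : DB E u (fun x => facsVal u x L) :=
  DB.listProd h L fun f _ => DB.Fac h f

private theorem DB.sgt (h : Sol E u) : DB E u (sgt u) := DB.mul h (DB.norm h) (DB.sg h)

private theorem DB.ev (h : Sol E u) (A : OPC.Mt) : DB E u (fun x => A.ev u x) := by
  cases A with
  | pow a => exact DB.pow h (DB.sgt h) a
  | sym a b => exact DB.mul h (DB.pow h (DB.sgt h) (a + b)) (DB.gg h)

/-- the matrix `P` of a shape -/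
noncomputable def Shape.P (u : V n → ℝ) (x : V n) : Shape → Matrix (Fin n) (Fin n) ℝ
  | .v0 _ => 0
  | .p1 A => A.val u x
  | .h1 A B => B.ev u x • A.val u x - A.ev u x • B.val u x
  | .h2 _ _ _ => 0

/-- the zeroth order part -/
noncomputable def Shape.Z (u : V n → ℝ) (x : V n) : Shape → ℝ
  | .v0 a => ∑ k, q u k x * Sp u x a k
  | _ => 0

noncomputable def Term.P (ϖ : ℚ) (g : Term) (u : V n → ℝ) (i j : Fin n) (x : V n) : ℝ :=
  (g.coef : ℝ) * (‖x‖ ^ (3 - (n : ℤ)) *
    ((ss u x ^ ((g.ex ϖ : ℚ) : ℝ) * facsVal u x g.facs) * g.shape.P u x i j))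

noncomputable def Term.Z (ϖ : ℚ) (g : Term) (u : V n → ℝ) (x : V n) : ℝ :=
  (g.coef : ℝ) * (‖x‖ ^ (1 - (n : ℤ)) *
    ((ss u x ^ ((g.ex ϖ : ℚ) : ℝ) * facsVal u x g.facs) * g.shape.Z u x))

noncomputable def Ptot (ϖ : ℚ) (L : List Term) (u : V n → ℝ) (i j : Fin n) (x : V n) : ℝ :=
  (L.map fun g => g.P ϖ u i j x).sum

noncomputable def Ztot (ϖ : ℚ) (L : List Term) (u : V n → ℝ) (x : V n) : ℝ :=
  (L.map fun g => g.Z ϖ u x).sum - Ff ϖ u x * ∑ k, q u k x * w u k x

/-- `z = (q·Pq)/|q|²` -/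
noncomputable def ztot (ϖ : ℚ) (L : List Term) (u : V n → ℝ) (x : V n) : ℝ :=
  (∑ i, ∑ j, q u i x * Ptot ϖ L u i j x * q u j x) / gg u x

private theorem DB.shapeP (h : Sol E u) (sh : Shape) (i j : Fin n) :
    DB E u (fun x => sh.P u x i j) := by
  cases sh with
  | v0 a => simpa [Shape.P] using DB.const (E := E) (u := u) 0
  | p1 A => exact DB.Mt h A i j
  | h1 A B =>
    refine DB.congr h (DB.add h (DB.mul h (DB.ev h B) (DB.Mt h A i j))
      (DB.mul h (DB.const (-1)) (DB.mul h (DB.ev h A) (DB.Mt h B i j)))) fun x hx hN => ?_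
    simp only [Shape.P, Matrix.sub_apply, Matrix.smul_apply, smul_eq_mul]
    ring
  | h2 a b c => simpa [Shape.P] using DB.const (E := E) (u := u) 0

private theorem DB.shapeZ (h : Sol E u) (sh : Shape) :
    DB E u (fun x => sh.Z u x) := by
  cases sh with
  | v0 a => exact DB.sum h _ fun k _ => DB.mul h (DB.q h k) (DB.Sp h a k)
  | p1 A => simpa [Shape.Z] using DB.const (E := E) (u := u) 0
  | h1 A B => simpa [Shape.Z] using DB.const (E := E) (u := u) 0
  | h2 a b c => simpa [Shape.Z] using DB.const (E := E) (u := u) 0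

private theorem DB.Ptot (h : Sol E u) (ϖ : ℚ) (L : List Term) (i j : Fin n) :
    DB E u (Ptot ϖ L u i j) :=
  DB.listSum h L fun g _ => DB.mul h (DB.const _) (DB.mul h (DB.norm_zpow h _)
    (DB.mul h (DB.mul h (DB.ss_rpow h _) (DB.facs h _)) (DB.shapeP h _ i j)))

private theorem DB.Ztot (h : Sol E u) (ϖ : ℚ) (L : List Term) : DB E u (Ztot ϖ L u) := by
  refine DB.congr h (DB.add h (DB.listSum h L (f := fun g x => g.Z ϖ u x) fun g _ =>
    DB.mul h (DB.const _) (DB.mul h (DB.norm_zpow h _)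
    (DB.mul h (DB.mul h (DB.ss_rpow h _) (DB.facs h _)) (DB.shapeZ h _))))
    (DB.mul h (DB.const (-1)) (DB.mul h (DB.mul h (DB.norm_zpow h (2 - (n : ℤ)))
      (DB.ss_rpow h (ϖ : ℝ))) (DB.sum h Finset.univ fun k _ => DB.mul h (DB.q h k) (DB.w h k)))))
    fun x hx hN => ?_
  simp only [OPC.Ztot, Ff]
  ring

private theorem DB.ztot (h : Sol E u) (ϖ : ℚ) (L : List Term) : DB E u (ztot ϖ L u) :=
  DB.div_gg h (DB.sum h _ fun i _ => DB.sum h _ fun j _ =>
    DB.mul h (DB.mul h (DB.q h i) (DB.Ptot h ϖ L i j)) (DB.q h j))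

theorem Sol.smooth_Ptot (h : Sol E u) (ϖ : ℚ) (L : List Term) (i j : Fin n) :
    ContDiffOn ℝ 1 (Ptot ϖ L u i j) (E ∩ {x | NN u x ≠ 0}) := (DB.Ptot h ϖ L i j).sm

theorem Sol.smooth_ztot (h : Sol E u) (ϖ : ℚ) (L : List Term) :
    ContDiffOn ℝ 1 (ztot ϖ L u) (E ∩ {x | NN u x ≠ 0}) := (DB.ztot h ϖ L).sm

theorem Sol.cont_Ztot (h : Sol E u) (ϖ : ℚ) (L : List Term) :
    ContinuousOn (Ztot ϖ L u) (E ∩ {x | NN u x ≠ 0}) := (DB.Ztot h ϖ L).sm.continuousOn

theorem Sol.Ptot_symm (h : Sol E u) (ϖ : ℚ) (L : List Term) (i j : Fin n) {x : V n}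
    (hx : x ∈ E) : Ptot ϖ L u i j x = Ptot ϖ L u j i x := by
  unfold Ptot
  congr 1
  refine List.map_congr_left fun g _ => ?_
  unfold Term.P
  have : g.shape.P u x i j = g.shape.P u x j i := by
    cases g.shape with
    | v0 a => simp [Shape.P]
    | p1 A => exact h.Mt_symm A hx i j
    | h1 A B =>
      simp only [Shape.P, Matrix.sub_apply, Matrix.smul_apply, h.Mt_symm A hx i j,
        h.Mt_symm B hx i j]
    | h2 a b c => simp [Shape.P]
  rw [this]

private theorem DB.unif {ι : Type*} [Fintype ι] {f : ι → V n → ℝ} (hf : ∀ i, DB E u (f i))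
    {a b δ : ℝ} (ha : 0 < a) (hδ : 0 < δ) :
    ∃ C, 1 ≤ C ∧ ∀ x ∈ E, x ∈ Ann a b → δ ≤ OPC.NN u x → ∀ i,
      |f i x| ≤ C ∧ ∀ k, |pd k (f i) x| ≤ C * (1 + √(TT u x)) := by
  choose C hC h1 using fun i => (hf i).bd a b δ ha hδ
  refine ⟨1 + ∑ i, C i, ?_, fun x hx hxa hN i => ?_⟩
  · have : 0 ≤ ∑ i, C i := Finset.sum_nonneg fun i _ => by linarith [hC i]
    linarith
  · have h2 : C i ≤ ∑ i, C i :=
      Finset.single_le_sum (f := C) (fun j _ => by linarith [hC j]) (Finset.mem_univ i)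
    obtain ⟨h3, h4⟩ := h1 i x hx hxa hN
    refine ⟨by linarith, fun k => (h4 k).trans ?_⟩
    have := Real.sqrt_nonneg (TT u x)
    exact mul_le_mul_of_nonneg_right (by linarith) (by linarith)

/-- bounds of `P, z` and of their first derivatives where `NN ≥ δ`.
Sketch: all building blocks are explicit functions of `(x, q, S)`: `|∂_k (Sm)_{ij}| ≤ C (1 + |T|)`
etc.; a predicate `|f| ≤ C` and `|∂f| ≤ C (1 + √TT)` where `NN ≥ δ` is closed under sums, products,
powers. -/
theorem Sol.P_bounds (h : Sol E u) (ϖ : ℚ) (L : List Term) {a b δ : ℝ} (ha : 0 < a)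
    (hδ : 0 < δ) :
    ∃ C, 0 < C ∧ ∀ x ∈ E, x ∈ Ann a b → δ ≤ NN u x →
      (∀ i j, |Ptot ϖ L u i j x| ≤ C) ∧ |ztot ϖ L u x| ≤ C ∧
      (∀ k i j, |pd k (Ptot ϖ L u i j) x| ≤ C * (1 + √(TT u x))) ∧
      (∀ k, |pd k (ztot ϖ L u) x| ≤ C * (1 + √(TT u x))) ∧ |Ztot ϖ L u x| ≤ C := by
  obtain ⟨C, hC, h1⟩ := DB.unif (f := fun p : Fin n × Fin n => Ptot ϖ L u p.1 p.2)
    (fun p => DB.Ptot h ϖ L p.1 p.2) (b := b) ha hδ
  obtain ⟨D, hD, h2⟩ := (DB.ztot h ϖ L).bd a b δ ha hδ
  obtain ⟨F, hF, h3⟩ := (DB.Ztot h ϖ L).bd a b δ ha hδ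
  refine ⟨C + D + F, by linarith, fun x hx hxa hN => ?_⟩
  have h4 := h1 x hx hxa hN
  obtain ⟨h5, h6⟩ := h2 x hx hxa hN
  obtain ⟨h7, _⟩ := h3 x hx hxa hN
  have := Real.sqrt_nonneg (TT u x)
  refine ⟨fun i j => (h4 (i, j)).1.trans (by linarith), by linarith, fun k i j => ?_,
    fun k => ?_, by linarith⟩
  · exact ((h4 (i, j)).2 k).trans (mul_le_mul_of_nonneg_right (by linarith) (by linarith))
  · exact (h6 k).trans (mul_le_mul_of_nonneg_right (by linarith) (by linarith))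

section clo

variable {er : V n → ℝ}

private theorem Clo.of_eq (he : ∀ x ∈ E, 0 ≤ er x) {f g : V n → ℝ} (hfg : ∀ x ∈ E, f x = g x) :
    Clo E u er f g := fun a b δ _ _ => ⟨1, one_pos, fun x hx _ _ => by
      rw [hfg x hx, sub_self, abs_zero, one_mul]; exact he x hx⟩

private theorem Clo.tr {f g k : V n → ℝ} (h1 : Clo E u er f g) (h2 : Clo E u er g k) :
    Clo E u er f k := fun a b δ ha hδ => by
  obtain ⟨C, hC, h3⟩ := h1 a b δ ha hδ
  obtain ⟨D, hD, h4⟩ := h2 a b δ ha hδ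
  refine ⟨C + D, by linarith, fun x hx hxa hN => ?_⟩
  have h5 := h3 x hx hxa hN
  have h6 := h4 x hx hxa hN
  calc |f x - k x| = |(f x - g x) + (g x - k x)| := by congr 1; ring
    _ ≤ |f x - g x| + |g x - k x| := abs_add_le _ _
    _ ≤ (C + D) * er x := by linarith

private theorem Clo.sm {f g : V n → ℝ} (h1 : Clo E u er f g) : Clo E u er g f :=
  fun a b δ ha hδ => by
  obtain ⟨C, hC, h3⟩ := h1 a b δ ha hδ
  exact ⟨C, hC, fun x hx hxa hN => by rw [abs_sub_comm]; exact h3 x hx hxa hN⟩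

private theorem Clo.ad {f g f' g' : V n → ℝ} (h1 : Clo E u er f g) (h2 : Clo E u er f' g') :
    Clo E u er (fun x => f x + f' x) (fun x => g x + g' x) := fun a b δ ha hδ => by
  obtain ⟨C, hC, h3⟩ := h1 a b δ ha hδ
  obtain ⟨D, hD, h4⟩ := h2 a b δ ha hδ
  refine ⟨C + D, by linarith, fun x hx hxa hN => ?_⟩
  have h5 := h3 x hx hxa hN
  have h6 := h4 x hx hxa hN
  calc |f x + f' x - (g x + g' x)| = |(f x - g x) + (f' x - g' x)| := by congr 1; ring
    _ ≤ |f x - g x| + |f' x - g' x| := abs_add_le _ _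
    _ ≤ (C + D) * er x := by linarith

private theorem Clo.sb {f g f' g' : V n → ℝ} (h1 : Clo E u er f g) (h2 : Clo E u er f' g') :
    Clo E u er (fun x => f x - f' x) (fun x => g x - g' x) := fun a b δ ha hδ => by
  obtain ⟨C, hC, h3⟩ := h1 a b δ ha hδ
  obtain ⟨D, hD, h4⟩ := h2 a b δ ha hδ
  refine ⟨C + D, by linarith, fun x hx hxa hN => ?_⟩
  have h5 := h3 x hx hxa hN
  have h6 := h4 x hx hxa hN
  calc |f x - f' x - (g x - g' x)| = |(f x - g x) - (f' x - g' x)| := by congr 1; ring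
    _ ≤ |f x - g x| + |f' x - g' x| := abs_sub _ _
    _ ≤ (C + D) * er x := by linarith

private theorem Clo.su (he : ∀ x ∈ E, 0 ≤ er x) {ι : Type*} (s : Finset ι) {f g : ι → V n → ℝ}
    (h1 : ∀ i ∈ s, Clo E u er (f i) (g i)) :
    Clo E u er (fun x => ∑ i ∈ s, f i x) (fun x => ∑ i ∈ s, g i x) := by
  classical
  induction s using Finset.induction_on with
  | empty => exact Clo.of_eq he fun x _ => by simp
  | insert i s hi ih =>
    simp only [Finset.sum_insert hi]
    exact Clo.ad (h1 i (Finset.mem_insert_self _ _))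
      (ih fun j hj => h1 j (Finset.mem_insert_of_mem hj))

private theorem Clo.lsu (he : ∀ x ∈ E, 0 ≤ er x) {ι : Type*} (L : List ι) {f g : ι → V n → ℝ}
    (h1 : ∀ i ∈ L, Clo E u er (f i) (g i)) :
    Clo E u er (fun x => (L.map fun i => f i x).sum) (fun x => (L.map fun i => g i x).sum) := by
  induction L with
  | nil => exact Clo.of_eq he fun x _ => by simp
  | cons i L ih =>
    simp only [List.map_cons, List.sum_cons]
    exact Clo.ad (h1 i (by simp)) (ih fun j hj => h1 j (by simp [hj]))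

/-- multiplication with a bounded function -/
private theorem Clo.bmul (h : Sol E u) (he : ∀ x ∈ E, 0 ≤ er x) {t f g : V n → ℝ}
    (ht : DB E u t) (h1 : Clo E u er f g) :
    Clo E u er (fun x => t x * f x) (fun x => t x * g x) := fun a b δ ha hδ => by
  obtain ⟨C, hC, h3⟩ := h1 a b δ ha hδ
  obtain ⟨D, hD, h4⟩ := ht.bd a b δ ha hδ
  refine ⟨D * C, by positivity, fun x hx hxa hN => ?_⟩
  have h5 := h3 x hx hxa hN
  have h6 := (h4 x hx hxa hN).1
  have h7 := he x hx
  rw [← mul_sub, abs_mul]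
  calc |t x| * |f x - g x| ≤ D * (C * er x) := mul_le_mul h6 h5 (abs_nonneg _) (by linarith)
    _ = D * C * er x := by ring

end clo

private theorem er0_nonneg (h : Sol E u) (x : V n) : 0 ≤ er0 u x := by
  unfold er0
  have := h.nonneg x
  positivity

/-- the approximate eigenvalue of a shape -/
private noncomputable def Shape.lam (u : V n → ℝ) (x : V n) : Shape → ℝ
  | .p1 A => A.ev u x
  | _ => 0

private theorem Shape.lam_clo (h : Sol E u) (sh : Shape) (i : Fin n) :
    Clo E u (er0 u) (fun x => ∑ j, sh.P u x i j * q u j x) (fun x => sh.lam u x * q u i x) := by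
  have he : ∀ x ∈ E, 0 ≤ er0 u x := fun x _ => er0_nonneg h x
  cases sh with
  | v0 a => exact Clo.of_eq he fun x _ => by simp [Shape.P, Shape.lam]
  | p1 A => exact h.Mt_q_clo A i
  | h1 A B =>
    have h1 := Clo.bmul h he (DB.ev h B) (h.Mt_q_clo A i)
    have h2 := Clo.bmul h he (DB.ev h A) (h.Mt_q_clo B i)
    refine Clo.tr (Clo.of_eq he fun x hx => ?_) (Clo.tr (Clo.sb h1 h2) (Clo.of_eq he fun x hx => ?_))
    · simp only [Shape.P, Matrix.sub_apply, Matrix.smul_apply, smul_eq_mul, sub_mul,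
        Finset.sum_sub_distrib, Finset.mul_sum, mul_assoc]
    · simp only [Shape.lam]
      ring
  | h2 a b c => exact Clo.of_eq he fun x _ => by simp [Shape.P, Shape.lam]

private noncomputable def Term.lam (ϖ : ℚ) (g : Term) (u : V n → ℝ) (x : V n) : ℝ :=
  ((g.coef : ℝ) * (‖x‖ ^ (3 - (n : ℤ)) *
    (ss u x ^ ((g.ex ϖ : ℚ) : ℝ) * facsVal u x g.facs))) * g.shape.lam u x

private theorem Term.lam_clo (h : Sol E u) (ϖ : ℚ) (g : Term) (i : Fin n) :
    Clo E u (er0 u) (fun x => ∑ j, g.P ϖ u i j x * q u j x) (fun x => g.lam ϖ u x * q u i x) := by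
  have he : ∀ x ∈ E, 0 ≤ er0 u x := fun x _ => er0_nonneg h x
  have hD : DB E u (fun x => (g.coef : ℝ) * (‖x‖ ^ (3 - (n : ℤ)) *
    (ss u x ^ ((g.ex ϖ : ℚ) : ℝ) * facsVal u x g.facs))) :=
    DB.mul h (DB.const _) (DB.mul h (DB.norm_zpow h _) (DB.mul h (DB.ss_rpow h _) (DB.facs h _)))
  have h1 := Clo.bmul h he hD (Shape.lam_clo h g.shape i)
  refine Clo.tr (Clo.of_eq he fun x hx => ?_) (Clo.tr h1 (Clo.of_eq he fun x hx => ?_))
  · simp only [Term.P, Finset.mul_sum]
    exact Finset.sum_congr rfl fun j _ => by ring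
  · simp only [Term.lam]
    ring

private noncomputable def lamtot (ϖ : ℚ) (L : List Term) (u : V n → ℝ) (x : V n) : ℝ :=
  (L.map fun g => g.lam ϖ u x).sum

private theorem listSum_finSum {ι : Type*} (L : List ι) (f : ι → Fin n → ℝ) :
    (L.map fun g => ∑ j, f g j).sum = ∑ j, (L.map fun g => f g j).sum := by
  induction L with
  | nil => simp
  | cons i L ih => simp [ih, Finset.sum_add_distrib]

private theorem lamtot_clo (h : Sol E u) (ϖ : ℚ) (L : List Term) (i : Fin n) :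
    Clo E u (er0 u) (fun x => ∑ j, Ptot ϖ L u i j x * q u j x)
      (fun x => lamtot ϖ L u x * q u i x) := by
  have he : ∀ x ∈ E, 0 ≤ er0 u x := fun x _ => er0_nonneg h x
  have h1 := Clo.lsu he L (f := fun g x => ∑ j, g.P ϖ u i j x * q u j x)
    (g := fun g x => g.lam ϖ u x * q u i x) fun g _ => Term.lam_clo h ϖ g i
  refine Clo.tr (Clo.of_eq he fun x hx => ?_) (Clo.tr h1 (Clo.of_eq he fun x hx => ?_))
  · rw [listSum_finSum]
    refine Finset.sum_congr rfl fun j _ => ?_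
    rw [Ptot, List.sum_map_mul_right]
  · rw [lamtot, List.sum_map_mul_right]

/-- `P q = z q + O(|a| + u)` -/
theorem Sol.P_q (h : Sol E u) (ϖ : ℚ) (L : List Term) (i : Fin n) :
    Clo E u (er0 u) (fun x => ∑ j, Ptot ϖ L u i j x * q u j x)
      (fun x => ztot ϖ L u x * q u i x) := by
  have he : ∀ x ∈ E, 0 ≤ er0 u x := fun x _ => er0_nonneg h x
  -- `z = λ + O(er0)`
  have h1 : Clo E u (er0 u) (ztot ϖ L u) (lamtot ϖ L u) := by
    have h2 := Clo.bmul h he (DB.gg_rpow h (-1)) (Clo.su he Finset.univ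
      (f := fun i x => q u i x * ∑ j, Ptot ϖ L u i j x * q u j x)
      (g := fun i x => q u i x * (lamtot ϖ L u x * q u i x))
      fun i _ => Clo.bmul h he (DB.q h i) (lamtot_clo h ϖ L i))
    refine Clo.tr (Clo.of_eq he fun x hx => ?_) (Clo.tr h2 (Clo.of_eq he fun x hx => ?_))
    · rw [Real.rpow_neg_one, ztot, div_eq_inv_mul]
      congr 1
      refine Finset.sum_congr rfl fun i _ => ?_
      rw [Finset.mul_sum]
      exact Finset.sum_congr rfl fun j _ => by ring
    · have hg := (h.gg_pos hx).ne'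
      have h3 : ∑ i, q u i x * (lamtot ϖ L u x * q u i x) = lamtot ϖ L u x * gg u x := by
        rw [gg, Finset.mul_sum]
        exact Finset.sum_congr rfl fun j _ => by ring
      rw [h3, Real.rpow_neg_one]
      field_simp
  have h4 := Clo.bmul h he (DB.q h i) h1
  refine Clo.tr (lamtot_clo h ϖ L i) (Clo.tr (Clo.of_eq he fun x hx => ?_)
    (Clo.tr (Clo.sm h4) (Clo.of_eq he fun x hx => ?_)))
  · ring
  · ring

/-- the error with a third derivative -/
private noncomputable def erT (u : V n → ℝ) (x : V n) : ℝ :=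
  (√(a2 u x) + u x) * (1 + √(TT u x))

private theorem erT_nonneg (h : Sol E u) (x : V n) : 0 ≤ erT u x :=
  mul_nonneg (er0_nonneg h x) (by positivity)

/-- multiplication with `Tt:A` -/
private theorem Clo.tmul (h : Sol E u) (A : Mt) (l : Fin n) {f g : V n → ℝ}
    (h1 : Clo E u (er0 u) f g) :
    Clo E u (erT u) (fun x => f x * TA u x (A.val u x) l)
      (fun x => g x * TA u x (A.val u x) l) := fun a b δ ha hδ => by
  obtain ⟨C, hC, h3⟩ := h1 a b δ ha hδ
  obtain ⟨D, hD, h4⟩ := DB.unif (f := fun p : Fin n × Fin n => fun x => A.val u x p.1 p.2)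
    (fun p => DB.Mt h A p.1 p.2) (b := b) ha hδ
  have hX : ∀ x ∈ E, x ∈ Ann a b → δ ≤ NN u x →
      |TA u x (A.val u x) l| ≤ ((n : ℝ) * (n * (b ^ 2 * D))) * √(TT u x) := by
    intro x hx hxa hN
    have h5 := h4 x hx hxa hN
    have hxb : ‖x‖ ^ 2 ≤ b ^ 2 := pow_le_pow_left₀ (norm_nonneg _) hxa.2 2
    unfold TA
    calc |∑ i, ∑ j, Tt u x l i j * A.val u x i j|
        ≤ ∑ i, |∑ j, Tt u x l i j * A.val u x i j| := Finset.abs_sum_le_sum_abs _ _
      _ ≤ ∑ i : Fin n, ∑ j : Fin n, |Tt u x l i j * A.val u x i j| :=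
          Finset.sum_le_sum fun i _ => Finset.abs_sum_le_sum_abs _ _
      _ ≤ ∑ i : Fin n, ∑ j : Fin n, (b ^ 2 * D) * √(TT u x) := by
          refine Finset.sum_le_sum fun i _ => Finset.sum_le_sum fun j _ => ?_
          rw [abs_mul, Tt, abs_mul, abs_of_nonneg (by positivity : 0 ≤ ‖x‖ ^ 2)]
          have h6 := TT_abs (u := u) l i j x
          have h7 := (h5 (i, j)).1
          calc ‖x‖ ^ 2 * |T u l i j x| * |A.val u x i j|
              ≤ (b ^ 2 * √(TT u x)) * D := by
                refine mul_le_mul (mul_le_mul hxb h6 (abs_nonneg _) (by positivity)) h7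
                  (abs_nonneg _) (by positivity)
            _ = (b ^ 2 * D) * √(TT u x) := by ring
      _ = ((n : ℝ) * (n * (b ^ 2 * D))) * √(TT u x) := by
          simp only [Finset.sum_const, Finset.card_univ, Fintype.card_fin, nsmul_eq_mul]
          ring
  refine ⟨C * ((n : ℝ) * (n * (b ^ 2 * D))) + 1, by positivity, fun x hx hxa hN => ?_⟩
  have h5 := h3 x hx hxa hN
  have h6 := hX x hx hxa hN
  have h7 := er0_nonneg h x
  have h8 := erT_nonneg h x
  rw [← sub_mul, abs_mul]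
  have hK : 0 ≤ (n : ℝ) * (n * (b ^ 2 * D)) := by positivity
  calc |f x - g x| * |TA u x (A.val u x) l|
      ≤ (C * er0 u x) * (((n : ℝ) * (n * (b ^ 2 * D))) * √(TT u x)) :=
        mul_le_mul h5 h6 (abs_nonneg _) (by positivity)
    _ = (C * ((n : ℝ) * (n * (b ^ 2 * D)))) * (er0 u x * √(TT u x)) := by ring
    _ ≤ (C * ((n : ℝ) * (n * (b ^ 2 * D)))) * erT u x := by
        refine mul_le_mul_of_nonneg_left ?_ (by positivity)
        unfold erT er0
        unfold er0 at h7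
        have := Real.sqrt_nonneg (TT u x)
        nlinarith
    _ ≤ (C * ((n : ℝ) * (n * (b ^ 2 * D))) + 1) * erT u x := by nlinarith

private theorem TA_eq (A : Matrix (Fin n) (Fin n) ℝ) (x : V n) (l : Fin n) :
    TA u x A l = ‖x‖ ^ 2 * ∑ i, ∑ j, T u l i j x * A i j := by
  unfold TA Tt
  rw [Finset.mul_sum]
  refine Finset.sum_congr rfl fun i _ => ?_
  rw [Finset.mul_sum]
  exact Finset.sum_congr rfl fun j _ => by ring

private theorem Shape.flux (h : Sol E u) (sh : Shape) :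
    Clo E u (erT u) (fun x => ∑ k, q u k x * sh.val u x k)
      (fun x => ‖x‖ ^ 2 * (∑ k, ∑ i, ∑ j, T u k i j x * q u k x * sh.P u x i j)
        + sh.Z u x) := by
  have he : ∀ x ∈ E, 0 ≤ erT u x := fun x _ => erT_nonneg h x
  have he0 : ∀ x ∈ E, 0 ≤ er0 u x := fun x _ => er0_nonneg h x
  have hq : ∀ (A : Mt) (l : Fin n), Clo E u (er0 u) (fun x => ∑ k, q u k x * A.val u x k l)
      (fun x => A.ev u x * q u l x) := by
    intro A l
    refine Clo.tr (Clo.of_eq he0 fun x hx => ?_) (h.Mt_q_clo A l)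
    exact Finset.sum_congr rfl fun k _ => by rw [h.Mt_symm A hx k l]; ring
  cases sh with
  | v0 a =>
    refine Clo.of_eq he fun x _ => ?_
    simp [Shape.val, Shape.P, Shape.Z]
  | p1 A =>
    refine Clo.of_eq he fun x _ => ?_
    simp only [Shape.val, Shape.P, Shape.Z, add_zero, TA_eq]
    rw [Finset.mul_sum]
    refine Finset.sum_congr rfl fun k _ => ?_
    simp only [Finset.mul_sum]
    refine Finset.sum_congr rfl fun i _ => Finset.sum_congr rfl fun j _ => by ring
  | h1 A B =>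
    have h1 := Clo.su he Finset.univ
      (f := fun l x => (∑ k, q u k x * B.val u x k l) * TA u x (A.val u x) l
        - (∑ k, q u k x * A.val u x k l) * TA u x (B.val u x) l)
      (g := fun l x => (B.ev u x * q u l x) * TA u x (A.val u x) l
        - (A.ev u x * q u l x) * TA u x (B.val u x) l)
      fun l _ => Clo.sb (Clo.tmul h A l (hq B l)) (Clo.tmul h B l (hq A l))
    refine Clo.tr (Clo.of_eq he fun x hx => ?_) (Clo.tr h1 (Clo.of_eq he fun x hx => ?_))
    · simp only [Shape.val, Finset.mul_sum]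
      rw [Finset.sum_comm]
      refine Finset.sum_congr rfl fun l _ => ?_
      rw [Finset.sum_mul, Finset.sum_mul, ← Finset.sum_sub_distrib]
      exact Finset.sum_congr rfl fun k _ => by ring
    · simp only [Shape.P, Shape.Z, add_zero, TA_eq]
      rw [Finset.mul_sum]
      refine Finset.sum_congr rfl fun k _ => ?_
      simp only [Finset.mul_sum, Matrix.sub_apply, Matrix.smul_apply, smul_eq_mul]
      rw [← Finset.sum_sub_distrib]
      refine Finset.sum_congr rfl fun i _ => ?_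
      rw [← Finset.sum_sub_distrib]
      exact Finset.sum_congr rfl fun j _ => by ring
  | h2 a b c =>
    have h1 := Clo.su he Finset.univ
      (f := fun l x => (∑ k, q u k x * wedge u x a b k l) * TA u x ((Mt.pow c).val u x) l)
      (g := fun l x => 0 * TA u x ((Mt.pow c).val u x) l)
      fun l _ => Clo.tmul h (Mt.pow c) l (h.wedge_q_clo a b l)
    refine Clo.tr (Clo.of_eq he fun x hx => ?_) (Clo.tr h1 (Clo.of_eq he fun x hx => ?_))
    · simp only [Shape.val, Finset.mul_sum, Mt.val]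
      rw [Finset.sum_comm]
      refine Finset.sum_congr rfl fun l _ => ?_
      rw [Finset.sum_mul]
      exact Finset.sum_congr rfl fun k _ => by ring
    · simp [Shape.P, Shape.Z]

private theorem Term.flux (h : Sol E u) (ϖ : ℚ) (g : Term) :
    Clo E u (erT u) (fun x => ∑ k, q u k x * g.field ϖ u k x)
      (fun x => (∑ k, ∑ i, ∑ j, T u k i j x * q u k x * g.P ϖ u i j x) + g.Z ϖ u x) := by
  have he : ∀ x ∈ E, 0 ≤ erT u x := fun x _ => erT_nonneg h x
  have hD : DB E u (fun x => (g.coef : ℝ) * (‖x‖ ^ (1 - (n : ℤ)) *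
    (ss u x ^ ((g.ex ϖ : ℚ) : ℝ) * facsVal u x g.facs))) :=
    DB.mul h (DB.const _) (DB.mul h (DB.norm_zpow h _) (DB.mul h (DB.ss_rpow h _) (DB.facs h _)))
  have h1 := Clo.bmul h he hD (Shape.flux h g.shape)
  refine Clo.tr (Clo.of_eq he fun x hx => ?_) (Clo.tr h1 (Clo.of_eq he fun x hx => ?_))
  · simp only [Term.field, Finset.mul_sum]
    exact Finset.sum_congr rfl fun k _ => by ring
  · have h0 : ‖x‖ ≠ 0 := (norm_pos_iff.2 (h.ne_zero hx)).ne'
    have h3 : ‖x‖ ^ (3 - (n : ℤ)) = ‖x‖ ^ (1 - (n : ℤ)) * ‖x‖ ^ 2 := by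
      rw [← zpow_natCast ‖x‖ 2, ← zpow_add₀ h0]
      congr 1
      push_cast
      ring
    simp only [Term.P, Term.Z, h3]
    rw [mul_add]
    congr 1
    · simp only [Finset.mul_sum]
      exact Finset.sum_congr rfl fun k _ => Finset.sum_congr rfl fun i _ =>
        Finset.sum_congr rfl fun j _ => by ring
    · ring

/-- flux decomposition `∑ q_k W_k = ∑ T_{kij} q_k P_{ij} + Z + O((|a| + u)(1 + |T|))` -/
theorem Sol.flux_decomp (h : Sol E u) (ϖ : ℚ) (L : List Term) {a b δ : ℝ} (ha : 0 < a)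
    (hδ : 0 < δ) :
    ∃ C, 0 < C ∧ ∀ x ∈ E, x ∈ Ann a b → δ ≤ NN u x →
      |∑ k, q u k x * Wfield ϖ L u k x
        - ((∑ k, ∑ i, ∑ j, T u k i j x * q u k x * Ptot ϖ L u i j x) + Ztot ϖ L u x)| ≤
        C * ((√(a2 u x) + u x) * (1 + √(TT u x))) := by
  have he : ∀ x ∈ E, 0 ≤ erT u x := fun x _ => erT_nonneg h x
  have h1 := Clo.lsu he L (f := fun g x => ∑ k, q u k x * g.field ϖ u k x)
    (g := fun g x => (∑ k, ∑ i, ∑ j, T u k i j x * q u k x * g.P ϖ u i j x) + g.Z ϖ u x)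
    fun g _ => Term.flux h ϖ g
  have h2 := Clo.sb h1 (Clo.of_eq (u := u) he (f := fun x => Ff ϖ u x * ∑ k, q u k x * w u k x)
    (g := fun x => Ff ϖ u x * ∑ k, q u k x * w u k x) fun x _ => rfl)
  obtain ⟨C, hC, h3⟩ := h2 a b δ ha hδ
  refine ⟨C, hC, fun x hx hxa hN => ?_⟩
  have h4 := h3 x hx hxa hN
  have e1 : ∑ k, q u k x * Wfield ϖ L u k x =
      (L.map fun g => ∑ k, q u k x * g.field ϖ u k x).sum
        - Ff ϖ u x * ∑ k, q u k x * w u k x := by
    simp only [Wfield, Vfield, mul_sub, Finset.sum_sub_distrib]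
    rw [listSum_finSum]
    congr 1
    · refine Finset.sum_congr rfl fun k _ => ?_
      rw [List.sum_map_mul_left]
    · rw [Finset.mul_sum]
      exact Finset.sum_congr rfl fun k _ => by ring
  have e2 : (∑ k, ∑ i, ∑ j, T u k i j x * q u k x * Ptot ϖ L u i j x) + Ztot ϖ L u x =
      (L.map fun g => (∑ k, ∑ i, ∑ j, T u k i j x * q u k x * g.P ϖ u i j x)
        + g.Z ϖ u x).sum - Ff ϖ u x * ∑ k, q u k x * w u k x := by
    rw [List.sum_map_add, Ztot]
    have e3 : ∑ k, ∑ i, ∑ j, T u k i j x * q u k x * Ptot ϖ L u i j x =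
        (L.map fun g => ∑ k, ∑ i, ∑ j, T u k i j x * q u k x * g.P ϖ u i j x).sum := by
      rw [listSum_finSum]
      refine Finset.sum_congr rfl fun k _ => ?_
      rw [listSum_finSum]
      refine Finset.sum_congr rfl fun i _ => ?_
      rw [listSum_finSum]
      refine Finset.sum_congr rfl fun j _ => ?_
      rw [Ptot, List.sum_map_mul_left]
    rw [e3]
    ring
  rw [e1, e2]
  exact h4

end OPC
end

section

/-! # J10: the flux condition of a certificate -/

open MeasureTheory Set Filter Topology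

namespace OPC

variable {n : ℕ} {E : Set (V n)} {u : V n → ℝ}

private theorem j10_Ann_meas (a b : ℝ) : MeasurableSet (Ann a b : Set (V n)) := by
  have h1 : IsClosed (Ann a b : Set (V n)) :=
    (isClosed_le continuous_const continuous_norm).inter
      (isClosed_le continuous_norm continuous_const)
  exact h1.measurableSet

private theorem j10_NN_nonneg (x : V n) : 0 ≤ NN u x :=
  Finset.sum_nonneg fun _ _ => Finset.sum_nonneg fun _ _ => sq_nonneg _

private theorem j10_th_zero {δ : ℝ} {x : V n} (h0 : NN u x = 0) : th u δ x = 0 := by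
  unfold th
  rw [h0, mul_zero, zero_div]
  exact chi_eq_zero zero_le_one

private theorem j10_th_nonneg (δ : ℝ) (x : V n) : 0 ≤ th u δ x := chi_nonneg _

private theorem j10_th_le_one (δ : ℝ) (x : V n) : th u δ x ≤ 1 := chi_le_one _

private theorem j10_th_near (h : Sol E u) {δ : ℝ} {x : V n} (hx : x ∈ E)
    (h0 : NN u x = 0) : ∀ᶠ y in 𝓝 x, th u δ y = 0 := by
  have hc : ContinuousAt (fun x => ‖x‖ ^ 2 * NN u x / δ) x :=
    (((contDiff_norm_sq ℝ (n := (⊤ : ℕ∞))).contDiffOn.mul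
      h.smooth_NN).div_const δ).continuousOn.continuousAt (h.isOpen.mem_nhds hx)
  have h1 : ∀ᶠ y in 𝓝 x, ‖y‖ ^ 2 * NN u y / δ < 1 := by
    refine hc.eventually_lt continuousAt_const ?_
    simp [h0]
  filter_upwards [h1] with y hy
  exact chi_eq_zero hy.le

/-- where `th ≠ 0` on an annulus, `NN` is bounded below -/
private theorem j10_NN_ge {a b δ : ℝ} (ha : 0 < a) (hδ : 0 < δ) {x : V n} (hxa : x ∈ Ann a b)
    (hth : th u δ x ≠ 0) : δ / (b ^ 2 + 1) ≤ NN u x := by
  have hN := j10_NN_nonneg (u := u) x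
  have h1 : 1 < ‖x‖ ^ 2 * NN u x / δ := by
    by_contra hc
    exact hth (chi_eq_zero (not_lt.1 hc))
  rw [lt_div_iff₀ hδ, one_mul] at h1
  have h2 : ‖x‖ ^ 2 ≤ b ^ 2 := pow_le_pow_left₀ (norm_nonneg x) hxa.2 2
  rw [div_le_iff₀ (by positivity)]
  nlinarith [mul_le_mul_of_nonneg_right h2 hN]

/-- bound for the derivative of `th² G` -/
private theorem j10_pd_bound (h : Sol E u) {a b δ : ℝ} (ha : 0 < a) (hδ : 0 < δ) {C1 : ℝ}
    (hC1 : 0 < C1)
    (hth : ∀ x ∈ E, x ∈ Ann a b → ∀ i, |pd i (th u δ) x| * √(NN u x)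
      ≤ C1 * (√(TT u x) + √(NN u x)))
    {G : V n → ℝ} (hG : ContDiffOn ℝ 1 G (E ∩ {x | NN u x ≠ 0})) {C : ℝ} (hC : 0 < C)
    {x : V n} (hx : x ∈ E) (hxa : x ∈ Ann a b) (k : Fin n)
    (hGb : δ / (b ^ 2 + 1) ≤ NN u x → |G x| ≤ C ∧ |pd k G x| ≤ C * (1 + √(TT u x))) :
    |pd k (fun y => th u δ y ^ 2 * G y) x|
      ≤ (C + 2 * C * C1 * (1 + (√(δ / (b ^ 2 + 1)))⁻¹)) * (1 + √(TT u x)) := by
  have hT : 0 ≤ √(TT u x) := Real.sqrt_nonneg _
  have hd0 : 0 < δ / (b ^ 2 + 1) := by positivity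
  set d := √(δ / (b ^ 2 + 1)) with hd
  have hdp : 0 < d := Real.sqrt_pos.2 hd0
  have hR : 0 ≤ (C + 2 * C * C1 * (1 + d⁻¹)) * (1 + √(TT u x)) := by positivity
  by_cases h0 : NN u x = 0
  · have hz : (fun y => th u δ y ^ 2 * G y) =ᶠ[nhds x] fun _ => 0 := by
      filter_upwards [j10_th_near h (δ := δ) hx h0] with y hy
      simp [hy]
    rw [pd_zero_of_eventually hz k, abs_zero]
    exact hR
  · have hopen : IsOpen (E ∩ {x | NN u x ≠ 0}) :=
      h.smooth_NN.continuousOn.isOpen_inter_preimage h.isOpen isOpen_ne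
    have hGd : DifferentiableAt ℝ G x :=
      (hG.contDiffAt (hopen.mem_nhds ⟨hx, h0⟩)).differentiableAt (by simp)
    have htd : DifferentiableAt ℝ (th u δ) x := diffAt h.isOpen (h.smooth_th hδ) hx
    have htd2 : DifferentiableAt ℝ (fun y => th u δ y ^ 2) x := htd.pow 2
    have e1 : pd k (fun y => th u δ y ^ 2 * G y) x
        = th u δ x * (2 * pd k (th u δ) x * G x + th u δ x * pd k G x) := by
      rw [pd_mul htd2 hGd, pd_pow htd 2 k]
      simp only [Nat.cast_ofNat, Nat.add_one_sub_one, pow_one]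
      ring
    rw [e1]
    by_cases ht : th u δ x = 0
    · rw [ht, zero_mul, abs_zero]
      exact hR
    · have hN := j10_NN_ge ha hδ hxa ht
      obtain ⟨hG1, hG2⟩ := hGb hN
      have hsN : d ≤ √(NN u x) := Real.sqrt_le_sqrt hN
      have hsNp : 0 < √(NN u x) := lt_of_lt_of_le hdp hsN
      have hp : |pd k (th u δ) x| ≤ C1 * (1 + d⁻¹) * (1 + √(TT u x)) := by
        have h1 := hth x hx hxa k
        have h2 : |pd k (th u δ) x| ≤ C1 * (√(TT u x) + √(NN u x)) / √(NN u x) := by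
          rw [le_div_iff₀ hsNp]; exact h1
        have h3 : C1 * (√(TT u x) + √(NN u x)) / √(NN u x)
            = C1 * (√(TT u x) * (√(NN u x))⁻¹ + 1) := by
          field_simp
        have h4 : (√(NN u x))⁻¹ ≤ d⁻¹ := inv_anti₀ hdp hsN
        have h5 : √(TT u x) * (√(NN u x))⁻¹ ≤ √(TT u x) * d⁻¹ :=
          mul_le_mul_of_nonneg_left h4 hT
        have h6 : 0 < d⁻¹ := inv_pos.2 hdp
        rw [h3] at h2
        calc |pd k (th u δ) x| ≤ C1 * (√(TT u x) * (√(NN u x))⁻¹ + 1) := h2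
          _ ≤ C1 * ((1 + d⁻¹) * (1 + √(TT u x))) := by
              refine mul_le_mul_of_nonneg_left ?_ hC1.le
              nlinarith
          _ = C1 * (1 + d⁻¹) * (1 + √(TT u x)) := by ring
      have ht0 := j10_th_nonneg (u := u) δ x
      have ht1 := j10_th_le_one (u := u) δ x
      rw [abs_mul, abs_of_nonneg ht0]
      have h7 : |2 * pd k (th u δ) x * G x + th u δ x * pd k G x|
          ≤ 2 * (C1 * (1 + d⁻¹) * (1 + √(TT u x))) * C + 1 * (C * (1 + √(TT u x))) := by
        refine (abs_add_le _ _).trans (add_le_add ?_ ?_)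
        · rw [abs_mul, abs_mul, abs_of_pos (show (0 : ℝ) < 2 by norm_num)]
          exact mul_le_mul (mul_le_mul_of_nonneg_left hp (by norm_num)) hG1 (abs_nonneg _)
            (by positivity)
        · rw [abs_mul, abs_of_nonneg ht0]
          exact mul_le_mul ht1 hG2 (abs_nonneg _) zero_le_one
      calc th u δ x * |2 * pd k (th u δ) x * G x + th u δ x * pd k G x|
          ≤ 1 * (2 * (C1 * (1 + d⁻¹) * (1 + √(TT u x))) * C + 1 * (C * (1 + √(TT u x)))) :=
            mul_le_mul ht1 h7 (abs_nonneg _) zero_le_one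
        _ = (C + 2 * C * C1 * (1 + d⁻¹)) * (1 + √(TT u x)) := by ring

/-- The flux condition. Data on `E ∩ {NN ≠ 0}`: a symmetric `C¹` matrix field `P`, `C¹` function `z`
with `P q = z q + O(|a| + u)`, a function `Z` with
`∑ q_k W_k = ∑ T_{kij} q_k P_{ij} + Z + O((|a| + u)(1 + |T|))`, all constants locally uniform where
`NN ≥ δ`, and `σ S:P - S²:P + z |S|² + Z ≥ -o(1)` at the free boundary.
Sketch: apply `Sol.flux_lemma` with `κ = deriv chi` to `th² P`, `th² z` (`C¹` on `E`,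
`Sol.th_mul_smooth`; `th = 0` near `{NN = 0}`, `|∇th| ≤ C_δ (1 + |T|)`, where `th ≠ 0` one has
`NN ≥ δ/b²` on `Ann a b`). The error term `ε⁻¹ ∫ chi' η th² C (|a| + u)(1 + |T|) → 0`
(`Sol.layer_err`), and `ε⁻¹ ∫ chi' η th² (b + Z) ≥ - C c` (`Sol.layer_int`). -/
theorem Sol.flux_of (h : Sol E u) {W : Fin n → V n → ℝ} {P : Fin n → Fin n → V n → ℝ}
    {z Z : V n → ℝ}
    (hW : ∀ k, ContDiffOn ℝ 1 (W k) (E ∩ {x | NN u x ≠ 0}))
    (hZ : ContinuousOn Z (E ∩ {x | NN u x ≠ 0}))
    (hP : ∀ i j, ContDiffOn ℝ 1 (P i j) (E ∩ {x | NN u x ≠ 0}))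
    (hz : ContDiffOn ℝ 1 z (E ∩ {x | NN u x ≠ 0}))
    (hsym : ∀ i j, ∀ x ∈ E, NN u x ≠ 0 → P i j x = P j i x)
    (hb : ∀ a b δ : ℝ, 0 < a → 0 < δ → ∃ C, 0 < C ∧ ∀ x ∈ E, x ∈ Ann a b → δ ≤ NN u x →
      (∀ i j, |P i j x| ≤ C) ∧ |z x| ≤ C ∧ (∀ k i j, |pd k (P i j) x| ≤ C * (1 + √(TT u x))) ∧
      (∀ k, |pd k z x| ≤ C * (1 + √(TT u x))) ∧
      (∀ i, |∑ j, P i j x * q u j x - z x * q u i x| ≤ C * (√(a2 u x) + u x)) ∧
      |Z x| ≤ C ∧
      |∑ k, q u k x * W k x - ((∑ k, ∑ i, ∑ j, T u k i j x * q u k x * P i j x) + Z x)| ≤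
        C * ((√(a2 u x) + u x) * (1 + √(TT u x))))
    (hB : ∀ a b δ c : ℝ, 0 < a → 0 < δ → 0 < c → ∃ ε > 0, ∀ x ∈ E, x ∈ Ann a b → δ ≤ NN u x →
      u x < ε → -c ≤ sg u x * ∑ i, ∑ j, S u i j x * P i j x
          - ∑ i, ∑ j, (∑ k, S u i k x * S u k j x) * P i j x + z x * NN u x + Z x)
    {η : V n → ℝ} (hη : Tst η) (hη0 : ∀ x, 0 ≤ η x) {δ : ℝ} (hδ : 0 < δ) {c : ℝ} (hc : 0 < c) :
    ∀ᶠ ε in 𝓝[>] (0 : ℝ),
      -c ≤ ε⁻¹ * ∫ x in E, deriv chi (u x / ε) * η x * ((th u δ x) ^ 2 * ∑ k, q u k x * W k x) := by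
  -- the annulus of the test function
  obtain ⟨a, b, ha, -, hs⟩ := hη.ann
  set δ0 : ℝ := δ / (b ^ 2 + 1) with hδ0d
  have hδ0 : 0 < δ0 := by positivity
  -- bounds
  obtain ⟨C, hC, hCb⟩ := hb a b δ0 ha hδ0
  obtain ⟨CL, hCL0, hCL⟩ := h.layer_int (a := a) (b := b) ha
  obtain ⟨Cχ, hCχ1, hCχ⟩ := deriv_chi_bdd
  obtain ⟨Mη, hMη⟩ : ∃ M, ∀ x, ‖η x‖ ≤ M :=
    hη.smooth.continuous.bounded_above_of_compact_support hη.cpt
  have hMη0 : 0 ≤ Mη := (norm_nonneg _).trans (hMη 0)
  have hηM : ∀ x, η x ≤ Mη := fun x => (le_abs_self _).trans (hMη x)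
  -- smoothness
  have hP2 : ∀ i j, ContDiffOn ℝ 1 (fun y => th u δ y ^ 2 * P i j y) E := fun i j =>
    (h.th_mul_smooth hδ one_le_top' (hP i j)).2
  have hz2 : ContDiffOn ℝ 1 (fun y => th u δ y ^ 2 * z y) E :=
    (h.th_mul_smooth hδ one_le_top' hz).2
  have hW2 : ∀ k, ContDiffOn ℝ 1 (fun y => th u δ y ^ 2 * W k y) E := fun k =>
    (h.th_mul_smooth hδ one_le_top' (hW k)).2
  have hZ2 : ContinuousOn (fun y => th u δ y ^ 2 * Z y) E :=
    ((h.th_mul_smooth hδ (k := 0) zero_le (contDiffOn_zero.2 hZ)).2).continuousOn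
  -- the flux lemma
  have hfl := h.flux_lemma hη deriv_chi_smooth (fun s hs => deriv_chi_eq_zero hs)
    (P := fun i j y => th u δ y ^ 2 * P i j y) (z := fun y => th u δ y ^ 2 * z y)
    hP2 hz2 (fun i j x hx => by
      by_cases h0 : NN u x = 0
      · simp [j10_th_zero (δ := δ) h0]
      · rw [hsym i j x hx h0]) (fun a' b' ha' => by
      obtain ⟨C', hC', hCb'⟩ := hb a' b' (δ / (b' ^ 2 + 1)) ha' (by positivity)
      obtain ⟨C1, hC1, hth⟩ := h.pd_th_le (a := a') (b := b') ha'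
      have hd0 : 0 < √(δ / (b' ^ 2 + 1)) := Real.sqrt_pos.2 (by positivity)
      have hK : C' ≤ C' + 2 * C' * C1 * (1 + (√(δ / (b' ^ 2 + 1)))⁻¹) := by
        have : 0 ≤ 2 * C' * C1 * (1 + (√(δ / (b' ^ 2 + 1)))⁻¹) := by positivity
        linarith
      refine ⟨C' + 2 * C' * C1 * (1 + (√(δ / (b' ^ 2 + 1)))⁻¹), by positivity, ?_⟩
      intro x hx hxa
      have ht0 := j10_th_nonneg (u := u) δ x
      have ht1 := j10_th_le_one (u := u) δ x
      have ht2 : th u δ x ^ 2 ≤ 1 := pow_le_one₀ ht0 ht1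
      have ht20 : 0 ≤ th u δ x ^ 2 := sq_nonneg _
      have hu0 := h.nonneg x
      have ha20 := Real.sqrt_nonneg (a2 u x)
      -- multiplication by th^2
      have hmul : ∀ (y M : ℝ), 0 ≤ M → (th u δ x ≠ 0 → |y| ≤ M) → |th u δ x ^ 2 * y| ≤ M := by
        intro y M hM hy
        by_cases ht : th u δ x = 0
        · rw [ht]; simpa using hM
        · rw [abs_mul, abs_of_nonneg ht20]
          calc th u δ x ^ 2 * |y| ≤ 1 * M := mul_le_mul ht2 (hy ht) (abs_nonneg _) zero_le_one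
            _ = M := one_mul _
      have hb0 : th u δ x ≠ 0 → _ := fun ht => hCb' x hx hxa (j10_NN_ge ha' hδ hxa ht)
      refine ⟨fun i j => ?_, ?_, fun k i j => ?_, fun k => ?_, fun i => ?_⟩
      · exact hmul _ _ (by positivity) fun ht => ((hb0 ht).1 i j).trans hK
      · exact hmul _ _ (by positivity) fun ht => (hb0 ht).2.1.trans hK
      · exact j10_pd_bound h ha' hδ hC1 (fun x hx hxa i => (hth δ hδ x hx hxa i).1) (hP i j) hC'
          hx hxa k fun hN => ⟨(hCb' x hx hxa hN).1 i j, (hCb' x hx hxa hN).2.2.1 k i j⟩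
      · exact j10_pd_bound h ha' hδ hC1 (fun x hx hxa i => (hth δ hδ x hx hxa i).1) hz hC'
          hx hxa k fun hN => ⟨(hCb' x hx hxa hN).2.1, (hCb' x hx hxa hN).2.2.2.1 k⟩
      · have e1 : ∑ j, th u δ x ^ 2 * P i j x * q u j x - th u δ x ^ 2 * z x * q u i x
            = th u δ x ^ 2 * (∑ j, P i j x * q u j x - z x * q u i x) := by
          rw [mul_sub, Finset.mul_sum]
          congr 1
          · exact Finset.sum_congr rfl fun j _ => by ring
          · ring
        rw [e1]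
        refine hmul _ _ (by positivity) fun ht => ((hb0 ht).2.2.2.2.1 i).trans ?_
        exact mul_le_mul_of_nonneg_right hK (by positivity))
  -- the constants of the second part
  set c1 : ℝ := c / (3 * (CL * (Cχ * Mη) + 1)) with hc1d
  have hc1 : 0 < c1 := by positivity
  obtain ⟨ε1, hε1, hB1⟩ := hB a b δ0 c1 ha hδ0 hc1
  have hle := h.layer_err (a := a) (b := b) ha
  have hev1 := (Metric.tendsto_nhds.1 hfl) (c / 3) (by positivity)
  have hev2 := (Metric.tendsto_nhds.1 hle) (c / (3 * (Cχ * Mη * C + 1))) (by positivity)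
  have hev3 : ∀ᶠ ε in 𝓝[>] (0 : ℝ), ε < ε1 / 2 :=
    nhdsWithin_le_nhds (Iio_mem_nhds (by positivity))
  filter_upwards [hev1, hev2, hev3, self_mem_nhdsWithin] with ε hε hε' hε'' hε0
  have hεp : 0 < ε := hε0
  rw [Real.dist_eq, sub_zero] at hε hε'
  -- names
  set X : V n → ℝ := fun x => ∑ k, ∑ i, ∑ j, T u k i j x * q u k x *
    (th u δ x ^ 2 * P i j x) with hX
  set bb : V n → ℝ := fun x => sg u x * ∑ i, ∑ j, S u i j x * (th u δ x ^ 2 * P i j x)
      - ∑ i, ∑ j, (∑ k, S u i k x * S u k j x) * (th u δ x ^ 2 * P i j x)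
      + (th u δ x ^ 2 * z x) * NN u x with hbb
  set Zt : V n → ℝ := fun x => th u δ x ^ 2 * Z x with hZt
  set Wt : V n → ℝ := fun x => th u δ x ^ 2 * ∑ k, q u k x * W k x with hWt
  obtain ⟨hct, hcs⟩ := h.kcut_tst deriv_chi_smooth (fun s hs => by
    rcases hs.eq_or_lt with h5 | h5
    · subst h5
      have hc1 : Continuous (deriv chi) := deriv_chi_smooth.continuous
      have : IsClosed {s : ℝ | deriv chi s = 0} := isClosed_eq hc1 continuous_const
      have hcl : (1 : ℝ) ∈ closure (Iio (1 : ℝ)) := by rw [closure_Iio]; exact self_mem_Iic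
      exact this.closure_subset_iff.2 (fun s hs => deriv_chi_eq_zero
        (fun h6 => absurd h6.1 (not_le.2 hs))) hcl
    · exact deriv_chi_eq_zero (fun h6 => absurd h6.1 (not_le.2 h5))) hη hεp
  have hXc : ContinuousOn X E := by
    simp only [hX]
    refine continuousOn_finsetSum _ fun k _ => continuousOn_finsetSum _ fun i _ =>
      continuousOn_finsetSum _ fun j _ => ?_
    exact ((h.smooth_T k i j).continuousOn.mul (h.smooth_q k).continuousOn).mul
      (hP2 i j).continuousOn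
  have hbc : ContinuousOn bb E := by
    simp only [hbb]
    refine ((h.smooth_sg.continuousOn.mul ?_).sub ?_).add (hz2.continuousOn.mul
      h.smooth_NN.continuousOn)
    · exact continuousOn_finsetSum _ fun i _ => continuousOn_finsetSum _ fun j _ =>
        (h.smooth_S i j).continuousOn.mul (hP2 i j).continuousOn
    · refine continuousOn_finsetSum _ fun i _ => continuousOn_finsetSum _ fun j _ =>
        ContinuousOn.mul ?_ (hP2 i j).continuousOn
      exact continuousOn_finsetSum _ fun k _ =>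
        (h.smooth_S i k).continuousOn.mul (h.smooth_S k j).continuousOn
  have hWc : ContinuousOn Wt E := by
    have : Wt = fun x => ∑ k, q u k x * (th u δ x ^ 2 * W k x) := by
      funext x
      simp only [hWt, Finset.mul_sum]
      exact Finset.sum_congr rfl fun k _ => by ring
    rw [this]
    exact continuousOn_finsetSum _ fun k _ => (h.smooth_q k).continuousOn.mul
      (hW2 k).continuousOn
  have hint : ∀ f : V n → ℝ, ContinuousOn f E →
      IntegrableOn (fun x => deriv chi (u x / ε) * η x * f x) E := fun f hf =>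
    (integrable_mul_of_tsupport h.isOpen hct.smooth.continuous hct.cpt hcs hf).integrableOn
  have i1 : IntegrableOn (fun x => deriv chi (u x / ε) * η x * (X x - bb x)) E :=
    hint _ (hXc.sub hbc)
  have i2 : IntegrableOn (fun x => deriv chi (u x / ε) * η x * (bb x + Zt x)) E :=
    hint _ (hbc.add hZ2)
  have i3 : IntegrableOn (fun x => deriv chi (u x / ε) * η x * (Wt x - X x - Zt x)) E :=
    hint _ ((hWc.sub hXc).sub hZ2)
  have e1 : ∫ x in E, deriv chi (u x / ε) * η x * Wt x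
      = (∫ x in E, deriv chi (u x / ε) * η x * (X x - bb x))
        + (∫ x in E, deriv chi (u x / ε) * η x * (bb x + Zt x))
        + ∫ x in E, deriv chi (u x / ε) * η x * (Wt x - X x - Zt x) := by
    have i12 : IntegrableOn (fun x => deriv chi (u x / ε) * η x * (X x - bb x)
        + deriv chi (u x / ε) * η x * (bb x + Zt x)) E := i1.add i2
    rw [← integral_add i1 i2, ← integral_add i12 i3]
    refine integral_congr_ae (Eventually.of_forall fun x => ?_)
    simp only
    ring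
  have hκ0 : ∀ x, 0 ≤ deriv chi (u x / ε) * η x := fun x =>
    mul_nonneg (deriv_chi_nonneg _) (hη0 x)
  have hκM : ∀ x, deriv chi (u x / ε) * η x ≤ Cχ * Mη := fun x =>
    mul_le_mul ((le_abs_self _).trans (hCχ _)) (hηM x) (hη0 x) (by linarith)
  have hκz : ∀ x, (x ∉ Ann a b ∨ 2 * ε < u x) → deriv chi (u x / ε) * η x = 0 := by
    intro x hcase
    rcases hcase with h5 | h5
    · have : η x = 0 := image_eq_zero_of_notMem_tsupport fun h6 => h5 (hs h6)
      rw [this, mul_zero]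
    · have : deriv chi (u x / ε) = 0 := deriv_chi_eq_zero fun h6 => by
        have := h6.2
        rw [div_le_iff₀ hεp] at this
        linarith
      rw [this, zero_mul]
  -- second part
  have e2 : -(c / 3) ≤ ε⁻¹ * ∫ x in E, deriv chi (u x / ε) * η x * (bb x + Zt x) := by
    have h1 : ∫ x in E, deriv chi (u x / ε) * η x * (-c1)
        ≤ ∫ x in E, deriv chi (u x / ε) * η x * (bb x + Zt x) := by
      refine setIntegral_mono_on (hint _ continuousOn_const) i2 h.isOpen.measurableSet ?_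
      intro x hx
      by_cases hcase : x ∉ Ann a b ∨ 2 * ε < u x
      · rw [hκz x hcase]; simp
      · push Not at hcase
        refine mul_le_mul_of_nonneg_left ?_ (hκ0 x)
        by_cases ht : th u δ x = 0
        · simp only [hbb, hZt, ht]
          simp
          exact hc1.le
        · have h2 := hB1 x hx hcase.1 (j10_NN_ge ha hδ hcase.1 ht) (by linarith [hcase.2])
          have e5 : bb x + Zt x = th u δ x ^ 2 * (sg u x * ∑ i, ∑ j, S u i j x * P i j x
              - ∑ i, ∑ j, (∑ k, S u i k x * S u k j x) * P i j x + z x * NN u x + Z x) := by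
            simp only [hbb, hZt]
            have e6 : ∑ i, ∑ j, S u i j x * (th u δ x ^ 2 * P i j x)
                = th u δ x ^ 2 * ∑ i, ∑ j, S u i j x * P i j x := by
              rw [Finset.mul_sum]
              refine Finset.sum_congr rfl fun i _ => ?_
              rw [Finset.mul_sum]
              exact Finset.sum_congr rfl fun j _ => by ring
            have e7 : ∑ i, ∑ j, (∑ k, S u i k x * S u k j x) * (th u δ x ^ 2 * P i j x)
                = th u δ x ^ 2 * ∑ i, ∑ j, (∑ k, S u i k x * S u k j x) * P i j x := by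
              rw [Finset.mul_sum]
              refine Finset.sum_congr rfl fun i _ => ?_
              rw [Finset.mul_sum]
              exact Finset.sum_congr rfl fun j _ => by ring
            rw [e6, e7]
            ring
          rw [e5]
          have ht0 := j10_th_nonneg (u := u) δ x
          have ht1 := j10_th_le_one (u := u) δ x
          have ht2 : th u δ x ^ 2 ≤ 1 := pow_le_one₀ ht0 ht1
          have ht20 : 0 ≤ th u δ x ^ 2 := sq_nonneg _
          nlinarith [mul_le_mul_of_nonneg_left h2 ht20]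
    have h2 : |ε⁻¹ * ∫ x in E, deriv chi (u x / ε) * η x * 1| ≤ CL * (Cχ * Mη) := by
      refine hCL _ ε (Cχ * Mη) hεp (by positivity) (fun x hx _ _ => ?_) (fun x hx hcase => ?_)
      · rw [mul_one, abs_of_nonneg (hκ0 x)]
        exact hκM x
      · rw [hκz x hcase, zero_mul]
    have h3 : ∫ x in E, deriv chi (u x / ε) * η x * (-c1)
        = -c1 * ∫ x in E, deriv chi (u x / ε) * η x * 1 := by
      rw [← integral_const_mul]
      refine integral_congr_ae (Eventually.of_forall fun x => ?_)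
      simp only
      ring
    have h4 : ε⁻¹ * (-c1 * ∫ x in E, deriv chi (u x / ε) * η x * 1)
        ≤ ε⁻¹ * ∫ x in E, deriv chi (u x / ε) * η x * (bb x + Zt x) := by
      rw [← h3]
      exact mul_le_mul_of_nonneg_left h1 (inv_pos.2 hεp).le
    have h5 : ε⁻¹ * (-c1 * ∫ x in E, deriv chi (u x / ε) * η x * 1)
        = -(c1 * (ε⁻¹ * ∫ x in E, deriv chi (u x / ε) * η x * 1)) := by ring
    have h6 : c1 * (ε⁻¹ * ∫ x in E, deriv chi (u x / ε) * η x * 1) ≤ c1 * (CL * (Cχ * Mη)) :=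
      mul_le_mul_of_nonneg_left ((le_abs_self _).trans h2) hc1.le
    have h7 : c1 * (CL * (Cχ * Mη)) ≤ c / 3 := by
      have hK : 0 ≤ CL * (Cχ * Mη) := by positivity
      rw [hc1d, div_mul_eq_mul_div, div_le_div_iff₀ (by positivity) (by norm_num)]
      nlinarith
    linarith
  -- third part
  have e3 : -(c / 3) ≤ ε⁻¹ * ∫ x in E, deriv chi (u x / ε) * η x * (Wt x - X x - Zt x) := by
    set Sε : Set (V n) := E ∩ Ann a b ∩ {x | u x ≤ 2 * ε} with hSε
    have hSm : MeasurableSet Sε :=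
      (h.isOpen.measurableSet.inter (j10_Ann_meas a b)).inter
        (isClosed_le h.cont continuous_const).measurableSet
    have hsub : Sε ⊆ E := fun x hx => hx.1.1
    have h1 : ∫ x in E, deriv chi (u x / ε) * η x * (Wt x - X x - Zt x)
        = ∫ x in Sε, deriv chi (u x / ε) * η x * (Wt x - X x - Zt x) := by
      refine setIntegral_eq_of_subset_of_forall_sdiff_eq_zero h.isOpen.measurableSet hsub ?_
      intro x hx
      rw [hκz x ?_, zero_mul]
      by_contra hcon
      push Not at hcon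
      exact hx.2 ⟨⟨hx.1, hcon.1⟩, hcon.2⟩
    obtain ⟨C2, c2, hC21, -, hB2⟩ := h.bounds (a := a) (b := b) ha
    have hg : IntegrableOn (fun x => (√(a2 u x) + u x) * (1 + √(TT u x))) Sε := by
      have hvol : volume (E ∩ Ann a b) ≠ ⊤ := by
        refine ((measure_mono inter_subset_right).trans_lt ?_).ne
        refine (measure_mono (t := Metric.closedBall (0 : V n) b) fun x hx => ?_).trans_lt
          measure_closedBall_lt_top
        simpa using hx.2
      have hG : IntegrableOn (fun x => (4 * C2 ^ 2 + 2) + 2 * TT u x) (E ∩ Ann a b) :=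
        (integrableOn_const hvol).add ((h.int_TT ha).const_mul 2)
      have hcont : ContinuousOn (fun x => (√(a2 u x) + u x) * (1 + √(TT u x))) E := by
        have ha2c : ContinuousOn (a2 u) E := by
          unfold a2
          exact continuousOn_finsetSum _ fun i _ => ((h.smooth_aa i).continuousOn).pow 2
        exact (ha2c.sqrt.add h.cont.continuousOn).mul
          (continuousOn_const.add h.smooth_TT.continuousOn.sqrt)
      refine Integrable.mono' (hG.mono_set (fun x hx => hx.1))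
        ((hcont.mono hsub).aestronglyMeasurable hSm) ?_
      rw [ae_restrict_iff' hSm]
      refine Eventually.of_forall fun x hx => ?_
      have hBx := hB2 x hx.1.1 hx.1.2
      have hu0 := h.nonneg x
      have hTT0 : 0 ≤ TT u x := Finset.sum_nonneg fun _ _ => Finset.sum_nonneg fun _ _ =>
        Finset.sum_nonneg fun _ _ => sq_nonneg _
      have ha20 : 0 ≤ a2 u x := Finset.sum_nonneg fun _ _ => sq_nonneg _
      have h5 : √(a2 u x) ^ 2 = a2 u x := Real.sq_sqrt ha20
      have h6 : √(TT u x) ^ 2 = TT u x := Real.sq_sqrt hTT0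
      have h7 : a2 u x ≤ C2 ^ 2 := hBx.2.2.2.2.2.2.2.2.2.1.trans (by nlinarith)
      have h8 : u x ^ 2 ≤ C2 ^ 2 := pow_le_pow_left₀ hu0 hBx.2.2.2.2.2.2.2.2.2.2.1 2
      have h9 := Real.sqrt_nonneg (a2 u x)
      have h10 := Real.sqrt_nonneg (TT u x)
      rw [Real.norm_eq_abs, abs_of_nonneg (by positivity)]
      nlinarith [sq_nonneg (√(a2 u x) - u x), sq_nonneg (√(a2 u x) + u x - 1 - √(TT u x)),
        sq_nonneg (√(TT u x) - 1)]
    have h2 : |∫ x in Sε, deriv chi (u x / ε) * η x * (Wt x - X x - Zt x)|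
        ≤ ∫ x in Sε, (Cχ * Mη * C) * ((√(a2 u x) + u x) * (1 + √(TT u x))) := by
      rw [← Real.norm_eq_abs]
      refine norm_integral_le_of_norm_le (hg.const_mul _) ?_
      rw [ae_restrict_iff' hSm]
      refine Eventually.of_forall fun x hx => ?_
      have hu0 := h.nonneg x
      have ha20 := Real.sqrt_nonneg (a2 u x)
      have hT0 := Real.sqrt_nonneg (TT u x)
      have ht0 := j10_th_nonneg (u := u) δ x
      have ht1 := j10_th_le_one (u := u) δ x
      have ht2 : th u δ x ^ 2 ≤ 1 := pow_le_one₀ ht0 ht1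
      have ht20 : 0 ≤ th u δ x ^ 2 := sq_nonneg _
      rw [Real.norm_eq_abs, abs_mul, abs_of_nonneg (hκ0 x), mul_assoc (Cχ * Mη)]
      refine mul_le_mul (hκM x) ?_ (abs_nonneg _) (by positivity)
      have e5 : Wt x - X x - Zt x = th u δ x ^ 2 * (∑ k, q u k x * W k x
          - ((∑ k, ∑ i, ∑ j, T u k i j x * q u k x * P i j x) + Z x)) := by
        simp only [hWt, hX, hZt]
        have e6 : ∑ k, ∑ i, ∑ j, T u k i j x * q u k x * (th u δ x ^ 2 * P i j x)
            = th u δ x ^ 2 * ∑ k, ∑ i, ∑ j, T u k i j x * q u k x * P i j x := by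
          rw [Finset.mul_sum]
          refine Finset.sum_congr rfl fun k _ => ?_
          rw [Finset.mul_sum]
          refine Finset.sum_congr rfl fun i _ => ?_
          rw [Finset.mul_sum]
          exact Finset.sum_congr rfl fun j _ => by ring
        rw [e6]
        ring
      rw [e5]
      by_cases ht : th u δ x = 0
      · rw [ht]
        simp only [ne_eq, OfNat.ofNat_ne_zero, not_false_eq_true, zero_pow, zero_mul, abs_zero]
        positivity
      · have h5 := (hCb x hx.1.1 hx.1.2 (j10_NN_ge ha hδ hx.1.2 ht)).2.2.2.2.2.2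
        rw [abs_mul, abs_of_nonneg ht20]
        calc th u δ x ^ 2 * |∑ k, q u k x * W k x
              - ((∑ k, ∑ i, ∑ j, T u k i j x * q u k x * P i j x) + Z x)|
            ≤ 1 * (C * ((√(a2 u x) + u x) * (1 + √(TT u x)))) :=
              mul_le_mul ht2 h5 (abs_nonneg _) zero_le_one
          _ = C * ((√(a2 u x) + u x) * (1 + √(TT u x))) := one_mul _
    rw [integral_const_mul] at h2
    rw [h1]
    have hg0 : 0 ≤ ∫ x in Sε, (√(a2 u x) + u x) * (1 + √(TT u x)) := by
      refine setIntegral_nonneg hSm fun x _ => ?_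
      have hu0 := h.nonneg x
      positivity
    have h3 : ε⁻¹ * ∫ x in Sε, (√(a2 u x) + u x) * (1 + √(TT u x))
        < c / (3 * (Cχ * Mη * C + 1)) := (le_abs_self _).trans_lt hε'
    have h4 : |ε⁻¹ * ∫ x in Sε, deriv chi (u x / ε) * η x * (Wt x - X x - Zt x)|
        ≤ (Cχ * Mη * C) * (ε⁻¹ * ∫ x in Sε, (√(a2 u x) + u x) * (1 + √(TT u x))) := by
      rw [abs_mul, abs_of_pos (inv_pos.2 hεp)]
      calc ε⁻¹ * |∫ x in Sε, deriv chi (u x / ε) * η x * (Wt x - X x - Zt x)|
          ≤ ε⁻¹ * ((Cχ * Mη * C) * ∫ x in Sε, (√(a2 u x) + u x) * (1 + √(TT u x))) :=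
            mul_le_mul_of_nonneg_left h2 (inv_pos.2 hεp).le
        _ = _ := by ring
    have hK : 0 ≤ Cχ * Mη * C := by positivity
    have h5 : (Cχ * Mη * C) * (ε⁻¹ * ∫ x in Sε, (√(a2 u x) + u x) * (1 + √(TT u x)))
        ≤ (Cχ * Mη * C) * (c / (3 * (Cχ * Mη * C + 1))) :=
      mul_le_mul_of_nonneg_left h3.le hK
    have h6 : (Cχ * Mη * C) * (c / (3 * (Cχ * Mη * C + 1))) ≤ c / 3 := by
      rw [← mul_div_assoc, div_le_div_iff₀ (by positivity) (by norm_num)]
      nlinarith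
    have h7 := neg_abs_le (ε⁻¹ * ∫ x in Sε, deriv chi (u x / ε) * η x * (Wt x - X x - Zt x))
    linarith
  have e4 : -(c / 3) ≤ ε⁻¹ * ∫ x in E, deriv chi (u x / ε) * η x * (X x - bb x) := by
    have := neg_abs_le (ε⁻¹ * ∫ x in E, deriv chi (u x / ε) * η x * (X x - bb x))
    have h8 : |ε⁻¹ * ∫ x in E, deriv chi (u x / ε) * η x * (X x - bb x)| < c / 3 := hε
    linarith
  have e9 : ∫ x in E, deriv chi (u x / ε) * η x * ((th u δ x) ^ 2 * ∑ k, q u k x * W k x)
      = ∫ x in E, deriv chi (u x / ε) * η x * Wt x := rfl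
  rw [e9, e1, mul_add, mul_add]
  linarith

end OPC
end
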