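import Pool.Agent.Lib.MP_9059b8_an.Defs2
import Pool.Agent.Lib.MP_9059b8_an.A10
import Pool.Agent.Lib.MP_9059b8_an.A11
import Pool.Agent.Lib.MP_9059b8_an.P03

section

section

/-! # P10: scaling of the link formulas -/

open MeasureTheory Set Filter Topology

namespace OPC

variable {m : ℕ}

/-- the scaled state `(l/s, p, u, 1/s, T/s²)` -/
noncomputable def LS.scale (X : LS ℝ m) (s : ℝ) : LS ℝ m where
  l := fun i => X.l i / s
  p := X.p
  u := X.u
  eps := s⁻¹
  T := fun k i j => X.T k i j / s ^ 2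

/-- `X` is `X'` scaled by `s` -/
private structure Scal (X X' : LS ℝ m) (s : ℝ) : Prop where
  hl : ∀ i, X.l i = s * X'.l i
  hp : ∀ i, X.p i = X'.p i
  hu : X.u = X'.u
  he : X.eps = s * X'.eps
  hT : ∀ k i j, X.T k i j = s ^ 2 * X'.T k i j

private theorem Scal.of (X : LS ℝ m) (h1 : X.eps = 1) {s : ℝ} (hs : 0 < s) :
    Scal X (X.scale s) s where
  hl := fun i => by simp only [LS.scale]; field_simp
  hp := fun i => rfl
  hu := rfl
  he := by simp only [LS.scale]; rw [h1]; field_simp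
  hT := fun k i j => by simp only [LS.scale]; field_simp

private theorem hh_sc (a : ℕ) (s x y : ℝ) :
    hh a (s * x) (s * y) * s ^ 2 = s ^ (a + 1) * hh a x y := by
  unfold hh
  rw [Finset.sum_mul, Finset.mul_sum]
  refine Finset.sum_congr rfl fun c hc => ?_
  have hc' := Finset.mem_range.1 hc
  have : a + 1 = c + (a - 1 - c) + 2 := by omega
  rw [this, pow_add, pow_add, mul_pow, mul_pow]
  ring

section

variable {X X' : LS ℝ m} {s : ℝ}

private theorem Scal.v (h : Scal X X' s) (a : ℕ) (i : Fin m) : X.v a i = s ^ a * X'.v a i := by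
  unfold LS.v
  rw [h.hl, h.hp, mul_pow]; ring

private theorem Scal.dv (h : Scal X X' s) (a : ℕ) (k i : Fin m) :
    X.dv a k i = s ^ (a + 1) * X'.dv a k i := by
  unfold LS.dv
  rw [mul_add, Finset.mul_sum]
  congr 1
  · refine Finset.sum_congr rfl fun j _ => ?_
    rw [h.hl, h.hl, h.hT, h.hp]
    linear_combination (X'.T k i j * X'.p j) * hh_sc a s (X'.l i) (X'.l j)
  · split_ifs
    · rw [h.hl, h.he, h.hu, mul_pow]; ring
    · simp

private theorem Scal.b (h : Scal X X' s) (a : ℕ) : X.b a = s ^ a * X'.b a := by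
  unfold LS.b
  rw [Finset.mul_sum]
  refine Finset.sum_congr rfl fun j _ => ?_
  rw [h.hl, h.hp, mul_pow]; ring

private theorem Scal.db (h : Scal X X' s) (a : ℕ) (k : Fin m) :
    X.db a k = s ^ (a + 1) * X'.db a k := by
  unfold LS.db
  rw [mul_add, Finset.mul_sum]
  congr 1
  · refine Finset.sum_congr rfl fun i _ => ?_
    rw [Finset.mul_sum]
    refine Finset.sum_congr rfl fun j _ => ?_
    rw [h.hl, h.hl, h.hT, h.hp, h.hp]
    linear_combination (X'.T k i j * X'.p i * X'.p j) * hh_sc a s (X'.l i) (X'.l j)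
  · rw [h.hl, h.he, h.hu, h.hp, mul_pow]; ring

private theorem Scal.flv (h : Scal X X' s) (f : Fac) : f.lv X = s ^ f.wt * f.lv X' := by
  cases f <;> simp only [Fac.lv, Fac.wt]
  · rw [Finset.mul_sum]; exact Finset.sum_congr rfl fun i _ => by rw [h.hl]; ring
  · rw [Finset.mul_sum]; exact Finset.sum_congr rfl fun i _ => by rw [h.hl]; ring
  · rw [h.hu]; simp only [h.hp]; ring
  · exact h.b 1
  · exact h.b 2
  · exact h.b 3
  · rw [h.hu]; ring
  · rw [h.hu]; ring

private theorem Scal.fld (h : Scal X X' s) (k : Fin m) (f : Fac) :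
    f.ld X k = s ^ (f.wt + 1) * f.ld X' k := by
  cases f <;> simp only [Fac.ld, Fac.wt]
  · have e1 : ∑ i, X.l i ^ 2 * X.T k i i = s ^ 4 * ∑ i, X'.l i ^ 2 * X'.T k i i := by
      rw [Finset.mul_sum]
      exact Finset.sum_congr rfl fun i _ => by rw [h.hl, h.hT]; ring
    rw [e1]; ring
  · have e1 : ∑ i, X.l i ^ 3 * X.T k i i = s ^ 5 * ∑ i, X'.l i ^ 3 * X'.T k i i := by
      rw [Finset.mul_sum]
      exact Finset.sum_congr rfl fun i _ => by rw [h.hl, h.hT]; ring
    rw [e1]; ring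
  · rw [h.hl, h.hp]; ring
  · exact h.db 1 k
  · exact h.db 2 k
  · exact h.db 3 k
  · rw [h.hu, h.he, h.hp]; ring
  · rw [h.he, h.hp]; ring

private theorem Scal.facsLv (h : Scal X X' s) (L : List Fac) :
    facsLv X L = s ^ (L.map Fac.wt).sum * facsLv X' L := by
  induction L with
  | nil => simp [OPC.facsLv]
  | cons f L ih =>
    simp only [OPC.facsLv, List.map_cons, List.sum_cons]
    rw [ih, h.flv, pow_add]; ring

private theorem Scal.facsLd (h : Scal X X' s) (k : Fin m) (L : List Fac) :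
    facsLd X k L = s ^ ((L.map Fac.wt).sum + 1) * facsLd X' k L := by
  induction L with
  | nil => simp [OPC.facsLd]
  | cons f L ih =>
    simp only [OPC.facsLd, List.map_cons, List.sum_cons]
    rw [ih, h.flv, h.fld, h.facsLv, pow_add, pow_add, pow_add, pow_add]; ring

private theorem Scal.mlv (h : Scal X X' s) (i j : Fin m) (A : Mt) :
    A.lv X i j = s ^ A.wt * A.lv X' i j := by
  cases A with
  | pow a =>
    simp only [Mt.lv, Mt.wt]
    split_ifs
    · rw [h.hl, mul_pow]
    · simp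
  | sym a b =>
    simp only [Mt.lv, Mt.wt]
    rw [h.v, h.v, h.v, h.v, pow_add]; ring

private theorem Scal.mld (h : Scal X X' s) (k i j : Fin m) (A : Mt) :
    A.ld X k i j = s ^ (A.wt + 1) * A.ld X' k i j := by
  cases A with
  | pow a =>
    simp only [Mt.ld, Mt.wt]
    rw [h.hl, h.hl, h.hT]
    linear_combination (X'.T k i j) * hh_sc a s (X'.l i) (X'.l j)
  | sym a b =>
    simp only [Mt.ld, Mt.wt]
    rw [h.v, h.v, h.v, h.v, h.dv, h.dv, h.dv, h.dv]
    simp only [pow_add]; ring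

private theorem Scal.wl (h : Scal X X' s) (a b : ℕ) (i j : Fin m) :
    X.wl a b i j = s ^ (a + b) * X'.wl a b i j := by
  unfold LS.wl
  rw [h.v, h.v, h.v, h.v, pow_add]; ring

private theorem Scal.wd (h : Scal X X' s) (a b : ℕ) (k i j : Fin m) :
    X.wd a b k i j = s ^ (a + b + 1) * X'.wd a b k i j := by
  unfold LS.wd
  rw [h.v, h.v, h.v, h.v, h.dv, h.dv, h.dv, h.dv]
  simp only [pow_add]; ring

private theorem Scal.TA (h : Scal X X' s) (A : Mt) (l : Fin m) :
    A.TA X l = s ^ (A.wt + 2) * A.TA X' l := by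
  unfold Mt.TA
  rw [Finset.mul_sum]
  refine Finset.sum_congr rfl fun i _ => ?_
  rw [Finset.mul_sum]
  refine Finset.sum_congr rfl fun j _ => ?_
  rw [h.hT, h.mlv, pow_add]; ring

private theorem Scal.TdA (h : Scal X X' s) (A : Mt) (l k : Fin m) :
    A.TdA X l k = s ^ (A.wt + 3) * A.TdA X' l k := by
  unfold Mt.TdA
  rw [Finset.mul_sum]
  refine Finset.sum_congr rfl fun i _ => ?_
  rw [Finset.mul_sum]
  refine Finset.sum_congr rfl fun j _ => ?_
  rw [h.hT, h.mld]
  simp only [pow_add]; ring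

private theorem Scal.SA (h : Scal X X' s) (A : Mt) :
    A.SA X = s ^ (A.wt + 1) * A.SA X' := by
  unfold Mt.SA
  rw [Finset.mul_sum]
  refine Finset.sum_congr rfl fun i _ => ?_
  rw [h.hl, h.mlv, pow_add]; ring

private theorem Scal.tr (h : Scal X X' s) (A : Mt) :
    A.tr X = s ^ A.wt * A.tr X' := by
  unfold Mt.tr
  rw [Finset.mul_sum]
  exact Finset.sum_congr rfl fun i _ => h.mlv i i A

private theorem Scal.ldiv (h : Scal X X' s) (sh : Shape) (c f' : ℝ) (fk' : Fin m → ℝ) :
    sh.ldiv X (c * f') (fun k => c * s * fk' k) = c * s * s ^ sh.wt * sh.ldiv X' f' fk' := by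
  cases sh with
  | v0 a =>
    simp only [Shape.ldiv, Shape.wt]
    rw [Finset.mul_sum]
    refine Finset.sum_congr rfl fun k _ => ?_
    rw [h.v, h.dv, pow_add]; ring
  | p1 A =>
    simp only [Shape.ldiv, Shape.wt]
    conv_rhs => rw [mul_add]
    congr 1
    · rw [Finset.mul_sum]
      refine Finset.sum_congr rfl fun k _ => ?_
      rw [h.TA]; ring
    · have e1 : ∑ k, A.TdA X k k = s ^ (A.wt + 3) * ∑ k, A.TdA X' k k := by
        rw [Finset.mul_sum]; exact Finset.sum_congr rfl fun k _ => h.TdA A k k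
      rw [e1, h.SA, h.he]
      simp only [pow_add]; ring
  | h1 A B =>
    simp only [Shape.ldiv, Shape.wt]
    conv_rhs => rw [mul_add]
    congr 1
    · rw [Finset.mul_sum]
      refine Finset.sum_congr rfl fun k _ => ?_
      rw [Finset.mul_sum, Finset.mul_sum, Finset.mul_sum]
      refine Finset.sum_congr rfl fun l _ => ?_
      rw [h.mlv, h.mlv, h.TA, h.TA]
      simp only [pow_add]; ring
    · have e1 : ∑ k, ∑ l, (B.ld X k k l * A.TA X l + B.lv X k l * A.TdA X l k
          - A.ld X k k l * B.TA X l - A.lv X k l * B.TdA X l k)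
          = s ^ (A.wt + B.wt + 3) * ∑ k, ∑ l, (B.ld X' k k l * A.TA X' l
            + B.lv X' k l * A.TdA X' l k - A.ld X' k k l * B.TA X' l
            - A.lv X' k l * B.TdA X' l k) := by
        rw [Finset.mul_sum]
        refine Finset.sum_congr rfl fun k _ => ?_
        rw [Finset.mul_sum]
        refine Finset.sum_congr rfl fun l _ => ?_
        rw [h.mlv, h.mlv, h.mld, h.mld, h.TA, h.TA, h.TdA, h.TdA]
        simp only [pow_add]; ring
      rw [e1, h.SA, h.SA, h.tr, h.tr, h.he]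
      simp only [pow_add]; ring
  | h2 a b d =>
    simp only [Shape.ldiv, Shape.wt]
    conv_rhs => rw [mul_add]
    congr 1
    · rw [Finset.mul_sum]
      refine Finset.sum_congr rfl fun k _ => ?_
      rw [Finset.mul_sum, Finset.mul_sum, Finset.mul_sum]
      refine Finset.sum_congr rfl fun l _ => ?_
      rw [h.wl, h.TA]
      simp only [pow_add, Mt.wt]; ring
    · have e1 : ∑ k, ∑ l, (X.wd a b k k l * (Mt.pow d).TA X l
          + X.wl a b k l * (Mt.pow d).TdA X l k)
          = s ^ (a + b + d + 3) * ∑ k, ∑ l, (X'.wd a b k k l * (Mt.pow d).TA X' l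
          + X'.wl a b k l * (Mt.pow d).TdA X' l k) := by
        rw [Finset.mul_sum]
        refine Finset.sum_congr rfl fun k _ => ?_
        rw [Finset.mul_sum]
        refine Finset.sum_congr rfl fun l _ => ?_
        rw [h.wl, h.wd, h.TA, h.TdA]
        simp only [pow_add, Mt.wt]; ring
      rw [e1]
      simp only [pow_add]; ring

end

/-- factors scale with their weight -/
theorem facsLv_scale (X : LS ℝ m) (h1 : X.eps = 1) {s : ℝ} (hs : 0 < s) (L : List Fac) :
    facsLv X L = s ^ (L.map Fac.wt).sum * facsLv (X.scale s) L ∧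
      ∀ k, facsLd X k L = s ^ ((L.map Fac.wt).sum + 1) * facsLd (X.scale s) k L :=
  ⟨(Scal.of X h1 hs).facsLv L, fun k => (Scal.of X h1 hs).facsLd k L⟩

/-- the divergences of the shapes scale: with `f = s^j f'`, `f_k = s^{j+1} f'_k` -/
theorem Shape.ldiv_scale (X : LS ℝ m) (h1 : X.eps = 1) {s : ℝ} (hs : 0 < s) (sh : Shape) (j : ℝ)
    (f' : ℝ) (fk' : Fin m → ℝ) :
    sh.ldiv X (s ^ j * f') (fun k => s ^ (j + 1) * fk' k)
      = s ^ (j + 1 + sh.wt) * sh.ldiv (X.scale s) f' fk' := by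
  have e1 : s ^ (j + 1) = s ^ j * s := by rw [Real.rpow_add hs, Real.rpow_one]
  have e2 : s ^ (j + 1 + (sh.wt : ℝ)) = s ^ j * s * s ^ sh.wt := by
    rw [Real.rpow_add hs, e1, Real.rpow_natCast]
  rw [e1, e2]
  exact (Scal.of X h1 hs).ldiv sh (s ^ j) f' fk'

theorem LS.w_scale (X : LS ℝ m) {s : ℝ} (hs : 0 < s) (k : Fin m) :
    X.w k = s ^ 3 * (X.scale s).w k := by
  unfold LS.w
  rw [Finset.mul_sum]
  refine Finset.sum_congr rfl fun i _ => ?_
  simp only [LS.scale]
  field_simp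

end OPC
end

section

/-! # P07: the adapted frame: values -/

open MeasureTheory Set Filter Topology

namespace OPC

variable {m : ℕ} {E : Set (V (m + 1))} {u : V (m + 1) → ℝ}

/-- the base point of the adapted frame -/
noncomputable def oo (m : ℕ) : V (m + 1) := e (Fin.last m)

/-- adapted solutions: `e_last ∈ E` and `D²u(e_last)` diagonal -/
structure Adp (E : Set (V (m + 1))) (u : V (m + 1) → ℝ) : Prop where
  sol : Sol E u
  mem : oo m ∈ E
  diag : ∀ i j, i ≠ j → S u i j (oo m) = 0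

/-- the link state at the adapted point, unscaled (`eps = 1`) -/
noncomputable def lst (u : V (m + 1) → ℝ) : LS ℝ m where
  l := fun i => S u i.castSucc i.castSucc (oo m)
  p := fun i => q u i.castSucc (oo m)
  u := u (oo m)
  eps := 1
  T := fun k i j => T u k.castSucc i.castSucc j.castSucc (oo m)

theorem norm_oo : ‖oo m‖ = 1 := by
  simp [oo, e]

theorem oo_apply (i : Fin (m + 1)) : (oo m) i = if i = Fin.last m then 1 else 0 := by
  simp [oo, e]

theorem Adp.q_last (h : Adp E u) : q u (Fin.last m) (oo m) = u (oo m) := by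
  have h1 := h.sol.euler_u h.mem
  simpa [oo_apply] using h1

theorem Adp.S_last (h : Adp E u) (i : Fin (m + 1)) :
    S u i (Fin.last m) (oo m) = 0 ∧ S u (Fin.last m) i (oo m) = 0 := by
  have h1 := h.sol.euler_q' i h.mem
  have h2 := h.sol.euler_q i h.mem
  constructor
  · simpa [oo_apply] using h1
  · simpa [oo_apply] using h2

theorem Adp.T_last (h : Adp E u) (i j : Fin (m + 1)) :
    T u (Fin.last m) i j (oo m) = - S u i j (oo m) := by
  have h1 := h.sol.euler_S i j h.mem
  simpa [oo_apply] using h1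

theorem Adp.tr_l (h : Adp E u) : ∑ i, (lst u).l i = 0 := by
  have h1 := h.sol.tr_S h.mem
  rw [Fin.sum_univ_castSucc, (h.S_last (Fin.last m)).1, add_zero] at h1
  exact h1

theorem Adp.T_symm (h : Adp E u) (i j k : Fin m) :
    (lst u).T i j k = (lst u).T j i k ∧ (lst u).T i j k = (lst u).T i k j := by
  exact ⟨h.sol.T_symm12 _ _ _ h.mem, h.sol.T_symm23 _ _ _ h.mem⟩

theorem Adp.T_tr (h : Adp E u) (k : Fin m) : ∑ i, (lst u).T k i i = 0 := by
  have h1 := h.sol.tr_T k.castSucc h.mem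
  have h2 : T u k.castSucc (Fin.last m) (Fin.last m) (oo m) = 0 := by
    rw [h.sol.T_symm12 _ _ _ h.mem, h.T_last, (h.S_last _).1, neg_zero]
  rw [Fin.sum_univ_castSucc, h2, add_zero] at h1
  exact h1

theorem Adp.gg_eq (h : Adp E u) : gg u (oo m) = ∑ i, (lst u).p i ^ 2 + (lst u).u ^ 2 := by
  unfold gg
  rw [Fin.sum_univ_castSucc, h.q_last]
  rfl

theorem Adp.NN_eq (h : Adp E u) : NN u (oo m) = ∑ i, (lst u).l i ^ 2 := by
  unfold NN
  rw [Fin.sum_univ_castSucc]
  have h1 : ∑ j, (S u (Fin.last m) j (oo m)) ^ 2 = 0 :=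
    Finset.sum_eq_zero fun j _ => by rw [(h.S_last j).2]; norm_num
  rw [h1, add_zero]
  refine Finset.sum_congr rfl fun i _ => ?_
  rw [Fin.sum_univ_castSucc, (h.S_last i.castSucc).1]
  rw [Finset.sum_eq_single i]
  · simp [lst]
  · intro j _ hj
    rw [h.diag _ _ (fun hc => hj (Fin.castSucc_injective m hc).symm)]
    norm_num
  · intro hi; exact absurd (Finset.mem_univ i) hi

theorem Adp.Sm_val (h : Adp E u) (i j : Fin m) :
    Sm u (oo m) i.castSucc j.castSucc = if i = j then (lst u).l i else 0 := by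
  unfold Sm
  rw [Matrix.of_apply, norm_oo, one_mul]
  split_ifs with hij
  · subst hij; rfl
  · exact h.diag _ _ (fun hc => hij (Fin.castSucc_injective m hc))

theorem Adp.Sm_last (h : Adp E u) (i : Fin (m + 1)) :
    Sm u (oo m) i (Fin.last m) = 0 ∧ Sm u (oo m) (Fin.last m) i = 0 := by
  unfold Sm
  rw [Matrix.of_apply, Matrix.of_apply, (h.S_last i).1, (h.S_last i).2]
  simp

theorem Adp.pv_val (h : Adp E u) (i : Fin m) : pv u (oo m) i.castSucc = (lst u).p i := by
  unfold pv
  rw [oo_apply, if_neg (Fin.castSucc_lt_last i).ne]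
  simp [lst]

theorem Adp.pv_last (h : Adp E u) : pv u (oo m) (Fin.last m) = 0 := by
  unfold pv
  rw [oo_apply, if_pos rfl, norm_oo, h.q_last]
  simp

/-- powers of `Sm` at the adapted point (`a ≥ 1` for the last row) -/
theorem Adp.pow_val (h : Adp E u) (a : ℕ) (i j : Fin m) :
    (Sm u (oo m) ^ a) i.castSucc j.castSucc = if i = j then (lst u).l i ^ a else 0 := by
  induction a generalizing i j with
  | zero =>
    rw [pow_zero, Matrix.one_apply]
    by_cases hij : i = j
    · subst hij; simp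
    · rw [if_neg hij, if_neg (fun hc => hij (Fin.castSucc_injective m hc))]
  | succ a ih =>
    rw [pow_succ, Matrix.mul_apply, Fin.sum_univ_castSucc, (h.Sm_last j.castSucc).2, mul_zero,
      add_zero, Finset.sum_eq_single i]
    · rw [ih, if_pos rfl, h.Sm_val]
      split_ifs with hij
      · rw [pow_succ]
      · ring
    · intro k _ hk
      rw [ih, if_neg hk.symm, zero_mul]
    · intro hi; exact absurd (Finset.mem_univ i) hi

theorem Adp.pow_last (h : Adp E u) {a : ℕ} (ha : 1 ≤ a) (i : Fin (m + 1)) :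
    (Sm u (oo m) ^ a) i (Fin.last m) = 0 ∧ (Sm u (oo m) ^ a) (Fin.last m) i = 0 := by
  obtain ⟨b, rfl⟩ : ∃ b, a = b + 1 := ⟨a - 1, by omega⟩
  constructor
  · rw [pow_succ, Matrix.mul_apply]
    exact Finset.sum_eq_zero fun k _ => by rw [(h.Sm_last k).1, mul_zero]
  · rw [pow_succ', Matrix.mul_apply]
    exact Finset.sum_eq_zero fun k _ => by rw [(h.Sm_last k).2, zero_mul]

theorem Adp.Sp_val (h : Adp E u) (a : ℕ) (i : Fin m) :
    Sp u (oo m) a i.castSucc = (lst u).v a i := by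
  unfold Sp
  rw [Matrix.mulVec, dotProduct, Fin.sum_univ_castSucc, h.pv_last, mul_zero, add_zero,
    Finset.sum_eq_single i]
  · rw [h.pow_val, if_pos rfl, h.pv_val]
    rfl
  · intro k _ hk
    rw [h.pow_val, if_neg hk.symm, zero_mul]
  · intro hi; exact absurd (Finset.mem_univ i) hi

theorem Adp.Sp_last (h : Adp E u) (a : ℕ) : Sp u (oo m) a (Fin.last m) = 0 := by
  rcases Nat.eq_zero_or_pos a with rfl | ha
  · unfold Sp
    rw [pow_zero, Matrix.one_mulVec, h.pv_last]
  · unfold Sp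
    rw [Matrix.mulVec, dotProduct]
    exact Finset.sum_eq_zero fun k _ => by rw [(h.pow_last ha k).2, zero_mul]

theorem Adp.Mt_val (h : Adp E u) (A : Mt) (i j : Fin m) :
    A.val u (oo m) i.castSucc j.castSucc = A.lv (lst u) i j := by
  cases A with
  | pow a => exact h.pow_val a i j
  | sym a b =>
    show (Sp u (oo m) a i.castSucc * Sp u (oo m) b j.castSucc +
      Sp u (oo m) b i.castSucc * Sp u (oo m) a j.castSucc) / 2 = _
    rw [h.Sp_val, h.Sp_val, h.Sp_val, h.Sp_val]
    simp only [Mt.lv, half]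
    norm_num
    ring

theorem Adp.Mt_last (h : Adp E u) {A : Mt} (hA : A.ok) (i : Fin (m + 1)) :
    A.val u (oo m) i (Fin.last m) = 0 ∧ A.val u (oo m) (Fin.last m) i = 0 := by
  cases A with
  | pow a => exact h.pow_last hA i
  | sym a b =>
    constructor
    · show (Sp u (oo m) a i * Sp u (oo m) b (Fin.last m) +
        Sp u (oo m) b i * Sp u (oo m) a (Fin.last m)) / 2 = _
      rw [h.Sp_last, h.Sp_last]
      simp
    · show (Sp u (oo m) a (Fin.last m) * Sp u (oo m) b i +
        Sp u (oo m) b (Fin.last m) * Sp u (oo m) a i) / 2 = _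
      rw [h.Sp_last, h.Sp_last]
      simp

theorem Adp.wedge_val (h : Adp E u) (a b : ℕ) (i j : Fin m) :
    wedge u (oo m) a b i.castSucc j.castSucc = (lst u).wl a b i j := by
  show Sp u (oo m) a i.castSucc * Sp u (oo m) b j.castSucc -
    Sp u (oo m) b i.castSucc * Sp u (oo m) a j.castSucc = _
  rw [h.Sp_val, h.Sp_val, h.Sp_val, h.Sp_val]
  rfl

theorem Adp.wedge_last (h : Adp E u) (a b : ℕ) (i : Fin (m + 1)) :
    wedge u (oo m) a b i (Fin.last m) = 0 ∧ wedge u (oo m) a b (Fin.last m) i = 0 := by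
  constructor
  · show Sp u (oo m) a i * Sp u (oo m) b (Fin.last m) -
      Sp u (oo m) b i * Sp u (oo m) a (Fin.last m) = _
    rw [h.Sp_last, h.Sp_last]
    simp
  · show Sp u (oo m) a (Fin.last m) * Sp u (oo m) b i -
      Sp u (oo m) b (Fin.last m) * Sp u (oo m) a i = _
    rw [h.Sp_last, h.Sp_last]
    simp

theorem Adp.TA_val (h : Adp E u) {A : Mt} (hA : A.ok) (k : Fin m) :
    TA u (oo m) (A.val u (oo m)) k.castSucc = A.TA (lst u) k := by
  unfold TA Mt.TA
  rw [Fin.sum_univ_castSucc]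
  have h1 : ∑ j, Tt u (oo m) k.castSucc (Fin.last m) j * A.val u (oo m) (Fin.last m) j = 0 :=
    Finset.sum_eq_zero fun j _ => by rw [(h.Mt_last hA j).2, mul_zero]
  rw [h1, add_zero]
  refine Finset.sum_congr rfl fun i _ => ?_
  rw [Fin.sum_univ_castSucc, (h.Mt_last hA i.castSucc).1, mul_zero, add_zero]
  refine Finset.sum_congr rfl fun j _ => ?_
  rw [h.Mt_val]
  unfold Tt
  rw [norm_oo]
  simp [lst]

theorem Adp.TA_last (h : Adp E u) {A : Mt} (hA : A.ok) :
    TA u (oo m) (A.val u (oo m)) (Fin.last m) = - A.SA (lst u) := by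
  unfold TA Mt.SA
  rw [Fin.sum_univ_castSucc]
  have h1 : ∑ j, Tt u (oo m) (Fin.last m) (Fin.last m) j * A.val u (oo m) (Fin.last m) j = 0 :=
    Finset.sum_eq_zero fun j _ => by rw [(h.Mt_last hA j).2, mul_zero]
  rw [h1, add_zero, ← Finset.sum_neg_distrib]
  refine Finset.sum_congr rfl fun i _ => ?_
  rw [Fin.sum_univ_castSucc, (h.Mt_last hA i.castSucc).1, mul_zero, add_zero,
    Finset.sum_eq_single i]
  · rw [h.Mt_val]
    unfold Tt
    rw [norm_oo, h.T_last]
    simp [lst]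
  · intro j _ hj
    unfold Tt
    rw [h.T_last, h.diag _ _ (fun hc => hj (Fin.castSucc_injective m hc).symm)]
    simp
  · intro hi; exact absurd (Finset.mem_univ i) hi

theorem Adp.facs_val (h : Adp E u) (L : List Fac) :
    facsVal u (oo m) L = facsLv (lst u) L := by
  have hb : ∀ a : ℕ, pv u (oo m) ⬝ᵥ (Sm u (oo m) ^ a).mulVec (pv u (oo m)) = (lst u).b a := by
    intro a
    show ∑ i, pv u (oo m) i * Sp u (oo m) a i = _
    rw [Fin.sum_univ_castSucc, h.Sp_last, mul_zero, add_zero]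
    unfold LS.b
    refine Finset.sum_congr rfl fun i _ => ?_
    rw [h.pv_val, h.Sp_val, LS.v]
    ring
  have hc : ∀ a : ℕ, 1 ≤ a → Matrix.trace (Sm u (oo m) ^ a) = ∑ i, (lst u).l i ^ a := by
    intro a ha
    rw [Matrix.trace, Fin.sum_univ_castSucc]
    simp only [Matrix.diag_apply]
    rw [(h.pow_last ha _).1, add_zero]
    exact Finset.sum_congr rfl fun i _ => by rw [h.pow_val, if_pos rfl]
  have hu : (lst u).u = u (oo m) := rfl
  have hf : ∀ f : Fac, f.val u (oo m) = f.lv (lst u) := by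
    intro f
    cases f with
    | c3 => exact hc 3 (by norm_num)
    | c4 => exact hc 4 (by norm_num)
    | b0 => exact h.gg_eq
    | b1 =>
      have := hb 1
      rw [pow_one] at this
      exact this
    | b2 => exact hb 2
    | b3 => exact hb 3
    | u2 => simp only [Fac.val, Fac.lv, norm_oo, div_one, hu]
    | u1 => simp only [Fac.val, Fac.lv, norm_oo, div_one, hu]
  unfold facsVal
  induction L with
  | nil => rfl
  | cons f L ih =>
    rw [List.map_cons, List.prod_cons, ih, hf]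
    rfl

end OPC
end
end

section

section

/-! # P08: the adapted frame: first derivatives of the building blocks -/

open MeasureTheory Set Filter Topology

namespace OPC

variable {m : ℕ} {E : Set (V (m + 1))} {u : V (m + 1) → ℝ}

/-! ### auxiliary facts -/

private theorem Adp.sd (h : Adp E u) {f : V (m + 1) → ℝ} (hf : ContDiffOn ℝ (⊤ : ℕ∞) f E) :
    DifferentiableAt ℝ f (oo m) := diffAt h.sol.isOpen hf h.mem

private theorem Adp.pd_norm (h : Adp E u) (k : Fin m) :
    pd k.castSucc (fun x : V (m + 1) => ‖x‖) (oo m) = 0 := by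
  have hd : DifferentiableAt ℝ (fun x : V (m + 1) => ‖x‖) (oo m) := h.sd h.sol.smooth_norm
  have h1 : pd k.castSucc (fun x : V (m + 1) => ‖x‖ ^ 2) (oo m)
      = 2 * pd k.castSucc (fun x : V (m + 1) => ‖x‖) (oo m) := by
    rw [pd_pow hd, norm_oo]; simp
  have h2 : pd k.castSucc (fun x : V (m + 1) => ‖x‖ ^ 2) (oo m) = 0 := by
    have e1 : (fun x : V (m + 1) => ‖x‖ ^ 2) = fun x => ∑ i, (x i) ^ 2 := by
      funext x; exact norm_sq_eq_sum x
    have hc : ∀ i : Fin (m + 1), DifferentiableAt ℝ (fun x : V (m + 1) => x i) (oo m) := by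
      intro i
      exact (EuclideanSpace.proj i : V (m + 1) →L[ℝ] ℝ).differentiableAt
    rw [e1, pd_sum _ (f := fun i (x : V (m + 1)) => (x i) ^ 2) (fun i _ => (hc i).pow 2)]
    apply Finset.sum_eq_zero
    intro i _
    rw [pd_pow (hc i), pd_coord, oo_apply]
    by_cases hi : k.castSucc = i
    · rw [← hi, if_neg (Fin.castSucc_ne_last k)]; simp
    · rw [if_neg hi]; simp
  rw [h2] at h1
  linarith

private theorem coord_diff (i : Fin (m + 1)) :
    DifferentiableAt ℝ (fun x : V (m + 1) => x i) (oo m) :=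
  (EuclideanSpace.proj i : V (m + 1) →L[ℝ] ℝ).differentiableAt

private theorem Adp.pow_last' (h : Adp E u) (a : ℕ) (i : Fin m) :
    (Sm u (oo m) ^ a) i.castSucc (Fin.last m) = 0 := by
  rcases Nat.eq_zero_or_pos a with rfl | ha
  · rw [pow_zero, Matrix.one_apply_ne (Fin.castSucc_ne_last i)]
  · exact (h.pow_last ha i.castSucc).1

private theorem hh_succ {R : Type*} [CommRing R] (a : ℕ) (x y : R) :
    hh (a + 1) x y = hh a x y * y + x ^ a := by
  unfold hh
  rw [Finset.sum_range_succ, Finset.sum_mul]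
  congr 1
  · refine Finset.sum_congr rfl fun c hc => ?_
    have hc' := Finset.mem_range.1 hc
    have e1 : a + 1 - 1 - c = (a - 1 - c) + 1 := by omega
    rw [e1, pow_succ]; ring
  · simp

private theorem hh_self (a : ℕ) (x : ℝ) : hh a x x = a * x ^ (a - 1) := by
  unfold hh
  have : ∀ c ∈ Finset.range a, x ^ c * x ^ (a - 1 - c) = x ^ (a - 1) := by
    intro c hc
    have hc' := Finset.mem_range.1 hc
    rw [← pow_add]
    congr 1
    omega
  rw [Finset.sum_congr rfl this, Finset.sum_const, Finset.card_range, nsmul_eq_mul]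

/-- radial derivatives of degree-0 functions vanish -/
theorem Adp.pd_last_zero (h : Adp E u) {f : V (m + 1) → ℝ} (hf : DifferentiableAt ℝ f (oo m))
    (h0 : ∀ s : ℝ, 0 < s → ∀ x ∈ E, f (s • x) = f x) : pd (Fin.last m) f (oo m) = 0 := by
  have h1 : HasDerivAt (fun s : ℝ => s • oo m) (oo m) 1 := by
    have := (hasDerivAt_id (1 : ℝ)).smul_const (oo m)
    simpa using this
  have hf' : HasFDerivAt f (fderiv ℝ f (oo m)) ((fun s : ℝ => s • oo m) 1) := by
    show HasFDerivAt f (fderiv ℝ f (oo m)) ((1 : ℝ) • oo m)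
    rw [one_smul]; exact hf.hasFDerivAt
  have h2 : HasDerivAt (fun s : ℝ => f (s • oo m)) (fderiv ℝ f (oo m) (oo m)) 1 :=
    hf'.comp_hasDerivAt (1 : ℝ) h1
  have h3 : HasDerivAt (fun s : ℝ => f (s • oo m)) 0 1 := by
    refine (hasDerivAt_const (1 : ℝ) (f (oo m))).congr_of_eventuallyEq ?_
    filter_upwards [Ioi_mem_nhds (show (0 : ℝ) < 1 by norm_num)] with s hs
    exact h0 s hs (oo m) h.mem
  exact h2.unique h3

/-- tangential vector fields: derivative of the radial component.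
Sketch: differentiate `∑ x_i Y_i = 0` at `e_last` in the direction `e_k`, `k < m`. -/
theorem Adp.pd_tan (h : Adp E u) {Y : Fin (m + 1) → V (m + 1) → ℝ}
    (hY : ∀ i, DifferentiableAt ℝ (Y i) (oo m)) (h0 : ∀ x ∈ E, ∑ i, x i * Y i x = 0) (k : Fin m) :
    pd k.castSucc (Y (Fin.last m)) (oo m) = - Y k.castSucc (oo m) := by
  have h1 : pd k.castSucc (fun x => ∑ i, x i * Y i x) (oo m) = 0 := by
    rw [pd_congr h.sol.isOpen (g := fun _ => 0) h0 k.castSucc (oo m) h.mem, pd_const]
  rw [pd_sum _ (f := fun i (x : V (m + 1)) => x i * Y i x)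
    (fun i _ => (coord_diff i).mul (hY i))] at h1
  have h2 : ∀ i, pd k.castSucc (fun x : V (m + 1) => x i * Y i x) (oo m)
      = (if k.castSucc = i then Y i (oo m) else 0)
        + (if i = Fin.last m then pd k.castSucc (Y i) (oo m) else 0) := by
    intro i
    rw [pd_mul (f := fun x : V (m + 1) => x i) (coord_diff i) (hY i), pd_coord, oo_apply]
    split_ifs <;> simp
  simp only [h2, Finset.sum_add_distrib, Finset.sum_ite_eq, Finset.sum_ite_eq', Finset.mem_univ,
    if_true] at h1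
  linarith

theorem Adp.pd_Sm (h : Adp E u) (k i j : Fin m) :
    pd k.castSucc (fun x => Sm u x i.castSucc j.castSucc) (oo m) = (lst u).T k i j := by
  have e1 : (fun x => Sm u x i.castSucc j.castSucc)
      = fun x => ‖x‖ * S u i.castSucc j.castSucc x := rfl
  rw [e1, pd_mul (f := fun x : V (m + 1) => ‖x‖) (h.sd h.sol.smooth_norm)
    (h.sd (h.sol.smooth_S _ _)), h.pd_norm, norm_oo, pd_S]
  simp [lst]

theorem Adp.pd_pv (h : Adp E u) (k i : Fin m) :
    pd k.castSucc (fun x => pv u x i.castSucc) (oo m)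
      = if i = k then (lst u).l i - (lst u).u else 0 := by
  have hdu : DifferentiableAt ℝ u (oo m) := h.sd h.sol.smooth
  have hdn : DifferentiableAt ℝ (fun x : V (m + 1) => ‖x‖ ^ 2) (oo m) :=
    (h.sd h.sol.smooth_norm).pow 2
  have hn0 : ‖oo m‖ ^ 2 ≠ 0 := by rw [norm_oo]; norm_num
  have hdux : DifferentiableAt ℝ (fun x : V (m + 1) => u x * x i.castSucc) (oo m) :=
    hdu.mul (coord_diff _)
  have hdd : DifferentiableAt ℝ (fun x : V (m + 1) => u x * x i.castSucc / ‖x‖ ^ 2) (oo m) := by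
    have e2 : (fun x : V (m + 1) => u x * x i.castSucc / ‖x‖ ^ 2)
        = fun x => u x * x i.castSucc * (‖x‖ ^ 2)⁻¹ := by
      funext y; rw [div_eq_mul_inv]
    rw [e2]
    exact hdux.mul (hdn.inv hn0)
  have e1 : (fun x => pv u x i.castSucc)
      = fun x => q u i.castSucc x - u x * x i.castSucc / ‖x‖ ^ 2 := rfl
  rw [e1, pd_sub (f := q u i.castSucc) (h.sd (h.sol.smooth_q _)) hdd,
    pd_div (f := fun x : V (m + 1) => u x * x i.castSucc) (g := fun x => ‖x‖ ^ 2) hdux hdn hn0,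
    pd_mul (g := fun x : V (m + 1) => x i.castSucc) hdu (coord_diff _), pd_coord,
    pd_pow (h.sd h.sol.smooth_norm), h.pd_norm, oo_apply, norm_oo,
    if_neg (Fin.castSucc_ne_last i), pd_q]
  by_cases hik : i = k
  · subst hik
    simp [lst]
  · have h1 : ¬ k.castSucc = i.castSucc := fun hc => hik (Fin.castSucc_injective _ hc).symm
    rw [if_neg hik, if_neg h1, h.diag _ _ h1]
    simp

/-- Sketch: induction on `a`, product rule, `hh (a+1) x y = hh a x y * y + x ^ a`; in the products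
`∑_l (Sm^a)_{il} Sm_{lj}` the index `l = last` contributes `0` (both the values `Sm_{l j}` and
`(Sm^a)_{il}` vanish for `a ≥ 1`; for `a = 0` use `Sm^1 = Sm`). -/
theorem Adp.pd_pow (h : Adp E u) (a : ℕ) (k i j : Fin m) :
    pd k.castSucc (fun x => (Sm u x ^ a) i.castSucc j.castSucc) (oo m)
      = hh a ((lst u).l i) ((lst u).l j) * (lst u).T k i j := by
  induction a generalizing i j with
  | zero =>
    have e1 : (fun x : V (m + 1) => (Sm u x ^ 0) i.castSucc j.castSucc)
        = fun _ => (1 : Matrix (Fin (m + 1)) (Fin (m + 1)) ℝ) i.castSucc j.castSucc := by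
      funext x; rw [pow_zero]
    rw [e1, pd_const]
    simp [hh]
  | succ a ih =>
    have e1 : (fun x : V (m + 1) => (Sm u x ^ (a + 1)) i.castSucc j.castSucc)
        = fun x => ∑ l, (Sm u x ^ a) i.castSucc l * Sm u x l j.castSucc := by
      funext x; rw [pow_succ, Matrix.mul_apply]
    have d1 : ∀ l, DifferentiableAt ℝ (fun x => (Sm u x ^ a) i.castSucc l) (oo m) :=
      fun l => h.sd (h.sol.smooth_Sm_pow a _ _)
    have d2 : ∀ l, DifferentiableAt ℝ (fun x => Sm u x l j.castSucc) (oo m) :=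
      fun l => h.sd (h.sol.smooth_Sm _ _)
    rw [e1, pd_sum _ (f := fun l x => (Sm u x ^ a) i.castSucc l * Sm u x l j.castSucc)
      (fun l _ => (d1 l).mul (d2 l))]
    have e2 : ∀ l, pd k.castSucc (fun x => (Sm u x ^ a) i.castSucc l * Sm u x l j.castSucc) (oo m)
        = pd k.castSucc (fun x => (Sm u x ^ a) i.castSucc l) (oo m) * Sm u (oo m) l j.castSucc
          + (Sm u (oo m) ^ a) i.castSucc l * pd k.castSucc (fun x => Sm u x l j.castSucc) (oo m) :=
      fun l => pd_mul (f := fun x => (Sm u x ^ a) i.castSucc l)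
        (g := fun x => Sm u x l j.castSucc) (d1 l) (d2 l) _
    rw [Finset.sum_congr rfl fun l _ => e2 l, Fin.sum_univ_castSucc, (h.Sm_last _).2,
      h.pow_last', hh_succ]
    simp only [ih, h.pow_val, h.Sm_val, h.pd_Sm, mul_ite, ite_mul, mul_zero, zero_mul, add_zero,
      Finset.sum_add_distrib, Finset.sum_ite_eq, Finset.sum_ite_eq', Finset.mem_univ, if_true]
    ring

theorem Adp.pd_Sp (h : Adp E u) (a : ℕ) (k i : Fin m) :
    pd k.castSucc (fun x => Sp u x a i.castSucc) (oo m) = (lst u).dv a k i := by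
  have e1 : (fun x : V (m + 1) => Sp u x a i.castSucc)
      = fun x => ∑ l, (Sm u x ^ a) i.castSucc l * pv u x l := by
    funext x; rfl
  have d1 : ∀ l, DifferentiableAt ℝ (fun x => (Sm u x ^ a) i.castSucc l) (oo m) :=
    fun l => h.sd (h.sol.smooth_Sm_pow a _ _)
  have d2 : ∀ l, DifferentiableAt ℝ (fun x => pv u x l) (oo m) :=
    fun l => h.sd (h.sol.smooth_pv _)
  rw [e1, pd_sum _ (f := fun l x => (Sm u x ^ a) i.castSucc l * pv u x l)
    (fun l _ => (d1 l).mul (d2 l))]
  have e2 : ∀ l, pd k.castSucc (fun x => (Sm u x ^ a) i.castSucc l * pv u x l) (oo m)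
      = pd k.castSucc (fun x => (Sm u x ^ a) i.castSucc l) (oo m) * pv u (oo m) l
        + (Sm u (oo m) ^ a) i.castSucc l * pd k.castSucc (fun x => pv u x l) (oo m) :=
    fun l => pd_mul (f := fun x => (Sm u x ^ a) i.castSucc l)
      (g := fun x => pv u x l) (d1 l) (d2 l) _
  rw [Finset.sum_congr rfl fun l _ => e2 l, Fin.sum_univ_castSucc, h.pv_last, h.pow_last']
  unfold LS.dv
  simp only [h.pd_pow, h.pow_val, h.pv_val, h.pd_pv, mul_zero, zero_mul, add_zero,
    Finset.sum_add_distrib]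
  congr 1
  rw [Finset.sum_eq_single i]
  · rw [if_pos rfl]
    have he : (lst u).eps = 1 := rfl
    by_cases hik : i = k
    · rw [if_pos hik, if_pos hik, he]; ring
    · rw [if_neg hik, if_neg hik]; ring
  · intro b _ hb
    rw [if_neg (fun hc => hb hc.symm), zero_mul]
  · intro hc
    exact absurd (Finset.mem_univ i) hc

theorem Adp.pd_Mt (h : Adp E u) (A : Mt) (k i j : Fin m) :
    pd k.castSucc (fun x => A.val u x i.castSucc j.castSucc) (oo m) = A.ld (lst u) k i j := by
  cases A with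
  | pow a => exact h.pd_pow a k i j
  | sym a b =>
    have ds : ∀ c (l : Fin (m + 1)), DifferentiableAt ℝ (fun x => Sp u x c l) (oo m) :=
      fun c l => h.sd (h.sol.smooth_Sp _ _)
    have e1 : (fun x : V (m + 1) => (Mt.sym a b).val u x i.castSucc j.castSucc)
        = fun x => (1 / 2) * (Sp u x a i.castSucc * Sp u x b j.castSucc
            + Sp u x b i.castSucc * Sp u x a j.castSucc) := by
      funext x
      show (Sp u x a i.castSucc * Sp u x b j.castSucc
            + Sp u x b i.castSucc * Sp u x a j.castSucc) / 2 = _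
      ring
    rw [e1, pd_const_mul (f := fun x => Sp u x a i.castSucc * Sp u x b j.castSucc
            + Sp u x b i.castSucc * Sp u x a j.castSucc),
      pd_add (f := fun x => Sp u x a i.castSucc * Sp u x b j.castSucc)
        (g := fun x => Sp u x b i.castSucc * Sp u x a j.castSucc)
        ((ds _ _).mul (ds _ _)) ((ds _ _).mul (ds _ _)),
      pd_mul (f := fun x => Sp u x a i.castSucc) (g := fun x => Sp u x b j.castSucc)
        (ds _ _) (ds _ _),
      pd_mul (f := fun x => Sp u x b i.castSucc) (g := fun x => Sp u x a j.castSucc)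
        (ds _ _) (ds _ _),
      h.pd_Sp, h.pd_Sp, h.pd_Sp, h.pd_Sp, h.Sp_val, h.Sp_val, h.Sp_val, h.Sp_val]
    have hh2 : (half : ℝ) = 1 / 2 := by
      unfold half
      rw [eq_ratCast]
      norm_num
    simp only [Mt.ld, hh2]
    ring

/-- last column (from `A x = 0`, `Adp.pd_tan`) -/
theorem Adp.pd_Mt_last (h : Adp E u) {A : Mt} (hA : A.ok) (k i : Fin m) :
    pd k.castSucc (fun x => A.val u x i.castSucc (Fin.last m)) (oo m) = - A.lv (lst u) i k ∧
    pd k.castSucc (fun x => A.val u x (Fin.last m) i.castSucc) (oo m) = - A.lv (lst u) i k ∧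
    pd k.castSucc (fun x => A.val u x (Fin.last m) (Fin.last m)) (oo m) = 0 := by
  have dA : ∀ i j, DifferentiableAt ℝ (fun x => A.val u x i j) (oo m) :=
    fun i j => h.sd (h.sol.smooth_Mt A i j)
  have h0 : ∀ i : Fin (m + 1), ∀ x ∈ E, ∑ j, x j * A.val u x i j = 0 := by
    intro i x hx
    rw [← h.sol.Mt_x hA hx i]
    exact Finset.sum_congr rfl fun j _ => mul_comm _ _
  have h1 : pd k.castSucc (fun x => A.val u x i.castSucc (Fin.last m)) (oo m)
      = - A.lv (lst u) i k := by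
    have := h.pd_tan (Y := fun j x => A.val u x i.castSucc j) (fun j => dA _ j)
      (h0 i.castSucc) k
    rw [this, h.Mt_val]
  refine ⟨h1, ?_, ?_⟩
  · rw [← h1]
    exact pd_congr h.sol.isOpen (f := fun x => A.val u x (Fin.last m) i.castSucc)
      (g := fun x => A.val u x i.castSucc (Fin.last m))
      (fun x hx => h.sol.Mt_symm A hx _ _) _ _ h.mem
  · have := h.pd_tan (Y := fun j x => A.val u x (Fin.last m) j) (fun j => dA _ j)
      (h0 (Fin.last m)) k
    rw [this, (h.Mt_last hA _).2, neg_zero]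

theorem Adp.pd_wedge (h : Adp E u) (a b : ℕ) (k i j : Fin m) :
    pd k.castSucc (fun x => wedge u x a b i.castSucc j.castSucc) (oo m)
      = (lst u).wd a b k i j := by
  have ds : ∀ c (l : Fin (m + 1)), DifferentiableAt ℝ (fun x => Sp u x c l) (oo m) :=
    fun c l => h.sd (h.sol.smooth_Sp _ _)
  have e1 : (fun x : V (m + 1) => wedge u x a b i.castSucc j.castSucc)
      = fun x => Sp u x a i.castSucc * Sp u x b j.castSucc
          - Sp u x b i.castSucc * Sp u x a j.castSucc := rfl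
  rw [e1, pd_sub (f := fun x => Sp u x a i.castSucc * Sp u x b j.castSucc)
      (g := fun x => Sp u x b i.castSucc * Sp u x a j.castSucc)
      ((ds _ _).mul (ds _ _)) ((ds _ _).mul (ds _ _)),
    pd_mul (f := fun x => Sp u x a i.castSucc) (g := fun x => Sp u x b j.castSucc)
      (ds _ _) (ds _ _),
    pd_mul (f := fun x => Sp u x b i.castSucc) (g := fun x => Sp u x a j.castSucc)
      (ds _ _) (ds _ _),
    h.pd_Sp, h.pd_Sp, h.pd_Sp, h.pd_Sp, h.Sp_val, h.Sp_val, h.Sp_val, h.Sp_val]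
  unfold LS.wd
  ring

theorem Adp.pd_wedge_last (h : Adp E u) (a b : ℕ) (k i : Fin m) :
    pd k.castSucc (fun x => wedge u x a b i.castSucc (Fin.last m)) (oo m)
        = - (lst u).wl a b i k ∧
    pd k.castSucc (fun x => wedge u x a b (Fin.last m) i.castSucc) (oo m)
        = (lst u).wl a b i k := by
  have dA : ∀ i j, DifferentiableAt ℝ (fun x => wedge u x a b i j) (oo m) :=
    fun i j => h.sd (h.sol.smooth_wedge a b i j)
  have h0 : ∀ i : Fin (m + 1), ∀ x ∈ E, ∑ j, x j * wedge u x a b i j = 0 := by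
    intro i x hx
    rw [← h.sol.wedge_x a b hx i]
    exact Finset.sum_congr rfl fun j _ => mul_comm _ _
  have h1 : pd k.castSucc (fun x => wedge u x a b i.castSucc (Fin.last m)) (oo m)
      = - (lst u).wl a b i k := by
    have := h.pd_tan (Y := fun j x => wedge u x a b i.castSucc j) (fun j => dA _ j)
      (h0 i.castSucc) k
    rw [this, h.wedge_val]
  refine ⟨h1, ?_⟩
  have e1 : (fun x : V (m + 1) => wedge u x a b (Fin.last m) i.castSucc)
      = fun x => - wedge u x a b i.castSucc (Fin.last m) := by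
    funext x; exact wedge_antisymm a b x _ _
  rw [e1, pd_neg (f := fun x => wedge u x a b i.castSucc (Fin.last m)), h1, neg_neg]

private theorem Adp.pd_trace (h : Adp E u) {a : ℕ} (ha : 1 ≤ a) (k : Fin m) :
    pd k.castSucc (fun x => Matrix.trace (Sm u x ^ a)) (oo m)
      = a * ∑ i, (lst u).l i ^ (a - 1) * (lst u).T k i i := by
  have e1 : (fun x : V (m + 1) => Matrix.trace (Sm u x ^ a))
      = fun x => ∑ l, (Sm u x ^ a) l l := rfl
  have d1 : ∀ l, DifferentiableAt ℝ (fun x => (Sm u x ^ a) l l) (oo m) :=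
    fun l => h.sd (h.sol.smooth_Sm_pow a _ _)
  have hl : pd k.castSucc (fun x => (Sm u x ^ a) (Fin.last m) (Fin.last m)) (oo m) = 0 :=
    (h.pd_Mt_last (A := Mt.pow a) ha k k).2.2
  rw [e1, pd_sum _ (fun l _ => d1 l), Fin.sum_univ_castSucc, hl, add_zero, Finset.mul_sum]
  refine Finset.sum_congr rfl fun i _ => ?_
  rw [h.pd_pow, hh_self]
  ring

private theorem Adp.pd_b (h : Adp E u) (a : ℕ) (k : Fin m) :
    pd k.castSucc (fun x => pv u x ⬝ᵥ (Sm u x ^ a).mulVec (pv u x)) (oo m)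
      = (lst u).db a k := by
  have e1 : (fun x : V (m + 1) => pv u x ⬝ᵥ (Sm u x ^ a).mulVec (pv u x))
      = fun x => ∑ l, pv u x l * Sp u x a l := rfl
  have d1 : ∀ l, DifferentiableAt ℝ (fun x => pv u x l) (oo m) :=
    fun l => h.sd (h.sol.smooth_pv _)
  have d2 : ∀ l, DifferentiableAt ℝ (fun x => Sp u x a l) (oo m) :=
    fun l => h.sd (h.sol.smooth_Sp _ _)
  have e2 : ∀ l, pd k.castSucc (fun x => pv u x l * Sp u x a l) (oo m)
      = pd k.castSucc (fun x => pv u x l) (oo m) * Sp u (oo m) a l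
        + pv u (oo m) l * pd k.castSucc (fun x => Sp u x a l) (oo m) :=
    fun l => pd_mul (f := fun x => pv u x l) (g := fun x => Sp u x a l) (d1 l) (d2 l) _
  rw [e1, pd_sum _ (f := fun l x => pv u x l * Sp u x a l) (fun l _ => (d1 l).mul (d2 l)),
    Finset.sum_congr rfl fun l _ => e2 l,
    Fin.sum_univ_castSucc, h.pv_last, h.Sp_last]
  have he : (lst u).eps = 1 := rfl
  have e3 : ∀ i : Fin m, pd k.castSucc (fun x => pv u x i.castSucc) (oo m)
        * Sp u (oo m) a i.castSucc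
        + pv u (oo m) i.castSucc * pd k.castSucc (fun x => Sp u x a i.castSucc) (oo m)
      = (∑ j, hh a ((lst u).l i) ((lst u).l j) * (lst u).T k i j * (lst u).p i * (lst u).p j)
        + (if i = k then 2 * (lst u).l i ^ a * ((lst u).l i - (lst u).u) * (lst u).p i
          else 0) := by
    intro i
    rw [h.pd_pv, h.Sp_val, h.pv_val, h.pd_Sp]
    unfold LS.dv LS.v
    rw [mul_add, Finset.mul_sum, he]
    have e4 : ∑ j, (lst u).p i * (hh a ((lst u).l i) ((lst u).l j) * (lst u).T k i j * (lst u).p j)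
        = ∑ j, hh a ((lst u).l i) ((lst u).l j) * (lst u).T k i j * (lst u).p i * (lst u).p j :=
      Finset.sum_congr rfl fun j _ => by ring
    rw [e4]
    by_cases hik : i = k
    · rw [if_pos hik, if_pos hik, if_pos hik]; ring
    · rw [if_neg hik, if_neg hik, if_neg hik]; ring
  rw [Finset.sum_congr rfl fun i _ => e3 i, Finset.sum_add_distrib, Finset.sum_ite_eq' Finset.univ k]
  unfold LS.db
  rw [he]
  simp

private theorem Adp.pd_u1 (h : Adp E u) (k : Fin m) :
    pd k.castSucc (fun x => u x / ‖x‖) (oo m) = (lst u).p k := by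
  have hn0 : ‖oo m‖ ≠ 0 := by rw [norm_oo]; norm_num
  rw [pd_div (f := u) (g := fun x => ‖x‖) (h.sd h.sol.smooth) (h.sd h.sol.smooth_norm) hn0,
    h.pd_norm, norm_oo]
  have : pd k.castSucc u (oo m) = (lst u).p k := rfl
  rw [this]
  simp

private theorem Adp.pd_Fac (h : Adp E u) (f : Fac) (k : Fin m) :
    pd k.castSucc (fun x => f.val u x) (oo m) = f.ld (lst u) k := by
  have hn0 : ‖oo m‖ ≠ 0 := by rw [norm_oo]; norm_num
  have du1 : DifferentiableAt ℝ (fun x : V (m + 1) => u x / ‖x‖) (oo m) :=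
    h.sd (h.sol.smooth_Fac Fac.u1)
  cases f with
  | c3 =>
    have := h.pd_trace (a := 3) (by norm_num) k
    simp only [Fac.val, Fac.ld]
    rw [this]; norm_num
  | c4 =>
    have := h.pd_trace (a := 4) (by norm_num) k
    simp only [Fac.val, Fac.ld]
    rw [this]; norm_num
  | b0 =>
    have e1 : (fun x : V (m + 1) => Fac.b0.val u x) = gg u := rfl
    rw [e1, h.sol.pd_gg _ h.mem]
    simp only [Fac.ld, w]
    rw [Finset.sum_eq_single k.castSucc]
    · show 2 * (S u k.castSucc k.castSucc (oo m) * q u k.castSucc (oo m)) =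
        2 * S u k.castSucc k.castSucc (oo m) * q u k.castSucc (oo m)
      ring
    · intro b _ hb
      rw [h.diag _ _ (fun hc => hb hc.symm), zero_mul]
    · intro hc
      exact absurd (Finset.mem_univ _) hc
  | b1 =>
    have := h.pd_b 1 k
    simp only [Fac.val, Fac.ld]
    rw [← this]
    simp only [pow_one]
  | b2 => exact h.pd_b 2 k
  | b3 => exact h.pd_b 3 k
  | u2 =>
    have e1 : (fun x : V (m + 1) => Fac.u2.val u x) = fun x => (u x / ‖x‖) ^ 2 := rfl
    rw [e1, OPC.pd_pow du1, h.pd_u1, norm_oo]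
    have he : (lst u).eps = 1 := rfl
    have hu : (lst u).u = u (oo m) := rfl
    simp only [Fac.ld, he, hu]
    norm_num
  | u1 =>
    have e1 : (fun x : V (m + 1) => Fac.u1.val u x) = fun x => u x / ‖x‖ := rfl
    rw [e1, h.pd_u1]
    have he : (lst u).eps = 1 := rfl
    simp only [Fac.ld, he, one_mul]

theorem Adp.pd_facs (h : Adp E u) (L : List Fac) (k : Fin m) :
    pd k.castSucc (fun x => facsVal u x L) (oo m) = facsLd (lst u) k L := by
  induction L with
  | nil =>
    have e1 : (fun x : V (m + 1) => facsVal u x []) = fun _ => 1 := by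
      funext x; simp [facsVal]
    rw [e1, pd_const]; rfl
  | cons f L ih =>
    have e1 : (fun x : V (m + 1) => facsVal u x (f :: L))
        = fun x => f.val u x * facsVal u x L := by
      funext x; simp [facsVal]
    have hfv : f.val u (oo m) = f.lv (lst u) := by
      have := h.facs_val [f]
      simpa [facsVal, facsLv] using this
    rw [e1, pd_mul (f := fun x => f.val u x) (g := fun x => facsVal u x L)
      (h.sd (h.sol.smooth_Fac f)) (h.sd (h.sol.smooth_facs L)), h.pd_Fac, ih, h.facs_val, hfv]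
    rfl

/-- derivative of the powers of `ss`, `s = √(∑ l²)` -/
theorem Adp.pd_ss (h : Adp E u) (hN : NN u (oo m) ≠ 0) (ex : ℝ) (k : Fin m) :
    pd k.castSucc (fun x => ss u x ^ ex) (oo m)
      = ex * √(∑ i, (lst u).l i ^ 2) ^ (ex - 2) * (lst u).w k := by
  have hNpos : 0 < NN u (oo m) :=
    lt_of_le_of_ne (Finset.sum_nonneg fun i _ => Finset.sum_nonneg fun j _ => sq_nonneg _)
      (Ne.symm hN)
  have dN : DifferentiableAt ℝ (NN u) (oo m) := h.sd h.sol.smooth_NN
  have dn : DifferentiableAt ℝ (fun x : V (m + 1) => ‖x‖) (oo m) := h.sd h.sol.smooth_norm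
  have dsq : DifferentiableAt ℝ (fun x : V (m + 1) => √(NN u x)) (oo m) := dN.sqrt hN
  have dss : DifferentiableAt ℝ (ss u) (oo m) := dn.mul dsq
  have hss : ss u (oo m) = √(NN u (oo m)) := by
    unfold ss; rw [norm_oo, one_mul]
  have hspos : 0 < √(NN u (oo m)) := Real.sqrt_pos.2 hNpos
  have hpN : pd k.castSucc (NN u) (oo m) = 2 * (lst u).w k := by
    rw [h.sol.pd_NN _ h.mem, Fin.sum_univ_castSucc]
    have z : ∑ j, S u (Fin.last m) j (oo m) * T u k.castSucc (Fin.last m) j (oo m) = 0 :=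
      Finset.sum_eq_zero fun j _ => by rw [(h.S_last j).2, zero_mul]
    rw [z, add_zero]
    congr 1
    unfold LS.w
    refine Finset.sum_congr rfl fun i _ => ?_
    rw [Finset.sum_eq_single i.castSucc]
    · rfl
    · intro b _ hb
      rw [h.diag _ _ (fun hc => hb hc.symm), zero_mul]
    · intro hc
      exact absurd (Finset.mem_univ _) hc
  have hps : pd k.castSucc (fun x => √(NN u x)) (oo m) = (lst u).w k / √(NN u (oo m)) := by
    have h1 : pd k.castSucc (fun x => √(NN u x) ^ 2) (oo m)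
        = 2 * √(NN u (oo m)) * pd k.castSucc (fun x => √(NN u x)) (oo m) := by
      rw [OPC.pd_pow dsq]; simp
    have h2 : (fun x : V (m + 1) => √(NN u x) ^ 2) = NN u := by
      funext x
      exact Real.sq_sqrt (Finset.sum_nonneg fun i _ => Finset.sum_nonneg fun j _ => sq_nonneg _)
    rw [h2, hpN] at h1
    rw [eq_div_iff hspos.ne']
    linarith
  have hpss : pd k.castSucc (ss u) (oo m) = (lst u).w k / √(NN u (oo m)) := by
    have e1 : ss u = fun x => ‖x‖ * √(NN u x) := rfl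
    rw [e1, pd_mul (f := fun x : V (m + 1) => ‖x‖) (g := fun x => √(NN u x)) dn dsq, h.pd_norm,
      norm_oo, hps]
    ring
  have hs0 : ss u (oo m) ≠ 0 := by rw [hss]; exact hspos.ne'
  have hpr : pd k.castSucc (fun x => ss u x ^ ex) (oo m)
      = deriv (fun t : ℝ => t ^ ex) (ss u (oo m)) * pd k.castSucc (ss u) (oo m) :=
    pd_comp (φ := fun t : ℝ => t ^ ex) (Real.differentiableAt_rpow_const_of_ne ex hs0) dss _
  have hder : deriv (fun t : ℝ => t ^ ex) (ss u (oo m)) = ex * ss u (oo m) ^ (ex - 1) :=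
    (Real.hasDerivAt_rpow_const (Or.inl hs0)).deriv
  rw [hpr, hder, hpss, hss, ← h.NN_eq]
  have e5 : √(NN u (oo m)) ^ (ex - 1) = √(NN u (oo m)) ^ (ex - 2) * √(NN u (oo m)) := by
    rw [show ex - 1 = (ex - 2) + 1 by ring, Real.rpow_add hspos, Real.rpow_one]
  rw [e5]
  field_simp

end OPC
end

section

/-! # P09: the adapted frame: divergence of the shapes -/

open MeasureTheory Set Filter Topology

namespace OPC

variable {m : ℕ} {E : Set (V (m + 1))} {u : V (m + 1) → ℝ}

/-! ### derivatives of the norm at the base point -/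

private theorem oo_ne_zero : oo m ≠ 0 := by
  intro h
  have := norm_oo (m := m)
  rw [h, norm_zero] at this
  exact zero_ne_one this

private theorem diff_norm_oo : DifferentiableAt ℝ (fun x : V (m + 1) => ‖x‖) (oo m) :=
  (contDiffAt_norm (n := 1) ℝ oo_ne_zero).differentiableAt (by norm_num)

private theorem pd_norm_oo (k : Fin (m + 1)) :
    pd k (fun x : V (m + 1) => ‖x‖) (oo m) = if k = Fin.last m then 1 else 0 := by
  have h1 : pd k (fun x : V (m + 1) => ‖x‖ ^ 2) (oo m) = 2 * (oo m) k := by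
    have h2 : (fun x : V (m + 1) => ‖x‖ ^ 2) = fun x => ∑ i, (x i) ^ 2 := by
      funext x
      exact norm_sq_eq_sum x
    have hd : ∀ i : Fin (m + 1), DifferentiableAt ℝ (fun x : V (m + 1) => x i) (oo m) := by
      intro i
      exact (EuclideanSpace.proj i : V (m + 1) →L[ℝ] ℝ).differentiableAt
    have hd2 : ∀ i : Fin (m + 1), DifferentiableAt ℝ (fun x : V (m + 1) => (x i) ^ 2) (oo m) :=
      fun i => (hd i).pow 2
    rw [h2, pd_sum _ (fun i _ => hd2 i)]
    have h3 : ∀ i : Fin (m + 1), pd k (fun x : V (m + 1) => (x i) ^ 2) (oo m)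
        = if k = i then 2 * (oo m) k else 0 := by
      intro i
      rw [pd_pow (hd i), pd_coord]
      split_ifs with hki
      · subst hki
        simp
      · simp
    rw [Finset.sum_congr rfl fun i _ => h3 i]
    simp
  rw [pd_pow diff_norm_oo, norm_oo, oo_apply] at h1
  simp only [Nat.cast_ofNat, Nat.add_one_sub_one, one_pow, mul_one] at h1
  linarith

private theorem diff_zpow_oo (z : ℤ) : DifferentiableAt ℝ (fun x : V (m + 1) => ‖x‖ ^ z) (oo m) := by
  have h1 : DifferentiableAt ℝ (fun t : ℝ => t ^ z) ‖oo m‖ :=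
    (hasDerivAt_zpow z _ (Or.inl (norm_ne_zero_iff.2 oo_ne_zero))).differentiableAt
  exact h1.comp (oo m) diff_norm_oo

private theorem pd_zpow_oo (z : ℤ) (k : Fin (m + 1)) :
    pd k (fun x : V (m + 1) => ‖x‖ ^ z) (oo m) = z * if k = Fin.last m then 1 else 0 := by
  have h1 : HasDerivAt (fun t : ℝ => t ^ z) (z * ‖oo m‖ ^ (z - 1)) ‖oo m‖ :=
    hasDerivAt_zpow z _ (Or.inl (norm_ne_zero_iff.2 oo_ne_zero))
  rw [pd_comp (φ := fun t : ℝ => t ^ z) h1.differentiableAt diff_norm_oo, h1.deriv, pd_norm_oo,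
    norm_oo, one_zpow, mul_one]

/-- product rule -/
private theorem pd_prod_oo (z : ℤ) {f Y : V (m + 1) → ℝ} (hf : DifferentiableAt ℝ f (oo m))
    (hY : DifferentiableAt ℝ Y (oo m)) (k : Fin (m + 1)) :
    pd k (fun x => ‖x‖ ^ z * (f x * Y x)) (oo m)
      = (z * if k = Fin.last m then 1 else 0) * (f (oo m) * Y (oo m))
        + (pd k f (oo m) * Y (oo m) + f (oo m) * pd k Y (oo m)) := by
  rw [pd_mul (f := fun x : V (m + 1) => ‖x‖ ^ z) (g := fun x => f x * Y x) (diff_zpow_oo z)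
    (hf.mul hY), pd_mul hf hY, pd_zpow_oo, norm_oo, one_zpow, one_mul]

/-- the divergence of `r^{1-n} f Y` at the base point -/
private theorem Adp.div_gen (h : Adp E u) {f : V (m + 1) → ℝ} (hf : DifferentiableAt ℝ f (oo m))
    (hf0 : ∀ s : ℝ, 0 < s → ∀ x ∈ E, f (s • x) = f x) {Y : V (m + 1) → Fin (m + 1) → ℝ}
    (hY : ∀ k, DifferentiableAt ℝ (fun x => Y x k) (oo m)) :
    ∑ k, pd k (fun x => ‖x‖ ^ (1 - ((m + 1 : ℕ) : ℤ)) * (f x * Y x k)) (oo m)
      = - (m : ℝ) * (f (oo m) * Y (oo m) (Fin.last m))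
        + ∑ k : Fin m, pd k.castSucc f (oo m) * Y (oo m) k.castSucc
        + f (oo m) * ∑ k, pd k (fun x => Y x k) (oo m) := by
  have h0 : pd (Fin.last m) f (oo m) = 0 := h.pd_last_zero hf hf0
  rw [Finset.sum_congr rfl fun k _ => pd_prod_oo _ hf (hY k) k, Finset.sum_add_distrib,
    Finset.sum_add_distrib, ← Finset.mul_sum, Fin.sum_univ_castSucc (n := m)
      (f := fun k => pd k f (oo m) * Y (oo m) k), h0, zero_mul, add_zero]
  have h1 : ∑ k : Fin (m + 1), (((1 - ((m + 1 : ℕ) : ℤ) : ℤ) : ℝ) * if k = Fin.last m then 1 else 0)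
      * (f (oo m) * Y (oo m) k) = - (m : ℝ) * (f (oo m) * Y (oo m) (Fin.last m)) := by
    rw [Finset.sum_eq_single (Fin.last m)]
    · push_cast
      simp
    · intro k _ hk
      simp [hk]
    · intro hc
      exact absurd (Finset.mem_univ _) hc
  rw [h1]
  ring

/-! ### smoothness and homogeneity at the base point -/

private theorem Adp.diff_Mt (h : Adp E u) (A : Mt) (i j : Fin (m + 1)) :
    DifferentiableAt ℝ (fun x => A.val u x i j) (oo m) :=
  diffAt h.sol.isOpen (h.sol.smooth_Mt A i j) h.mem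

private theorem Adp.diff_Tt (h : Adp E u) (k i j : Fin (m + 1)) :
    DifferentiableAt ℝ (fun x => Tt u x k i j) (oo m) :=
  diffAt h.sol.isOpen (h.sol.smooth_Tt k i j) h.mem

private theorem Adp.diff_Shape (h : Adp E u) (sh : Shape) (k : Fin (m + 1)) :
    DifferentiableAt ℝ (fun x => sh.val u x k) (oo m) :=
  diffAt h.sol.isOpen (h.sol.smooth_Shape sh k) h.mem

private theorem Adp.pd_last_Shape (h : Adp E u) (sh : Shape) (k : Fin (m + 1)) :
    pd (Fin.last m) (fun x => sh.val u x k) (oo m) = 0 := by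
  apply h.pd_last_zero (h.diff_Shape sh k)
  intro s hs x hx
  obtain ⟨-, -, -, -, -, -, -, -, -, h1⟩ := h.sol.hom0 hs hx
  rw [h1 sh]

private theorem Adp.pd_last_Mt (h : Adp E u) (A : Mt) (i j : Fin (m + 1)) :
    pd (Fin.last m) (fun x => A.val u x i j) (oo m) = 0 := by
  apply h.pd_last_zero (h.diff_Mt A i j)
  intro s hs x hx
  obtain ⟨-, -, -, -, -, -, -, -, h1, -⟩ := h.sol.hom0 hs hx
  rw [h1 A]

private theorem Tt_oo (k i j : Fin (m + 1)) : Tt u (oo m) k i j = T u k i j (oo m) := by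
  unfold Tt
  rw [norm_oo]
  ring

/-- `∂_k (r² T_lij)` -/
private theorem Adp.pd_Tt (h : Adp E u) (k l i j : Fin (m + 1)) :
    pd k (fun x => Tt u x l i j) (oo m)
      = 2 * (if k = Fin.last m then 1 else 0) * T u l i j (oo m) + pd k (T u l i j) (oo m) := by
  have hd : DifferentiableAt ℝ (fun x : V (m + 1) => ‖x‖ ^ 2) (oo m) := diff_norm_oo.pow 2
  have h1 : pd k (fun x => Tt u x l i j) (oo m)
      = pd k (fun x : V (m + 1) => ‖x‖ ^ 2) (oo m) * T u l i j (oo m)
        + ‖oo m‖ ^ 2 * pd k (T u l i j) (oo m) :=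
    pd_mul hd (h.sol.diff_T l i j h.mem) k
  rw [h1, OPC.pd_pow diff_norm_oo, pd_norm_oo, norm_oo]
  push_cast
  ring

/-- derivative of `T:A` -/
private theorem Adp.pd_TA (h : Adp E u) (A : Mt) (k l : Fin (m + 1)) :
    pd k (fun x => TA u x (A.val u x) l) (oo m)
      = 2 * (if k = Fin.last m then 1 else 0) * TA u (oo m) (A.val u (oo m)) l
        + ∑ i, ∑ j, pd k (T u l i j) (oo m) * A.val u (oo m) i j
        + ∑ i, ∑ j, T u l i j (oo m) * pd k (fun x => A.val u x i j) (oo m) := by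
  have h1 : pd k (fun x => TA u x (A.val u x) l) (oo m)
      = ∑ i, ∑ j, (pd k (fun x => Tt u x l i j) (oo m) * A.val u (oo m) i j
        + Tt u (oo m) l i j * pd k (fun x => A.val u x i j) (oo m)) := by
    have hd : ∀ i j, DifferentiableAt ℝ (fun x => Tt u x l i j * A.val u x i j) (oo m) :=
      fun i j => (h.diff_Tt l i j).mul (h.diff_Mt A i j)
    unfold TA
    rw [pd_sum _ (fun i _ => DifferentiableAt.fun_sum fun j _ => hd i j)]
    refine Finset.sum_congr rfl fun i _ => ?_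
    rw [pd_sum _ (fun j _ => hd i j)]
    refine Finset.sum_congr rfl fun j _ => ?_
    exact pd_mul (h.diff_Tt l i j) (h.diff_Mt A i j) k
  rw [h1]
  unfold TA
  rw [Finset.mul_sum, ← Finset.sum_add_distrib, ← Finset.sum_add_distrib]
  refine Finset.sum_congr rfl fun i _ => ?_
  rw [Finset.mul_sum, ← Finset.sum_add_distrib, ← Finset.sum_add_distrib]
  refine Finset.sum_congr rfl fun j _ => ?_
  rw [h.pd_Tt, Tt_oo]
  ring

/-- `T_l : ∂_k A` with all indices -/
private theorem Adp.TdA_full (h : Adp E u) {A : Mt} (hA : A.ok) (k l : Fin m) :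
    ∑ i, ∑ j, T u l.castSucc i j (oo m) * pd k.castSucc (fun x => A.val u x i j) (oo m)
      = A.TdA (lst u) l k + 2 * (lst u).l l * A.lv (lst u) l k := by
  have hS : ∀ i : Fin m, S u l.castSucc i.castSucc (oo m) = if i = l then (lst u).l l else 0 := by
    intro i
    split_ifs with hi
    · subst hi
      rfl
    · apply h.diag
      intro hc
      exact hi (Fin.castSucc_injective m hc).symm
  have h1 : ∀ i : Fin m, T u l.castSucc i.castSucc (Fin.last m) (oo m)
      = - if i = l then (lst u).l l else 0 := by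
    intro i
    rw [h.sol.T_symm13 _ _ _ h.mem, h.T_last, h.sol.S_symm _ _ h.mem, hS]
  have h2 : ∀ i : Fin m, T u l.castSucc (Fin.last m) i.castSucc (oo m)
      = - if i = l then (lst u).l l else 0 := by
    intro i
    rw [h.sol.T_symm23 _ _ _ h.mem, h1]
  have h3 : ∀ i : Fin m, ∑ j, T u l.castSucc i.castSucc j (oo m)
      * pd k.castSucc (fun x => A.val u x i.castSucc j) (oo m)
      = ∑ j, (lst u).T l i j * A.ld (lst u) k i j + (if i = l then (lst u).l l else 0) * A.lv (lst u) i k := by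
    intro i
    rw [Fin.sum_univ_castSucc, h1, (h.pd_Mt_last hA k i).1]
    congr 1
    · refine Finset.sum_congr rfl fun j _ => ?_
      rw [h.pd_Mt]
      rfl
    · ring
  have h4 : ∑ j, T u l.castSucc (Fin.last m) j (oo m)
      * pd k.castSucc (fun x => A.val u x (Fin.last m) j) (oo m)
      = ∑ j, (if j = l then (lst u).l l else 0) * A.lv (lst u) j k := by
    rw [Fin.sum_univ_castSucc, (h.pd_Mt_last hA k k).2.2, mul_zero, add_zero]
    refine Finset.sum_congr rfl fun j _ => ?_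
    rw [h2, (h.pd_Mt_last hA k j).2.1]
    ring
  rw [Fin.sum_univ_castSucc, h4, Finset.sum_congr rfl fun i _ => h3 i, Finset.sum_add_distrib]
  have h5 : ∑ j, (if j = l then (lst u).l l else 0) * A.lv (lst u) j k
      = (lst u).l l * A.lv (lst u) l k := by
    rw [Finset.sum_eq_single l]
    · simp
    · intro j _ hj
      simp [hj]
    · intro hc
      exact absurd (Finset.mem_univ _) hc
  rw [h5]
  unfold Mt.TdA
  ring

/-- full symmetry of `D⁴u` -/
private theorem Adp.D4_swap (h : Adp E u) (k l i j : Fin (m + 1)) :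
    pd k (T u l i j) (oo m) = pd l (T u k i j) (oo m) :=
  pd_comm' h.sol.isOpen (h.sol.smooth_S i j) k l h.mem

private theorem Adp.D4_12 (h : Adp E u) (k l i j : Fin (m + 1)) :
    pd k (T u l i j) (oo m) = pd k (T u i l j) (oo m) :=
  pd_congr h.sol.isOpen (fun _ hy => h.sol.T_symm12 l i j hy) k (oo m) h.mem

private theorem Adp.D4_23 (h : Adp E u) (k l i j : Fin (m + 1)) :
    pd k (T u l i j) (oo m) = pd k (T u l j i) (oo m) :=
  pd_congr h.sol.isOpen (fun _ hy => h.sol.T_symm23 l i j hy) k (oo m) h.mem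

private theorem Adp.D4_pair (h : Adp E u) (k l i j : Fin (m + 1)) :
    pd k (T u l i j) (oo m) = pd i (T u j k l) (oo m) := by
  rw [h.D4_12 k l i j, h.D4_swap k i l j, h.D4_23 i k l j, h.D4_12 i k j l]

/-- the divergence of `∑_l M_kl (T_l:A)` -/
private theorem Adp.div_M (h : Adp E u) {A : Mt} (hA : A.ok)
    {M : V (m + 1) → Matrix (Fin (m + 1)) (Fin (m + 1)) ℝ}
    (hM : ∀ k l, DifferentiableAt ℝ (fun x => M x k l) (oo m))
    (hM1 : ∀ l, M (oo m) (Fin.last m) l = 0) (hM2 : ∀ l, M (oo m) l (Fin.last m) = 0)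
    (hM3 : ∀ k l, pd (Fin.last m) (fun x => M x k l) (oo m) = 0) :
    ∑ k, pd k (fun x => ∑ l, M x k l * TA u x (A.val u x) l) (oo m)
      = (∑ k : Fin m, ∑ l : Fin m, (pd k.castSucc (fun x => M x k.castSucc l.castSucc) (oo m)
            * A.TA (lst u) l + M (oo m) k.castSucc l.castSucc * A.TdA (lst u) l k))
        + (- A.SA (lst u)) * ∑ k : Fin m, pd k.castSucc (fun x => M x k.castSucc (Fin.last m)) (oo m)
        + (∑ k : Fin m, ∑ l : Fin m, M (oo m) k.castSucc l.castSucc
            * (2 * (lst u).l l * A.lv (lst u) l k))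
        + ∑ k, ∑ l, M (oo m) k l * ∑ i, ∑ j, pd k (T u l i j) (oo m) * A.val u (oo m) i j := by
  have hTA : ∀ l, DifferentiableAt ℝ (fun x => TA u x (A.val u x) l) (oo m) :=
    fun l => h.diff_Shape (.p1 A) l
  have h1 : ∀ k, pd k (fun x => ∑ l, M x k l * TA u x (A.val u x) l) (oo m)
      = ∑ l, pd k (fun x => M x k l) (oo m) * TA u (oo m) (A.val u (oo m)) l
        + ∑ l, M (oo m) k l * (∑ i, ∑ j, T u l i j (oo m) * pd k (fun x => A.val u x i j) (oo m))
        + ∑ l, M (oo m) k l * ∑ i, ∑ j, pd k (T u l i j) (oo m) * A.val u (oo m) i j := by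
    intro k
    have hd : ∀ l, DifferentiableAt ℝ (fun x => M x k l * TA u x (A.val u x) l) (oo m) :=
      fun l => (hM k l).mul (hTA l)
    rw [pd_sum _ (fun l _ => hd l), ← Finset.sum_add_distrib, ← Finset.sum_add_distrib]
    refine Finset.sum_congr rfl fun l _ => ?_
    rw [pd_mul (hM k l) (hTA l), h.pd_TA]
    by_cases hk : k = Fin.last m
    · subst hk
      rw [hM1]
      ring
    · rw [if_neg hk]
      ring
  rw [Finset.sum_congr rfl fun k _ => h1 k, Finset.sum_add_distrib, Finset.sum_add_distrib]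
  congr 1
  rw [Fin.sum_univ_castSucc, Fin.sum_univ_castSucc
    (f := fun k => ∑ l, M (oo m) k l * (∑ i, ∑ j, T u l i j (oo m)
      * pd k (fun x => A.val u x i j) (oo m)))]
  have h2 : ∑ l, pd (Fin.last m) (fun x => M x (Fin.last m) l) (oo m)
      * TA u (oo m) (A.val u (oo m)) l = 0 :=
    Finset.sum_eq_zero fun l _ => by rw [hM3, zero_mul]
  have h3 : ∑ l, M (oo m) (Fin.last m) l * (∑ i, ∑ j, T u l i j (oo m)
      * pd (Fin.last m) (fun x => A.val u x i j) (oo m)) = 0 :=
    Finset.sum_eq_zero fun l _ => by rw [hM1, zero_mul]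
  rw [h2, h3, add_zero, add_zero, Finset.mul_sum, ← Finset.sum_add_distrib,
    ← Finset.sum_add_distrib, ← Finset.sum_add_distrib]
  refine Finset.sum_congr rfl fun k _ => ?_
  rw [Fin.sum_univ_castSucc, Fin.sum_univ_castSucc
    (f := fun l => M (oo m) k.castSucc l * (∑ i, ∑ j, T u l i j (oo m)
      * pd k.castSucc (fun x => A.val u x i j) (oo m))), hM2, zero_mul, add_zero, h.TA_last hA]
  have h4 : ∀ l : Fin m, pd k.castSucc (fun x => M x k.castSucc l.castSucc) (oo m)
        * TA u (oo m) (A.val u (oo m)) l.castSucc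
      = pd k.castSucc (fun x => M x k.castSucc l.castSucc) (oo m) * A.TA (lst u) l := by
    intro l
    rw [h.TA_val hA]
  have h5 : ∀ l : Fin m, M (oo m) k.castSucc l.castSucc * (∑ i, ∑ j, T u l.castSucc i j (oo m)
        * pd k.castSucc (fun x => A.val u x i j) (oo m))
      = M (oo m) k.castSucc l.castSucc * A.TdA (lst u) l k
        + M (oo m) k.castSucc l.castSucc * (2 * (lst u).l l * A.lv (lst u) l k) := by
    intro l
    rw [h.TdA_full hA]
    ring
  rw [Finset.sum_congr rfl fun l _ => h4 l, Finset.sum_congr rfl fun l _ => h5 l,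
    Finset.sum_add_distrib, Finset.sum_add_distrib]
  ring

/-- `∑ₖ ∂ₖ(r^{1-n} f Y_k)` for tangential degree-0 `Y`, at the adapted point. -/
theorem Adp.div_v0 (h : Adp E u) {f : V (m + 1) → ℝ} (hf : DifferentiableAt ℝ f (oo m))
    (hf0 : ∀ s : ℝ, 0 < s → ∀ x ∈ E, f (s • x) = f x) (a : ℕ) :
    ∑ k, pd k (fun x => ‖x‖ ^ (1 - ((m + 1 : ℕ) : ℤ)) * (f x * (Shape.v0 a).val u x k)) (oo m)
      = (Shape.v0 a).ldiv (lst u) (f (oo m)) (fun k => pd k.castSucc f (oo m)) := by
  rw [h.div_gen hf hf0 (h.diff_Shape (.v0 a))]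
  have h1 : (Shape.v0 a).val u (oo m) (Fin.last m) = 0 := h.Sp_last a
  have h2 : ∀ k : Fin m, (Shape.v0 a).val u (oo m) k.castSucc = (lst u).v a k := h.Sp_val a
  have h3 : ∑ k, pd k (fun x => (Shape.v0 a).val u x k) (oo m) = ∑ k, (lst u).dv a k k := by
    rw [Fin.sum_univ_castSucc, h.pd_last_Shape, add_zero]
    exact Finset.sum_congr rfl fun k _ => h.pd_Sp a k k
  rw [h1, h3, Finset.sum_congr rfl fun k _ => by rw [h2 k]]
  simp only [Shape.ldiv]
  rw [Finset.sum_add_distrib, ← Finset.mul_sum]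
  ring

/-- `p1`: Sketch. `W_k = r^{3-n} f ∑ T_{kij} A_{ij}`; `∑ₖ ∂ₖ T_{kij} = 0`; at `x = e_last`:
radial part `(3-n) f (T_last:A) = (3-n) f (-S:A)` (`∂_last f = 0`, `∂_last A = 0`), and
`T_k:∂_k A` has the terms with an index `last`: `2 ∑ T_{k i last} ∂_k A_{i last} = 2 (-S_{ki})(-A_{ik})`.
Total `(n-3+2) f S:A = m f S:A`. -/
theorem Adp.div_p1 (h : Adp E u) {f : V (m + 1) → ℝ} (hf : DifferentiableAt ℝ f (oo m))
    (hf0 : ∀ s : ℝ, 0 < s → ∀ x ∈ E, f (s • x) = f x) {A : Mt} (hA : A.ok) :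
    ∑ k, pd k (fun x => ‖x‖ ^ (1 - ((m + 1 : ℕ) : ℤ)) * (f x * (Shape.p1 A).val u x k)) (oo m)
      = (Shape.p1 A).ldiv (lst u) (f (oo m)) (fun k => pd k.castSucc f (oo m)) := by
  rw [h.div_gen hf hf0 (h.diff_Shape (.p1 A))]
  have h1 : (Shape.p1 A).val u (oo m) (Fin.last m) = - A.SA (lst u) := h.TA_last hA
  have h2 : ∀ k : Fin m, (Shape.p1 A).val u (oo m) k.castSucc = A.TA (lst u) k := h.TA_val hA
  have h3 : ∑ k, pd k (fun x => (Shape.p1 A).val u x k) (oo m) = ∑ k, A.TdA (lst u) k k := by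
    have h4 : ∀ k, pd k (fun x => (Shape.p1 A).val u x k) (oo m)
        = 2 * (if k = Fin.last m then 1 else 0) * TA u (oo m) (A.val u (oo m)) k
        + ∑ i, ∑ j, pd k (T u k i j) (oo m) * A.val u (oo m) i j
        + ∑ i, ∑ j, T u k i j (oo m) * pd k (fun x => A.val u x i j) (oo m) :=
      fun k => h.pd_TA A k k
    rw [Finset.sum_congr rfl fun k _ => h4 k, Finset.sum_add_distrib, Finset.sum_add_distrib]
    have h5 : ∑ k, 2 * (if k = Fin.last m then 1 else 0) * TA u (oo m) (A.val u (oo m)) k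
        = - 2 * A.SA (lst u) := by
      rw [Finset.sum_eq_single (Fin.last m)]
      · rw [h.TA_last hA]
        simp
      · intro k _ hk
        simp [hk]
      · intro hc
        exact absurd (Finset.mem_univ _) hc
    have h6 : ∑ k, ∑ i, ∑ j, pd k (T u k i j) (oo m) * A.val u (oo m) i j = 0 := by
      rw [Finset.sum_comm]
      refine Finset.sum_eq_zero fun i _ => ?_
      rw [Finset.sum_comm]
      refine Finset.sum_eq_zero fun j _ => ?_
      rw [← Finset.sum_mul, h.sol.div_T i j h.mem, zero_mul]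
    have h7 : ∑ k, ∑ i, ∑ j, T u k i j (oo m) * pd k (fun x => A.val u x i j) (oo m)
        = ∑ k, A.TdA (lst u) k k + 2 * A.SA (lst u) := by
      rw [Fin.sum_univ_castSucc]
      have h8 : ∑ i, ∑ j, T u (Fin.last m) i j (oo m)
          * pd (Fin.last m) (fun x => A.val u x i j) (oo m) = 0 :=
        Finset.sum_eq_zero fun i _ => Finset.sum_eq_zero fun j _ => by
          rw [h.pd_last_Mt, mul_zero]
      rw [h8, add_zero, Finset.sum_congr rfl fun k _ => h.TdA_full hA k k, Finset.sum_add_distrib]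
      unfold Mt.SA
      rw [Finset.mul_sum]
      congr 1
      exact Finset.sum_congr rfl fun k _ => by ring
    rw [h5, h6, h7]
    ring
  rw [h1, h3, Finset.sum_congr rfl fun k _ => by rw [h2 k]]
  simp only [Shape.ldiv]
  have h9 : (lst u).eps = 1 := rfl
  rw [h9]
  ring

/-- `h1`: Sketch. `W_k = r^{3-n} f ∑_l (B_{kl} (T_l:A) - A_{kl} (T_l:B))`. The terms with a fourth
derivative `∂_k T_{lij} (B_{kl} A_{ij} - A_{kl} B_{ij})` cancel (full symmetry of `D⁴u`). Terms with
an index `last`: `∂_k B_{k last} (T_last:A) = -B_{kk} (-S:A)`, sum `tr B S:A` (and `-tr A S:B`);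
`B_{kl} 2 T_{l i last} ∂_k A_{i last} = 2 tr(B S A)`, cancels with `-2 tr(A S B)`. -/
theorem Adp.div_h1 (h : Adp E u) {f : V (m + 1) → ℝ} (hf : DifferentiableAt ℝ f (oo m))
    (hf0 : ∀ s : ℝ, 0 < s → ∀ x ∈ E, f (s • x) = f x) {A B : Mt} (hA : A.ok) (hB : B.ok) :
    ∑ k, pd k (fun x => ‖x‖ ^ (1 - ((m + 1 : ℕ) : ℤ)) * (f x * (Shape.h1 A B).val u x k)) (oo m)
      = (Shape.h1 A B).ldiv (lst u) (f (oo m)) (fun k => pd k.castSucc f (oo m)) := by
  rw [h.div_gen hf hf0 (h.diff_Shape (.h1 A B))]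
  have h1 : (Shape.h1 A B).val u (oo m) (Fin.last m) = 0 := by
    change ∑ l, (B.val u (oo m) (Fin.last m) l * TA u (oo m) (A.val u (oo m)) l
      - A.val u (oo m) (Fin.last m) l * TA u (oo m) (B.val u (oo m)) l) = 0
    refine Finset.sum_eq_zero fun l _ => ?_
    rw [(h.Mt_last hA l).2, (h.Mt_last hB l).2]
    ring
  have h2 : ∀ k : Fin m, (Shape.h1 A B).val u (oo m) k.castSucc
      = ∑ l, (B.lv (lst u) k l * A.TA (lst u) l - A.lv (lst u) k l * B.TA (lst u) l) := by
    intro k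
    change ∑ l, (B.val u (oo m) k.castSucc l * TA u (oo m) (A.val u (oo m)) l
      - A.val u (oo m) k.castSucc l * TA u (oo m) (B.val u (oo m)) l) = _
    rw [Fin.sum_univ_castSucc, (h.Mt_last hA k.castSucc).1, (h.Mt_last hB k.castSucc).1]
    simp only [zero_mul, sub_zero, add_zero]
    refine Finset.sum_congr rfl fun l _ => ?_
    rw [h.Mt_val, h.Mt_val, h.TA_val hA, h.TA_val hB]
  have hP : ∀ {A B : Mt}, A.ok → B.ok →
      ∑ k, pd k (fun x => ∑ l, B.val u x k l * TA u x (A.val u x) l) (oo m)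
      = (∑ k : Fin m, ∑ l : Fin m, (B.ld (lst u) k k l * A.TA (lst u) l
            + B.lv (lst u) k l * A.TdA (lst u) l k))
        + A.SA (lst u) * B.tr (lst u)
        + (∑ k : Fin m, ∑ l : Fin m, B.lv (lst u) k l * (2 * (lst u).l l * A.lv (lst u) l k))
        + ∑ k, ∑ l, B.val u (oo m) k l
            * ∑ i, ∑ j, pd k (T u l i j) (oo m) * A.val u (oo m) i j := by
    intro A B hA hB
    rw [h.div_M hA (M := fun x => B.val u x) (h.diff_Mt B) (fun l => (h.Mt_last hB l).2)
      (fun l => (h.Mt_last hB l).1) (h.pd_last_Mt B)]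
    have e1 : ∑ k : Fin m, pd k.castSucc (fun x => B.val u x k.castSucc (Fin.last m)) (oo m)
        = - B.tr (lst u) := by
      rw [Finset.sum_congr rfl fun k _ => (h.pd_Mt_last hB k k).1, Finset.sum_neg_distrib]
      rfl
    rw [e1]
    simp only [h.pd_Mt, h.Mt_val]
    ring
  have h3 : ∑ k, pd k (fun x => (Shape.h1 A B).val u x k) (oo m)
      = ∑ k, pd k (fun x => ∑ l, B.val u x k l * TA u x (A.val u x) l) (oo m)
        - ∑ k, pd k (fun x => ∑ l, A.val u x k l * TA u x (B.val u x) l) (oo m) := by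
    rw [← Finset.sum_sub_distrib]
    refine Finset.sum_congr rfl fun k _ => ?_
    have hd : ∀ {A B : Mt}, DifferentiableAt ℝ (fun x => ∑ l, B.val u x k l * TA u x (A.val u x) l)
        (oo m) := by
      intro A B
      exact DifferentiableAt.fun_sum fun l _ => (h.diff_Mt B k l).mul (h.diff_Shape (.p1 A) l)
    rw [← pd_sub hd hd]
    congr 1
    funext x
    change ∑ l, (B.val u x k l * TA u x (A.val u x) l - A.val u x k l * TA u x (B.val u x) l) = _
    rw [Finset.sum_sub_distrib]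
  have h4 : ∑ k, ∑ l, B.val u (oo m) k l
        * ∑ i, ∑ j, pd k (T u l i j) (oo m) * A.val u (oo m) i j
      = ∑ k, ∑ l, A.val u (oo m) k l
        * ∑ i, ∑ j, pd k (T u l i j) (oo m) * B.val u (oo m) i j := by
    have e1 : ∑ k, ∑ l, B.val u (oo m) k l
        * ∑ i, ∑ j, pd k (T u l i j) (oo m) * A.val u (oo m) i j
        = ∑ p : Fin (m + 1) × Fin (m + 1), ∑ r : Fin (m + 1) × Fin (m + 1),
          B.val u (oo m) p.1 p.2 * (pd p.1 (T u p.2 r.1 r.2) (oo m) * A.val u (oo m) r.1 r.2) := by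
      rw [Fintype.sum_prod_type]
      refine Finset.sum_congr rfl fun k _ => Finset.sum_congr rfl fun l _ => ?_
      rw [Fintype.sum_prod_type, Finset.mul_sum]
      exact Finset.sum_congr rfl fun i _ => Finset.mul_sum _ _ _
    have e2 : ∑ k, ∑ l, A.val u (oo m) k l
        * ∑ i, ∑ j, pd k (T u l i j) (oo m) * B.val u (oo m) i j
        = ∑ p : Fin (m + 1) × Fin (m + 1), ∑ r : Fin (m + 1) × Fin (m + 1),
          A.val u (oo m) p.1 p.2 * (pd p.1 (T u p.2 r.1 r.2) (oo m) * B.val u (oo m) r.1 r.2) := by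
      rw [Fintype.sum_prod_type]
      refine Finset.sum_congr rfl fun k _ => Finset.sum_congr rfl fun l _ => ?_
      rw [Fintype.sum_prod_type, Finset.mul_sum]
      exact Finset.sum_congr rfl fun i _ => Finset.mul_sum _ _ _
    rw [e1, e2, Finset.sum_comm]
    refine Finset.sum_congr rfl fun p _ => Finset.sum_congr rfl fun r _ => ?_
    rw [h.D4_pair p.1 p.2 r.1 r.2]
    ring
  have h5 : ∑ k : Fin m, ∑ l : Fin m, B.lv (lst u) k l * (2 * (lst u).l l * A.lv (lst u) l k)
      = ∑ k : Fin m, ∑ l : Fin m, A.lv (lst u) k l * (2 * (lst u).l l * B.lv (lst u) l k) := by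
    have hs : ∀ (C : Mt) (i j : Fin m), C.lv (lst u) i j = C.lv (lst u) j i := by
      intro C i j
      rw [← h.Mt_val, ← h.Mt_val, h.sol.Mt_symm C h.mem]
    refine Finset.sum_congr rfl fun k _ => Finset.sum_congr rfl fun l _ => ?_
    rw [hs A l k, hs B l k]
    ring
  rw [h1, h3, hP hA hB, hP hB hA, h4, h5, Finset.sum_congr rfl fun k _ => by rw [h2 k]]
  simp only [Shape.ldiv]
  have h9 : (lst u).eps = 1 := rfl
  rw [h9]
  have h10 : ∑ k : Fin m, ∑ l : Fin m, (B.ld (lst u) k k l * A.TA (lst u) l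
        + B.lv (lst u) k l * A.TdA (lst u) l k - A.ld (lst u) k k l * B.TA (lst u) l
        - A.lv (lst u) k l * B.TdA (lst u) l k)
      = (∑ k : Fin m, ∑ l : Fin m, (B.ld (lst u) k k l * A.TA (lst u) l
            + B.lv (lst u) k l * A.TdA (lst u) l k))
        - ∑ k : Fin m, ∑ l : Fin m, (A.ld (lst u) k k l * B.TA (lst u) l
            + A.lv (lst u) k l * B.TdA (lst u) l k) := by
    rw [← Finset.sum_sub_distrib]
    refine Finset.sum_congr rfl fun k _ => ?_
    rw [← Finset.sum_sub_distrib]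
    exact Finset.sum_congr rfl fun l _ => by ring
  simp only [h10]
  ring

/-- `h2`: as `h1`; the fourth derivative term vanishes by antisymmetry of the wedge, the terms with
an index `last` vanish (`tr = 0`, and `tr(B S S^c) = 0` by antisymmetry). -/
theorem Adp.div_h2 (h : Adp E u) {f : V (m + 1) → ℝ} (hf : DifferentiableAt ℝ f (oo m))
    (hf0 : ∀ s : ℝ, 0 < s → ∀ x ∈ E, f (s • x) = f x) (a b : ℕ) {c : ℕ} (hc : 1 ≤ c) :
    ∑ k, pd k (fun x => ‖x‖ ^ (1 - ((m + 1 : ℕ) : ℤ)) * (f x * (Shape.h2 a b c).val u x k)) (oo m)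
      = (Shape.h2 a b c).ldiv (lst u) (f (oo m)) (fun k => pd k.castSucc f (oo m)) := by
  have hA : (Mt.pow c).ok := hc
  rw [h.div_gen hf hf0 (h.diff_Shape (.h2 a b c))]
  have h1 : (Shape.h2 a b c).val u (oo m) (Fin.last m) = 0 := by
    change ∑ l, wedge u (oo m) a b (Fin.last m) l * TA u (oo m) (Sm u (oo m) ^ c) l = 0
    refine Finset.sum_eq_zero fun l _ => ?_
    rw [(h.wedge_last a b l).2, zero_mul]
  have h2 : ∀ k : Fin m, (Shape.h2 a b c).val u (oo m) k.castSucc
      = ∑ l, (lst u).wl a b k l * (Mt.pow c).TA (lst u) l := by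
    intro k
    change ∑ l, wedge u (oo m) a b k.castSucc l * TA u (oo m) ((Mt.pow c).val u (oo m)) l = _
    rw [Fin.sum_univ_castSucc, (h.wedge_last a b k.castSucc).1, zero_mul, add_zero]
    refine Finset.sum_congr rfl fun l _ => ?_
    rw [h.wedge_val, h.TA_val hA]
  have hd : ∀ k l, DifferentiableAt ℝ (fun x => wedge u x a b k l) (oo m) := fun k l =>
    diffAt h.sol.isOpen (h.sol.smooth_wedge a b k l) h.mem
  have hd0 : ∀ k l, pd (Fin.last m) (fun x => wedge u x a b k l) (oo m) = 0 := by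
    intro k l
    apply h.pd_last_zero (hd k l)
    intro s hs x hx
    obtain ⟨g1, g2, -⟩ := h.sol.hom0 hs hx
    unfold wedge Sp
    rw [g1, g2]
  have hw : ∀ k : Fin m, (lst u).wl a b k k = 0 := by
    intro k
    unfold LS.wl
    ring
  have h3 : ∑ k, pd k (fun x => (Shape.h2 a b c).val u x k) (oo m)
      = ∑ k : Fin m, ∑ l : Fin m, ((lst u).wd a b k k l * (Mt.pow c).TA (lst u) l
            + (lst u).wl a b k l * (Mt.pow c).TdA (lst u) l k) := by
    have e0 := h.div_M hA (M := fun x => wedge u x a b) hd (fun l => (h.wedge_last a b l).2)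
      (fun l => (h.wedge_last a b l).1) hd0
    have e1 : ∑ k : Fin m, pd k.castSucc (fun x => wedge u x a b k.castSucc (Fin.last m)) (oo m)
        = 0 := by
      refine Finset.sum_eq_zero fun k _ => ?_
      rw [(h.pd_wedge_last a b k k).1, hw, neg_zero]
    have e2 : ∑ k : Fin m, ∑ l : Fin m, wedge u (oo m) a b k.castSucc l.castSucc
            * (2 * (lst u).l l * (Mt.pow c).lv (lst u) l k) = 0 := by
      refine Finset.sum_eq_zero fun k _ => Finset.sum_eq_zero fun l _ => ?_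
      rw [h.wedge_val]
      by_cases hkl : l = k
      · rw [hkl, hw, zero_mul]
      · have : (Mt.pow c).lv (lst u) l k = 0 := if_neg hkl
        rw [this]
        ring
    have e3 : ∑ k, ∑ l, wedge u (oo m) a b k l * ∑ i, ∑ j, pd k (T u l i j) (oo m)
        * (Mt.pow c).val u (oo m) i j = 0 := by
      have e4 : ∑ k, ∑ l, wedge u (oo m) a b k l * ∑ i, ∑ j, pd k (T u l i j) (oo m)
          * (Mt.pow c).val u (oo m) i j
          = - ∑ k, ∑ l, wedge u (oo m) a b k l * ∑ i, ∑ j, pd k (T u l i j) (oo m)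
          * (Mt.pow c).val u (oo m) i j := by
        rw [← Finset.sum_neg_distrib]
        conv_lhs => rw [Finset.sum_comm]
        refine Finset.sum_congr rfl fun k _ => ?_
        rw [← Finset.sum_neg_distrib]
        refine Finset.sum_congr rfl fun l _ => ?_
        rw [wedge_antisymm a b (oo m) l k]
        have e5 : ∑ i, ∑ j, pd l (T u k i j) (oo m) * (Mt.pow c).val u (oo m) i j
            = ∑ i, ∑ j, pd k (T u l i j) (oo m) * (Mt.pow c).val u (oo m) i j :=
          Finset.sum_congr rfl fun i _ => Finset.sum_congr rfl fun j _ => by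
            rw [h.D4_swap l k i j]
        rw [e5]
        ring
      linarith
    rw [e1, e2, e3] at e0
    simp only [h.pd_wedge, h.wedge_val] at e0
    rw [mul_zero, add_zero, add_zero, add_zero] at e0
    exact e0
  rw [h1, h3, Finset.sum_congr rfl fun k _ => by rw [h2 k]]
  simp only [Shape.ldiv]
  ring

end OPC
end

section

/-! # P11: the pointwise inequality from the polynomial inequality -/

open MeasureTheory Set Filter Topology

namespace OPC

variable {m : ℕ} {E : Set (V (m + 1))} {u : V (m + 1) → ℝ}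

private theorem P11_sq_pos (h : Adp E u) (hN : NN u (oo m) ≠ 0) : 0 < ∑ i, (lst u).l i ^ 2 := by
  rw [h.NN_eq] at hN
  exact lt_of_le_of_ne (Finset.sum_nonneg fun i _ => sq_nonneg _) (Ne.symm hN)

private theorem P11_s_pos (h : Adp E u) (hN : NN u (oo m) ≠ 0) :
    0 < √(∑ i, (lst u).l i ^ 2) := Real.sqrt_pos.2 (P11_sq_pos h hN)

private theorem P11_ss (h : Adp E u) : ss u (oo m) = √(∑ i, (lst u).l i ^ 2) := by
  unfold ss
  rw [norm_oo, one_mul, h.NN_eq]

private theorem P11_open (h : Adp E u) : IsOpen (E ∩ {x | NN u x ≠ 0}) :=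
  h.sol.smooth_NN.continuousOn.isOpen_inter_preimage h.sol.isOpen isOpen_ne

private theorem P11_diff (h : Adp E u) (hN : NN u (oo m) ≠ 0) {f : V (m + 1) → ℝ}
    (hf : ContDiffOn ℝ (⊤ : ℕ∞) f (E ∩ {x | NN u x ≠ 0})) : DifferentiableAt ℝ f (oo m) :=
  diffAt (P11_open h) hf ⟨h.mem, hN⟩

private theorem P11_diff_facs (h : Adp E u) (L : List Fac) :
    DifferentiableAt ℝ (fun x => facsVal u x L) (oo m) :=
  diffAt h.sol.isOpen (h.sol.smooth_facs L) h.mem

/-- divergence of a term at the adapted point: `s^{ϖ+2}` times the scaled divergence,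
`s = √(∑ l²)`. Sketch: `Adp.div_v0` … `Adp.div_h2` with `f = ss^ex * facs`, `Adp.pd_ss`,
`Adp.pd_facs`, `facsLv_scale`, `Shape.ldiv_scale`, `LS.w_scale`; bookkeeping of the exponents
`ex = ϖ + 1 - wt - ge`. -/
theorem Adp.div_term (h : Adp E u) (hN : NN u (oo m) ≠ 0) (ϖ : ℚ) {g : Term} (hg : g.ok) :
    ∑ k, pd k (g.field ϖ u k) (oo m) = √(∑ i, (lst u).l i ^ 2) ^ ((ϖ : ℝ) + 2)
      * g.ldiv ϖ ((lst u).scale (√(∑ i, (lst u).l i ^ 2))) := by
  have hs := P11_s_pos h hN
  have hss := P11_ss h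
  set s : ℝ := √(∑ i, (lst u).l i ^ 2) with hsdef
  obtain ⟨sh, fs, ge, coef⟩ := g
  set ex : ℝ := (((Term.mk sh fs ge coef).ex ϖ : ℚ) : ℝ) with hex
  set W : ℕ := (fs.map Fac.wt).sum with hW
  set f : V (m + 1) → ℝ := fun x => ss u x ^ ex * facsVal u x fs with hf
  have hd1 : DifferentiableAt ℝ (fun x => ss u x ^ ex) (oo m) :=
    P11_diff h hN (h.sol.smooth_ss_rpow ex)
  have hd2 : DifferentiableAt ℝ (fun x => facsVal u x fs) (oo m) := P11_diff_facs h fs
  have hfd : DifferentiableAt ℝ f (oo m) := hd1.mul hd2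
  have hf0 : ∀ r : ℝ, 0 < r → ∀ x ∈ E, f (r • x) = f x := by
    intro r hr x hx
    obtain ⟨_, _, _, h4, _, _, _, h8, _, _⟩ := h.sol.hom0 hr hx
    simp only [hf, h4, h8]
  -- the divergence in terms of the unscaled link state
  have hdiv : ∑ k, pd k (fun x => ‖x‖ ^ (1 - ((m + 1 : ℕ) : ℤ)) * (f x * sh.val u x k)) (oo m)
      = sh.ldiv (lst u) (f (oo m)) (fun k => pd k.castSucc f (oo m)) := by
    cases sh with
    | v0 a => exact h.div_v0 hfd hf0 a
    | p1 A => exact h.div_p1 hfd hf0 hg.1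
    | h1 A B => exact h.div_h1 hfd hf0 hg.1 hg.2.1
    | h2 a b c => exact h.div_h2 hfd hf0 a b hg.1
  have hsum : ∑ k, pd k ((Term.mk sh fs ge coef).field ϖ u k) (oo m) =
      (coef : ℝ) * sh.ldiv (lst u) (f (oo m)) (fun k => pd k.castSucc f (oo m)) := by
    rw [← hdiv, Finset.mul_sum]
    refine Finset.sum_congr rfl fun k _ => ?_
    rw [← pd_const_mul]
    rfl
  rw [hsum]
  -- scaling
  have heps : (lst u).eps = 1 := rfl
  obtain ⟨hlv, hld⟩ := facsLv_scale (lst u) heps hs fs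
  have hfo : f (oo m) = s ^ (ex + W) * facsLv ((lst u).scale s) fs := by
    simp only [hf]
    rw [hss, h.facs_val, hlv, Real.rpow_add hs, Real.rpow_natCast]
    ring
  have hpf : (fun k : Fin m => pd k.castSucc f (oo m)) =
      fun k => s ^ (ex + W + 1) * (facsLd ((lst u).scale s) k fs
        + ex * facsLv ((lst u).scale s) fs * ((lst u).scale s).w k) := by
    funext k
    simp only [hf]
    rw [pd_mul hd1 hd2, h.pd_ss hN ex k, h.pd_facs fs k, h.facs_val, hss, hld k, hlv,
      LS.w_scale (lst u) hs k, ← hsdef]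
    have e1 : s ^ (ex + W + 1) = s ^ ex * s ^ W * s := by
      rw [Real.rpow_add hs, Real.rpow_add hs, Real.rpow_natCast, Real.rpow_one]
    have e2 : s ^ (ex - 2) * s ^ 3 = s ^ ex * s := by
      rw [Real.rpow_sub hs, Real.rpow_two]
      field_simp
    rw [e1]
    calc ex * s ^ (ex - 2) * (s ^ 3 * ((lst u).scale s).w k) * (s ^ W * facsLv ((lst u).scale s) fs)
          + s ^ ex * (s ^ (W + 1) * facsLd ((lst u).scale s) k fs)
        = ex * (s ^ (ex - 2) * s ^ 3) * ((lst u).scale s).w k * (s ^ W * facsLv ((lst u).scale s) fs)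
          + s ^ ex * (s ^ (W + 1) * facsLd ((lst u).scale s) k fs) := by ring
      _ = _ := by rw [e2]; ring
  rw [hfo, hpf, Shape.ldiv_scale (lst u) heps hs sh (ex + W)]
  unfold Term.ldiv
  simp only [eq_ratCast]
  rw [← hex]
  have e3 : s ^ (ex + W + 1 + sh.wt) = s ^ ((ϖ : ℝ) + 2) * (s⁻¹) ^ ge := by
    have e4 : ex + W + 1 + sh.wt = ((ϖ : ℝ) + 2) - ge := by
      have hwt : (Term.mk sh fs ge coef).wt = sh.wt + W := rfl
      rw [hex]
      unfold Term.ex
      rw [hwt]
      push_cast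
      ring
    rw [e4, Real.rpow_sub hs, Real.rpow_natCast, inv_pow]
    rfl
  rw [e3]
  show (coef : ℝ) * (s ^ ((ϖ : ℝ) + 2) * s⁻¹ ^ ge * _) = s ^ ((ϖ : ℝ) + 2) * ((coef : ℝ) * s⁻¹ ^ ge * _)
  ring

/-- partial derivatives of the norm at the base point -/
private theorem P11_pd_norm (h : Adp E u) (k : Fin m) (z : ℤ) :
    pd k.castSucc (fun x : V (m + 1) => ‖x‖ ^ z) (oo m) = 0 := by
  have hd : DifferentiableAt ℝ (fun x : V (m + 1) => ‖x‖) (oo m) :=
    diffAt h.sol.isOpen h.sol.smooth_norm h.mem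
  have h1 : pd k.castSucc (fun x : V (m + 1) => ‖x‖ ^ 2) (oo m) =
      2 * pd k.castSucc (fun x : V (m + 1) => ‖x‖) (oo m) := by
    rw [pd_pow hd, norm_oo]
    norm_num
  have h2 : pd k.castSucc (fun x : V (m + 1) => ‖x‖ ^ 2) (oo m) = 0 := by
    have h3 : (fun x : V (m + 1) => ‖x‖ ^ 2) = fun x => ∑ i, (x i) ^ 2 := by
      funext x
      exact norm_sq_eq_sum x
    have hc : ∀ i : Fin (m + 1), DifferentiableAt ℝ (fun x : V (m + 1) => x i) (oo m) := by
      intro i
      exact (EuclideanSpace.proj i : V (m + 1) →L[ℝ] ℝ).differentiableAt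
    rw [h3, pd_sum Finset.univ (f := fun i (x : V (m + 1)) => (x i) ^ 2)
      (fun i _ => (hc i).pow 2)]
    apply Finset.sum_eq_zero
    intro i _
    rw [pd_pow (hc i), pd_coord, oo_apply]
    by_cases hi : k.castSucc = i
    · have hne : i ≠ Fin.last m := by
        rw [← hi]
        exact (Fin.castSucc_lt_last k).ne
      rw [if_neg hne]
      norm_num
    · rw [if_neg hi, mul_zero]
  have h4 : pd k.castSucc (fun x : V (m + 1) => ‖x‖) (oo m) = 0 := by
    rw [h2] at h1
    linarith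
  have h5 : DifferentiableAt ℝ (fun t : ℝ => t ^ z) ‖oo m‖ := by
    apply (differentiableAt_zpow).2
    left
    rw [norm_oo]
    exact one_ne_zero
  rw [pd_comp (φ := fun t : ℝ => t ^ z) h5 hd, h4, mul_zero]

/-- the right hand side at the adapted point: `∑ (∂F)²/(4F) = s^ϖ (((m-1)/2)² + (ϖ/2)² s^{-4} ∑ w_k²)`
(radial derivative `(2-n) F`, `n = m + 1`) -/
theorem Adp.grad_F (h : Adp E u) (hN : NN u (oo m) ≠ 0) (ϖ : ℚ) :
    (∑ k, (pd k (Ff ϖ u) (oo m)) ^ 2) / (4 * Ff ϖ u (oo m)) =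
      √(∑ i, (lst u).l i ^ 2) ^ (ϖ : ℝ) * (((m : ℝ) - 1) ^ 2 / 4
        + (ϖ : ℝ) ^ 2 / 4 * (√(∑ i, (lst u).l i ^ 2) ^ 4)⁻¹ * ∑ k, (lst u).w k ^ 2) := by
  have hs := P11_s_pos h hN
  have hss := P11_ss h
  set s : ℝ := √(∑ i, (lst u).l i ^ 2) with hsdef
  have hF : Ff ϖ u (oo m) = s ^ (ϖ : ℝ) := by
    unfold Ff
    rw [norm_oo, one_zpow, one_mul, hss]
  have hd1 : DifferentiableAt ℝ (fun x => ss u x ^ (ϖ : ℝ)) (oo m) :=
    P11_diff h hN (h.sol.smooth_ss_rpow (ϖ : ℝ))
  have hd2 : DifferentiableAt ℝ (fun x : V (m + 1) => ‖x‖ ^ (2 - ((m + 1 : ℕ) : ℤ))) (oo m) :=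
    diffAt h.sol.isOpen (h.sol.smooth_zpow _) h.mem
  have h1 : ∀ k : Fin m, pd k.castSucc (Ff ϖ u) (oo m) = ϖ * s ^ ((ϖ : ℝ) - 2) * (lst u).w k := by
    intro k
    have h2 : Ff ϖ u = fun x => ‖x‖ ^ (2 - ((m + 1 : ℕ) : ℤ)) * ss u x ^ (ϖ : ℝ) := rfl
    rw [h2, pd_mul hd2 hd1, P11_pd_norm h, h.pd_ss hN, norm_oo, one_zpow, zero_mul, zero_add,
      one_mul, ← hsdef]
  have h3 : pd (Fin.last m) (Ff ϖ u) (oo m) = (1 - (m : ℝ)) * s ^ (ϖ : ℝ) := by
    have h4 : ∀ t : ℝ, 0 < t → ∀ x ∈ E ∩ {x | NN u x ≠ 0},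
        Ff ϖ u (t • x) = t ^ (2 - ((m + 1 : ℕ) : ℤ)) * Ff ϖ u x :=
      fun t ht x hx => h.sol.hom_Ff ϖ ht hx.1
    have h5 := euler (P11_open h) (f := Ff ϖ u)
      (fun x hx => diffAt (P11_open h) (h.sol.smooth_Ff ϖ) hx) (2 - ((m + 1 : ℕ) : ℤ)) h4
      (oo m) ⟨h.mem, hN⟩
    have h6 : ∑ i, (oo m) i * pd i (Ff ϖ u) (oo m) = pd (Fin.last m) (Ff ϖ u) (oo m) := by
      rw [Finset.sum_eq_single (Fin.last m)]
      · rw [oo_apply, if_pos rfl, one_mul]
      · intro i _ hi
        rw [oo_apply, if_neg hi, zero_mul]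
      · intro hi
        exact absurd (Finset.mem_univ _) hi
    rw [← h6, h5, hF]
    push_cast
    ring
  rw [Fin.sum_univ_castSucc, h3, hF]
  simp_rw [h1]
  have hp : 0 < s ^ (ϖ : ℝ) := Real.rpow_pos_of_pos hs _
  have h7 : s ^ ((ϖ : ℝ) - 2) = s ^ (ϖ : ℝ) / s ^ 2 := by
    rw [Real.rpow_sub hs, Real.rpow_two]
  have h8 : ∑ k, ((ϖ : ℝ) * s ^ ((ϖ : ℝ) - 2) * (lst u).w k) ^ 2 =
      (ϖ : ℝ) ^ 2 * (s ^ (ϖ : ℝ)) ^ 2 * (s ^ 4)⁻¹ * ∑ k, (lst u).w k ^ 2 := by
    rw [Finset.mul_sum]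
    refine Finset.sum_congr rfl fun k _ => ?_
    rw [h7]
    field_simp
  rw [h8]
  field_simp
  ring

private theorem P11_div_V (h : Adp E u) (hN : NN u (oo m) ≠ 0) (ϖ : ℚ) (L : List Term)
    (hL : ∀ g ∈ L, g.ok) :
    ∑ k, pd k (Vfield ϖ L u k) (oo m) = √(∑ i, (lst u).l i ^ 2) ^ ((ϖ : ℝ) + 2)
      * (L.map fun g => g.ldiv ϖ ((lst u).scale (√(∑ i, (lst u).l i ^ 2)))).sum := by
  induction L with
  | nil =>
    have h1 : ∀ k : Fin (m + 1), Vfield ϖ [] u k = fun _ => (0 : ℝ) := fun k => rfl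
    simp only [h1, pd_const, Finset.sum_const_zero, List.map_nil, List.sum_nil, mul_zero]
  | cons g L ih =>
    have h1 : ∀ k : Fin (m + 1), Vfield ϖ (g :: L) u k =
        fun x => g.field ϖ u k x + Vfield ϖ L u k x := by
      intro k
      funext x
      simp [Vfield]
    have h2 : ∀ k : Fin (m + 1), DifferentiableAt ℝ (g.field ϖ u k) (oo m) := by
      intro k
      have h3 : g.field ϖ u k = Vfield ϖ [g] u k := by
        funext x
        simp [Vfield]
      rw [h3]
      exact P11_diff h hN (h.sol.smooth_Vfield ϖ [g] k)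
    have h3 : ∀ k : Fin (m + 1), DifferentiableAt ℝ (Vfield ϖ L u k) (oo m) :=
      fun k => P11_diff h hN (h.sol.smooth_Vfield ϖ L k)
    simp only [h1]
    rw [Finset.sum_congr rfl fun k _ => pd_add (h2 k) (h3 k) k, Finset.sum_add_distrib,
      ih (fun g' hg' => hL g' (List.mem_cons_of_mem _ hg')),
      h.div_term hN ϖ (hL g List.mem_cons_self), List.map_cons, List.sum_cons]
    ring

/-- `defect = s^{ϖ+2} certPoly` at the adapted point -/
theorem Adp.defect_eq (h : Adp E u) (hN : NN u (oo m) ≠ 0) (ϖ t : ℚ) {L : List Term}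
    (hL : ∀ g ∈ L, g.ok) :
    defect ϖ t L u (oo m) = √(∑ i, (lst u).l i ^ 2) ^ ((ϖ : ℝ) + 2)
      * certPoly ϖ t L ((lst u).scale (√(∑ i, (lst u).l i ^ 2))) := by
  have hs := P11_s_pos h hN
  have hss := P11_ss h
  unfold defect certPoly
  rw [P11_div_V h hN ϖ L hL, h.grad_F hN]
  have hF : Ff ϖ u (oo m) = √(∑ i, (lst u).l i ^ 2) ^ (ϖ : ℝ) := by
    unfold Ff
    rw [norm_oo, one_zpow, one_mul, hss]
  rw [hF, norm_oo]
  set s : ℝ := √(∑ i, (lst u).l i ^ 2) with hsdef
  have h1 : ∑ k, (lst u).w k ^ 2 = s ^ 6 * ∑ k, ((lst u).scale s).w k ^ 2 := by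
    rw [Finset.mul_sum]
    refine Finset.sum_congr rfl fun k _ => ?_
    rw [LS.w_scale (lst u) hs k]
    ring
  have h2 : ((lst u).scale s).eps = s⁻¹ := rfl
  have h3 : s ^ ((ϖ : ℝ) + 2) = s ^ (ϖ : ℝ) * s ^ 2 := by
    rw [Real.rpow_add hs, Real.rpow_two]
  rw [h1, h2, h3]
  simp only [eq_ratCast]
  push_cast
  generalize (L.map fun g => g.ldiv ϖ ((lst u).scale s)).sum = A
  generalize ∑ k, ((lst u).scale s).w k ^ 2 = B
  generalize s ^ (ϖ : ℝ) = Q
  field_simp
  ring

/-- states for which the polynomial inequality is needed -/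
structure LS.good (X : LS ℝ m) : Prop where
  l_tr : ∑ i, X.l i = 0
  l_sq : ∑ i, X.l i ^ 2 = 1
  eps_pos : 0 < X.eps
  u_pos : 0 < X.u
  pu : ∑ i, X.p i ^ 2 + X.u ^ 2 ≤ 1
  T12 : ∀ i j k, X.T i j k = X.T j i k
  T23 : ∀ i j k, X.T i j k = X.T i k j
  T_tr : ∀ k, ∑ i, X.T k i i = 0

theorem Adp.good (h : Adp E u) (hm : 1 ≤ m) (hN : NN u (oo m) ≠ 0) :
    ((lst u).scale (√(∑ i, (lst u).l i ^ 2))).good := by
  have hs := P11_s_pos h hN
  have hs2 : √(∑ i, (lst u).l i ^ 2) ^ 2 = ∑ i, (lst u).l i ^ 2 :=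
    Real.sq_sqrt (P11_sq_pos h hN).le
  set s : ℝ := √(∑ i, (lst u).l i ^ 2) with hsdef
  refine ⟨?_, ?_, ?_, ?_, ?_, ?_, ?_, ?_⟩
  · show ∑ i, (lst u).l i / s = 0
    rw [← Finset.sum_div, h.tr_l, zero_div]
  · show ∑ i, ((lst u).l i / s) ^ 2 = 1
    simp_rw [div_pow]
    rw [← Finset.sum_div, ← hs2]
    exact div_self (by positivity)
  · show 0 < s⁻¹
    positivity
  · exact h.sol.pos _ h.mem
  · show ∑ i, (lst u).p i ^ 2 + (lst u).u ^ 2 ≤ 1
    rw [← h.gg_eq]
    exact h.sol.gg_le_one (by omega) h.mem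
  · intro i j k
    show (lst u).T i j k / s ^ 2 = (lst u).T j i k / s ^ 2
    rw [(h.T_symm i j k).1]
  · intro i j k
    show (lst u).T i j k / s ^ 2 = (lst u).T i k j / s ^ 2
    rw [(h.T_symm i j k).2]
  · intro k
    show ∑ i, (lst u).T k i i / s ^ 2 = 0
    rw [← Finset.sum_div, h.T_tr, zero_div]

/-- THE POINTWISE INEQUALITY for all solutions, from the polynomial inequality (I'). -/
theorem pointwise_of_poly (hm : 1 ≤ m) (ϖ t : ℚ) {L : List Term} (hL : ∀ g ∈ L, g.ok)
    (H : ∀ X : LS ℝ m, X.good → 0 ≤ certPoly ϖ t L X)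
    {E : Set (V (m + 1))} {u : V (m + 1) → ℝ} (h : Sol E u) {x : V (m + 1)} (hx : x ∈ E)
    (hN : NN u x ≠ 0) : 0 ≤ defect ϖ t L u x := by
  refine defect_nonneg_of_adapted ϖ t L ?_ h hx hN
  intro E' u' h' hmem hN' hdiag
  have hA : Adp E' u' := ⟨h', hmem, hdiag⟩
  have hN'' : NN u' (oo m) ≠ 0 := hN'
  have h1 := hA.defect_eq hN'' ϖ t hL
  have h2 := H _ (hA.good hm hN'')
  have h3 : 0 ≤ defect ϖ t L u' (oo m) := by
    rw [h1]
    exact mul_nonneg (Real.rpow_nonneg (Real.sqrt_nonneg _) _) h2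
  exact h3

end OPC
end
end
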