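import Pool.Agent.Lib.MP_9059b8_an.Psd5
import Pool.Agent.Lib.MP_9059b8_an.P11

section

/-!
# Packed polynomials VI: collecting the elements by key; small coefficients bound the value
-/

namespace OPC.Psd

variable {v : ℕ}

/-- list of elements -/
inductive EL where
  | nil : EL
  | cons (key : ℕ) (a : ℤ) (d n : ℕ) (t : EL) : EL

/-- flatten a tree -/
noncomputable def flat (z : Z) : EL → EL :=
  Z.rec (fun acc => acc) (fun k a d n acc => EL.cons k a d n acc)
    (fun _ _ ih1 ih2 acc => ih1 (ih2 acc)) z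

noncomputable def ELlt (K : ℕ) (L : EL) : EL :=
  EL.rec EL.nil (fun k a d n _ ih => Bool.rec ih (EL.cons k a d n ih) (Nat.ble (Nat.succ k) K)) L

noncomputable def ELge (K : ℕ) (L : EL) : EL :=
  EL.rec EL.nil (fun k a d n _ ih => Bool.rec (EL.cons k a d n ih) ih (Nat.ble (Nat.succ k) K)) L

inductive KT where
  | leaf (vs : List ℕ) : KT
  | node (K : ℕ) (l r : KT) : KT

/-- packed `|λ|²` -/
noncomputable def N2z (P : Par) (v : ℕ) : ℤ :=
  Nat.rec (Int.ofNat 0) (fun i ih => Int.add ih (Int.mul (la P v i) (la P v i))) (v + 2)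

noncomputable def N2n (v : ℕ) : ℕ :=
  Nat.rec 0 (fun i ih => Nat.add ih (Nat.mul (ln v i) (ln v i))) (v + 2)

noncomputable def N2p (P : Par) (v k : ℕ) : ℤ :=
  Nat.rec (Int.ofNat 1) (fun _ ih => Int.mul ih (N2z P v)) k

/-- sum of the lifted coefficients of the elements whose degree has the parity of `D` -/
noncomputable def sumP (P : Par) (v D : ℕ) (L : EL) : ℤ :=
  EL.rec (Int.ofNat 0) (fun _ a d _ _ ih =>
    Bool.rec ih (Int.add (Int.mul a (N2p P v (Nat.div (Nat.sub D d) 2))) ih)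
      (Nat.beq (Nat.mod d 2) (Nat.mod D 2))) L

noncomputable def sumN (v D : ℕ) (L : EL) : ℕ :=
  EL.rec 0 (fun _ _ d n _ ih =>
    Bool.rec ih (Nat.add (Nat.mul n (Nat.pow (N2n v) (Nat.div (Nat.sub D d) 2))) ih)
      (Nat.beq (Nat.mod d 2) (Nat.mod D 2))) L

/-- all keys are `K` and all degrees are at most `D` (even) or `E` (odd) -/
noncomputable def allOK (K D E : ℕ) (L : EL) : Bool :=
  EL.rec true (fun k _ d _ _ ih => Bool.and (Nat.beq k K)
    (Bool.and (Bool.rec (Nat.ble d E) (Nat.ble d D) (Nat.beq (Nat.mod d 2) 0)) ih)) L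

/-- key of a list of variables -/
noncomputable def kvs (nz : ℕ) (vs : List ℕ) : ℕ :=
  List.rec 0 (fun i _ ih => Nat.add (Nat.add (Nat.pow 8 i) (Nat.pow 8 nz)) ih) vs

/-- number of big variables `≥ c` -/
noncomputable def nbig (c : ℕ) (vs : List ℕ) : ℕ :=
  List.rec 0 (fun i _ ih => Bool.rec ih (Nat.succ ih) (Nat.ble c i)) vs

noncomputable def memB (i : ℕ) (B : List ℕ) : Bool :=
  List.rec false (fun j _ ih => Bool.or (Nat.beq i j) ih) B

/-- every variable is `< c` or in the list `B` -/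
noncomputable def vsOK (c : ℕ) (B : List ℕ) (vs : List ℕ) : Bool :=
  List.rec true (fun i _ ih => Bool.and (Bool.rec (memB i B) true (Nat.ble (Nat.succ i) c)) ih) vs

/-- data of the check -/
structure CD where
  P : Par
  v : ℕ
  D : ℕ
  E : ℕ
  c : ℕ
  B : List ℕ

noncomputable def leafOK (Q : CD) (vs : List ℕ) (L : EL) : Bool :=
  Bool.and (allOK (kvs (nzv Q.v) vs) Q.D Q.E L)
    (Bool.and (Nat.ble (Nat.succ (List.length vs)) 8)
      (Bool.and (Nat.ble (nbig (Nat.add Q.v 3) vs) 2)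
        (Bool.and (vsOK (Nat.add Q.v 3) Q.B vs)
          (Bool.and
            (Bool.and (Nat.ble (Nat.succ (sumN Q.v Q.D L)) (Nat.pow 2 (Nat.sub Q.P.w 1)))
              (smallZ (Nat.pow 2 Q.P.w) Q.c (Nat.pow Q.P.sl Q.v) (sumP Q.P Q.v Q.D L)))
            (Bool.and (Nat.ble (Nat.succ (sumN Q.v Q.E L)) (Nat.pow 2 (Nat.sub Q.P.w 1)))
              (smallZ (Nat.pow 2 Q.P.w) Q.c (Nat.pow Q.P.sl Q.v) (sumP Q.P Q.v Q.E L)))))))

noncomputable def treeOK (Q : CD) (t : KT) : EL → Bool :=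
  KT.rec (fun vs L => leafOK Q vs L)
    (fun K _ _ ih1 ih2 L => Bool.and (ih1 (ELlt K L)) (ih2 (ELge K L))) t

noncomputable def nleaf (t : KT) : ℕ := KT.rec (fun _ => 1) (fun _ _ _ a b => Nat.add a b) t

/-! ### soundness -/

/-- relation for lists -/
def RL {nz : ℕ} (P : Par) (x : Fin (v + 2) → ℝ) (ζ : Fin nz → ℝ) : EL → ℝ → Prop
  | .nil, t => t = 0
  | .cons key a d n L, t => ∃ (s : ℝ) (e : Fin nz → ℕ) (t' : ℝ),
      RC P x a d n s ∧ kz e = key ∧ RL P x ζ L t' ∧ t = s * mz ζ e + t'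

section

variable {nz : ℕ} {P : Par} {x : Fin (v + 2) → ℝ} {ζ : Fin nz → ℝ}

theorem rl_flat {z : Z} {L : EL} {s t : ℝ} (h : RZ P x ζ z s) (h' : RL P x ζ L t) :
    RL P x ζ (flat z L) (s + t) := by
  induction z generalizing L s t with
  | nil =>
    have h0 : s = 0 := h
    rw [h0, zero_add]
    exact h'
  | el k a d n =>
    obtain ⟨s1, e, h1, h2, h3⟩ := h
    exact ⟨s1, e, t, h1, h2, h', by rw [h3]⟩
  | add p q ihp ihq =>
    obtain ⟨s1, s2, h1, h2, h3⟩ := h
    have h4 := ihp h1 (ihq h2 h')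
    rw [h3, add_assoc]
    exact h4

theorem rl_split (K : ℕ) {L : EL} {t : ℝ} (h : RL P x ζ L t) :
    ∃ t1 t2, RL P x ζ (ELlt K L) t1 ∧ RL P x ζ (ELge K L) t2 ∧ t = t1 + t2 := by
  induction L generalizing t with
  | nil => exact ⟨0, 0, rfl, rfl, by rw [show t = 0 from h, zero_add]⟩
  | cons k a d n L ih =>
    obtain ⟨s, e, t', h1, h2, h3, h4⟩ := h
    obtain ⟨t1, t2, g1, g2, g3⟩ := ih h3
    have e1 : ELlt K (EL.cons k a d n L) =
      Bool.rec (ELlt K L) (EL.cons k a d n (ELlt K L)) (Nat.ble (Nat.succ k) K) := rfl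
    have e2 : ELge K (EL.cons k a d n L) =
      Bool.rec (EL.cons k a d n (ELge K L)) (ELge K L) (Nat.ble (Nat.succ k) K) := rfl
    rw [e1, e2]
    rcases Nat.ble (Nat.succ k) K with _ | _
    · exact ⟨t1, s * mz ζ e + t2, g1, ⟨s, e, t2, h1, h2, g2, rfl⟩, by rw [h4, g3]; ring⟩
    · exact ⟨s * mz ζ e + t1, t2, ⟨s, e, t1, h1, h2, g1, rfl⟩, g2, by rw [h4, g3]; ring⟩

end

section

variable {P : Par} {X : LS ℝ (v + 2)} (hX : SymLS X) (hN : ∑ i, X.l i ^ 2 = 1)

include hX in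
theorem rc_N2 : RC P (xt X) (N2z P v) 2 (N2n v) (∑ i, X.l i ^ 2) := by
  have key : ∀ n (hn : n ≤ v + 2), RC P (xt X)
      (Nat.rec (Int.ofNat 0) (fun i ih => Int.add ih (Int.mul (la P v i) (la P v i))) n : ℤ) 2
      (Nat.rec 0 (fun i ih => Nat.add ih (Nat.mul (ln v i) (ln v i))) n : ℕ)
      (∑ i : Fin n, X.l ⟨i, by omega⟩ ^ 2) := by
    intro n
    induction n with
    | zero =>
      intro _
      have := RC.zero P (xt X) 2
      simpa using this
    | succ n ih =>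
      intro hn
      rw [Fin.sum_univ_castSucc]
      have h1 := ih (by omega)
      have h2 := (rc_la (P := P) hX ⟨n, by omega⟩).mul (rc_la (P := P) hX ⟨n, by omega⟩)
      have h3 := h1.add h2
      have e : X.l (⟨n, by omega⟩ : Fin (v + 2)) ^ 2 =
        X.l ⟨n, by omega⟩ * X.l ⟨n, by omega⟩ := sq _
      refine Eq.mp ?_ h3
      congr 1
      rw [← e]
      rfl
  exact key (v + 2) le_rfl

include hX hN in
theorem rc_lift {a : ℤ} {d n : ℕ} {t : ℝ} (h : RC P (xt X) a d n t) (k : ℕ) :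
    RC P (xt X) (Int.mul a (N2p P v k)) (d + 2 * k) (Nat.mul n (Nat.pow (N2n v) k)) t := by
  have h1 : ∀ k, RC P (xt X) (N2p P v k) (2 * k) (Nat.pow (N2n v) k) 1 := by
    intro k
    induction k with
    | zero =>
      have := RC.const P (xt X) 1
      simpa [N2p] using this
    | succ k ih =>
      have h2 := ih.mul (rc_N2 (P := P) hX)
      rw [hN, mul_one] at h2
      exact h2
  have h2 := h.mul (h1 k)
  rw [mul_one] at h2
  exact h2

include hX hN in
theorem rc_sumP {nz : ℕ} {ζ : Fin nz → ℝ} {D E K : ℕ} (hD : D % 2 = 0) (hE : E % 2 = 1)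
    (hK : K < 8 * 8 ^ nz) {L : EL} {t : ℝ} (h : RL P (xt X) ζ L t) (hL : allOK K D E L = true)
    {e0 : Fin nz → ℕ} (he0 : kz e0 = K) :
    ∃ s1 s2, RC P (xt X) (sumP P v D L) D (sumN v D L) s1 ∧
      RC P (xt X) (sumP P v E L) E (sumN v E L) s2 ∧ t = (s1 + s2) * mz ζ e0 := by
  induction L generalizing t with
  | nil =>
    refine ⟨0, 0, RC.zero _ _ _, RC.zero _ _ _, ?_⟩
    rw [show t = 0 from h]
    ring
  | cons k a d n L ih =>
    obtain ⟨s, e, t', h1, h2, h3, h4⟩ := h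
    have hL' : (Nat.beq k K && ((Bool.rec (Nat.ble d E) (Nat.ble d D) (Nat.beq (d % 2) 0)) &&
        allOK K D E L)) = true := hL
    rw [Bool.and_eq_true, Bool.and_eq_true] at hL'
    obtain ⟨hk, hd, hL2⟩ := hL'
    have hk' : k = K := Nat.eq_of_beq_eq_true hk
    obtain ⟨s1, s2, g1, g2, g3⟩ := ih h3 hL2
    have he : e = e0 := kz_inj (h2.trans hk') he0 hK
    have e1 : ∀ D', sumP P v D' (EL.cons k a d n L) = Bool.rec (sumP P v D' L)
        (Int.add (Int.mul a (N2p P v (Nat.div (Nat.sub D' d) 2))) (sumP P v D' L))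
        (Nat.beq (Nat.mod d 2) (Nat.mod D' 2)) := fun _ => rfl
    have e2 : ∀ D', sumN v D' (EL.cons k a d n L) = Bool.rec (sumN v D' L)
        (Nat.add (Nat.mul n (Nat.pow (N2n v) (Nat.div (Nat.sub D' d) 2))) (sumN v D' L))
        (Nat.beq (Nat.mod d 2) (Nat.mod D' 2)) := fun _ => rfl
    rw [e1, e2, e1, e2]
    rcases Nat.mod_two_eq_zero_or_one d with hd2 | hd2
    · have b1 : Nat.beq (Nat.mod d 2) (Nat.mod D 2) = true := by
        show Nat.beq (d % 2) (D % 2) = true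
        rw [hd2, hD]
        rfl
      have b2 : Nat.beq (Nat.mod d 2) (Nat.mod E 2) = false := by
        show Nat.beq (d % 2) (E % 2) = false
        rw [hd2, hE]
        rfl
      rw [b1, b2]
      rw [hd2] at hd
      have hd3 : d ≤ D := Nat.le_of_ble_eq_true hd
      have hl := rc_lift hX hN h1 (Nat.div (Nat.sub D d) 2)
      have e3 : d + 2 * (Nat.div (Nat.sub D d) 2) = D := by
        show d + 2 * ((D - d) / 2) = D
        omega
      rw [e3] at hl
      refine ⟨s + s1, s2, hl.add g1, g2, ?_⟩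
      rw [h4, g3, he]
      ring
    · have b1 : Nat.beq (Nat.mod d 2) (Nat.mod D 2) = false := by
        show Nat.beq (d % 2) (D % 2) = false
        rw [hd2, hD]
        rfl
      have b2 : Nat.beq (Nat.mod d 2) (Nat.mod E 2) = true := by
        show Nat.beq (d % 2) (E % 2) = true
        rw [hd2, hE]
        rfl
      rw [b1, b2]
      rw [hd2] at hd
      have hd3 : d ≤ E := Nat.le_of_ble_eq_true hd
      have hl := rc_lift hX hN h1 (Nat.div (Nat.sub E d) 2)
      have e3 : d + 2 * (Nat.div (Nat.sub E d) 2) = E := by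
        show d + 2 * ((E - d) / 2) = E
        omega
      rw [e3] at hl
      refine ⟨s1, s + s2, g1, hl.add g2, ?_⟩
      rw [h4, g3, he]
      ring

end

/-! ### lists of variables -/

/-- exponent vector of a list of variables -/
def evs {nz : ℕ} (vs : List ℕ) : Fin nz → ℕ := fun i => vs.count (i : ℕ)

theorem kz_evs {nz : ℕ} : ∀ (vs : List ℕ), (∀ i ∈ vs, i < nz) →
    kz (evs vs : Fin nz → ℕ) = kvs nz vs := by
  intro vs
  induction vs with
  | nil => intro _; simp [kz, evs, kvs]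
  | cons i vs ih =>
    intro h
    have hi := h i (List.mem_cons_self ..)
    have ih' := ih fun j hj => h j (List.mem_cons_of_mem _ hj)
    have e1 : kvs nz (i :: vs) = (8 ^ i + 8 ^ nz) + kvs nz vs := rfl
    have e2 : (evs (i :: vs) : Fin nz → ℕ) = Pi.single ⟨i, hi⟩ 1 + evs vs := by
      funext j
      rw [Pi.add_apply]
      unfold evs
      rw [List.count_cons]
      by_cases hj : j = ⟨i, hi⟩
      · subst hj
        simp
        ring
      · have : ¬ (i == (j : ℕ)) = true := by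
          rw [beq_iff_eq]
          intro h'
          exact hj (Fin.ext h'.symm)
        rw [Pi.single_eq_of_ne hj]
        simp [this]
    rw [e2, kz_add, ih', e1]
    congr 1
    unfold kz
    rw [Finset.sum_eq_single (⟨i, hi⟩ : Fin nz)]
    · simp
    · intro j _ hj
      rw [Pi.single_eq_of_ne hj, zero_mul]
    · simp

theorem mz_evs {nz : ℕ} (ζ : Fin nz → ℝ) : ∀ (vs : List ℕ) (h : ∀ i ∈ vs, i < nz),
    mz ζ (evs vs) = (vs.pmap (fun i hi => ζ ⟨i, hi⟩) h).prod := by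
  intro vs
  induction vs with
  | nil => intro _; simp [mz, evs]
  | cons i vs ih =>
    intro h
    have hi := h i (List.mem_cons_self ..)
    have ih' := ih fun j hj => h j (List.mem_cons_of_mem _ hj)
    have e2 : (evs (i :: vs) : Fin nz → ℕ) = Pi.single ⟨i, hi⟩ 1 + evs vs := by
      funext j
      rw [Pi.add_apply]
      unfold evs
      rw [List.count_cons]
      by_cases hj : j = ⟨i, hi⟩
      · subst hj
        simp
        ring
      · have : ¬ (i == (j : ℕ)) = true := by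
          rw [beq_iff_eq]
          intro h'
          exact hj (Fin.ext h'.symm)
        rw [Pi.single_eq_of_ne hj]
        simp [this]
    rw [e2, mz_add, ih', List.pmap_cons, List.prod_cons]
    congr 1
    unfold mz
    rw [Finset.prod_eq_single (⟨i, hi⟩ : Fin nz)]
    · simp
    · intro j _ hj
      rw [Pi.single_eq_of_ne hj, pow_zero]
    · simp

theorem memB_spec {i : ℕ} {B : List ℕ} (h : memB i B = true) : i ∈ B := by
  induction B with
  | nil => exact absurd h (by simp [memB])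
  | cons j B ih =>
    have h' : (Nat.beq i j || memB i B) = true := h
    rw [Bool.or_eq_true] at h'
    rcases h' with h' | h'
    · rw [Nat.eq_of_beq_eq_true h']
      exact List.mem_cons_self ..
    · exact List.mem_cons_of_mem _ (ih h')

/-- bound of a monomial by the big variables: `S = ∑_{B} ζ²` -/
theorem mz_bound {nz c : ℕ} {ζ : Fin nz → ℝ} {B : List ℕ} {S : ℝ} (hS : 0 ≤ S)
    (hsmall : ∀ i : Fin nz, (i : ℕ) < c → |ζ i| ≤ 1)
    (hbig : ∀ i : Fin nz, (i : ℕ) ∈ B → ζ i ^ 2 ≤ S) :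
    ∀ (vs : List ℕ) (_ : vsOK c B vs = true) (h : ∀ i ∈ vs, i < nz),
      |(vs.pmap (fun i hi => ζ ⟨i, hi⟩) h).prod| ≤ √S ^ nbig c vs := by
  intro vs
  induction vs with
  | nil => intro _ _; simp [nbig]
  | cons i vs ih =>
    intro hok h
    have hok' : ((Bool.rec (memB i B) true (Nat.ble (Nat.succ i) c)) && vsOK c B vs) = true := hok
    rw [Bool.and_eq_true] at hok'
    have ih' := ih hok'.2 fun j hj => h j (List.mem_cons_of_mem _ hj)
    have e1 : nbig c (i :: vs) = Bool.rec (nbig c vs) (Nat.succ (nbig c vs)) (Nat.ble c i) := rfl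
    rw [List.pmap_cons, List.prod_cons, abs_mul, e1]
    have hi := h i (List.mem_cons_self ..)
    have hpos : 0 ≤ √S ^ nbig c vs := pow_nonneg (Real.sqrt_nonneg S) _
    rcases hb : Nat.ble (Nat.succ i) c with _ | _
    · have hci : c ≤ i := by
        by_contra hcon
        have : Nat.ble (Nat.succ i) c = true := Nat.ble_eq_true_of_le (by omega)
        rw [this] at hb
        exact absurd hb (by simp)
      have hb2 : Nat.ble c i = true := Nat.ble_eq_true_of_le hci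
      rw [hb2]
      have h1 := hok'.1
      rw [hb] at h1
      have h2 := hbig ⟨i, hi⟩ (memB_spec h1)
      have h3 : |ζ ⟨i, hi⟩| ≤ √S := Real.abs_le_sqrt h2
      show _ ≤ √S ^ (nbig c vs + 1)
      rw [pow_succ, mul_comm]
      exact mul_le_mul ih' h3 (abs_nonneg _) hpos
    · have hci : i < c := Nat.le_of_ble_eq_true hb
      have hb2 : Nat.ble c i = false := by
        rcases hb3 : Nat.ble c i with _ | _
        · rfl
        · have := Nat.le_of_ble_eq_true hb3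
          omega
      rw [hb2]
      show _ ≤ √S ^ nbig c vs
      calc |ζ ⟨i, hi⟩| * _ ≤ 1 * √S ^ nbig c vs :=
            mul_le_mul (hsmall ⟨i, hi⟩ hci) ih' (abs_nonneg _) zero_le_one
        _ = _ := one_mul _

theorem sqrt_pow_le {S : ℝ} (hS : 0 ≤ S) {k : ℕ} (hk : k ≤ 2) : √S ^ k ≤ 1 + S := by
  have h1 := Real.sq_sqrt hS
  have h2 := Real.sqrt_nonneg S
  interval_cases k
  · rw [pow_zero]; linarith
  · rw [pow_one]; nlinarith [sq_nonneg (√S - 1)]
  · rw [h1]; linarith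

theorem vsOK_lt {c nz : ℕ} {B : List ℕ} (hc : c ≤ nz) (hB : ∀ i ∈ B, i < nz) :
    ∀ (vs : List ℕ), vsOK c B vs = true → ∀ i ∈ vs, i < nz := by
  intro vs
  induction vs with
  | nil => intro _ i hi; simp at hi
  | cons j vs ih =>
    intro hok i hi
    have hok' : ((Bool.rec (memB j B) true (Nat.ble (Nat.succ j) c)) && vsOK c B vs) = true := hok
    rw [Bool.and_eq_true] at hok'
    rcases List.mem_cons.1 hi with rfl | hi
    · rcases hb : Nat.ble (Nat.succ i) c with _ | _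
      · have h1 := hok'.1
        rw [hb] at h1
        exact hB i (memB_spec h1)
      · exact lt_of_lt_of_le (Nat.le_of_ble_eq_true hb) hc
    · exact ih hok'.2 i hi

theorem kvs_lt {nz : ℕ} : ∀ (vs : List ℕ), (∀ i ∈ vs, i < nz) → vs.length < 8 →
    kvs nz vs < 8 * 8 ^ nz := by
  intro vs h hl
  rw [← kz_evs vs h, kz_eq]
  have h1 : ∑ i, (evs vs : Fin nz → ℕ) i ≤ vs.length := by
    clear hl
    induction vs with
    | nil => simp [evs]
    | cons i vs ih =>
      have hi := h i (List.mem_cons_self ..)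
      have ih' := ih fun j hj => h j (List.mem_cons_of_mem _ hj)
      have e2 : (evs (i :: vs) : Fin nz → ℕ) = Pi.single ⟨i, hi⟩ 1 + evs vs := by
        funext j
        rw [Pi.add_apply]
        unfold evs
        rw [List.count_cons]
        by_cases hj : j = ⟨i, hi⟩
        · subst hj
          simp
          ring
        · have : ¬ (i == (j : ℕ)) = true := by
            rw [beq_iff_eq]
            intro h'
            exact hj (Fin.ext h'.symm)
          rw [Pi.single_eq_of_ne hj]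
          simp [this]
      rw [e2]
      simp only [Pi.add_apply, Finset.sum_add_distrib, List.length_cons]
      have e3 : ∑ j, (Pi.single (⟨i, hi⟩ : Fin nz) 1 : Fin nz → ℕ) j = 1 := by
        rw [Finset.sum_eq_single (⟨i, hi⟩ : Fin nz)]
        · simp
        · intro j _ hj
          rw [Pi.single_eq_of_ne hj]
        · simp
      omega
  have h2 : ∀ i, (evs vs : Fin nz → ℕ) i < 8 := by
    intro i
    refine lt_of_le_of_lt ?_ hl
    exact le_trans (Finset.single_le_sum (f := (evs vs : Fin nz → ℕ)) (fun _ _ => Nat.zero_le _)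
      (Finset.mem_univ i)) h1
  have h3 := low_lt _ h2
  calc 8 ^ nz * (∑ i, (evs vs : Fin nz → ℕ) i) + ∑ i, (evs vs : Fin nz → ℕ) i * 8 ^ (i : ℕ)
      < 8 ^ nz * (∑ i, (evs vs : Fin nz → ℕ) i) + 8 ^ nz := Nat.add_lt_add_left h3 _
    _ = 8 ^ nz * ((∑ i, (evs vs : Fin nz → ℕ) i) + 1) := by ring
    _ ≤ 8 ^ nz * 8 := Nat.mul_le_mul_left _ (by omega)
    _ = 8 * 8 ^ nz := by ring

end OPC.Psd
end

section

/-!
# Packed polynomials VII: the bound from the tree check; sums of squares of packed rows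
-/

namespace OPC.Psd

variable {v : ℕ}

section Tree

variable {X : LS ℝ (v + 2)} (hX : SymLS X) (hN : ∑ i, X.l i ^ 2 = 1)

include hN in
theorem l_abs_le (i : Fin (v + 2)) : |X.l i| ≤ 1 := by
  have h1 : X.l i ^ 2 ≤ 1 := by
    rw [← hN]
    exact Finset.single_le_sum (f := fun i => X.l i ^ 2) (fun _ _ => sq_nonneg _)
      (Finset.mem_univ i)
  exact (sq_le_one_iff_abs_le_one _).1 h1

include hN in
theorem xt_abs_le (i : Fin (v + 2)) : |xt X i| ≤ 1 := by
  refine Fin.cases ?_ (fun j => ?_) i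
  · simp [xt]
  · show |X.l j.castSucc| ≤ 1
    exact l_abs_le hN _

include hN in
theorem rc_bound {P : Par} {a : ℤ} {d n c : ℕ} {s : ℝ} (hw : 2 ≤ P.w) (hc : c ≤ 2 ^ (P.w - 2))
    (hd : d < P.sl) (h : RC P (xt X) a d n s) (hn : n < 2 ^ (P.w - 1))
    (hs : smallZ (2 ^ P.w) c (P.sl ^ v) a = true) : |s| ≤ (P.sl ^ v : ℕ) * (c : ℝ) := by
  obtain ⟨A, h1, h2, h3, h4⟩ := h
  have h5 := ev_bound (w := P.w) (sg := 1) (sl := P.sl) (d := d) (dg := 0) (c := c) hw
    (xt_abs_le hN) (P := A) (fun t ht => ⟨(h1 t ht).1, by rw [(h1 t ht).2]⟩) hd zero_lt_one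
    (lt_of_le_of_lt h3 hn) hc (by rw [one_mul, h2]; exact hs)
  rw [h4]
  rw [one_mul] at h5
  exact h5

include hX hN in
theorem tree_bound (Q : CD) (hv : Q.v = v) (hw : 2 ≤ Q.P.w) (hc : Q.c ≤ 2 ^ (Q.P.w - 2))
    (hD : Q.D % 2 = 0) (hE : Q.E % 2 = 1) (hDs : Q.D < Q.P.sl) (hEs : Q.E < Q.P.sl)
    {ζ : Fin (nzv v) → ℝ} {S : ℝ} (hS : 0 ≤ S)
    (hsmall : ∀ i : Fin (nzv v), (i : ℕ) < v + 3 → |ζ i| ≤ 1)
    (hBlt : ∀ i ∈ Q.B, i < nzv v)
    (hbig : ∀ i : Fin (nzv v), (i : ℕ) ∈ Q.B → ζ i ^ 2 ≤ S) :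
    ∀ (t : KT) (L : EL) (s : ℝ), treeOK Q t L = true → RL Q.P (xt X) ζ L s →
      |s| ≤ (nleaf t : ℝ) * ((2 * (Q.P.sl ^ v * Q.c) : ℕ) * (1 + S)) := by
  subst hv
  intro t
  induction t with
  | leaf vs =>
    intro L s h hL
    have h' : (allOK (kvs (nzv Q.v) vs) Q.D Q.E L &&
      (Nat.ble (Nat.succ (List.length vs)) 8 &&
      (Nat.ble (nbig (Nat.add Q.v 3) vs) 2 &&
        (vsOK (Nat.add Q.v 3) Q.B vs &&
          ((Nat.ble (Nat.succ (sumN Q.v Q.D L)) (Nat.pow 2 (Nat.sub Q.P.w 1)) &&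
              smallZ (Nat.pow 2 Q.P.w) Q.c (Nat.pow Q.P.sl Q.v) (sumP Q.P Q.v Q.D L)) &&
            (Nat.ble (Nat.succ (sumN Q.v Q.E L)) (Nat.pow 2 (Nat.sub Q.P.w 1)) &&
              smallZ (Nat.pow 2 Q.P.w) Q.c (Nat.pow Q.P.sl Q.v) (sumP Q.P Q.v Q.E L))))))) =
        true := h
    simp only [Bool.and_eq_true] at h'
    obtain ⟨ha, hlen, hnb, hvs, ⟨hn1, hs1⟩, ⟨hn2, hs2⟩⟩ := h'
    have hnz : Q.v + 3 ≤ nzv Q.v := by
      unfold nzv
      omega
    have hlt := vsOK_lt hnz hBlt vs hvs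
    have hK := kvs_lt vs hlt (Nat.le_of_ble_eq_true hlen)
    obtain ⟨s1, s2, g1, g2, g3⟩ := rc_sumP hX hN hD hE hK hL ha (kz_evs vs hlt)
    have b1 := rc_bound hN hw hc hDs g1 (Nat.le_of_ble_eq_true hn1) hs1
    have b2 := rc_bound hN hw hc hEs g2 (Nat.le_of_ble_eq_true hn2) hs2
    have b3 : |mz ζ (evs vs)| ≤ 1 + S := by
      rw [mz_evs ζ vs hlt]
      exact (mz_bound hS hsmall hbig vs hvs hlt).trans
        (sqrt_pow_le hS (Nat.le_of_ble_eq_true hnb))
    have e1 : (nleaf (KT.leaf vs) : ℝ) = 1 := by simp [nleaf]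
    rw [e1, one_mul, g3, abs_mul]
    have b4 : |s1 + s2| ≤ (2 * (Q.P.sl ^ Q.v * Q.c) : ℕ) := by
      refine (abs_add_le _ _).trans ?_
      push_cast
      push_cast at b1 b2
      linarith
    exact mul_le_mul b4 b3 (abs_nonneg _) (Nat.cast_nonneg _)
  | node K l r ihl ihr =>
    intro L s h hL
    have h' : (treeOK Q l (ELlt K L) && treeOK Q r (ELge K L)) = true := h
    rw [Bool.and_eq_true] at h'
    obtain ⟨s1, s2, g1, g2, g3⟩ := rl_split K hL
    have b1 := ihl _ _ h'.1 g1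
    have b2 := ihr _ _ h'.2 g2
    have e1 : (nleaf (KT.node K l r) : ℝ) = nleaf l + nleaf r := by
      have : nleaf (KT.node K l r) = nleaf l + nleaf r := rfl
      rw [this]
      push_cast
      rfl
    rw [e1, add_mul, g3]
    exact (abs_add_le _ _).trans (add_le_add b1 b2)

end Tree

/-! ### rows -/

/-- expand the digits of `D` (`2^B`-adic) to the positions `tab` -/
noncomputable def exp (B : ℕ) (tab : List ℕ) : ℕ → ℕ :=
  List.rec (fun _ => 0) (fun s _ ih D =>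
    Nat.add (Nat.shiftLeft (Nat.mod D (Nat.pow 2 B)) s) (ih (Nat.shiftRight D B))) tab

noncomputable def off (B : ℕ) (tab : List ℕ) : ℕ :=
  List.rec 0 (fun s _ ih => Nat.add (Nat.shiftLeft (Nat.pow 2 (Nat.sub B 1)) s) ih) tab

noncomputable def pe (B : ℕ) (tab : List ℕ) (D : ℕ) : ℤ :=
  Int.subNatNat (exp B tab D) (off B tab)

/-- admissible positions -/
def PosOK (P : Par) (x : Fin (v + 2) → ℝ) (d : ℕ) (tab : List ℕ) : Prop :=
  ∀ s ∈ tab, ∃ t, RC P x (2 ^ s) d 1 t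

theorem rc_pe {P : Par} {x : Fin (v + 2) → ℝ} {d B : ℕ} (hB : 1 ≤ B) :
    ∀ (tab : List ℕ) (_ : PosOK P x d tab) (D : ℕ),
    ∃ t, RC P x (pe B tab D) d (tab.length * 2 ^ (B - 1)) t := by
  intro tab
  induction tab with
  | nil =>
    intro _ D
    have e : pe B [] D = 0 := rfl
    exact ⟨0, by rw [e]; simpa using RC.zero P x d⟩
  | cons s tab ih =>
    intro h D
    obtain ⟨t1, h1⟩ := ih (fun s' hs' => h s' (List.mem_cons_of_mem _ hs')) (D >>> B)
    obtain ⟨t2, h2⟩ := h s (List.mem_cons_self ..)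
    set δ : ℤ := ((D % 2 ^ B : ℕ) : ℤ) - 2 ^ (B - 1) with hδ
    have h3 := (RC.const P x δ).mul h2
    rw [zero_add, mul_one] at h3
    have hb : (2 : ℕ) ^ B = 2 * 2 ^ (B - 1) := by
      rw [← pow_succ']
      congr 1
      omega
    have hδ1 : δ.natAbs ≤ 2 ^ (B - 1) := by
      have h4 : D % 2 ^ B < 2 ^ B := Nat.mod_lt _ (by positivity)
      rw [hb] at h4
      have h5 : |δ| ≤ ((2 ^ (B - 1) : ℕ) : ℤ) := by
        rw [abs_le, hδ]
        push_cast
        constructor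
        · have : (0 : ℤ) ≤ ((D % 2 ^ B : ℕ) : ℤ) := Int.natCast_nonneg _
          push_cast at this
          linarith
        · have : ((D % (2 * 2 ^ (B - 1)) : ℕ) : ℤ) < ((2 * 2 ^ (B - 1) : ℕ) : ℤ) := by
            exact_mod_cast h4
          rw [← hb] at this
          push_cast at this
          have hb' : (2 : ℤ) ^ B = 2 * 2 ^ (B - 1) := by exact_mod_cast hb
          linarith
      rw [← Int.natCast_natAbs] at h5
      exact_mod_cast h5
    have h4 := (h3.mono hδ1).add h1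
    have e1 : δ * 2 ^ s + pe B tab (D >>> B) = pe B (s :: tab) D := by
      unfold pe
      have e2 : exp B (s :: tab) D = (D % 2 ^ B) <<< s + exp B tab (D >>> B) := rfl
      have e3 : off B (s :: tab) = (2 ^ (B - 1)) <<< s + off B tab := rfl
      rw [Int.subNatNat_eq_coe, Int.subNatNat_eq_coe, e2, e3, Nat.shiftLeft_eq, Nat.shiftLeft_eq]
      push_cast
      rw [hδ]
      push_cast
      ring
    rw [e1] at h4
    refine ⟨_, h4.mono ?_⟩
    rw [List.length_cons, Nat.add_mul, one_mul, add_comm]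

noncomputable def sumR (f : ℕ → ℤ) (rows : List ℕ) : ℤ :=
  List.rec (Int.ofNat 0) (fun D _ ih => Int.add (f D) ih) rows

theorem rc_sumR {P : Par} {x : Fin (v + 2) → ℝ} {d n : ℕ} {f : ℕ → ℤ} {F : ℕ → ℝ}
    (h : ∀ D, RC P x (f D) d n (F D)) (rows : List ℕ) :
    RC P x (sumR f rows) d (rows.length * n) (rows.map F).sum := by
  induction rows with
  | nil => simpa [sumR] using RC.zero P x d
  | cons D rows ih =>
    have h1 := (h D).add ih
    rw [List.map_cons, List.sum_cons, List.length_cons]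
    have e : (rows.length + 1) * n = n + rows.length * n := by ring
    rw [e]
    exact h1

/-- data of a block of rows -/
structure BD where
  B : ℕ
  tabA : List ℕ
  tabB : List ℕ
  lenA : ℕ
  len : ℕ
  rows : List ℕ

noncomputable def slc (Q : BD) (i D : ℕ) : ℕ :=
  Nat.mod (Nat.shiftRight D (Nat.mul i Q.len)) (Nat.pow 2 Q.len)

noncomputable def rA (Q : BD) (i D : ℕ) : ℤ := pe Q.B Q.tabA (slc Q i D)

noncomputable def rB (Q : BD) (i D : ℕ) : ℤ := pe Q.B Q.tabB (Nat.shiftRight (slc Q i D) Q.lenA)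

noncomputable def MA (P : Par) (v : ℕ) (Q : BD) (i j : ℕ) : ℤ :=
  Int.add (sumR (fun D => Int.mul (rA Q i D) (rA Q j D)) Q.rows)
    (Int.mul (N2z P v) (sumR (fun D => Int.mul (rB Q i D) (rB Q j D)) Q.rows))

noncomputable def MB (Q : BD) (i j : ℕ) : ℤ :=
  sumR (fun D => Int.add (Int.mul (rA Q i D) (rB Q j D)) (Int.mul (rB Q i D) (rA Q j D))) Q.rows

/-- norm bound for the products -/
def nM (v : ℕ) (Q : BD) : ℕ :=
  Q.rows.length * (((v + 2) ^ 3 + 2) *
    ((Q.tabA.length + Q.tabB.length) * 2 ^ (Q.B - 1)) ^ 2)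

theorem N2n_le (v : ℕ) : N2n v ≤ (v + 2) ^ 3 := by
  have key : ∀ n, (Nat.rec 0 (fun i ih => Nat.add ih (Nat.mul (ln v i) (ln v i))) n : ℕ) ≤
      n * ((v + 2) * (v + 2)) := by
    intro n
    induction n with
    | zero => simp
    | succ n ih =>
      have h1 : ln v n ≤ v + 2 := by
        unfold ln
        rcases Nat.ble n v with _ | _
        · show v + 1 ≤ v + 2
          omega
        · show 1 ≤ v + 2
          omega
      have h2 : ln v n * ln v n ≤ (v + 2) * (v + 2) := Nat.mul_le_mul h1 h1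
      show (Nat.rec 0 (fun i ih => Nat.add ih (Nat.mul (ln v i) (ln v i))) n : ℕ) +
        ln v n * ln v n ≤ _
      rw [Nat.add_mul, one_mul]
      exact Nat.add_le_add ih h2
  have := key (v + 2)
  calc N2n v ≤ (v + 2) * ((v + 2) * (v + 2)) := this
    _ = (v + 2) ^ 3 := by ring

section Rows

variable {P : Par} {X : LS ℝ (v + 2)} (hX : SymLS X) (hN : ∑ i, X.l i ^ 2 = 1)

include hX hN in
/-- the packed matrices are represented: there are row functions `V` with `∑ V_i V_j = M_ij` -/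
theorem rows_spec {Q : BD} {d : ℕ} (hB : 1 ≤ Q.B) (hA : PosOK P (xt X) (d + 1) Q.tabA)
    (hB' : PosOK P (xt X) d Q.tabB) :
    ∃ V : List (ℕ → ℝ), ∀ i j, ∃ tA tB, RC P (xt X) (MA P v Q i j) (2 * d + 2) (nM v Q) tA ∧
      RC P (xt X) (MB Q i j) (2 * d + 1) (nM v Q) tB ∧
      (V.map fun f => f i * f j).sum = tA + tB := by
  classical
  set T : ℕ := (Q.tabA.length + Q.tabB.length) * 2 ^ (Q.B - 1) with hT
  have hA1 : ∀ i D, ∃ t, RC P (xt X) (rA Q i D) (d + 1) T t := by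
    intro i D
    obtain ⟨t, ht⟩ := rc_pe hB Q.tabA hA (slc Q i D)
    refine ⟨t, ht.mono ?_⟩
    rw [hT]
    exact Nat.mul_le_mul_right _ (Nat.le_add_right _ _)
  have hB1 : ∀ i D, ∃ t, RC P (xt X) (rB Q i D) d T t := by
    intro i D
    obtain ⟨t, ht⟩ := rc_pe hB Q.tabB hB' (Nat.shiftRight (slc Q i D) Q.lenA)
    refine ⟨t, ht.mono ?_⟩
    rw [hT]
    exact Nat.mul_le_mul_right _ (Nat.le_add_left _ _)
  choose a ha using hA1
  choose b hb using hB1
  refine ⟨Q.rows.map fun D i => a i D + b i D, fun i j => ?_⟩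
  have s1 := rc_sumR (fun D => (ha i D).mul (ha j D)) Q.rows
  have s2 := rc_sumR (fun D => (hb i D).mul (hb j D)) Q.rows
  have s3 := rc_sumR (fun D => ((ha i D).mul (hb j D)).add
    (Eq.mp (by rw [add_comm d (d + 1)]) ((hb i D).mul (ha j D)))) Q.rows
  have s4 := (rc_N2 (P := P) hX).mul s2
  rw [hN, one_mul] at s4
  have e1 : 2 + (d + d) = d + 1 + (d + 1) := by ring
  rw [e1] at s4
  have s5 := s1.add s4
  have e2 : d + 1 + (d + 1) = 2 * d + 2 := by ring
  have e3 : d + 1 + d = 2 * d + 1 := by ring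
  rw [e2] at s5
  rw [e3] at s3
  refine ⟨_, _, s5.mono ?_, s3.mono ?_, ?_⟩
  · have h1 := N2n_le v
    unfold nM
    rw [← hT]
    have h2 : N2n v * (Q.rows.length * (T * T)) ≤ (v + 2) ^ 3 * (Q.rows.length * (T * T)) :=
      Nat.mul_le_mul_right _ h1
    nlinarith [Nat.zero_le (Q.rows.length * (T * T))]
  · unfold nM
    rw [← hT]
    nlinarith [Nat.zero_le (Q.rows.length * (T * T)), Nat.zero_le ((v + 2) ^ 3 *
      (Q.rows.length * (T * T)))]
  · rw [List.map_map]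
    clear s1 s2 s3 s4 s5
    induction Q.rows with
    | nil => simp
    | cons D rows ih =>
      simp only [List.map_cons, List.sum_cons, Function.comp] at ih ⊢
      rw [ih]
      ring

end Rows

end OPC.Psd
end

section

/-!
# Packed polynomials VIII: the interior inequality (I') from packed data
-/

namespace OPC.Psd

variable {v : ℕ}

/-- kernel-friendly list access -/
noncomputable def nth {α : Type} (d : α) (L : List α) : ℕ → α :=
  List.rec (fun _ => d) (fun a _ ih i => Nat.rec a (fun j _ => ih j) i) L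

section Comp

variable (P : Par) (v : ℕ)

/-- `r² = 1 - |p|² - u²` -/
noncomputable def Rz : Z :=
  Z.add (Z.const 1) (Z.smul (-1) (Z.add (Z.sum (v + 2) fun i => Z.mul (pz v i) (pz v i))
    (Z.mul (uz v) (uz v))))

noncomputable def rpow (k : ℕ) : Z := Nat.rec (Z.const 1) (fun _ ih => Z.mul (Rz v) ih) k

/-- a block: number of monomials, monomials (variables, exponent of `r`), packed Gram matrix
(lower triangle; even and odd part), norm bound -/
structure BK where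
  n : ℕ
  zs : List (List ℕ × ℕ)
  tab : List (List (ℤ × ℤ))
  nm : ℕ

noncomputable def pairZ (D E : ℕ) (K : BK) (i j : ℕ) : Z :=
  Z.add
    (Z.emul (Nat.add (kvs (nzv v) (nth ([], 0) K.zs i).1) (kvs (nzv v) (nth ([], 0) K.zs j).1))
      (nth (0, 0) (nth [] K.tab i) j).1 D K.nm
      (rpow v (Nat.div (Nat.add (nth ([], 0) K.zs i).2 (nth ([], 0) K.zs j).2) 2)))
    (Z.emul (Nat.add (kvs (nzv v) (nth ([], 0) K.zs i).1) (kvs (nzv v) (nth ([], 0) K.zs j).1))
      (nth (0, 0) (nth [] K.tab i) j).2 E K.nm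
      (rpow v (Nat.div (Nat.add (nth ([], 0) K.zs i).2 (nth ([], 0) K.zs j).2) 2)))

noncomputable def blockZ (D E : ℕ) (K : BK) (n : ℕ) : Z :=
  Nat.rec Z.nil (fun i ih => Z.add ih (Z.add (pairZ v D E K i i)
    (Z.smul 2 (Z.sum i fun j => pairZ v D E K i j)))) n

noncomputable def blocksZ (D E : ℕ) (Ks : List BK) : Z :=
  List.rec Z.nil (fun K _ ih => Z.add (Z.smul (-1) (blockZ v D E K K.n)) ih) Ks

/-- term data: the term, the integer factor, `vd * ex` -/
structure TD where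
  g : Term
  c : ℤ
  exn : ℤ

noncomputable def termZ (vd : ℤ) (t : TD) : Z :=
  Z.smul t.c (epz v t.g.ge (shapeZ P v vd t.exn t.g.facs t.g.shape))

noncomputable def termsZ (vd : ℤ) (L : List TD) : Z :=
  List.rec Z.nil (fun t _ ih => Z.add (termZ P v vd t) ih) L

noncomputable def certZ (vd c1 c2 : ℤ) (L : List TD) : Z :=
  Z.add (termsZ P v vd L) (Z.add
    (Z.smul c1 (Z.sum (v + 2) fun k => Z.mul (wz P v k) (wz P v k))) (Z.smul c2 (e2z v)))

noncomputable def slackZ (τ : ℤ) (B : List ℕ) : Z :=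
  Z.smul τ (Z.add (Z.const 1)
    (List.rec Z.nil (fun i _ ih => Z.add (Z.mul (Z.var (nzv v) i) (Z.var (nzv v) i)) ih) B))

noncomputable def totalZ (D E : ℕ) (vd c1 c2 τ : ℤ) (L : List TD) (B : List ℕ) (Ks : List BK) : Z :=
  Z.add (certZ P v vd c1 c2 L) (Z.add (slackZ v τ B) (blocksZ v D E Ks))

end Comp

section

variable {P : Par} {X : LS ℝ (v + 2)} (hX : SymLS X) (hN : ∑ i, X.l i ^ 2 = 1)


theorem rz_key {vs : List ℕ} (hvs : ∀ i ∈ vs, i < nzv v) {a : ℤ} {d n : ℕ} {t : ℝ}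
    (h : RC P (xt X) a d n t) :
    RZ P (xt X) (zt X) (Z.el (kvs (nzv v) vs) a d n) (t * mz (zt X) (evs vs)) :=
  ⟨t, evs vs, h, kz_evs vs hvs, rfl⟩

theorem rz_Rz : RZ P (xt X) (zt X) (Rz v) (1 - ∑ i, X.p i ^ 2 - X.u ^ 2) := by
  refine (RZ.add (RZ.const 1) (RZ.smul (-1) (RZ.add (RZ.sum fun i => RZ.mul (rz_pz i) (rz_pz i))
    (RZ.mul rz_uz rz_uz)))).congr ?_
  simp only [sq]
  push_cast
  ring

theorem rz_rpow (k : ℕ) : RZ P (xt X) (zt X) (rpow v k) ((1 - ∑ i, X.p i ^ 2 - X.u ^ 2) ^ k) := by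
  induction k with
  | zero => exact (RZ.const 1).congr (by simp)
  | succ k ih => exact (RZ.mul rz_Rz ih).congr (by rw [pow_succ]; ring)

/-- the value of the monomial `i` of a block -/
noncomputable def zval (X : LS ℝ (v + 2)) (K : BK) (i : ℕ) : ℝ :=
  mz (zt X) (evs (nth ([], 0) K.zs i).1) *
    √(1 - ∑ i, X.p i ^ 2 - X.u ^ 2) ^ (nth ([], 0) K.zs i).2

/-- a block is represented by rows -/
def BlockOK (P : Par) (D E : ℕ) (K : BK) (X : LS ℝ (v + 2)) : Prop :=
  ∃ V : List (ℕ → ℝ), ∀ i < K.n, ∀ j ≤ i, ∃ tA tB,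
    RC P (xt X) (nth (0, 0) (nth [] K.tab i) j).1 D K.nm tA ∧
    RC P (xt X) (nth (0, 0) (nth [] K.tab i) j).2 E K.nm tB ∧
    (V.map fun f => f i * f j).sum = tA + tB

/-- shape conditions on a block -/
structure BKok (v c : ℕ) (B : List ℕ) (K : BK) : Prop where
  vs : ∀ i, vsOK c B (nth ([], 0) K.zs i).1 = true
  par : ∀ i < K.n, ∀ j ≤ i, ((nth ([], 0) K.zs i).2 + (nth ([], 0) K.zs j).2) % 2 = 0

theorem rz_pairZ {D E : ℕ} {K : BK} {i j : ℕ} (hr : ∑ i, X.p i ^ 2 + X.u ^ 2 ≤ 1)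
    (hi : ∀ k ∈ (nth ([], 0) K.zs i).1, k < nzv v) (hj : ∀ k ∈ (nth ([], 0) K.zs j).1, k < nzv v)
    (hp : ((nth ([], 0) K.zs i).2 + (nth ([], 0) K.zs j).2) % 2 = 0) {tA tB : ℝ}
    (hA : RC P (xt X) (nth (0, 0) (nth [] K.tab i) j).1 D K.nm tA)
    (hB : RC P (xt X) (nth (0, 0) (nth [] K.tab i) j).2 E K.nm tB) :
    RZ P (xt X) (zt X) (pairZ v D E K i j) ((tA + tB) * (zval X K i * zval X K j)) := by
  have hk : ∀ {a : ℤ} {d n : ℕ} {t : ℝ}, RC P (xt X) a d n t →
      RZ P (xt X) (zt X) (Z.el (Nat.add (kvs (nzv v) (nth ([], 0) K.zs i).1) (kvs (nzv v) (nth ([], 0) K.zs j).1))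
        a d n) (t * (mz (zt X) (evs (nth ([], 0) K.zs i).1) *
          mz (zt X) (evs (nth ([], 0) K.zs j).1))) := by
    intro a d n t h
    refine ⟨t, evs (nth ([], 0) K.zs i).1 + evs (nth ([], 0) K.zs j).1, h, ?_, ?_⟩
    · rw [kz_add, kz_evs _ hi, kz_evs _ hj]
      rfl
    · rw [mz_add]
  refine (RZ.add (RZ.emul (hk hA) (rz_rpow _)) (RZ.emul (hk hB) (rz_rpow _))).congr ?_
  have hr' : 0 ≤ 1 - ∑ i, X.p i ^ 2 - X.u ^ 2 := by linarith
  have hsq := Real.sq_sqrt hr'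
  set ρ := 1 - ∑ i, X.p i ^ 2 - X.u ^ 2
  have e1 : ρ ^ (Nat.div (Nat.add (nth ([], 0) K.zs i).2 (nth ([], 0) K.zs j).2) 2) =
      √ρ ^ (nth ([], 0) K.zs i).2 * √ρ ^ (nth ([], 0) K.zs j).2 := by
    rw [← pow_add]
    conv_lhs => rw [← hsq]
    rw [← pow_mul]
    congr 1
    show 2 * (((nth ([], 0) K.zs i).2 + (nth ([], 0) K.zs j).2) / 2) = _
    omega
  rw [e1]
  unfold zval
  ring

theorem rz_blockZ {c D E : ℕ} {B : List ℕ} {K : BK} (hr : ∑ i, X.p i ^ 2 + X.u ^ 2 ≤ 1)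
    (hc : c ≤ nzv v) (hBlt : ∀ i ∈ B, i < nzv v) (hK : BKok v c B K) (hOK : BlockOK P D E K X) :
    ∃ q : ℝ, 0 ≤ q ∧ RZ P (xt X) (zt X) (blockZ v D E K K.n) q := by
  obtain ⟨V, hV⟩ := hOK
  have key : ∀ n ≤ K.n, RZ P (xt X) (zt X) (blockZ v D E K n)
      (V.map fun f => (∑ i : Fin n, f i * zval X K i) ^ 2).sum := by
    intro n
    induction n with
    | zero =>
      intro _
      refine RZ.nil.congr ?_
      induction V with
      | nil => simp
      | cons f V ih => simp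
    | succ n ih =>
      intro hn
      have h1 := ih (by omega)
      have hlt : ∀ i, ∀ k ∈ (nth ([], 0) K.zs i).1, k < nzv v :=
        fun i => vsOK_lt hc hBlt _ (hK.vs i)
      obtain ⟨tA, tB, g1, g2, g3⟩ := hV n (by omega) n le_rfl
      have h2 := rz_pairZ hr (hlt n) (hlt n) (hK.par n (by omega) n le_rfl) g1 g2
      rw [← g3] at h2
      have h3 : RZ P (xt X) (zt X) (Z.sum n fun j => pairZ v D E K n j)
          (∑ j : Fin n, (V.map fun f => f n * f j).sum * (zval X K n * zval X K j)) := by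
        apply RZ.sum
        intro j
        obtain ⟨tA, tB, g1, g2, g3⟩ := hV n (by omega) j j.isLt.le
        have h2 := rz_pairZ hr (hlt n) (hlt j) (hK.par n (by omega) j j.isLt.le) g1 g2
        rw [← g3] at h2
        exact h2
      refine (RZ.add h1 (RZ.add h2 (RZ.smul 2 h3))).congr ?_
      have e1 : ∀ f : ℕ → ℝ, (∑ i : Fin (n + 1), f i * zval X K i) ^ 2 =
          (∑ i : Fin n, f i * zval X K i) ^ 2 + (f n * f n * (zval X K n * zval X K n) +
            2 * ∑ j : Fin n, f n * f j * (zval X K n * zval X K j)) := by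
        intro f
        rw [Fin.sum_univ_castSucc]
        have : ∑ j : Fin n, f n * f j * (zval X K n * zval X K j) =
            f n * zval X K n * ∑ i : Fin n, f i * zval X K i := by
          rw [Finset.mul_sum]
          exact Finset.sum_congr rfl fun j _ => by ring
        rw [this]
        simp only [Fin.val_castSucc, Fin.val_last]
        ring
      simp only [e1]
      clear hV h1 h2 h3 g1 g2 g3 tA tB ih
      induction V with
      | nil => simp
      | cons f V ih =>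
        simp only [List.map_cons, List.sum_cons]
        rw [← ih]
        have e2 : ∑ j : Fin n, (f n * f j + (V.map fun f => f n * f j).sum) *
            (zval X K n * zval X K j) = ∑ j : Fin n, f n * f j * (zval X K n * zval X K j) +
            ∑ j : Fin n, (V.map fun f => f n * f j).sum * (zval X K n * zval X K j) := by
          rw [← Finset.sum_add_distrib]
          exact Finset.sum_congr rfl fun j _ => by ring
        rw [e2]
        push_cast
        ring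
  refine ⟨_, ?_, key K.n le_rfl⟩
  apply List.sum_nonneg
  intro x hx
  rw [List.mem_map] at hx
  obtain ⟨f, _, rfl⟩ := hx
  exact sq_nonneg _

theorem rz_blocksZ {c D E : ℕ} {B : List ℕ} {Ks : List BK} (hr : ∑ i, X.p i ^ 2 + X.u ^ 2 ≤ 1)
    (hc : c ≤ nzv v) (hBlt : ∀ i ∈ B, i < nzv v) (hK : ∀ K ∈ Ks, BKok v c B K)
    (hOK : ∀ K ∈ Ks, BlockOK P D E K X) :
    ∃ q : ℝ, 0 ≤ q ∧ RZ P (xt X) (zt X) (blocksZ v D E Ks) (-q) := by
  induction Ks with
  | nil => exact ⟨0, le_rfl, RZ.nil.congr (by simp)⟩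
  | cons K Ks ih =>
    obtain ⟨q, hq, h1⟩ := ih (fun K' h => hK K' (List.mem_cons_of_mem _ h))
      (fun K' h => hOK K' (List.mem_cons_of_mem _ h))
    obtain ⟨q', hq', h2⟩ := rz_blockZ hr hc hBlt (hK K (List.mem_cons_self ..))
      (hOK K (List.mem_cons_self ..))
    refine ⟨q' + q, add_nonneg hq' hq, (RZ.add (RZ.smul (-1) h2) h1).congr ?_⟩
    push_cast
    ring

/-- condition linking term data to the rational term -/
structure TDok (C vd : ℤ) (ϖ : ℚ) (t : TD) : Prop where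
  c : (t.c : ℚ) * (vd * sdbl t.g.shape) = C * t.g.coef
  ex : (t.exn : ℚ) = vd * t.g.ex ϖ
  h2 : ∀ a b c, t.g.shape ≠ Shape.h2 a b c

theorem rz_epz {q : Z} {t : ℝ} (ge : ℕ) (hq : RZ P (xt X) (zt X) q t) : RZ P (xt X) (zt X) (epz v ge q) (X.eps ^ ge * t) := by
  induction ge with
  | zero => exact hq.congr (by simp)
  | succ n ih => exact (RZ.mul rz_ez ih).congr (by rw [pow_succ]; ring)

include hX in
theorem rz_termZ {C vd : ℤ} {ϖ : ℚ} {t : TD} (ht : TDok C vd ϖ t) :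
    RZ P (xt X) (zt X) (termZ P v vd t) ((C : ℝ) * t.g.ldiv ϖ X) := by
  refine (RZ.smul t.c (rz_epz t.g.ge (rz_shapeZ hX t.g ht.h2 ht.ex))).congr ?_
  unfold Term.ldiv
  have h1 : (t.c : ℝ) * (vd * sdbl t.g.shape) = C * algebraMap ℚ ℝ t.g.coef := by
    rw [eq_ratCast]
    exact_mod_cast congrArg (fun q : ℚ => (q : ℝ)) ht.c
  generalize Shape.ldiv X _ _ _ = W
  calc (t.c : ℝ) * (X.eps ^ t.g.ge * ((vd : ℝ) * (sdbl t.g.shape : ℝ) * W))
      = ((t.c : ℝ) * (vd * sdbl t.g.shape)) * X.eps ^ t.g.ge * W := by ring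
    _ = _ := by rw [h1]; ring

include hX in
theorem rz_termsZ {C vd : ℤ} {ϖ : ℚ} {L : List TD} (hL : ∀ t ∈ L, TDok C vd ϖ t) :
    RZ P (xt X) (zt X) (termsZ P v vd L) ((C : ℝ) * ((L.map (·.g)).map fun g => g.ldiv ϖ X).sum) := by
  induction L with
  | nil => exact RZ.nil.congr (by simp)
  | cons t L ih =>
    refine (RZ.add (rz_termZ hX (hL t (List.mem_cons_self ..)))
      (ih fun t' h => hL t' (List.mem_cons_of_mem _ h))).congr ?_
    simp only [List.map_cons, List.sum_cons]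
    ring

include hX in
theorem rz_certZ {C vd c1 c2 : ℤ} {ϖ t : ℚ} {L : List TD} (hL : ∀ t ∈ L, TDok C vd ϖ t)
    (h1 : (c1 : ℚ) = -(C * (ϖ ^ 2 / 4)))
    (h2 : (c2 : ℚ) = -(C * ((((v + 2 : ℕ) : ℚ) - 1) ^ 2 / 4 + t))) :
    RZ P (xt X) (zt X) (certZ P v vd c1 c2 L) ((C : ℝ) * certPoly ϖ t (L.map (·.g)) X) := by
  refine (RZ.add (rz_termsZ hX hL) (RZ.add
    (RZ.smul c1 (RZ.sum fun k => RZ.mul (rz_wz hX k) (rz_wz hX k))) (RZ.smul c2 rz_e2z))).congr ?_
  have h1' : (c1 : ℝ) = -(C * algebraMap ℚ ℝ (ϖ ^ 2 / 4)) := by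
    rw [eq_ratCast]
    exact_mod_cast congrArg (fun q : ℚ => (q : ℝ)) h1
  have h2' : (c2 : ℝ) = -(C * algebraMap ℚ ℝ ((((v + 2 : ℕ) : ℚ) - 1) ^ 2 / 4 + t)) := by
    rw [eq_ratCast]
    exact_mod_cast congrArg (fun q : ℚ => (q : ℝ)) h2
  unfold certPoly
  rw [h1', h2']
  have e : ∑ k, X.w k * X.w k = ∑ k, X.w k ^ 2 := Finset.sum_congr rfl fun k _ => (sq _).symm
  rw [e]
  ring

/-- `∑_{i ∈ B} ζ_i²` -/
noncomputable def Sbig (X : LS ℝ (v + 2)) (B : List ℕ) : ℝ :=
  (B.map fun i => (if h : i < nzv v then zt X ⟨i, h⟩ else 0) ^ 2).sum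

theorem Sbig_nonneg (X : LS ℝ (v + 2)) (B : List ℕ) : 0 ≤ Sbig X B := by
  apply List.sum_nonneg
  intro x hx
  rw [List.mem_map] at hx
  obtain ⟨f, _, rfl⟩ := hx
  exact sq_nonneg _

theorem Sbig_le {B : List ℕ} {i : Fin (nzv v)} (hi : (i : ℕ) ∈ B) : zt X i ^ 2 ≤ Sbig X B := by
  unfold Sbig
  have h1 : (fun i => (if h : i < nzv v then zt X ⟨i, h⟩ else 0) ^ 2) (i : ℕ) ∈
      B.map fun i => (if h : i < nzv v then zt X ⟨i, h⟩ else 0) ^ 2 :=
    List.mem_map_of_mem hi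
  have h2 : zt X i ^ 2 = (fun i => (if h : i < nzv v then zt X ⟨i, h⟩ else 0) ^ 2) (i : ℕ) := by
    simp only
    rw [dif_pos i.isLt]
  rw [h2]
  apply List.single_le_sum _ _ h1
  intro x hx
  rw [List.mem_map] at hx
  obtain ⟨f, _, rfl⟩ := hx
  exact sq_nonneg _

theorem rz_slackZ {τ : ℤ} {B : List ℕ} (hBlt : ∀ i ∈ B, i < nzv v) :
    RZ P (xt X) (zt X) (slackZ v τ B) (τ * (1 + Sbig X B)) := by
  refine RZ.smul τ (RZ.add ((RZ.const 1).congr (by simp)) ?_)
  unfold Sbig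
  induction B with
  | nil => exact RZ.nil.congr (by simp)
  | cons i B ih =>
    have hi := hBlt i (List.mem_cons_self ..)
    have h1 := ih fun j hj => hBlt j (List.mem_cons_of_mem _ hj)
    have h2 := RZ.var (P := P) (x := xt X) (ζ := zt X) (⟨i, hi⟩ : Fin (nzv v))
    refine (RZ.add (RZ.mul h2 h2) h1).congr ?_
    rw [List.map_cons, List.sum_cons, dif_pos hi, sq]

end

/-- MAIN: the interior inequality from packed data -/
theorem interior (Q : CD) {v : ℕ} (hv : Q.v = v) (hw : 2 ≤ Q.P.w) (hc : Q.c ≤ 2 ^ (Q.P.w - 2))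
    (hD : Q.D % 2 = 0) (hE : Q.E % 2 = 1) (hDs : Q.D < Q.P.sl) (hEs : Q.E < Q.P.sl)
    (hBlt : ∀ i ∈ Q.B, i < nzv v) {C vd c1 c2 τ : ℤ} (hC : 0 < C) {ϖ t : ℚ} {L : List TD}
    (hL : ∀ t ∈ L, TDok C vd ϖ t) (h1 : (c1 : ℚ) = -(C * (ϖ ^ 2 / 4)))
    (h2 : (c2 : ℚ) = -(C * ((((v + 2 : ℕ) : ℚ) - 1) ^ 2 / 4 + t)))
    {Ks : List BK} (hK : ∀ K ∈ Ks, BKok v (v + 3) Q.B K)
    (hOK : ∀ X : LS ℝ (v + 2), SymLS X → ∑ i, X.l i ^ 2 = 1 →
      ∀ K ∈ Ks, BlockOK Q.P Q.D Q.E K X)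
    (T : KT) (hT : treeOK Q T (flat (totalZ Q.P v Q.D Q.E vd c1 c2 (-τ) L Q.B Ks) EL.nil) = true)
    (hτ : ((nleaf T * (2 * (Q.P.sl ^ v * Q.c)) : ℕ) : ℤ) ≤ τ) :
    ∀ X : LS ℝ (v + 2), X.good → 0 ≤ certPoly ϖ t (L.map (·.g)) X := by
  intro X hg
  have hX : SymLS X := ⟨hg.l_tr, hg.T12, hg.T23, hg.T_tr⟩
  have hN := hg.l_sq
  have hnz : v + 3 ≤ nzv v := by
    unfold nzv
    omega
  obtain ⟨q, hq, r1⟩ := rz_blocksZ (P := Q.P) (D := Q.D) (E := Q.E) hg.pu hnz hBlt hK
    (hOK X hX hN)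
  have r2 := RZ.add (rz_certZ (P := Q.P) hX hL h1 h2) (RZ.add (rz_slackZ (τ := -τ) hBlt) r1)
  have r3 := rl_flat r2 (L := EL.nil) (t := 0) rfl
  have hsmall : ∀ i : Fin (nzv v), (i : ℕ) < v + 3 → |zt X i| ≤ 1 := by
    intro i hi
    unfold zt
    by_cases h : (i : ℕ) < v + 2
    · rw [dif_pos h]
      have h3 : X.p ⟨i, h⟩ ^ 2 ≤ 1 := by
        have h4 : X.p ⟨i, h⟩ ^ 2 ≤ ∑ i, X.p i ^ 2 :=
          Finset.single_le_sum (f := fun i => X.p i ^ 2) (fun _ _ => sq_nonneg _)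
            (Finset.mem_univ _)
        nlinarith [hg.pu, sq_nonneg X.u]
      exact (sq_le_one_iff_abs_le_one _).1 h3
    · rw [dif_neg h, if_pos (by omega)]
      have h3 : X.u ^ 2 ≤ 1 := by
        have h4 : 0 ≤ ∑ i, X.p i ^ 2 := Finset.sum_nonneg fun _ _ => sq_nonneg _
        nlinarith [hg.pu]
      exact (sq_le_one_iff_abs_le_one _).1 h3
  have r4 := tree_bound hX hN Q hv hw hc hD hE hDs hEs (Sbig_nonneg X Q.B) hsmall hBlt
    (fun i hi => Sbig_le hi) T _ _ hT r3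
  have hτ' : (nleaf T : ℝ) * ((2 * (Q.P.sl ^ v * Q.c) : ℕ) : ℝ) ≤ τ := by
    have := (Int.cast_le (R := ℝ)).2 hτ
    push_cast at this ⊢
    exact this
  have hS := Sbig_nonneg X Q.B
  have r5 : (nleaf T : ℝ) * (((2 * (Q.P.sl ^ v * Q.c) : ℕ) : ℝ) * (1 + Sbig X Q.B)) ≤
      τ * (1 + Sbig X Q.B) := by
    rw [← mul_assoc]
    exact mul_le_mul_of_nonneg_right hτ' (by linarith)
  have r6 := (abs_le.1 (r4.trans r5)).1
  have hC' : (0 : ℝ) < C := by exact_mod_cast hC
  have r7 : 0 ≤ (C : ℝ) * certPoly ϖ t (L.map (·.g)) X := by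
    push_cast at r6
    linarith
  exact nonneg_of_mul_nonneg_right r7 hC'

end OPC.Psd
end
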