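import Pool.Agent.Lib.MP_9059b8_an.A10
import Pool.Agent.Lib.MP_9059b8_an.B05
import Pool.Agent.Lib.MP_9059b8_an.A11
import Pool.Agent.Lib.MP_9059b8_an.P11
import Pool.Agent.Lib.MP_9059b8_an.Psd8

section

/-! # K01: one component -/

open MeasureTheory Set Filter Topology

namespace OPC

variable {n : ℕ} {E : Set (V n)} {u : V n → ℝ}

private theorem K01_inner (x v : V n) : inner ℝ x v = ∑ i, x i * v i := by
  rw [PiLp.inner_apply]
  refine Finset.sum_congr rfl fun i _ => ?_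
  simp [mul_comm]

private theorem K01_S (hN : ∀ x ∈ E, NN u x = 0) {x : V n} (hx : x ∈ E) (i j : Fin n) :
    S u i j x = 0 := by
  have h1 := hN x hx
  unfold NN at h1
  have h2 := (Finset.sum_eq_zero_iff_of_nonneg
    (fun i _ => Finset.sum_nonneg fun j _ => sq_nonneg (S u i j x))).1 h1 i (Finset.mem_univ i)
  have h3 := (Finset.sum_eq_zero_iff_of_nonneg
    (fun j _ => sq_nonneg (S u i j x))).1 h2 j (Finset.mem_univ j)
  exact pow_eq_zero_iff (two_ne_zero) |>.1 h3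

private theorem K01_perp (hn : 2 ≤ n) (v : V n) : ∃ p : V n, p ≠ 0 ∧ inner ℝ p v = 0 := by
  let i0 : Fin n := ⟨0, by omega⟩
  let i1 : Fin n := ⟨1, by omega⟩
  have h01 : i0 ≠ i1 := by simp [i0, i1]
  have he : ∀ i : Fin n, inner ℝ (e i : V n) v = v i := by
    intro i
    simp [e, EuclideanSpace.inner_single_left]
  by_cases h0 : v i0 = 0
  · refine ⟨e i0, ?_, by rw [he, h0]⟩
    intro hc
    have := congrArg (fun y : V n => y i0) hc
    simp [e] at this
  · refine ⟨v i1 • e i0 - v i0 • e i1, ?_, ?_⟩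
    · intro hc
      have := congrArg (fun y : V n => y i1) hc
      simp [e, h01.symm] at this
      exact h0 this
    · rw [inner_sub_left, real_inner_smul_left, real_inner_smul_left, he, he]
      ring

/-- one component: if `NN u = 0` on `E` and `x₀ ∈ E`, there is a unit vector `v` with
`{x | 0 < ⟪x, v⟫} ⊆ E`, `0 < ⟪x₀, v⟫` and `u x = ⟪x, v⟫` on this half space.
Sketch: `q u i` has derivative `0` on `E`, so `q` is constant on the connected component `C` of `x₀`
in `E` (open); `v = q(x₀)`; `u x = ∑ x_i v_i` on `C` (`Sol.euler_u`), so `C ⊆ {⟪x, v⟫ > 0}`, `v ≠ 0`.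
`C` is closed in the half space `{⟪x,v⟫ > 0}` (connected): a limit point `y` of `C` there has
`u y = ⟪y, v⟫ > 0` by continuity, so `y ∈ E`, so `y ∈ C`. Hence `C = {⟪x, v⟫ > 0}`. `n ≥ 2`: there
is `p ≠ 0` with `⟪p, v⟫ = 0`; `p ∈ closure C`, `u p = 0`, so `p ∈ frontier E` and
`‖v‖ = lim |∇u| = 1` (`Sol.bdry_jet`). -/
theorem Sol.component (h : Sol E u) (hn : 2 ≤ n) (hN : ∀ x ∈ E, NN u x = 0) {x₀ : V n}
    (hx₀ : x₀ ∈ E) :
    ∃ v : V n, ‖v‖ = 1 ∧ 0 < inner ℝ x₀ v ∧ (∀ x, 0 < inner ℝ x v → x ∈ E ∧ u x = inner ℝ x v) := by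
  set C : Set (V n) := connectedComponentIn E x₀ with hC
  have hCE : C ⊆ E := connectedComponentIn_subset E x₀
  have hCo : IsOpen C := h.isOpen.connectedComponentIn
  have hCp : IsPreconnected C := isPreconnected_connectedComponentIn
  have hx₀C : x₀ ∈ C := mem_connectedComponentIn hx₀
  have hqc : ∀ i : Fin n, ∀ x ∈ C, q u i x = q u i x₀ := by
    intro i x hx
    refine hCo.is_const_of_fderiv_eq_zero (𝕜 := ℝ) hCp ?_ ?_ hx hx₀C
    · intro y hy
      exact (h.diff_q i (hCE hy)).differentiableWithinAt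
    · intro y hy
      ext w
      rw [fderiv_apply_eq_sum]
      have : ∀ j : Fin n, pd j (q u i) y = 0 := fun j => K01_S hN (hCE hy) j i
      simp [this]
  let v : V n := WithLp.toLp 2 (fun i => q u i x₀)
  have hv : ∀ i, v i = q u i x₀ := fun i => rfl
  have huC : ∀ x ∈ C, u x = inner ℝ x v := by
    intro x hx
    rw [K01_inner, ← h.euler_u (hCE hx)]
    refine Finset.sum_congr rfl fun i _ => ?_
    rw [hqc i x hx, hv i]
  have hpos : 0 < inner ℝ x₀ v := by
    rw [← huC x₀ hx₀C]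
    exact h.pos x₀ hx₀
  have hcont : Continuous fun x : V n => inner ℝ x v := by fun_prop
  have hucl : ∀ x ∈ closure C, u x = inner ℝ x v := by
    intro x hx
    have : IsClosed {x : V n | u x = inner ℝ x v} := isClosed_eq h.cont hcont
    exact (closure_minimal (fun y hy => huC y hy) this) hx
  have hHC : {x : V n | 0 < inner ℝ x v} ⊆ C := by
    have hHconv : Convex ℝ {x : V n | 0 < inner ℝ x v} := by
      intro x hx y hy a b ha hb hab
      simp only [mem_ofPred_eq] at hx hy ⊢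
      rw [inner_add_left, real_inner_smul_left, real_inner_smul_left]
      rcases lt_or_eq_of_le ha with ha' | ha'
      · have h1 : 0 < a * inner ℝ x v := mul_pos ha' hx
        have h2 : 0 ≤ b * inner ℝ y v := mul_nonneg hb hy.le
        linarith
      · have hb1 : b = 1 := by linarith
        rw [← ha', hb1]
        linarith
    refine hHconv.isPreconnected.subset_of_closure_inter_subset hCo ⟨x₀, hpos, hx₀C⟩ ?_
    rintro y ⟨hy1, hy2⟩
    have huy : u y = inner ℝ y v := hucl y hy1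
    have hyE : y ∈ E := by
      rw [h.eq_pos]
      simp only [mem_ofPred_eq] at hy2 ⊢
      rw [huy]
      exact hy2
    have hyo : IsOpen (connectedComponentIn E y) := h.isOpen.connectedComponentIn
    obtain ⟨z, hz1, hz2⟩ := mem_closure_iff.1 hy1 _ hyo (mem_connectedComponentIn hyE)
    have e1 : connectedComponentIn E x₀ = connectedComponentIn E z := connectedComponentIn_eq hz2
    have e2 : connectedComponentIn E y = connectedComponentIn E z := connectedComponentIn_eq hz1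
    rw [hC, e1, ← e2]
    exact mem_connectedComponentIn hyE
  refine ⟨v, ?_, hpos, fun x hx => ⟨hCE (hHC hx), huC x (hHC hx)⟩⟩
  obtain ⟨p, hp0, hpv⟩ := K01_perp hn v
  have hvv : 0 < inner ℝ v v := by
    rw [real_inner_self_eq_norm_sq]
    have : v ≠ 0 := by
      rintro hv0
      rw [hv0, inner_zero_right] at hpos
      exact lt_irrefl _ hpos
    have := norm_pos_iff.2 this
    positivity
  have hpC : p ∈ closure C := by
    rw [mem_closure_iff_seq_limit]
    refine ⟨fun k : ℕ => p + (1 / ((k : ℝ) + 1)) • v, fun k => ?_, ?_⟩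
    · apply hHC
      simp only [mem_ofPred_eq]
      rw [inner_add_left, real_inner_smul_left, hpv]
      positivity
    · have h1 : Tendsto (fun k : ℕ => (1 / ((k : ℝ) + 1)) • v) atTop (𝓝 ((0 : ℝ) • v)) :=
        tendsto_one_div_add_atTop_nhds_zero_nat.smul_const v
      rw [zero_smul] at h1
      simpa using h1.const_add p
  have hup : u p = 0 := by rw [hucl p hpC, hpv]
  have hpE : p ∉ E := by
    intro hc
    have := h.pos p hc
    rw [hup] at this
    exact lt_irrefl _ this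
  have hpf : p ∈ frontier E := by
    rw [h.isOpen.frontier_eq]
    exact ⟨closure_mono hCE hpC, hpE⟩
  obtain ⟨qb, Sb, σ, hq, -, hq1, -⟩ := h.bdry_jet hpf hp0
  have : (𝓝[C] p).NeBot := mem_closure_iff_nhdsWithin_neBot.1 hpC
  have hqb : ∀ i, qb i = v i := by
    intro i
    have h1 : Tendsto (q u i) (𝓝[C] p) (𝓝 (qb i)) := (hq i).mono_left (nhdsWithin_mono p hCE)
    have h2 : Tendsto (q u i) (𝓝[C] p) (𝓝 (v i)) := by
      apply tendsto_const_nhds.congr'
      filter_upwards [self_mem_nhdsWithin] with x hx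
      rw [hqc i x hx, hv i]
    exact tendsto_nhds_unique h1 h2
  have hn1 : ‖v‖ ^ 2 = 1 := by
    rw [norm_sq_eq_sum, ← hq1]
    exact Finset.sum_congr rfl fun i _ => by rw [hqb i]
  have hn0 : 0 ≤ ‖v‖ := norm_nonneg v
  nlinarith [hn1, hn0]

end OPC
end

section

/-! # U04: general weight: rotations and reduction to the adapted frame -/

open MeasureTheory Set Filter Topology

namespace OPC

variable {n m : ℕ}

theorem Sol.Gval_comp {E : Set (V n)} {u : V n → ℝ} (h : Sol E u) (R : V n ≃ₗᵢ[ℝ] V n)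
    (LF : List FT) {y : V n} (hy : R y ∈ E) : Gval LF (u ∘ R) y = Gval LF u (R y) := by
  unfold Gval
  congr 1
  refine List.map_congr_left (fun f _ => ?_)
  rw [h.ss_comp R hy, h.facs_comp R _ hy]

theorem Sol.FF_comp {E : Set (V n)} {u : V n → ℝ} (h : Sol E u) (R : V n ≃ₗᵢ[ℝ] V n)
    (ϖ : ℚ) (LF : List FT) {y : V n} (hy : R y ∈ E) :
    FF ϖ LF (u ∘ R) y = FF ϖ LF u (R y) := by
  unfold FF
  rw [h.Ff_comp R ϖ hy, h.Gval_comp R LF hy]

/-- the defect is rotation invariant (as `Sol.defect_comp` in P05) -/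
theorem Sol.defectF_comp {E : Set (V n)} {u : V n → ℝ} (h : Sol E u) (R : V n ≃ₗᵢ[ℝ] V n)
    (ϖ t : ℚ) (LF : List FT) (L : List Term) {y : V n} (hy : R y ∈ E) (hN : NN u (R y) ≠ 0) :
    defectF ϖ t LF L (u ∘ R) y = defectF ϖ t LF L u (R y) := by
  have hopen : IsOpen (E ∩ {x | NN u x ≠ 0}) :=
    h.smooth_NN.continuousOn.isOpen_inter_preimage h.isOpen (isOpen_ne (x := (0 : ℝ)))
  have hev : ∀ᶠ z in nhds y, R z ∈ E :=
    R.continuous.continuousAt.eventually (h.isOpen.mem_nhds hy)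
  have h1 : ∑ k, pd k (Vfield ϖ L (u ∘ R) k) y = ∑ a, pd a (Vfield ϖ L u a) (R y) := by
    apply div_comp R
    · intro a
      exact diffAt hopen (h.smooth_Vfield ϖ L a) ⟨hy, hN⟩
    · intro k
      filter_upwards [hev] with z hz
      exact h.Vfield_comp R ϖ L hz k
  have h2 : ∑ k, (pd k (FF ϖ LF (u ∘ R)) y) ^ 2 = ∑ k, (pd k (FF ϖ LF u) (R y)) ^ 2 := by
    rw [← grad_sq_comp (FF ϖ LF u) R y]
    refine Finset.sum_congr rfl (fun k _ => ?_)
    have h3 : FF ϖ LF (u ∘ R) =ᶠ[nhds y] (FF ϖ LF u) ∘ R := by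
      filter_upwards [hev] with z hz
      exact h.FF_comp R ϖ LF hz
    simp only [pd, h3.fderiv_eq]
  unfold defectF
  rw [h1, h2, h.FF_comp R ϖ LF hy, R.norm_map]

/-- the defect is homogeneous of degree `-n` (as `Sol.defect_hom` in P06) -/
theorem Sol.defectF_hom {E : Set (V n)} {u : V n → ℝ} (h : Sol E u) (ϖ t : ℚ) (LF : List FT)
    (L : List Term) {s : ℝ} (hs : 0 < s) {x : V n} (hx : x ∈ E) (hN : NN u x ≠ 0) :
    defectF ϖ t LF L u (s • x) = s ^ (-(n : ℤ)) * defectF ϖ t LF L u x := by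
  have hO : IsOpen (E ∩ {x | NN u x ≠ 0}) :=
    h.smooth_NN.continuousOn.isOpen_inter_preimage h.isOpen isOpen_ne
  have hC : ∀ t : ℝ, 0 < t → ∀ x : V n, x ∈ E ∩ {x | NN u x ≠ 0} →
      t • x ∈ E ∩ {x | NN u x ≠ 0} := by
    intro t ht x hx
    refine ⟨(h.smul_mem ht).2 hx.1, ?_⟩
    obtain ⟨-, -, -, -, h5, -⟩ := h.hom0 ht hx.1
    simp only [mem_ofPred_eq]
    rw [h5]
    exact mul_ne_zero (inv_ne_zero (pow_ne_zero 2 ht.ne')) hx.2
  have hxO : x ∈ E ∩ {x | NN u x ≠ 0} := ⟨hx, hN⟩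
  have hV : ∀ k, pd k (Vfield ϖ L u k) (s • x) = s ^ (-(n : ℤ)) * pd k (Vfield ϖ L u k) x := by
    intro k
    have := pd_hom hO hC (f := Vfield ϖ L u k)
      (fun y hy => diffAt hO (h.smooth_Vfield ϖ L k) hy) (1 - (n : ℤ))
      (fun t ht y hy => h.hom_Vfield ϖ L k ht hy.1) k s hs x hxO
    rw [this]
    congr 2
    ring
  have hF : ∀ k, pd k (FF ϖ LF u) (s • x) = s ^ (1 - (n : ℤ)) * pd k (FF ϖ LF u) x := by
    intro k
    have := pd_hom hO hC (f := FF ϖ LF u)
      (fun y hy => diffAt hO (h.smooth_FF ϖ LF) hy) (2 - (n : ℤ))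
      (fun t ht y hy => h.hom_FF ϖ LF ht hy.1) k s hs x hxO
    rw [this]
    congr 2
    ring
  have hF0 : FF ϖ LF u (s • x) = s ^ (2 - (n : ℤ)) * FF ϖ LF u x := h.hom_FF ϖ LF hs hx
  have hs0 : s ≠ 0 := hs.ne'
  unfold defectF
  simp only [hV, hF, hF0, norm_smul, Real.norm_eq_abs, abs_of_pos hs, mul_pow]
  rw [← Finset.mul_sum, ← Finset.mul_sum]
  have e1 : (s ^ (1 - (n : ℤ))) ^ 2 = s ^ (2 - (n : ℤ)) * s ^ (-(n : ℤ)) := by
    rw [← zpow_natCast, ← zpow_mul, ← zpow_add₀ hs0]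
    congr 1
    push_cast
    ring
  have e2 : s ^ (2 - (n : ℤ)) = s ^ 2 * s ^ (-(n : ℤ)) := by
    rw [sub_eq_add_neg, zpow_add₀ hs0]
    norm_cast
  have hsn : s ^ (2 - (n : ℤ)) ≠ 0 := zpow_ne_zero _ hs0
  have e3 : s ^ (2 - (n : ℤ)) * s ^ (-(n : ℤ)) * (∑ k, (pd k (FF ϖ LF u) x) ^ 2)
      / (4 * (s ^ (2 - (n : ℤ)) * FF ϖ LF u x))
      = s ^ (-(n : ℤ)) * ((∑ k, (pd k (FF ϖ LF u) x) ^ 2) / (4 * FF ϖ LF u x)) := by
    rw [show 4 * (s ^ (2 - (n : ℤ)) * FF ϖ LF u x) = s ^ (2 - (n : ℤ)) * (4 * FF ϖ LF u x) by ring,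
      mul_assoc, mul_div_mul_left _ _ hsn, mul_div_assoc]
  have e4 : s ^ (2 - (n : ℤ)) * FF ϖ LF u x / (s ^ 2 * ‖x‖ ^ 2)
      = s ^ (-(n : ℤ)) * (FF ϖ LF u x / ‖x‖ ^ 2) := by
    rw [e2, mul_assoc, mul_div_mul_left _ _ (pow_ne_zero 2 hs0), mul_div_assoc]
  rw [e1, e3, e4]
  ring

/-- the common data of the two reductions -/
private theorem u04_frame {E : Set (V (m + 1))} {u : V (m + 1) → ℝ} (h : Sol E u)
    {x : V (m + 1)} (hx : x ∈ E) (hN : NN u x ≠ 0) :
    0 < ‖x‖⁻¹ ∧ ∃ R : V (m + 1) ≃ₗᵢ[ℝ] V (m + 1), R (e (Fin.last m)) = ‖x‖⁻¹ • x ∧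
      R (e (Fin.last m)) ∈ E ∧ NN u (R (e (Fin.last m))) ≠ 0 ∧
      (∀ i j, i ≠ j → S (u ∘ R) i j (e (Fin.last m)) = 0) ∧
      NN (u ∘ R) (e (Fin.last m)) ≠ 0 := by
  have hx0 : x ≠ 0 := h.ne_zero hx
  have hr : 0 < ‖x‖ := norm_pos_iff.2 hx0
  have hs : 0 < ‖x‖⁻¹ := inv_pos.2 hr
  have hyE : ‖x‖⁻¹ • x ∈ E := (h.smul_mem hs).2 hx
  have hy1 : ‖‖x‖⁻¹ • x‖ = 1 := by
    rw [norm_smul, Real.norm_eq_abs, abs_of_pos hs, inv_mul_cancel₀ hr.ne']
  have hNy : NN u (‖x‖⁻¹ • x) ≠ 0 := by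
    obtain ⟨-, -, -, -, h5, -⟩ := h.hom0 hs hx
    rw [h5]
    exact mul_ne_zero (inv_ne_zero (pow_ne_zero 2 hs.ne')) hN
  obtain ⟨R, hR, hd⟩ := h.exists_frame hyE hy1
  have hRE : R (e (Fin.last m)) ∈ E := by rw [hR]; exact hyE
  have hRN : NN u (R (e (Fin.last m))) ≠ 0 := by rw [hR]; exact hNy
  exact ⟨hs, R, hR, hRE, hRN, hd, by rw [h.NN_comp R hRE]; exact hRN⟩

/-- as `defect_nonneg_of_adapted` in P06 -/
theorem defectF_nonneg_of_adapted (ϖ t : ℚ) (LF : List FT) (L : List Term)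
    (H : ∀ (E : Set (V (m + 1))) (u : V (m + 1) → ℝ), Sol E u → e (Fin.last m) ∈ E →
      NN u (e (Fin.last m)) ≠ 0 → (∀ i j, i ≠ j → S u i j (e (Fin.last m)) = 0) →
      0 ≤ defectF ϖ t LF L u (e (Fin.last m)))
    {E : Set (V (m + 1))} {u : V (m + 1) → ℝ} (h : Sol E u) {x : V (m + 1)} (hx : x ∈ E)
    (hN : NN u x ≠ 0) : 0 ≤ defectF ϖ t LF L u x := by
  obtain ⟨hs, R, hR, hRE, hRN, hd, hNR⟩ := u04_frame h hx hN
  have h2 := H (R ⁻¹' E) (u ∘ R) (h.comp R) hRE hNR hd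
  rw [h.defectF_comp R ϖ t LF L hRE hRN, hR, h.defectF_hom ϖ t LF L hs hx hN] at h2
  have hp : 0 < ‖x‖⁻¹ ^ (-((m + 1 : ℕ) : ℤ)) := zpow_pos hs _
  exact nonneg_of_mul_nonneg_right (by simpa using h2) hp

/-- the same reduction for a lower bound of `G` (homogeneous of degree `0`, rotation invariant) -/
theorem Gval_ge_of_adapted (LF : List FT) (c0 : ℝ)
    (H : ∀ (E : Set (V (m + 1))) (u : V (m + 1) → ℝ), Sol E u → e (Fin.last m) ∈ E →
      NN u (e (Fin.last m)) ≠ 0 → (∀ i j, i ≠ j → S u i j (e (Fin.last m)) = 0) →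
      c0 ≤ Gval LF u (e (Fin.last m)))
    {E : Set (V (m + 1))} {u : V (m + 1) → ℝ} (h : Sol E u) {x : V (m + 1)} (hx : x ∈ E)
    (hN : NN u x ≠ 0) : c0 ≤ Gval LF u x := by
  obtain ⟨hs, R, hR, hRE, hRN, hd, hNR⟩ := u04_frame h hx hN
  have h2 := H (R ⁻¹' E) (u ∘ R) (h.comp R) hRE hNR hd
  rwa [h.Gval_comp R LF hRE, hR, h.hom_Gval LF hs hx] at h2

end OPC
end

section

/-! # U05: general weight: the adapted frame -/

open MeasureTheory Set Filter Topology

namespace OPC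

variable {m : ℕ} {E : Set (V (m + 1))} {u : V (m + 1) → ℝ}

private theorem U05_sq_pos (h : Adp E u) (hN : NN u (oo m) ≠ 0) : 0 < ∑ i, (lst u).l i ^ 2 := by
  rw [h.NN_eq] at hN
  exact lt_of_le_of_ne (Finset.sum_nonneg fun i _ => sq_nonneg _) (Ne.symm hN)

private theorem U05_s_pos (h : Adp E u) (hN : NN u (oo m) ≠ 0) :
    0 < √(∑ i, (lst u).l i ^ 2) := Real.sqrt_pos.2 (U05_sq_pos h hN)

private theorem U05_ss (h : Adp E u) : ss u (oo m) = √(∑ i, (lst u).l i ^ 2) := by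
  unfold ss
  rw [norm_oo, one_mul, h.NN_eq]

private theorem U05_open (h : Adp E u) : IsOpen (E ∩ {x | NN u x ≠ 0}) :=
  h.sol.smooth_NN.continuousOn.isOpen_inter_preimage h.sol.isOpen isOpen_ne

private theorem U05_diff (h : Adp E u) (hN : NN u (oo m) ≠ 0) {f : V (m + 1) → ℝ}
    (hf : ContDiffOn ℝ (⊤ : ℕ∞) f (E ∩ {x | NN u x ≠ 0})) : DifferentiableAt ℝ f (oo m) :=
  diffAt (U05_open h) hf ⟨h.mem, hN⟩

private theorem U05_diff_facs (h : Adp E u) (L : List Fac) :
    DifferentiableAt ℝ (fun x => facsVal u x L) (oo m) :=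
  diffAt h.sol.isOpen (h.sol.smooth_facs L) h.mem

/-- partial derivatives of the norm at the base point -/
private theorem U05_pd_norm (h : Adp E u) (k : Fin m) (z : ℤ) :
    pd k.castSucc (fun x : V (m + 1) => ‖x‖ ^ z) (oo m) = 0 := by
  have hd : DifferentiableAt ℝ (fun x : V (m + 1) => ‖x‖) (oo m) :=
    diffAt h.sol.isOpen h.sol.smooth_norm h.mem
  have h1 : pd k.castSucc (fun x : V (m + 1) => ‖x‖ ^ 2) (oo m) =
      2 * pd k.castSucc (fun x : V (m + 1) => ‖x‖) (oo m) := by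
    rw [pd_pow hd, norm_oo]
    norm_num
  have h2 : pd k.castSucc (fun x : V (m + 1) => ‖x‖ ^ 2) (oo m) = 0 := by
    have h3 : (fun x : V (m + 1) => ‖x‖ ^ 2) = fun x => ∑ i, (x i) ^ 2 := by
      funext x
      exact norm_sq_eq_sum x
    have hc : ∀ i : Fin (m + 1), DifferentiableAt ℝ (fun x : V (m + 1) => x i) (oo m) := by
      intro i
      exact (EuclideanSpace.proj i : V (m + 1) →L[ℝ] ℝ).differentiableAt
    rw [h3, pd_sum Finset.univ (f := fun i (x : V (m + 1)) => (x i) ^ 2)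
      (fun i _ => (hc i).pow 2)]
    apply Finset.sum_eq_zero
    intro i _
    rw [pd_pow (hc i), pd_coord, oo_apply]
    by_cases hi : k.castSucc = i
    · have hne : i ≠ Fin.last m := by
        rw [← hi]
        exact (Fin.castSucc_lt_last k).ne
      rw [if_neg hne]
      norm_num
    · rw [if_neg hi, mul_zero]
  have h4 : pd k.castSucc (fun x : V (m + 1) => ‖x‖) (oo m) = 0 := by
    rw [h2] at h1
    linarith
  have h5 : DifferentiableAt ℝ (fun t : ℝ => t ^ z) ‖oo m‖ := by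
    apply (differentiableAt_zpow).2
    left
    rw [norm_oo]
    exact one_ne_zero
  rw [pd_comp (φ := fun t : ℝ => t ^ z) h5 hd, h4, mul_zero]

private theorem U05_div_V (h : Adp E u) (hN : NN u (oo m) ≠ 0) (ϖ : ℚ) (L : List Term)
    (hL : ∀ g ∈ L, g.ok) :
    ∑ k, pd k (Vfield ϖ L u k) (oo m) = √(∑ i, (lst u).l i ^ 2) ^ ((ϖ : ℝ) + 2)
      * (L.map fun g => g.ldiv ϖ ((lst u).scale (√(∑ i, (lst u).l i ^ 2)))).sum := by
  induction L with
  | nil =>
    have h1 : ∀ k : Fin (m + 1), Vfield ϖ [] u k = fun _ => (0 : ℝ) := fun k => rfl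
    simp only [h1, pd_const, Finset.sum_const_zero, List.map_nil, List.sum_nil, mul_zero]
  | cons g L ih =>
    have h1 : ∀ k : Fin (m + 1), Vfield ϖ (g :: L) u k =
        fun x => g.field ϖ u k x + Vfield ϖ L u k x := by
      intro k
      funext x
      simp [Vfield]
    have h2 : ∀ k : Fin (m + 1), DifferentiableAt ℝ (g.field ϖ u k) (oo m) := by
      intro k
      have h3 : g.field ϖ u k = Vfield ϖ [g] u k := by
        funext x
        simp [Vfield]
      rw [h3]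
      exact U05_diff h hN (h.sol.smooth_Vfield ϖ [g] k)
    have h3 : ∀ k : Fin (m + 1), DifferentiableAt ℝ (Vfield ϖ L u k) (oo m) :=
      fun k => U05_diff h hN (h.sol.smooth_Vfield ϖ L k)
    simp only [h1]
    rw [Finset.sum_congr rfl fun k _ => pd_add (h2 k) (h3 k) k, Finset.sum_add_distrib,
      ih (fun g' hg' => hL g' (List.mem_cons_of_mem _ hg')),
      h.div_term hN ϖ (hL g List.mem_cons_self), List.map_cons, List.sum_cons]
    ring

/-- `G` at the adapted point. Sketch: `ss u (oo m) = s := √(∑ l²)`, `Adp.facs_val` (P07) and the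
scaling of `facsLv` (P10: `facsLv (lst u) L = s^wt facsLv (scaled) L`; re-prove it here if it is
private there, from `Fac.lv`). -/
theorem Adp.Gval_eq (h : Adp E u) (hN : NN u (oo m) ≠ 0) (LF : List FT) :
    Gval LF u (oo m) = gl LF ((lst u).scale (√(∑ i, (lst u).l i ^ 2))) := by
  have hs := U05_s_pos h hN
  have hss := U05_ss h
  set s : ℝ := √(∑ i, (lst u).l i ^ 2) with hsdef
  have heps : (lst u).eps = 1 := rfl
  unfold Gval gl
  congr 1
  apply List.map_congr_left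
  intro f _
  have hlv := (facsLv_scale (lst u) heps hs f.facs).1
  rw [h.facs_val, hlv, hss]
  have h1 : s ^ (-(f.wt : ℝ)) * s ^ (f.facs.map Fac.wt).sum = 1 := by
    show s ^ (-(f.wt : ℝ)) * s ^ f.wt = 1
    rw [Real.rpow_neg hs.le, Real.rpow_natCast]
    have h2 : s ^ f.wt ≠ 0 := by positivity
    field_simp
  simp only [eq_ratCast]
  calc (f.coef : ℝ) * (s ^ (-(f.wt : ℝ)) *
        (s ^ (f.facs.map Fac.wt).sum * facsLv ((lst u).scale s) f.facs))
      = (f.coef : ℝ) * ((s ^ (-(f.wt : ℝ)) * s ^ (f.facs.map Fac.wt).sum)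
        * facsLv ((lst u).scale s) f.facs) := by ring
    _ = _ := by rw [h1, one_mul]

private theorem U05_pd_G (h : Adp E u) (hN : NN u (oo m) ≠ 0) (LF : List FT) (k : Fin m) :
    pd k.castSucc (Gval LF u) (oo m) = √(∑ i, (lst u).l i ^ 2)
      * gd LF ((lst u).scale (√(∑ i, (lst u).l i ^ 2))) k := by
  have hs := U05_s_pos h hN
  have hss := U05_ss h
  induction LF with
  | nil =>
    have h1 : Gval [] u = fun _ => (0 : ℝ) := rfl
    rw [h1, pd_const]
    simp [gd]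
  | cons f LF ih =>
    set s : ℝ := √(∑ i, (lst u).l i ^ 2) with hsdef
    have heps : (lst u).eps = 1 := rfl
    obtain ⟨hlv, hld⟩ := facsLv_scale (lst u) heps hs f.facs
    have h1 : Gval (f :: LF) u = fun x => (f.coef : ℝ) *
        (ss u x ^ (-(f.wt : ℝ)) * facsVal u x f.facs) + Gval LF u x := by
      funext x
      simp [Gval]
    have hd1 : DifferentiableAt ℝ (fun x => ss u x ^ (-(f.wt : ℝ))) (oo m) :=
      U05_diff h hN (h.sol.smooth_ss_rpow _)
    have hd2 : DifferentiableAt ℝ (fun x => facsVal u x f.facs) (oo m) := U05_diff_facs h f.facs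
    have hd3 : DifferentiableAt ℝ (Gval LF u) (oo m) := U05_diff h hN (h.sol.smooth_Gval LF)
    have hd4 : DifferentiableAt ℝ (fun x => (f.coef : ℝ) *
        (ss u x ^ (-(f.wt : ℝ)) * facsVal u x f.facs)) (oo m) := (hd1.mul hd2).const_mul _
    rw [h1, pd_add hd4 hd3, pd_const_mul, pd_mul hd1 hd2, ih, h.pd_ss hN, h.pd_facs, h.facs_val,
      hss, hlv, hld k, LS.w_scale (lst u) hs k, ← hsdef]
    have h2 : s ^ (-(f.wt : ℝ) - 2) = (s ^ f.wt)⁻¹ / s ^ 2 := by
      rw [Real.rpow_sub hs, Real.rpow_two, Real.rpow_neg hs.le, Real.rpow_natCast]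
    have h3 : s ^ (-(f.wt : ℝ)) = (s ^ f.wt)⁻¹ := by
      rw [Real.rpow_neg hs.le, Real.rpow_natCast]
    have h4 : (f.facs.map Fac.wt).sum = f.wt := rfl
    have h5 : gd (f :: LF) ((lst u).scale s) k = (f.coef : ℝ) *
        (facsLd ((lst u).scale s) k f.facs - (f.wt : ℝ) * facsLv ((lst u).scale s) f.facs
          * ((lst u).scale s).w k) + gd LF ((lst u).scale s) k := by
      simp [gd]
    rw [h2, h3, h4, h5]
    have h6 : s ^ f.wt ≠ 0 := by positivity
    have h7 : s ≠ 0 := hs.ne'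
    generalize gd LF ((lst u).scale s) k = A
    generalize facsLd ((lst u).scale s) k f.facs = B
    generalize facsLv ((lst u).scale s) f.facs = C
    generalize ((lst u).scale s).w k = D
    rw [pow_succ s f.wt]
    field_simp
    ring

/-- tangential derivatives of `F` at the adapted point. Sketch: as in `Adp.grad_F` (P11), with
`Adp.pd_facs`, `Adp.pd_ss` (P08), product rule, and the scaling (P10):
`w (lst u) = s³ w (scaled)`, `facsLd (lst u) = s^(wt+1) facsLd (scaled)`. -/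
theorem Adp.pd_FF (h : Adp E u) (hN : NN u (oo m) ≠ 0) (ϖ : ℚ) (LF : List FT) (k : Fin m) :
    pd k.castSucc (FF ϖ LF u) (oo m) = √(∑ i, (lst u).l i ^ 2) ^ ((ϖ : ℝ) + 1) *
      (ϖ * gl LF ((lst u).scale (√(∑ i, (lst u).l i ^ 2)))
        * ((lst u).scale (√(∑ i, (lst u).l i ^ 2))).w k
        + gd LF ((lst u).scale (√(∑ i, (lst u).l i ^ 2))) k) := by
  have hs := U05_s_pos h hN
  have hss := U05_ss h
  have hG := h.Gval_eq hN LF
  have hpG := U05_pd_G h hN LF k
  set s : ℝ := √(∑ i, (lst u).l i ^ 2) with hsdef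
  have hF : Ff ϖ u (oo m) = s ^ (ϖ : ℝ) := by
    unfold Ff
    rw [norm_oo, one_zpow, one_mul, hss]
  have hd1 : DifferentiableAt ℝ (fun x => ss u x ^ (ϖ : ℝ)) (oo m) :=
    U05_diff h hN (h.sol.smooth_ss_rpow (ϖ : ℝ))
  have hd2 : DifferentiableAt ℝ (fun x : V (m + 1) => ‖x‖ ^ (2 - ((m + 1 : ℕ) : ℤ))) (oo m) :=
    diffAt h.sol.isOpen (h.sol.smooth_zpow _) h.mem
  have hd3 : DifferentiableAt ℝ (Gval LF u) (oo m) := U05_diff h hN (h.sol.smooth_Gval LF)
  have hd4 : DifferentiableAt ℝ (Ff ϖ u) (oo m) := U05_diff h hN (h.sol.smooth_Ff ϖ)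
  have h1 : pd k.castSucc (Ff ϖ u) (oo m) = ϖ * s ^ ((ϖ : ℝ) - 2) * (lst u).w k := by
    have h2 : Ff ϖ u = fun x => ‖x‖ ^ (2 - ((m + 1 : ℕ) : ℤ)) * ss u x ^ (ϖ : ℝ) := rfl
    rw [h2, pd_mul hd2 hd1, U05_pd_norm h, h.pd_ss hN, norm_oo, one_zpow, zero_mul, zero_add,
      one_mul, ← hsdef]
  have h3 : FF ϖ LF u = fun x => Ff ϖ u x * Gval LF u x := rfl
  rw [h3, pd_mul hd4 hd3, h1, hF, hG, hpG, LS.w_scale (lst u) hs k]
  have h7 : s ^ ((ϖ : ℝ) - 2) = s ^ (ϖ : ℝ) / s ^ 2 := by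
    rw [Real.rpow_sub hs, Real.rpow_two]
  have h8 : s ^ ((ϖ : ℝ) + 1) = s ^ (ϖ : ℝ) * s := by
    rw [Real.rpow_add hs, Real.rpow_one]
  have h9 : s ≠ 0 := hs.ne'
  rw [h7, h8]
  generalize gd LF ((lst u).scale s) k = A
  generalize gl LF ((lst u).scale s) = B
  generalize ((lst u).scale s).w k = D
  generalize s ^ (ϖ : ℝ) = Q
  field_simp

/-- `defectF = s^(ϖ+2) certF` at the adapted point (radial derivative of `F` is `(2-n) F`,
`n = m+1`; as `Adp.grad_F` and `Adp.defect_eq` in P11) -/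
theorem Adp.defectF_eq (h : Adp E u) (hN : NN u (oo m) ≠ 0) (ϖ t : ℚ) (LF : List FT)
    {L : List Term} (hL : ∀ g ∈ L, g.ok)
    (hG : 0 < gl LF ((lst u).scale (√(∑ i, (lst u).l i ^ 2)))) :
    defectF ϖ t LF L u (oo m) = √(∑ i, (lst u).l i ^ 2) ^ ((ϖ : ℝ) + 2)
      * certF ϖ t LF L ((lst u).scale (√(∑ i, (lst u).l i ^ 2))) := by
  have hs := U05_s_pos h hN
  have hss := U05_ss h
  have hGe := h.Gval_eq hN LF
  have hpF := h.pd_FF hN ϖ LF
  unfold defectF certF
  rw [U05_div_V h hN ϖ L hL, norm_oo]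
  set s : ℝ := √(∑ i, (lst u).l i ^ 2) with hsdef
  have hF : FF ϖ LF u (oo m) = s ^ (ϖ : ℝ) * gl LF ((lst u).scale s) := by
    unfold FF Ff
    rw [norm_oo, one_zpow, one_mul, hss, hGe]
  have h3 : pd (Fin.last m) (FF ϖ LF u) (oo m) =
      (1 - (m : ℝ)) * (s ^ (ϖ : ℝ) * gl LF ((lst u).scale s)) := by
    have h4 : ∀ t : ℝ, 0 < t → ∀ x ∈ E ∩ {x | NN u x ≠ 0},
        FF ϖ LF u (t • x) = t ^ (2 - ((m + 1 : ℕ) : ℤ)) * FF ϖ LF u x :=
      fun t ht x hx => h.sol.hom_FF ϖ LF ht hx.1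
    have h5 := euler (U05_open h) (f := FF ϖ LF u)
      (fun x hx => diffAt (U05_open h) (h.sol.smooth_FF ϖ LF) hx) (2 - ((m + 1 : ℕ) : ℤ)) h4
      (oo m) ⟨h.mem, hN⟩
    have h6 : ∑ i, (oo m) i * pd i (FF ϖ LF u) (oo m) = pd (Fin.last m) (FF ϖ LF u) (oo m) := by
      rw [Finset.sum_eq_single (Fin.last m)]
      · rw [oo_apply, if_pos rfl, one_mul]
      · intro i _ hi
        rw [oo_apply, if_neg hi, zero_mul]
      · intro hi
        exact absurd (Finset.mem_univ _) hi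
    rw [← h6, h5, hF]
    push_cast
    ring
  have h2 : ((lst u).scale s).eps = s⁻¹ := rfl
  have h7 : s ^ ((ϖ : ℝ) + 2) = s ^ (ϖ : ℝ) * s ^ 2 := by
    rw [Real.rpow_add hs, Real.rpow_two]
  have h8 : s ^ ((ϖ : ℝ) + 1) = s ^ (ϖ : ℝ) * s := by
    rw [Real.rpow_add hs, Real.rpow_one]
  have h9 : ∑ k : Fin m, (pd k.castSucc (FF ϖ LF u) (oo m)) ^ 2 =
      (s ^ (ϖ : ℝ)) ^ 2 * s ^ 2 * ∑ k, (ϖ * gl LF ((lst u).scale s) * ((lst u).scale s).w k
        + gd LF ((lst u).scale s) k) ^ 2 := by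
    rw [Finset.mul_sum]
    refine Finset.sum_congr rfl fun k _ => ?_
    rw [hpF k, h8]
    ring
  have hp : 0 < s ^ (ϖ : ℝ) := Real.rpow_pos_of_pos hs _
  rw [Fin.sum_univ_castSucc, h3, hF, h9, h7, h2]
  generalize (L.map fun g => g.ldiv ϖ ((lst u).scale s)).sum = A
  generalize ∑ k, (ϖ * gl LF ((lst u).scale s) * ((lst u).scale s).w k
        + gd LF ((lst u).scale s) k) ^ 2 = B
  generalize gl LF ((lst u).scale s) = G at *
  generalize s ^ (ϖ : ℝ) = Q at *
  have hG0 : G ≠ 0 := hG.ne'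
  have hQ0 : Q ≠ 0 := hp.ne'
  have hs0 : s ≠ 0 := hs.ne'
  field_simp
  ring

/-- lower bound of `G` for all solutions -/
theorem Gval_ge_of_poly (hm : 1 ≤ m) (LF : List FT) {c0 : ℝ}
    (HG : ∀ X : LS ℝ m, X.good → c0 ≤ gl LF X)
    {E : Set (V (m + 1))} {u : V (m + 1) → ℝ} (h : Sol E u) {x : V (m + 1)} (hx : x ∈ E)
    (hN : NN u x ≠ 0) : c0 ≤ Gval LF u x := by
  refine Gval_ge_of_adapted LF c0 ?_ h hx hN
  intro E' u' h' hmem hN' hdiag
  have hA : Adp E' u' := ⟨h', hmem, hdiag⟩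
  have hN'' : NN u' (oo m) ≠ 0 := hN'
  have h1 := hA.Gval_eq hN'' LF
  have h2 := HG _ (hA.good hm hN'')
  have h3 : c0 ≤ Gval LF u' (oo m) := by
    rw [h1]
    exact h2
  exact h3

/-- the pointwise inequality for all solutions -/
theorem pointwiseF_of_poly (hm : 1 ≤ m) (ϖ t : ℚ) (LF : List FT) {L : List Term}
    (hL : ∀ g ∈ L, g.ok) {c0 : ℝ} (hc : 0 < c0)
    (HG : ∀ X : LS ℝ m, X.good → c0 ≤ gl LF X)
    (H : ∀ X : LS ℝ m, X.good → 0 ≤ certF ϖ t LF L X)
    {E : Set (V (m + 1))} {u : V (m + 1) → ℝ} (h : Sol E u) {x : V (m + 1)} (hx : x ∈ E)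
    (hN : NN u x ≠ 0) : 0 ≤ defectF ϖ t LF L u x := by
  refine defectF_nonneg_of_adapted ϖ t LF L ?_ h hx hN
  intro E' u' h' hmem hN' hdiag
  have hA : Adp E' u' := ⟨h', hmem, hdiag⟩
  have hN'' : NN u' (oo m) ≠ 0 := hN'
  have hgood := hA.good hm hN''
  have h1 := hA.defectF_eq hN'' ϖ t LF hL (lt_of_lt_of_le hc (HG _ hgood))
  have h2 := H _ hgood
  have h3 : 0 ≤ defectF ϖ t LF L u' (oo m) := by
    rw [h1]
    exact mul_nonneg (Real.rpow_nonneg (Real.sqrt_nonneg _) _) h2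
  exact h3

end OPC
end

section

/-!
# Packed polynomials with the auxiliary variables `ξ`: soundness for a general assignment `ζ`

The variable with index `tix a a a` (the place of `T_aaa`, which is eliminated) holds `ξ_a`.
-/

namespace OPC.Psx

open OPC.Psd

variable {v : ℕ}

/-- an assignment of the variables compatible with the link state -/
structure SZ (X : LS ℝ (v + 2)) (ζ : Fin (nzv v) → ℝ) : Prop extends SymLS X where
  zp : ∀ (i : Fin (v + 2)) (h : (i : ℕ) < nzv v), ζ ⟨i, h⟩ = X.p i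
  zu : ∀ (h : v + 2 < nzv v), ζ ⟨v + 2, h⟩ = X.u
  ze : ∀ (h : v + 3 < nzv v), ζ ⟨v + 3, h⟩ = X.eps
  zT : ∀ (a b c : Fin (v + 2)), ¬ (a = b ∧ b = c) → ζ ⟨tix v a b c, tix_lt a b c⟩ = X.T a b c

variable {P : Par} {X : LS ℝ (v + 2)} {ζ : Fin (nzv v) → ℝ}


variable (hX : SZ X ζ)

include hX in
theorem rz_lmul (i : Fin (v + 2)) (a : ℕ) {q : Z} {t : ℝ} (hq : RZ P (xt X) ζ q t) :
    RZ P (xt X) ζ (lmul P v i a q) (X.l i ^ a * t) := RZ.emul (RZ.el (rc_lpw hX.toSymLS i a)) hq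

include hX in
theorem rz_hmul (a : ℕ) (i j : Fin (v + 2)) {q : Z} {t : ℝ} (hq : RZ P (xt X) ζ q t) :
    RZ P (xt X) ζ (hmul P v a i j q) (hh a (X.l i) (X.l j) * t) :=
  RZ.emul (RZ.el (rc_hha hX.toSymLS a i j a le_rfl)) hq

include hX in
theorem rz_lz (i : Fin (v + 2)) (a : ℕ) : RZ P (xt X) ζ (lz P v i a) (X.l i ^ a) := RZ.el (rc_lpw hX.toSymLS i a)

include hX in
theorem rz_pz (i : Fin (v + 2)) : RZ P (xt X) ζ (pz v i) (X.p i) := by
  have h1 : (i : ℕ) < nzv v := by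
    have := i.isLt
    unfold nzv
    omega
  have h := RZ.var (P := P) (x := xt X) (ζ := ζ) (⟨i, h1⟩ : Fin (nzv v))
  rw [hX.zp i h1] at h
  exact h

include hX in
theorem rz_uz : RZ P (xt X) ζ (uz v) X.u := by
  have h1 : v + 2 < nzv v := by
    unfold nzv
    omega
  have h := RZ.var (P := P) (x := xt X) (ζ := ζ) (⟨v + 2, h1⟩ : Fin (nzv v))
  rw [hX.zu h1] at h
  exact h

include hX in
theorem rz_ez : RZ P (xt X) ζ (ez v) X.eps := by
  have h1 : v + 3 < nzv v := by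
    have : 0 < (v + 2) ^ 3 := by positivity
    unfold nzv
    omega
  have h := RZ.var (P := P) (x := xt X) (ζ := ζ) (⟨v + 3, h1⟩ : Fin (nzv v))
  rw [hX.ze h1] at h
  exact h

include hX in
theorem rz_tz (a b c : Fin (v + 2)) (h' : ¬ (a = b ∧ b = c)) :
    RZ P (xt X) ζ (tz v a b c) (X.T a b c) := by
  have h := RZ.var (P := P) (x := xt X) (ζ := ζ) (⟨tix v a b c, tix_lt a b c⟩ : Fin (nzv v))
  rw [hX.zT a b c h'] at h
  exact h

include hX in
theorem rz_tsort (a b c : Fin (v + 2)) (h' : ¬ (a = b ∧ b = c)) :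
    RZ P (xt X) ζ (tsort v a b c) (X.T a b c) := by
  unfold tsort
  rcases hab : Nat.ble a b with _ | _
  · rcases hbc : Nat.ble b c with _ | _
    · simp only
      have e : X.T a b c = X.T c b a := by rw [hX.T12 a, hX.T23 b, hX.T12 b]
      rw [e]
      exact rz_tz hX c b a (fun h => h' ⟨h.2.symm, h.1.symm⟩)
    · rcases hac : Nat.ble a c with _ | _
      · simp only
        have e : X.T a b c = X.T b c a := by rw [hX.T12 a, hX.T23 b]
        rw [e]
        exact rz_tz hX b c a (fun h => h' ⟨(h.1.trans h.2).symm, h.1⟩)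
      · simp only
        have e : X.T a b c = X.T b a c := by rw [hX.T12 a]
        rw [e]
        exact rz_tz hX b a c (fun h => h' ⟨h.1.symm, h.1.trans h.2⟩)
  · rcases hbc : Nat.ble b c with _ | _
    · rcases hac : Nat.ble a c with _ | _
      · simp only
        have e : X.T a b c = X.T c a b := by rw [hX.T23 a, hX.T12 a]
        rw [e]
        exact rz_tz hX c a b (fun h => h' ⟨h.2, (h.1.trans h.2).symm⟩)
      · simp only
        have e : X.T a b c = X.T a c b := by rw [hX.T23 a]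
        rw [e]
        exact rz_tz hX a c b (fun h => h' ⟨h.1.trans h.2, h.2.symm⟩)
    · simp only
      exact rz_tz hX a b c h'

include hX in
theorem rz_TZ (k i j : Fin (v + 2)) : RZ P (xt X) ζ (TZ v k i j) (X.T k i j) := by
  unfold TZ
  rcases h : Bool.and (Nat.beq k i) (Nat.beq i j) with _ | _
  · refine rz_tsort hX k i j fun h' => ?_
    rw [h'.1, h'.2] at h
    simp at h
  · have h' : (Nat.beq (k : ℕ) i && Nat.beq (i : ℕ) j) = true := h
    rw [Bool.and_eq_true] at h'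
    have e1 : k = i := Fin.ext (Nat.eq_of_beq_eq_true h'.1)
    have e2 : i = j := Fin.ext (Nat.eq_of_beq_eq_true h'.2)
    subst e1
    subst e2
    have h1 : RZ P (xt X) ζ (Z.sum (v + 2) fun i' => Bool.rec (tsort v k i' i') Z.nil (Nat.beq i' k))
        (∑ i' : Fin (v + 2), if i' = k then 0 else X.T k i' i') := by
      apply RZ.sum
      intro i
      rcases hik : Nat.beq i k with _ | _
      · have : i ≠ k := by
          intro h
          rw [h] at hik
          simp at hik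
        rw [if_neg this]
        exact rz_tsort hX k i i fun h' => this h'.1.symm
      · have : i = k := Fin.ext (Nat.eq_of_beq_eq_true hik)
        rw [if_pos this]
        exact RZ.nil
    have h2 := RZ.smul (-1) h1
    refine h2.congr ?_
    have h3 := hX.T_tr k
    have h4 : ∑ i' : Fin (v + 2), X.T k i' i' =
        X.T k k k + ∑ i' : Fin (v + 2), if i' = k then 0 else X.T k i' i' := by
      have e : ∀ i' : Fin (v + 2), X.T k i' i' =
          (if i' = k then X.T k k k else 0) + (if i' = k then 0 else X.T k i' i') := by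
        intro i'
        by_cases hi : i' = k
        · simp [hi]
        · simp [hi]
      rw [Finset.sum_congr rfl fun i' _ => e i', Finset.sum_add_distrib]
      congr 1
      rw [Finset.sum_ite_eq']
      simp
    push_cast
    linarith

include hX in
theorem rz_wz (k : Fin (v + 2)) : RZ P (xt X) ζ (wz P v k) (X.w k) := by
  unfold LS.w
  refine (RZ.sum fun i => rz_lmul hX i 1 (rz_TZ hX k i i)).congr ?_
  refine Finset.sum_congr rfl fun i _ => ?_
  rw [pow_one]

include hX in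
theorem rz_vz (a : ℕ) (i : Fin (v + 2)) : RZ P (xt X) ζ (vz P v a i) (X.v a i) :=
  rz_lmul hX i a (rz_pz hX i)

include hX in
theorem rz_dvz (a : ℕ) (k i : Fin (v + 2)) : RZ P (xt X) ζ (dvz P v a k i) (X.dv a k i) := by
  unfold dvz LS.dv
  apply RZ.add
  · refine (RZ.sum fun j => rz_hmul hX a i j (RZ.mul (rz_TZ hX k i j) (rz_pz hX j))).congr ?_
    refine Finset.sum_congr rfl fun i _ => ?_
    ring
  · rcases h : Nat.beq i k with _ | _
    · have : i ≠ k := by
        intro h'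
        rw [h'] at h
        simp at h
      rw [if_neg this]
      exact RZ.nil
    · have : i = k := Fin.ext (Nat.eq_of_beq_eq_true h)
      rw [if_pos this]
      refine (RZ.add (rz_lz hX i (a + 1)) (RZ.smul (-1) (rz_lmul hX i a
        (RZ.mul (rz_ez hX) (rz_uz hX))))).congr ?_
      push_cast
      ring

include hX in
theorem rz_bz (a : ℕ) : RZ P (xt X) ζ (bz P v a) (X.b a) := by
  unfold bz LS.b
  refine (RZ.sum fun i => rz_lmul hX i a (RZ.mul (rz_pz hX i) (rz_pz hX i))).congr ?_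
  refine Finset.sum_congr rfl fun i _ => ?_
  ring

include hX in
theorem rz_dbz (a : ℕ) (k : Fin (v + 2)) : RZ P (xt X) ζ (dbz P v a k) (X.db a k) := by
  unfold dbz LS.db
  apply RZ.add
  · refine (RZ.sum (n := v + 2) fun i => RZ.sum (n := v + 2) (F := fun j => _) fun j =>
      rz_hmul hX a i j (RZ.mul (rz_TZ hX k i j) (RZ.mul (rz_pz hX i) (rz_pz hX j)))).congr ?_
    refine Finset.sum_congr rfl fun i _ => Finset.sum_congr rfl fun j _ => ?_
    ring
  · refine (RZ.add (RZ.smul 2 (rz_lmul hX k (a + 1) (rz_pz hX k))) (RZ.smul (-2) (rz_lmul hX k a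
      (RZ.mul (rz_ez hX) (RZ.mul (rz_uz hX) (rz_pz hX k)))))).congr ?_
    push_cast
    ring

include hX in
theorem rz_facLv (f : Fac) : RZ P (xt X) ζ (facLv P v f) (f.lv X) := by
  cases f with
  | c3 => exact RZ.sum fun i => rz_lz hX i 3
  | c4 => exact RZ.sum fun i => rz_lz hX i 4
  | b0 =>
    refine (RZ.add (RZ.sum fun i => RZ.mul (rz_pz hX i) (rz_pz hX i)) (RZ.mul (rz_uz hX) (rz_uz hX))).congr ?_
    unfold Fac.lv
    simp only [sq]
  | b1 => exact rz_bz hX 1
  | b2 => exact rz_bz hX 2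
  | b3 => exact rz_bz hX 3
  | u2 =>
    refine (RZ.mul (rz_uz hX) (rz_uz hX)).congr ?_
    unfold Fac.lv
    simp only [sq]
  | u1 => exact rz_uz hX

include hX in
theorem rz_facLd (k : Fin (v + 2)) (f : Fac) : RZ P (xt X) ζ (facLd P v k f) (f.ld X k) := by
  cases f with
  | c3 =>
    refine (RZ.smul 3 (RZ.sum fun i => rz_lmul hX i 2 (rz_TZ hX k i i))).congr ?_
    unfold Fac.ld
    push_cast
    rfl
  | c4 =>
    refine (RZ.smul 4 (RZ.sum fun i => rz_lmul hX i 3 (rz_TZ hX k i i))).congr ?_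
    unfold Fac.ld
    push_cast
    rfl
  | b0 =>
    refine (RZ.smul 2 (rz_lmul hX k 1 (rz_pz hX k))).congr ?_
    unfold Fac.ld
    push_cast
    ring
  | b1 => exact rz_dbz hX 1 k
  | b2 => exact rz_dbz hX 2 k
  | b3 => exact rz_dbz hX 3 k
  | u2 =>
    refine (RZ.smul 2 (RZ.mul (rz_uz hX) (RZ.mul (rz_ez hX) (rz_pz hX k)))).congr ?_
    unfold Fac.ld
    push_cast
    ring
  | u1 => exact RZ.mul (rz_ez hX) (rz_pz hX k)

include hX in
theorem rz_facsLv (L : List Fac) : RZ P (xt X) ζ (facsLvZ P v L) (facsLv X L) := by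
  induction L with
  | nil => exact (RZ.const 1).congr (by simp [facsLv])
  | cons f L ih => exact RZ.mul (rz_facLv hX f) ih

include hX in
theorem rz_facsLd (k : Fin (v + 2)) (L : List Fac) : RZ P (xt X) ζ (facsLdZ P v k L) (facsLd X k L) := by
  induction L with
  | nil => exact RZ.nil
  | cons f L ih =>
    exact RZ.add (RZ.mul (rz_facLd hX k f) (rz_facsLv hX L)) (RZ.mul (rz_facLv hX f) ih)

include hX in
theorem rz_mlv (i j : Fin (v + 2)) (A : Mt) : RZ P (xt X) ζ (mlv P v i j A) ((mdbl A : ℝ) * A.lv X i j) := by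
  cases A with
  | pow a =>
    have e : ((mdbl (Mt.pow a) : ℤ) : ℝ) = 1 := by simp [mdbl]
    rw [e, one_mul]
    unfold Mt.lv
    show RZ P (xt X) ζ (Bool.rec Z.nil (lz P v i a) (Nat.beq i j)) _
    rcases h : Nat.beq i j with _ | _
    · have : i ≠ j := by
        intro h'
        rw [h'] at h
        simp at h
      simp only [this, if_false]
      exact RZ.nil
    · have : i = j := Fin.ext (Nat.eq_of_beq_eq_true h)
      simp only [this, if_true]
      exact rz_lz hX j a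
  | sym a b =>
    have e : ((mdbl (Mt.sym a b) : ℤ) : ℝ) = 2 := by simp [mdbl]
    have h1 := ((rc_lpw (P := P) hX.toSymLS i a).mul (rc_lpw (P := P) hX.toSymLS j b))
    have h2 := ((rc_lpw (P := P) hX.toSymLS i b).mul (rc_lpw (P := P) hX.toSymLS j a))
    rw [add_comm b a] at h2
    have h3 := h1.add h2
    refine (RZ.emul (RZ.el h3) (RZ.mul (rz_pz hX i) (rz_pz hX j))).congr ?_
    rw [e]
    unfold Mt.lv LS.v
    rw [half_real]
    ring

include hX in
theorem rz_mld (k i j : Fin (v + 2)) (A : Mt) :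
    RZ P (xt X) ζ (mld P v k i j A) ((mdbl A : ℝ) * A.ld X k i j) := by
  cases A with
  | pow a =>
    have e : ((mdbl (Mt.pow a) : ℤ) : ℝ) = 1 := by simp [mdbl]
    rw [e, one_mul]
    exact rz_hmul hX a i j (rz_TZ hX k i j)
  | sym a b =>
    have e : ((mdbl (Mt.sym a b) : ℤ) : ℝ) = 2 := by simp [mdbl]
    refine (RZ.add (RZ.add (RZ.mul (rz_dvz hX a k i) (rz_vz hX b j))
      (RZ.mul (rz_vz hX a i) (rz_dvz hX b k j))) (RZ.add (RZ.mul (rz_dvz hX b k i) (rz_vz hX a j))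
      (RZ.mul (rz_vz hX b i) (rz_dvz hX a k j)))).congr ?_
    rw [e]
    unfold Mt.ld
    rw [half_real]
    ring

include hX in
theorem rz_TAz (l : Fin (v + 2)) (A : Mt) : RZ P (xt X) ζ (TAz P v l A) ((mdbl A : ℝ) * A.TA X l) := by
  cases A with
  | pow a =>
    have e : ((mdbl (Mt.pow a) : ℤ) : ℝ) = 1 := by simp [mdbl]
    rw [e, one_mul]
    refine (RZ.sum fun i => rz_lmul hX i a (rz_TZ hX l i i)).congr ?_
    unfold Mt.TA Mt.lv
    refine Finset.sum_congr rfl fun i _ => ?_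
    simp only [mul_ite, mul_zero, Finset.sum_ite_eq, Finset.mem_univ, if_true]
    ring
  | sym a b =>
    refine (RZ.sum (n := v + 2) fun i => RZ.sum (n := v + 2) (F := fun j => _) fun j =>
      RZ.mul (rz_TZ hX l i j) (rz_mlv hX i j (Mt.sym a b))).congr ?_
    unfold Mt.TA
    rw [Finset.mul_sum]
    refine Finset.sum_congr rfl fun i _ => ?_
    rw [Finset.mul_sum]
    refine Finset.sum_congr rfl fun j _ => ?_
    ring

include hX in
theorem rz_TdAz (l k : Fin (v + 2)) (A : Mt) :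
    RZ P (xt X) ζ (TdAz P v l k A) ((mdbl A : ℝ) * A.TdA X l k) := by
  refine (RZ.sum (n := v + 2) fun i => RZ.sum (n := v + 2) (F := fun j => _) fun j =>
    RZ.mul (rz_TZ hX l i j) (rz_mld hX k i j A)).congr ?_
  unfold Mt.TdA
  rw [Finset.mul_sum]
  refine Finset.sum_congr rfl fun i _ => ?_
  rw [Finset.mul_sum]
  refine Finset.sum_congr rfl fun j _ => ?_
  ring

include hX in
theorem rz_SAz (A : Mt) : RZ P (xt X) ζ (SAz P v A) ((mdbl A : ℝ) * A.SA X) := by
  refine (RZ.sum fun i => rz_lmul hX i 1 (rz_mlv hX i i A)).congr ?_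
  unfold Mt.SA
  rw [Finset.mul_sum]
  refine Finset.sum_congr rfl fun i _ => ?_
  ring

include hX in
theorem rz_trz (A : Mt) : RZ P (xt X) ζ (trz P v A) ((mdbl A : ℝ) * A.tr X) := by
  refine (RZ.sum fun i => rz_mlv hX i i A).congr ?_
  unfold Mt.tr
  rw [Finset.mul_sum]

include hX in
theorem rz_e2z : RZ P (xt X) ζ (e2z v) (X.eps ^ 2) := by
  refine (RZ.mul (rz_ez hX) (rz_ez hX)).congr ?_
  ring

include hX in
theorem rz_ldiv0 {f : Z} {fk : ℕ → Z} {F : ℝ} {G : Fin (v + 2) → ℝ} (hf : RZ P (xt X) ζ f F)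
    (hfk : ∀ k : Fin (v + 2), RZ P (xt X) ζ (fk k) (G k)) (a : ℕ) :
    RZ P (xt X) ζ (ldiv0 P v f fk a) ((Shape.v0 a).ldiv X F G) := by
  unfold ldiv0 Shape.ldiv
  exact RZ.sum fun k => RZ.add (RZ.mul (hfk k) (rz_vz hX a k)) (RZ.mul hf (rz_dvz hX a k k))

include hX in
theorem rz_ldiv1 {f : Z} {fk : ℕ → Z} {F : ℝ} {G : Fin (v + 2) → ℝ} (hf : RZ P (xt X) ζ f F)
    (hfk : ∀ k : Fin (v + 2), RZ P (xt X) ζ (fk k) (G k)) (A : Mt) :
    RZ P (xt X) ζ (ldiv1 P v f fk A) ((mdbl A : ℝ) * (Shape.p1 A).ldiv X F G) := by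
  refine (RZ.add (RZ.sum fun k => RZ.mul (hfk k) (rz_TAz hX k A))
    (RZ.mul hf (RZ.add (RZ.sum fun k => rz_TdAz hX k k A)
      (RZ.smul (Int.ofNat (v + 2)) (RZ.mul (rz_e2z hX) (rz_SAz hX A)))))).congr ?_
  unfold Shape.ldiv
  simp only
  rw [← Finset.mul_sum]
  have e1 : ∑ k, G k * ((mdbl A : ℝ) * A.TA X k) = (mdbl A : ℝ) * ∑ k, G k * A.TA X k := by
    rw [Finset.mul_sum]
    refine Finset.sum_congr rfl fun k _ => ?_
    ring
  rw [e1]
  have e2 : ((Int.ofNat (v + 2) : ℤ) : ℝ) = ((v + 2 : ℕ) : ℝ) := by simp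
  rw [e2]
  ring

include hX in
theorem rz_mrow (k : Fin (v + 2)) {q : ℕ → Z} {Q : Fin (v + 2) → ℝ}
    (hq : ∀ l : Fin (v + 2), RZ P (xt X) ζ (q l) (Q l)) (A : Mt) :
    RZ P (xt X) ζ (mrow P v k q A) ((mdbl A : ℝ) * ∑ l, A.lv X k l * Q l) := by
  cases A with
  | pow a =>
    have e : ((mdbl (Mt.pow a) : ℤ) : ℝ) = 1 := by simp [mdbl]
    rw [e, one_mul]
    refine (rz_lmul hX k a (hq k)).congr ?_
    unfold Mt.lv
    simp
  | sym a b =>
    refine (RZ.sum fun l => RZ.mul (rz_mlv hX k l (Mt.sym a b)) (hq l)).congr ?_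
    rw [Finset.mul_sum]
    refine Finset.sum_congr rfl fun l _ => ?_
    ring

include hX in
theorem rz_ldiv2 {f : Z} {fk : ℕ → Z} {F : ℝ} {G : Fin (v + 2) → ℝ} (hf : RZ P (xt X) ζ f F)
    (hfk : ∀ k : Fin (v + 2), RZ P (xt X) ζ (fk k) (G k)) (A B : Mt) :
    RZ P (xt X) ζ (ldiv2 P v f fk A B)
      ((mdbl A : ℝ) * (mdbl B : ℝ) * (Shape.h1 A B).ldiv X F G) := by
  refine (RZ.add
    (RZ.sum fun k => RZ.mul (hfk k) (RZ.add
      (rz_mrow hX k (fun l => rz_TAz hX l A) B)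
      (RZ.smul (-1) (rz_mrow hX k (fun l => rz_TAz hX l B) A))))
    (RZ.mul hf (RZ.add
      (RZ.sum fun k => RZ.add
        (RZ.add (RZ.sum fun l => RZ.mul (rz_mld hX k k l B) (rz_TAz hX l A))
          (rz_mrow hX k (fun l => rz_TdAz hX l k A) B))
        (RZ.smul (-1) (RZ.add (RZ.sum fun l => RZ.mul (rz_mld hX k k l A) (rz_TAz hX l B))
          (rz_mrow hX k (fun l => rz_TdAz hX l k B) A))))
      (RZ.mul (rz_e2z hX) (RZ.add (RZ.mul (rz_trz hX B) (rz_SAz hX A))
        (RZ.smul (-1) (RZ.mul (rz_trz hX A) (rz_SAz hX B)))))))).congr ?_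
  unfold Shape.ldiv
  simp only
  set α : ℝ := (mdbl A : ℝ)
  set β : ℝ := (mdbl B : ℝ)
  have e1 : ∀ k, (β * ∑ l, B.lv X k l * (α * A.TA X l) +
      ((-1 : ℤ) : ℝ) * (α * ∑ l, A.lv X k l * (β * B.TA X l))) =
      α * β * ∑ l, (B.lv X k l * A.TA X l - A.lv X k l * B.TA X l) := by
    intro k
    rw [Finset.sum_sub_distrib]
    have h1 : ∑ l, B.lv X k l * (α * A.TA X l) = α * ∑ l, B.lv X k l * A.TA X l := by
      rw [Finset.mul_sum]
      exact Finset.sum_congr rfl fun l _ => by ring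
    have h2 : ∑ l, A.lv X k l * (β * B.TA X l) = β * ∑ l, A.lv X k l * B.TA X l := by
      rw [Finset.mul_sum]
      exact Finset.sum_congr rfl fun l _ => by ring
    rw [h1, h2]
    push_cast
    ring
  have e2 : ∀ k, ((∑ l, β * B.ld X k k l * (α * A.TA X l)) +
        β * ∑ l, B.lv X k l * (α * A.TdA X l k)) +
      ((-1 : ℤ) : ℝ) * ((∑ l, α * A.ld X k k l * (β * B.TA X l)) +
        α * ∑ l, A.lv X k l * (β * B.TdA X l k)) =
      α * β * ∑ l, (B.ld X k k l * A.TA X l + B.lv X k l * A.TdA X l k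
          - A.ld X k k l * B.TA X l - A.lv X k l * B.TdA X l k) := by
    intro k
    rw [Finset.sum_sub_distrib, Finset.sum_sub_distrib, Finset.sum_add_distrib]
    have h1 : ∑ l, β * B.ld X k k l * (α * A.TA X l) = α * β * ∑ l, B.ld X k k l * A.TA X l := by
      rw [Finset.mul_sum]
      exact Finset.sum_congr rfl fun l _ => by ring
    have h2 : ∑ l, α * A.ld X k k l * (β * B.TA X l) = α * β * ∑ l, A.ld X k k l * B.TA X l := by
      rw [Finset.mul_sum]
      exact Finset.sum_congr rfl fun l _ => by ring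
    have h3 : ∑ l, B.lv X k l * (α * A.TdA X l k) = α * ∑ l, B.lv X k l * A.TdA X l k := by
      rw [Finset.mul_sum]
      exact Finset.sum_congr rfl fun l _ => by ring
    have h4 : ∑ l, A.lv X k l * (β * B.TdA X l k) = β * ∑ l, A.lv X k l * B.TdA X l k := by
      rw [Finset.mul_sum]
      exact Finset.sum_congr rfl fun l _ => by ring
    rw [h1, h2, h3, h4]
    push_cast
    ring
  rw [Finset.sum_congr rfl fun k _ => congrArg (G k * ·) (e1 k),
    Finset.sum_congr rfl fun k _ => e2 k, ← Finset.mul_sum]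
  have e3 : ∑ k, G k * (α * β * ∑ l, (B.lv X k l * A.TA X l - A.lv X k l * B.TA X l)) =
      α * β * ∑ k, G k * ∑ l, (B.lv X k l * A.TA X l - A.lv X k l * B.TA X l) := by
    rw [Finset.mul_sum]
    exact Finset.sum_congr rfl fun l _ => by ring
  rw [e3]
  push_cast
  ring

include hX in
theorem rz_fkz (vd exn : ℤ) (L : List Fac) (k : Fin (v + 2)) :
    RZ P (xt X) ζ (fkz P v vd exn L k)
      ((vd : ℝ) * facsLd X k L + (exn : ℝ) * (facsLv X L * X.w k)) :=
  RZ.add (RZ.smul vd (rz_facsLd hX k L)) (RZ.smul exn (RZ.mul (rz_facsLv hX L) (rz_wz hX k)))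

include hX in
/-- the packed shape divergence -/
theorem rz_shapeZ {ϖ : ℚ} {vd exn : ℤ} (g : Term) (hg : ∀ a b c, g.shape ≠ Shape.h2 a b c)
    (hex : (exn : ℚ) = vd * g.ex ϖ) :
    RZ P (xt X) ζ (shapeZ P v vd exn g.facs g.shape) ((vd : ℝ) * (sdbl g.shape : ℝ) *
      g.shape.ldiv X (facsLv X g.facs)
        (fun k => facsLd X k g.facs + algebraMap ℚ ℝ (g.ex ϖ) * facsLv X g.facs * X.w k)) := by
  have hf := RZ.smul vd (rz_facsLv (P := P) hX g.facs)
  have hfk := rz_fkz (P := P) hX vd exn g.facs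
  have hex' : (exn : ℝ) = vd * algebraMap ℚ ℝ (g.ex ϖ) := by
    rw [eq_ratCast]
    exact_mod_cast congrArg (fun q : ℚ => (q : ℝ)) hex
  have e : (fun k : Fin (v + 2) => (vd : ℝ) * facsLd X k g.facs +
      (exn : ℝ) * (facsLv X g.facs * X.w k)) =
      fun k => (vd : ℝ) * (facsLd X k g.facs +
        algebraMap ℚ ℝ (g.ex ϖ) * facsLv X g.facs * X.w k) := by
    funext k
    rw [hex']
    ring
  have hfk' : ∀ k : Fin (v + 2), RZ P (xt X) ζ (fkz P v vd exn g.facs k) ((fun k => (vd : ℝ) *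
      (facsLd X k g.facs + algebraMap ℚ ℝ (g.ex ϖ) * facsLv X g.facs * X.w k)) k) := by
    intro k
    rw [← e]
    exact hfk k
  rcases hs : g.shape with a | A | ⟨A, B⟩ | ⟨a, b, c⟩
  · refine (rz_ldiv0 hX hf hfk' a).congr ?_
    rw [ldiv_scale]
    simp [sdbl]
  · refine (rz_ldiv1 hX hf hfk' A).congr ?_
    rw [ldiv_scale]
    have : (sdbl (Shape.p1 A) : ℤ) = mdbl A := rfl
    rw [this]
    ring
  · refine (rz_ldiv2 hX hf hfk' A B).congr ?_
    rw [ldiv_scale]
    have : (sdbl (Shape.h1 A B) : ℤ) = mdbl A * mdbl B := rfl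
    rw [this]
    push_cast
    ring
  · exact absurd hs (hg a b c)

end OPC.Psx
end

section

/-! # K02: D^2u = 0 implies one-dimensional -/

open MeasureTheory Set Filter Topology

namespace OPC

variable {n : ℕ} {E : Set (V n)} {u : V n → ℝ}

private theorem exists_orth (hn : 2 ≤ n) (v : V n) : ∃ p : V n, p ≠ 0 ∧ inner ℝ p v = 0 := by
  by_contra hcon
  push Not at hcon
  have h1 : (ℝ ∙ v)ᗮ = ⊥ := by
    rw [Submodule.eq_bot_iff]
    intro x hx
    by_contra hx0
    exact hcon x hx0 (Submodule.mem_orthogonal_singleton_iff_inner_left.1 hx)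
  rw [Submodule.orthogonal_eq_bot_iff] at h1
  have h2 : Module.finrank ℝ (ℝ ∙ v) ≤ 1 := by
    refine (finrank_span_le_card ({v} : Set (V n))).trans ?_
    simp
  rw [h1, finrank_top, finrank_euclideanSpace, Fintype.card_fin] at h2
  omega

/-- Conclusion. Sketch: `v` from `Sol.component` for some `x₀ ∈ E`. If `E ≠ {⟪x,v⟫ > 0}` there is
`x₁ ∈ E`, `⟪x₁, v⟫ ≤ 0`; WLOG `⟪x₁,v⟫ < 0` (`E` open); its half space `{⟪x, v'⟫ > 0}` has `u = ⟪x,v'⟫`;
if the two half spaces meet then `⟪x,v⟫ = ⟪x,v'⟫` on a nonempty open set, so `v = v'`, contradiction;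
so they are disjoint and `v' = -v`. Then at `p ≠ 0` with `⟪p,v⟫ = 0` (in `frontier E`: `u p = 0`
since `u` is continuous) the function `f` of `h.bdry` satisfies `f > 0` off the hyperplane and `f ≤ 0`
on it near `p`, so `fderiv f p = 0`, contradiction. So `E = {⟪x,v⟫ > 0}`. -/
theorem Sol.flat (h : Sol E u) (hn : 2 ≤ n) (hN : ∀ x ∈ E, NN u x = 0) :
    ∃ v : V n, ‖v‖ = 1 ∧ ∀ x, u x = max (inner ℝ x v) 0 := by
  obtain ⟨x₀, hx₀⟩ := h.ne
  obtain ⟨v, hv1, _, hvE⟩ := h.component hn hN hx₀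
  refine ⟨v, hv1, fun x => ?_⟩
  rcases lt_or_ge 0 (inner ℝ x v) with hx | hx
  · rw [(hvE x hx).2, max_eq_left hx.le]
  rw [max_eq_right hx]
  by_contra hux
  have hxE : x ∈ E := by
    by_contra hxE
    exact hux (h.zero x hxE)
  obtain ⟨v', hv1', hxv', hvE'⟩ := h.component hn hN hxE
  have hvv : inner ℝ v v = (1 : ℝ) := by
    rw [real_inner_self_eq_norm_sq, hv1]
    norm_num
  have hvv' : inner ℝ v' v' = (1 : ℝ) := by
    rw [real_inner_self_eq_norm_sq, hv1']
    norm_num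
  -- `v' = -v`
  have hneg : v' = -v := by
    by_contra hne
    set c : ℝ := inner ℝ v v' with hc
    have hc' : inner ℝ v' v = c := by rw [hc, real_inner_comm]
    have h1 : ‖v + v'‖ ^ 2 = 2 + 2 * c := by
      rw [← real_inner_self_eq_norm_sq, inner_add_left, inner_add_right, inner_add_right, hvv, hvv',
        hc']
      ring
    have h2 : 0 < ‖v + v'‖ ^ 2 := by
      have : v + v' ≠ 0 := by
        intro h0
        exact hne (eq_neg_of_add_eq_zero_right h0)
      positivity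
    have hc1 : 0 < 1 + c := by linarith
    set t : ℝ := (1 + c) / 2 with ht
    have ht0 : 0 < t := by positivity
    set y : V n := v + v' + t • v with hy
    have hyv : inner ℝ y v = 1 + c + t := by
      rw [hy, inner_add_left, inner_add_left, real_inner_smul_left, hvv, hc']
      ring
    have hyv' : inner ℝ y v' = 1 + c + t * c := by
      rw [hy, inner_add_left, inner_add_left, real_inner_smul_left, hvv', ← hc]
      ring
    have h3 := (hvE y (by rw [hyv]; positivity)).2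
    have h4 := (hvE' y (by rw [hyv']; nlinarith)).2
    rw [h3, hyv, hyv'] at h4
    have hc2 : c = 1 := by
      have : t * (1 - c) = 0 := by linarith
      rcases mul_eq_zero.1 this with h5 | h5
      · exact absurd h5 ht0.ne'
      · linarith
    have h5 : ‖v - v'‖ ^ 2 = 0 := by
      rw [← real_inner_self_eq_norm_sq, inner_sub_left, inner_sub_right, inner_sub_right, hvv, hvv',
        hc', ← hc, hc2]
      ring
    have h6 : v = v' := by
      have : ‖v - v'‖ = 0 := by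
        exact pow_eq_zero_iff (two_ne_zero) |>.1 h5
      exact sub_eq_zero.1 (norm_eq_zero.1 this)
    rw [← h6] at hxv'
    linarith
  -- the point `p`
  obtain ⟨p, hp0, hpv⟩ := exists_orth hn v
  have hposE : ∀ y : V n, inner ℝ y v ≠ 0 → y ∈ E := by
    intro y hy
    rcases lt_or_gt_of_ne hy with hy1 | hy1
    · apply (hvE' y _).1
      rw [hneg, inner_neg_right]
      linarith
    · exact (hvE y hy1).1
  have hlim : ∀ y : V n, Tendsto (fun t : ℝ => y + t • v) (𝓝[>] 0) (𝓝 y) := by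
    intro y
    have h1 : Tendsto (fun t : ℝ => y + t • v) (𝓝 0) (𝓝 (y + (0 : ℝ) • v)) := by
      apply Continuous.tendsto
      fun_prop
    rw [zero_smul, add_zero] at h1
    exact h1.mono_left nhdsWithin_le_nhds
  have hin : ∀ (y : V n), inner ℝ y v = (0 : ℝ) → ∀ t : ℝ, inner ℝ (y + t • v) v = t := by
    intro y hy t
    rw [inner_add_left, real_inner_smul_left, hy, hvv]
    ring
  have hup : u p = 0 := by
    have h1 : Tendsto (fun t : ℝ => u (p + t • v)) (𝓝[>] 0) (𝓝 (u p)) :=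
      (h.cont.tendsto p).comp (hlim p)
    have h2 : Tendsto (fun t : ℝ => u (p + t • v)) (𝓝[>] 0) (𝓝 0) := by
      have h3 : Tendsto (fun t : ℝ => t) (𝓝[>] 0) (𝓝 0) := nhdsWithin_le_nhds
      refine h3.congr' ?_
      filter_upwards [self_mem_nhdsWithin] with t ht
      rw [mem_Ioi] at ht
      rw [(hvE (p + t • v) (by rw [hin p hpv t]; exact ht)).2, hin p hpv t]
    exact tendsto_nhds_unique h1 h2
  have hpE : p ∉ E := fun hpE => absurd (h.pos p hpE) (by rw [hup]; exact lt_irrefl 0)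
  have hpfr : p ∈ frontier E := by
    rw [frontier, h.isOpen.interior_eq]
    refine ⟨?_, hpE⟩
    apply mem_closure_of_tendsto (hlim p)
    filter_upwards [self_mem_nhdsWithin] with t ht
    rw [mem_Ioi] at ht
    exact hposE _ (by rw [hin p hpv t]; exact ht.ne')
  obtain ⟨U, hU, f, hf, hfp, hfU⟩ := h.bdry p hpfr hp0
  have hfp0 : f p ≤ 0 := by
    by_contra hlt
    push Not at hlt
    exact hpE ((hfU p (mem_of_mem_nhds hU)).2 hlt)
  have hmin : IsLocalMin f p := by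
    have hU2 : interior U ∈ 𝓝 p := interior_mem_nhds.2 hU
    filter_upwards [hU2] with y hy
    refine hfp0.trans ?_
    by_cases hyv : inner ℝ y v = (0 : ℝ)
    · have h1 : Tendsto (fun t : ℝ => f (y + t • v)) (𝓝[>] 0) (𝓝 (f y)) :=
        (hf.continuous.tendsto y).comp (hlim y)
      refine ge_of_tendsto h1 ?_
      have h2 : ∀ᶠ t : ℝ in 𝓝[>] 0, y + t • v ∈ interior U :=
        (hlim y).eventually (isOpen_interior.mem_nhds hy)
      filter_upwards [h2, self_mem_nhdsWithin] with t ht1 ht2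
      rw [mem_Ioi] at ht2
      exact ((hfU _ (interior_subset ht1)).1 (hposE _ (by rw [hin y hyv t]; exact ht2.ne'))).le
    · exact ((hfU y (interior_subset hy)).1 (hposE y hyv)).le
  exact hfp hmin.fderiv_eq_zero

end OPC
end
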