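import Pool.Agent.Lib.MP_9059b8_an.P14
import Pool.Agent.Lib.MP_9059b8_an.A01
import Pool.Agent.Lib.MP_9059b8_an.J06
import Pool.Agent.Lib.MP_9059b8_an.J07
import Pool.Agent.Lib.MP_9059b8_an.J10
import Pool.Agent.Lib.MP_9059b8_an.K02
import Pool.Agent.Lib.MP_9059b8_an.P03
import Pool.Agent.Lib.MP_9059b8_an.P11
import Pool.Agent.Lib.MP_9059b8_an.A06

section

/-! # Certificate data for `n = 5`: constants -/

namespace OPC.Psd.N5

def P4 : Par := ⟨120, 5⟩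
def esA : List (List ℕ) := [[2, 0, 0], [1, 1, 0], [1, 0, 1], [0, 2, 0], [0, 1, 1], [0, 0, 2]]
def esB : List (List ℕ) := [[1, 0, 0], [0, 1, 0], [0, 0, 1]]
def tabA : List ℕ := [240, 720, 120, 1200, 600, 0]
def tabB : List ℕ := [120, 600, 0]

theorem esA_ok : ∀ e ∈ esA, e.length ≤ 2 + 1 ∧ e.sum = 1 + 1 := by decide
theorem esB_ok : ∀ e ∈ esB, e.length ≤ 2 + 1 ∧ e.sum = 1 := by decide
theorem tabA_ok : esA.map (shf P4 2 0) = tabA := by decide
theorem tabB_ok : esB.map (shf P4 2 0) = tabB := by decide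

end OPC.Psd.N5
end

section

section

/-! # J08: shells -/

open MeasureTheory Set Filter Topology
open scoped Pointwise

namespace OPC

variable {n : ℕ}

/-- Shells: for `G` homogeneous of degree `-n` on the cone `E'`,
`∫_{E' ∩ {e^{-j-1} ≤ |x| < e^{-j}}} G` does not depend on `j`.
Sketch: scaling (`MeasureTheory.Measure.setIntegral_comp_smul` or `integral_comp_smul`). -/
theorem shell_integral {E' : Set (V n)} (hE : MeasurableSet E')
    (hc : ∀ s : ℝ, 0 < s → ∀ x : V n, s • x ∈ E' ↔ x ∈ E') {G : V n → ℝ}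
    (hG : ∀ s : ℝ, 0 < s → ∀ x ∈ E', G (s • x) = s ^ (-(n : ℤ)) * G x) (j : ℕ) :
    ∫ x in E' ∩ {x | Real.exp (-(j : ℝ) - 1) ≤ ‖x‖ ∧ ‖x‖ < Real.exp (-(j : ℝ))}, G x
      = ∫ x in E' ∩ {x | Real.exp (-1) ≤ ‖x‖ ∧ ‖x‖ < 1}, G x := by
  set R : ℝ := Real.exp (-(j : ℝ)) with hR
  have hRpos : 0 < R := Real.exp_pos _
  have hset : R • (E' ∩ {x : V n | Real.exp (-1) ≤ ‖x‖ ∧ ‖x‖ < 1})
      = E' ∩ {x : V n | Real.exp (-(j : ℝ) - 1) ≤ ‖x‖ ∧ ‖x‖ < R} := by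
    ext y
    rw [Set.mem_smul_set]
    have hexp : Real.exp (-(j : ℝ) - 1) = R * Real.exp (-1) := by
      rw [hR, ← Real.exp_add]; ring_nf
    constructor
    · rintro ⟨x, ⟨hx1, hx2, hx3⟩, rfl⟩
      refine ⟨(hc R hRpos x).2 hx1, ?_, ?_⟩
      · rw [norm_smul, Real.norm_of_nonneg hRpos.le, hexp]
        exact mul_le_mul_of_nonneg_left hx2 hRpos.le
      · rw [norm_smul, Real.norm_of_nonneg hRpos.le]
        calc R * ‖x‖ < R * 1 := mul_lt_mul_of_pos_left hx3 hRpos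
          _ = R := mul_one R
    · rintro ⟨hy1, hy2, hy3⟩
      refine ⟨R⁻¹ • y, ⟨(hc R⁻¹ (inv_pos.2 hRpos) y).2 hy1, ?_, ?_⟩, ?_⟩
      · rw [norm_smul, Real.norm_of_nonneg (inv_pos.2 hRpos).le]
        rw [hexp] at hy2
        calc Real.exp (-1) = R⁻¹ * (R * Real.exp (-1)) := by field_simp
          _ ≤ R⁻¹ * ‖y‖ := mul_le_mul_of_nonneg_left hy2 (inv_pos.2 hRpos).le
      · rw [norm_smul, Real.norm_of_nonneg (inv_pos.2 hRpos).le]
        calc R⁻¹ * ‖y‖ < R⁻¹ * R := mul_lt_mul_of_pos_left hy3 (inv_pos.2 hRpos)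
          _ = 1 := inv_mul_cancel₀ hRpos.ne'
      · rw [smul_smul, mul_inv_cancel₀ hRpos.ne', one_smul]
  have hmeas : MeasurableSet (E' ∩ {x : V n | Real.exp (-1) ≤ ‖x‖ ∧ ‖x‖ < 1}) := by
    refine hE.inter ?_
    exact (measurableSet_le measurable_const measurable_norm).inter
      (measurableSet_lt measurable_norm measurable_const)
  have h1 := Measure.setIntegral_comp_smul_of_pos (volume : Measure (V n)) G
    (E' ∩ {x : V n | Real.exp (-1) ≤ ‖x‖ ∧ ‖x‖ < 1}) hRpos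
  rw [hset] at h1
  have h2 : ∫ x in E' ∩ {x : V n | Real.exp (-1) ≤ ‖x‖ ∧ ‖x‖ < 1}, G (R • x)
      = ∫ x in E' ∩ {x : V n | Real.exp (-1) ≤ ‖x‖ ∧ ‖x‖ < 1}, R ^ (-(n : ℤ)) * G x :=
    setIntegral_congr_fun hmeas (fun x hx => hG R hRpos x hx.1)
  rw [h2, integral_const_mul] at h1
  have hfr : Module.finrank ℝ (V n) = n := by simp [V]
  rw [hfr, smul_eq_mul, zpow_neg, zpow_natCast] at h1
  have hne : (R ^ n)⁻¹ ≠ 0 := inv_ne_zero (pow_ne_zero _ hRpos.ne')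
  exact (mul_left_cancel₀ hne h1).symm

end OPC
end

section

/-! # J09: conclusion S = 0 -/

open MeasureTheory Set Filter Topology

namespace OPC

variable {n : ℕ} {E : Set (V n)} {u : V n → ℝ}

/-- half open annulus `e^{-b} ≤ |x| < e^{-a}` -/
private def sh (a b : ℕ) : Set (V n) := {x | Real.exp (-(b : ℝ)) ≤ ‖x‖ ∧ ‖x‖ < Real.exp (-(a : ℝ))}

private theorem sh_meas (a b : ℕ) : MeasurableSet (sh a b : Set (V n)) :=
  (measurableSet_le measurable_const measurable_norm).inter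
    (measurableSet_lt measurable_norm measurable_const)

private theorem NN_hom (h : Sol E u) {s : ℝ} (hs : 0 < s) {x : V n} (hx : x ∈ E) :
    NN u (s • x) = (s⁻¹) ^ 2 * NN u x := by
  unfold NN
  rw [Finset.mul_sum]
  refine Finset.sum_congr rfl fun i _ => ?_
  rw [Finset.mul_sum]
  refine Finset.sum_congr rfl fun j _ => ?_
  rw [h.hom_S i j s hs x hx, mul_pow]

private theorem isOpen_E' (h : Sol E u) : IsOpen (E ∩ {x | NN u x ≠ 0}) :=
  h.smooth_NN.continuousOn.isOpen_inter_preimage h.isOpen isOpen_compl_singleton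

private theorem cone_E' (h : Sol E u) {s : ℝ} (hs : 0 < s) (x : V n) :
    s • x ∈ E ∩ {x | NN u x ≠ 0} ↔ x ∈ E ∩ {x | NN u x ≠ 0} := by
  constructor
  · rintro ⟨h1, h2⟩
    have hx := (h.smul_mem hs).1 h1
    refine ⟨hx, fun h3 => h2 ?_⟩
    rw [NN_hom h hs hx, h3, mul_zero]
  · rintro ⟨h1, h2⟩
    refine ⟨(h.smul_mem hs).2 h1, ?_⟩
    show NN u (s • x) ≠ 0
    rw [NN_hom h hs h1]
    exact mul_ne_zero (pow_ne_zero _ (inv_ne_zero hs.ne')) h2

private theorem F_pos {F : V n → ℝ} {W : Fin n → V n → ℝ} {ϖ t : ℝ} (h : Sol E u)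
    (hc : PCert E u F W ϖ t) {x : V n} (hx : x ∈ E ∩ {x | NN u x ≠ 0}) : 0 < F x := by
  have hx0 : 0 < ‖x‖ := norm_pos_iff.2 (h.ne_zero hx.1)
  obtain ⟨C, hC, hg⟩ := hc.growth ‖x‖ ‖x‖ hx0
  have h1 := (hg x hx.1 ⟨le_refl _, le_refl _⟩ hx.2).1
  have h2 : 0 ≤ NN u x := Finset.sum_nonneg fun i _ => Finset.sum_nonneg fun j _ => sq_nonneg _
  have h3 : 0 < NN u x := lt_of_le_of_ne h2 (Ne.symm hx.2)
  have h4 : 0 < C⁻¹ * NN u x ^ (ϖ / 2) := by
    have := Real.rpow_pos_of_pos h3 (ϖ / 2)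
    have hC' : 0 < C := by linarith
    positivity
  linarith

private theorem G_int {F : V n → ℝ} {W : Fin n → V n → ℝ} {ϖ t : ℝ} (h : Sol E u)
    (hc : PCert E u F W ϖ t) (h1 : 1 < ϖ) {a b : ℝ} (ha : 0 < a) {s : Set (V n)} (hs : MeasurableSet s)
    (hsab : s ⊆ Ann a b) :
    IntegrableOn (fun x => F x / ‖x‖ ^ 2) (E ∩ {x | NN u x ≠ 0} ∩ s) := by
  have hE' := isOpen_E' h
  obtain ⟨C, hC, hg⟩ := hc.growth a b ha
  obtain ⟨C₂, c₂, hC₂, _, hb⟩ := h.bounds (b := b) ha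
  have hfin : volume (E ∩ {x | NN u x ≠ 0} ∩ s) < ⊤ := by
    refine lt_of_le_of_lt (measure_mono (t := Metric.closedBall 0 b) ?_) measure_closedBall_lt_top
    intro x hx
    rw [Metric.mem_closedBall, dist_zero_right]
    exact (hsab hx.2).2
  have hcont : ContinuousOn (fun x => F x / ‖x‖ ^ 2) (E ∩ {x | NN u x ≠ 0}) := by
    refine hc.F_smooth.continuousOn.div (continuous_norm.pow 2).continuousOn ?_
    intro x hx
    exact pow_ne_zero _ (norm_ne_zero_iff.2 (h.ne_zero hx.1))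
  refine IntegrableOn.of_bound hfin
    ((hcont.mono Set.inter_subset_left).aestronglyMeasurable (hE'.measurableSet.inter hs))
    (C * C₂ ^ (ϖ / 2) / a ^ 2) ?_
  refine ae_restrict_of_forall_mem (hE'.measurableSet.inter hs) ?_
  intro x hx
  have hxA := hsab hx.2
  have hF := F_pos h hc hx.1
  have hN : 0 ≤ NN u x := Finset.sum_nonneg fun i _ => Finset.sum_nonneg fun j _ => sq_nonneg _
  have hNC : NN u x ≤ C₂ := (hb x hx.1.1 hxA).2.2.2.2.2.2.2.1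
  have h2 : F x ≤ C * C₂ ^ (ϖ / 2) := by
    refine (hg x hx.1.1 hxA hx.1.2).2.1.trans ?_
    exact mul_le_mul_of_nonneg_left (Real.rpow_le_rpow hN hNC (by linarith)) (by linarith)
  have h3 : a ^ 2 ≤ ‖x‖ ^ 2 := pow_le_pow_left₀ ha.le hxA.1 2
  rw [Real.norm_eq_abs, abs_of_nonneg (by positivity)]
  have h4 : 0 ≤ C * C₂ ^ (ϖ / 2) := hF.le.trans h2
  exact div_le_div₀ h4 h2 (by positivity) h3

private theorem sh_sub (a b : ℕ) : (sh a b : Set (V n)) ⊆ Ann (Real.exp (-(b : ℝ))) (Real.exp (-(a : ℝ))) :=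
  fun _ hx => ⟨hx.1, hx.2.le⟩

private theorem int_sh {F : V n → ℝ} {W : Fin n → V n → ℝ} {ϖ t : ℝ} (h : Sol E u)
    (hc : PCert E u F W ϖ t) (h1 : 1 < ϖ) (a k : ℕ) :
    ∫ x in E ∩ {x | NN u x ≠ 0} ∩ sh a (a + k), F x / ‖x‖ ^ 2 =
      k * ∫ x in E ∩ {x | NN u x ≠ 0} ∩ sh 0 1, F x / ‖x‖ ^ 2 := by
  have hE' := isOpen_E' h
  have hG : ∀ s : ℝ, 0 < s → ∀ x ∈ E ∩ {x | NN u x ≠ 0},
      F (s • x) / ‖s • x‖ ^ 2 = s ^ (-(n : ℤ)) * (F x / ‖x‖ ^ 2) := by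
    intro s hs x hx
    rw [hc.F_hom s hs x hx.1 hx.2, norm_smul, Real.norm_eq_abs, abs_of_pos hs, mul_pow,
      show (2 : ℤ) - (n : ℤ) = ((2 : ℕ) : ℤ) + (-(n : ℤ)) by push_cast; ring, zpow_add₀ hs.ne',
      zpow_natCast]
    have hx0 : ‖x‖ ≠ 0 := norm_ne_zero_iff.2 (h.ne_zero hx.1)
    field_simp
  have hshell : ∀ j : ℕ, ∫ x in E ∩ {x | NN u x ≠ 0} ∩ sh j (j + 1), F x / ‖x‖ ^ 2 =
      ∫ x in E ∩ {x | NN u x ≠ 0} ∩ sh 0 1, F x / ‖x‖ ^ 2 := by
    intro j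
    have h2 := shell_integral (E' := E ∩ {x | NN u x ≠ 0}) hE'.measurableSet
      (fun s hs x => cone_E' h hs x) (G := fun x => F x / ‖x‖ ^ 2) hG j
    have e1 : (sh j (j + 1) : Set (V n)) =
        {x | Real.exp (-(j : ℝ) - 1) ≤ ‖x‖ ∧ ‖x‖ < Real.exp (-(j : ℝ))} := by
      unfold sh
      rw [show (-((j + 1 : ℕ) : ℝ)) = -(j : ℝ) - 1 by push_cast; ring]
    have e2 : (sh 0 1 : Set (V n)) = {x | Real.exp (-1) ≤ ‖x‖ ∧ ‖x‖ < 1} := by
      unfold sh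
      rw [show (-((1 : ℕ) : ℝ)) = -1 by push_cast; ring,
        show (-((0 : ℕ) : ℝ)) = 0 by push_cast; ring, Real.exp_zero]
    rw [e1, e2]
    exact h2
  induction k with
  | zero =>
    have e : (sh a (a + 0) : Set (V n)) = ∅ := by
      ext x
      simp only [sh, add_zero, Set.mem_setOf_eq, Set.mem_empty_iff_false, iff_false, not_and, not_lt]
      exact fun h => h
    rw [e, Set.inter_empty]
    simp
  | succ k ih =>
    have e : E ∩ {x | NN u x ≠ 0} ∩ sh a (a + (k + 1)) =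
        (E ∩ {x | NN u x ≠ 0} ∩ sh a (a + k)) ∪ (E ∩ {x | NN u x ≠ 0} ∩ sh (a + k) (a + k + 1)) := by
      rw [← Set.inter_union_distrib_left]
      congr 1
      ext x
      simp only [sh, Set.mem_setOf_eq, Set.mem_union]
      have h5 : Real.exp (-((a + k : ℕ) : ℝ)) ≤ Real.exp (-(a : ℝ)) := by
        apply Real.exp_le_exp.2
        push_cast
        have : (0 : ℝ) ≤ k := Nat.cast_nonneg k
        linarith
      have h6 : Real.exp (-((a + (k + 1) : ℕ) : ℝ)) ≤ Real.exp (-((a + k : ℕ) : ℝ)) := by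
        apply Real.exp_le_exp.2
        push_cast
        linarith
      constructor
      · rintro ⟨h7, h8⟩
        rcases le_or_gt (Real.exp (-((a + k : ℕ) : ℝ))) ‖x‖ with h9 | h9
        · exact Or.inl ⟨h9, h8⟩
        · exact Or.inr ⟨h7, h9⟩
      · rintro (⟨h7, h8⟩ | ⟨h7, h8⟩)
        · exact ⟨h6.trans h7, h8⟩
        · exact ⟨h7, lt_of_lt_of_le h8 h5⟩
    have hdis : Disjoint (E ∩ {x | NN u x ≠ 0} ∩ sh a (a + k))
        (E ∩ {x | NN u x ≠ 0} ∩ sh (a + k) (a + k + 1)) := by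
      rw [Set.disjoint_left]
      rintro x ⟨_, h7⟩ ⟨_, h8⟩
      exact absurd h8.2 (not_lt.2 h7.1)
    rw [e, setIntegral_union hdis (hE'.measurableSet.inter (sh_meas _ _))
      (G_int h hc h1 (Real.exp_pos _) (sh_meas _ _) (sh_sub _ _))
      (G_int h hc h1 (Real.exp_pos _) (sh_meas _ _) (sh_sub _ _)), ih, hshell (a + k)]
    push_cast
    ring

/-- CONCLUSION: a certificate forces `D²u = 0`.
Sketch: `G = F/|x|²` on `E' = E ∩ {NN ≠ 0}` (open cone), homogeneous of degree `-n`, nonnegative,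
bounded on annuli; `c₀ = ∫_{shell} G`. `PCert.step4` with `η_L` (`exists_log_cutoff`):
the left side is `≥ t (L - 2) c₀` (shells inside `[-5L/2, -3L/2]`), the right side
`≤ (C/L²) (2 L + 2) c₀` (shells covering `[-3L, -L]`), for all `L`; so `c₀ = 0`, `F = 0` a.e. on
`E' ∩ shell`, but `F > 0` on this open set, so it is empty, and `NN = 0` on `E` by homogeneity. -/
theorem PCert.conclusion {F : V n → ℝ} {W : Fin n → V n → ℝ} {ϖ t : ℝ} (h : Sol E u)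
    (hst : Stab u) (hn : 2 ≤ n) (hc : PCert E u F W ϖ t) (h1 : 1 < ϖ) (h2 : ϖ ≤ 2) (ht : 0 < t) :
    ∀ x ∈ E, NN u x = 0 := by
  have hE' := isOpen_E' h
  obtain ⟨c₀, hc₀⟩ : ∃ c, c = ∫ x in E ∩ {x | NN u x ≠ 0} ∩ sh 0 1, F x / ‖x‖ ^ 2 := ⟨_, rfl⟩
  have hGpos : ∀ x ∈ E ∩ {x | NN u x ≠ 0}, 0 < F x / ‖x‖ ^ 2 := by
    intro x hx
    have h3 := F_pos h hc hx
    have h4 : 0 < ‖x‖ := norm_pos_iff.2 (h.ne_zero hx.1)
    positivity
  have hc₀' : 0 ≤ c₀ := by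
    rw [hc₀]
    exact setIntegral_nonneg (hE'.measurableSet.inter (sh_meas _ _)) fun x hx => (hGpos x hx.1).le
  obtain ⟨C, hC, hcut⟩ := exists_log_cutoff (n := n)
  -- the main inequality
  have main : ∀ M : ℕ, 1 ≤ M → t * (2 * M * c₀) ≤ C / (2 * M) ^ 2 * ((4 * M + 1) * c₀) := by
    intro M hM
    obtain ⟨η, ρ, hη, hη0, hρ, hs, hone, hgrad⟩ := hcut (2 * M) (by omega)
    have hMr : (1 : ℝ) ≤ M := by exact_mod_cast hM
    have hb1 : Real.exp (-((2 * M : ℕ) : ℝ)) < 1 := by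
      rw [Real.exp_lt_one_iff]
      push_cast
      linarith
    have hstep := hc.step4 h hst hn h1 h2 ht hη hη0 hρ (Real.exp_pos _) hb1 hs
    -- lower bound
    have hηint : IntegrableOn (fun x => η x ^ 2 * (F x / ‖x‖ ^ 2)) (E ∩ {x | NN u x ≠ 0}) := by
      refine IntegrableOn.of_forall_sdiff_eq_zero
        (s := E ∩ {x | NN u x ≠ 0} ∩ Ann (Real.exp (-3 * ((2 * M : ℕ) : ℝ))) (Real.exp (-((2 * M : ℕ) : ℝ))))
        ?_ hE'.measurableSet ?_
      · have hmA : MeasurableSet (Ann (Real.exp (-3 * ((2 * M : ℕ) : ℝ)))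
            (Real.exp (-((2 * M : ℕ) : ℝ))) : Set (V n)) :=
          (measurableSet_le measurable_const measurable_norm).inter
            (measurableSet_le measurable_norm measurable_const)
        have hcpt : IsCompact (Metric.closedBall (0 : V n) (Real.exp (-((2 * M : ℕ) : ℝ)))) :=
          isCompact_closedBall _ _
        refine IntegrableOn.continuousOn_mul_of_subset (hη.smooth.continuous.pow 2).continuousOn
          (G_int h hc h1 (Real.exp_pos _) hmA (le_refl _)) hcpt (hE'.measurableSet.inter hmA) ?_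
        intro x hx
        rw [Metric.mem_closedBall, dist_zero_right]
        exact hx.2.2
      · rintro x ⟨hx1, hx2⟩
        have hx3 : x ∉ tsupport η := fun hx4 => hx2 ⟨hx1, hs hx4⟩
        have hx4 : η x = 0 := image_eq_zero_of_notMem_tsupport hx3
        rw [hx4]
        ring
    have hlow : 2 * M * c₀ ≤ ∫ x in E ∩ {x | NN u x ≠ 0}, η x ^ 2 * (F x / ‖x‖ ^ 2) := by
      have e1 : 2 * M * c₀ = ∫ x in E ∩ {x | NN u x ≠ 0} ∩ sh (3 * M) (3 * M + 2 * M), F x / ‖x‖ ^ 2 := by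
        rw [int_sh h hc h1, ← hc₀]
        push_cast
        ring
      have e2 : ∫ x in E ∩ {x | NN u x ≠ 0} ∩ sh (3 * M) (3 * M + 2 * M), F x / ‖x‖ ^ 2 =
          ∫ x in E ∩ {x | NN u x ≠ 0} ∩ sh (3 * M) (3 * M + 2 * M), η x ^ 2 * (F x / ‖x‖ ^ 2) := by
        refine setIntegral_congr_fun (hE'.measurableSet.inter (sh_meas _ _)) ?_
        rintro x ⟨hx1, hx2⟩
        have hx0 : x ≠ 0 := h.ne_zero hx1.1
        have hxp : 0 < ‖x‖ := norm_pos_iff.2 hx0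
        have l1 : -(5 / 2) * ((2 * M : ℕ) : ℝ) ≤ Real.log ‖x‖ := by
          rw [Real.le_log_iff_exp_le hxp]
          have := hx2.1
          rwa [show -(((3 * M + 2 * M : ℕ)) : ℝ) = -(5 / 2) * ((2 * M : ℕ) : ℝ) by push_cast; ring]
            at this
        have l2 : Real.log ‖x‖ ≤ -(3 / 2) * ((2 * M : ℕ) : ℝ) := by
          rw [Real.log_le_iff_le_exp hxp]
          have := hx2.2.le
          rwa [show -(((3 * M : ℕ)) : ℝ) = -(3 / 2) * ((2 * M : ℕ) : ℝ) by push_cast; ring]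
            at this
        have hη1 := hone x hx0 l1 l2
        show F x / ‖x‖ ^ 2 = η x ^ 2 * (F x / ‖x‖ ^ 2)
        rw [hη1]
        ring
      rw [e1, e2]
      refine setIntegral_mono_set hηint ?_ (Filter.Eventually.of_forall ?_)
      · refine ae_restrict_of_forall_mem hE'.measurableSet ?_
        intro x hx
        exact mul_nonneg (sq_nonneg _) (hGpos x hx).le
      · exact fun x hx => hx.1
    -- upper bound
    have hup : ∫ x in E ∩ {x | NN u x ≠ 0}, F x * ∑ k, (pd k η x) ^ 2 ≤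
        C / (2 * M) ^ 2 * ((4 * M + 1) * c₀) := by
      have hpd0 : ∀ x ∈ E ∩ {x | NN u x ≠ 0}, x ∉ (sh (2 * M - 1) (2 * M - 1 + (4 * M + 1)) : Set (V n)) →
          ∀ k, pd k η x = 0 := by
        intro x hx hxs k
        have hx3 : x ∉ tsupport η := by
          intro hx4
          apply hxs
          have h5 := hs hx4
          refine ⟨?_, ?_⟩
          · have h6 := h5.1
            rwa [show -3 * ((2 * M : ℕ) : ℝ) = -((2 * M - 1 + (4 * M + 1) : ℕ) : ℝ) by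
              rw [show 2 * M - 1 + (4 * M + 1) = 6 * M by omega]; push_cast; ring] at h6
          · refine lt_of_le_of_lt h5.2 ?_
            apply Real.exp_lt_exp.2
            have h6 : ((2 * M - 1 : ℕ) : ℝ) < ((2 * M : ℕ) : ℝ) := by
              exact_mod_cast (by omega : 2 * M - 1 < 2 * M)
            linarith
        exact pd_zero_of_eventually (notMem_tsupport_iff_eventuallyEq.1 hx3) k
      have e1 : ∫ x in E ∩ {x | NN u x ≠ 0}, F x * ∑ k, (pd k η x) ^ 2 =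
          ∫ x in E ∩ {x | NN u x ≠ 0} ∩ sh (2 * M - 1) (2 * M - 1 + (4 * M + 1)),
            F x * ∑ k, (pd k η x) ^ 2 := by
        refine setIntegral_eq_of_subset_of_forall_sdiff_eq_zero hE'.measurableSet
          Set.inter_subset_left ?_
        rintro x ⟨hx1, hx2⟩
        have hx3 : x ∉ (sh (2 * M - 1) (2 * M - 1 + (4 * M + 1)) : Set (V n)) := fun hx4 => hx2 ⟨hx1, hx4⟩
        have hx5 := hpd0 x hx1 hx3
        simp [hx5]
      have e2 : ∫ x in E ∩ {x | NN u x ≠ 0} ∩ sh (2 * M - 1) (2 * M - 1 + (4 * M + 1)),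
            F x * ∑ k, (pd k η x) ^ 2 ≤
          ∫ x in E ∩ {x | NN u x ≠ 0} ∩ sh (2 * M - 1) (2 * M - 1 + (4 * M + 1)),
            C / (2 * M) ^ 2 * (F x / ‖x‖ ^ 2) := by
        have hms : MeasurableSet (E ∩ {x | NN u x ≠ 0} ∩ sh (2 * M - 1) (2 * M - 1 + (4 * M + 1))) :=
          hE'.measurableSet.inter (sh_meas _ _)
        refine integral_mono_of_nonneg ?_ ?_ ?_
        · refine ae_restrict_of_forall_mem hms ?_
          intro x hx
          exact mul_nonneg (F_pos h hc hx.1).le (Finset.sum_nonneg fun k _ => sq_nonneg _)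
        · exact (G_int h hc h1 (Real.exp_pos _) (sh_meas _ _) (sh_sub _ _)).const_mul _
        · refine ae_restrict_of_forall_mem hms ?_
          intro x hx
          have hx0 : x ≠ 0 := h.ne_zero hx.1.1
          have hxp : 0 < ‖x‖ := norm_pos_iff.2 hx0
          have h5 := hgrad x hx0
          have h6 := mul_le_mul_of_nonneg_left h5 (F_pos h hc hx.1).le
          refine h6.trans (le_of_eq ?_)
          push_cast
          have hM0 : (M : ℝ) ≠ 0 := by linarith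
          field_simp
      rw [e1]
      refine e2.trans (le_of_eq ?_)
      rw [integral_const_mul, int_sh h hc h1, ← hc₀]
      push_cast
      ring
    calc t * (2 * M * c₀) ≤ t * ∫ x in E ∩ {x | NN u x ≠ 0}, η x ^ 2 * (F x / ‖x‖ ^ 2) :=
          mul_le_mul_of_nonneg_left hlow ht.le
      _ ≤ ∫ x in E ∩ {x | NN u x ≠ 0}, F x * ∑ k, (pd k η x) ^ 2 := hstep
      _ ≤ _ := hup
  -- `c₀ = 0`
  have hzero : c₀ = 0 := by
    by_contra hne
    have hpos : 0 < c₀ := lt_of_le_of_ne hc₀' (Ne.symm hne)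
    obtain ⟨M, hM⟩ := exists_nat_ge (C / t + 1)
    have hCt : 0 < C / t := div_pos hC ht
    have hMr : (1 : ℝ) ≤ M := by linarith
    have hM1 : 1 ≤ M := by exact_mod_cast hMr
    have h5 := main M hM1
    have hM0 : (0 : ℝ) < M := by linarith
    have h6 : C / (2 * M) ^ 2 * ((4 * M + 1) * c₀) = C * (4 * M + 1) / (4 * M ^ 2) * c₀ := by
      field_simp
      ring
    have h7 : t * (2 * M * c₀) = t * (2 * M) * c₀ := by ring
    rw [h6, h7] at h5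
    have h8 : t * (2 * M) ≤ C * (4 * M + 1) / (4 * M ^ 2) := le_of_mul_le_mul_right h5 hpos
    rw [le_div_iff₀ (by positivity)] at h8
    have h9 : C < t * M := by
      have := (div_lt_iff₀ ht).1 (show C / t < M by linarith)
      linarith
    have h10 : C * (4 * M + 1) ≤ (t * M) * (4 * M + 1) :=
      mul_le_mul_of_nonneg_right h9.le (by positivity)
    have h11 : t * (2 * M) * (4 * M ^ 2) ≤ t * M * (4 * M + 1) := h8.trans h10
    have h12 : t * M * (8 * M ^ 2) ≤ t * M * (4 * M + 1) := by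
      calc t * M * (8 * M ^ 2) = t * (2 * M) * (4 * M ^ 2) := by ring
        _ ≤ _ := h11
    have h13 : (8 : ℝ) * M ^ 2 ≤ 4 * M + 1 := le_of_mul_le_mul_left h12 (by positivity)
    nlinarith
  -- the set is empty
  intro x hx
  by_contra hxN
  have hxE' : x ∈ E ∩ {x | NN u x ≠ 0} := ⟨hx, hxN⟩
  have hxp : 0 < ‖x‖ := norm_pos_iff.2 (h.ne_zero hx)
  have hepos := Real.exp_pos (-(1 / 2) : ℝ)
  have hs : 0 < Real.exp (-(1 / 2)) / ‖x‖ := by positivity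
  have hy : (Real.exp (-(1 / 2)) / ‖x‖) • x ∈ E ∩ {x | NN u x ≠ 0} := (cone_E' h hs x).2 hxE'
  have hyn : ‖(Real.exp (-(1 / 2)) / ‖x‖) • x‖ = Real.exp (-(1 / 2)) := by
    rw [norm_smul, Real.norm_eq_abs, abs_of_pos hs]
    field_simp
  have hO : IsOpen (E ∩ {x | NN u x ≠ 0} ∩ {y : V n | Real.exp (-1) < ‖y‖ ∧ ‖y‖ < 1}) :=
    hE'.inter ((isOpen_lt continuous_const continuous_norm).inter
      (isOpen_lt continuous_norm continuous_const))
  have hyO : (Real.exp (-(1 / 2)) / ‖x‖) • x ∈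
      E ∩ {x | NN u x ≠ 0} ∩ {y : V n | Real.exp (-1) < ‖y‖ ∧ ‖y‖ < 1} := by
    refine ⟨hy, ?_, ?_⟩
    · rw [hyn]
      exact Real.exp_lt_exp.2 (by norm_num)
    · rw [hyn]
      rw [Real.exp_lt_one_iff]
      norm_num
  have hvol : 0 < volume (E ∩ {x | NN u x ≠ 0} ∩ {y : V n | Real.exp (-1) < ‖y‖ ∧ ‖y‖ < 1}) :=
    hO.measure_pos _ ⟨_, hyO⟩
  have hint : 0 < ∫ x in E ∩ {x | NN u x ≠ 0} ∩ sh 0 1, F x / ‖x‖ ^ 2 := by
    rw [setIntegral_pos_iff_support_of_nonneg_ae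
      (ae_restrict_of_forall_mem (hE'.measurableSet.inter (sh_meas _ _)) fun x hx => (hGpos x hx.1).le)
      (G_int h hc h1 (Real.exp_pos _) (sh_meas _ _) (sh_sub _ _))]
    refine lt_of_lt_of_le hvol (measure_mono ?_)
    rintro y ⟨hy1, hy2, hy3⟩
    refine ⟨(hGpos y hy1).ne', hy1, ?_, ?_⟩
    · rw [show (-((1 : ℕ) : ℝ)) = -1 by push_cast; ring]
      exact hy2.le
    · rw [show (-((0 : ℕ) : ℝ)) = 0 by push_cast; ring, Real.exp_zero]
      exact hy3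
  rw [← hc₀, hzero] at hint
  exact lt_irrefl _ hint

end OPC
end

section

/-! # M01: rigidity from certificates -/

open MeasureTheory Set Filter Topology

namespace OPC

variable {n : ℕ}

/-- If every solution in dimension `n ≥ 2` carries a certificate, then every stable solution is
one-dimensional. -/
theorem rigidity_of_cert (hn : 2 ≤ n) {E : Set (V n)} {u : V n → ℝ} (h : Sol E u) (hst : Stab u)
    (hcert : ∃ (F : V n → ℝ) (W : Fin n → V n → ℝ) (ϖ t : ℝ), 1 < ϖ ∧ ϖ ≤ 2 ∧ 0 < t ∧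
      PCert E u F W ϖ t) :
    ∃ v : V n, ‖v‖ = 1 ∧ ∀ x, u x = max (inner ℝ x v) 0 := by
  obtain ⟨F, W, ϖ, t, h1, h2, ht, hc⟩ := hcert
  exact h.flat hn (hc.conclusion h hst hn h1 h2 ht)

end OPC
end

section

/-! # P15: certificates from polynomial inequalities -/

open MeasureTheory Set Filter Topology

namespace OPC

variable {m : ℕ}

private theorem P15_er1_lay {n : ℕ} {E : Set (V n)} {u : V n → ℝ} (h : Sol E u) {a b c : ℝ}
    (ha : 0 < a) (hc : 0 < c) :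
    ∃ ε > 0, ∀ x ∈ E, x ∈ Ann a b → u x < ε → er1 u x ≤ c ∧ 1 / 2 ≤ gg u x := by
  obtain ⟨ε1, hε1, h1⟩ := h.lay_a2 a b ha ((c / 3) ^ 2) (by positivity)
  obtain ⟨ε2, hε2, h2⟩ := h.lay_gg a b ha (min (c / 3) (1 / 2)) (by positivity)
  refine ⟨min (min ε1 ε2) (c / 3), by positivity, fun x hx hxA hux => ?_⟩
  have hu1 : u x < ε1 := lt_of_lt_of_le hux ((min_le_left _ _).trans (min_le_left _ _))
  have hu2 : u x < ε2 := lt_of_lt_of_le hux ((min_le_left _ _).trans (min_le_right _ _))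
  have hu3 : u x < c / 3 := lt_of_lt_of_le hux (min_le_right _ _)
  have e1 := h1 x hx hxA hu1
  have e2 := h2 x hx hxA hu2
  rw [sub_zero] at e1
  have e3 : a2 u x ≤ (c / 3) ^ 2 := (le_abs_self _).trans e1.le
  have e4 : √(a2 u x) ≤ c / 3 := by
    rw [Real.sqrt_le_left (by positivity)]
    exact e3
  have e5 : |gg u x - 1| < c / 3 := lt_of_lt_of_le e2 (min_le_left _ _)
  have e6 : |gg u x - 1| < 1 / 2 := lt_of_lt_of_le e2 (min_le_right _ _)
  refine ⟨?_, ?_⟩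
  · unfold er1
    linarith
  · have := (abs_lt.1 e6).1
    linarith

/-- The flux condition. Sketch: `Sol.flux_of` with `P = Ptot`, `z = ztot`, `Z = Ztot`;
`hb` from `Sol.P_bounds`, `Sol.P_q`, `Sol.flux_decomp`; `hB` from `Sol.b_clo`, `Sol.lay_gg`,
`Sol.lay_a2`, `Sol.BJ_eq` and `Sol.layer_jets` for `BJ` (`BJ_cont`, `BJ_nonneg`). -/
theorem flux_of_terms (hm : 1 ≤ m) (ϖ : ℚ) (L : List Term)
    (H : ∀ (l : Fin m → ℝ) (b : Fin m) (eps : ℝ), ∑ i, l i = 0 → ∑ i, l i ^ 2 = 1 → l b ≤ 0 →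
      0 < eps → 0 ≤ (L.map fun g => g.bv l (l b) eps).sum - l b)
    {E : Set (V (m + 1))} {u : V (m + 1) → ℝ} (h : Sol E u)
    {η : V (m + 1) → ℝ} (hη : Tst η) (hη0 : ∀ x, 0 ≤ η x) {δ : ℝ} (hδ : 0 < δ) {c : ℝ}
    (hc : 0 < c) :
    ∀ᶠ ε in 𝓝[>] (0 : ℝ), -c ≤ ε⁻¹ * ∫ x in E, deriv chi (u x / ε) * η x *
      ((th u δ x) ^ 2 * ∑ k, q u k x * Wfield ϖ L u k x) := by
  refine h.flux_of (W := Wfield ϖ L u) (P := Ptot ϖ L u) (z := ztot ϖ L u) (Z := Ztot ϖ L u)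
    ?_ (h.cont_Ztot ϖ L) (h.smooth_Ptot ϖ L) (h.smooth_ztot ϖ L) ?_ ?_ ?_ hη hη0 hδ hc
  · intro k
    exact (h.smooth_Wfield ϖ L k).of_le one_le_top'
  · intro i j x hx _
    exact h.Ptot_symm ϖ L i j hx
  · intro a b δ ha hδ
    obtain ⟨C1, hC1, h1⟩ := h.P_bounds ϖ L (b := b) ha hδ
    have h2 := fun i => h.P_q ϖ L i a b δ ha hδ
    choose C2 hC2 h2 using h2
    obtain ⟨C3, hC3, h3⟩ := h.flux_decomp ϖ L (b := b) ha hδ
    have hS0 : 0 ≤ ∑ i, C2 i := Finset.sum_nonneg fun i _ => (hC2 i).le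
    refine ⟨C1 + ∑ i, C2 i + C3, by positivity, fun x hx hxA hxN => ?_⟩
    obtain ⟨b1, b2, b3, b4, b5⟩ := h1 x hx hxA hxN
    have hT : 0 ≤ 1 + √(TT u x) := by positivity
    have hA : 0 ≤ √(a2 u x) + u x := add_nonneg (Real.sqrt_nonneg _) (h.pos x hx).le
    refine ⟨fun i j => (b1 i j).trans (by linarith), b2.trans (by linarith), fun k i j => ?_,
      fun k => ?_, fun i => ?_, b5.trans (by linarith), ?_⟩
    · exact (b3 k i j).trans (mul_le_mul_of_nonneg_right (by linarith) hT)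
    · exact (b4 k).trans (mul_le_mul_of_nonneg_right (by linarith) hT)
    · have hi : C2 i ≤ ∑ i, C2 i :=
        Finset.single_le_sum (f := C2) (fun i _ => (hC2 i).le) (Finset.mem_univ i)
      exact (h2 i x hx hxA hxN).trans (mul_le_mul_of_nonneg_right (by linarith) hA)
    · exact (h3 x hx hxA hxN).trans (mul_le_mul_of_nonneg_right (by linarith) (by positivity))
  · intro a b δ c ha hδ hc
    obtain ⟨C, hC, h1⟩ := h.b_clo ϖ L a b δ ha hδ
    obtain ⟨ε1, hε1, h2⟩ := P15_er1_lay h (b := b) ha (c := c / (2 * C)) (by positivity)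
    obtain ⟨ε2, hε2, h3⟩ := h.layer_jets (b := b) (by omega) (BJ_cont ϖ L) (BJ_nonneg hm ϖ L H)
      ha hδ (c := c / 2) (by positivity)
    refine ⟨min ε1 ε2, by positivity, fun x hx hxA hxN hux => ?_⟩
    obtain ⟨e1, e2⟩ := h2 x hx hxA (lt_of_lt_of_le hux (min_le_left _ _))
    have e3 := h3 x hx hxA hxN (lt_of_lt_of_le hux (min_le_right _ _))
    have e4 := h1 x hx hxA hxN
    rw [h.BJ_eq ϖ L hx e2] at e3
    have e5 := (abs_le.1 e4).1
    have e6 : C * er1 u x ≤ c / 2 := by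
      calc C * er1 u x ≤ C * (c / (2 * C)) := mul_le_mul_of_nonneg_left e1 hC.le
        _ = c / 2 := by field_simp
    linarith

private theorem P15_open {n : ℕ} {E : Set (V n)} {u : V n → ℝ} (h : Sol E u) :
    IsOpen (E ∩ {x | NN u x ≠ 0}) :=
  h.smooth_NN.continuousOn.isOpen_inter_preimage h.isOpen isOpen_ne

private theorem P15_hom_w {n : ℕ} {E : Set (V n)} {u : V n → ℝ} (h : Sol E u) (k : Fin n) {s : ℝ}
    (hs : 0 < s) {x : V n} (hx : x ∈ E) : w u k (s • x) = s⁻¹ * w u k x := by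
  unfold w
  rw [Finset.mul_sum]
  refine Finset.sum_congr rfl fun j _ => ?_
  rw [h.hom_S k j s hs x hx, h.hom_q j s hs x hx]
  ring

/-- Certificates from the two polynomial inequalities.
Sketch: `F_smooth`: `Sol.smooth_Ff`; `W_smooth`: `Sol.smooth_Wfield`; homogeneity: `Sol.hom_Ff`,
`Sol.hom_Vfield` (and `w` is homogeneous of degree `-1`); growth: `Sol.growth`; ineq: `div W = div V -
∇F·w - F NN` (`Sol.div_w`) and `pointwise_of_poly`; flux: `flux_of_terms`. -/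
theorem pcert_of_terms (hm : 1 ≤ m) {ϖ t : ℚ} (h1 : 1 < ϖ) (h2 : ϖ ≤ 2) {L : List Term}
    (hL : ∀ g ∈ L, g.ok)
    (HI : ∀ X : LS ℝ m, X.good → 0 ≤ certPoly ϖ t L X)
    (HB : ∀ (l : Fin m → ℝ) (b : Fin m) (eps : ℝ), ∑ i, l i = 0 → ∑ i, l i ^ 2 = 1 → l b ≤ 0 →
      0 < eps → 0 ≤ (L.map fun g => g.bv l (l b) eps).sum - l b)
    {E : Set (V (m + 1))} {u : V (m + 1) → ℝ} (h : Sol E u) :
    PCert E u (Ff ϖ u) (Wfield ϖ L u) (ϖ : ℝ) (t : ℝ) where
  F_smooth := h.smooth_Ff ϖ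
  F_hom := fun s hs x hx _ => h.hom_Ff ϖ hs hx
  W_smooth := fun k => (h.smooth_Wfield ϖ L k).of_le one_le_top'
  W_hom := by
    intro k s hs x hx _
    unfold Wfield
    rw [h.hom_Vfield ϖ L k hs hx, h.hom_Ff ϖ hs hx, P15_hom_w h k hs hx]
    have e1 : s ^ (2 - (((m + 1 : ℕ) : ℤ))) * s⁻¹ = s ^ (1 - (((m + 1 : ℕ) : ℤ))) := by
      rw [← zpow_neg_one, ← zpow_add₀ hs.ne']
      congr 1
      ring
    calc s ^ (1 - (((m + 1 : ℕ) : ℤ))) * Vfield ϖ L u k x -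
          s ^ (2 - (((m + 1 : ℕ) : ℤ))) * Ff ϖ u x * (s⁻¹ * w u k x)
        = s ^ (1 - (((m + 1 : ℕ) : ℤ))) * Vfield ϖ L u k x -
          (s ^ (2 - (((m + 1 : ℕ) : ℤ))) * s⁻¹) * (Ff ϖ u x * w u k x) := by ring
      _ = _ := by rw [e1]; ring
  growth := fun a b ha => h.growth h1 h2 hL ha
  ineq := by
    intro x hx hN
    have hop := P15_open h
    have hmem : x ∈ E ∩ {x | NN u x ≠ 0} := ⟨hx, hN⟩
    have dV : ∀ k, DifferentiableAt ℝ (Vfield ϖ L u k) x := fun k =>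
      diffAt hop (h.smooth_Vfield ϖ L k) hmem
    have dF : DifferentiableAt ℝ (Ff ϖ u) x := diffAt hop (h.smooth_Ff ϖ) hmem
    have dw : ∀ k, DifferentiableAt ℝ (w u k) x := fun k => diffAt h.isOpen (h.smooth_w k) hx
    have e1 : ∀ k, pd k (Wfield ϖ L u k) x = pd k (Vfield ϖ L u k) x -
        (pd k (Ff ϖ u) x * w u k x + Ff ϖ u x * pd k (w u k) x) := by
      intro k
      have e2 : Wfield ϖ L u k = fun y => Vfield ϖ L u k y - (fun z => Ff ϖ u z * w u k z) y := rfl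
      have e5 : DifferentiableAt ℝ (fun z => Ff ϖ u z * w u k z) x := dF.mul (dw k)
      rw [e2, pd_sub (dV k) e5, pd_mul dF (dw k)]
    have e3 : ∑ k, pd k (Wfield ϖ L u k) x = ∑ k, pd k (Vfield ϖ L u k) x
        - ∑ k, pd k (Ff ϖ u) x * w u k x - NN u x * Ff ϖ u x := by
      simp_rw [e1]
      rw [Finset.sum_sub_distrib, Finset.sum_add_distrib, ← Finset.mul_sum, h.div_w hx]
      ring
    have e4 := pointwise_of_poly hm ϖ t hL HI h hx hN
    unfold defect at e4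
    rw [e3]
    linarith
  flux := fun η hη hη0 δ hδ c hc => flux_of_terms hm ϖ L HB h hη hη0 hδ hc

/-- MAIN REDUCTION: a list of admissible terms with (I') and (B') proves the rigidity of stable
one-phase cones in dimension `m + 1`. -/
theorem rigidity_of_terms (hm : 1 ≤ m) {ϖ t : ℚ} (h1 : 1 < ϖ) (h2 : ϖ ≤ 2) (ht : 0 < t)
    {L : List Term} (hL : ∀ g ∈ L, g.ok)
    (HI : ∀ X : LS ℝ m, X.good → 0 ≤ certPoly ϖ t L X)
    (HB : ∀ (l : Fin m → ℝ) (b : Fin m) (eps : ℝ), ∑ i, l i = 0 → ∑ i, l i ^ 2 = 1 → l b ≤ 0 →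
      0 < eps → 0 ≤ (L.map fun g => g.bv l (l b) eps).sum - l b)
    {E : Set (V (m + 1))} {u : V (m + 1) → ℝ} (h : Sol E u) (hst : Stab u) :
    ∃ v : V (m + 1), ‖v‖ = 1 ∧ ∀ x, u x = max (inner ℝ x v) 0 :=
  rigidity_of_cert (by omega) h hst
    ⟨Ff ϖ u, Wfield ϖ L u, (ϖ : ℝ), (t : ℝ), by exact_mod_cast h1, by exact_mod_cast h2,
      by exact_mod_cast ht, pcert_of_terms hm h1 h2 hL HI HB h⟩

end OPC
end

section

/-! # U06: rigidity from certificates with a general weight -/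

open MeasureTheory Set Filter Topology

namespace OPC

variable {m : ℕ}

private theorem U06_open {n : ℕ} {E : Set (V n)} {u : V n → ℝ} (h : Sol E u) :
    IsOpen (E ∩ {x | NN u x ≠ 0}) :=
  h.smooth_NN.continuousOn.isOpen_inter_preimage h.isOpen isOpen_ne

private theorem U06_hom_w {n : ℕ} {E : Set (V n)} {u : V n → ℝ} (h : Sol E u) (k : Fin n) {s : ℝ}
    (hs : 0 < s) {x : V n} (hx : x ∈ E) : w u k (s • x) = s⁻¹ * w u k x := by
  unfold w
  rw [Finset.mul_sum]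
  refine Finset.sum_congr rfl fun j _ => ?_
  rw [h.hom_S k j s hs x hx, h.hom_q j s hs x hx]
  ring

private theorem U06_bv (L : List Term) (LF : List FT) (l : Fin m → ℝ) (σ eps : ℝ) :
    ((WL L LF).map fun g => g.bv l σ eps).sum =
      (L.map fun g => g.bv l σ eps).sum + σ - σ * gb LF l σ := by
  have h1 : ∀ K : List FT,
      ((K.map fun f => (⟨.v0 1, f.facs, 0, -f.coef⟩ : Term)).map fun g => g.bv l σ eps).sum =
        - (σ * gb K l σ) := by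
    intro K
    unfold gb
    induction K with
    | nil => simp
    | cons f K ih =>
      simp only [List.map_cons, List.sum_cons, ih]
      simp only [Term.bv, Shape.bv, pow_zero, pow_one]
      push_cast
      ring
  unfold WL
  rw [List.map_append, List.sum_append, List.map_cons, List.sum_cons, h1]
  simp only [Term.bv, Shape.bv, pow_zero, pow_one, List.map_nil, List.prod_nil]
  push_cast
  ring

/-- Sketch: `F := FF ϖ LF u`, `W := Wfield ϖ (WL L LF) u`. `W`-conditions: `Sol.smooth_Wfield`,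
`Sol.hom_Vfield`/`Sol.hom_Ff` (as in `pcert_of_terms`), `Sol.growth` for the list `WL L LF`
(`WL_ok`), flux: `flux_of_terms` for `WL L LF` (the boundary sum of `WL L LF` is
`∑_L bv + l b - (l b) gb`). `F`-conditions: U01, `Sol.growthF`. `ineq`: on the open set
`E ∩ {NN ≠ 0}` `W = V - F w` (`Sol.Wfield_WL`), `div w = NN` (as in `pcert_of_terms`),
`pointwiseF_of_poly`. -/
theorem pcertF_of_terms (hm : 1 ≤ m) {ϖ t : ℚ} (h1 : 1 < ϖ) (h2 : ϖ ≤ 2) (LF : List FT)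
    {L : List Term} (hL : ∀ g ∈ L, g.ok) {c0 : ℝ} (hc : 0 < c0)
    (HG : ∀ X : LS ℝ m, X.good → c0 ≤ gl LF X)
    (HI : ∀ X : LS ℝ m, X.good → 0 ≤ certF ϖ t LF L X)
    (HB : ∀ (l : Fin m → ℝ) (b : Fin m) (eps : ℝ), ∑ i, l i = 0 → ∑ i, l i ^ 2 = 1 → l b ≤ 0 →
      0 < eps → 0 ≤ (L.map fun g => g.bv l (l b) eps).sum - l b * gb LF l (l b))
    {E : Set (V (m + 1))} {u : V (m + 1) → ℝ} (h : Sol E u) :
    PCert E u (FF ϖ LF u) (Wfield ϖ (WL L LF) u) (ϖ : ℝ) (t : ℝ) where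
  F_smooth := h.smooth_FF ϖ LF
  F_hom := fun s hs x hx _ => h.hom_FF ϖ LF hs hx
  W_smooth := fun k => (h.smooth_Wfield ϖ (WL L LF) k).of_le one_le_top'
  W_hom := by
    intro k s hs x hx _
    unfold Wfield
    rw [h.hom_Vfield ϖ (WL L LF) k hs hx, h.hom_Ff ϖ hs hx, U06_hom_w h k hs hx]
    have e1 : s ^ (2 - (((m + 1 : ℕ) : ℤ))) * s⁻¹ = s ^ (1 - (((m + 1 : ℕ) : ℤ))) := by
      rw [← zpow_neg_one, ← zpow_add₀ hs.ne']
      congr 1
      ring
    calc s ^ (1 - (((m + 1 : ℕ) : ℤ))) * Vfield ϖ (WL L LF) u k x -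
          s ^ (2 - (((m + 1 : ℕ) : ℤ))) * Ff ϖ u x * (s⁻¹ * w u k x)
        = s ^ (1 - (((m + 1 : ℕ) : ℤ))) * Vfield ϖ (WL L LF) u k x -
          (s ^ (2 - (((m + 1 : ℕ) : ℤ))) * s⁻¹) * (Ff ϖ u x * w u k x) := by ring
      _ = _ := by rw [e1]; ring
  growth := by
    intro a b ha
    obtain ⟨C1, hC1, g1⟩ := h.growthF h1 h2 LF hc
      (fun x hx hN => Gval_ge_of_poly hm LF HG h hx hN) (b := b) ha
    obtain ⟨C2, hC2, g2⟩ := h.growth h1 h2 (WL_ok hL LF) (b := b) ha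
    refine ⟨C1 + C2, by linarith, fun x hx hxA hN => ?_⟩
    obtain ⟨a1, a2, a3⟩ := g1 x hx hxA hN
    obtain ⟨_, _, _, b4⟩ := g2 x hx hxA hN
    have hNN : 0 ≤ NN u x := Finset.sum_nonneg fun i _ => Finset.sum_nonneg fun j _ => sq_nonneg _
    have r1 : 0 ≤ NN u x ^ ((ϖ : ℝ) / 2) := Real.rpow_nonneg hNN _
    have r2 : 0 ≤ NN u x ^ (((ϖ : ℝ) - 1) / 2) := Real.rpow_nonneg hNN _
    have r3 : 0 ≤ √(TT u x) + √(NN u x) := by positivity
    have r4 : 0 ≤ NN u x ^ (((ϖ : ℝ) - 1) / 2) * (√(TT u x) + √(NN u x)) := mul_nonneg r2 r3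
    refine ⟨?_, ?_, fun k => ?_, fun k => ?_⟩
    · refine le_trans (mul_le_mul_of_nonneg_right ?_ r1) a1
      exact inv_anti₀ (by linarith) (by linarith)
    · exact a2.trans (mul_le_mul_of_nonneg_right (by linarith) r1)
    · refine (a3 k).trans ?_
      rw [mul_assoc, mul_assoc]
      exact mul_le_mul_of_nonneg_right (by linarith) r4
    · refine (b4 k).trans ?_
      rw [mul_assoc, mul_assoc]
      exact mul_le_mul_of_nonneg_right (by linarith) r4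
  ineq := by
    intro x hx hN
    have hop := U06_open h
    have hmem : x ∈ E ∩ {x | NN u x ≠ 0} := ⟨hx, hN⟩
    have dV : ∀ k, DifferentiableAt ℝ (Vfield ϖ L u k) x := fun k =>
      diffAt hop (h.smooth_Vfield ϖ L k) hmem
    have dF : DifferentiableAt ℝ (FF ϖ LF u) x := diffAt hop (h.smooth_FF ϖ LF) hmem
    have dw : ∀ k, DifferentiableAt ℝ (w u k) x := fun k => diffAt h.isOpen (h.smooth_w k) hx
    have e1 : ∀ k, pd k (Wfield ϖ (WL L LF) u k) x = pd k (Vfield ϖ L u k) x -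
        (pd k (FF ϖ LF u) x * w u k x + FF ϖ LF u x * pd k (w u k) x) := by
      intro k
      have e5 : DifferentiableAt ℝ (fun z => FF ϖ LF u z * w u k z) x := dF.mul (dw k)
      have e6 : Wfield ϖ (WL L LF) u k =ᶠ[𝓝 x]
          fun y => Vfield ϖ L u k y - (fun z => FF ϖ LF u z * w u k z) y := by
        filter_upwards [hop.mem_nhds hmem] with y hy
        exact h.Wfield_WL ϖ LF L k hy.1 hy.2
      have e7 : pd k (Wfield ϖ (WL L LF) u k) x =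
          pd k (fun y => Vfield ϖ L u k y - (fun z => FF ϖ LF u z * w u k z) y) x := by
        unfold pd
        rw [e6.fderiv_eq]
      rw [e7, pd_sub (dV k) e5, pd_mul dF (dw k)]
    have e3 : ∑ k, pd k (Wfield ϖ (WL L LF) u k) x = ∑ k, pd k (Vfield ϖ L u k) x
        - ∑ k, pd k (FF ϖ LF u) x * w u k x - NN u x * FF ϖ LF u x := by
      simp_rw [e1]
      rw [Finset.sum_sub_distrib, Finset.sum_add_distrib, ← Finset.mul_sum, h.div_w hx]
      ring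
    have e4 := pointwiseF_of_poly hm ϖ t LF hL hc HG HI h hx hN
    unfold defectF at e4
    rw [e3]
    linarith
  flux := by
    intro η hη hη0 δ hδ c hc'
    refine flux_of_terms hm ϖ (WL L LF) ?_ h hη hη0 hδ hc'
    intro l b eps hl1 hl2 hlb heps
    rw [U06_bv]
    have := HB l b eps hl1 hl2 hlb heps
    linarith

/-- MAIN REDUCTION with a general weight. -/
theorem rigidity_of_termsF (hm : 1 ≤ m) {ϖ t : ℚ} (h1 : 1 < ϖ) (h2 : ϖ ≤ 2) (ht : 0 < t)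
    (LF : List FT) {L : List Term} (hL : ∀ g ∈ L, g.ok) {c0 : ℝ} (hc : 0 < c0)
    (HG : ∀ X : LS ℝ m, X.good → c0 ≤ gl LF X)
    (HI : ∀ X : LS ℝ m, X.good → 0 ≤ certF ϖ t LF L X)
    (HB : ∀ (l : Fin m → ℝ) (b : Fin m) (eps : ℝ), ∑ i, l i = 0 → ∑ i, l i ^ 2 = 1 → l b ≤ 0 →
      0 < eps → 0 ≤ (L.map fun g => g.bv l (l b) eps).sum - l b * gb LF l (l b))
    {E : Set (V (m + 1))} {u : V (m + 1) → ℝ} (h : Sol E u) (hst : Stab u) :
    ∃ v : V (m + 1), ‖v‖ = 1 ∧ ∀ x, u x = max (inner ℝ x v) 0 :=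
  rigidity_of_cert (by omega) h hst
    ⟨FF ϖ LF u, Wfield ϖ (WL L LF) u, (ϖ : ℝ), (t : ℝ), by exact_mod_cast h1,
      by exact_mod_cast h2, by exact_mod_cast ht, pcertF_of_terms hm h1 h2 LF hL hc HG HI HB h⟩

end OPC
end

section

/-! # U07: general weight: polynomial form of the certificate inequality (auxiliary vector `ξ`) -/

open MeasureTheory Set Filter Topology

namespace OPC

variable {m : ℕ}

/-- polynomial form: `∑ terms + ∑ ξ_k F_k + G |ξ|² - (μ + t) G eps²`,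
`F_k = ϖ G w_k + ∂_k G` -/
def certXi {R : Type*} [CommRing R] [Algebra ℚ R] (ϖ t : ℚ) (LF : List FT) (L : List Term)
    (X : LS R m) (ξ : Fin m → R) : R :=
  (L.map fun g => g.ldiv ϖ X).sum
    + ∑ k, ξ k * (algebraMap ℚ R ϖ * gl LF X * X.w k + gd LF X k)
    + gl LF X * ∑ k, ξ k ^ 2
    - algebraMap ℚ R (((m : ℚ) - 1) ^ 2 / 4 + t) * gl LF X * X.eps ^ 2

theorem certF_nonneg_of_xi {ϖ t : ℚ} {LF : List FT} {L : List Term} {X : LS ℝ m}
    (hG : 0 < gl LF X) (H : ∀ ξ : Fin m → ℝ, 0 ≤ certXi ϖ t LF L X ξ) :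
    0 ≤ certF ϖ t LF L X := by
  have h1 := H fun k => -(ϖ * gl LF X * X.w k + gd LF X k) / (2 * gl LF X)
  have e : certF ϖ t LF L X = certXi ϖ t LF L X
      (fun k => -(ϖ * gl LF X * X.w k + gd LF X k) / (2 * gl LF X)) := by
    unfold certF certXi
    simp only [eq_ratCast]
    push_cast
    have e1 : ∑ k, -(↑ϖ * gl LF X * X.w k + gd LF X k) / (2 * gl LF X)
        * (↑ϖ * gl LF X * X.w k + gd LF X k)
        = -(∑ k, (↑ϖ * gl LF X * X.w k + gd LF X k) ^ 2) / (2 * gl LF X) := by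
      rw [neg_div, Finset.sum_div, ← Finset.sum_neg_distrib]
      refine Finset.sum_congr rfl fun k _ => ?_
      ring
    have e2 : ∑ k, (-(↑ϖ * gl LF X * X.w k + gd LF X k) / (2 * gl LF X)) ^ 2
        = (∑ k, (↑ϖ * gl LF X * X.w k + gd LF X k) ^ 2) / (2 * gl LF X) ^ 2 := by
      rw [Finset.sum_div]
      refine Finset.sum_congr rfl fun k _ => ?_
      rw [div_pow, neg_sq]
    rw [e1, e2]
    have h3 : gl LF X ≠ 0 := hG.ne'
    field_simp
    ring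
  rw [e]
  exact h1

/-- MAIN REDUCTION with a general weight, polynomial form. -/
theorem rigidity_of_termsXi (hm : 1 ≤ m) {ϖ t : ℚ} (h1 : 1 < ϖ) (h2 : ϖ ≤ 2) (ht : 0 < t)
    (LF : List FT) {L : List Term} (hL : ∀ g ∈ L, g.ok) {c0 : ℝ} (hc : 0 < c0)
    (HG : ∀ X : LS ℝ m, X.good → c0 ≤ gl LF X)
    (HI : ∀ X : LS ℝ m, X.good → ∀ ξ : Fin m → ℝ, 0 ≤ certXi ϖ t LF L X ξ)
    (HB : ∀ (l : Fin m → ℝ) (b : Fin m) (eps : ℝ), ∑ i, l i = 0 → ∑ i, l i ^ 2 = 1 → l b ≤ 0 →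
      0 < eps → 0 ≤ (L.map fun g => g.bv l (l b) eps).sum - l b * gb LF l (l b))
    {E : Set (V (m + 1))} {u : V (m + 1) → ℝ} (h : Sol E u) (hst : Stab u) :
    ∃ v : V (m + 1), ‖v‖ = 1 ∧ ∀ x, u x = max (inner ℝ x v) 0 :=
  rigidity_of_termsF hm h1 h2 ht LF hL hc HG
    (fun X hX => certF_nonneg_of_xi (hc.trans_le (HG X hX)) (HI X hX)) HB h hst

/-- the strong form of the inequality contains the lower bound of `G` -/
theorem gl_ge_of_xi (hm : 1 ≤ m) {ϖ t : ℚ} {LF : List FT} {L : List Term} {X : LS ℝ m} {c0 : ℝ}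
    (H : ∀ ξ : Fin m → ℝ, c0 * ∑ k, ξ k ^ 2 ≤ certXi ϖ t LF L X ξ) : c0 ≤ gl LF X := by
  have k0 : Fin m := ⟨0, hm⟩
  -- along the line `ξ = s e_{k0}` the certificate is a quadratic polynomial in `s`
  set A : ℝ := (L.map fun g => g.ldiv ϖ X).sum
    - algebraMap ℚ ℝ (((m : ℚ) - 1) ^ 2 / 4 + t) * gl LF X * X.eps ^ 2 with hA
  set B : ℝ := algebraMap ℚ ℝ ϖ * gl LF X * X.w k0 + gd LF X k0 with hB
  have key : ∀ s : ℝ, c0 * s ^ 2 ≤ A + s * B + gl LF X * s ^ 2 := by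
    intro s
    have h1 := H (Pi.single k0 s)
    have e1 : ∑ k, (Pi.single k0 s : Fin m → ℝ) k ^ 2 = s ^ 2 := by
      rw [Finset.sum_eq_single k0]
      · simp
      · intro b _ hb; simp [Pi.single_eq_of_ne hb]
      · intro h; exact absurd (Finset.mem_univ _) h
    have e2 : ∑ k, (Pi.single k0 s : Fin m → ℝ) k
        * (algebraMap ℚ ℝ ϖ * gl LF X * X.w k + gd LF X k) = s * B := by
      rw [Finset.sum_eq_single k0]
      · simp [hB]
      · intro b _ hb; simp [Pi.single_eq_of_ne hb]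
      · intro h; exact absurd (Finset.mem_univ _) h
    unfold certXi at h1
    rw [e1, e2] at h1
    linarith
  by_contra hlt
  have hd : 0 < c0 - gl LF X := by linarith [not_le.1 hlt]
  set d := c0 - gl LF X with hd'
  have key2 : ∀ s : ℝ, d * s ^ 2 ≤ A + s * B := by
    intro s
    have := key s
    rw [hd']
    linarith
  have h1 := key2 ((|A| + |B| + 1) / d + 1)
  set s := (|A| + |B| + 1) / d + 1 with hs
  have hs1 : 1 ≤ s := by
    have : 0 ≤ (|A| + |B| + 1) / d := by positivity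
    linarith
  have h2 : |A| + |B| + 1 ≤ d * s := by
    rw [hs, mul_add, mul_div_cancel₀ _ hd.ne']
    linarith
  have h3 : A + s * B ≤ (|A| + |B|) * s := by
    have := le_abs_self A
    have := le_abs_self B
    have h5 : |A| ≤ |A| * s := by nlinarith [abs_nonneg A]
    have h6 : s * B ≤ |B| * s := by nlinarith
    nlinarith
  have h4 : (|A| + |B| + 1) * s ≤ d * s ^ 2 := by nlinarith
  nlinarith

/-- MAIN REDUCTION with a general weight, strong polynomial form. -/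
theorem rigidity_of_xi (hm : 1 ≤ m) {ϖ t : ℚ} (h1 : 1 < ϖ) (h2 : ϖ ≤ 2) (ht : 0 < t)
    (LF : List FT) {L : List Term} (hL : ∀ g ∈ L, g.ok) {c0 : ℝ} (hc : 0 < c0)
    (HI : ∀ X : LS ℝ m, X.good → ∀ ξ : Fin m → ℝ, c0 * ∑ k, ξ k ^ 2 ≤ certXi ϖ t LF L X ξ)
    (HB : ∀ (l : Fin m → ℝ) (b : Fin m) (eps : ℝ), ∑ i, l i = 0 → ∑ i, l i ^ 2 = 1 → l b ≤ 0 →
      0 < eps → 0 ≤ (L.map fun g => g.bv l (l b) eps).sum - l b * gb LF l (l b))
    {E : Set (V (m + 1))} {u : V (m + 1) → ℝ} (h : Sol E u) (hst : Stab u) :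
    ∃ v : V (m + 1), ‖v‖ = 1 ∧ ∀ x, u x = max (inner ℝ x v) 0 :=
  rigidity_of_termsXi hm h1 h2 ht LF hL hc (fun X hX => gl_ge_of_xi hm (HI X hX))
    (fun X hX ξ => le_trans (mul_nonneg hc.le (Finset.sum_nonneg fun _ _ => sq_nonneg _))
      (HI X hX ξ)) HB h hst

end OPC
end

section

/-!
# The interior inequality with a general weight from packed data
-/

namespace OPC.Psx

open OPC.Psd

variable {v : ℕ}

section Comp

variable (P : Par) (v : ℕ)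

/-- factor data of the weight `G`: the term and its integer factor -/
structure FD where
  f : FT
  c : ℤ

noncomputable def GZ (LF : List FD) : Z :=
  List.rec Z.nil (fun f _ ih => Z.add (Z.smul f.c (facsLvZ P v f.f.facs)) ih) LF

noncomputable def gdZ (k : ℕ) (LF : List FD) : Z :=
  List.rec Z.nil (fun f _ ih => Z.add (Z.smul f.c (Z.add (facsLdZ P v k f.f.facs)
    (Z.smul (Int.neg (Int.ofNat f.f.wt)) (Z.mul (facsLvZ P v f.f.facs) (wz P v k))))) ih) LF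

/-- the variable `ξ_k` -/
noncomputable def xz (k : ℕ) : Z := Z.var (nzv v) (tix v k k k)

noncomputable def xi2 : Z := Z.sum (v + 2) fun k => Z.mul (xz v k) (xz v k)

noncomputable def certXiZ (vd q e1 e2 : ℤ) (LF : List FD) (L : List TD) : Z :=
  Z.add (termsZ P v vd L) (Z.add
    (Z.sum (v + 2) fun k => Z.mul (xz v k)
      (Z.add (Z.smul e1 (Z.mul (GZ P v LF) (wz P v k))) (Z.smul q (gdZ P v k LF))))
    (Z.add (Z.smul q (Z.mul (GZ P v LF) (xi2 v)))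
      (Z.smul e2 (Z.mul (GZ P v LF) (e2z v)))))

noncomputable def totalXiZ (D E : ℕ) (vd q e1 e2 τ δ : ℤ) (LF : List FD) (L : List TD)
    (B : List ℕ) (Ks : List BK) : Z :=
  Z.add (certXiZ P v vd q e1 e2 LF L) (Z.add (Z.smul δ (xi2 v))
    (Z.add (slackZ v τ B) (blocksZ v D E Ks)))

end Comp

/-! ### the assignment -/

theorem tix_inj {a b c d : Fin (v + 2)} (h : tix v a b c = tix v d d d) : a = b ∧ b = c := by
  have ha := a.isLt
  have hb := b.isLt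
  have hc := c.isLt
  have hd := d.isLt
  have h1 : ((a : ℕ) * (v + 2) + b) * (v + 2) + c = ((d : ℕ) * (v + 2) + d) * (v + 2) + d := by
    unfold tix at h
    omega
  have h2 := congrArg (· % (v + 2)) h1
  simp only [Nat.mul_add_mod_self_right] at h2
  rw [Nat.mod_eq_of_lt hc, Nat.mod_eq_of_lt hd] at h2
  have h3 : (a : ℕ) * (v + 2) + b = (d : ℕ) * (v + 2) + d := by
    rw [h2] at h1
    exact Nat.eq_of_mul_eq_mul_right (by omega) (Nat.add_right_cancel h1)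
  have h4 := congrArg (· % (v + 2)) h3
  simp only [Nat.mul_add_mod_self_right] at h4
  rw [Nat.mod_eq_of_lt hb, Nat.mod_eq_of_lt hd] at h4
  have h5 : (a : ℕ) = d := by
    rw [h4] at h3
    exact Nat.eq_of_mul_eq_mul_right (by omega) (Nat.add_right_cancel h3)
  exact ⟨Fin.ext (h5.trans h4.symm), Fin.ext (h4.trans h2.symm)⟩

theorem tix_inj' {a d : Fin (v + 2)} (h : tix v a a a = tix v d d d) : a = d := by
  have ha := a.isLt
  have hd := d.isLt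
  have h1 : ((a : ℕ) * (v + 2) + a) * (v + 2) + a = ((d : ℕ) * (v + 2) + d) * (v + 2) + d := by
    unfold tix at h
    omega
  have h2 := congrArg (· % (v + 2)) h1
  simp only [Nat.mul_add_mod_self_right] at h2
  rw [Nat.mod_eq_of_lt ha, Nat.mod_eq_of_lt hd] at h2
  exact Fin.ext h2

open Classical in
noncomputable def zx (X : LS ℝ (v + 2)) (ξ : Fin (v + 2) → ℝ) (i : Fin (nzv v)) : ℝ :=
  if h : ∃ a : Fin (v + 2), (i : ℕ) = tix v a a a then ξ (Classical.choose h) else zt X i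

theorem zx_xi (X : LS ℝ (v + 2)) (ξ : Fin (v + 2) → ℝ) (k : Fin (v + 2)) :
    zx X ξ ⟨tix v k k k, tix_lt k k k⟩ = ξ k := by
  have h : ∃ a : Fin (v + 2), ((⟨tix v k k k, tix_lt k k k⟩ : Fin (nzv v)) : ℕ) = tix v a a a :=
    ⟨k, rfl⟩
  unfold zx
  rw [dif_pos h]
  congr 1
  exact (tix_inj' (Classical.choose_spec h)).symm

theorem zx_zt (X : LS ℝ (v + 2)) (ξ : Fin (v + 2) → ℝ) (i : Fin (nzv v))
    (h : ¬ ∃ a : Fin (v + 2), (i : ℕ) = tix v a a a) : zx X ξ i = zt X i := by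
  unfold zx
  rw [dif_neg h]

theorem zx_lt (X : LS ℝ (v + 2)) (ξ : Fin (v + 2) → ℝ) (i : Fin (nzv v)) (h : (i : ℕ) < v + 4) :
    zx X ξ i = zt X i := by
  apply zx_zt
  rintro ⟨a, ha⟩
  unfold tix at ha
  omega

theorem zt_T (X : LS ℝ (v + 2)) (a b c : Fin (v + 2)) :
    zt X ⟨tix v a b c, tix_lt a b c⟩ = X.T a b c := by
  have ha := a.isLt
  have hb := b.isLt
  have hc := c.isLt
  have h1 : tix v a b c - (v + 4) = ((a : ℕ) * (v + 2) + b) * (v + 2) + c := by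
    unfold tix
    omega
  have h0 : v + 4 ≤ tix v a b c := by
    unfold tix
    omega
  have h2 : (((a : ℕ) * (v + 2) + b) * (v + 2) + c) / (v + 2) = (a : ℕ) * (v + 2) + b := by
    rw [add_comm, Nat.add_mul_div_right _ _ (by omega), Nat.div_eq_of_lt hc, zero_add]
  have h3 : ((a : ℕ) * (v + 2) + b) / (v + 2) = a := by
    rw [add_comm, Nat.add_mul_div_right _ _ (by omega), Nat.div_eq_of_lt hb, zero_add]
  unfold zt
  rw [dif_neg (by simp only; omega), if_neg (by simp only; omega), if_neg (by simp only; omega)]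
  simp only [h1]
  rw [h2, h3]
  congr 1
  · ext
    simp
  · ext
    simp [Nat.mod_eq_of_lt hb]
  · ext
    simp [Nat.mod_eq_of_lt hc]

theorem sz_zx {X : LS ℝ (v + 2)} (hX : SymLS X) (ξ : Fin (v + 2) → ℝ) : SZ X (zx X ξ) where
  toSymLS := hX
  zp := by
    intro i h
    rw [zx_lt X ξ _ (by have := i.isLt; simp only; omega)]
    unfold zt
    rw [dif_pos i.isLt]
  zu := by
    intro h
    rw [zx_lt X ξ _ (by simp only; omega)]
    unfold zt
    rw [dif_neg (by simp), if_pos rfl]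
  ze := by
    intro h
    rw [zx_lt X ξ _ (by simp only; omega)]
    unfold zt
    rw [dif_neg (by simp), if_neg (by simp), if_pos rfl]
  zT := by
    intro a b c h
    rw [zx_zt X ξ _ (by rintro ⟨d, hd⟩; exact h (tix_inj hd)), zt_T]

section

variable {P : Par} {X : LS ℝ (v + 2)} {ζ : Fin (nzv v) → ℝ} (hX : SZ X ζ)

include hX in
theorem rz_Rz : RZ P (xt X) ζ (Rz v) (1 - ∑ i, X.p i ^ 2 - X.u ^ 2) := by
  refine (RZ.add (RZ.const 1) (RZ.smul (-1) (RZ.add (RZ.sum fun i => RZ.mul (rz_pz hX i)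
    (rz_pz hX i)) (RZ.mul (rz_uz hX) (rz_uz hX))))).congr ?_
  simp only [sq]
  push_cast
  ring

include hX in
theorem rz_rpow (k : ℕ) :
    RZ P (xt X) ζ (rpow v k) ((1 - ∑ i, X.p i ^ 2 - X.u ^ 2) ^ k) := by
  induction k with
  | zero => exact (RZ.const 1).congr (by simp)
  | succ k ih => exact (RZ.mul (rz_Rz hX) ih).congr (by rw [pow_succ]; ring)

/-- the value of the monomial `i` of a block -/
noncomputable def zvl (X : LS ℝ (v + 2)) (ζ : Fin (nzv v) → ℝ) (K : BK) (i : ℕ) : ℝ :=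
  mz ζ (evs (nth ([], 0) K.zs i).1) *
    √(1 - ∑ i, X.p i ^ 2 - X.u ^ 2) ^ (nth ([], 0) K.zs i).2

include hX in
theorem rz_pairZ {D E : ℕ} {K : BK} {i j : ℕ} (hr : ∑ i, X.p i ^ 2 + X.u ^ 2 ≤ 1)
    (hi : ∀ k ∈ (nth ([], 0) K.zs i).1, k < nzv v) (hj : ∀ k ∈ (nth ([], 0) K.zs j).1, k < nzv v)
    (hp : ((nth ([], 0) K.zs i).2 + (nth ([], 0) K.zs j).2) % 2 = 0) {tA tB : ℝ}
    (hA : RC P (xt X) (nth (0, 0) (nth [] K.tab i) j).1 D K.nm tA)
    (hB : RC P (xt X) (nth (0, 0) (nth [] K.tab i) j).2 E K.nm tB) :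
    RZ P (xt X) ζ (pairZ v D E K i j) ((tA + tB) * (zvl X ζ K i * zvl X ζ K j)) := by
  have hk : ∀ {a : ℤ} {d n : ℕ} {t : ℝ}, RC P (xt X) a d n t →
      RZ P (xt X) ζ (Z.el (Nat.add (kvs (nzv v) (nth ([], 0) K.zs i).1)
        (kvs (nzv v) (nth ([], 0) K.zs j).1)) a d n) (t * (mz ζ (evs (nth ([], 0) K.zs i).1) *
          mz ζ (evs (nth ([], 0) K.zs j).1))) := by
    intro a d n t h
    refine ⟨t, evs (nth ([], 0) K.zs i).1 + evs (nth ([], 0) K.zs j).1, h, ?_, ?_⟩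
    · rw [kz_add, kz_evs _ hi, kz_evs _ hj]
      rfl
    · rw [mz_add]
  refine (RZ.add (RZ.emul (hk hA) (rz_rpow hX _)) (RZ.emul (hk hB) (rz_rpow hX _))).congr ?_
  have hr' : 0 ≤ 1 - ∑ i, X.p i ^ 2 - X.u ^ 2 := by linarith
  have hsq := Real.sq_sqrt hr'
  set ρ := 1 - ∑ i, X.p i ^ 2 - X.u ^ 2
  have e1 : ρ ^ (Nat.div (Nat.add (nth ([], 0) K.zs i).2 (nth ([], 0) K.zs j).2) 2) =
      √ρ ^ (nth ([], 0) K.zs i).2 * √ρ ^ (nth ([], 0) K.zs j).2 := by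
    rw [← pow_add]
    conv_lhs => rw [← hsq]
    rw [← pow_mul]
    congr 1
    show 2 * (((nth ([], 0) K.zs i).2 + (nth ([], 0) K.zs j).2) / 2) = _
    omega
  rw [e1]
  unfold zvl
  ring

include hX in
theorem rz_blockZ {c D E : ℕ} {B : List ℕ} {K : BK} (hr : ∑ i, X.p i ^ 2 + X.u ^ 2 ≤ 1)
    (hc : c ≤ nzv v) (hBlt : ∀ i ∈ B, i < nzv v) (hK : BKok v c B K) (hOK : BlockOK P D E K X) :
    ∃ q : ℝ, 0 ≤ q ∧ RZ P (xt X) ζ (blockZ v D E K K.n) q := by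
  obtain ⟨V, hV⟩ := hOK
  have key : ∀ n ≤ K.n, RZ P (xt X) ζ (blockZ v D E K n)
      (V.map fun f => (∑ i : Fin n, f i * zvl X ζ K i) ^ 2).sum := by
    intro n
    induction n with
    | zero =>
      intro _
      refine RZ.nil.congr ?_
      induction V with
      | nil => simp
      | cons f V ih => simp
    | succ n ih =>
      intro hn
      have h1 := ih (by omega)
      have hlt : ∀ i, ∀ k ∈ (nth ([], 0) K.zs i).1, k < nzv v :=
        fun i => vsOK_lt hc hBlt _ (hK.vs i)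
      obtain ⟨tA, tB, g1, g2, g3⟩ := hV n (by omega) n le_rfl
      have h2 := rz_pairZ hX hr (hlt n) (hlt n) (hK.par n (by omega) n le_rfl) g1 g2
      rw [← g3] at h2
      have h3 : RZ P (xt X) ζ (Z.sum n fun j => pairZ v D E K n j)
          (∑ j : Fin n, (V.map fun f => f n * f j).sum * (zvl X ζ K n * zvl X ζ K j)) := by
        apply RZ.sum
        intro j
        obtain ⟨tA, tB, g1, g2, g3⟩ := hV n (by omega) j j.isLt.le
        have h2 := rz_pairZ hX hr (hlt n) (hlt j) (hK.par n (by omega) j j.isLt.le) g1 g2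
        rw [← g3] at h2
        exact h2
      refine (RZ.add h1 (RZ.add h2 (RZ.smul 2 h3))).congr ?_
      have e1 : ∀ f : ℕ → ℝ, (∑ i : Fin (n + 1), f i * zvl X ζ K i) ^ 2 =
          (∑ i : Fin n, f i * zvl X ζ K i) ^ 2 + (f n * f n * (zvl X ζ K n * zvl X ζ K n) +
            2 * ∑ j : Fin n, f n * f j * (zvl X ζ K n * zvl X ζ K j)) := by
        intro f
        rw [Fin.sum_univ_castSucc]
        have : ∑ j : Fin n, f n * f j * (zvl X ζ K n * zvl X ζ K j) =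
            f n * zvl X ζ K n * ∑ i : Fin n, f i * zvl X ζ K i := by
          rw [Finset.mul_sum]
          exact Finset.sum_congr rfl fun j _ => by ring
        rw [this]
        simp only [Fin.val_castSucc, Fin.val_last]
        ring
      simp only [e1]
      clear hV h1 h2 h3 g1 g2 g3 tA tB ih
      induction V with
      | nil => simp
      | cons f V ih =>
        simp only [List.map_cons, List.sum_cons]
        rw [← ih]
        have e2 : ∑ j : Fin n, (f n * f j + (V.map fun f => f n * f j).sum) *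
            (zvl X ζ K n * zvl X ζ K j) = ∑ j : Fin n, f n * f j * (zvl X ζ K n * zvl X ζ K j) +
            ∑ j : Fin n, (V.map fun f => f n * f j).sum * (zvl X ζ K n * zvl X ζ K j) := by
          rw [← Finset.sum_add_distrib]
          exact Finset.sum_congr rfl fun j _ => by ring
        rw [e2]
        push_cast
        ring
  refine ⟨_, ?_, key K.n le_rfl⟩
  apply List.sum_nonneg
  intro x hx
  rw [List.mem_map] at hx
  obtain ⟨f, _, rfl⟩ := hx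
  exact sq_nonneg _

include hX in
theorem rz_blocksZ {c D E : ℕ} {B : List ℕ} {Ks : List BK} (hr : ∑ i, X.p i ^ 2 + X.u ^ 2 ≤ 1)
    (hc : c ≤ nzv v) (hBlt : ∀ i ∈ B, i < nzv v) (hK : ∀ K ∈ Ks, BKok v c B K)
    (hOK : ∀ K ∈ Ks, BlockOK P D E K X) :
    ∃ q : ℝ, 0 ≤ q ∧ RZ P (xt X) ζ (blocksZ v D E Ks) (-q) := by
  induction Ks with
  | nil => exact ⟨0, le_rfl, RZ.nil.congr (by simp)⟩
  | cons K Ks ih =>
    obtain ⟨q, hq, h1⟩ := ih (fun K' h => hK K' (List.mem_cons_of_mem _ h))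
      (fun K' h => hOK K' (List.mem_cons_of_mem _ h))
    obtain ⟨q', hq', h2⟩ := rz_blockZ hX hr hc hBlt (hK K (List.mem_cons_self ..))
      (hOK K (List.mem_cons_self ..))
    refine ⟨q' + q, add_nonneg hq' hq, (RZ.add (RZ.smul (-1) h2) h1).congr ?_⟩
    push_cast
    ring

include hX in
theorem rz_epz {q : Z} {t : ℝ} (ge : ℕ) (hq : RZ P (xt X) ζ q t) :
    RZ P (xt X) ζ (epz v ge q) (X.eps ^ ge * t) := by
  induction ge with
  | zero => exact hq.congr (by simp)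
  | succ n ih => exact (RZ.mul (rz_ez hX) ih).congr (by rw [pow_succ]; ring)

include hX in
theorem rz_termZ {C vd : ℤ} {ϖ : ℚ} {t : TD} (ht : TDok C vd ϖ t) :
    RZ P (xt X) ζ (termZ P v vd t) ((C : ℝ) * t.g.ldiv ϖ X) := by
  refine (RZ.smul t.c (rz_epz hX t.g.ge (rz_shapeZ hX t.g ht.h2 ht.ex))).congr ?_
  unfold Term.ldiv
  have h1 : (t.c : ℝ) * (vd * sdbl t.g.shape) = C * algebraMap ℚ ℝ t.g.coef := by
    rw [eq_ratCast]
    exact_mod_cast congrArg (fun q : ℚ => (q : ℝ)) ht.c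
  generalize Shape.ldiv X _ _ _ = W
  calc (t.c : ℝ) * (X.eps ^ t.g.ge * ((vd : ℝ) * (sdbl t.g.shape : ℝ) * W))
      = ((t.c : ℝ) * (vd * sdbl t.g.shape)) * X.eps ^ t.g.ge * W := by ring
    _ = _ := by rw [h1]; ring

include hX in
theorem rz_termsZ {C vd : ℤ} {ϖ : ℚ} {L : List TD} (hL : ∀ t ∈ L, TDok C vd ϖ t) :
    RZ P (xt X) ζ (termsZ P v vd L) ((C : ℝ) * ((L.map (·.g)).map fun g => g.ldiv ϖ X).sum) := by
  induction L with
  | nil => exact RZ.nil.congr (by simp)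
  | cons t L ih =>
    refine (RZ.add (rz_termZ hX (hL t (List.mem_cons_self ..)))
      (ih fun t' h => hL t' (List.mem_cons_of_mem _ h))).congr ?_
    simp only [List.map_cons, List.sum_cons]
    ring

include hX in
theorem rz_GZ {C q : ℤ} {LF : List FD} (hLF : ∀ f ∈ LF, (f.c : ℚ) * q = C * f.f.coef) :
    ∃ g : ℝ, RZ P (xt X) ζ (GZ P v LF) g ∧ (q : ℝ) * g = C * gl (LF.map (·.f)) X := by
  induction LF with
  | nil => exact ⟨0, RZ.nil, by simp [gl]⟩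
  | cons f LF ih =>
    obtain ⟨g, h1, h2⟩ := ih fun f' h => hLF f' (List.mem_cons_of_mem _ h)
    refine ⟨f.c * facsLv X f.f.facs + g, RZ.add (RZ.smul f.c (rz_facsLv hX f.f.facs)) h1, ?_⟩
    have h3 : (f.c : ℝ) * q = C * algebraMap ℚ ℝ f.f.coef := by
      rw [eq_ratCast]
      exact_mod_cast congrArg (fun q : ℚ => (q : ℝ)) (hLF f (List.mem_cons_self ..))
    have e : gl ((f :: LF).map (·.f)) X =
        algebraMap ℚ ℝ f.f.coef * facsLv X f.f.facs + gl (LF.map (·.f)) X := rfl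
    rw [e, mul_add, mul_add, h2, ← mul_assoc, mul_comm (q : ℝ), h3]
    ring

include hX in
theorem rz_gdZ {C q : ℤ} {LF : List FD} (hLF : ∀ f ∈ LF, (f.c : ℚ) * q = C * f.f.coef)
    (k : Fin (v + 2)) :
    ∃ g : ℝ, RZ P (xt X) ζ (gdZ P v k LF) g ∧ (q : ℝ) * g = C * gd (LF.map (·.f)) X k := by
  induction LF with
  | nil => exact ⟨0, RZ.nil, by simp [gd]⟩
  | cons f LF ih =>
    obtain ⟨g, h1, h2⟩ := ih fun f' h => hLF f' (List.mem_cons_of_mem _ h)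
    refine ⟨_, RZ.add (RZ.smul f.c (RZ.add (rz_facsLd hX k f.f.facs)
      (RZ.smul (Int.neg (Int.ofNat f.f.wt)) (RZ.mul (rz_facsLv hX f.f.facs) (rz_wz hX k))))) h1, ?_⟩
    have h3 : (f.c : ℝ) * q = C * algebraMap ℚ ℝ f.f.coef := by
      rw [eq_ratCast]
      exact_mod_cast congrArg (fun q : ℚ => (q : ℝ)) (hLF f (List.mem_cons_self ..))
    have e : gd ((f :: LF).map (·.f)) X k =
        algebraMap ℚ ℝ f.f.coef * (facsLd X k f.f.facs -
          (f.f.wt : ℝ) * facsLv X f.f.facs * X.w k) + gd (LF.map (·.f)) X k := rfl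
    have e2 : ((Int.neg (Int.ofNat f.f.wt) : ℤ) : ℝ) = -(f.f.wt : ℝ) := by
      show ((-(Int.ofNat f.f.wt) : ℤ) : ℝ) = _
      simp
    rw [e, e2]
    calc (q : ℝ) * (f.c * (facsLd X k f.f.facs +
          -(f.f.wt : ℝ) * (facsLv X f.f.facs * X.w k)) + g)
        = ((f.c : ℝ) * q) * (facsLd X k f.f.facs -
          (f.f.wt : ℝ) * facsLv X f.f.facs * X.w k) + q * g := by ring
      _ = _ := by rw [h3, h2]; ring

/-- `∑_{i ∈ B} ζ_i²` -/
noncomputable def Sb (ζ : Fin (nzv v) → ℝ) (B : List ℕ) : ℝ :=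
  (B.map fun i => (if h : i < nzv v then ζ ⟨i, h⟩ else 0) ^ 2).sum

theorem Sb_nonneg (ζ : Fin (nzv v) → ℝ) (B : List ℕ) : 0 ≤ Sb ζ B := by
  apply List.sum_nonneg
  intro x hx
  rw [List.mem_map] at hx
  obtain ⟨f, _, rfl⟩ := hx
  exact sq_nonneg _

theorem Sb_le {B : List ℕ} {i : Fin (nzv v)} (hi : (i : ℕ) ∈ B) : ζ i ^ 2 ≤ Sb ζ B := by
  unfold Sb
  have h1 : (fun i => (if h : i < nzv v then ζ ⟨i, h⟩ else 0) ^ 2) (i : ℕ) ∈
      B.map fun i => (if h : i < nzv v then ζ ⟨i, h⟩ else 0) ^ 2 :=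
    List.mem_map_of_mem hi
  have h2 : ζ i ^ 2 = (fun i => (if h : i < nzv v then ζ ⟨i, h⟩ else 0) ^ 2) (i : ℕ) := by
    simp only
    rw [dif_pos i.isLt]
  rw [h2]
  apply List.single_le_sum _ _ h1
  intro x hx
  rw [List.mem_map] at hx
  obtain ⟨f, _, rfl⟩ := hx
  exact sq_nonneg _

theorem rz_slackZ {τ : ℤ} {B : List ℕ} (hBlt : ∀ i ∈ B, i < nzv v) :
    RZ P (xt X) ζ (slackZ v τ B) (τ * (1 + Sb ζ B)) := by
  refine RZ.smul τ (RZ.add ((RZ.const 1).congr (by simp)) ?_)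
  unfold Sb
  induction B with
  | nil => exact RZ.nil.congr (by simp)
  | cons i B ih =>
    have hi := hBlt i (List.mem_cons_self ..)
    have h1 := ih fun j hj => hBlt j (List.mem_cons_of_mem _ hj)
    have h2 := RZ.var (P := P) (x := xt X) (ζ := ζ) (⟨i, hi⟩ : Fin (nzv v))
    refine (RZ.add (RZ.mul h2 h2) h1).congr ?_
    rw [List.map_cons, List.sum_cons, dif_pos hi, sq]

end

theorem rz_xz {P : Par} {X : LS ℝ (v + 2)} (ξ : Fin (v + 2) → ℝ) (k : Fin (v + 2)) :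
    RZ P (xt X) (zx X ξ) (xz v k) (ξ k) := by
  have h := RZ.var (P := P) (x := xt X) (ζ := zx X ξ) (⟨tix v k k k, tix_lt k k k⟩ : Fin (nzv v))
  rw [zx_xi] at h
  exact h

theorem rz_xi2 {P : Par} {X : LS ℝ (v + 2)} (ξ : Fin (v + 2) → ℝ) :
    RZ P (xt X) (zx X ξ) (xi2 v) (∑ k, ξ k ^ 2) := by
  refine (RZ.sum fun k => RZ.mul (rz_xz ξ k) (rz_xz ξ k)).congr ?_
  exact Finset.sum_congr rfl fun k _ => (sq _).symm

theorem rz_certXiZ {P : Par} {X : LS ℝ (v + 2)} (hX : SymLS X) (ξ : Fin (v + 2) → ℝ)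
    {C vd q e1 e2 : ℤ} {ϖ t : ℚ} {LF : List FD} {L : List TD} (hL : ∀ t ∈ L, TDok C vd ϖ t)
    (hq : q ≠ 0) (hLF : ∀ f ∈ LF, (f.c : ℚ) * q = C * f.f.coef) (h1 : (e1 : ℚ) = q * ϖ)
    (h2 : (e2 : ℚ) = -(q * ((((v + 2 : ℕ) : ℚ) - 1) ^ 2 / 4 + t))) :
    RZ P (xt X) (zx X ξ) (certXiZ P v vd q e1 e2 LF L)
      ((C : ℝ) * certXi ϖ t (LF.map (·.f)) (L.map (·.g)) X ξ) := by
  have hZ := sz_zx hX ξ
  obtain ⟨g, g1, g2⟩ := rz_GZ (P := P) hZ hLF
  choose gk gk1 gk2 using fun k => rz_gdZ (P := P) hZ hLF k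
  have hq' : (q : ℝ) ≠ 0 := by exact_mod_cast hq
  have h1' : (e1 : ℝ) = q * algebraMap ℚ ℝ ϖ := by
    rw [eq_ratCast]
    exact_mod_cast congrArg (fun q : ℚ => (q : ℝ)) h1
  have h2' : (e2 : ℝ) = -(q * algebraMap ℚ ℝ ((((v + 2 : ℕ) : ℚ) - 1) ^ 2 / 4 + t)) := by
    rw [eq_ratCast]
    exact_mod_cast congrArg (fun q : ℚ => (q : ℝ)) h2
  refine (RZ.add (rz_termsZ hZ hL) (RZ.add
    (RZ.sum fun k => RZ.mul (rz_xz ξ k) (RZ.add (RZ.smul e1 (RZ.mul g1 (rz_wz hZ k)))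
      (RZ.smul q (gk1 k))))
    (RZ.add (RZ.smul q (RZ.mul g1 (rz_xi2 ξ))) (RZ.smul e2 (RZ.mul g1 (rz_e2z hZ)))))).congr ?_
  unfold certXi
  have e3 : ∑ k, ξ k * ((e1 : ℝ) * (g * X.w k) + q * gk k) =
      C * ∑ k, ξ k * (algebraMap ℚ ℝ ϖ * gl (LF.map (·.f)) X * X.w k +
        gd (LF.map (·.f)) X k) := by
    rw [Finset.mul_sum]
    refine Finset.sum_congr rfl fun k _ => ?_
    rw [gk2 k, h1']
    calc ξ k * (q * algebraMap ℚ ℝ ϖ * (g * X.w k) + C * gd (LF.map (·.f)) X k)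
        = ξ k * (algebraMap ℚ ℝ ϖ * (q * g) * X.w k + C * gd (LF.map (·.f)) X k) := by ring
      _ = _ := by rw [g2]; ring
  rw [e3, h2']
  have e4 : (q : ℝ) * (g * ∑ k, ξ k ^ 2) = C * (gl (LF.map (·.f)) X * ∑ k, ξ k ^ 2) := by
    rw [← mul_assoc, g2, mul_assoc]
  have e5 : -((q : ℝ) * algebraMap ℚ ℝ ((((v + 2 : ℕ) : ℚ) - 1) ^ 2 / 4 + t)) * (g * X.eps ^ 2) =
      -(C * (algebraMap ℚ ℝ ((((v + 2 : ℕ) : ℚ) - 1) ^ 2 / 4 + t) * gl (LF.map (·.f)) X *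
        X.eps ^ 2)) := by
    calc _ = -(algebraMap ℚ ℝ ((((v + 2 : ℕ) : ℚ) - 1) ^ 2 / 4 + t) * (q * g) * X.eps ^ 2) := by
          ring
      _ = _ := by rw [g2]; ring
  rw [e4, e5]
  ring

/-- MAIN: the interior inequality with a general weight, from packed data -/
theorem interiorXi (Q : CD) {v : ℕ} (hv : Q.v = v) (hw : 2 ≤ Q.P.w) (hc : Q.c ≤ 2 ^ (Q.P.w - 2))
    (hD : Q.D % 2 = 0) (hE : Q.E % 2 = 1) (hDs : Q.D < Q.P.sl) (hEs : Q.E < Q.P.sl)
    (hBlt : ∀ i ∈ Q.B, i < nzv v) {C vd q e1 e2 τ δ : ℤ} (hC : 0 < C) (hq : q ≠ 0) {ϖ t : ℚ}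
    {LF : List FD} {L : List TD} (hL : ∀ t ∈ L, TDok C vd ϖ t)
    (hLF : ∀ f ∈ LF, (f.c : ℚ) * q = C * f.f.coef) (h1 : (e1 : ℚ) = q * ϖ)
    (h2 : (e2 : ℚ) = -(q * ((((v + 2 : ℕ) : ℚ) - 1) ^ 2 / 4 + t)))
    {Ks : List BK} (hK : ∀ K ∈ Ks, BKok v (v + 3) Q.B K)
    (hOK : ∀ X : LS ℝ (v + 2), SymLS X → ∑ i, X.l i ^ 2 = 1 →
      ∀ K ∈ Ks, BlockOK Q.P Q.D Q.E K X)
    (T : KT) (hT : treeOK Q T
      (flat (totalXiZ Q.P v Q.D Q.E vd q e1 e2 (-τ) (-δ) LF L Q.B Ks) EL.nil) = true)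
    (hτ : ((nleaf T * (2 * (Q.P.sl ^ v * Q.c)) : ℕ) : ℤ) ≤ τ) :
    ∀ X : LS ℝ (v + 2), X.good → ∀ ξ : Fin (v + 2) → ℝ,
      ((δ : ℝ) / C) * ∑ k, ξ k ^ 2 ≤ certXi ϖ t (LF.map (·.f)) (L.map (·.g)) X ξ := by
  intro X hg ξ
  have hX : SymLS X := ⟨hg.l_tr, hg.T12, hg.T23, hg.T_tr⟩
  have hN := hg.l_sq
  have hZ := sz_zx hX ξ
  have hnz : v + 3 ≤ nzv v := by
    unfold nzv
    omega
  obtain ⟨s, hs, r1⟩ := rz_blocksZ (P := Q.P) (D := Q.D) (E := Q.E) hZ hg.pu hnz hBlt hK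
    (hOK X hX hN)
  have r2 := RZ.add (rz_certXiZ (P := Q.P) hX ξ hL hq hLF h1 h2)
    (RZ.add (RZ.smul (-δ) (rz_xi2 ξ)) (RZ.add (rz_slackZ (τ := -τ) hBlt) r1))
  have r3 := rl_flat r2 (L := EL.nil) (t := 0) rfl
  have hsmall : ∀ i : Fin (nzv v), (i : ℕ) < v + 3 → |zx X ξ i| ≤ 1 := by
    intro i hi
    rw [zx_lt X ξ i (by omega)]
    unfold zt
    by_cases h : (i : ℕ) < v + 2
    · rw [dif_pos h]
      have h3 : X.p ⟨i, h⟩ ^ 2 ≤ 1 := by
        have h4 : X.p ⟨i, h⟩ ^ 2 ≤ ∑ i, X.p i ^ 2 :=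
          Finset.single_le_sum (f := fun i => X.p i ^ 2) (fun _ _ => sq_nonneg _)
            (Finset.mem_univ _)
        nlinarith [hg.pu, sq_nonneg X.u]
      exact (sq_le_one_iff_abs_le_one _).1 h3
    · rw [dif_neg h, if_pos (by omega)]
      have h3 : X.u ^ 2 ≤ 1 := by
        have h4 : 0 ≤ ∑ i, X.p i ^ 2 := Finset.sum_nonneg fun _ _ => sq_nonneg _
        nlinarith [hg.pu]
      exact (sq_le_one_iff_abs_le_one _).1 h3
  have r4 := tree_bound hX hN Q hv hw hc hD hE hDs hEs (Sb_nonneg (zx X ξ) Q.B) hsmall hBlt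
    (fun i hi => Sb_le hi) T _ _ hT r3
  have hτ' : (nleaf T : ℝ) * ((2 * (Q.P.sl ^ v * Q.c) : ℕ) : ℝ) ≤ τ := by
    have := (Int.cast_le (R := ℝ)).2 hτ
    push_cast at this ⊢
    exact this
  have hS := Sb_nonneg (zx X ξ) Q.B
  have r5 : (nleaf T : ℝ) * (((2 * (Q.P.sl ^ v * Q.c) : ℕ) : ℝ) * (1 + Sb (zx X ξ) Q.B)) ≤
      τ * (1 + Sb (zx X ξ) Q.B) := by
    rw [← mul_assoc]
    exact mul_le_mul_of_nonneg_right hτ' (by linarith)
  have r6 := (abs_le.1 (r4.trans r5)).1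
  have hC' : (0 : ℝ) < C := by exact_mod_cast hC
  rw [div_mul_eq_mul_div, div_le_iff₀ hC']
  push_cast at r6
  linarith

end OPC.Psx
end
end

section

/-!
# The field and the weight for `n = 6`

`L6` is a list of 52 terms; the weight is `F = r^{-4} (r|D²u|)^{7/5} G`, where `G` is given by `LF6`.
-/

namespace OPC

def L6 : List Term :=
  [⟨.v0 0, [], 0, -796 / 512⟩,
   ⟨.v0 3, [], 0, -429 / 512⟩,
   ⟨.p1 (.pow 2), [], 0, 174 / 512⟩,
   ⟨.h1 (.pow 1) (.pow 2), [], 0, -125 / 512⟩,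
   ⟨.v0 1, [.b0], 0, 200 / 512⟩,
   ⟨.v0 2, [.b0], 0, 353 / 512⟩,
   ⟨.v0 3, [.b0], 0, 662 / 512⟩,
   ⟨.p1 (.pow 1), [.b0], 0, 555 / 512⟩,
   ⟨.h1 (.pow 1) (.pow 2), [.b0], 0, -53 / 512⟩,
   ⟨.v0 1, [.b1], 0, 876 / 512⟩,
   ⟨.v0 1, [.b2], 0, -659 / 512⟩,
   ⟨.v0 2, [.u2], 0, -530 / 512⟩,
   ⟨.p1 (.pow 2), [.u2], 0, -95 / 512⟩,
   ⟨.v0 0, [.u1], 1, -661 / 512⟩,
   ⟨.h1 (.pow 2) (.sym 0 0), [], 0, -327 / 512⟩,
   ⟨.h1 (.pow 2) (.sym 0 1), [], 0, 103 / 512⟩,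
   ⟨.p1 (.sym 1 2), [], 0, -171 / 512⟩,
   ⟨.v0 0, [.c3, .b0], 0, -188 / 512⟩,
   ⟨.v0 0, [.c3, .u1], 1, -51 / 512⟩,
   ⟨.v0 2, [], 0, -77 / 512⟩,
   ⟨.p1 (.pow 1), [], 0, 463 / 512⟩,
   ⟨.p1 (.pow 1), [.b1], 0, 306 / 512⟩,
   ⟨.v0 0, [.b2], 0, -4 / 512⟩,
   ⟨.v0 1, [.u1], 1, -5373 / 512⟩,
   ⟨.v0 2, [.u1], 1, 2893 / 512⟩,
   ⟨.p1 (.sym 0 1), [], 0, -822 / 512⟩,
   ⟨.p1 (.sym 1 1), [], 0, 8 / 512⟩,
   ⟨.h1 (.pow 1) (.sym 1 1), [], 0, -989 / 512⟩,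
   ⟨.p1 (.sym 0 0), [.c3], 0, 604 / 512⟩,
   ⟨.v0 0, [.b0], 0, -465 / 512⟩,
   ⟨.v0 2, [.b1], 0, 1000 / 512⟩,
   ⟨.v0 0, [.b3], 0, 57 / 512⟩,
   ⟨.v0 0, [.u2], 0, 306 / 512⟩,
   ⟨.v0 1, [.u2], 0, -359 / 512⟩,
   ⟨.v0 3, [.u1], 1, -171 / 512⟩,
   ⟨.p1 (.sym 0 0), [], 0, 1929 / 512⟩,
   ⟨.p1 (.pow 1), [.b2], 0, 275 / 512⟩,
   ⟨.p1 (.pow 1), [.u2], 0, 66 / 512⟩,
   ⟨.p1 (.sym 0 3), [], 0, 305 / 512⟩,
   ⟨.v0 0, [.c3], 0, 548 / 512⟩,
   ⟨.v0 0, [.c3, .u2], 0, 159 / 512⟩,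
   ⟨.v0 0, [.b1], 0, -253 / 512⟩,
   ⟨.p1 (.sym 0 2), [], 0, -760 / 512⟩,
   ⟨.h1 (.pow 1) (.sym 0 2), [], 0, -542 / 512⟩,
   ⟨.v0 3, [.u2], 0, -273 / 512⟩,
   ⟨.h1 (.pow 1) (.pow 2), [.u2], 0, -981 / 512⟩,
   ⟨.p1 (.pow 2), [.b0], 0, -234 / 512⟩,
   ⟨.p1 (.pow 2), [.b1], 0, -662 / 512⟩,
   ⟨.h1 (.pow 1) (.sym 0 1), [], 0, -369 / 512⟩,
   ⟨.h1 (.pow 3) (.sym 0 0), [], 0, -25 / 512⟩,
   ⟨.v0 1, [], 0, 541 / 512⟩,
   ⟨.h1 (.pow 1) (.sym 0 0), [], 0, 645 / 512⟩]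

def LF6 : List FT :=
  [⟨[], 512 / 512⟩,
   ⟨[.b3], -1218 / 512⟩,
   ⟨[.u2], -284 / 512⟩,
   ⟨[.c3], 263 / 512⟩,
   ⟨[.c3, .b0], -391 / 512⟩,
   ⟨[.b0], 677 / 512⟩,
   ⟨[.b2], -457 / 512⟩,
   ⟨[.b1], 1398 / 512⟩,
   ⟨[.c3, .u2], 71 / 512⟩]

theorem L6_ok : ∀ g ∈ L6, g.ok := by
  simp only [L6, List.forall_mem_cons, List.not_mem_nil, false_imp_iff, implies_true, and_true,
    Term.ok, Mt.ok]
  norm_num

end OPC
end
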