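import Pool.Agent.Lib.MP_9059b8_an.P03
import Pool.Agent.Lib.MP_9059b8_an.Psd8
import Pool.Agent.Lib.MP_9059b8_an.J10

section

section

/-! # C03: boundary jets with sign -/

open MeasureTheory Set Filter Topology

namespace OPC

variable {n : ℕ} {E : Set (V n)} {u : V n → ℝ}

/-- one-dimensional lemma: if `F' → L > 0` and `F → F₀` as `t → 0+` then `F > F₀` near `0+`. -/
private theorem c03_mono {F F' : ℝ → ℝ} {F0 L : ℝ}
    (hd : ∀ᶠ t in 𝓝[>] (0 : ℝ), HasDerivAt F (F' t) t)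
    (hL : Tendsto F' (𝓝[>] (0 : ℝ)) (𝓝 L)) (h0 : Tendsto F (𝓝[>] (0 : ℝ)) (𝓝 F0)) (hpos : 0 < L) :
    ∀ᶠ t in 𝓝[>] (0 : ℝ), F0 < F t := by
  have h1 : ∀ᶠ t in 𝓝[>] (0 : ℝ), 0 < F' t := hL.eventually (lt_mem_nhds hpos)
  obtain ⟨b, hb, hball⟩ := (mem_nhdsGT_iff_exists_Ioo_subset).1 (hd.and h1)
  have hb0 : (0 : ℝ) < b := hb
  have hmono : StrictMonoOn F (Ioo 0 b) := by
    apply strictMonoOn_of_deriv_pos (convex_Ioo 0 b)
    · intro t ht
      exact (hball ht).1.continuousAt.continuousWithinAt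
    · intro t ht
      rw [interior_Ioo] at ht
      rw [(hball ht).1.deriv]
      exact (hball ht).2
  filter_upwards [Ioo_mem_nhdsGT hb0] with t ht
  have ht2 : t / 2 ∈ Ioo 0 b := ⟨by linarith [ht.1], by linarith [ht.1, ht.2]⟩
  have h2 : F0 ≤ F (t / 2) := by
    refine le_of_tendsto h0 ?_
    filter_upwards [Ioo_mem_nhdsGT (show (0 : ℝ) < t / 2 by linarith [ht.1])] with s hs
    exact (hmono ⟨hs.1, by linarith [hs.2, ht2.2]⟩ ht2 hs.2).le
  exact h2.trans_lt (hmono ht2 ht (by linarith [ht.1]))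

private theorem c03_ray {G : V n → ℝ} {p v : V n} {t : ℝ} (hG : DifferentiableAt ℝ G (p + t • v)) :
    HasDerivAt (fun s : ℝ => G (p + s • v)) (∑ k, v k * pd k G (p + t • v)) t := by
  have h1 : HasDerivAt (fun s : ℝ => p + s • v) v t := by
    have := ((hasDerivAt_id t).smul_const v).const_add p
    simpa using this
  have h2 : HasDerivAt (fun s : ℝ => G (p + s • v)) (fderiv ℝ G (p + t • v) v) t :=
    hG.hasFDerivAt.comp_hasDerivAt t h1
  rwa [fderiv_apply_eq_sum] at h2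

/-- The boundary jets, with the sign `σ ≤ 0` (mean curvature `H = -σ ≥ 0`).
Sketch: `Sol.bdry_jet` and: `g, f` as there, `ν = (qb i)`; `fderiv f p` is a positive multiple of
`⟪ν, ·⟫` (`f > 0` and `g = u > 0` on the same side), so `p + t ν ∈ E` for small `t > 0`, where
`gg u ≤ 1 = lim gg`. `W = ∑ (pd i g)^2` is `C¹` near `p`, `W p = 1`, `W (p + tν) ≤ 1`, so
`0 ≥ d/dt W (p + tν) = 2 ∑ ij qb i * Sb i j * qb j = 2 σ`.
(Alternatively: for `x ∈ E` near `p` integrate along `x + t q(x)`.) -/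
theorem Sol.bdry_jet' (h : Sol E u) (hn : 2 ≤ n) {p : V n} (hp : p ∈ frontier E) (hp0 : p ≠ 0) :
    ∃ (qb : Fin n → ℝ) (Sb : Fin n → Fin n → ℝ) (σ : ℝ),
      (∀ i, Tendsto (q u i) (𝓝[E] p) (𝓝 (qb i))) ∧
      (∀ i j, Tendsto (S u i j) (𝓝[E] p) (𝓝 (Sb i j))) ∧
      ∑ i, qb i ^ 2 = 1 ∧ ∑ i, p i * qb i = 0 ∧ (∀ i j, Sb i j = Sb j i) ∧
      ∑ i, Sb i i = 0 ∧ (∀ i, ∑ j, Sb i j * p j = 0) ∧ (∀ i, ∑ j, Sb i j * qb j = σ * qb i) ∧
      σ ≤ 0 := by
  obtain ⟨qb, Sb, σ, hq, hS, h1, h2, h3, h4, h5, h6⟩ := h.bdry_jet hp hp0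
  refine ⟨qb, Sb, σ, hq, hS, h1, h2, h3, h4, h5, h6, ?_⟩
  obtain ⟨U', hU', f, hf, hfp, hfE⟩ := h.bdry p hp hp0
  have hpcl : p ∈ closure E := frontier_subset_closure hp
  have hne : (𝓝[E] p).NeBot := mem_closure_iff_nhdsWithin_neBot.1 hpcl
  have hin : ∀ᶠ x in 𝓝[E] p, x ∈ E := self_mem_nhdsWithin
  have hfp0 : 0 ≤ f p := by
    have h1 : Tendsto f (𝓝[E] p) (𝓝 (f p)) :=
      (hf.continuous.tendsto p).mono_left nhdsWithin_le_nhds
    refine ge_of_tendsto h1 ?_
    filter_upwards [hin, mem_nhdsWithin_of_mem_nhds hU'] with x hxE hxU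
    exact ((hfE x hxU).1 hxE).le
  -- rays enter `E`
  have hcont : ∀ v : V n, Tendsto (fun t : ℝ => p + t • v) (𝓝[>] (0 : ℝ)) (𝓝 p) := by
    intro v
    have hc : Continuous (fun t : ℝ => p + t • v) := by fun_prop
    have := hc.tendsto 0
    simp only [zero_smul, add_zero] at this
    exact this.mono_left nhdsWithin_le_nhds
  have hray : ∀ v : V n, 0 < fderiv ℝ f p v → ∀ᶠ t in 𝓝[>] (0 : ℝ), p + t • v ∈ E := by
    intro v hv
    have hU2 : ∀ᶠ t in 𝓝[>] (0 : ℝ), p + t • v ∈ U' := (hcont v).eventually hU'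
    have hpd : Tendsto (fun t : ℝ => ∑ k, v k * pd k f (p + t • v)) (𝓝[>] (0 : ℝ))
        (𝓝 (fderiv ℝ f p v)) := by
      rw [fderiv_apply_eq_sum]
      refine tendsto_finsetSum _ fun k _ => ?_
      refine Tendsto.mul tendsto_const_nhds ?_
      have hk : Continuous (pd k f) := (contDiff_pd (m := 1) hf (by norm_num) k).continuous
      exact (hk.tendsto p).comp (hcont v)
    have hmono := c03_mono (F := fun t : ℝ => f (p + t • v))
      (F' := fun t : ℝ => ∑ k, v k * pd k f (p + t • v)) (F0 := f p) (L := fderiv ℝ f p v)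
      (Eventually.of_forall fun t => c03_ray ((hf.differentiable (by norm_num)) _)) hpd
      ((hf.continuous.tendsto p).comp (hcont v)) hv
    filter_upwards [hU2, hmono] with t h7 h8
    exact (hfE _ h7).2 (hfp0.trans_lt h8)
  have hwithin : ∀ v : V n, 0 < fderiv ℝ f p v →
      Tendsto (fun t : ℝ => p + t • v) (𝓝[>] (0 : ℝ)) (𝓝[E] p) := fun v hv =>
    tendsto_nhdsWithin_iff.2 ⟨hcont v, hray v hv⟩
  -- the pairing with `qb` is nonnegative
  have hpair : ∀ v : V n, 0 < fderiv ℝ f p v → 0 ≤ ∑ k, v k * qb k := by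
    intro v hv
    by_contra hneg
    push Not at hneg
    have hd : ∀ᶠ t in 𝓝[>] (0 : ℝ), HasDerivAt (fun t : ℝ => - u (p + t • v))
        (-(∑ k, v k * q u k (p + t • v))) t := by
      filter_upwards [hray v hv] with t ht
      exact (c03_ray (diffAt h.isOpen h.smooth ht)).neg
    have hL : Tendsto (fun t : ℝ => -(∑ k, v k * q u k (p + t • v))) (𝓝[>] (0 : ℝ))
        (𝓝 (-(∑ k, v k * qb k))) := by
      refine Tendsto.neg ?_
      refine tendsto_finsetSum _ fun k _ => ?_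
      exact Tendsto.mul tendsto_const_nhds ((hq k).comp (hwithin v hv))
    have h0 : Tendsto (fun t : ℝ => - u (p + t • v)) (𝓝[>] (0 : ℝ)) (𝓝 (-(u p))) :=
      ((h.cont.tendsto p).comp (hcont v)).neg
    have hm := c03_mono hd hL h0 (by linarith)
    obtain ⟨t, ht1, ht2⟩ := (hm.and (hray v hv)).exists
    have := h.pos _ ht2
    rw [h.frontier_u hp] at ht1
    linarith
  -- the direction
  set a : Fin n → ℝ := fun k => pd k f p with ha
  have hfsum : ∀ v : V n, fderiv ℝ f p v = ∑ k, v k * a k := fun v => fderiv_apply_eq_sum f p v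
  have hapos : 0 < ∑ k, a k * a k := by
    have hnn : ‖fderiv ℝ f p‖ ^ 2 = ∑ i, (pd i f p) ^ 2 := norm_fderiv_sq f p
    have : 0 < ‖fderiv ℝ f p‖ ^ 2 := by positivity
    rw [hnn] at this
    calc 0 < ∑ i, (pd i f p) ^ 2 := this
      _ = ∑ k, a k * a k := Finset.sum_congr rfl fun k _ => by rw [ha]; ring
  have hq0 : 0 ≤ ∑ k, a k * qb k := by
    have := hpair (WithLp.toLp 2 a) (by rw [hfsum]; exact hapos)
    exact this
  set v : V n := WithLp.toLp 2 (fun k => a k + qb k) with hv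
  have hvk : ∀ k, v k = a k + qb k := fun k => rfl
  have hv1 : 0 < fderiv ℝ f p v := by
    rw [hfsum]
    have : ∑ k, v k * a k = ∑ k, a k * a k + ∑ k, a k * qb k := by
      rw [← Finset.sum_add_distrib]
      exact Finset.sum_congr rfl fun k _ => by rw [hvk]; ring
    rw [this]
    linarith
  have hv2 : 1 ≤ ∑ k, v k * qb k := by
    have : ∑ k, v k * qb k = ∑ k, a k * qb k + ∑ k, qb k ^ 2 := by
      rw [← Finset.sum_add_distrib]
      exact Finset.sum_congr rfl fun k _ => by rw [hvk]; ring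
    rw [this, h1]
    linarith
  by_contra hσ
  push Not at hσ
  have hd : ∀ᶠ t in 𝓝[>] (0 : ℝ), HasDerivAt (fun t : ℝ => gg u (p + t • v))
      (∑ k, v k * (2 * w u k (p + t • v))) t := by
    filter_upwards [hray v hv1] with t ht
    have h7 := c03_ray (G := gg u) (p := p) (v := v) (t := t) (diffAt h.isOpen h.smooth_gg ht)
    have h8 : ∑ k, v k * pd k (gg u) (p + t • v) = ∑ k, v k * (2 * w u k (p + t • v)) :=
      Finset.sum_congr rfl fun k _ => by rw [h.pd_gg k ht]
    rwa [h8] at h7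
  have hL : Tendsto (fun t : ℝ => ∑ k, v k * (2 * w u k (p + t • v))) (𝓝[>] (0 : ℝ))
      (𝓝 (∑ k, v k * (2 * ∑ j, Sb k j * qb j))) := by
    refine tendsto_finsetSum _ fun k _ => ?_
    refine Tendsto.mul tendsto_const_nhds (Tendsto.mul tendsto_const_nhds ?_)
    refine tendsto_finsetSum _ fun j _ => ?_
    exact ((hS k j).comp (hwithin v hv1)).mul ((hq j).comp (hwithin v hv1))
  have h0 : Tendsto (fun t : ℝ => gg u (p + t • v)) (𝓝[>] (0 : ℝ)) (𝓝 (∑ i, qb i ^ 2)) := by
    refine tendsto_finsetSum _ fun i _ => ?_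
    exact ((hq i).comp (hwithin v hv1)).pow 2
  have hLpos : 0 < ∑ k, v k * (2 * ∑ j, Sb k j * qb j) := by
    have : ∑ k, v k * (2 * ∑ j, Sb k j * qb j) = 2 * σ * ∑ k, v k * qb k := by
      rw [Finset.mul_sum]
      exact Finset.sum_congr rfl fun k _ => by rw [h6 k]; ring
    rw [this]
    have : 0 < ∑ k, v k * qb k := by linarith
    positivity
  have hm := c03_mono hd hL h0 hLpos
  obtain ⟨t, ht1, ht2⟩ := (hm.and (hray v hv1)).exists
  have := h.gg_le_one hn ht2
  rw [h1] at ht1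
  linarith

end OPC
end

section

/-! # J11: boundary inequality from jets -/

open MeasureTheory Set Filter Topology

namespace OPC

variable {n : ℕ} {E : Set (V n)} {u : V n → ℝ}

private theorem j11_ann_compact (a b : ℝ) : IsCompact (Ann a b : Set (V n)) := by
  have hcl : IsClosed (Ann a b : Set (V n)) :=
    (isClosed_le continuous_const continuous_norm).inter
      (isClosed_le continuous_norm continuous_const)
  refine (isCompact_closedBall (0 : V n) b).of_isClosed_subset hcl fun x hx => ?_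
  rw [Metric.mem_closedBall, dist_zero_right]
  exact hx.2

private theorem j11_seq_ann {a b : ℝ} {x : ℕ → V n}
    (hx : ∀ m, x m ∈ E ∧ x m ∈ (Ann a b : Set (V n))) :
    ∃ p ∈ (Ann a b : Set (V n)), p ∈ closure E ∧ ∃ φ : ℕ → ℕ, StrictMono φ ∧
      Tendsto (fun m => x (φ m)) atTop (𝓝[E] p) := by
  obtain ⟨p, hp, φ, hφ, hlim⟩ :=
    (j11_ann_compact (n := n) a b).tendsto_subseq (fun m => (hx m).2)
  have hin : Tendsto (fun m => x (φ m)) atTop (𝓝[E] p) :=
    tendsto_nhdsWithin_iff.2 ⟨hlim, Eventually.of_forall fun m => (hx (φ m)).1⟩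
  refine ⟨p, hp, ?_, φ, hφ, hin⟩
  exact mem_closure_of_tendsto hlim (Eventually.of_forall fun m => (hx (φ m)).1)

private theorem Sol.j11_layQ (h : Sol E u) {Q : V n → Prop}
    (hQ : ∀ p ∈ frontier E, p ≠ 0 → ∀ᶠ x in 𝓝[E] p, Q x) {a b : ℝ} (ha : 0 < a) :
    ∃ ε > 0, ∀ x ∈ E, x ∈ (Ann a b : Set (V n)) → u x < ε → Q x := by
  by_contra hcon
  push Not at hcon
  choose x hxE hxA hxu hxQ using fun m : ℕ => hcon (1 / ((m : ℝ) + 1)) (by positivity)
  obtain ⟨p, hp, hpc, φ, hφ, hlim⟩ := j11_seq_ann (E := E) (fun m => ⟨hxE m, hxA m⟩)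
  have hp0 : p ≠ 0 := by
    intro h0
    have := hp.1
    rw [h0, norm_zero] at this
    linarith
  have hu : Tendsto (fun m => u (x (φ m))) atTop (𝓝 (u p)) :=
    (h.cont.tendsto p).comp (tendsto_nhdsWithin_iff.1 hlim).1
  have hu0 : Tendsto (fun m => u (x (φ m))) atTop (𝓝 0) := by
    have h1 : Tendsto (fun m : ℕ => 1 / (((φ m : ℕ) : ℝ) + 1)) atTop (𝓝 0) :=
      tendsto_one_div_add_atTop_nhds_zero_nat.comp hφ.tendsto_atTop
    exact squeeze_zero (fun m => (h.pos _ (hxE _)).le) (fun m => (hxu _).le) h1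
  have hup : u p = 0 := tendsto_nhds_unique hu hu0
  have hpE : p ∉ E := fun hpE => by
    have := h.pos p hpE
    linarith
  have hpf : p ∈ frontier E := by
    rw [frontier, h.isOpen.interior_eq]
    exact ⟨hpc, hpE⟩
  obtain ⟨m, hm⟩ := (hlim.eventually (hQ p hpf hp0)).exists
  exact hxQ _ hm

/-- A function of the 2-jet which is continuous on `{x ≠ 0, S ≠ 0}` and `≥ 0` at the boundary states
is `≥ -o(1)` near the free boundary where `NN ≥ δ`.
Sketch: sequence argument as in `Sol.layGe`, with `Sol.bdry_jet'`: along `x_m → p ∈ frontier E`,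
`jet u x_m → (p, qb, Sb) ∈ BState n` (`Sb ≠ 0` since `NN ≥ δ`). -/
theorem Sol.layer_jets (h : Sol E u) (hn : 2 ≤ n) {B : Jet n → ℝ}
    (hB : ContinuousOn B {J | J.1 ≠ 0 ∧ J.2.2 ≠ 0}) (hB0 : ∀ J ∈ BState n, 0 ≤ B J)
    {a b δ c : ℝ} (ha : 0 < a) (hδ : 0 < δ) (hc : 0 < c) :
    ∃ ε > 0, ∀ x ∈ E, x ∈ Ann a b → δ ≤ NN u x → u x < ε → -c ≤ B (jet u x) := by
  have key : ∀ p ∈ frontier E, p ≠ 0 →
      ∀ᶠ x in 𝓝[E] p, (δ ≤ NN u x → -c ≤ B (jet u x)) := by
    intro p hp hp0
    obtain ⟨qb, Sb, σ, hq, hS, h1, h2, h3, h4, h5, h6, h7⟩ := h.bdry_jet' hn hp hp0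
    have hjet : Tendsto (jet u) (𝓝[E] p) (𝓝 ((p, qb, Sb) : Jet n)) := by
      have e1 : Tendsto (fun x : V n => x) (𝓝[E] p) (𝓝 p) := tendsto_id.mono_left inf_le_left
      have e2 : Tendsto (fun x : V n => (fun i => q u i x : Fin n → ℝ)) (𝓝[E] p) (𝓝 qb) :=
        tendsto_pi_nhds.2 hq
      have e3 : Tendsto (fun x : V n => (fun i j => S u i j x : Fin n → Fin n → ℝ))
          (𝓝[E] p) (𝓝 Sb) :=
        tendsto_pi_nhds.2 fun i => tendsto_pi_nhds.2 fun j => hS i j
      exact e1.prodMk_nhds (e2.prodMk_nhds e3)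
    by_cases hSb : Sb = 0
    · have hNN : Tendsto (NN u) (𝓝[E] p) (𝓝 (∑ i, ∑ j, (Sb i j) ^ 2)) := by
        refine tendsto_finsetSum _ fun i _ => tendsto_finsetSum _ fun j _ => (hS i j).pow 2
      have h0 : (∑ i, ∑ j, (Sb i j) ^ 2) = 0 := by
        refine Finset.sum_eq_zero fun i _ => Finset.sum_eq_zero fun j _ => ?_
        rw [hSb]
        simp
      rw [h0] at hNN
      filter_upwards [hNN.eventually (gt_mem_nhds hδ)] with x hx hx'
      exact absurd hx' (not_le.2 hx)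
    · have hJ : ((p, qb, Sb) : Jet n) ∈ BState n :=
        ⟨hp0, h1, h2, h3, h4, h5, ⟨σ, h7, h6⟩, hSb⟩
      have hopen : IsOpen {J : Jet n | J.1 ≠ 0 ∧ J.2.2 ≠ 0} := by
        refine IsOpen.inter ?_ ?_
        · exact isOpen_ne_fun continuous_fst continuous_const
        · exact isOpen_ne_fun (continuous_snd.comp continuous_snd) continuous_const
      have hBc : ContinuousAt B ((p, qb, Sb) : Jet n) :=
        hB.continuousAt (hopen.mem_nhds ⟨hp0, hSb⟩)
      have hlim : Tendsto (fun x => B (jet u x)) (𝓝[E] p) (𝓝 (B (p, qb, Sb))) :=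
        hBc.tendsto.comp hjet
      have hBJ : -c < B (p, qb, Sb) := by
        have := hB0 _ hJ
        linarith
      filter_upwards [hlim.eventually (lt_mem_nhds hBJ)] with x hx _
      exact hx.le
  obtain ⟨ε, hε, hx⟩ := h.j11_layQ key (b := b) ha
  exact ⟨ε, hε, fun x hxE hxA hxδ hxu => hx x hxE hxA hxu hxδ⟩

end OPC
end
end

section

/-!
# Packed polynomials IX: kernel check of the Gram tables of the blocks
-/

namespace OPC.Psd

variable {v : ℕ}

/-- shift of the monomial with exponents `es` (from the variable `j`) -/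
def shf (P : Par) (v : ℕ) : ℕ → List ℕ → ℕ
  | _, [] => 0
  | j, a :: es => a * xs P v j + shf P v (j + 1) es

theorem rc_shf (P : Par) (x : Fin (v + 2) → ℝ) : ∀ (es : List ℕ) (j : ℕ), es.length + j ≤ v + 1 →
    ∃ t, RC P x (2 ^ shf P v j es) es.sum 1 t := by
  intro es
  induction es with
  | nil =>
    intro j _
    have := RC.const P x 1
    exact ⟨_, by simpa [shf] using this⟩
  | cons a es ih =>
    intro j hj
    rw [List.length_cons] at hj
    obtain ⟨t, ht⟩ := ih (j + 1) (by omega)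
    have h1 := (RC.var P x ⟨j, by omega⟩).pow a
    have h2 := h1.mul ht
    refine ⟨x (⟨j, by omega⟩ : Fin (v + 1)).succ ^ a * t, ?_⟩
    have e1 : (2 : ℤ) ^ shf P v j (a :: es) = (2 ^ xs P v j) ^ a * 2 ^ shf P v (j + 1) es := by
      rw [← pow_mul, ← pow_add]
      congr 1
      show a * xs P v j + shf P v (j + 1) es = _
      ring
    have e2 : (a :: es).sum = a * 1 + es.sum := by
      rw [List.sum_cons, mul_one]
    rw [one_pow, one_mul] at h2
    rw [e1, e2]
    exact h2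

theorem posOK_of (P : Par) (x : Fin (v + 2) → ℝ) {d : ℕ} {tab : List ℕ} (es : List (List ℕ))
    (h1 : ∀ e ∈ es, e.length ≤ v + 1 ∧ e.sum = d) (h2 : es.map (shf P v 0) = tab) :
    PosOK P x d tab := by
  subst h2
  intro s hs
  rw [List.mem_map] at hs
  obtain ⟨e, he, rfl⟩ := hs
  obtain ⟨t, ht⟩ := rc_shf P x e 0 (h1 e he).1
  rw [(h1 e he).2] at ht
  exact ⟨t, ht⟩

noncomputable def ibeq (a b : ℤ) : Bool :=
  Int.rec (fun m => Int.rec (fun n => Nat.beq m n) (fun _ => false) b)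
    (fun m => Int.rec (fun _ => false) (fun n => Nat.beq m n) b) a

theorem ibeq_eq {a b : ℤ} (h : ibeq a b = true) : a = b := by
  cases a with
  | ofNat m =>
    cases b with
    | ofNat n => rw [Nat.eq_of_beq_eq_true (show Nat.beq m n = true from h)]
    | negSucc n => exact absurd h (by simp [ibeq])
  | negSucc m =>
    cases b with
    | ofNat n => exact absurd h (by simp [ibeq])
    | negSucc n => rw [Nat.eq_of_beq_eq_true (show Nat.beq m n = true from h)]

noncomputable def allN (f : ℕ → Bool) (n : ℕ) : Bool :=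
  Nat.rec true (fun i ih => Bool.and (f i) ih) n

theorem allN_spec {f : ℕ → Bool} : ∀ {n : ℕ}, allN f n = true → ∀ i < n, f i = true := by
  intro n
  induction n with
  | zero => intro _ i hi; omega
  | succ n ih =>
    intro h i hi
    have h' : (f n && allN f n) = true := h
    rw [Bool.and_eq_true] at h'
    rcases Nat.lt_succ_iff_lt_or_eq.1 hi with hi | rfl
    · exact ih h'.2 i hi
    · exact h'.1

/-- the Gram table agrees with the rows, for the row `i` of the table -/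
noncomputable def rowOK (P : Par) (v : ℕ) (Q : BD) (K : BK) (i : ℕ) : Bool :=
  allN (fun j => Bool.and (ibeq (MA P v Q i j) (nth (0, 0) (nth [] K.tab i) j).1)
    (ibeq (MB Q i j) (nth (0, 0) (nth [] K.tab i) j).2)) (Nat.succ i)

noncomputable def tabOK (P : Par) (v : ℕ) (Q : BD) (K : BK) : Bool :=
  allN (rowOK P v Q K) K.n

theorem blockOK_of {P : Par} {d : ℕ} {Q : BD} {K : BK} (hB : 1 ≤ Q.B)
    (esA esB : List (List ℕ))
    (hA1 : ∀ e ∈ esA, e.length ≤ v + 1 ∧ e.sum = d + 1) (hA2 : esA.map (shf P v 0) = Q.tabA)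
    (hB1 : ∀ e ∈ esB, e.length ≤ v + 1 ∧ e.sum = d) (hB2 : esB.map (shf P v 0) = Q.tabB)
    (hn : nM v Q ≤ K.nm) (h : tabOK P v Q K = true)
    {X : LS ℝ (v + 2)} (hX : SymLS X) (hN : ∑ i, X.l i ^ 2 = 1) :
    BlockOK P (2 * d + 2) (2 * d + 1) K X := by
  obtain ⟨V, hV⟩ := rows_spec (P := P) hX hN hB (posOK_of P (xt X) esA hA1 hA2)
    (posOK_of P (xt X) esB hB1 hB2)
  refine ⟨V, fun i hi j hj => ?_⟩
  obtain ⟨tA, tB, g1, g2, g3⟩ := hV i j
  have h1 := allN_spec (allN_spec h i hi) j (Nat.lt_succ_of_le hj)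
  rw [Bool.and_eq_true] at h1
  rw [ibeq_eq h1.1] at g1
  rw [ibeq_eq h1.2] at g2
  exact ⟨tA, tB, g1.mono hn, g2.mono hn, g3⟩

/-- check of the monomials of a block -/
noncomputable def bkB (c : ℕ) (B : List ℕ) (K : BK) : Bool :=
  Bool.and (List.rec true (fun p _ ih => Bool.and (vsOK c B p.1) ih) K.zs)
    (allN (fun i => allN (fun j => Nat.beq (Nat.mod (Nat.add (nth ([], 0) K.zs i).2
      (nth ([], 0) K.zs j).2) 2) 0) (Nat.succ i)) K.n)

theorem bkB_spec {v c : ℕ} {B : List ℕ} {K : BK} (h : bkB c B K = true) : BKok v c B K := by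
  unfold bkB at h
  have h' := Bool.and_eq_true_iff.1 h
  refine ⟨?_, ?_⟩
  · have key : ∀ (L : List (List ℕ × ℕ)),
        (List.rec true (fun p _ ih => Bool.and (vsOK c B p.1) ih) L : Bool) = true →
        ∀ i, vsOK c B (nth ([], 0) L i).1 = true := by
      intro L
      induction L with
      | nil => intro _ i; rfl
      | cons p L ih =>
        intro hL i
        have hL' := Bool.and_eq_true_iff.1 hL
        cases i with
        | zero => exact hL'.1
        | succ i => exact ih hL'.2 i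
    exact key K.zs h'.1
  · intro i hi j hj
    exact Nat.eq_of_beq_eq_true (allN_spec (allN_spec h'.2 i hi) j (Nat.lt_succ_of_le hj))

end OPC.Psd
end

section

/-!
# Packed polynomials X: fast kernel check of the Gram tables (natural numbers with offsets)
-/

namespace OPC.Psd

variable {v : ℕ}

noncomputable def pA (Q : BD) (i D : ℕ) : ℕ := exp Q.B Q.tabA (slc Q i D)

noncomputable def pB (Q : BD) (i D : ℕ) : ℕ := exp Q.B Q.tabB (Nat.shiftRight (slc Q i D) Q.lenA)

noncomputable def sPP (f g : ℕ → ℕ) (rows : List ℕ) : ℕ :=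
  List.rec 0 (fun D _ ih => Nat.add (Nat.mul (f D) (g D)) ih) rows

noncomputable def sP (f : ℕ → ℕ) (rows : List ℕ) : ℕ :=
  List.rec 0 (fun D _ ih => Nat.add (f D) ih) rows

/-- `∑ (f - a)(g - b) = X - Y` with natural numbers -/
noncomputable def posS (f g : ℕ → ℕ) (a b : ℕ) (rows : List ℕ) : ℕ :=
  Nat.add (sPP f g rows) (Nat.mul (List.length rows) (Nat.mul a b))

noncomputable def negS (f g : ℕ → ℕ) (a b : ℕ) (rows : List ℕ) : ℕ :=
  Nat.add (Nat.mul b (sP f rows)) (Nat.mul a (sP g rows))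

theorem posS_sub_negS (f g : ℕ → ℕ) (a b : ℕ) (rows : List ℕ) :
    sumR (fun D => Int.mul (Int.subNatNat (f D) a) (Int.subNatNat (g D) b)) rows =
      (posS f g a b rows : ℤ) - negS f g a b rows := by
  induction rows with
  | nil => simp [sumR, posS, negS, sPP, sP]
  | cons D rows ih =>
    have e1 : sumR (fun D => Int.mul (Int.subNatNat (f D) a) (Int.subNatNat (g D) b)) (D :: rows) =
      Int.subNatNat (f D) a * Int.subNatNat (g D) b +
        sumR (fun D => Int.mul (Int.subNatNat (f D) a) (Int.subNatNat (g D) b)) rows := rfl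
    have e2 : posS f g a b (D :: rows) = (f D * g D + sPP f g rows) +
      (rows.length + 1) * (a * b) := rfl
    have e3 : negS f g a b (D :: rows) = b * (f D + sP f rows) + a * (g D + sP g rows) := rfl
    have e4 : posS f g a b rows = sPP f g rows + rows.length * (a * b) := rfl
    have e5 : negS f g a b rows = b * sP f rows + a * sP g rows := rfl
    rw [e1, e2, e3, ih, e4, e5, Int.subNatNat_eq_coe, Int.subNatNat_eq_coe]
    push_cast
    ring

theorem sumR_add (f g : ℕ → ℤ) (rows : List ℕ) :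
    sumR (fun D => Int.add (f D) (g D)) rows = sumR f rows + sumR g rows := by
  induction rows with
  | nil => rfl
  | cons D rows ih =>
    have e1 : sumR (fun D => Int.add (f D) (g D)) (D :: rows) =
      (f D + g D) + sumR (fun D => Int.add (f D) (g D)) rows := rfl
    have e2 : ∀ f : ℕ → ℤ, sumR f (D :: rows) = f D + sumR f rows := fun _ => rfl
    rw [e1, ih, e2 f, e2 g]
    ring

/-- even part of the Gram entry is `X - Y` -/
noncomputable def eqA (P : Par) (v : ℕ) (Q : BD) (i j : ℕ) (a : ℤ) : Bool :=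
  ibeq a (Int.add
    (Int.subNatNat (posS (pA Q i) (pA Q j) (off Q.B Q.tabA) (off Q.B Q.tabA) Q.rows)
      (negS (pA Q i) (pA Q j) (off Q.B Q.tabA) (off Q.B Q.tabA) Q.rows))
    (Int.mul (N2z P v)
      (Int.subNatNat (posS (pB Q i) (pB Q j) (off Q.B Q.tabB) (off Q.B Q.tabB) Q.rows)
        (negS (pB Q i) (pB Q j) (off Q.B Q.tabB) (off Q.B Q.tabB) Q.rows))))

noncomputable def eqB (Q : BD) (i j : ℕ) (b : ℤ) : Bool :=
  ibeq b (Int.subNatNat
    (Nat.add (posS (pA Q i) (pB Q j) (off Q.B Q.tabA) (off Q.B Q.tabB) Q.rows)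
      (posS (pB Q i) (pA Q j) (off Q.B Q.tabB) (off Q.B Q.tabA) Q.rows))
    (Nat.add (negS (pA Q i) (pB Q j) (off Q.B Q.tabA) (off Q.B Q.tabB) Q.rows)
      (negS (pB Q i) (pA Q j) (off Q.B Q.tabB) (off Q.B Q.tabA) Q.rows)))

theorem eqA_spec {P : Par} {Q : BD} {i j : ℕ} {a : ℤ} (h : eqA P v Q i j a = true) :
    MA P v Q i j = a := by
  rw [ibeq_eq h]
  have e1 := posS_sub_negS (pA Q i) (pA Q j) (off Q.B Q.tabA) (off Q.B Q.tabA) Q.rows
  have e2 := posS_sub_negS (pB Q i) (pB Q j) (off Q.B Q.tabB) (off Q.B Q.tabB) Q.rows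
  rw [← Int.subNatNat_eq_coe] at e1 e2
  show sumR (fun D => Int.mul (Int.subNatNat (pA Q i D) (off Q.B Q.tabA))
      (Int.subNatNat (pA Q j D) (off Q.B Q.tabA))) Q.rows +
    N2z P v * sumR (fun D => Int.mul (Int.subNatNat (pB Q i D) (off Q.B Q.tabB))
      (Int.subNatNat (pB Q j D) (off Q.B Q.tabB))) Q.rows = _
  rw [e1, e2]
  rfl

theorem eqB_spec {Q : BD} {i j : ℕ} {b : ℤ} (h : eqB Q i j b = true) : MB Q i j = b := by
  rw [ibeq_eq h]
  have e1 := posS_sub_negS (pA Q i) (pB Q j) (off Q.B Q.tabA) (off Q.B Q.tabB) Q.rows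
  have e2 := posS_sub_negS (pB Q i) (pA Q j) (off Q.B Q.tabB) (off Q.B Q.tabA) Q.rows
  show sumR (fun D => Int.add
      (Int.mul (Int.subNatNat (pA Q i D) (off Q.B Q.tabA))
        (Int.subNatNat (pB Q j D) (off Q.B Q.tabB)))
      (Int.mul (Int.subNatNat (pB Q i D) (off Q.B Q.tabB))
        (Int.subNatNat (pA Q j D) (off Q.B Q.tabA)))) Q.rows = _
  rw [sumR_add, e1, e2, Int.subNatNat_eq_coe]
  show _ = ((_ + _ : ℕ) : ℤ) - ((_ + _ : ℕ) : ℤ)
  push_cast
  ring

/-- fast check of the row `i` of the Gram table -/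
noncomputable def rowF (P : Par) (v : ℕ) (Q : BD) (K : BK) (i : ℕ) : Bool :=
  allN (fun j => Bool.and (eqA P v Q i j (nth (0, 0) (nth [] K.tab i) j).1)
    (eqB Q i j (nth (0, 0) (nth [] K.tab i) j).2)) (Nat.succ i)

theorem rowF_spec {P : Par} {Q : BD} {K : BK} {i : ℕ} (h : rowF P v Q K i = true) :
    ∀ j ≤ i, MA P v Q i j = (nth (0, 0) (nth [] K.tab i) j).1 ∧
      MB Q i j = (nth (0, 0) (nth [] K.tab i) j).2 := by
  intro j hj
  have h1 := allN_spec h j (Nat.lt_succ_of_le hj)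
  rw [Bool.and_eq_true] at h1
  exact ⟨eqA_spec h1.1, eqB_spec h1.2⟩

theorem blockOK_fast {P : Par} {d : ℕ} {Q : BD} {K : BK} (hB : 1 ≤ Q.B)
    (esA esB : List (List ℕ))
    (hA1 : ∀ e ∈ esA, e.length ≤ v + 1 ∧ e.sum = d + 1) (hA2 : esA.map (shf P v 0) = Q.tabA)
    (hB1 : ∀ e ∈ esB, e.length ≤ v + 1 ∧ e.sum = d) (hB2 : esB.map (shf P v 0) = Q.tabB)
    (hn : nM v Q ≤ K.nm) (h : ∀ i < K.n, rowF P v Q K i = true)
    {X : LS ℝ (v + 2)} (hX : SymLS X) (hN : ∑ i, X.l i ^ 2 = 1) :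
    BlockOK P (2 * d + 2) (2 * d + 1) K X := by
  obtain ⟨V, hV⟩ := rows_spec (P := P) hX hN hB (posOK_of P (xt X) esA hA1 hA2)
    (posOK_of P (xt X) esB hB1 hB2)
  refine ⟨V, fun i hi j hj => ?_⟩
  obtain ⟨tA, tB, g1, g2, g3⟩ := hV i j
  obtain ⟨h1, h2⟩ := rowF_spec (h i hi) j hj
  rw [h1] at g1
  rw [h2] at g2
  exact ⟨tA, tB, g1.mono hn, g2.mono hn, g3⟩

end OPC.Psd
end

section

/-! # P14: the boundary form -/

open MeasureTheory Set Filter Topology

namespace OPC

/-- formal boundary values in terms of the power sums `pw k = tr S^k`, `σ` and `s = |S|` -/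
noncomputable def Fac.fv (pw : ℕ → ℝ) (σ : ℝ) : Fac → ℝ
  | .c3 => pw 3 | .c4 => pw 4 | .b0 => 1 | .b1 => σ | .b2 => σ ^ 2 | .b3 => σ ^ 3
  | .u2 => 0 | .u1 => 0

noncomputable def Mt.fv (pw : ℕ → ℝ) (σ : ℝ) : Mt → ℝ
  | .pow a => σ * pw (a + 1) - pw (a + 2) + σ ^ a * pw 2
  | .sym a b => σ ^ (a + b) * pw 2

noncomputable def Shape.fv (pw : ℕ → ℝ) (σ : ℝ) : Shape → ℝ
  | .v0 a => σ ^ a
  | .p1 A => A.fv pw σ
  | .h1 A B => B.bn σ * A.fv pw σ - A.bn σ * B.fv pw σ
  | .h2 _ _ _ => 0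

/-- the boundary form: `∑ coef s^ex facs shape - s^ϖ σ` -/
noncomputable def Bform (ϖ : ℚ) (L : List Term) (pw : ℕ → ℝ) (σ s : ℝ) : ℝ :=
  (L.map fun g => (g.coef : ℝ) * (s ^ ((g.ex ϖ : ℚ) : ℝ) *
    ((g.facs.map (Fac.fv pw σ)).prod * g.shape.fv pw σ))).sum - s ^ (ϖ : ℝ) * σ

variable {n m : ℕ}

section P14clo

variable {E : Set (V n)} {u : V n → ℝ}

private theorem p14_er1_nonneg (h : Sol E u) : ∀ x ∈ E, 0 ≤ er1 u x := fun x _ => by
  unfold er1
  have := h.nonneg x
  have := Real.sqrt_nonneg (a2 u x)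
  have := abs_nonneg (gg u x - 1)
  linarith

private theorem p14_er01 (x : V n) : er0 u x ≤ er1 u x := by
  unfold er0 er1
  have := abs_nonneg (gg u x - 1)
  linarith

private theorem Clo.mono' {er er' f g : V n → ℝ} (he : ∀ x, er x ≤ er' x)
    (h : Clo E u er f g) : Clo E u er' f g := by
  intro a b δ ha hδ
  obtain ⟨C, hC, H⟩ := h a b δ ha hδ
  exact ⟨C, hC, fun x hx hxA hd => (H x hx hxA hd).trans
    (mul_le_mul_of_nonneg_left (he x) hC.le)⟩

private theorem Clo.congr' {er f g f' g' : V n → ℝ} (hf : ∀ x ∈ E, f' x = f x)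
    (hg : ∀ x ∈ E, g' x = g x) (h : Clo E u er f g) : Clo E u er f' g' := by
  intro a b δ ha hδ
  obtain ⟨C, hC, H⟩ := h a b δ ha hδ
  exact ⟨C, hC, fun x hx hxA hd => by rw [hf x hx, hg x hx]; exact H x hx hxA hd⟩

private theorem Clo.trans' {er f g k : V n → ℝ} (h1 : Clo E u er f g) (h2 : Clo E u er g k) :
    Clo E u er f k := by
  intro a b δ ha hδ
  obtain ⟨C, hC, H⟩ := h1 a b δ ha hδ
  obtain ⟨C', hC', H'⟩ := h2 a b δ ha hδ
  refine ⟨C + C', by positivity, fun x hx hxA hd => ?_⟩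
  have e1 := H x hx hxA hd
  have e2 := H' x hx hxA hd
  have e3 := abs_sub_le (f x) (g x) (k x)
  rw [add_mul]
  linarith

private theorem Clo.sum' {ι : Type*} (s : Finset ι) {er : V n → ℝ} {f g : ι → V n → ℝ}
    (he : ∀ x ∈ E, 0 ≤ er x) (h : ∀ i, Clo E u er (f i) (g i)) :
    Clo E u er (fun x => ∑ i ∈ s, f i x) (fun x => ∑ i ∈ s, g i x) := by
  classical
  induction s using Finset.induction_on with
  | empty => simpa using Clo.refl he (fun _ => (0 : ℝ))
  | insert i s hi ih =>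
    simp only [Finset.sum_insert hi]
    exact (h i).add ih

private theorem Bd.mul' {f g : V n → ℝ} (hf : Bd E u f) (hg : Bd E u g) :
    Bd E u (fun x => f x * g x) := by
  intro a b δ ha hδ
  obtain ⟨C, hC, H⟩ := hf a b δ ha hδ
  obtain ⟨C', hC', H'⟩ := hg a b δ ha hδ
  refine ⟨C * C', by positivity, fun x hx hxA hd => ?_⟩
  rw [abs_mul]
  exact mul_le_mul (H x hx hxA hd) (H' x hx hxA hd) (abs_nonneg _) hC.le

private theorem Bd.add' {f g : V n → ℝ} (hf : Bd E u f) (hg : Bd E u g) :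
    Bd E u (fun x => f x + g x) := by
  intro a b δ ha hδ
  obtain ⟨C, hC, H⟩ := hf a b δ ha hδ
  obtain ⟨C', hC', H'⟩ := hg a b δ ha hδ
  refine ⟨C + C', by positivity, fun x hx hxA hd => ?_⟩
  exact (abs_add_le _ _).trans (add_le_add (H x hx hxA hd) (H' x hx hxA hd))

private theorem Bd.const' (c : ℝ) : Bd E u (fun _ => c) := fun _ _ _ _ _ =>
  ⟨|c| + 1, by positivity, fun _ _ _ _ => by linarith⟩

private theorem Bd.pow' {f : V n → ℝ} (hf : Bd E u f) (k : ℕ) :
    Bd E u (fun x => f x ^ k) := by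
  induction k with
  | zero => simpa using Bd.const' (E := E) (u := u) 1
  | succ k ih => simp only [pow_succ]; exact ih.mul' hf

private theorem Bd.sum' {ι : Type*} (s : Finset ι) {f : ι → V n → ℝ}
    (h : ∀ i, Bd E u (f i)) : Bd E u (fun x => ∑ i ∈ s, f i x) := by
  classical
  induction s using Finset.induction_on with
  | empty => simpa using Bd.const' (E := E) (u := u) 0
  | insert i s hi ih =>
    simp only [Finset.sum_insert hi]
    exact (h i).add' ih

private theorem Bd.neg' {f : V n → ℝ} (hf : Bd E u f) : Bd E u (fun x => - f x) := by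
  intro a b δ ha hδ
  obtain ⟨C, hC, H⟩ := hf a b δ ha hδ
  exact ⟨C, hC, fun x hx hxA hd => by rw [abs_neg]; exact H x hx hxA hd⟩

private theorem Clo.neg' {er f g : V n → ℝ} (h : Clo E u er f g) :
    Clo E u er (fun x => - f x) (fun x => - g x) := by
  intro a b δ ha hδ
  obtain ⟨C, hC, H⟩ := h a b δ ha hδ
  refine ⟨C, hC, fun x hx hxA hd => ?_⟩
  rw [show - f x - - g x = -(f x - g x) by ring, abs_neg]
  exact H x hx hxA hd

private theorem Clo.sub' {er f g f' g' : V n → ℝ} (h1 : Clo E u er f g)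
    (h2 : Clo E u er f' g') : Clo E u er (fun x => f x - f' x) (fun x => g x - g' x) := by
  simp only [sub_eq_add_neg]
  exact h1.add h2.neg'

private theorem Clo.bdr' {er f g : V n → ℝ} (h : Clo E u er f g) (hg : Bd E u g)
    (he : Bd E u er) : Bd E u f := by
  intro a b δ ha hδ
  obtain ⟨C, hC, H⟩ := h a b δ ha hδ
  obtain ⟨C', hC', H'⟩ := hg a b δ ha hδ
  obtain ⟨C2, hC2, H2⟩ := he a b δ ha hδ
  refine ⟨C * C2 + C', by positivity, fun x hx hxA hd => ?_⟩
  have e1 := H x hx hxA hd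
  have e2 := H' x hx hxA hd
  have e3 := H2 x hx hxA hd
  have e4 : |f x| ≤ |f x - g x| + |g x| := by
    have := abs_add_le (f x - g x) (g x)
    rwa [sub_add_cancel] at this
  have e5 : C * er x ≤ C * C2 :=
    mul_le_mul_of_nonneg_left ((le_abs_self _).trans e3) hC.le
  linarith

private theorem p14_bd_norm (k : ℤ) : Bd E u (fun x => ‖x‖ ^ k) := by
  intro a b δ ha hδ
  have hc : ContinuousOn (fun t : ℝ => t ^ k) (Icc a b) := by
    refine continuousOn_id.zpow₀ _ fun t ht => Or.inl ?_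
    exact (ha.trans_le ht.1).ne'
  obtain ⟨C, hC⟩ := isCompact_Icc.exists_bound_of_continuousOn hc
  refine ⟨|C| + 1, by positivity, fun x hx hxA hd => ?_⟩
  have := hC ‖x‖ ⟨hxA.1, hxA.2⟩
  rw [Real.norm_eq_abs] at this
  have := le_abs_self C
  linarith

private theorem p14_bd_norm1 : Bd E u (fun x => ‖x‖) := by
  have := p14_bd_norm (E := E) (u := u) 1
  simpa using this

private theorem p14_bd_sgt (h : Sol E u) : Bd E u (sgt u) := by
  obtain ⟨-, -, -, -, -, -, -, -, -, -, hsg⟩ := h.bd_all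
  exact p14_bd_norm1.mul' hsg

/-- `gg ≈ 1` -/
private theorem p14_gg_clo (h : Sol E u) : Clo E u (er1 u) (gg u) (fun _ => 1) := by
  intro a b δ ha hδ
  refine ⟨1, one_pos, fun x hx hxA hd => ?_⟩
  unfold er1
  have := h.nonneg x
  have := Real.sqrt_nonneg (a2 u x)
  linarith

private theorem p14_u_clo (h : Sol E u) : Clo E u (er1 u) (fun x => u x / ‖x‖) (fun _ => 0) := by
  intro a b δ ha hδ
  refine ⟨a⁻¹, inv_pos.2 ha, fun x hx hxA hd => ?_⟩
  have h1 := h.nonneg x
  have h2 := Real.sqrt_nonneg (a2 u x)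
  have h3 := abs_nonneg (gg u x - 1)
  have h4 : 0 < ‖x‖ := ha.trans_le hxA.1
  rw [sub_zero, abs_div, abs_of_nonneg h1, abs_of_pos h4]
  calc u x / ‖x‖ ≤ u x / a := div_le_div_of_nonneg_left h1 ha hxA.1
    _ = a⁻¹ * u x := by rw [div_eq_inv_mul]
    _ ≤ a⁻¹ * er1 u x := by
        refine mul_le_mul_of_nonneg_left ?_ (inv_pos.2 ha).le
        unfold er1
        linarith

/-- `S^a p · S^b p ≈ σ^{a+b}` -/
private theorem p14_dot (h : Sol E u) (a b : ℕ) :
    Clo E u (er1 u) (fun x => ∑ i, Sp u x a i * Sp u x b i) (fun x => sgt u x ^ (a + b)) := by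
  obtain ⟨-, hq, -, -, -, hSp, -, -, -, -, -⟩ := h.bd_all
  have hs := p14_bd_sgt h
  have h1 : Clo E u (er1 u) (fun x => ∑ i, Sp u x a i * Sp u x b i)
      (fun x => ∑ i, (sgt u x ^ a * q u i x) * (sgt u x ^ b * q u i x)) := by
    refine Clo.sum' _ (p14_er1_nonneg h) fun i => ?_
    exact ((h.Sp_clo a i).mono' p14_er01).mul ((h.Sp_clo b i).mono' p14_er01) (hSp a i)
      ((hs.pow' b).mul' (hq i))
  have h2 : Clo E u (er1 u) (fun x => sgt u x ^ (a + b) * gg u x)
      (fun x => sgt u x ^ (a + b) * 1) :=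
    (Clo.refl (p14_er1_nonneg h) _).mul (p14_gg_clo h) (hs.pow' _) (Bd.const' 1)
  refine h1.trans' (Clo.congr' (f := fun x => sgt u x ^ (a + b) * gg u x)
    (g := fun x => sgt u x ^ (a + b) * 1) (fun x _ => ?_) (fun x _ => by rw [mul_one]) h2)
  unfold gg
  rw [Finset.mul_sum]
  exact Finset.sum_congr rfl fun i _ => by ring

private theorem p14_Sm_symm (h : Sol E u) {x : V n} (hx : x ∈ E) :
    (Sm u x).transpose = Sm u x := by
  ext i j
  simp [Sm, Matrix.transpose_apply, h.S_symm i j hx]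

private theorem p14_Sm_pow_symm (h : Sol E u) {x : V n} (hx : x ∈ E) (a : ℕ) (i j : Fin n) :
    (Sm u x ^ a) i j = (Sm u x ^ a) j i := by
  have h1 : (Sm u x ^ a).transpose = Sm u x ^ a := by
    rw [Matrix.transpose_pow, p14_Sm_symm h hx]
  exact congrFun (congrFun h1.symm i) j

private theorem p14_tr (h : Sol E u) {x : V n} (hx : x ∈ E) (a b : ℕ) :
    ∑ i, ∑ j, (Sm u x ^ a) i j * (Sm u x ^ b) i j = Matrix.trace (Sm u x ^ (a + b)) := by
  rw [pow_add, Matrix.trace]
  refine Finset.sum_congr rfl fun i _ => ?_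
  rw [Matrix.diag_apply, Matrix.mul_apply]
  exact Finset.sum_congr rfl fun j _ => by rw [p14_Sm_pow_symm h hx b i j]

private theorem p14_Sp_add (x : V n) (a b : ℕ) (i : Fin n) :
    ∑ j, (Sm u x ^ a) i j * Sp u x b j = Sp u x (a + b) i := by
  unfold Sp
  rw [pow_add, ← Matrix.mulVec_mulVec]
  rfl

private theorem p14_bd_tr (h : Sol E u) (k : ℕ) :
    Bd E u (fun x => Matrix.trace (Sm u x ^ k)) := by
  obtain ⟨-, -, -, -, hp, -, -, -, -, -, -⟩ := h.bd_all
  change Bd E u (fun x => ∑ i, (Sm u x ^ k) i i)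
  exact Bd.sum' _ fun i => hp k i i

private theorem p14_NN (h : Sol E u) {x : V n} (hx : x ∈ E) :
    ‖x‖ ^ 2 * NN u x = Matrix.trace (Sm u x ^ 2) := by
  rw [← p14_tr h hx 1 1]
  unfold NN
  rw [Finset.mul_sum]
  refine Finset.sum_congr rfl fun i _ => ?_
  rw [Finset.mul_sum]
  refine Finset.sum_congr rfl fun j _ => ?_
  simp only [pow_one, Sm, Matrix.of_apply]
  ring

/-- `(q·Aq)/|q|² ≈ ev` -/
private theorem p14_z (h : Sol E u) (A : Mt) :
    Clo E u (er1 u) (fun x => (∑ i, ∑ j, q u i x * A.val u x i j * q u j x) / gg u x)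
      (fun x => A.ev u x) := by
  obtain ⟨-, hq, -, -, -, -, -, -, -, -, -⟩ := h.bd_all
  have hs := p14_bd_sgt h
  have hgg : Bd E u (gg u) := h.bd_all.1
  have hev : Bd E u (fun x => A.ev u x) := by
    cases A with
    | pow a => exact hs.pow' a
    | sym a b => exact (hs.pow' _).mul' hgg
  have h1 : Clo E u (er1 u) (fun x => ∑ i, q u i x * ∑ j, A.val u x i j * q u j x)
      (fun x => ∑ i, q u i x * (A.ev u x * q u i x)) := by
    refine Clo.sum' _ (p14_er1_nonneg h) fun i => ?_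
    exact (Clo.refl (p14_er1_nonneg h) _).mul ((h.Mt_q_clo A i).mono' p14_er01) (hq i)
      (hev.mul' (hq i))
  intro a b δ ha hδ
  obtain ⟨C, hC, H⟩ := h1 a b δ ha hδ
  obtain ⟨C', c, hC', hc, H'⟩ := h.bounds (b := b) ha
  refine ⟨C / c, by positivity, fun x hx hxA hd => ?_⟩
  have hg : 0 < gg u x := h.gg_pos hx
  have hcg : c ≤ gg u x := (H' x hx hxA).2.2.2.2.2.2.2.2.2.2.2
  have e1 : |(∑ i, q u i x * ∑ j, A.val u x i j * q u j x) -
      (∑ i, q u i x * (A.ev u x * q u i x))| ≤ C * er1 u x := H x hx hxA hd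
  have e2 : ∑ i, q u i x * (A.ev u x * q u i x) = A.ev u x * gg u x := by
    unfold gg
    rw [Finset.mul_sum]
    exact Finset.sum_congr rfl fun i _ => by ring
  have e3 : ∑ i, ∑ j, q u i x * A.val u x i j * q u j x =
      ∑ i, q u i x * ∑ j, A.val u x i j * q u j x := by
    refine Finset.sum_congr rfl fun i _ => ?_
    rw [Finset.mul_sum]
    exact Finset.sum_congr rfl fun j _ => by ring
  rw [e2, ← e3] at e1
  have e4 : (∑ i, ∑ j, q u i x * A.val u x i j * q u j x) / gg u x - A.ev u x =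
      ((∑ i, ∑ j, q u i x * A.val u x i j * q u j x) - A.ev u x * gg u x) / gg u x := by
    field_simp
  show |(∑ i, ∑ j, q u i x * A.val u x i j * q u j x) / gg u x - A.ev u x| ≤ C / c * er1 u x
  rw [e4, abs_div, abs_of_pos hg]
  have her := p14_er1_nonneg h x hx
  calc |(∑ i, ∑ j, q u i x * A.val u x i j * q u j x) - A.ev u x * gg u x| / gg u x
      ≤ (C * er1 u x) / c := by
        apply div_le_div₀ (by positivity) e1 hc hcg
    _ = C / c * er1 u x := by ring

/-- the linear functional `P ↦ σ S:P - S²:P + (q·Pq/|q|²) |S|²` -/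
private noncomputable def p14Lam (u : V n → ℝ) (x : V n) (P : Fin n → Fin n → ℝ) : ℝ :=
  sg u x * ∑ i, ∑ j, S u i j x * P i j - ∑ i, ∑ j, (∑ k, S u i k x * S u k j x) * P i j
    + ((∑ i, ∑ j, q u i x * P i j * q u j x) / gg u x) * NN u x

private theorem p14Lam_add (x : V n) (P Q : Fin n → Fin n → ℝ) :
    p14Lam u x (fun i j => P i j + Q i j) = p14Lam u x P + p14Lam u x Q := by
  unfold p14Lam
  have e1 : ∑ i, ∑ j, S u i j x * (P i j + Q i j) =
      ∑ i, ∑ j, S u i j x * P i j + ∑ i, ∑ j, S u i j x * Q i j := by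
    simp only [mul_add, Finset.sum_add_distrib]
  have e2 : ∑ i, ∑ j, (∑ k, S u i k x * S u k j x) * (P i j + Q i j) =
      ∑ i, ∑ j, (∑ k, S u i k x * S u k j x) * P i j
        + ∑ i, ∑ j, (∑ k, S u i k x * S u k j x) * Q i j := by
    simp only [mul_add, Finset.sum_add_distrib]
  have e3 : ∑ i, ∑ j, q u i x * (P i j + Q i j) * q u j x =
      ∑ i, ∑ j, q u i x * P i j * q u j x + ∑ i, ∑ j, q u i x * Q i j * q u j x := by
    simp only [mul_add, add_mul, Finset.sum_add_distrib]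
  rw [e1, e2, e3]
  ring

private theorem p14Lam_smul (x : V n) (c : ℝ) (P : Fin n → Fin n → ℝ) :
    p14Lam u x (fun i j => c * P i j) = c * p14Lam u x P := by
  unfold p14Lam
  have e1 : ∑ i, ∑ j, S u i j x * (c * P i j) = c * ∑ i, ∑ j, S u i j x * P i j := by
    simp only [Finset.mul_sum]
    exact Finset.sum_congr rfl fun i _ => Finset.sum_congr rfl fun j _ => by ring
  have e2 : ∑ i, ∑ j, (∑ k, S u i k x * S u k j x) * (c * P i j) =
      c * ∑ i, ∑ j, (∑ k, S u i k x * S u k j x) * P i j := by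
    rw [Finset.mul_sum]
    refine Finset.sum_congr rfl fun i _ => ?_
    rw [Finset.mul_sum]
    exact Finset.sum_congr rfl fun j _ => by ring
  have e3 : ∑ i, ∑ j, q u i x * (c * P i j) * q u j x =
      c * ∑ i, ∑ j, q u i x * P i j * q u j x := by
    rw [Finset.mul_sum]
    refine Finset.sum_congr rfl fun i _ => ?_
    rw [Finset.mul_sum]
    exact Finset.sum_congr rfl fun j _ => by ring
  rw [e1, e2, e3]
  ring

/-- `|x|² Λ(A) ≈ A.fv` -/
private theorem p14_Mt (h : Sol E u) (A : Mt) :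
    Clo E u (er1 u) (fun x => ‖x‖ ^ 2 * p14Lam u x (fun i j => A.val u x i j))
      (fun x => A.fv (fun k => Matrix.trace (Sm u x ^ k)) (sgt u x)) := by
  have he := p14_er1_nonneg h
  have hs := p14_bd_sgt h
  have hz := p14_z h A
  have hgg : Bd E u (gg u) := h.bd_all.1
  have h2 := p14_bd_tr h 2
  have hev : Bd E u (fun x => A.ev u x) := by
    cases A with
    | pow a => exact hs.pow' a
    | sym a b => exact (hs.pow' _).mul' hgg
  -- rewriting
  have key : ∀ x ∈ E, ‖x‖ ^ 2 * p14Lam u x (fun i j => A.val u x i j) =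
      sgt u x * (∑ i, ∑ j, Sm u x i j * A.val u x i j)
        - ∑ i, ∑ j, (Sm u x ^ 2) i j * A.val u x i j
        + ((∑ i, ∑ j, q u i x * A.val u x i j * q u j x) / gg u x)
          * Matrix.trace (Sm u x ^ 2) := by
    intro x hx
    rw [← p14_NN h hx]
    unfold p14Lam sgt
    have e1 : ∑ i, ∑ j, Sm u x i j * A.val u x i j =
        ‖x‖ * ∑ i, ∑ j, S u i j x * A.val u x i j := by
      rw [Finset.mul_sum]
      refine Finset.sum_congr rfl fun i _ => ?_
      rw [Finset.mul_sum]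
      exact Finset.sum_congr rfl fun j _ => by simp only [Sm, Matrix.of_apply]; ring
    have e2 : ∑ i, ∑ j, (Sm u x ^ 2) i j * A.val u x i j =
        ‖x‖ ^ 2 * ∑ i, ∑ j, (∑ k, S u i k x * S u k j x) * A.val u x i j := by
      rw [Finset.mul_sum]
      refine Finset.sum_congr rfl fun i _ => ?_
      rw [Finset.mul_sum]
      refine Finset.sum_congr rfl fun j _ => ?_
      have : (Sm u x ^ 2) i j = ‖x‖ ^ 2 * ∑ k, S u i k x * S u k j x := by
        rw [pow_two (Sm u x), Matrix.mul_apply, Finset.mul_sum]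
        exact Finset.sum_congr rfl fun k _ => by simp only [Sm, Matrix.of_apply]; ring
      rw [this]; ring
    rw [e1, e2]
    ring
  have hthird : Clo E u (er1 u)
      (fun x => ((∑ i, ∑ j, q u i x * A.val u x i j * q u j x) / gg u x)
          * Matrix.trace (Sm u x ^ 2)) (fun x => A.ev u x * Matrix.trace (Sm u x ^ 2)) := by
    have hb : Bd E u (fun x => (∑ i, ∑ j, q u i x * A.val u x i j * q u j x) / gg u x) := by
      refine hz.bdr' hev ?_
      intro a b δ ha hδ
      obtain ⟨C', c, hC', hc, H'⟩ := h.bounds (b := b) ha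
      refine ⟨3 * C' + 2, by linarith, fun x hx hxA hd => ?_⟩
      obtain ⟨-, -, -, -, -, -, hg, -, -, ha2, hu, -⟩ := H' x hx hxA
      rw [abs_of_nonneg (he x hx)]
      unfold er1
      have h3 : √(a2 u x) ≤ C' := by
        rw [Real.sqrt_le_left (by linarith)]
        calc a2 u x ≤ C' := ha2
          _ ≤ C' ^ 2 := by nlinarith
      have h4 : |gg u x - 1| ≤ C' + 1 := by
        have := h.gg_pos hx
        rw [abs_le]
        constructor <;> linarith
      linarith
    exact hz.mul (Clo.refl he _) hb h2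
  cases A with
  | pow a =>
    refine Clo.congr' key (g := fun x => sgt u x * Matrix.trace (Sm u x ^ (a + 1))
      - Matrix.trace (Sm u x ^ (a + 2)) + Mt.ev u x (Mt.pow a) * Matrix.trace (Sm u x ^ 2))
      (fun x _ => rfl) ?_
    refine Clo.add ?_ hthird
    refine Clo.congr' (f := fun x => sgt u x * Matrix.trace (Sm u x ^ (a + 1))
      - Matrix.trace (Sm u x ^ (a + 2))) (g := fun x => sgt u x * Matrix.trace (Sm u x ^ (a + 1))
      - Matrix.trace (Sm u x ^ (a + 2))) (fun x hx => ?_) (fun x _ => rfl) (Clo.refl he _)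
    have e1 := p14_tr h hx 1 a
    have e2 := p14_tr h hx 2 a
    rw [pow_one] at e1
    simp only [Mt.val]
    rw [e1, e2, add_comm 1 a, add_comm 2 a]
  | sym a b =>
    have hdd : ∀ c d : ℕ, Bd E u (fun x => ∑ i, Sp u x c i * Sp u x d i) := fun c d =>
      Bd.sum' _ fun i => (h.bd_all.2.2.2.2.2.1 c i).mul' (h.bd_all.2.2.2.2.2.1 d i)
    refine Clo.congr' key (g := fun x => (sgt u x * ((sgt u x ^ (a + (1 + b))
        + sgt u x ^ (b + (1 + a))) / 2)
      - (sgt u x ^ (a + (2 + b)) + sgt u x ^ (b + (2 + a))) / 2)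
        + sgt u x ^ (a + b) * 1 * Matrix.trace (Sm u x ^ 2)) (fun x _ => ?_) ?_
    · simp only [Mt.fv]; ring
    refine Clo.add ?_ (hthird.trans' ?_)
    · refine Clo.congr' (f := fun x => sgt u x * ((∑ i, Sp u x a i * Sp u x (1 + b) i
          + ∑ i, Sp u x b i * Sp u x (1 + a) i) / 2)
        - (∑ i, Sp u x a i * Sp u x (2 + b) i + ∑ i, Sp u x b i * Sp u x (2 + a) i) / 2)
        (fun x hx => ?_) (fun x _ => rfl) ?_
      · have e0 : ∀ c, ∑ i, ∑ j, (Sm u x ^ c) i j * (Mt.sym a b).val u x i j =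
            (∑ i, Sp u x a i * Sp u x (c + b) i + ∑ i, Sp u x b i * Sp u x (c + a) i) / 2 := by
          intro c
          have f1 : ∑ i, ∑ j, (Sm u x ^ c) i j * (Mt.sym a b).val u x i j =
              (∑ i, Sp u x a i * ∑ j, (Sm u x ^ c) i j * Sp u x b j
                + ∑ i, Sp u x b i * ∑ j, (Sm u x ^ c) i j * Sp u x a j) / 2 := by
            rw [← Finset.sum_add_distrib, Finset.sum_div]
            refine Finset.sum_congr rfl fun i _ => ?_
            rw [Finset.mul_sum, Finset.mul_sum, ← Finset.sum_add_distrib, Finset.sum_div]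
            refine Finset.sum_congr rfl fun j _ => ?_
            simp only [Mt.val, Matrix.of_apply]
            ring
          rw [f1]
          simp only [p14_Sp_add]
        have e1 := e0 1
        rw [pow_one] at e1
        rw [e1, e0 2]
      · have k1 : ∀ c d : ℕ, Clo E u (er1 u)
            (fun x => (∑ i, Sp u x a i * Sp u x c i + ∑ i, Sp u x b i * Sp u x d i) / 2)
            (fun x => (sgt u x ^ (a + c) + sgt u x ^ (b + d)) / 2) := by
          intro c d
          have := (Clo.refl he (fun _ => (1 / 2 : ℝ))).mul ((p14_dot h a c).add (p14_dot h b d))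
            (Bd.const' _) ((hs.pow' _).add' (hs.pow' _))
          exact Clo.congr' (fun x _ => by ring) (fun x _ => by ring) this
        refine Clo.sub' ?_ (k1 _ _)
        refine (Clo.refl he _).mul (k1 _ _) hs ?_
        have := (((hs.pow' (a + (1 + b))).add' (hs.pow' (b + (1 + a)))).mul'
          (Bd.const' (E := E) (u := u) (1 / 2)))
        intro a' b' δ ha hδ
        obtain ⟨C, hC, H⟩ := this a' b' δ ha hδ
        refine ⟨C, hC, fun x hx hxA hd => ?_⟩
        have := H x hx hxA hd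
        simpa only [mul_one_div] using this
    · refine Clo.mul ?_ (Clo.refl he _) hev h2
      exact (Clo.refl he _).mul (p14_gg_clo h) (hs.pow' _) (Bd.const' 1)

private theorem p14_bd_Mtfv (h : Sol E u) (A : Mt) :
    Bd E u (fun x => A.fv (fun k => Matrix.trace (Sm u x ^ k)) (sgt u x)) := by
  have hs := p14_bd_sgt h
  have ht := p14_bd_tr h
  cases A with
  | pow a =>
    simp only [Mt.fv, sub_eq_add_neg]
    exact ((hs.mul' (ht _)).add' (ht _).neg').add' ((hs.pow' a).mul' (ht 2))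
  | sym a b =>
    simp only [Mt.fv]
    exact (hs.pow' _).mul' (ht 2)

private theorem p14_bd_bn (h : Sol E u) (A : Mt) : Bd E u (fun x => A.bn (sgt u x)) := by
  have hs := p14_bd_sgt h
  cases A <;> simp only [Mt.bn] <;> exact hs.pow' _

private theorem p14_ev_clo (h : Sol E u) (A : Mt) :
    Clo E u (er1 u) (fun x => A.ev u x) (fun x => A.bn (sgt u x)) := by
  have he := p14_er1_nonneg h
  have hs := p14_bd_sgt h
  cases A with
  | pow a => exact Clo.refl he _
  | sym a b =>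
    refine Clo.congr' (g := fun x => sgt u x ^ (a + b) * 1) (fun x _ => rfl)
      (fun x _ => by simp [Mt.bn]) ?_
    exact (Clo.refl he _).mul (p14_gg_clo h) (hs.pow' _) (Bd.const' 1)

private theorem p14_bd_ev (h : Sol E u) (A : Mt) : Bd E u (fun x => A.ev u x) := by
  have hs := p14_bd_sgt h
  cases A with
  | pow a => exact hs.pow' a
  | sym a b => exact (hs.pow' _).mul' h.bd_all.1

private theorem p14_shape (h : Sol E u) (f : Shape) :
    Clo E u (er1 u) (fun x => ‖x‖ ^ 2 * p14Lam u x (fun i j => f.P u x i j) + f.Z u x)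
      (fun x => f.fv (fun k => Matrix.trace (Sm u x ^ k)) (sgt u x)) := by
  have he := p14_er1_nonneg h
  have hs := p14_bd_sgt h
  have hlam0 : ∀ x : V n, p14Lam u x (fun _ _ => 0) = 0 := by
    intro x; simp [p14Lam]
  cases f with
  | v0 a =>
    have hq := h.bd_all.2.1
    have h1 : Clo E u (er1 u) (fun x => ∑ k, q u k x * Sp u x a k)
        (fun x => ∑ k, q u k x * (sgt u x ^ a * q u k x)) := by
      refine Clo.sum' _ he fun k => ?_
      exact (Clo.refl he _).mul ((h.Sp_clo a k).mono' p14_er01) (hq k) ((hs.pow' a).mul' (hq k))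
    have h2 : Clo E u (er1 u) (fun x => sgt u x ^ a * gg u x) (fun x => sgt u x ^ a * 1) :=
      (Clo.refl he _).mul (p14_gg_clo h) (hs.pow' _) (Bd.const' 1)
    refine Clo.congr' (f := fun x => ∑ k, q u k x * Sp u x a k)
      (g := fun x => sgt u x ^ a * 1) (fun x _ => ?_) (fun x _ => by simp [Shape.fv])
      (h1.trans' (Clo.congr' (fun x _ => ?_) (fun x _ => rfl) h2))
    · simp only [Shape.P, Shape.Z]
      have : (fun i j : Fin n => (0 : Matrix (Fin n) (Fin n) ℝ) i j) = fun _ _ => 0 := rfl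
      rw [this, hlam0, mul_zero, zero_add]
    · unfold gg
      rw [Finset.mul_sum]
      exact Finset.sum_congr rfl fun i _ => by ring
  | p1 A =>
    refine Clo.congr' (fun x _ => ?_) (fun x _ => rfl) (p14_Mt h A)
    simp only [Shape.P, Shape.Z, add_zero]
  | h1 A B =>
    have hMA := p14_Mt h A
    have hMB := p14_Mt h B
    have e1 : Clo E u (er1 u)
        (fun x => B.ev u x * (‖x‖ ^ 2 * p14Lam u x (fun i j => A.val u x i j))
          - A.ev u x * (‖x‖ ^ 2 * p14Lam u x (fun i j => B.val u x i j)))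
        (fun x => B.bn (sgt u x) * A.fv (fun k => Matrix.trace (Sm u x ^ k)) (sgt u x)
          - A.bn (sgt u x) * B.fv (fun k => Matrix.trace (Sm u x ^ k)) (sgt u x)) :=
      ((p14_ev_clo h B).mul hMA (p14_bd_ev h B) (p14_bd_Mtfv h A)).sub'
        ((p14_ev_clo h A).mul hMB (p14_bd_ev h A) (p14_bd_Mtfv h B))
    refine Clo.congr' (fun x _ => ?_) (fun x _ => rfl) e1
    simp only [Shape.P, Shape.Z, add_zero]
    have : (fun i j : Fin n => (B.ev u x • A.val u x - A.ev u x • B.val u x) i j) =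
        fun i j => B.ev u x * A.val u x i j + (-(A.ev u x)) * B.val u x i j := by
      funext i j
      simp only [Matrix.sub_apply, Matrix.smul_apply, smul_eq_mul]
      ring
    rw [this, p14Lam_add x (fun i j => B.ev u x * A.val u x i j)
      (fun i j => (-(A.ev u x)) * B.val u x i j),
      p14Lam_smul x (B.ev u x) (fun i j => A.val u x i j),
      p14Lam_smul x (-(A.ev u x)) (fun i j => B.val u x i j)]
    ring
  | h2 a b c =>
    refine Clo.congr' (f := fun _ => 0) (g := fun _ => 0) (fun x _ => ?_)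
      (fun x _ => by simp [Shape.fv]) (Clo.refl he _)
    simp only [Shape.P, Shape.Z]
    have : (fun i j : Fin n => (0 : Matrix (Fin n) (Fin n) ℝ) i j) = fun _ _ => 0 := rfl
    rw [this, hlam0, mul_zero, zero_add]

private theorem p14_bd_shapefv (h : Sol E u) (f : Shape) :
    Bd E u (fun x => f.fv (fun k => Matrix.trace (Sm u x ^ k)) (sgt u x)) := by
  have hs := p14_bd_sgt h
  cases f with
  | v0 a => simp only [Shape.fv]; exact hs.pow' a
  | p1 A => simp only [Shape.fv]; exact p14_bd_Mtfv h A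
  | h1 A B =>
    simp only [Shape.fv, sub_eq_add_neg]
    exact ((p14_bd_bn h B).mul' (p14_bd_Mtfv h A)).add'
      ((p14_bd_bn h A).mul' (p14_bd_Mtfv h B)).neg'
  | h2 a b c => simp only [Shape.fv]; exact Bd.const' 0

private theorem p14_fac (h : Sol E u) (f : Fac) :
    Clo E u (er1 u) (fun x => f.val u x)
      (fun x => f.fv (fun k => Matrix.trace (Sm u x ^ k)) (sgt u x)) := by
  have he := p14_er1_nonneg h
  have hb : ∀ a : ℕ, Clo E u (er1 u) (fun x => pv u x ⬝ᵥ (Sm u x ^ a).mulVec (pv u x))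
      (fun x => sgt u x ^ a) := by
    intro a
    refine Clo.congr' (fun x _ => ?_) (fun x _ => ?_) (p14_dot h 0 a)
    · unfold Sp dotProduct
      simp
    · rw [zero_add]
  cases f <;> simp only [Fac.val, Fac.fv]
  · exact Clo.refl he _
  · exact Clo.refl he _
  · exact p14_gg_clo h
  · have := hb 1
    simpa only [pow_one] using this
  · exact hb 2
  · exact hb 3
  · have h1 := p14_u_clo h
    have hbd : Bd E u (fun x => u x / ‖x‖) := by
      intro a b δ ha hδ
      obtain ⟨C', c, hC', hc, H'⟩ := h.bounds (b := b) ha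
      refine ⟨C' / a, by positivity, fun x hx hxA hd => ?_⟩
      have hu : u x ≤ C' := (H' x hx hxA).2.2.2.2.2.2.2.2.2.2.1
      have h4 : 0 < ‖x‖ := ha.trans_le hxA.1
      rw [abs_div, abs_of_nonneg (h.nonneg x), abs_of_pos h4]
      exact div_le_div₀ (by linarith) hu ha hxA.1
    have h2 := h1.mul h1 hbd (Bd.const' 0)
    exact Clo.congr' (fun x _ => by ring) (fun x _ => by ring) h2
  · exact p14_u_clo h

private theorem p14_bd_facfv (h : Sol E u) (f : Fac) :
    Bd E u (fun x => f.fv (fun k => Matrix.trace (Sm u x ^ k)) (sgt u x)) := by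
  have hs := p14_bd_sgt h
  have ht := p14_bd_tr h
  cases f <;> simp only [Fac.fv]
  · exact ht 3
  · exact ht 4
  · exact Bd.const' 1
  · exact hs
  · exact hs.pow' 2
  · exact hs.pow' 3
  · exact Bd.const' 0
  · exact Bd.const' 0

private theorem p14_facs (h : Sol E u) (F : List Fac) :
    Clo E u (er1 u) (fun x => facsVal u x F)
      (fun x => (F.map (Fac.fv (fun k => Matrix.trace (Sm u x ^ k)) (sgt u x))).prod) ∧
    Bd E u (fun x => (F.map (Fac.fv (fun k => Matrix.trace (Sm u x ^ k)) (sgt u x))).prod) := by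
  have he := p14_er1_nonneg h
  have hfv := h.bd_all.2.2.2.2.2.2.2.2.1
  induction F with
  | nil =>
    refine ⟨?_, ?_⟩
    · simp only [facsVal, List.map_nil, List.prod_nil]
      exact Clo.refl he _
    · simpa using Bd.const' (E := E) (u := u) 1
  | cons f F ih =>
    obtain ⟨ih1, ih2⟩ := ih
    refine ⟨?_, ?_⟩
    · have h1 : Bd E u (fun x => f.val u x) := by
        have := hfv [f]
        simpa [facsVal] using this
      have := (p14_fac h f).mul ih1 h1 ih2
      simpa only [facsVal, List.map_cons, List.prod_cons] using this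
    · simp only [List.map_cons, List.prod_cons]
      exact (p14_bd_facfv h f).mul' ih2

private theorem p14_term (h : Sol E u) (ϖ : ℚ) (g : Term) :
    Clo E u (er1 u)
      (fun x => p14Lam u x (fun i j => g.P ϖ u i j x) + g.Z ϖ u x)
      (fun x => ‖x‖ ^ (1 - (n : ℤ)) * ((g.coef : ℝ) * (ss u x ^ ((g.ex ϖ : ℚ) : ℝ) *
        ((g.facs.map (Fac.fv (fun k => Matrix.trace (Sm u x ^ k)) (sgt u x))).prod *
          g.shape.fv (fun k => Matrix.trace (Sm u x ^ k)) (sgt u x))))) := by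
  have he := p14_er1_nonneg h
  obtain ⟨hF1, hF2⟩ := p14_facs h g.facs
  have hFb := h.bd_all.2.2.2.2.2.2.2.2.1 g.facs
  have hS := p14_shape h g.shape
  have hSb := p14_bd_shapefv h g.shape
  have hss := h.bd_all.2.2.2.2.2.2.2.2.2.1 ((g.ex ϖ : ℚ) : ℝ)
  have hmain := (Clo.refl he (fun x => ‖x‖ ^ (1 - (n : ℤ)))).mul
    ((Clo.refl he (fun _ => (g.coef : ℝ))).mul
      ((Clo.refl he (fun x => ss u x ^ ((g.ex ϖ : ℚ) : ℝ))).mul
        (hF1.mul hS hFb hSb) hss (hF2.mul' hSb))
      (Bd.const' _) (hss.mul' (hF2.mul' hSb)))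
    (p14_bd_norm _) ((Bd.const' _).mul' (hss.mul' (hF2.mul' hSb)))
  refine Clo.congr' (fun x hx => ?_) (fun x _ => rfl) hmain
  have hx0 : ‖x‖ ≠ 0 := norm_ne_zero_iff.2 (h.ne_zero hx)
  have hz : ‖x‖ ^ (3 - (n : ℤ)) = ‖x‖ ^ (1 - (n : ℤ)) * ‖x‖ ^ 2 := by
    rw [show (3 - (n : ℤ)) = (1 - (n : ℤ)) + ((2 : ℕ) : ℤ) by push_cast; ring,
      zpow_add₀ hx0, zpow_natCast]
  have e1 : (fun i j => g.P ϖ u i j x) = fun i j =>
      ((g.coef : ℝ) * (‖x‖ ^ (3 - (n : ℤ)) * (ss u x ^ ((g.ex ϖ : ℚ) : ℝ) *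
        facsVal u x g.facs))) * g.shape.P u x i j := by
    funext i j
    unfold Term.P
    ring
  rw [e1, p14Lam_smul x _ (fun i j => g.shape.P u x i j), hz]
  unfold Term.Z
  ring

/-- `σ S:P - S²:P + z |S|² + Z = r^{1-n} Bform + O(|a| + u + |gg - 1|)`.
Sketch: closure rules for `Clo`, `Sol.Mt_q_clo`, `Sol.Sp_clo`; `S:A` for `A = Sm^a` is
`tr(Sm^{a+1})/r`; for `sym a b`, `σ S:A - S²:A = O(er0)` since `S (S^a p) = σ S^a p + O(er0)`. -/
theorem Sol.b_clo {E : Set (V n)} {u : V n → ℝ} (h : Sol E u) (ϖ : ℚ) (L : List Term) :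
    Clo E u (er1 u)
      (fun x => sg u x * ∑ i, ∑ j, S u i j x * Ptot ϖ L u i j x
          - ∑ i, ∑ j, (∑ k, S u i k x * S u k j x) * Ptot ϖ L u i j x
          + ztot ϖ L u x * NN u x + Ztot ϖ L u x)
      (fun x => ‖x‖ ^ (1 - (n : ℤ)) *
        Bform ϖ L (fun k => Matrix.trace (Sm u x ^ k)) (sgt u x) (ss u x)) := by
  have he := p14_er1_nonneg h
  have hs := p14_bd_sgt h
  -- the list part
  have hlist : ∀ L : List Term, Clo E u (er1 u)
      (fun x => p14Lam u x (fun i j => (L.map fun g => g.P ϖ u i j x).sum)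
        + (L.map fun g => g.Z ϖ u x).sum)
      (fun x => ‖x‖ ^ (1 - (n : ℤ)) * (L.map fun g => (g.coef : ℝ) *
        (ss u x ^ ((g.ex ϖ : ℚ) : ℝ) *
        ((g.facs.map (Fac.fv (fun k => Matrix.trace (Sm u x ^ k)) (sgt u x))).prod *
          g.shape.fv (fun k => Matrix.trace (Sm u x ^ k)) (sgt u x)))).sum) := by
    intro L
    induction L with
    | nil =>
      refine Clo.congr' (f := fun _ => 0) (g := fun _ => 0) (fun x _ => ?_)
        (fun x _ => by simp) (Clo.refl he _)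
      simp [p14Lam]
    | cons g L ih =>
      refine Clo.congr' (fun x _ => ?_) (fun x _ => ?_) ((p14_term h ϖ g).add ih)
      · simp only [List.map_cons, List.sum_cons]
        rw [p14Lam_add x (fun i j => g.P ϖ u i j x)
          (fun i j => (L.map fun g => g.P ϖ u i j x).sum)]
        ring
      · simp only [List.map_cons, List.sum_cons]
        ring
  have hlast : Clo E u (er1 u) (fun x => Ff ϖ u x * ∑ k, q u k x * w u k x)
      (fun x => ‖x‖ ^ (1 - (n : ℤ)) * (ss u x ^ (ϖ : ℝ) * sgt u x)) := by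
    have hss := h.bd_all.2.2.2.2.2.2.2.2.2.1 (ϖ : ℝ)
    have h1 := (Clo.refl he (fun x => ‖x‖ ^ (1 - (n : ℤ)) * (ss u x ^ (ϖ : ℝ) * sgt u x))).mul
      (p14_gg_clo h) ((p14_bd_norm _).mul' (hss.mul' hs)) (Bd.const' 1)
    refine Clo.congr' (fun x hx => ?_) (fun x _ => by rw [mul_one]) h1
    have hx0 : ‖x‖ ≠ 0 := norm_ne_zero_iff.2 (h.ne_zero hx)
    have hg := (h.gg_pos hx).ne'
    have hqw : ∑ k, q u k x * w u k x = sg u x * gg u x := by
      rw [sg, div_mul_cancel₀ _ hg]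
    rw [hqw]
    unfold Ff sgt
    have hz : ‖x‖ ^ (2 - (n : ℤ)) = ‖x‖ ^ (1 - (n : ℤ)) * ‖x‖ := by
      rw [show (2 - (n : ℤ)) = (1 - (n : ℤ)) + 1 by ring, zpow_add_one₀ hx0]
    rw [hz]
    ring
  refine Clo.congr' (fun x _ => ?_) (fun x _ => ?_) ((hlist L).sub' hlast)
  · simp only [p14Lam, Ptot, ztot, Ztot]
    ring
  · unfold Bform
    ring

end P14clo


private theorem p14_fac_scale (l : Fin m → ℝ) {σ s : ℝ} (hs : 0 < s) (f : Fac) :
    f.fv (fun k => ∑ i, l i ^ k) σ = s ^ f.wt * f.bv (fun i => l i / s) (σ / s) := by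
  have hs0 := hs.ne'
  cases f <;> simp only [Fac.fv, Fac.bv, Fac.wt]
  · rw [Finset.mul_sum]
    exact Finset.sum_congr rfl fun i _ => by field_simp
  · rw [Finset.mul_sum]
    exact Finset.sum_congr rfl fun i _ => by field_simp
  · simp
  · field_simp
  · field_simp
  · field_simp
  · simp
  · simp

private theorem p14_mt_scale (l : Fin m → ℝ) {σ s : ℝ} (hs : 0 < s) (hl : ∑ i, l i ^ 2 = s ^ 2)
    (A : Mt) :
    A.fv (fun k => ∑ i, l i ^ k) σ = s ^ (A.wt + 2) * A.bv (fun i => l i / s) (σ / s) := by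
  have hs0 := hs.ne'
  cases A with
  | pow a =>
    simp only [Mt.fv, Mt.bv, Mt.wt]
    rw [mul_add, hl, Finset.mul_sum, Finset.mul_sum, ← Finset.sum_sub_distrib]
    congr 1
    · refine Finset.sum_congr rfl fun i _ => ?_
      rw [div_pow]
      field_simp
      ring
    · rw [div_pow]
      field_simp
      ring
  | sym a b =>
    simp only [Mt.fv, Mt.bv, Mt.wt]
    rw [hl, div_pow]
    field_simp
    ring

private theorem p14_bn_scale {σ s : ℝ} (hs : 0 < s) (A : Mt) :
    A.bn σ = s ^ A.wt * A.bn (σ / s) := by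
  have hs0 := hs.ne'
  cases A <;> simp only [Mt.bn, Mt.wt, div_pow] <;> field_simp

private theorem p14_shape_scale (l : Fin m → ℝ) {σ s : ℝ} (hs : 0 < s)
    (hl : ∑ i, l i ^ 2 = s ^ 2) (f : Shape) :
    f.fv (fun k => ∑ i, l i ^ k) σ = s ^ f.wt * f.bv (fun i => l i / s) (σ / s) := by
  have hs0 := hs.ne'
  cases f with
  | v0 a => simp only [Shape.fv, Shape.bv, Shape.wt, div_pow]; field_simp
  | p1 A => simp only [Shape.fv, Shape.bv, Shape.wt]; exact p14_mt_scale l hs hl A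
  | h1 A B =>
    simp only [Shape.fv, Shape.bv, Shape.wt]
    rw [p14_mt_scale l hs hl A, p14_mt_scale l hs hl B, p14_bn_scale (σ := σ) hs A,
      p14_bn_scale (σ := σ) hs B]
    ring
  | h2 a b c => simp [Shape.fv, Shape.bv]

private theorem p14_facs_scale (l : Fin m → ℝ) {σ s : ℝ} (hs : 0 < s) (F : List Fac) :
    (F.map (Fac.fv (fun k => ∑ i, l i ^ k) σ)).prod =
      s ^ (F.map Fac.wt).sum * (F.map (Fac.bv (fun i => l i / s) (σ / s))).prod := by
  induction F with
  | nil => simp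
  | cons f F ih =>
    simp only [List.map_cons, List.prod_cons, List.sum_cons]
    rw [ih, p14_fac_scale l hs f, pow_add]
    ring

/-- scaling: `Bform` at `pw k = ∑ l^k`, `s = √(∑ l²)` is `s^{ϖ+1}` times the scaled boundary sum -/
theorem Bform_scale (ϖ : ℚ) (L : List Term) (l : Fin m → ℝ) (b : Fin m) (hl : 0 < ∑ i, l i ^ 2) :
    Bform ϖ L (fun k => ∑ i, l i ^ k) (l b) (√(∑ i, l i ^ 2)) =
      √(∑ i, l i ^ 2) ^ ((ϖ : ℝ) + 1) *
        ((L.map fun g => g.bv (fun i => l i / √(∑ i, l i ^ 2)) (l b / √(∑ i, l i ^ 2))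
          (√(∑ i, l i ^ 2))⁻¹).sum - l b / √(∑ i, l i ^ 2)) := by
  set s := √(∑ i, l i ^ 2) with hsdef
  have hs : 0 < s := Real.sqrt_pos.2 hl
  have hs2 : ∑ i, l i ^ 2 = s ^ 2 := (Real.sq_sqrt hl.le).symm
  have hterm : ∀ g : Term, (g.coef : ℝ) * (s ^ ((g.ex ϖ : ℚ) : ℝ) *
      ((g.facs.map (Fac.fv (fun k => ∑ i, l i ^ k) (l b))).prod *
        g.shape.fv (fun k => ∑ i, l i ^ k) (l b))) =
      s ^ ((ϖ : ℝ) + 1) * g.bv (fun i => l i / s) (l b / s) s⁻¹ := by
    intro g
    rw [p14_facs_scale l hs, p14_shape_scale l hs hs2]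
    unfold Term.bv
    have hex : s ^ ((g.ex ϖ : ℚ) : ℝ) * (s ^ (g.facs.map Fac.wt).sum * s ^ g.shape.wt) =
        s ^ ((ϖ : ℝ) + 1) * s⁻¹ ^ g.ge := by
      have e1 : ((g.ex ϖ : ℚ) : ℝ) = (ϖ : ℝ) + 1 - ((g.facs.map Fac.wt).sum : ℝ)
          - (g.shape.wt : ℝ) - (g.ge : ℝ) := by
        have e2 : ∀ N : ℕ, ((ϖ + 1 - ((g.shape.wt + N : ℕ) : ℚ) - (g.ge : ℚ) : ℚ) : ℝ) =
            (ϖ : ℝ) + 1 - (N : ℝ) - (g.shape.wt : ℝ) - (g.ge : ℝ) := by
          intro N
          push_cast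
          ring
        exact e2 _
      rw [e1, Real.rpow_sub hs, Real.rpow_sub hs, Real.rpow_sub hs, Real.rpow_natCast,
        Real.rpow_natCast, Real.rpow_natCast, inv_pow]
      have := hs.ne'
      field_simp
    calc (g.coef : ℝ) * (s ^ ((g.ex ϖ : ℚ) : ℝ) *
        (s ^ (g.facs.map Fac.wt).sum * (g.facs.map (Fac.bv (fun i => l i / s) (l b / s))).prod *
          (s ^ g.shape.wt * g.shape.bv (fun i => l i / s) (l b / s))))
        = (s ^ ((g.ex ϖ : ℚ) : ℝ) * (s ^ (g.facs.map Fac.wt).sum * s ^ g.shape.wt)) *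
          ((g.coef : ℝ) * ((g.facs.map (Fac.bv (fun i => l i / s) (l b / s))).prod *
            g.shape.bv (fun i => l i / s) (l b / s))) := by ring
      _ = _ := by rw [hex]; ring
  unfold Bform
  rw [mul_sub]
  congr 1
  · rw [show (fun g : Term => (g.coef : ℝ) * (s ^ ((g.ex ϖ : ℚ) : ℝ) *
      ((g.facs.map (Fac.fv (fun k => ∑ i, l i ^ k) (l b))).prod *
        g.shape.fv (fun k => ∑ i, l i ^ k) (l b)))) =
      fun g => s ^ ((ϖ : ℝ) + 1) * g.bv (fun i => l i / s) (l b / s) s⁻¹ from funext hterm]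
    rw [List.sum_map_mul_left]
  · rw [Real.rpow_add hs, Real.rpow_one]
    have := hs.ne'
    field_simp

/-- `Bform` only uses `pw k` for `k ≥ 1` -/
private theorem p14_Bform_congr (ϖ : ℚ) (L : List Term) {pw pw' : ℕ → ℝ}
    (h : ∀ k, 1 ≤ k → pw k = pw' k) (σ s : ℝ) : Bform ϖ L pw σ s = Bform ϖ L pw' σ s := by
  have hf : ∀ f : Fac, f.fv pw σ = f.fv pw' σ := by
    intro f
    cases f <;> simp only [Fac.fv] <;> exact h _ (by norm_num)
  have hm : ∀ A : Mt, A.fv pw σ = A.fv pw' σ := by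
    intro A
    cases A with
    | pow a => simp only [Mt.fv]; rw [h (a + 1) (by omega), h (a + 2) (by omega), h 2 (by omega)]
    | sym a b => simp only [Mt.fv]; rw [h 2 (by omega)]
  have hs : ∀ f : Shape, f.fv pw σ = f.fv pw' σ := by
    intro f
    cases f with
    | v0 a => rfl
    | p1 A => exact hm A
    | h1 A B => simp only [Shape.fv]; rw [hm A, hm B]
    | h2 a b c => rfl
  unfold Bform
  rw [show Fac.fv pw σ = Fac.fv pw' σ from funext hf]
  simp only [hs]

/-- the boundary form as a function of the jet, with `σ = ∑ q_i S_ij q_j / |q|²` -/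
noncomputable def BJ (ϖ : ℚ) (L : List Term) (J : Jet n) : ℝ :=
  ‖J.1‖ ^ (1 - (n : ℤ)) *
    Bform ϖ L (fun k => Matrix.trace ((Matrix.of fun i j => ‖J.1‖ * J.2.2 i j) ^ k))
      (‖J.1‖ * ((∑ i, ∑ j, J.2.1 i * J.2.2 i j * J.2.1 j) / max (1 / 2) (∑ i, J.2.1 i ^ 2)))
      (‖J.1‖ * √(∑ i, ∑ j, J.2.2 i j ^ 2))

private theorem p14_cont_Bform {X : Type*} [TopologicalSpace X] {s : Set X} (ϖ : ℚ)
    (L : List Term) {pw : X → ℕ → ℝ} {σ r : X → ℝ} (hpw : ∀ k, ContinuousOn (fun x => pw x k) s)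
    (hσ : ContinuousOn σ s) (hr : ContinuousOn r s) (hr0 : ∀ x ∈ s, r x ≠ 0) :
    ContinuousOn (fun x => Bform ϖ L (pw x) (σ x) (r x)) s := by
  have hf : ∀ f : Fac, ContinuousOn (fun x => f.fv (pw x) (σ x)) s := by
    intro f
    cases f <;> simp only [Fac.fv]
    · exact hpw 3
    · exact hpw 4
    · exact continuousOn_const
    · exact hσ
    · exact hσ.pow 2
    · exact hσ.pow 3
    · exact continuousOn_const
    · exact continuousOn_const
  have hF : ∀ F : List Fac, ContinuousOn (fun x => (F.map (Fac.fv (pw x) (σ x))).prod) s := by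
    intro F
    induction F with
    | nil => simpa using continuousOn_const
    | cons f F ih =>
      simp only [List.map_cons, List.prod_cons]
      exact (hf f).mul ih
  have hm : ∀ A : Mt, ContinuousOn (fun x => A.fv (pw x) (σ x)) s := by
    intro A
    cases A with
    | pow a =>
      simp only [Mt.fv]
      exact ((hσ.mul (hpw _)).sub (hpw _)).add ((hσ.pow a).mul (hpw 2))
    | sym a b =>
      simp only [Mt.fv]
      exact (hσ.pow _).mul (hpw 2)
  have hbn : ∀ A : Mt, ContinuousOn (fun x => A.bn (σ x)) s := by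
    intro A
    cases A <;> simp only [Mt.bn] <;> exact hσ.pow _
  have hs : ∀ f : Shape, ContinuousOn (fun x => f.fv (pw x) (σ x)) s := by
    intro f
    cases f with
    | v0 a => simp only [Shape.fv]; exact hσ.pow _
    | p1 A => exact hm A
    | h1 A B => simp only [Shape.fv]; exact ((hbn B).mul (hm A)).sub ((hbn A).mul (hm B))
    | h2 a b c => simp only [Shape.fv]; exact continuousOn_const
  have hrp : ∀ e : ℝ, ContinuousOn (fun x => r x ^ e) s := fun e =>
    hr.rpow_const fun x hx => Or.inl (hr0 x hx)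
  unfold Bform
  refine ContinuousOn.sub ?_ ((hrp _).mul hσ)
  induction L with
  | nil => simpa using continuousOn_const
  | cons g L ih =>
    simp only [List.map_cons, List.sum_cons]
    exact (continuousOn_const.mul ((hrp _).mul ((hF _).mul (hs _)))).add ih

/-- `BJ` is continuous on `{x ≠ 0, S ≠ 0}` (the `max` avoids dividing by zero). -/
theorem BJ_cont (ϖ : ℚ) (L : List Term) :
    ContinuousOn (BJ (n := n) ϖ L) {J | J.1 ≠ 0 ∧ J.2.2 ≠ 0} := by
  have hx : Continuous (fun J : Jet n => ‖J.1‖) := continuous_fst.norm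
  have hq : ∀ i, Continuous (fun J : Jet n => J.2.1 i) := fun i =>
    (continuous_apply i).comp (continuous_fst.comp continuous_snd)
  have hS : ∀ i j, Continuous (fun J : Jet n => J.2.2 i j) := fun i j =>
    (continuous_apply j).comp ((continuous_apply i).comp (continuous_snd.comp continuous_snd))
  have hM : Continuous (fun J : Jet n => (Matrix.of fun i j => ‖J.1‖ * J.2.2 i j :
      Matrix (Fin n) (Fin n) ℝ)) :=
    continuous_matrix fun i j => hx.mul (hS i j)
  have hN : Continuous (fun J : Jet n => ∑ i, ∑ j, J.2.2 i j ^ 2) :=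
    continuous_finsetSum _ fun i _ => continuous_finsetSum _ fun j _ => (hS i j).pow 2
  unfold BJ
  refine ContinuousOn.mul ?_ (p14_cont_Bform ϖ L (fun k => ?_) ?_ ?_ ?_)
  · exact hx.continuousOn.zpow₀ _ fun J hJ => Or.inl (norm_ne_zero_iff.2 hJ.1)
  · exact ((hM.pow k).matrix_trace).continuousOn
  · refine (hx.mul (Continuous.div ?_ ?_ ?_)).continuousOn
    · exact continuous_finsetSum _ fun i _ => continuous_finsetSum _ fun j _ =>
        ((hq i).mul (hS i j)).mul (hq j)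
    · exact continuous_const.max (continuous_finsetSum _ fun i _ => (hq i).pow 2)
    · intro J
      exact (lt_of_lt_of_le (by norm_num) (le_max_left _ _)).ne'
  · exact (hx.mul hN.sqrt).continuousOn
  · intro J hJ
    have hne' : ∃ i j, J.2.2 i j ≠ 0 := by
      by_contra hcon
      push Not at hcon
      exact hJ.2 (funext fun i => funext fun j => hcon i j)
    obtain ⟨i, j, hij⟩ := hne'
    have hpos : 0 < ∑ i, ∑ j, J.2.2 i j ^ 2 := by
      calc 0 < J.2.2 i j ^ 2 := by positivity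
        _ ≤ ∑ j, J.2.2 i j ^ 2 := Finset.single_le_sum (f := fun j => J.2.2 i j ^ 2)
            (fun _ _ => sq_nonneg _) (Finset.mem_univ j)
        _ ≤ ∑ i, ∑ j, J.2.2 i j ^ 2 := Finset.single_le_sum (f := fun i => ∑ j, J.2.2 i j ^ 2)
            (fun _ _ => Finset.sum_nonneg fun _ _ => sq_nonneg _) (Finset.mem_univ i)
    exact mul_ne_zero (norm_ne_zero_iff.2 hJ.1) (Real.sqrt_pos.2 hpos).ne'

/-- where `gg ≥ 1/2`, `BJ (jet u x)` is the second function in `Sol.b_clo` -/
theorem Sol.BJ_eq {E : Set (V n)} {u : V n → ℝ} (h : Sol E u) (ϖ : ℚ) (L : List Term) {x : V n}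
    (hx : x ∈ E) (hg : 1 / 2 ≤ gg u x) :
    BJ ϖ L (jet u x) = ‖x‖ ^ (1 - (n : ℤ)) *
        Bform ϖ L (fun k => Matrix.trace (Sm u x ^ k)) (sgt u x) (ss u x) := by
  have h1 : (‖x‖ * ((∑ i, ∑ j, q u i x * S u i j x * q u j x) / max (1 / 2) (∑ i, q u i x ^ 2)))
      = sgt u x := by
    have h2 : max (1 / 2) (∑ i, q u i x ^ 2) = gg u x := max_eq_right hg
    rw [h2]
    unfold sgt sg w
    congr 2
    refine Finset.sum_congr rfl fun i _ => ?_
    rw [Finset.mul_sum]
    exact Finset.sum_congr rfl fun j _ => by ring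
  unfold BJ jet
  simp only
  rw [h1]
  rfl


private theorem p14_tp {N : ℕ} {M U W : Matrix (Fin N) (Fin N) ℝ} {d : Fin N → ℝ}
    (hM : M = U * Matrix.diagonal d * W) (hWU : W * U = 1) (hUW : U * W = 1) (k : ℕ) :
    Matrix.trace (M ^ k) = ∑ i, d i ^ k := by
  have h2 : M ^ k = U * Matrix.diagonal (fun i => d i ^ k) * W := by
    induction k with
    | zero => simp [hUW]
    | succ k ih =>
      rw [pow_succ, ih, hM]
      have : Matrix.diagonal (fun i => d i ^ (k + 1)) =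
          Matrix.diagonal (fun i => d i ^ k) * Matrix.diagonal d := by
        rw [Matrix.diagonal_mul_diagonal]
        congr 1
      rw [this]
      calc U * Matrix.diagonal (fun i => d i ^ k) * W * (U * Matrix.diagonal d * W)
          = U * Matrix.diagonal (fun i => d i ^ k) * (W * U) * Matrix.diagonal d * W := by
            simp only [Matrix.mul_assoc]
        _ = _ := by rw [hWU, Matrix.mul_one]; simp only [Matrix.mul_assoc]
  rw [h2, Matrix.trace_mul_comm, ← Matrix.mul_assoc, hWU, Matrix.one_mul, Matrix.trace_diagonal]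

/-- trace of powers of a hermitian matrix -/
private theorem p14_trace_pow {N : ℕ} {M : Matrix (Fin N) (Fin N) ℝ} (hM : M.IsHermitian) (k : ℕ) :
    Matrix.trace (M ^ k) = ∑ i, hM.eigenvalues i ^ k := by
  have h1 := hM.spectral_theorem
  rw [Unitary.conjStarAlgAut_apply] at h1
  exact p14_tp h1 (Unitary.coe_star_mul_self _) (Unitary.coe_mul_star_self _) k

/-- an eigenvector which is not orthogonal to the `i`-th basis vector has the `i`-th eigenvalue -/
private theorem p14_eig {N : ℕ} {M : Matrix (Fin N) (Fin N) ℝ} (hM : M.IsHermitian)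
    {v : Fin N → ℝ} {μ : ℝ} (hv : M.mulVec v = μ • v) (i : Fin N)
    (hi : (hM.eigenvectorBasis i : Fin N → ℝ) ⬝ᵥ v ≠ 0) : hM.eigenvalues i = μ := by
  have h1 := hM.mulVec_eigenvectorBasis i
  have h2 : (M.mulVec (hM.eigenvectorBasis i : Fin N → ℝ)) ⬝ᵥ v =
      (hM.eigenvectorBasis i : Fin N → ℝ) ⬝ᵥ M.mulVec v := by
    rw [Matrix.dotProduct_mulVec, ← Matrix.mulVec_transpose]
    have : M.transpose = M := by
      have := hM.eq
      rwa [Matrix.conjTranspose_eq_transpose_of_trivial] at this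
    rw [this]
  rw [hv, dotProduct_smul] at h2
  have h3 : M.mulVec (hM.eigenvectorBasis i : Fin N → ℝ) =
      hM.eigenvalues i • (hM.eigenvectorBasis i : Fin N → ℝ) := h1
  rw [h3, smul_dotProduct, smul_eq_mul, smul_eq_mul] at h2
  exact mul_right_cancel₀ hi h2

private theorem p14_expand {N : ℕ} {M : Matrix (Fin N) (Fin N) ℝ} (hM : M.IsHermitian)
    (v : Fin N → ℝ) : v = ∑ i, ((hM.eigenvectorBasis i : Fin N → ℝ) ⬝ᵥ v) •
      (hM.eigenvectorBasis i : Fin N → ℝ) := by
  have h := hM.eigenvectorBasis.sum_repr' (WithLp.toLp 2 v)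
  have h2 := congrArg (fun z : EuclideanSpace ℝ (Fin N) => (WithLp.ofLp z : Fin N → ℝ)) h
  simp only at h2
  rw [WithLp.ofLp_sum] at h2
  conv_lhs => rw [← h2]
  refine Finset.sum_congr rfl fun i _ => ?_
  rw [WithLp.ofLp_smul]
  congr 1
  rw [EuclideanSpace.inner_eq_star_dotProduct]
  simp [dotProduct_comm]

/-- two orthogonal nonzero eigenvectors give two different indices -/
private theorem p14_two {N : ℕ} {M : Matrix (Fin N) (Fin N) ℝ} (hM : M.IsHermitian)
    {v w : Fin N → ℝ} {μ ν : ℝ} (hv : M.mulVec v = μ • v) (hw : M.mulVec w = ν • w)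
    (hv0 : v ≠ 0) (hw0 : w ≠ 0) (hvw : v ⬝ᵥ w = 0) :
    ∃ i j, i ≠ j ∧ hM.eigenvalues i = μ ∧ hM.eigenvalues j = ν := by
  set B : Fin N → Fin N → ℝ := fun i => (hM.eigenvectorBasis i : Fin N → ℝ) with hB
  have ex : ∀ z : Fin N → ℝ, z ≠ 0 → ∃ i, B i ⬝ᵥ z ≠ 0 := by
    intro z hz
    by_contra hcon
    push Not at hcon
    apply hz
    rw [p14_expand hM z]
    exact Finset.sum_eq_zero fun i _ => by
      have := hcon i
      rw [hB] at this
      simp only at this
      rw [this, zero_smul]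
  by_contra hcon
  push Not at hcon
  have key : ∀ i j, B i ⬝ᵥ v ≠ 0 → B j ⬝ᵥ w ≠ 0 → i = j := by
    intro i j hi hj
    by_contra hij
    exact hcon i j hij (p14_eig hM hv i hi) (p14_eig hM hw j hj)
  obtain ⟨i0, hi0⟩ := ex v hv0
  obtain ⟨j0, hj0⟩ := ex w hw0
  have hij : i0 = j0 := key i0 j0 hi0 hj0
  subst hij
  have hv1 : ∀ i, i ≠ i0 → B i ⬝ᵥ v = 0 := by
    intro i hi
    by_contra h
    exact hi (key i i0 h hj0)
  have hv2 : v = (B i0 ⬝ᵥ v) • B i0 := by
    conv_lhs => rw [p14_expand hM v]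
    rw [Finset.sum_eq_single i0]
    · intro i _ hi
      have := hv1 i hi
      rw [hB] at this
      simp only at this
      rw [this, zero_smul]
    · intro h
      exact absurd (Finset.mem_univ _) h
  rw [hv2, smul_dotProduct, smul_eq_mul] at hvw
  exact (mul_ne_zero hi0 hj0) hvw

/-- spectral data of a boundary state: eigenvalues of `r S` on `x^⊥`, one of them (`b`) being
`r σ` with eigenvector `q`.
Sketch: `x/|x|`, `q` are orthonormal eigenvectors of the symmetric matrix `S` (eigenvalues `0, σ`);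
diagonalise `S` on the orthogonal complement. -/
theorem bstate_spectral {J : Jet (m + 1)} (hJ : J ∈ BState (m + 1)) (hm : 1 ≤ m) :
    ∃ (l : Fin m → ℝ) (b : Fin m), ∑ i, l i = 0 ∧ l b ≤ 0 ∧
      l b = ‖J.1‖ * ∑ i, ∑ j, J.2.1 i * J.2.2 i j * J.2.1 j ∧
      (∀ k, 1 ≤ k →
        Matrix.trace ((Matrix.of fun i j => ‖J.1‖ * J.2.2 i j) ^ k) = ∑ i, l i ^ k) ∧
      0 < ∑ i, l i ^ 2 := by
  obtain ⟨hx0, hq1, hxq, hsym, htr, hSx, ⟨σ, hσ, hSq⟩, hS0⟩ := hJ
  set M : Matrix (Fin (m + 1)) (Fin (m + 1)) ℝ := Matrix.of fun i j => ‖J.1‖ * J.2.2 i j with hMdef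
  have hM : M.IsHermitian := by
    ext i j
    simp [hMdef, Matrix.conjTranspose_apply, hsym i j]
  have hnx : 0 < ‖J.1‖ := norm_pos_iff.2 hx0
  have hv : M.mulVec (fun i => J.1 i) = (0 : ℝ) • (fun i => J.1 i) := by
    ext i
    simp only [hMdef, Matrix.mulVec, dotProduct, Matrix.of_apply, Pi.smul_apply, zero_smul]
    have := hSx i
    calc ∑ j, ‖J.1‖ * J.2.2 i j * J.1 j = ‖J.1‖ * ∑ j, J.2.2 i j * J.1 j := by
          rw [Finset.mul_sum]; exact Finset.sum_congr rfl fun j _ => by ring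
      _ = 0 := by rw [this, mul_zero]
  have hw : M.mulVec J.2.1 = (‖J.1‖ * σ) • J.2.1 := by
    ext i
    simp only [hMdef, Matrix.mulVec, dotProduct, Matrix.of_apply, Pi.smul_apply, smul_eq_mul]
    have := hSq i
    calc ∑ j, ‖J.1‖ * J.2.2 i j * J.2.1 j = ‖J.1‖ * ∑ j, J.2.2 i j * J.2.1 j := by
          rw [Finset.mul_sum]; exact Finset.sum_congr rfl fun j _ => by ring
      _ = ‖J.1‖ * σ * J.2.1 i := by rw [this]; ring
  have hv0 : (fun i => J.1 i) ≠ (0 : Fin (m + 1) → ℝ) := by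
    intro h
    apply hx0
    ext i
    exact congrFun h i
  have hw0 : J.2.1 ≠ 0 := by
    intro h
    rw [h] at hq1
    simp at hq1
  obtain ⟨i0, i1, hne, h0, h1⟩ := p14_two hM hv hw hv0 hw0 hxq
  obtain ⟨b, hb⟩ := Fin.exists_succAbove_eq hne.symm
  have hpow : ∀ k, 1 ≤ k → Matrix.trace (M ^ k) =
      ∑ j : Fin m, hM.eigenvalues (i0.succAbove j) ^ k := by
    intro k hk
    rw [p14_trace_pow hM k, Fin.sum_univ_succAbove _ i0, h0, zero_pow (by omega), zero_add]
  have hlb : hM.eigenvalues (i0.succAbove b) = ‖J.1‖ * σ := by rw [hb, h1]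
  have hqSq : ∑ i, ∑ j, J.2.1 i * J.2.2 i j * J.2.1 j = σ := by
    calc ∑ i, ∑ j, J.2.1 i * J.2.2 i j * J.2.1 j = ∑ i, J.2.1 i * ∑ j, J.2.2 i j * J.2.1 j := by
          refine Finset.sum_congr rfl fun i _ => ?_
          rw [Finset.mul_sum]; exact Finset.sum_congr rfl fun j _ => by ring
      _ = ∑ i, σ * J.2.1 i ^ 2 := Finset.sum_congr rfl fun i _ => by rw [hSq i]; ring
      _ = σ := by rw [← Finset.mul_sum, hq1, mul_one]
  refine ⟨fun j => hM.eigenvalues (i0.succAbove j), b, ?_, ?_, ?_, hpow, ?_⟩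
  · have h := hpow 1 le_rfl
    rw [pow_one] at h
    simp only [pow_one] at h
    rw [← h]
    simp only [hMdef, Matrix.trace, Matrix.diag, Matrix.of_apply]
    rw [← Finset.mul_sum, htr, mul_zero]
  · simp only [hlb]
    exact mul_nonpos_of_nonneg_of_nonpos hnx.le hσ
  · simp only [hlb, hqSq]
  · rw [← hpow 2 (by norm_num)]
    have ht : Matrix.trace (M ^ 2) = ∑ i, ∑ j, M i j ^ 2 := by
      rw [pow_two, Matrix.trace]
      refine Finset.sum_congr rfl fun i _ => ?_
      rw [Matrix.diag_apply, Matrix.mul_apply]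
      refine Finset.sum_congr rfl fun j _ => ?_
      have : M j i = M i j := by simp [hMdef, hsym i j]
      rw [this]; ring
    rw [ht]
    have hne' : ∃ i j, J.2.2 i j ≠ 0 := by
      by_contra hcon
      push Not at hcon
      apply hS0
      funext i j
      exact hcon i j
    obtain ⟨i, j, hij⟩ := hne'
    have hpos : 0 < M i j ^ 2 := by
      have : M i j ≠ 0 := by
        simp only [hMdef, Matrix.of_apply]
        exact mul_ne_zero hnx.ne' hij
      positivity
    calc 0 < M i j ^ 2 := hpos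
      _ ≤ ∑ j, M i j ^ 2 := Finset.single_le_sum (f := fun j => M i j ^ 2)
          (fun _ _ => sq_nonneg _) (Finset.mem_univ j)
      _ ≤ ∑ i, ∑ j, M i j ^ 2 := Finset.single_le_sum (f := fun i => ∑ j, M i j ^ 2)
          (fun _ _ => Finset.sum_nonneg fun _ _ => sq_nonneg _) (Finset.mem_univ i)

/-- (B') implies `BJ ≥ 0` at the boundary states -/
theorem BJ_nonneg (hm : 1 ≤ m) (ϖ : ℚ) (L : List Term)
    (H : ∀ (l : Fin m → ℝ) (b : Fin m) (eps : ℝ), ∑ i, l i = 0 → ∑ i, l i ^ 2 = 1 → l b ≤ 0 →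
      0 < eps → 0 ≤ (L.map fun g => g.bv l (l b) eps).sum - l b) :
    ∀ J ∈ BState (m + 1), 0 ≤ BJ ϖ L J := by
  intro J hJ
  obtain ⟨l, b, hl0, hlb, hlb', hpow, hl2⟩ := bstate_spectral hJ hm
  have hq1 : ∑ i, J.2.1 i ^ 2 = 1 := hJ.2.1
  have hx0 : J.1 ≠ 0 := hJ.1
  have hsym : ∀ i j, J.2.2 i j = J.2.2 j i := hJ.2.2.2.1
  unfold BJ
  refine mul_nonneg (zpow_nonneg (norm_nonneg _) _) ?_
  rw [p14_Bform_congr ϖ L hpow]
  have hmax : max (1 / 2 : ℝ) (∑ i, J.2.1 i ^ 2) = 1 := by rw [hq1]; norm_num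
  rw [hmax, div_one, ← hlb']
  have hs : ‖J.1‖ * √(∑ i, ∑ j, J.2.2 i j ^ 2) = √(∑ i, l i ^ 2) := by
    rw [← hpow 2 (by norm_num)]
    have ht : Matrix.trace ((Matrix.of fun i j => ‖J.1‖ * J.2.2 i j :
        Matrix (Fin (m + 1)) (Fin (m + 1)) ℝ) ^ 2) = ‖J.1‖ ^ 2 * ∑ i, ∑ j, J.2.2 i j ^ 2 := by
      rw [pow_two, Matrix.trace, Finset.mul_sum]
      refine Finset.sum_congr rfl fun i _ => ?_
      rw [Matrix.diag_apply, Matrix.mul_apply, Finset.mul_sum]
      refine Finset.sum_congr rfl fun j _ => ?_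
      simp only [Matrix.of_apply]
      rw [hsym j i]; ring
    rw [ht, Real.sqrt_mul (sq_nonneg _), Real.sqrt_sq (norm_nonneg _)]
  rw [hs, Bform_scale ϖ L l b hl2]
  set s := √(∑ i, l i ^ 2) with hsdef
  have hs0 : 0 < s := Real.sqrt_pos.2 hl2
  refine mul_nonneg (Real.rpow_nonneg hs0.le _) ?_
  refine H (fun i => l i / s) b s⁻¹ ?_ ?_ ?_ (inv_pos.2 hs0)
  · rw [← Finset.sum_div, hl0, zero_div]
  · simp only [div_pow]
    rw [← Finset.sum_div, hsdef, Real.sq_sqrt hl2.le]
    exact div_self hl2.ne'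
  · exact div_nonpos_of_nonpos_of_nonneg hlb hs0.le

end OPC
end
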