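import Pool.Agent.Lib.MP_9059b8_an.L6
import Pool.Agent.Lib.MP_9059b8_an.P14

section

/-!
# Groups of terms with precomputed canonical forms, and the final check in several parts
-/

namespace OPC.Psx

open OPC.Psd

variable {v : ℕ}

/-- canonical form: for every key the compact digits of the even and of the odd part -/
inductive CT where
  | leaf (vs : List ℕ) (D1 D2 : ℕ) : CT
  | node (K : ℕ) (l r : CT) : CT

/-- parameters of the canonical forms -/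
structure CP where
  P : Par
  v : ℕ
  D : ℕ
  E : ℕ
  B : ℕ
  tabD : List ℕ
  tabE : List ℕ
  n : ℕ
  Bg : List ℕ

noncomputable def canZ (Q : CP) (t : CT) : Z :=
  CT.rec (fun vs D1 D2 => Z.add (Z.el (kvs (nzv Q.v) vs) (pe Q.B Q.tabD D1) Q.D Q.n)
    (Z.el (kvs (nzv Q.v) vs) (pe Q.B Q.tabE D2) Q.E Q.n)) (fun _ _ _ a b => Z.add a b) t

noncomputable def canLeaf (Q : CP) (vs : List ℕ) (D1 D2 : ℕ) (L : EL) : Bool :=
  Bool.and (allOK (kvs (nzv Q.v) vs) Q.D Q.E L)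
    (Bool.and (Nat.ble (Nat.succ (List.length vs)) 8)
      (Bool.and (vsOK (Nat.add Q.v 3) Q.Bg vs)
        (Bool.and
          (Bool.and (Nat.ble (sumN Q.v Q.D L) Q.n)
            (ibeq (sumP Q.P Q.v Q.D L) (pe Q.B Q.tabD D1)))
          (Bool.and (Nat.ble (sumN Q.v Q.E L) Q.n)
            (ibeq (sumP Q.P Q.v Q.E L) (pe Q.B Q.tabE D2))))))

noncomputable def canOK (Q : CP) (t : CT) : EL → Bool :=
  CT.rec (fun vs D1 D2 L => canLeaf Q vs D1 D2 L)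
    (fun K _ _ ih1 ih2 L => Bool.and (ih1 (ELlt K L)) (ih2 (ELge K L))) t

theorem canOK_node {Q : CP} {K : ℕ} {l r : CT} {L : EL} (h1 : canOK Q l (ELlt K L) = true)
    (h2 : canOK Q r (ELge K L) = true) : canOK Q (CT.node K l r) L = true := by
  show (canOK Q l (ELlt K L) && canOK Q r (ELge K L)) = true
  rw [h1, h2]
  rfl

theorem treeOK_node {Q : CD} {K : ℕ} {l r : KT} {L : EL} (h1 : treeOK Q l (ELlt K L) = true)
    (h2 : treeOK Q r (ELge K L) = true) : treeOK Q (KT.node K l r) L = true := by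
  show (treeOK Q l (ELlt K L) && treeOK Q r (ELge K L)) = true
  rw [h1, h2]
  rfl

section

variable {X : LS ℝ (v + 2)} (hX : SymLS X) (hN : ∑ i, X.l i ^ 2 = 1)

include hX hN in
theorem rz_canZ {Q : CP} (hv : Q.v = v) (hD : Q.D % 2 = 0) (hE : Q.E % 2 = 1)
    (hBlt : ∀ i ∈ Q.Bg, i < nzv v) {ζ : Fin (nzv v) → ℝ} :
    ∀ (t : CT) (L : EL) (s : ℝ), canOK Q t L = true → RL Q.P (xt X) ζ L s →
      RZ Q.P (xt X) ζ (canZ Q t) s := by
  subst hv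
  intro t
  induction t with
  | leaf vs D1 D2 =>
    intro L s h hL
    have h' : (allOK (kvs (nzv Q.v) vs) Q.D Q.E L &&
      (Nat.ble (Nat.succ (List.length vs)) 8 &&
        (vsOK (Nat.add Q.v 3) Q.Bg vs &&
          ((Nat.ble (sumN Q.v Q.D L) Q.n &&
              ibeq (sumP Q.P Q.v Q.D L) (pe Q.B Q.tabD D1)) &&
            (Nat.ble (sumN Q.v Q.E L) Q.n &&
              ibeq (sumP Q.P Q.v Q.E L) (pe Q.B Q.tabE D2)))))) = true := h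
    simp only [Bool.and_eq_true] at h'
    obtain ⟨ha, hlen, hvs, ⟨hn1, hs1⟩, ⟨hn2, hs2⟩⟩ := h'
    have hnz : Q.v + 3 ≤ nzv Q.v := by
      unfold nzv
      omega
    have hlt := vsOK_lt hnz hBlt vs hvs
    have hK := kvs_lt vs hlt (Nat.le_of_ble_eq_true hlen)
    obtain ⟨s1, s2, g1, g2, g3⟩ := rc_sumP hX hN hD hE hK hL ha (kz_evs vs hlt)
    rw [ibeq_eq hs1] at g1
    rw [ibeq_eq hs2] at g2
    refine ⟨s1 * mz ζ (evs vs), s2 * mz ζ (evs vs), ?_, ?_, ?_⟩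
    · exact ⟨s1, evs vs, g1.mono (Nat.le_of_ble_eq_true hn1), kz_evs vs hlt, rfl⟩
    · exact ⟨s2, evs vs, g2.mono (Nat.le_of_ble_eq_true hn2), kz_evs vs hlt, rfl⟩
    · rw [g3]; ring
  | node K l r ihl ihr =>
    intro L s h hL
    have h' : (canOK Q l (ELlt K L) && canOK Q r (ELge K L)) = true := h
    rw [Bool.and_eq_true] at h'
    obtain ⟨s1, s2, g1, g2, g3⟩ := rl_split K hL
    exact ⟨s1, s2, ihl _ _ h'.1 g1, ihr _ _ h'.2 g2, g3⟩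

include hX hN in
/-- a tree whose flattening passes the check may be replaced by its canonical form -/
theorem rz_can {Q : CP} (hv : Q.v = v) (hD : Q.D % 2 = 0) (hE : Q.E % 2 = 1)
    (hBlt : ∀ i ∈ Q.Bg, i < nzv v) {ζ : Fin (nzv v) → ℝ} {z : Z} {s : ℝ}
    (h : RZ Q.P (xt X) ζ z s) {t : CT} (ht : canOK Q t (flat z EL.nil) = true) :
    RZ Q.P (xt X) ζ (canZ Q t) s := by
  have h1 := rl_flat h (L := EL.nil) (t := 0) rfl
  rw [add_zero] at h1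
  exact rz_canZ hX hN hv hD hE hBlt t _ _ ht h1

end

section Comp

variable (P : Par) (v : ℕ)

/-- the part of the certificate with the weight -/
noncomputable def xiZ (q e1 e2 : ℤ) (LF : List FD) : Z :=
  Z.add
    (Z.sum (v + 2) fun k => Z.mul (xz v k)
      (Z.add (Z.smul e1 (Z.mul (GZ P v LF) (wz P v k))) (Z.smul q (gdZ P v k LF))))
    (Z.add (Z.smul q (Z.mul (GZ P v LF) (xi2 v)))
      (Z.smul e2 (Z.mul (GZ P v LF) (e2z v))))

end Comp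

/-- the part of `certXi` with the weight -/
noncomputable def xiPart (ϖ t : ℚ) (LF : List FT) (X : LS ℝ (v + 2)) (ξ : Fin (v + 2) → ℝ) : ℝ :=
  ∑ k, ξ k * (algebraMap ℚ ℝ ϖ * gl LF X * X.w k + gd LF X k)
    + gl LF X * ∑ k, ξ k ^ 2
    - algebraMap ℚ ℝ ((((v + 2 : ℕ) : ℚ) - 1) ^ 2 / 4 + t) * gl LF X * X.eps ^ 2

theorem certXi_eq (ϖ t : ℚ) (LF : List FT) (L : List Term) (X : LS ℝ (v + 2))
    (ξ : Fin (v + 2) → ℝ) :
    certXi ϖ t LF L X ξ = (L.map fun g => g.ldiv ϖ X).sum + xiPart ϖ t LF X ξ := by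
  unfold certXi xiPart
  ring

theorem rz_xiZ {P : Par} {X : LS ℝ (v + 2)} (hX : SymLS X) (ξ : Fin (v + 2) → ℝ)
    {C q e1 e2 : ℤ} {ϖ t : ℚ} {LF : List FD}
    (hq : q ≠ 0) (hLF : ∀ f ∈ LF, (f.c : ℚ) * q = C * f.f.coef) (h1 : (e1 : ℚ) = q * ϖ)
    (h2 : (e2 : ℚ) = -(q * ((((v + 2 : ℕ) : ℚ) - 1) ^ 2 / 4 + t))) :
    RZ P (xt X) (zx X ξ) (xiZ P v q e1 e2 LF) ((C : ℝ) * xiPart ϖ t (LF.map (·.f)) X ξ) := by
  have h := rz_certXiZ (P := P) hX ξ (vd := 1) (L := []) (by simp) hq hLF h1 h2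
  obtain ⟨s1, s2, g1, g2, g3⟩ := h
  have h0 : s1 = 0 := g1
  rw [h0, zero_add, certXi_eq] at g3
  refine g2.congr ?_
  rw [← g3]
  simp

/-- groups of terms: factor, canonical form, list of terms -/
structure GR where
  k : ℤ
  ct : CT
  L : List Term

noncomputable def grZ (Q : CP) (G : List GR) : Z :=
  List.rec Z.nil (fun g _ ih => Z.add (Z.smul g.k (canZ Q g.ct)) ih) G

/-- the group is represented by its canonical form, with the factor `C` -/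
def GRok (Q : CP) (v : ℕ) (C : ℤ) (ϖ : ℚ) (g : GR) : Prop :=
  ∀ X : LS ℝ (v + 2), SymLS X → ∑ i, X.l i ^ 2 = 1 → ∀ ξ : Fin (v + 2) → ℝ,
    RZ Q.P (xt X) (zx X ξ) (Z.smul g.k (canZ Q g.ct))
      ((C : ℝ) * (g.L.map fun g => g.ldiv ϖ X).sum)

theorem GRok_of {Q : CP} {v : ℕ} (hv : Q.v = v) (hD : Q.D % 2 = 0) (hE : Q.E % 2 = 1)
    (hBlt : ∀ i ∈ Q.Bg, i < nzv v) {C C' vd k : ℤ} (hC : C = k * C') {ϖ : ℚ} {L : List TD}
    (hL : ∀ t ∈ L, TDok C' vd ϖ t) {t : CT} (ht : canOK Q t (flat (termsZ Q.P v vd L) EL.nil) = true) :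
    GRok Q v C ϖ ⟨k, t, L.map (·.g)⟩ := by
  intro X hX hN ξ
  have h1 := rz_termsZ (P := Q.P) (sz_zx hX ξ) hL
  have h2 := rz_can hX hN hv hD hE hBlt h1 ht
  refine (RZ.smul k h2).congr ?_
  rw [hC]
  push_cast
  ring

theorem rz_grZ {Q : CP} {v : ℕ} {C : ℤ} {ϖ : ℚ} {G : List GR} (hG : ∀ g ∈ G, GRok Q v C ϖ g)
    {X : LS ℝ (v + 2)} (hX : SymLS X) (hN : ∑ i, X.l i ^ 2 = 1) (ξ : Fin (v + 2) → ℝ) :
    RZ Q.P (xt X) (zx X ξ) (grZ Q G)
      ((C : ℝ) * ((G.flatMap (·.L)).map fun g => g.ldiv ϖ X).sum) := by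
  induction G with
  | nil => exact RZ.nil.congr (by simp)
  | cons g G ih =>
    refine (RZ.add (hG g (List.mem_cons_self ..) X hX hN ξ)
      (ih fun g' h => hG g' (List.mem_cons_of_mem _ h))).congr ?_
    rw [List.flatMap_cons, List.map_append, List.sum_append]
    ring

/-- the whole -/
noncomputable def allZ (Q : CP) (v : ℕ) (δ τ : ℤ) (G : List GR) (kx : ℤ) (cx : CT)
    (Ks : List BK) : Z :=
  Z.add (Z.add (grZ Q G) (Z.smul kx (canZ Q cx))) (Z.add (Z.smul δ (xi2 v))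
    (Z.add (slackZ v τ Q.Bg) (blocksZ v Q.D Q.E Ks)))

/-- MAIN: the interior inequality with a general weight, from groups -/
theorem interiorG (R : CP) {v : ℕ} {c : ℕ} (hv : R.v = v) (hw : 2 ≤ R.P.w)
    (hc : c ≤ 2 ^ (R.P.w - 2)) (hD : R.D % 2 = 0) (hE : R.E % 2 = 1) (hDs : R.D < R.P.sl)
    (hEs : R.E < R.P.sl) (hBlt : ∀ i ∈ R.Bg, i < nzv v) {C Cx q e1 e2 τ δ kx : ℤ} (hC : 0 < C)
    (hq : q ≠ 0) {ϖ t : ℚ} {G : List GR} (hG : ∀ g ∈ G, GRok R v C ϖ g) {LF : List FD}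
    (hCx : C = kx * Cx) (hLF : ∀ f ∈ LF, (f.c : ℚ) * q = Cx * f.f.coef) (h1 : (e1 : ℚ) = q * ϖ)
    (h2 : (e2 : ℚ) = -(q * ((((v + 2 : ℕ) : ℚ) - 1) ^ 2 / 4 + t)))
    {cx : CT} (hcx : canOK R cx (flat (xiZ R.P v q e1 e2 LF) EL.nil) = true)
    {Ks : List BK} (hK : ∀ K ∈ Ks, BKok v (v + 3) R.Bg K)
    (hOK : ∀ X : LS ℝ (v + 2), SymLS X → ∑ i, X.l i ^ 2 = 1 →
      ∀ K ∈ Ks, BlockOK R.P R.D R.E K X)
    (T : KT) (hT : treeOK ⟨R.P, R.v, R.D, R.E, c, R.Bg⟩ T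
      (flat (allZ R v (-δ) (-τ) G kx cx Ks) EL.nil) = true)
    (hτ : ((nleaf T * (2 * (R.P.sl ^ v * c)) : ℕ) : ℤ) ≤ τ) :
    ∀ X : LS ℝ (v + 2), X.good → ∀ ξ : Fin (v + 2) → ℝ,
      ((δ : ℝ) / C) * ∑ k, ξ k ^ 2 ≤
        certXi ϖ t (LF.map (·.f)) (G.flatMap (·.L)) X ξ := by
  intro X hg ξ
  have hX : SymLS X := ⟨hg.l_tr, hg.T12, hg.T23, hg.T_tr⟩
  have hN := hg.l_sq
  have hZ := sz_zx hX ξ
  have hnz : v + 3 ≤ nzv v := by
    unfold nzv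
    omega
  obtain ⟨s, hs, r1⟩ := rz_blocksZ (P := R.P) (D := R.D) (E := R.E) hZ hg.pu hnz hBlt hK
    (hOK X hX hN)
  have rx := rz_can hX hN hv hD hE hBlt (rz_xiZ (P := R.P) hX ξ hq hLF h1 h2) hcx
  have r2 := RZ.add (RZ.add (rz_grZ hG hX hN ξ) (RZ.smul kx rx))
    (RZ.add (RZ.smul (-δ) (rz_xi2 ξ)) (RZ.add (rz_slackZ (τ := -τ) hBlt) r1))
  have r3 := rl_flat r2 (L := EL.nil) (t := 0) rfl
  have hsmall : ∀ i : Fin (nzv v), (i : ℕ) < v + 3 → |zx X ξ i| ≤ 1 := by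
    intro i hi
    rw [zx_lt X ξ i (by omega)]
    unfold zt
    by_cases h : (i : ℕ) < v + 2
    · rw [dif_pos h]
      have h3 : X.p ⟨i, h⟩ ^ 2 ≤ 1 := by
        have h4 : X.p ⟨i, h⟩ ^ 2 ≤ ∑ i, X.p i ^ 2 :=
          Finset.single_le_sum (f := fun i => X.p i ^ 2) (fun _ _ => sq_nonneg _)
            (Finset.mem_univ _)
        nlinarith [hg.pu, sq_nonneg X.u]
      exact (sq_le_one_iff_abs_le_one _).1 h3
    · rw [dif_neg h, if_pos (by omega)]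
      have h3 : X.u ^ 2 ≤ 1 := by
        have h4 : 0 ≤ ∑ i, X.p i ^ 2 := Finset.sum_nonneg fun _ _ => sq_nonneg _
        nlinarith [hg.pu]
      exact (sq_le_one_iff_abs_le_one _).1 h3
  have r4 := tree_bound hX hN ⟨R.P, R.v, R.D, R.E, c, R.Bg⟩ hv hw hc hD hE hDs hEs
    (Sb_nonneg (zx X ξ) R.Bg) hsmall hBlt (fun i hi => Sb_le hi) T _ _ hT r3
  have hτ' : (nleaf T : ℝ) * ((2 * (R.P.sl ^ v * c) : ℕ) : ℝ) ≤ τ := by
    have := (Int.cast_le (R := ℝ)).2 hτ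
    push_cast at this ⊢
    exact this
  have hS := Sb_nonneg (zx X ξ) R.Bg
  have r5 : (nleaf T : ℝ) * (((2 * (R.P.sl ^ v * c) : ℕ) : ℝ) * (1 + Sb (zx X ξ) R.Bg)) ≤
      τ * (1 + Sb (zx X ξ) R.Bg) := by
    rw [← mul_assoc]
    exact mul_le_mul_of_nonneg_right hτ' (by linarith)
  have r6 := (abs_le.1 (r4.trans r5)).1
  have hC' : (0 : ℝ) < C := by exact_mod_cast hC
  have hCx' : (C : ℝ) = kx * Cx := by exact_mod_cast hCx
  rw [certXi_eq, div_mul_eq_mul_div, div_le_iff₀ hC']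
  have e : (kx : ℝ) * (Cx * xiPart ϖ t (LF.map (·.f)) X ξ) =
      C * xiPart ϖ t (LF.map (·.f)) X ξ := by rw [hCx']; ring
  push_cast at r6
  rw [e] at r6
  linarith

end OPC.Psx
end

section

/-! # Certificate data for `n = 6`: constants -/

namespace OPC.Psx.N6

open OPC.Psd

def P5 : Par := ⟨116, 5⟩
def esA : List (List ℕ) := [[0, 0, 2, 0], [0, 1, 1, 0], [1, 0, 1, 0], [0, 0, 1, 1], [0, 2, 0, 0], [1, 1, 0, 0], [0, 1, 0, 1], [2, 0, 0, 0], [1, 0, 0, 1], [0, 0, 0, 2]]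
def esB : List (List ℕ) := [[0, 0, 1, 0], [0, 1, 0, 0], [1, 0, 0, 0], [0, 0, 0, 1]]
def tabA : List ℕ := [5800, 3480, 3016, 2900, 1160, 696, 580, 232, 116, 0]
def tabB : List ℕ := [2900, 580, 116, 0]
def tabD : List ℕ := [11600, 11600, 9280, 8816, 8700, 6960, 6496, 6380, 6032, 5916, 5800, 4640, 4176, 4060, 3712, 3596, 3480, 3248, 3132, 3016, 2900, 2320, 1856, 1740, 1392, 1276, 1160, 928, 812, 696, 580, 464, 348, 232, 116, 0]
def tabE : List ℕ := [8700, 8700, 6380, 5916, 5800, 4060, 3596, 3480, 3132, 3016, 2900, 1740, 1276, 1160, 812, 696, 580, 348, 232, 116, 0]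
def bigs : List ℕ := [6, 8, 9, 10, 11, 13, 14, 15, 16, 19, 20, 21, 25, 26, 31, 39, 40, 41, 44, 45, 46, 50, 51, 56, 70, 71, 75, 76, 81, 101, 106, 7, 38, 69, 100, 131]
def Q6 : CP := ⟨P5, 3, 4, 3, 32, tabD, tabE, 4398046511104, bigs⟩

theorem esA_ok : ∀ e ∈ esA, e.length ≤ 3 + 1 ∧ e.sum = 1 + 1 := by decide
theorem esB_ok : ∀ e ∈ esB, e.length ≤ 3 + 1 ∧ e.sum = 1 := by decide
theorem tabA_ok : esA.map (shf P5 3 0) = tabA := by decide
theorem tabB_ok : esB.map (shf P5 3 0) = tabB := by decide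
theorem bigs_lt : ∀ i ∈ bigs, i < nzv 3 := by decide

end OPC.Psx.N6
end
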