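import Pool.Agent.Lib.MP_9059b8_an.Spt
import Pool.Agent.Lib.MP_9059b8_an.N6D00

/-!
# Certificate check for `n = 6`: block 0, in rectangles of cells
-/

namespace OPC.Psx.N6

open OPC.Psd

theorem ok0_0_0 : diaF (celF P5 3 bd0 bk0) 0 7 = true := by decide +kernel

theorem ok0_1_0 : blkF (celF P5 3 bd0 bk0) 7 7 0 7 = true := by decide +kernel

theorem ok0_1_1 : diaF (celF P5 3 bd0 bk0) 7 7 = true := by decide +kernel

theorem ok0_2_0 : blkF (celF P5 3 bd0 bk0) 14 7 0 7 = true := by decide +kernel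

theorem ok0_2_1 : blkF (celF P5 3 bd0 bk0) 14 7 7 7 = true := by decide +kernel

theorem ok0_2_2 : diaF (celF P5 3 bd0 bk0) 14 7 = true := by decide +kernel

theorem ok0_3_0 : blkF (celF P5 3 bd0 bk0) 21 6 0 7 = true := by decide +kernel

theorem ok0_3_1 : blkF (celF P5 3 bd0 bk0) 21 6 7 7 = true := by decide +kernel

theorem ok0_3_2 : blkF (celF P5 3 bd0 bk0) 21 6 14 7 = true := by decide +kernel

theorem ok0_3_3 : diaF (celF P5 3 bd0 bk0) 21 6 = true := by decide +kernel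

theorem ok0_4_0 : blkF (celF P5 3 bd0 bk0) 27 6 0 7 = true := by decide +kernel

theorem ok0_4_1 : blkF (celF P5 3 bd0 bk0) 27 6 7 7 = true := by decide +kernel

theorem ok0_4_2 : blkF (celF P5 3 bd0 bk0) 27 6 14 7 = true := by decide +kernel

theorem ok0_4_3 : blkF (celF P5 3 bd0 bk0) 27 6 21 6 = true := by decide +kernel

theorem ok0_4_4 : diaF (celF P5 3 bd0 bk0) 27 6 = true := by decide +kernel

theorem ok0 : ∀ i < 33, rowF P5 3 bd0 bk0 i = true := by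
  intro i hi
  refine rowF_of_cel fun j hj => ?_
  rcases (by omega : (0 ≤ i ∧ i < 7) ∨ (7 ≤ i ∧ i < 14) ∨ (14 ≤ i ∧ i < 21) ∨ (21 ≤ i ∧ i < 27) ∨ (27 ≤ i ∧ i < 33)) with h | h | h | h | h
  · exact diaF_spec ok0_0_0 i j (by omega)
  · rcases (by omega : (0 ≤ j ∧ j < 7) ∨ (7 ≤ j ∧ j < 14)) with h' | h'
    · exact blkF_spec ok0_1_0 i j (by omega)
    · exact diaF_spec ok0_1_1 i j (by omega)
  · rcases (by omega : (0 ≤ j ∧ j < 7) ∨ (7 ≤ j ∧ j < 14) ∨ (14 ≤ j ∧ j < 21)) with h' | h' | h'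
    · exact blkF_spec ok0_2_0 i j (by omega)
    · exact blkF_spec ok0_2_1 i j (by omega)
    · exact diaF_spec ok0_2_2 i j (by omega)
  · rcases (by omega : (0 ≤ j ∧ j < 7) ∨ (7 ≤ j ∧ j < 14) ∨ (14 ≤ j ∧ j < 21) ∨ (21 ≤ j ∧ j < 27)) with h' | h' | h' | h'
    · exact blkF_spec ok0_3_0 i j (by omega)
    · exact blkF_spec ok0_3_1 i j (by omega)
    · exact blkF_spec ok0_3_2 i j (by omega)
    · exact diaF_spec ok0_3_3 i j (by omega)
  · rcases (by omega : (0 ≤ j ∧ j < 7) ∨ (7 ≤ j ∧ j < 14) ∨ (14 ≤ j ∧ j < 21) ∨ (21 ≤ j ∧ j < 27) ∨ (27 ≤ j ∧ j < 33)) with h' | h' | h' | h' | h'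
    · exact blkF_spec ok0_4_0 i j (by omega)
    · exact blkF_spec ok0_4_1 i j (by omega)
    · exact blkF_spec ok0_4_2 i j (by omega)
    · exact blkF_spec ok0_4_3 i j (by omega)
    · exact diaF_spec ok0_4_4 i j (by omega)

end OPC.Psx.N6
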