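import Mathlib
import Pool.Agent.Lib.MP_9059b8_an.Defs2

section

/-!
# Packed polynomials I: lists of monomials

Polynomials in `g` (index `0`) and `v + 1` homogeneous variables (indices `1 .. v+1`) as lists of
monomials; the packed value is the Kronecker substitution (the last variable is set to `1`).
-/

namespace OPC.Psd

abbrev Mon (v : ℕ) := Fin (v + 2) → ℕ
abbrev Pol (v : ℕ) := List (ℤ × Mon v)

variable {v : ℕ}

/-- value of a monomial -/
noncomputable def mv (x : Fin (v + 2) → ℝ) (e : Mon v) : ℝ := ∏ i, x i ^ e i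

/-- value of a polynomial -/
noncomputable def ev (x : Fin (v + 2) → ℝ) (P : Pol v) : ℝ :=
  (P.map fun t => (t.1 : ℝ) * mv x t.2).sum

/-- slot of a monomial -/
def kap (sg sl : ℕ) (e : Mon v) : ℕ :=
  e 0 + sg * ∑ i : Fin v, e i.succ.castSucc * sl ^ (i : ℕ)

/-- degree in the homogeneous variables -/
def dl (e : Mon v) : ℕ := ∑ i : Fin (v + 1), e i.succ

/-- packed value -/
def pk (w sg sl : ℕ) (P : Pol v) : ℤ := (P.map fun t => t.1 * 2 ^ (w * kap sg sl t.2)).sum

/-- sum of the absolute values of the coefficients -/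
def l1 (P : Pol v) : ℕ := (P.map fun t => t.1.natAbs).sum

def mul (P Q : Pol v) : Pol v := P.flatMap fun t => Q.map fun s => (t.1 * s.1, t.2 + s.2)

theorem mv_add (x : Fin (v + 2) → ℝ) (e f : Mon v) : mv x (e + f) = mv x e * mv x f := by
  unfold mv
  rw [← Finset.prod_mul_distrib]
  refine Finset.prod_congr rfl fun i _ => ?_
  rw [Pi.add_apply, pow_add]

theorem kap_add (sg sl : ℕ) (e f : Mon v) : kap sg sl (e + f) = kap sg sl e + kap sg sl f := by
  unfold kap
  simp only [Pi.add_apply, add_mul, Finset.sum_add_distrib, mul_add]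
  ring

theorem dl_add (e f : Mon v) : dl (e + f) = dl e + dl f := by
  unfold dl
  simp only [Pi.add_apply, Finset.sum_add_distrib]

@[simp] theorem ev_nil (x : Fin (v + 2) → ℝ) : ev x [] = 0 := rfl

@[simp] theorem ev_cons (x : Fin (v + 2) → ℝ) (t : ℤ × Mon v) (P : Pol v) :
    ev x (t :: P) = (t.1 : ℝ) * mv x t.2 + ev x P := rfl

theorem ev_append (x : Fin (v + 2) → ℝ) (P Q : Pol v) : ev x (P ++ Q) = ev x P + ev x Q := by
  unfold ev
  simp

@[simp] theorem pk_nil (w sg sl : ℕ) : pk w sg sl ([] : Pol v) = 0 := rfl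

@[simp] theorem pk_cons (w sg sl : ℕ) (t : ℤ × Mon v) (P : Pol v) :
    pk w sg sl (t :: P) = t.1 * 2 ^ (w * kap sg sl t.2) + pk w sg sl P := rfl

theorem pk_append (w sg sl : ℕ) (P Q : Pol v) :
    pk w sg sl (P ++ Q) = pk w sg sl P + pk w sg sl Q := by
  unfold pk
  simp

@[simp] theorem l1_nil : l1 ([] : Pol v) = 0 := rfl

@[simp] theorem l1_cons (t : ℤ × Mon v) (P : Pol v) : l1 (t :: P) = t.1.natAbs + l1 P := rfl

theorem l1_append (P Q : Pol v) : l1 (P ++ Q) = l1 P + l1 Q := by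
  unfold l1
  simp

theorem ev_smul (x : Fin (v + 2) → ℝ) (t : ℤ × Mon v) (Q : Pol v) :
    ev x (Q.map fun s => (t.1 * s.1, t.2 + s.2)) = (t.1 : ℝ) * mv x t.2 * ev x Q := by
  induction Q with
  | nil => simp
  | cons s Q ih =>
    rw [List.map_cons, ev_cons, ih, ev_cons, mv_add]
    push_cast
    ring

theorem pk_smul (w sg sl : ℕ) (t : ℤ × Mon v) (Q : Pol v) :
    pk w sg sl (Q.map fun s => (t.1 * s.1, t.2 + s.2)) =
      t.1 * 2 ^ (w * kap sg sl t.2) * pk w sg sl Q := by
  induction Q with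
  | nil => simp
  | cons s Q ih =>
    rw [List.map_cons, pk_cons, ih, pk_cons, kap_add, mul_add, pow_add]
    ring

theorem l1_smul (t : ℤ × Mon v) (Q : Pol v) :
    l1 (Q.map fun s => (t.1 * s.1, t.2 + s.2)) = t.1.natAbs * l1 Q := by
  induction Q with
  | nil => simp
  | cons s Q ih =>
    rw [List.map_cons, l1_cons, ih, l1_cons, Int.natAbs_mul]
    ring

theorem mul_cons (t : ℤ × Mon v) (P Q : Pol v) :
    mul (t :: P) Q = (Q.map fun s => (t.1 * s.1, t.2 + s.2)) ++ mul P Q := rfl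

theorem ev_mul (x : Fin (v + 2) → ℝ) (P Q : Pol v) : ev x (mul P Q) = ev x P * ev x Q := by
  induction P with
  | nil => simp [mul]
  | cons t P ih => rw [mul_cons, ev_append, ev_smul, ih, ev_cons]; ring

theorem pk_mul (w sg sl : ℕ) (P Q : Pol v) :
    pk w sg sl (mul P Q) = pk w sg sl P * pk w sg sl Q := by
  induction P with
  | nil => simp [mul]
  | cons t P ih => rw [mul_cons, pk_append, pk_smul, ih, pk_cons]; ring

theorem l1_mul (P Q : Pol v) : l1 (mul P Q) = l1 P * l1 Q := by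
  induction P with
  | nil => simp [mul]
  | cons t P ih => rw [mul_cons, l1_append, l1_smul, ih, l1_cons]; ring

theorem mem_mul {P Q : Pol v} {r : ℤ × Mon v} (h : r ∈ mul P Q) :
    ∃ t ∈ P, ∃ s ∈ Q, r = (t.1 * s.1, t.2 + s.2) := by
  unfold mul at h
  rw [List.mem_flatMap] at h
  obtain ⟨t, ht, h⟩ := h
  rw [List.mem_map] at h
  obtain ⟨s, hs, rfl⟩ := h
  exact ⟨t, ht, s, hs, rfl⟩

/-! ### Injectivity of the slots -/

theorem digits_inj (b : ℕ) : ∀ (n : ℕ) (e f : Fin n → ℕ), (∀ i, e i < b) → (∀ i, f i < b) →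
    ∑ i : Fin n, e i * b ^ (i : ℕ) = ∑ i : Fin n, f i * b ^ (i : ℕ) → e = f := by
  intro n
  induction n with
  | zero => intro e f _ _ _; exact Subsingleton.elim _ _
  | succ n ih =>
    intro e f he hf h
    have key : ∀ e : Fin (n + 1) → ℕ, ∑ i : Fin (n + 1), e i * b ^ (i : ℕ) =
        e 0 + b * ∑ i : Fin n, e i.succ * b ^ (i : ℕ) := by
      intro e
      rw [Fin.sum_univ_succ, Finset.mul_sum]
      congr 1
      · simp
      · refine Finset.sum_congr rfl fun i _ => ?_
        rw [Fin.val_succ, pow_succ]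
        ring
    rw [key e, key f] at h
    have h0 : e 0 = f 0 := by
      have h1 := congrArg (· % b) h
      simp only [Nat.add_mul_mod_self_left] at h1
      rwa [Nat.mod_eq_of_lt (he 0), Nat.mod_eq_of_lt (hf 0)] at h1
    have hb : 0 < b := lt_of_le_of_lt (Nat.zero_le _) (he 0)
    have h1 : ∑ i : Fin n, e i.succ * b ^ (i : ℕ) = ∑ i : Fin n, f i.succ * b ^ (i : ℕ) := by
      rw [h0] at h
      exact Nat.eq_of_mul_eq_mul_left hb (Nat.add_left_cancel h)
    have h2 := ih (fun i => e i.succ) (fun i => f i.succ) (fun i => he _) (fun i => hf _) h1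
    funext i
    refine Fin.cases h0 (fun j => ?_) i
    exact congrFun h2 j

theorem kap_inj {sg sl d : ℕ} {e f : Mon v} (he : dl e = d) (hf : dl f = d) (hd : d < sl)
    (he0 : e 0 < sg) (hf0 : f 0 < sg) (h : kap sg sl e = kap sg sl f) : e = f := by
  have hsg : 0 < sg := lt_of_le_of_lt (Nat.zero_le _) he0
  unfold kap at h
  have h0 : e 0 = f 0 := by
    have h1 := congrArg (· % sg) h
    simp only [Nat.add_mul_mod_self_left] at h1
    rwa [Nat.mod_eq_of_lt he0, Nat.mod_eq_of_lt hf0] at h1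
  have h1 : ∑ i : Fin v, e i.succ.castSucc * sl ^ (i : ℕ) =
      ∑ i : Fin v, f i.succ.castSucc * sl ^ (i : ℕ) := by
    rw [h0] at h
    exact Nat.eq_of_mul_eq_mul_left hsg (Nat.add_left_cancel h)
  have hle : ∀ (e : Mon v), dl e = d → ∀ i : Fin (v + 1), e i.succ ≤ d := by
    intro e he i
    rw [← he]
    exact Finset.single_le_sum (f := fun i : Fin (v + 1) => e i.succ) (fun _ _ => Nat.zero_le _)
      (Finset.mem_univ i)
  have h2 := digits_inj sl v (fun i => e i.succ.castSucc) (fun i => f i.succ.castSucc)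
    (fun i => lt_of_le_of_lt (hle e he i.castSucc) hd)
    (fun i => lt_of_le_of_lt (hle f hf i.castSucc) hd) h1
  have h3 : e (Fin.last v).succ = f (Fin.last v).succ := by
    have e1 : dl e = ∑ i : Fin v, e i.succ.castSucc + e (Fin.last v).succ := by
      unfold dl
      rw [Fin.sum_univ_castSucc]
      rfl
    have e2 : dl f = ∑ i : Fin v, f i.succ.castSucc + f (Fin.last v).succ := by
      unfold dl
      rw [Fin.sum_univ_castSucc]
      rfl
    have e3 : ∑ i : Fin v, e i.succ.castSucc = ∑ i : Fin v, f i.succ.castSucc :=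
      Finset.sum_congr rfl fun i _ => congrFun h2 i
    omega
  funext i
  refine Fin.cases h0 (fun j => ?_) i
  refine Fin.lastCases h3 (fun k => ?_) j
  exact congrFun h2 k

theorem kap_lt {sg sl d : ℕ} {e : Mon v} (he : dl e = d) (hd : d < sl) (he0 : e 0 < sg) :
    kap sg sl e < sg * sl ^ v := by
  have hle : ∀ i : Fin (v + 1), e i.succ < sl := by
    intro i
    refine lt_of_le_of_lt ?_ hd
    rw [← he]
    exact Finset.single_le_sum (f := fun i : Fin (v + 1) => e i.succ) (fun _ _ => Nat.zero_le _)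
      (Finset.mem_univ i)
  have key : ∀ (n : ℕ) (f : Fin n → ℕ), (∀ i, f i < sl) →
      ∑ i : Fin n, f i * sl ^ (i : ℕ) < sl ^ n := by
    intro n
    induction n with
    | zero => intro f _; simp
    | succ n ih =>
      intro f hf
      rw [Fin.sum_univ_castSucc]
      have h1 := ih (fun i => f i.castSucc) (fun i => hf _)
      have h2 : f (Fin.last n) + 1 ≤ sl := hf _
      have h3 : (f (Fin.last n) + 1) * sl ^ n ≤ sl * sl ^ n := Nat.mul_le_mul_right _ h2
      simp only [Fin.val_castSucc, Fin.val_last]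
      rw [pow_succ]
      calc _ < sl ^ n + f (Fin.last n) * sl ^ n := Nat.add_lt_add_right h1 _
        _ = (f (Fin.last n) + 1) * sl ^ n := by ring
        _ ≤ sl * sl ^ n := h3
        _ = sl ^ n * sl := by ring
  have h1 := key v (fun i => e i.succ.castSucc) (fun i => hle i.castSucc)
  unfold kap
  have h2 : (∑ i : Fin v, e i.succ.castSucc * sl ^ (i : ℕ)) + 1 ≤ sl ^ v := h1
  calc e 0 + sg * ∑ i : Fin v, e i.succ.castSucc * sl ^ (i : ℕ)
      < sg + sg * ∑ i : Fin v, e i.succ.castSucc * sl ^ (i : ℕ) := Nat.add_lt_add_right he0 _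
    _ = sg * ((∑ i : Fin v, e i.succ.castSucc * sl ^ (i : ℕ)) + 1) := by ring
    _ ≤ sg * sl ^ v := Nat.mul_le_mul_left _ h2

end OPC.Psd
end

section

section

/-!
# Packed polynomials II: small digits bound the value
-/

namespace OPC.Psd

variable {v : ℕ}

theorem digits_zero {w : ℕ} (hw : 0 < w) : ∀ (K : ℕ) (a : ℕ → ℤ), (∀ k < K, |a k| < 2 ^ w) →
    ∑ k ∈ Finset.range K, a k * 2 ^ (w * k) = 0 → ∀ k < K, a k = 0 := by
  intro K
  induction K with
  | zero => intro a _ _ k hk; omega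
  | succ K ih =>
    intro a ha h
    have e : ∑ k ∈ Finset.range (K + 1), a k * 2 ^ (w * k) =
        a 0 + 2 ^ w * ∑ k ∈ Finset.range K, a (k + 1) * 2 ^ (w * k) := by
      rw [Finset.sum_range_succ', Finset.mul_sum, add_comm]
      congr 1
      · simp
      · refine Finset.sum_congr rfl fun k _ => ?_
        rw [mul_add, mul_one, pow_add]
        ring
    rw [e] at h
    have hpos : (0 : ℤ) < 2 ^ w := by positivity
    have h0 : a 0 = 0 := by
      have hd : (2 : ℤ) ^ w ∣ a 0 := ⟨-∑ k ∈ Finset.range K, a (k + 1) * 2 ^ (w * k), by linarith⟩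
      exact Int.eq_zero_of_abs_lt_dvd hd (ha 0 (Nat.succ_pos K))
    have h1 : ∑ k ∈ Finset.range K, a (k + 1) * 2 ^ (w * k) = 0 := by
      rw [h0, zero_add] at h
      exact (mul_eq_zero.1 h).resolve_left hpos.ne'
    have h2 := ih (fun k => a (k + 1)) (fun k hk => ha (k + 1) (by omega)) h1
    intro k hk
    rcases Nat.eq_zero_or_pos k with rfl | hk0
    · exact h0
    · obtain ⟨j, rfl⟩ : ∃ j, k = j + 1 := ⟨k - 1, by omega⟩
      exact h2 j (by omega)

/-- all the `K` digits of `N` (base `W`) are `< c` -/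
def small (W c : ℕ) (K : ℕ) : ℕ → Bool :=
  Nat.rec (fun N => Nat.beq N 0)
    (fun _ ih N => Bool.and (Nat.ble (Nat.succ (Nat.mod N W)) c) (ih (Nat.div N W))) K

theorem small_spec (W c : ℕ) : ∀ (K N : ℕ), small W c K N = true →
    ∃ d : ℕ → ℕ, (∀ k, d k < c ∨ K ≤ k) ∧ N = ∑ k ∈ Finset.range K, d k * W ^ k := by
  intro K
  induction K with
  | zero =>
    intro N h
    have h' : Nat.beq N 0 = true := h
    refine ⟨fun _ => 0, fun k => Or.inr (Nat.zero_le _), ?_⟩
    simpa using Nat.eq_of_beq_eq_true h'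
  | succ K ih =>
    intro N h
    have h' : (Bool.and (Nat.ble (Nat.succ (N % W)) c) (small W c K (N / W))) = true := h
    rw [Bool.and_eq_true_iff] at h'
    obtain ⟨d, hd, hN⟩ := ih (N / W) h'.2
    refine ⟨fun k => if k = 0 then N % W else d (k - 1), fun k => ?_, ?_⟩
    · by_cases hk : k = 0
      · left
        simp only [hk, if_true]
        exact Nat.le_of_ble_eq_true h'.1
      · simp only [hk, if_false]
        rcases hd (k - 1) with h | h
        · exact Or.inl h
        · right; omega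
    · rw [Finset.sum_range_succ']
      simp only [Nat.add_eq_zero_iff, one_ne_zero, and_false, if_false, if_true, pow_zero, mul_one,
        Nat.add_sub_cancel]
      have e : ∑ k ∈ Finset.range K, d k * W ^ (k + 1) = W * (N / W) := by
        conv_rhs => rw [hN]
        rw [Finset.mul_sum]
        refine Finset.sum_congr rfl fun k _ => ?_
        rw [pow_succ]
        ring
      rw [e]
      exact (Nat.div_add_mod N W).symm

/-- `1 + W + … + W^(K-1)` -/
def ones (W K : ℕ) : ℕ := Nat.div (Nat.sub (Nat.pow W K) 1) (Nat.sub W 1)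

theorem ones_eq {W : ℕ} (hW : 2 ≤ W) (K : ℕ) : ones W K = ∑ k ∈ Finset.range K, W ^ k :=
  (Nat.geomSum_eq hW K).symm

/-- all digits of the integer `a` are in `[-c, c)` -/
def smallZ (W c K : ℕ) (a : ℤ) : Bool :=
  match a + ((Nat.mul c (ones W K) : ℕ) : ℤ) with
  | Int.ofNat N => small W (Nat.mul 2 c) K N
  | Int.negSucc _ => false

theorem smallZ_spec {w : ℕ} (hw : 2 ≤ w) {c K : ℕ} {a : ℤ} (h : smallZ (2 ^ w) c K a = true)
    (hc : c ≤ 2 ^ (w - 2)) (f : ℕ → ℤ) (hf : ∀ k < K, |f k| < 2 ^ (w - 1))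
    (ha : a = ∑ k ∈ Finset.range K, f k * 2 ^ (w * k)) : ∀ k < K, |f k| ≤ c := by
  have hW : 2 ≤ 2 ^ w := by
    calc 2 = 2 ^ 1 := rfl
      _ ≤ 2 ^ w := Nat.pow_le_pow_right (by norm_num) (by omega)
  unfold smallZ at h
  split at h
  · rename_i N hN
    obtain ⟨d, hd, hNd⟩ := small_spec _ _ K N h
    have e1 : ((Nat.mul c (ones (2 ^ w) K) : ℕ) : ℤ) =
        ∑ k ∈ Finset.range K, (c : ℤ) * 2 ^ (w * k) := by
      rw [show Nat.mul c (ones (2 ^ w) K) = c * ones (2 ^ w) K from rfl, ones_eq hW K]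
      push_cast
      rw [Finset.mul_sum]
      refine Finset.sum_congr rfl fun k _ => ?_
      rw [pow_mul]
    have e2 : (Int.ofNat N) = ∑ k ∈ Finset.range K, (d k : ℤ) * 2 ^ (w * k) := by
      rw [hNd, Int.ofNat_eq_natCast]
      push_cast
      refine Finset.sum_congr rfl fun k _ => ?_
      rw [pow_mul]
    rw [e1, e2, ha, ← Finset.sum_add_distrib] at hN
    have e3 : ∑ k ∈ Finset.range K, (f k + c - d k) * 2 ^ (w * k) = 0 := by
      have : ∀ k ∈ Finset.range K, (f k + c - d k) * 2 ^ (w * k) =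
          (f k * 2 ^ (w * k) + c * 2 ^ (w * k)) - (d k : ℤ) * 2 ^ (w * k) := fun k _ => by ring
      rw [Finset.sum_congr rfl this, Finset.sum_sub_distrib, hN, sub_self]
    have hb1 : ((2 : ℤ) ^ w) = 2 * 2 ^ (w - 1) := by
      rw [← pow_succ']
      congr 1
      omega
    have hb2 : ((2 : ℤ) ^ (w - 1)) = 2 * 2 ^ (w - 2) := by
      rw [← pow_succ']
      congr 1
      omega
    have hc' : (c : ℤ) ≤ 2 ^ (w - 2) := by exact_mod_cast hc
    have e4 := digits_zero (w := w) (by omega) K (fun k => f k + c - d k) (by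
      intro k hk
      have h1 := abs_lt.1 (hf k hk)
      have h2 : (d k : ℤ) < 2 * c := by
        rcases hd k with h | h
        · exact_mod_cast h
        · omega
      have h3 : (0 : ℤ) ≤ d k := Int.natCast_nonneg _
      have h4 : (0 : ℤ) ≤ c := Int.natCast_nonneg _
      rw [abs_lt]
      constructor <;> linarith) e3
    intro k hk
    have h5 := e4 k hk
    have h2 : (d k : ℤ) < 2 * c := by
      rcases hd k with h | h
      · exact_mod_cast h
      · omega
    have h3 : (0 : ℤ) ≤ d k := Int.natCast_nonneg _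
    rw [abs_le]
    constructor <;> linarith
  · exact absurd h (by simp)

/-- coefficient sum of the monomials in slot `k` -/
def cf (sg sl : ℕ) (P : Pol v) (k : ℕ) : ℤ :=
  (P.map fun t => if kap sg sl t.2 = k then t.1 else 0).sum

theorem cf_abs_le (sg sl : ℕ) (P : Pol v) (k : ℕ) : |cf sg sl P k| ≤ l1 P := by
  induction P with
  | nil => simp [cf]
  | cons t P ih =>
    have e : cf sg sl (t :: P) k = (if kap sg sl t.2 = k then t.1 else 0) + cf sg sl P k := rfl
    rw [e, l1_cons]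
    push_cast
    refine (abs_add_le _ _).trans (add_le_add ?_ ih)
    split_ifs
    · exact le_of_eq rfl
    · simp

theorem sum_cf {R : Type*} [CommRing R] (sg sl K : ℕ) (μ : ℕ → R) (P : Pol v)
    (hP : ∀ t ∈ P, kap sg sl t.2 < K) :
    ∑ k ∈ Finset.range K, (cf sg sl P k : R) * μ k =
      (P.map fun t => (t.1 : R) * μ (kap sg sl t.2)).sum := by
  induction P with
  | nil => simp [cf]
  | cons t P ih =>
    have e : ∀ k, cf sg sl (t :: P) k = (if kap sg sl t.2 = k then t.1 else 0) + cf sg sl P k :=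
      fun _ => rfl
    rw [List.map_cons, List.sum_cons, ← ih (fun s hs => hP s (List.mem_cons_of_mem _ hs))]
    have e' : ∀ k, ((cf sg sl (t :: P) k : ℤ) : R) * μ k =
        (if kap sg sl t.2 = k then (t.1 : R) else 0) * μ k + (cf sg sl P k : R) * μ k := by
      intro k
      rw [e k]
      push_cast
      ring
    rw [Finset.sum_congr rfl fun k _ => e' k, Finset.sum_add_distrib]
    congr 1
    rw [Finset.sum_eq_single (kap sg sl t.2)]
    · simp
    · intro k _ hk
      rw [if_neg (Ne.symm hk), zero_mul]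
    · intro h
      exact absurd (Finset.mem_range.2 (hP t (List.mem_cons_self ..))) h

theorem mv_abs_le {x : Fin (v + 2) → ℝ} (hx : ∀ i, |x i| ≤ 1) (e : Mon v) : |mv x e| ≤ 1 := by
  unfold mv
  rw [Finset.abs_prod]
  refine Finset.prod_le_one (fun i _ => abs_nonneg _) fun i _ => ?_
  rw [abs_pow]
  exact pow_le_one₀ (abs_nonneg _) (hx i)

/-- The main bound: homogeneous polynomial with small packed digits is small on the unit box. -/
theorem ev_bound {w sg sl d dg c : ℕ} (hw : 2 ≤ w) {x : Fin (v + 2) → ℝ} (hx : ∀ i, |x i| ≤ 1)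
    {P : Pol v} (hP : ∀ t ∈ P, dl t.2 = d ∧ t.2 0 ≤ dg) (hd : d < sl) (hg : dg < sg)
    (hn : l1 P < 2 ^ (w - 1)) (hc : c ≤ 2 ^ (w - 2))
    (h : smallZ (2 ^ w) c (sg * sl ^ v) (pk w sg sl P) = true) :
    |ev x P| ≤ (sg * sl ^ v : ℕ) * (c : ℝ) := by
  classical
  set K := sg * sl ^ v with hK
  have hk : ∀ t ∈ P, kap sg sl t.2 < K := fun t ht =>
    kap_lt (hP t ht).1 hd (lt_of_le_of_lt (hP t ht).2 hg)
  let μ : ℕ → ℝ := fun k => if hh : ∃ t ∈ P, kap sg sl t.2 = k then mv x (Classical.choose hh).2 else 0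
  have hμ : ∀ t ∈ P, μ (kap sg sl t.2) = mv x t.2 := by
    intro t ht
    have hh : ∃ s ∈ P, kap sg sl s.2 = kap sg sl t.2 := ⟨t, ht, rfl⟩
    have e1 : μ (kap sg sl t.2) = mv x (Classical.choose hh).2 := by
      simp only [μ]
      rw [dif_pos hh]
    obtain ⟨h1, h2⟩ := Classical.choose_spec hh
    rw [e1, kap_inj (hP _ h1).1 (hP t ht).1 hd (lt_of_le_of_lt (hP _ h1).2 hg)
      (lt_of_le_of_lt (hP t ht).2 hg) h2]
  have hμ1 : ∀ k, |μ k| ≤ 1 := by
    intro k
    simp only [μ]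
    split_ifs
    · exact mv_abs_le hx _
    · simp
  have e1 : ev x P = ∑ k ∈ Finset.range K, (cf sg sl P k : ℝ) * μ k := by
    rw [sum_cf sg sl K μ P hk]
    unfold ev
    congr 1
    refine List.map_congr_left fun t ht => ?_
    rw [hμ t ht]
  have e2 : pk w sg sl P = ∑ k ∈ Finset.range K, cf sg sl P k * 2 ^ (w * k) := by
    have := sum_cf (R := ℤ) sg sl K (fun k => 2 ^ (w * k)) P hk
    simp only [Int.cast_id] at this
    rw [this]
    rfl
  have e3 := smallZ_spec hw h hc (cf sg sl P) (fun k _ => by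
    refine lt_of_le_of_lt (cf_abs_le sg sl P k) ?_
    exact_mod_cast hn) e2
  rw [e1]
  calc |∑ k ∈ Finset.range K, (cf sg sl P k : ℝ) * μ k|
      ≤ ∑ k ∈ Finset.range K, |(cf sg sl P k : ℝ) * μ k| := Finset.abs_sum_le_sum_abs _ _
    _ ≤ ∑ k ∈ Finset.range K, (c : ℝ) := by
        refine Finset.sum_le_sum fun k hk' => ?_
        rw [abs_mul]
        have h1 : |(cf sg sl P k : ℝ)| ≤ c := by
          have := e3 k (Finset.mem_range.1 hk')
          exact_mod_cast this
        calc |(cf sg sl P k : ℝ)| * |μ k| ≤ c * 1 :=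
              mul_le_mul h1 (hμ1 k) (abs_nonneg _) (Nat.cast_nonneg _)
          _ = c := mul_one _
    _ = (K : ℕ) * (c : ℝ) := by rw [Finset.sum_const, Finset.card_range, nsmul_eq_mul]

end OPC.Psd
end

section

/-!
# Packed polynomials III: trees of elements (key in the `ζ`-variables, packed coefficient)
-/

namespace OPC.Psd

variable {v : ℕ}

/-- A polynomial in `ζ` with packed homogeneous coefficients: `el key a d n` is the monomial with
key `key`, packed coefficient `a` (homogeneous of degree `d`, `ℓ¹`-norm at most `n`). -/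
inductive Z where
  | nil : Z
  | el (key : ℕ) (a : ℤ) (d n : ℕ) : Z
  | add (p q : Z) : Z

/-- key of an exponent vector -/
def kz {nz : ℕ} (e : Fin nz → ℕ) : ℕ := ∑ i : Fin nz, e i * (8 ^ (i : ℕ) + 8 ^ nz)

/-- value of a `ζ`-monomial -/
noncomputable def mz {nz : ℕ} (ζ : Fin nz → ℝ) (e : Fin nz → ℕ) : ℝ := ∏ i, ζ i ^ e i

theorem kz_add {nz : ℕ} (e f : Fin nz → ℕ) : kz (e + f) = kz e + kz f := by
  unfold kz
  simp only [Pi.add_apply, add_mul, Finset.sum_add_distrib]

theorem mz_add {nz : ℕ} (ζ : Fin nz → ℝ) (e f : Fin nz → ℕ) :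
    mz ζ (e + f) = mz ζ e * mz ζ f := by
  unfold mz
  rw [← Finset.prod_mul_distrib]
  refine Finset.prod_congr rfl fun i _ => ?_
  rw [Pi.add_apply, pow_add]

/-- parameters of the packing -/
structure Par where
  w : ℕ
  sl : ℕ

/-- packed coefficient relation: `A` is homogeneous of degree `d`, without `g` -/
def RC (P : Par) (x : Fin (v + 2) → ℝ) (a : ℤ) (d n : ℕ) (t : ℝ) : Prop :=
  ∃ A : Pol v, (∀ s ∈ A, dl s.2 = d ∧ s.2 0 = 0) ∧ pk P.w 1 P.sl A = a ∧ l1 A ≤ n ∧ t = ev x A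

theorem RC.mul {P : Par} {x : Fin (v + 2) → ℝ} {a b : ℤ} {d d' n n' : ℕ} {s t : ℝ}
    (h : RC P x a d n s) (h' : RC P x b d' n' t) : RC P x (a * b) (d + d') (n * n') (s * t) := by
  obtain ⟨A, h1, h2, h3, h4⟩ := h
  obtain ⟨B, g1, g2, g3, g4⟩ := h'
  refine ⟨Psd.mul A B, ?_, ?_, ?_, ?_⟩
  · intro r hr
    obtain ⟨p, hp, q, hq, rfl⟩ := mem_mul hr
    refine ⟨?_, ?_⟩
    · rw [dl_add, (h1 p hp).1, (g1 q hq).1]
    · show p.2 0 + q.2 0 = 0
      rw [(h1 p hp).2, (g1 q hq).2]
  · rw [pk_mul, h2, g2]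
  · rw [l1_mul]
    exact Nat.mul_le_mul h3 g3
  · rw [ev_mul, h4, g4]

theorem RC.add {P : Par} {x : Fin (v + 2) → ℝ} {a b : ℤ} {d n n' : ℕ} {s t : ℝ}
    (h : RC P x a d n s) (h' : RC P x b d n' t) : RC P x (a + b) d (n + n') (s + t) := by
  obtain ⟨A, h1, h2, h3, h4⟩ := h
  obtain ⟨B, g1, g2, g3, g4⟩ := h'
  refine ⟨A ++ B, ?_, ?_, ?_, ?_⟩
  · intro r hr
    rcases List.mem_append.1 hr with hr | hr
    · exact h1 r hr
    · exact g1 r hr
  · rw [pk_append, h2, g2]
  · rw [l1_append]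
    exact Nat.add_le_add h3 g3
  · rw [ev_append, h4, g4]

theorem RC.zero (P : Par) (x : Fin (v + 2) → ℝ) (d : ℕ) : RC P x 0 d 0 0 :=
  ⟨[], by simp, rfl, le_rfl, rfl⟩

theorem RC.const (P : Par) (x : Fin (v + 2) → ℝ) (c : ℤ) : RC P x c 0 c.natAbs c := by
  refine ⟨[(c, 0)], ?_, ?_, ?_, ?_⟩
  · intro s hs
    rw [List.mem_singleton] at hs
    subst hs
    simp [dl]
  · simp [pk, kap]
  · simp [l1]
  · simp [ev, mv]

theorem RC.mono {P : Par} {x : Fin (v + 2) → ℝ} {a : ℤ} {d n n' : ℕ} {t : ℝ}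
    (h : RC P x a d n t) (hn : n ≤ n') : RC P x a d n' t := by
  obtain ⟨A, h1, h2, h3, h4⟩ := h
  exact ⟨A, h1, h2, h3.trans hn, h4⟩

theorem RC.pow {P : Par} {x : Fin (v + 2) → ℝ} {a : ℤ} {d n : ℕ} {t : ℝ}
    (h : RC P x a d n t) (k : ℕ) : RC P x (a ^ k) (k * d) (n ^ k) (t ^ k) := by
  induction k with
  | zero =>
    have := RC.const P x 1
    simpa using this
  | succ k ih =>
    have := ih.mul h
    rw [pow_succ, pow_succ, pow_succ, Nat.succ_mul]
    exact this

/-- shift of the variable `j` (`j = 0, …, v`) -/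
def xs (P : Par) (v j : ℕ) : ℕ := if j < v then P.w * P.sl ^ j else 0

theorem RC.var (P : Par) (x : Fin (v + 2) → ℝ) (j : Fin (v + 1)) :
    RC P x (2 ^ xs P v j) 1 1 (x j.succ) := by
  refine ⟨[(1, Pi.single j.succ 1)], ?_, ?_, ?_, ?_⟩
  · intro s hs
    rw [List.mem_singleton] at hs
    subst hs
    refine ⟨?_, ?_⟩
    · unfold dl
      rw [Finset.sum_eq_single j]
      · simp
      · intro i _ hi
        simp [Pi.single_apply, hi]
      · simp
    · simp [Pi.single_apply, Fin.succ_ne_zero j |>.symm]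
  · have e0 : (Pi.single j.succ 1 : Mon v) 0 = 0 := by
      simp [Pi.single_apply, Fin.succ_ne_zero j |>.symm]
    simp only [pk_cons, pk_nil, add_zero, one_mul]
    congr 1
    unfold kap
    rw [e0, zero_add, one_mul]
    unfold xs
    split_ifs with hj
    · congr 1
      rw [Finset.sum_eq_single (⟨j, hj⟩ : Fin v)]
      · have : (⟨(j : ℕ), hj⟩ : Fin v).succ.castSucc = j.succ := by
          ext
          simp
        rw [this]
        simp
      · intro i _ hi
        have : i.succ.castSucc ≠ j.succ := by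
          intro h
          apply hi
          have := congrArg Fin.val h
          simp at this
          ext
          exact this
        rw [Pi.single_eq_of_ne this, zero_mul]
      · simp
    · rw [Finset.sum_eq_zero, mul_zero]
      intro i _
      have : i.succ.castSucc ≠ j.succ := by
        intro h
        have := congrArg Fin.val h
        simp at this
        have := i.isLt
        omega
      rw [Pi.single_eq_of_ne this, zero_mul]
  · simp
  · simp only [ev_cons, ev_nil, add_zero, Int.cast_one, one_mul]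
    unfold mv
    rw [Finset.prod_eq_single j.succ]
    · simp
    · intro i _ hi
      simp [Pi.single_apply, hi]
    · simp

/-- relation between a tree and a real number -/
def RZ {nz : ℕ} (P : Par) (x : Fin (v + 2) → ℝ) (ζ : Fin nz → ℝ) : Z → ℝ → Prop
  | .nil, t => t = 0
  | .el key a d n, t => ∃ (s : ℝ) (e : Fin nz → ℕ), RC P x a d n s ∧ kz e = key ∧ t = s * mz ζ e
  | .add p q, t => ∃ s s', RZ P x ζ p s ∧ RZ P x ζ q s' ∧ t = s + s'

section Ops

/-- product with an element -/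
noncomputable def Z.emul (k : ℕ) (a : ℤ) (d n : ℕ) (q : Z) : Z :=
  Z.rec Z.nil (fun k' a' d' n' => Z.el (Nat.add k k') (Int.mul a a') (Nat.add d d') (Nat.mul n n'))
    (fun _ _ ih1 ih2 => Z.add ih1 ih2) q

noncomputable def Z.mul (p q : Z) : Z :=
  Z.rec Z.nil (fun k a d n => Z.emul k a d n q) (fun _ _ ih1 ih2 => Z.add ih1 ih2) p

/-- sum over `i < n` -/
noncomputable def Z.sum (n : ℕ) (f : ℕ → Z) : Z := Nat.rec Z.nil (fun i ih => Z.add ih (f i)) n

variable {nz : ℕ} {P : Par} {x : Fin (v + 2) → ℝ} {ζ : Fin nz → ℝ}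

theorem RZ.add {p q : Z} {s t : ℝ} (hp : RZ P x ζ p s) (hq : RZ P x ζ q t) :
    RZ P x ζ (Z.add p q) (s + t) := ⟨s, t, hp, hq, rfl⟩

theorem RZ.nil : RZ P x ζ Z.nil 0 := rfl

theorem RZ.congr {p : Z} {s t : ℝ} (hp : RZ P x ζ p s) (h : s = t) : RZ P x ζ p t := h ▸ hp

theorem RZ.el {a : ℤ} {d n : ℕ} {s : ℝ} (h : RC P x a d n s) : RZ P x ζ (Z.el 0 a d n) s := by
  refine ⟨s, 0, h, ?_, ?_⟩
  · simp [kz]
  · simp [mz]

theorem RZ.emul {k : ℕ} {a : ℤ} {d n : ℕ} {q : Z} {s t : ℝ} (h : RZ P x ζ (Z.el k a d n) s)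
    (hq : RZ P x ζ q t) : RZ P x ζ (Z.emul k a d n q) (s * t) := by
  induction q generalizing t with
  | nil =>
    have h0 : t = 0 := hq
    rw [h0, mul_zero]
    exact RZ.nil
  | el k' a' d' n' =>
    obtain ⟨s1, e1, h1, h2, h3⟩ := h
    obtain ⟨s2, e2, g1, g2, g3⟩ := hq
    refine ⟨s1 * s2, e1 + e2, h1.mul g1, ?_, ?_⟩
    · rw [kz_add, h2, g2]
      rfl
    · rw [mz_add, h3, g3]
      ring
  | add p q ihp ihq =>
    obtain ⟨s1, s2, h1, h2, h3⟩ := hq
    refine ⟨s * s1, s * s2, ihp h1, ihq h2, ?_⟩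
    rw [h3]
    ring

theorem RZ.mul {p q : Z} {s t : ℝ} (hp : RZ P x ζ p s) (hq : RZ P x ζ q t) :
    RZ P x ζ (Z.mul p q) (s * t) := by
  induction p generalizing s with
  | nil =>
    have h0 : s = 0 := hp
    rw [h0, zero_mul]
    exact RZ.nil
  | el k a d n => exact RZ.emul hp hq
  | add p q ihp ihq =>
    obtain ⟨s1, s2, h1, h2, h3⟩ := hp
    refine ⟨s1 * t, s2 * t, ihp h1, ihq h2, ?_⟩
    rw [h3]
    ring

theorem RZ.sum {n : ℕ} {F : Fin n → ℝ} {f : ℕ → Z} (h : ∀ i : Fin n, RZ P x ζ (f i) (F i)) :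
    RZ P x ζ (Z.sum n f) (∑ i, F i) := by
  induction n with
  | zero => exact RZ.nil
  | succ n ih =>
    rw [Fin.sum_univ_castSucc]
    exact RZ.add (ih fun i => h i.castSucc) (h (Fin.last n))

/-- the variable `ζ_i` -/
def Z.var (nz i : ℕ) : Z := Z.el (8 ^ i + 8 ^ nz) 1 0 1

theorem RZ.var (i : Fin nz) : RZ P x ζ (Z.var nz i) (ζ i) := by
  refine ⟨1, Pi.single i 1, by simpa using RC.const P x 1, ?_, ?_⟩
  · unfold kz
    rw [Finset.sum_eq_single i]
    · simp
    · intro j _ hj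
      simp [Pi.single_apply, hj]
    · simp
  · unfold mz
    rw [Finset.prod_eq_single i]
    · simp
    · intro j _ hj
      simp [Pi.single_apply, hj]
    · simp

/-- integer constant -/
def Z.const (c : ℤ) : Z := Z.el 0 c 0 c.natAbs

theorem RZ.const (c : ℤ) : RZ P x ζ (Z.const c) c := RZ.el (RC.const P x c)

/-- product with an integer -/
noncomputable def Z.smul (c : ℤ) (q : Z) : Z := Z.emul 0 c 0 c.natAbs q

theorem RZ.smul {q : Z} {t : ℝ} (c : ℤ) (hq : RZ P x ζ q t) : RZ P x ζ (Z.smul c q) (c * t) :=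
  RZ.emul (RZ.const c) hq

end Ops

/-! ### injectivity of keys -/

theorem sum_le_of_kz {nz : ℕ} (e : Fin nz → ℕ) : 8 ^ nz * ∑ i, e i ≤ kz e := by
  unfold kz
  rw [Finset.mul_sum]
  refine Finset.sum_le_sum fun i _ => ?_
  rw [mul_add, mul_comm (8 ^ nz)]
  exact Nat.le_add_left _ _

theorem kz_eq {nz : ℕ} (e : Fin nz → ℕ) :
    kz e = 8 ^ nz * (∑ i, e i) + ∑ i, e i * 8 ^ (i : ℕ) := by
  unfold kz
  rw [Finset.mul_sum, ← Finset.sum_add_distrib]
  refine Finset.sum_congr rfl fun i _ => ?_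
  ring

theorem low_lt {nz : ℕ} : ∀ (e : Fin nz → ℕ), (∀ i, e i < 8) →
    ∑ i, e i * 8 ^ (i : ℕ) < 8 ^ nz := by
  induction nz with
  | zero => intro e _; simp
  | succ n ih =>
    intro e he
    rw [Fin.sum_univ_castSucc]
    have h1 := ih (fun i => e i.castSucc) (fun i => he _)
    have h2 : e (Fin.last n) + 1 ≤ 8 := he _
    have h3 : (e (Fin.last n) + 1) * 8 ^ n ≤ 8 * 8 ^ n := Nat.mul_le_mul_right _ h2
    simp only [Fin.val_castSucc, Fin.val_last]
    rw [pow_succ]
    calc _ < 8 ^ n + e (Fin.last n) * 8 ^ n := Nat.add_lt_add_right h1 _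
      _ = (e (Fin.last n) + 1) * 8 ^ n := by ring
      _ ≤ 8 * 8 ^ n := h3
      _ = 8 ^ n * 8 := by ring

theorem kz_inj {nz : ℕ} {e f : Fin nz → ℕ} {K : ℕ} (he : kz e = K) (hf : kz f = K)
    (hK : K < 8 * 8 ^ nz) : e = f := by
  have hpos : 0 < 8 ^ nz := by positivity
  have key : ∀ e : Fin nz → ℕ, kz e = K → (∀ i, e i < 8) := by
    intro e he i
    have h1 := sum_le_of_kz e
    rw [he] at h1
    have h2 : ∑ i, e i < 8 := by
      have : 8 ^ nz * ∑ i, e i < 8 ^ nz * 8 := by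
        calc 8 ^ nz * ∑ i, e i ≤ K := h1
          _ < 8 * 8 ^ nz := hK
          _ = 8 ^ nz * 8 := by ring
      exact Nat.lt_of_mul_lt_mul_left this
    exact lt_of_le_of_lt (Finset.single_le_sum (f := e) (fun _ _ => Nat.zero_le _)
      (Finset.mem_univ i)) h2
  have e1 := key e he
  have f1 := key f hf
  have h3 : ∑ i, e i * 8 ^ (i : ℕ) = ∑ i, f i * 8 ^ (i : ℕ) := by
    have h4 : kz e % 8 ^ nz = kz f % 8 ^ nz := by rw [he, hf]
    rw [kz_eq, kz_eq, Nat.mul_add_mod, Nat.mul_add_mod, Nat.mod_eq_of_lt (low_lt e e1),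
      Nat.mod_eq_of_lt (low_lt f f1)] at h4
    exact h4
  exact digits_inj 8 nz e f e1 f1 h3

end OPC.Psd
end

section

/-!
# Packed polynomials IV: the packed version of `certPoly`

`m = v + 2`; the last eigenvalue is minus the sum of the others, `T_jjj = -∑_{i≠j} T_jii`.
-/

namespace OPC.Psd

section Comp

variable (P : Par) (v : ℕ)

/-- number of `ζ`-variables: `p` (`m`), `u`, `eps`, `T` (`m^3`) -/
def nzv (v : ℕ) : ℕ := (v + 2) + 2 + (v + 2) ^ 3

noncomputable def lsum : ℕ → ℕ :=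
  fun n => Nat.rec 0 (fun j ih => Nat.add ih (Nat.pow 2 (xs P v j))) n

/-- packed eigenvalue -/
noncomputable def la (i : ℕ) : ℤ :=
  Bool.rec (Int.neg (Int.ofNat (lsum P v (Nat.succ v)))) (Int.ofNat (Nat.pow 2 (xs P v i)))
    (Nat.ble i v)

noncomputable def ln (i : ℕ) : ℕ := Bool.rec (Nat.succ v) 1 (Nat.ble i v)

/-- packed `l_i^a` -/
noncomputable def lpw (i a : ℕ) : ℤ := Nat.rec (Int.ofNat 1) (fun _ ih => Int.mul ih (la P v i)) a

noncomputable def lpn (i a : ℕ) : ℕ := Nat.pow (ln v i) a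

/-- `∑_{c<n} l_i^c l_j^{a-1-c}` -/
noncomputable def hha (a i j n : ℕ) : ℤ :=
  Nat.rec (Int.ofNat 0) (fun c ih => Int.add ih (Int.mul (lpw P v i c)
    (lpw P v j (Nat.sub (Nat.sub a 1) c)))) n

noncomputable def hhn (a i j n : ℕ) : ℕ :=
  Nat.rec 0 (fun c ih => Nat.add ih (Nat.mul (lpn v i c) (lpn v j (Nat.sub (Nat.sub a 1) c)))) n

noncomputable def lmul (i a : ℕ) (q : Z) : Z := Z.emul 0 (lpw P v i a) a (lpn v i a) q

noncomputable def hmul (a i j : ℕ) (q : Z) : Z :=
  Z.emul 0 (hha P v a i j a) (Nat.sub a 1) (hhn v a i j a) q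

noncomputable def lz (i a : ℕ) : Z := Z.el 0 (lpw P v i a) a (lpn v i a)

noncomputable def pz (i : ℕ) : Z := Z.var (nzv v) i

noncomputable def uz : Z := Z.var (nzv v) (v + 2)

noncomputable def ez : Z := Z.var (nzv v) (v + 3)

def tix (a b c : ℕ) : ℕ := (v + 4) + ((a * (v + 2) + b) * (v + 2) + c)

/-- the variable `T_abc` -/
noncomputable def tz (a b c : ℕ) : Z := Z.var (nzv v) (tix v a b c)

/-- sorted -/
noncomputable def tsort (a b c : ℕ) : Z :=
  Bool.rec
    -- b < a
    (Bool.rec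
      -- c < b < a
      (tz v c b a)
      -- b ≤ c
      (Bool.rec (tz v b c a) (tz v b a c) (Nat.ble a c))
      (Nat.ble b c))
    -- a ≤ b
    (Bool.rec
      -- c < b
      (Bool.rec (tz v c a b) (tz v a c b) (Nat.ble a c))
      -- b ≤ c
      (tz v a b c)
      (Nat.ble b c))
    (Nat.ble a b)

/-- `T_kij` -/
noncomputable def TZ (k i j : ℕ) : Z :=
  Bool.rec (tsort v k i j)
    (Z.smul (-1) (Z.sum (v + 2) fun i' => Bool.rec (tsort v k i' i') Z.nil (Nat.beq i' k)))
    (Bool.and (Nat.beq k i) (Nat.beq i j))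

noncomputable def wz (k : ℕ) : Z := Z.sum (v + 2) fun i => lmul P v i 1 (TZ v k i i)

noncomputable def vz (a i : ℕ) : Z := lmul P v i a (pz v i)

noncomputable def dvz (a k i : ℕ) : Z :=
  Z.add (Z.sum (v + 2) fun j => hmul P v a i j (Z.mul (TZ v k i j) (pz v j)))
    (Bool.rec Z.nil (Z.add (lz P v i (Nat.succ a))
      (Z.smul (-1) (lmul P v i a (Z.mul (ez v) (uz v))))) (Nat.beq i k))

noncomputable def bz (a : ℕ) : Z :=
  Z.sum (v + 2) fun i => lmul P v i a (Z.mul (pz v i) (pz v i))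

noncomputable def dbz (a k : ℕ) : Z :=
  Z.add (Z.sum (v + 2) fun i => Z.sum (v + 2) fun j =>
      hmul P v a i j (Z.mul (TZ v k i j) (Z.mul (pz v i) (pz v j))))
    (Z.add (Z.smul 2 (lmul P v k (Nat.succ a) (pz v k)))
      (Z.smul (-2) (lmul P v k a (Z.mul (ez v) (Z.mul (uz v) (pz v k))))))

noncomputable def facLv (f : Fac) : Z :=
  Fac.rec (Z.sum (v + 2) fun i => lz P v i 3) (Z.sum (v + 2) fun i => lz P v i 4)
    (Z.add (Z.sum (v + 2) fun i => Z.mul (pz v i) (pz v i)) (Z.mul (uz v) (uz v)))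
    (bz P v 1) (bz P v 2) (bz P v 3) (Z.mul (uz v) (uz v)) (uz v) f

noncomputable def facLd (k : ℕ) (f : Fac) : Z :=
  Fac.rec (Z.smul 3 (Z.sum (v + 2) fun i => lmul P v i 2 (TZ v k i i)))
    (Z.smul 4 (Z.sum (v + 2) fun i => lmul P v i 3 (TZ v k i i)))
    (Z.smul 2 (lmul P v k 1 (pz v k)))
    (dbz P v 1 k) (dbz P v 2 k) (dbz P v 3 k)
    (Z.smul 2 (Z.mul (uz v) (Z.mul (ez v) (pz v k)))) (Z.mul (ez v) (pz v k)) f

noncomputable def facsLvZ (L : List Fac) : Z :=
  List.rec (Z.const 1) (fun f _ ih => Z.mul (facLv P v f) ih) L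

noncomputable def facsLdZ (k : ℕ) (L : List Fac) : Z :=
  List.rec Z.nil (fun f L ih => Z.add (Z.mul (facLd P v k f) (facsLvZ P v L))
    (Z.mul (facLv P v f) ih)) L

/-- `1` for `pow`, `2` for `sym` -/
noncomputable def mdbl (A : Mt) : ℤ := Mt.rec (fun _ => 1) (fun _ _ => 2) A

/-- `mdbl A * A.lv i j` -/
noncomputable def mlv (i j : ℕ) (A : Mt) : Z :=
  Mt.rec (fun a => Bool.rec Z.nil (lz P v i a) (Nat.beq i j))
    (fun a b => Z.emul 0 (Int.add (Int.mul (lpw P v i a) (lpw P v j b))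
        (Int.mul (lpw P v i b) (lpw P v j a))) (Nat.add a b)
      (Nat.add (Nat.mul (lpn v i a) (lpn v j b)) (Nat.mul (lpn v i b) (lpn v j a)))
      (Z.mul (pz v i) (pz v j))) A

noncomputable def mld (k i j : ℕ) (A : Mt) : Z :=
  Mt.rec (fun a => hmul P v a i j (TZ v k i j))
    (fun a b => Z.add (Z.add (Z.mul (dvz P v a k i) (vz P v b j)) (Z.mul (vz P v a i) (dvz P v b k j)))
      (Z.add (Z.mul (dvz P v b k i) (vz P v a j)) (Z.mul (vz P v b i) (dvz P v a k j)))) A

noncomputable def TAz (l : ℕ) (A : Mt) : Z :=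
  Mt.rec (fun a => Z.sum (v + 2) fun i => lmul P v i a (TZ v l i i))
    (fun a b => Z.sum (v + 2) fun i => Z.sum (v + 2) fun j =>
      Z.mul (TZ v l i j) (mlv P v i j (Mt.sym a b))) A

noncomputable def TdAz (l k : ℕ) (A : Mt) : Z :=
  Z.sum (v + 2) fun i => Z.sum (v + 2) fun j => Z.mul (TZ v l i j) (mld P v k i j A)

noncomputable def SAz (A : Mt) : Z := Z.sum (v + 2) fun i => lmul P v i 1 (mlv P v i i A)

noncomputable def trz (A : Mt) : Z := Z.sum (v + 2) fun i => mlv P v i i A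

noncomputable def e2z : Z := Z.mul (ez v) (ez v)

/-- `v0` -/
noncomputable def ldiv0 (f : Z) (fk : ℕ → Z) (a : ℕ) : Z :=
  Z.sum (v + 2) fun k => Z.add (Z.mul (fk k) (vz P v a k)) (Z.mul f (dvz P v a k k))

noncomputable def ldiv1 (f : Z) (fk : ℕ → Z) (A : Mt) : Z :=
  Z.add (Z.sum (v + 2) fun k => Z.mul (fk k) (TAz P v k A))
    (Z.mul f (Z.add (Z.sum (v + 2) fun k => TdAz P v k k A)
      (Z.smul (Int.ofNat (v + 2)) (Z.mul (e2z v) (SAz P v A)))))

/-- `∑_l A_kl q_l` for a function `q`, with `A_kl` diagonal for `pow` -/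
noncomputable def mrow (k : ℕ) (q : ℕ → Z) (A : Mt) : Z :=
  Mt.rec (fun a => lmul P v k a (q k))
    (fun a b => Z.sum (v + 2) fun l => Z.mul (mlv P v k l (Mt.sym a b)) (q l)) A

noncomputable def ldiv2 (f : Z) (fk : ℕ → Z) (A B : Mt) : Z :=
  Z.add
    (Z.sum (v + 2) fun k => Z.mul (fk k)
      (Z.add (mrow P v k (fun l => TAz P v l A) B)
        (Z.smul (-1) (mrow P v k (fun l => TAz P v l B) A))))
    (Z.mul f (Z.add
      (Z.sum (v + 2) fun k => Z.add
        (Z.add (Z.sum (v + 2) fun l => Z.mul (mld P v k k l B) (TAz P v l A))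
          (mrow P v k (fun l => TdAz P v l k A) B))
        (Z.smul (-1) (Z.add (Z.sum (v + 2) fun l => Z.mul (mld P v k k l A) (TAz P v l B))
          (mrow P v k (fun l => TdAz P v l k B) A))))
      (Z.mul (e2z v) (Z.add (Z.mul (trz P v B) (SAz P v A))
        (Z.smul (-1) (Z.mul (trz P v A) (SAz P v B)))))))

/-- `∂_k f` of the scalar part (times `vd`), `exn = vd * ex` -/
noncomputable def fkz (vd exn : ℤ) (L : List Fac) (k : ℕ) : Z :=
  Z.add (Z.smul vd (facsLdZ P v k L)) (Z.smul exn (Z.mul (facsLvZ P v L) (wz P v k)))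

noncomputable def epz (ge : ℕ) (q : Z) : Z := Nat.rec q (fun _ ih => Z.mul (ez v) ih) ge

/-- packed term: `vd * (dbl of the matrices) * (shape divergence)`, without `h2` -/
noncomputable def shapeZ (vd exn : ℤ) (L : List Fac) (s : Shape) : Z :=
  Shape.rec (fun a => ldiv0 P v (Z.smul vd (facsLvZ P v L)) (fkz P v vd exn L) a)
    (fun A => ldiv1 P v (Z.smul vd (facsLvZ P v L)) (fkz P v vd exn L) A)
    (fun A B => ldiv2 P v (Z.smul vd (facsLvZ P v L)) (fkz P v vd exn L) A B)
    (fun _ _ _ => Z.nil) s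

noncomputable def sdbl (s : Shape) : ℤ :=
  Shape.rec (fun _ => 1) (fun A => mdbl A) (fun A B => Int.mul (mdbl A) (mdbl B)) (fun _ _ _ => 1) s

end Comp

end OPC.Psd
end

section

/-!
# Packed polynomials V: soundness of the packed version of `certPoly`
-/

namespace OPC.Psd

variable {v : ℕ}

/-- the values of the `ζ`-variables -/
noncomputable def zt (X : LS ℝ (v + 2)) (i : Fin (nzv v)) : ℝ :=
  if h : (i : ℕ) < v + 2 then X.p ⟨i, h⟩
  else if (i : ℕ) = v + 2 then X.u
  else if (i : ℕ) = v + 3 then X.eps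
  else X.T (Fin.ofNat (v + 2) (((i : ℕ) - (v + 4)) / (v + 2) / (v + 2)))
    (Fin.ofNat (v + 2) (((i : ℕ) - (v + 4)) / (v + 2))) (Fin.ofNat (v + 2) ((i : ℕ) - (v + 4)))

/-- the point -/
noncomputable def xt (X : LS ℝ (v + 2)) : Fin (v + 2) → ℝ :=
  Fin.cons 1 fun j : Fin (v + 1) => X.l j.castSucc

/-- symmetric trace-free states with trace-free `S` -/
structure SymLS (X : LS ℝ (v + 2)) : Prop where
  l_tr : ∑ i, X.l i = 0
  T12 : ∀ i j k, X.T i j k = X.T j i k
  T23 : ∀ i j k, X.T i j k = X.T i k j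
  T_tr : ∀ k, ∑ i, X.T k i i = 0

variable {P : Par} {X : LS ℝ (v + 2)}


theorem lsum_eq (P : Par) (v n : ℕ) :
    ((lsum P v n : ℕ) : ℤ) = ∑ j ∈ Finset.range n, 2 ^ xs P v j := by
  induction n with
  | zero => rfl
  | succ n ih =>
    have : lsum P v (n + 1) = lsum P v n + 2 ^ xs P v n := rfl
    rw [this, Finset.sum_range_succ]
    push_cast
    rw [ih]

theorem RC.sum' (P : Par) (X : LS ℝ (v + 2)) (n : ℕ) (hn : n ≤ v + 1) :
    RC P (xt X) (Int.ofNat (lsum P v n)) 1 n (∑ j : Fin n, X.l ⟨j, by omega⟩) := by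
  induction n with
  | zero =>
    have := RC.zero P (xt X) 1
    simpa [lsum] using this
  | succ n ih =>
    rw [Fin.sum_univ_castSucc]
    have h1 := ih (by omega)
    have h2 := RC.var P (xt X) ⟨n, by omega⟩
    have h3 := h1.add h2
    have e : (Int.ofNat (lsum P v (n + 1))) = Int.ofNat (lsum P v n) + 2 ^ xs P v n := by
      have : lsum P v (n + 1) = lsum P v n + 2 ^ xs P v n := rfl
      rw [this]
      simp
    rw [e]
    exact h3

theorem RC.neg {P : Par} {x : Fin (v + 2) → ℝ} {a : ℤ} {d n : ℕ} {t : ℝ}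
    (h : RC P x a d n t) : RC P x (-a) d n (-t) := by
  have h1 := (RC.const P x (-1)).mul h
  have e1 : (-1 : ℤ) * a = -a := by ring
  have e2 : ((-1 : ℤ) : ℝ) * t = -t := by push_cast; ring
  rw [e1, e2, Nat.zero_add] at h1
  simpa using h1

variable (hX : SymLS X)

include hX in
theorem rc_la (i : Fin (v + 2)) : RC P (xt X) (la P v i) 1 (ln v i) (X.l i) := by
  by_cases hi : (i : ℕ) ≤ v
  · have e1 : la P v i = 2 ^ xs P v i := by
      unfold la
      rw [show Nat.ble (i : ℕ) v = true from Nat.ble_eq_true_of_le hi]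
      simp
    have e2 : ln v i = 1 := by
      unfold ln
      rw [show Nat.ble (i : ℕ) v = true from Nat.ble_eq_true_of_le hi]
    have h2 := RC.var P (xt X) ⟨i, by omega⟩
    rw [e1, e2]
    exact h2
  · have hb : Nat.ble (i : ℕ) v = false := by
      rw [← Bool.not_eq_true, Nat.ble_eq]
      exact hi
    have hiv : (i : ℕ) = v + 1 := by have := i.isLt; omega
    have e1 : la P v i = -Int.ofNat (lsum P v (v + 1)) := by
      unfold la
      rw [hb]
      rfl
    have e2 : ln v i = v + 1 := by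
      unfold ln
      rw [hb]
    rw [e1, e2]
    have h1 := (RC.sum' P X (v + 1) le_rfl).neg
    have e3 : X.l i = -∑ j : Fin (v + 1), X.l ⟨j, by omega⟩ := by
      have h := hX.l_tr
      rw [Fin.sum_univ_castSucc] at h
      have e4 : X.l i = X.l (Fin.last (v + 1)) := by
        congr 1
        ext
        exact hiv
      rw [e4]
      have e5 : ∑ j : Fin (v + 1), X.l ⟨j, by omega⟩ = ∑ j : Fin (v + 1), X.l j.castSucc := rfl
      rw [e5]
      linarith
    rw [e3]
    exact h1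

include hX in
theorem rc_lpw (i : Fin (v + 2)) (a : ℕ) : RC P (xt X) (lpw P v i a) a (lpn v i a) (X.l i ^ a) := by
  induction a with
  | zero =>
    have := RC.const P (xt X) 1
    simpa [lpw, lpn] using this
  | succ a ih =>
    have h := ih.mul (rc_la (P := P) hX i)
    have e1 : lpw P v i (a + 1) = lpw P v i a * la P v i := rfl
    have e2 : lpn v i (a + 1) = lpn v i a * ln v i := by
      unfold lpn
      exact pow_succ _ _
    rw [e1, e2, pow_succ]
    exact h

include hX in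
theorem rc_hha (a : ℕ) (i j : Fin (v + 2)) (n : ℕ) (hn : n ≤ a) :
    RC P (xt X) (hha P v a i j n) (a - 1) (hhn v a i j n)
      (∑ c ∈ Finset.range n, X.l i ^ c * X.l j ^ (a - 1 - c)) := by
  induction n with
  | zero =>
    have := RC.zero P (xt X) (a - 1)
    simpa [hha, hhn] using this
  | succ n ih =>
    rw [Finset.sum_range_succ]
    have h1 := ih (by omega)
    have h2 := (rc_lpw (P := P) hX i n).mul (rc_lpw (P := P) hX j (a - 1 - n))
    have e : n + (a - 1 - n) = a - 1 := by omega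
    rw [e] at h2
    exact h1.add h2

include hX in
theorem rz_lmul (i : Fin (v + 2)) (a : ℕ) {q : Z} {t : ℝ} (hq : RZ P (xt X) (zt X) q t) :
    RZ P (xt X) (zt X) (lmul P v i a q) (X.l i ^ a * t) := RZ.emul (RZ.el (rc_lpw hX i a)) hq

include hX in
theorem rz_hmul (a : ℕ) (i j : Fin (v + 2)) {q : Z} {t : ℝ} (hq : RZ P (xt X) (zt X) q t) :
    RZ P (xt X) (zt X) (hmul P v a i j q) (hh a (X.l i) (X.l j) * t) :=
  RZ.emul (RZ.el (rc_hha hX a i j a le_rfl)) hq

include hX in
theorem rz_lz (i : Fin (v + 2)) (a : ℕ) : RZ P (xt X) (zt X) (lz P v i a) (X.l i ^ a) := RZ.el (rc_lpw hX i a)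

theorem rz_pz (i : Fin (v + 2)) : RZ P (xt X) (zt X) (pz v i) (X.p i) := by
  have h1 : (i : ℕ) < nzv v := by
    have := i.isLt
    unfold nzv
    omega
  have h := RZ.var (P := P) (x := xt X) (ζ := zt X) (⟨i, h1⟩ : Fin (nzv v))
  have e : zt X ⟨i, h1⟩ = X.p i := by
    unfold zt
    rw [dif_pos i.isLt]
  rw [e] at h
  exact h

theorem rz_uz : RZ P (xt X) (zt X) (uz v) X.u := by
  have h1 : v + 2 < nzv v := by
    unfold nzv
    omega
  have h := RZ.var (P := P) (x := xt X) (ζ := zt X) (⟨v + 2, h1⟩ : Fin (nzv v))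
  have e : zt X ⟨v + 2, h1⟩ = X.u := by
    unfold zt
    rw [dif_neg (by simp), if_pos rfl]
  rw [e] at h
  exact h

theorem rz_ez : RZ P (xt X) (zt X) (ez v) X.eps := by
  have h1 : v + 3 < nzv v := by
    have : 0 < (v + 2) ^ 3 := by positivity
    unfold nzv
    omega
  have h := RZ.var (P := P) (x := xt X) (ζ := zt X) (⟨v + 3, h1⟩ : Fin (nzv v))
  have e : zt X ⟨v + 3, h1⟩ = X.eps := by
    unfold zt
    rw [dif_neg (by simp), if_neg (by simp), if_pos rfl]
  rw [e] at h
  exact h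

theorem tix_lt (a b c : Fin (v + 2)) : tix v a b c < nzv v := by
  have ha := a.isLt
  have hb := b.isLt
  have hc := c.isLt
  unfold tix nzv
  have h1 : (a : ℕ) * (v + 2) + b < (v + 2) * (v + 2) := by
    calc (a : ℕ) * (v + 2) + b < a * (v + 2) + (v + 2) := Nat.add_lt_add_left hb _
      _ = (a + 1) * (v + 2) := by ring
      _ ≤ (v + 2) * (v + 2) := Nat.mul_le_mul_right _ ha
  have h2 : ((a : ℕ) * (v + 2) + b) * (v + 2) + c < (v + 2) ^ 3 := by
    calc ((a : ℕ) * (v + 2) + b) * (v + 2) + c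
        < ((a : ℕ) * (v + 2) + b) * (v + 2) + (v + 2) := Nat.add_lt_add_left hc _
      _ = ((a : ℕ) * (v + 2) + b + 1) * (v + 2) := by ring
      _ ≤ ((v + 2) * (v + 2)) * (v + 2) := Nat.mul_le_mul_right _ h1
      _ = (v + 2) ^ 3 := by ring
  omega

theorem rz_tz (a b c : Fin (v + 2)) : RZ P (xt X) (zt X) (tz v a b c) (X.T a b c) := by
  have h := RZ.var (P := P) (x := xt X) (ζ := zt X) (⟨tix v a b c, tix_lt a b c⟩ : Fin (nzv v))
  have e : zt X ⟨tix v a b c, tix_lt a b c⟩ = X.T a b c := by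
    have ha := a.isLt
    have hb := b.isLt
    have hc := c.isLt
    have h1 : tix v a b c - (v + 4) = ((a : ℕ) * (v + 2) + b) * (v + 2) + c := by
      unfold tix
      omega
    have h0 : v + 4 ≤ tix v a b c := by
      unfold tix
      omega
    have h2 : (((a : ℕ) * (v + 2) + b) * (v + 2) + c) / (v + 2) = (a : ℕ) * (v + 2) + b := by
      rw [add_comm, Nat.add_mul_div_right _ _ (by omega), Nat.div_eq_of_lt hc, zero_add]
    have h3 : ((a : ℕ) * (v + 2) + b) / (v + 2) = a := by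
      rw [add_comm, Nat.add_mul_div_right _ _ (by omega), Nat.div_eq_of_lt hb, zero_add]
    unfold zt
    rw [dif_neg (by simp only; omega), if_neg (by simp only; omega), if_neg (by simp only; omega)]
    simp only [h1]
    rw [h2, h3]
    congr 1
    · ext
      simp [Nat.mod_eq_of_lt ha]
    · ext
      simp [Nat.mod_eq_of_lt hb]
    · ext
      simp [Nat.mod_eq_of_lt hc]
  rw [e] at h
  exact h

include hX in
theorem rz_tsort (a b c : Fin (v + 2)) : RZ P (xt X) (zt X) (tsort v a b c) (X.T a b c) := by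
  unfold tsort
  rcases hab : Nat.ble a b with _ | _
  · rcases hbc : Nat.ble b c with _ | _
    · simp only
      have e : X.T a b c = X.T c b a := by rw [hX.T12 a, hX.T23 b, hX.T12 b]
      rw [e]
      exact rz_tz c b a
    · rcases hac : Nat.ble a c with _ | _
      · simp only
        have e : X.T a b c = X.T b c a := by rw [hX.T12 a, hX.T23 b]
        rw [e]
        exact rz_tz b c a
      · simp only
        have e : X.T a b c = X.T b a c := by rw [hX.T12 a]
        rw [e]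
        exact rz_tz b a c
  · rcases hbc : Nat.ble b c with _ | _
    · rcases hac : Nat.ble a c with _ | _
      · simp only
        have e : X.T a b c = X.T c a b := by rw [hX.T23 a, hX.T12 a]
        rw [e]
        exact rz_tz c a b
      · simp only
        have e : X.T a b c = X.T a c b := by rw [hX.T23 a]
        rw [e]
        exact rz_tz a c b
    · simp only
      exact rz_tz a b c

include hX in
theorem rz_TZ (k i j : Fin (v + 2)) : RZ P (xt X) (zt X) (TZ v k i j) (X.T k i j) := by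
  unfold TZ
  rcases h : Bool.and (Nat.beq k i) (Nat.beq i j) with _ | _
  · exact rz_tsort hX k i j
  · have h' : (Nat.beq (k : ℕ) i && Nat.beq (i : ℕ) j) = true := h
    rw [Bool.and_eq_true] at h'
    have e1 : k = i := Fin.ext (Nat.eq_of_beq_eq_true h'.1)
    have e2 : i = j := Fin.ext (Nat.eq_of_beq_eq_true h'.2)
    subst e1
    subst e2
    have h1 : RZ P (xt X) (zt X) (Z.sum (v + 2) fun i' => Bool.rec (tsort v k i' i') Z.nil (Nat.beq i' k))
        (∑ i' : Fin (v + 2), if i' = k then 0 else X.T k i' i') := by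
      apply RZ.sum
      intro i
      rcases hik : Nat.beq i k with _ | _
      · have : i ≠ k := by
          intro h
          rw [h] at hik
          simp at hik
        rw [if_neg this]
        exact rz_tsort hX k i i
      · have : i = k := Fin.ext (Nat.eq_of_beq_eq_true hik)
        rw [if_pos this]
        exact RZ.nil
    have h2 := RZ.smul (-1) h1
    refine h2.congr ?_
    have h3 := hX.T_tr k
    have h4 : ∑ i' : Fin (v + 2), X.T k i' i' =
        X.T k k k + ∑ i' : Fin (v + 2), if i' = k then 0 else X.T k i' i' := by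
      have e : ∀ i' : Fin (v + 2), X.T k i' i' =
          (if i' = k then X.T k k k else 0) + (if i' = k then 0 else X.T k i' i') := by
        intro i'
        by_cases hi : i' = k
        · simp [hi]
        · simp [hi]
      rw [Finset.sum_congr rfl fun i' _ => e i', Finset.sum_add_distrib]
      congr 1
      rw [Finset.sum_ite_eq']
      simp
    push_cast
    linarith

include hX in
theorem rz_wz (k : Fin (v + 2)) : RZ P (xt X) (zt X) (wz P v k) (X.w k) := by
  unfold LS.w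
  refine (RZ.sum fun i => rz_lmul hX i 1 (rz_TZ hX k i i)).congr ?_
  refine Finset.sum_congr rfl fun i _ => ?_
  rw [pow_one]

include hX in
theorem rz_vz (a : ℕ) (i : Fin (v + 2)) : RZ P (xt X) (zt X) (vz P v a i) (X.v a i) :=
  rz_lmul hX i a (rz_pz i)

include hX in
theorem rz_dvz (a : ℕ) (k i : Fin (v + 2)) : RZ P (xt X) (zt X) (dvz P v a k i) (X.dv a k i) := by
  unfold dvz LS.dv
  apply RZ.add
  · refine (RZ.sum fun j => rz_hmul hX a i j (RZ.mul (rz_TZ hX k i j) (rz_pz j))).congr ?_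
    refine Finset.sum_congr rfl fun i _ => ?_
    ring
  · rcases h : Nat.beq i k with _ | _
    · have : i ≠ k := by
        intro h'
        rw [h'] at h
        simp at h
      rw [if_neg this]
      exact RZ.nil
    · have : i = k := Fin.ext (Nat.eq_of_beq_eq_true h)
      rw [if_pos this]
      refine (RZ.add (rz_lz hX i (a + 1)) (RZ.smul (-1) (rz_lmul hX i a
        (RZ.mul rz_ez rz_uz)))).congr ?_
      push_cast
      ring

include hX in
theorem rz_bz (a : ℕ) : RZ P (xt X) (zt X) (bz P v a) (X.b a) := by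
  unfold bz LS.b
  refine (RZ.sum fun i => rz_lmul hX i a (RZ.mul (rz_pz i) (rz_pz i))).congr ?_
  refine Finset.sum_congr rfl fun i _ => ?_
  ring

include hX in
theorem rz_dbz (a : ℕ) (k : Fin (v + 2)) : RZ P (xt X) (zt X) (dbz P v a k) (X.db a k) := by
  unfold dbz LS.db
  apply RZ.add
  · refine (RZ.sum (n := v + 2) fun i => RZ.sum (n := v + 2) (F := fun j => _) fun j =>
      rz_hmul hX a i j (RZ.mul (rz_TZ hX k i j) (RZ.mul (rz_pz i) (rz_pz j)))).congr ?_
    refine Finset.sum_congr rfl fun i _ => Finset.sum_congr rfl fun j _ => ?_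
    ring
  · refine (RZ.add (RZ.smul 2 (rz_lmul hX k (a + 1) (rz_pz k))) (RZ.smul (-2) (rz_lmul hX k a
      (RZ.mul rz_ez (RZ.mul rz_uz (rz_pz k)))))).congr ?_
    push_cast
    ring

include hX in
theorem rz_facLv (f : Fac) : RZ P (xt X) (zt X) (facLv P v f) (f.lv X) := by
  cases f with
  | c3 => exact RZ.sum fun i => rz_lz hX i 3
  | c4 => exact RZ.sum fun i => rz_lz hX i 4
  | b0 =>
    refine (RZ.add (RZ.sum fun i => RZ.mul (rz_pz i) (rz_pz i)) (RZ.mul rz_uz rz_uz)).congr ?_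
    unfold Fac.lv
    simp only [sq]
  | b1 => exact rz_bz hX 1
  | b2 => exact rz_bz hX 2
  | b3 => exact rz_bz hX 3
  | u2 =>
    refine (RZ.mul rz_uz rz_uz).congr ?_
    unfold Fac.lv
    simp only [sq]
  | u1 => exact rz_uz

include hX in
theorem rz_facLd (k : Fin (v + 2)) (f : Fac) : RZ P (xt X) (zt X) (facLd P v k f) (f.ld X k) := by
  cases f with
  | c3 =>
    refine (RZ.smul 3 (RZ.sum fun i => rz_lmul hX i 2 (rz_TZ hX k i i))).congr ?_
    unfold Fac.ld
    push_cast
    rfl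
  | c4 =>
    refine (RZ.smul 4 (RZ.sum fun i => rz_lmul hX i 3 (rz_TZ hX k i i))).congr ?_
    unfold Fac.ld
    push_cast
    rfl
  | b0 =>
    refine (RZ.smul 2 (rz_lmul hX k 1 (rz_pz k))).congr ?_
    unfold Fac.ld
    push_cast
    ring
  | b1 => exact rz_dbz hX 1 k
  | b2 => exact rz_dbz hX 2 k
  | b3 => exact rz_dbz hX 3 k
  | u2 =>
    refine (RZ.smul 2 (RZ.mul rz_uz (RZ.mul rz_ez (rz_pz k)))).congr ?_
    unfold Fac.ld
    push_cast
    ring
  | u1 => exact RZ.mul rz_ez (rz_pz k)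

include hX in
theorem rz_facsLv (L : List Fac) : RZ P (xt X) (zt X) (facsLvZ P v L) (facsLv X L) := by
  induction L with
  | nil => exact (RZ.const 1).congr (by simp [facsLv])
  | cons f L ih => exact RZ.mul (rz_facLv hX f) ih

include hX in
theorem rz_facsLd (k : Fin (v + 2)) (L : List Fac) : RZ P (xt X) (zt X) (facsLdZ P v k L) (facsLd X k L) := by
  induction L with
  | nil => exact RZ.nil
  | cons f L ih =>
    exact RZ.add (RZ.mul (rz_facLd hX k f) (rz_facsLv hX L)) (RZ.mul (rz_facLv hX f) ih)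

theorem half_real : (half : ℝ) = 1 / 2 := by
  unfold half
  simp

include hX in
theorem rz_mlv (i j : Fin (v + 2)) (A : Mt) : RZ P (xt X) (zt X) (mlv P v i j A) ((mdbl A : ℝ) * A.lv X i j) := by
  cases A with
  | pow a =>
    have e : ((mdbl (Mt.pow a) : ℤ) : ℝ) = 1 := by simp [mdbl]
    rw [e, one_mul]
    unfold Mt.lv
    show RZ P (xt X) (zt X) (Bool.rec Z.nil (lz P v i a) (Nat.beq i j)) _
    rcases h : Nat.beq i j with _ | _
    · have : i ≠ j := by
        intro h'
        rw [h'] at h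
        simp at h
      simp only [this, if_false]
      exact RZ.nil
    · have : i = j := Fin.ext (Nat.eq_of_beq_eq_true h)
      simp only [this, if_true]
      exact rz_lz hX j a
  | sym a b =>
    have e : ((mdbl (Mt.sym a b) : ℤ) : ℝ) = 2 := by simp [mdbl]
    have h1 := ((rc_lpw (P := P) hX i a).mul (rc_lpw (P := P) hX j b))
    have h2 := ((rc_lpw (P := P) hX i b).mul (rc_lpw (P := P) hX j a))
    rw [add_comm b a] at h2
    have h3 := h1.add h2
    refine (RZ.emul (RZ.el h3) (RZ.mul (rz_pz i) (rz_pz j))).congr ?_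
    rw [e]
    unfold Mt.lv LS.v
    rw [half_real]
    ring

include hX in
theorem rz_mld (k i j : Fin (v + 2)) (A : Mt) :
    RZ P (xt X) (zt X) (mld P v k i j A) ((mdbl A : ℝ) * A.ld X k i j) := by
  cases A with
  | pow a =>
    have e : ((mdbl (Mt.pow a) : ℤ) : ℝ) = 1 := by simp [mdbl]
    rw [e, one_mul]
    exact rz_hmul hX a i j (rz_TZ hX k i j)
  | sym a b =>
    have e : ((mdbl (Mt.sym a b) : ℤ) : ℝ) = 2 := by simp [mdbl]
    refine (RZ.add (RZ.add (RZ.mul (rz_dvz hX a k i) (rz_vz hX b j))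
      (RZ.mul (rz_vz hX a i) (rz_dvz hX b k j))) (RZ.add (RZ.mul (rz_dvz hX b k i) (rz_vz hX a j))
      (RZ.mul (rz_vz hX b i) (rz_dvz hX a k j)))).congr ?_
    rw [e]
    unfold Mt.ld
    rw [half_real]
    ring

include hX in
theorem rz_TAz (l : Fin (v + 2)) (A : Mt) : RZ P (xt X) (zt X) (TAz P v l A) ((mdbl A : ℝ) * A.TA X l) := by
  cases A with
  | pow a =>
    have e : ((mdbl (Mt.pow a) : ℤ) : ℝ) = 1 := by simp [mdbl]
    rw [e, one_mul]
    refine (RZ.sum fun i => rz_lmul hX i a (rz_TZ hX l i i)).congr ?_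
    unfold Mt.TA Mt.lv
    refine Finset.sum_congr rfl fun i _ => ?_
    simp only [mul_ite, mul_zero, Finset.sum_ite_eq, Finset.mem_univ, if_true]
    ring
  | sym a b =>
    refine (RZ.sum (n := v + 2) fun i => RZ.sum (n := v + 2) (F := fun j => _) fun j =>
      RZ.mul (rz_TZ hX l i j) (rz_mlv hX i j (Mt.sym a b))).congr ?_
    unfold Mt.TA
    rw [Finset.mul_sum]
    refine Finset.sum_congr rfl fun i _ => ?_
    rw [Finset.mul_sum]
    refine Finset.sum_congr rfl fun j _ => ?_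
    ring

include hX in
theorem rz_TdAz (l k : Fin (v + 2)) (A : Mt) :
    RZ P (xt X) (zt X) (TdAz P v l k A) ((mdbl A : ℝ) * A.TdA X l k) := by
  refine (RZ.sum (n := v + 2) fun i => RZ.sum (n := v + 2) (F := fun j => _) fun j =>
    RZ.mul (rz_TZ hX l i j) (rz_mld hX k i j A)).congr ?_
  unfold Mt.TdA
  rw [Finset.mul_sum]
  refine Finset.sum_congr rfl fun i _ => ?_
  rw [Finset.mul_sum]
  refine Finset.sum_congr rfl fun j _ => ?_
  ring

include hX in
theorem rz_SAz (A : Mt) : RZ P (xt X) (zt X) (SAz P v A) ((mdbl A : ℝ) * A.SA X) := by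
  refine (RZ.sum fun i => rz_lmul hX i 1 (rz_mlv hX i i A)).congr ?_
  unfold Mt.SA
  rw [Finset.mul_sum]
  refine Finset.sum_congr rfl fun i _ => ?_
  ring

include hX in
theorem rz_trz (A : Mt) : RZ P (xt X) (zt X) (trz P v A) ((mdbl A : ℝ) * A.tr X) := by
  refine (RZ.sum fun i => rz_mlv hX i i A).congr ?_
  unfold Mt.tr
  rw [Finset.mul_sum]

theorem rz_e2z : RZ P (xt X) (zt X) (e2z v) (X.eps ^ 2) := by
  refine (RZ.mul rz_ez rz_ez).congr ?_
  ring

include hX in
theorem rz_ldiv0 {f : Z} {fk : ℕ → Z} {F : ℝ} {G : Fin (v + 2) → ℝ} (hf : RZ P (xt X) (zt X) f F)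
    (hfk : ∀ k : Fin (v + 2), RZ P (xt X) (zt X) (fk k) (G k)) (a : ℕ) :
    RZ P (xt X) (zt X) (ldiv0 P v f fk a) ((Shape.v0 a).ldiv X F G) := by
  unfold ldiv0 Shape.ldiv
  exact RZ.sum fun k => RZ.add (RZ.mul (hfk k) (rz_vz hX a k)) (RZ.mul hf (rz_dvz hX a k k))

include hX in
theorem rz_ldiv1 {f : Z} {fk : ℕ → Z} {F : ℝ} {G : Fin (v + 2) → ℝ} (hf : RZ P (xt X) (zt X) f F)
    (hfk : ∀ k : Fin (v + 2), RZ P (xt X) (zt X) (fk k) (G k)) (A : Mt) :
    RZ P (xt X) (zt X) (ldiv1 P v f fk A) ((mdbl A : ℝ) * (Shape.p1 A).ldiv X F G) := by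
  refine (RZ.add (RZ.sum fun k => RZ.mul (hfk k) (rz_TAz hX k A))
    (RZ.mul hf (RZ.add (RZ.sum fun k => rz_TdAz hX k k A)
      (RZ.smul (Int.ofNat (v + 2)) (RZ.mul rz_e2z (rz_SAz hX A)))))).congr ?_
  unfold Shape.ldiv
  simp only
  rw [← Finset.mul_sum]
  have e1 : ∑ k, G k * ((mdbl A : ℝ) * A.TA X k) = (mdbl A : ℝ) * ∑ k, G k * A.TA X k := by
    rw [Finset.mul_sum]
    refine Finset.sum_congr rfl fun k _ => ?_
    ring
  rw [e1]
  have e2 : ((Int.ofNat (v + 2) : ℤ) : ℝ) = ((v + 2 : ℕ) : ℝ) := by simp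
  rw [e2]
  ring

include hX in
theorem rz_mrow (k : Fin (v + 2)) {q : ℕ → Z} {Q : Fin (v + 2) → ℝ}
    (hq : ∀ l : Fin (v + 2), RZ P (xt X) (zt X) (q l) (Q l)) (A : Mt) :
    RZ P (xt X) (zt X) (mrow P v k q A) ((mdbl A : ℝ) * ∑ l, A.lv X k l * Q l) := by
  cases A with
  | pow a =>
    have e : ((mdbl (Mt.pow a) : ℤ) : ℝ) = 1 := by simp [mdbl]
    rw [e, one_mul]
    refine (rz_lmul hX k a (hq k)).congr ?_
    unfold Mt.lv
    simp
  | sym a b =>
    refine (RZ.sum fun l => RZ.mul (rz_mlv hX k l (Mt.sym a b)) (hq l)).congr ?_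
    rw [Finset.mul_sum]
    refine Finset.sum_congr rfl fun l _ => ?_
    ring

include hX in
theorem rz_ldiv2 {f : Z} {fk : ℕ → Z} {F : ℝ} {G : Fin (v + 2) → ℝ} (hf : RZ P (xt X) (zt X) f F)
    (hfk : ∀ k : Fin (v + 2), RZ P (xt X) (zt X) (fk k) (G k)) (A B : Mt) :
    RZ P (xt X) (zt X) (ldiv2 P v f fk A B)
      ((mdbl A : ℝ) * (mdbl B : ℝ) * (Shape.h1 A B).ldiv X F G) := by
  refine (RZ.add
    (RZ.sum fun k => RZ.mul (hfk k) (RZ.add
      (rz_mrow hX k (fun l => rz_TAz hX l A) B)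
      (RZ.smul (-1) (rz_mrow hX k (fun l => rz_TAz hX l B) A))))
    (RZ.mul hf (RZ.add
      (RZ.sum fun k => RZ.add
        (RZ.add (RZ.sum fun l => RZ.mul (rz_mld hX k k l B) (rz_TAz hX l A))
          (rz_mrow hX k (fun l => rz_TdAz hX l k A) B))
        (RZ.smul (-1) (RZ.add (RZ.sum fun l => RZ.mul (rz_mld hX k k l A) (rz_TAz hX l B))
          (rz_mrow hX k (fun l => rz_TdAz hX l k B) A))))
      (RZ.mul rz_e2z (RZ.add (RZ.mul (rz_trz hX B) (rz_SAz hX A))
        (RZ.smul (-1) (RZ.mul (rz_trz hX A) (rz_SAz hX B)))))))).congr ?_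
  unfold Shape.ldiv
  simp only
  set α : ℝ := (mdbl A : ℝ)
  set β : ℝ := (mdbl B : ℝ)
  have e1 : ∀ k, (β * ∑ l, B.lv X k l * (α * A.TA X l) +
      ((-1 : ℤ) : ℝ) * (α * ∑ l, A.lv X k l * (β * B.TA X l))) =
      α * β * ∑ l, (B.lv X k l * A.TA X l - A.lv X k l * B.TA X l) := by
    intro k
    rw [Finset.sum_sub_distrib]
    have h1 : ∑ l, B.lv X k l * (α * A.TA X l) = α * ∑ l, B.lv X k l * A.TA X l := by
      rw [Finset.mul_sum]
      exact Finset.sum_congr rfl fun l _ => by ring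
    have h2 : ∑ l, A.lv X k l * (β * B.TA X l) = β * ∑ l, A.lv X k l * B.TA X l := by
      rw [Finset.mul_sum]
      exact Finset.sum_congr rfl fun l _ => by ring
    rw [h1, h2]
    push_cast
    ring
  have e2 : ∀ k, ((∑ l, β * B.ld X k k l * (α * A.TA X l)) +
        β * ∑ l, B.lv X k l * (α * A.TdA X l k)) +
      ((-1 : ℤ) : ℝ) * ((∑ l, α * A.ld X k k l * (β * B.TA X l)) +
        α * ∑ l, A.lv X k l * (β * B.TdA X l k)) =
      α * β * ∑ l, (B.ld X k k l * A.TA X l + B.lv X k l * A.TdA X l k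
          - A.ld X k k l * B.TA X l - A.lv X k l * B.TdA X l k) := by
    intro k
    rw [Finset.sum_sub_distrib, Finset.sum_sub_distrib, Finset.sum_add_distrib]
    have h1 : ∑ l, β * B.ld X k k l * (α * A.TA X l) = α * β * ∑ l, B.ld X k k l * A.TA X l := by
      rw [Finset.mul_sum]
      exact Finset.sum_congr rfl fun l _ => by ring
    have h2 : ∑ l, α * A.ld X k k l * (β * B.TA X l) = α * β * ∑ l, A.ld X k k l * B.TA X l := by
      rw [Finset.mul_sum]
      exact Finset.sum_congr rfl fun l _ => by ring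
    have h3 : ∑ l, B.lv X k l * (α * A.TdA X l k) = α * ∑ l, B.lv X k l * A.TdA X l k := by
      rw [Finset.mul_sum]
      exact Finset.sum_congr rfl fun l _ => by ring
    have h4 : ∑ l, A.lv X k l * (β * B.TdA X l k) = β * ∑ l, A.lv X k l * B.TdA X l k := by
      rw [Finset.mul_sum]
      exact Finset.sum_congr rfl fun l _ => by ring
    rw [h1, h2, h3, h4]
    push_cast
    ring
  rw [Finset.sum_congr rfl fun k _ => congrArg (G k * ·) (e1 k),
    Finset.sum_congr rfl fun k _ => e2 k, ← Finset.mul_sum]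
  have e3 : ∑ k, G k * (α * β * ∑ l, (B.lv X k l * A.TA X l - A.lv X k l * B.TA X l)) =
      α * β * ∑ k, G k * ∑ l, (B.lv X k l * A.TA X l - A.lv X k l * B.TA X l) := by
    rw [Finset.mul_sum]
    exact Finset.sum_congr rfl fun l _ => by ring
  rw [e3]
  push_cast
  ring

include hX in
theorem rz_fkz (vd exn : ℤ) (L : List Fac) (k : Fin (v + 2)) :
    RZ P (xt X) (zt X) (fkz P v vd exn L k)
      ((vd : ℝ) * facsLd X k L + (exn : ℝ) * (facsLv X L * X.w k)) :=
  RZ.add (RZ.smul vd (rz_facsLd hX k L)) (RZ.smul exn (RZ.mul (rz_facsLv hX L) (rz_wz hX k)))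

theorem ldiv_scale (X : LS ℝ (v + 2)) (s : Shape) (c F : ℝ) (G : Fin (v + 2) → ℝ) :
    s.ldiv X (c * F) (fun k => c * G k) = c * s.ldiv X F G := by
  have e : ∀ H : Fin (v + 2) → ℝ, ∑ k, c * G k * H k = c * ∑ k, G k * H k := by
    intro H
    rw [Finset.mul_sum]
    exact Finset.sum_congr rfl fun k _ => by ring
  cases s with
  | v0 a =>
    unfold Shape.ldiv
    simp only
    rw [Finset.mul_sum]
    exact Finset.sum_congr rfl fun k _ => by ring
  | p1 A =>
    unfold Shape.ldiv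
    simp only
    rw [e]
    ring
  | h1 A B =>
    unfold Shape.ldiv
    simp only
    rw [e]
    ring
  | h2 a b c' =>
    unfold Shape.ldiv
    simp only
    rw [e]
    ring

include hX in
/-- the packed shape divergence -/
theorem rz_shapeZ {ϖ : ℚ} {vd exn : ℤ} (g : Term) (hg : ∀ a b c, g.shape ≠ Shape.h2 a b c)
    (hex : (exn : ℚ) = vd * g.ex ϖ) :
    RZ P (xt X) (zt X) (shapeZ P v vd exn g.facs g.shape) ((vd : ℝ) * (sdbl g.shape : ℝ) *
      g.shape.ldiv X (facsLv X g.facs)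
        (fun k => facsLd X k g.facs + algebraMap ℚ ℝ (g.ex ϖ) * facsLv X g.facs * X.w k)) := by
  have hf := RZ.smul vd (rz_facsLv (P := P) hX g.facs)
  have hfk := rz_fkz (P := P) hX vd exn g.facs
  have hex' : (exn : ℝ) = vd * algebraMap ℚ ℝ (g.ex ϖ) := by
    rw [eq_ratCast]
    exact_mod_cast congrArg (fun q : ℚ => (q : ℝ)) hex
  have e : (fun k : Fin (v + 2) => (vd : ℝ) * facsLd X k g.facs +
      (exn : ℝ) * (facsLv X g.facs * X.w k)) =
      fun k => (vd : ℝ) * (facsLd X k g.facs +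
        algebraMap ℚ ℝ (g.ex ϖ) * facsLv X g.facs * X.w k) := by
    funext k
    rw [hex']
    ring
  have hfk' : ∀ k : Fin (v + 2), RZ P (xt X) (zt X) (fkz P v vd exn g.facs k) ((fun k => (vd : ℝ) *
      (facsLd X k g.facs + algebraMap ℚ ℝ (g.ex ϖ) * facsLv X g.facs * X.w k)) k) := by
    intro k
    rw [← e]
    exact hfk k
  rcases hs : g.shape with a | A | ⟨A, B⟩ | ⟨a, b, c⟩
  · refine (rz_ldiv0 hX hf hfk' a).congr ?_
    rw [ldiv_scale]
    simp [sdbl]
  · refine (rz_ldiv1 hX hf hfk' A).congr ?_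
    rw [ldiv_scale]
    have : (sdbl (Shape.p1 A) : ℤ) = mdbl A := rfl
    rw [this]
    ring
  · refine (rz_ldiv2 hX hf hfk' A B).congr ?_
    rw [ldiv_scale]
    have : (sdbl (Shape.h1 A B) : ℤ) = mdbl A * mdbl B := rfl
    rw [this]
    push_cast
    ring
  · exact absurd hs (hg a b c)

end OPC.Psd
end
end
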