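import Pool.Agent.Lib.MP_9059b8_an.Defs2

/-!
# R01: the `b0`-class: reduction of `certPoly` to blocks

Terms `v0 a`, `p1 (pow a)`, `h1 (pow a) (pow b)` with factors `c3, c4, b0` only. For these the
polynomial `certPoly` splits: with `y^o = (T_ojj)_j` it is
`∑_o (Q_o(y^o) + p_o L_o(y^o) + p_o² c_o) + C0 - eps u A + eps² E + ∑_{distinct} T_kij² K_kij`.
-/

namespace OPC

variable {R : Type*} [CommRing R] [Algebra ℚ R] {m : ℕ}

/-- allowed factors -/
def Fac.k0 : Fac → Prop
  | .c3 => True | .c4 => True | .b0 => True | _ => False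

/-- allowed shapes -/
def Shape.k0 : Shape → Prop
  | .v0 _ => True
  | .p1 (.pow _) => True
  | .h1 (.pow _) (.pow _) => True
  | _ => False

def Term.k0 (g : Term) : Prop := g.shape.k0 ∧ (∀ f ∈ g.facs, f.k0) ∧ g.ge = 0

def Fac.kv (l : Fin m → R) (b : R) : Fac → R
  | .c3 => ∑ i, l i ^ 3 | .c4 => ∑ i, l i ^ 4 | .b0 => b | _ => 0

def Fac.ki (l : Fin m → R) (i : Fin m) : Fac → R
  | .c3 => 3 * l i ^ 2 | .c4 => 4 * l i ^ 3 | _ => 0

def Fac.kb : Fac → R
  | .b0 => 1 | _ => 0

def facsKv (l : Fin m → R) (b : R) : List Fac → R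
  | [] => 1
  | f :: L => f.kv l b * facsKv l b L

def facsKi (l : Fin m → R) (b : R) (i : Fin m) : List Fac → R
  | [] => 0
  | f :: L => f.ki l i * facsKv l b L + f.kv l b * facsKi l b i L

def facsKb (l : Fin m → R) (b : R) : List Fac → R
  | [] => 0
  | f :: L => f.kb * facsKv l b L + f.kv l b * facsKb l b L

/-- the three scalar functions of a term -/
def Term.kf (l : Fin m → R) (b : R) (g : Term) : R := algebraMap ℚ R g.coef * facsKv l b g.facs

def Term.kfi (ϖ : ℚ) (l : Fin m → R) (b : R) (g : Term) (i : Fin m) : R :=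
  algebraMap ℚ R g.coef * (facsKi l b i g.facs + algebraMap ℚ R (g.ex ϖ) * facsKv l b g.facs * l i)

def Term.kfb (l : Fin m → R) (b : R) (g : Term) : R := algebraMap ℚ R g.coef * facsKb l b g.facs

/-- `∑ l_i^a y_i` -/
def dotp (l : Fin m → R) (a : ℕ) (y : Fin m → R) : R := ∑ i, l i ^ a * y i

/-- `∑_k h_a(l_k, l_o) y_k` -/
def hsum (l : Fin m → R) (a : ℕ) (o : Fin m) (y : Fin m → R) : R := ∑ k, hh a (l k) (l o) * y k

/-- diagonal part for the weight `l^b` and `A = S^a` -/
def dgs (l : Fin m → R) (a b : ℕ) (o : Fin m) (y : Fin m → R) : R :=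
  ∑ j, (l o ^ b * hh a (l j) (l j) + 2 * l j ^ b * hh a (l j) (l o)) * y j ^ 2
    - 2 * l o ^ b * hh a (l o) (l o) * y o ^ 2

def Shape.kQ (l : Fin m → R) (f : R) (fi : Fin m → R) (o : Fin m) (y : Fin m → R) : Shape → R
  | .p1 (.pow a) => (∑ i, fi i * y i) * dotp l a y + f * dgs l a 0 o y
  | .h1 (.pow a) (.pow b) => (∑ i, fi i * y i) * (l o ^ b * dotp l a y - l o ^ a * dotp l b y)
      + f * (hsum l b o y * dotp l a y - hsum l a o y * dotp l b y + dgs l a b o y - dgs l b a o y)
  | _ => 0

def Shape.kL (l : Fin m → R) (f : R) (fi : Fin m → R) (fb : R) (o : Fin m) (y : Fin m → R) :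
    Shape → R
  | .v0 a => l o ^ a * (∑ i, fi i * y i) + f * hsum l a o y
  | .p1 (.pow a) => 2 * fb * l o * dotp l a y
  | .h1 (.pow a) (.pow b) => 2 * fb * l o * (l o ^ b * dotp l a y - l o ^ a * dotp l b y)
  | _ => 0

def Shape.kc (l : Fin m → R) (fb : R) (o : Fin m) : Shape → R
  | .v0 a => 2 * fb * l o ^ (a + 1)
  | _ => 0

def Shape.kC (l : Fin m → R) (f : R) : Shape → R
  | .v0 a => f * ∑ k, l k ^ (a + 1)
  | _ => 0

def Shape.kA (l : Fin m → R) (f : R) : Shape → R
  | .v0 a => f * ∑ k, l k ^ a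
  | _ => 0

def Shape.kE (l : Fin m → R) (f : R) : Shape → R
  | .p1 (.pow a) => f * (m * ∑ k, l k ^ (a + 1))
  | .h1 (.pow a) (.pow b) => f * ((∑ k, l k ^ b) * (∑ k, l k ^ (a + 1))
      - (∑ k, l k ^ a) * (∑ k, l k ^ (b + 1)))
  | _ => 0

/-- coefficient of `T_kij²`, `k, i, j` distinct -/
def Shape.kK (l : Fin m → R) (f : R) (k i j : Fin m) : Shape → R
  | .p1 (.pow a) => f * hh a (l i) (l j)
  | .h1 (.pow a) (.pow b) => f * (l k ^ b * hh a (l i) (l j) - l k ^ a * hh b (l i) (l j))
  | _ => 0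

/-- indicator of distinct triples -/
def dist3 (k i j : Fin m) : Prop := k ≠ i ∧ i ≠ j ∧ k ≠ j

instance (k i j : Fin m) : Decidable (dist3 k i j) := by unfold dist3; infer_instance

omit [Algebra ℚ R] in
/-- `∑_{k,i,j} T_kij² c(k,i,j)` splits into blocks. -/
theorem sum_T_sq (T : Fin m → Fin m → Fin m → R) (T12 : ∀ i j k, T i j k = T j i k)
    (T23 : ∀ i j k, T i j k = T i k j) (c : Fin m → Fin m → Fin m → R)
    (hc : ∀ k i j, c k i j = c k j i) :
    ∑ k, ∑ i, ∑ j, T k i j ^ 2 * c k i j
      = ∑ o, (∑ j, (c o j j + 2 * c j j o) * T o j j ^ 2 - 2 * c o o o * T o o o ^ 2)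
        + ∑ k, ∑ i, ∑ j, (if dist3 k i j then T k i j ^ 2 * c k i j else 0) := by
  have key : ∀ k i j : Fin m, T k i j ^ 2 * c k i j
      = (if i = j then T k i j ^ 2 * c k i j else 0) + (if k = i then T k i j ^ 2 * c k i j else 0)
        + (if k = j then T k i j ^ 2 * c k i j else 0)
        - 2 * (if k = i then (if i = j then T k i j ^ 2 * c k i j else 0) else 0)
        + (if dist3 k i j then T k i j ^ 2 * c k i j else 0) := by
    intro k i j
    unfold dist3
    by_cases h1 : i = j
    · subst h1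
      by_cases h2 : k = i
      · subst h2
        simp only [if_true, ne_eq, not_true_eq_false, false_and, and_false, if_false]
        ring
      · simp only [if_true, h2, ne_eq, not_true_eq_false, false_and, and_false, if_false]
        ring
    · by_cases h2 : k = i
      · subst h2
        simp only [if_true, h1, ne_eq, not_true_eq_false, false_and, if_false]
        ring
      · by_cases h3 : k = j
        · subst h3
          simp only [if_true, h1, h2, ne_eq, not_true_eq_false, not_false_eq_true, and_false,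
            if_false]
          ring
        · simp only [h1, h2, h3, ne_eq, not_false_eq_true, and_self, if_true, if_false]
          ring
  have e1 : ∑ k, ∑ i, ∑ j, (if i = j then T k i j ^ 2 * c k i j else 0)
      = ∑ o, ∑ j, T o j j ^ 2 * c o j j := by
    simp only [Finset.sum_ite_eq, Finset.mem_univ, if_true]
  have e2 : ∑ k, ∑ i, ∑ j, (if k = i then T k i j ^ 2 * c k i j else 0)
      = ∑ o, ∑ j, T o j j ^ 2 * c j j o := by
    have : ∀ k : Fin m, ∑ i, ∑ j, (if k = i then T k i j ^ 2 * c k i j else 0)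
        = ∑ j, T k k j ^ 2 * c k k j := by
      intro k
      rw [Finset.sum_eq_single k]
      · simp
      · intro i _ hi
        apply Finset.sum_eq_zero
        intro j _
        rw [if_neg (Ne.symm hi)]
      · intro h; exact absurd (Finset.mem_univ _) h
    rw [Finset.sum_congr rfl fun k _ => this k, Finset.sum_comm]
    refine Finset.sum_congr rfl fun o _ => Finset.sum_congr rfl fun j _ => ?_
    rw [T23 j j o, T12 j o j]
  have e3 : ∑ k, ∑ i, ∑ j, (if k = j then T k i j ^ 2 * c k i j else 0)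
      = ∑ o, ∑ j, T o j j ^ 2 * c j j o := by
    simp only [Finset.sum_ite_eq, Finset.mem_univ, if_true]
    rw [Finset.sum_comm]
    refine Finset.sum_congr rfl fun o _ => Finset.sum_congr rfl fun j _ => ?_
    rw [T12 j o j, hc j o j]
  have e4 : ∑ k, ∑ i, ∑ j, 2 * (if k = i then (if i = j then T k i j ^ 2 * c k i j else 0) else 0)
      = ∑ o, 2 * c o o o * T o o o ^ 2 := by
    refine Finset.sum_congr rfl fun k _ => ?_
    rw [Finset.sum_eq_single k]
    · simp only [if_true]
      rw [Finset.sum_eq_single k]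
      · simp only [if_true]; ring
      · intro j _ hj
        rw [if_neg (Ne.symm hj), mul_zero]
      · intro h; exact absurd (Finset.mem_univ _) h
    · intro i _ hi
      apply Finset.sum_eq_zero
      intro j _
      rw [if_neg (Ne.symm hi), mul_zero]
    · intro h; exact absurd (Finset.mem_univ _) h
  rw [Finset.sum_congr rfl fun k _ => Finset.sum_congr rfl fun i _ =>
    Finset.sum_congr rfl fun j _ => key k i j]
  simp only [Finset.sum_add_distrib, Finset.sum_sub_distrib]
  rw [e1, e2, e3, e4]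
  have e5 : ∑ o : Fin m, ∑ j, (c o j j + 2 * c j j o) * T o j j ^ 2
      = ∑ o, ∑ j, T o j j ^ 2 * c o j j + ∑ o, ∑ j, T o j j ^ 2 * c j j o
        + ∑ o, ∑ j, T o j j ^ 2 * c j j o := by
    rw [← Finset.sum_add_distrib, ← Finset.sum_add_distrib]
    refine Finset.sum_congr rfl fun o _ => ?_
    rw [← Finset.sum_add_distrib, ← Finset.sum_add_distrib]
    refine Finset.sum_congr rfl fun j _ => ?_
    ring
  rw [e5]

end OPC
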