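import Pool.Agent.Lib.MP_9059b8_an.R01

/-! # R02: the block decomposition of the link divergence of a term of the `b0`-class -/

namespace OPC

variable {R : Type*} [CommRing R] [Algebra ℚ R] {m : ℕ}

/-- `b0 = |p|² + u²` -/
def LS.b0 (X : LS R m) : R := ∑ i, X.p i ^ 2 + X.u ^ 2

omit [Algebra ℚ R] in
theorem facsLv_k0 (X : LS R m) (L : List Fac) (h : ∀ f ∈ L, f.k0) :
    facsLv X L = facsKv X.l X.b0 L := by
  induction L with
  | nil => rfl
  | cons f L ih =>
    have h1 := h f List.mem_cons_self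
    have h2 := ih fun f' hf => h f' (List.mem_cons_of_mem _ hf)
    simp only [facsLv, facsKv, h2]
    cases f <;> simp_all [Fac.k0, Fac.lv, Fac.kv, LS.b0]

omit [Algebra ℚ R] in
theorem facsLd_k0 (X : LS R m) (k : Fin m) (L : List Fac) (h : ∀ f ∈ L, f.k0) :
    facsLd X k L = ∑ i, facsKi X.l X.b0 i L * X.T k i i
      + facsKb X.l X.b0 L * (2 * X.l k * X.p k) := by
  induction L with
  | nil => simp [facsLd, facsKi, facsKb]
  | cons f L ih =>
    have h1 := h f List.mem_cons_self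
    have hL := fun f' (hf : f' ∈ L) => h f' (List.mem_cons_of_mem _ hf)
    have h2 := ih hL
    have h3 := facsLv_k0 X L hL
    have h4 : f.lv X = f.kv X.l X.b0 := by
      cases f <;> simp_all [Fac.k0, Fac.lv, Fac.kv, LS.b0]
    have h5 : f.ld X k = ∑ i, f.ki X.l i * X.T k i i + f.kb * (2 * X.l k * X.p k) := by
      cases f
      · simp only [Fac.ld, Fac.ki, Fac.kb, zero_mul, add_zero, Finset.mul_sum]
        exact Finset.sum_congr rfl fun i _ => by ring
      · simp only [Fac.ld, Fac.ki, Fac.kb, zero_mul, add_zero, Finset.mul_sum]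
        exact Finset.sum_congr rfl fun i _ => by ring
      · simp [Fac.ld, Fac.ki, Fac.kb]
      all_goals exact absurd h1 (by simp [Fac.k0])
    simp only [facsLd, facsKi, facsKb, h2, h3, h4, h5, add_mul, Finset.sum_add_distrib]
    have e1 : ∑ i, f.ki X.l i * facsKv X.l X.b0 L * X.T k i i
        = (∑ i, f.ki X.l i * X.T k i i) * facsKv X.l X.b0 L := by
      rw [Finset.sum_mul]
      exact Finset.sum_congr rfl fun i _ => by ring
    have e2 : ∑ i, f.kv X.l X.b0 * facsKi X.l X.b0 i L * X.T k i i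
        = f.kv X.l X.b0 * ∑ i, facsKi X.l X.b0 i L * X.T k i i := by
      rw [Finset.mul_sum]
      exact Finset.sum_congr rfl fun i _ => by ring
    rw [e1, e2]
    ring

variable (X : LS R m) (T12 : ∀ i j k, X.T i j k = X.T j i k)
  (T23 : ∀ i j k, X.T i j k = X.T i k j)

omit [Algebra ℚ R] in
include T12 T23 in
/-- the shape `v0` -/
theorem ldiv_v0 (a : ℕ) (f : R) (fi : Fin m → R) (fb : R) (fk : Fin m → R)
    (hfk : ∀ k, fk k = ∑ i, fi i * X.T k i i + fb * (2 * X.l k * X.p k)) :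
    ∑ k, (fk k * X.v a k + f * X.dv a k k)
      = ∑ o, (X.p o * (X.l o ^ a * (∑ i, fi i * X.T o i i) + f * hsum X.l a o (fun j => X.T o j j))
          + X.p o ^ 2 * (2 * fb * X.l o ^ (a + 1)))
        + f * ∑ k, X.l k ^ (a + 1) - X.eps * X.u * (f * ∑ k, X.l k ^ a) := by
  have e1 : ∑ k, f * X.dv a k k = ∑ o, X.p o * (f * hsum X.l a o (fun j => X.T o j j))
      + f * ∑ k, X.l k ^ (a + 1) - X.eps * X.u * (f * ∑ k, X.l k ^ a) := by
    have e2 : ∀ k, f * X.dv a k k = ∑ j, f * (hh a (X.l k) (X.l j) * X.T k k j * X.p j)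
        + (f * X.l k ^ (a + 1) - X.eps * X.u * (f * X.l k ^ a)) := by
      intro k
      simp only [LS.dv, if_true, mul_add, Finset.mul_sum]
      ring
    rw [Finset.sum_congr rfl fun k _ => e2 k, Finset.sum_add_distrib, Finset.sum_sub_distrib,
      Finset.sum_comm, ← Finset.mul_sum, ← Finset.mul_sum, ← Finset.mul_sum]
    have e3 : ∑ y, ∑ x, f * (hh a (X.l x) (X.l y) * X.T x x y * X.p y)
        = ∑ o, X.p o * (f * hsum X.l a o (fun j => X.T o j j)) := by
      refine Finset.sum_congr rfl fun o _ => ?_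
      simp only [hsum, Finset.mul_sum]
      refine Finset.sum_congr rfl fun x _ => ?_
      rw [show X.T x x o = X.T o x x by rw [T23 x x o, T12 x o x]]
      ring
    rw [e3]
    ring
  rw [Finset.sum_add_distrib, e1]
  have e4 : ∑ k, fk k * X.v a k = ∑ o, (X.p o * (X.l o ^ a * ∑ i, fi i * X.T o i i)
      + X.p o ^ 2 * (2 * fb * X.l o ^ (a + 1))) := by
    refine Finset.sum_congr rfl fun o _ => ?_
    rw [hfk]
    unfold LS.v
    ring
  rw [e4]
  simp only [Finset.sum_add_distrib, mul_add]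
  ring

theorem TA_pow (a : ℕ) (o : Fin m) :
    (Mt.pow a).TA X o = dotp X.l a (fun j => X.T o j j) := by
  unfold Mt.TA dotp
  refine Finset.sum_congr rfl fun i _ => ?_
  simp only [Mt.lv, mul_ite, mul_zero, Finset.sum_ite_eq, Finset.mem_univ, if_true]
  ring

theorem SA_pow (a : ℕ) : (Mt.pow a).SA X = ∑ k, X.l k ^ (a + 1) := by
  unfold Mt.SA
  refine Finset.sum_congr rfl fun i _ => ?_
  simp only [Mt.lv, if_true]
  ring

theorem tr_pow (a : ℕ) : (Mt.pow a).tr X = ∑ k, X.l k ^ a := by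
  unfold Mt.tr
  refine Finset.sum_congr rfl fun i _ => ?_
  simp only [Mt.lv, if_true]

omit [Algebra ℚ R] in
theorem hh_comm (a : ℕ) (x y : R) : hh a x y = hh a y x := by
  unfold hh
  rw [← Finset.sum_range_reflect]
  refine Finset.sum_congr rfl fun c hc => ?_
  have := Finset.mem_range.1 hc
  rw [show a - 1 - (a - 1 - c) = c by omega]
  ring

omit [Algebra ℚ R] in
include T12 T23 in
/-- weighted sums of squares -/
theorem sum_wt_sq (a b : ℕ) :
    ∑ k, ∑ i, ∑ j, X.T k i j ^ 2 * (X.l k ^ b * hh a (X.l i) (X.l j))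
      = ∑ o, dgs X.l a b o (fun j => X.T o j j)
        + ∑ k, ∑ i, ∑ j, (if dist3 k i j then
            X.T k i j ^ 2 * (X.l k ^ b * hh a (X.l i) (X.l j)) else 0) := by
  rw [sum_T_sq X.T T12 T23 (fun k i j => X.l k ^ b * hh a (X.l i) (X.l j))
    (fun k i j => by rw [hh_comm])]
  congr 1
  refine Finset.sum_congr rfl fun o _ => ?_
  unfold dgs
  congr 1
  · refine Finset.sum_congr rfl fun j _ => ?_
    ring
  · ring

include T12 T23 in
/-- the shape `p1 (pow a)` -/
theorem ldiv_p1 (a : ℕ) (f : R) (fi : Fin m → R) (fb : R) (fk : Fin m → R)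
    (hfk : ∀ k, fk k = ∑ i, fi i * X.T k i i + fb * (2 * X.l k * X.p k)) :
    ∑ k, fk k * (Mt.pow a).TA X k
        + f * (∑ k, (Mt.pow a).TdA X k k + m * X.eps ^ 2 * (Mt.pow a).SA X)
      = ∑ o, (((∑ i, fi i * X.T o i i) * dotp X.l a (fun j => X.T o j j)
            + f * dgs X.l a 0 o (fun j => X.T o j j))
          + X.p o * (2 * fb * X.l o * dotp X.l a (fun j => X.T o j j)))
        + X.eps ^ 2 * (f * (m * ∑ k, X.l k ^ (a + 1)))
        + ∑ k, ∑ i, ∑ j, (if dist3 k i j then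
            X.T k i j ^ 2 * (f * hh a (X.l i) (X.l j)) else 0) := by
  have e1 : ∑ k, (Mt.pow a).TdA X k k
      = ∑ k, ∑ i, ∑ j, X.T k i j ^ 2 * (X.l k ^ 0 * hh a (X.l i) (X.l j)) := by
    refine Finset.sum_congr rfl fun k _ => ?_
    unfold Mt.TdA
    refine Finset.sum_congr rfl fun i _ => Finset.sum_congr rfl fun j _ => ?_
    simp only [Mt.ld]
    ring
  rw [e1, sum_wt_sq X T12 T23 a 0, SA_pow]
  have e2 : ∑ k, ∑ i, ∑ j, (if dist3 k i j then
      X.T k i j ^ 2 * (f * hh a (X.l i) (X.l j)) else 0)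
      = f * ∑ k, ∑ i, ∑ j, (if dist3 k i j then
            X.T k i j ^ 2 * (X.l k ^ 0 * hh a (X.l i) (X.l j)) else 0) := by
    simp only [Finset.mul_sum, mul_ite, mul_zero]
    refine Finset.sum_congr rfl fun k _ => Finset.sum_congr rfl fun i _ =>
      Finset.sum_congr rfl fun j _ => ?_
    split_ifs
    · ring
    · rfl
  rw [e2]
  have e3 : ∑ k, fk k * (Mt.pow a).TA X k
      = ∑ o, ((∑ i, fi i * X.T o i i) * dotp X.l a (fun j => X.T o j j)
          + X.p o * (2 * fb * X.l o * dotp X.l a (fun j => X.T o j j))) := by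
    refine Finset.sum_congr rfl fun k _ => ?_
    rw [hfk, TA_pow]
    ring
  rw [e3]
  simp only [Finset.sum_add_distrib, ← Finset.mul_sum]
  ring

include T12 T23 in
/-- the shape `h1 (pow a) (pow b)` -/
theorem ldiv_h1 (a b : ℕ) (f : R) (fi : Fin m → R) (fb : R) (fk : Fin m → R)
    (hfk : ∀ k, fk k = ∑ i, fi i * X.T k i i + fb * (2 * X.l k * X.p k)) :
    (Shape.h1 (.pow a) (.pow b)).ldiv X f fk
      = ∑ o, (((∑ i, fi i * X.T o i i) * (X.l o ^ b * dotp X.l a (fun j => X.T o j j)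
              - X.l o ^ a * dotp X.l b (fun j => X.T o j j))
            + f * (hsum X.l b o (fun j => X.T o j j) * dotp X.l a (fun j => X.T o j j)
              - hsum X.l a o (fun j => X.T o j j) * dotp X.l b (fun j => X.T o j j)
              + dgs X.l a b o (fun j => X.T o j j) - dgs X.l b a o (fun j => X.T o j j)))
          + X.p o * (2 * fb * X.l o * (X.l o ^ b * dotp X.l a (fun j => X.T o j j)
              - X.l o ^ a * dotp X.l b (fun j => X.T o j j))))
        + X.eps ^ 2 * (f * ((∑ k, X.l k ^ b) * (∑ k, X.l k ^ (a + 1))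
            - (∑ k, X.l k ^ a) * (∑ k, X.l k ^ (b + 1))))
        + ∑ k, ∑ i, ∑ j, (if dist3 k i j then
            X.T k i j ^ 2 * (f * (X.l k ^ b * hh a (X.l i) (X.l j)
              - X.l k ^ a * hh b (X.l i) (X.l j))) else 0) := by
  have lv : ∀ (c : ℕ) (k : Fin m) (g : Fin m → R),
      ∑ l, (Mt.pow c).lv X k l * g l = X.l k ^ c * g k := by
    intro c k g
    simp only [Mt.lv, ite_mul, zero_mul, Finset.sum_ite_eq, Finset.mem_univ, if_true]
  have e0 : ∀ k, ∑ l, ((Mt.pow b).lv X k l * (Mt.pow a).TA X l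
      - (Mt.pow a).lv X k l * (Mt.pow b).TA X l)
      = X.l k ^ b * dotp X.l a (fun j => X.T k j j) - X.l k ^ a * dotp X.l b (fun j => X.T k j j) := by
    intro k
    rw [Finset.sum_sub_distrib, lv, lv, TA_pow, TA_pow]
  -- second order parts
  have e1 : ∀ c d : ℕ, ∑ k, ∑ l, (Mt.pow d).lv X k l * (Mt.pow c).TdA X l k
      = ∑ k, ∑ i, ∑ j, X.T k i j ^ 2 * (X.l k ^ d * hh c (X.l i) (X.l j)) := by
    intro c d
    refine Finset.sum_congr rfl fun k _ => ?_
    rw [lv]
    unfold Mt.TdA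
    rw [Finset.mul_sum]
    refine Finset.sum_congr rfl fun i _ => ?_
    rw [Finset.mul_sum]
    refine Finset.sum_congr rfl fun j _ => ?_
    simp only [Mt.ld]
    ring
  have e2 : ∀ c d : ℕ, ∑ k, ∑ l, (Mt.pow d).ld X k k l * (Mt.pow c).TA X l
      = ∑ o, hsum X.l d o (fun j => X.T o j j) * dotp X.l c (fun j => X.T o j j) := by
    intro c d
    rw [Finset.sum_comm]
    refine Finset.sum_congr rfl fun o _ => ?_
    rw [← Finset.sum_mul, TA_pow]
    congr 1
    unfold hsum
    refine Finset.sum_congr rfl fun k _ => ?_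
    simp only [Mt.ld]
    rw [show X.T k k o = X.T o k k by rw [T23 k k o, T12 k o k]]
  have e3 : ∑ k, ∑ l, ((Mt.pow b).ld X k k l * (Mt.pow a).TA X l
        + (Mt.pow b).lv X k l * (Mt.pow a).TdA X l k
        - (Mt.pow a).ld X k k l * (Mt.pow b).TA X l - (Mt.pow a).lv X k l * (Mt.pow b).TdA X l k)
      = ∑ o, hsum X.l b o (fun j => X.T o j j) * dotp X.l a (fun j => X.T o j j)
        + ∑ k, ∑ i, ∑ j, X.T k i j ^ 2 * (X.l k ^ b * hh a (X.l i) (X.l j))
        - ∑ o, hsum X.l a o (fun j => X.T o j j) * dotp X.l b (fun j => X.T o j j)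
        - ∑ k, ∑ i, ∑ j, X.T k i j ^ 2 * (X.l k ^ a * hh b (X.l i) (X.l j)) := by
    rw [← e1 a b, ← e1 b a, ← e2 a b, ← e2 b a]
    simp only [Finset.sum_add_distrib, Finset.sum_sub_distrib]
  simp only [Shape.ldiv]
  rw [e3, sum_wt_sq X T12 T23 a b, sum_wt_sq X T12 T23 b a, tr_pow, tr_pow, SA_pow, SA_pow]
  simp only [e0, hfk]
  have e4 : ∑ k, ∑ i, ∑ j, (if dist3 k i j then
      X.T k i j ^ 2 * (f * (X.l k ^ b * hh a (X.l i) (X.l j)
        - X.l k ^ a * hh b (X.l i) (X.l j))) else 0)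
      = f * (∑ k, ∑ i, ∑ j, (if dist3 k i j then
            X.T k i j ^ 2 * (X.l k ^ b * hh a (X.l i) (X.l j)) else 0)
        - ∑ k, ∑ i, ∑ j, (if dist3 k i j then
            X.T k i j ^ 2 * (X.l k ^ a * hh b (X.l i) (X.l j)) else 0)) := by
    simp only [← Finset.sum_sub_distrib, Finset.mul_sum]
    refine Finset.sum_congr rfl fun k _ => Finset.sum_congr rfl fun i _ =>
      Finset.sum_congr rfl fun j _ => ?_
    split_ifs
    · ring
    · ring
  rw [e4]
  have e6 : ∑ k, (∑ i, fi i * X.T k i i + fb * (2 * X.l k * X.p k)) *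
        (X.l k ^ b * dotp X.l a (fun j => X.T k j j) - X.l k ^ a * dotp X.l b (fun j => X.T k j j))
      = ∑ o, (∑ i, fi i * X.T o i i) * (X.l o ^ b * dotp X.l a (fun j => X.T o j j)
              - X.l o ^ a * dotp X.l b (fun j => X.T o j j))
        + ∑ o, X.p o * (2 * fb * X.l o * (X.l o ^ b * dotp X.l a (fun j => X.T o j j)
              - X.l o ^ a * dotp X.l b (fun j => X.T o j j))) := by
    rw [← Finset.sum_add_distrib]
    exact Finset.sum_congr rfl fun o _ => by ring
  have e7 : ∑ o, f * (hsum X.l b o (fun j => X.T o j j) * dotp X.l a (fun j => X.T o j j)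
              - hsum X.l a o (fun j => X.T o j j) * dotp X.l b (fun j => X.T o j j)
              + dgs X.l a b o (fun j => X.T o j j) - dgs X.l b a o (fun j => X.T o j j))
      = f * (∑ o, hsum X.l b o (fun j => X.T o j j) * dotp X.l a (fun j => X.T o j j)
        - ∑ o, hsum X.l a o (fun j => X.T o j j) * dotp X.l b (fun j => X.T o j j)
        + ∑ o, dgs X.l a b o (fun j => X.T o j j) - ∑ o, dgs X.l b a o (fun j => X.T o j j)) := by
    rw [← Finset.sum_sub_distrib, ← Finset.sum_add_distrib, ← Finset.sum_sub_distrib,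
      Finset.mul_sum]
  rw [e6, Finset.sum_add_distrib, Finset.sum_add_distrib, e7]
  ring

end OPC
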