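import Pool.Agent.Lib.MP_9059b8_an.R02
import Pool.Agent.Lib.MP_9059b8_an.P11

/-! # R03: the `b0`-class: sums over the list of terms, nonnegativity from block inequalities -/

namespace OPC

section Poly

variable {R : Type*} [CommRing R] [Algebra ℚ R] {m : ℕ}

def KQ (ϖ : ℚ) (L : List Term) (l : Fin m → R) (b : R) (o : Fin m) (y : Fin m → R) : R :=
  (L.map fun g => g.shape.kQ l (g.kf l b) (g.kfi ϖ l b) o y).sum

def KL (ϖ : ℚ) (L : List Term) (l : Fin m → R) (b : R) (o : Fin m) (y : Fin m → R) : R :=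
  (L.map fun g => g.shape.kL l (g.kf l b) (g.kfi ϖ l b) (g.kfb l b) o y).sum

def Kc (L : List Term) (l : Fin m → R) (b : R) (o : Fin m) : R :=
  (L.map fun g => g.shape.kc l (g.kfb l b) o).sum

def KC (L : List Term) (l : Fin m → R) (b : R) : R :=
  (L.map fun g => g.shape.kC l (g.kf l b)).sum

def KA (L : List Term) (l : Fin m → R) (b : R) : R :=
  (L.map fun g => g.shape.kA l (g.kf l b)).sum

def KE (L : List Term) (l : Fin m → R) (b : R) : R :=
  (L.map fun g => g.shape.kE l (g.kf l b)).sum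

def KK (L : List Term) (l : Fin m → R) (b : R) (k i j : Fin m) : R :=
  (L.map fun g => g.shape.kK l (g.kf l b) k i j).sum

/-- block decomposition of one term -/
theorem Term.ldiv_k0 (X : LS R m) (T12 : ∀ i j k, X.T i j k = X.T j i k)
    (T23 : ∀ i j k, X.T i j k = X.T i k j) (ϖ : ℚ) (g : Term) (hg : g.k0) :
    g.ldiv ϖ X = ∑ o, (g.shape.kQ X.l (g.kf X.l X.b0) (g.kfi ϖ X.l X.b0) o (fun j => X.T o j j)
        + X.p o * g.shape.kL X.l (g.kf X.l X.b0) (g.kfi ϖ X.l X.b0) (g.kfb X.l X.b0) o
            (fun j => X.T o j j)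
        + X.p o ^ 2 * g.shape.kc X.l (g.kfb X.l X.b0) o)
      + g.shape.kC X.l (g.kf X.l X.b0) - X.eps * X.u * g.shape.kA X.l (g.kf X.l X.b0)
      + X.eps ^ 2 * g.shape.kE X.l (g.kf X.l X.b0)
      + ∑ k, ∑ i, ∑ j, (if dist3 k i j then
          X.T k i j ^ 2 * g.shape.kK X.l (g.kf X.l X.b0) k i j else 0) := by
  obtain ⟨h1, h2, h3⟩ := hg
  obtain ⟨shape, facs, ge, coef⟩ := g
  simp only at h1 h2 h3
  subst h3
  -- the coefficient is absorbed in the scalar functions
  have hf : facsLv X facs = facsKv X.l X.b0 facs := facsLv_k0 X facs h2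
  have hfk : ∀ k, facsLd X k facs + algebraMap ℚ R ((⟨shape, facs, 0, coef⟩ : Term).ex ϖ)
        * facsKv X.l X.b0 facs * X.w k
      = ∑ i, (facsKi X.l X.b0 i facs + algebraMap ℚ R ((⟨shape, facs, 0, coef⟩ : Term).ex ϖ)
          * facsKv X.l X.b0 facs * X.l i) * X.T k i i
        + facsKb X.l X.b0 facs * (2 * X.l k * X.p k) := by
    intro k
    rw [facsLd_k0 X k facs h2]
    simp only [LS.w, add_mul, Finset.sum_add_distrib, Finset.mul_sum]
    have : ∀ i, algebraMap ℚ R ((⟨shape, facs, 0, coef⟩ : Term).ex ϖ) * facsKv X.l X.b0 facs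
        * (X.l i * X.T k i i) = algebraMap ℚ R ((⟨shape, facs, 0, coef⟩ : Term).ex ϖ)
          * facsKv X.l X.b0 facs * X.l i * X.T k i i := fun i => by ring
    simp only [this]
    ring
  have hkfi : (⟨shape, facs, 0, coef⟩ : Term).kfi ϖ X.l X.b0
      = fun i => algebraMap ℚ R coef * (facsKi X.l X.b0 i facs
        + algebraMap ℚ R ((⟨shape, facs, 0, coef⟩ : Term).ex ϖ) * facsKv X.l X.b0 facs * X.l i) := rfl
  rw [hkfi]
  simp only [Term.ldiv, Term.kf, Term.kfb, pow_zero, mul_one, hf]
  simp only [hfk]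
  clear hkfi
  generalize algebraMap ℚ R ((⟨shape, facs, 0, coef⟩ : Term).ex ϖ) = ex
  generalize algebraMap ℚ R coef = c
  generalize facsKv X.l X.b0 facs = f
  generalize facsKb X.l X.b0 facs = fb
  generalize hfi : (fun i => facsKi X.l X.b0 i facs + ex * f * X.l i) = fi
  have hfi' : ∀ i, facsKi X.l X.b0 i facs + ex * f * X.l i = fi i := fun i => congrFun hfi i
  simp only [hfi']
  clear hfi hfi'
  have hs : ∀ y : Fin m → R, ∑ i, c * fi i * y i = c * ∑ i, fi i * y i := by
    intro y
    rw [Finset.mul_sum]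
    exact Finset.sum_congr rfl fun i _ => by ring
  have hd : ∀ G : Fin m → Fin m → Fin m → R,
      ∑ k, ∑ i, ∑ j, (if dist3 k i j then X.T k i j ^ 2 * (c * G k i j) else 0)
        = c * ∑ k, ∑ i, ∑ j, (if dist3 k i j then X.T k i j ^ 2 * G k i j else 0) := by
    intro G
    simp only [Finset.mul_sum, mul_ite, mul_zero]
    refine Finset.sum_congr rfl fun k _ => Finset.sum_congr rfl fun i _ =>
      Finset.sum_congr rfl fun j _ => ?_
    split_ifs
    · ring
    · rfl
  cases shape with
  | v0 a =>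
    simp only [Shape.ldiv, Shape.kQ, Shape.kL, Shape.kc, Shape.kC, Shape.kA, Shape.kE, Shape.kK]
    rw [ldiv_v0 X T12 T23 a f fi fb _ (fun k => rfl)]
    simp only [mul_zero, ite_self, Finset.sum_const_zero, add_zero, zero_add, hs]
    have e1 : ∑ o, (X.p o * (X.l o ^ a * (c * ∑ i, fi i * X.T o i i)
          + c * f * hsum X.l a o (fun j => X.T o j j))
        + X.p o ^ 2 * (2 * (c * fb) * X.l o ^ (a + 1)))
        = c * ∑ o, (X.p o * (X.l o ^ a * (∑ i, fi i * X.T o i i)
          + f * hsum X.l a o (fun j => X.T o j j)) + X.p o ^ 2 * (2 * fb * X.l o ^ (a + 1))) := by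
      rw [Finset.mul_sum]
      exact Finset.sum_congr rfl fun o _ => by ring
    rw [e1]
    ring
  | p1 A =>
    cases A with
    | sym _ _ => exact absurd h1 (by simp [Shape.k0])
    | pow a =>
      simp only [Shape.ldiv, Shape.kQ, Shape.kL, Shape.kc, Shape.kC, Shape.kA, Shape.kE, Shape.kK]
      rw [ldiv_p1 X T12 T23 a f fi fb _ (fun k => rfl)]
      have e1 : ∑ o, ((∑ i, c * fi i * X.T o i i) * dotp X.l a (fun j => X.T o j j)
            + c * f * dgs X.l a 0 o (fun j => X.T o j j)
          + X.p o * (2 * (c * fb) * X.l o * dotp X.l a (fun j => X.T o j j)) + X.p o ^ 2 * 0)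
          = c * ∑ o, ((∑ i, fi i * X.T o i i) * dotp X.l a (fun j => X.T o j j)
            + f * dgs X.l a 0 o (fun j => X.T o j j)
          + X.p o * (2 * fb * X.l o * dotp X.l a (fun j => X.T o j j))) := by
        rw [Finset.mul_sum]
        exact Finset.sum_congr rfl fun o _ => by rw [hs]; ring
      rw [e1]
      have e2 := hd fun k i j => f * hh a (X.l i) (X.l j)
      simp only [← mul_assoc] at e2 ⊢
      rw [e2]
      ring
  | h1 A B =>
    cases A with
    | sym _ _ => exact absurd h1 (by cases B <;> simp [Shape.k0])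
    | pow a =>
      cases B with
      | sym _ _ => exact absurd h1 (by simp [Shape.k0])
      | pow b =>
        rw [ldiv_h1 X T12 T23 a b f fi fb _ (fun k => rfl)]
        simp only [Shape.kQ, Shape.kL, Shape.kc, Shape.kC, Shape.kA, Shape.kE, Shape.kK]
        have e1 : ∑ o, ((∑ i, c * fi i * X.T o i i) * (X.l o ^ b * dotp X.l a (fun j => X.T o j j)
                - X.l o ^ a * dotp X.l b (fun j => X.T o j j))
              + c * f * (hsum X.l b o (fun j => X.T o j j) * dotp X.l a (fun j => X.T o j j)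
                - hsum X.l a o (fun j => X.T o j j) * dotp X.l b (fun j => X.T o j j)
                + dgs X.l a b o (fun j => X.T o j j) - dgs X.l b a o (fun j => X.T o j j))
            + X.p o * (2 * (c * fb) * X.l o * (X.l o ^ b * dotp X.l a (fun j => X.T o j j)
                - X.l o ^ a * dotp X.l b (fun j => X.T o j j))) + X.p o ^ 2 * 0)
            = c * ∑ o, (((∑ i, fi i * X.T o i i) * (X.l o ^ b * dotp X.l a (fun j => X.T o j j)
                - X.l o ^ a * dotp X.l b (fun j => X.T o j j))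
              + f * (hsum X.l b o (fun j => X.T o j j) * dotp X.l a (fun j => X.T o j j)
                - hsum X.l a o (fun j => X.T o j j) * dotp X.l b (fun j => X.T o j j)
                + dgs X.l a b o (fun j => X.T o j j) - dgs X.l b a o (fun j => X.T o j j)))
            + X.p o * (2 * fb * X.l o * (X.l o ^ b * dotp X.l a (fun j => X.T o j j)
                - X.l o ^ a * dotp X.l b (fun j => X.T o j j)))) := by
          rw [Finset.mul_sum]
          exact Finset.sum_congr rfl fun o _ => by rw [hs]; ring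
        rw [e1]
        have e2 := hd fun k i j => f * (X.l k ^ b * hh a (X.l i) (X.l j)
          - X.l k ^ a * hh b (X.l i) (X.l j))
        have e3 : ∑ k, ∑ i, ∑ j, (if dist3 k i j then X.T k i j ^ 2 * (c * f *
            (X.l k ^ b * hh a (X.l i) (X.l j) - X.l k ^ a * hh b (X.l i) (X.l j))) else 0)
            = ∑ k, ∑ i, ∑ j, (if dist3 k i j then X.T k i j ^ 2 * (c * (f *
            (X.l k ^ b * hh a (X.l i) (X.l j) - X.l k ^ a * hh b (X.l i) (X.l j)))) else 0) := by
          simp only [mul_assoc]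
        rw [e3, e2]
        ring
  | h2 _ _ _ => exact absurd h1 (by simp [Shape.k0])

/-- block decomposition of the sum over a list of terms of the `b0`-class -/
theorem sum_ldiv_k0 (X : LS R m) (T12 : ∀ i j k, X.T i j k = X.T j i k)
    (T23 : ∀ i j k, X.T i j k = X.T i k j) (ϖ : ℚ) (L : List Term) (hL : ∀ g ∈ L, g.k0) :
    (L.map fun g => g.ldiv ϖ X).sum
      = ∑ o, (KQ ϖ L X.l X.b0 o (fun j => X.T o j j)
        + X.p o * KL ϖ L X.l X.b0 o (fun j => X.T o j j) + X.p o ^ 2 * Kc L X.l X.b0 o)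
      + KC L X.l X.b0 - X.eps * X.u * KA L X.l X.b0 + X.eps ^ 2 * KE L X.l X.b0
      + ∑ k, ∑ i, ∑ j, (if dist3 k i j then X.T k i j ^ 2 * KK L X.l X.b0 k i j else 0) := by
  induction L with
  | nil => simp [KQ, KL, Kc, KC, KA, KE, KK]
  | cons g L ih =>
    have h1 := g.ldiv_k0 X T12 T23 ϖ (hL g List.mem_cons_self)
    have h2 := ih fun g' hg => hL g' (List.mem_cons_of_mem _ hg)
    rw [List.map_cons, List.sum_cons, h1, h2]
    have e1 : ∀ o, KQ ϖ (g :: L) X.l X.b0 o (fun j => X.T o j j)
        = g.shape.kQ X.l (g.kf X.l X.b0) (g.kfi ϖ X.l X.b0) o (fun j => X.T o j j)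
          + KQ ϖ L X.l X.b0 o (fun j => X.T o j j) := fun o => by
      simp only [KQ, List.map_cons, List.sum_cons]
    have e2 : ∀ o, KL ϖ (g :: L) X.l X.b0 o (fun j => X.T o j j)
        = g.shape.kL X.l (g.kf X.l X.b0) (g.kfi ϖ X.l X.b0) (g.kfb X.l X.b0) o
            (fun j => X.T o j j) + KL ϖ L X.l X.b0 o (fun j => X.T o j j) := fun o => by
      simp only [KL, List.map_cons, List.sum_cons]
    have e3 : ∀ o, Kc (g :: L) X.l X.b0 o
        = g.shape.kc X.l (g.kfb X.l X.b0) o + Kc L X.l X.b0 o := fun o => by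
      simp only [Kc, List.map_cons, List.sum_cons]
    have e4 : ∀ k i j, KK (g :: L) X.l X.b0 k i j
        = g.shape.kK X.l (g.kf X.l X.b0) k i j + KK L X.l X.b0 k i j := fun k i j => by
      simp only [KK, List.map_cons, List.sum_cons]
    have e5 : ∑ k, ∑ i, ∑ j, (if dist3 k i j then X.T k i j ^ 2 * KK (g :: L) X.l X.b0 k i j else 0)
        = ∑ k, ∑ i, ∑ j, (if dist3 k i j then
            X.T k i j ^ 2 * g.shape.kK X.l (g.kf X.l X.b0) k i j else 0)
          + ∑ k, ∑ i, ∑ j, (if dist3 k i j then X.T k i j ^ 2 * KK L X.l X.b0 k i j else 0) := by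
      simp only [← Finset.sum_add_distrib]
      refine Finset.sum_congr rfl fun k _ => Finset.sum_congr rfl fun i _ =>
        Finset.sum_congr rfl fun j _ => ?_
      rw [e4]
      split_ifs
      · ring
      · ring
    rw [e5]
    simp only [e1, e2, e3, KC, KA, KE, List.map_cons, List.sum_cons]
    have e6 : ∀ A1 A2 B1 B2 C1 C2 : Fin m → R,
        ∑ o, (A1 o + A2 o + X.p o * (B1 o + B2 o) + X.p o ^ 2 * (C1 o + C2 o))
          = ∑ o, (A1 o + X.p o * B1 o + X.p o ^ 2 * C1 o)
            + ∑ o, (A2 o + X.p o * B2 o + X.p o ^ 2 * C2 o) := by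
      intro A1 A2 B1 B2 C1 C2
      rw [← Finset.sum_add_distrib]
      exact Finset.sum_congr rfl fun o _ => by ring
    rw [e6]
    ring

end Poly

end OPC
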