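import Pool.Agent.Lib.MP_9059b8_an.P14
import Pool.Agent.Lib.MP_9059b8_an.Psd8

/-!
# Splitting the check of a tree of keys into parts (ranges of keys)
-/

namespace OPC.Psd

/-- flatten a tree, keeping only the elements whose key passes the test -/
noncomputable def flatG (t : ℕ → Bool) (z : Z) : EL → EL :=
  Z.rec (fun acc => acc) (fun k a d n acc => Bool.rec acc (EL.cons k a d n acc) (t k))
    (fun _ _ ih1 ih2 acc => ih1 (ih2 acc)) z

/-- filter by the key -/
noncomputable def EG (t : ℕ → Bool) (L : EL) : EL :=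
  EL.rec EL.nil (fun k a d n _ ih => Bool.rec ih (EL.cons k a d n ih) (t k)) L

/-- the test `lo ≤ k < hi` -/
def rng (lo hi k : ℕ) : Bool := Bool.and (Nat.ble lo k) (Nat.ble (Nat.succ k) hi)

/-- the test `k < hi` -/
def rlt (hi k : ℕ) : Bool := Nat.ble (Nat.succ k) hi

/-- the test `lo ≤ k` -/
def rge (lo k : ℕ) : Bool := Nat.ble lo k

theorem EG_flat (t : ℕ → Bool) (z : Z) : ∀ L : EL, EG t (flat z L) = flatG t z (EG t L) := by
  induction z with
  | nil => intro L; rfl
  | el k a d n =>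
    intro L
    rfl
  | add p q ihp ihq =>
    intro L
    show EG t (flat p (flat q L)) = flatG t p (flatG t q (EG t L))
    rw [ihp, ihq]

theorem EG_flat_nil (t : ℕ → Bool) (z : Z) : EG t (flat z EL.nil) = flatG t z EL.nil :=
  EG_flat t z EL.nil

theorem EG_cons (t : ℕ → Bool) (k : ℕ) (a : ℤ) (d n : ℕ) (L : EL) :
    EG t (EL.cons k a d n L) = Bool.rec (EG t L) (EL.cons k a d n (EG t L)) (t k) := rfl

theorem EG_congr {t t' : ℕ → Bool} (h : ∀ k, t k = t' k) (L : EL) : EG t L = EG t' L := by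
  rw [show t = t' from funext h]

theorem ELlt_eq (K : ℕ) (L : EL) : ELlt K L = EG (rlt K) L := rfl

theorem ELge_eq (K : ℕ) (L : EL) : ELge K L = EG (rge K) L := by
  induction L with
  | nil => rfl
  | cons k a d n L ih =>
    rw [EG_cons, ← ih]
    show @Bool.rec (fun _ => EL) (EL.cons k a d n (ELge K L)) (ELge K L)
        (Nat.ble (Nat.succ k) K) =
      @Bool.rec (fun _ => EL) (ELge K L) (EL.cons k a d n (ELge K L)) (Nat.ble K k)
    rcases h : Nat.ble (Nat.succ k) K with _ | _
    · have h1 : ¬ (Nat.succ k ≤ K) := fun h' => by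
        rw [Nat.ble_eq_true_of_le h'] at h
        cases h
      rw [Nat.ble_eq_true_of_le (show K ≤ k by omega)]
    · have h1 : Nat.succ k ≤ K := Nat.le_of_ble_eq_true h
      rcases h2 : Nat.ble K k with _ | _
      · rfl
      · exact absurd (Nat.le_of_ble_eq_true h2) (by omega)

theorem EG_EG (t t' : ℕ → Bool) (L : EL) :
    EG t (EG t' L) = EG (fun k => Bool.and (t' k) (t k)) L := by
  induction L with
  | nil => rfl
  | cons k a d n L ih =>
    rw [EG_cons t', EG_cons (fun k => Bool.and (t' k) (t k)), ← ih]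
    rcases h : t' k with _ | _
    · rfl
    · rcases h2 : t k with _ | _
      · show EG t (EL.cons k a d n (EG t' L)) = _
        rw [EG_cons, h2]
        rfl
      · show EG t (EL.cons k a d n (EG t' L)) = _
        rw [EG_cons, h2]
        rfl

theorem ble_iff (a b : ℕ) : Nat.ble a b = decide (a ≤ b) := by
  rcases h : Nat.ble a b with _ | _
  · symm
    rw [decide_eq_false_iff_not]
    intro h'
    rw [Nat.ble_eq_true_of_le h'] at h
    cases h
  · symm
    rw [decide_eq_true_eq]
    exact Nat.le_of_ble_eq_true h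

theorem lt_rlt {K hi : ℕ} (h : K ≤ hi) (L : EL) : ELlt K (EG (rlt hi) L) = EG (rlt K) L := by
  rw [ELlt_eq, EG_EG]
  refine EG_congr (fun k => ?_) L
  show (rlt hi k && rlt K k) = rlt K k
  unfold rlt
  rw [ble_iff, ble_iff, Bool.eq_iff_iff]
  simp only [Bool.and_eq_true, decide_eq_true_eq]
  omega

theorem ge_rlt (K hi : ℕ) (L : EL) : ELge K (EG (rlt hi) L) = EG (rng K hi) L := by
  rw [ELge_eq, EG_EG]
  refine EG_congr (fun k => ?_) L
  show (rlt hi k && rge K k) = rng K hi k
  unfold rlt rge rng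
  exact Bool.and_comm _ _

theorem lt_rge (K lo : ℕ) (L : EL) : ELlt K (EG (rge lo) L) = EG (rng lo K) L := by
  rw [ELlt_eq, EG_EG]
  rfl

theorem ge_rge {K lo : ℕ} (h : lo ≤ K) (L : EL) : ELge K (EG (rge lo) L) = EG (rge K) L := by
  rw [ELge_eq, EG_EG]
  refine EG_congr (fun k => ?_) L
  show (rge lo k && rge K k) = rge K k
  unfold rge
  rw [ble_iff, ble_iff, Bool.eq_iff_iff]
  simp only [Bool.and_eq_true, decide_eq_true_eq]
  omega

theorem lt_rng {K lo hi : ℕ} (h : K ≤ hi) (L : EL) :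
    ELlt K (EG (rng lo hi) L) = EG (rng lo K) L := by
  rw [ELlt_eq, EG_EG]
  refine EG_congr (fun k => ?_) L
  show (rng lo hi k && rlt K k) = rng lo K k
  unfold rng rlt
  rw [ble_iff, ble_iff, ble_iff, Bool.eq_iff_iff]
  simp only [Bool.and_eq_true, decide_eq_true_eq]
  omega

theorem ge_rng {K lo hi : ℕ} (h : lo ≤ K) (L : EL) :
    ELge K (EG (rng lo hi) L) = EG (rng K hi) L := by
  rw [ELge_eq, EG_EG]
  refine EG_congr (fun k => ?_) L
  show (rng lo hi k && rge K k) = rng K hi k
  unfold rng rge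
  rw [ble_iff, ble_iff, ble_iff, Bool.eq_iff_iff]
  simp only [Bool.and_eq_true, decide_eq_true_eq]
  omega

theorem treeOK_node' {Q : CD} {K : ℕ} {l r : KT} {L : EL} (h1 : treeOK Q l (ELlt K L) = true)
    (h2 : treeOK Q r (ELge K L) = true) : treeOK Q (KT.node K l r) L = true := by
  show (treeOK Q l (ELlt K L) && treeOK Q r (ELge K L)) = true
  rw [h1, h2]
  rfl

/-- a part of the final check: the keys passing the test `t` -/
def TreeP (Q : CD) (z : Z) (t : ℕ → Bool) (c : KT) : Prop :=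
  treeOK Q c (EG t (flat z EL.nil)) = true

theorem TreeP_of {Q : CD} {z : Z} {t : ℕ → Bool} {c : KT}
    (h : treeOK Q c (flatG t z EL.nil) = true) : TreeP Q z t c := by
  unfold TreeP
  rw [EG_flat_nil]
  exact h

theorem TreeP_root {Q : CD} {z : Z} {K : ℕ} {l r : KT} (h1 : TreeP Q z (rlt K) l)
    (h2 : TreeP Q z (rge K) r) : treeOK Q (KT.node K l r) (flat z EL.nil) = true := by
  refine treeOK_node' ?_ ?_
  · rw [ELlt_eq]; exact h1
  · rw [ELge_eq]; exact h2

theorem TreeP_lt {Q : CD} {z : Z} {K hi : ℕ} {l r : KT} (h : Nat.ble K hi = true)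
    (h1 : TreeP Q z (rlt K) l) (h2 : TreeP Q z (rng K hi) r) :
    TreeP Q z (rlt hi) (KT.node K l r) := by
  refine treeOK_node' ?_ ?_
  · rw [lt_rlt (Nat.le_of_ble_eq_true h)]; exact h1
  · rw [ge_rlt]; exact h2

theorem TreeP_ge {Q : CD} {z : Z} {K lo : ℕ} {l r : KT} (h : Nat.ble lo K = true)
    (h1 : TreeP Q z (rng lo K) l) (h2 : TreeP Q z (rge K) r) :
    TreeP Q z (rge lo) (KT.node K l r) := by
  refine treeOK_node' ?_ ?_
  · rw [lt_rge]; exact h1
  · rw [ge_rge (Nat.le_of_ble_eq_true h)]; exact h2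

theorem TreeP_rng {Q : CD} {z : Z} {K lo hi : ℕ} {l r : KT} (h : Nat.ble lo K = true)
    (h' : Nat.ble K hi = true) (h1 : TreeP Q z (rng lo K) l) (h2 : TreeP Q z (rng K hi) r) :
    TreeP Q z (rng lo hi) (KT.node K l r) := by
  refine treeOK_node' ?_ ?_
  · rw [lt_rng (Nat.le_of_ble_eq_true h')]; exact h1
  · rw [ge_rng (Nat.le_of_ble_eq_true h)]; exact h2


/-! ### Gram tables: rectangles of cells -/

/-- the check of one cell of the Gram table -/
noncomputable def celF (P : Par) (v : ℕ) (Q : BD) (K : BK) (i j : ℕ) : Bool :=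
  Bool.and (eqA P v Q i j (nth (0, 0) (nth [] K.tab i) j).1)
    (eqB Q i j (nth (0, 0) (nth [] K.tab i) j).2)

theorem allN_of {f : ℕ → Bool} : ∀ {n : ℕ}, (∀ i < n, f i = true) → allN f n = true := by
  intro n
  induction n with
  | zero => intro _; rfl
  | succ n ih =>
    intro h
    show (f n && allN f n) = true
    rw [h n (Nat.lt_succ_self n), ih fun i hi => h i (Nat.lt_succ_of_lt hi)]
    rfl

theorem rowF_of_cel {P : Par} {v : ℕ} {Q : BD} {K : BK} {i : ℕ}
    (h : ∀ j ≤ i, celF P v Q K i j = true) : rowF P v Q K i = true :=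
  allN_of (f := fun j => celF P v Q K i j) fun j hj => h j (Nat.le_of_lt_succ hj)

/-- the cells of a rectangle -/
noncomputable def blkF (f : ℕ → ℕ → Bool) (a m b n : ℕ) : Bool :=
  allN (fun i => allN (fun j => f (Nat.add a i) (Nat.add b j)) n) m

/-- the cells of a triangle on the diagonal -/
noncomputable def diaF (f : ℕ → ℕ → Bool) (a m : ℕ) : Bool :=
  allN (fun i => allN (fun j => f (Nat.add a i) (Nat.add a j)) (Nat.succ i)) m

theorem blkF_spec {f : ℕ → ℕ → Bool} {a m b n : ℕ} (h : blkF f a m b n = true) (i j : ℕ)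
    (h1 : a ≤ i ∧ i < a + m ∧ b ≤ j ∧ j < b + n) : f i j = true := by
  have h2 := allN_spec (allN_spec h (i - a) (by omega)) (j - b) (by omega)
  have e1 : Nat.add a (i - a) = i := by
    show a + (i - a) = i
    omega
  have e2 : Nat.add b (j - b) = j := by
    show b + (j - b) = j
    omega
  rw [← e1, ← e2]
  exact h2

theorem diaF_spec {f : ℕ → ℕ → Bool} {a m : ℕ} (h : diaF f a m = true) (i j : ℕ)
    (h1 : a ≤ j ∧ j ≤ i ∧ i < a + m) : f i j = true := by
  have h2 := allN_spec (allN_spec h (i - a) (by omega)) (j - a) (by omega)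
  have e1 : Nat.add a (i - a) = i := by
    show a + (i - a) = i
    omega
  have e2 : Nat.add a (j - a) = j := by
    show a + (j - a) = j
    omega
  rw [← e1, ← e2]
  exact h2

end OPC.Psd
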