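import Pool.Agent.Lib.MP_9059b8_an.N6C
import Pool.Agent.Lib.MP_9059b8_an.Spt

/-!
# Splitting the check of a canonical form into parts (ranges of keys)
-/

namespace OPC.Psx

open OPC.Psd

/-- a part of the canonical-form check: the keys passing the test `t` -/
def CanP (Q : CP) (z : Z) (t : ℕ → Bool) (c : CT) : Prop := canOK Q c (EG t (flat z EL.nil)) = true

theorem CanP_of {Q : CP} {z : Z} {t : ℕ → Bool} {c : CT}
    (h : canOK Q c (flatG t z EL.nil) = true) : CanP Q z t c := by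
  unfold CanP
  rw [EG_flat_nil]
  exact h

theorem CanP_root {Q : CP} {z : Z} {K : ℕ} {l r : CT} (h1 : CanP Q z (rlt K) l)
    (h2 : CanP Q z (rge K) r) : canOK Q (CT.node K l r) (flat z EL.nil) = true := by
  refine canOK_node ?_ ?_
  · rw [ELlt_eq]; exact h1
  · rw [ELge_eq]; exact h2

theorem CanP_lt {Q : CP} {z : Z} {K hi : ℕ} {l r : CT} (h : Nat.ble K hi = true)
    (h1 : CanP Q z (rlt K) l) (h2 : CanP Q z (rng K hi) r) : CanP Q z (rlt hi) (CT.node K l r) := by
  refine canOK_node ?_ ?_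
  · rw [lt_rlt (Nat.le_of_ble_eq_true h)]; exact h1
  · rw [ge_rlt]; exact h2

theorem CanP_ge {Q : CP} {z : Z} {K lo : ℕ} {l r : CT} (h : Nat.ble lo K = true)
    (h1 : CanP Q z (rng lo K) l) (h2 : CanP Q z (rge K) r) : CanP Q z (rge lo) (CT.node K l r) := by
  refine canOK_node ?_ ?_
  · rw [lt_rge]; exact h1
  · rw [ge_rge (Nat.le_of_ble_eq_true h)]; exact h2

theorem CanP_rng {Q : CP} {z : Z} {K lo hi : ℕ} {l r : CT} (h : Nat.ble lo K = true)
    (h' : Nat.ble K hi = true) (h1 : CanP Q z (rng lo K) l) (h2 : CanP Q z (rng K hi) r) :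
    CanP Q z (rng lo hi) (CT.node K l r) := by
  refine canOK_node ?_ ?_
  · rw [lt_rng (Nat.le_of_ble_eq_true h')]; exact h1
  · rw [ge_rng (Nat.le_of_ble_eq_true h)]; exact h2

end OPC.Psx
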